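import Pool.Agent.Q182.CylVc

/-!
# Trees with virtually cyclic edge stabilizers
-/

set_option autoImplicit false

namespace Q182.Cyl

open SimpleGraph
open scoped Pointwise
open Pool.Agent.Helper270.Tree
open Pool.Agent.Y110.FJ (ClosedE)
open Pool.Agent.Y462.SS (Closed)
open Subgroup (Commensurable)

section one

variable {G V : Type} [Group G] [MulAction G V] {T : SimpleGraph V}

/-- **the theorem on commensurators of edge stabilizers** -/
theorem main1 {C : ∀ (G : Type) [Group G], Prop} (hC : ClosedA C) (hT : TreeAct G T)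
    (hcf : CorF G T) (hst : ∀ v : V, C (MulAction.stabilizer G v))
    (hcom : ∀ v w : V, T.Adj v w → Infinite (Est G v w) →
      C (Subgroup.Commensurable.commensurator (Est G v w))) : C G := by
  let _ := coneAct hT
  have hA : TreeAct G (cone T (cyls G T)) := treeAct_cone hT hcf
  refine hC.acyl G G (V ⊕ cyls G T) (MonoidHom.id G) (cone T (cyls G T)) 5
    (fun g => ⟨g, rfl⟩) hA.isTree hA.adj hA.noInv (finite_cone hT hcf) ?_ ?_
  · rintro (v | S)
    · refine hC.base.base.of_injective _ _ (Subgroup.inclusion ?_)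
        (Subgroup.inclusion_injective _) (hst v)
      intro g hg
      have h1 : g • (Sum.inl v : V ⊕ cyls G T) = Sum.inl v := hg
      exact Sum.inl.inj h1
    · obtain ⟨v, w, hvw, hinf, hS⟩ := S.2
      refine hC.base.base.of_injective _ _ (Subgroup.inclusion ?_)
        (Subgroup.inclusion_injective _) (hcom v w hvw hinf)
      intro g hg
      have h1 : g • (Sum.inr S : V ⊕ cyls G T) = Sum.inr S := hg
      have h2 : (fun x => g • x) '' S.1 = S.1 := congrArg Subtype.val (Sum.inr.inj h1)
      have h3 : g • v ∈ S.1 := by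
        rw [← h2]
        exact ⟨v, by rw [hS]; exact self_mem_cyl hvw, rfl⟩
      have h4 : g • w ∈ S.1 := by
        rw [← h2]
        exact ⟨w, by rw [hS]; exact self_mem_cyl' hvw, rfl⟩
      rw [hS] at h3 h4
      have h5 : T.Adj (g • v) (g • w) := hT.adj g v w hvw
      have h6 := between hT hcf hinf h3 h4 h5 (by
        rw [dist_self, dist_self, dist_eq_one_iff_adj.2 h5])
      rw [Est_smul] at h6
      exact (Subgroup.Commensurable.commensurator_mem_iff _ _).2 h6.symm
  · intro W hW
    exact vcyc_mem hC.base.base hW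

end one

section two

/-- the preimage of a cyclic group under a homomorphism with infinite cyclic central kernel -/
theorem pre_cyc {C : ∀ (G : Type) [Group G], Prop} (hC : Closed C) {N F : Type} [Group N]
    [Group F] (π : N →* F) {z c : N} (hz : InfOrd z) (hker : π.ker = Subgroup.zpowers z)
    (hcz : c * z = z * c) : C ↥((Subgroup.zpowers (π c)).comap π) := by
  have hπz : π z = 1 := by
    have : z ∈ π.ker := by
      rw [hker]
      exact Subgroup.mem_zpowers z
    exact this
  by_cases hfin : ∃ n : ℕ, 0 < n ∧ (π c) ^ n = 1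
  · obtain ⟨n, hn, h⟩ := hfin
    have h1 : IsOfFinOrder (π c) := isOfFinOrder_iff_pow_eq_one.2 ⟨n, hn, h⟩
    have h2 : Finite (Subgroup.zpowers (π c)) := h1.finite_zpowers
    refine fi_mem hC (K := Subgroup.zpowers z) ?_ (zp_mem hC z)
    rw [← hker, Subgroup.relIndex_ker]
    have h3 : (((Subgroup.zpowers (π c)).comap π).map π) ≤ Subgroup.zpowers (π c) :=
      Subgroup.map_comap_le _ _
    have h4 : Finite (((Subgroup.zpowers (π c)).comap π).map π) :=
      Finite.of_injective _ (Subgroup.inclusion_injective h3)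
    exact Nat.card_pos.ne'
  · have hc : InfOrd (π c) := fun n hn h => hfin ⟨n, hn, h⟩
    have hcomm : ∀ i j : ℤ, c ^ i * z ^ j = z ^ j * c ^ i := fun i j =>
      ((show Commute c z from hcz).zpow_zpow i j).eq
    let f : Multiplicative ℤ × Multiplicative ℤ →* (Subgroup.zpowers (π c)).comap π :=
      { toFun := fun x => ⟨z ^ x.1.toAdd * c ^ x.2.toAdd, by
          rw [Subgroup.mem_comap, map_mul, map_zpow, map_zpow, hπz, one_zpow, one_mul]
          exact Subgroup.mem_zpowers_iff.2 ⟨_, rfl⟩⟩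
        map_one' := by
          apply Subtype.ext
          show z ^ (0 : ℤ) * c ^ (0 : ℤ) = 1
          rw [zpow_zero, zpow_zero, one_mul]
        map_mul' := by
          intro x y
          apply Subtype.ext
          show z ^ (x.1.toAdd + y.1.toAdd) * c ^ (x.2.toAdd + y.2.toAdd) =
            z ^ x.1.toAdd * c ^ x.2.toAdd * (z ^ y.1.toAdd * c ^ y.2.toAdd)
          rw [zpow_add, zpow_add, mul_assoc, mul_assoc, ← mul_assoc (z ^ y.1.toAdd),
            ← hcomm, mul_assoc (c ^ x.2.toAdd), ← mul_assoc] }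
    have hf : Function.Bijective f := by
      constructor
      · rw [injective_iff_map_eq_one]
        intro x hx
        have h1 : z ^ x.1.toAdd * c ^ x.2.toAdd = 1 := congrArg Subtype.val hx
        have h2 := congrArg π h1
        rw [map_mul, map_zpow, map_zpow, hπz, one_zpow, one_mul, map_one] at h2
        have h3 := hc.zpow h2
        rw [h3, zpow_zero, mul_one] at h1
        have h4 := hz.zpow h1
        refine Prod.ext ?_ ?_
        · rw [← ofAdd_toAdd x.1, h4]
          rfl
        · rw [← ofAdd_toAdd x.2, h3]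
          rfl
      · rintro ⟨n, hn⟩
        obtain ⟨i, hi⟩ := Subgroup.mem_zpowers_iff.1 hn
        have h1 : n * (c ^ i)⁻¹ ∈ π.ker := by
          rw [MonoidHom.mem_ker, map_mul, map_inv, map_zpow, hi, mul_inv_cancel]
        rw [hker] at h1
        obtain ⟨j, hj⟩ := Subgroup.mem_zpowers_iff.1 h1
        refine ⟨(Multiplicative.ofAdd j, Multiplicative.ofAdd i), Subtype.ext ?_⟩
        show z ^ j * c ^ i = n
        rw [hj, inv_mul_cancel_right]
    let e := MulEquiv.ofBijective f hf
    exact hC.of_injective _ _ e.symm.toMonoidHom e.symm.injective (hC.prod _ _ hC.int hC.int)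

variable {G V : Type} [Group G] [MulAction G V] {T : SimpleGraph V}

/-- every edge stabilizer is virtually cyclic -/
def VcEdges (G : Type) [Group G] [MulAction G V] (T : SimpleGraph V) : Prop :=
  ∀ v w : V, T.Adj v w → ∃ c ∈ Est G v w, (Subgroup.zpowers c).relIndex (Est G v w) ≠ 0

theorem exists_infOrd {H : Subgroup G} (h : ∃ c ∈ H, (Subgroup.zpowers c).relIndex H ≠ 0)
    {K : Subgroup G} (hK : K ≤ H) (hinf : Infinite K) : ∃ z ∈ K, InfOrd z := by
  obtain ⟨c, hc, hi⟩ := h
  have h1 : (Subgroup.zpowers c ⊓ K).relIndex K ≠ 0 := by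
    rw [Subgroup.inf_relIndex_right]
    intro h0
    exact hi (Subgroup.relIndex_eq_zero_of_le_right hK h0)
  have h2 : Infinite ↥(Subgroup.zpowers c ⊓ K) := by
    by_contra hcon
    rw [not_infinite_iff_finite] at hcon
    exact (not_finite_iff_infinite.2 hinf) (finite_of_index inf_le_right h1 hcon)
  have hcinf : InfOrd c := by
    intro n hn h
    have h3 : IsOfFinOrder c := isOfFinOrder_iff_pow_eq_one.2 ⟨n, hn, h⟩
    have h4 : Finite (Subgroup.zpowers c) := h3.finite_zpowers
    exact (not_finite_iff_infinite.2 h2) (Finite.of_injective _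
      (Subgroup.inclusion_injective (inf_le_left : Subgroup.zpowers c ⊓ K ≤ _)))
  obtain ⟨x, hx⟩ := exists_ne (1 : ↥(Subgroup.zpowers c ⊓ K))
  obtain ⟨j, hj⟩ := Subgroup.mem_zpowers_iff.1 (Subgroup.mem_inf.1 x.2).1
  have hj0 : j ≠ 0 := by
    rintro rfl
    apply hx
    apply Subtype.ext
    rw [← hj, zpow_zero]
    rfl
  refine ⟨x, (Subgroup.mem_inf.1 x.2).2, ?_⟩
  rw [← hj]
  exact hcinf.zpow' hj0

theorem corF_of_vc (h : VcEdges G T) : CorF G T := by
  intro v w v' w' hvw hvw'
  by_cases hf : Finite ↥(Est G v w ⊓ Est G v' w')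
  · exact Or.inr hf
  · left
    rw [not_finite_iff_infinite] at hf
    obtain ⟨z, hz, hzi⟩ := exists_infOrd (h v w hvw) inf_le_left hf
    have h1 := zp_index (h v w hvw) hzi (Subgroup.mem_inf.1 hz).1
    have h2 := zp_index (h v' w' hvw') hzi (Subgroup.mem_inf.1 hz).2
    constructor
    · intro h0
      exact h2 (Subgroup.relIndex_eq_zero_of_le_left
        (Subgroup.zpowers_le.2 (Subgroup.mem_inf.1 hz).1) h0)
    · intro h0
      exact h1 (Subgroup.relIndex_eq_zero_of_le_left
        (Subgroup.zpowers_le.2 (Subgroup.mem_inf.1 hz).2) h0)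

/-- the action of a group on the fixed points of a normal cyclic subgroup -/
@[reducible] def fixAct (N : Subgroup G) (z : G) (hN : ∀ n ∈ N, n⁻¹ * z * n ∈ Subgroup.zpowers z) :
    MulAction N {v : V // z • v = v} where
  smul n v := ⟨(n : G) • v.1, by
    obtain ⟨i, hi⟩ := Subgroup.mem_zpowers_iff.1 (hN n n.2)
    have h1 : z * (n : G) = (n : G) * ((n : G)⁻¹ * z * (n : G)) := by group
    rw [← mul_smul, h1, ← hi, mul_smul]
    congr 1
    have h2 : z ∈ MulAction.stabilizer G v.1 := v.2
    exact (zpow_mem h2 i : z ^ i ∈ MulAction.stabilizer G v.1)⟩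
  one_smul v := by
    apply Subtype.ext
    show ((1 : N) : G) • v.1 = v.1
    rw [OneMemClass.coe_one, one_smul]
  mul_smul n m v := by
    apply Subtype.ext
    show ((n * m : N) : G) • v.1 = (n : G) • (m : G) • v.1
    rw [Subgroup.coe_mul, mul_smul]

theorem isTree_fix (hT : TreeAct G T) (z : G) (hne : ∃ v : V, z • v = v) :
    (T.induce {v : V | z • v = v}).IsTree := by
  constructor
  · rw [SimpleGraph.connected_iff]
    refine ⟨?_, ?_⟩
    · rintro ⟨v, hv⟩ ⟨w, hw⟩
      obtain ⟨q, h0, hn, hadj, hd, _⟩ := exists_geod hT.isTree v w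
      have hfix : ∀ i ≤ T.dist v w, z • q i = q i := by
        intro i hi
        refine hT.convex hv hw ?_
        have := hd i hi
        omega
      have key : ∀ i (hi : i ≤ T.dist v w), (T.induce {v : V | z • v = v}).Reachable ⟨v, hv⟩
          ⟨q i, hfix i hi⟩ := by
        intro i
        induction i with
        | zero =>
          intro hi
          have : (⟨v, hv⟩ : {v : V | z • v = v}) = ⟨q 0, hfix 0 hi⟩ := Subtype.ext h0.symm
          rw [this]
        | succ i ih =>
          intro hi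
          refine (ih (by omega)).trans ?_
          have h1 : (T.induce {v : V | z • v = v}).Adj ⟨q i, hfix i (by omega)⟩
            ⟨q (i + 1), hfix (i + 1) hi⟩ := hadj i (by omega)
          exact h1.reachable
      have h1 := key (T.dist v w) le_rfl
      have h2 : (⟨q (T.dist v w), hfix _ le_rfl⟩ : {v : V | z • v = v}) = ⟨w, hw⟩ :=
        Subtype.ext hn
      rw [h2] at h1
      exact h1
    · obtain ⟨v, hv⟩ := hne
      exact ⟨⟨v, hv⟩⟩
  · exact hT.isTree.isAcyclic.induce _

/-- the normalizer of an infinite cyclic group which fixes an edge -/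
theorem norm_mem {C : ∀ (G : Type) [Group G], Prop} (hC : ClosedA C) (hT : TreeAct G T)
    (hvc : VcEdges G T) (hst : ∀ v : V, C (MulAction.stabilizer G v)) (N : Subgroup G) {z : G}
    (hz : InfOrd z) (hzN : z ∈ N) (hN : ∀ n ∈ N, n * z * n⁻¹ = z ∨ n * z * n⁻¹ = z⁻¹)
    (hne : ∃ v : V, z • v = v) : C N := by
  have hN' : ∀ n ∈ N, n⁻¹ * z * n ∈ Subgroup.zpowers z := by
    intro n hn
    rcases hN n⁻¹ (inv_mem hn) with h | h
    · rw [inv_inv] at h
      rw [h]
      exact Subgroup.mem_zpowers z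
    · rw [inv_inv] at h
      rw [h]
      exact inv_mem (Subgroup.mem_zpowers z)
  have hN2 : ∀ n ∈ N, n * z * n⁻¹ ∈ Subgroup.zpowers z := by
    intro n hn
    have := hN' n⁻¹ (inv_mem hn)
    rwa [inv_inv] at this
  let z' : N := ⟨z, hzN⟩
  let Z : Subgroup N := Subgroup.zpowers z'
  have hZ : Z.Normal := by
    constructor
    intro x hx n
    obtain ⟨i, rfl⟩ := Subgroup.mem_zpowers_iff.1 hx
    obtain ⟨j, hj⟩ := Subgroup.mem_zpowers_iff.1 (hN2 n n.2)
    refine Subgroup.mem_zpowers_iff.2 ⟨j * i, Subtype.ext ?_⟩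
    show z ^ (j * i) = (n : G) * z ^ i * (n : G)⁻¹
    rw [zpow_mul, hj, conj_zpow]
  let _ : MulAction N {v : V | z • v = v} := fixAct N z hN'
  let ρ : N →* Equiv.Perm {v : V | z • v = v} := MulAction.toPermHom N {v : V | z • v = v}
  have hρ : ∀ x ∈ Z, ρ x = 1 := by
    intro x hx
    obtain ⟨i, rfl⟩ := Subgroup.mem_zpowers_iff.1 hx
    have h1 : ρ z' = 1 := by
      apply Equiv.ext
      intro v
      exact Subtype.ext v.2
    rw [map_zpow, h1, one_zpow]
  let ρ' : (N ⧸ Z) →* Equiv.Perm {v : V | z • v = v} := QuotientGroup.lift Z ρ hρ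
  let _ : MulAction (N ⧸ Z) {v : V | z • v = v} := MulAction.compHom _ ρ'
  have hsm : ∀ (n : N) (v : {v : V | z • v = v}), (((QuotientGroup.mk' Z n) • v :
      {v : V | z • v = v}) : V) = (n : G) • (v : V) := fun n v => rfl
  have hind : ∀ v w : {v : V | z • v = v}, (T.induce {v : V | z • v = v}).Adj v w ↔
      T.Adj v.1 w.1 := fun v w => Iff.rfl
  have hsurj : Function.Surjective (QuotientGroup.mk' Z) := QuotientGroup.mk'_surjective Z
  refine hC.acyl N (N ⧸ Z) {v : V | z • v = v} (QuotientGroup.mk' Z)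
    (T.induce {v : V | z • v = v}) 1 hsurj (isTree_fix hT z hne) ?_ ?_ ?_ ?_ ?_
  · intro f v w h
    obtain ⟨n, rfl⟩ := hsurj f
    rw [hind, hsm, hsm]
    exact hT.adj n _ _ h
  · rintro f v w h ⟨h1, h2⟩
    obtain ⟨n, rfl⟩ := hsurj f
    refine hT.noInv n v.1 w.1 h ⟨?_, ?_⟩
    · rw [← hsm, h1]
    · rw [← hsm, h2]
  · intro v w hvw
    have hne' : v.1 ≠ w.1 := by
      intro h
      have h1 : v = w := Subtype.ext h
      rw [h1, dist_self] at hvw
      omega
    obtain ⟨u, hu1, hu2⟩ := exists_first hT.isTree hne'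
    have hd1 : T.dist v.1 u = 1 := dist_eq_one_iff_adj.2 hu1
    have hzu : z ∈ Est G v.1 u := ⟨v.2, hT.convex v.2 w.2 (by omega)⟩
    have hidx : (Subgroup.zpowers z).relIndex (Est G v.1 u) ≠ 0 := zp_index (hvc _ _ hu1) hz hzu
    let B : Subgroup N := (Est G v.1 u).subgroupOf N
    have hB : Z.relIndex B ≠ 0 := by
      intro h0
      apply hidx
      have h3 : (Z.map N.subtype).relIndex (B.map N.subtype) = 0 := by
        rw [Subgroup.relIndex_map_map_of_injective _ _ N.subtype_injective]
        exact h0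
      have h4 : Z.map N.subtype = Subgroup.zpowers z := by
        rw [MonoidHom.map_zpowers]
        rfl
      rw [h4] at h3
      refine Subgroup.relIndex_eq_zero_of_le_right ?_ h3
      rintro _ ⟨x, hx, rfl⟩
      exact hx
    have hfin : Finite (B.map (QuotientGroup.mk' Z)) := by
      apply Nat.finite_of_card_ne_zero
      rw [← Subgroup.relIndex_ker, QuotientGroup.ker_mk']
      exact hB
    have hfin2 : ((B.map (QuotientGroup.mk' Z) : Subgroup (N ⧸ Z)) : Set (N ⧸ Z)).Finite :=
      Set.toFinite _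
    refine hfin2.subset ?_
    rintro f ⟨h1, h2⟩
    obtain ⟨n, rfl⟩ := hsurj f
    have h3 : (n : G) • v.1 = v.1 := by rw [← hsm, h1]
    have h4 : (n : G) • w.1 = w.1 := by rw [← hsm, h2]
    exact ⟨n, ⟨h3, hT.convex h3 h4 (by omega)⟩, rfl⟩
  · intro v
    refine hC.base.base.of_injective _ _ (MonoidHom.mk' (fun x : (MulAction.stabilizer (N ⧸ Z)
      v).comap (QuotientGroup.mk' Z) => (⟨(x.1 : G), ?_⟩ : MulAction.stabilizer G v.1))
      (fun _ _ => rfl)) ?_ (hst v.1)
    · have h1 : (QuotientGroup.mk' Z x.1) • v = v := x.2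
      show (x.1 : G) • v.1 = v.1
      rw [← hsm, h1]
    · intro x y hxy
      exact Subtype.ext (Subtype.ext (congrArg (fun u : MulAction.stabilizer G v.1 => (u : G)) hxy))
  · rintro W ⟨c, hcW, hc⟩
    obtain ⟨c', rfl⟩ := hsurj c
    have hz' : InfOrd z' := fun n hn h => hz n hn (congrArg Subtype.val h)
    have hcomm : (c' ^ 2) * z' = z' * (c' ^ 2) := by
      apply Subtype.ext
      show (c' : G) ^ 2 * z = z * (c' : G) ^ 2
      have h1 : (c' : G) ^ 2 * z * ((c' : G) ^ 2)⁻¹ = z := by
        have h2 : (c' : G) ^ 2 * z * ((c' : G) ^ 2)⁻¹ = c' * (c' * z * (c' : G)⁻¹) * (c' : G)⁻¹ := by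
          rw [pow_two, mul_inv_rev]
          simp only [mul_assoc]
        rw [h2]
        rcases hN c' c'.2 with h | h
        · rw [h, h]
        · rw [h]
          have h3 : (c' : G) * z⁻¹ * (c' : G)⁻¹ = (c' * z * (c' : G)⁻¹)⁻¹ := by group
          rw [h3, h, inv_inv]
      exact mul_inv_eq_iff_eq_mul.1 h1
    have h1 := pre_cyc hC.base.base (QuotientGroup.mk' Z) (z := z') (c := c' ^ 2) hz'
      (QuotientGroup.ker_mk' Z) hcomm
    refine fi_mem hC.base.base ?_ h1
    rw [Subgroup.relIndex_comap, Subgroup.map_comap_eq_self_of_surjective hsurj, map_pow]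
    exact Subgroup.relIndex_ne_zero_trans (zp_pow_index _ 2 (by norm_num)) hc

/-- powers of elements of infinite order which fix an edge are conjugate only if the exponents are
equal up to sign -/
def Balanced (G : Type) [Group G] [MulAction G V] (T : SimpleGraph V) : Prop :=
  ∀ (v w : V) (h g : G) (m n : ℤ), T.Adj v w → h ∈ Est G v w → InfOrd h →
    g * h ^ m * g⁻¹ = h ^ n → |m| = |n|

/-- the elements which conjugate `z` to `z` or its inverse -/
def NZ (z : G) : Subgroup G where
  carrier := {g | g * z * g⁻¹ = z ∨ g * z * g⁻¹ = z⁻¹}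
  one_mem' := Or.inl (by group)
  mul_mem' := by
    intro a b ha hb
    have h1 : a * b * z * (a * b)⁻¹ = a * (b * z * b⁻¹) * a⁻¹ := by
      rw [mul_inv_rev]
      simp only [mul_assoc]
    have h2 : a * z⁻¹ * a⁻¹ = (a * z * a⁻¹)⁻¹ := by
      simp only [mul_inv_rev, inv_inv, mul_assoc]
    show a * b * z * (a * b)⁻¹ = z ∨ a * b * z * (a * b)⁻¹ = z⁻¹
    rw [h1]
    rcases hb with hb | hb
    · rw [hb]
      exact ha
    · rw [hb, h2]
      rcases ha with ha | ha
      · rw [ha]
        exact Or.inr rfl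
      · rw [ha, inv_inv]
        exact Or.inl rfl
  inv_mem' := by
    intro a ha
    show a⁻¹ * z * a⁻¹⁻¹ = z ∨ a⁻¹ * z * a⁻¹⁻¹ = z⁻¹
    rw [inv_inv]
    rcases ha with ha | ha
    · left
      have h1 : a⁻¹ * (a * z * a⁻¹) * a = z := by
        simp only [mul_assoc, inv_mul_cancel, mul_one, inv_mul_cancel_left]
      rw [ha] at h1
      exact h1
    · right
      have h1 : z = a * z⁻¹ * a⁻¹ := by
        have h2 : a * z⁻¹ * a⁻¹ = (a * z * a⁻¹)⁻¹ := by
          simp only [mul_inv_rev, inv_inv, mul_assoc]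
        rw [h2, ha, inv_inv]
      conv_lhs => rw [h1]
      simp only [mul_assoc, inv_mul_cancel, mul_one, inv_mul_cancel_left]

theorem NZ_pow (z : G) (k : ℕ) : NZ z ≤ NZ (z ^ k) := by
  intro g hg
  have h1 : g * z ^ k * g⁻¹ = (g * z * g⁻¹) ^ k := conj_pow.symm
  show g * z ^ k * g⁻¹ = z ^ k ∨ g * z ^ k * g⁻¹ = (z ^ k)⁻¹
  rw [h1]
  rcases hg with h | h
  · rw [h]
    exact Or.inl rfl
  · rw [h, inv_pow]
    exact Or.inr rfl

/-- **trees with virtually cyclic edge stabilizers** -/
theorem main2 {C : ∀ (G : Type) [Group G], Prop} (hC : ClosedA C) (hT : TreeAct G T)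
    (hvc : VcEdges G T) (hbal : Balanced G T)
    (hst : ∀ v : V, C (MulAction.stabilizer G v)) : C G := by
  refine main1 hC hT (corF_of_vc hvc) hst ?_
  intro v w hvw hinf
  obtain ⟨h, hh, hho⟩ := exists_infOrd (hvc v w hvw) le_rfl hinf
  let K : ℕ → Subgroup G := fun i => NZ (h ^ (i + 1).factorial)
  have hK : Monotone K := by
    intro i j hij
    obtain ⟨k, hk⟩ := Nat.factorial_dvd_factorial (Nat.succ_le_succ hij)
    show NZ (h ^ (i + 1).factorial) ≤ NZ (h ^ (j + 1).factorial)
    have h1 : (j + 1).factorial = (i + 1).factorial * k := hk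
    rw [h1, pow_mul]
    exact NZ_pow _ k
  have hCK : ∀ i, C (K i) := by
    intro i
    refine norm_mem hC hT hvc hst (K i) (z := h ^ (i + 1).factorial)
      (hho.pow (Nat.factorial_pos _)) ?_ (fun n hn => hn) ⟨v, ?_⟩
    · exact Or.inl (by rw [mul_inv_cancel_right])
    · exact (pow_mem hh _ : h ^ (i + 1).factorial ∈ Est G v w).1
  have hidx := zp_index (hvc v w hvw) hho hh
  refine Pool.Agent.Y430.SS.of_directed hC.base.base _ ℕ
    (fun i j => ⟨max i j, le_max_left _ _, le_max_right _ _⟩)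
    (fun i => (K i).subgroupOf (Subgroup.Commensurable.commensurator (Est G v w))) ?_ ?_ ?_
  · intro i j hij x hx
    exact hK hij hx
  · rintro ⟨g, hg⟩
    have h1 := (Subgroup.Commensurable.commensurator_mem_iff _ _).1 hg
    have h2 : (Subgroup.zpowers h).relIndex (ConjAct.toConjAct g • Est G v w) ≠ 0 :=
      Subgroup.relIndex_ne_zero_trans hidx h1.2
    have h3 : g * h * g⁻¹ ∈ ConjAct.toConjAct g • Est G v w := by
      rw [Subgroup.mem_pointwise_smul_iff_inv_smul_mem, ← ConjAct.toConjAct_inv,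
        ConjAct.toConjAct_smul]
      have h4 : g⁻¹ * (g * h * g⁻¹) * g⁻¹⁻¹ = h := by
        rw [inv_inv]
        simp only [mul_assoc, inv_mul_cancel, mul_one, inv_mul_cancel_left]
      rw [h4]
      exact hh
    obtain ⟨n, hn, _, hn2⟩ := Subgroup.exists_pow_mem_of_relIndex_ne_zero h2 h3
    obtain ⟨j, hj⟩ := Subgroup.mem_zpowers_iff.1 (Subgroup.mem_inf.1 hn2).1
    rw [conj_pow] at hj
    have h5 := hbal v w h g n j hvw hh hho (by rw [zpow_natCast]; exact hj.symm)
    have h6 : g ∈ NZ (h ^ n) := by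
      show g * h ^ n * g⁻¹ = h ^ n ∨ g * h ^ n * g⁻¹ = (h ^ n)⁻¹
      rw [← hj]
      rcases abs_eq_abs.1 h5 with h7 | h7
      · left
        rw [← h7, zpow_natCast]
      · right
        have h8 : j = -(n : ℤ) := by omega
        rw [h8, zpow_neg, zpow_natCast]
    refine ⟨n, ?_⟩
    obtain ⟨k, hk⟩ := Nat.dvd_factorial hn (Nat.le_succ n)
    show g ∈ NZ (h ^ (n + 1).factorial)
    have h9 : (n + 1).factorial = n * k := hk
    rw [h9, pow_mul]
    exact NZ_pow _ k h6
  · intro i
    refine hC.base.base.of_injective _ _ (MonoidHom.mk' (fun x : (K i).subgroupOf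
      (Subgroup.Commensurable.commensurator (Est G v w)) => (⟨x.1.1, x.2⟩ : K i))
      (fun _ _ => rfl)) ?_ (hCK i)
    intro x y hxy
    exact Subtype.ext (Subtype.ext (congrArg (fun u : K i => (u : G)) hxy))

end two

end Q182.Cyl
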