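import Pool.Agent.Q182.CylMain

/-!
# Trees with a homomorphism which has finite kernels on the edge stabilizers
-/

set_option autoImplicit false

namespace Q182.Fk

open SimpleGraph
open Pool.Agent.Helper270.Tree
open Pool.Agent.Y110.FJ (ClosedE)
open Pool.Agent.Y462.SS (Closed)
open Q182.Cyl (ClosedA Est InfOrd)

/-- finite-by-cyclic groups are virtually cyclic -/
theorem vc_of_fin {G Q : Type} [Group G] [Group Q] (ρ : G →* Q) (E : Subgroup G)
    (hfin : {g : G | g ∈ E ∧ ρ g = 1}.Finite) (c : Q) (hc : ∀ g ∈ E, ρ g ∈ Subgroup.zpowers c) :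
    ∃ e ∈ E, (Subgroup.zpowers e).relIndex E ≠ 0 := by
  -- the image of `E` is cyclic
  obtain ⟨e, heE, he⟩ : ∃ e ∈ E, E.map ρ = Subgroup.zpowers (ρ e) := by
    have h1 : E.map ρ ≤ Subgroup.zpowers c := by
      rintro _ ⟨g, hg, rfl⟩
      exact hc g hg
    have h2 : IsCyclic ((E.map ρ).subgroupOf (Subgroup.zpowers c)) := inferInstance
    obtain ⟨x, hx3⟩ := h2.exists_generator
    obtain ⟨e, he, hex⟩ := x.2
    have hex' : ρ e = ((x : Subgroup.zpowers c) : Q) := hex
    refine ⟨e, he, le_antisymm ?_ ?_⟩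
    · intro y hy
      obtain ⟨n, hn⟩ := hx3 ⟨⟨y, h1 hy⟩, hy⟩
      refine ⟨n, ?_⟩
      rw [hex']
      exact congrArg (fun z : (E.map ρ).subgroupOf (Subgroup.zpowers c) =>
        ((z : Subgroup.zpowers c) : Q)) hn
    · rw [Subgroup.zpowers_le]
      exact ⟨e, he, rfl⟩
  refine ⟨e, heE, ?_⟩
  have h1 : Finite {g : G | g ∈ E ∧ ρ g = 1} := hfin
  have h2 : Finite (E ⧸ (Subgroup.zpowers e).subgroupOf E) := by
    refine Finite.of_surjective (fun k : {g : G | g ∈ E ∧ ρ g = 1} =>
      (QuotientGroup.mk (⟨k.1, k.2.1⟩ : E) : E ⧸ (Subgroup.zpowers e).subgroupOf E)) ?_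
    intro q
    obtain ⟨⟨x, hx⟩, rfl⟩ := QuotientGroup.mk_surjective q
    have h3 : ρ x ∈ E.map ρ := ⟨x, hx, rfl⟩
    rw [he] at h3
    obtain ⟨n, hn⟩ := h3
    have hn' : ρ e ^ n = ρ x := hn
    refine ⟨⟨x * (e ^ n)⁻¹, E.mul_mem hx (E.inv_mem (E.zpow_mem heE n)), ?_⟩, ?_⟩
    · rw [map_mul, map_inv, map_zpow, hn', mul_inv_cancel]
    · refine QuotientGroup.eq.2 ?_
      rw [Subgroup.mem_subgroupOf]
      refine ⟨n, ?_⟩
      show e ^ n = (x * (e ^ n)⁻¹)⁻¹ * x
      group
  exact Subgroup.index_ne_zero_of_finite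

variable {C : ∀ (G : Type) [Group G], Prop} {G V : Type} [Group G] [MulAction G V]
  {T : SimpleGraph V}

/-- **main theorem** -/
theorem main (hC : ClosedA C) {Q : Type} [Group Q] (ρ : G →* Q) (hQ : C Q) (hT : TreeAct G T)
    (hfin : ∀ v w : V, T.Adj v w → {g : G | g • v = v ∧ g • w = w ∧ ρ g = 1}.Finite)
    (hst : ∀ v : V, C (MulAction.stabilizer G v)) : C G := by
  have hR : C ρ.range := hC.base.base.of_injective _ _ ρ.range.subtype ρ.range.subtype_injective hQ
  refine hC.base.ext G ρ.range ρ.rangeRestrict ρ.rangeRestrict_surjective hR ?_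
  rintro W ⟨c, hcW, hc⟩
  refine Q182.Cyl.fi_mem hC.base.base (K := (Subgroup.zpowers c).comap ρ.rangeRestrict) ?_ ?_
  · rw [Subgroup.relIndex_comap,
      Subgroup.map_comap_eq_self_of_surjective ρ.rangeRestrict_surjective]
    exact hc
  · obtain ⟨K, hK⟩ : ∃ K : Subgroup G, K = (Subgroup.zpowers c).comap ρ.rangeRestrict := ⟨_, rfl⟩
    rw [← hK]
    have hKc : ∀ k ∈ K, ∃ n : ℤ, ρ k = (c : Q) ^ n := by
      intro k hk
      rw [hK] at hk
      obtain ⟨n, hn⟩ := hk
      exact ⟨n, (congrArg Subtype.val hn).symm⟩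
    have hTK : TreeAct K T := ⟨hT.isTree, fun g v w h => hT.adj g v w h,
      fun g v w h => hT.noInv g v w h⟩
    have hfin' : ∀ v w : V, T.Adj v w →
        {g : K | g ∈ Est K v w ∧ (ρ.comp K.subtype) g = 1}.Finite := by
      intro v w h
      have h1 := (hfin v w h).preimage (f := (Subtype.val : K → G))
        Subtype.val_injective.injOn
      refine h1.subset ?_
      rintro g ⟨⟨h2, h3⟩, h4⟩
      exact ⟨h2, h3, h4⟩
    refine Q182.Cyl.main2 hC hTK ?_ ?_ ?_
    · intro v w h
      refine vc_of_fin (ρ.comp K.subtype) (Est K v w) (hfin' v w h) (c : Q) ?_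
      intro g _
      obtain ⟨n, hn⟩ := hKc g g.2
      exact ⟨n, hn.symm⟩
    · intro v w h g m n hvw hh hinf hg
      have h1 : InfOrd (ρ (h : G)) := by
        intro k hk hk1
        obtain ⟨j, hj, i, _, hij, hne⟩ : ∃ j : ℕ, 0 < j ∧ ∃ i : ℕ, 0 < i ∧ (h ^ k) ^ j = (h ^ k) ^ i ∧
            j ≠ i := by
          have h2 : ¬ Set.InjOn (fun j : ℕ => (h ^ k) ^ (j + 1)) Set.univ := by
            intro hinj
            have h3 : (Set.univ : Set ℕ).Finite := by
              refine Set.Finite.of_finite_image ((hfin' v w hvw).subset ?_) hinj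
              rintro _ ⟨j, _, rfl⟩
              refine ⟨Subgroup.pow_mem _ (Subgroup.pow_mem _ hh k) (j + 1), ?_⟩
              show ρ (((h ^ k) ^ (j + 1) : K) : G) = 1
              rw [Subgroup.coe_pow, Subgroup.coe_pow, map_pow, map_pow, hk1, one_pow]
            exact Set.infinite_univ h3
          simp only [Set.InjOn, Set.mem_univ, true_implies, not_forall] at h2
          obtain ⟨a, b, h3, h4⟩ := h2
          exact ⟨a + 1, by omega, b + 1, by omega, h3, by omega⟩
        have h2 : (h : K) ^ ((k * j : ℕ) - (k * i : ℕ) : ℤ) = 1 := by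
          rw [zpow_sub, zpow_natCast, zpow_natCast, pow_mul, pow_mul, hij, mul_inv_cancel]
        have h3 := hinf.zpow h2
        have h4 : k * j = k * i := by omega
        exact hne (Nat.eq_of_mul_eq_mul_left hk h4)
      obtain ⟨a, ha⟩ := hKc h h.2
      obtain ⟨b, hb⟩ := hKc g g.2
      have h2 : ρ (h : G) ^ m = ρ (h : G) ^ n := by
        have h3 := congrArg (fun x : K => ρ (x : G)) hg
        simp only [Subgroup.coe_mul, Subgroup.coe_zpow, Subgroup.coe_inv, map_mul, map_zpow,
          map_inv] at h3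
        rw [← h3, ha, hb]
        have h4 : Commute ((c : Q) ^ b) (((c : Q) ^ a) ^ m) := by
          rw [← zpow_mul]
          exact (Commute.refl (c : Q)).zpow_zpow _ _
        rw [h4.eq, mul_inv_cancel_right]
      have h3 : ρ (h : G) ^ (m - n) = 1 := by
        rw [zpow_sub, h2, mul_inv_cancel]
      have h4 := h1.zpow h3
      have h5 : m = n := by omega
      rw [h5]
    · intro v
      refine hC.base.base.of_injective _ _ (MonoidHom.mk' (fun x : MulAction.stabilizer K v =>
        (⟨(x.1 : G), x.2⟩ : MulAction.stabilizer G v)) (fun _ _ => rfl)) ?_ (hst v)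
      intro x y hxy
      exact Subtype.ext (Subtype.ext
        (congrArg (fun u : MulAction.stabilizer G v => (u : G)) hxy))

end Q182.Fk
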