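import Pool.Agent.Q127.KI.Stm

/-! Project KI (helper127), job DEC (by helper182). -/

set_option autoImplicit false

namespace Q182.KI_DEC

open Pool.Agent.Q127.KI

/-- **JOB DEC** -/
theorem dec (h : S_sub) : S_dec := by
  intro k w hw
  obtain ⟨r, hr⟩ := hw
  refine ⟨r, fun j => ?_⟩
  have hN : (0 : ℤ) < (N k : ℤ) := by exact_mod_cast N_pos k
  obtain ⟨q, hq⟩ : ∃ q : ℤ, q = j / (N k : ℤ) := ⟨_, rfl⟩
  obtain ⟨j0, hj0⟩ : ∃ j0 : ℕ, (j0 : ℤ) = j % (N k : ℤ) :=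
    ⟨(j % (N k : ℤ)).toNat, Int.toNat_of_nonneg (Int.emod_nonneg _ hN.ne')⟩
  have hlt : j0 < N k := by
    have h1 := Int.emod_lt_of_pos j hN
    rw [← hj0] at h1
    exact_mod_cast h1
  obtain ⟨s, hs⟩ := hr q
  have h2 := h k w (r + q * (L (k + 1) : ℤ)) s hs ⟨j0, hlt⟩
  refine ⟨e k s ⟨j0, hlt⟩, ?_⟩
  have hL : ((L (k + 1) : ℕ) : ℤ) = (N k : ℤ) * (L k : ℤ) := by
    show ((N k * L k : ℕ) : ℤ) = _
    push_cast
    ring
  have hj : j = (N k : ℤ) * q + j0 := by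
    rw [hq, hj0]
    exact (Int.mul_ediv_add_emod j (N k : ℤ)).symm
  have e1 : r + j * (L k : ℤ) = r + q * (L (k + 1) : ℤ) + (j0 : ℤ) * (L k : ℤ) := by
    rw [hL, hj]
    ring
  rw [e1]
  exact h2

end Q182.KI_DEC
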