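import Mathlib

/-!
# Absolutely H-closed topological semilattices

A topological semilattice is a type with `SemilatticeInf`, a topology and `ContinuousInf`; the
product is `⊓` and the natural order is `x ≤ y ↔ x ⊓ y = x`.
-/

namespace Q182

universe u

/-- `X` is absolutely `H`-closed: the image of every continuous homomorphism from `X` to a Hausdorff
topological semigroup `Y` (a semigroup with a Hausdorff topology and jointly continuous
multiplication) is closed in `Y`. -/
def IsAbsHClosed (X : Type) [SemilatticeInf X] [TopologicalSpace X] : Prop :=
  ∀ (Y : Type u) [Semigroup Y] [TopologicalSpace Y] [ContinuousMul Y] [T2Space Y] (h : X → Y),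
    Continuous h → (∀ x y, h (x ⊓ y) = h x * h y) → IsClosed (Set.range h)

end Q182
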