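import Pool.Agent.Q182.ACDefs

/-!
# The semilattice of functions with an initial block of infinities

A point is a function `F : ℕ → ℕ ∪ {∞}` which is `∞` exactly on an initial segment `[0, m)`, the
product is the pointwise maximum. `F'` is near `F` if `F'` agrees with `F` on `[m, k)` and
`F' (m - 1) ≥ k` (for `m > 0`).
-/

set_option autoImplicit false

open Filter Topology Set

namespace Q182.AC

/-- the function which is `∞` on `[0, m)` and equal to `f` on `[m, ∞)` -/
@[ext] structure X where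
  m : ℕ
  f : ℕ → ℕ
  h : ∀ n, n < m → f n = 0

namespace X

instance : LE X := ⟨fun x y => y.m ≤ x.m ∧ ∀ n, x.m ≤ n → y.f n ≤ x.f n⟩

lemma le_def (x y : X) : x ≤ y ↔ y.m ≤ x.m ∧ ∀ n, x.m ≤ n → y.f n ≤ x.f n := Iff.rfl

instance : PartialOrder X where
  le_refl x := ⟨le_rfl, fun _ _ => le_rfl⟩
  le_trans x y z h1 h2 := ⟨h2.1.trans h1.1, fun n hn =>
    (h2.2 n (h1.1.trans hn)).trans (h1.2 n hn)⟩
  le_antisymm x y h1 h2 := by
    have hm : x.m = y.m := le_antisymm h2.1 h1.1
    ext n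
    · exact hm
    · rcases lt_or_ge n x.m with h | h
      · rw [x.h n h, y.h n (hm ▸ h)]
      · exact le_antisymm (h2.2 n (hm ▸ h)) (h1.2 n h)

instance : SemilatticeInf X where
  inf x y := ⟨max x.m y.m, fun n => if n < max x.m y.m then 0 else max (x.f n) (y.f n),
    fun n hn => if_pos hn⟩
  inf_le_left x y := ⟨le_max_left _ _, fun n hn => by
    show x.f n ≤ if n < max x.m y.m then 0 else max (x.f n) (y.f n)
    rw [if_neg (not_lt.2 hn)]; exact le_max_left _ _⟩
  inf_le_right x y := ⟨le_max_right _ _, fun n hn => by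
    show y.f n ≤ if n < max x.m y.m then 0 else max (x.f n) (y.f n)
    rw [if_neg (not_lt.2 hn)]; exact le_max_right _ _⟩
  le_inf x y z h1 h2 := ⟨max_le h1.1 h2.1, fun n hn => by
    show (if n < max y.m z.m then 0 else max (y.f n) (z.f n)) ≤ x.f n
    split_ifs with h
    · exact Nat.zero_le _
    · exact max_le (h1.2 n hn) (h2.2 n hn)⟩

lemma inf_m (x y : X) : (x ⊓ y).m = max x.m y.m := rfl

lemma inf_f (x y : X) (n : ℕ) (hn : max x.m y.m ≤ n) : (x ⊓ y).f n = max (x.f n) (y.f n) :=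
  if_neg (not_lt.2 hn)

/-- basic neighbourhoods -/
def U (x : X) (k : ℕ) : Set X :=
  {y | y.m ≤ x.m ∧ (∀ n, x.m ≤ n → n < k → y.f n = x.f n) ∧ (y.m < x.m → k ≤ y.f (x.m - 1))}

lemma self_mem (x : X) (k : ℕ) : x ∈ U x k := ⟨le_rfl, fun _ _ _ => rfl, fun h => absurd h (lt_irrefl _)⟩

lemma U_anti (x : X) {k l : ℕ} (h : k ≤ l) : U x l ⊆ U x k := fun _ hy =>
  ⟨hy.1, fun n h1 h2 => hy.2.1 n h1 (h2.trans_le h), fun h3 => h.trans (hy.2.2 h3)⟩

lemma U_open (x : X) (k : ℕ) (y : X) (hy : y ∈ U x k) : ∃ l, U y l ⊆ U x k := by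
  refine ⟨max k x.m, fun z hz => ?_⟩
  obtain ⟨h1, h2, h3⟩ := hy
  obtain ⟨g1, g2, g3⟩ := hz
  refine ⟨g1.trans h1, fun n hn hk => ?_, fun hlt => ?_⟩
  · rw [g2 n (h1.trans hn) (lt_of_lt_of_le hk (le_max_left _ _)), h2 n hn hk]
  · rcases lt_or_eq_of_le h1 with h | h
    · have h4 : y.m ≤ x.m - 1 := by omega
      have h5 : x.m - 1 < max k x.m := lt_of_lt_of_le (by omega) (le_max_right _ _)
      rw [g2 _ h4 h5]
      exact h3 h
    · rw [← h]
      exact (le_max_left _ _).trans (g3 (by omega))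

instance : TopologicalSpace X where
  IsOpen s := ∀ x ∈ s, ∃ k, U x k ⊆ s
  isOpen_univ := fun x _ => ⟨0, subset_univ _⟩
  isOpen_inter s t hs ht x hx := by
    obtain ⟨k, hk⟩ := hs x hx.1
    obtain ⟨l, hl⟩ := ht x hx.2
    exact ⟨max k l, subset_inter ((U_anti x (le_max_left _ _)).trans hk)
      ((U_anti x (le_max_right _ _)).trans hl)⟩
  isOpen_sUnion S hS x hx := by
    obtain ⟨s, hs, hxs⟩ := hx
    obtain ⟨k, hk⟩ := hS s hs x hxs
    exact ⟨k, hk.trans (subset_sUnion_of_mem hs)⟩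

lemma isOpen_def (s : Set X) : IsOpen s ↔ ∀ x ∈ s, ∃ k, U x k ⊆ s := Iff.rfl

lemma isOpen_U (x : X) (k : ℕ) : IsOpen (U x k) := (isOpen_def _).2 (U_open x k)

lemma basis (x : X) : (𝓝 x).HasBasis (fun _ : ℕ => True) (U x) := by
  refine ⟨fun t => ⟨fun ht => ?_, fun ⟨k, _, hk⟩ => ?_⟩⟩
  · obtain ⟨s, hst, hs, hx⟩ := mem_nhds_iff.1 ht
    obtain ⟨k, hk⟩ := (isOpen_def s).1 hs x hx
    exact ⟨k, trivial, hk.trans hst⟩
  · exact mem_of_superset ((isOpen_U x k).mem_nhds (self_mem x k)) hk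

lemma inf_mem {x y x' y' : X} {k : ℕ} (hx : x' ∈ U x k) (hy : y' ∈ U y k) :
    x' ⊓ y' ∈ U (x ⊓ y) k := by
  obtain ⟨h1, h2, h3⟩ := hx
  obtain ⟨g1, g2, g3⟩ := hy
  refine ⟨?_, fun n hn hk => ?_, fun hlt => ?_⟩
  · rw [inf_m, inf_m]; exact max_le_max h1 g1
  · rw [inf_m] at hn
    rw [inf_f _ _ n ((max_le_max h1 g1).trans hn), inf_f _ _ n hn,
      h2 n ((le_max_left _ _).trans hn) hk, g2 n ((le_max_right _ _).trans hn) hk]
  · rw [inf_m, inf_m] at hlt
    rw [inf_m, inf_f _ _ _ (by omega)]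
    rcases le_total x.m y.m with h | h
    · rw [max_eq_right h] at hlt ⊢
      exact (g3 (lt_of_le_of_lt (le_max_right _ _) hlt)).trans (le_max_right _ _)
    · rw [max_eq_left h] at hlt ⊢
      exact (h3 (lt_of_le_of_lt (le_max_left _ _) hlt)).trans (le_max_left _ _)

instance : ContinuousInf X := by
  refine ⟨continuous_iff_continuousAt.2 fun p => ?_⟩
  obtain ⟨x, y⟩ := p
  unfold ContinuousAt
  rw [nhds_prod_eq]
  refine (((basis x).prod_same_index_anti (basis y) ?_ ?_).tendsto_iff (basis (x ⊓ y))).2 ?_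
  · exact fun _ _ _ _ h => U_anti x h
  · exact fun _ _ _ _ h => U_anti y h
  · intro k _
    exact ⟨k, trivial, fun q hq => inf_mem hq.1 hq.2⟩

lemma disj_of_lt {x y : X} (h : x.m < y.m) : ∃ k, Disjoint (U x k) (U y k) := by
  refine ⟨max y.m (x.f (y.m - 1) + 1), Set.disjoint_left.2 fun z hz hz' => ?_⟩
  have h1 := hz'.2.2 (lt_of_le_of_lt hz.1 h)
  rw [hz.2.1 (y.m - 1) (by omega) (lt_of_lt_of_le (by omega) (le_max_left _ _))] at h1
  have := (le_max_right y.m (x.f (y.m - 1) + 1)).trans h1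
  omega

lemma exists_disj {x y : X} (h : x ≠ y) : ∃ k, Disjoint (U x k) (U y k) := by
  rcases lt_trichotomy x.m y.m with hm | hm | hm
  · exact disj_of_lt hm
  · obtain ⟨n, hn⟩ : ∃ n, x.f n ≠ y.f n := by
      by_contra hc
      push Not at hc
      exact h (X.ext hm (funext hc))
    have hnm : x.m ≤ n := by
      by_contra hc
      exact hn (by rw [x.h n (by omega), y.h n (by omega)])
    refine ⟨n + 1, Set.disjoint_left.2 fun z hz hz' => hn ?_⟩
    rw [← hz.2.1 n hnm (by omega), ← hz'.2.1 n (by omega) (by omega)]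
  · obtain ⟨k, hk⟩ := disj_of_lt hm
    exact ⟨k, hk.symm⟩

instance : T2Space X := by
  refine ⟨fun x y h => ?_⟩
  obtain ⟨k, hk⟩ := exists_disj h
  exact ⟨U x k, U y k, isOpen_U _ _, isOpen_U _ _, self_mem _ _, self_mem _ _, hk⟩

/-- the chain `c N = ∞` on `[0, N)`, `0` afterwards -/
def c (N : ℕ) : X := ⟨N, fun _ => 0, fun _ _ => rfl⟩

/-- the function with the value `j` at `n` and `0` elsewhere -/
def w (n j : ℕ) : X := ⟨0, fun i => if i = n then j else 0, fun i hi => absurd hi (Nat.not_lt_zero i)⟩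

lemma c_inf {N M : ℕ} (h : N ≤ M) : c M ⊓ c N = c M := by
  refine inf_eq_left.2 ⟨h, fun _ _ => le_rfl⟩

lemma inf_w {x : X} {n j : ℕ} (h : n < x.m ∨ j ≤ x.f n) : x ⊓ w n j = x := by
  refine inf_eq_left.2 ⟨Nat.zero_le _, fun i hi => ?_⟩
  show (if i = n then j else 0) ≤ x.f i
  split_ifs with hin
  · subst hin
    rcases h with h | h
    · omega
    · exact h
  · exact Nat.zero_le _

lemma tendsto_w (n : ℕ) : Tendsto (w n) atTop (𝓝 (c (n + 1))) := by
  rw [(basis _).tendsto_right_iff]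
  intro k _
  filter_upwards [eventually_ge_atTop k] with j hj
  refine ⟨Nat.zero_le _, fun i hi _ => ?_, fun _ => ?_⟩
  · show (if i = n then j else 0) = 0
    have : n + 1 ≤ i := hi
    rw [if_neg (by omega)]
  · show k ≤ (if n + 1 - 1 = n then j else 0)
    rw [if_pos (by omega)]
    exact hj

/-- the elements below `c (k + 1)` are in the closure of the basic neighbourhood `U (c 0) k` of the
unit `c 0` -/
lemma mem_closure (x : X) (k : ℕ) : x ⊓ c (k + 1) ∈ closure (U (c 0) k) := by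
  rw [mem_closure_iff_nhds_basis (basis _)]
  intro l _
  have hM : (x ⊓ c (k + 1)).m = max x.m (k + 1) := rfl
  set y := x ⊓ c (k + 1) with hy
  have h1 : k + 1 ≤ y.m := by rw [hM]; exact le_max_right _ _
  refine ⟨⟨0, fun n => if n = y.m - 1 then l else y.f n, fun n hn => absurd hn (Nat.not_lt_zero n)⟩,
    ⟨le_rfl, fun n _ hk => ?_, fun h => absurd h (lt_irrefl _)⟩,
    ⟨Nat.zero_le _, fun n hn _ => ?_, fun _ => ?_⟩⟩
  · show (if n = y.m - 1 then l else y.f n) = 0
    rw [if_neg (by omega), y.h n (by omega)]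
  · show (if n = y.m - 1 then l else y.f n) = y.f n
    rw [if_neg (by omega)]
  · show l ≤ (if y.m - 1 = y.m - 1 then l else y.f (y.m - 1))
    rw [if_pos rfl]

end X

open X

universe u

theorem absHClosed : IsAbsHClosed.{u} X := by
  intro Y _ _ _ _ h hc hm
  refine isClosed_of_closure_subset fun y hy => ?_
  have hne : (comap h (𝓝 y)).NeBot := by
    rw [comap_neBot_iff]
    intro t ht
    obtain ⟨z, hz, ⟨x, rfl⟩⟩ := mem_closure_iff_nhds.1 hy t ht
    exact ⟨x, hz⟩
  let 𝒰 : Ultrafilter X := @Ultrafilter.of X (comap h (𝓝 y)) hne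
  have hle : (𝒰 : Filter X) ≤ comap h (𝓝 y) := @Ultrafilter.of_le X (comap h (𝓝 y)) hne
  have ht : Tendsto h 𝒰 (𝓝 y) := tendsto_iff_comap.2 hle
  -- coordinates which tend to infinity
  let P : ℕ → Prop := fun n => ∀ k, ∀ᶠ x in (𝒰 : Filter X), n < x.m ∨ k ≤ x.f n
  have hnP : ∀ n, ¬ P n → ∃ v, ∀ᶠ x in (𝒰 : Filter X), x.m ≤ n ∧ x.f n = v := by
    intro n hn
    have : ∃ k, ¬ ∀ᶠ x in (𝒰 : Filter X), n < x.m ∨ k ≤ x.f n := by
      by_contra hcon
      push Not at hcon
      exact hn hcon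
    obtain ⟨k, hk⟩ := this
    have hk' : ∀ᶠ x in (𝒰 : Filter X), ¬ (n < x.m ∨ k ≤ x.f n) := by
      rw [← Ultrafilter.eventually_not] at hk
      exact hk
    have h1 : (⋃ v ∈ Set.Iio k, {x : X | x.f n = v}) ∈ 𝒰 := by
      filter_upwards [hk'] with x hx
      push Not at hx
      simp only [mem_iUnion, Set.mem_Iio]
      exact ⟨x.f n, hx.2, rfl⟩
    rw [Ultrafilter.finite_biUnion_mem_iff (Set.finite_Iio k)] at h1
    obtain ⟨v, _, hv⟩ := h1
    refine ⟨v, ?_⟩
    filter_upwards [hk', hv] with x hx hv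
    push Not at hx
    exact ⟨hx.1, hv⟩
  by_cases hb : ∃ m, ∀ n, m ≤ n → ¬ P n
  · -- the ultrafilter converges in `X`
    classical
    let m := Nat.find hb
    have hmP : ∀ n, m ≤ n → ¬ P n := Nat.find_spec hb
    have hmm : 0 < m → P (m - 1) := by
      intro h0
      by_contra hcon
      have : ∀ n, m - 1 ≤ n → ¬ P n := by
        intro n hn
        rcases Nat.eq_or_lt_of_le hn with e | e
        · rw [← e]; exact hcon
        · exact hmP n (by omega)
      exact absurd (Nat.find_min' hb this) (by show ¬ m ≤ m - 1; omega)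
    choose v hv using fun n : {n // m ≤ n} => hnP n.1 (hmP n.1 n.2)
    let G : X := ⟨m, fun n => if hn : m ≤ n then v ⟨n, hn⟩ else 0, fun n hn => dif_neg (by omega)⟩
    have hG : (𝒰 : Filter X) ≤ 𝓝 G := by
      rw [(X.basis G).ge_iff]
      intro k _
      have e1 : ∀ᶠ x in (𝒰 : Filter X), x.m ≤ m := (hv ⟨m, le_rfl⟩).mono fun x hx => hx.1
      have e2 : ∀ᶠ x in (𝒰 : Filter X), ∀ n ∈ Finset.range k, m ≤ n → x.f n = G.f n := by
        rw [Filter.eventually_all_finset]
        intro n _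
        by_cases hn : m ≤ n
        · refine (hv ⟨n, hn⟩).mono fun x hx _ => ?_
          show x.f n = if hn : m ≤ n then v ⟨n, hn⟩ else 0
          rw [dif_pos hn]
          exact hx.2
        · exact Eventually.of_forall fun x hn' => absurd hn' hn
      have e3 : ∀ᶠ x in (𝒰 : Filter X), x.m < m → k ≤ x.f (m - 1) := by
        rcases Nat.eq_zero_or_pos m with h0 | h0
        · exact Eventually.of_forall fun x hx => by omega
        · refine (hmm h0 k).mono fun x hx hlt => ?_
          rcases hx with hx | hx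
          · omega
          · exact hx
      filter_upwards [e1, e2, e3] with x h1 h2 h3
      exact ⟨h1, fun n hn hk => h2 n (Finset.mem_range.2 hk) hn, h3⟩
    exact ⟨G, tendsto_nhds_unique ((hc.tendsto G).mono_left hG) ht⟩
  · -- the limit is the image of the unit
    push Not at hb
    have hyc : ∀ N, y * h (c N) = y := by
      intro N
      obtain ⟨n, hn, hP⟩ := hb N
      have h1 : ∀ j, y * h (w n j) = y := by
        intro j
        refine tendsto_nhds_unique (f := fun x => h x * h (w n j)) (l := (𝒰 : Filter X))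
          (ht.mul_const _) ?_
        refine ht.congr' ?_
        filter_upwards [hP j] with x hx
        rw [← hm, inf_w hx]
      have h2 : y * h (c (n + 1)) = y := by
        refine tendsto_nhds_unique (f := fun j => y * h (w n j)) (l := atTop)
          (((hc.tendsto _).comp (tendsto_w n)).const_mul y) ?_
        simp only [h1]
        exact tendsto_const_nhds
      calc y * h (c N) = (y * h (c (n + 1))) * h (c N) := by rw [h2]
        _ = y * h (c (n + 1) ⊓ c N) := by rw [mul_assoc, hm]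
        _ = y := by rw [c_inf (by omega), h2]
    refine ⟨c 0, ?_⟩
    by_contra hne'
    obtain ⟨W, V, hWo, hVo, hW, hV, hd⟩ := t2_separation hne'
    obtain ⟨k, _, hk⟩ := (X.basis (c 0)).mem_iff.1 (hc.continuousAt (hWo.mem_nhds hW))
    have h3 : ∀ x, h x * h (c (k + 1)) ∈ closure W := by
      intro x
      rw [← hm]
      have h4 := X.mem_closure x k
      have h5 : closure (U (c 0) k) ⊆ h ⁻¹' closure W :=
        closure_minimal (hk.trans (preimage_mono subset_closure)) (isClosed_closure.preimage hc)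
      exact h5 h4
    have h6 : y ∈ closure W := by
      have h7 : Tendsto (fun x => h x * h (c (k + 1))) 𝒰 (𝓝 y) := by
        have := ht.mul_const (h (c (k + 1)))
        rwa [hyc] at this
      exact isClosed_closure.mem_of_tendsto h7 (Eventually.of_forall h3)
    exact (hd.closure_left hVo).le_bot ⟨h6, hV⟩

/-- the chain has no lower bound -/
theorem chain_spec : (range c).Nonempty ∧ IsChain (· ≤ ·) (range c) ∧ ∀ i, i ∉ lowerBounds (range c) := by
  refine ⟨⟨c 0, 0, rfl⟩, ?_, ?_⟩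
  · rintro _ ⟨a, rfl⟩ _ ⟨b, rfl⟩ _
    rcases le_total a b with h | h
    · exact Or.inr ⟨h, fun _ _ => le_rfl⟩
    · exact Or.inl ⟨h, fun _ _ => le_rfl⟩
  · intro i hi
    have h1 : i ≤ c (i.m + 1) := hi ⟨i.m + 1, rfl⟩
    have h2 : i.m + 1 ≤ i.m := h1.1
    omega

end Q182.AC
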