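import Mathlib

/-!
# Completeness properties of topological semilattices

A topological semilattice is a type with `SemilatticeInf`, a topology and `ContinuousInf`; the
product is `⊓` and the natural order is `x ≤ y ↔ x ⊓ y = x`.
-/

namespace Q182

/-- `X` is `s`-complete: every nonempty subsemilattice `S` has an infimum lying in the closure of
`↑S`, and every nonempty chain `C` has a supremum lying in the closure of `↓C`. -/
def IsSComplete (X : Type) [SemilatticeInf X] [TopologicalSpace X] : Prop :=
  (∀ S : Set X, S.Nonempty → (∀ x ∈ S, ∀ y ∈ S, x ⊓ y ∈ S) →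
      ∃ i, IsGLB S i ∧ i ∈ closure {x | ∃ a ∈ S, a ≤ x}) ∧
    ∀ C : Set X, C.Nonempty → IsChain (· ≤ ·) C →
      ∃ t, IsLUB C t ∧ t ∈ closure {x | ∃ a ∈ C, x ≤ a}

/-- `X` is `c`-complete: for every closed upper set `F` and every nonempty chain `C ⊆ F`, the
infimum of `C` exists and lies in `F`, and the supremum of `C` exists and lies in the closure
of `↓C`. -/
def IsCComplete (X : Type) [SemilatticeInf X] [TopologicalSpace X] : Prop :=
  ∀ F : Set X, IsClosed F → IsUpperSet F → ∀ C ⊆ F, C.Nonempty → IsChain (· ≤ ·) C →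
    (∃ i ∈ F, IsGLB C i) ∧ ∃ t, IsLUB C t ∧ t ∈ closure {x | ∃ a ∈ C, x ≤ a}

end Q182
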