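import Mathlib

/-!
# Minimal, UFSS and almost minimal abelian topological groups
-/

namespace Q182

open Topology

/-- A Hausdorff abelian topological group is minimal if it has no strictly coarser Hausdorff group
topology. -/
def IsMinimalGroup (G : Type) [AddCommGroup G] [t : TopologicalSpace G] : Prop :=
  IsTopologicalAddGroup G ∧ T2Space G ∧
    ∀ s : TopologicalSpace G, @IsTopologicalAddGroup G s _ → @T2Space G s → t ≤ s → s = t

/-- The set `(1/n)U`. -/
def divSet {G : Type} [AddCommGroup G] (n : ℕ) (U : Set G) : Set G :=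
  {x | ∀ k : ℕ, 1 ≤ k → k ≤ n → k • x ∈ U}

/-- A Hausdorff abelian topological group is uniformly free from small subgroups (UFSS) if it has a
symmetric neighbourhood `U` of `0` such that the sets `(1/n)U`, `n ≥ 1`, form a base of
neighbourhoods of `0`. -/
def IsUFSS (G : Type) [AddCommGroup G] [TopologicalSpace G] : Prop :=
  IsTopologicalAddGroup G ∧ T2Space G ∧
    ∃ U ∈ 𝓝 (0 : G), (∀ x ∈ U, -x ∈ U) ∧
      (𝓝 (0 : G)).HasBasis (fun n : ℕ => 1 ≤ n) (fun n => divSet n U)

/-- An abelian topological group is almost minimal if it has a closed subgroup that is minimal in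
the subspace topology and has a UFSS quotient. -/
def IsAlmostMinimal (G : Type) [AddCommGroup G] [TopologicalSpace G] : Prop :=
  IsTopologicalAddGroup G ∧
    ∃ N : AddSubgroup G, IsClosed (N : Set G) ∧ IsMinimalGroup ↥N ∧ IsUFSS (G ⧸ N)

end Q182
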