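import Mathlib
import Pool.Agent.Q182.AMDefs

/-!
# Dense essential subgroups of compact groups are minimal
-/

namespace Q182.AM

open Set Filter Topology

/-- A group with an injective inducing homomorphism into a compact Hausdorff group `K`, whose range
meets every nontrivial closed subgroup of `K` nontrivially, is minimal. -/
theorem isMinimal_of_essential {N K : Type} [AddCommGroup N] [t : TopologicalSpace N]
    [AddCommGroup K] [TopologicalSpace K] [IsTopologicalAddGroup K] [T2Space K] [CompactSpace K]
    (j : N →+ K) (hj : IsEmbedding j)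
    (hess : ∀ M : AddSubgroup K, IsClosed (M : Set K) → M ≠ ⊥ → ∃ x : N, x ≠ 0 ∧ j x ∈ M) :
    IsMinimalGroup N := by
  have hN : IsTopologicalAddGroup N := by
    have h := topologicalAddGroup_induced j
    rw [← hj.toIsInducing.eq_induced] at h
    exact h
  have hnh : 𝓝 (0 : N) = comap j (𝓝 (j 0)) := hj.toIsInducing.nhds_eq_comap 0
  have hcj : ∀ V : Set N, closure V = j ⁻¹' closure (j '' V) := fun V =>
    hj.toIsInducing.closure_eq_preimage_closure_image V
  refine ⟨hN, hj.t2Space, fun s hs hs2 hts => ?_⟩
  -- the intersection of the closures of the `s`-neighbourhoods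
  have hcl : ∀ (x : N), (∀ U ∈ @nhds N s 0, j x ∈ closure (j '' U)) → x = 0 := by
    intro x hx
    by_contra hne
    have hreg : @RegularSpace N s := @IsTopologicalAddGroup.regularSpace N s _ hs
    have h0 : ({x}ᶜ : Set N) ∈ @nhds N s 0 := by
      apply @IsOpen.mem_nhds N s
      · exact @isOpen_compl_singleton N s (@T2Space.t1Space N s hs2) x
      · exact fun h => hne (Set.mem_singleton_iff.1 h).symm
    obtain ⟨V, ⟨hV1, hV2⟩, hV3⟩ := (@closed_nhds_basis N s hreg 0).mem_iff.1 h0
    have hVt : IsClosed[t] V := hV2.mono hts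
    have h1 := hx V hV1
    have h2 : x ∈ @closure N t V := by
      rw [hcj]
      exact h1
    rw [@IsClosed.closure_eq N t V hVt] at h2
    exact hV3 h2 rfl
  let M : AddSubgroup K :=
    { carrier := {y | ∀ U ∈ @nhds N s 0, y ∈ closure (j '' U)}
      zero_mem' := fun U hU => subset_closure ⟨0, @mem_of_mem_nhds N s _ _ hU, map_zero j⟩
      add_mem' := by
        intro a b ha hb U hU
        have hadd : Tendsto (fun p : N × N => p.1 + p.2) (@nhds N s 0 ×ˢ @nhds N s 0) (@nhds N s 0) := by
          have := @ContinuousAdd.continuous_add N s _ hs.toContinuousAdd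
          have h1 := (@Continuous.tendsto _ _ (@instTopologicalSpaceProd N N s s) s _ this (0, 0))
          rw [@nhds_prod_eq N N s s] at h1
          simpa using h1
        obtain ⟨V, hV, W, hW, hVW⟩ := mem_prod_iff.1 (hadd hU)
        have h1 : ∀ x ∈ j '' V, ∀ y ∈ j '' W, x + y ∈ j '' U := by
          rintro _ ⟨v, hv, rfl⟩ _ ⟨w, hw, rfl⟩
          exact ⟨v + w, hVW (Set.mk_mem_prod hv hw), map_add j v w⟩
        exact map_mem_closure₂ continuous_add (ha V hV) (hb W hW) h1
      neg_mem' := by
        intro a ha U hU
        have hneg : Tendsto (fun x : N => -x) (@nhds N s 0) (@nhds N s 0) := by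
          have := @ContinuousNeg.continuous_neg N s _ hs.toContinuousNeg
          have h1 := (@Continuous.tendsto _ _ s s _ this 0)
          simpa using h1
        have h1 := ha _ (hneg hU)
        have h2 : MapsTo (fun x : K => -x) (j '' ((fun x : N => -x) ⁻¹' U)) (j '' U) := by
          rintro _ ⟨v, hv, rfl⟩
          exact ⟨-v, hv, map_neg j v⟩
        exact map_mem_closure continuous_neg h1 h2 }
  have hMcl : IsClosed (M : Set K) := by
    have : (M : Set K) = ⋂ U ∈ @nhds N s 0, closure (j '' U) := by
      ext y
      simp only [mem_iInter]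
      exact Iff.rfl
    rw [this]
    exact isClosed_biInter fun U _ => isClosed_closure
  have hMbot : M = ⊥ := by
    by_contra hM
    obtain ⟨x, hx, hxM⟩ := hess M hMcl hM
    exact hx (hcl x hxM)
  -- compactness
  have hsub : ∀ W ∈ 𝓝 (0 : K), j ⁻¹' W ∈ @nhds N s 0 := by
    intro W hW
    let ι := {U : Set N // U ∈ @nhds N s 0}
    have : Nonempty ι := ⟨⟨univ, univ_mem⟩⟩
    obtain ⟨U, hU⟩ := exists_subset_nhds_of_isCompact' (X := K) (ι := ι)
      (V := fun U => closure (j '' U.1)) (by
        intro U V
        exact ⟨⟨U.1 ∩ V.1, inter_mem U.2 V.2⟩, closure_mono (image_mono inter_subset_left),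
          closure_mono (image_mono inter_subset_right)⟩)
      (fun U => isClosed_closure.isCompact) (fun U => isClosed_closure) (U := W) (by
        intro y hy
        have hyM : y ∈ M := fun U hU => mem_iInter.1 hy ⟨U, hU⟩
        rw [hMbot, AddSubgroup.mem_bot] at hyM
        rw [hyM]
        exact hW)
    refine mem_of_superset U.2 fun x hx => hU (subset_closure (mem_image_of_mem j hx))
  apply IsTopologicalAddGroup.ext hs hN
  apply le_antisymm
  · intro V hV
    rw [hnh, map_zero] at hV
    obtain ⟨W, hW, hWV⟩ := hV
    exact mem_of_superset (hsub W hW) hWV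
  · exact nhds_mono hts

end Q182.AM
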