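import Mathlib
import Pool.Agent.Q182.AMMinimal

/-!
# An almost minimal group with a closed subgroup that is not almost minimal: the group
-/

namespace Q182.AM

open Set Filter Topology

/-- The compact group `(ℤ/4)^ℕ`. -/
abbrev C4 : Type := ℕ → ZMod 4
/-- The group `(ℤ/2)^ℕ`. -/
abbrev V2 : Type := ℕ → ZMod 2

/-- Reduction modulo 2 of one coordinate. -/
def cast1 : ZMod 4 →+* ZMod 2 := ZMod.castHom (by decide : 2 ∣ 4) (ZMod 2)

/-- A lift. -/
def lift1 (c : ZMod 2) : ZMod 4 := (c.val : ZMod 4)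

lemma cast_lift (c : ZMod 2) : cast1 (lift1 c) = c := by
  revert c
  decide

lemma lift_zero : lift1 0 = 0 := by decide

lemma cast_of_two_smul {z : ZMod 4} (h : 2 • z = 0) : cast1 z = 0 := by
  revert z
  decide

lemma cast_two_smul (z : ZMod 4) : cast1 (2 • z) = 0 := by
  revert z
  decide

/-- Reduction modulo 2. -/
def red : C4 →+ V2 where
  toFun a i := cast1 (a i)
  map_zero' := funext fun _ => map_zero cast1
  map_add' _ _ := funext fun _ => map_add cast1 _ _

lemma red_apply (a : C4) (i : ℕ) : red a i = cast1 (a i) := rfl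

/-- The targets. -/
def d (n : ℕ) : V2 := Pi.single (Nat.unpair n).1 1

lemma d_pair (i j : ℕ) : d (Nat.pair i j) = Pi.single i 1 := by
  unfold d
  rw [Nat.unpair_pair]

/-- There is a linear map with prescribed values on the unit vectors. -/
lemma exists_linear : ∃ L : V2 →ₗ[ZMod 2] V2, ∀ n, L (Pi.single n 1) = d n := by
  classical
  have hker : (Finsupp.lcoeFun : (ℕ →₀ ZMod 2) →ₗ[ZMod 2] (ℕ → ZMod 2)).ker = ⊥ := by
    rw [LinearMap.ker_eq_bot]
    intro f g h
    exact DFunLike.coe_injective h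
  obtain ⟨g, hg⟩ := LinearMap.exists_leftInverse_of_injective _ hker
  refine ⟨(Finsupp.linearCombination (ZMod 2) d).comp g, fun n => ?_⟩
  have h1 : (Pi.single n 1 : ℕ → ZMod 2) =
      (Finsupp.lcoeFun : (ℕ →₀ ZMod 2) →ₗ[ZMod 2] (ℕ → ZMod 2)) (Finsupp.single n 1) := by
    funext m
    show _ = (Finsupp.single n (1 : ZMod 2)) m
    rw [Finsupp.single_eq_pi_single]
  have h2 : g (Pi.single n 1) = Finsupp.single n 1 := by
    rw [h1]
    exact LinearMap.congr_fun hg _
  rw [LinearMap.comp_apply, h2, Finsupp.linearCombination_single, one_smul]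

/-- The linear map. -/
noncomputable def L : V2 →ₗ[ZMod 2] V2 := exists_linear.choose

lemma L_single (n : ℕ) : L (Pi.single n 1) = d n := exists_linear.choose_spec n

/-- The discontinuous homomorphism. -/
noncomputable def psi : C4 →+ V2 := L.toAddMonoidHom.comp red

lemma psi_apply (b : C4) : psi b = L (red b) := rfl

/-- A transcendental number in `(0, 1)`. -/
lemma exists_transcendental : ∃ x : ℝ, Transcendental ℤ x ∧ 0 < x ∧ x < 1 := by
  have h1 : Dense {x : ℝ | IsAlgebraic ℤ x}ᶜ :=
    (Algebraic.countable ℤ ℝ).dense_compl ℝ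
  obtain ⟨x, hx, hx'⟩ := h1.exists_mem_open (isOpen_Ioo (a := (0 : ℝ)) (b := 1))
    ⟨(1 / 2 : ℝ), by norm_num, by norm_num⟩
  exact ⟨x, hx, hx'.1, hx'.2⟩

/-- The transcendental number. -/
noncomputable def x₀ : ℝ := exists_transcendental.choose

lemma x₀_trans : Transcendental ℤ x₀ := exists_transcendental.choose_spec.1
lemma x₀_pos : 0 < x₀ := exists_transcendental.choose_spec.2.1
lemma x₀_lt : x₀ < 1 := exists_transcendental.choose_spec.2.2

/-- The group `ℤ[X]`, to be topologized as a subgroup of `ℝ`. -/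
def E : Type := Polynomial ℤ

noncomputable instance : AddCommGroup E := inferInstanceAs (AddCommGroup (Polynomial ℤ))

/-- The embedding into `ℝ`. -/
noncomputable def e : E →+ ℝ :=
  ((Polynomial.aeval x₀ : Polynomial ℤ →ₐ[ℤ] ℝ) : Polynomial ℤ →+ ℝ)

lemma e_injective : Function.Injective e := transcendental_iff_injective.1 x₀_trans

noncomputable instance : TopologicalSpace E := TopologicalSpace.induced e inferInstance

lemma isEmbedding_e : IsEmbedding e := ⟨⟨rfl⟩, e_injective⟩

instance : IsTopologicalAddGroup E := topologicalAddGroup_induced e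

instance : T2Space E := isEmbedding_e.t2Space

/-- The homomorphism on `ℤ[X]`. -/
noncomputable def phi : E →+ V2 :=
  (Polynomial.lsum (fun n => LinearMap.toSpanSingleton ℤ V2 (d n)) : Polynomial ℤ →ₗ[ℤ] V2).toAddMonoidHom

/-- The monomials. -/
noncomputable def mon (n : ℕ) : E := (Polynomial.monomial n (1 : ℤ) : Polynomial ℤ)

lemma e_mon (n : ℕ) : e (mon n) = x₀ ^ n := by
  show (Polynomial.aeval x₀ : Polynomial ℤ →ₐ[ℤ] ℝ) (Polynomial.monomial n (1 : ℤ)) = _
  rw [Polynomial.aeval_monomial, map_one, one_mul]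

lemma phi_mon (n : ℕ) : phi (mon n) = d n := by
  show (Polynomial.lsum (fun n => LinearMap.toSpanSingleton ℤ V2 (d n)))
    (Polynomial.monomial n (1 : ℤ)) = _
  rw [Polynomial.lsum_apply, Polynomial.sum_monomial_index]
  · rw [LinearMap.toSpanSingleton_apply, one_smul]
  · rw [map_zero]

/-- The group of the example. -/
noncomputable def G : AddSubgroup (C4 × C4 × E) where
  carrier := {g | red g.1 = psi g.2.1 + phi g.2.2}
  zero_mem' := by
    show red 0 = psi 0 + phi 0
    rw [map_zero, map_zero, map_zero, add_zero]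
  add_mem' := by
    intro a b ha hb
    show red (a.1 + b.1) = psi (a.2.1 + b.2.1) + phi (a.2.2 + b.2.2)
    have ha' : red a.1 = psi a.2.1 + phi a.2.2 := ha
    have hb' : red b.1 = psi b.2.1 + phi b.2.2 := hb
    rw [map_add, map_add, map_add, ha', hb']
    abel
  neg_mem' := by
    intro a ha
    show red (-a.1) = psi (-a.2.1) + phi (-a.2.2)
    have ha' : red a.1 = psi a.2.1 + phi a.2.2 := ha
    rw [map_neg, map_neg, map_neg, ha']
    abel

lemma mem_G (a b : C4) (f : E) : ((a, b, f) : C4 × C4 × E) ∈ G ↔ red a = psi b + phi f := Iff.rfl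

/-- Small elements vanish at the first coordinates. -/
lemma exists_small {W : Set C4} (hW : W ∈ 𝓝 (0 : C4)) : ∃ n₀ : ℕ, ∀ a : C4, (∀ i < n₀, a i = 0) → a ∈ W := by
  rw [nhds_pi, Filter.mem_pi] at hW
  obtain ⟨I, hI, t, ht, hW⟩ := hW
  obtain ⟨n, hn⟩ := hI.bddAbove
  refine ⟨n + 1, fun a ha => hW fun i hi => ?_⟩
  rw [ha i (Nat.lt_succ_of_le (hn hi))]
  exact mem_of_mem_nhds (ht i)

lemma char_two (c : ZMod 2) : c + c = 0 := by
  revert c
  decide

lemma red_single (k : ℕ) (z : ZMod 4) : red (Pi.single k z) = Pi.single k (cast1 z) := by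
  funext i
  rw [red_apply]
  rcases eq_or_ne i k with rfl | h
  · rw [Pi.single_eq_same, Pi.single_eq_same]
  · rw [Pi.single_eq_of_ne h, Pi.single_eq_of_ne h, map_zero]

/-- The density lemma. -/
lemma exists_dense (c : V2) {W : Set (C4 × C4)} (hW : W ∈ 𝓝 (0 : C4 × C4)) :
    ∃ a b : C4, (a, b) ∈ W ∧ red a = psi b + c := by
  classical
  rw [show (0 : C4 × C4) = (0, 0) from rfl, nhds_prod_eq] at hW
  obtain ⟨W1, hW1, W2, hW2, hW⟩ := mem_prod_iff.1 hW
  obtain ⟨n1, h1⟩ := exists_small hW1
  obtain ⟨n2, h2⟩ := exists_small hW2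
  let n := max n1 n2
  let b : C4 := ∑ i ∈ Finset.range n, Pi.single (Nat.pair i n) (lift1 (c i))
  have hpsi : psi b = ∑ i ∈ Finset.range n, (c i) • (Pi.single i 1 : V2) := by
    rw [psi_apply, map_sum, map_sum]
    refine Finset.sum_congr rfl fun i _ => ?_
    rw [red_single, cast_lift, ← d_pair i n, ← L_single, ← map_smul]
    congr 1
    funext j
    rcases eq_or_ne j (Nat.pair i n) with rfl | h
    · simp
    · simp [Pi.single_eq_of_ne h]
  have hpsi1 : ∀ k < n, psi b k = c k := by
    intro k hk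
    rw [hpsi, Finset.sum_apply, Finset.sum_eq_single k]
    · simp
    · intro i _ hik
      rw [Pi.smul_apply, Pi.single_eq_of_ne hik.symm, smul_zero]
    · intro h
      exact absurd (Finset.mem_range.2 hk) h
  have hpsi2 : ∀ k, n ≤ k → psi b k = 0 := by
    intro k hk
    rw [hpsi, Finset.sum_apply]
    refine Finset.sum_eq_zero fun i hi => ?_
    rw [Pi.smul_apply, Pi.single_eq_of_ne (by have := Finset.mem_range.1 hi; omega), smul_zero]
  refine ⟨fun k => if k < n then 0 else lift1 (c k), b, hW ⟨h1 _ fun i hi => ?_, h2 _ fun i hi => ?_⟩, ?_⟩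
  · show (if i < n then 0 else lift1 (c i)) = 0
    rw [if_pos (lt_of_lt_of_le hi (le_max_left _ _))]
  · show (∑ j ∈ Finset.range n, (Pi.single (Nat.pair j n) (lift1 (c j)) : C4)) i = 0
    rw [Finset.sum_apply]
    refine Finset.sum_eq_zero fun j _ => ?_
    have h3 : n ≤ Nat.pair j n := Nat.right_le_pair j n
    have h4 : n2 ≤ n := le_max_right _ _
    rw [Pi.single_eq_of_ne (by omega)]
  · funext k
    show cast1 (if k < n then 0 else lift1 (c k)) = psi b k + c k
    by_cases hk : k < n
    · rw [if_pos hk, map_zero, hpsi1 k hk, char_two]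
    · rw [if_neg hk, cast_lift, hpsi2 k (not_lt.1 hk), zero_add]

end Q182.AM
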