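import Mathlib
import Pool.Agent.Q182.AMExample

/-!
# The group is almost minimal, its closed subgroup is not
-/

namespace Q182.AM

open Set Filter Topology

/-- The three coordinates. -/
def pa (g : ↥G) : C4 := g.1.1
/-- The second coordinate. -/
def pb (g : ↥G) : C4 := g.1.2.1
/-- The third coordinate. -/
def pf (g : ↥G) : E := g.1.2.2

lemma continuous_pa : Continuous pa := continuous_fst.comp continuous_subtype_val
lemma continuous_pb : Continuous pb := (continuous_fst.comp continuous_snd).comp continuous_subtype_val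
lemma continuous_pf : Continuous pf := (continuous_snd.comp continuous_snd).comp continuous_subtype_val

lemma G_rel (g : ↥G) : red (pa g) = psi (pb g) + phi (pf g) := g.2

lemma pa_add (g h : ↥G) : pa (g + h) = pa g + pa h := rfl
lemma pb_add (g h : ↥G) : pb (g + h) = pb g + pb h := rfl
lemma pf_add (g h : ↥G) : pf (g + h) = pf g + pf h := rfl
lemma pa_neg (g : ↥G) : pa (-g) = -pa g := rfl
lemma pb_neg (g : ↥G) : pb (-g) = -pb g := rfl
lemma pf_neg (g : ↥G) : pf (-g) = -pf g := rfl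
lemma pa_nsmul (n : ℕ) (g : ↥G) : pa (n • g) = n • pa g := rfl
lemma pb_nsmul (n : ℕ) (g : ↥G) : pb (n • g) = n • pb g := rfl
lemma pf_nsmul (n : ℕ) (g : ↥G) : pf (n • g) = n • pf g := rfl

lemma G_ext {g h : ↥G} (h1 : pa g = pa h) (h2 : pb g = pb h) (h3 : pf g = pf h) : g = h :=
  Subtype.ext (Prod.ext h1 (Prod.ext h2 h3))

/-- The closed subgroup with minimal topology. -/
def N : AddSubgroup ↥G where
  carrier := {g | pf g = 0}
  zero_mem' := rfl
  add_mem' := by
    intro a b ha hb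
    show pf (a + b) = 0
    rw [pf_add, show pf a = 0 from ha, show pf b = 0 from hb, add_zero]
  neg_mem' := by
    intro a ha
    show pf (-a) = 0
    rw [pf_neg, show pf a = 0 from ha, neg_zero]

lemma mem_N (g : ↥G) : g ∈ N ↔ pf g = 0 := Iff.rfl

lemma isClosed_N : IsClosed (N : Set ↥G) := isClosed_singleton.preimage continuous_pf

/-- The embedding of `N` into the compact group. -/
def jN : ↥N →+ C4 × C4 where
  toFun g := (pa g.1, pb g.1)
  map_zero' := rfl
  map_add' _ _ := rfl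

lemma isEmbedding_jN : IsEmbedding jN := by
  constructor
  · have hs : Continuous (fun q : C4 × C4 => ((q.1, q.2, 0) : C4 × C4 × E)) :=
      continuous_fst.prodMk (continuous_snd.prodMk continuous_const)
    have hj : Continuous jN :=
      (continuous_pa.comp continuous_subtype_val).prodMk (continuous_pb.comp continuous_subtype_val)
    refine IsInducing.of_comp hj hs ?_
    have h1 : (fun q : C4 × C4 => ((q.1, q.2, 0) : C4 × C4 × E)) ∘ jN =
        (fun g : ↥G => g.1) ∘ fun g : ↥N => g.1 := by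
      funext g
      have hg : pf g.1 = 0 := g.2
      show ((pa g.1, pb g.1, 0) : C4 × C4 × E) = g.1.1
      rw [← hg]
      rfl
    rw [h1]
    exact IsInducing.subtypeVal.comp IsInducing.subtypeVal
  · intro g h hgh
    apply Subtype.ext
    have hgh' : ((pa g.1, pb g.1) : C4 × C4) = (pa h.1, pb h.1) := hgh
    have h1 : pa g.1 = pa h.1 := (Prod.mk.inj hgh').1
    have h2 : pb g.1 = pb h.1 := (Prod.mk.inj hgh').2
    exact G_ext h1 h2 ((show pf g.1 = 0 from g.2).trans (show pf h.1 = 0 from h.2).symm)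

/-- Elements with trivial reduction come from `N`. -/
lemma exists_N {a b : C4} (ha : red a = 0) (hb : red b = 0) : ∃ x : ↥N, jN x = (a, b) := by
  refine ⟨⟨⟨(a, b, 0), ?_⟩, ?_⟩, rfl⟩
  · rw [mem_G, ha, psi_apply, hb, map_zero, map_zero, add_zero]
  · exact rfl

theorem minimal_N : IsMinimalGroup ↥N := by
  refine isMinimal_of_essential jN isEmbedding_jN fun M _ hM => ?_
  obtain ⟨⟨y, hy⟩, hy0'⟩ := AddSubgroup.ne_bot_iff_exists_ne_zero.1 hM
  have hy0 : y ≠ 0 := fun h => hy0' (Subtype.ext h)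
  have key : ∀ z : C4 × C4, z ∈ M → z ≠ 0 → red z.1 = 0 → red z.2 = 0 → ∃ x : ↥N, x ≠ 0 ∧ jN x ∈ M := by
    intro z hz hz0 h1 h2
    obtain ⟨x, hx⟩ := exists_N h1 h2
    refine ⟨x, fun h => hz0 ?_, ?_⟩
    · have h3 : jN x = z := hx
      rw [h, map_zero] at h3
      exact h3.symm
    · rw [hx]
      exact hz
  by_cases h2 : (2 : ℕ) • y = 0
  · refine key y hy hy0 (funext fun i => ?_) (funext fun i => ?_)
    · rw [red_apply]
      exact cast_of_two_smul (congrFun (congrArg Prod.fst h2) i)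
    · rw [red_apply]
      exact cast_of_two_smul (congrFun (congrArg Prod.snd h2) i)
  · refine key (2 • y) (M.nsmul_mem hy 2) h2 (funext fun i => ?_) (funext fun i => ?_)
    · rw [red_apply]
      exact cast_two_smul _
    · rw [red_apply]
      exact cast_two_smul _

/-! ### The quotient -/

/-- The real coordinate. -/
noncomputable def rho : ↥G →+ ℝ where
  toFun g := e (pf g)
  map_zero' := map_zero e
  map_add' a b := by rw [pf_add, map_add]

lemma rho_apply (g : ↥G) : rho g = e (pf g) := rfl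

lemma continuous_rho : Continuous rho := isEmbedding_e.continuous.comp continuous_pf

/-- The real coordinate on the quotient. -/
noncomputable def rhoQ : ↥G ⧸ N →+ ℝ := QuotientAddGroup.lift N rho (by
  intro g hg
  rw [AddMonoidHom.mem_ker, rho_apply, (mem_N g).1 hg, map_zero])

lemma rhoQ_mk (g : ↥G) : rhoQ (g : ↥G ⧸ N) = rho g := rfl

lemma continuous_rhoQ : Continuous rhoQ := by
  refine (QuotientAddGroup.isQuotientMap_mk N).continuous_iff.2 ?_
  exact continuous_rho

/-- Basic neighbourhoods of zero in `G`. -/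
lemma exists_basic {V : Set ↥G} (hV : V ∈ 𝓝 (0 : ↥G)) : ∃ W ∈ 𝓝 (0 : C4 × C4), ∃ ε > 0,
    ∀ g : ↥G, (pa g, pb g) ∈ W → |rho g| < ε → g ∈ V := by
  rw [nhds_subtype_eq_comap] at hV
  obtain ⟨V', hV', hV⟩ := hV
  rw [show ((0 : ↥G) : C4 × C4 × E) = (0, 0, 0) from rfl, nhds_prod_eq, nhds_prod_eq] at hV'
  obtain ⟨W1, hW1, V2, hV2, h1⟩ := mem_prod_iff.1 hV'
  obtain ⟨W2, hW2, V3, hV3, h2⟩ := mem_prod_iff.1 hV2
  rw [nhds_induced, map_zero] at hV3
  obtain ⟨V4, hV4, h3⟩ := hV3
  obtain ⟨ε, hε, h4⟩ := Metric.mem_nhds_iff.1 hV4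
  refine ⟨W1 ×ˢ W2, by rw [show (0 : C4 × C4) = (0, 0) from rfl]; exact prod_mem_nhds hW1 hW2,
    ε, hε, fun g hg hge => hV (h1 ⟨hg.1, h2 ⟨hg.2, h3 (h4 ?_)⟩⟩)⟩
  rw [Metric.mem_ball, Real.dist_eq, sub_zero]
  exact hge

theorem ufss_quotient : IsUFSS (↥G ⧸ N) := by
  have : IsClosed (N : Set ↥G) := isClosed_N
  refine ⟨inferInstance, inferInstance, {q | |rhoQ q| ≤ 1}, ?_, ?_, ?_⟩
  · have h1 : {q : ↥G ⧸ N | |rhoQ q| < 1} ∈ 𝓝 (0 : ↥G ⧸ N) :=
      (isOpen_lt (continuous_abs.comp continuous_rhoQ) continuous_const).mem_nhds (by simp)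
    exact mem_of_superset h1 fun q hq => (show |rhoQ q| < 1 from hq).le
  · intro q hq
    show |rhoQ (-q)| ≤ 1
    rw [map_neg, abs_neg]
    exact hq
  · refine ⟨fun V => ⟨fun hV => ?_, ?_⟩⟩
    · rw [show (0 : ↥G ⧸ N) = ((0 : ↥G) : ↥G ⧸ N) from rfl, QuotientAddGroup.nhds_eq] at hV
      obtain ⟨W, hW, ε, hε, h1⟩ := exists_basic hV
      obtain ⟨n, hn⟩ := exists_nat_gt (1 / ε)
      have hn0 : 0 < (n : ℝ) := lt_trans (by positivity) hn
      have hn1 : 1 ≤ n := by
        have : 0 < n := by exact_mod_cast hn0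
        exact this
      refine ⟨n, hn1, fun q hq => ?_⟩
      obtain ⟨g, rfl⟩ := QuotientAddGroup.mk_surjective q
      have h2 : |rhoQ (n • (g : ↥G ⧸ N))| ≤ 1 := hq n hn1 le_rfl
      rw [map_nsmul, rhoQ_mk, nsmul_eq_mul, abs_mul, Nat.abs_cast] at h2
      have h3 : |rho g| < ε := by
        rw [div_lt_iff₀ hε] at hn
        by_contra hcon
        rw [not_lt] at hcon
        have : (n : ℝ) * ε ≤ n * |rho g| := by gcongr
        linarith
      obtain ⟨a, b, hab, hrel⟩ := exists_dense (phi (pf g)) hW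
      let g' : ↥G := ⟨(a, b, pf g), hrel⟩
      have h4 : (g : ↥G ⧸ N) = (g' : ↥G ⧸ N) := by
        rw [QuotientAddGroup.eq, mem_N, pf_add, pf_neg]
        show -pf g + pf g = 0
        rw [neg_add_cancel]
      rw [h4]
      exact h1 g' hab h3
    · rintro ⟨n, hn, h1⟩
      have hn0 : 0 < (n : ℝ) := by exact_mod_cast hn
      have h2 : {q : ↥G ⧸ N | |rhoQ q| < 1 / n} ∈ 𝓝 (0 : ↥G ⧸ N) :=
        (isOpen_lt (continuous_abs.comp continuous_rhoQ) continuous_const).mem_nhds (by
          show |rhoQ 0| < 1 / (n : ℝ)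
          rw [map_zero, abs_zero]
          positivity)
      refine mem_of_superset h2 fun q hq => h1 fun k _ hk => ?_
      show |rhoQ (k • q)| ≤ 1
      have hq' : |rhoQ q| < 1 / n := hq
      rw [map_nsmul, nsmul_eq_mul, abs_mul, Nat.abs_cast]
      have hkn : (k : ℝ) ≤ n := by exact_mod_cast hk
      calc (k : ℝ) * |rhoQ q| ≤ n * (1 / n) := by gcongr
        _ = 1 := by field_simp

theorem almostMinimal_G : IsAlmostMinimal ↥G :=
  ⟨inferInstance, N, isClosed_N, minimal_N, ufss_quotient⟩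

/-! ### The closed subgroup -/

/-- The closed subgroup. -/
def H : AddSubgroup ↥G where
  carrier := {g | pb g = 0}
  zero_mem' := rfl
  add_mem' := by
    intro a b ha hb
    show pb (a + b) = 0
    rw [pb_add, show pb a = 0 from ha, show pb b = 0 from hb, add_zero]
  neg_mem' := by
    intro a ha
    show pb (-a) = 0
    rw [pb_neg, show pb a = 0 from ha, neg_zero]

lemma mem_H (g : ↥G) : g ∈ H ↔ pb g = 0 := Iff.rfl

lemma isClosed_H : IsClosed (H : Set ↥G) := isClosed_singleton.preimage continuous_pb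

lemma H_rel (h : ↥H) : red (pa h.1) = phi (pf h.1) := by
  have h1 := G_rel h.1
  rw [(mem_H _).1 h.2, map_zero, zero_add] at h1
  exact h1

/-- Closed minimal subgroups of `H` are contained in the compact part. -/
lemma pf_of_minimal {M : AddSubgroup ↥H} (hM : IsMinimalGroup ↥M) (m : ↥M) : pf m.1.1 = 0 := by
  by_contra hne
  have hr : e (pf m.1.1) ≠ 0 := fun h => hne (e_injective (h.trans (map_zero e).symm))
  have : Fact ((0 : ℝ) < 1) := ⟨one_pos⟩
  let K := C4 × AddCircle (1 : ℝ) × AddCircle (1 : ℝ)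
  let re : ↥M →+ ℝ := rho.comp ((H.subtype).comp M.subtype)
  have hre : ∀ x : ↥M, re x = e (pf x.1.1) := fun x => rfl
  let θ : ↥M →+ K :=
    { toFun := fun x => (pa x.1.1, ((re x : ℝ) : AddCircle (1 : ℝ)),
        ((Real.sqrt 2 * re x : ℝ) : AddCircle (1 : ℝ)))
      map_zero' := by
        rw [map_zero, mul_zero]
        rfl
      map_add' := fun x y => by
        rw [map_add, mul_add]
        rfl }
  have hrec : Continuous re := continuous_rho.comp (continuous_subtype_val.comp continuous_subtype_val)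
  have hθc : Continuous θ := by
    refine (continuous_pa.comp (continuous_subtype_val.comp continuous_subtype_val)).prodMk
      (Continuous.prodMk ?_ ?_)
    · exact (AddCircle.continuous_mk' 1).comp hrec
    · exact (AddCircle.continuous_mk' 1).comp (continuous_const.mul hrec)
  have hθi : Function.Injective θ := by
    rw [injective_iff_map_eq_zero]
    intro x hx
    have h1 : pa x.1.1 = 0 := congrArg (fun q : K => q.1) hx
    have h2 : ((re x : ℝ) : AddCircle (1 : ℝ)) = 0 := congrArg (fun q : K => q.2.1) hx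
    have h3 : ((Real.sqrt 2 * re x : ℝ) : AddCircle (1 : ℝ)) = 0 :=
      congrArg (fun q : K => q.2.2) hx
    rw [AddCircle.coe_eq_zero_iff] at h2 h3
    obtain ⟨n, hn⟩ := h2
    obtain ⟨k, hk⟩ := h3
    rw [zsmul_eq_mul, mul_one] at hn hk
    have h4 : re x = 0 := by
      by_contra hne'
      have h5 : Real.sqrt 2 = ((k / n : ℚ) : ℝ) := by
        rw [← hn] at hk hne'
        push_cast
        rw [eq_div_iff hne', ← hk]
      exact irrational_sqrt_two ⟨_, h5.symm⟩
    have h5 : pf x.1.1 = 0 := e_injective (by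
      rw [← hre, h4, map_zero])
    have h6 : pb x.1.1 = 0 := x.1.2
    apply Subtype.ext
    apply Subtype.ext
    exact G_ext h1 h6 h5
  -- a neighbourhood of zero
  have hO : {y : ↥M | |re y| < |re m|} ∈ 𝓝 (0 : ↥M) :=
    (isOpen_lt (continuous_abs.comp hrec) continuous_const).mem_nhds (by
      show |re 0| < |re m|
      rw [map_zero, abs_zero, abs_pos]
      exact hr)
  have hle' := continuous_iff_le_induced.1 hθc
  -- the coarser topology
  let σ : TopologicalSpace ↥M := TopologicalSpace.induced θ inferInstance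
  have hσ1 : @IsTopologicalAddGroup ↥M σ _ := topologicalAddGroup_induced θ
  have hσe : @IsEmbedding ↥M K σ _ θ := @IsEmbedding.mk _ _ σ _ θ (@IsInducing.mk _ _ σ _ θ rfl) hθi
  have hσ2 : @T2Space ↥M σ := @IsEmbedding.t2Space _ _ σ _ _ θ hσe
  have heq := hM.2.2 σ hσ1 hσ2 hle'
  have hO' : {y : ↥M | |re y| < |re m|} ∈ comap θ (𝓝 (0 : K)) := by
    have h1 : @nhds ↥M σ 0 = comap θ (𝓝 (θ 0)) := nhds_induced θ 0
    rw [map_zero] at h1
    rw [← h1, heq]
    exact hO
  obtain ⟨W, hW, hWO⟩ := hO'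
  have hcl := mapClusterPt_zero_atTop_nsmul (θ m)
  have hfr := (hcl.frequently hW).and_eventually (eventually_ge_atTop 1)
  obtain ⟨n, hn, hn1⟩ := hfr.exists
  have h7 : n • m ∈ {y : ↥M | |re y| < |re m|} := hWO (by
    show θ (n • m) ∈ W
    rw [map_nsmul]
    exact hn)
  have h8 : |re (n • m)| < |re m| := h7
  rw [map_nsmul, nsmul_eq_mul, abs_mul, Nat.abs_cast] at h8
  have hn2 : (1 : ℝ) ≤ n := by exact_mod_cast hn1
  have h9 : (1 : ℝ) * |re m| ≤ n * |re m| := by gcongr
  linarith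

/-- Basic neighbourhoods of zero in `H`. -/
lemma exists_basicH {V : Set ↥H} (hV : V ∈ 𝓝 (0 : ↥H)) : ∃ n₀ : ℕ, ∃ ε > 0,
    ∀ g : ↥H, (∀ i < n₀, pa g.1 i = 0) → |rho g.1| < ε → g ∈ V := by
  rw [nhds_subtype_eq_comap] at hV
  obtain ⟨V', hV', hV⟩ := hV
  obtain ⟨W, hW, ε, hε, h1⟩ := exists_basic hV'
  rw [show (0 : C4 × C4) = (0, 0) from rfl, nhds_prod_eq] at hW
  obtain ⟨W1, hW1, W2, hW2, h2⟩ := mem_prod_iff.1 hW
  obtain ⟨n₀, hn₀⟩ := exists_small hW1
  refine ⟨n₀, ε, hε, fun g hg hge => hV (h1 g.1 (h2 ⟨hn₀ _ hg, ?_⟩) hge)⟩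
  have h3 : pb g.1 = 0 := g.2
  show pb g.1 ∈ W2
  rw [h3]
  exact mem_of_mem_nhds hW2

theorem not_almostMinimal_H : ¬ IsAlmostMinimal ↥H := by
  rintro ⟨-, M, -, hM, -, -, U, hU, -, hbasis⟩
  have hMf := fun m : ↥M => pf_of_minimal hM m
  -- elements of `M` have trivial reduction
  have hMred : ∀ m ∈ M, red (pa m.1) = 0 := by
    intro m hm
    rw [H_rel m, hMf ⟨m, hm⟩, map_zero]
  rw [show (0 : ↥H ⧸ M) = ((0 : ↥H) : ↥H ⧸ M) from rfl, QuotientAddGroup.nhds_eq] at hU
  obtain ⟨k, ε, hε, h1⟩ := exists_basicH hU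
  -- the neighbourhood of zero determined by the coordinate `k`
  have hO : ((↑) : ↥H → ↥H ⧸ M) '' {h | red (pa h.1) k = 0} ∈ 𝓝 (0 : ↥H ⧸ M) := by
    rw [show (0 : ↥H ⧸ M) = ((0 : ↥H) : ↥H ⧸ M) from rfl, QuotientAddGroup.nhds_eq]
    refine image_mem_map ?_
    have hc : Continuous (fun h : ↥H => red (pa h.1) k) := by
      have h2 : Continuous (fun z : ZMod 4 => cast1 z) := continuous_of_discreteTopology
      exact h2.comp ((continuous_apply k).comp (continuous_pa.comp continuous_subtype_val))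
    refine (isOpen_discrete {(0 : ZMod 2)}).preimage hc |>.mem_nhds ?_
    show red (pa ((0 : ↥H) : ↥G)) k = 0
    rfl
  obtain ⟨n, hn, hnO⟩ := hbasis.mem_iff.1 hO
  -- a small element
  have hlim : Tendsto (fun j : ℕ => (n : ℝ) * x₀ ^ j) atTop (𝓝 0) := by
    have h2 := (tendsto_pow_atTop_nhds_zero_of_lt_one x₀_pos.le x₀_lt).const_mul (n : ℝ)
    rwa [mul_zero] at h2
  obtain ⟨j, hj⟩ := (hlim.eventually (gt_mem_nhds hε)).exists
  have hxj : (n : ℝ) * x₀ ^ (Nat.pair k j) < ε := by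
    refine lt_of_le_of_lt ?_ hj
    have h3 : x₀ ^ (Nat.pair k j) ≤ x₀ ^ j :=
      pow_le_pow_of_le_one x₀_pos.le x₀_lt.le (Nat.right_le_pair k j)
    have h4 := x₀_pos
    gcongr
  have hmem : ((Pi.single k 1 : C4), (0 : C4), mon (Nat.pair k j)) ∈ G := by
    rw [mem_G, red_single, map_one, map_zero, zero_add, phi_mon, d_pair]
  let x : ↥H := ⟨⟨(Pi.single k 1, 0, mon (Nat.pair k j)), hmem⟩, rfl⟩
  have hx1 : pa x.1 = Pi.single k 1 := rfl
  have hx2 : rho x.1 = x₀ ^ (Nat.pair k j) := e_mon _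
  have hxn : (x : ↥H ⧸ M) ∈ divSet n U := by
    intro i _ hi
    rw [← QuotientAddGroup.mk_nsmul]
    refine h1 (i • x) (fun l hl => ?_) ?_
    · show (i • pa x.1) l = 0
      rw [hx1, Pi.smul_apply, Pi.single_eq_of_ne hl.ne, smul_zero]
    · show |rho (i • x.1)| < ε
      rw [map_nsmul, hx2, nsmul_eq_mul, abs_mul, Nat.abs_cast, abs_of_pos (pow_pos x₀_pos _)]
      refine lt_of_le_of_lt ?_ hxj
      have h5 : (i : ℝ) ≤ n := by exact_mod_cast hi
      have h4 := x₀_pos
      gcongr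
  obtain ⟨h, hh, hhx⟩ := hnO hxn
  have hdiff : -h + x ∈ M := QuotientAddGroup.eq.1 hhx
  have h6 := congrFun (hMred _ hdiff) k
  have h7 : red (pa (-h + x).1) = -red (pa h.1) + red (pa x.1) := by
    show red (-pa h.1 + pa x.1) = _
    rw [map_add, map_neg]
  rw [h7, Pi.add_apply, Pi.neg_apply, show red (pa h.1) k = 0 from hh, neg_zero, zero_add, hx1,
    red_single, map_one, Pi.single_eq_same, Pi.zero_apply] at h6
  exact absurd h6 (by decide)

end Q182.AM
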