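import Pool.Agent.Q201.AR.Stm2
import Pool.Agent.Q91.AR.Comp

/-!
# Project AR part 2 (helper201), job COMPB

Adaptation of `Pool.Agent.Q91.AR.Comp`: computable good coding with explicit dependence on `S`.
-/

set_option autoImplicit false

namespace Q182.AR_COMPB

open Q201.AR Pool.Agent.Q91.AR.CompJob

/-- **JOB COMPB** -/
theorem t_COMPB : S_COMPB := by
  classical
  intro k r hk
  obtain ⟨m, rfl⟩ : ∃ m, k = m + 1 := ⟨k - 1, by omega⟩
  set c := m + 1 + r with hc
  set ι : ℕ → ℕ := fun a => (c + 1) * a with hι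
  set code : ℕ → (Fin (m + 1) → ℕ) → ℕ := fun i t => (c + 1) * enc m t + (i + 1) with hcode
  have hι0 : ∀ a, ι a % (c + 1) = 0 := fun a => Nat.mul_mod_right _ _
  have hι1 : ∀ a, ι a / (c + 1) = a := fun a => Nat.mul_div_cancel_left _ (by omega)
  have hc0 : ∀ i t, i < c → code i t % (c + 1) = i + 1 := by
    intro i t hi
    rw [hcode]
    simp only
    rw [Nat.mul_add_mod, Nat.mod_eq_of_lt (by omega)]
  have hc1 : ∀ i t, i < c → code i t / (c + 1) = enc m t := by
    intro i t hi
    rw [hcode]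
    simp only
    rw [Nat.mul_add_div (by omega), Nat.div_eq_of_lt (by omega), add_zero]
  have hcr : ∀ x, x % (c + 1) ≠ 0 → x = code (x % (c + 1) - 1) (dec m (x / (c + 1))) := by
    intro x hx
    rw [hcode]
    simp only
    rw [enc_dec, show x % (c + 1) - 1 + 1 = x % (c + 1) by omega]
    exact (Nat.div_add_mod x (c + 1)).symm
  have hir : ∀ x, x % (c + 1) = 0 → x = ι (x / (c + 1)) := by
    intro x hx
    have := Nat.div_add_mod x (c + 1)
    rw [hx, add_zero] at this
    exact this.symm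
  have hmod : ∀ x, x % (c + 1) < c + 1 := fun x => Nat.mod_lt _ (by omega)
  obtain ⟨ix, hix⟩ : ∃ ix : (Fin 2 → ℕ) → Fin (m + 1),
      ∀ v, (ix v : ℕ) = min (v 0 % (c + 1) - 1) (m + 1 - 1) :=
    ⟨fun v => ⟨min (v 0 % (c + 1) - 1) (m + 1 - 1), by omega⟩, fun _ => rfl⟩
  refine ⟨ι, code, fun v => (v 0 % (c + 1) ≠ 0 ∧ v 1 % (c + 1) = Nat.succ (v 0 % (c + 1)) ∧
      v 1 / (c + 1) = v 0 / (c + 1)) ∨ (v 0 % (c + 1) ≠ 0 ∧ v 1 % (c + 1) = 0 ∧
      v 1 / (c + 1) = dec m (v 0 / (c + 1)) (ix v)),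
    fun j v => v 1 = v 0 ∧ v 0 % (c + 1) = m + 1 + j + 1, fun v => dec m (v 0 / (c + 1)),
    ⟨?_, ?_, ?_, ?_⟩, ?_⟩
  · intro a b h
    rw [← hι1 a, ← hι1 b, h]
  · intro i i' t t' hi hi' h
    have h1 := hc0 i t hi
    have h2 := hc0 i' t' hi'
    have h3 := hc1 i t hi
    have h4 := hc1 i' t' hi'
    rw [h, h2] at h1
    rw [h, h4] at h3
    refine ⟨by omega, ?_⟩
    rw [← dec_enc m t, ← dec_enc m t', h3]
  · intro i t a hi h
    have h1 := hc0 i t hi
    rw [← h, hι0] at h1
    omega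
  · intro x
    by_cases hx : x % (c + 1) = 0
    · exact Or.inl ⟨_, hir x hx⟩
    · exact Or.inr ⟨_, by have := hmod x; omega, _, hcr x hx⟩
  · -- computability
    have h0 : Primrec fun v : Fin 2 → ℕ => v 0 :=
      (Primrec.fin_app.comp Primrec.id (Primrec.const 0)).of_eq fun _ => rfl
    have h1 : Primrec fun v : Fin 2 → ℕ => v 1 :=
      (Primrec.fin_app.comp Primrec.id (Primrec.const 1)).of_eq fun _ => rfl
    have hm0 : Primrec fun v : Fin 2 → ℕ => v 0 % (c + 1) :=
      Primrec.nat_mod.comp h0 (Primrec.const _)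
    have hm1 : Primrec fun v : Fin 2 → ℕ => v 1 % (c + 1) :=
      Primrec.nat_mod.comp h1 (Primrec.const _)
    have hq0 : Primrec fun v : Fin 2 → ℕ => v 0 / (c + 1) :=
      Primrec.nat_div.comp h0 (Primrec.const _)
    have hq1 : Primrec fun v : Fin 2 → ℕ => v 1 / (c + 1) :=
      Primrec.nat_div.comp h1 (Primrec.const _)
    have hd0 : Primrec fun v : Fin 2 → ℕ => dec m (v 0 / (c + 1)) := (dec_prim m).comp hq0
    have hixp : Primrec ix := by
      rw [← Primrec.fin_val_iff]
      exact (Primrec.nat_min.comp (Primrec.nat_sub.comp hm0 (Primrec.const 1))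
        (Primrec.const (m + 1 - 1))).of_eq fun v => (hix v).symm
    have hco : Primrec fun v : Fin 2 → ℕ => dec m (v 0 / (c + 1)) (ix v) :=
      (Primrec.fin_app.comp hd0 hixp).of_eq fun _ => rfl
    have hne : ComputablePred fun v : Fin 2 → ℕ => v 0 % (c + 1) ≠ 0 :=
      (cp_eq hm0 (Primrec.const 0)).not
    have hA := cp_and hne (cp_and (cp_eq hm1 (Primrec.succ.comp hm0)) (cp_eq hq1 hq0))
    have hB := cp_and hne (cp_and (cp_eq hm1 (Primrec.const 0)) (cp_eq hq1 hco))
    refine ⟨cp_or hA hB, fun j => cp_and (cp_eq h1 h0) (cp_eq hm0 (Primrec.const _)),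
      hd0.to_comp, fun S v => ?_⟩
    unfold RR
    refine Iff.symm ?_
    refine or_assoc.trans ?_
    refine or_congr ?_ (or_congr ?_ ?_)
    · constructor
      · rintro ⟨g1, g2, g3⟩
        have g2' : v 1 % (c + 1) = v 0 % (c + 1) + 1 := g2
        have := hmod (v 1)
        refine ⟨v 0 % (c + 1) - 1, dec m (v 0 / (c + 1)), by omega, hcr _ g1, ?_⟩
        have g4 := hcr (v 1) (by omega)
        rw [g3, g2'] at g4
        rw [g4]
        congr 1
        omega
      · rintro ⟨i, t, hi, hx, hy⟩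
        have e0 := hc0 i t (by omega)
        have e1 := hc0 (i + 1) t (by omega)
        have e2 := hc1 i t (by omega)
        have e3 := hc1 (i + 1) t (by omega)
        rw [← hx] at e0 e2
        rw [← hy] at e1 e3
        refine ⟨by omega, ?_, by rw [e2, e3]⟩
        show v 1 % (c + 1) = v 0 % (c + 1) + 1
        omega
    · constructor
      · rintro ⟨g1, g2, g3⟩
        have := hmod (v 0)
        refine ⟨v 0 % (c + 1) - 1, dec m (v 0 / (c + 1)), ix v, by omega, hix v, hcr _ g1, ?_⟩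
        rw [← g3]
        exact hir _ g2
      · rintro ⟨i, t, l, hi, hl, hx, hy⟩
        have e0 := hc0 i t (by omega)
        have e2 := hc1 i t (by omega)
        rw [← hx] at e0 e2
        have e4 := hι0 (t l)
        have e5 := hι1 (t l)
        rw [← hy] at e4 e5
        refine ⟨by omega, e4, ?_⟩
        rw [e5, e2, dec_enc]
        congr 1
        apply Fin.ext
        rw [hl, hix, e0]
        omega
    · constructor
      · rintro ⟨j, ⟨g1, g2⟩, g3⟩
        refine ⟨j, dec m (v 0 / (c + 1)), g3, ?_, g1⟩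
        have g4 := hcr (v 0) (by omega)
        have g5 : v 0 % (c + 1) - 1 = m + 1 + (j : ℕ) := by omega
        rw [g5] at g4
        exact g4
      · rintro ⟨j, t, hS', hx, hy⟩
        have hj := j.isLt
        have e0 := hc0 (m + 1 + j) t (by omega)
        have e2 := hc1 (m + 1 + j) t (by omega)
        rw [← hx] at e0 e2
        refine ⟨j, ⟨hy, e0⟩, ?_⟩
        show S j (dec m (v 0 / (c + 1)))
        rw [e2, dec_enc]
        exact hS'

end Q182.AR_COMPB
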