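import Pool.Agent.Q201.AR.Stm3

/-!
# Project AR part 3 (helper201), job CP: codes of `Σ_k` and `Π_k` formulas
-/

set_option autoImplicit false

namespace Q182.AR_CP

open Q201.AR FirstOrder FirstOrder.Language Pool.Agent.Helper227.EN

lemma upd_snoc {M : Type} (n : ℕ) (e : ℕ → M) (x : M) :
    (fun i : Fin (n + 1) => Function.update e n x (i : ℕ)) =
      Fin.snoc (α := fun _ => M) (fun i : Fin n => e i) x := by
  funext i
  refine Fin.lastCases ?_ (fun j => ?_) i
  · rw [Fin.snoc_last, Fin.val_last, Function.update_self]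
  · rw [Fin.snoc_castSucc, Fin.val_castSucc,
      Function.update_of_ne (Nat.ne_of_lt j.isLt)]

lemma main (hCD : S_CD) {k : ℕ} {b : Bool} {n : ℕ} {φ : Fml n} (h : IsHier k b φ) :
    ∃ c : ℕ, Lv k c ∧ ∀ (M : Type) [LA.Structure M] [Nonempty M], M ⊨ PAminus → ∀ e : ℕ → M,
      (b = true → (Sat M c e ↔ φ.Realize default fun i : Fin n => e i)) ∧
      (b = false → (Sat M c e ↔ ¬ φ.Realize default fun i : Fin n => e i)) := by
  induction h with
  | @zero n φ b h =>
    obtain ⟨c, hc, h1⟩ := hCD n φ h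
    cases b with
    | true =>
      refine ⟨c, hc, fun M _ _ hM e => ⟨fun _ => h1 M hM e, fun hb => ?_⟩⟩
      exact absurd hb (by simp)
    | false =>
      refine ⟨cneg c, B0.nor c c hc hc, fun M _ _ hM e => ⟨fun hb => ?_, fun _ => ?_⟩⟩
      · exact absurd hb (by simp)
      · rw [Sat_cneg, h1 M hM e]
  | @sig k n φ h ih =>
    obtain ⟨c, hc, h1⟩ := ih
    refine ⟨cneg c, ⟨[], c, hc, rfl⟩, fun M _ _ hM e => ⟨fun _ => ?_, fun hb => ?_⟩⟩
    · rw [Sat_cneg, (h1 M hM e).2 rfl, not_not]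
    · exact absurd hb (by simp)
  | @ex k n φ h ih =>
    obtain ⟨c, ⟨is, c', hc', hc⟩, h1⟩ := ih
    refine ⟨cex n c, ⟨n :: is, c', hc', ?_⟩, fun M _ _ hM e => ⟨fun _ => ?_, fun hb => ?_⟩⟩
    · rw [List.foldr_cons, ← hc]
    · rw [Sat_cex, BoundedFormula.realize_ex]
      refine exists_congr fun x => ?_
      rw [(h1 M hM (Function.update e n x)).1 rfl, upd_snoc]
    · exact absurd hb (by simp)
  | @pi k n φ h ih =>
    obtain ⟨c, hc, h1⟩ := ih
    refine ⟨cneg c, ⟨[], c, hc, rfl⟩, fun M _ _ hM e => ⟨fun hb => ?_, fun _ => ?_⟩⟩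
    · exact absurd hb (by simp)
    · rw [Sat_cneg, (h1 M hM e).1 rfl]
  | @all k n φ h ih =>
    obtain ⟨c, ⟨is, c', hc', hc⟩, h1⟩ := ih
    refine ⟨cex n c, ⟨n :: is, c', hc', ?_⟩, fun M _ _ hM e => ⟨fun hb => ?_, fun _ => ?_⟩⟩
    · rw [List.foldr_cons, ← hc]
    · exact absurd hb (by simp)
    · rw [Sat_cex, BoundedFormula.realize_all, not_forall]
      refine exists_congr fun x => ?_
      rw [(h1 M hM (Function.update e n x)).2 rfl, upd_snoc]

/-- **JOB CP** -/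
theorem t_CP : S_CP := by
  intro hCD k n φ
  constructor
  · intro h
    obtain ⟨c, hc, h1⟩ := main hCD h
    exact ⟨c, hc, fun M _ _ hM e => (h1 M hM e).1 rfl⟩
  · intro h
    obtain ⟨c, hc, h1⟩ := main hCD h
    refine ⟨c, hc, fun M _ _ hM e => ?_⟩
    rw [Sat_cneg, (h1 M hM e).2 rfl, not_not]

end Q182.AR_CP
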