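import Pool.Agent.Q201.AR.Stm

/-!
Project AR (helper201, MP_f714b8_lc), job E: relativisation to a copy.
-/

set_option autoImplicit false

open FirstOrder FirstOrder.Language

namespace Q182.AR_E

open Q201.AR

/-- terms of a relational signature are variables -/
def tv {r : ℕ} {ar : Fin r → ℕ} {β : Type} : (Sig ar).Term β → β
  | .var x => x
  | .func f _ => Empty.elim f

theorem realize_tv {r : ℕ} {ar : Fin r → ℕ} {β : Type} (t : (Sig ar).Term β) (M : Type)
    [(Sig ar).Structure M] (v : β → M) : t.realize v = v (tv t) := by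
  cases t with
  | var x => rfl
  | func f _ => exact Empty.elim f

/-- a formula with its variables renamed, as a bounded formula -/
def rl {L : FirstOrder.Language.{0, 0}} {α β : Type} {n : ℕ} (φ : L.Formula β)
    (g : β → α ⊕ Fin n) : L.BoundedFormula α n :=
  BoundedFormula.relabel (n := n) (k := 0) g φ

theorem realize_rl {L : FirstOrder.Language.{0, 0}} {α β : Type} {n : ℕ} (φ : L.Formula β)
    (g : β → α ⊕ Fin n) (M : Type) [L.Structure M] (v : α → M) (xs : Fin n → M) :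
    (rl φ g).Realize v xs ↔ φ.Realize (Sum.elim v xs ∘ g) := by
  unfold rl
  have h := BoundedFormula.realize_relabel (φ := φ) (g := g) (v := v) (xs := xs)
  refine Iff.trans h ?_
  have e1 : (xs ∘ Fin.natAdd n : Fin 0 → M) = default := Subsingleton.elim _ _
  have e2 : (xs ∘ Fin.castAdd 0 : Fin n → M) = xs := by
    funext i
    rfl
  rw [e1, e2]
  rfl

theorem main {r : ℕ} {ar : Fin r → ℕ} (L : FirstOrder.Language.{0, 0}) (P : L.Formula (Fin 1))
    (ρ : ∀ j : Fin r, L.Formula (Fin (ar j))) (α : Type) {n : ℕ}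
    (φ : (Sig ar).BoundedFormula α n) :
    ∃ ψ : L.BoundedFormula α n, ∀ (M : Type) [(Sig ar).Structure M] [L.Structure M] (ι : M → M),
      Function.Injective ι → (∀ v : Fin 1 → M, P.Realize v ↔ ∃ a, v 0 = ι a) →
      (∀ (j : Fin r) (u : Fin (ar j) → M), (ρ j).Realize (ι ∘ u) ↔
        Structure.RelMap (L := Sig ar) (n := ar j) ⟨j, rfl⟩ u) →
      ∀ (u : α → M) (xs : Fin n → M), ψ.Realize (ι ∘ u) (ι ∘ xs) ↔ φ.Realize u xs := by
  induction φ with
  | falsum =>
    exact ⟨⊥, fun M _ _ ι _ _ _ u xs => Iff.rfl⟩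
  | equal t₁ t₂ =>
    refine ⟨(Term.var (tv t₁)).bdEqual (Term.var (tv t₂)), fun M _ _ ι hι _ _ u xs => ?_⟩
    rw [BoundedFormula.realize_bdEqual]
    show Sum.elim (ι ∘ u) (ι ∘ xs) (tv t₁) = Sum.elim (ι ∘ u) (ι ∘ xs) (tv t₂) ↔
      t₁.realize (Sum.elim u xs) = t₂.realize (Sum.elim u xs)
    rw [realize_tv, realize_tv, ← Sum.comp_elim]
    exact hι.eq_iff
  | @rel n m R ts =>
    obtain ⟨j, rfl⟩ := R
    refine ⟨rl (ρ j) (fun i => tv (ts i)), fun M _ _ ι hι _ hρ u xs => ?_⟩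
    rw [realize_rl]
    show _ ↔ Structure.RelMap (L := Sig ar) (n := ar j) ⟨j, rfl⟩
      (fun i => (ts i).realize (Sum.elim u xs))
    rw [← hρ j]
    have e : (Sum.elim (ι ∘ u) (ι ∘ xs) ∘ fun i => tv (ts i)) =
        ι ∘ fun i => (ts i).realize (Sum.elim u xs) := by
      funext i
      show Sum.elim (ι ∘ u) (ι ∘ xs) (tv (ts i)) = ι ((ts i).realize (Sum.elim u xs))
      rw [realize_tv, ← Sum.comp_elim]
      rfl
    rw [e]
  | imp f₁ f₂ ih₁ ih₂ =>
    obtain ⟨ψ₁, h₁⟩ := ih₁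
    obtain ⟨ψ₂, h₂⟩ := ih₂
    refine ⟨ψ₁.imp ψ₂, fun M _ _ ι hι hP hρ u xs => ?_⟩
    rw [BoundedFormula.realize_imp, BoundedFormula.realize_imp, h₁ M ι hι hP hρ u xs,
      h₂ M ι hι hP hρ u xs]
  | @all n f ih =>
    obtain ⟨ψ, h⟩ := ih
    refine ⟨((rl P (fun _ => Sum.inr (Fin.last n))).imp ψ).all, fun M _ _ ι hι hP hρ u xs => ?_⟩
    rw [BoundedFormula.realize_all, BoundedFormula.realize_all]
    have key : ∀ a, ψ.Realize (ι ∘ u) (Fin.snoc (ι ∘ xs) (ι a)) ↔
        f.Realize u (Fin.snoc xs a) := by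
      intro a
      rw [← h M ι hι hP hρ u (Fin.snoc xs a), Fin.comp_snoc]
    constructor
    · intro h1 a
      rw [← key]
      have h2 := h1 (ι a)
      rw [BoundedFormula.realize_imp, realize_rl, hP] at h2
      exact h2 ⟨a, by simp⟩
    · intro h1 x
      rw [BoundedFormula.realize_imp, realize_rl, hP]
      rintro ⟨a, ha⟩
      have hx : x = ι a := by simpa using ha
      rw [hx, key]
      exact h1 a

theorem t_E : S_E := by
  intro r ar L P ρ α φ
  obtain ⟨ψ, h⟩ := main L P ρ α φ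
  refine ⟨ψ, fun M _ _ ι hι hP hρ u => ?_⟩
  have h1 := h M ι hι hP hρ u default
  have e : (ι ∘ (default : Fin 0 → M)) = default := Subsingleton.elim _ _
  rw [e] at h1
  exact h1

end Q182.AR_E
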