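import Pool.Agent.Q182.AmMean
import Pool.Agent.H576R3.CF.NW
import Pool.Agent.H789R2.AN.Man

set_option autoImplicit false

/-!
# Anosov diffeomorphisms in amenable semigroups
-/

open scoped Manifold ContDiff Topology
open Set Filter

namespace Q182.AmAnosov

open Pool.Agent.H721R2 Pool.Agent.H789R2.AN Q182.AmMean

theorem iterHomeo_iter {X : Type*} [TopologicalSpace X] (f : X ≃ₜ X) (N k : ℕ) (x : X) :
    (iterHomeo f N)^[k] x = f^[N * k] x := by
  induction k generalizing x with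
  | zero => rfl
  | succ k ih =>
    rw [Function.iterate_succ_apply, ih, Nat.mul_succ, Function.iterate_add_apply]
    rfl

/-- Nonwandering Anosov diffeomorphisms of connected manifolds are transitive. -/
theorem man_nw {E : Type*} [NormedAddCommGroup E] [NormedSpace ℝ E] [FiniteDimensional ℝ E]
    {M : Type*} [TopologicalSpace M] [T2Space M] [CompactSpace M] [ConnectedSpace M]
    [ChartedSpace E M] [IsManifold 𝓘(ℝ, E) ∞ M] (f : Diffeomorph 𝓘(ℝ, E) 𝓘(ℝ, E) M M 1)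
    (Es Eu : ∀ x : M, Submodule ℝ (TangentSpace 𝓘(ℝ, E) x)) (hA : IsAnosov f Es Eu)
    (hnw : ∀ U : Set M, IsOpen U → U.Nonempty → ∃ m : ℕ, 1 ≤ m ∧ (f^[m] '' U ∩ U).Nonempty) :
    TopTransitive f := by
  obtain ⟨m, ee, hee, hemb, hinje⟩ :=
    exists_embedding_euclidean_of_compact (I := 𝓘(ℝ, E)) (M := M)
  let _ : MetricSpace M := hemb.isEmbedding.comapMetricSpace ee
  have hiso : ∀ x y : M, dist x y = ‖ee x - ee y‖ := fun x y => dist_eq_norm (ee x) (ee y)
  have he1 : ContMDiff 𝓘(ℝ, E) (𝓡 m) 1 ee := hee.of_le (by simp)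
  obtain ⟨C, a, b, Ls, Lu, hE⟩ := eanosov_of_isAnosov ee he1 hinje f Es Eu hA
  obtain ⟨K, hK, hang⟩ := hE.angle he1 hinje
  have t1 : Tendsto (fun n : ℕ => K * (C * a ^ n)) atTop (𝓝 0) := by
    have := ((tendsto_pow_atTop_nhds_zero_of_lt_one hE.a_pos.le hE.a_lt).const_mul C).const_mul K
    simpa using this
  have t2 : Tendsto (fun n : ℕ => K * (C * b ^ n)) atTop (𝓝 0) := by
    have := ((tendsto_pow_atTop_nhds_zero_of_lt_one hE.b_pos.le hE.b_lt).const_mul C).const_mul K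
    simpa using this
  obtain ⟨n, ⟨h1, h2⟩, hn⟩ := ((((tendsto_order.mp t1).2 (1 / 16) (by norm_num)).and
    ((tendsto_order.mp t2).2 (1 / 16) (by norm_num))).and (eventually_ge_atTop 1)).exists
  obtain ⟨S, hg, -, -, -⟩ := exists_hypSys' hiso he1 hinje hE K hK hang n h1.le h2.le
  have hgk : ∀ k : ℕ, (S.g^[k]) = (f^[n * k]) := by
    intro k
    funext x
    rw [hg]
    exact iterHomeo_iter f.toHomeomorph n k x
  intro U V hU hUn hV hVn
  obtain ⟨k, _, ⟨x, hx, rfl⟩, hy⟩ := Pool.Agent.H576R3.CF.trans_of_nw S (fun O hO hOn => by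
    obtain ⟨k, hk, hk'⟩ := Pool.Agent.H576R3.CF.nw_pow f f.continuous hnw n hn O hO hOn
    refine ⟨k, hk, ?_⟩
    rw [hgk k]
    exact hk') U V hU hUn hV hVn
  rw [hgk k] at hy
  exact ⟨n * k, f^[n * k] x, ⟨x, hx, rfl⟩, hy⟩

end Q182.AmAnosov
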