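import Mathlib

set_option autoImplicit false

/-!
# Invariant means and recurrence

An invariant functional which is positive on an open set makes the set nonwandering.
-/

open Set Filter Topology

namespace Q182.AmMean

/-- A bounded real function. -/
def Bdd {Γ : Type*} (φ : Γ → ℝ) : Prop := ∃ C : ℝ, ∀ γ, |φ γ| ≤ C

/-- A left invariant mean on the bounded real functions on the semigroup `Γ`. -/
structure LeftInvariantMean {Γ : Type*} [Mul Γ] (m : (Γ → ℝ) → ℝ) : Prop where
  one : m (fun _ => 1) = 1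
  add : ∀ φ ψ : Γ → ℝ, Bdd φ → Bdd ψ → m (fun γ => φ γ + ψ γ) = m φ + m ψ
  smul : ∀ (c : ℝ) (φ : Γ → ℝ), Bdd φ → m (fun γ => c * φ γ) = c * m φ
  nonneg : ∀ φ : Γ → ℝ, Bdd φ → (∀ γ, 0 ≤ φ γ) → 0 ≤ m φ
  inv : ∀ (δ : Γ) (φ : Γ → ℝ), Bdd φ → m (fun γ => φ (δ * γ)) = m φ

/-- A normalised positive functional on the continuous functions of `X`. -/
structure State {X : Type*} [TopologicalSpace X] (ν : C(X, ℝ) → ℝ) : Prop where
  one : ν 1 = 1
  add : ∀ φ ψ : C(X, ℝ), ν (φ + ψ) = ν φ + ν ψ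
  smul : ∀ (c : ℝ) (φ : C(X, ℝ)), ν (c • φ) = c * ν φ
  nonneg : ∀ φ : C(X, ℝ), (∀ x, 0 ≤ φ x) → 0 ≤ ν φ

section state

variable {X : Type*} [TopologicalSpace X] {ν : C(X, ℝ) → ℝ}

theorem State.mono (h : State ν) {φ ψ : C(X, ℝ)} (hφψ : ∀ x, φ x ≤ ψ x) : ν φ ≤ ν ψ := by
  have h1 : ν (φ + (ψ + (-1 : ℝ) • φ)) = ν φ + (ν ψ + (-1) * ν φ) := by
    rw [h.add, h.add, h.smul]
  have h2 : φ + (ψ + (-1 : ℝ) • φ) = ψ := by
    ext x
    simp
  have h3 : 0 ≤ ν (ψ + (-1 : ℝ) • φ) := by
    refine h.nonneg _ fun x => ?_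
    simp only [ContinuousMap.add_apply, ContinuousMap.smul_apply, smul_eq_mul]
    have := hφψ x
    linarith
  rw [h.add, h.smul] at h3
  linarith

theorem State.sum (h : State ν) {ι : Type*} (s : Finset ι) (φ : ι → C(X, ℝ)) :
    ν (∑ i ∈ s, φ i) = ∑ i ∈ s, ν (φ i) := by
  classical
  induction s using Finset.induction_on with
  | empty =>
    have := h.smul 0 0
    simpa using this
  | insert a s ha ih => rw [Finset.sum_insert ha, Finset.sum_insert ha, h.add, ih]

theorem State.const (h : State ν) (c : ℝ) : ν (c • (1 : C(X, ℝ))) = c := by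
  rw [h.smul, h.one, mul_one]

/-- iterates as continuous maps -/
def itC (f : C(X, X)) (n : ℕ) : C(X, X) := ⟨f^[n], f.continuous.iterate n⟩

theorem inv_iter {f : C(X, X)} (hf : ∀ φ : C(X, ℝ), ν (φ.comp f) = ν φ) (n : ℕ) (φ : C(X, ℝ)) :
    ν (φ.comp (itC f n)) = ν φ := by
  induction n with
  | zero => rfl
  | succ n ih =>
    have : φ.comp (itC f (n + 1)) = (φ.comp (itC f n)).comp f := by
      ext x
      simp [itC]
    rw [this, hf, ih]

/-- An invariant state is positive only on nonwandering open sets. -/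
theorem nonwandering (h : State ν) {f : C(X, X)} (hf : ∀ φ : C(X, ℝ), ν (φ.comp f) = ν φ)
    {U : Set X} {φ : C(X, ℝ)} (h1 : ∀ x, φ x ≤ 1) (hU : ∀ x, x ∉ U → φ x = 0)
    (hpos : 0 < ν φ) : ∃ m : ℕ, 1 ≤ m ∧ (f^[m] '' U ∩ U).Nonempty := by
  by_contra hcon
  push Not at hcon
  have key : ∀ N : ℕ, ∀ x, ∑ n ∈ Finset.range N, φ (f^[n] x) ≤ 1 := by
    intro N x
    by_cases hex : ∃ n ∈ Finset.range N, f^[n] x ∈ U
    · obtain ⟨n, hn, hnU⟩ := hex
      rw [Finset.sum_eq_single_of_mem n hn]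
      · exact h1 _
      · intro k _ hk
        refine hU _ fun hkU => ?_
        rcases lt_or_gt_of_ne hk with hlt | hgt
        · have := hcon (n - k) (by omega)
          rw [← not_nonempty_iff_eq_empty] at this
          refine this ⟨f^[n] x, ⟨f^[k] x, hkU, ?_⟩, hnU⟩
          rw [← Function.iterate_add_apply]
          congr 1
          have : n - k + k = n := by omega
          rw [this]
        · have := hcon (k - n) (by omega)
          rw [← not_nonempty_iff_eq_empty] at this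
          refine this ⟨f^[k] x, ⟨f^[n] x, hnU, ?_⟩, hkU⟩
          rw [← Function.iterate_add_apply]
          congr 1
          have : k - n + n = k := by omega
          rw [this]
    · push Not at hex
      rw [Finset.sum_eq_zero fun n hn => hU _ (hex n hn)]
      exact zero_le_one
  have key2 : ∀ N : ℕ, (N : ℝ) * ν φ ≤ 1 := by
    intro N
    have e1 : ν (∑ n ∈ Finset.range N, φ.comp (itC f n)) = N * ν φ := by
      rw [h.sum, Finset.sum_congr rfl fun n _ => inv_iter hf n φ, Finset.sum_const,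
        Finset.card_range, nsmul_eq_mul]
    rw [← e1, ← h.one]
    refine h.mono fun x => ?_
    have := key N x
    simpa [itC, ContinuousMap.sum_apply] using this
  obtain ⟨N, hN⟩ := exists_nat_gt (1 / ν φ)
  have := key2 N
  rw [div_lt_iff₀ hpos] at hN
  linarith

/-- A state which is invariant under a family of maps with the covering property is positive on
all nonzero nonnegative functions. -/
theorem pos_of_cover [CompactSpace X] (h : State ν) {Γ : Type*} {α : Γ → C(X, X)}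
    (hinv : ∀ γ (φ : C(X, ℝ)), ν (φ.comp (α γ)) = ν φ) {U : Set X} (hU : IsOpen U)
    (hcov : ∀ x, ∃ γ, α γ x ∈ U) {φ : C(X, ℝ)} (h0 : ∀ x, 0 ≤ φ x) (hφ : ∀ x ∈ U, φ x = 1) :
    0 < ν φ := by
  obtain ⟨t, ht⟩ := isCompact_univ.elim_finite_subcover (fun γ : Γ => (α γ) ⁻¹' U)
    (fun γ => hU.preimage (α γ).continuous) (fun x _ => by
      obtain ⟨γ, hγ⟩ := hcov x
      exact mem_iUnion.2 ⟨γ, hγ⟩)
  have h2 : (1 : ℝ) ≤ ν (∑ γ ∈ t, φ.comp (α γ)) := by
    rw [← h.one]
    refine h.mono fun x => ?_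
    obtain ⟨γ, hγ⟩ := mem_iUnion.1 (ht (mem_univ x))
    obtain ⟨hγt, hγx⟩ := mem_iUnion.1 hγ
    rw [ContinuousMap.coe_sum, Finset.sum_apply]
    have h3 := Finset.single_le_sum (f := fun γ => (φ.comp (α γ)) x)
      (fun γ _ => h0 (α γ x)) hγt
    have h4 : (φ.comp (α γ)) x = 1 := hφ _ hγx
    simp only [h4] at h3
    exact h3
  rw [h.sum, Finset.sum_congr rfl fun γ _ => hinv γ φ, Finset.sum_const, nsmul_eq_mul] at h2
  by_contra hle
  push Not at hle
  have : (t.card : ℝ) * ν φ ≤ 0 := mul_nonpos_of_nonneg_of_nonpos (Nat.cast_nonneg _) hle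
  linarith

end state

section mean

variable {Γ : Type*} [Mul Γ] {m : (Γ → ℝ) → ℝ}

theorem LeftInvariantMean.mono (h : LeftInvariantMean m) {φ ψ : Γ → ℝ} (hφ : Bdd φ) (hψ : Bdd ψ)
    (hle : ∀ γ, φ γ ≤ ψ γ) : m φ ≤ m ψ := by
  have hb : Bdd (fun γ => (-1) * φ γ) := by
    obtain ⟨C, hC⟩ := hφ
    exact ⟨C, fun γ => by simpa using hC γ⟩
  have hb2 : Bdd (fun γ => ψ γ + (-1) * φ γ) := by
    obtain ⟨C, hC⟩ := hψ
    obtain ⟨D, hD⟩ := hb
    exact ⟨C + D, fun γ => (abs_add_le _ _).trans (add_le_add (hC γ) (hD γ))⟩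
  have h1 := h.nonneg _ hb2 fun γ => by have := hle γ; linarith
  rw [h.add _ _ hψ hb, h.smul _ _ hφ] at h1
  linarith

variable {X : Type*} [TopologicalSpace X] [CompactSpace X]

omit [Mul Γ] in
theorem bdd_comp (φ : C(X, ℝ)) (g : Γ → X) : Bdd fun γ => φ (g γ) :=
  ⟨‖φ‖, fun γ => by simpa using ContinuousMap.norm_coe_le_norm φ (g γ)⟩

/-- the state of an orbit -/
theorem LeftInvariantMean.state (h : LeftInvariantMean m) (g : Γ → X) :
    State (fun φ : C(X, ℝ) => m fun γ => φ (g γ)) where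
  one := h.one
  add φ ψ := h.add _ _ (bdd_comp φ g) (bdd_comp ψ g)
  smul c φ := h.smul c _ (bdd_comp φ g)
  nonneg φ hφ := h.nonneg _ (bdd_comp φ g) fun γ => hφ _

theorem LeftInvariantMean.state_inv (h : LeftInvariantMean m) {α : Γ → C(X, X)}
    (hα : ∀ γ δ x, α (γ * δ) x = α γ (α δ x)) (x : X) (γ₀ : Γ) (φ : C(X, ℝ)) :
    (m fun γ => (φ.comp (α γ₀)) (α γ x)) = m fun γ => φ (α γ x) := by
  rw [← h.inv γ₀ _ (bdd_comp φ fun γ => α γ x)]
  congr 1
  funext γ
  rw [hα]
  rfl

end mean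

section average

variable {X : Type*} [TopologicalSpace X] [CompactSpace X]

theorem State.abs_le {ν : C(X, ℝ) → ℝ} (h : State ν) (φ : C(X, ℝ)) : |ν φ| ≤ ‖φ‖ := by
  rw [_root_.abs_le]
  have h1 : ∀ x, |φ x| ≤ ‖φ‖ := fun x => by simpa using ContinuousMap.norm_coe_le_norm φ x
  constructor
  · rw [← h.const (-‖φ‖)]
    refine h.mono fun x => ?_
    have := (_root_.abs_le.1 (h1 x)).1
    simpa using this
  · rw [← h.const ‖φ‖]
    refine h.mono fun x => ?_
    have := (_root_.abs_le.1 (h1 x)).2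
    simpa using this

/-- limit along the hyperfilter -/
noncomputable def ulim (u : ℕ → ℝ) : ℝ := limUnder (hyperfilter ℕ : Filter ℕ) u

theorem tendsto_ulim {u : ℕ → ℝ} {C : ℝ} (hu : ∀ n, |u n| ≤ C) :
    Tendsto u (hyperfilter ℕ : Filter ℕ) (𝓝 (ulim u)) := by
  have hc : IsCompact (Icc (-C) C) := isCompact_Icc
  obtain ⟨L, -, hL⟩ := hc.ultrafilter_le_nhds ((hyperfilter ℕ).map u) (by
    rw [le_principal_iff, Ultrafilter.mem_coe, Ultrafilter.mem_map]
    filter_upwards with n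
    exact abs_le.1 (hu n))
  exact tendsto_nhds_limUnder ⟨L, hL⟩

/-- the average of the first `n` images -/
noncomputable def avg (ν : C(X, ℝ) → ℝ) (f : C(X, X)) (n : ℕ) (φ : C(X, ℝ)) : ℝ :=
  (∑ k ∈ Finset.range n, ν (φ.comp (itC f k))) / n

theorem avg_abs {ν : C(X, ℝ) → ℝ} (h : State ν) (f : C(X, X)) (n : ℕ) (φ : C(X, ℝ)) :
    |avg ν f n φ| ≤ ‖φ‖ := by
  unfold avg
  rcases Nat.eq_zero_or_pos n with rfl | hn
  · simp
  have hn' : (0 : ℝ) < n := Nat.cast_pos.2 hn
  rw [abs_div, abs_of_pos hn', div_le_iff₀ hn']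
  refine (Finset.abs_sum_le_sum_abs _ _).trans ?_
  refine (Finset.sum_le_card_nsmul _ _ ‖φ‖ fun k _ => (h.abs_le _).trans ?_).trans ?_
  · refine (ContinuousMap.norm_le _ (norm_nonneg φ)).2 fun x => ?_
    exact ContinuousMap.norm_coe_le_norm φ _
  · rw [Finset.card_range, nsmul_eq_mul, mul_comm]

/-- From a state which is invariant under a family `α` normalised by `f` one gets a state which is
invariant under the family and under `f`. -/
theorem exists_invariant {ν : C(X, ℝ) → ℝ} (h : State ν) (f : C(X, X)) {Γ : Type*}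
    (α : Γ → C(X, X)) (hinv : ∀ γ (φ : C(X, ℝ)), ν (φ.comp (α γ)) = ν φ)
    (hnorm : ∀ γ, ∃ δ, ∀ x, α γ (f x) = f (α δ x)) :
    ∃ μ : C(X, ℝ) → ℝ, State μ ∧ (∀ γ (φ : C(X, ℝ)), μ (φ.comp (α γ)) = μ φ) ∧
      ∀ φ : C(X, ℝ), μ (φ.comp f) = μ φ := by
  refine ⟨fun φ => ulim fun n => avg ν f n φ, ⟨?_, ?_, ?_, ?_⟩, ?_, ?_⟩
  · refine tendsto_nhds_unique (tendsto_ulim fun n => avg_abs h f n 1) ?_
    refine (tendsto_congr' ?_).2 tendsto_const_nhds
    have h1 : ∀ᶠ n : ℕ in (hyperfilter ℕ : Filter ℕ), 1 ≤ n :=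
      Nat.hyperfilter_le_atTop (eventually_ge_atTop 1)
    filter_upwards [h1] with n hn
    have hn' : (n : ℝ) ≠ 0 := by positivity
    unfold avg
    have e1 : ∀ k, ν ((1 : C(X, ℝ)).comp (itC f k)) = 1 := fun k => h.one
    rw [Finset.sum_congr rfl fun k _ => e1 k]
    simp [hn']
  · intro φ ψ
    refine tendsto_nhds_unique (tendsto_ulim fun n => avg_abs h f n (φ + ψ)) ?_
    have := (tendsto_ulim fun n => avg_abs h f n φ).add (tendsto_ulim fun n => avg_abs h f n ψ)
    refine this.congr fun n => ?_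
    unfold avg
    rw [← add_div, ← Finset.sum_add_distrib]
    congr 1
    refine Finset.sum_congr rfl fun k _ => ?_
    rw [← h.add]
    rfl
  · intro c φ
    refine tendsto_nhds_unique (tendsto_ulim fun n => avg_abs h f n (c • φ)) ?_
    have := (tendsto_ulim fun n => avg_abs h f n φ).const_mul c
    refine this.congr fun n => ?_
    unfold avg
    rw [← mul_div_assoc, Finset.mul_sum]
    congr 1
    refine Finset.sum_congr rfl fun k _ => ?_
    rw [← h.smul]
    rfl
  · intro φ hφ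
    refine ge_of_tendsto' (tendsto_ulim fun n => avg_abs h f n φ) fun n => ?_
    unfold avg
    exact div_nonneg (Finset.sum_nonneg fun k _ => h.nonneg _ fun x => hφ _) (Nat.cast_nonneg n)
  · intro γ φ
    change ulim (fun n => avg ν f n (φ.comp (α γ))) = ulim fun n => avg ν f n φ
    congr 1
    funext n
    unfold avg
    congr 1
    refine Finset.sum_congr rfl fun k _ => ?_
    have hk : ∀ k : ℕ, ∀ γ, ∃ δ, ∀ x, α γ (f^[k] x) = f^[k] (α δ x) := by
      intro k
      induction k with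
      | zero => exact fun γ => ⟨γ, fun x => rfl⟩
      | succ k ih =>
        intro γ
        obtain ⟨δ, hδ⟩ := ih γ
        obtain ⟨ε, hε⟩ := hnorm δ
        refine ⟨ε, fun x => ?_⟩
        rw [Function.iterate_succ_apply, hδ, hε, Function.iterate_succ_apply]
    obtain ⟨δ, hδ⟩ := hk k γ
    rw [← hinv δ (φ.comp (itC f k))]
    congr 1
    ext x
    exact congrArg φ (hδ x)
  · intro φ
    refine tendsto_nhds_unique (tendsto_ulim fun n => avg_abs h f n (φ.comp f)) ?_
    have h1 : Tendsto (fun n : ℕ => avg ν f n (φ.comp f) - avg ν f n φ)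
        (hyperfilter ℕ : Filter ℕ) (𝓝 0) := by
      refine Tendsto.mono_left ?_ Nat.hyperfilter_le_atTop
      have h2 : Tendsto (fun n : ℕ => 2 * ‖φ‖ / (n : ℝ)) atTop (𝓝 0) :=
        tendsto_const_div_atTop_nhds_zero_nat _
      refine squeeze_zero_norm (fun n => ?_) h2
      unfold avg
      rw [← sub_div, ← Finset.sum_sub_distrib]
      have e1 : ∀ k, ν ((φ.comp f).comp (itC f k)) = ν (φ.comp (itC f (k + 1))) := by
        intro k
        congr 1
        ext x
        simp only [itC, ContinuousMap.comp_apply, ContinuousMap.coe_mk]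
        rw [Function.iterate_succ_apply']
      rw [Finset.sum_congr rfl fun k _ => by rw [e1 k], Finset.sum_range_sub
        (fun k => ν (φ.comp (itC f k)))]
      rw [Real.norm_eq_abs, abs_div, Nat.abs_cast]
      refine div_le_div_of_nonneg_right ?_ (Nat.cast_nonneg n)
      have hn : ∀ k, |ν (φ.comp (itC f k))| ≤ ‖φ‖ := fun k => (h.abs_le _).trans
        ((ContinuousMap.norm_le _ (norm_nonneg φ)).2 fun x =>
          ContinuousMap.norm_coe_le_norm φ _)
      have := abs_sub (ν (φ.comp (itC f n))) (ν (φ.comp (itC f 0)))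
      have h3 := hn n
      have h4 := hn 0
      linarith [abs_sub_le (ν (φ.comp (itC f n))) 0 (ν (φ.comp (itC f 0))),
        abs_sub_comm (0 : ℝ) (ν (φ.comp (itC f 0)))]
    have h3 := h1.add (tendsto_ulim fun n => avg_abs h f n φ)
    rw [zero_add] at h3
    refine h3.congr fun n => ?_
    ring

end average

end Q182.AmMean
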