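import Pool.Agent.Q182.AnRel

/-!
# The tree obtained by coning off the classes of edges
-/

set_option autoImplicit false

namespace Q182.An

open SimpleGraph
open Pool.Agent.Helper270.Tree
open Q182.Cyl (Est Fam cone isTree_cone exists_first exists_parent mem_Est Est_comm Est_smul
  infinite_of_le cone_ll cone_lr cone_rl ClosedA vcyc_mem)

variable {G V : Type} [Group G] [MulAction G V] {T : SimpleGraph V} {R : V → V → V → Prop}

/-- edges at a vertex whose stabilizers have an infinite intersection are related -/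
def InfRel (G : Type) {V : Type} [Group G] [MulAction G V] (T : SimpleGraph V)
    (R : V → V → V → Prop) : Prop :=
  ∀ v w w', T.Adj v w → T.Adj v w' → Infinite ↥(Est G v w ⊓ Est G v w') → R v w w'

variable (hR : Ang G T R) (hT : TreeAct G T)

include hR hT in
theorem smul_fam (g : G) {S : Set V} (hS : S ∈ fam T R) : (fun x => g • x) '' S ∈ fam T R := by
  obtain ⟨v, w, h1, rfl⟩ := hS
  exact ⟨g • v, g • w, hT.adj g _ _ h1, smul_Y hR hT g v w⟩

/-- the action on the classes -/
@[reducible] def famAct : MulAction G (fam T R) where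
  smul g S := ⟨(fun x => g • x) '' S.1, smul_fam hR hT g S.2⟩
  one_smul S := by
    apply Subtype.ext
    show (fun x => (1 : G) • x) '' S.1 = S.1
    simp
  mul_smul g h S := by
    apply Subtype.ext
    show (fun x => (g * h) • x) '' S.1 = (fun x => g • x) '' ((fun x => h • x) '' S.1)
    rw [Set.image_image]
    simp only [mul_smul]

/-- the action on the vertices of the tree -/
@[reducible] def coneAct : MulAction G (V ⊕ fam T R) :=
  letI := famAct hR hT
  inferInstance

theorem treeAct_cone : letI := coneAct hR hT; TreeAct G (cone T (fam T R)) := by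
  let _ := coneAct hR hT
  refine ⟨isTree_cone hT.isTree (fam_fam hR hT.isTree), ?_, ?_⟩
  · rintro g (v | S) (w | S') h
    · show (cone T (fam T R)).Adj (Sum.inl (g • v)) (Sum.inl (g • w))
      obtain ⟨h1, h2⟩ := cone_ll.1 h
      refine cone_ll.2 ⟨hT.adj g _ _ h1, ?_⟩
      rintro S hS ⟨h3, h4⟩
      refine h2 _ (smul_fam hR hT g⁻¹ hS) ⟨⟨g • v, h3, ?_⟩, ⟨g • w, h4, ?_⟩⟩
      · exact inv_smul_smul g v
      · exact inv_smul_smul g w
    · show (cone T (fam T R)).Adj (Sum.inl (g • v)) (Sum.inr ⟨_, smul_fam hR hT g S'.2⟩)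
      exact cone_lr.2 ⟨v, cone_lr.1 h, rfl⟩
    · show (cone T (fam T R)).Adj (Sum.inr ⟨_, smul_fam hR hT g S.2⟩) (Sum.inl (g • w))
      exact cone_rl.2 ⟨w, cone_rl.1 h, rfl⟩
    · exact h
  · rintro g (v | S) (w | S') h ⟨h1, h2⟩
    · exact hT.noInv g v w (cone_ll.1 h).1 ⟨Sum.inl.inj h1, Sum.inl.inj h2⟩
    · have h3 : (Sum.inl (g • v) : V ⊕ fam T R) = Sum.inr S' := h1
      simp at h3
    · have h3 : (Sum.inl (g • w) : V ⊕ fam T R) = Sum.inr S := h2
      simp at h3
    · exact h

include hT in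
theorem finite_pair (hI : InfRel G T R) {v w : V} (hvw : v ≠ w)
    (hS : ∀ S ∈ fam T R, ¬ (v ∈ S ∧ w ∈ S)) :
    {g : G | g • v = v ∧ g • w = w}.Finite := by
  obtain ⟨q, h0, hn, hadj, hd, hnb⟩ := exists_geod hT.isTree v w
  have hpos : 0 < T.dist v w := hT.isTree.connected.pos_dist_of_ne hvw
  have hfix : ∀ i ≤ T.dist v w, ∀ g : G, g • v = v → g • w = w → g • q i = q i := by
    intro i hi g hgv hgw
    refine hT.convex hgv hgw ?_
    have := hd i hi
    omega
  by_contra hinf
  have hE : Infinite (Est G v w) := Set.infinite_coe_iff.2 hinf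
  have key : ∀ i < T.dist v w, Lkd T R (q 0) (q 1) (q i) (q (i + 1)) := by
    intro i
    induction i with
    | zero =>
      intro hi
      exact Lkd.refl (hadj 0 hi)
    | succ i ih =>
      intro hi
      have h1 := (ih (by omega)).swap _ _
      refine h1.turn _ _ _ (hadj (i + 1) hi) (hI _ _ _ (hadj i (by omega)).symm
        (hadj (i + 1) hi) ?_)
      refine infinite_of_le ?_ hE
      intro g hg
      exact ⟨⟨hfix (i + 1) (by omega) g hg.1 hg.2, hfix i (by omega) g hg.1 hg.2⟩,
        ⟨hfix (i + 1) (by omega) g hg.1 hg.2, hfix (i + 1 + 1) (by omega) g hg.1 hg.2⟩⟩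
  refine hS (Y T R (q 0) (q 1)) ⟨q 0, q 1, hadj 0 hpos, rfl⟩ ⟨?_, ?_⟩
  · have := self_mem (R := R) (hadj 0 hpos)
    rwa [h0] at this ⊢
  · refine ⟨q (T.dist v w - 1), ?_⟩
    have h1 := (key (T.dist v w - 1) (by omega)).swap _ _
    rw [Nat.sub_add_cancel hpos, hn] at h1
    exact h1

theorem exists_fixed : letI := coneAct hR hT; ∀ x y : V ⊕ fam T R,
    1 ≤ (cone T (fam T R)).dist x y → ∃ v : V, (∀ g : G, g • x = x → g • y = y → g • v = v) ∧
      (cone T (fam T R)).dist x y ≤ (cone T (fam T R)).dist (Sum.inl v) y + 1 := by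
  let _ := coneAct hR hT
  intro x y hxy
  have hA : TreeAct G (cone T (fam T R)) := treeAct_cone hR hT
  rcases x with v | S
  · refine ⟨v, ?_, by omega⟩
    intro g hg _
    exact Sum.inl.inj hg
  · have hne : (Sum.inr S : V ⊕ fam T R) ≠ y := by
      rintro rfl
      rw [dist_self] at hxy
      omega
    obtain ⟨u, h1, h2⟩ := exists_first hA.isTree hne
    rcases u with v | S'
    · refine ⟨v, ?_, by omega⟩
      intro g hgx hgy
      have h3 : g • (Sum.inl v : V ⊕ fam T R) = Sum.inl v := by
        refine hA.convex hgx hgy ?_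
        rw [dist_eq_one_iff_adj.2 h1]
        exact h2
      exact Sum.inl.inj h3
    · exact absurd h1 (fun h => h)

theorem finite_cone (hI : InfRel G T R) : letI := coneAct hR hT; ∀ x y : V ⊕ fam T R,
    5 ≤ (cone T (fam T R)).dist x y → {g : G | g • x = x ∧ g • y = y}.Finite := by
  let _ := coneAct hR hT
  intro x y hxy
  have hA : TreeAct G (cone T (fam T R)) := treeAct_cone hR hT
  obtain ⟨v, h1, h2⟩ := exists_fixed hR hT x y (by omega)
  obtain ⟨w, h3, h4⟩ := exists_fixed hR hT y (Sum.inl v) (by rw [dist_comm]; omega)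
  have h5 : 3 ≤ (cone T (fam T R)).dist (Sum.inl v) (Sum.inl w) := by
    rw [dist_comm]
    rw [dist_comm] at h4
    omega
  refine (finite_pair (R := R) hT hI (v := v) (w := w) ?_ ?_).subset ?_
  · rintro rfl
    rw [dist_self] at h5
    omega
  · rintro S hS ⟨hv, hw⟩
    have h6 : (cone T (fam T R)).Adj (Sum.inl v) (Sum.inr ⟨S, hS⟩) := cone_lr.2 hv
    have h7 : (cone T (fam T R)).Adj (Sum.inr ⟨S, hS⟩) (Sum.inl w) := cone_rl.2 hw
    have h8 := SimpleGraph.dist_le (Walk.cons h6 (Walk.cons h7 Walk.nil))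
    simp only [Walk.length_cons, Walk.length_nil] at h8
    omega
  · rintro g ⟨hgx, hgy⟩
    have hgv : g • v = v := h1 g hgx hgy
    have hgv' : g • (Sum.inl v : V ⊕ fam T R) = Sum.inl v := congrArg Sum.inl hgv
    exact ⟨hgv, h3 g hgy hgv'⟩

/-- **the theorem on the stabilizers of the classes** -/
theorem main_cls {C : ∀ (G : Type) [Group G], Prop} (hC : ClosedA C) (hI : InfRel G T R)
    (hst : ∀ v : V, C (MulAction.stabilizer G v))
    (hcls : ∀ (v w : V) (h : T.Adj v w), C (clsStab hR hT h)) : C G := by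
  let _ := coneAct hR hT
  have hA : TreeAct G (cone T (fam T R)) := treeAct_cone hR hT
  refine hC.acyl G G (V ⊕ fam T R) (MonoidHom.id G) (cone T (fam T R)) 5
    (fun g => ⟨g, rfl⟩) hA.isTree hA.adj hA.noInv (finite_cone hR hT hI) ?_ ?_
  · rintro (v | S)
    · refine hC.base.base.of_injective _ _ (Subgroup.inclusion ?_)
        (Subgroup.inclusion_injective _) (hst v)
      intro g hg
      have h1 : g • (Sum.inl v : V ⊕ fam T R) = Sum.inl v := hg
      exact Sum.inl.inj h1
    · obtain ⟨v, w, hvw, hS⟩ := S.2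
      refine hC.base.base.of_injective _ _ (Subgroup.inclusion ?_)
        (Subgroup.inclusion_injective _) (hcls v w hvw)
      intro g hg
      have h1 : g • (Sum.inr S : V ⊕ fam T R) = Sum.inr S := hg
      have h2 : (fun x => g • x) '' S.1 = S.1 := congrArg Subtype.val (Sum.inr.inj h1)
      have h3 : g • v ∈ S.1 := by
        rw [← h2]
        exact ⟨v, by rw [hS]; exact self_mem hvw, rfl⟩
      have h4 : g • w ∈ S.1 := by
        rw [← h2]
        exact ⟨w, by rw [hS]; exact self_mem' hvw, rfl⟩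
      rw [hS] at h3 h4
      have h5 : T.Adj (g • v) (g • w) := hT.adj g v w hvw
      exact Y_between hR hT.isTree h3 h4 h5 (by
        rw [dist_self, dist_self, dist_eq_one_iff_adj.2 h5])
  · intro W hW
    exact vcyc_mem hC.base.base hW

end Q182.An
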