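import Pool.Agent.Q182.AnAct
import Pool.Agent.Y430.SS.Lf

/-!
# Classes whose stabilizers have no hyperbolic elements
-/

set_option autoImplicit false

namespace Q182.An

open SimpleGraph
open Pool.Agent.Helper270.Tree
open Q182.Cyl (Est Est_comm Est_smul infinite_of_le ClosedA)

variable {G V : Type} [Group G] [MulAction G V] {T : SimpleGraph V} {R : V → V → V → Prop}
variable (hR : Ang G T R) (hT : TreeAct G T)

/-- a group all of whose elements have fixed points -/
theorem ell_mem {C : ∀ (G : Type) [Group G], Prop} (hC : ClosedA C) {H : Subgroup G}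
    (hT : TreeAct G T) (hst : ∀ v : V, C (MulAction.stabilizer G v))
    (hell : ∀ h ∈ H, ∃ u : V, h • u = u) : C H := by
  classical
  have hH : TreeAct H T := ⟨hT.isTree, fun g v w h => hT.adj (g : G) v w h,
    fun g v w h => hT.noInv (g : G) v w h⟩
  refine Pool.Agent.Y430.SS.of_directed hC.base.base _ (Finset H)
    (fun i j => ⟨i ∪ j, Finset.subset_union_left, Finset.subset_union_right⟩)
    (fun S => Subgroup.closure (S : Set H)) ?_ ?_ ?_
  · intro S S' hSS
    exact Subgroup.closure_mono hSS
  · intro h
    exact ⟨{h}, Subgroup.subset_closure (by simp)⟩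
  · intro S
    obtain ⟨v, hv⟩ := hH.serre (fun h => hell h h.2) S
    have hle : Subgroup.closure (S : Set H) ≤ MulAction.stabilizer H v :=
      (Subgroup.closure_le _).2 (fun s hs => hv s hs)
    refine hC.base.base.of_injective _ _ (MonoidHom.mk' (fun x : Subgroup.closure (S : Set H) =>
      (⟨((x : H) : G), hle x.2⟩ : MulAction.stabilizer G v)) (fun _ _ => rfl)) ?_ (hst v)
    intro x y hxy
    exact Subtype.ext (Subtype.ext (congrArg (fun u : MulAction.stabilizer G v => (u : G)) hxy))

include hR hT in
/-- **classes whose stabilizers have no hyperbolic elements** -/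
theorem main_ell {C : ∀ (G : Type) [Group G], Prop} (hC : ClosedA C) (hI : InfRel G T R)
    (hst : ∀ v : V, C (MulAction.stabilizer G v))
    (hell : ∀ (v w : V) (g : G), T.Adj v w → Lkd T R v w (g • v) (g • w) → ∃ u : V, g • u = u) :
    C G :=
  main_cls hR hT hC hI hst fun v w h => ell_mem hC hT hst fun g hg => hell v w g h hg

end Q182.An
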