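import Pool.Agent.Q182.CylMain

/-!
# Classes of edges generated by relations at the vertices
-/

set_option autoImplicit false

namespace Q182.An

open SimpleGraph
open Pool.Agent.Helper270.Tree
open Q182.Cyl (Est Fam cone isTree_cone exists_first exists_parent mem_Est Est_comm Est_smul
  infinite_of_le cone_ll cone_lr cone_rl)

variable {G V : Type} [Group G] [MulAction G V] {T : SimpleGraph V}

/-- an invariant family of equivalence relations on the neighbours of the vertices -/
structure Ang (G : Type) {V : Type} [Group G] [MulAction G V] (T : SimpleGraph V)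
    (R : V → V → V → Prop) : Prop where
  refl : ∀ v w, T.Adj v w → R v w w
  symm : ∀ v w w', R v w w' → R v w' w
  trans : ∀ v w w' w'', R v w w' → R v w' w'' → R v w w''
  smul : ∀ (g : G) v w w', R v w w' → R (g • v) (g • w) (g • w')

/-- two (oriented) edges are linked -/
inductive Lkd (T : SimpleGraph V) (R : V → V → V → Prop) (v w : V) : V → V → Prop
  | refl : T.Adj v w → Lkd T R v w v w
  | swap (x y : V) : Lkd T R v w x y → Lkd T R v w y x
  | turn (x y y' : V) : Lkd T R v w x y → T.Adj x y' → R x y y' → Lkd T R v w x y'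

theorem Lkd.adj {R : V → V → V → Prop} {v w x y : V} (h : Lkd T R v w x y) : T.Adj x y := by
  induction h with
  | refl h => exact h
  | swap x y _ ih => exact ih.symm
  | turn x y y' _ h _ _ => exact h

theorem Lkd.adj' {R : V → V → V → Prop} {v w x y : V} (h : Lkd T R v w x y) : T.Adj v w := by
  induction h with
  | refl h => exact h
  | swap x y _ ih => exact ih
  | turn x y y' _ h _ ih => exact ih

theorem Lkd.trans {R : V → V → V → Prop} {v w x y a b : V} (h : Lkd T R v w x y)
    (h' : Lkd T R x y a b) : Lkd T R v w a b := by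
  induction h' with
  | refl _ => exact h
  | swap a b _ ih => exact ih.swap _ _
  | turn a b b' _ h1 h2 ih => exact ih.turn _ _ _ h1 h2

theorem Lkd.symm {R : V → V → V → Prop} (hR : Ang G T R) {v w x y : V} (h : Lkd T R v w x y) :
    Lkd T R x y v w := by
  induction h with
  | refl h => exact Lkd.refl h
  | swap x y h ih =>
    exact ((Lkd.refl h.adj.symm).swap _ _).trans ih
  | turn x y y' h h1 h2 ih =>
    exact ((Lkd.refl h1).turn _ _ _ h.adj (hR.symm _ _ _ h2)).trans ih

theorem Lkd.smul {R : V → V → V → Prop} (hR : Ang G T R) (hT : TreeAct G T) (g : G) {v w x y : V}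
    (h : Lkd T R v w x y) : Lkd T R (g • v) (g • w) (g • x) (g • y) := by
  induction h with
  | refl h => exact Lkd.refl (hT.adj g _ _ h)
  | swap x y h ih => exact ih.swap _ _
  | turn x y y' h h1 h2 ih => exact ih.turn _ _ _ (hT.adj g _ _ h1) (hR.smul g _ _ _ h2)

/-- distances in a tree -/
theorem dist_last (hT : T.IsTree) {v u x y : V} (huy : u ≠ y) (hxy : T.Adj x y)
    (h1 : T.dist v y = T.dist v x + 1) (h2 : T.dist v u + T.dist u y = T.dist v y) :
    T.dist u y = T.dist u x + 1 := by
  rcases hT.dist_eq_dist_add_one_of_adj u hxy with h | h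
  · exfalso
    obtain ⟨z, hz1, hz2⟩ := exists_first hT huy.symm
    have h3 : T.dist v z ≤ T.dist v u + T.dist u z := hT.connected.dist_triangle
    have h4 : T.dist v y ≤ T.dist v z + T.dist z y := hT.connected.dist_triangle
    have h5 : T.dist z y = 1 := dist_eq_one_iff_adj.2 hz1.symm
    have h6 : T.dist u z = T.dist z u := dist_comm
    have h7 : T.dist u y = T.dist y u := dist_comm
    have h8 : z = x := parent_unique hT hz1.symm hxy (z := v) (by omega) h1
    rw [h8] at h6 hz2
    omega
  · exact h

/-- the edges between linked edges are linked -/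
theorem Lkd.between {R : V → V → V → Prop} (hT : T.IsTree) {v w x y : V} (h : Lkd T R v w x y) :
    ∀ u u', T.Adj u u' → T.dist v u + 1 + T.dist u' x = T.dist v x → Lkd T R v w u u' := by
  induction h with
  | refl h =>
    intro u u' _ h2
    rw [dist_self] at h2
    omega
  | swap x y h ih =>
    intro u u' huu hd
    rcases hT.dist_eq_dist_add_one_of_adj v h.adj with h1 | h1
    · -- `y` is between
      refine ih u u' huu ?_
      have h2 : T.dist u' x ≤ T.dist u' y + T.dist y x := hT.connected.dist_triangle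
      have h3 : T.dist y x = 1 := dist_eq_one_iff_adj.2 h.adj.symm
      have h4 : T.dist v x ≤ T.dist v u + T.dist u x := hT.connected.dist_triangle
      have h5 : T.dist u x ≤ T.dist u u' + T.dist u' x := hT.connected.dist_triangle
      have h6 : T.dist u u' = 1 := dist_eq_one_iff_adj.2 huu
      omega
    · by_cases hy : u' = y
      · subst hy
        rw [dist_self] at hd
        have h2 : u = x := parent_unique hT huu h.adj (z := v) (by omega) h1
        rw [h2]
        exact h
      · refine ih u u' huu ?_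
        have h2 : T.dist v u' + T.dist u' y = T.dist v y := by
          have h3 : T.dist v y ≤ T.dist v u' + T.dist u' y := hT.connected.dist_triangle
          have h4 : T.dist v u' ≤ T.dist v u + T.dist u u' := hT.connected.dist_triangle
          have h6 : T.dist u u' = 1 := dist_eq_one_iff_adj.2 huu
          omega
        have h3 := dist_last hT hy h.adj h1 h2
        omega
  | turn x y y' h h1 h2 ih =>
    exact ih

/-- linked edges at one vertex are related -/
theorem Lkd.local {R : V → V → V → Prop} (hR : Ang G T R) (hT : T.IsTree) {v w x y : V}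
    (h : Lkd T R v w x y) : ∃ z, T.Adj v z ∧ R v w z ∧
      ((x = v ∧ y = z) ∨ (x ≠ v ∧ 1 + T.dist z x = T.dist v x)) := by
  induction h with
  | refl h => exact ⟨w, h, hR.refl v w h, Or.inl ⟨rfl, rfl⟩⟩
  | swap x y h ih =>
    obtain ⟨z, hz1, hz2, hz3⟩ := ih
    refine ⟨z, hz1, hz2, ?_⟩
    have hz4 : T.dist v z = 1 := dist_eq_one_iff_adj.2 hz1
    rcases hz3 with ⟨h1, h2⟩ | ⟨h1, h2⟩
    · right
      subst h1 h2
      refine ⟨hz1.ne', ?_⟩
      rw [dist_self, hz4]
    · by_cases hy : y = v
      · left
        subst hy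
        have h3 : T.dist y x = 1 := dist_eq_one_iff_adj.2 h.adj.symm
        have h4 : T.dist z x = 0 := by omega
        exact ⟨rfl, (hT.connected.dist_eq_zero_iff.1 h4).symm⟩
      · right
        refine ⟨hy, ?_⟩
        rcases hT.dist_eq_dist_add_one_of_adj v h.adj with h3 | h3
        · have hvy : 0 < T.dist v y := hT.connected.pos_dist_of_ne (Ne.symm hy)
          have hzx : z ≠ x := by
            rintro rfl
            rw [dist_self] at h2
            omega
          have h4 := dist_last hT hzx h.adj.symm h3 (by omega)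
          omega
        · have h4 : T.dist v y ≤ T.dist v z + T.dist z y := hT.connected.dist_triangle
          have h5 : T.dist z y ≤ T.dist z x + T.dist x y := hT.connected.dist_triangle
          have h6 : T.dist x y = 1 := dist_eq_one_iff_adj.2 h.adj
          omega
  | turn x y y' h h1 h2 ih =>
    obtain ⟨z, hz1, hz2, hz3⟩ := ih
    rcases hz3 with ⟨h3, h4⟩ | ⟨h3, h4⟩
    · subst h3 h4
      exact ⟨y', h1, hR.trans _ _ _ _ hz2 h2, Or.inl ⟨rfl, rfl⟩⟩
    · exact ⟨z, hz1, hz2, Or.inr ⟨h3, h4⟩⟩

theorem Lkd.local' {R : V → V → V → Prop} (hR : Ang G T R) (hT : T.IsTree) {v w w' : V}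
    (h : Lkd T R v w v w') : R v w w' := by
  obtain ⟨z, _, hz2, hz3⟩ := h.local hR hT
  rcases hz3 with ⟨_, h2⟩ | ⟨h1, _⟩
  · rw [h2]
    exact hz2
  · exact absurd rfl h1

/-- the vertices of the edges which are linked to a given edge -/
def Y (T : SimpleGraph V) (R : V → V → V → Prop) (v w : V) : Set V := {x | ∃ y, Lkd T R v w x y}

theorem Y_congr {R : V → V → V → Prop} (hR : Ang G T R) {v w x y : V} (h : Lkd T R v w x y) :
    Y T R v w = Y T R x y := by
  ext a
  constructor
  · rintro ⟨b, hb⟩
    exact ⟨b, (h.symm hR).trans hb⟩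
  · rintro ⟨b, hb⟩
    exact ⟨b, h.trans hb⟩

/-- the edges of the geodesic between two points -/
theorem Y_between {R : V → V → V → Prop} (hR : Ang G T R) (hT : T.IsTree) {v w x x' u u' : V}
    (hx : x ∈ Y T R v w) (hx' : x' ∈ Y T R v w) (huu : T.Adj u u')
    (hd : T.dist x u + 1 + T.dist u' x' = T.dist x x') : Lkd T R v w u u' := by
  obtain ⟨y, hy⟩ := hx
  obtain ⟨y', hy'⟩ := hx'
  exact hy.trans (((hy.symm hR).trans hy').between hT u u' huu hd)

/-- the family of the classes -/
def fam (T : SimpleGraph V) (R : V → V → V → Prop) : Set (Set V) :=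
  {S | ∃ v w, T.Adj v w ∧ S = Y T R v w}

theorem self_mem {R : V → V → V → Prop} {v w : V} (h : T.Adj v w) : v ∈ Y T R v w :=
  ⟨w, Lkd.refl h⟩

theorem self_mem' {R : V → V → V → Prop} {v w : V} (h : T.Adj v w) : w ∈ Y T R v w :=
  ⟨v, (Lkd.refl h).swap _ _⟩

theorem fam_fam {R : V → V → V → Prop} (hR : Ang G T R) (hT : T.IsTree) : Fam T (fam T R) where
  ne := by
    rintro _ ⟨v, w, h, rfl⟩
    exact ⟨v, self_mem h⟩
  conv := by
    rintro _ ⟨a, b, hab, rfl⟩ v hv w hw u hu
    by_cases huw : u = w
    · rw [huw]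
      exact hw
    · obtain ⟨u', h1, h2⟩ := exists_first hT huw
      exact ⟨u', Y_between hR hT hv hw h1 (by omega)⟩
  one := by
    rintro _ ⟨a, b, hab, rfl⟩ _ ⟨a', b', hab', rfl⟩ v w hvw hv hw hv' hw'
    obtain ⟨u, h1, h2⟩ := exists_first hT hvw
    have h3 := Y_between hR hT hv hw h1 (by rw [dist_self]; omega)
    have h4 := Y_between hR hT hv' hw' h1 (by rw [dist_self]; omega)
    rw [Y_congr hR h3, Y_congr hR h4]

theorem smul_Y {R : V → V → V → Prop} (hR : Ang G T R) (hT : TreeAct G T) (g : G) (v w : V) :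
    (fun x => g • x) '' Y T R v w = Y T R (g • v) (g • w) := by
  ext x
  constructor
  · rintro ⟨a, ⟨b, hb⟩, rfl⟩
    exact ⟨g • b, hb.smul hR hT g⟩
  · rintro ⟨y, hy⟩
    refine ⟨g⁻¹ • x, ⟨g⁻¹ • y, ?_⟩, smul_inv_smul g x⟩
    have h1 := hy.smul hR hT g⁻¹
    rwa [inv_smul_smul, inv_smul_smul] at h1

/-- the stabilizer of the class of an edge -/
def clsStab {R : V → V → V → Prop} (hR : Ang G T R) (hT : TreeAct G T) {v w : V}
    (h : T.Adj v w) : Subgroup G where
  carrier := {g | Lkd T R v w (g • v) (g • w)}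
  one_mem' := by
    show Lkd T R v w ((1 : G) • v) ((1 : G) • w)
    rw [one_smul, one_smul]
    exact Lkd.refl h
  mul_mem' := by
    intro a b ha hb
    show Lkd T R v w ((a * b) • v) ((a * b) • w)
    rw [mul_smul, mul_smul]
    exact Lkd.trans ha (Lkd.smul hR hT a hb)
  inv_mem' := by
    intro a ha
    have h1 := (Lkd.smul hR hT a⁻¹ ha).symm hR
    rw [inv_smul_smul, inv_smul_smul] at h1
    exact h1

theorem mem_clsStab {R : V → V → V → Prop} (hR : Ang G T R) (hT : TreeAct G T) {v w : V}
    (h : T.Adj v w) {g : G} : g ∈ clsStab hR hT h ↔ Lkd T R v w (g • v) (g • w) := Iff.rfl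

theorem clsStab_Y {R : V → V → V → Prop} (hR : Ang G T R) (hT : TreeAct G T) {v w : V}
    (h : T.Adj v w) {g : G} (hg : g ∈ clsStab hR hT h) {x : V} (hx : x ∈ Y T R v w) :
    g • x ∈ Y T R v w := by
  obtain ⟨y, hy⟩ := hx
  exact ⟨g • y, Lkd.trans hg (hy.smul hR hT g)⟩

/-- an element of the stabilizer moves edges to linked edges -/
theorem clsStab_iff {R : V → V → V → Prop} (hR : Ang G T R) (hT : TreeAct G T) {v w : V}
    (h : T.Adj v w) {g : G} {x y : V} (hxy : Lkd T R v w x y) :
    g ∈ clsStab hR hT h ↔ Lkd T R x y (g • x) (g • y) := by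
  constructor
  · intro hg
    exact ((hxy.symm hR).trans hg).trans (hxy.smul hR hT g)
  · intro hg
    exact (hxy.trans hg).trans ((hxy.smul hR hT g).symm hR)

end Q182.An
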