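import Pool.Agent.Q182.LkMain

/-!
# Local kernels: special cases
-/

set_option autoImplicit false

namespace Q182.Lk

open Monoid SimpleGraph
open Pool.Agent.Helper270.Tree
open Pool.Agent.Y110.FJ (ClosedE)
open Pool.Agent.Y462.SS (Closed)
open Q182.Cyl (ClosedA Est)
open scoped commutatorElement

variable {C : ∀ (G : Type) [Group G], Prop} {G V D : Type} [Group G] [MulAction G V] [Group D]
  {T : SimpleGraph V}

/-- the elements of the kernel which fix `v` and commute with the elements of the kernel which fix an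
edge at `v` -/
def CK (T : SimpleGraph V) (ρ : G →* D) (v : V) : Subgroup G where
  carrier := {g | ρ g = 1 ∧ g • v = v ∧ ∀ w, T.Adj v w → ∀ s : G, ρ s = 1 → s • v = v → s • w = w →
    g * s = s * g}
  one_mem' := ⟨map_one ρ, one_smul _ _, fun _ _ s _ _ _ => by rw [one_mul, mul_one]⟩
  mul_mem' := by
    rintro a b ⟨h1, h2, h3⟩ ⟨h4, h5, h6⟩
    refine ⟨by rw [map_mul, h1, h4, mul_one], by rw [mul_smul, h5, h2], ?_⟩
    intro w hw s h7 h8 h9
    rw [mul_assoc, h6 w hw s h7 h8 h9, ← mul_assoc, h3 w hw s h7 h8 h9, mul_assoc]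
  inv_mem' := by
    rintro a ⟨h1, h2, h3⟩
    refine ⟨by rw [map_inv, h1, inv_one], by rw [inv_smul_eq_iff, h2], ?_⟩
    intro w hw s h7 h8 h9
    rw [inv_mul_eq_iff_eq_mul, ← mul_assoc, h3 w hw s h7 h8 h9, mul_inv_cancel_right]

/-- **commuting elements of edge stabilizers** -/
theorem main_comm (hC : ClosedA C) (hmet : ∀ (G : Type) [Group G], derivedSeries G 2 = ⊥ → C G)
    (hT : TreeAct G T) (ρ : G →* D) (hD : C D) (hst : ∀ v : V, C (MulAction.stabilizer G v))
    (hcm : ∀ v w w' : V, T.Adj v w → T.Adj v w' → ∀ s s' : G, ρ s = 1 → ρ s' = 1 → s • v = v →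
      s • w = w → s' • v = v → s' • w' = w' → s * s' = s' * s)
    (hQ : ∀ v, ∃ (Q : Type) (_ : Group Q) (φ : MulAction.stabilizer G v →* Q), C Q ∧
      ∀ g, φ g = 1 ↔ ∀ w, T.Adj v w → ∀ s : G, ρ s = 1 → s • v = v → s • w = w →
        (g : G) * s = s * g) : C G := by
  refine main hC hmet hT ρ hD (K := CK T ρ) (L := fun _ => ⊥) ⟨?_, fun _ => bot_le, ?_, ?_, ?_, ?_, ?_,
    ?_⟩ ?_ ?_ hst
  · exact fun v k hk => hk.2.1
  · rintro g v k ⟨h1, h2, h3⟩
    refine ⟨by rw [map_mul, map_mul, h1, mul_one, map_inv, mul_inv_cancel], by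
      rw [mul_smul, mul_smul, inv_smul_smul, h2], ?_⟩
    intro w hw s h4 h5 h6
    have h7 : T.Adj v (g⁻¹ • w) := by
      have h8 := hT.adj g⁻¹ _ _ hw
      rwa [inv_smul_smul] at h8
    have h8 := h3 _ h7 (g⁻¹ * s * g) (by
      rw [map_mul, map_mul, h4, mul_one, map_inv, inv_mul_cancel]) (by
      rw [mul_smul, mul_smul, h5, inv_smul_smul]) (by
      rw [mul_smul, mul_smul, smul_inv_smul, h6])
    have h9 : g * (k * (g⁻¹ * s * g)) * g⁻¹ = g * k * g⁻¹ * s := by group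
    have h10 : g * ((g⁻¹ * s * g) * k) * g⁻¹ = s * (g * k * g⁻¹) := by group
    rw [← h9, ← h10, h8]
  · intro g v k hk
    rw [Subgroup.mem_bot.1 hk, mul_one, mul_inv_cancel]
    exact one_mem _
  · exact fun v k hk => hk.1
  · intro v w hvw s h1 h2 h3
    exact ⟨h1, h2, fun w' hw' s' h4 h5 h6 => hcm v w w' hvw hw' s s' h1 h4 h2 h3 h5 h6⟩
  · intro v w hvw s hs hsw k hk
    have h1 := hk.2.2 w hvw s hs.1 hs.2.1 hsw
    show s * k * s⁻¹ * k⁻¹ ∈ (⊥ : Subgroup G)
    rw [← h1, mul_inv_cancel_right, mul_inv_cancel]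
    exact one_mem _
  · intro v w _ s hs _
    exact Subgroup.mem_bot.1 hs
  · intro v
    obtain ⟨Q, _, φ, hCQ, hφ⟩ := hQ v
    refine ⟨Q × D, inferInstance, φ.prod (ρ.comp (MulAction.stabilizer G v).subtype),
      hC.base.base.prod _ _ hCQ hD, ?_⟩
    intro s
    constructor
    · intro h
      exact ⟨congrArg Prod.snd h, s.2, (hφ s).1 (congrArg Prod.fst h)⟩
    · rintro ⟨h1, _, h3⟩
      exact Prod.ext ((hφ s).2 h3) h1
  · intro v
    exact ⟨MulAction.stabilizer G v, inferInstance, MonoidHom.id _, hst v, fun s => by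
      rw [Subgroup.mem_bot]
      exact ⟨fun h => congrArg Subtype.val h, fun h => Subtype.ext h⟩⟩

/-- the quotient by the commutator subgroup of the kernel -/
theorem quot_comm (hC : ClosedE C) (hmet : ∀ (G : Type) [Group G], derivedSeries G 2 = ⊥ → C G)
    {K : V → Subgroup G} {v : V} (hK : ∀ k ∈ K v, k • v = v) (hQ : QuotIn C K v) :
    QuotIn C (fun v => ⁅K v, K v⁆) v := by
  obtain ⟨Q, _, φ, hCQ, hφ⟩ := hQ
  let S := MulAction.stabilizer G v
  let N : Subgroup S := φ.ker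
  have hN : N.Normal := inferInstance
  have hNK : N.map S.subtype = K v := by
    ext g
    constructor
    · rintro ⟨s, hs, rfl⟩
      exact (hφ s).1 hs
    · intro hg
      exact ⟨⟨g, hK g hg⟩, (hφ _).2 hg, rfl⟩
  have hle : ⁅N, N⁆ ≤ φ.ker := Subgroup.commutator_le_left N N
  refine ⟨S ⧸ ⁅N, N⁆, inferInstance, QuotientGroup.mk' _, ?_, ?_⟩
  · refine Q182.Rc.ab_by hC hmet (QuotientGroup.lift ⁅N, N⁆ φ (fun x hx => hle hx)) hCQ ?_
    intro a b ha hb
    obtain ⟨a, rfl⟩ := QuotientGroup.mk'_surjective _ a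
    obtain ⟨b, rfl⟩ := QuotientGroup.mk'_surjective _ b
    have ha' : a ∈ N := ha
    have hb' : b ∈ N := hb
    rw [← commutatorElement_eq_one_iff_mul_comm, ← map_commutatorElement]
    exact (QuotientGroup.eq_one_iff _).2 (Subgroup.commutator_mem_commutator ha' hb')
  · intro s
    have h1 : ⁅N, N⁆.map S.subtype = ⁅K v, K v⁆ := by rw [Subgroup.map_commutator, hNK]
    show _ ↔ (s : G) ∈ ⁅K v, K v⁆
    rw [← h1]
    constructor
    · intro h
      exact ⟨s, (QuotientGroup.eq_one_iff _).1 h, rfl⟩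
    · rintro ⟨s', h2, h3⟩
      rw [show s = s' from Subtype.ext h3.symm]
      exact (QuotientGroup.eq_one_iff _).2 h2

/-- **edge stabilizers which inject in the abelianizations of normal subgroups** -/
theorem main_abel (hC : ClosedA C) (hmet : ∀ (G : Type) [Group G], derivedSeries G 2 = ⊥ → C G)
    (hT : TreeAct G T) (ρ : G →* D) (hD : C D) (hst : ∀ v : V, C (MulAction.stabilizer G v))
    {K : V → Subgroup G} (hfix : ∀ v, ∀ k ∈ K v, k • v = v)
    (heq : ∀ (g : G) (v : V), ∀ k ∈ K v, g * k * g⁻¹ ∈ K (g • v)) (hker : ∀ v, ∀ k ∈ K v, ρ k = 1)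
    (hedge : ∀ v w, T.Adj v w → ∀ s : G, ρ s = 1 → s • v = v → s • w = w → s ∈ K v)
    (hQ : ∀ v, QuotIn C K v)
    (hab : ∀ v w, T.Adj v w → ∀ s ∈ ⁅K v, K v⁆, s • w = w → s = 1) : C G := by
  refine main hC hmet hT ρ hD (K := K) (L := fun v => ⁅K v, K v⁆) ⟨hfix, ?_, heq, ?_, hker, hedge, ?_,
    hab⟩ hQ ?_ hst
  · exact fun v => Subgroup.commutator_le_self (K v)
  · intro g v k hk
    have h1 : g * k * g⁻¹ ∈ ⁅K v, K v⁆.map (MulAut.conj g).toMonoidHom := ⟨k, hk, rfl⟩
    rw [Subgroup.map_commutator] at h1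
    refine Subgroup.commutator_mono ?_ ?_ h1 <;>
    · rintro _ ⟨x, hx, rfl⟩
      exact heq g v x hx
  · intro v w _ s hs _ k hk
    exact Subgroup.commutator_mem_commutator hs hk
  · exact fun v => quot_comm hC.base hmet (hfix v) (hQ v)

end Q182.Lk
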