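import Mathlib

/-!
# The Magnus representation of a free group
-/

namespace Q182.BO

open PowerSeries

variable (X : Type)

/-- The free associative ring. -/
abbrev RR : Type := MonoidAlgebra ℤ (FreeMonoid X)

/-- Power series over the free associative ring. -/
abbrev BB : Type := PowerSeries (RR X)

variable {X}

/-- The variables. -/
noncomputable def xx (i : X) : RR X := MonoidAlgebra.single (FreeMonoid.of i) 1

/-- The image of a generator. -/
noncomputable def uu (i : X) : BB X := PowerSeries.mk fun n => if n = 0 then 1 else if n = 1 then xx i else 0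

/-- The image of the inverse of a generator. -/
noncomputable def vv (i : X) : BB X := PowerSeries.mk fun n => (-xx i) ^ n

lemma coeff_uu (i : X) (n : ℕ) : coeff n (uu i) = if n = 0 then 1 else if n = 1 then xx i else 0 :=
  coeff_mk _ _

lemma coeff_vv (i : X) (n : ℕ) : coeff n (vv i) = (-xx i) ^ n := coeff_mk _ _

/-- Coefficients of the product with a generator. -/
lemma coeff_uu_mul_zero (i : X) (f : BB X) : coeff 0 (uu i * f) = coeff 0 f := by
  rw [coeff_mul, Finset.Nat.antidiagonal_zero, Finset.sum_singleton, coeff_uu, if_pos rfl, one_mul]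

lemma coeff_uu_mul (i : X) (f : BB X) (n : ℕ) :
    coeff (n + 1) (uu i * f) = coeff (n + 1) f + xx i * coeff n f := by
  rw [coeff_mul, Finset.Nat.antidiagonal_succ, Finset.sum_cons, Finset.sum_map]
  congr 1
  · show coeff 0 (uu i) * coeff (n + 1) f = _
    rw [coeff_uu, if_pos rfl, one_mul]
  · rw [Finset.sum_eq_single (0, n)]
    · show coeff 1 (uu i) * coeff n f = _
      rw [coeff_uu, if_neg one_ne_zero, if_pos rfl]
    · rintro ⟨a, b⟩ hab hne
      show coeff (a + 1) (uu i) * coeff b f = 0
      have ha : a ≠ 0 := by
        rintro rfl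
        apply hne
        have := Finset.HasAntidiagonal.mem_antidiagonal.1 hab
        simp only at this
        rw [zero_add] at this
        rw [this]
      rw [coeff_uu, if_neg (by omega), if_neg (by omega), zero_mul]
    · intro h
      exact absurd (Finset.HasAntidiagonal.mem_antidiagonal.2 (by simp)) h

lemma uu_mul_vv (i : X) : uu i * vv i = 1 := by
  ext n : 1
  cases n with
  | zero => rw [coeff_uu_mul_zero, coeff_vv, pow_zero]; simp
  | succ n =>
    rw [coeff_uu_mul, coeff_vv, coeff_vv, pow_succ']
    simp [coeff_one]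

lemma vv_mul_uu (i : X) : vv i * uu i = 1 := by
  ext n : 1
  cases n with
  | zero =>
    rw [coeff_mul, Finset.Nat.antidiagonal_zero, Finset.sum_singleton, coeff_uu, if_pos rfl, coeff_vv]
    simp
  | succ n =>
    rw [coeff_mul, Finset.Nat.antidiagonal_succ', Finset.sum_cons, Finset.sum_map]
    rw [Finset.sum_eq_single (n, 0)]
    · show coeff (n + 1) (vv i) * coeff 0 (uu i) + coeff n (vv i) * coeff 1 (uu i) = _
      rw [coeff_uu, if_pos rfl, coeff_uu, if_neg one_ne_zero, if_pos rfl, coeff_vv, coeff_vv,
        pow_succ]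
      simp [coeff_one]
    · rintro ⟨a, b⟩ hab hne
      show coeff a (vv i) * coeff (b + 1) (uu i) = 0
      have hb : b ≠ 0 := by
        rintro rfl
        apply hne
        have := Finset.HasAntidiagonal.mem_antidiagonal.1 hab
        simp only at this
        rw [add_zero] at this
        rw [this]
      rw [coeff_uu, if_neg (by omega), if_neg (by omega), mul_zero]
    · intro h
      exact absurd (Finset.HasAntidiagonal.mem_antidiagonal.2 (by simp)) h

/-- The unit. -/
noncomputable def unit (i : X) : (BB X)ˣ := ⟨uu i, vv i, uu_mul_vv i, vv_mul_uu i⟩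

/-- The Magnus representation. -/
noncomputable def mu : FreeGroup X →* (BB X)ˣ := FreeGroup.lift unit

lemma mu_of (i : X) : ((mu (FreeGroup.of i) : (BB X)ˣ) : BB X) = uu i := by
  unfold mu
  rw [FreeGroup.lift_apply_of]
  rfl

lemma mu_of_inv (i : X) : ((mu (FreeGroup.of i)⁻¹ : (BB X)ˣ) : BB X) = vv i := by
  unfold mu
  rw [map_inv, FreeGroup.lift_apply_of]
  rfl

/-! ### Coefficients of words -/

/-- The coefficient of a word. -/
noncomputable def cf (L : List X) (f : BB X) : ℤ := (coeff L.length f).coeff (FreeMonoid.ofList L)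

lemma xx_mul_coeff_cons [DecidableEq X] (i j : X) (c : RR X) (L : List X) :
    (xx i * c).coeff (FreeMonoid.ofList (j :: L)) = if j = i then c.coeff (FreeMonoid.ofList L) else 0 := by
  unfold xx
  split_ifs with h
  · rw [MonoidAlgebra.coeff_single_mul_eq_mul_coeff (FreeMonoid.ofList L), one_mul]
    intro m _
    rw [h, FreeMonoid.ofList_cons]
    exact mul_left_cancel_iff
  · apply MonoidAlgebra.coeff_single_mul_of_forall_mul_ne
    intro d hd
    have h1 := congrArg FreeMonoid.toList hd
    rw [FreeMonoid.toList_mul, FreeMonoid.toList_of, FreeMonoid.toList_ofList,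
      List.singleton_append, List.cons.injEq] at h1
    exact h h1.1.symm

lemma cf_uu [DecidableEq X] (i : X) (f : BB X) (j : X) (L : List X) :
    cf (j :: L) (uu i * f) = cf (j :: L) f + if j = i then cf L f else 0 := by
  unfold cf
  rw [List.length_cons, coeff_uu_mul, MonoidAlgebra.coeff_add, Finsupp.add_apply, xx_mul_coeff_cons]

lemma cf_nil_uu (i : X) (f : BB X) : cf [] (uu i * f) = cf [] f := by
  unfold cf
  rw [List.length_nil, coeff_uu_mul_zero]

lemma cf_vv [DecidableEq X] (i : X) (f : BB X) (j : X) (L : List X) :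
    cf (j :: L) (vv i * f) = cf (j :: L) f - if j = i then cf L (vv i * f) else 0 := by
  have h := cf_uu i (vv i * f) j L
  rw [← mul_assoc, uu_mul_vv, one_mul] at h
  rw [h]
  ring

lemma cf_nil_vv (i : X) (f : BB X) : cf [] (vv i * f) = cf [] f := by
  have h := cf_nil_uu i (vv i * f)
  rw [← mul_assoc, uu_mul_vv, one_mul] at h
  exact h.symm

end Q182.BO
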