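import Mathlib
import Pool.Agent.Q182.BOMagnus

/-!
# Faithfulness of the Magnus representation
-/

namespace Q182.BO

open PowerSeries

variable {X : Type} [DecidableEq X]

/-- The list of indices of the syllables. -/
def SS : List (X × Bool) → List X
  | [] => []
  | a :: w => match SS w with
    | [] => [a.1]
    | j :: s => if a.1 = j then j :: s else a.1 :: j :: s

lemma SS_cons (a : X × Bool) (w : List (X × Bool)) :
    (SS (a :: w) = a.1 :: SS w ∧ (SS w).head? ≠ some a.1) ∨
      (SS (a :: w) = SS w ∧ (SS w).head? = some a.1) := by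
  rcases h : SS w with _ | ⟨j, s⟩
  · left
    constructor
    · rw [SS, h]
    · simp
  · by_cases hj : a.1 = j
    · right
      constructor
      · rw [SS, h]
        simp [hj]
      · simp [hj]
    · left
      constructor
      · rw [SS, h]
        simp [hj]
      · simp only [List.head?_cons, ne_eq, Option.some.injEq]
        exact fun h => hj h.symm

lemma SS_head (a : X × Bool) (w : List (X × Bool)) : ∃ s, SS (a :: w) = a.1 :: s := by
  rcases SS_cons a w with ⟨h1, -⟩ | ⟨h1, h2⟩
  · exact ⟨_, h1⟩
  · rw [h1]
    rcases h : SS w with _ | ⟨j, s⟩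
    · rw [h] at h2
      simp at h2
    · rw [h] at h2
      simp only [List.head?_cons, Option.some.injEq] at h2
      exact ⟨s, by rw [h2]⟩

lemma SS_chain (w : List (X × Bool)) : (SS w).IsChain (· ≠ ·) := by
  induction w with
  | nil => exact List.isChain_nil
  | cons a w ih =>
    rcases SS_cons a w with ⟨h1, h2⟩ | ⟨h1, -⟩
    · rw [h1]
      rcases h : SS w with _ | ⟨j, s⟩
      · exact List.isChain_singleton _
      · rw [h] at h2 ih
        rw [List.isChain_cons_cons]
        refine ⟨fun h3 => h2 ?_, ih⟩
        simp [h3]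
    · rw [h1]
      exact ih

/-- The series of a word. -/
noncomputable def fw (w : List (X × Bool)) : BB X := ((mu (FreeGroup.mk w) : (BB X)ˣ) : BB X)

omit [DecidableEq X] in
lemma fw_nil : fw ([] : List (X × Bool)) = 1 := by
  unfold fw
  have : FreeGroup.mk ([] : List (X × Bool)) = 1 := rfl
  rw [this, map_one]
  rfl

omit [DecidableEq X] in
lemma fw_cons (i : X) (b : Bool) (w : List (X × Bool)) :
    fw ((i, b) :: w) = (if b then uu i else vv i) * fw w := by
  have h : (FreeGroup.mk ((i, b) :: w) : FreeGroup X) = FreeGroup.mk [(i, b)] * FreeGroup.mk w := by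
    rw [FreeGroup.mul_mk]
    rfl
  unfold fw
  rw [h, map_mul, Units.val_mul]
  congr 1
  cases b
  · have h2 : (FreeGroup.mk [(i, false)] : FreeGroup X) = (FreeGroup.of i)⁻¹ := rfl
    rw [h2, mu_of_inv]
    rfl
  · have h2 : (FreeGroup.mk [(i, true)] : FreeGroup X) = FreeGroup.of i := rfl
    rw [h2, mu_of]
    rfl

/-- The sign. -/
def ep (b : Bool) : ℤ := if b then 1 else -1

omit [DecidableEq X] in
lemma S1 (a : X × Bool) (w : List (X × Bool)) : cf [] (fw (a :: w)) = cf [] (fw w) := by
  obtain ⟨i, b⟩ := a
  rw [fw_cons]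
  cases b
  · exact cf_nil_vv i _
  · exact cf_nil_uu i _

lemma S2 (a : X × Bool) (w : List (X × Bool)) {j : X} (hj : j ≠ a.1) (L : List X) :
    cf (j :: L) (fw (a :: w)) = cf (j :: L) (fw w) := by
  obtain ⟨i, b⟩ := a
  rw [fw_cons]
  cases b
  · show cf (j :: L) (vv i * fw w) = _
    rw [cf_vv, if_neg hj, sub_zero]
  · show cf (j :: L) (uu i * fw w) = _
    rw [cf_uu, if_neg hj, add_zero]

lemma S12 (a : X × Bool) (w : List (X × Bool)) {L : List X} (hL : L.head? ≠ some a.1) :
    cf L (fw (a :: w)) = cf L (fw w) := by
  rcases L with _ | ⟨j, L⟩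
  · exact S1 a w
  · apply S2
    rintro rfl
    simp at hL

lemma S3 (a : X × Bool) (w : List (X × Bool)) {L : List X} (hL : L.head? ≠ some a.1) :
    cf (a.1 :: L) (fw (a :: w)) = cf (a.1 :: L) (fw w) + ep a.2 * cf L (fw w) := by
  have h := S12 a w hL
  obtain ⟨i, b⟩ := a
  rw [fw_cons] at h ⊢
  cases b
  · show cf (i :: L) (vv i * fw w) = cf (i :: L) (fw w) + ep false * cf L (fw w)
    have h' : cf L (vv i * fw w) = cf L (fw w) := h
    rw [cf_vv, if_pos rfl, h']
    unfold ep
    simp
    ring
  · show cf (i :: L) (uu i * fw w) = cf (i :: L) (fw w) + ep true * cf L (fw w)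
    rw [cf_uu, if_pos rfl]
    unfold ep
    simp

omit [DecidableEq X] in
lemma cf_one_cons (j : X) (L : List X) : cf (j :: L) (1 : BB X) = 0 := by
  unfold cf
  rw [List.length_cons, coeff_one, if_neg (by omega)]
  rfl

omit [DecidableEq X] in
lemma cf_one_nil : cf [] (1 : BB X) = 1 := by
  unfold cf
  rw [List.length_nil, coeff_one, if_pos rfl]
  show (1 : RR X).coeff 1 = 1
  rw [MonoidAlgebra.one_def]
  simp

lemma vanish (w : List (X × Bool)) : ∀ L : List X, L.IsChain (· ≠ ·) →
    ((SS w).length < L.length ∨ ((SS w).length = L.length ∧ L.head? ≠ (SS w).head?)) →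
    cf L (fw w) = 0 := by
  induction w with
  | nil =>
    intro L hL h
    rcases L with _ | ⟨j, L⟩
    · rcases h with h | ⟨-, h⟩
      · exact absurd h (Nat.not_lt_zero _)
      · exact absurd rfl h
    · rw [fw_nil]
      exact cf_one_cons j L
  | cons a w ih =>
    intro L hL h
    obtain ⟨s, hs⟩ := SS_head a w
    rcases L with _ | ⟨j, L⟩
    · rw [hs] at h
      simp at h
    · by_cases hj : j = a.1
      · subst hj
        have hL' : L.head? ≠ some a.1 := by
          rcases L with _ | ⟨k, L⟩
          · simp
          · intro h2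
            simp only [List.head?_cons, Option.some.injEq] at h2
            rw [List.isChain_cons_cons] at hL
            exact hL.1 h2.symm
        have hLc : L.IsChain (· ≠ ·) := hL.tail
        have h' : (SS (a :: w)).length < (a.1 :: L).length := by
          rcases h with h | ⟨-, h⟩
          · exact h
          · rw [hs] at h
            simp at h
        rw [S3 a w hL']
        rw [List.length_cons] at h'
        rcases SS_cons a w with ⟨h1, h2⟩ | ⟨h1, h2⟩
        · rw [h1, List.length_cons] at h'
          rw [ih (a.1 :: L) hL (Or.inl (by rw [List.length_cons]; omega)),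
            ih L hLc (Or.inl (by omega)), mul_zero, add_zero]
        · rw [h1] at h'
          rw [ih (a.1 :: L) hL (Or.inl (by rw [List.length_cons]; omega))]
          have h3 : cf L (fw w) = 0 := by
            apply ih L hLc
            rcases Nat.lt_or_ge (SS w).length L.length with h4 | h4
            · exact Or.inl h4
            · refine Or.inr ⟨by omega, ?_⟩
              rw [h2]
              exact hL'
          rw [h3, mul_zero, add_zero]
      · rw [S2 a w hj]
        apply ih _ hL
        rcases SS_cons a w with ⟨h1, h2⟩ | ⟨h1, h2⟩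
        · left
          rw [h1, List.length_cons] at h
          rcases h with h | ⟨h, -⟩ <;> omega
        · rw [h1] at h
          rcases h with h | ⟨h, h3⟩
          · exact Or.inl h
          · right
            exact ⟨h, h3⟩

lemma leading (w : List (X × Bool)) : ∀ a : X × Bool, FreeGroup.IsReduced (a :: w) →
    ∃ c e : ℤ, c ≠ 0 ∧ 0 < e * ep a.2 ∧ cf (SS (a :: w)) (fw (a :: w)) = e * c ∧
      cf (SS (a :: w)).tail (fw (a :: w)) = c := by
  have hep : ∀ b : Bool, ep b * ep b = 1 := by decide
  induction w with
  | nil =>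
    intro a _
    refine ⟨1, ep a.2, one_ne_zero, by rw [hep]; exact one_pos, ?_, ?_⟩
    · have h1 : SS [a] = [a.1] := rfl
      rw [h1, S3 a [] (by simp), fw_nil, cf_one_cons, cf_one_nil, zero_add]
    · have h1 : (SS [a]).tail = [] := rfl
      rw [h1, S1, fw_nil, cf_one_nil]
  | cons b w ih =>
    intro a hred
    rw [FreeGroup.isReduced_cons_cons] at hred
    obtain ⟨hab, hred⟩ := hred
    obtain ⟨c, e, hc, he, h1, h2⟩ := ih b hred
    obtain ⟨s, hs⟩ := SS_head b w
    have hchain := SS_chain (b :: w)
    rw [hs] at h1 h2 hchain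
    rw [List.tail_cons] at h2
    have hsb : s.head? ≠ some b.1 := by
      rcases s with _ | ⟨k, s⟩
      · simp
      · intro h3
        simp only [List.head?_cons, Option.some.injEq] at h3
        rw [List.isChain_cons_cons] at hchain
        exact hchain.1 h3.symm
    by_cases hj : a.1 = b.1
    · have hSS : SS (a :: b :: w) = b.1 :: s := by
        rcases SS_cons a (b :: w) with ⟨h3, h4⟩ | ⟨h3, h4⟩
        · rw [hs] at h4
          simp [hj] at h4
        · rw [h3, hs]
      have hsa : s.head? ≠ some a.1 := by rw [hj]; exact hsb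
      refine ⟨c, e + ep a.2, hc, ?_, ?_, ?_⟩
      · rw [add_mul, hep, hab hj]
        linarith
      · rw [hSS, ← hj, S3 a (b :: w) hsa, hj, h1, h2]
        ring
      · rw [hSS, List.tail_cons, S12 a (b :: w) hsa, h2]
    · have hSS : SS (a :: b :: w) = a.1 :: b.1 :: s := by
        rcases SS_cons a (b :: w) with ⟨h3, h4⟩ | ⟨h3, h4⟩
        · rw [h3, hs]
        · rw [hs] at h4
          simp only [List.head?_cons, Option.some.injEq] at h4
          exact absurd h4.symm hj
      have hhead : (b.1 :: s).head? ≠ some a.1 := by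
        simp only [List.head?_cons, ne_eq, Option.some.injEq]
        exact fun h => hj h.symm
      have he0 : e ≠ 0 := by
        rintro rfl
        simp at he
      refine ⟨e * c, ep a.2, mul_ne_zero he0 hc, by rw [hep]; exact one_pos, ?_, ?_⟩
      · rw [hSS, S3 a (b :: w) hhead, h1, vanish (b :: w) (a.1 :: b.1 :: s), zero_add]
        · rw [List.isChain_cons_cons]
          exact ⟨hj, hchain⟩
        · left
          rw [hs]
          simp
      · rw [hSS, List.tail_cons, S12 a (b :: w) hhead, h1]

/-- The Magnus representation is faithful. -/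
theorem mu_injective {g : FreeGroup X} (h : ((mu g : (BB X)ˣ) : BB X) = 1) : g = 1 := by
  rcases hw : g.toWord with _ | ⟨a, w⟩
  · exact FreeGroup.toWord_eq_nil_iff.1 hw
  · exfalso
    have hred : FreeGroup.IsReduced (a :: w) := by
      rw [← hw]
      exact FreeGroup.isReduced_toWord
    obtain ⟨c, e, hc, he, h1, -⟩ := leading w a hred
    have h2 : fw (a :: w) = 1 := by
      unfold fw
      rw [← hw, FreeGroup.mk_toWord]
      exact h
    obtain ⟨s, hs⟩ := SS_head a w
    rw [h2, hs, cf_one_cons] at h1
    have he0 : e ≠ 0 := by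
      rintro rfl
      simp at he
    exact mul_ne_zero he0 hc h1.symm

end Q182.BO
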