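import Mathlib
import Pool.Agent.Q182.BOInj

/-!
# The Magnus order is preserved by automorphisms that act trivially on the abelianization
-/

namespace Q182.BO

open PowerSeries

/-- A total order on a free abelian group. -/
lemma exists_pos (Y : Type) : ∃ pos : (Y →₀ ℤ) → Prop, ¬ pos 0 ∧ (∀ c, c ≠ 0 → pos c ∨ pos (-c)) ∧
    ∀ c d, pos c → pos d → pos (c + d) := by
  classical
  let _ : LinearOrder Y := linearOrderOfSTO WellOrderingRel
  refine ⟨fun c => 0 < toLex c, fun h => lt_irrefl _ h, fun c hc => ?_, fun c d hc hd => ?_⟩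
  · have h1 : toLex c ≠ 0 := fun h => hc (toLex_eq_zero.1 h)
    rcases lt_or_gt_of_ne h1 with h | h
    · right
      exact neg_pos.2 h
    · left
      exact h
  · exact add_pos hc hd

section val

variable {X : Type}

/-- Series without terms of degree less than `k`. -/
def V (k : ℕ) (f : BB X) : Prop := ∀ i < k, coeff i f = 0

lemma V_zero (f : BB X) : V 0 f := fun i hi => absurd hi (Nat.not_lt_zero i)

lemma V_mul {k l : ℕ} {f g : BB X} (hf : V k f) (hg : V l g) : V (k + l) (f * g) := by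
  intro n hn
  rw [coeff_mul]
  refine Finset.sum_eq_zero fun p hp => ?_
  have h := Finset.HasAntidiagonal.mem_antidiagonal.1 hp
  rcases Nat.lt_or_ge p.1 k with h1 | h1
  · rw [hf _ h1, zero_mul]
  · rw [hg p.2 (by omega), mul_zero]

lemma V_mul_coeff {k l : ℕ} {f g : BB X} (hf : V k f) (hg : V l g) :
    coeff (k + l) (f * g) = coeff k f * coeff l g := by
  rw [coeff_mul]
  refine Finset.sum_eq_single_of_mem (k, l) (Finset.HasAntidiagonal.mem_antidiagonal.2 rfl) ?_
  rintro ⟨a, b⟩ hab hne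
  have h := Finset.HasAntidiagonal.mem_antidiagonal.1 hab
  simp only at h
  rcases lt_trichotomy a k with h1 | h1 | h1
  · show coeff a f * coeff b g = 0
    rw [hf _ h1, zero_mul]
  · exfalso
    apply hne
    rw [h1]
    congr 1
    omega
  · show coeff a f * coeff b g = 0
    rw [hg b (by omega), mul_zero]

/-- The series of a group element. -/
noncomputable def ms (g : FreeGroup X) : BB X := ((mu g : (BB X)ˣ) : BB X)

lemma ms_mul (g h : FreeGroup X) : ms (g * h) = ms g * ms h := by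
  unfold ms
  rw [map_mul, Units.val_mul]

lemma ms_one : ms (1 : FreeGroup X) = 1 := by
  unfold ms
  rw [map_one]
  rfl

lemma ms_mul_inv (g : FreeGroup X) : ms g * ms g⁻¹ = 1 := by
  rw [← ms_mul, mul_inv_cancel, ms_one]

lemma ms_inv_mul (g : FreeGroup X) : ms g⁻¹ * ms g = 1 := by
  rw [← ms_mul, inv_mul_cancel, ms_one]

lemma coeff_zero_ms (g : FreeGroup X) : coeff 0 (ms g) = 1 := by
  induction g using FreeGroup.induction_on with
  | C1 => rw [ms_one]; simp
  | of i =>
    unfold ms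
    rw [mu_of, coeff_uu, if_pos rfl]
  | inv_of i _ =>
    unfold ms
    rw [mu_of_inv, coeff_vv, pow_zero]
  | mul g h hg hh =>
    rw [ms_mul]
    have := V_mul_coeff (V_zero (ms g)) (V_zero (ms h))
    rw [hg, hh, mul_one] at this
    exact this

/-- Positive elements. -/
def Pos (pos : (FreeMonoid X →₀ ℤ) → Prop) (g : FreeGroup X) : Prop :=
  ∃ k, V k (ms g - 1) ∧ pos (coeff k (ms g - 1)).coeff

variable {pos : (FreeMonoid X →₀ ℤ) → Prop}

lemma V_one_ms (g : FreeGroup X) : V 1 (ms g - 1) := by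
  intro i hi
  have : i = 0 := by omega
  rw [this, map_sub, coeff_zero_ms]
  simp

lemma Pos.ge_one (h0 : ¬ pos 0) {g : FreeGroup X} {k : ℕ} (h : pos (coeff k (ms g - 1)).coeff) :
    1 ≤ k := by
  by_contra hcon
  have hk : k = 0 := by omega
  rw [hk, V_one_ms g 0 one_pos] at h
  exact h0 h

lemma Pos.mul (h0 : ¬ pos 0) (hadd : ∀ c d, pos c → pos d → pos (c + d)) {g h : FreeGroup X}
    (hg : Pos pos g) (hh : Pos pos h) : Pos pos (g * h) := by
  obtain ⟨k, hk1, hk2⟩ := hg
  obtain ⟨l, hl1, hl2⟩ := hh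
  have hk := Pos.ge_one h0 hk2
  have hl := Pos.ge_one h0 hl2
  have hid : ms (g * h) - 1 = (ms g - 1) + (ms h - 1) + (ms g - 1) * (ms h - 1) := by
    rw [ms_mul]
    noncomm_ring
  have hp := V_mul hk1 hl1
  rcases lt_trichotomy k l with hkl | hkl | hkl
  · refine ⟨k, fun i hi => ?_, ?_⟩
    · rw [hid, map_add, map_add, hk1 i hi, hl1 i (by omega), hp i (by omega)]
      simp
    · rw [hid, map_add, map_add, hl1 k hkl, hp k (by omega), add_zero, add_zero]
      exact hk2
  · subst hkl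
    refine ⟨k, fun i hi => ?_, ?_⟩
    · rw [hid, map_add, map_add, hk1 i hi, hl1 i (by omega), hp i (by omega)]
      simp
    · rw [hid, map_add, map_add, hp k (by omega), add_zero, MonoidAlgebra.coeff_add]
      exact hadd _ _ hk2 hl2
  · refine ⟨l, fun i hi => ?_, ?_⟩
    · rw [hid, map_add, map_add, hk1 i (by omega), hl1 i hi, hp i (by omega)]
      simp
    · rw [hid, map_add, map_add, hk1 l hkl, hp l (by omega), add_zero, zero_add]
      exact hl2

lemma Pos.conj {g : FreeGroup X} (hg : Pos pos g) (h : FreeGroup X) : Pos pos (h * g * h⁻¹) := by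
  obtain ⟨k, hk1, hk2⟩ := hg
  have hid : ms (h * g * h⁻¹) - 1 = ms h * (ms g - 1) * ms h⁻¹ := by
    rw [ms_mul, ms_mul, mul_sub, sub_mul, mul_one, ms_mul_inv]
  have h1 := V_mul (V_zero (ms h)) hk1
  have h2 := V_mul h1 (V_zero (ms h⁻¹))
  have h3 := V_mul_coeff (V_zero (ms h)) hk1
  have h4 := V_mul_coeff h1 (V_zero (ms h⁻¹))
  rw [h3, coeff_zero_ms, coeff_zero_ms, one_mul, mul_one] at h4
  rw [zero_add, add_zero] at h2 h4
  refine ⟨k, ?_, ?_⟩
  · rw [hid]
    exact h2
  · rw [hid, h4]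
    exact hk2

lemma Pos.total [DecidableEq X] (htot : ∀ c, c ≠ 0 → pos c ∨ pos (-c)) {g : FreeGroup X} (hg : g ≠ 1) :
    Pos pos g ∨ Pos pos g⁻¹ := by
  have hne : ms g - 1 ≠ 0 := fun h => hg (mu_injective (sub_eq_zero.1 h))
  have hex : ∃ k, coeff k (ms g - 1) ≠ 0 := by
    by_contra hcon
    push Not at hcon
    apply hne
    ext n : 1
    rw [hcon n]
    simp
  classical
  let k := Nat.find hex
  have hk : coeff k (ms g - 1) ≠ 0 := Nat.find_spec hex
  have hV : V k (ms g - 1) := fun i hi => by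
    by_contra hcon
    exact Nat.find_min hex hi hcon
  have hk' : (coeff k (ms g - 1)).coeff ≠ 0 := fun h => hk (MonoidAlgebra.coeff_eq_zero.1 h)
  rcases htot _ hk' with h | h
  · exact Or.inl ⟨k, hV, h⟩
  · right
    have hid : ms g⁻¹ - 1 = -(ms g⁻¹ * (ms g - 1)) := by
      rw [mul_sub, ms_inv_mul, mul_one]
      abel
    have h1 := V_mul (V_zero (ms g⁻¹)) hV
    have h2 := V_mul_coeff (V_zero (ms g⁻¹)) hV
    rw [coeff_zero_ms, one_mul] at h2
    rw [zero_add] at h1 h2
    refine ⟨k, fun i hi => ?_, ?_⟩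
    · rw [hid, map_neg, h1 i hi, neg_zero]
    · rw [hid, map_neg, h2]
      exact h

lemma Pos.one (h0 : ¬ pos 0) : ¬ Pos pos (1 : FreeGroup X) := by
  rintro ⟨k, -, h⟩
  rw [ms_one, sub_self, map_zero] at h
  exact h0 h

end val

end Q182.BO
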