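import Mathlib
import Pool.Agent.Q182.BOOrder

/-!
# Invariance of the Magnus order
-/

namespace Q182.BO

open PowerSeries

variable {X : Type}

lemma V_add {k : ℕ} {f g : BB X} (hf : V k f) (hg : V k g) : V k (f + g) := fun i hi => by
  rw [map_add, hf i hi, hg i hi, add_zero]

lemma V_sub {k : ℕ} {f g : BB X} (hf : V k f) (hg : V k g) : V k (f - g) := fun i hi => by
  rw [map_sub, hf i hi, hg i hi, sub_zero]

lemma V_mono {k l : ℕ} (h : k ≤ l) {f : BB X} (hf : V l f) : V k f := fun i hi => hf i (by omega)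

/-- Induction on the first letter. -/
lemma word_ind {C : FreeGroup X → Prop} (h1 : C 1) (hu : ∀ i g, C g → C (FreeGroup.of i * g))
    (hv : ∀ i g, C g → C ((FreeGroup.of i)⁻¹ * g)) (g : FreeGroup X) : C g := by
  have h : ∀ w : List (X × Bool), C (FreeGroup.mk w) := by
    intro w
    induction w with
    | nil => exact h1
    | cons a w ih =>
      obtain ⟨i, b⟩ := a
      have h : (FreeGroup.mk ((i, b) :: w) : FreeGroup X) = FreeGroup.mk [(i, b)] * FreeGroup.mk w := by
        rw [FreeGroup.mul_mk]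
        rfl
      rw [h]
      cases b
      · exact hv i _ ih
      · exact hu i _ ih
  classical
  rw [← FreeGroup.mk_toWord (x := g)]
  exact h _

/-- Homogeneous elements. -/
noncomputable def Hom (k : ℕ) : Submodule ℤ (RR X) :=
  Submodule.span ℤ {c | ∃ w : FreeMonoid X, w.length = k ∧ c = MonoidAlgebra.single w 1}

lemma Hom_xx_mul (i : X) {k : ℕ} {c : RR X} (hc : c ∈ Hom k) : xx i * c ∈ Hom (X := X) (k + 1) := by
  induction hc using Submodule.span_induction with
  | mem x hx =>
    obtain ⟨w, hw, rfl⟩ := hx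
    apply Submodule.subset_span
    refine ⟨FreeMonoid.of i * w, ?_, ?_⟩
    · rw [FreeMonoid.length_mul, hw, FreeMonoid.length_of, add_comm]
    · unfold xx
      rw [MonoidAlgebra.single_mul_single, one_mul]
  | zero => rw [mul_zero]; exact Submodule.zero_mem _
  | add x y _ _ hx hy => rw [mul_add]; exact Submodule.add_mem _ hx hy
  | smul a x _ hx => rw [mul_smul_comm]; exact Submodule.smul_mem _ _ hx

/-- All coefficients are homogeneous. -/
def Homs (f : BB X) : Prop := ∀ k, coeff k f ∈ Hom (X := X) k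

lemma Homs_ms (g : FreeGroup X) : Homs (ms g) := by
  induction g using word_ind with
  | h1 =>
    intro k
    rw [ms_one, coeff_one]
    split_ifs with h
    · subst h
      apply Submodule.subset_span
      exact ⟨1, rfl, MonoidAlgebra.one_def⟩
    · exact Submodule.zero_mem _
  | hu i g hg =>
    intro k
    rw [ms_mul]
    have h : ms (FreeGroup.of i) = uu i := mu_of i
    rw [h]
    cases k with
    | zero => rw [coeff_uu_mul_zero]; exact hg 0
    | succ k =>
      rw [coeff_uu_mul]
      exact Submodule.add_mem _ (hg _) (Hom_xx_mul i (hg k))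
  | hv i g hg =>
    have h : ms g = uu i * ms ((FreeGroup.of i)⁻¹ * g) := by
      have h : ms (FreeGroup.of i) = uu i := mu_of i
      rw [← h, ← ms_mul, mul_inv_cancel_left]
    intro k
    induction k with
    | zero =>
      have h2 := hg 0
      rw [h, coeff_uu_mul_zero] at h2
      exact h2
    | succ k ih =>
      have h2 := hg (k + 1)
      rw [h, coeff_uu_mul] at h2
      have h3 := Submodule.sub_mem _ h2 (Hom_xx_mul i ih)
      rwa [add_sub_cancel_right] at h3

section aut

variable (φ : FreeGroup X →* FreeGroup X)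

/-- The substitution. -/
noncomputable def Psi : RR X →ₐ[ℤ] BB X :=
  MonoidAlgebra.lift ℤ (BB X) (FreeMonoid X) (FreeMonoid.lift fun i => ms (φ (FreeGroup.of i)) - 1)

lemma Psi_xx (i : X) : Psi φ (xx i) = ms (φ (FreeGroup.of i)) - 1 := by
  unfold Psi xx
  rw [MonoidAlgebra.lift_single, FreeMonoid.lift_eval_of]
  exact one_smul ℤ _

lemma Psi_single (i : X) (w : FreeMonoid X) :
    Psi φ (MonoidAlgebra.single (FreeMonoid.of i * w) 1) =
      Psi φ (xx i) * Psi φ (MonoidAlgebra.single w 1) := by
  rw [← map_mul]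
  congr 1
  unfold xx
  rw [MonoidAlgebra.single_mul_single, one_mul]

/-- The defect. -/
noncomputable def DD (n : ℕ) (g : FreeGroup X) : BB X :=
  ms (φ g) - ∑ i ∈ Finset.range n, Psi φ (coeff i (ms g))

lemma DD_step (n : ℕ) (i : X) (g : FreeGroup X) :
    DD φ (n + 1) (FreeGroup.of i * g) = DD φ (n + 1) g + Psi φ (xx i) * DD φ n g := by
  have h : ms (FreeGroup.of i) = uu i := mu_of i
  unfold DD
  rw [map_mul, ms_mul, ms_mul, h, Finset.sum_range_succ', Finset.sum_range_succ' _ n]
  have h2 : ∀ k, Psi φ (coeff (k + 1) (uu i * ms g)) =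
      Psi φ (coeff (k + 1) (ms g)) + Psi φ (xx i) * Psi φ (coeff k (ms g)) := by
    intro k
    rw [coeff_uu_mul, map_add, map_mul]
  simp only [h2]
  rw [Finset.sum_add_distrib, ← Finset.mul_sum, coeff_uu_mul_zero, Psi_xx]
  noncomm_ring

variable {φ}

lemma DD_mem (hφ : ∀ i, V 1 (Psi φ (xx i))) (g : FreeGroup X) : ∀ n, V n (DD φ n g) := by
  induction g using word_ind with
  | h1 =>
    intro n
    unfold DD
    rw [map_one, ms_one]
    cases n with
    | zero => exact V_zero _
    | succ n =>
      rw [Finset.sum_range_succ', Finset.sum_eq_zero, zero_add]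
      · rw [coeff_one, if_pos rfl, map_one, sub_self]
        intro i _
        simp
      · intro i _
        rw [coeff_one, if_neg (by omega), map_zero]
  | hu i g hg =>
    intro n
    cases n with
    | zero => exact V_zero _
    | succ n =>
      rw [DD_step]
      refine V_add (hg _) ?_
      have := V_mul (hφ i) (hg n)
      rwa [add_comm 1 n] at this
  | hv i g hg =>
    intro n
    induction n with
    | zero => exact V_zero _
    | succ n ih =>
      have h := DD_step φ n i ((FreeGroup.of i)⁻¹ * g)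
      rw [mul_inv_cancel_left] at h
      have h2 := V_mul (hφ i) ih
      rw [add_comm 1 n] at h2
      have h3 := V_sub (hg (n + 1)) h2
      rw [h, add_sub_cancel_right] at h3
      exact h3

lemma Psi_hom (h1 : ∀ i, coeff 1 (ms (φ (FreeGroup.of i))) = xx i) {k : ℕ} {c : RR X}
    (hc : c ∈ Hom k) : V k (Psi φ c) ∧ coeff k (Psi φ c) = c := by
  have hV : ∀ i, V 1 (Psi φ (xx i)) := fun i => by
    rw [Psi_xx]
    exact V_one_ms _
  induction hc using Submodule.span_induction with
  | mem x hx =>
    obtain ⟨w, hw, rfl⟩ := hx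
    induction w using FreeMonoid.recOn generalizing k with
    | one =>
      have hk : k = 0 := by rw [← hw]; rfl
      subst hk
      refine ⟨V_zero _, ?_⟩
      have h2 : (MonoidAlgebra.single (1 : FreeMonoid X) (1 : ℤ)) = 1 := MonoidAlgebra.one_def.symm
      rw [h2, map_one]
      simp
    | of_mul i w ih =>
      rw [FreeMonoid.length_mul, FreeMonoid.length_of] at hw
      subst hw
      obtain ⟨h2, h3⟩ := ih rfl
      rw [Psi_single]
      refine ⟨V_mul (hV i) h2, ?_⟩
      rw [V_mul_coeff (hV i) h2, h3, Psi_xx, map_sub, h1]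
      rw [coeff_one, if_neg one_ne_zero, sub_zero]
      unfold xx
      rw [MonoidAlgebra.single_mul_single, one_mul]
  | zero =>
    rw [map_zero]
    exact ⟨fun i _ => by simp, by simp⟩
  | add x y _ _ hx hy =>
    rw [map_add]
    refine ⟨V_add hx.1 hy.1, ?_⟩
    rw [map_add, hx.2, hy.2]
  | smul a x _ hx =>
    rw [map_zsmul]
    refine ⟨fun i hi => ?_, ?_⟩
    · rw [map_zsmul, hx.1 i hi, smul_zero]
    · rw [map_zsmul, hx.2]

/-- The order is preserved. -/
lemma Pos.map {pos : (FreeMonoid X →₀ ℤ) → Prop} (h0 : ¬ pos 0)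
    (h1 : ∀ i, coeff 1 (ms (φ (FreeGroup.of i))) = xx i) {g : FreeGroup X} (hg : Pos pos g) :
    Pos pos (φ g) := by
  obtain ⟨k, hk1, hk2⟩ := hg
  have hk := Pos.ge_one h0 hk2
  have hV : ∀ i, V 1 (Psi φ (xx i)) := fun i => by
    rw [Psi_xx]
    exact V_one_ms _
  have hD := DD_mem hV g (k + 1)
  have hsum : DD φ (k + 1) g = (ms (φ g) - 1) - Psi φ (coeff k (ms g - 1)) := by
    unfold DD
    obtain ⟨m, rfl⟩ : ∃ m, k = m + 1 := ⟨k - 1, by omega⟩
    rw [Finset.sum_range_succ, Finset.sum_range_succ', Finset.sum_eq_zero, zero_add, coeff_zero_ms,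
      map_one, map_sub (coeff (m + 1)), coeff_one, if_neg (by omega), sub_zero]
    · abel
    · intro i hi
      have h2 := hk1 (i + 1) (by have := Finset.mem_range.1 hi; omega)
      rw [map_sub, coeff_one, if_neg (by omega), sub_zero] at h2
      rw [h2, map_zero]
  have hc : coeff k (ms g - 1) ∈ Hom (X := X) k := by
    rw [map_sub, coeff_one, if_neg (by omega), sub_zero]
    exact Homs_ms g k
  obtain ⟨h2, h3⟩ := Psi_hom h1 hc
  have h4 : ms (φ g) - 1 = DD φ (k + 1) g + Psi φ (coeff k (ms g - 1)) := by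
    rw [hsum]
    abel
  refine ⟨k, ?_, ?_⟩
  · rw [h4]
    exact V_add (V_mono (Nat.le_succ k) hD) h2
  · rw [h4, map_add, hD k (Nat.lt_succ_self k), zero_add, h3]
    exact hk2

end aut

/-- The bi-order on a free group is preserved by all endomorphisms which are the identity on the
abelianization. -/
theorem exists_biorder (X : Type) [DecidableEq X] (φ : FreeGroup X →* FreeGroup X)
    (h1 : ∀ i, coeff 1 (ms (φ (FreeGroup.of i))) = xx i) :
    ∃ lt : FreeGroup X → FreeGroup X → Prop, (∀ a, ¬ lt a a) ∧ (∀ a b c, lt a b → lt b c → lt a c) ∧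
      (∀ a b, lt a b ∨ a = b ∨ lt b a) ∧ (∀ a b c, lt a b → lt (c * a) (c * b)) ∧
      (∀ a b c, lt a b → lt (a * c) (b * c)) ∧ ∀ a b, lt a b → lt (φ a) (φ b) := by
  obtain ⟨pos, h0, htot, hadd⟩ := exists_pos (FreeMonoid X)
  refine ⟨fun a b => Pos pos (a⁻¹ * b), fun a h => ?_, fun a b c h h' => ?_, fun a b => ?_,
    fun a b c h => ?_, fun a b c h => ?_, fun a b h => ?_⟩
  · have h : Pos pos (a⁻¹ * a) := h
    rw [inv_mul_cancel] at h
    exact Pos.one h0 h
  · have h2 : Pos pos ((a⁻¹ * b) * (b⁻¹ * c)) := Pos.mul h0 hadd h h'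
    rwa [mul_assoc, mul_inv_cancel_left] at h2
  · by_cases hab : a = b
    · exact Or.inr (Or.inl hab)
    · have hne : a⁻¹ * b ≠ 1 := fun h => hab (inv_mul_eq_one.1 h)
      rcases Pos.total htot hne with h | h
      · exact Or.inl h
      · refine Or.inr (Or.inr ?_)
        rw [mul_inv_rev, inv_inv] at h
        exact h
  · show Pos pos ((c * a)⁻¹ * (c * b))
    have h2 : (c * a)⁻¹ * (c * b) = a⁻¹ * b := by group
    rw [h2]
    exact h
  · show Pos pos ((a * c)⁻¹ * (b * c))
    have h2 : (a * c)⁻¹ * (b * c) = c⁻¹ * (a⁻¹ * b) * c⁻¹⁻¹ := by group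
    rw [h2]
    exact Pos.conj h _
  · show Pos pos ((φ a)⁻¹ * φ b)
    rw [← map_inv, ← map_mul]
    exact Pos.map h0 h1 h

end Q182.BO
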