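import Mathlib

/-!
# Braids, bi-orders of free groups and the Burau representation
-/

namespace Q182.BO

open LaurentPolynomial Matrix

/-- The automorphism `σ_i` of the free group on `x_0, ..., x_m` given by
`x_i ↦ x_i x_{i+1} x_i⁻¹`, `x_{i+1} ↦ x_i`, `x_j ↦ x_j` for `j ≠ i, i + 1`. -/
def artinFun (m : ℕ) (i : Fin m) : FreeGroup (Fin (m + 1)) →* FreeGroup (Fin (m + 1)) :=
  FreeGroup.lift fun j =>
    if j = i.castSucc then
      FreeGroup.of i.castSucc * FreeGroup.of i.succ * (FreeGroup.of i.castSucc)⁻¹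
    else if j = i.succ then FreeGroup.of i.castSucc else FreeGroup.of j

/-- Its inverse: `x_i ↦ x_{i+1}`, `x_{i+1} ↦ x_{i+1}⁻¹ x_i x_{i+1}`. -/
def artinInv (m : ℕ) (i : Fin m) : FreeGroup (Fin (m + 1)) →* FreeGroup (Fin (m + 1)) :=
  FreeGroup.lift fun j =>
    if j = i.castSucc then FreeGroup.of i.succ
    else if j = i.succ then
      (FreeGroup.of i.succ)⁻¹ * FreeGroup.of i.castSucc * FreeGroup.of i.succ
    else FreeGroup.of j

lemma castSucc_ne_succ' (m : ℕ) (i : Fin m) : i.castSucc ≠ i.succ := by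
  intro h
  have := congrArg Fin.val h
  simp at this

lemma artinInv_comp (m : ℕ) (i : Fin m) : (artinInv m i).comp (artinFun m i) = MonoidHom.id _ := by
  have hne := castSucc_ne_succ' m i
  apply FreeGroup.ext_hom
  intro j
  by_cases h1 : j = i.castSucc
  · simp [artinFun, artinInv, h1, hne.symm, mul_assoc]
  · by_cases h2 : j = i.succ
    · simp [artinFun, artinInv, h2, hne.symm]
    · simp [artinFun, artinInv, h1, h2]

lemma artinFun_comp (m : ℕ) (i : Fin m) : (artinFun m i).comp (artinInv m i) = MonoidHom.id _ := by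
  have hne := castSucc_ne_succ' m i
  apply FreeGroup.ext_hom
  intro j
  by_cases h1 : j = i.castSucc
  · simp [artinFun, artinInv, h1, hne.symm]
  · by_cases h2 : j = i.succ
    · simp [artinFun, artinInv, h2, hne.symm, mul_assoc]
    · simp [artinFun, artinInv, h1, h2]

/-- The Artin automorphism of the `i`-th standard generator of the braid group on `m + 1`
strands. -/
def artin (m : ℕ) (i : Fin m) : MulAut (FreeGroup (Fin (m + 1))) :=
  MonoidHom.toMulEquiv (artinFun m i) (artinInv m i) (artinInv_comp m i) (artinFun_comp m i)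

/-- The braid group on `m + 1` strands, as a group of automorphisms of the free group. -/
def BraidGroup (m : ℕ) : Subgroup (MulAut (FreeGroup (Fin (m + 1)))) :=
  Subgroup.closure (Set.range (artin m))

/-- A (strict) bi-order of a group. -/
structure IsBiorder {G : Type} [Group G] (lt : G → G → Prop) : Prop where
  irrefl : ∀ a, ¬ lt a a
  trans : ∀ a b c, lt a b → lt b c → lt a c
  total : ∀ a b, lt a b ∨ a = b ∨ lt b a
  left : ∀ a b c, lt a b → lt (c * a) (c * b)
  right : ∀ a b c, lt a b → lt (a * c) (b * c)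

/-- An automorphism is order-preserving if it preserves a bi-order. -/
def OrderPreserving {G : Type} [Group G] (φ : MulAut G) : Prop :=
  ∃ lt : G → G → Prop, IsBiorder lt ∧ ∀ a b, lt a b ↔ lt (φ a) (φ b)

/-- The total winding number `σ`. -/
def winding (n : ℕ) : FreeGroup (Fin n) →* Multiplicative ℤ :=
  FreeGroup.lift fun _ => Multiplicative.ofAdd 1

/-- The kernel `K` of the total winding number. -/
def K (n : ℕ) : Type := (winding n).ker

instance instGroupK (n : ℕ) : Group (K n) := inferInstanceAs (Group (winding n).ker)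

/-- The inclusion of the kernel. -/
def K.val {n : ℕ} (k : K n) : FreeGroup (Fin n) := Subtype.val k

/-- The homology group `H_1(K; ℤ)`, the abelianization of `K`. -/
def H1 (n : ℕ) : Type := Additive (Abelianization (K n))

instance instAddCommGroupH1 (n : ℕ) : AddCommGroup (H1 n) :=
  inferInstanceAs (AddCommGroup (Additive (Abelianization (K n))))

/-- The class of an element of `K` in `H_1(K; ℤ)`. -/
def cls {n : ℕ} (k : K n) : H1 n := Additive.ofMul (Abelianization.of k)

/-- Column vectors of length `m` over `ℤ[t, t⁻¹]`. -/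
def Vec (m : ℕ) : Type := Fin m → ℤ[T;T⁻¹]

noncomputable instance instAddCommGroupVec (m : ℕ) : AddCommGroup (Vec m) :=
  inferInstanceAs (AddCommGroup (Fin m → ℤ[T;T⁻¹]))

/-- Multiplication of a vector by `t`. -/
noncomputable def tmul {m : ℕ} (v : Vec m) : Vec m := fun i => T 1 * v i

/-- Multiplication of a vector by a matrix. -/
noncomputable def matmul {m : ℕ} (R : Matrix (Fin m) (Fin m) ℤ[T;T⁻¹]) (v : Vec m) : Vec m :=
  R.mulVec v

/-- Under `D`, the conjugation by an element of winding number one becomes the multiplication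
by `t`; so `D` is an isomorphism of `ℤ[t, t⁻¹]`-modules. -/
def IsLaurentLinear {m : ℕ} (D : H1 (m + 1) ≃+ Vec m) : Prop :=
  ∀ (x : FreeGroup (Fin (m + 1))) (k k' : K (m + 1)), winding (m + 1) x = Multiplicative.ofAdd 1 →
    k'.val = x * k.val * x⁻¹ → D (cls k') = tmul (D (cls k))

/-- Under `D`, the automorphism `φ` acts by the matrix `R`. -/
def ActsBy {m : ℕ} (D : H1 (m + 1) ≃+ Vec m) (φ : MulAut (FreeGroup (Fin (m + 1))))
    (R : Matrix (Fin m) (Fin m) ℤ[T;T⁻¹]) : Prop :=
  ∀ k k' : K (m + 1), k'.val = φ k.val → D (cls k') = matmul R (D (cls k))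

/-- `R` is the matrix of the map induced by `φ` on `H_1(K; ℤ)` with respect to some basis over
`ℤ[t, t⁻¹]`. -/
def IsBurauMatrix (m : ℕ) (φ : MulAut (FreeGroup (Fin (m + 1))))
    (R : Matrix (Fin m) (Fin m) ℤ[T;T⁻¹]) : Prop :=
  (∀ g, winding (m + 1) (φ g) = winding (m + 1) g) ∧
    ∃ D : H1 (m + 1) ≃+ Vec m, IsLaurentLinear D ∧ ActsBy D φ R

/-- The Puiseux series among the Hahn series: the exponents lie in `(1 / N) ℤ` for some `N`. -/
def IsPuiseux (a : HahnSeries ℚ ℝ) : Prop :=
  ∃ N : ℕ, 1 ≤ N ∧ ∀ q ∈ a.support, ∃ z : ℤ, q = z / N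

/-- The variable `t` as a unit of the ring of Hahn series. -/
noncomputable def tUnit : (HahnSeries ℚ ℝ)ˣ where
  val := HahnSeries.single 1 1
  inv := HahnSeries.single (-1) 1
  val_inv := by
    rw [HahnSeries.single_mul_single, add_neg_cancel, mul_one]
    rfl
  inv_val := by
    rw [HahnSeries.single_mul_single, neg_add_cancel, mul_one]
    rfl

/-- The inclusion of `ℤ[t, t⁻¹]`. -/
noncomputable def incl : ℤ[T;T⁻¹] →+* HahnSeries ℚ ℝ :=
  LaurentPolynomial.eval₂ (Int.castRingHom _) tUnit

/-- `a` is a root of the characteristic polynomial of `R`. -/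
def IsEigenvalue {m : ℕ} (R : Matrix (Fin m) (Fin m) ℤ[T;T⁻¹]) (a : HahnSeries ℚ ℝ) : Prop :=
  (R.charpoly.map incl).IsRoot a

end Q182.BO
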