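import Mathlib
import Pool.Agent.Q182.BODefs
import Pool.Agent.Q182.BOAut

/-!
# The reduced Burau representation from the action on the kernel of the winding number
-/

namespace Q182.BO

open LaurentPolynomial Matrix

/-- Laurent polynomials. -/
abbrev LL : Type := ℤ[T;T⁻¹]

variable {m : ℕ}

lemma T_neg_mul (n : ℤ) : (T (-n) : LL) * T n = 1 := by rw [← T_add, neg_add_cancel, T_zero]

lemma T_mul_neg (n : ℤ) : (T n : LL) * T (-n) = 1 := by rw [← T_add, add_neg_cancel, T_zero]

/-- The translations. -/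
noncomputable def ee (m : ℕ) (j : Fin (m + 1)) : Fin m → LL :=
  Fin.cases 0 (fun i => Pi.single i 1) j

/-- The affine maps. -/
noncomputable def aff (m : ℕ) (j : Fin (m + 1)) : Equiv.Perm (Fin m → LL) where
  toFun v := (T 1 : LL) • v + ee m j
  invFun v := (T (-1) : LL) • (v - ee m j)
  left_inv v := by
    show (T (-1) : LL) • ((T 1 : LL) • v + ee m j - ee m j) = v
    rw [add_sub_cancel_right, smul_smul, T_neg_mul, one_smul]
  right_inv v := by
    show (T 1 : LL) • ((T (-1) : LL) • (v - ee m j)) + ee m j = v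
    rw [smul_smul, T_mul_neg, one_smul, sub_add_cancel]

/-- The action on the affine space. -/
noncomputable def act (m : ℕ) : FreeGroup (Fin (m + 1)) →* Equiv.Perm (Fin m → LL) :=
  FreeGroup.lift (aff m)

/-- The winding number as an integer. -/
def wd (g : FreeGroup (Fin (m + 1))) : ℤ := Multiplicative.toAdd (winding (m + 1) g)

lemma wd_one : wd (1 : FreeGroup (Fin (m + 1))) = 0 := by
  unfold wd
  rw [map_one]
  rfl

lemma wd_mul (g h : FreeGroup (Fin (m + 1))) : wd (g * h) = wd g + wd h := by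
  unfold wd
  rw [map_mul, toAdd_mul]

lemma wd_inv (g : FreeGroup (Fin (m + 1))) : wd g⁻¹ = - wd g := by
  unfold wd
  rw [map_inv, toAdd_inv]

lemma wd_of (j : Fin (m + 1)) : wd (FreeGroup.of j) = 1 := by
  unfold wd winding
  rw [FreeGroup.lift_apply_of]
  rfl

/-- The crossed homomorphism. -/
noncomputable def dl (g : FreeGroup (Fin (m + 1))) : Fin m → LL := act m g 0

lemma act_apply (g : FreeGroup (Fin (m + 1))) : ∀ v, act m g v = (T (wd g) : LL) • v + dl g := by
  unfold dl
  induction g using word_ind with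
  | h1 =>
    intro v
    rw [map_one, wd_one, T_zero, one_smul]
    show v = v + 0
    rw [add_zero]
  | hu i g hg =>
    intro v
    have h : ∀ v, act m (FreeGroup.of i * g) v = (T 1 : LL) • act m g v + ee m i := by
      intro v
      rw [map_mul]
      unfold act
      rw [FreeGroup.lift_apply_of]
      rfl
    rw [h, h, wd_mul, wd_of, T_add, hg, smul_add, smul_smul, add_assoc]
  | hv i g hg =>
    intro v
    have h : ∀ v, act m ((FreeGroup.of i)⁻¹ * g) v = (T (-1) : LL) • (act m g v - ee m i) := by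
      intro v
      rw [map_mul, map_inv]
      unfold act
      rw [FreeGroup.lift_apply_of]
      rfl
    rw [h, h, wd_mul, wd_inv, wd_of, T_add, hg, ← smul_smul, ← smul_add]
    congr 1
    abel

lemma dl_mul (g h : FreeGroup (Fin (m + 1))) : dl (g * h) = dl g + (T (wd g) : LL) • dl h := by
  have h1 : dl (g * h) = act m g (dl h) := by
    unfold dl
    rw [map_mul]
    rfl
  rw [h1, act_apply, add_comm]

lemma dl_of (j : Fin (m + 1)) : dl (FreeGroup.of j) = ee m j := by
  unfold dl act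
  rw [FreeGroup.lift_apply_of]
  show (T 1 : LL) • (0 : Fin m → LL) + ee m j = _
  rw [smul_zero, zero_add]

lemma dl_one : dl (1 : FreeGroup (Fin (m + 1))) = 0 := by
  unfold dl
  rw [map_one]
  rfl

lemma dl_inv (g : FreeGroup (Fin (m + 1))) : dl g⁻¹ = -((T (-wd g) : LL) • dl g) := by
  have h := dl_mul g⁻¹ g
  rw [inv_mul_cancel, dl_one, wd_inv] at h
  exact eq_neg_of_add_eq_zero_left h.symm

lemma dl_conj (x k : FreeGroup (Fin (m + 1))) (hk : wd k = 0) :
    dl (x * k * x⁻¹) = (T (wd x) : LL) • dl k := by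
  rw [dl_mul, dl_mul, wd_mul, hk, add_zero, dl_inv, smul_neg, smul_smul, T_mul_neg, one_smul]
  abel

/-! ### The isomorphism -/

/-- The kernel as a subgroup. -/
abbrev KK (n : ℕ) : Subgroup (FreeGroup (Fin n)) := (winding n).ker

/-- The class in the abelianization. -/
def cl (k : KK (m + 1)) : Additive (Abelianization (KK (m + 1))) :=
  Additive.ofMul (Abelianization.of k)

lemma wd_K (k : KK (m + 1)) : wd (k : FreeGroup (Fin (m + 1))) = 0 := by
  have := k.2
  rw [MonoidHom.mem_ker] at this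
  unfold wd
  rw [this]
  rfl

lemma mem_K {g : FreeGroup (Fin (m + 1))} (h : wd g = 0) : g ∈ KK (m + 1) := by
  rw [MonoidHom.mem_ker]
  exact Multiplicative.toAdd.injective h

/-- The homomorphism on the kernel. -/
noncomputable def D0 (m : ℕ) : KK (m + 1) →* Multiplicative (Fin m → LL) where
  toFun k := Multiplicative.ofAdd (dl (k : FreeGroup (Fin (m + 1))))
  map_one' := by
    show Multiplicative.ofAdd (dl (1 : FreeGroup (Fin (m + 1)))) = 1
    rw [dl_one]
    rfl
  map_mul' k k' := by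
    show Multiplicative.ofAdd
      (dl ((k : FreeGroup (Fin (m + 1))) * (k' : FreeGroup (Fin (m + 1))))) = _
    rw [dl_mul, wd_K, T_zero, one_smul]
    rfl

/-- The homomorphism on the first homology. -/
noncomputable def D1 (m : ℕ) : Additive (Abelianization (KK (m + 1))) →+ (Fin m → LL) :=
  MonoidHom.toAdditiveLeft (Abelianization.lift (D0 m))

lemma D1_cls (k : KK (m + 1)) : D1 m (cl k) = dl (k : FreeGroup (Fin (m + 1))) := by
  unfold D1 cl
  show Multiplicative.toAdd (Abelianization.lift (D0 m) (Abelianization.of k)) = _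
  rw [Abelianization.lift_apply_of]
  rfl

/-- The generators of the kernel. -/
def gen (m : ℕ) (p : Fin m × ℤ) : FreeGroup (Fin (m + 1)) :=
  FreeGroup.of 0 ^ p.2 * (FreeGroup.of p.1.succ * (FreeGroup.of 0)⁻¹) * (FreeGroup.of 0 ^ p.2)⁻¹

lemma wd_zpow (g : FreeGroup (Fin (m + 1))) (z : ℤ) : wd (g ^ z) = z * wd g := by
  unfold wd
  rw [map_zpow, toAdd_zpow, smul_eq_mul]

lemma wd_gen (p : Fin m × ℤ) : wd (gen m p) = 0 := by
  unfold gen
  simp only [wd_mul, wd_inv, wd_zpow, wd_of]
  ring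

lemma dl_gen (p : Fin m × ℤ) : dl (gen m p) = Pi.single p.1 (T p.2) := by
  unfold gen
  rw [dl_conj _ _ (by rw [wd_mul, wd_inv, wd_of, wd_of]; ring), wd_zpow, wd_of, mul_one, dl_mul, dl_inv,
    dl_of, dl_of]
  have h0 : ee m 0 = 0 := rfl
  have h1 : ee m p.1.succ = Pi.single p.1 1 := rfl
  rw [h0, h1, smul_zero, neg_zero, smul_zero, add_zero]
  ext i : 1
  rw [Pi.smul_apply]
  by_cases hi : i = p.1
  · subst hi
    rw [Pi.single_eq_same, Pi.single_eq_same, smul_eq_mul, mul_one]
  · rw [Pi.single_eq_of_ne hi, Pi.single_eq_of_ne hi, smul_zero]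

/-- The generators as elements of the kernel. -/
def genK (m : ℕ) (p : Fin m × ℤ) : KK (m + 1) := ⟨gen m p, mem_K (wd_gen p)⟩

/-- The map from the free abelian group. -/
noncomputable def SS1 (m : ℕ) : ((Fin m × ℤ) →₀ ℤ) →+ Additive (Abelianization (KK (m + 1))) :=
  Finsupp.liftAddHom fun p => (zmultiplesHom _) (cl (genK m p))

lemma SS1_single (p : Fin m × ℤ) (n : ℤ) :
    SS1 m (Finsupp.single p n) = n • cl (genK m p) := by
  unfold SS1
  rw [Finsupp.liftAddHom_apply_single]
  rfl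

lemma D1_SS1_single (p : Fin m × ℤ) (n : ℤ) :
    D1 m (SS1 m (Finsupp.single p n)) = Pi.single p.1 (LaurentPolynomial.C n * T p.2) := by
  rw [SS1_single, map_zsmul, D1_cls]
  have h : ((genK m p : KK (m + 1)) : FreeGroup (Fin (m + 1))) = gen m p := rfl
  rw [h, dl_gen]
  ext i : 1
  rw [Pi.smul_apply]
  by_cases hi : i = p.1
  · subst hi
    rw [Pi.single_eq_same, Pi.single_eq_same, LaurentPolynomial.smul_eq_C_mul]
  · rw [Pi.single_eq_of_ne hi, Pi.single_eq_of_ne hi, smul_zero]

lemma D1_SS1_coeff (a : (Fin m × ℤ) →₀ ℤ) (i : Fin m) (z : ℤ) :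
    (D1 m (SS1 m a) i).coeff z = a (i, z) := by
  induction a using Finsupp.induction_linear with
  | zero => simp
  | add a b ha hb =>
    rw [map_add, map_add, Pi.add_apply, AddMonoidAlgebra.coeff_add, Finsupp.add_apply, ha, hb,
      Finsupp.add_apply]
  | single p n =>
    rw [D1_SS1_single]
    obtain ⟨j, w⟩ := p
    rw [← LaurentPolynomial.single_eq_C_mul_T]
    by_cases hj : i = j
    · subst hj
      rw [Pi.single_eq_same, AddMonoidAlgebra.coeff_single, Finsupp.single_apply, Finsupp.single_apply]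
      simp
    · rw [Pi.single_eq_of_ne hj, Finsupp.single_apply, if_neg]
      · rfl
      · intro h
        exact hj (congrArg Prod.fst h).symm

lemma D1_SS1_injective : Function.Injective fun a => D1 m (SS1 m a) := by
  intro a b h
  ext ⟨i, z⟩
  rw [← D1_SS1_coeff a i z, ← D1_SS1_coeff b i z]
  have h : D1 m (SS1 m a) = D1 m (SS1 m b) := h
  rw [h]

lemma D1_surjective : Function.Surjective (D1 m) := by
  rw [← AddMonoidHom.range_eq_top, eq_top_iff]
  intro v _
  rw [← Finset.univ_sum_single v]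
  refine AddSubgroup.sum_mem _ fun i _ => ?_
  induction v i using LaurentPolynomial.induction_on' with
  | add p q hp hq =>
    rw [Pi.single_add]
    exact AddSubgroup.add_mem _ hp hq
  | C_mul_T n a =>
    exact ⟨SS1 m (Finsupp.single (i, n) a), D1_SS1_single (i, n) a⟩

/-- The subgroup generated by the generators. -/
def GG (m : ℕ) : Subgroup (FreeGroup (Fin (m + 1))) := Subgroup.closure (Set.range (gen m))

lemma GG_conj (z : ℤ) {g : FreeGroup (Fin (m + 1))} (hg : g ∈ GG m) :
    FreeGroup.of 0 ^ z * g * (FreeGroup.of 0 ^ z)⁻¹ ∈ GG m := by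
  induction hg using Subgroup.closure_induction with
  | mem x hx =>
    obtain ⟨p, rfl⟩ := hx
    apply Subgroup.subset_closure
    refine ⟨(p.1, z + p.2), ?_⟩
    unfold gen
    simp only [_root_.zpow_add]
    group
  | one =>
    rw [mul_one, mul_inv_cancel]
    exact Subgroup.one_mem _
  | mul x y _ _ hx hy =>
    have h := Subgroup.mul_mem _ hx hy
    have h2 : FreeGroup.of 0 ^ z * (x * y) * (FreeGroup.of 0 ^ z)⁻¹ =
      FreeGroup.of 0 ^ z * x * (FreeGroup.of 0 ^ z)⁻¹ * (FreeGroup.of 0 ^ z * y * (FreeGroup.of 0 ^ z)⁻¹) := by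
      group
    rw [h2]
    exact h
  | inv x _ hx =>
    have h := Subgroup.inv_mem _ hx
    have h2 : FreeGroup.of 0 ^ z * x⁻¹ * (FreeGroup.of 0 ^ z)⁻¹ =
      (FreeGroup.of 0 ^ z * x * (FreeGroup.of 0 ^ z)⁻¹)⁻¹ := by
      group
    rw [h2]
    exact h

lemma GG_base (i : Fin (m + 1)) : FreeGroup.of i * (FreeGroup.of 0)⁻¹ ∈ GG m := by
  cases i using Fin.cases with
  | zero =>
    rw [mul_inv_cancel]
    exact Subgroup.one_mem _
  | succ i =>
    apply Subgroup.subset_closure
    refine ⟨(i, 0), ?_⟩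
    unfold gen
    simp

lemma GG_all (g : FreeGroup (Fin (m + 1))) : g * (FreeGroup.of 0 ^ (wd g))⁻¹ ∈ GG m := by
  induction g using word_ind with
  | h1 =>
    rw [wd_one, zpow_zero, inv_one, mul_one]
    exact Subgroup.one_mem _
  | hu i g hg =>
    have h1 := GG_conj 1 hg
    have h2 := Subgroup.mul_mem _ (GG_base i) h1
    have h3 : FreeGroup.of i * g * (FreeGroup.of 0 ^ (wd (FreeGroup.of i * g)))⁻¹ =
      FreeGroup.of i * (FreeGroup.of 0)⁻¹ *
      (FreeGroup.of 0 ^ (1 : ℤ) * (g * (FreeGroup.of 0 ^ wd g)⁻¹) * (FreeGroup.of 0 ^ (1 : ℤ))⁻¹) := by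
      rw [wd_mul, wd_of, _root_.zpow_add, zpow_one]
      group
    rw [h3]
    exact h2
  | hv i g hg =>
    have h2 := Subgroup.mul_mem _ (Subgroup.inv_mem _ (GG_base i)) hg
    have h1 := GG_conj (-1) h2
    have h3 : (FreeGroup.of i)⁻¹ * g * (FreeGroup.of 0 ^ (wd ((FreeGroup.of i)⁻¹ * g)))⁻¹ =
      FreeGroup.of 0 ^ (-1 : ℤ) * ((FreeGroup.of i * (FreeGroup.of 0)⁻¹)⁻¹ *
      (g * (FreeGroup.of 0 ^ wd g)⁻¹)) * (FreeGroup.of 0 ^ (-1 : ℤ))⁻¹ := by
      rw [wd_mul, wd_inv, wd_of, _root_.zpow_add]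
      group
    rw [h3]
    exact h1

lemma SS1_surjective : Function.Surjective (SS1 m) := by
  have key : ∀ g ∈ GG m, ∃ k : KK (m + 1), (k : FreeGroup (Fin (m + 1))) = g ∧
      cl k ∈ (SS1 m).range := by
    intro g hg
    induction hg using Subgroup.closure_induction with
    | mem x hx =>
      obtain ⟨p, rfl⟩ := hx
      refine ⟨genK m p, rfl, Finsupp.single p 1, ?_⟩
      rw [SS1_single, one_smul]
    | one => exact ⟨1, rfl, AddSubgroup.zero_mem _⟩
    | mul x y _ _ hx hy =>
      obtain ⟨k, rfl, hk⟩ := hx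
      obtain ⟨l, rfl, hl⟩ := hy
      exact ⟨k * l, rfl, AddSubgroup.add_mem _ hk hl⟩
    | inv x _ hx =>
      obtain ⟨k, rfl, hk⟩ := hx
      exact ⟨k⁻¹, rfl, AddSubgroup.neg_mem _ hk⟩
  intro a
  obtain ⟨k, hk⟩ := QuotientGroup.mk'_surjective (commutator (KK (m + 1))) (Additive.toMul a)
  have h1 := GG_all (k : FreeGroup (Fin (m + 1)))
  rw [wd_K, zpow_zero, inv_one, mul_one] at h1
  obtain ⟨k', hk', h2⟩ := key _ h1
  have h3 : k' = k := Subtype.ext hk'
  rw [h3] at h2
  have h4 : cl k = a := hk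
  rw [h4] at h2
  exact h2

lemma D1_bijective : Function.Bijective (D1 m) := by
  refine ⟨fun a b h => ?_, D1_surjective⟩
  obtain ⟨a, rfl⟩ := SS1_surjective a
  obtain ⟨b, rfl⟩ := SS1_surjective b
  rw [D1_SS1_injective h]

/-! ### Matrices -/

/-- The matrix of an automorphism. -/
def BM (φ : MulAut (FreeGroup (Fin (m + 1)))) (R : Matrix (Fin m) (Fin m) LL) : Prop :=
  (∀ g, wd (φ g) = wd g) ∧ ∀ g, wd g = 0 → dl (φ g) = R *ᵥ dl g

lemma BM.mul {φ ψ : MulAut (FreeGroup (Fin (m + 1)))} {R S : Matrix (Fin m) (Fin m) LL}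
    (h : BM φ R) (h' : BM ψ S) : BM (φ * ψ) (R * S) := by
  refine ⟨fun g => ?_, fun g hg => ?_⟩
  · rw [MulAut.mul_apply, h.1, h'.1]
  · rw [MulAut.mul_apply, h.2 _ (by rw [h'.1, hg]), h'.2 _ hg, Matrix.mulVec_mulVec]

lemma BM.inv {φ : MulAut (FreeGroup (Fin (m + 1)))} {R S : Matrix (Fin m) (Fin m) LL}
    (h : BM φ R) (hS : S * R = 1) : BM φ⁻¹ S := by
  have h1 : ∀ g, wd (φ⁻¹ g) = wd g := fun g => by
    rw [← h.1 (φ⁻¹ g), MulAut.apply_inv_self]
  refine ⟨h1, fun g hg => ?_⟩
  have h2 := h.2 (φ⁻¹ g) (by rw [h1, hg])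
  rw [MulAut.apply_inv_self] at h2
  rw [h2, Matrix.mulVec_mulVec, hS, Matrix.one_mulVec]

lemma BM.isBurau {φ : MulAut (FreeGroup (Fin (m + 1)))} {R : Matrix (Fin m) (Fin m) LL}
    (h : BM φ R) : IsBurauMatrix m φ R := by
  refine ⟨fun g => Multiplicative.toAdd.injective (h.1 g),
    (AddEquiv.ofBijective (D1 m) D1_bijective : Additive (Abelianization (KK (m + 1))) ≃+
      (Fin m → LL)), ?_, ?_⟩
  · have key : ∀ (x : FreeGroup (Fin (m + 1))) (k k' : KK (m + 1)),
        winding (m + 1) x = Multiplicative.ofAdd 1 →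
        (k' : FreeGroup (Fin (m + 1))) = x * k * x⁻¹ →
          D1 m (cl k') = (T 1 : LL) • D1 m (cl k) := by
      intro x k k' hx hk'
      have hx' : wd x = 1 := by
        unfold wd
        rw [hx]
        rfl
      rw [D1_cls, D1_cls, hk', dl_conj _ _ (wd_K k), hx']
    exact key
  · have key : ∀ k k' : KK (m + 1), (k' : FreeGroup (Fin (m + 1))) = φ k →
        D1 m (cl k') = R *ᵥ D1 m (cl k) := by
      intro k k' hk'
      rw [D1_cls, D1_cls, hk', h.2 _ (wd_K k)]
    exact key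

lemma T_one_sub_ne : (T 1 : LL) - 1 ≠ 0 := by
  intro h
  have h1 : (T 1 : LL) = T 0 := by
    rw [T_zero]
    exact sub_eq_zero.1 h
  have h2 := congrArg (fun p : LL => p.coeff 1) h1
  simp only [LaurentPolynomial.T_apply] at h2
  norm_num at h2

/-- A crossed homomorphism which is constant on the generators vanishes on the kernel. -/
lemma vanish_crossed (ε : FreeGroup (Fin (m + 1)) → (Fin m → LL))
    (hε : ∀ g h, ε (g * h) = ε g + (T (wd g) : LL) • ε h) (c : Fin m → LL)
    (hc : ∀ j, ε (FreeGroup.of j) = c) {g : FreeGroup (Fin (m + 1))} (hg : wd g = 0) : ε g = 0 := by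
  have h1 : ε 1 = 0 := by
    have h := hε 1 1
    rw [mul_one, wd_one, T_zero, one_smul] at h
    exact (add_eq_left.1 h.symm)
  have key : ∀ g, ((T 1 : LL) - 1) • ε g = ((T (wd g) : LL) - 1) • c := by
    intro g
    induction g using word_ind with
    | h1 => rw [h1, wd_one, T_zero, sub_self, zero_smul, smul_zero]
    | hu i g hg =>
      rw [hε, hc, wd_mul, wd_of, T_add, smul_add, smul_comm, hg, smul_smul, ← add_smul]
      congr 1
      ring
    | hv i g hg =>
      have h2 := hε (FreeGroup.of i) ((FreeGroup.of i)⁻¹ * g)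
      rw [mul_inv_cancel_left, hc, wd_of] at h2
      have h3 : ε ((FreeGroup.of i)⁻¹ * g) = (T (-1) : LL) • (ε g - c) := by
        rw [h2, add_sub_cancel_left, smul_smul, T_neg_mul, one_smul]
      rw [h3, smul_comm, smul_sub, hg, ← sub_smul, smul_smul, wd_mul, wd_inv, wd_of, T_add]
      congr 1
      have := T_neg_mul 1
      linear_combination (-1 : LL) * this
  have h2 := key g
  rw [hg, T_zero, sub_self, zero_smul] at h2
  ext i : 1
  have h3 := congrFun h2 i
  rw [Pi.smul_apply, smul_eq_mul, Pi.zero_apply] at h3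
  rcases mul_eq_zero.1 h3 with h4 | h4
  · exact absurd h4 T_one_sub_ne
  · exact h4

lemma BM.of_gen {φ : MulAut (FreeGroup (Fin (m + 1)))} {R : Matrix (Fin m) (Fin m) LL}
    (hw : ∀ j, wd (φ (FreeGroup.of j)) = 1) (c : Fin m → LL)
    (hc : ∀ j, dl (φ (FreeGroup.of j)) - R *ᵥ dl (FreeGroup.of j) = c) : BM φ R := by
  have hw' : ∀ g, wd (φ g) = wd g := by
    intro g
    induction g using word_ind with
    | h1 => rw [map_one]
    | hu i g hg => rw [map_mul, wd_mul, wd_mul, hw, hg, wd_of]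
    | hv i g hg => rw [map_mul, map_inv, wd_mul, wd_mul, wd_inv, wd_inv, hw, hg, wd_of]
  refine ⟨hw', fun g hg => ?_⟩
  have h := vanish_crossed (fun g => dl (φ g) - R *ᵥ dl g) (fun g h => ?_) c hc hg
  · exact sub_eq_zero.1 h
  · show dl (φ (g * h)) - R *ᵥ dl (g * h) = _
    rw [map_mul, dl_mul, dl_mul, hw', Matrix.mulVec_add, Matrix.mulVec_smul, smul_sub]
    abel

end Q182.BO
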