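import Mathlib
import Pool.Agent.Q182.BOBurau

/-!
# The braid `(σ₁ σ₂⁻¹)³`
-/

namespace Q182.BO

open LaurentPolynomial Matrix

/-! ### The order -/

lemma coeff_one_ms_mul {X : Type} (g h : FreeGroup X) :
    PowerSeries.coeff 1 (ms (g * h)) = PowerSeries.coeff 1 (ms g) + PowerSeries.coeff 1 (ms h) := by
  rw [ms_mul, PowerSeries.coeff_mul, Finset.Nat.antidiagonal_succ, Finset.sum_cons, Finset.sum_map,
    Finset.Nat.antidiagonal_zero, Finset.sum_singleton]
  show PowerSeries.coeff 0 (ms g) * PowerSeries.coeff 1 (ms h) +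
    PowerSeries.coeff 1 (ms g) * PowerSeries.coeff 0 (ms h) = _
  rw [coeff_zero_ms, coeff_zero_ms, one_mul, mul_one, add_comm]

/-- The linear part with permuted indices. -/
noncomputable def AA (π : Equiv.Perm (Fin 3)) : FreeGroup (Fin 3) →* Multiplicative (RR (Fin 3)) :=
  FreeGroup.lift fun j => Multiplicative.ofAdd (xx (π j))

lemma coeff_one_ms (g : FreeGroup (Fin 3)) :
    PowerSeries.coeff 1 (ms g) = Multiplicative.toAdd (AA 1 g) := by
  have h : ∀ g : FreeGroup (Fin 3), AA 1 g =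
      (MonoidHom.mk' (fun g => Multiplicative.ofAdd (PowerSeries.coeff 1 (ms g)))
        (fun g h => by rw [coeff_one_ms_mul, ofAdd_add]) :
        FreeGroup (Fin 3) →* Multiplicative (RR (Fin 3))) g := by
    intro g
    congr 1
    apply FreeGroup.ext_hom
    intro j
    unfold AA
    rw [FreeGroup.lift_apply_of, MonoidHom.mk'_apply]
    congr 1
    unfold ms
    rw [mu_of, coeff_uu, if_neg one_ne_zero, if_pos rfl]
    rfl
  rw [h]
  rfl

lemma AA_artin (π : Equiv.Perm (Fin 3)) (i : Fin 2) (g : FreeGroup (Fin 3)) :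
    AA π (artin 2 i g) = AA (π * Equiv.swap i.castSucc i.succ) g := by
  have h : (AA π).comp (artinFun 2 i) = AA (π * Equiv.swap i.castSucc i.succ) := by
    apply FreeGroup.ext_hom
    intro j
    rw [MonoidHom.comp_apply]
    unfold artinFun
    rw [FreeGroup.lift_apply_of]
    unfold AA
    rw [FreeGroup.lift_apply_of]
    by_cases h1 : j = i.castSucc
    · subst h1
      rw [if_pos rfl, map_mul, map_mul, map_inv, FreeGroup.lift_apply_of, FreeGroup.lift_apply_of,
        mul_comm, inv_mul_cancel_left, Equiv.Perm.mul_apply, Equiv.swap_apply_left]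
    · rw [if_neg h1]
      by_cases h2 : j = i.succ
      · subst h2
        rw [if_pos rfl, FreeGroup.lift_apply_of, Equiv.Perm.mul_apply, Equiv.swap_apply_right]
      · rw [if_neg h2, FreeGroup.lift_apply_of, Equiv.Perm.mul_apply,
          Equiv.swap_apply_of_ne_of_ne h1 h2]
  rw [← h]
  rfl

lemma AA_artin_inv (π : Equiv.Perm (Fin 3)) (i : Fin 2) (g : FreeGroup (Fin 3)) :
    AA π ((artin 2 i)⁻¹ g) = AA (π * Equiv.swap i.castSucc i.succ) g := by
  have h := AA_artin (π * Equiv.swap i.castSucc i.succ) i ((artin 2 i)⁻¹ g)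
  rw [MulAut.apply_inv_self, mul_assoc, Equiv.swap_mul_self, mul_one] at h
  exact h.symm

/-- The braid. -/
def beta : MulAut (FreeGroup (Fin 3)) := (artin 2 0 * (artin 2 1)⁻¹) ^ 3

lemma AA_beta (g : FreeGroup (Fin 3)) : AA 1 (beta g) = AA 1 g := by
  have h1 : beta = artin 2 0 * (artin 2 1)⁻¹ * (artin 2 0 * (artin 2 1)⁻¹) *
      (artin 2 0 * (artin 2 1)⁻¹) := by
    unfold beta
    rw [pow_succ, pow_succ, pow_one]
  rw [h1]
  simp only [MulAut.mul_apply, AA_artin, AA_artin_inv]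
  have h2 : (1 * Equiv.swap (Fin.castSucc (0 : Fin 2)) (Fin.succ 0) *
      Equiv.swap (Fin.castSucc (1 : Fin 2)) (Fin.succ 1) *
      Equiv.swap (Fin.castSucc (0 : Fin 2)) (Fin.succ 0) *
      Equiv.swap (Fin.castSucc (1 : Fin 2)) (Fin.succ 1) *
      Equiv.swap (Fin.castSucc (0 : Fin 2)) (Fin.succ 0) *
      Equiv.swap (Fin.castSucc (1 : Fin 2)) (Fin.succ 1) : Equiv.Perm (Fin 3)) = 1 := by decide
  rw [h2]

lemma beta_order : OrderPreserving beta := by
  obtain ⟨lt, h1, h2, h3, h4, h5, h6⟩ := exists_biorder (Fin 3) beta.toMonoidHom (fun i => by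
    rw [coeff_one_ms]
    show Multiplicative.toAdd (AA 1 (beta (FreeGroup.of i))) = _
    rw [AA_beta]
    unfold AA
    rw [FreeGroup.lift_apply_of]
    rfl)
  refine ⟨lt, ⟨h1, h2, h3, h4, h5⟩, fun a b => ⟨h6 a b, fun h => ?_⟩⟩
  rcases h3 a b with h7 | h7 | h7
  · exact h7
  · exfalso
    rw [h7] at h
    exact h1 _ h
  · exfalso
    exact h1 _ (h2 _ _ _ h (h6 _ _ h7))

/-! ### The matrix -/

/-- The matrix of `σ₁`. -/
noncomputable def R1 : Matrix (Fin 2) (Fin 2) LL := !![-T 1, -T 1; 0, 1]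

/-- The matrix of `σ₂`. -/
noncomputable def R2 : Matrix (Fin 2) (Fin 2) LL := !![1 - T 1, 1; T 1, 0]

/-- The matrix of `σ₂⁻¹`. -/
noncomputable def R2i : Matrix (Fin 2) (Fin 2) LL := !![0, T (-1); 1, 1 - T (-1)]

lemma ee_zero : ee 2 0 = ![0, 0] := by
  ext i : 1
  fin_cases i <;> rfl

lemma ee_one : ee 2 1 = ![1, 0] := by
  ext i : 1
  fin_cases i <;> rfl

lemma ee_two : ee 2 2 = ![0, 1] := by
  ext i : 1
  fin_cases i <;> rfl

lemma artin_apply (i : Fin 2) (j : Fin 3) : artin 2 i (FreeGroup.of j) =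
    if j = i.castSucc then
      FreeGroup.of i.castSucc * FreeGroup.of i.succ * (FreeGroup.of i.castSucc)⁻¹
    else if j = i.succ then FreeGroup.of i.castSucc else FreeGroup.of j := by
  show artinFun 2 i (FreeGroup.of j) = _
  unfold artinFun
  rw [FreeGroup.lift_apply_of]

lemma wd_artin (i : Fin 2) (j : Fin 3) : wd (artin 2 i (FreeGroup.of j)) = 1 := by
  rw [artin_apply]
  split_ifs
  · simp [wd_mul, wd_inv, wd_of]
  · rw [wd_of]
  · rw [wd_of]

lemma dl_conj_of (a b : Fin 3) :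
    dl (FreeGroup.of a * FreeGroup.of b * (FreeGroup.of a)⁻¹) =
      (1 - T 1 : LL) • ee 2 a + (T 1 : LL) • ee 2 b := by
  rw [dl_mul, dl_mul, wd_mul, wd_of, wd_of, dl_inv, wd_of, dl_of, dl_of, smul_neg, smul_smul,
    ← T_add, sub_smul, one_smul]
  have h : (1 + 1 + -1 : ℤ) = 1 := by norm_num
  rw [h]
  abel

lemma BM_R1 : BM (artin 2 0) R1 := by
  refine BM.of_gen (wd_artin 0) ![T 1, 0] fun j => ?_
  rw [artin_apply, dl_of]
  fin_cases j
  · show dl (FreeGroup.of 0 * FreeGroup.of 1 * (FreeGroup.of 0)⁻¹) - R1 *ᵥ ee 2 0 = _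
    rw [dl_conj_of, ee_zero, ee_one]
    ext i : 1
    fin_cases i <;> simp [R1]
  · show dl (FreeGroup.of 0) - R1 *ᵥ ee 2 1 = _
    rw [dl_of, ee_zero, ee_one]
    ext i : 1
    fin_cases i <;> simp [R1]
  · show dl (FreeGroup.of 2) - R1 *ᵥ ee 2 2 = _
    rw [dl_of, ee_two]
    ext i : 1
    fin_cases i <;> simp [R1]

lemma BM_R2 : BM (artin 2 1) R2 := by
  refine BM.of_gen (wd_artin 1) ![0, 0] fun j => ?_
  rw [artin_apply, dl_of]
  fin_cases j
  · show dl (FreeGroup.of 0) - R2 *ᵥ ee 2 0 = _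
    rw [dl_of, ee_zero]
    ext i : 1
    fin_cases i <;> simp [R2]
  · show dl (FreeGroup.of 1 * FreeGroup.of 2 * (FreeGroup.of 1)⁻¹) - R2 *ᵥ ee 2 1 = _
    rw [dl_conj_of, ee_one, ee_two]
    ext i : 1
    fin_cases i <;> simp [R2]
  · show dl (FreeGroup.of 1) - R2 *ᵥ ee 2 2 = _
    rw [dl_of, ee_one, ee_two]
    ext i : 1
    fin_cases i <;> simp [R2]

lemma mat_one {A : Type} [CommRing A] (t s : A) (h : s * t = 1) :
    (!![0, s; 1, 1 - s] : Matrix (Fin 2) (Fin 2) A) * !![1 - t, 1; t, 0] = 1 := by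
  rw [Matrix.mul_fin_two, Matrix.one_fin_two]
  congr 1
  simp only [Matrix.vecCons]
  ext i j
  fin_cases i <;> fin_cases j <;> simp <;>
    first | linear_combination h | linear_combination (-1 : A) * h

lemma mat_two {A : Type} [CommRing A] (t s : A) :
    (!![-t, -t; 0, 1] : Matrix (Fin 2) (Fin 2) A) * !![0, s; 1, 1 - s] = !![-t, -t; 1, 1 - s] := by
  rw [Matrix.mul_fin_two]
  ext i j
  fin_cases i <;> fin_cases j <;> simp
  ring

lemma mat_three {A : Type} [CommRing A] (t s : A) (h : s * t = 1) :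
    ((!![-t, -t; 1, 1 - s] : Matrix (Fin 2) (Fin 2) A) ^ 3).trace =
      (1 - t - s) ^ 3 - 3 * (1 - t - s) := by
  rw [pow_succ, pow_succ, pow_one, Matrix.mul_fin_two, Matrix.mul_fin_two, Matrix.trace_fin_two_of]
  linear_combination (-3 * (1 - t - s)) * h

lemma R2i_mul : R2i * R2 = 1 := mat_one _ _ (T_neg_mul 1)

/-- The product. -/
noncomputable def PP : Matrix (Fin 2) (Fin 2) LL := !![-T 1, -T 1; 1, 1 - T (-1)]

lemma PP_eq : R1 * R2i = PP := mat_two _ _

lemma BM_pow {φ : MulAut (FreeGroup (Fin 3))} {R : Matrix (Fin 2) (Fin 2) LL} (h : BM φ R) :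
    BM (φ ^ 3) (R ^ 3) := by
  have h3 := (h.mul h).mul h
  rw [pow_succ, pow_succ, pow_one, pow_succ, pow_succ, pow_one]
  exact h3

lemma BM_beta : BM beta (PP ^ 3) := by
  have h : BM (artin 2 0 * (artin 2 1)⁻¹) PP := by
    rw [← PP_eq]
    exact BM_R1.mul (BM_R2.inv R2i_mul)
  exact BM_pow h

lemma det_PP : PP.det = 1 := by
  have h := T_neg_mul 1
  unfold PP
  rw [Matrix.det_fin_two_of]
  linear_combination h

lemma trace_PP : (PP ^ 3).trace = (1 - T 1 - T (-1)) ^ 3 - 3 * (1 - T 1 - T (-1)) :=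
  mat_three _ _ (T_neg_mul 1)

/-! ### The eigenvalues -/

lemma incl_T_one : incl (T 1) = HahnSeries.single 1 1 := by
  unfold incl
  rw [LaurentPolynomial.eval₂_T, zpow_one]
  rfl

lemma incl_T_neg_one : incl (T (-1)) = HahnSeries.single (-1) 1 := by
  unfold incl
  rw [LaurentPolynomial.eval₂_T, _root_.zpow_neg_one]
  rfl

/-- A real-like estimate in an ordered ring. -/
lemma neg_of_root {W : Type} [CommRing W] [LinearOrder W] [IsStrictOrderedRing W] {x y a : W}
    (hx : 0 < x) (hy : 4 < y)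
    (ha : a ^ 2 - ((1 - x - y) ^ 3 - 3 * (1 - x - y)) * a + 1 = 0) : a < 0 := by
  by_contra hcon
  push Not at hcon
  have h1 : 1 - x - y < -3 := by linarith
  set τ := 1 - x - y with hτ
  have h2 : 9 < τ ^ 2 := by nlinarith
  have h3 : τ ^ 3 - 3 * τ < 0 := by nlinarith
  have h4 : (τ ^ 3 - 3 * τ) * a ≤ 0 := mul_nonpos_of_nonpos_of_nonneg h3.le hcon
  have h5 : 0 ≤ a ^ 2 := sq_nonneg a
  linarith

lemma single_pos : (0 : Lex (HahnSeries ℚ ℝ)) < toLex (HahnSeries.single 1 1) := by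
  rw [← HahnSeries.leadingCoeff_pos_iff]
  show 0 < (HahnSeries.single (1 : ℚ) (1 : ℝ)).leadingCoeff
  rw [HahnSeries.leadingCoeff_of_single]
  exact one_pos

lemma coeff_four {j : ℚ} (hj : j < 0) : (4 : HahnSeries ℚ ℝ).coeff j = 0 := by
  have h : (4 : HahnSeries ℚ ℝ) = 1 + 1 + 1 + 1 := by norm_num
  rw [h]
  simp only [HahnSeries.coeff_add, HahnSeries.coeff_one, if_neg hj.ne, add_zero]

lemma four_lt : (4 : Lex (HahnSeries ℚ ℝ)) < toLex (HahnSeries.single (-1) 1) := by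
  rw [HahnSeries.lt_iff]
  refine ⟨-1, fun j hj => ?_, ?_⟩
  · show (4 : HahnSeries ℚ ℝ).coeff j = (HahnSeries.single (-1 : ℚ) (1 : ℝ)).coeff j
    rw [coeff_four (by linarith), HahnSeries.coeff_single_of_ne hj.ne]
  · show (4 : HahnSeries ℚ ℝ).coeff (-1) < (HahnSeries.single (-1 : ℚ) (1 : ℝ)).coeff (-1)
    rw [coeff_four (by norm_num), HahnSeries.coeff_single_same]
    exact one_pos

theorem root_neg {a : HahnSeries ℚ ℝ} (ha : IsEigenvalue (PP ^ 3) a) :
    a.leadingCoeff < 0 := by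
  unfold IsEigenvalue at ha
  rw [Matrix.charpoly_fin_two, Polynomial.IsRoot.def, Polynomial.eval_map] at ha
  rw [trace_PP, Matrix.det_pow, det_PP, one_pow, map_one] at ha
  simp only [Polynomial.eval₂_add, Polynomial.eval₂_sub, Polynomial.eval₂_mul, Polynomial.eval₂_pow,
    Polynomial.eval₂_X, Polynomial.eval₂_C, Polynomial.eval₂_one, map_sub, map_mul, map_pow, map_one,
    incl_T_one, incl_T_neg_one, map_ofNat, Polynomial.eval₂_ofNat] at ha
  have h : toLex a < (0 : Lex (HahnSeries ℚ ℝ)) := by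
    refine neg_of_root single_pos four_lt ?_
    exact ha
  rw [← HahnSeries.leadingCoeff_neg_iff] at h
  exact h

end Q182.BO
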