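import Mathlib

/-!
# Subgroups of compact groups are totally bounded
-/

namespace Q182

open Filter Topology Set Pointwise

/-- If the topology of `X` is induced by a homomorphism into a compact group, then `X` is totally
bounded. -/
theorem totally_bounded_of_inducing {X K : Type*} [AddCommGroup X] [TopologicalSpace X]
    [AddCommGroup K] [TopologicalSpace K] [IsTopologicalAddGroup K] [CompactSpace K]
    (f : X →+ K) (hf : IsInducing f) {U : Set X} (hU : U ∈ 𝓝 (0 : X)) :
    ∃ E : Set X, E.Finite ∧ U + E = univ := by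
  classical
  rw [hf.nhds_eq_comap, map_zero, mem_comap] at hU
  obtain ⟨V, hV, hVU⟩ := hU
  obtain ⟨W, hW, hWV⟩ : ∃ W ∈ 𝓝 (0 : K), ∀ v ∈ W, ∀ w ∈ W, v - w ∈ V := by
    have h1 : (fun p : K × K => p.1 - p.2) ⁻¹' V ∈ 𝓝 ((0 : K), (0 : K)) := by
      have hc : Continuous (fun p : K × K => p.1 - p.2) := by fun_prop
      apply hc.continuousAt.preimage_mem_nhds
      simpa using hV
    rw [nhds_prod_eq, Filter.mem_prod_same_iff] at h1
    obtain ⟨W, hW, h2⟩ := h1
    exact ⟨W, hW, fun v hv w hw => h2 (mk_mem_prod hv hw)⟩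
  obtain ⟨t, ht⟩ := CompactSpace.elim_nhds_subcover (fun k : K => (fun z => z - k) ⁻¹' W) (fun k => by
    have hc : Continuous (fun z : K => z - k) := by fun_prop
    apply hc.continuousAt.preimage_mem_nhds
    simpa using hW)
  let g : K → X := fun k => if h : ∃ x, f x - k ∈ W then h.choose else 0
  refine ⟨g '' t, t.finite_toSet.image g, ?_⟩
  rw [eq_univ_iff_forall]
  intro x
  have hx : f x ∈ ⋃ k ∈ t, (fun z => z - k) ⁻¹' W := by
    rw [ht]
    trivial
  obtain ⟨k, hk, hxk⟩ := mem_iUnion₂.1 hx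
  have hex : ∃ x, f x - k ∈ W := ⟨x, hxk⟩
  have hgk : f (g k) - k ∈ W := by
    have : g k = hex.choose := dif_pos hex
    rw [this]
    exact hex.choose_spec
  refine mem_add.2 ⟨x - g k, hVU ?_, g k, ⟨k, hk, rfl⟩, by abel⟩
  have h3 := hWV _ hxk _ hgk
  show f (x - g k) ∈ V
  rw [map_sub]
  simpa using h3

end Q182
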