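import Mathlib
import Pool.Agent.Q182.TotBdd

/-!
# Reflexive groups and the countable Boolean group with its Bohr topology
-/

namespace Q182.Bohr

open Filter Topology Set Pointwise

universe u

/-- The evaluation `χ ↦ χ g` as a continuous character of the character group of `G` (which
carries the compact-open topology). -/
def evalChar {G : Type u} [AddCommGroup G] [TopologicalSpace G] (g : G) :
    (G →ₜ+ UnitAddCircle) →ₜ+ UnitAddCircle where
  toFun χ := χ g
  map_zero' := rfl
  map_add' _ _ := rfl
  continuous_toFun := by
    have h1 : Continuous (fun f : C(G, UnitAddCircle) => f g) := continuous_eval_const g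
    exact h1.comp (ContinuousAddMonoidHom.isInducing_toContinuousMap G UnitAddCircle).continuous

/-- `G` is (Pontryagin) reflexive: the evaluation homomorphism `α_G : G → G^∧∧` is a
homeomorphism, where dual groups carry the compact-open topology. -/
def IsReflexive (G : Type u) [AddCommGroup G] [TopologicalSpace G] : Prop :=
  IsHomeomorph (evalChar : G → ((G →ₜ+ UnitAddCircle) →ₜ+ UnitAddCircle))

/-- `G` is precompact: for every neighbourhood `U` of `0` there is a finite set `F` with
`F + U = G`. -/
def IsPrecompactGroup (G : Type u) [AddCommGroup G] [TopologicalSpace G] : Prop :=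
  ∀ U ∈ 𝓝 (0 : G), ∃ F : Set G, F.Finite ∧ F + U = univ

/-- The underlying group of the example. -/
def H : Type := ℕ →₀ ZMod 2

noncomputable instance : AddCommGroup H := inferInstanceAs (AddCommGroup (ℕ →₀ ZMod 2))

noncomputable instance : Module (ZMod 2) H := inferInstanceAs (Module (ZMod 2) (ℕ →₀ ZMod 2))

/-- The evaluation map of `H` into a product of copies of `ℤ/2`. -/
noncomputable def ev : H →+ ((H →+ ZMod 2) → ZMod 2) where
  toFun x χ := χ x
  map_zero' := by
    funext χ
    exact map_zero χ
  map_add' x y := by
    funext χ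
    exact map_add χ x y

noncomputable instance : TopologicalSpace H := TopologicalSpace.induced ev inferInstance

lemma inducing_ev : IsInducing ev := ⟨rfl⟩

instance : IsTopologicalAddGroup H := topologicalAddGroup_induced ev

/-- The `n`-th coordinate. -/
noncomputable def coord (n : ℕ) : H →+ ZMod 2 := Finsupp.applyAddHom n

lemma coord_apply (n : ℕ) (x : H) : coord n x = (show ℕ →₀ ZMod 2 from x) n := rfl

lemma ev_injective : Function.Injective ev := by
  rw [injective_iff_map_eq_zero]
  intro x hx
  have h : ∀ n, coord n x = 0 := fun n => congrFun hx (coord n)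
  exact Finsupp.ext h

instance : T2Space H := T2Space.of_injective_continuous ev_injective inducing_ev.continuous

lemma continuous_hom (χ : H →+ ZMod 2) : Continuous χ :=
  (continuous_apply χ).comp inducing_ev.continuous

lemma precompact_H : IsPrecompactGroup H := by
  intro U hU
  obtain ⟨E, hE, h⟩ := totally_bounded_of_inducing ev inducing_ev hU
  exact ⟨E, hE, by rw [add_comm]; exact h⟩

/-- Compact subsets of `H` are finite. -/
lemma finite_of_isCompact {C : Set H} (hC : IsCompact C) : C.Finite := by
  classical
  obtain ⟨b, hbC, hbs, hb0⟩ := exists_linearIndependent (ZMod 2) C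
  have hb : LinearIndepOn (ZMod 2) id b := hb0
  -- it is enough that `b` is finite
  suffices hfin : b.Finite by
    have h1 : (Submodule.span (ZMod 2) b : Set H).Finite := by
      have : Module.Finite (ZMod 2) (Submodule.span (ZMod 2) b) :=
        Module.Finite.span_of_finite (ZMod 2) hfin
      have : Finite (Submodule.span (ZMod 2) b) := Module.finite_of_finite (ZMod 2)
      exact Set.toFinite _
    refine h1.subset ?_
    rw [hbs]
    exact Submodule.subset_span
  -- a neighbourhood of each point containing finitely many points of `b`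
  have hnh : ∀ x : H, ∃ U : Set H, IsOpen U ∧ x ∈ U ∧ (U ∩ b).Finite := by
    intro x
    let B := Module.Basis.extend hb
    let f : (hb.extend (subset_univ b)) → ZMod 2 := fun e => if e ∈ (B.repr x).support then 0 else 1
    let χ : H →ₗ[ZMod 2] ZMod 2 := B.constr (ZMod 2) f
    refine ⟨(fun z => χ.toAddMonoidHom z) ⁻¹' {0},
      (isOpen_discrete _).preimage (continuous_hom χ.toAddMonoidHom), ?_, ?_⟩
    · show χ x = 0
      rw [Module.Basis.constr_apply]
      apply Finset.sum_eq_zero
      intro e he
      simp only [f, if_pos he, smul_zero]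
    · have hs : ((B.repr x).support.image (fun e => e.1) : Set H).Finite := by
        exact Finset.finite_toSet _
      refine hs.subset ?_
      rintro y ⟨hy1, hy2⟩
      have hy3 : y ∈ hb.extend (subset_univ b) := hb.subset_extend _ hy2
      have h1 : χ (B ⟨y, hy3⟩) = f ⟨y, hy3⟩ := Module.Basis.constr_basis _ _ _ _
      have h2 : B ⟨y, hy3⟩ = y := Module.Basis.extend_apply_self hb ⟨y, hy3⟩
      rw [h2] at h1
      have h3 : χ y = 0 := hy1
      rw [h3] at h1
      by_contra h4
      have h5 : (⟨y, hy3⟩ : hb.extend (subset_univ b)) ∉ (B.repr x).support := by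
        intro h6
        apply h4
        exact Finset.mem_coe.2 (Finset.mem_image_of_mem (fun e => e.1) h6)
      simp only [f, if_neg h5] at h1
      exact absurd h1 (by decide)
  choose U hU hxU hUb using hnh
  obtain ⟨t, ht⟩ := hC.elim_finite_subcover U hU (fun x _ => mem_iUnion.2 ⟨x, hxU x⟩)
  have h1 : b ⊆ ⋃ x ∈ t, (U x ∩ b) := by
    intro y hy
    obtain ⟨x, hx, hyx⟩ := mem_iUnion₂.1 (ht (hbC hy))
    exact mem_iUnion₂.2 ⟨x, hx, hyx, hy⟩
  exact (t.finite_toSet.biUnion fun x _ => hUb x).subset h1

/-- The homomorphism `ℤ/2 → 𝕋`. -/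
noncomputable def half : ZMod 2 →+ UnitAddCircle := ZMod.toAddCircle (N := 2)

lemma half_injective : Function.Injective half := ZMod.toAddCircle_injective 2

/-- Elements of order two of the circle. -/
def T2 : Set UnitAddCircle := {t | (2 : ℕ) • t = 0 ∧ t ≠ 0}

lemma finite_T2 : T2.Finite :=
  (AddCircle.finite_torsion (1 : ℝ) (n := 2) (by norm_num)).subset fun _ h => h.1

lemma half_notMem_iff (z : ZMod 2) : half z ∉ T2 ↔ z = 0 := by
  constructor
  · intro h
    by_contra hz
    apply h
    refine ⟨?_, fun h0 => hz (half_injective (by rw [h0, map_zero]))⟩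
    rw [← map_nsmul]
    have : (2 : ℕ) • z = 0 := by
      rw [two_nsmul]
      exact CharTwo.add_self_eq_zero z
    rw [this, map_zero]
  · rintro rfl h
    exact h.2 (map_zero half)

lemma coord_eventually' (y : ℕ →₀ ZMod 2) : ∀ᶠ n in atTop, y n = 0 := by
  filter_upwards [eventually_gt_atTop (y.support.sup id)] with n hn
  by_contra h
  have := Finset.le_sup (f := id) (Finsupp.mem_support_iff.2 h)
  simp only [id] at this
  omega

lemma coord_eventually (x : H) : ∀ᶠ n in atTop, coord n x = 0 := coord_eventually' x

lemma infinite_H : Infinite H := inferInstanceAs (Infinite (ℕ →₀ ZMod 2))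

/-- No reflexive precompact group admits a continuous homomorphism onto `H`. -/
theorem no_reflexive (G : Type u) [AddCommGroup G] [TopologicalSpace G] [IsTopologicalAddGroup G]
    (hG : IsPrecompactGroup G) (hr : IsReflexive G) (f : G →+ H) (hf : Continuous f) :
    ¬ Function.Surjective f := by
  intro hsurj
  -- the characters `b n ∘ f`
  let b : ℕ → (G →ₜ+ UnitAddCircle) := fun n =>
    ⟨half.comp ((coord n).comp f), (continuous_of_discreteTopology (f := half)).comp
      ((continuous_hom (coord n)).comp hf)⟩
  have hb_apply : ∀ n g, b n g = half (coord n (f g)) := fun _ _ => rfl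
  have hlim : Tendsto b atTop (𝓝 0) := by
    rw [(ContinuousAddMonoidHom.isInducing_toContinuousMap G UnitAddCircle).nhds_eq_comap,
      tendsto_comap_iff, ContinuousMap.tendsto_nhds_compactOpen]
    intro K hK U hU hKU
    have hfin := finite_of_isCompact (hK.image hf)
    have h1 : ∀ x ∈ f '' K, ∀ᶠ n in atTop, coord n x = 0 := by
      intro x _
      exact coord_eventually x
    filter_upwards [(Set.Finite.eventually_all hfin).2 h1] with n hn
    intro g hg
    have h0 : (0 : UnitAddCircle) ∈ U := hKU hg
    have h2 : b n g = 0 := by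
      rw [hb_apply, hn (f g) ⟨g, hg, rfl⟩, map_zero]
    show b n g ∈ U
    rw [h2]
    exact h0
  have hcomp : IsCompact (insert 0 (range b)) := hlim.isCompact_insert_range
  -- the corresponding neighbourhood in the bidual
  have hW : IsOpen {Φ : (G →ₜ+ UnitAddCircle) →ₜ+ UnitAddCircle |
      MapsTo Φ (insert 0 (range b)) T2ᶜ} := by
    have := ContinuousMap.isOpen_setOfPred_mapsTo hcomp finite_T2.isClosed.isOpen_compl
    exact this.preimage (ContinuousAddMonoidHom.isInducing_toContinuousMap _ UnitAddCircle).continuous
  have hker : {g : G | f g = 0} ∈ 𝓝 (0 : G) := by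
    have h1 : IsOpen (evalChar ⁻¹' {Φ : (G →ₜ+ UnitAddCircle) →ₜ+ UnitAddCircle |
      MapsTo Φ (insert 0 (range b)) T2ᶜ}) := hW.preimage hr.continuous
    have h2 : (evalChar ⁻¹' {Φ : (G →ₜ+ UnitAddCircle) →ₜ+ UnitAddCircle |
      MapsTo Φ (insert 0 (range b)) T2ᶜ}) = {g : G | f g = 0} := by
      ext g
      constructor
      · intro h
        have h3 : ∀ n, coord n (f g) = 0 := by
          intro n
          have h4 : b n g ∉ T2 := h (mem_insert_of_mem _ ⟨n, rfl⟩)
          rw [hb_apply] at h4
          exact (half_notMem_iff _).1 h4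
        exact Finsupp.ext h3
      · rintro h χ (rfl | ⟨n, rfl⟩)
        · exact fun h4 => h4.2 rfl
        · show b n g ∉ T2
          have h' : f g = 0 := h
          rw [hb_apply, h', map_zero, map_zero]
          exact fun h4 => h4.2 rfl
    rw [h2] at h1
    exact h1.mem_nhds (map_zero f)
  obtain ⟨F, hF, hFU⟩ := hG _ hker
  have h1 : (univ : Set H) ⊆ f '' F := by
    intro x _
    obtain ⟨g, rfl⟩ := hsurj x
    have h2 : g ∈ F + {g : G | f g = 0} := by
      rw [hFU]
      trivial
    obtain ⟨a, ha, c, hc, rfl⟩ := mem_add.1 h2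
    refine ⟨a, ha, ?_⟩
    have hc' : f c = 0 := hc
    rw [map_add, hc', add_zero]
  have := infinite_H
  exact Set.infinite_univ ((hF.image f).subset h1)

end Q182.Bohr
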