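import Mathlib

/-!
# A well-order of length the bounding number, with a monotone cofinal map from `ω^ω`
-/

namespace Q182.Bounding

open Set Cardinal Filter

/-- Eventual domination. -/
def Dom (f g : ℕ → ℕ) : Prop := ∀ᶠ n in atTop, f n ≤ g n

lemma Dom.refl (f : ℕ → ℕ) : Dom f f := Eventually.of_forall fun _ => le_rfl

lemma Dom.trans {f g h : ℕ → ℕ} (h1 : Dom f g) (h2 : Dom g h) : Dom f h := by
  filter_upwards [h1, h2] with n a b using a.trans b

/-- Unbounded families. -/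
def Unb (S : Set (ℕ → ℕ)) : Prop := ∀ g, ∃ f ∈ S, ¬ Dom f g

lemma unb_univ : Unb univ := by
  intro g
  refine ⟨fun n => g n + 1, trivial, fun h => ?_⟩
  obtain ⟨n, hn⟩ := h.exists
  have hn' : g n + 1 ≤ g n := hn
  omega

/-- Countable families are bounded. -/
lemma not_unb_of_countable {S : Set (ℕ → ℕ)} (hS : S.Countable) : ¬ Unb S := by
  intro h
  rcases S.eq_empty_or_nonempty with rfl | hne
  · obtain ⟨f, hf, -⟩ := h 0
    exact hf
  · obtain ⟨s, rfl⟩ := hS.exists_eq_range hne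
    obtain ⟨_, ⟨k, rfl⟩, hk⟩ := h (fun n => (Finset.range (n + 1)).sup (fun i => s i n))
    apply hk
    filter_upwards [eventually_ge_atTop k] with n hn
    exact Finset.le_sup (f := fun i => s i n) (Finset.mem_range.2 (by omega))

/-- The bounding number. -/
noncomputable def bb : Cardinal.{0} := sInf {c | ∃ S : Set (ℕ → ℕ), #S = c ∧ Unb S}

lemma bb_spec : ∃ S : Set (ℕ → ℕ), #S = bb ∧ Unb S :=
  csInf_mem (s := {c : Cardinal.{0} | ∃ S : Set (ℕ → ℕ), #S = c ∧ Unb S}) ⟨_, univ, rfl, unb_univ⟩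

lemma not_unb_of_lt {S : Set (ℕ → ℕ)} (hS : #S < bb) : ¬ Unb S := by
  intro h
  exact absurd (csInf_le' (show #S ∈ {c : Cardinal.{0} | ∃ S : Set (ℕ → ℕ), #S = c ∧ Unb S} from
    ⟨S, rfl, h⟩)) (not_le.2 hS)

lemma aleph0_lt_bb : ℵ₀ < bb := by
  obtain ⟨S, hS, hu⟩ := bb_spec
  by_contra hcon
  rw [← hS, not_lt] at hcon
  exact not_unb_of_countable (le_aleph0_iff_set_countable.1 hcon) hu

/-- The well-order. -/
abbrev TB : Type := bb.ord.ToType

lemma mk_TB : #TB = bb := by rw [mk_toType, card_ord]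

lemma mk_Iio_lt (a : TB) : #(Iio a) < bb := by
  have h := Cardinal.mk_Iio_lt a (by
    rw [mk_TB]
    exact (Ordinal.type_toType bb.ord).symm)
  rwa [mk_TB] at h

lemma mk_Iic_lt (a : TB) : #(Iic a) < #TB := by
  rw [mk_TB]
  have h1 : (Iic a : Set TB) ⊆ insert a (Iio a) := by
    intro b hb
    rcases eq_or_lt_of_le (mem_Iic.1 hb) with h | h
    · left; exact h
    · right; exact h
  refine (mk_le_mk_of_subset h1).trans_lt (mk_insert_le.trans_lt ?_)
  rcases lt_or_ge (#(Iio a)) ℵ₀ with h | h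
  · exact (add_lt_aleph0 h one_lt_aleph0).trans aleph0_lt_bb
  · rw [add_one_eq h]
    exact mk_Iio_lt a

/-- An increasing unbounded family indexed by `TB`. -/
lemma exists_family : ∃ f : TB → (ℕ → ℕ), (∀ a b, a ≤ b → Dom (f a) (f b)) ∧ Unb (range f) := by
  classical
  obtain ⟨S, hS, hu⟩ := bb_spec
  obtain ⟨e⟩ : Nonempty (TB ≃ S) := Cardinal.eq.1 (by rw [mk_TB, hS])
  have hext : ∀ (a : TB) (F : (b : TB) → b < a → (ℕ → ℕ)),
      ∃ g : ℕ → ℕ, (∀ b (hb : b < a), Dom (F b hb) g) ∧ Dom (e a).1 g := by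
    intro a F
    let A : Set (ℕ → ℕ) := insert (e a).1 (range (fun b : Iio a => F b.1 b.2))
    have hA : #A < bb := by
      refine mk_insert_le.trans_lt ?_
      have h1 : #(range (fun b : Iio a => F b.1 b.2)) < bb := mk_range_le.trans_lt (mk_Iio_lt a)
      rcases lt_or_ge (#(range (fun b : Iio a => F b.1 b.2))) ℵ₀ with h | h
      · exact (add_lt_aleph0 h one_lt_aleph0).trans aleph0_lt_bb
      · rw [add_one_eq h]
        exact h1
    have h2 := not_unb_of_lt hA
    simp only [Unb, not_forall, not_exists, not_and, not_not] at h2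
    obtain ⟨g, hg⟩ := h2
    exact ⟨g, fun b hb => hg _ (mem_insert_of_mem _ ⟨⟨b, hb⟩, rfl⟩), hg _ (mem_insert _ _)⟩
  let f : TB → (ℕ → ℕ) := WellFounded.fix (wellFounded_lt : WellFounded ((· < ·) : TB → TB → Prop))
    (fun a F => (hext a F).choose)
  have hf : ∀ a, f a = (hext a (fun b _ => f b)).choose := fun a =>
    WellFounded.fix_eq _ _ a
  have hf1 : ∀ a b, a < b → Dom (f a) (f b) := by
    intro a b hab
    rw [hf b]
    exact (hext b (fun b _ => f b)).choose_spec.1 a hab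
  have hf2 : ∀ a, Dom (e a).1 (f a) := by
    intro a
    rw [hf a]
    exact (hext a (fun b _ => f b)).choose_spec.2
  refine ⟨f, ?_, ?_⟩
  · intro a b hab
    rcases eq_or_lt_of_le hab with rfl | h
    · exact Dom.refl _
    · exact hf1 a b h
  · intro g
    obtain ⟨s, hs, hsg⟩ := hu g
    obtain ⟨a, ha⟩ := e.surjective ⟨s, hs⟩
    refine ⟨f a, ⟨a, rfl⟩, fun h => hsg ?_⟩
    have h1 := hf2 a
    rw [ha] at h1
    exact h1.trans h

lemma bounded (A : Set TB) (hA : #A < #TB) : ∃ b, ∀ a ∈ A, a < b := by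
  obtain ⟨f, hf, hu⟩ := exists_family
  by_contra hcon
  push Not at hcon
  have h1 : #(f '' A) < bb := by
    rw [← mk_TB]
    exact mk_image_le.trans_lt hA
  apply not_unb_of_lt h1
  intro g
  obtain ⟨_, ⟨b, rfl⟩, hb⟩ := hu g
  obtain ⟨a, ha, hab⟩ := hcon b
  exact ⟨f a, ⟨a, ha, rfl⟩, fun h => hb ((hf b a hab).trans h)⟩

/-- There is a monotone cofinal map from `ω^ω` (with the pointwise order) to `TB`. -/
lemma exists_cofinal : ∃ φ : (ℕ → ℕ) → TB, Monotone φ ∧ ∀ a, ∃ g, a < φ g := by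
  obtain ⟨f, hf, hu⟩ := exists_family
  have hne : ∀ g : ℕ → ℕ, {a | ¬ Dom (f a) g}.Nonempty := by
    intro g
    obtain ⟨_, ⟨b, rfl⟩, hb⟩ := hu g
    exact ⟨b, hb⟩
  let W : WellFounded ((· < ·) : TB → TB → Prop) := wellFounded_lt
  refine ⟨fun g => W.min _ (hne g), ?_, ?_⟩
  · intro g g' hgg
    by_contra hcon
    rw [not_le] at hcon
    have h1 := W.min_mem _ (hne g')
    apply W.not_lt_min {a | ¬ Dom (f a) g} (x := W.min _ (hne g')) _ hcon
    intro h2
    exact h1 (h2.trans (Eventually.of_forall hgg))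
  · intro a
    refine ⟨f a, ?_⟩
    by_contra hcon
    rw [not_lt] at hcon
    exact W.min_mem _ (hne (f a)) (hf _ _ hcon)

end Q182.Bounding
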