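import Pool.Agent.Q182.BtMain

/-!
# Closure properties of the class `P R`
-/

set_option autoImplicit false

namespace Q182.Bt

open SimpleGraph
open Pool.Agent.Helper270.Tree
open Pool.Agent.TH107.LB

universe u w

variable {R : Type u} [CommRing R]

/-- change of the ring -/
theorem Rel.mono {R' : Type w} [CommRing R'] (φ : R →+* R')
    {m p : ℕ} (h : Rel R' m p) : Rel R m p := by
  rcases h with h | ⟨h1, h2⟩
  · refine Or.inl fun hu => h ?_
    have h3 := hu.map φ
    rwa [map_natCast] at h3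
  · refine Or.inr ⟨⟨fun a b hab => ?_⟩, h2⟩
    have h3 : φ (a : R) = φ (b : R) := congrArg φ hab
    rw [map_natCast, map_natCast] at h3
    exact h1.cast_injective h3

theorem P.mono {R' : Type w} [CommRing R'] (φ : R →+* R') {G : Type} [Group G] (h : P R' G) : P R G := by
  intro m hm b ⟨N, h1, h2⟩
  exact h m hm b ⟨N, h1, fun p hp hr => h2 p hp (Rel.mono φ hr)⟩

/-- powers of a chain in a subgroup -/
theorem P.of_pow {G : Type} [Group G] (H : Subgroup G) (h : P R H) {m : ℕ} (hm : 0 < m)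
    {b : ℕ → G} (hb : Chain R m b) {s : ℕ} (hs : 0 < s) (hsH : ∀ i, b i ^ s ∈ H) :
    ∃ s : ℕ, 0 < s ∧ b 0 ^ s = 1 := by
  obtain ⟨t, ht, h1⟩ := h m hm _ (hb.pow H s hsH)
  refine ⟨s * t, Nat.mul_pos hs ht, ?_⟩
  rw [pow_mul]
  exact congrArg Subtype.val h1

theorem P.fi {G : Type} [Group G] (H : Subgroup G) (hH : H.FiniteIndex) (h : P R H) :
    P R G := by
  intro m hm b hb
  have hCfi : H.normalCore.FiniteIndex := inferInstance
  exact h.of_pow H hm hb (Nat.pos_of_ne_zero hCfi.index_ne_zero)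
    fun i => H.normalCore_le (H.normalCore.pow_index_mem _)

theorem P.ext {G Q : Type} [Group G] [Group Q] (f : G →* Q) (hQ : W R Q)
    (hK : P R f.ker) : P R G := by
  intro m hm b hb
  obtain ⟨s, hs, h1⟩ := hQ m hm _ (hb.map f)
  refine hK.of_pow f.ker hm hb hs fun i => ?_
  rw [MonoidHom.mem_ker, map_pow]
  exact h1 i

theorem P.detect {G : Type} [Group G] (h : ∀ g : G, (∀ s : ℕ, 0 < s → g ^ s ≠ 1) →
    ∃ (Q : Type) (_ : Group Q) (f : G →* Q), P R Q ∧ ∀ s : ℕ, 0 < s → f g ^ s ≠ 1) : P R G := by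
  intro m hm b hb
  by_contra hinf
  push Not at hinf
  obtain ⟨Q, _, f, hQ, hf⟩ := h (b 0) hinf
  obtain ⟨s, hs, h1⟩ := hQ m hm _ (hb.map f)
  exact hf s hs h1

/-- local groups satisfy the Bass trace conjecture -/
theorem bass_of_local_p [IsDomain R] {G : Type} [Group G]
    (h : ∀ H : Subgroup G, H.FG → P R H) :
    ∀ (k : ℕ) (A : Matrix (Fin k) (Fin k) (MonoidAlgebra R G)), A * A = A →
      ∀ g : G, ¬ IsUnit ((orderOf g : ℕ) : R) →
        ∑ i : Fin k, ∑ᶠ (h : G) (_ : IsConj h g), (A i i).coeff h = 0 := by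
  intro k A hA g hg
  exact Pool.Agent.H26R2.Bass.bass_of_local (fun H hH x hx => good_of_P (h H hH) x hx) A hA g hg

variable {G V : Type} [Group G] [MulAction G V] {T : SimpleGraph V}

/-- the property passes from one vertex stabilizer to the commensurable ones -/
theorem P.commens (hT : T.IsTree)
    (hidx : ∀ v w : V, T.Adj v w → (MulAction.stabilizer G w).relIndex
      (MulAction.stabilizer G v) ≠ 0) (v₀ : V) (h : P R (MulAction.stabilizer G v₀)) (v : V) :
    P R (MulAction.stabilizer G v) := by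
  obtain ⟨p⟩ := hT.connected.preconnected v₀ v
  induction p with
  | nil => exact h
  | @cons a b c hab q ih =>
    apply ih
    have h1 : (((MulAction.stabilizer G a).subgroupOf (MulAction.stabilizer G b))).FiniteIndex :=
      ⟨hidx b a hab.symm⟩
    apply P.fi _ h1
    let j : ((MulAction.stabilizer G a).subgroupOf (MulAction.stabilizer G b)) →*
        MulAction.stabilizer G a :=
      { toFun := fun x => ⟨x.1.1, x.2⟩
        map_one' := rfl
        map_mul' := fun x y => rfl }
    apply P.sub j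
    · intro x y hxy
      have h3 : ((j x : MulAction.stabilizer G a) : G) = ((j y : MulAction.stabilizer G a) : G) :=
        congrArg Subtype.val hxy
      exact Subtype.ext (Subtype.ext h3)
    · exact h

/-- bounded indices -/
theorem tame_of_index (B : ℕ) (hB : IsUnit ((B.factorial : ℕ) : R))
    (hidx : ∀ v w : V, T.Adj v w → (MulAction.stabilizer G w).relIndex
      (MulAction.stabilizer G v) ≠ 0 ∧ (MulAction.stabilizer G w).relIndex
      (MulAction.stabilizer G v) ≤ B) : Tame R G T := by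
  intro ρ hρ
  refine ⟨B.factorial, hB, fun n g _ h1 _ => ?_⟩
  obtain ⟨h2, h3⟩ := hidx (ρ (n + 1)) (ρ n) (hρ.1 n).symm
  have h4 : g ∈ MulAction.stabilizer G (ρ (n + 1)) := h1 _ (by omega)
  obtain ⟨e, he1, he2, he3⟩ := Subgroup.exists_pow_mem_of_relIndex_ne_zero h2 h4
  obtain ⟨f, hf⟩ : e ∣ B.factorial := Nat.dvd_factorial he1 (he2.trans h3)
  have h5 : g ^ e ∈ MulAction.stabilizer G (ρ n) := he3.1
  rw [hf, pow_mul]
  exact (MulAction.stabilizer G (ρ n)).pow_mem h5 f

end Q182.Bt
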