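import Pool.Agent.Q182.BtRay
import Pool.Agent.TH107.LB.W

/-!
# The Bass trace conjecture for groups acting on trees
-/

set_option autoImplicit false

namespace Q182.Bt

open SimpleGraph
open Pool.Agent.Helper270.Tree
open Pool.Agent.TH107.LB
open Pool.Agent.H26R2.Bass (Good)
open Pool.Agent.H26R2.IdemLI (AlmostDiv)

universe u

/-- no element of infinite order starts a chain of roots prescribed by `R` -/
def P (R : Type u) [CommRing R] (G : Type) [Group G] : Prop :=
  ∀ m : ℕ, 0 < m → ∀ b : ℕ → G, Chain R m b → ∃ s : ℕ, 0 < s ∧ b 0 ^ s = 1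

variable {R : Type u} [CommRing R]

theorem P.of_W {G : Type} [Group G] (h : W R G) : P R G := by
  intro m hm b hb
  obtain ⟨s, hs, h1⟩ := h m hm b hb
  exact ⟨s, hs, h1 0⟩

theorem P.sub {G H : Type} [Group G] [Group H] (f : H →* G)
    (hf : Function.Injective f) (hG : P R G) : P R H := by
  intro m hm b hb
  obtain ⟨s, hs, h⟩ := hG m hm _ (hb.map f)
  refine ⟨s, hs, hf ?_⟩
  rw [map_pow, map_one]
  exact h

theorem good_of_P [IsDomain R] {G : Type} [Group G] (hG : P R G) (g : G)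
    (hg : ¬ ∃ n : ℕ, 0 < n ∧ g ^ n = 1) : Good R g := by
  by_cases h1 : ∃ p : ℕ, p.Prime ∧ ¬ IsUnit (p : R) ∧ ∀ j : ℕ, 1 ≤ j → ¬ IsConj g (g ^ p ^ j)
  · exact Or.inr (Or.inl h1)
  by_cases h2 : CharZero R ∧ ¬ AlmostDiv g
  · exact Or.inr (Or.inr h2)
  exfalso
  apply hg
  push Not at h1
  have key : ∃ m : ℕ, 0 < m ∧ ∀ p : ℕ, p.Prime → Rel R m p →
      ∃ j : ℕ, 1 ≤ j ∧ IsConj g (g ^ p ^ j) := by
    by_cases h0 : CharZero R
    · have h3 : AlmostDiv g := by
        by_contra h3
        exact h2 ⟨h0, h3⟩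
      obtain ⟨m, J, hm, hJ, h4⟩ := h3
      refine ⟨m, by omega, ?_⟩
      rintro p hp (hr | ⟨_, hr⟩)
      · exact h1 p hp hr
      · exact ⟨J, hJ, h4 p ((Nat.Prime.coprime_iff_not_dvd hp).2 hr)⟩
    · refine ⟨1, one_pos, ?_⟩
      rintro p hp (hr | ⟨hr, _⟩)
      · exact h1 p hp hr
      · exact absurd hr h0
  obtain ⟨m, hm, h3⟩ := key
  obtain ⟨b, hb0, hb⟩ := chain_of_conj g h3
  obtain ⟨s, hs, h4⟩ := hG m hm b hb
  exact ⟨s, hs, by rw [← hb0]; exact h4⟩

/-- there is always a relevant prime -/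
theorem exists_rel [IsDomain R] {m : ℕ} (hm : 0 < m) : ∃ p : ℕ, p.Prime ∧ Rel R m p := by
  obtain ⟨q, hq⟩ := CharP.exists R
  rcases CharP.char_is_prime_or_zero R q with h | h
  · refine ⟨q, h, Or.inl ?_⟩
    rw [CharP.cast_eq_zero R q]
    exact not_isUnit_zero
  · subst h
    have hc : CharZero R := CharP.charP_to_charZero R
    obtain ⟨p, hp1, hp2⟩ := Nat.exists_infinite_primes (m + 1)
    exact ⟨p, hp2, Or.inr ⟨hc, fun h => absurd (Nat.le_of_dvd hm h) (by omega)⟩⟩

/-- the first member of a chain is a high power of a later one -/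
theorem Chain.high [IsDomain R] {m : ℕ} (hm : 0 < m) {G : Type} [Group G] {b : ℕ → G}
    (h : Chain R m b) (i B : ℕ) : ∃ k c : ℕ, B ≤ c ∧ b k ^ c = b i ∨ b i = 1 := by
  obtain ⟨p, hp, hr⟩ := exists_rel (R := R) hm
  obtain ⟨c, k, hk⟩ := h.root hp hr i B
  rcases Nat.eq_zero_or_pos c with rfl | hc
  · refine ⟨0, 0, Or.inr ?_⟩
    rw [← hk, Nat.mul_zero, pow_zero]
  · refine ⟨k, p ^ B * c, Or.inl ⟨?_, hk⟩⟩
    calc B ≤ 2 ^ B := Nat.lt_two_pow_self.le
      _ ≤ p ^ B := Nat.pow_le_pow_left hp.two_le B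
      _ = p ^ B * 1 := (mul_one _).symm
      _ ≤ p ^ B * c := Nat.mul_le_mul_left _ hc

variable {G V : Type} [Group G] [MulAction G V] {T : SimpleGraph V}

/-- the members of a chain have fixed vertices -/
theorem Chain.elliptic [IsDomain R] (hT : TreeAct G T) {m : ℕ} (hm : 0 < m) {b : ℕ → G}
    (h : Chain R m b) (i : ℕ) : ∃ v : V, b i • v = v := by
  by_contra hcon
  push Not at hcon
  obtain ⟨v⟩ := hT.isTree.connected.nonempty
  obtain ⟨k, c, ⟨hc, hk⟩ | h1⟩ := Chain.high hm h i (T.dist v (b i • v) + 1)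
  · have h2 : ∀ w : V, b k • w ≠ w := by
      intro w hw
      apply hcon w
      rw [← hk]
      have h3 : b k ∈ MulAction.stabilizer G w := hw
      exact (MulAction.stabilizer G w).pow_mem h3 c
    have h3 := disp_pow hT h2 c v
    rw [hk] at h3
    omega
  · apply hcon v
    rw [h1, one_smul]

theorem Chain.nest {m : ℕ} {b : ℕ → G} (h : Chain R m b) (i : ℕ) (v : V)
    (hv : b (i + 1) • v = v) : b i • v = v := by
  obtain ⟨N, h1, _⟩ := h
  rw [← h1 i]
  have h3 : b (i + 1) ∈ MulAction.stabilizer G v := hv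
  exact (MulAction.stabilizer G v).pow_mem h3 (N i)

/-- a ray -/
def Ray (T : SimpleGraph V) (ρ : ℕ → V) : Prop :=
  (∀ n, T.Adj (ρ n) (ρ (n + 1))) ∧ ∀ n, ρ n ≠ ρ (n + 2)

/-- bounded roots along the rays: for each ray there is a number `K`, a unit in `R`, such that each
element `g` of infinite order which fixes all vertices of the ray after the `n`-th one, and which
has a positive power fixing the `n`-th vertex, satisfies that `g ^ K` fixes the `n`-th vertex -/
def Tame (R : Type u) [CommRing R] (G : Type) [Group G] [MulAction G V] (T : SimpleGraph V) :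
    Prop :=
  ∀ ρ : ℕ → V, Ray T ρ → ∃ K : ℕ, IsUnit (K : R) ∧
    ∀ (n : ℕ) (g : G), (∀ s : ℕ, 0 < s → g ^ s ≠ 1) → (∀ k, n < k → g • ρ k = ρ k) →
      (∃ s : ℕ, 0 < s ∧ g ^ s • ρ n = ρ n) → g ^ K • ρ n = ρ n

/-- later members of a chain are roots of the first one -/
theorem exists_pow {b : ℕ → G} {N : ℕ → ℕ} (h : ∀ i, b (i + 1) ^ N i = b i) (i : ℕ) :
    ∃ M : ℕ, b i ^ M = b 0 := by
  induction i with
  | zero => exact ⟨1, pow_one _⟩
  | succ i ih =>
    obtain ⟨M, hM⟩ := ih
    exact ⟨N i * M, by rw [pow_mul, h, hM]⟩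

/-- **the tree theorem** for the class `P R` -/
theorem P.tree [IsDomain R] (hT : TreeAct G T) (hst : ∀ v : V, P R (MulAction.stabilizer G v))
    (hray : Tame R G T) : P R G := by
  intro m hm b hb
  by_contra hinf
  push Not at hinf
  have hinf' : ∀ i (s : ℕ), 0 < s → b i ^ s ≠ 1 := by
    intro i
    induction i with
    | zero => exact hinf
    | succ i ih =>
      intro s hs h1
      obtain ⟨N, h2, _⟩ := hb
      apply ih s hs
      rw [← h2 i, ← pow_mul, mul_comm, pow_mul, h1, one_pow]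
  rcases vertex_or_ray hT b (fun i => Chain.elliptic hT hm hb i)
    (fun i v hv => Chain.nest hb i v hv) with ⟨v, hv⟩ | ⟨ρ, d, hadj, hnb, hd0, hdm, hfix⟩
  · obtain ⟨N, h1, h2⟩ := hb
    obtain ⟨s, hs, h3⟩ := hst v m hm (fun i => ⟨b i, hv i⟩)
      ⟨N, fun i => Subtype.ext (h1 i), h2⟩
    exact hinf s hs (congrArg Subtype.val h3)
  · obtain ⟨K, hKu, hK⟩ := hray ρ ⟨hadj, hnb⟩
    have hKpos : 0 < K := by
      rcases Nat.eq_zero_or_pos K with rfl | h
      · rw [Nat.cast_zero] at hKu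
        exact absurd hKu not_isUnit_zero
      · exact h
    have hb0f : ∀ k, b 0 • ρ k = ρ k := fun k => hfix 0 k (by omega)
    -- powers in the stabilizers of larger parts of the ray
    have hstep : ∀ (j n : ℕ) (g : G), (∀ s : ℕ, 0 < s → g ^ s ≠ 1) →
        (∃ s : ℕ, 0 < s ∧ ∀ k, g ^ s • ρ k = ρ k) →
        (∀ k, n + j ≤ k → g • ρ k = ρ k) → ∀ k, n ≤ k → g ^ K ^ j • ρ k = ρ k := by
      intro j
      induction j with
      | zero =>
        intro n g _ _ h1 k hk
        rw [pow_zero, pow_one]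
        exact h1 k hk
      | succ j ih =>
        intro n g hg hpw h1 k hk
        have h2 := ih (n + 1) g hg hpw (fun k hk => h1 k (by omega))
        rcases Nat.lt_or_ge n k with h3 | h3
        · have h4 : g ^ K ^ j ∈ MulAction.stabilizer G (ρ k) := h2 k h3
          rw [pow_succ, pow_mul]
          exact (MulAction.stabilizer G (ρ k)).pow_mem h4 K
        · obtain rfl : k = n := by omega
          rw [pow_succ, pow_mul]
          apply hK k (g ^ K ^ j)
          · intro s hs h4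
            rw [← pow_mul] at h4
            exact hg _ (Nat.mul_pos (Nat.pow_pos hKpos) hs) h4
          · exact fun l hl => h2 l hl
          · obtain ⟨s, hs, h5⟩ := hpw
            refine ⟨s, hs, ?_⟩
            have h6 : g ^ s ∈ MulAction.stabilizer G (ρ k) := h5 k
            rw [← pow_mul, mul_comm, pow_mul]
            exact (MulAction.stabilizer G (ρ k)).pow_mem h6 _
    obtain ⟨M, hM1, hM2⟩ := hb
    have hpow : ∀ i, b i ^ K ^ d i ∈ MulAction.stabilizer G (ρ 0) := by
      intro i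
      refine hstep (d i) 0 (b i) (hinf' i) ?_ (fun k hk => hfix i k (by omega)) 0 le_rfl
      obtain ⟨s, hs⟩ := exists_pow hM1 i
      refine ⟨s, ?_, fun k => by rw [hs]; exact hb0f k⟩
      rcases Nat.eq_zero_or_pos s with rfl | h
      · exfalso
        apply hinf 1 one_pos
        rw [← hs, pow_zero, one_pow]
      · exact h
    -- the exponents
    let E : ℕ → ℕ := fun i => Nat.rec 1 (fun i e => Nat.gcd (K ^ d (i + 1)) (M i * e)) i
    have hE0 : E 0 = 1 := rfl
    have hE : ∀ i, E (i + 1) = Nat.gcd (K ^ d (i + 1)) (M i * E i) := fun i => rfl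
    have hb0 : b 0 ∈ MulAction.stabilizer G (ρ 0) := hb0f 0
    have hmem : ∀ i, b i ^ E i ∈ MulAction.stabilizer G (ρ 0) := by
      intro i
      induction i with
      | zero =>
        rw [hE0, pow_one]
        exact hb0
      | succ i ih =>
        rw [hE]
        have h1 : b (i + 1) ^ (M i * E i) ∈ MulAction.stabilizer G (ρ 0) := by
          rw [pow_mul, hM1]
          exact ih
        have h2 : (b (i + 1) ^ ((Nat.gcd (K ^ d (i + 1)) (M i * E i) : ℕ) : ℤ)) ∈
            MulAction.stabilizer G (ρ 0) := by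
          rw [Nat.gcd_eq_gcd_ab, zpow_add, zpow_mul, zpow_mul, zpow_natCast, zpow_natCast]
          exact Subgroup.mul_mem _ (Subgroup.zpow_mem _ (hpow (i + 1)) _)
            (Subgroup.zpow_mem _ h1 _)
        rwa [zpow_natCast] at h2
    have hEdvd : ∀ i, E (i + 1) ∣ M i * E i := fun i => Nat.gcd_dvd_right _ _
    choose N' hN' using hEdvd
    have hch : Chain R (m * K)
        (fun i => (⟨b i ^ E i, hmem i⟩ : MulAction.stabilizer G (ρ 0))) := by
      refine ⟨N', fun i => ?_, fun p hp hr i hi => ?_⟩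
      · apply Subtype.ext
        show (b (i + 1) ^ E (i + 1)) ^ N' i = b i ^ E i
        rw [← pow_mul, ← hN', pow_mul, hM1]
      · have hpK : ¬ p ∣ K := by
          rcases hr with h4 | ⟨_, h4⟩
          · rintro ⟨c, hc⟩
            apply h4
            rw [hc, Nat.cast_mul] at hKu
            exact isUnit_of_mul_isUnit_left hKu
          · exact fun h5 => h4 (Dvd.dvd.mul_left h5 m)
        have hr' : Rel R m p := by
          rcases hr with h4 | ⟨h4, h5⟩
          · exact Or.inl h4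
          · exact Or.inr ⟨h4, fun h6 => h5 (Dvd.dvd.mul_right h6 K)⟩
        have h6 : p ∣ M i * E i := Dvd.dvd.mul_right (hM2 p hp hr' i hi) _
        rw [hN'] at h6
        rcases (Nat.Prime.dvd_mul hp).1 h6 with h7 | h7
        · exfalso
          apply hpK
          have h8 : E (i + 1) ∣ K ^ d (i + 1) := Nat.gcd_dvd_left _ _
          exact hp.dvd_of_dvd_pow (h7.trans h8)
        · exact h7
    obtain ⟨s, hs, h3⟩ := hst (ρ 0) (m * K) (Nat.mul_pos hm hKpos) _ hch
    apply hinf s hs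
    have h4 := congrArg Subtype.val h3
    have h5 : (b 0 ^ E 0) ^ s = 1 := h4
    rwa [hE0, pow_one] at h5

/-- shifted chains -/
theorem Chain.shift {m : ℕ} {b : ℕ → G} (h : Chain R m b) (j : ℕ) :
    Chain R m (fun i => b (j + i)) := by
  obtain ⟨N, h1, h2⟩ := h
  exact ⟨fun i => N (j + i), fun i => h1 (j + i), fun p hp hr i hi => h2 p hp hr _ (by omega)⟩

/-- the tree theorem for the class `W R` -/
theorem W.tree [IsDomain R] (hT : TreeAct G T) (hst : ∀ v : V, W R (MulAction.stabilizer G v))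
    (hray : Tame R G T)
    (htor : ∃ s : ℕ, 0 < s ∧ ∀ ρ : ℕ → V, Ray T ρ → ∀ g : G, (∀ k, g • ρ k = ρ k) →
      (∃ t : ℕ, 0 < t ∧ g ^ t = 1) → g ^ s = 1) :
    W R G := by
  have hP : P R G := P.tree hT (fun v => P.of_W (hst v)) hray
  intro m hm b hb
  rcases vertex_or_ray hT b (fun i => Chain.elliptic hT hm hb i)
    (fun i v hv => Chain.nest hb i v hv) with ⟨v, hv⟩ | ⟨ρ, d, hadj, hnb, hd0, hdm, hfix⟩
  · obtain ⟨N, h1, h2⟩ := hb
    obtain ⟨s, hs, h3⟩ := hst v m hm (fun i => ⟨b i, hv i⟩)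
      ⟨N, fun i => Subtype.ext (h1 i), h2⟩
    exact ⟨s, hs, fun i => congrArg Subtype.val (h3 i)⟩
  · obtain ⟨s, hs, h1⟩ := htor
    refine ⟨s, hs, fun i => ?_⟩
    refine h1 (fun n => ρ (n + d i)) ⟨fun n => ?_, fun n => ?_⟩ (b i) (fun k => ?_) ?_
    · have := hadj (n + d i)
      rwa [show n + d i + 1 = n + 1 + d i by omega] at this
    · have := hnb (n + d i)
      rwa [show n + d i + 2 = n + 2 + d i by omega] at this
    · exact hfix i _ (by omega)
    · obtain ⟨t, ht, h2⟩ := hP m hm _ (Chain.shift hb i)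
      exact ⟨t, ht, h2⟩

end Q182.Bt
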