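import Pool.Agent.Helper270.Tree

/-!
# Chains of roots in groups acting on trees
-/

set_option autoImplicit false

namespace Q182.Bt

open SimpleGraph
open Pool.Agent.Helper270.Tree

variable {G V : Type} [Group G] [MulAction G V] {T : SimpleGraph V}

/-- the displacement of the powers of an element without fixed vertices -/
theorem disp_pow (hT : TreeAct G T) {g : G} (hg : ∀ v : V, g • v ≠ v) (n : ℕ) (z : V) :
    n ≤ T.dist z (g ^ n • z) := by
  rcases Nat.eq_zero_or_pos n with rfl | hn
  · exact Nat.zero_le _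
  obtain ⟨L, l, hax⟩ := hT.exists_axis hg
  have h1 : ∀ (m : ℕ) (i : ℤ), g ^ m • L i = L (i + ((m * l : ℕ) : ℤ)) := by
    intro m
    induction m with
    | zero =>
      intro i
      rw [pow_zero, one_smul, Nat.zero_mul, Nat.cast_zero, add_zero]
    | succ m ih =>
      intro i
      rw [pow_succ', mul_smul, ih, hax.smul]
      congr 1
      push_cast
      ring
  have hpos := hax.pos
  have h2 : IsAxis T (g ^ n) L (n * l) := ⟨hax.line, Nat.mul_pos hn hpos, h1 n⟩
  obtain ⟨i, _, h3⟩ := hT.proj_between h2 z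
  rw [h3]
  have h4 : n * 1 ≤ n * l := Nat.mul_le_mul_left n hpos
  omega

/-- the projection to a convex set -/
theorem proj_dist (hT : T.IsTree) {F : V → Prop}
    (hF : ∀ x y z : V, F x → F z → T.dist x y + T.dist y z = T.dist x z → F y) {v u w : V}
    (hu : F u) (hmin : ∀ x, F x → T.dist v u ≤ T.dist v x) (hw : F w) :
    T.dist v w = T.dist v u + T.dist u w := by
  obtain ⟨q, h0, hn, hadj, hd, hnb⟩ := exists_geod hT u w
  have key := nb hT q (T.dist u w) hadj hnb v (by
    intro h1
    have h2 : T.Adj (q 0) (q 1) := hadj 0 h1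
    have h3 : F (q 1) := by
      refine hF u (q 1) w hu hw ?_
      obtain ⟨h4, h5⟩ := hd 1 h1
      omega
    have h4 := hmin _ h3
    rw [h0] at h2 ⊢
    rcases hT.dist_eq_dist_add_one_of_adj v h2 with h5 | h5
    · omega
    · exact h5) (T.dist u w) le_rfl
  rw [hn, h0] at key
  exact key

/-- nested fixed subtrees have a common vertex, or converge to an end -/
theorem vertex_or_ray (hT : TreeAct G T) (b : ℕ → G) (hell : ∀ i, ∃ v : V, b i • v = v)
    (hnest : ∀ i (v : V), b (i + 1) • v = v → b i • v = v) :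
    (∃ v : V, ∀ i, b i • v = v) ∨
      ∃ (ρ : ℕ → V) (d : ℕ → ℕ), (∀ n, T.Adj (ρ n) (ρ (n + 1))) ∧ (∀ n, ρ n ≠ ρ (n + 2)) ∧
        d 0 = 0 ∧ (∀ i, d i ≤ d (i + 1)) ∧ ∀ i n, d i ≤ n → b i • ρ n = ρ n := by
  classical
  obtain ⟨v₀, hv₀⟩ := hell 0
  have hnest' : ∀ i j, i ≤ j → ∀ v : V, b j • v = v → b i • v = v := by
    intro i j hij
    induction j, hij using Nat.le_induction with
    | base => exact fun v h => h
    | succ j _ ih => exact fun v h => ih v (hnest j v h)
  have hconv : ∀ (i : ℕ) (x y z : V), b i • x = x → b i • z = z →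
      T.dist x y + T.dist y z = T.dist x z → b i • y = y :=
    fun i x y z hx hz h => hT.convex hx hz h
  -- nearest points
  have hmin : ∀ i, ∃ u : V, b i • u = u ∧ ∀ x : V, b i • x = x → T.dist v₀ u ≤ T.dist v₀ x := by
    intro i
    have hex : ∃ n, ∃ u : V, b i • u = u ∧ T.dist v₀ u = n := by
      obtain ⟨u, hu⟩ := hell i
      exact ⟨_, u, hu, rfl⟩
    obtain ⟨u, hu, hun⟩ := Nat.find_spec hex
    refine ⟨u, hu, fun x hx => ?_⟩
    rw [hun]
    exact Nat.find_min' hex ⟨x, hx, rfl⟩
  choose u hu humin using hmin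
  have hu0 : u 0 = v₀ := by
    have h1 := humin 0 v₀ hv₀
    rw [dist_self] at h1
    exact (hT.isTree.connected.dist_eq_zero_iff.mp (Nat.le_zero.1 h1)).symm
  have hproj : ∀ i (w : V), b i • w = w → T.dist v₀ w = T.dist v₀ (u i) + T.dist (u i) w :=
    fun i w hw => proj_dist hT.isTree (hconv i) (hu i) (humin i) hw
  have hmono : ∀ i, T.dist v₀ (u i) ≤ T.dist v₀ (u (i + 1)) := fun i =>
    humin i _ (hnest i _ (hu (i + 1)))
  have hmono' : ∀ i j, i ≤ j → T.dist v₀ (u i) ≤ T.dist v₀ (u j) := fun i j hij =>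
    monotone_nat_of_le_succ hmono hij
  by_cases hb : ∃ B, ∀ i, T.dist v₀ (u i) ≤ B
  · left
    -- the distances are eventually constant
    obtain ⟨B, hB⟩ := hb
    obtain ⟨i₀, hi₀⟩ : ∃ i₀, ∀ i, T.dist v₀ (u i) ≤ T.dist v₀ (u i₀) := by
      have hex : ∃ n, ∀ i, T.dist v₀ (u i) ≤ n := ⟨B, hB⟩
      by_contra hcon
      push Not at hcon
      have h2 := Nat.find_spec hex
      rcases Nat.eq_zero_or_pos (Nat.find hex) with h3 | h3
      · obtain ⟨i, hi⟩ := hcon 0
        have := h2 i
        omega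
      · refine Nat.find_min hex (Nat.sub_lt h3 one_pos) ?_
        intro i
        obtain ⟨j, hj⟩ := hcon i
        have := h2 j
        omega
    refine ⟨u i₀, fun i => ?_⟩
    rcases Nat.le_total i i₀ with h | h
    · exact hnest' i i₀ h _ (hu i₀)
    · have h1 := hproj i₀ (u i) (hnest' i₀ i h _ (hu i))
      have h2 := hi₀ i
      have h3 : T.dist (u i₀) (u i) = 0 := by omega
      rw [hT.isTree.connected.dist_eq_zero_iff.mp h3]
      exact hu i
  · right
    push Not at hb
    -- the points of the ray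
    have hpt : ∀ n, ∃ x : V, ∀ i, n ≤ T.dist v₀ (u i) →
        T.dist v₀ x = n ∧ T.dist x (u i) = T.dist v₀ (u i) - n := by
      intro n
      obtain ⟨i, hi⟩ := hb n
      have hex : ∃ i, n ≤ T.dist v₀ (u i) := ⟨i, hi.le⟩
      obtain ⟨j, hj⟩ : ∃ j, j = Nat.find hex := ⟨_, rfl⟩
      have hj1 := Nat.find_spec hex
      rw [← hj] at hj1
      obtain ⟨q, _, _, _, hd, _⟩ := exists_geod hT.isTree v₀ (u j)
      refine ⟨q n, fun i hi => ?_⟩
      obtain ⟨h1, h2⟩ := hd n hj1
      refine ⟨h1, ?_⟩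
      have hji : j ≤ i := by
        rw [hj]
        exact Nat.find_min' hex hi
      have h3 := hproj j (u i) (hnest' j i hji _ (hu i))
      have h4 : T.dist (q n) (u i) ≤ T.dist (q n) (u j) + T.dist (u j) (u i) :=
        hT.isTree.connected.dist_triangle
      have h5 : T.dist v₀ (u i) ≤ T.dist v₀ (q n) + T.dist (q n) (u i) :=
        hT.isTree.connected.dist_triangle
      omega
    choose ρ hρ using hpt
    have hlarge : ∀ n, ∃ i, n ≤ T.dist v₀ (u i) := fun n => by
      obtain ⟨i, hi⟩ := hb n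
      exact ⟨i, hi.le⟩
    have hdist : ∀ n m, n ≤ m → T.dist (ρ n) (ρ m) = m - n := by
      intro n m hnm
      obtain ⟨i, hi⟩ := hlarge m
      obtain ⟨h1, h2⟩ := hρ m i hi
      obtain ⟨h3, h4⟩ := hρ n i (by omega)
      -- the point at distance `m - n` from `ρ n` on the way to `u i`
      obtain ⟨q, _, _, _, hd, _⟩ := exists_geod hT.isTree (ρ n) (u i)
      obtain ⟨h5, h6⟩ := hd (m - n) (by omega)
      have h7 : T.dist v₀ (q (m - n)) ≤ T.dist v₀ (ρ n) + T.dist (ρ n) (q (m - n)) :=
        hT.isTree.connected.dist_triangle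
      have h8 : T.dist v₀ (u i) ≤ T.dist v₀ (q (m - n)) + T.dist (q (m - n)) (u i) :=
        hT.isTree.connected.dist_triangle
      have h9 : ρ m = q (m - n) := by
        refine geod_unique hT.isTree (x := v₀) (y := u i) ?_ ?_ ?_
        · omega
        · omega
        · omega
      rw [h9, h5]
    refine ⟨ρ, fun i => T.dist v₀ (u i), ?_, ?_, ?_, hmono, ?_⟩
    · intro n
      rw [← dist_eq_one_iff_adj, hdist n (n + 1) (by omega)]
      omega
    · intro n h
      have h1 := hdist n (n + 2) (by omega)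
      rw [← h, dist_self] at h1
      omega
    · show T.dist v₀ (u 0) = 0
      rw [hu0, dist_self]
    · intro i n hin'
      have hin : T.dist v₀ (u i) ≤ n := hin'
      show b i • ρ n = ρ n
      obtain ⟨j, hj⟩ := hlarge n
      obtain ⟨k, hk⟩ : ∃ k, k = max i j := ⟨_, rfl⟩
      have hk1 : n ≤ T.dist v₀ (u k) := hj.trans (hmono' j k (by rw [hk]; exact le_max_right _ _))
      obtain ⟨h1, h2⟩ := hρ n k hk1
      obtain ⟨h3, h4⟩ := hρ (T.dist v₀ (u i)) k (by omega)
      have h5 := hproj i (u k) (hnest' i k (by rw [hk]; exact le_max_left _ _) _ (hu k))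
      have h6 : ρ (T.dist v₀ (u i)) = u i := by
        refine geod_unique hT.isTree (x := v₀) (y := u k) ?_ ?_ ?_
        · omega
        · omega
        · omega
      have h7 := hdist _ _ hin
      rw [h6] at h7
      refine hconv i (u i) (ρ n) (u k) (hu i)
        (hnest' i k (by rw [hk]; exact le_max_left _ _) _ (hu k)) ?_
      omega

end Q182.Bt
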