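import Mathlib

/-!
# Minimal, totally minimal, c-minimal and c-totally minimal groups
-/

namespace Q182

universe u

/-- Minimal topological groups: Hausdorff topological groups without strictly coarser Hausdorff
group topologies. -/
def IsMinimalTG (G : Type u) [Group G] [t : TopologicalSpace G] : Prop :=
  IsTopologicalGroup G ∧ T2Space G ∧
    ∀ s : TopologicalSpace G, @IsTopologicalGroup G s _ → @T2Space G s → t ≤ s → s = t

/-- Totally minimal topological groups: Hausdorff topological groups all of whose quotients by
closed normal subgroups are minimal. -/
def IsTotallyMinimalTG (G : Type u) [Group G] [TopologicalSpace G] : Prop :=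
  IsTopologicalGroup G ∧ T2Space G ∧
    ∀ (N : Subgroup G) [N.Normal], IsClosed (N : Set G) → IsMinimalTG (G ⧸ N)

/-- c-minimal groups: every closed subgroup is minimal. -/
def IsCMinimal (G : Type u) [Group G] [TopologicalSpace G] : Prop :=
  ∀ L : Subgroup G, IsClosed (L : Set G) → IsMinimalTG L

/-- c-totally minimal groups: every closed subgroup is totally minimal. -/
def IsCTotallyMinimal (G : Type u) [Group G] [TopologicalSpace G] : Prop :=
  ∀ L : Subgroup G, IsClosed (L : Set G) → IsTotallyMinimalTG L

end Q182
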