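import Mathlib
import Pool.Agent.Q182.CMDefs

/-!
# Closed subgroups of a minimal abelian group times a compact group
-/

namespace Q182.CM

open Set Filter Topology

universe u v

section coind

variable {P : Type u} {Q : Type v} [Group P] [Group Q] [tP : TopologicalSpace P] [IsTopologicalGroup P]
  (f : P →* Q)

lemma coind_open {U : Set P} (hU : IsOpen U) : IsOpen[tP.coinduced f] (f '' U) := by
  rw [isOpen_coinduced]
  have h : f ⁻¹' (f '' U) = ⋃ n ∈ (f.ker : Set P), (fun x => x * n) '' U := by
    ext x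
    simp only [mem_preimage, mem_image, mem_iUnion, SetLike.mem_coe, MonoidHom.mem_ker]
    constructor
    · rintro ⟨u, hu, hux⟩
      exact ⟨u⁻¹ * x, by rw [map_mul, map_inv, hux, inv_mul_cancel], u, hu, by group⟩
    · rintro ⟨n, hn, u, hu, rfl⟩
      exact ⟨u, hu, by rw [map_mul, hn, mul_one]⟩
  rw [h]
  exact isOpen_biUnion fun n _ => (Homeomorph.mulRight n).isOpenMap _ hU

lemma coind_oqm (hf : Function.Surjective f) :
    @IsOpenQuotientMap P Q tP (tP.coinduced f) f := by
  let _ : TopologicalSpace Q := tP.coinduced f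
  exact ⟨hf, continuous_coinduced_rng, fun U hU => coind_open f hU⟩

lemma coind_group (hf : Function.Surjective f) : @IsTopologicalGroup Q (tP.coinduced f) _ := by
  let _ : TopologicalSpace Q := tP.coinduced f
  have h1 : IsOpenQuotientMap f := coind_oqm f hf
  have h2 : IsOpenQuotientMap (Prod.map f f) := h1.prodMap h1
  have h3 : Continuous fun p : Q × Q => p.1 * p.2 := by
    rw [← h2.continuous_comp_iff]
    have h4 : (fun p : Q × Q => p.1 * p.2) ∘ Prod.map f f = fun p : P × P => f (p.1 * p.2) := by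
      funext p
      exact (map_mul f _ _).symm
    rw [h4]
    exact h1.continuous.comp continuous_mul
  have h5 : Continuous fun q : Q => q⁻¹ := by
    rw [← h1.continuous_comp_iff]
    have h6 : (fun q : Q => q⁻¹) ∘ f = fun p : P => f p⁻¹ := by
      funext p
      exact (map_inv f _).symm
    rw [h6]
    exact h1.continuous.comp continuous_inv
  exact { continuous_mul := h3, continuous_inv := h5 }

lemma coind_t2 (hf : Function.Surjective f) (hk : IsClosed (f.ker : Set P)) :
    @T2Space Q (tP.coinduced f) := by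
  let _ : TopologicalSpace Q := tP.coinduced f
  have h0 : IsTopologicalGroup Q := coind_group f hf
  have h1 : IsOpenQuotientMap f := coind_oqm f hf
  have h2 : IsClosed ({1} : Set Q) := by
    rw [← h1.isQuotientMap.isClosed_preimage]
    exact hk
  have h3 : T1Space Q := ⟨fun x => by
    have h4 : ({x} : Set Q) = (fun y => x⁻¹ * y) ⁻¹' {1} := by
      ext y
      simp only [mem_singleton_iff, mem_preimage]
      rw [inv_mul_eq_one]
      exact eq_comm
    rw [h4]
    exact h2.preimage (continuous_const_mul _)⟩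
  infer_instance

end coind

section split

variable {X : Type u} [Group X] [TopologicalSpace X] [IsTopologicalGroup X]

lemma split_mul {U : Set X} (hU : U ∈ 𝓝 (1 : X)) : ∃ V ∈ 𝓝 (1 : X), ∀ v ∈ V, ∀ w ∈ V, v * w ∈ U :=
  exists_nhds_one_split hU

lemma split_inv {U : Set X} (hU : U ∈ 𝓝 (1 : X)) :
    ∃ V ∈ 𝓝 (1 : X), ∀ v ∈ V, ∀ w ∈ V, v⁻¹ * w ∈ U := by
  have hc : Continuous fun p : X × X => p.1⁻¹ * p.2 := continuous_fst.inv.mul continuous_snd
  have h1 : (fun p : X × X => p.1⁻¹ * p.2) ⁻¹' U ∈ 𝓝 ((1, 1) : X × X) := by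
    apply hc.continuousAt.preimage_mem_nhds
    rw [inv_mul_cancel]
    exact hU
  obtain ⟨M₁, hM₁, M₂, hM₂, h2⟩ := mem_nhds_prod_iff.1 h1
  exact ⟨M₁ ∩ M₂, inter_mem hM₁ hM₂, fun s hs t ht => h2 (mk_mem_prod hs.1 ht.2)⟩

end split

/-- Merson's lemma. -/
lemma merson {G : Type u} {Q : Type v} [Group G] [Group Q] (τ σ : TopologicalSpace G)
    (hτ : @IsTopologicalGroup G τ _) (hσ : @IsTopologicalGroup G σ _) (hle : τ ≤ σ) (f : G →* Q)
    (hN : ∀ U ∈ @nhds G τ 1, ∃ W ∈ @nhds G σ 1, ∀ n ∈ W, f n = 1 → n ∈ U)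
    (hQ : ∀ U ∈ @nhds G τ 1, f ⁻¹' (f '' U) ∈ @nhds G σ 1) : σ = τ := by
  apply IsTopologicalGroup.ext hσ hτ
  apply le_antisymm
  · intro U hU
    obtain ⟨V, hV, hVU⟩ := @split_mul G _ τ hτ U hU
    obtain ⟨W, hW, hWV⟩ := hN V hV
    obtain ⟨W₁, hW₁, hW₁W⟩ := @split_inv G _ σ hσ W hW
    have hW₁τ : W₁ ∈ @nhds G τ 1 := nhds_mono hle hW₁
    have h1 := hQ (V ∩ W₁) (inter_mem hV hW₁τ)
    refine mem_of_superset (inter_mem h1 hW₁) ?_
    rintro x ⟨⟨v, ⟨hv, hvW⟩, hvx⟩, hx⟩
    have h2 : f (v⁻¹ * x) = 1 := by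
      rw [map_mul, map_inv, hvx, inv_mul_cancel]
    have h3 : v⁻¹ * x ∈ V := hWV _ (hW₁W v hvW x hx) h2
    have h4 := hVU v hv _ h3
    rwa [mul_inv_cancel_left] at h4
  · exact nhds_mono hle

lemma closed_image {X : Type u} {Y : Type v} [TopologicalSpace X] [TopologicalSpace Y] [T2Space Y]
    {f : X → Y} (hf : Continuous f) {s : Set X} (hs : IsCompact s) : IsClosed (f '' s) :=
  (hs.image hf).isClosed

lemma closed_of_le {X : Type u} (τ σ : TopologicalSpace X) (hσ : @T2Space X σ) (hle : τ ≤ σ)
    {s : Set X} (hs : @IsCompact X τ s) : IsClosed[σ] s := by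
  have h := @closed_image X X τ σ hσ id (continuous_id_of_le hle) s hs
  rwa [image_id] at h

lemma nhds_of_closed {X : Type u} [TopologicalSpace X] {C : Set X} (hC : IsClosed C) {x : X}
    (hx : x ∉ C) : Cᶜ ∈ 𝓝 x := hC.isOpen_compl.mem_nhds hx

lemma preimage_nhds {X : Type u} {Y : Type v} [TopologicalSpace X] [TopologicalSpace Y] {f : X → Y}
    (hf : Continuous f) {x : X} {V : Set Y} (hV : V ∈ 𝓝 (f x)) : f ⁻¹' V ∈ 𝓝 x :=
  hf.continuousAt.preimage_mem_nhds hV

lemma prod_group {X : Type u} {Y : Type v} [Group X] [Group Y] [TopologicalSpace X]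
    [TopologicalSpace Y] [IsTopologicalGroup X] [IsTopologicalGroup Y] :
    IsTopologicalGroup (X × Y) := inferInstance

/-- Extensions of a minimal group by a compact group. -/
lemma minimal_of_compact_ker {G : Type u} {Q : Type v} [Group G] [Group Q] [tG : TopologicalSpace G]
    [tQ : TopologicalSpace Q] [hG : IsTopologicalGroup G] [hG2 : T2Space G] (f : G →* Q)
    (hf : IsQuotientMap f) (hk : IsCompact (f.ker : Set G)) (hQ : IsMinimalTG Q) :
    IsMinimalTG G := by
  have hsurj : Function.Surjective f := hf.surjective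
  have hC : ∀ U ∈ 𝓝 (1 : G), ∃ C : Set G, IsCompact C ∧ 1 ∉ C ∧ ∀ n, f n = 1 → n ∉ C → n ∈ U := by
    intro U hU
    obtain ⟨V, hVU, hV, h1V⟩ := mem_nhds_iff.1 hU
    refine ⟨(f.ker : Set G) \ V, hk.diff hV, fun h => h.2 h1V, fun n hn hnC => ?_⟩
    by_contra hcon
    exact hnC ⟨hn, fun h => hcon (hVU h)⟩
  have h3 : ∀ U ∈ 𝓝 (1 : G), f '' U ∈ 𝓝 (1 : Q) := by
    intro U hU
    have h3 : @IsOpenQuotientMap G Q tG (tG.coinduced f) f := coind_oqm f hsurj
    rw [← hf.eq_coinduced] at h3
    have := h3.isOpenMap.image_mem_nhds hU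
    rwa [map_one] at this
  have hfe : tQ = tG.coinduced f := hf.eq_coinduced
  refine ⟨inferInstance, inferInstance, fun σ hσ hσ2 hle => ?_⟩
  have hkσ : IsClosed[σ] (f.ker : Set G) := closed_of_le tG σ hσ2 hle hk
  have h1 : σ.coinduced f = tQ := by
    refine hQ.2.2 _ (@coind_group G Q _ _ σ hσ f hsurj) (@coind_t2 G Q _ _ σ hσ f hsurj hkσ) ?_
    rw [hfe]
    exact coinduced_mono hle
  have h2 : @IsOpenQuotientMap G Q σ (σ.coinduced f) f := @coind_oqm G Q _ _ σ hσ f hsurj
  rw [h1] at h2
  refine merson tG σ hG hσ hle f (fun U hU => ?_) fun U hU => ?_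
  · obtain ⟨C, hC1, hC2, hC3⟩ := hC U hU
    have h5 : IsClosed[σ] C := closed_of_le tG σ hσ2 hle hC1
    exact ⟨Cᶜ, @nhds_of_closed G σ C h5 1 hC2, fun n hn hfn => hC3 n hfn hn⟩
  · have h5 : f '' U ∈ @nhds Q tQ (f 1) := by
      rw [map_one]
      exact h3 U hU
    exact @preimage_nhds G Q σ tQ f h2.continuous 1 _ h5

lemma graph_closed {A : Type u} {B : Type v} {C : Type v} [TopologicalSpace A] [TopologicalSpace B]
    [TopologicalSpace C] [T2Space C] {i : B → A} (hi : IsClosedEmbedding i) {j : B → C}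
    (hj : Continuous j) : IsClosed {p : A × C | ∃ x, i x = p.1 ∧ j x = p.2} := by
  have h1 : IsClosed {q : B × C | j q.1 = q.2} := isClosed_eq (hj.comp continuous_fst) continuous_snd
  have h2 : IsClosedEmbedding (Prod.map i (id : C → C)) := hi.prodMap .id
  have h3 : {p : A × C | ∃ x, i x = p.1 ∧ j x = p.2} = Prod.map i id '' {q : B × C | j q.1 = q.2} := by
    ext p
    constructor
    · rintro ⟨x, h4, h5⟩
      exact ⟨(x, p.2), h5, Prod.ext h4 rfl⟩
    · rintro ⟨q, h4, rfl⟩
      exact ⟨q.1, rfl, h4⟩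
  rw [h3]
  exact h2.isClosedMap _ h1

lemma cont_left {A : Type u} {C : Type v} [TopologicalSpace A] [TopologicalSpace C] (c : C) :
    Continuous fun a : A => (a, c) := continuous_id.prodMk continuous_const

lemma cont_right {A : Type u} {C : Type v} [TopologicalSpace A] [TopologicalSpace C] (a : A) :
    Continuous fun c : C => (a, c) := continuous_const.prodMk continuous_id

lemma cont_coind {A : Type u} {P : Type v} {Q : Type u} [TopologicalSpace A] [tP : TopologicalSpace P]
    {g : A → P} (hg : Continuous g) (m : P → Q) : @Continuous A Q _ (tP.coinduced m) (m ∘ g) :=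
  @Continuous.comp A P Q _ tP (tP.coinduced m) g m continuous_coinduced_rng hg

/-- Closed subgroups of minimal abelian groups are minimal. -/
lemma minimal_closed {A : Type u} [CommGroup A] [tA : TopologicalSpace A] (hA : IsMinimalTG A)
    (B : Subgroup A) (hB : IsClosed (B : Set A)) : IsMinimalTG B := by
  obtain ⟨hA1, hA2, hA3⟩ := hA
  have hB2 : IsClosedEmbedding (Subtype.val : B → A) := hB.isClosedEmbedding_subtypeVal
  have hi : IsClosedEmbedding (fun x : B => ((x : A))⁻¹) :=
    (Homeomorph.inv A).isClosedEmbedding.comp hB2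
  refine ⟨inferInstance, inferInstance, fun σ hσ hσ2 hle => ?_⟩
  let m : A × B →* A :=
    { toFun := fun p => p.1 * p.2
      map_one' := by simp
      map_mul' := fun p q => by
        show p.1 * q.1 * ((p.2 * q.2 : B) : A) = p.1 * p.2 * (q.1 * q.2)
        rw [Subgroup.coe_mul]
        exact mul_mul_mul_comm _ _ _ _ }
  have hm : Function.Surjective m := fun a => ⟨(a, 1), by
    show a * ((1 : B) : A) = a
    rw [Subgroup.coe_one, mul_one]⟩
  let tP : TopologicalSpace (A × B) := @instTopologicalSpaceProd A B tA σ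
  have hP : @IsTopologicalGroup (A × B) tP _ := @prod_group A B _ _ tA σ hA1 hσ
  have hker : @IsClosed (A × B) tP (m.ker : Set (A × B)) := by
    have h1 := @graph_closed A B B tA instTopologicalSpaceSubtype σ hσ2 _ hi id
      (continuous_id_of_le hle)
    have h2 : (m.ker : Set (A × B)) = {p : A × B | ∃ x : B, ((x : A))⁻¹ = p.1 ∧ id x = p.2} := by
      ext p
      constructor
      · intro hp
        have hp' : p.1 * (p.2 : A) = 1 := hp
        exact ⟨p.2, (eq_inv_of_mul_eq_one_left hp').symm, rfl⟩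
      · rintro ⟨x, h3, h4⟩
        show p.1 * (p.2 : A) = 1
        rw [← h3, ← h4]
        exact inv_mul_cancel _
    rw [h2]
    exact h1
  have h1 : tP.coinduced m = tA := by
    refine hA3 _ (@coind_group (A × B) A _ _ tP hP m hm)
      (@coind_t2 (A × B) A _ _ tP hP m hm hker) ?_
    rw [← continuous_id_iff_le]
    have h2 := @cont_coind A (A × B) A tA tP _ (@cont_left A B tA σ 1) m
    have h3 : (m ∘ fun a => (a, (1 : B))) = id := by
      funext a
      show a * ((1 : B) : A) = a
      rw [Subgroup.coe_one, mul_one]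
    rwa [h3] at h2
  apply le_antisymm _ hle
  have h2 := @cont_coind B (A × B) A σ tP _ (@cont_right A B tA σ 1) m
  have h3 : (m ∘ fun b => ((1 : A), b)) = Subtype.val := by
    funext b
    show 1 * (b : A) = b
    rw [one_mul]
  rw [h3, h1] at h2
  exact continuous_iff_le_induced.1 h2

section main

variable {A : Type u} {K : Type v} [CommGroup A] [TopologicalSpace A] [Group K] [TopologicalSpace K]
  [IsTopologicalGroup K] [CompactSpace K] [T2Space K]

omit [IsTopologicalGroup K] [T2Space K] in
lemma closed_fst {L : Subgroup (A × K)} (hL : IsClosed (L : Set (A × K))) {C : Set L}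
    (hC : IsClosed C) : IsClosed ((fun x : L => (x : A × K).1) '' C) := by
  have h1 : IsClosed ((Subtype.val : L → A × K) '' C) := hL.isClosedEmbedding_subtypeVal.isClosedMap _ hC
  have h2 := isClosedMap_fst_of_compactSpace (X := A) (Y := K) _ h1
  rwa [image_image] at h2

omit [IsTopologicalGroup K] [T2Space K] in
lemma compact_L0 [T2Space A] {L : Subgroup (A × K)} (hL : IsClosed (L : Set (A × K))) :
    IsCompact {x : L | (x : A × K).1 = 1} := by
  have h1 : IsCompact ((({1} : Set A) ×ˢ (univ : Set K))) := isCompact_singleton.prod isCompact_univ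
  have h2 := hL.isClosedEmbedding_subtypeVal.isCompact_preimage h1
  have h3 : {x : L | (x : A × K).1 = 1} = (Subtype.val : L → A × K) ⁻¹' (({1} : Set A) ×ˢ univ) := by
    ext x
    simp
  rw [h3]
  exact h2

theorem q1 (hA : IsMinimalTG A) : IsCMinimal (A × K) := by
  intro L hL
  have hA1 := hA.1
  have hA2 := hA.2.1
  let R : Subgroup A := L.map (MonoidHom.fst A K)
  have hRset : (R : Set A) = (fun x : L => (x : A × K).1) '' univ := by
    ext a
    constructor
    · rintro ⟨x, hx, rfl⟩
      exact ⟨⟨x, hx⟩, trivial, rfl⟩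
    · rintro ⟨x, -, rfl⟩
      exact ⟨x, x.2, rfl⟩
  have hRc : IsClosed (R : Set A) := by
    rw [hRset]
    exact closed_fst hL isClosed_univ
  let f : L →* R := (MonoidHom.fst A K).subgroupMap L
  have hfc : Continuous f := (continuous_fst.comp continuous_subtype_val).subtype_mk _
  have hfcl : IsClosedMap f := by
    intro C hC
    rw [hRc.isClosedEmbedding_subtypeVal.isClosed_iff_image_isClosed, image_image]
    exact closed_fst hL hC
  have hfq : IsQuotientMap f :=
    hfcl.isQuotientMap hfc ((MonoidHom.fst A K).subgroupMap_surjective L)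
  have hker : IsCompact (f.ker : Set L) := by
    have h1 : (f.ker : Set L) = {x : L | (x : A × K).1 = 1} := by
      ext x
      constructor
      · intro hx
        exact congrArg Subtype.val (show f x = 1 from hx)
      · intro hx
        exact Subtype.ext hx
    rw [h1]
    exact compact_L0 hL
  exact minimal_of_compact_ker f hfq hker (minimal_closed hA R hRc)

theorem q2 (hA : IsTotallyMinimalTG A) : IsCTotallyMinimal (A × K) := by
  intro L hL
  have hA1 := hA.1
  have hA2 := hA.2.1
  refine ⟨inferInstance, inferInstance, fun N hN hNc => ?_⟩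
  have : IsClosed (N : Set L) := hNc
  let p : L →* A := (MonoidHom.fst A K).comp L.subtype
  have hp : ∀ x : L, p x = (x : A × K).1 := fun x => rfl
  have hpc : Continuous p := continuous_fst.comp continuous_subtype_val
  let M : Subgroup A := N.map p
  have hMc : IsClosed (M : Set A) := closed_fst hL hNc
  have hAM : IsMinimalTG (A ⧸ M) := hA.2.2 M hMc
  have := hAM.1
  have := hAM.2.1
  let R : Subgroup (A ⧸ M) := (Subgroup.map p ⊤).map (QuotientGroup.mk' M)
  have hlift : ∀ (a : A) (x : L), (QuotientGroup.mk a : A ⧸ M) = QuotientGroup.mk (p x) →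
      ∃ n ∈ N, p (x * n) = a := by
    intro a x h
    rw [eq_comm, QuotientGroup.eq] at h
    obtain ⟨n, hn, hn2⟩ := h
    refine ⟨n, hn, ?_⟩
    rw [map_mul, hn2, mul_inv_cancel_left]
  have hRc : IsClosed (R : Set (A ⧸ M)) := by
    rw [← (QuotientGroup.isQuotientMap_mk (N := M)).isClosed_preimage]
    have h1 : (QuotientGroup.mk : A → A ⧸ M) ⁻¹' (R : Set (A ⧸ M)) =
        (fun x : L => (x : A × K).1) '' univ := by
      ext a
      constructor
      · rintro ⟨b, ⟨x, -, rfl⟩, hx⟩
        obtain ⟨n, -, hn⟩ := hlift a x hx.symm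
        exact ⟨x * n, trivial, hn⟩
      · rintro ⟨x, -, rfl⟩
        exact ⟨p x, ⟨x, trivial, rfl⟩, rfl⟩
    rw [h1]
    exact closed_fst hL isClosed_univ
  have hRm : IsMinimalTG R := minimal_closed hAM R hRc
  let h : L →* R := ((QuotientGroup.mk' M).comp p).codRestrict R fun x =>
    ⟨p x, ⟨x, trivial, rfl⟩, rfl⟩
  have hh : ∀ x : L, ((h x : R) : A ⧸ M) = QuotientGroup.mk (p x) := fun x => rfl
  have hhc : Continuous h := by
    apply Continuous.subtype_mk
    exact (QuotientGroup.continuous_mk).comp hpc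
  have hhs : Function.Surjective h := by
    rintro ⟨_, b, ⟨x, -, rfl⟩, rfl⟩
    exact ⟨x, rfl⟩
  have hhq : IsQuotientMap h := by
    rw [isQuotientMap_iff_isClosed]
    refine ⟨hhs, fun s => ⟨fun hs => hs.preimage hhc, fun hs => ?_⟩⟩
    rw [hRc.isClosedEmbedding_subtypeVal.isClosed_iff_image_isClosed,
      ← (QuotientGroup.isQuotientMap_mk (N := M)).isClosed_preimage]
    have h1 : (QuotientGroup.mk : A → A ⧸ M) ⁻¹' (Subtype.val '' s) =
        (fun x : L => (x : A × K).1) '' (h ⁻¹' s) := by
      ext a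
      constructor
      · rintro ⟨r, hr, hra⟩
        obtain ⟨x, rfl⟩ := hhs r
        rw [hh] at hra
        obtain ⟨n, hn, hxn⟩ := hlift a x hra.symm
        refine ⟨x * n, ?_, hxn⟩
        have h2 : h (x * n) = h x := by
          apply Subtype.ext
          rw [hh, hh, hxn]
          exact hra.symm
        rw [mem_preimage, h2]
        exact hr
      · rintro ⟨x, hx, rfl⟩
        exact ⟨h x, hx, rfl⟩
    have h2 : IsClosed ((QuotientGroup.mk : A → A ⧸ M) ⁻¹' (Subtype.val '' s)) := by
      rw [h1]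
      exact closed_fst hL hs
    exact h2
  have hNh : ∀ x ∈ N, h x = 1 := by
    intro x hx
    apply Subtype.ext
    rw [hh]
    exact (QuotientGroup.eq_one_iff _).2 ⟨x, hx, rfl⟩
  let g : L ⧸ N →* R := QuotientGroup.lift N h hNh
  have hgm : ∀ x : L, g (QuotientGroup.mk x) = h x := fun x => rfl
  have hgc : Continuous g := (QuotientGroup.isQuotientMap_mk (N := N)).continuous_iff.2 hhc
  have hgq : IsQuotientMap g := IsQuotientMap.of_comp QuotientGroup.continuous_mk hgc hhq
  have hker : IsCompact (g.ker : Set (L ⧸ N)) := by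
    have h1 : (g.ker : Set (L ⧸ N)) = QuotientGroup.mk '' {x : L | (x : A × K).1 = 1} := by
      ext q
      constructor
      · obtain ⟨x, rfl⟩ := QuotientGroup.mk_surjective q
        intro hq
        have h2 : h x = 1 := hq
        have h3 : (QuotientGroup.mk (p x) : A ⧸ M) = 1 := by
          rw [← hh, h2]
          rfl
        obtain ⟨n, hn, hn2⟩ := (QuotientGroup.eq_one_iff _).1 h3
        refine ⟨x * n⁻¹, ?_, ?_⟩
        · show p (x * n⁻¹) = 1
          rw [map_mul, map_inv, hn2, mul_inv_cancel]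
        · rw [QuotientGroup.eq]
          have h4 : (x * n⁻¹)⁻¹ * x = n := by group
          rw [h4]
          exact hn
      · rintro ⟨x, hx, rfl⟩
        show h x = 1
        apply Subtype.ext
        rw [hh, hp, show (x : A × K).1 = 1 from hx]
        rfl
    rw [h1]
    exact (compact_L0 hL).image QuotientGroup.continuous_mk
  exact minimal_of_compact_ker g hgq hker hRm

end main

end Q182.CM
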