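import Pool.Agent.Q141.CP.Stm

/-!
Project CP (helper141, MP_de3d19_pr), job PERC: the percolation sum is at most one.
-/

set_option autoImplicit false

namespace Pool.Agent.Q182.CPPERC

open Finset
open Pool.Agent.Q141.CP

section

variable {α ε : Type} [DecidableEq α] [DecidableEq ε]

omit [DecidableEq ε] in
theorem sum_subset' {S T : Finset ε} (f : Finset ε → ℝ) (h : T ⊆ S)
    (h0 : ∀ F, F ⊆ S → ¬ F ⊆ T → f F = 0) :
    ∑ F ∈ S.powerset, f F = ∑ F ∈ T.powerset, f F := by
  symm
  refine sum_subset (powerset_mono.2 h) fun F hF hF' => ?_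
  exact h0 F (mem_powerset.1 hF) (fun h => hF' (mem_powerset.2 h))

theorem wt_nonneg {p : ℝ} (h0 : 0 ≤ p) (h1 : p ≤ 1) (E F : Finset ε) : 0 ≤ wt p E F :=
  mul_nonneg (pow_nonneg h0 _) (pow_nonneg (by linarith) _)

theorem wt_insert {p : ℝ} {S F : Finset ε} {e : ε} (he : e ∉ S) (hF : F ⊆ S) :
    wt p (insert e S) F = (1 - p) * wt p S F := by
  unfold wt
  have h1 : insert e S \ F = insert e (S \ F) :=
    insert_sdiff_of_notMem _ (fun h => he (hF h))
  rw [h1, card_insert_of_notMem (fun h => he (mem_sdiff.1 h).1), pow_succ]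
  ring

theorem wt_insert_insert {p : ℝ} {S F : Finset ε} {e : ε} (he : e ∉ S) (hF : F ⊆ S) :
    wt p (insert e S) (insert e F) = p * wt p S F := by
  unfold wt
  have h1 : insert e S \ insert e F = S \ F := by
    ext x
    simp only [mem_sdiff, mem_insert]
    constructor
    · rintro ⟨h1, h2⟩
      rcases h1 with h1 | h1
      · exact absurd (Or.inl h1) h2
      · exact ⟨h1, fun h3 => h2 (Or.inr h3)⟩
    · rintro ⟨h1, h2⟩
      refine ⟨Or.inr h1, ?_⟩
      rintro (h3 | h3)
      · exact he (h3 ▸ h1)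
      · exact h2 h3
  rw [h1, card_insert_of_notMem (fun h => he (hF h)), pow_succ]
  ring

theorem marg_aux (p : ℝ) (A : Finset ε) (g : Finset ε → ℝ) (T : Finset ε) (hT : Disjoint A T) :
    ∑ F ∈ (A ∪ T).powerset, wt p (A ∪ T) F * g (F ∩ A) = ∑ F ∈ A.powerset, wt p A F * g F := by
  induction T using Finset.induction_on with
  | empty =>
    rw [union_empty]
    refine sum_congr rfl fun F hF => ?_
    rw [inter_eq_left.2 (mem_powerset.1 hF)]
  | insert e T he ih =>
    rw [disjoint_insert_right] at hT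
    have heS : e ∉ A ∪ T := by
      rw [mem_union]
      rintro (h | h)
      · exact hT.1 h
      · exact he h
    rw [union_insert, sum_powerset_insert heS, ← ih hT.2, ← sum_add_distrib]
    refine sum_congr rfl fun F hF => ?_
    have hF' := mem_powerset.1 hF
    rw [wt_insert heS hF', wt_insert_insert heS hF', insert_inter_of_notMem hT.1]
    ring

theorem marg (p : ℝ) {A S : Finset ε} (hA : A ⊆ S) (g : Finset ε → ℝ) :
    ∑ F ∈ S.powerset, wt p S F * g (F ∩ A) = ∑ F ∈ A.powerset, wt p A F * g F := by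
  have h := marg_aux p A g (S \ A) disjoint_sdiff
  rwa [union_sdiff_of_subset hA] at h

theorem sum_wt (p : ℝ) (S : Finset ε) : ∑ F ∈ S.powerset, wt p S F = 1 := by
  have h := marg p (empty_subset S) (fun _ => 1)
  simp only [mul_one, powerset_empty, sum_singleton] at h
  rw [h]
  simp [wt]

theorem wt_sdiff (p : ℝ) {E b F : Finset ε} (hb : b ⊆ E) (hF : F ⊆ E \ b) :
    wt p E F = (1 - p) ^ b.card * wt p (E \ b) F := by
  unfold wt
  have h1 : E \ F = b ∪ ((E \ b) \ F) := by
    ext x
    simp only [mem_sdiff, mem_union]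
    constructor
    · rintro ⟨h1, h2⟩
      by_cases h3 : x ∈ b
      · exact Or.inl h3
      · exact Or.inr ⟨⟨h1, h3⟩, h2⟩
    · rintro (h1 | ⟨⟨h1, -⟩, h2⟩)
      · exact ⟨hb h1, fun h2 => (mem_sdiff.1 (hF h2)).2 h1⟩
      · exact ⟨h1, h2⟩
  have h2 : Disjoint b ((E \ b) \ F) := by
    rw [disjoint_left]
    intro x hx hx'
    exact (mem_sdiff.1 (mem_sdiff.1 hx').1).2 hx
  rw [h1, card_union_of_disjoint h2, pow_add]
  ring

omit [DecidableEq ε] in
theorem bd_sub (en : ε → α × α) (E : Finset ε) (V : Finset α) : bdE en E V ⊆ E :=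
  filter_subset _ _

theorem in_sub (en : ε → α × α) (E : Finset ε) (V : Finset α) :
    inE en E V ⊆ E \ bdE en E V := by
  intro e he
  unfold inE at he
  unfold bdE
  rw [mem_filter] at he
  rw [mem_sdiff, mem_filter]
  refine ⟨he.1, ?_⟩
  rintro ⟨-, (h | h)⟩
  · exact h.2 he.2.2
  · exact h.1 he.2.1

open Classical in
/-- the event: nothing of `F ∪ H` on the boundary, `V` connected inside -/
noncomputable def ind (en : ε → α × α) (E : Finset ε) (V : Finset α) (F H : Finset ε) : ℝ :=
  if F ⊆ E \ bdE en E V ∧ H ⊆ E \ bdE en E V ∧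
    Conn en V ((F ∩ inE en E V) ∪ (H ∩ inE en E V)) then 1 else 0

open Classical in
theorem claim1 (en : ε → α × α) (E : Finset ε) (V : Finset α) (p q : ℝ) :
    ∑ F ∈ E.powerset, ∑ H ∈ E.powerset, wt p E F * wt q E H * ind en E V F H =
      ((1 - p) * (1 - q)) ^ (bdE en E V).card * conn2 en E V p q := by
  set b := bdE en E V with hb
  set I := inE en E V with hI
  have hbE : b ⊆ E := bd_sub en E V
  have hIE : I ⊆ E \ b := in_sub en E V
  let c : Finset ε → Finset ε → ℝ := fun F H => if Conn en V (F ∪ H) then 1 else 0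
  have h1 : ∀ F H : Finset ε, F ⊆ E \ b → H ⊆ E \ b → ind en E V F H = c (F ∩ I) (H ∩ I) := by
    intro F H hF hH
    unfold ind
    rw [← hb, ← hI]
    by_cases hc : Conn en V ((F ∩ I) ∪ (H ∩ I))
    · rw [if_pos ⟨hF, hH, hc⟩]
      exact (if_pos hc).symm
    · rw [if_neg (fun h => hc h.2.2)]
      exact (if_neg hc).symm
  have h2 : ∀ F H : Finset ε, ¬ F ⊆ E \ b → ind en E V F H = 0 := by
    intro F H hF
    unfold ind
    rw [← hb, ← hI, if_neg (fun h => hF h.1)]
  have h3 : ∀ F H : Finset ε, ¬ H ⊆ E \ b → ind en E V F H = 0 := by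
    intro F H hF
    unfold ind
    rw [← hb, ← hI, if_neg (fun h => hF h.2.1)]
  calc ∑ F ∈ E.powerset, ∑ H ∈ E.powerset, wt p E F * wt q E H * ind en E V F H
      = ∑ F ∈ (E \ b).powerset, ∑ H ∈ E.powerset, wt p E F * wt q E H * ind en E V F H := by
        refine sum_subset' _ sdiff_subset fun F _ hF => ?_
        refine sum_eq_zero fun H _ => ?_
        rw [h2 F H hF, mul_zero]
    _ = ∑ F ∈ (E \ b).powerset, ∑ H ∈ (E \ b).powerset,
          wt p E F * wt q E H * ind en E V F H := by
        refine sum_congr rfl fun F _ => ?_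
        refine sum_subset' _ sdiff_subset fun H _ hH => ?_
        rw [h3 F H hH, mul_zero]
    _ = ∑ F ∈ (E \ b).powerset, ((1 - p) ^ b.card * (1 - q) ^ b.card) * (wt p (E \ b) F *
          ∑ H ∈ (E \ b).powerset, wt q (E \ b) H * c (F ∩ I) (H ∩ I)) := by
        refine sum_congr rfl fun F hF => ?_
        rw [mul_sum, mul_sum]
        refine sum_congr rfl fun H hH => ?_
        have hF' := mem_powerset.1 hF
        have hH' := mem_powerset.1 hH
        rw [h1 F H hF' hH', wt_sdiff p hbE hF', wt_sdiff q hbE hH']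
        ring
    _ = ((1 - p) ^ b.card * (1 - q) ^ b.card) * ∑ F ∈ (E \ b).powerset, wt p (E \ b) F *
          ∑ H ∈ I.powerset, wt q I H * c (F ∩ I) H := by
        rw [mul_sum]
        refine sum_congr rfl fun F _ => ?_
        rw [marg q hIE (fun H => c (F ∩ I) H)]
    _ = ((1 - p) ^ b.card * (1 - q) ^ b.card) * ∑ F ∈ I.powerset, wt p I F *
          ∑ H ∈ I.powerset, wt q I H * c F H := by
        rw [marg p hIE (fun F => ∑ H ∈ I.powerset, wt q I H * c F H)]
    _ = ((1 - p) * (1 - q)) ^ b.card * conn2 en E V p q := by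
        rw [mul_pow]
        congr 1
        unfold conn2
        rw [← hI]
        refine sum_congr rfl fun F _ => ?_
        rw [mul_sum]
        refine sum_congr rfl fun H _ => ?_
        show wt p I F * (wt q I H * (if Conn en V (F ∪ H) then 1 else 0)) = _
        split_ifs
        · ring
        · ring

theorem reach {en : ε → α × α} {E : Finset ε} {V : Finset α} {o : α} (ho : o ∈ V)
    {F H : Finset ε} (hF : F ⊆ E \ bdE en E V) (hH : H ⊆ E \ bdE en E V)
    (hc : Conn en V ((F ∩ inE en E V) ∪ (H ∩ inE en E V))) (x : α) :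
    x ∈ V ↔ Relation.ReflTransGen (Lk en (F ∪ H)) o x := by
  constructor
  · intro hx
    have h1 : ∀ y z, Lk en ((F ∩ inE en E V) ∪ (H ∩ inE en E V)) y z → Lk en (F ∪ H) y z := by
      rintro y z ⟨e, he, h⟩
      refine ⟨e, ?_, h⟩
      rcases mem_union.1 he with he | he
      · exact mem_union_left _ (mem_inter.1 he).1
      · exact mem_union_right _ (mem_inter.1 he).1
    exact Relation.ReflTransGen.mono h1 _ _ (hc o ho x hx)
  · intro hx
    induction hx with
    | refl => exact ho
    | @tail y z _ hyz ih =>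
      obtain ⟨e, he, h⟩ := hyz
      have heb : e ∈ E \ bdE en E V := by
        rcases mem_union.1 he with he | he
        · exact hF he
        · exact hH he
      by_contra hz
      rw [mem_sdiff] at heb
      apply heb.2
      unfold bdE
      rw [mem_filter]
      refine ⟨heb.1, ?_⟩
      rcases h with h | h
      · left
        rw [h]
        exact ⟨ih, hz⟩
      · right
        rw [h]
        exact ⟨hz, ih⟩

theorem sum_ind_le (en : ε → α × α) (E : Finset ε) (o : α) (𝒱 : Finset (Finset α))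
    (ho : ∀ V ∈ 𝒱, o ∈ V) (F H : Finset ε) : ∑ V ∈ 𝒱, ind en E V F H ≤ 1 := by
  classical
  unfold ind
  rw [sum_boole]
  have : (𝒱.filter fun V => F ⊆ E \ bdE en E V ∧ H ⊆ E \ bdE en E V ∧
    Conn en V ((F ∩ inE en E V) ∪ (H ∩ inE en E V))).card ≤ 1 := by
    rw [card_le_one]
    intro V hV W hW
    rw [mem_filter] at hV hW
    ext x
    rw [reach (ho V hV.1) hV.2.1 hV.2.2.1 hV.2.2.2 x,
      reach (ho W hW.1) hW.2.1 hW.2.2.1 hW.2.2.2 x]
  exact_mod_cast this

end

theorem t_PERC : S_PERC := by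
  intro α ε _ _ en E o p q 𝒱 hp0 hp1 hq0 hq1 ho
  calc ∑ V ∈ 𝒱, ((1 - p) * (1 - q)) ^ (bdE en E V).card * conn2 en E V p q
      = ∑ V ∈ 𝒱, ∑ F ∈ E.powerset, ∑ H ∈ E.powerset,
          wt p E F * wt q E H * ind en E V F H :=
        sum_congr rfl fun V _ => (claim1 en E V p q).symm
    _ = ∑ F ∈ E.powerset, ∑ H ∈ E.powerset,
          wt p E F * wt q E H * ∑ V ∈ 𝒱, ind en E V F H := by
        rw [sum_comm]
        refine sum_congr rfl fun F _ => ?_
        rw [sum_comm]
        refine sum_congr rfl fun H _ => ?_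
        rw [mul_sum]
    _ ≤ ∑ F ∈ E.powerset, ∑ H ∈ E.powerset, wt p E F * wt q E H * 1 := by
        refine sum_le_sum fun F _ => sum_le_sum fun H _ => ?_
        exact mul_le_mul_of_nonneg_left (sum_ind_le en E o 𝒱 ho F H)
          (mul_nonneg (wt_nonneg hp0 hp1 E F) (wt_nonneg hq0 hq1 E H))
    _ = 1 := by
        have h : ∀ F ∈ E.powerset, ∑ H ∈ E.powerset, wt p E F * wt q E H * 1 = wt p E F := by
          intro F _
          simp only [mul_one]
          rw [← mul_sum, sum_wt, mul_one]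
        rw [sum_congr rfl h, sum_wt]

end Pool.Agent.Q182.CPPERC
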