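import Mathlib
import Pool.Agent.Q2.CS2.Stm

/-! Project CAS of helper2 (MP_466bd8_al): job 8, the partition map of the example is homogeneous. -/

set_option autoImplicit false

namespace Q182.CS2_8

open Q2.CS2

lemma V_ext (x y : V) (h1 : x.1.1 = y.1.1) (h2 : ∀ i, i ∈ x.1.2 ↔ i ∈ y.1.2) : x = y :=
  Subtype.ext (Prod.ext h1 (Finset.ext h2))

lemma E_ext (x y : E) (h1 : x.1.1 = y.1.1) (h2 : ∀ i, i ∈ x.1.2 ↔ i ∈ y.1.2) : x = y :=
  Subtype.ext (Prod.ext h1 (Finset.ext h2))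

lemma Pi_fst (x y : V) : (Pi x y).1.1 = y.1.1 - x.1.1 := rfl

lemma mem_symm (A B : Finset ℤ) (i : ℤ) : i ∈ symmDiff A B ↔ ¬ (i ∈ A ↔ i ∈ B) := by
  rw [Finset.mem_symmDiff]
  tauto

lemma mem_Pi (x y : V) (i : ℤ) : i ∈ (Pi x y).1.2 ↔
    ¬ (i + x.1.1 ∈ x.1.2 ↔ i + x.1.1 ∈ y.1.2) ∧ i < 0 ∧ i < y.1.1 - x.1.1 := by
  have h : (Pi x y).1.2 = ((symmDiff x.1.2 y.1.2).filter
      (fun i => i < x.1.1 ∧ i < y.1.1)).image (fun i => i - x.1.1) := rfl
  rw [h, Finset.mem_image]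
  constructor
  · rintro ⟨j, hj, rfl⟩
    rw [Finset.mem_filter, mem_symm] at hj
    rw [sub_add_cancel]
    exact ⟨hj.1, by linarith [hj.2.1], by linarith [hj.2.2]⟩
  · rintro ⟨h1, h2, h3⟩
    refine ⟨i + x.1.1, ?_, by ring⟩
    rw [Finset.mem_filter, mem_symm]
    exact ⟨h1, by linarith, by linarith⟩

/-- the translations of the tree -/
def gg (k : ℤ) (T : Finset ℤ) (x : V) : V :=
  ⟨(x.1.1 + k, ((symmDiff x.1.2 T).filter (fun i => i < x.1.1)).image (fun i => i + k)), by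
    intro i hi
    simp only [Finset.mem_image, Finset.mem_filter] at hi
    obtain ⟨j, ⟨_, h1⟩, rfl⟩ := hi
    simp only
    linarith⟩

lemma gg_fst (k : ℤ) (T : Finset ℤ) (x : V) : (gg k T x).1.1 = x.1.1 + k := rfl

lemma mem_gg (k : ℤ) (T : Finset ℤ) (x : V) (i : ℤ) : i ∈ (gg k T x).1.2 ↔
    ¬ (i - k ∈ x.1.2 ↔ i - k ∈ T) ∧ i - k < x.1.1 := by
  have h : (gg k T x).1.2 = ((symmDiff x.1.2 T).filter (fun i => i < x.1.1)).image
      (fun i => i + k) := rfl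
  rw [h, Finset.mem_image]
  constructor
  · rintro ⟨j, hj, rfl⟩
    rw [Finset.mem_filter, mem_symm] at hj
    rw [add_sub_cancel_right]
    exact hj
  · rintro ⟨h1, h2⟩
    refine ⟨i - k, ?_, by ring⟩
    rw [Finset.mem_filter, mem_symm]
    exact ⟨h1, h2⟩

lemma gg_gg (k l : ℤ) (T U : Finset ℤ) (hkl : k + l = 0) (hU : ∀ i, i + k ∈ U ↔ i ∈ T) (x : V) :
    gg l U (gg k T x) = x := by
  refine V_ext _ _ ?_ ?_
  · rw [gg_fst, gg_fst]
    linarith
  · intro i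
    have e : i - l = i + k := by linarith
    rw [mem_gg, mem_gg, gg_fst, e, add_sub_cancel_right, hU]
    constructor
    · rintro ⟨h1, h2⟩
      have h3 : i < x.1.1 := by linarith
      tauto
    · intro h
      have h3 : i < x.1.1 := x.2 i h
      refine ⟨?_, by linarith⟩
      tauto

/-- the bijection -/
def ge (k : ℤ) (T : Finset ℤ) : V ≃ V where
  toFun := gg k T
  invFun := gg (-k) (T.image (fun i => i + k))
  left_inv x := by
    refine gg_gg k (-k) T _ (by ring) ?_ x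
    intro i
    rw [Finset.mem_image]
    constructor
    · rintro ⟨j, hj, h⟩
      have : j = i := by linarith
      rw [← this]
      exact hj
    · intro h
      exact ⟨i, h, rfl⟩
  right_inv x := by
    refine gg_gg (-k) k _ T (by ring) ?_ x
    intro i
    rw [Finset.mem_image]
    constructor
    · intro h
      exact ⟨i + -k, h, by ring⟩
    · rintro ⟨j, hj, h⟩
      have : i + -k = j := by linarith
      rw [this]
      exact hj

lemma Pi_gg (k : ℤ) (T : Finset ℤ) (u v : V) : Pi (gg k T u) (gg k T v) = Pi u v := by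
  refine E_ext _ _ ?_ ?_
  · rw [Pi_fst, Pi_fst, gg_fst, gg_fst]
    ring
  · intro i
    have e : i + (u.1.1 + k) - k = i + u.1.1 := by ring
    rw [mem_Pi, mem_Pi, mem_gg, mem_gg, gg_fst, gg_fst, e]
    constructor
    · rintro ⟨h1, h2, h3⟩
      have h4 : i + u.1.1 < u.1.1 := by linarith
      have h5 : i + u.1.1 < v.1.1 := by linarith
      refine ⟨?_, h2, by linarith⟩
      tauto
    · rintro ⟨h1, h2, h3⟩
      have h4 : i + u.1.1 < u.1.1 := by linarith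
      have h5 : i + u.1.1 < v.1.1 := by linarith
      refine ⟨?_, h2, by linarith⟩
      tauto

/-- the Boolean bookkeeping of the choice of `T` -/
lemma exT (x y x' y' : V) (k : ℤ) :
    ∃ T : Finset ℤ, (∀ i, i - k < x.1.1 → (i - k ∈ T ↔ ¬ (i - k ∈ x.1.2 ↔ i ∈ x'.1.2))) ∧
      (∀ i, x.1.1 ≤ i - k → (i - k ∈ T ↔ ¬ (i - k ∈ y.1.2 ↔ i ∈ y'.1.2))) := by
  have him : ∀ (A : Finset ℤ) (i : ℤ), i - k ∈ A.image (fun i => i - k) ↔ i ∈ A := by
    intro A i
    rw [Finset.mem_image]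
    constructor
    · rintro ⟨j, hj, e⟩
      have : j = i := by linarith
      rw [← this]
      exact hj
    · intro hi
      exact ⟨i, hi, rfl⟩
  refine ⟨((symmDiff x.1.2 (x'.1.2.image (fun i => i - k))).filter
      (fun i => i < x.1.1)) ∪ ((symmDiff y.1.2 (y'.1.2.image (fun i => i - k))).filter
      (fun i => x.1.1 ≤ i)), ?_, ?_⟩
  · intro i hi
    have h1 := him x'.1.2 i
    have h2 : ¬ (x.1.1 ≤ i - k) := not_le.2 hi
    have h3 := mem_symm x.1.2 (x'.1.2.image (fun i => i - k)) (i - k)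
    rw [Finset.mem_union, Finset.mem_filter, Finset.mem_filter]
    tauto
  · intro i hi
    have h1 := him y'.1.2 i
    have h2 : ¬ (i - k < x.1.1) := not_lt.2 hi
    have h3 := mem_symm y.1.2 (y'.1.2.image (fun i => i - k)) (i - k)
    rw [Finset.mem_union, Finset.mem_filter, Finset.mem_filter]
    tauto

lemma p1 (P Q a b c : Prop) (h : (¬ P ∧ a ∧ b) ↔ (¬ Q ∧ a ∧ c)) (ha : a) (hb : b) (hc : c) :
    P ↔ Q := by
  by_cases hP : P <;> by_cases hQ : Q <;> simp_all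

lemma p2 (A B C D T : Prop) (h5 : T ↔ ¬ (A ↔ C)) (h3 : (A ↔ B) ↔ (C ↔ D)) :
    T ↔ ¬ (B ↔ D) := by
  by_cases hA : A <;> by_cases hB : B <;> by_cases hC : C <;> by_cases hD : D <;> simp_all

lemma p3 (A C T : Prop) (h3 : T ↔ ¬ (A ↔ C)) : ¬ (A ↔ T) ↔ C := by
  by_cases hA : A <;> by_cases hC : C <;> simp_all

lemma hom1 (x y x' y' : V) (h : Pi x y = Pi x' y') :
    ∃ g : V ≃ V, (∀ u v, Pi (g u) (g v) = Pi u v) ∧ g x = x' ∧ g y = y' := by
  have hm : y.1.1 - x.1.1 = y'.1.1 - x'.1.1 := by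
    have h1 := Pi_fst x y
    have h2 := Pi_fst x' y'
    rw [h] at h1
    exact h1.symm.trans h2
  have hS : ∀ i : ℤ, i < 0 → i < y.1.1 - x.1.1 →
      ((i + x.1.1 ∈ x.1.2 ↔ i + x.1.1 ∈ y.1.2) ↔ (i + x'.1.1 ∈ x'.1.2 ↔ i + x'.1.1 ∈ y'.1.2)) := by
    intro i h1 h2
    have h3 := mem_Pi x y i
    have h4 := mem_Pi x' y' i
    rw [h] at h3
    have h5 : i < y'.1.1 - x'.1.1 := by linarith
    exact p1 _ _ _ _ _ (h3.symm.trans h4) h1 h2 h5
  obtain ⟨k, hk⟩ : ∃ k : ℤ, k = x'.1.1 - x.1.1 := ⟨_, rfl⟩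
  obtain ⟨T, hT1, hT2⟩ := exT x y x' y' k
  refine ⟨ge k T, fun u v => Pi_gg k T u v, ?_, ?_⟩
  · show gg k T x = x'
    refine V_ext _ _ ?_ ?_
    · rw [gg_fst, hk]; ring
    · intro i
      rw [mem_gg]
      constructor
      · rintro ⟨h1, h2⟩
        exact (p3 _ _ _ (hT1 i h2)).1 h1
      · intro h1
        have h2 : i < x'.1.1 := x'.2 i h1
        have h3 : i - k < x.1.1 := by linarith
        exact ⟨(p3 _ _ _ (hT1 i h3)).2 h1, h3⟩
  · show gg k T y = y'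
    refine V_ext _ _ ?_ ?_
    · rw [gg_fst, hk]; linarith
    · intro i
      rw [mem_gg]
      have key : i - k < y.1.1 → (i - k ∈ T ↔ ¬ (i - k ∈ y.1.2 ↔ i ∈ y'.1.2)) := by
        intro h1
        rcases lt_or_ge (i - k) x.1.1 with h2 | h2
        · have h5 := hT1 i h2
          have h3 := hS (i - k - x.1.1) (by linarith) (by linarith)
          have e1 : i - k - x.1.1 + x.1.1 = i - k := by ring
          have e2 : i - k - x.1.1 + x'.1.1 = i := by rw [hk]; ring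
          rw [e1, e2] at h3
          exact p2 _ _ _ _ _ h5 h3
        · exact hT2 i h2
      constructor
      · rintro ⟨h1, h2⟩
        exact (p3 _ _ _ (key h2)).1 h1
      · intro h1
        have h2 : i < y'.1.1 := y'.2 i h1
        have h3 : i - k < y.1.1 := by linarith
        exact ⟨(p3 _ _ _ (key h3)).2 h1, h3⟩

lemma hom2 (x y : V) : Pi x x = Pi y y := by
  refine E_ext _ _ ?_ ?_
  · rw [Pi_fst, Pi_fst]; ring
  · intro i
    rw [mem_Pi, mem_Pi]
    tauto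

lemma hom3 (h : E) : ∃ x y, Pi x y = h := by
  obtain ⟨⟨k, U⟩, hU⟩ := h
  have hU' : ∀ i ∈ U, i < k := fun i hi => (hU i hi).2
  obtain ⟨x, hx⟩ : ∃ x : V, x.1.1 = 0 ∧ ∀ i, i ∉ x.1.2 :=
    ⟨⟨(0, ∅), by simp⟩, rfl, fun i => Finset.notMem_empty i⟩
  obtain ⟨y, hy⟩ : ∃ y : V, y.1.1 = k ∧ ∀ i, i ∈ y.1.2 ↔ i ∈ U :=
    ⟨⟨(k, U), hU'⟩, rfl, fun i => Iff.rfl⟩
  refine ⟨x, y, E_ext _ _ ?_ ?_⟩
  · have h1 := Pi_fst x y
    rw [hx.1, hy.1, sub_zero] at h1
    exact h1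
  · intro i
    have h1 := mem_Pi x y i
    rw [hx.1, hy.1, add_zero, sub_zero] at h1
    have h2 := hx.2 i
    have h3 := hy.2 i
    have h4 := hU i
    refine h1.trans ?_
    show _ ↔ i ∈ U
    simp only at h4
    tauto

lemma hom4 (x : V) (h : E) : {y | Pi x y = h}.Finite := by
  have hinj : Set.InjOn (fun y : V => y.1.2) {y | Pi x y = h} := by
    intro y hy z hz hyz
    have h1 : Pi x y = h := hy
    have h2 : Pi x z = h := hz
    have h3 : y.1.1 - x.1.1 = z.1.1 - x.1.1 := by rw [← Pi_fst, ← Pi_fst, h1, h2]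
    have h4 : y.1.2 = z.1.2 := hyz
    exact V_ext y z (by linarith) (fun i => by rw [h4])
  refine Set.Finite.of_finite_image ?_ hinj
  refine Set.Finite.subset (Finset.finite_toSet
    (x.1.2 ∪ h.1.2.image (fun i => i + x.1.1) ∪ Finset.Ico x.1.1 (x.1.1 + h.1.1)).powerset) ?_
  rintro S ⟨y, hy, rfl⟩
  have hy' : Pi x y = h := hy
  subst hy'
  rw [Finset.mem_coe, Finset.mem_powerset]
  intro i hi
  have hi' : i ∈ y.1.2 := hi
  have hiy : i < y.1.1 := y.2 i hi'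
  rw [Finset.mem_union, Finset.mem_union, Finset.mem_image, Finset.mem_Ico, Pi_fst]
  by_cases h1 : i < x.1.1
  · by_cases h2 : i ∈ x.1.2
    · exact Or.inl (Or.inl h2)
    · refine Or.inl (Or.inr ⟨i - x.1.1, ?_, by ring⟩)
      rw [mem_Pi, sub_add_cancel]
      exact ⟨fun h3 => h2 (h3.2 hi'), by linarith, by linarith⟩
  · exact Or.inr ⟨not_lt.1 h1, by linarith⟩

/-- **job 8** -/
theorem j8 : S_8 := ⟨hom1, hom2, hom3, hom4⟩

end Q182.CS2_8
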