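import Mathlib

/-!
# The semilattice of the example: c-complete, not s-complete
-/

namespace Q182.CS

open Set Filter Topology

/-- Indicator functions of subsets of `ℕ × ℕ`. -/
abbrev Arr : Type := ℕ × ℕ → Bool

/-- The points of the example: pairs `(A, s)`, with `A` (the indicator of) an upper set, such that
either `s = ∞` and `A` is empty, or `s` is finite and `(A, s)` is a graph point (`s` is the least
`m` with `(m, m) ∈ A`) or a non-graph point (`A` contains no `(k, 0)`, `(2s, 2s) ∈ A`,
`(s, s) ∉ A`). -/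
def P (A : Arr) (s : ℕ∞) : Prop :=
  Monotone A ∧ ((s = ⊤ ∧ ∀ e, A e = false) ∨ ∃ n : ℕ, s = n ∧
    ((A (n, n) = true ∧ ∀ m < n, A (m, m) = false) ∨
      ((∀ k, A (k, 0) = false) ∧ A (2 * n, 2 * n) = true ∧ A (n, n) = false)))

lemma P_cases {A : Arr} {s : ℕ∞} (h : P A s) : (s = ⊤ ∧ ∀ e, A e = false) ∨
    (∃ n : ℕ, s = n ∧ A (n, n) = true ∧ ∀ m < n, A (m, m) = false) ∨
    (∃ n : ℕ, s = n ∧ (∀ k, A (k, 0) = false) ∧ A (2 * n, 2 * n) = true ∧ A (n, n) = false) := by
  rcases h.2 with h | ⟨n, hn, h | h⟩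
  · exact Or.inl h
  · exact Or.inr (Or.inl ⟨n, hn, h⟩)
  · exact Or.inr (Or.inr ⟨n, hn, h⟩)

lemma mono_diag {A : Arr} (hA : Monotone A) {m n : ℕ} (h : m ≤ n) (hm : A (m, m) = true) :
    A (n, n) = true := by
  have := hA (show ((m, m) : ℕ × ℕ) ≤ (n, n) from ⟨h, h⟩)
  rw [hm] at this
  revert this
  cases A (n, n) <;> simp

lemma mono_true {A : Arr} (hA : Monotone A) {e f : ℕ × ℕ} (h : e ≤ f) (hm : A e = true) :
    A f = true := by
  have := hA h
  rw [hm] at this
  revert this
  cases A f <;> simp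

lemma mono_false {A : Arr} (hA : Monotone A) {e f : ℕ × ℕ} (h : e ≤ f) (hm : A f = false) :
    A e = false := by
  by_contra h'
  have h1 : A e = true := by simpa using h'
  rw [mono_true hA h h1] at hm
  exact absurd hm (by simp)

lemma P_inf {A B : Arr} {s t : ℕ∞} (hA : P A s) (hB : P B t) : P (A ⊓ B) (max s t) := by
  refine ⟨fun e f h => inf_le_inf (hA.1 h) (hB.1 h), ?_⟩
  have key : ∀ (A B : Arr) (s t : ℕ∞), P A s → P B t → s ≤ t →
      ((t = ⊤ ∧ ∀ e, (A ⊓ B) e = false) ∨ ∃ n : ℕ, t = n ∧
        (((A ⊓ B) (n, n) = true ∧ ∀ m < n, (A ⊓ B) (m, m) = false) ∨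
        ((∀ k, (A ⊓ B) (k, 0) = false) ∧ (A ⊓ B) (2 * n, 2 * n) = true ∧
          (A ⊓ B) (n, n) = false))) := by
    intro A B s t hA hB hst
    rcases P_cases hB with ⟨rfl, h⟩ | ⟨n, rfl, h1, h2⟩ | ⟨n, rfl, h1, h2, h3⟩
    · refine Or.inl ⟨rfl, fun e => ?_⟩
      show (A e && B e) = false
      rw [h e, Bool.and_false]
    · refine Or.inr ⟨n, rfl, ?_⟩
      rcases P_cases hA with ⟨rfl, -⟩ | ⟨m, rfl, h4, h5⟩ | ⟨m, rfl, h4, h5, h6⟩
      · simp at hst
      · have hmn : m ≤ n := by exact_mod_cast hst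
        left
        refine ⟨?_, fun k hk => ?_⟩
        · show (A (n, n) && B (n, n)) = true
          rw [h1, mono_diag hA.1 hmn h4, Bool.and_true]
        · show (A (k, k) && B (k, k)) = false
          rw [h2 k hk, Bool.and_false]
      · have hmn : m ≤ n := by exact_mod_cast hst
        by_cases hAn : A (n, n) = true
        · left
          refine ⟨?_, fun k hk => ?_⟩
          · show (A (n, n) && B (n, n)) = true
            rw [h1, hAn, Bool.and_true]
          · show (A (k, k) && B (k, k)) = false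
            rw [h2 k hk, Bool.and_false]
        · right
          refine ⟨fun k => ?_, ?_, ?_⟩
          · show (A (k, 0) && B (k, 0)) = false
            rw [h4 k, Bool.false_and]
          · show (A (2 * n, 2 * n) && B (2 * n, 2 * n)) = true
            rw [mono_diag hA.1 (by omega : 2 * m ≤ 2 * n) h5, mono_diag hB.1 (by omega : n ≤ 2 * n) h1,
              Bool.and_true]
          · show (A (n, n) && B (n, n)) = false
            rw [Bool.eq_false_iff.2 hAn, Bool.false_and]
    · refine Or.inr ⟨n, rfl, Or.inr ⟨fun k => ?_, ?_, ?_⟩⟩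
      · show (A (k, 0) && B (k, 0)) = false
        rw [h1 k, Bool.and_false]
      · show (A (2 * n, 2 * n) && B (2 * n, 2 * n)) = true
        have : A (2 * n, 2 * n) = true := by
          rcases P_cases hA with ⟨rfl, -⟩ | ⟨m, rfl, h4, h5⟩ | ⟨m, rfl, h4, h5, h6⟩
          · simp at hst
          · have hmn : m ≤ n := by exact_mod_cast hst
            exact mono_diag hA.1 (by omega) h4
          · have hmn : m ≤ n := by exact_mod_cast hst
            exact mono_diag hA.1 (by omega) h5
        rw [h2, this, Bool.and_true]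
      · show (A (n, n) && B (n, n)) = false
        rw [h3, Bool.and_false]
  rcases le_total s t with h | h
  · rw [max_eq_right h]
    exact key A B s t hA hB h
  · rw [max_eq_left h, inf_comm]
    exact key B A t s hB hA h

/-- The semilattice of the example. -/
def X : Type := {p : Arr × ℕ∞ᵒᵈ // P p.1 (OrderDual.ofDual p.2)}

noncomputable instance : SemilatticeInf X :=
  Subtype.semilatticeInf (P := fun p : Arr × ℕ∞ᵒᵈ => P p.1 (OrderDual.ofDual p.2))
    (fun _ _ h1 h2 => P_inf h1 h2)

/-- The first component. -/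
def X.A (x : X) : Arr := x.1.1

/-- The second component. -/
def X.s (x : X) : ℕ∞ := OrderDual.ofDual x.1.2

lemma X.P (x : X) : P x.A x.s := x.2

lemma le_iff (x y : X) : x ≤ y ↔ x.A ≤ y.A ∧ y.s ≤ x.s := Iff.rfl

lemma A_inf (x y : X) (e : ℕ × ℕ) : (x ⊓ y).A e = (x.A e && y.A e) := rfl

lemma s_inf (x y : X) : (x ⊓ y).s = max x.s y.s := rfl

lemma ext' {x y : X} (h1 : x.A = y.A) (h2 : x.s = y.s) : x = y := Subtype.ext (Prod.ext h1 h2)

/-- The flag: `true` exactly at the graph points. -/
def fl (x : X) : Bool := ENat.recTopCoe (C := fun _ => Bool) false (fun n => x.A (n, n)) x.s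

lemma fl_of_nat {x : X} {n : ℕ} (h : x.s = n) : fl x = x.A (n, n) := by
  unfold fl
  rw [h]
  rfl

lemma fl_of_top {x : X} (h : x.s = ⊤) : fl x = false := by
  unfold fl
  rw [h]
  rfl

/-- The map defining the topology. -/
noncomputable def emb (x : X) : Arr × ℕ∞ × Bool := (x.A, x.s, fl x)

noncomputable instance : TopologicalSpace X := TopologicalSpace.induced emb inferInstance

lemma inducing_emb : IsInducing emb := ⟨rfl⟩

instance : T2Space X := by
  apply T2Space.of_injective_continuous (f := emb) _ inducing_emb.continuous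
  intro x y h
  exact ext' (congrArg (fun p : Arr × ℕ∞ × Bool => p.1) h)
    (congrArg (fun p : Arr × ℕ∞ × Bool => p.2.1) h)

lemma ev_const {Z : Type*} [TopologicalSpace Z] {f : Z → Bool} (hf : Continuous f) (z : Z) :
    ∀ᶠ w in 𝓝 z, f w = f z :=
  hf.continuousAt.eventually_mem ((isOpen_discrete {f z}).mem_nhds rfl)

lemma continuous_A (e : ℕ × ℕ) : Continuous (fun x : X => x.A e) := by
  have h : Continuous (fun x : X => (emb x).1 e) :=
    (continuous_apply e).comp (continuous_fst.comp inducing_emb.continuous)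
  exact h

lemma continuous_s : Continuous (fun x : X => x.s) := by
  have h : Continuous (fun x : X => (emb x).2.1) :=
    continuous_fst.comp (continuous_snd.comp inducing_emb.continuous)
  exact h

lemma continuous_fl : Continuous fl := by
  have h : Continuous (fun x : X => (emb x).2.2) :=
    continuous_snd.comp (continuous_snd.comp inducing_emb.continuous)
  exact h

lemma tendsto_iff {ι : Type*} {l : Filter ι} {f : ι → X} {x : X} :
    Tendsto f l (𝓝 x) ↔ (∀ e, ∀ᶠ i in l, (f i).A e = x.A e) ∧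
      Tendsto (fun i => (f i).s) l (𝓝 x.s) ∧ ∀ᶠ i in l, fl (f i) = fl x := by
  rw [inducing_emb.tendsto_nhds_iff]
  show Tendsto _ l (𝓝 (x.A, x.s, fl x)) ↔ _
  rw [nhds_prod_eq, nhds_prod_eq, tendsto_prod_iff', tendsto_prod_iff', tendsto_pi_nhds]
  simp only [nhds_discrete, tendsto_pure]
  rfl

lemma natCast_max' (n m : ℕ) : ((max n m : ℕ) : ℕ∞) = max (n : ℕ∞) (m : ℕ∞) := by
  rcases le_total n m with h | h
  · rw [max_eq_right h, max_eq_right (by exact_mod_cast h)]
  · rw [max_eq_left h, max_eq_left (by exact_mod_cast h)]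

lemma fl_inf_of_le {x y : X} (hx : fl x = false) (h : y.s ≤ x.s) : fl (x ⊓ y) = false := by
  have hs : (x ⊓ y).s = x.s := by rw [s_inf, max_eq_left h]
  rcases eq_or_ne x.s ⊤ with ht | ht
  · exact fl_of_top (hs.trans ht)
  · obtain ⟨n, hn⟩ := ENat.ne_top_iff_exists.1 ht
    rw [fl_of_nat (hs.trans hn.symm), A_inf]
    rw [fl_of_nat hn.symm] at hx
    rw [hx, Bool.false_and]

/-- Near a point whose second component is infinite. -/
lemma ev_fl_inf {x y : X} (hx : x.s = ⊤) : ∀ᶠ p : X × X in 𝓝 (x, y), fl (p.1 ⊓ p.2) = false := by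
  have h1 : ∀ᶠ p : X × X in 𝓝 (x, y), fl p.1 = fl x :=
    ev_const (continuous_fl.comp continuous_fst) (x, y)
  have h2 : ∀ᶠ p : X × X in 𝓝 (x, y), fl p.2 = fl y :=
    ev_const (continuous_fl.comp continuous_snd) (x, y)
  rcases eq_or_ne y.s ⊤ with hy | hy
  · filter_upwards [h1, h2] with p hp1 hp2
    rw [fl_of_top hx] at hp1
    rw [fl_of_top hy] at hp2
    rcases le_total p.2.s p.1.s with h | h
    · exact fl_inf_of_le hp1 h
    · rw [inf_comm]
      exact fl_inf_of_le hp2 h
  · have h3 : ∀ᶠ p : X × X in 𝓝 (x, y), y.s < p.1.s := by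
      have hc : Continuous (fun p : X × X => p.1.s) := continuous_s.comp continuous_fst
      have h5 : y.s < x.s := by
        rw [hx]
        exact lt_top_iff_ne_top.2 hy
      exact (hc.continuousAt (x := (x, y))).eventually (lt_mem_nhds h5)
    have h4 : ∀ᶠ p : X × X in 𝓝 (x, y), p.2.s = y.s := by
      have hc : Continuous (fun p : X × X => p.2.s) := continuous_s.comp continuous_snd
      exact (hc.continuousAt (x := (x, y))).eventually_mem
        ((ENat.isOpen_singleton hy).mem_nhds (mem_singleton _))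
    filter_upwards [h1, h3, h4] with p hp1 hp3 hp4
    rw [fl_of_top hx] at hp1
    exact fl_inf_of_le hp1 (by rw [hp4]; exact hp3.le)

instance : ContinuousInf X := by
  refine ⟨continuous_iff_continuousAt.2 fun p => ?_⟩
  obtain ⟨x, y⟩ := p
  have hA : ∀ e, ∀ᶠ p : X × X in 𝓝 (x, y), (p.1 ⊓ p.2).A e = (x ⊓ y).A e := by
    intro e
    have h1 : Continuous (fun p : X × X => (p.1.A e && p.2.A e)) :=
      (continuous_of_discreteTopology (f := fun b : Bool × Bool => (b.1 && b.2))).comp
        (((continuous_A e).comp continuous_fst).prodMk ((continuous_A e).comp continuous_snd))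
    exact ev_const h1 (x, y)
  rw [ContinuousAt, tendsto_iff]
  refine ⟨hA, ?_, ?_⟩
  · have h1 : Continuous (fun p : X × X => max p.1.s p.2.s) :=
      (continuous_s.comp continuous_fst).max (continuous_s.comp continuous_snd)
    exact h1.continuousAt (x := (x, y))
  · rcases eq_or_ne x.s ⊤ with hx | hx
    · filter_upwards [ev_fl_inf (y := y) hx] with p hp
      rw [hp]
      refine (fl_of_top ?_).symm
      rw [s_inf, hx]
      exact max_eq_left le_top
    rcases eq_or_ne y.s ⊤ with hy | hy
    · have h1 := ev_fl_inf (x := y) (y := x) hy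
      have h2 : Tendsto (fun p : X × X => (p.2, p.1)) (𝓝 (x, y)) (𝓝 (y, x)) :=
        continuous_swap.continuousAt
      filter_upwards [h2.eventually h1] with p hp
      rw [inf_comm, hp]
      refine (fl_of_top ?_).symm
      rw [s_inf, hy]
      exact max_eq_right le_top
    obtain ⟨n, hn⟩ := ENat.ne_top_iff_exists.1 hx
    obtain ⟨m, hm⟩ := ENat.ne_top_iff_exists.1 hy
    have h3 : ∀ᶠ p : X × X in 𝓝 (x, y), p.1.s = x.s := by
      have hc : Continuous (fun p : X × X => p.1.s) := continuous_s.comp continuous_fst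
      exact (hc.continuousAt (x := (x, y))).eventually_mem
        ((ENat.isOpen_singleton hx).mem_nhds (mem_singleton _))
    have h4 : ∀ᶠ p : X × X in 𝓝 (x, y), p.2.s = y.s := by
      have hc : Continuous (fun p : X × X => p.2.s) := continuous_s.comp continuous_snd
      exact (hc.continuousAt (x := (x, y))).eventually_mem
        ((ENat.isOpen_singleton hy).mem_nhds (mem_singleton _))
    filter_upwards [h3, h4, hA (max n m, max n m)] with p hp3 hp4 hp
    have h5 : (x ⊓ y).s = ((max n m : ℕ) : ℕ∞) := by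
      rw [s_inf, ← hn, ← hm]
      exact (natCast_max' n m).symm
    have h6 : (p.1 ⊓ p.2).s = ((max n m : ℕ) : ℕ∞) := by
      rw [s_inf, hp3, hp4, ← hn, ← hm]
      exact (natCast_max' n m).symm
    rw [fl_of_nat h5, fl_of_nat h6, hp]

end Q182.CS
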