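import Mathlib
import Pool.Agent.Q182.SemilatticeDefs
import Pool.Agent.Q182.CSExample

/-!
# The example is c-complete and not s-complete
-/

namespace Q182.CS

open Set Filter Topology

/-- Strictly increasing sequences do not exist. -/
lemma wf_gt : WellFounded ((· > ·) : X → X → Prop) := by
  rw [wellFounded_iff_isEmpty_descending_chain]
  refine ⟨fun ⟨x, hx⟩ => ?_⟩
  have hx' : StrictMono x := strictMono_nat_of_lt_succ fun n => hx n
  -- the second component is eventually constant
  obtain ⟨N, hN⟩ : ∃ N, ∀ n ≥ N, (x n).s = (x N).s := by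
    let W : WellFounded ((· < ·) : ℕ∞ → ℕ∞ → Prop) := wellFounded_lt
    obtain ⟨N, hN⟩ := W.min_mem (range fun n => (x n).s) ⟨_, 0, rfl⟩
    refine ⟨N, fun n hn => ?_⟩
    have h1 : (x n).s ≤ (x N).s := ((le_iff _ _).1 (hx'.monotone hn)).2
    have h2 := W.not_lt_min (range fun n => (x n).s) (x := (x n).s) ⟨n, rfl⟩
    rw [← hN] at h2
    exact le_antisymm h1 (not_lt.1 h2)
  have h1 : ∀ n, ∃ e, (x (N + n)).A e = false ∧ (x (N + n + 1)).A e = true := by
    intro n
    by_contra hcon
    push Not at hcon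
    have hlt : x (N + n) < x (N + n + 1) := hx' (Nat.lt_succ_self _)
    apply hlt.ne
    apply ext'
    · apply le_antisymm ((le_iff _ _).1 hlt.le).1
      intro e
      cases h2 : (x (N + n)).A e
      · have := hcon e h2
        rw [Bool.eq_false_iff.2 this]
      · exact Bool.le_true _
    · rw [hN _ (by omega), hN (N + n + 1) (by omega)]
  choose e he1 he2 using h1
  obtain ⟨m, n, hmn, hle⟩ := wellQuasiOrdered_le (α := ℕ × ℕ) e
  have h3 : (x (N + n)).A (e m) = true := by
    have h4 : x (N + m + 1) ≤ x (N + n) := hx'.monotone (by omega)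
    have h5 := ((le_iff _ _).1 h4).1 (e m)
    rw [he2 m] at h5
    exact top_le_iff.1 h5
  have h6 := mono_true (x (N + n)).P.1 hle h3
  rw [he1 n] at h6
  exact absurd h6 (by simp)

/-- Every nonempty set has a maximal element, hence every nonempty chain has a greatest one. -/
lemma exists_greatest {C : Set X} (hne : C.Nonempty) (hC : IsChain (· ≤ ·) C) :
    ∃ t ∈ C, ∀ c ∈ C, c ≤ t := by
  refine ⟨wf_gt.min C hne, wf_gt.min_mem C hne, fun c hc => ?_⟩
  rcases hC.total hc (wf_gt.min_mem C hne) with h | h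
  · exact h
  · rcases eq_or_lt_of_le h with h' | h'
    · exact h'.symm.le
    · exact absurd h' (wf_gt.not_lt_min C hc)

/-- The bottom element. -/
def bot : X := ⟨(fun _ => false, OrderDual.toDual ⊤), fun _ _ _ => le_rfl, Or.inl ⟨rfl, fun _ => rfl⟩⟩

lemma bot_s : bot.s = ⊤ := rfl

lemma eq_bot {x : X} (h : x.s = ⊤) : x = bot := by
  apply ext'
  · rcases P_cases x.P with ⟨-, h1⟩ | ⟨n, hn, -⟩ | ⟨n, hn, -⟩
    · funext e
      exact h1 e
    · rw [h] at hn
      exact absurd hn.symm (by simp)
    · rw [h] at hn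
      exact absurd hn.symm (by simp)
  · rw [h, bot_s]

/-- Values far below the first component vanish at points that are not graph points or that have
a large second component. -/
lemma A_false {x : X} {e : ℕ × ℕ} {M : ℕ} (he1 : e.1 ≤ M) (he2 : e.2 ≤ M) (h : (M : ℕ∞) < x.s) :
    x.A e = false := by
  have hM : x.A (M, M) = false := by
    rcases P_cases x.P with ⟨-, h1⟩ | ⟨n, hn, -, h1⟩ | ⟨n, hn, -, -, h1⟩
    · exact h1 _
    · rw [hn] at h
      exact h1 M (by exact_mod_cast h)
    · rw [hn] at h
      have h' : M < n := by exact_mod_cast h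
      exact mono_false x.P.1 (show ((M, M) : ℕ × ℕ) ≤ (n, n) from ⟨h'.le, h'.le⟩) h1
  exact mono_false x.P.1 (show e ≤ (M, M) from ⟨he1, he2⟩) hM

/-- A criterion for `⊥` to be in a closure. -/
lemma bot_mem_closure {T : Set X} (h : ∀ M : ℕ, ∃ x ∈ T, (M : ℕ∞) < x.s ∧ fl x = false) :
    bot ∈ closure T := by
  choose x hxT hxs hxf using h
  apply mem_closure_of_tendsto (f := x) (b := atTop) _ (Eventually.of_forall hxT)
  rw [tendsto_iff]
  refine ⟨fun e => ?_, ?_, Eventually.of_forall fun i => by rw [hxf, fl_of_top bot_s]⟩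
  · filter_upwards [eventually_ge_atTop (max e.1 e.2)] with M hM
    exact A_false ((le_max_left _ _).trans hM) ((le_max_right _ _).trans hM) (hxs M)
  · rw [bot_s, ENat.tendsto_nhds_top_iff_natCast_lt]
    intro n
    filter_upwards [eventually_ge_atTop n] with M hM
    exact lt_of_le_of_lt (by exact_mod_cast hM) (hxs M)

/-- The graph point of `{(a, b) : k ≤ b}`. -/
def yg (k : ℕ) : X := ⟨(fun e => decide (k ≤ e.2), OrderDual.toDual (k : ℕ∞)), by
  refine ⟨?_, Or.inr ⟨k, rfl, Or.inl ⟨by simp, fun m hm => by simpa using hm⟩⟩⟩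
  intro e f hef
  by_cases h : k ≤ e.2
  · have : k ≤ f.2 := h.trans hef.2
    simp [this]
  · simp [h]⟩

/-- The non-graph point `({(a, b) : k + 2 ≤ b}, k + 1)`. -/
def yn (k : ℕ) : X := ⟨(fun e => decide (k + 2 ≤ e.2), OrderDual.toDual ((k + 1 : ℕ) : ℕ∞)), by
  refine ⟨?_, Or.inr ⟨k + 1, rfl, Or.inr ⟨fun j => by simp, ?_, by simp⟩⟩⟩
  · intro e f hef
    by_cases h : k + 2 ≤ e.2
    · have : k + 2 ≤ f.2 := h.trans hef.2
      simp [this]
    · simp [h]
  · show decide (k + 2 ≤ 2 * (k + 1)) = true
    rw [decide_eq_true_iff]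
    omega⟩

lemma yg_le_yn (k : ℕ) : yg (k + 2) ≤ yn k := by
  rw [le_iff]
  refine ⟨le_rfl, ?_⟩
  show ((k + 1 : ℕ) : ℕ∞) ≤ ((k + 2 : ℕ) : ℕ∞)
  exact_mod_cast Nat.le_succ _

lemma fl_yn (k : ℕ) : fl (yn k) = false := by
  have : (yn k).s = ((k + 1 : ℕ) : ℕ∞) := rfl
  rw [fl_of_nat this]
  show decide (k + 2 ≤ k + 1) = false
  simp

/-- The graph points `(A ∪ {(a, b) : k ≤ b}, k)` for a graph point `(A, s)` with `k ≤ s`. -/
def join (x : X) (k : ℕ) (hk : (k : ℕ∞) ≤ x.s) : X :=
  ⟨(fun e => x.A e || decide (k ≤ e.2), OrderDual.toDual (k : ℕ∞)), by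
    refine ⟨?_, Or.inr ⟨k, rfl, Or.inl ⟨by simp, fun m hm => ?_⟩⟩⟩
    · intro e f hef
      by_cases h : k ≤ e.2
      · have : k ≤ f.2 := h.trans hef.2
        simp [this]
      · have h1 := x.P.1 hef
        show (x.A e || decide (k ≤ e.2)) ≤ (x.A f || decide (k ≤ f.2))
        rw [decide_eq_false h, Bool.or_false]
        exact h1.trans (Bool.left_le_or _ _)
    · have h1 : x.A (m, m) = false := A_false le_rfl le_rfl
        (lt_of_lt_of_le (by exact_mod_cast hm) hk)
      show (x.A (m, m) || decide (k ≤ m)) = false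
      rw [h1, Bool.false_or]
      simpa using hm⟩

lemma le_join (x : X) (k : ℕ) (hk : (k : ℕ∞) ≤ x.s) : x ≤ join x k hk := by
  rw [le_iff]
  exact ⟨fun e => Bool.left_le_or _ _, hk⟩

theorem cComplete : IsCComplete X := by
  intro F hF hFu C hCF hne hC
  obtain ⟨t, ht, htC⟩ := exists_greatest hne hC
  refine ⟨?_, t, ⟨fun c hc => htC c hc, fun b hb => hb ht⟩, subset_closure ⟨t, ht, le_rfl⟩⟩
  rcases eq_or_ne (sSup (X.s '' C)) ⊤ with htop | htop
  · -- the infimum is the bottom element
    have hunb : ∀ n : ℕ, ∃ c ∈ C, (n : ℕ∞) < c.s := by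
      intro n
      have h1 : (n : ℕ∞) < sSup (X.s '' C) := by
        rw [htop]
        exact ENat.natCast_lt_top n
      obtain ⟨_, ⟨c, hc, rfl⟩, h2⟩ := lt_sSup_iff.1 h1
      exact ⟨c, hc, h2⟩
    refine ⟨bot, ?_, fun c _ => ?_, fun b hb => ?_⟩
    · by_cases hcase : ∀ M : ℕ, ∃ x ∈ C, (M : ℕ∞) < x.s ∧ fl x = false
      · exact hF.closure_subset_iff.2 hCF (bot_mem_closure hcase)
      · push Not at hcase
        obtain ⟨M, hM⟩ := hcase
        -- all points of `C` with large second component are graph points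
        have hyg : ∀ k, yg k ∈ F := by
          intro k
          have h1 : ∀ n : ℕ, ∃ c ∈ C, ((max n (max k M) : ℕ) : ℕ∞) < c.s := fun n => hunb _
          choose c hcC hc using h1
          have hck : ∀ n, (k : ℕ∞) ≤ (c n).s := fun n =>
            (show (k : ℕ∞) ≤ ((max n (max k M) : ℕ) : ℕ∞) by
              exact_mod_cast (le_max_left k M).trans (le_max_right _ _)).trans (hc n).le
          have h2 : Tendsto (fun n => join (c n) k (hck n)) atTop (𝓝 (yg k)) := by
            rw [tendsto_iff]
            refine ⟨fun e => ?_, tendsto_const_nhds, ?_⟩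
            · filter_upwards [eventually_ge_atTop (max e.1 e.2)] with n hn
              have h3 : (c n).A e = false := by
                apply A_false ((le_max_left _ _).trans hn) ((le_max_right _ _).trans hn)
                refine lt_of_le_of_lt ?_ (hc n)
                exact_mod_cast le_max_left _ _
              show ((c n).A e || decide (k ≤ e.2)) = decide (k ≤ e.2)
              rw [h3, Bool.false_or]
            · refine Eventually.of_forall fun n => ?_
              have h3 : (join (c n) k (hck n)).s = k := rfl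
              have h4 : (yg k).s = k := rfl
              rw [fl_of_nat h3, fl_of_nat h4]
              show ((c n).A (k, k) || decide (k ≤ k)) = decide (k ≤ k)
              simp
          refine hF.mem_of_tendsto h2 (Eventually.of_forall fun n => ?_)
          exact hFu (le_join _ _ _) (hCF (hcC n))
        have hyn : ∀ k, yn k ∈ F := fun k => hFu (yg_le_yn k) (hyg (k + 2))
        refine hF.closure_subset_iff.2 (Subset.refl F) (bot_mem_closure fun M => ?_)
        refine ⟨yn M, hyn M, ?_, fl_yn M⟩
        show (M : ℕ∞) < ((M + 1 : ℕ) : ℕ∞)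
        exact_mod_cast Nat.lt_succ_self M
    · rw [le_iff]
      exact ⟨fun e => Bool.false_le _, le_top⟩
    · have h1 : b.s = ⊤ := by
        rw [← top_le_iff, ← htop]
        refine sSup_le ?_
        rintro _ ⟨c, hc, rfl⟩
        exact ((le_iff _ _).1 (hb hc)).2
      rw [eq_bot h1]
  · -- the second components are bounded
    classical
    have hne' : Nonempty (X.s '' C) := ⟨⟨_, hne.some, hne.some_mem, rfl⟩⟩
    obtain ⟨c₀, hc₀, hc₀s⟩ := ENat.sSup_mem_of_nonempty_of_lt_top (lt_top_iff_ne_top.2 htop)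
    obtain ⟨n, hn⟩ := ENat.ne_top_iff_exists.1 htop
    rw [← hn] at hc₀s
    have hle : ∀ c ∈ C, c.s ≤ n := fun c hc => by
      rw [hn]
      exact le_sSup ⟨c, hc, rfl⟩
    have hsn : ∀ c ∈ C, c ≤ c₀ → c.s = n := fun c hc hcc =>
      le_antisymm (hle c hc) (hc₀s ▸ ((le_iff _ _).1 hcc).2)
    let Ai : Arr := fun e => if ∀ c ∈ C, c.A e = true then true else false
    have hAi1 : ∀ e, (∀ c ∈ C, c.A e = true) → Ai e = true := fun e h => if_pos h
    have hAi2 : ∀ e, ∀ c ∈ C, c.A e = false → Ai e = false := fun e c hc h => by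
      refine if_neg fun h' => ?_
      rw [h' c hc] at h
      exact absurd h (by simp)
    have hAi3 : ∀ e, ∀ c ∈ C, Ai e ≤ c.A e := fun e c hc => by
      cases h : c.A e
      · rw [hAi2 e c hc h]
      · exact Bool.le_true _
    have hup : ∀ e, (∀ c ∈ C, c ≤ c₀ → c.A e = true) → Ai e = true := by
      intro e h
      apply hAi1
      intro c hc
      rcases hC.total hc hc₀ with h1 | h1
      · exact h c hc h1
      · have h2 := ((le_iff _ _).1 h1).1 e
        rw [h c₀ hc₀ le_rfl] at h2
        exact top_le_iff.1 h2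
    have hP : P Ai n := by
      refine ⟨fun e f hef => ?_, Or.inr ⟨n, rfl, ?_⟩⟩
      · cases h : Ai e
        · exact Bool.false_le _
        · have h1 : ∀ c ∈ C, c.A e = true := by
            intro c hc
            have := hAi3 e c hc
            rw [h] at this
            exact top_le_iff.1 this
          rw [hAi1 f fun c hc => mono_true c.P.1 hef (h1 c hc)]
      · by_cases hcase : ∀ c ∈ C, c ≤ c₀ → c.A (n, n) = true
        · left
          refine ⟨hup _ hcase, fun m hm => hAi2 _ c₀ hc₀ ?_⟩
          exact A_false le_rfl le_rfl (by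
            rw [hc₀s]
            exact_mod_cast hm)
        · right
          push Not at hcase
          obtain ⟨c₁, hc₁, hc₁₀, hc₁A⟩ := hcase
          have hc₁A' : c₁.A (n, n) = false := Bool.eq_false_iff.2 hc₁A
          have hc₁s := hsn c₁ hc₁ hc₁₀
          refine ⟨fun k => ?_, hup _ fun c hc hcc => ?_, hAi2 _ c₁ hc₁ hc₁A'⟩
          · rcases P_cases c₁.P with ⟨h1, -⟩ | ⟨m, hm, h1, -⟩ | ⟨m, hm, h1, -, -⟩
            · rw [hc₁s] at h1
              exact absurd h1 (by simp)
            · rw [hc₁s] at hm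
              have : n = m := by exact_mod_cast hm
              subst this
              exact absurd h1 hc₁A
            · exact hAi2 _ c₁ hc₁ (h1 k)
          · have hcs := hsn c hc hcc
            rcases P_cases c.P with ⟨h1, -⟩ | ⟨m, hm, h1, -⟩ | ⟨m, hm, -, h1, -⟩
            · rw [hcs] at h1
              exact absurd h1 (by simp)
            · rw [hcs] at hm
              have : n = m := by exact_mod_cast hm
              subst this
              exact mono_diag c.P.1 (by omega) h1
            · rw [hcs] at hm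
              have : n = m := by exact_mod_cast hm
              subst this
              exact h1
    let xi : X := ⟨(Ai, OrderDual.toDual (n : ℕ∞)), hP⟩
    refine ⟨xi, ?_, fun c hc => ?_, fun b hb => ?_⟩
    · have : Nonempty C := ⟨⟨c₀, hc₀⟩⟩
      have : IsCodirectedOrder C := ⟨fun a b => by
        rcases hC.total a.2 b.2 with h | h
        · exact ⟨a, le_rfl, h⟩
        · exact ⟨b, h, le_rfl⟩⟩
      have hAe : ∀ e, ∀ᶠ c : C in atBot, c.1.A e = Ai e := by
        intro e
        cases h : Ai e
        · have : ¬ ∀ c ∈ C, c.A e = true := fun h' => by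
            rw [hAi1 e h'] at h
            exact absurd h (by simp)
          push Not at this
          obtain ⟨c₁, hc₁, hc₁e⟩ := this
          filter_upwards [eventually_le_atBot (⟨c₁, hc₁⟩ : C)] with d hd
          have h1 := ((le_iff _ _).1 hd).1 e
          rw [Bool.eq_false_iff.2 hc₁e] at h1
          exact le_bot_iff.1 h1
        · refine Eventually.of_forall fun c => ?_
          have := hAi3 e c.1 c.2
          rw [h] at this
          exact top_le_iff.1 this
      have hse : ∀ᶠ c : C in atBot, c.1.s = n := by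
        filter_upwards [eventually_le_atBot (⟨c₀, hc₀⟩ : C)] with d hd
        exact hsn d.1 d.2 hd
      have htend : Tendsto (fun c : C => c.1) atBot (𝓝 xi) := by
        rw [tendsto_iff]
        refine ⟨hAe, tendsto_const_nhds.congr' ?_, ?_⟩
        · filter_upwards [hse] with d hd
          exact hd.symm
        · filter_upwards [hse, hAe (n, n)] with d hd hd'
          have h1 : xi.s = n := rfl
          rw [fl_of_nat hd, fl_of_nat h1]
          exact hd'
      exact hF.mem_of_tendsto htend (Eventually.of_forall fun c => hCF c.2)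
    · rw [le_iff]
      exact ⟨fun e => hAi3 e c hc, hle c hc⟩
    · rw [le_iff]
      refine ⟨fun e => ?_, ?_⟩
      · cases h : b.A e
        · exact Bool.false_le _
        · have : Ai e = true := hAi1 e fun c hc => by
            have h1 := ((le_iff _ _).1 (hb hc)).1 e
            rw [h] at h1
            exact top_le_iff.1 h1
          show true ≤ Ai e
          rw [this]
      · show (n : ℕ∞) ≤ b.s
        rw [← hc₀s]
        exact ((le_iff _ _).1 (hb hc₀)).2

/-- The chain witnessing that the example is not s-complete. -/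
def gg (n : ℕ) : X := ⟨(fun e => decide (n ≤ e.1), OrderDual.toDual (n : ℕ∞)), by
  refine ⟨?_, Or.inr ⟨n, rfl, Or.inl ⟨by simp, fun m hm => by simpa using hm⟩⟩⟩
  intro e f hef
  by_cases h : n ≤ e.1
  · have : n ≤ f.1 := h.trans hef.1
    simp [this]
  · simp [h]⟩

lemma gg_anti {m n : ℕ} (h : m ≤ n) : gg n ≤ gg m := by
  rw [le_iff]
  refine ⟨fun e => ?_, ?_⟩
  · show decide (n ≤ e.1) ≤ decide (m ≤ e.1)
    by_cases h1 : n ≤ e.1
    · have : m ≤ e.1 := h.trans h1
      simp [this]
    · simp [h1]
  · show (m : ℕ∞) ≤ (n : ℕ∞)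
    exact_mod_cast h

theorem not_sComplete : ¬ IsSComplete X := by
  rintro ⟨h, -⟩
  obtain ⟨i, hi, hicl⟩ := h (range gg) ⟨gg 0, 0, rfl⟩ (by
    rintro _ ⟨m, rfl⟩ _ ⟨n, rfl⟩
    rcases le_total m n with hmn | hmn
    · exact ⟨n, (inf_eq_right.2 (gg_anti hmn)).symm⟩
    · exact ⟨m, (inf_eq_left.2 (gg_anti hmn)).symm⟩)
  have his : i.s = ⊤ := by
    rw [ENat.eq_top_iff_forall_ge]
    intro n
    exact ((le_iff _ _).1 (hi.1 ⟨n, rfl⟩)).2
  have hopen : IsOpen {x : X | fl x = false} := (isOpen_discrete {false}).preimage continuous_fl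
  obtain ⟨x, hx1, _, ⟨n, rfl⟩, hx2⟩ := mem_closure_iff.1 hicl _ hopen (fl_of_top his)
  have h1 : x.A (n, 0) = true := by
    have h2 := ((le_iff _ _).1 hx2).1 (n, 0)
    have h3 : (gg n).A (n, 0) = true := by
      show decide (n ≤ n) = true
      simp
    rw [h3] at h2
    exact top_le_iff.1 h2
  have hx1' : fl x = false := hx1
  rcases P_cases x.P with ⟨-, h2⟩ | ⟨m, hm, h2, -⟩ | ⟨m, hm, h2, -, -⟩
  · rw [h2] at h1
    exact absurd h1 (by simp)
  · rw [fl_of_nat hm, h2] at hx1'
    exact absurd hx1' (by simp)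
  · rw [h2] at h1
    exact absurd h1 (by simp)

end Q182.CS
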