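import Pool.Agent.Q182.CenTree

/-!
# The normal subgroup generated by central edge stabilizers
-/

set_option autoImplicit false

namespace Q182.Cen

open SimpleGraph
open Pool.Agent.Helper270.Tree

variable {G V : Type} [Group G] [MulAction G V]

/-- edge stabilizers are central in the vertex stabilizers -/
def CentE (G : Type) [Group G] [MulAction G V] (T : SimpleGraph V) : Prop :=
  ∀ v w : V, T.Adj v w → ∀ s : G, s • v = v → s • w = w → ∀ g : G, g • v = v → g * s = s * g

/-- the subgroup generated by the edge stabilizers -/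
def NN (G : Type) [Group G] [MulAction G V] (T : SimpleGraph V) : Subgroup G :=
  Subgroup.closure {s : G | ∃ v w : V, T.Adj v w ∧ s • v = v ∧ s • w = w}

variable {T : SimpleGraph V}

theorem mem_NN {s : G} {v w : V} (h : T.Adj v w) (hv : s • v = v) (hw : s • w = w) :
    s ∈ NN G T := Subgroup.subset_closure ⟨v, w, h, hv, hw⟩

theorem ell_NN : Ell V (NN G T) := by
  refine (Subgroup.closure_le _).2 ?_
  rintro s ⟨v, w, h, hv, hw⟩
  exact Subgroup.subset_closure ⟨mem_NN h hv hw, v, hv⟩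

theorem normal_NN (hT : TreeAct G T) : (NN G T).Normal := by
  constructor
  intro m hm g
  have h1 : g * m * g⁻¹ ∈ (NN G T).map (MulAut.conj g).toMonoidHom := ⟨m, hm, rfl⟩
  rw [NN, MonoidHom.map_closure] at h1
  refine Subgroup.closure_mono ?_ h1
  rintro _ ⟨n, ⟨v, w, h, hv, hw⟩, rfl⟩
  refine ⟨g • v, g • w, hT.adj g v w h, ?_, ?_⟩
  · show (g * n * g⁻¹) • g • v = g • v
    rw [smul_smul, inv_mul_cancel_right, mul_smul, hv]
  · show (g * n * g⁻¹) • g • w = g • w
    rw [smul_smul, inv_mul_cancel_right, mul_smul, hw]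

/-- the intersections with the vertex stabilizers are central -/
theorem central_NN (hT : TreeAct G T) (hce : CentE G T) {n g : G} {x : V} (hn : n ∈ NN G T)
    (hx : n • x = x) (hg : g • x = x) : g * n = n * g := by
  classical
  let N := NN G T
  let S : Subgroup G := MulAction.stabilizer G x
  let H := S ⧸ Subgroup.center S
  let ρ : G → H := fun g => if h : g • x = x then QuotientGroup.mk' (Subgroup.center S) ⟨g, h⟩ else 1
  have hρ : ∀ g (h : g • x = x), ρ g = QuotientGroup.mk' (Subgroup.center S) ⟨g, h⟩ :=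
    fun g h => dif_pos h
  have hρm : ∀ a b, a • x = x → b • x = x → ρ (a * b) = ρ a * ρ b := by
    intro a b ha hb
    have hab : (a * b) • x = x := by rw [mul_smul, hb, ha]
    rw [hρ a ha, hρ b hb, hρ _ hab, ← map_mul]
    rfl
  have hρ1 : ∀ a, a • x = x → (ρ a = 1 ↔ ∀ g : G, g • x = x → g * a = a * g) := by
    intro a ha
    rw [hρ a ha]
    have h1 : (QuotientGroup.mk' (Subgroup.center S) ⟨a, ha⟩ = 1) ↔
        (⟨a, ha⟩ : S) ∈ Subgroup.center S := QuotientGroup.eq_one_iff _
    rw [h1, Subgroup.mem_center_iff]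
    constructor
    · intro h g hg
      exact congrArg Subtype.val (h ⟨g, hg⟩)
    · rintro h ⟨g, hg⟩
      exact Subtype.ext (h g hg)
  have hk : ∀ y : V, ∃ k : G, mk N y = mk N x → k ∈ N ∧ k • x = y := by
    intro y
    by_cases h : mk N y = mk N x
    · obtain ⟨m, hm, h1⟩ := mk_eq.1 h
      exact ⟨m, fun _ => ⟨hm, h1⟩⟩
    · exact ⟨1, fun h' => absurd h' h⟩
  choose k hk using hk
  let c : G → V → H := fun m y => if mk N y = mk N x then ρ ((k (m • y))⁻¹ * m * k y) else 1
  have hc : ∀ m ∈ N, ∀ n ∈ N, ∀ y, c (m * n) y = c m (n • y) * c n y := by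
    intro m hm n hn y
    by_cases h : mk N y = mk N x
    · have h1 : mk N (n • y) = mk N x := by rw [mk_smul hn, h]
      have h2 : mk N (m • n • y) = mk N x := by rw [mk_smul hm, h1]
      simp only [c, if_pos h, if_pos h1]
      rw [← hρm, mul_smul]
      · congr 1
        group
      · rw [mul_smul, mul_smul, (hk _ h1).2, inv_smul_eq_iff, (hk _ h2).2]
      · rw [mul_smul, mul_smul, (hk _ h).2, inv_smul_eq_iff, (hk _ h1).2]
    · have h1 : ¬ mk N (n • y) = mk N x := by rwa [mk_smul hn]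
      simp only [c, if_neg h, if_neg h1, one_mul]
  have hce' : ∀ m ∈ N, ∀ y z, T.Adj y z → m • y = y → m • z = z → c m y = 1 := by
    intro m hm y z hyz hy hz
    by_cases h : mk N y = mk N x
    · simp only [c, if_pos h, hy]
      have h1 : ((k y)⁻¹ * m * k y) • x = x := by
        rw [mul_smul, mul_smul, (hk _ h).2, inv_smul_eq_iff, (hk _ h).2, hy]
      rw [hρ1 _ h1]
      have h2 : T.Adj x ((k y)⁻¹ • z) := by
        have h3 := hT.adj (k y)⁻¹ y z hyz
        have h4 : (k y)⁻¹ • y = x := by rw [inv_smul_eq_iff, (hk _ h).2]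
        rwa [h4] at h3
      exact hce x _ h2 _ h1 (by rw [mul_smul, mul_smul, smul_inv_smul, hz])
    · simp only [c, if_neg h]
  obtain ⟨lam, F, hF, hlam⟩ := bundle hT ell_NN c hc (by
    intro m hm y z hyz hy hz
    rw [hce' m hm y z hyz hy hz, hce' m hm z y hyz.symm hz hy]) x
  have h1 : ∀ n (hn : n ∈ N), lam ⟨n, hn⟩ = 1 := by
    intro n hn
    have h2 : N ≤ lam.ker.map N.subtype := by
      refine (Subgroup.closure_le _).2 ?_
      rintro s ⟨v, w, h, hv, hw⟩
      have hs : s ∈ N := mem_NN h hv hw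
      refine ⟨⟨s, hs⟩, ?_, rfl⟩
      have h3 := hlam ⟨s, hs⟩ v
      have h4 : c s v = 1 := hce' s hs v w h hv hw
      have h5 : c s v = F (s • v) * lam ⟨s, hs⟩ * (F v)⁻¹ := h3
      rw [h4, hv] at h5
      have h6 : F v * lam ⟨s, hs⟩ = F v := by
        rw [eq_comm, mul_inv_eq_one] at h5
        exact h5
      exact mul_eq_left.1 h6
    obtain ⟨m, hm, h3⟩ := h2 hn
    have h4 : m = ⟨n, hn⟩ := Subtype.ext h3
    rw [← h4]
    exact hm
  have h2 : c n x = 1 := by
    have h3 : c n x = F (n • x) * lam ⟨n, hn⟩ * (F x)⁻¹ := hlam ⟨n, hn⟩ x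
    rw [h3, h1, hx, mul_one, mul_inv_cancel]
  have h3 : c n x = ρ ((k x)⁻¹ * n * k x) := by
    simp only [c, if_true, hx]
  have hkx := hk x rfl
  have hkx' : (k x)⁻¹ • x = x := by rw [inv_smul_eq_iff, hkx.2]
  rw [h3, hρ1 _ (by rw [mul_smul, mul_smul, hkx.2, hx, hkx'])] at h2
  have h4 := h2 ((k x)⁻¹ * g * k x) (by rw [mul_smul, mul_smul, hkx.2, hg, hkx'])
  have h5 : k x * ((k x)⁻¹ * g * k x * ((k x)⁻¹ * n * k x)) * (k x)⁻¹ = g * n := by group
  have h6 : k x * ((k x)⁻¹ * n * k x * ((k x)⁻¹ * g * k x)) * (k x)⁻¹ = n * g := by group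
  rw [← h5, ← h6, h4]

end Q182.Cen
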