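import Pool.Agent.Q182.CenExt

/-!
# Invariant characters
-/

set_option autoImplicit false

namespace Q182.Cen

open SimpleGraph
open Pool.Agent.Helper270.Tree

/-- the group `ℚ/ℤ`, written multiplicatively -/
abbrev QZ : Type := Multiplicative (AddCircle (1 : ℚ))

/-- extension of characters -/
theorem ext_char {G : Type} [Group G] {B S : Subgroup G} (hBS : B ≤ S)
    (hS : ∀ a ∈ S, ∀ b ∈ S, a * b = b * a) (ψ : G → QZ)
    (hψ : ∀ a ∈ B, ∀ b ∈ B, ψ (a * b) = ψ a * ψ b) :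
    ∃ φ : G → QZ, (∀ a ∈ S, ∀ b ∈ S, φ (a * b) = φ a * φ b) ∧ ∀ b ∈ B, φ b = ψ b := by
  classical
  let iS : CommGroup S := { (inferInstance : Group S) with
    mul_comm := fun a b => Subtype.ext (hS a a.2 b b.2) }
  let iB : CommGroup B := { (inferInstance : Group B) with
    mul_comm := fun a b => Subtype.ext (hS a (hBS a.2) b (hBS b.2)) }
  let ψ' : B →* QZ := MonoidHom.mk' (fun b => ψ b) (fun a b => hψ a a.2 b b.2)
  let ι : B →* S := Subgroup.inclusion hBS
  let ιl : Additive B →ₗ[ℤ] Additive S := (MonoidHom.toAdditive ι).toIntLinearMap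
  have hι : Function.Injective ιl := fun a b h => Subgroup.inclusion_injective hBS h
  let χ : CharacterModule (Additive B) := MonoidHom.toAdditiveLeft ψ'
  obtain ⟨χ', hχ'⟩ := CharacterModule.dual_surjective_of_injective ιl hι χ
  let φ' : S →* QZ := AddMonoidHom.toMultiplicativeRight χ'
  refine ⟨fun g => if h : g ∈ S then φ' ⟨g, h⟩ else 1, ?_, ?_⟩
  · intro a ha b hb
    simp only [dif_pos ha, dif_pos hb, dif_pos (S.mul_mem ha hb)]
    rw [← map_mul]
    rfl
  · intro b hb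
    simp only [dif_pos (hBS hb)]
    exact congrArg (fun f : CharacterModule (Additive B) => Multiplicative.ofAdd
      (f (Additive.ofMul ⟨b, hb⟩))) hχ'

/-- separation by characters -/
theorem sep_char {G : Type} [Group G] {S : Subgroup G}
    (hS : ∀ a ∈ S, ∀ b ∈ S, a * b = b * a) {g : G} (hg : g ∈ S) (hg1 : g ≠ 1) :
    ∃ φ : G → QZ, (∀ a ∈ S, ∀ b ∈ S, φ (a * b) = φ a * φ b) ∧ φ g ≠ 1 := by
  classical
  let iS : CommGroup S := { (inferInstance : Group S) with
    mul_comm := fun a b => Subtype.ext (hS a a.2 b b.2) }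
  have h1 : (Additive.ofMul (⟨g, hg⟩ : S)) ≠ 0 := fun h => hg1 (congrArg Subtype.val h)
  obtain ⟨χ, hχ⟩ := CharacterModule.exists_character_apply_ne_zero_of_ne_zero h1
  let φ' : S →* QZ := AddMonoidHom.toMultiplicativeRight χ
  refine ⟨fun g => if h : g ∈ S then φ' ⟨g, h⟩ else 1, ?_, ?_⟩
  · intro a ha b hb
    simp only [dif_pos ha, dif_pos hb, dif_pos (S.mul_mem ha hb)]
    rw [← map_mul]
    rfl
  · simp only [dif_pos hg]
    exact hχ

/-- recursion along a parent function -/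
theorem exists_rec {W A : Type} (r : W → ℕ) (π : W → W) (root : W)
    (hr : ∀ w, w ≠ root → r (π w) < r w) (base : A) (step : W → A → A) :
    ∃ φ : W → A, φ root = base ∧ ∀ w, w ≠ root → φ w = step w (φ (π w)) := by
  classical
  let R : W → W → Prop := fun a b => r a < r b
  have hwf : WellFounded R := (measure r).wf
  let Φ : ∀ w, (∀ w', R w' w → A) → A := fun w ih =>
    if h : w = root then base else step w (ih (π w) (hr w h))
  refine ⟨hwf.fix Φ, ?_, ?_⟩
  · rw [WellFounded.fix_eq]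
    simp only [Φ, dif_pos]
  · intro w hw
    rw [WellFounded.fix_eq]
    simp only [Φ, dif_neg hw]

variable {G V : Type} [Group G] [MulAction G V] {T : SimpleGraph V}

/-- multiplicative on the stabilizer of `x` in `N` -/
def MulOn (N : Subgroup G) (x : V) (φ : G → QZ) : Prop :=
  ∀ a b, a ∈ N → b ∈ N → a • x = x → b • x = x → φ (a * b) = φ a * φ b

theorem exists_family (hT : TreeAct G T) (hce : CentE G T) {Γ : Subgroup G} (hΓ : Ell V Γ)
    (x₀ : V) (χ : G → QZ) (hχ : MulOn (NN G T) x₀ χ) :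
    ∃ f : V → G → QZ, (∀ x, MulOn (NN G T) x (f x)) ∧
      (∀ γ ∈ Γ, ∀ x, ∀ n ∈ NN G T, n • x = x → f (γ • x) (γ * n * γ⁻¹) = f x n) ∧
      (∀ x y, T.Adj x y → ∀ n ∈ NN G T, n • x = x → n • y = y → f x n = f y n) ∧
      ∀ n ∈ NN G T, n • x₀ = x₀ → f x₀ n = χ n := by
  classical
  let N := NN G T
  have hN : N.Normal := normal_NN hT
  have hconj : ∀ (g : G) n, n ∈ N → g⁻¹ * n * g ∈ N := by
    intro g n hn
    have := hN.conj_mem n hn g⁻¹
    rwa [inv_inv] at this
  have hfix : ∀ (k : G) (n : G) (x y : V), k • x = y → n • y = y → (k⁻¹ * n * k) • x = x := by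
    intro k n x y h1 h2
    rw [mul_smul, mul_smul, h1, h2, ← h1, inv_smul_smul]
  let W := Orb V Γ
  have hW : (QG T Γ).IsTree := isTree_QG hT hΓ
  let root : W := mk Γ x₀
  let r : W → ℕ := fun w => (QG T Γ).dist w root
  choose s hs using fun w : W => exists_mk w
  have hk : ∀ x : V, ∃ k ∈ Γ, k • s (mk Γ x) = x := fun x => mk_eq.1 (hs (mk Γ x)).symm
  choose k hkΓ hk using hk
  have hπ : ∀ w : W, ∃ w', w ≠ root → (QG T Γ).Adj w w' ∧ 1 + r w' = r w := by
    intro w
    by_cases hw : w = root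
    · exact ⟨w, fun h => absurd hw h⟩
    · obtain ⟨u, h1, h2⟩ := Q182.Cyl.exists_first hW hw
      exact ⟨u, fun _ => ⟨h1, h2⟩⟩
  choose π hπ using hπ
  have hp : ∀ w : W, ∃ p : V, w ≠ root → T.Adj (s w) p ∧ mk Γ p = π w := by
    intro w
    by_cases hw : w = root
    · exact ⟨x₀, fun h => absurd hw h⟩
    · have h1 := (hπ w hw).1
      rw [← hs w] at h1
      obtain ⟨b, h2, h3⟩ := exists_lift hT h1
      exact ⟨b, fun _ => ⟨h2, by rw [h3, hs w]⟩⟩
  choose p hp using hp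
  let good : W → (G → QZ) → (G → QZ) → Prop := fun w φ' φ => MulOn N (s w) φ ∧
    ∀ n ∈ N, n • s w = s w → n • p w = p w → φ n = φ' ((k (p w))⁻¹ * n * k (p w))
  obtain ⟨φ, hφ0, hφ⟩ := exists_rec r π root (fun w hw => by
      have := (hπ w hw).2
      omega) (fun g => χ (k x₀ * g * (k x₀)⁻¹))
    (fun w φ' => if h : ∃ φ, good w φ' φ then h.choose else φ')
  have hNs : ∀ x : V, ∀ a ∈ N ⊓ MulAction.stabilizer G x, ∀ b ∈ N ⊓ MulAction.stabilizer G x,
      a * b = b * a := fun x a ha b hb => central_NN hT hce hb.1 hb.2 ha.2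
  have hkp : ∀ w, w ≠ root → k (p w) • s (π w) = p w := by
    intro w hw
    have h1 := hk (p w)
    rwa [(hp w hw).2] at h1
  have hgood : ∀ w, MulOn N (s w) (φ w) ∧ (w ≠ root → good w (φ (π w)) (φ w)) := by
    intro w
    obtain ⟨n, hn⟩ : ∃ n, r w = n := ⟨_, rfl⟩
    induction n using Nat.strong_induction_on generalizing w with
    | _ n ih =>
      by_cases hw : w = root
      · subst hw
        refine ⟨?_, fun h => absurd rfl h⟩
        rw [hφ0]
        intro a b ha hb hax hbx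
        have key : ∀ a ∈ N, a • s root = s root → k x₀ * a * (k x₀)⁻¹ ∈ N ∧
            (k x₀ * a * (k x₀)⁻¹) • x₀ = x₀ := by
          intro a ha hax
          refine ⟨hN.conj_mem a ha _, ?_⟩
          have h1 := hk x₀
          have h2 : (k x₀)⁻¹ • x₀ = s root := by rw [inv_smul_eq_iff, h1]
          rw [mul_smul, mul_smul, h2, hax, h1]
        obtain ⟨h1, h2⟩ := key a ha hax
        obtain ⟨h3, h4⟩ := key b hb hbx
        show χ (k x₀ * (a * b) * (k x₀)⁻¹) = χ _ * χ _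
        rw [← hχ _ _ h1 h3 h2 h4]
        congr 1
        group
      · have h1 := (hπ w hw).2
        obtain ⟨h2, _⟩ := ih (r (π w)) (by omega) (π w) rfl
        have hex : ∃ φ', good w (φ (π w)) φ' := by
          let S : Subgroup G := N ⊓ MulAction.stabilizer G (s w)
          let B : Subgroup G := S ⊓ MulAction.stabilizer G (p w)
          obtain ⟨φ', h3, h4⟩ := ext_char (B := B) (S := S) inf_le_left (hNs (s w))
            (fun n => φ (π w) ((k (p w))⁻¹ * n * k (p w))) (by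
              intro a ha b hb
              have e1 := hfix _ a _ _ (hkp w hw) ha.2
              have e2 := hfix _ b _ _ (hkp w hw) hb.2
              show φ (π w) ((k (p w))⁻¹ * (a * b) * k (p w)) = _
              rw [← h2 _ _ (hconj _ a ha.1.1) (hconj _ b hb.1.1) e1 e2]
              congr 1
              group)
          exact ⟨φ', fun a b ha hb hax hbx => h3 a ⟨ha, hax⟩ b ⟨hb, hbx⟩,
            fun n hn h5 h6 => h4 n ⟨⟨hn, h5⟩, h6⟩⟩
        have h3 : good w (φ (π w)) (φ w) := by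
          rw [hφ w hw, dif_pos hex]
          exact hex.choose_spec
        exact ⟨h3.1, fun _ => h3⟩
  let f : V → G → QZ := fun x g => φ (mk Γ x) ((k x)⁻¹ * g * k x)
  have hequiv : ∀ γ ∈ Γ, ∀ x, ∀ n ∈ N, n • x = x → f (γ • x) (γ * n * γ⁻¹) = f x n := by
    intro γ hγ x n hn hnx
    show φ (mk Γ (γ • x)) ((k (γ • x))⁻¹ * (γ * n * γ⁻¹) * k (γ • x)) =
      φ (mk Γ x) ((k x)⁻¹ * n * k x)
    rw [mk_smul hγ]
    congr 1
    have h1 := hk (γ • x)
    rw [mk_smul hγ] at h1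
    have h2 : ((k (γ • x))⁻¹ * γ * k x) • s (mk Γ x) = s (mk Γ x) := by
      rw [mul_smul, mul_smul, hk x, inv_smul_eq_iff, h1]
    have h3 := hfix _ n _ _ (hk x) hnx
    have h4 := central_NN hT hce (hconj (k x) n hn) h3 h2
    have h5 : (k (γ • x))⁻¹ * (γ * n * γ⁻¹) * k (γ • x) = ((k (γ • x))⁻¹ * γ * k x) *
        ((k x)⁻¹ * n * k x) * ((k (γ • x))⁻¹ * γ * k x)⁻¹ := by group
    rw [h5, h4, mul_inv_cancel_right]
  have hmul : ∀ x, MulOn N x (f x) := by
    intro x a b ha hb hax hbx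
    show φ (mk Γ x) ((k x)⁻¹ * (a * b) * k x) = _
    rw [show (k x)⁻¹ * (a * b) * k x = ((k x)⁻¹ * a * k x) * ((k x)⁻¹ * b * k x) from by group]
    exact (hgood (mk Γ x)).1 _ _ (hconj _ a ha) (hconj _ b hb) (hfix _ a _ _ (hk x) hax)
      (hfix _ b _ _ (hk x) hbx)
  have hadj1 : ∀ x y, T.Adj x y → r (mk Γ x) = r (mk Γ y) + 1 → ∀ n ∈ N, n • x = x → n • y = y →
      f x n = f y n := by
    intro x y hxy hd n hn hnx hny
    have hx0 : mk Γ x ≠ root := by
      intro h
      have h1 : r (mk Γ x) = 0 := by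
        rw [h]
        exact SimpleGraph.dist_self
      omega
    have hpar : mk Γ y = π (mk Γ x) := by
      have h1 := hπ (mk Γ x) hx0
      have hc : ∀ w : W, (QG T Γ).dist root w = r w := fun w => SimpleGraph.dist_comm
      refine parent_unique hW (z := root) (v := mk Γ x) (adj_mk hT hΓ hxy).symm h1.1.symm ?_ ?_
      · rw [hc, hc]
        exact hd
      · rw [hc, hc]
        omega
    obtain ⟨hp1, hp2⟩ := hp (mk Γ x) hx0
    have hkx := hk x
    have h1 : T.Adj (s (mk Γ x)) ((k x)⁻¹ • y) := by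
      have h2 := hT.adj (k x)⁻¹ x y hxy
      have h3 : (k x)⁻¹ • x = s (mk Γ x) := by rw [inv_smul_eq_iff, hkx]
      rwa [h3] at h2
    have h2 : mk Γ ((k x)⁻¹ • y) = mk Γ (p (mk Γ x)) := by
      rw [mk_smul (Γ.inv_mem (hkΓ x)), hp2, hpar]
    obtain ⟨m₀, hm₀, h3⟩ := mk_eq.1 h2
    obtain ⟨m, hm, h4, h5⟩ := edge_orbit hT hΓ hp1 h1 hm₀ h3
    obtain ⟨n1, hn1⟩ : ∃ n1, n1 = (k x)⁻¹ * n * k x := ⟨_, rfl⟩
    have hn1N : n1 ∈ N := by
      rw [hn1]
      exact hconj _ n hn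
    have hn1s : n1 • s (mk Γ x) = s (mk Γ x) := by
      rw [hn1]
      exact hfix _ n _ _ hkx hnx
    have hn1y : n1 • (k x)⁻¹ • y = (k x)⁻¹ • y := by
      rw [hn1, mul_smul, mul_smul, smul_inv_smul, hny]
    have hcm : m * n1 = n1 * m := central_NN hT hce hn1N hn1s h4
    have hn1p : n1 • p (mk Γ x) = p (mk Γ x) := by
      have h6 : m • n1 • p (mk Γ x) = m • p (mk Γ x) := by
        rw [← mul_smul, hcm, mul_smul, h5, hn1y]
      exact smul_left_cancel m h6
    have hA := (hgood (mk Γ x)).2 hx0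
    have hA2 := hA.2 n1 hn1N hn1s hn1p
    show φ (mk Γ x) ((k x)⁻¹ * n * k x) = φ (mk Γ y) ((k y)⁻¹ * n * k y)
    rw [← hn1, hA2, ← hpar]
    congr 1
    have hkp' := hkp (mk Γ x) hx0
    rw [← hpar] at hkp'
    have h6 : ((k y)⁻¹ * k x * m * k (p (mk Γ x))) • s (mk Γ y) = s (mk Γ y) := by
      rw [mul_smul, hkp', mul_smul, h5, mul_smul, smul_inv_smul, inv_smul_eq_iff, hk y]
    have h7 := hfix _ n1 _ _ hkp' hn1p
    have h8 := central_NN hT hce (hconj (k (p (mk Γ x))) n1 hn1N) h7 h6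
    have h9 : ((k y)⁻¹ * k x * m * k (p (mk Γ x))) * ((k (p (mk Γ x)))⁻¹ * n1 * k (p (mk Γ x))) *
        ((k y)⁻¹ * k x * m * k (p (mk Γ x)))⁻¹ = (k y)⁻¹ * k x * (m * n1 * m⁻¹) * (k x)⁻¹ * k y := by
      group
    rw [h8, mul_inv_cancel_right, hcm, mul_inv_cancel_right] at h9
    rw [h9, hn1]
    group
  refine ⟨f, hmul, hequiv, ?_, ?_⟩
  · intro x y hxy n hn hnx hny
    have hc : ∀ w : W, (QG T Γ).dist root w = r w := fun w => SimpleGraph.dist_comm
    rcases hW.dist_eq_dist_add_one_of_adj root (adj_mk hT hΓ hxy) with h | h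
    · rw [hc, hc] at h
      exact hadj1 x y hxy h n hn hnx hny
    · rw [hc, hc] at h
      exact (hadj1 y x hxy.symm h n hn hny hnx).symm
  · intro n hn hnx
    show φ (mk Γ x₀) ((k x₀)⁻¹ * n * k x₀) = χ n
    rw [show mk Γ x₀ = root from rfl, hφ0]
    show χ (k x₀ * ((k x₀)⁻¹ * n * k x₀) * (k x₀)⁻¹) = χ n
    congr 1
    group

end Q182.Cen
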