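import Pool.Agent.Q182.CenFam

/-!
# Invariant characters of the normal subgroup
-/

set_option autoImplicit false

namespace Q182.Cen

open SimpleGraph
open Pool.Agent.Helper270.Tree

variable {G V : Type} [Group G] [MulAction G V] {T : SimpleGraph V}

theorem exists_lambda (hT : TreeAct G T) (hce : CentE G T) {Γ : Subgroup G} (hΓ : Ell V Γ)
    (hNΓ : NN G T ≤ Γ) (x₀ : V) (χ : G → QZ) (hχ : MulOn (NN G T) x₀ χ) :
    ∃ lam : NN G T →* QZ, (∀ n : NN G T, (n : G) • x₀ = x₀ → lam n = χ n) ∧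
      ∀ γ ∈ Γ, ∀ n m : NN G T, (m : G) = γ * n * γ⁻¹ → lam m = lam n := by
  classical
  obtain ⟨f, hf1, hf2, hf3, hf4⟩ := exists_family hT hce hΓ x₀ χ hχ
  let N := NN G T
  have hN : N.Normal := normal_NN hT
  have hconj : ∀ (g : G) n, n ∈ N → g⁻¹ * n * g ∈ N := by
    intro g n hn
    have := hN.conj_mem n hn g⁻¹
    rwa [inv_inv] at this
  choose s hs using fun w : Orb V N => exists_mk w
  have hk : ∀ x : V, ∃ k ∈ N, k • s (mk N x) = x := fun x => mk_eq.1 (hs (mk N x)).symm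
  choose k hkN hk using hk
  let c : G → V → QZ := fun m x => f (s (mk N x)) ((k (m • x))⁻¹ * m * k x)
  have hfixs : ∀ m ∈ N, ∀ x, ((k (m • x))⁻¹ * m * k x) • s (mk N x) = s (mk N x) := by
    intro m hm x
    have h1 := hk (m • x)
    rw [mk_smul hm] at h1
    rw [mul_smul, mul_smul, hk x, inv_smul_eq_iff, h1]
  have hmem : ∀ m ∈ N, ∀ x, ((k (m • x))⁻¹ * m * k x) ∈ N := fun m hm x =>
    N.mul_mem (N.mul_mem (N.inv_mem (hkN _)) hm) (hkN _)
  have hc : ∀ m ∈ N, ∀ n ∈ N, ∀ x, c (m * n) x = c m (n • x) * c n x := by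
    intro m hm n hn x
    show f (s (mk N x)) ((k ((m * n) • x))⁻¹ * (m * n) * k x) =
      f (s (mk N (n • x))) ((k (m • n • x))⁻¹ * m * k (n • x)) *
        f (s (mk N x)) ((k (n • x))⁻¹ * n * k x)
    have h1 := hfixs m hm (n • x)
    rw [mk_smul hn] at h1 ⊢
    rw [← hf1 (s (mk N x)) _ _ (hmem m hm (n • x)) (hmem n hn x) h1 (hfixs n hn x), mul_smul]
    congr 1
    group
  have hcx : ∀ m ∈ N, ∀ x, m • x = x → c m x = f x m := by
    intro m hm x hx
    show f (s (mk N x)) ((k (m • x))⁻¹ * m * k x) = _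
    have h1 := hf2 (k x) (hNΓ (hkN x)) (s (mk N x)) ((k x)⁻¹ * m * k x) (hconj _ m hm) (by
      have := hfixs m hm x
      rwa [hx] at this)
    rw [hk x] at h1
    rw [hx, ← h1]
    congr 1
    group
  obtain ⟨lam, F, hF, hlam⟩ := bundle hT ell_NN c hc (by
    intro m hm x y hxy hx hy
    rw [hcx m hm x hx, hcx m hm y hy, hf3 x y hxy m hm hx hy]) x₀
  have hl : ∀ (n : N) (x : V), (n : G) • x = x → lam n = f x n := by
    intro n x hx
    have h1 := hlam n x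
    rw [hx, hcx n n.2 x hx] at h1
    rw [h1, mul_comm (F x), mul_inv_cancel_right]
  refine ⟨lam, ?_, ?_⟩
  · intro n hn
    rw [hl n x₀ hn, hf4 n n.2 hn]
  · intro γ hγ
    -- the subgroup where this holds
    have hcl : ∀ n ∈ N, ∃ hn : n ∈ N, ∀ m : N, (m : G) = γ * n * γ⁻¹ → lam m = lam ⟨n, hn⟩ := by
      intro n hn
      induction hn using Subgroup.closure_induction with
      | mem n hn =>
        obtain ⟨v, w, h, hv, hw⟩ := hn
        have hnN : n ∈ N := mem_NN h hv hw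
        refine ⟨hnN, ?_⟩
        intro m hm
        have h1 : (m : G) • γ • v = γ • v := by
          rw [hm, mul_smul, inv_smul_smul, mul_smul, hv]
        rw [hl m (γ • v) h1, hl ⟨n, hnN⟩ v hv, hm]
        exact hf2 γ hγ v n hnN hv
      | one =>
        refine ⟨N.one_mem, ?_⟩
        intro m hm
        congr 1
        apply Subtype.ext
        rw [hm]
        group
      | mul a b _ _ ha hb =>
        obtain ⟨ha1, ha2⟩ := ha
        obtain ⟨hb1, hb2⟩ := hb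
        refine ⟨N.mul_mem ha1 hb1, ?_⟩
        intro m hm
        have e1 := ha2 ⟨γ * a * γ⁻¹, hN.conj_mem a ha1 γ⟩ rfl
        have e2 := hb2 ⟨γ * b * γ⁻¹, hN.conj_mem b hb1 γ⟩ rfl
        have h1 : m = ⟨γ * a * γ⁻¹, hN.conj_mem a ha1 γ⟩ * ⟨γ * b * γ⁻¹, hN.conj_mem b hb1 γ⟩ := by
          apply Subtype.ext
          rw [hm]
          show γ * (a * b) * γ⁻¹ = γ * a * γ⁻¹ * (γ * b * γ⁻¹)
          group
        rw [h1, map_mul, e1, e2, ← map_mul]
        rfl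
      | inv a _ ha =>
        obtain ⟨ha1, ha2⟩ := ha
        refine ⟨N.inv_mem ha1, ?_⟩
        intro m hm
        have e1 := ha2 ⟨γ * a * γ⁻¹, hN.conj_mem a ha1 γ⟩ rfl
        have h1 : m = (⟨γ * a * γ⁻¹, hN.conj_mem a ha1 γ⟩ : N)⁻¹ := by
          apply Subtype.ext
          rw [hm]
          show γ * a⁻¹ * γ⁻¹ = (γ * a * γ⁻¹)⁻¹
          group
        rw [h1, map_inv, e1, ← map_inv]
        rfl
    intro n m hm
    obtain ⟨hn, h1⟩ := hcl n n.2
    exact h1 m hm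

/-- the commutator with the normal subgroup meets the vertex stabilizers trivially -/
theorem comm_triv (hT : TreeAct G T) (hce : CentE G T) {Γ : Subgroup G} (hΓ : Ell V Γ)
    (hNΓ : NN G T ≤ Γ) {g : G} (hg : g ∈ ⁅NN G T, Γ⁆) {x : V} (hx : g • x = x) : g = 1 := by
  classical
  let N := NN G T
  have hN : N.Normal := normal_NN hT
  by_contra hne
  have hgN : g ∈ N := (Subgroup.commutator_le_left N Γ) hg
  obtain ⟨χ, hχ1, hχ2⟩ := sep_char (S := N ⊓ MulAction.stabilizer G x) (g := g)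
    (fun a ha b hb => central_NN hT hce hb.1 hb.2 ha.2) ⟨hgN, hx⟩ hne
  obtain ⟨lam, hl1, hl2⟩ := exists_lambda hT hce hΓ hNΓ x χ
    (fun a b ha hb hax hbx => hχ1 a ⟨ha, hax⟩ b ⟨hb, hbx⟩)
  have hK : ⁅N, Γ⁆ ≤ lam.ker.map N.subtype := by
    rw [Subgroup.commutator_le]
    intro n hn γ hγ
    have h1 : γ * n⁻¹ * γ⁻¹ ∈ N := hN.conj_mem _ (N.inv_mem hn) γ
    refine ⟨⟨n, hn⟩ * ⟨_, h1⟩, ?_, ?_⟩
    · have e1 := hl2 γ hγ (⟨n, hn⟩ : N)⁻¹ ⟨_, h1⟩ rfl
      show lam _ = 1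
      rw [map_mul, e1, ← map_mul, mul_inv_cancel, map_one]
    · show n * (γ * n⁻¹ * γ⁻¹) = n * γ * n⁻¹ * γ⁻¹
      group
  obtain ⟨m, hm, h1⟩ := hK hg
  have h2 : m = ⟨g, hgN⟩ := Subtype.ext h1
  apply hχ2
  rw [← hl1 ⟨g, hgN⟩ hx, ← h2]
  exact hm

end Q182.Cen
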