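import Pool.Agent.Q182.CylAct
import Pool.Agent.Y430.SS.Lf

/-!
# Virtually cyclic groups and extensions of them by an infinite cyclic group
-/

set_option autoImplicit false

namespace Q182.Cyl

open Pool.Agent.Y110.FJ (ClosedE)
open Pool.Agent.Y462.SS (Closed)
open Subgroup (Commensurable)

variable {G : Type} [Group G]

/-- infinite order -/
def InfOrd (z : G) : Prop := ∀ n : ℕ, 0 < n → z ^ n ≠ 1

theorem InfOrd.zpow {z : G} (hz : InfOrd z) {j : ℤ} (h : z ^ j = 1) : j = 0 := by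
  by_contra hj
  apply hz j.natAbs (Int.natAbs_pos.2 hj)
  rcases Int.natAbs_eq j with h1 | h1
  · rw [h1, zpow_natCast] at h
    exact h
  · rw [h1, zpow_neg, zpow_natCast, inv_eq_one] at h
    exact h

theorem InfOrd.pow {z : G} (hz : InfOrd z) {n : ℕ} (hn : 0 < n) : InfOrd (z ^ n) := by
  intro m hm h
  rw [← pow_mul] at h
  exact hz _ (Nat.mul_pos hn hm) h

theorem InfOrd.zpow' {z : G} (hz : InfOrd z) {j : ℤ} (hj : j ≠ 0) : InfOrd (z ^ j) := by
  intro m hm h
  rw [← zpow_natCast, ← zpow_mul] at h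
  have := hz.zpow h
  rcases mul_eq_zero.1 this with h1 | h1
  · exact hj h1
  · omega

theorem zp_mem {C : ∀ (G : Type) [Group G], Prop} (hC : Closed C) (c : G) :
    C ↥(Subgroup.zpowers c) := by
  by_cases hc : ∃ n : ℕ, 0 < n ∧ c ^ n = 1
  · obtain ⟨n, hn, h⟩ := hc
    refine Pool.Agent.Y430.SS.of_finite hC _ ?_
    have h1 : IsOfFinOrder c := isOfFinOrder_iff_pow_eq_one.2 ⟨n, hn, h⟩
    exact h1.finite_zpowers
  · have hz : InfOrd c := fun n hn h => hc ⟨n, hn, h⟩
    let f : Multiplicative ℤ →* Subgroup.zpowers c :=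
      (zpowersHom G c).codRestrict _ (fun n => ⟨n.toAdd, by rw [zpowersHom_apply]⟩)
    have h1 : Function.Bijective f := by
      constructor
      · rw [injective_iff_map_eq_one]
        intro n hn
        have h2 : c ^ n.toAdd = 1 := congrArg Subtype.val hn
        rw [← ofAdd_toAdd n, hz.zpow h2]
        rfl
      · rintro ⟨_, n, rfl⟩
        exact ⟨Multiplicative.ofAdd n, rfl⟩
    let e := MulEquiv.ofBijective f h1
    exact hC.of_injective _ _ e.symm.toMonoidHom e.symm.injective hC.int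

theorem fi_mem {C : ∀ (G : Type) [Group G], Prop} (hC : Closed C) {K H : Subgroup G}
    (h : K.relIndex H ≠ 0) (hK : C K) : C H := by
  have h1 : (K.subgroupOf H).FiniteIndex := ⟨h⟩
  refine hC.finiteIndex H (K.subgroupOf H) h1 ?_
  refine hC.of_injective _ _ (MonoidHom.mk' (fun x : K.subgroupOf H => (⟨x.1.1, x.2⟩ : K))
    (fun _ _ => rfl)) ?_ hK
  intro x y hxy
  exact Subtype.ext (Subtype.ext (congrArg (fun u : K => (u : G)) hxy))

theorem vcyc_mem {C : ∀ (G : Type) [Group G], Prop} (hC : Closed C) {W : Subgroup G}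
    (h : ∃ c ∈ W, (Subgroup.zpowers c).relIndex W ≠ 0) : C W := by
  obtain ⟨c, _, h⟩ := h
  exact fi_mem hC h (zp_mem hC c)

theorem zp_pow_index (c : G) (n : ℕ) (hn : 0 < n) :
    (Subgroup.zpowers (c ^ n)).relIndex (Subgroup.zpowers c) ≠ 0 := by
  have h1 : Finite (Subgroup.zpowers c ⧸
      (Subgroup.zpowers (c ^ n)).subgroupOf (Subgroup.zpowers c)) := by
    refine Finite.of_surjective (fun i : Fin n => (QuotientGroup.mk
      (⟨c ^ (i : ℕ), Subgroup.mem_zpowers_iff.2 ⟨i, by simp⟩⟩ : Subgroup.zpowers c) :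
        Subgroup.zpowers c ⧸ (Subgroup.zpowers (c ^ n)).subgroupOf (Subgroup.zpowers c))) ?_
    intro q
    obtain ⟨⟨x, hx⟩, rfl⟩ := QuotientGroup.mk_surjective q
    obtain ⟨i, rfl⟩ := Subgroup.mem_zpowers_iff.1 hx
    have h2 : 0 ≤ i % (n : ℤ) := Int.emod_nonneg _ (by omega)
    have h3 : i % (n : ℤ) < n := Int.emod_lt_of_pos _ (by omega)
    refine ⟨⟨(i % (n : ℤ)).toNat, by omega⟩, QuotientGroup.eq.2 ?_⟩
    rw [Subgroup.mem_subgroupOf]
    refine Subgroup.mem_zpowers_iff.2 ⟨i / (n : ℤ), ?_⟩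
    show (c ^ n) ^ (i / (n : ℤ)) = (c ^ (i % (n : ℤ)).toNat)⁻¹ * c ^ i
    rw [← zpow_natCast c n, ← zpow_mul, ← zpow_natCast c, ← zpow_neg, ← zpow_add,
      Int.toNat_of_nonneg h2]
    congr 1
    have := Int.emod_add_mul_ediv i n
    omega
  exact Subgroup.index_ne_zero_of_finite

/-- an element of infinite order of a virtually cyclic group -/
theorem zp_index {H : Subgroup G} (h : ∃ c ∈ H, (Subgroup.zpowers c).relIndex H ≠ 0) {z : G}
    (hz : InfOrd z) (hzH : z ∈ H) : (Subgroup.zpowers z).relIndex H ≠ 0 := by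
  obtain ⟨c, hc, h⟩ := h
  obtain ⟨k, hk, _, hkc⟩ := Subgroup.exists_pow_mem_of_relIndex_ne_zero h hzH
  obtain ⟨j, hj⟩ := (Subgroup.mem_inf.1 hkc).1
  have hj' : c ^ j = z ^ k := hj
  have hj0 : j ≠ 0 := by
    rintro rfl
    rw [zpow_zero] at hj'
    exact hz k hk hj'.symm
  have h1 : (Subgroup.zpowers (c ^ j)).relIndex (Subgroup.zpowers c) ≠ 0 := by
    rcases Int.natAbs_eq j with h4 | h4
    · rw [h4, zpow_natCast]
      exact zp_pow_index c _ (Int.natAbs_pos.2 hj0)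
    · rw [h4, zpow_neg, zpow_natCast, Subgroup.zpowers_inv]
      exact zp_pow_index c _ (Int.natAbs_pos.2 hj0)
  have h2 : (Subgroup.zpowers (z ^ k)).relIndex H ≠ 0 := by
    rw [← hj']
    exact Subgroup.relIndex_ne_zero_trans h1 h
  intro h0
  apply h2
  exact Subgroup.relIndex_eq_zero_of_le_left
    (Subgroup.zpowers_le.2 (Subgroup.mem_zpowers_iff.2 ⟨k, by simp⟩)) h0

end Q182.Cyl
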