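import Pool.Agent.Q182.CenLam
import Pool.Agent.Q182.CylVc

/-!
# Trees with central edge stabilizers
-/

set_option autoImplicit false

namespace Q182.Cen

open SimpleGraph
open Pool.Agent.Helper270.Tree
open Pool.Agent.Y110.FJ (ClosedE)
open Pool.Agent.Y462.SS (Closed)
open Q182.Cyl (ClosedA)
open scoped commutatorElement

section CE

variable {C : ∀ (G : Type) [Group G], Prop} {P : Type} [Group P]

theorem adj_one (hC : Closed C) (A : Subgroup P) [A.Normal] (b : P) (hb : ∀ g : P, g * b = b * g)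
    (h : C A) : C ↥(A ⊔ Subgroup.zpowers b) := by
  by_cases hex : ∃ n : ℕ, 0 < n ∧ b ^ n ∈ A
  · obtain ⟨n, hn, hbn⟩ := hex
    refine Q182.Cyl.fi_mem hC (K := A) ?_ h
    rw [sup_comm, Subgroup.relIndex_sup_right]
    intro h0
    exact Q182.Cyl.zp_pow_index b n hn
      (Subgroup.relIndex_eq_zero_of_le_left (Subgroup.zpowers_le.2 hbn) h0)
  · have hcomm : ∀ (i : ℤ) (g : P), g * b ^ i = b ^ i * g := fun i g =>
      ((show Commute g b from hb g).zpow_right i).eq
    let f : A × Multiplicative ℤ →* ↥(A ⊔ Subgroup.zpowers b) := MonoidHom.mk'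
      (fun x => ⟨(x.1 : P) * b ^ x.2.toAdd, Subgroup.mul_mem_sup x.1.2 ⟨_, rfl⟩⟩) (by
        intro x y
        apply Subtype.ext
        show ((x.1 * y.1 : A) : P) * b ^ (x.2.toAdd + y.2.toAdd) =
          (x.1 : P) * b ^ x.2.toAdd * ((y.1 : P) * b ^ y.2.toAdd)
        rw [Subgroup.coe_mul, zpow_add, mul_assoc, mul_assoc, ← mul_assoc (y.1 : P),
          hcomm x.2.toAdd (y.1 : P), mul_assoc])
    have hf : Function.Bijective f := by
      constructor
      · rw [injective_iff_map_eq_one]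
        intro x hx
        have h1 : (x.1 : P) * b ^ x.2.toAdd = 1 := congrArg Subtype.val hx
        have h2 : x.2.toAdd = 0 := by
          by_contra hne
          apply hex
          refine ⟨x.2.toAdd.natAbs, Int.natAbs_pos.2 hne, ?_⟩
          have h3 : b ^ x.2.toAdd ∈ A := by
            rw [mul_eq_one_iff_inv_eq] at h1
            rw [← h1]
            exact A.inv_mem x.1.2
          rcases Int.natAbs_eq x.2.toAdd with h4 | h4
          · rw [h4, zpow_natCast] at h3
            exact h3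
          · rw [h4, zpow_neg, zpow_natCast] at h3
            exact (A.inv_mem_iff).1 h3
        rw [h2, zpow_zero, mul_one] at h1
        refine Prod.ext (Subtype.ext h1) ?_
        rw [← ofAdd_toAdd x.2, h2]
        rfl
      · rintro ⟨x, hx⟩
        rw [Subgroup.mem_sup_of_normal_left] at hx
        obtain ⟨a, ha, z, ⟨i, rfl⟩, rfl⟩ := hx
        exact ⟨(⟨a, ha⟩, Multiplicative.ofAdd i), rfl⟩
    let e := MulEquiv.ofBijective f hf
    exact hC.of_injective _ _ e.symm.toMonoidHom e.symm.injective (hC.prod _ _ h hC.int)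

/-- adjoining central elements -/
theorem ce (hC : Closed C) (A B : Subgroup P) (hB : ∀ b ∈ B, ∀ g : P, g * b = b * g)
    (hAB : A ⊔ B = ⊤) (hA : C A) : C P := by
  classical
  have hAn : A.Normal := by
    rw [← Subgroup.normalizer_eq_top_iff, eq_top_iff, ← hAB, sup_le_iff]
    refine ⟨Subgroup.le_normalizer, ?_⟩
    intro b hb
    rw [Subgroup.mem_normalizer_iff]
    intro g
    rw [← hB b hb g, mul_inv_cancel_right]
  have hBn : ∀ s : Finset B, (Subgroup.closure (Subtype.val '' (s : Set B))).Normal := by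
    intro s
    constructor
    intro n hn g
    have h1 : Subgroup.closure (Subtype.val '' (s : Set B)) ≤ B := by
      rw [Subgroup.closure_le]
      rintro _ ⟨b, _, rfl⟩
      exact b.2
    rw [hB n (h1 hn) g, mul_inv_cancel_right]
    exact hn
  refine Pool.Agent.Y430.SS.of_directed hC P (Finset B) (fun i j => ⟨i ∪ j,
    Finset.subset_union_left, Finset.subset_union_right⟩)
    (fun s => A ⊔ Subgroup.closure (Subtype.val '' (s : Set B))) ?_ ?_ ?_
  · intro s t hst
    exact sup_le_sup_left (Subgroup.closure_mono (Set.image_mono (by exact_mod_cast hst))) A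
  · intro g
    have h1 : g ∈ A ⊔ B := by
      rw [hAB]
      trivial
    rw [Subgroup.mem_sup_of_normal_left] at h1
    obtain ⟨a, ha, b, hb, rfl⟩ := h1
    exact ⟨{⟨b, hb⟩}, Subgroup.mul_mem_sup ha (Subgroup.subset_closure (by simp))⟩
  · intro s
    induction s using Finset.induction_on with
    | empty =>
      have h1 : A ⊔ Subgroup.closure (Subtype.val '' ((∅ : Finset B) : Set B)) = A := by simp
      rw [h1]
      exact hA
    | insert b s _ ih =>
      have h1 : A ⊔ Subgroup.closure (Subtype.val '' ((insert b s : Finset B) : Set B)) =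
          (A ⊔ Subgroup.closure (Subtype.val '' (s : Set B))) ⊔ Subgroup.zpowers (b : P) := by
        rw [Finset.coe_insert, Set.image_insert_eq, Set.insert_eq, Subgroup.closure_union,
          ← Subgroup.zpowers_eq_closure, sup_assoc, sup_comm (Subgroup.zpowers (b : P))]
      rw [h1]
      have := hBn s
      exact adj_one hC _ (b : P) (hB b b.2) ih

end CE

variable {C : ∀ (G : Type) [Group G], Prop} {G V : Type} [Group G] [MulAction G V]
  {T : SimpleGraph V}

theorem st_mem (hC : Closed C) (K : Subgroup G) (v : V) (h : C (MulAction.stabilizer G v)) :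
    C (MulAction.stabilizer K v) := by
  refine hC.of_injective _ _ (MonoidHom.mk' (fun x : MulAction.stabilizer K v =>
    (⟨(x.1 : G), x.2⟩ : MulAction.stabilizer G v)) (fun _ _ => rfl)) ?_ h
  intro x y hxy
  exact Subtype.ext (Subtype.ext (congrArg (fun u : MulAction.stabilizer G v => (u : G)) hxy))

/-- the preimages of the vertex stabilizers of the quotient -/
theorem gamma_mem (hC : ClosedE C) (hT : TreeAct G T) (hce : CentE G T)
    (hst : ∀ v : V, C (MulAction.stabilizer G v)) (v : V) (Γ : Subgroup G)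
    (hΓ : ∀ g, g ∈ Γ ↔ mk (NN G T) (g • v) = mk (NN G T) v) : C Γ := by
  let N := NN G T
  have hN : N.Normal := normal_NN hT
  have hNΓ : N ≤ Γ := fun n hn => (hΓ n).2 (mk_smul hn v)
  have hdec : ∀ g ∈ Γ, ∃ n ∈ N, ∃ h : G, h • v = v ∧ g = n * h := by
    intro g hg
    obtain ⟨n, hn, h1⟩ := mk_eq.1 ((hΓ g).1 hg)
    exact ⟨n, hn, n⁻¹ * g, by rw [mul_smul, ← h1, inv_smul_smul], by group⟩
  have hGv : ∀ h : G, h • v = v → h ∈ Γ := fun h hh => (hΓ h).2 (by rw [hh])
  have hell : Ell V Γ := by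
    intro g hg
    obtain ⟨n, hn, h, hh, rfl⟩ := hdec g hg
    refine mul_mem ?_ (Subgroup.subset_closure ⟨hGv h hh, v, hh⟩)
    refine (Subgroup.closure_mono ?_) (ell_NN (V := V) hn)
    rintro m ⟨hm, hu⟩
    exact ⟨hNΓ hm, hu⟩
  let N' : Subgroup Γ := N.subgroupOf Γ
  have hN' : N'.Normal := inferInstance
  let D : Subgroup Γ := ⁅N', (⊤ : Subgroup Γ)⁆
  have hD : D.Normal := inferInstance
  have hDG : ∀ d : Γ, d ∈ D → (d : G) ∈ ⁅N, Γ⁆ := by
    intro d hd
    have h1 : (d : G) ∈ D.map Γ.subtype := ⟨d, hd, rfl⟩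
    rw [Subgroup.map_commutator] at h1
    refine Subgroup.commutator_mono ?_ ?_ h1
    · rintro _ ⟨n, hn, rfl⟩
      exact hn
    · rintro _ ⟨n, _, rfl⟩
      exact n.2
  have hDx : ∀ d : Γ, d ∈ D → ∀ x : V, (d : G) • x = x → d = 1 := by
    intro d hd x hx
    exact Subtype.ext (comm_triv hT hce hell hNΓ (hDG d hd) hx)
  let S : Subgroup Γ := (MulAction.stabilizer G v).subgroupOf Γ
  let ι : S →* Γ ⧸ D := (QuotientGroup.mk' D).comp S.subtype
  have hι : Function.Injective ι := by
    rw [injective_iff_map_eq_one]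
    intro s hs
    have h1 : (s : Γ) ∈ D := (QuotientGroup.eq_one_iff _).1 hs
    exact Subtype.ext (hDx s h1 v s.2)
  have hS : C S := by
    refine hC.base.of_injective _ _ (MonoidHom.mk' (fun x : S =>
      (⟨(x.1 : G), x.2⟩ : MulAction.stabilizer G v)) (fun _ _ => rfl)) ?_ (hst v)
    intro x y hxy
    exact Subtype.ext (Subtype.ext (congrArg (fun u : MulAction.stabilizer G v => (u : G)) hxy))
  have hA : C ι.range :=
    hC.base.of_injective _ _ (MonoidHom.ofInjective hι).symm.toMonoidHom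
      (MonoidHom.ofInjective hι).symm.injective hS
  have hQ : C (Γ ⧸ D) := by
    refine ce hC.base ι.range (N'.map (QuotientGroup.mk' D)) ?_ ?_ hA
    · rintro _ ⟨n, hn, rfl⟩ g
      obtain ⟨γ, rfl⟩ := QuotientGroup.mk'_surjective D g
      rw [← map_mul, ← map_mul]
      refine QuotientGroup.eq.2 ?_
      have h1 : ⁅(n : Γ)⁻¹, γ⁻¹⁆ ∈ D := Subgroup.commutator_mem_commutator (N'.inv_mem hn) (Subgroup.mem_top _)
      have h2 : (γ * n)⁻¹ * (n * γ) = ⁅(n : Γ)⁻¹, γ⁻¹⁆ := by
        rw [commutatorElement_def]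
        group
      rw [h2]
      exact h1
    · rw [eq_top_iff]
      intro q _
      obtain ⟨γ, rfl⟩ := QuotientGroup.mk'_surjective D q
      obtain ⟨n, hn, h, hh, h1⟩ := hdec γ γ.2
      have h2 : γ = ⟨n, hNΓ hn⟩ * ⟨h, hGv h hh⟩ := Subtype.ext h1
      rw [h2, map_mul, sup_comm]
      exact Subgroup.mul_mem_sup ⟨_, hn, rfl⟩ ⟨⟨⟨h, hGv h hh⟩, hh⟩, rfl⟩
  refine Q9.FJT.tree_edge (V := V) (T := T) (QuotientGroup.mk' D) hC hQ hT.isTree
    (fun g v w h => hT.adj g v w h) (fun g v w h => hT.noInv g v w h) ?_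
    (fun x => st_mem hC.base Γ x (hst x))
  intro g x y _ hx _ h1
  exact hDx g ((QuotientGroup.eq_one_iff _).1 h1) x hx

/-- the preimages of the cyclic subgroups of the quotient -/
theorem cyc_mem (hC : ClosedE C)
    (hmet : ∀ (G : Type) [Group G], derivedSeries G 2 = ⊥ → C G)
    (hT : TreeAct G T) (hce : CentE G T) (hst : ∀ v : V, C (MulAction.stabilizer G v))
    (K : Subgroup G) (hK : ⁅K, K⁆ ≤ NN G T) : C K := by
  let N := NN G T
  have hN : N.Normal := normal_NN hT
  let N' : Subgroup K := N.subgroupOf K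
  have hN' : N'.Normal := inferInstance
  let D : Subgroup K := ⁅N', N'⁆
  have hD : D.Normal := inferInstance
  have hDx : ∀ d : K, d ∈ D → ∀ x : V, (d : G) • x = x → d = 1 := by
    intro d hd x hx
    have h1 : (d : G) ∈ D.map K.subtype := ⟨d, hd, rfl⟩
    rw [Subgroup.map_commutator] at h1
    have h2 : N'.map K.subtype ≤ N := by
      rintro _ ⟨n, hn, rfl⟩
      exact hn
    exact Subtype.ext (comm_triv hT hce ell_NN le_rfl (Subgroup.commutator_mono h2 h2 h1) hx)
  have hQ : C (K ⧸ D) := by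
    apply hmet
    rw [← map_derivedSeries_eq (QuotientGroup.mk'_surjective D) 2, eq_bot_iff]
    rintro _ ⟨d, hd, rfl⟩
    rw [Subgroup.mem_bot]
    refine (QuotientGroup.eq_one_iff _).2 ?_
    have h1 : derivedSeries K 1 ≤ N' := by
      intro x hx
      have h2 : (x : G) ∈ (derivedSeries K 1).map K.subtype := ⟨x, hx, rfl⟩
      have h3 : derivedSeries K 1 = ⁅(⊤ : Subgroup K), (⊤ : Subgroup K)⁆ := derivedSeries_one K
      rw [h3, Subgroup.map_commutator] at h2
      apply hK
      refine Subgroup.commutator_mono ?_ ?_ h2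
      · rintro _ ⟨n, _, rfl⟩
        exact n.2
      · rintro _ ⟨n, _, rfl⟩
        exact n.2
    have h2 : derivedSeries K 2 ≤ ⁅N', N'⁆ := by
      rw [derivedSeries_succ]
      exact Subgroup.commutator_mono h1 h1
    exact h2 hd
  refine Q9.FJT.tree_edge (V := V) (T := T) (QuotientGroup.mk' D) hC hQ hT.isTree
    (fun g v w h => hT.adj g v w h) (fun g v w h => hT.noInv g v w h) ?_
    (fun x => st_mem hC.base K x (hst x))
  intro g x y _ hx _ h1
  exact hDx g ((QuotientGroup.eq_one_iff _).1 h1) x hx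

/-- **main theorem** -/
theorem main (hC : ClosedA C) (hmet : ∀ (G : Type) [Group G], derivedSeries G 2 = ⊥ → C G)
    (hT : TreeAct G T) (hce : CentE G T) (hst : ∀ v : V, C (MulAction.stabilizer G v)) : C G := by
  let N := NN G T
  have hN : N.Normal := normal_NN hT
  let _ := qAct V N
  have hA : TreeAct (G ⧸ N) (QG T N) := treeAct_QG N hT ell_NN
  have hsm : ∀ (g : G) (x : V), (QuotientGroup.mk' N g) • mk N x = mk N (g • x) := fun g x => rfl
  have hsurj := QuotientGroup.mk'_surjective N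
  refine hC.acyl G (G ⧸ N) (Orb V N) (QuotientGroup.mk' N) (QG T N) 1 hsurj hA.isTree hA.adj
    hA.noInv ?_ ?_ ?_
  · intro p q hpq
    have hne : p ≠ q := by
      intro h
      rw [h, dist_self] at hpq
      omega
    obtain ⟨u, h1, h2⟩ := Q182.Cyl.exists_first hA.isTree hne
    refine (Set.finite_singleton (1 : G ⧸ N)).subset ?_
    rintro f ⟨hfp, hfq⟩
    have hd1 : (QG T N).dist p u = 1 := dist_eq_one_iff_adj.2 h1
    have hfu : f • u = u := hA.convex hfp hfq (by omega)
    obtain ⟨g, rfl⟩ := hsurj f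
    obtain ⟨a, rfl⟩ := exists_mk p
    obtain ⟨b, hab, rfl⟩ := exists_lift hT h1
    rw [hsm] at hfp hfu
    obtain ⟨n, hn, h3⟩ := mk_eq.1 hfp
    have h4 : (n⁻¹ * g) • a = a := by rw [mul_smul, ← h3, inv_smul_smul]
    have h5 : T.Adj a ((n⁻¹ * g) • b) := by
      have h6 := hT.adj (n⁻¹ * g) a b hab
      rwa [h4] at h6
    have h7 : mk N ((n⁻¹ * g) • b) = mk N b := by
      rw [mul_smul, mk_smul (N.inv_mem hn), hfu]
    obtain ⟨m, hm, h8⟩ := mk_eq.1 h7
    obtain ⟨k, hk, h9, h10⟩ := edge_orbit hT ell_NN hab h5 hm h8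
    have h11 : k⁻¹ * (n⁻¹ * g) ∈ N := by
      refine mem_NN hab ?_ ?_
      · rw [mul_smul, h4, inv_smul_eq_iff, h9]
      · rw [mul_smul, inv_smul_eq_iff, h10]
    have h12 : g ∈ N := by
      have h13 := N.mul_mem hn (N.mul_mem hk h11)
      have h14 : n * (k * (k⁻¹ * (n⁻¹ * g))) = g := by group
      rwa [h14] at h13
    exact (QuotientGroup.eq_one_iff _).2 h12
  · intro p
    obtain ⟨v, rfl⟩ := exists_mk p
    exact gamma_mem hC.base hT hce hst v _ (fun g => Iff.rfl)
  · rintro W ⟨c, hcW, hc⟩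
    refine Q182.Cyl.fi_mem hC.base.base (K := (Subgroup.zpowers c).comap (QuotientGroup.mk' N)) ?_ ?_
    · rw [Subgroup.relIndex_comap, Subgroup.map_comap_eq_self_of_surjective hsurj]
      exact hc
    · refine cyc_mem hC.base hmet hT hce hst _ ?_
      rw [Subgroup.commutator_le]
      rintro a ⟨i, hi⟩ b ⟨j, hj⟩
      refine (QuotientGroup.eq_one_iff _).1 ?_
      show QuotientGroup.mk' N ⁅a, b⁆ = 1
      rw [map_commutatorElement, ← hi, ← hj, commutatorElement_eq_one_iff_commute]
      exact (Commute.refl c).zpow_zpow i j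

end Q182.Cen
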