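import Pool.Agent.Q182.CylAct
import Pool.Agent.Q9.FJT.Ret

/-!
# Potentials on trees, and orbits of subgroups generated by elliptic elements
-/

set_option autoImplicit false

namespace Q182.Cen

open SimpleGraph
open Pool.Agent.Helper270.Tree

variable {G V : Type} [Group G] [MulAction G V] {T : SimpleGraph V}

/-- the subgroup is generated by elements which fix a vertex -/
def Ell (V : Type) [MulAction G V] (M : Subgroup G) : Prop :=
  M ≤ Subgroup.closure {m : G | m ∈ M ∧ ∃ u : V, m • u = u}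

theorem const_of_adj {A : Type} (hT : T.IsTree) (f : V → A) (h : ∀ a b, T.Adj a b → f a = f b)
    (x y : V) : f x = f y := by
  obtain ⟨p⟩ := hT.connected.preconnected x y
  induction p with
  | nil => rfl
  | cons hab _ ih => rw [h _ _ hab, ih]

/-- an invariant cochain has an invariant potential -/
theorem pot_inv {A : Type} [AddCommGroup A] (hT : TreeAct G T) {M : Subgroup G} (hM : Ell V M)
    (D : V → V → A) (F : V → A) (hF : ∀ a b, T.Adj a b → F b = F a + D a b)
    (hD : ∀ m ∈ M, ∀ a b, T.Adj a b → D (m • a) (m • b) = D a b) :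
    ∀ m ∈ M, ∀ x, F (m • x) = F x := by
  let S : Subgroup G :=
    { carrier := {m | ∀ x, F (m • x) = F x}
      one_mem' := fun x => by rw [one_smul]
      mul_mem' := by
        intro a b ha hb x
        rw [mul_smul, ha, hb]
      inv_mem' := by
        intro a ha x
        have := ha (a⁻¹ • x)
        rw [smul_inv_smul] at this
        exact this.symm }
  have hS : M ≤ S := by
    refine hM.trans ((Subgroup.closure_le S).2 ?_)
    rintro m ⟨hm, u, hu⟩ x
    have h1 := const_of_adj hT.isTree (fun x => F (m • x) - F x) (by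
      intro a b hab
      show F (m • a) - F a = F (m • b) - F b
      rw [hF _ _ (hT.adj m a b hab), hF a b hab, hD m hm a b hab]
      abel) x u
    simp only [hu, sub_self] at h1
    exact sub_eq_zero.1 h1
  exact fun m hm => hS hm

theorem exists_pot {A : Type} [AddCommGroup A] (hT : T.IsTree) (D : V → V → A)
    (hD : ∀ a b, D b a = - D a b) : ∃ F : V → A, ∀ a b, T.Adj a b → F b = F a + D a b := by
  obtain ⟨v⟩ := hT.connected.nonempty
  obtain ⟨F, _, hF⟩ := Q9.FJT.exists_potential (H := Multiplicative A)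
    (fun a b => Multiplicative.ofAdd (D a b)) hT v (fun a b => by rw [hD]; rfl)
  exact ⟨fun x => (F x).toAdd, fun a b hab => congrArg Multiplicative.toAdd (hF a b hab)⟩

/-- the parity function -/
theorem exists_par (hT : TreeAct G T) {M : Subgroup G} (hM : Ell V M) :
    ∃ par : V → Prop, (∀ a b, T.Adj a b → (par a ↔ ¬ par b)) ∧
      ∀ m ∈ M, ∀ x, par (m • x) ↔ par x := by
  obtain ⟨F, hF⟩ := exists_pot (A := ZMod 2) hT.isTree (fun _ _ => 1) (fun _ _ => by decide)
  have hinv := pot_inv hT hM _ F hF (fun _ _ _ _ _ => rfl)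
  refine ⟨fun x => F x = 0, ?_, ?_⟩
  · intro a b hab
    have h1 := hF a b hab
    have key : ∀ x y : ZMod 2, y = x + 1 → (x = 0 ↔ ¬ y = 0) := by decide
    exact key _ _ h1
  · intro m hm x
    show F (m • x) = 0 ↔ F x = 0
    rw [hinv m hm x]

/-- the cut along the orbit of an edge -/
theorem exists_cut (hT : TreeAct G T) {M : Subgroup G} (hM : Ell V M) {x y : V}
    (hy : T.Adj x y) : ∃ F : V → ℤ, (∀ m ∈ M, ∀ z, F (m • z) = F z) ∧ F y = F x + 1 ∧
      ∀ a b, T.Adj a b → ¬ (∃ m ∈ M, m • x = a ∧ m • y = b) →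
        ¬ (∃ m ∈ M, m • x = b ∧ m • y = a) → F b = F a := by
  classical
  obtain ⟨par, hp1, hp2⟩ := exists_par hT hM
  let P : V → V → Prop := fun a b => ∃ m ∈ M, m • x = a ∧ m • y = b
  have hPinv : ∀ m ∈ M, ∀ a b, P (m • a) (m • b) ↔ P a b := by
    intro m hm a b
    constructor
    · rintro ⟨n, hn, h1, h2⟩
      refine ⟨m⁻¹ * n, M.mul_mem (M.inv_mem hm) hn, ?_, ?_⟩
      · rw [mul_smul, h1, inv_smul_smul]
      · rw [mul_smul, h2, inv_smul_smul]
    · rintro ⟨n, hn, h1, h2⟩
      exact ⟨m * n, M.mul_mem hm hn, by rw [mul_smul, h1], by rw [mul_smul, h2]⟩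
  let D : V → V → ℤ := fun a b => (if P a b then 1 else 0) - (if P b a then 1 else 0)
  obtain ⟨F, hF⟩ := exists_pot (A := ℤ) hT.isTree D (fun a b => by show _ - _ = -(_ - _); ring)
  have hinv := pot_inv hT hM D F hF (by
    intro m hm a b _
    show (if P (m • a) (m • b) then (1 : ℤ) else 0) - (if P (m • b) (m • a) then 1 else 0) =
      (if P a b then (1 : ℤ) else 0) - (if P b a then 1 else 0)
    simp only [hPinv m hm])
  have hnot : ∀ a b, P a b → ¬ P b a := by
    rintro a b ⟨n, hn, h1, h2⟩ ⟨n', hn', h3, h4⟩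
    have e1 : par a ↔ par x := by rw [← h1]; exact hp2 n hn x
    have e2 : par a ↔ par y := by rw [← h4]; exact hp2 n' hn' y
    have e3 := hp1 x y hy
    tauto
  refine ⟨F, hinv, ?_, ?_⟩
  · rw [hF x y hy]
    have hP : P x y := ⟨1, M.one_mem, one_smul _ _, one_smul _ _⟩
    show F x + ((if P x y then (1 : ℤ) else 0) - (if P y x then 1 else 0)) = _
    rw [if_pos hP, if_neg (hnot _ _ hP), sub_zero]
  · intro a b hab h1 h2
    rw [hF a b hab]
    show F a + ((if P a b then (1 : ℤ) else 0) - (if P b a then 1 else 0)) = _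
    have h1' : ¬ P a b := h1
    have h2' : ¬ P b a := h2
    rw [if_neg h1', if_neg h2', sub_zero, add_zero]

/-- edges at a vertex with ends in one orbit are in one orbit of the stabilizer -/
theorem edge_orbit (hT : TreeAct G T) {M : Subgroup G} (hM : Ell V M) {x y y' : V}
    (hy : T.Adj x y) (hy' : T.Adj x y') {m₀ : G} (hm₀ : m₀ ∈ M) (h : m₀ • y = y') :
    ∃ m ∈ M, m • x = x ∧ m • y = y' := by
  obtain ⟨par, hp1, hp2⟩ := exists_par hT hM
  obtain ⟨F, hinv, h1, h2⟩ := exists_cut hT hM hy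
  by_contra hcon
  have h3 : F y' = F y := by rw [← h, hinv m₀ hm₀]
  have h4 := h2 x y' hy' hcon (by
    rintro ⟨m, hm, h5, h6⟩
    have e1 := hp2 m hm x
    rw [h5] at e1
    have e2 := hp1 x y' hy'
    tauto)
  omega

/-- extension of a cocycle -/
theorem bundle (hT : TreeAct G T) {M : Subgroup G} (hM : Ell V M) {H : Type} [Group H]
    (c : G → V → H) (hc : ∀ m ∈ M, ∀ n ∈ M, ∀ x, c (m * n) x = c m (n • x) * c n x)
    (he : ∀ m ∈ M, ∀ x y, T.Adj x y → m • x = x → m • y = y → c m x = c m y) (v : V) :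
    ∃ (lam : M →* H) (F : V → H), F v = 1 ∧
      ∀ (m : M) (x : V), c m x = F ((m : G) • x) * lam m * (F x)⁻¹ := by
  classical
  obtain ⟨par, hp1, hp2⟩ := exists_par hT hM
  let rel : Setoid (V × V) := MulAction.orbitRel M (V × V)
  let q : V × V → V × V := fun e => (Quotient.mk rel e).out
  have hq : ∀ e, ∃ n : M, n • q e = e := by
    intro e
    have h1 : rel (q e) e := Quotient.exact (Quotient.out_eq _)
    obtain ⟨n, hn⟩ := rel.symm h1
    exact ⟨n, hn⟩
  have hqinv : ∀ (m : M) e, q (m • e) = q e := by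
    intro m e
    show (Quotient.mk rel (m • e)).out = (Quotient.mk rel e).out
    congr 1
    exact Quotient.sound ⟨m, rfl⟩
  choose k hk using hq
  have hk1 : ∀ e : V × V, ((k e : M) : G) • (q e).1 = e.1 := fun e => congrArg Prod.fst (hk e)
  have hk2 : ∀ e : V × V, ((k e : M) : G) • (q e).2 = e.2 := fun e => congrArg Prod.snd (hk e)
  let ε : V → V → H := fun x y => c (k (x, y)) (q (x, y)).2 * (c (k (x, y)) (q (x, y)).1)⁻¹
  have hε : ∀ m ∈ M, ∀ x y, T.Adj x y → ε (m • x) (m • y) = c m y * ε x y * (c m x)⁻¹ := by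
    intro m hm x y hxy
    obtain ⟨s, hs⟩ : ∃ s : M, s = (m * k (x, y) : G)⁻¹ * k (m • x, m • y) :=
      ⟨⟨(m * k (x, y) : G)⁻¹ * k (m • x, m • y),
        M.mul_mem (M.inv_mem (M.mul_mem hm (k (x, y)).2)) (k (m • x, m • y)).2⟩, rfl⟩
    have hqq : q (m • x, m • y) = q (x, y) := hqinv ⟨m, hm⟩ (x, y)
    have hs' : (k (m • x, m • y) : G) = m * (k (x, y) * s) := by
      rw [hs]
      group
    have hs1 : (s : G) • (q (x, y)).1 = (q (x, y)).1 := by
      have h1 := hk1 (m • x, m • y)
      rw [hqq, hs', mul_smul, mul_smul] at h1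
      have h2 := smul_left_cancel m h1
      exact smul_left_cancel _ (h2.trans (hk1 (x, y)).symm)
    have hs2 : (s : G) • (q (x, y)).2 = (q (x, y)).2 := by
      have h1 := hk2 (m • x, m • y)
      rw [hqq, hs', mul_smul, mul_smul] at h1
      have h2 := smul_left_cancel m h1
      exact smul_left_cancel _ (h2.trans (hk2 (x, y)).symm)
    have hadj : T.Adj (q (x, y)).1 (q (x, y)).2 := by
      have h1 := hT.adj (k (x, y) : G)⁻¹ x y hxy
      have h2 : (k (x, y) : G)⁻¹ • x = (q (x, y)).1 := by rw [inv_smul_eq_iff, hk1]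
      have h3 : (k (x, y) : G)⁻¹ • y = (q (x, y)).2 := by rw [inv_smul_eq_iff, hk2]
      rwa [h2, h3] at h1
    have hcs := he s s.2 _ _ hadj hs1 hs2
    show c (k (m • x, m • y)) (q (m • x, m • y)).2 * (c (k (m • x, m • y)) (q (m • x, m • y)).1)⁻¹
      = _
    rw [hqq, hs', hc m hm _ (M.mul_mem (k (x, y)).2 s.2), hc m hm _ (M.mul_mem (k (x, y)).2 s.2),
      hc _ (k (x, y)).2 s s.2, hc _ (k (x, y)).2 s s.2, mul_smul, mul_smul, hs1, hs2, hk1, hk2,
      hcs]
    show _ = c m y * (c (k (x, y)) (q (x, y)).2 * (c (k (x, y)) (q (x, y)).1)⁻¹) * (c m x)⁻¹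
    group
  -- the antisymmetric version
  let ε' : V → V → H := fun x y => if par x then ε x y else (ε y x)⁻¹
  let D : V → V → H := fun x y => if par x then (if par y then 1 else (ε x y)⁻¹) else
    (if par y then ε y x else 1)
  have hDanti : ∀ a b, D b a = (D a b)⁻¹ := by
    intro a b
    by_cases ha : par a <;> by_cases hb : par b
    · simp only [D, if_pos ha, if_pos hb, inv_one]
    · simp only [D, if_pos ha, if_neg hb, inv_inv]
    · simp only [D, if_neg ha, if_pos hb]
    · simp only [D, if_neg ha, if_neg hb, inv_one]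
  have hDinv : ∀ m ∈ M, ∀ x y, T.Adj x y → D (m • x) (m • y) = c m x * D x y * (c m y)⁻¹ := by
    intro m hm x y hxy
    have h1 := hp1 x y hxy
    have h2 := hp2 m hm x
    have h3 := hp2 m hm y
    by_cases hx : par x
    · have hy : ¬ par y := h1.1 hx
      have hx' : par (m • x) := h2.2 hx
      have hy' : ¬ par (m • y) := fun h => hy (h3.1 h)
      simp only [D, if_pos hx, if_pos hx', if_neg hy, if_neg hy']
      rw [hε m hm x y hxy]
      group
    · have hy : par y := by tauto
      have hx' : ¬ par (m • x) := fun h => hx (h2.1 h)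
      have hy' : par (m • y) := h3.2 hy
      simp only [D, if_neg hx, if_neg hx', if_pos hy, if_pos hy']
      rw [hε m hm y x hxy.symm]
  obtain ⟨F', hF'v, hF'⟩ := Q9.FJT.exists_potential D hT.isTree v hDanti
  -- `F' b = F' a * D a b`; `F = F'⁻¹`
  have key : ∀ m ∈ M, ∀ x, F' (m • x) * c m x * (F' x)⁻¹ = F' (m • v) * c m v * (F' v)⁻¹ := by
    intro m hm x
    refine const_of_adj hT.isTree (fun x => F' (m • x) * c m x * (F' x)⁻¹) ?_ x v
    intro a b hab
    show F' (m • a) * c m a * (F' a)⁻¹ = F' (m • b) * c m b * (F' b)⁻¹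
    rw [hF' _ _ (hT.adj m a b hab), hF' a b hab, hDinv m hm a b hab]
    group
  refine ⟨MonoidHom.mk' (fun m => F' ((m : G) • v) * c m v * (F' v)⁻¹) ?_, fun x => (F' x)⁻¹, ?_,
    ?_⟩
  · intro m n
    show F' (((m * n : M) : G) • v) * c ((m * n : M) : G) v * (F' v)⁻¹ = _
    rw [← key m m.2 ((n : G) • v), Subgroup.coe_mul, mul_smul, hc m m.2 n n.2]
    group
  · show (F' v)⁻¹ = 1
    rw [hF'v, inv_one]
  · intro m x
    show c m x = (F' ((m : G) • x))⁻¹ * (F' ((m : G) • v) * c m v * (F' v)⁻¹) * (F' x)⁻¹⁻¹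
    rw [← key m m.2 x]
    group

end Q182.Cen
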