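import Pool.Agent.Q182.CenPot
import Pool.Agent.Q9.FJT.TreeA

/-!
# The quotient tree of a subgroup generated by elliptic elements
-/

set_option autoImplicit false

namespace Q182.Cen

open SimpleGraph
open Pool.Agent.Helper270.Tree

section

variable {G : Type} (V : Type) [Group G] [MulAction G V]

/-- the orbits of a subgroup -/
abbrev Orb (M : Subgroup G) : Type := Quotient (MulAction.orbitRel M V)

end

variable {G V : Type} [Group G] [MulAction G V] {T : SimpleGraph V}

/-- the orbit of a point -/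
def mk (M : Subgroup G) (x : V) : Orb V M := Quotient.mk _ x

theorem mk_eq {M : Subgroup G} {x y : V} : mk M x = mk M y ↔ ∃ m ∈ M, m • y = x := by
  have h1 : mk M x = mk M y ↔ (MulAction.orbitRel M V) x y := Quotient.eq
  rw [h1]
  constructor
  · rintro ⟨m, hm⟩
    exact ⟨m, m.2, hm⟩
  · rintro ⟨m, hm, h⟩
    exact ⟨⟨m, hm⟩, h⟩

theorem mk_smul {M : Subgroup G} {m : G} (hm : m ∈ M) (x : V) : mk M (m • x) = mk M x :=
  mk_eq.2 ⟨m, hm, rfl⟩

theorem exists_mk {M : Subgroup G} (p : Orb V M) : ∃ x, mk M x = p := Quotient.exists_rep p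

/-- the quotient graph -/
def QG (T : SimpleGraph V) (M : Subgroup G) : SimpleGraph (Orb V M) where
  Adj p q := p ≠ q ∧ ∃ a b, T.Adj a b ∧ mk M a = p ∧ mk M b = q
  symm := ⟨by
    rintro p q ⟨h, a, b, h1, h2, h3⟩
    exact ⟨h.symm, b, a, h1.symm, h3, h2⟩⟩
  loopless := ⟨fun p h => h.1 rfl⟩

theorem mk_ne (hT : TreeAct G T) {M : Subgroup G} (hM : Ell V M) {a b : V} (h : T.Adj a b) :
    mk M a ≠ mk M b := by
  obtain ⟨par, hp1, hp2⟩ := exists_par hT hM
  intro hab
  obtain ⟨m, hm, h1⟩ := mk_eq.1 hab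
  have e1 := hp2 m hm b
  rw [h1] at e1
  have e2 := hp1 a b h
  tauto

theorem adj_mk (hT : TreeAct G T) {M : Subgroup G} (hM : Ell V M) {a b : V} (h : T.Adj a b) :
    (QG T M).Adj (mk M a) (mk M b) := ⟨mk_ne hT hM h, a, b, h, rfl, rfl⟩

theorem exists_lift (hT : TreeAct G T) {M : Subgroup G} {a : V} {q : Orb V M}
    (h : (QG T M).Adj (mk M a) q) : ∃ b, T.Adj a b ∧ mk M b = q := by
  obtain ⟨_, a', b', h1, h2, h3⟩ := h
  obtain ⟨m, hm, h4⟩ := mk_eq.1 h2.symm
  refine ⟨m • b', ?_, ?_⟩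
  · have h5 := hT.adj m a' b' h1
    rwa [h4] at h5
  · rw [mk_smul hm, h3]

theorem isTree_QG (hT : TreeAct G T) {M : Subgroup G} (hM : Ell V M) : (QG T M).IsTree := by
  obtain ⟨v⟩ := hT.isTree.connected.nonempty
  have hne : Nonempty (Orb V M) := ⟨mk M v⟩
  constructor
  · rw [SimpleGraph.connected_iff]
    refine ⟨?_, hne⟩
    intro p q
    obtain ⟨a, rfl⟩ := exists_mk p
    obtain ⟨b, rfl⟩ := exists_mk q
    obtain ⟨w⟩ := hT.isTree.connected.preconnected a b
    induction w with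
    | nil => exact SimpleGraph.Reachable.refl _
    | cons h _ ih => exact (adj_mk hT hM h).reachable.trans ih
  · rw [SimpleGraph.isAcyclic_iff_forall_adj_isBridge]
    rintro p q ⟨hpq, x, y, hxy, rfl, rfl⟩
    rw [SimpleGraph.isBridge_iff]
    rintro ⟨w⟩
    obtain ⟨F, hF1, hF2, hF3⟩ := exists_cut hT hM hxy
    have hFm : ∀ a b, mk M a = mk M b → F a = F b := by
      intro a b hab
      obtain ⟨m, hm, h⟩ := mk_eq.1 hab
      rw [← h, hF1 m hm]
    let F' : Orb V M → ℤ := fun p => F (exists_mk p).choose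
    have hF' : ∀ a, F' (mk M a) = F a := fun a => hFm _ _ (exists_mk (mk M a)).choose_spec
    have key : ∀ (p q : Orb V M) (_ : ((QG T M).deleteEdges {s(mk M x, mk M y)}).Walk p q),
        F' p = F' q := by
      intro p q w
      induction w with
      | nil => rfl
      | @cons p r q h _ ih =>
        rw [← ih]
        rw [SimpleGraph.deleteEdges_adj] at h
        obtain ⟨⟨_, a, b, hab, rfl, rfl⟩, h2⟩ := h
        rw [hF', hF']
        refine (hF3 a b hab ?_ ?_).symm
        · rintro ⟨m, hm, rfl, rfl⟩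
          apply h2
          rw [mk_smul hm, mk_smul hm]
          rfl
        · rintro ⟨m, hm, rfl, rfl⟩
          apply h2
          rw [mk_smul hm, mk_smul hm]
          exact Sym2.eq_swap
    have h1 := key _ _ w
    rw [hF', hF'] at h1
    omega

/-! the action of the quotient group -/

section Act

variable (N : Subgroup G) [hN : N.Normal]

/-- the action on the orbits -/
noncomputable def qperm (V : Type) [MulAction G V] (N : Subgroup G) [N.Normal] :
    (G ⧸ N) →* Equiv.Perm (Orb V N) :=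
  letI := Q9.FJT.orbAct G V N
  QuotientGroup.lift N (MulAction.toPermHom G (Orb V N)) (by
    intro n hn
    apply Equiv.ext
    intro p
    obtain ⟨x, rfl⟩ := exists_mk p
    exact mk_smul hn x)

theorem qperm_mk (g : G) (x : V) :
    qperm V N (QuotientGroup.mk' N g) (mk N x) = mk N (g • x) := rfl

/-- the action of the quotient group on the orbits -/
@[reducible] noncomputable def qAct (V : Type) [MulAction G V] (N : Subgroup G) [N.Normal] :
    MulAction (G ⧸ N) (Orb V N) := MulAction.compHom _ (qperm V N)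

theorem treeAct_QG (hT : TreeAct G T) (hM : Ell V N) :
    letI := qAct V N; TreeAct (G ⧸ N) (QG T N) := by
  let _ := qAct V N
  have hsm : ∀ (g : G) (x : V), (QuotientGroup.mk' N g) • mk N x = mk N (g • x) :=
    fun g x => rfl
  refine ⟨isTree_QG hT hM, ?_, ?_⟩
  · rintro f _ _ ⟨h, a, b, hab, rfl, rfl⟩
    obtain ⟨g, rfl⟩ := QuotientGroup.mk'_surjective N f
    rw [hsm, hsm]
    exact adj_mk hT hM (hT.adj g a b hab)
  · rintro f _ _ ⟨h, a, b, hab, rfl, rfl⟩ ⟨h1, h2⟩
    obtain ⟨g, rfl⟩ := QuotientGroup.mk'_surjective N f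
    rw [hsm] at h1 h2
    -- `g • a ∈ N b`, `g • b ∈ N a`
    obtain ⟨n, hn, h3⟩ := mk_eq.1 h1
    have h4 : n⁻¹ * g ∈ {g : G | g • a = b} := by
      show (n⁻¹ * g) • a = b
      rw [mul_smul, ← h3, inv_smul_smul]
    have h5 : T.Adj b ((n⁻¹ * g) • b) := by
      have h6 := hT.adj (n⁻¹ * g) a b hab
      rw [show (n⁻¹ * g) • a = b from h4] at h6
      exact h6
    have h7 : mk N ((n⁻¹ * g) • b) = mk N a := by
      rw [mul_smul, mk_smul (N.inv_mem hn), h2]
    obtain ⟨m, hm, h8⟩ := mk_eq.1 h7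
    obtain ⟨k, hk, h9, h10⟩ := edge_orbit hT hM hab.symm h5 hm h8
    -- `k b = b`, `k a = (n⁻¹ g) b`
    refine hT.noInv (k⁻¹ * (n⁻¹ * g)) a b hab ⟨?_, ?_⟩
    · rw [mul_smul, show (n⁻¹ * g) • a = b from h4, inv_smul_eq_iff, h9]
    · rw [mul_smul, inv_smul_eq_iff, h10]

end Act

end Q182.Cen
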