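import Pool.Agent.Q9.FJT.TreeA

/-!
# Groups acting on trees with edge stabilizers commensurable to a rigid group
-/

set_option autoImplicit false

namespace Q182.ComTree

open Pool.Agent.Y110.FJ (ClosedE)
open SimpleGraph

section hom

variable {G P : Type} [Group G] [Group P] {H : Subgroup G} (ψ : H →* P)

/-- conjugation by `g` is given by `p` on a subgroup of finite index in `H` -/
def Wt (g : G) (p : P) : Prop :=
  ∃ K : Subgroup G, K ≤ H ∧ K.relIndex H ≠ 0 ∧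
    ∀ k : H, (k : G) ∈ K → ∃ hk : g * k * g⁻¹ ∈ H, ψ ⟨g * k * g⁻¹, hk⟩ = p * ψ k * p⁻¹

variable (hcent : ∀ K : Subgroup G, K ≤ H → K.relIndex H ≠ 0 → ∀ p : P,
  (∀ k : H, (k : G) ∈ K → p * ψ k = ψ k * p) → p = 1)

include hcent in
theorem Wt_unique {g : G} {p q : P} (hp : Wt ψ g p) (hq : Wt ψ g q) : p = q := by
  obtain ⟨K, hK, hKi, h1⟩ := hp
  obtain ⟨L, hL, hLi, h2⟩ := hq
  have h3 : q⁻¹ * p = 1 := by
    refine hcent (K ⊓ L) (inf_le_left.trans hK) (Subgroup.relIndex_inf_ne_zero hKi hLi) _ ?_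
    intro k hk
    obtain ⟨m1, e1⟩ := h1 k hk.1
    obtain ⟨m2, e2⟩ := h2 k hk.2
    have e3 : p * ψ k * p⁻¹ = q * ψ k * q⁻¹ := e1.symm.trans e2
    calc q⁻¹ * p * ψ k = q⁻¹ * (p * ψ k * p⁻¹) * p := by group
      _ = q⁻¹ * (q * ψ k * q⁻¹) * p := by rw [e3]
      _ = ψ k * (q⁻¹ * p) := by group
  exact (inv_mul_eq_one.1 h3).symm

theorem Wt_mul (hcomm : ∀ g : G, (H.comap (MulAut.conj g).toMonoidHom).relIndex H ≠ 0)
    {g g' : G} {p p' : P} (hp : Wt ψ g p) (hp' : Wt ψ g' p') : Wt ψ (g * g') (p * p') := by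
  obtain ⟨K, hK, hKi, h1⟩ := hp
  obtain ⟨L, hL, hLi, h2⟩ := hp'
  refine ⟨L ⊓ K.comap (MulAut.conj g').toMonoidHom, inf_le_left.trans hL,
    Subgroup.relIndex_inf_ne_zero hLi ?_, ?_⟩
  · refine Subgroup.relIndex_ne_zero_trans (K := H.comap (MulAut.conj g').toMonoidHom) ?_
      (hcomm g')
    rw [Subgroup.relIndex_comap, Subgroup.map_comap_eq_self_of_surjective]
    · exact hKi
    · exact (MulAut.conj g').surjective
  · intro k hk
    obtain ⟨m2, e2⟩ := h2 k hk.1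
    have hk2 : g' * k * g'⁻¹ ∈ K := hk.2
    obtain ⟨m1, e1⟩ := h1 ⟨g' * k * g'⁻¹, m2⟩ hk2
    have e3 : g * g' * (k : G) * (g * g')⁻¹ = g * (g' * k * g'⁻¹) * g⁻¹ := by group
    refine ⟨by rw [e3]; exact m1, ?_⟩
    have e4 : (⟨g * g' * (k : G) * (g * g')⁻¹, by rw [e3]; exact m1⟩ : H) =
        ⟨g * (g' * k * g'⁻¹) * g⁻¹, m1⟩ := Subtype.ext e3
    rw [e4]
    refine e1.trans ?_
    rw [e2]
    group

theorem Wt_self (h : H) : Wt ψ (h : G) (ψ h) := by
  refine ⟨H, le_rfl, by simp, fun k _ => ⟨?_, ?_⟩⟩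
  · exact H.mul_mem (H.mul_mem h.2 k.2) (H.inv_mem h.2)
  · rw [← map_inv, ← map_mul, ← map_mul]
    rfl

include hcent in
/-- the homomorphism given by the commensurations -/
theorem exists_hom (hcomm : ∀ g : G, (H.comap (MulAut.conj g).toMonoidHom).relIndex H ≠ 0)
    (hreal : ∀ g : G, ∃ p : P, Wt ψ g p) :
    ∃ ρ : G →* P, (∀ h : H, ρ h = ψ h) ∧ ∀ g, Wt ψ g (ρ g) := by
  choose r hr using hreal
  refine ⟨MonoidHom.mk' r fun a b => ?_, fun h => ?_, hr⟩
  · exact Wt_unique ψ hcent (hr _) (Wt_mul ψ hcomm (hr a) (hr b))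
  · exact Wt_unique ψ hcent (hr _) (Wt_self ψ h)

end hom

theorem main {C : ∀ (G : Type) [Group G], Prop} (hC : ClosedE C) {G V P : Type} [Group G] [Group P]
    [MulAction G V] {T : SimpleGraph V} (hT : T.IsTree)
    (hadj : ∀ (g : G) (v w : V), T.Adj v w → T.Adj (g • v) (g • w))
    (hinv : ∀ (g : G) (v w : V), T.Adj v w → ¬ (g • v = w ∧ g • w = v))
    (hst : ∀ v : V, C (MulAction.stabilizer G v))
    (H : Subgroup G)
    (htf : ∀ (g : G) (v w : V), T.Adj v w → g • v = v → g • w = w → ∀ n : ℕ, 0 < n → g ^ n = 1 →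
      ∀ K : Subgroup G, K ≤ H → K.relIndex H ≠ 0 → (∀ k ∈ K, g * k = k * g) → g = 1)
    (hH : ∀ v w : V, T.Adj v w →
      Subgroup.Commensurable H (MulAction.stabilizer G v ⊓ MulAction.stabilizer G w))
    (hP : C P) (ψ : H →* P) (hψ : Function.Injective ψ)
    (hcent : ∀ K : Subgroup G, K ≤ H → K.relIndex H ≠ 0 → ∀ p : P,
      (∀ k : H, (k : G) ∈ K → p * ψ k = ψ k * p) → p = 1)
    (hreal : ∀ g : G, ∃ p : P, Wt ψ g p) : C G := by
  by_cases hE : ∃ v w, T.Adj v w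
  swap
  · push Not at hE
    exact Q9.FJT.tree_edge (1 : G →* P) hC hP hT hadj hinv
      (fun g v w hvw => absurd hvw (hE v w)) hst
  obtain ⟨v₀, w₀, h₀⟩ := hE
  have hstab : ∀ (g : G) (v : V), (MulAction.stabilizer G (g • v)).comap
      (MulAut.conj g).toMonoidHom = MulAction.stabilizer G v := by
    intro g v
    ext x
    rw [Subgroup.mem_comap, MulAction.mem_stabilizer_iff, MulAction.mem_stabilizer_iff]
    show (g * x * g⁻¹) • g • v = g • v ↔ _
    rw [smul_smul, inv_mul_cancel_right, mul_smul, smul_left_cancel_iff]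
  have hcomm : ∀ g : G, (H.comap (MulAut.conj g).toMonoidHom).relIndex H ≠ 0 := by
    intro g
    have h1 := (hH _ _ (hadj g v₀ w₀ h₀)).1
    have h2 := (hH _ _ h₀).2
    have h3 : (H.comap (MulAut.conj g).toMonoidHom).relIndex
        (MulAction.stabilizer G v₀ ⊓ MulAction.stabilizer G w₀) ≠ 0 := by
      rw [← hstab g v₀, ← hstab g w₀, ← Subgroup.comap_inf, Subgroup.relIndex_comap,
        Subgroup.map_comap_eq_self_of_surjective]
      · exact h1
      · exact (MulAut.conj g).surjective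
    exact Subgroup.relIndex_ne_zero_trans h3 h2
  obtain ⟨ρ, hρ, hWt⟩ := exists_hom ψ hcent hcomm hreal
  refine Q9.FJT.tree_edge ρ hC hP hT hadj hinv ?_ hst
  intro g v w hvw hv hw h1
  have h2 := (hH v w hvw).1
  obtain ⟨n, hn, -, h3⟩ := Subgroup.exists_pow_mem_of_relIndex_ne_zero h2
    (show g ∈ MulAction.stabilizer G v ⊓ MulAction.stabilizer G w from ⟨hv, hw⟩)
  have h4 : ψ ⟨g ^ n, h3.1⟩ = 1 := by
    rw [← hρ]
    show ρ (g ^ n) = 1
    rw [map_pow, h1, one_pow]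
  have h5 : g ^ n = 1 := congrArg Subtype.val (hψ (h4.trans (map_one ψ).symm))
  have hp := hWt g
  rw [h1] at hp
  obtain ⟨K, hK, hKi, h7⟩ := hp
  refine htf g v w hvw hv hw n hn h5 K hK hKi ?_
  intro k hk
  obtain ⟨h8, h9⟩ := h7 ⟨k, hK hk⟩ hk
  rw [one_mul, inv_one, mul_one] at h9
  have h10 : g * k * g⁻¹ = k := congrArg Subtype.val (hψ h9)
  exact mul_inv_eq_iff_eq_mul.1 h10

end Q182.ComTree
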