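import Pool.Agent.Q182.CylAct

/-!
# Coning off an invariant family of convex sets
-/

set_option autoImplicit false

namespace Q182.Csa

open SimpleGraph
open Pool.Agent.Helper270.Tree
open Q182.Cyl (Fam cone cone_ll cone_lr cone_rl isTree_cone exists_first)

variable {G V : Type} [Group G] [MulAction G V] {T : SimpleGraph V}

/-- invariant families of sets -/
def Inv (G : Type) {V : Type} [Group G] [MulAction G V] (F : Set (Set V)) : Prop :=
  ∀ (g : G), ∀ S ∈ F, (fun x => g • x) '' S ∈ F

variable {F : Set (Set V)} (hI : Inv G F)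

/-- the action on the family -/
@[reducible] def famAct : MulAction G F where
  smul g S := ⟨(fun x => g • x) '' S.1, hI g S.1 S.2⟩
  one_smul S := by
    apply Subtype.ext
    show (fun x => (1 : G) • x) '' S.1 = S.1
    simp
  mul_smul g h S := by
    apply Subtype.ext
    show (fun x => (g * h) • x) '' S.1 = (fun x => g • x) '' ((fun x => h • x) '' S.1)
    rw [Set.image_image]
    simp only [mul_smul]

/-- the action on the vertices of the cone -/
@[reducible] def coneAct : MulAction G (V ⊕ F) :=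
  letI := famAct hI
  inferInstance

variable (hT : TreeAct G T) (hF : Fam T F)

include hT hF in
theorem treeAct_cone : letI := coneAct hI; TreeAct G (cone T F) := by
  let _ := coneAct hI
  refine ⟨isTree_cone hT.isTree hF, ?_, ?_⟩
  · rintro g (v | S) (w | S') h
    · show (cone T F).Adj (Sum.inl (g • v)) (Sum.inl (g • w))
      obtain ⟨h1, h2⟩ := cone_ll.1 h
      refine cone_ll.2 ⟨hT.adj g _ _ h1, ?_⟩
      rintro S hS ⟨h3, h4⟩
      refine h2 _ (hI g⁻¹ S hS) ⟨⟨g • v, h3, ?_⟩, ⟨g • w, h4, ?_⟩⟩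
      · exact inv_smul_smul g v
      · exact inv_smul_smul g w
    · show (cone T F).Adj (Sum.inl (g • v)) (Sum.inr ⟨_, hI g S'.1 S'.2⟩)
      exact cone_lr.2 ⟨v, cone_lr.1 h, rfl⟩
    · show (cone T F).Adj (Sum.inr ⟨_, hI g S.1 S.2⟩) (Sum.inl (g • w))
      exact cone_rl.2 ⟨w, cone_rl.1 h, rfl⟩
    · exact h
  · rintro g (v | S) (w | S') h ⟨h1, h2⟩
    · exact hT.noInv g v w (cone_ll.1 h).1 ⟨Sum.inl.inj h1, Sum.inl.inj h2⟩
    · have h3 : (Sum.inl (g • v) : V ⊕ F) = Sum.inr S' := h1
      simp at h3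
    · have h3 : (Sum.inl (g • w) : V ⊕ F) = Sum.inr S := h2
      simp at h3
    · exact h

include hT hF in
theorem exists_fixed : letI := coneAct hI; ∀ x y : V ⊕ F,
    1 ≤ (cone T F).dist x y → ∃ v : V, (∀ g : G, g • x = x → g • y = y → g • v = v) ∧
      (cone T F).dist x y ≤ (cone T F).dist (Sum.inl v) y + 1 := by
  let _ := coneAct hI
  intro x y hxy
  have hA : TreeAct G (cone T F) := treeAct_cone hI hT hF
  rcases x with v | S
  · refine ⟨v, ?_, by omega⟩
    intro g hg _
    exact Sum.inl.inj hg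
  · have hne : (Sum.inr S : V ⊕ F) ≠ y := by
      rintro rfl
      rw [dist_self] at hxy
      omega
    obtain ⟨u, h1, h2⟩ := exists_first hA.isTree hne
    rcases u with v | S'
    · refine ⟨v, ?_, by omega⟩
      intro g hgx hgy
      have h3 : g • (Sum.inl v : V ⊕ F) = Sum.inl v := by
        refine hA.convex hgx hgy ?_
        rw [dist_eq_one_iff_adj.2 h1]
        exact h2
      exact Sum.inl.inj h3
    · exact absurd h1 (fun h => h)

include hT hF in
/-- the action on the cone is acylindrical -/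
theorem finite_cone (hfin : ∀ v w : V, v ≠ w → (∀ S ∈ F, ¬ (v ∈ S ∧ w ∈ S)) →
    {g : G | g • v = v ∧ g • w = w}.Finite) : letI := coneAct hI; ∀ x y : V ⊕ F,
    5 ≤ (cone T F).dist x y → {g : G | g • x = x ∧ g • y = y}.Finite := by
  let _ := coneAct hI
  intro x y hxy
  have hA : TreeAct G (cone T F) := treeAct_cone hI hT hF
  obtain ⟨v, h1, h2⟩ := exists_fixed hI hT hF x y (by omega)
  obtain ⟨w, h3, h4⟩ := exists_fixed hI hT hF y (Sum.inl v) (by rw [dist_comm]; omega)
  have h5 : 3 ≤ (cone T F).dist (Sum.inl v) (Sum.inl w) := by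
    rw [dist_comm]
    rw [dist_comm] at h4
    omega
  refine (hfin v w ?_ ?_).subset ?_
  · rintro rfl
    rw [dist_self] at h5
    omega
  · rintro S hS ⟨hv, hw⟩
    have h6 : (cone T F).Adj (Sum.inl v) (Sum.inr ⟨S, hS⟩) := cone_lr.2 hv
    have h7 : (cone T F).Adj (Sum.inr ⟨S, hS⟩) (Sum.inl w) := cone_rl.2 hw
    have h8 := SimpleGraph.dist_le (Walk.cons h6 (Walk.cons h7 Walk.nil))
    simp only [Walk.length_cons, Walk.length_nil] at h8
    omega
  · rintro g ⟨hgx, hgy⟩
    have hgv : g • v = v := h1 g hgx hgy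
    have hgv' : g • (Sum.inl v : V ⊕ F) = Sum.inl v := congrArg Sum.inl hgv
    exact ⟨hgv, h3 g hgy hgv'⟩

/-- convex subsets are trees -/
theorem isTree_conv {T : SimpleGraph V} (hT : T.IsTree) (S : Set V) (hne : S.Nonempty)
    (hconv : ∀ v ∈ S, ∀ w ∈ S, ∀ u, T.dist v u + T.dist u w = T.dist v w → u ∈ S) :
    (T.induce S).IsTree := by
  constructor
  · rw [SimpleGraph.connected_iff]
    refine ⟨?_, ?_⟩
    · rintro ⟨v, hv⟩ ⟨w, hw⟩
      obtain ⟨q, h0, hn, hadj, hd, _⟩ := exists_geod hT v w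
      have hfix : ∀ i ≤ T.dist v w, q i ∈ S := by
        intro i hi
        refine hconv v hv w hw _ ?_
        have := hd i hi
        omega
      have key : ∀ i (hi : i ≤ T.dist v w), (T.induce S).Reachable ⟨v, hv⟩ ⟨q i, hfix i hi⟩ := by
        intro i
        induction i with
        | zero =>
          intro hi
          have : (⟨v, hv⟩ : S) = ⟨q 0, hfix 0 hi⟩ := Subtype.ext h0.symm
          rw [this]
        | succ i ih =>
          intro hi
          refine (ih (by omega)).trans ?_
          have h1 : (T.induce S).Adj ⟨q i, hfix i (by omega)⟩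
            ⟨q (i + 1), hfix (i + 1) hi⟩ := hadj i (by omega)
          exact h1.reachable
      have h1 := key (T.dist v w) le_rfl
      have h2 : (⟨q (T.dist v w), hfix _ le_rfl⟩ : S) = ⟨w, hw⟩ := Subtype.ext hn
      rw [h2] at h1
      exact h1
    · obtain ⟨v, hv⟩ := hne
      exact ⟨⟨v, hv⟩⟩
  · exact hT.isAcyclic.induce _

end Q182.Csa
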