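import Pool.Agent.Q182.CsaType
import Pool.Agent.Q182.CenMain

/-!
# Trees with abelian edge stabilizers
-/

set_option autoImplicit false

namespace Q182.Csa

open SimpleGraph
open Pool.Agent.Helper270.Tree
open Q182.Cyl (ClosedA Fam cone cone_ll cone_lr cone_rl isTree_cone exists_first)

variable {C : ∀ (G : Type) [Group G], Prop} {G V : Type} [Group G] [MulAction G V]
  {T : SimpleGraph V}

theorem der_abel (G : Type) [Group G] (h : ∀ a b : G, a * b = b * a) : derivedSeries G 2 = ⊥ := by
  have h1 : derivedSeries G 1 = ⊥ := by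
    rw [derivedSeries_one]
    exact (commutator_eq_bot_iff_center_eq_top _).2 (by
      rw [eq_top_iff]
      intro g _
      rw [Subgroup.mem_center_iff]
      exact fun a => h a g)
  rw [derivedSeries_succ, h1]
  exact Subgroup.commutator_bot_left _

theorem main (hC : ClosedA C) (hmet : ∀ (G : Type) [Group G], derivedSeries G 2 = ⊥ → C G)
    (hT : TreeAct G T) (hH : Hyp G T) (hst : ∀ v : V, C (MulAction.stabilizer G v)) : C G := by
  have hI := inv_FF hT
  have hF := fam_FF hH hT
  let _ := coneAct hI
  have hA : TreeAct G (cone T (FF G T)) := treeAct_cone hI hT hF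
  refine hC.acyl G G (V ⊕ FF G T) (MonoidHom.id G) (cone T (FF G T)) 5
    (fun g => ⟨g, rfl⟩) hA.isTree hA.adj hA.noInv (finite_cone hI hT hF (fin_pair hT)) ?_ ?_
  · rintro (v | S)
    · refine hC.base.base.of_injective _ _ (Subgroup.inclusion ?_)
        (Subgroup.inclusion_injective _) (hst v)
      intro g hg
      have h1 : g • (Sum.inl v : V ⊕ FF G T) = Sum.inl v := hg
      exact Sum.inl.inj h1
    · -- the stabilizer of a cylinder
      obtain ⟨K, hK⟩ : ∃ K : Subgroup G, K = (MulAction.stabilizer G (Sum.inr S : V ⊕ FF G T)).comap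
        (MonoidHom.id G) := ⟨_, rfl⟩
      have hKS : ∀ k ∈ K, (fun x => k • x) '' S.1 = S.1 := by
        intro k hk
        rw [hK] at hk
        have h1 : k • (Sum.inr S : V ⊕ FF G T) = Sum.inr S := hk
        exact congrArg Subtype.val (Sum.inr.inj h1)
      rw [← hK]
      let _ : MulAction K S.1 :=
        { smul := fun k x => ⟨(k : G) • x.1, (hKS k k.2).subset ⟨x.1, x.2, rfl⟩⟩
          one_smul := fun x => Subtype.ext (one_smul G x.1)
          mul_smul := fun a b x => Subtype.ext (mul_smul (a : G) (b : G) x.1) }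
      have hsm : ∀ (k : K) (x : S.1), ((k • x : S.1) : V) = (k : G) • (x : V) := fun _ _ => rfl
      have hTA : TreeAct K (T.induce S.1) := by
        refine ⟨isTree_conv hT.isTree S.1 (hF.ne S.1 S.2) (hF.conv S.1 S.2), ?_, ?_⟩
        · intro k v w h
          exact hT.adj k v.1 w.1 h
        · rintro k v w h ⟨h1, h2⟩
          exact hT.noInv k v.1 w.1 h ⟨by rw [← hsm, h1], by rw [← hsm, h2]⟩
      have hab : ∀ (x : S.1) (a b : K), a • x = x → b • x = x → a * b = b * a := by
        intro x a b ha hb
        obtain ⟨A, h1, h2⟩ := stab_abel hH hT S.2 x.2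
        apply Subtype.ext
        refine h1 a (h2 a ?_ (hKS a a.2)) b (h2 b ?_ (hKS b b.2))
        · rw [← hsm, ha]
        · rw [← hsm, hb]
      refine Q182.Cen.main hC hmet hTA ?_ ?_
      · intro v w _ s hs _ g hg
        exact hab v g s hg hs
      · intro v
        apply hmet
        apply der_abel
        intro a b
        exact Subtype.ext (hab v a b a.2 b.2)
  · intro W hW
    exact Q182.Cyl.vcyc_mem hC.base.base hW

end Q182.Csa
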