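import Pool.Agent.Q182.CsaCone

/-!
# The cylinders of commuting edge stabilizers
-/

set_option autoImplicit false

namespace Q182.Csa

open SimpleGraph
open Pool.Agent.Helper270.Tree
open Q182.Cyl (Fam cone cone_ll cone_lr cone_rl isTree_cone exists_first)

variable {G V : Type} [Group G] [MulAction G V]

/-- a nontrivial element of the stabilizer of an edge at `v` -/
def EE (T : SimpleGraph V) (v : V) (a : G) : Prop :=
  a ≠ 1 ∧ ∃ w, T.Adj v w ∧ a • v = v ∧ a • w = w

/-- abelian edge stabilizers, the centralizers of whose nontrivial elements in the vertex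
stabilizers are abelian and self-normalizing in a strong sense -/
structure Hyp (G : Type) {V : Type} [Group G] [MulAction G V] (T : SimpleGraph V) : Prop where
  abel : ∀ (v w : V) (a b : G), T.Adj v w → a • v = v → a • w = w → b • v = v → b • w = w →
    a * b = b * a
  cent : ∀ (v : V) (a g h : G), EE T v a → g • v = v → h • v = v → g * a = a * g →
    h * a = a * h → g * h = h * g
  maln : ∀ (v : V) (a g : G), EE T v a → g • v = v →
    (g * a * g⁻¹) * a = a * (g * a * g⁻¹) → g * a = a * g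

/-- the centralizer in the stabilizer -/
def Zc (y : V) (b : G) : Subgroup G where
  carrier := {g | g • y = y ∧ g * b = b * g}
  one_mem' := ⟨one_smul _ _, by group⟩
  mul_mem' := by
    rintro g h ⟨h1, h2⟩ ⟨h3, h4⟩
    exact ⟨by rw [mul_smul, h3, h1], by rw [mul_assoc, h4, ← mul_assoc, h2, mul_assoc]⟩
  inv_mem' := by
    rintro g ⟨h1, h2⟩
    refine ⟨by rw [inv_smul_eq_iff, h1], ?_⟩
    rw [inv_mul_eq_iff_eq_mul, ← mul_assoc, h2, mul_inv_cancel_right]

theorem mem_Zc {y : V} {b g : G} : g ∈ Zc y b ↔ g • y = y ∧ g * b = b * g := Iff.rfl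

variable {T : SimpleGraph V}

/-- the graph of the types -/
def TG (G : Type) {V : Type} [Group G] [MulAction G V] (T : SimpleGraph V) :
    SimpleGraph (V × Subgroup G) where
  Adj P Q := T.Adj P.1 Q.1 ∧ ∃ b : G, b ≠ 1 ∧ b • P.1 = P.1 ∧ b • Q.1 = Q.1 ∧
    P.2 = Zc P.1 b ∧ Q.2 = Zc Q.1 b
  symm := ⟨by
    rintro P Q ⟨h, b, h1, h2, h3, h4, h5⟩
    exact ⟨h.symm, b, h1, h3, h2, h5, h4⟩⟩
  loopless := ⟨fun P h => T.loopless.irrefl _ h.1⟩

variable (hH : Hyp G T)

include hH in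
theorem zc_eq {v : V} {a b : G} (ha : EE T v a) (hb : EE T v b) (hab : a * b = b * a) :
    Zc v a = Zc v b := by
  have key : ∀ {a b : G}, EE T v a → EE T v b → a * b = b * a → Zc v a ≤ Zc v b := by
    intro a b ha hb hab g hg
    exact ⟨hg.1, hH.cent v a g b ha hg.1 hb.2.choose_spec.2.1 hg.2 hab.symm⟩
  exact le_antisymm (key ha hb hab) (key hb ha hab.symm)

include hH in
/-- an edge determines the types -/
theorem edge_det {y z : V} {A A' B B' : Subgroup G} (h : (TG G T).Adj (y, A) (z, B))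
    (h' : (TG G T).Adj (y, A') (z, B')) : A = A' ∧ B = B' := by
  obtain ⟨h0, b, h1, h2, h3, h4, h5⟩ := h
  obtain ⟨_, b', h1', h2', h3', h4', h5'⟩ := h'
  simp only at h0 h1 h2 h3 h4 h5 h1' h2' h3' h4' h5'
  have hc : b * b' = b' * b := hH.abel y z b b' h0 h2 h3 h2' h3'
  constructor
  · rw [h4, h4']
    exact zc_eq hH ⟨h1, z, h0, h2, h3⟩ ⟨h1', z, h0, h2', h3'⟩ hc
  · rw [h5, h5']
    exact zc_eq hH ⟨h1, y, h0.symm, h3, h2⟩ ⟨h1', y, h0.symm, h3', h2'⟩ hc

variable (hT : TreeAct G T)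

include hH hT in
theorem path_dist {P Q : V × Subgroup G} (h : (TG G T).Reachable P Q) :
    ∃ q : ℕ → V × Subgroup G, q 0 = P ∧ q (T.dist P.1 Q.1) = Q ∧
      (∀ i < T.dist P.1 Q.1, (TG G T).Adj (q i) (q (i + 1))) ∧
      ∀ i j, i + j ≤ T.dist P.1 Q.1 → T.dist (q i).1 (q (i + j)).1 = j := by
  obtain ⟨p, hp⟩ := h.exists_isPath
  have hadj : ∀ i < p.length, (TG G T).Adj (p.getVert i) (p.getVert (i + 1)) :=
    fun i hi => p.adj_getVert_succ hi
  have hnb : ∀ i, i + 2 ≤ p.length → (p.getVert i).1 ≠ (p.getVert (i + 2)).1 := by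
    intro i hi h1
    have h2 := hadj i (by omega)
    have h3 := (hadj (i + 1) (by omega)).symm
    have h4 : (TG G T).Adj ((p.getVert i).1, (p.getVert i).2)
      ((p.getVert (i + 1)).1, (p.getVert (i + 1)).2) := h2
    have h5 : (TG G T).Adj ((p.getVert i).1, (p.getVert (i + 2)).2)
      ((p.getVert (i + 1)).1, (p.getVert (i + 1)).2) := by
      rw [h1]
      exact h3
    have h6 := (edge_det hH h4 h5).1
    have h7 : p.getVert i = p.getVert (i + 2) := Prod.ext h1 h6
    have h8 := hp.getVert_injOn (show i ∈ {i | i ≤ p.length} from (by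
      show i ≤ p.length
      omega)) (show i + 2 ∈ {i | i ≤ p.length} from hi) h7
    omega
  have hd : ∀ i j, i + j ≤ p.length → T.dist (p.getVert i).1 (p.getVert (i + j)).1 = j := by
    intro i j hij
    have := nb' hT.isTree (fun k => (p.getVert (i + k)).1) j (by
      intro k hk
      exact (hadj (i + k) (by omega)).1) (by
      intro k hk
      exact hnb (i + k) (by omega)) j le_rfl
    exact this
  have hlen : T.dist P.1 Q.1 = p.length := by
    have := hd 0 p.length (by omega)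
    rw [zero_add, Walk.getVert_zero, Walk.getVert_length] at this
    exact this
  rw [hlen]
  exact ⟨p.getVert, by simp, by simp, hadj, hd⟩

include hH hT in
theorem type_unique {y : V} {B B' : Subgroup G} (h : (TG G T).Reachable (y, B) (y, B')) :
    B = B' := by
  obtain ⟨q, h0, hn, _, _⟩ := path_dist hH hT h
  simp only [dist_self] at hn
  rw [h0] at hn
  exact congrArg Prod.snd hn

/-- the vertices of a component -/
def sS (T : SimpleGraph V) (P : V × Subgroup G) : Set V := {y | ∃ B, (TG G T).Reachable P (y, B)}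

theorem sS_congr {P Q : V × Subgroup G} (h : (TG G T).Reachable P Q) : sS T P = sS T Q := by
  ext y
  constructor
  · rintro ⟨B, hB⟩
    exact ⟨B, h.symm.trans hB⟩
  · rintro ⟨B, hB⟩
    exact ⟨B, h.trans hB⟩

theorem self_mem_sS (P : V × Subgroup G) : P.1 ∈ sS T P := ⟨P.2, Reachable.refl _⟩

/-- the family of the cylinders -/
def FF (G : Type) {V : Type} [Group G] [MulAction G V] (T : SimpleGraph V) : Set (Set V) :=
  {S | ∃ P Q : V × Subgroup G, (TG G T).Adj P Q ∧ S = sS T P}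

include hH hT in
theorem conv_sS (P : V × Subgroup G) {v w u : V} (hv : v ∈ sS T P) (hw : w ∈ sS T P)
    (hu : T.dist v u + T.dist u w = T.dist v w) : u ∈ sS T P := by
  obtain ⟨A, hA⟩ := hv
  obtain ⟨B, hB⟩ := hw
  have hAB := hA.symm.trans hB
  obtain ⟨q, h0, hn, hadj, hd⟩ := path_dist hH hT hAB
  simp only at hn hadj hd
  have h1 : T.dist v (q (T.dist v u)).1 = T.dist v u := by
    have := hd 0 (T.dist v u) (by omega)
    rw [zero_add, h0] at this
    exact this
  have h2 : T.dist (q (T.dist v u)).1 w = T.dist u w := by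
    have := hd (T.dist v u) (T.dist u w) (by omega)
    rw [hu, hn] at this
    exact this
  have h3 : u = (q (T.dist v u)).1 :=
    geod_unique hT.isTree hu (by rw [h1, h2, hu]) h1.symm
  rw [h3]
  refine ⟨(q (T.dist v u)).2, hA.trans ?_⟩
  have key : ∀ i ≤ T.dist v w, (TG G T).Reachable (v, A) (q i) := by
    intro i
    induction i with
    | zero => intro _; rw [h0]
    | succ i ih => intro hi; exact (ih (by omega)).trans (hadj i (by omega)).reachable
  exact key _ (by omega)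

include hH hT in
/-- adjacent points of a cylinder -/
theorem adj_sS {P : V × Subgroup G} {v w : V} {A : Subgroup G} (hA : (TG G T).Reachable P (v, A))
    (hw : w ∈ sS T P) (hvw : T.Adj v w) : ∃ B, (TG G T).Adj (v, A) (w, B) := by
  obtain ⟨B, hB⟩ := hw
  obtain ⟨q, h0, hn, hadj, _⟩ := path_dist hH hT (hA.symm.trans hB)
  simp only [dist_eq_one_iff_adj.2 hvw] at hn hadj
  have h1 := hadj 0 (by omega)
  rw [h0, zero_add, hn] at h1
  exact ⟨B, h1⟩

include hH hT in
theorem fam_FF : Fam T (FF G T) where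
  ne := by
    rintro _ ⟨P, Q, h, rfl⟩
    exact ⟨_, self_mem_sS P⟩
  conv := by
    rintro _ ⟨P, Q, h, rfl⟩ v hv w hw u hu
    exact conv_sS hH hT P hv hw hu
  one := by
    rintro _ ⟨P, Q, h, rfl⟩ _ ⟨P', Q', h', rfl⟩ v w hvw hv hw hv' hw'
    obtain ⟨u, h1, h2⟩ := exists_first hT.isTree hvw
    have hd1 : T.dist v u = 1 := dist_eq_one_iff_adj.2 h1
    have hu := conv_sS hH hT P hv hw (u := u) (by omega)
    have hu' := conv_sS hH hT P' hv' hw' (u := u) (by omega)
    obtain ⟨A, hA⟩ := hv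
    obtain ⟨A', hA'⟩ := hv'
    obtain ⟨B, hB⟩ := adj_sS hH hT hA hu h1
    obtain ⟨B', hB'⟩ := adj_sS hH hT hA' hu' h1
    have h3 := (edge_det hH hB hB').1
    rw [← h3] at hA'
    exact sS_congr (hA.trans hA'.symm)

/-- the action on the types -/
def gP (g : G) (P : V × Subgroup G) : V × Subgroup G :=
  (g • P.1, P.2.map (MulAut.conj g).toMonoidHom)

theorem map_Zc (g : G) (y : V) (b : G) :
    (Zc y b).map (MulAut.conj g).toMonoidHom = Zc (g • y) (g * b * g⁻¹) := by
  ext x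
  constructor
  · rintro ⟨z, ⟨h1, h2⟩, rfl⟩
    refine ⟨?_, ?_⟩
    · show (g * z * g⁻¹) • g • y = g • y
      rw [mul_smul, inv_smul_smul, mul_smul, h1]
    · show g * z * g⁻¹ * (g * b * g⁻¹) = g * b * g⁻¹ * (g * z * g⁻¹)
      have h3 : g * z * g⁻¹ * (g * b * g⁻¹) = g * (z * b) * g⁻¹ := by group
      rw [h3, h2]
      group
  · rintro ⟨h1, h2⟩
    refine ⟨g⁻¹ * x * g, ⟨?_, ?_⟩, ?_⟩
    · rw [mul_smul, mul_smul, h1, inv_smul_smul]
    · have h3 : g⁻¹ * x * g * b = g⁻¹ * (x * (g * b * g⁻¹)) * g := by group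
      rw [h3, h2]
      group
    · show g * (g⁻¹ * x * g) * g⁻¹ = x
      group

include hT in
theorem adj_gP (g : G) {P Q : V × Subgroup G} (h : (TG G T).Adj P Q) :
    (TG G T).Adj (gP g P) (gP g Q) := by
  obtain ⟨h0, b, h1, h2, h3, h4, h5⟩ := h
  refine ⟨hT.adj g _ _ h0, g * b * g⁻¹, ?_, ?_, ?_, ?_, ?_⟩
  · intro h6
    apply h1
    have h7 : b = g⁻¹ * (g * b * g⁻¹) * g := by group
    rw [h7, h6]
    group
  · show (g * b * g⁻¹) • g • P.1 = g • P.1
    rw [mul_smul, inv_smul_smul, mul_smul, h2]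
  · show (g * b * g⁻¹) • g • Q.1 = g • Q.1
    rw [mul_smul, inv_smul_smul, mul_smul, h3]
  · show P.2.map _ = _
    rw [h4]
    exact map_Zc g P.1 b
  · show Q.2.map _ = _
    rw [h5]
    exact map_Zc g Q.1 b

include hT in
theorem reach_gP (g : G) {P Q : V × Subgroup G} (h : (TG G T).Reachable P Q) :
    (TG G T).Reachable (gP g P) (gP g Q) := by
  obtain ⟨p⟩ := h
  induction p with
  | nil => exact Reachable.refl _
  | cons h _ ih => exact (adj_gP hT g h).reachable.trans ih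

include hT in
theorem inv_FF : Inv G (FF G T) := by
  rintro g _ ⟨P, Q, h, rfl⟩
  refine ⟨gP g P, gP g Q, adj_gP hT g h, ?_⟩
  have hinv : ∀ (g : G) (P : V × Subgroup G), gP g⁻¹ (gP g P) = P := by
    intro g P
    refine Prod.ext (inv_smul_smul g P.1) ?_
    ext x
    constructor
    · rintro ⟨_, ⟨z, hz, rfl⟩, rfl⟩
      have h1 : (MulAut.conj g⁻¹).toMonoidHom ((MulAut.conj g).toMonoidHom z) = z := by
        show g⁻¹ * (g * z * g⁻¹) * g⁻¹⁻¹ = z
        group
      rw [h1]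
      exact hz
    · intro hx
      refine ⟨g * x * g⁻¹, ⟨x, hx, rfl⟩, ?_⟩
      show g⁻¹ * (g * x * g⁻¹) * g⁻¹⁻¹ = x
      group
  ext y
  constructor
  · rintro ⟨z, ⟨B, hB⟩, rfl⟩
    exact ⟨_, reach_gP hT g hB⟩
  · rintro ⟨B, hB⟩
    have h1 := reach_gP hT g⁻¹ hB
    rw [hinv] at h1
    exact ⟨g⁻¹ • y, ⟨_, h1⟩, smul_inv_smul g y⟩

include hH hT in
/-- the stabilizers in the group of a cylinder are abelian -/
theorem stab_abel {S : Set V} (hS : S ∈ FF G T) {x : V} (hx : x ∈ S) :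
    ∃ A : Subgroup G, (∀ a ∈ A, ∀ b ∈ A, a * b = b * a) ∧
      ∀ h : G, h • x = x → (fun y => h • y) '' S = S → h ∈ A := by
  obtain ⟨P, Q, hPQ, rfl⟩ := hS
  obtain ⟨A, hA⟩ := hx
  -- an edge of the cylinder at `x`
  have hex : ∃ u ∈ sS T P, T.Adj x u := by
    by_cases hxP : x = P.1
    · rw [hxP]
      exact ⟨Q.1, ⟨Q.2, hPQ.reachable⟩, hPQ.1⟩
    · obtain ⟨u, h1, h2⟩ := exists_first hT.isTree hxP
      refine ⟨u, conv_sS hH hT P ⟨A, hA⟩ (self_mem_sS P) ?_, h1⟩
      rw [dist_eq_one_iff_adj.2 h1]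
      exact h2
  obtain ⟨u, hu, hxu⟩ := hex
  obtain ⟨B, hB⟩ := adj_sS hH hT hA hu hxu
  obtain ⟨_, b, h1, h2, h3, h4, _⟩ := hB
  simp only at h1 h2 h3 h4
  have hEb : EE T x b := ⟨h1, u, hxu, h2, h3⟩
  refine ⟨Zc x b, fun a ha c hc => hH.cent x b a c hEb ha.1 hc.1 ha.2 hc.2, ?_⟩
  intro h hhx hhS
  refine ⟨hhx, hH.maln x b h hEb hhx ?_⟩
  have h5 : h • u ∈ sS T P := by
    rw [← hhS]
    exact ⟨u, hu, rfl⟩
  have h6 : T.Adj x (h • u) := by
    have := hT.adj h x u hxu
    rwa [hhx] at this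
  obtain ⟨B', hB'⟩ := adj_sS hH hT hA h5 h6
  obtain ⟨_, b', h1', h2', h3', h4', _⟩ := hB'
  simp only at h1' h2' h3' h4'
  -- `h b h⁻¹` fixes `x` and `h u`
  have h7 : (h * b * h⁻¹) • x = x := by
    have : h⁻¹ • x = x := by rw [inv_smul_eq_iff, hhx]
    rw [mul_smul, this, mul_smul, h2, hhx]
  have h8 : (h * b * h⁻¹) • h • u = h • u := by
    rw [mul_smul, inv_smul_smul, mul_smul, h3]
  have h9 : (h * b * h⁻¹) * b' = b' * (h * b * h⁻¹) :=
    hH.abel x (h • u) _ _ h6 h7 h8 h2' h3'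
  have h10 : h * b * h⁻¹ ∈ Zc x b' := ⟨h7, h9⟩
  rw [← h4', h4] at h10
  exact h10.2

include hT in
theorem fin_pair (v w : V) (hvw : v ≠ w) (hS : ∀ S ∈ FF G T, ¬ (v ∈ S ∧ w ∈ S)) :
    {g : G | g • v = v ∧ g • w = w}.Finite := by
  refine (Set.finite_singleton (1 : G)).subset ?_
  rintro g ⟨h1, h2⟩
  by_contra hg
  obtain ⟨q, h0, hn, hadj, hd, _⟩ := exists_geod hT.isTree v w
  have hpos : 0 < T.dist v w := hT.isTree.connected.pos_dist_of_ne hvw
  have hfix : ∀ i ≤ T.dist v w, g • q i = q i := by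
    intro i hi
    refine hT.convex h1 h2 ?_
    have := hd i hi
    omega
  have hA : ∀ i < T.dist v w, (TG G T).Adj (q i, Zc (q i) g) (q (i + 1), Zc (q (i + 1)) g) :=
    fun i hi => ⟨hadj i hi, g, hg, hfix i (by omega), hfix (i + 1) (by omega), rfl, rfl⟩
  have key : ∀ i ≤ T.dist v w, (TG G T).Reachable (q 0, Zc (q 0) g) (q i, Zc (q i) g) := by
    intro i
    induction i with
    | zero => intro _; exact Reachable.refl _
    | succ i ih => intro hi; exact (ih (by omega)).trans (hA i (by omega)).reachable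
  refine hS (sS T (q 0, Zc (q 0) g)) ⟨_, _, hA 0 hpos, rfl⟩ ⟨?_, ?_⟩
  · have := self_mem_sS (T := T) (q 0, Zc (q 0) g)
    rw [← h0]
    exact this
  · have := key _ le_rfl
    rw [hn] at this
    exact ⟨_, this⟩

end Q182.Csa
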