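import Pool.Agent.Y110.FJ.Stm

/-!
# Closure under acylindrical actions on trees
-/

set_option autoImplicit false

namespace Q182.Cyl

open Pool.Agent.Y110.FJ (ClosedE)

/-- A class of groups with the closure properties `ClosedE` which is closed under acylindrical
actions on trees, in the fibered version: if `π : G → F` is surjective, `F` acts without inversions
on a tree so that the pointwise stabilizers of all pairs of vertices of distance at least `k` are
finite, and the preimages in `G` of the vertex stabilizers and of the virtually cyclic subgroups of
`F` are in `C`, then `G` is in `C`. -/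
structure ClosedA (C : ∀ (G : Type) [Group G], Prop) : Prop where
  base : ClosedE C
  acyl : ∀ (G F V : Type) [Group G] [Group F] [MulAction F V] (π : G →* F)
    (T : SimpleGraph V) (k : ℕ), Function.Surjective π → T.IsTree →
    (∀ (f : F) (v w : V), T.Adj v w → T.Adj (f • v) (f • w)) →
    (∀ (f : F) (v w : V), T.Adj v w → ¬ (f • v = w ∧ f • w = v)) →
    (∀ v w : V, k ≤ T.dist v w → {f : F | f • v = v ∧ f • w = w}.Finite) →
    (∀ v : V, C ((MulAction.stabilizer F v).comap π)) →
    (∀ W : Subgroup F, (∃ c ∈ W, (Subgroup.zpowers c).relIndex W ≠ 0) → C (W.comap π)) → C G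

/-- the stabilizer of an edge -/
def Est (G : Type) {V : Type} [Group G] [MulAction G V] (v w : V) : Subgroup G :=
  MulAction.stabilizer G v ⊓ MulAction.stabilizer G w

end Q182.Cyl
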