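import Pool.Agent.Q182.CylCone
import Pool.Agent.Q182.CylDefs

/-!
# The tree of cylinders
-/

set_option autoImplicit false

namespace Q182.Cyl

open SimpleGraph
open scoped Pointwise
open Pool.Agent.Helper270.Tree
open Subgroup (Commensurable)

variable {G V : Type} [Group G] [MulAction G V] {T : SimpleGraph V}

theorem mem_Est {v w : V} {g : G} : g ∈ Est G v w ↔ g • v = v ∧ g • w = w := Iff.rfl

theorem Est_comm (v w : V) : Est G v w = Est G w v := inf_comm _ _

theorem Est_smul (g : G) (v w : V) : Est G (g • v) (g • w) = ConjAct.toConjAct g • Est G v w := by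
  ext x
  rw [Subgroup.mem_pointwise_smul_iff_inv_smul_mem, ← ConjAct.toConjAct_inv, ConjAct.toConjAct_smul,
    mem_Est, mem_Est, inv_inv, mul_smul, mul_smul, mul_smul, mul_smul, inv_smul_eq_iff,
    inv_smul_eq_iff]

theorem finite_of_index {H K : Subgroup G} (hKH : K ≤ H) (hi : K.relIndex H ≠ 0)
    (hK : Finite K) : Finite H := by
  have h1 : (K.subgroupOf H).FiniteIndex := ⟨hi⟩
  have h2 : Finite (H ⧸ K.subgroupOf H) := inferInstance
  have h3 : Finite (K.subgroupOf H) :=
    Finite.of_equiv _ (Subgroup.subgroupOfEquivOfLe hKH).symm.toEquiv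
  exact Finite.of_equiv _ (Subgroup.groupEquivQuotientProdSubgroup (s := K.subgroupOf H)).symm

theorem infinite_inf {H K : Subgroup G} (h : Commensurable H K) (hH : Infinite H) :
    Infinite ↥(H ⊓ K) := by
  by_contra hcon
  rw [not_infinite_iff_finite] at hcon
  have h1 : (H ⊓ K).relIndex H ≠ 0 := by
    rw [Subgroup.inf_relIndex_left]
    exact h.2
  exact (not_finite_iff_infinite.2 hH) (finite_of_index inf_le_left h1 hcon)

theorem infinite_of_le {H K : Subgroup G} (h : H ≤ K) (hH : Infinite H) : Infinite K :=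
  Infinite.of_injective _ (Subgroup.inclusion_injective h)

/-- the cylinder of a subgroup -/
def cyl (T : SimpleGraph V) (H : Subgroup G) : Set V :=
  {v | ∃ v', T.Adj v v' ∧ Commensurable H (Est G v v')}

/-- the cylinders of the edges with an infinite stabilizer -/
def cyls (G : Type) [Group G] [MulAction G V] (T : SimpleGraph V) : Set (Set V) :=
  {S | ∃ v w, T.Adj v w ∧ Infinite (Est G v w) ∧ S = cyl T (Est G v w)}

/-- edge stabilizers are commensurable or have a finite intersection -/
def CorF (G : Type) [Group G] [MulAction G V] (T : SimpleGraph V) : Prop :=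
  ∀ v w v' w' : V, T.Adj v w → T.Adj v' w' → Commensurable (Est G v w) (Est G v' w') ∨
    Finite ↥(Est G v w ⊓ Est G v' w')

variable (hT : TreeAct G T) (hcf : CorF G T)

include hT hcf in
theorem between {H : Subgroup G} (hH : Infinite H) {v w u u' : V} (hv : v ∈ cyl T H)
    (hw : w ∈ cyl T H) (huu : T.Adj u u') (hd : T.dist v u + 1 + T.dist u' w = T.dist v w) :
    Commensurable H (Est G u u') := by
  obtain ⟨v', hvv, hv2⟩ := hv
  obtain ⟨w', hww, hw2⟩ := hw
  have h1 : Infinite (Est G v v') := by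
    have h2 := infinite_inf hv2 hH
    exact infinite_of_le inf_le_right h2
  have h2 : Infinite ↥(Est G v v' ⊓ Est G w w') := infinite_inf (hv2.symm.trans hw2) h1
  have hd1 : T.dist u u' = 1 := dist_eq_one_iff_adj.2 huu
  have t1 : T.dist u w ≤ 1 + T.dist u' w := by
    have := hT.isTree.connected.dist_triangle (u := u) (v := u') (w := w)
    omega
  have t2 : T.dist v u' ≤ T.dist v u + 1 := by
    have := hT.isTree.connected.dist_triangle (u := v) (v := u) (w := u')
    omega
  have t3 : T.dist v w ≤ T.dist v u + T.dist u w := hT.isTree.connected.dist_triangle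
  have t4 : T.dist v w ≤ T.dist v u' + T.dist u' w := hT.isTree.connected.dist_triangle
  have h3 : Est G v v' ⊓ Est G w w' ≤ Est G u u' := by
    intro g hg
    have hgv : g • v = v := hg.1.1
    have hgw : g • w = w := hg.2.1
    exact ⟨hT.convex hgv hgw (by omega), hT.convex hgv hgw (by omega)⟩
  rcases hcf v v' u u' hvv huu with h4 | h4
  · exact hv2.trans h4
  · exfalso
    have h5 : Infinite ↥(Est G v v' ⊓ Est G u u') :=
      infinite_of_le (le_inf inf_le_left h3) h2
    exact (not_finite_iff_infinite.2 h5) h4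

theorem cyl_congr {H K : Subgroup G} (h : Commensurable H K) : cyl T H = cyl T K := by
  ext v
  constructor
  · rintro ⟨v', h1, h2⟩
    exact ⟨v', h1, h.symm.trans h2⟩
  · rintro ⟨v', h1, h2⟩
    exact ⟨v', h1, h.trans h2⟩

theorem self_mem_cyl {v w : V} (h : T.Adj v w) : v ∈ cyl T (Est G v w) :=
  ⟨w, h, Commensurable.refl _⟩

theorem self_mem_cyl' {v w : V} (h : T.Adj v w) : w ∈ cyl T (Est G v w) :=
  ⟨v, h.symm, by rw [Est_comm w v]⟩

theorem exists_first (hT' : T.IsTree) {v w : V} (h : v ≠ w) :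
    ∃ u, T.Adj v u ∧ 1 + T.dist u w = T.dist v w := by
  obtain ⟨q, h0, hn, hadj, hd, _⟩ := exists_geod hT' v w
  have hpos : 0 < T.dist v w := hT'.connected.pos_dist_of_ne h
  refine ⟨q 1, ?_, ?_⟩
  · have := hadj 0 hpos
    rwa [h0] at this
  · have := (hd 1 (by omega)).2
    omega

include hT hcf in
theorem fam_cyls : Fam T (cyls G T) where
  ne := by
    rintro _ ⟨v, w, h, _, rfl⟩
    exact ⟨v, self_mem_cyl h⟩
  conv := by
    rintro _ ⟨a, b, hab, hinf, rfl⟩ v hv w hw u hu
    by_cases huw : u = w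
    · rw [huw]
      exact hw
    · obtain ⟨u', h1, h2⟩ := exists_first hT.isTree huw
      exact ⟨u', h1, between hT hcf hinf hv hw h1 (by omega)⟩
  one := by
    rintro _ ⟨a, b, hab, hinf, rfl⟩ _ ⟨a', b', hab', hinf', rfl⟩ v w hvw hv hw hv' hw'
    obtain ⟨u, h1, h2⟩ := exists_first hT.isTree hvw
    have h3 := between hT hcf hinf hv hw h1 (by rw [dist_self]; omega)
    have h4 := between hT hcf hinf' hv' hw' h1 (by rw [dist_self]; omega)
    exact cyl_congr (h3.trans h4.symm)

include hT in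
theorem smul_cyl (g : G) {v w : V} :
    (fun x => g • x) '' cyl T (Est G v w) = cyl T (Est G (g • v) (g • w)) := by
  have key : ∀ (g : G) (v w x : V), x ∈ cyl T (Est G v w) →
      g • x ∈ cyl T (Est G (g • v) (g • w)) := by
    rintro g v w x ⟨x', h1, h2⟩
    refine ⟨g • x', hT.adj g _ _ h1, ?_⟩
    rw [Est_smul, Est_smul]
    exact (Subgroup.Commensurable.commensurable_conj _).1 h2
  ext x
  constructor
  · rintro ⟨y, hy, rfl⟩
    exact key g v w y hy
  · intro hx
    refine ⟨g⁻¹ • x, ?_, smul_inv_smul g x⟩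
    have h1 := key g⁻¹ _ _ x hx
    rwa [inv_smul_smul, inv_smul_smul] at h1

include hT in
theorem smul_cyls (g : G) {S : Set V} (hS : S ∈ cyls G T) : (fun x => g • x) '' S ∈ cyls G T := by
  obtain ⟨v, w, h1, h2, rfl⟩ := hS
  refine ⟨g • v, g • w, hT.adj g _ _ h1, ?_, smul_cyl hT g⟩
  rw [Est_smul]
  have := h2
  exact Infinite.of_injective _ (Subgroup.equivSMul (ConjAct.toConjAct g) (Est G v w)).injective

/-- the action on the cylinders -/
@[reducible] def cylAct : MulAction G (cyls G T) where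
  smul g S := ⟨(fun x => g • x) '' S.1, smul_cyls hT g S.2⟩
  one_smul S := by
    apply Subtype.ext
    show (fun x => (1 : G) • x) '' S.1 = S.1
    simp
  mul_smul g h S := by
    apply Subtype.ext
    show (fun x => (g * h) • x) '' S.1 = (fun x => g • x) '' ((fun x => h • x) '' S.1)
    rw [Set.image_image]
    simp only [mul_smul]

/-- the action on the vertices of the tree of cylinders -/
@[reducible] def coneAct : MulAction G (V ⊕ cyls G T) :=
  letI := cylAct hT
  inferInstance

include hcf in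
theorem treeAct_cone : letI := coneAct hT; TreeAct G (cone T (cyls G T)) := by
  let _ := coneAct hT
  refine ⟨isTree_cone hT.isTree (fam_cyls hT hcf), ?_, ?_⟩
  · rintro g (v | S) (w | S') h
    · show (cone T (cyls G T)).Adj (Sum.inl (g • v)) (Sum.inl (g • w))
      obtain ⟨h1, h2⟩ := cone_ll.1 h
      refine cone_ll.2 ⟨hT.adj g _ _ h1, ?_⟩
      rintro S hS ⟨h3, h4⟩
      refine h2 _ (smul_cyls hT g⁻¹ hS) ⟨⟨g • v, h3, ?_⟩, ⟨g • w, h4, ?_⟩⟩
      · exact inv_smul_smul g v
      · exact inv_smul_smul g w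
    · show (cone T (cyls G T)).Adj (Sum.inl (g • v)) (Sum.inr ⟨_, smul_cyls hT g S'.2⟩)
      exact cone_lr.2 ⟨v, cone_lr.1 h, rfl⟩
    · show (cone T (cyls G T)).Adj (Sum.inr ⟨_, smul_cyls hT g S.2⟩) (Sum.inl (g • w))
      exact cone_rl.2 ⟨w, cone_rl.1 h, rfl⟩
    · exact h
  · rintro g (v | S) (w | S') h ⟨h1, h2⟩
    · exact hT.noInv g v w (cone_ll.1 h).1 ⟨Sum.inl.inj h1, Sum.inl.inj h2⟩
    · have h3 : (Sum.inl (g • v) : V ⊕ cyls G T) = Sum.inr S' := h1
      simp at h3
    · have h3 : (Sum.inl (g • w) : V ⊕ cyls G T) = Sum.inr S := h2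
      simp at h3
    · exact h

include hT hcf in
theorem finite_pair {v w : V} (hvw : v ≠ w) (hS : ∀ S ∈ cyls G T, ¬ (v ∈ S ∧ w ∈ S)) :
    {g : G | g • v = v ∧ g • w = w}.Finite := by
  obtain ⟨q, h0, hn, hadj, hd, _⟩ := exists_geod hT.isTree v w
  have hpos : 0 < T.dist v w := hT.isTree.connected.pos_dist_of_ne hvw
  have hfix : ∀ i ≤ T.dist v w, ∀ g : G, g • v = v → g • w = w → g • q i = q i := by
    intro i hi g hgv hgw
    refine hT.convex hgv hgw ?_
    have := hd i hi
    omega
  by_contra hinf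
  have hle : ∀ i < T.dist v w, Est G v w ≤ Est G (q i) (q (i + 1)) := by
    intro i hi g hg
    exact ⟨hfix i (by omega) g hg.1 hg.2, hfix (i + 1) (by omega) g hg.1 hg.2⟩
  have hE : Infinite (Est G v w) := Set.infinite_coe_iff.2 hinf
  have h1 : Infinite (Est G (q 0) (q 1)) := infinite_of_le (hle 0 hpos) hE
  have h2 : ∀ i < T.dist v w, Commensurable (Est G (q 0) (q 1)) (Est G (q i) (q (i + 1))) := by
    intro i hi
    rcases hcf _ _ _ _ (hadj 0 hpos) (hadj i hi) with h | h
    · exact h
    · exfalso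
      have h3 : Infinite ↥(Est G (q 0) (q (0 + 1)) ⊓ Est G (q i) (q (i + 1))) :=
        infinite_of_le (le_inf (hle 0 hpos) (hle i hi)) hE
      exact (not_finite_iff_infinite.2 h3) h
  refine hS (cyl T (Est G (q 0) (q 1))) ⟨q 0, q 1, hadj 0 hpos, h1, rfl⟩ ⟨?_, ?_⟩
  · have := self_mem_cyl (G := G) (hadj 0 hpos)
    rwa [h0] at this ⊢
  · refine ⟨q (T.dist v w - 1), ?_, ?_⟩
    · have := hadj (T.dist v w - 1) (by omega)
      rw [Nat.sub_add_cancel hpos, hn] at this
      exact this.symm
    · have := h2 (T.dist v w - 1) (by omega)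
      rw [Nat.sub_add_cancel hpos, hn] at this
      rw [Est_comm w]
      exact this

include hcf in
theorem exists_fixed : letI := coneAct hT; ∀ x y : V ⊕ cyls G T,
    1 ≤ (cone T (cyls G T)).dist x y → ∃ v : V, (∀ g : G, g • x = x → g • y = y → g • v = v) ∧
      (cone T (cyls G T)).dist x y ≤ (cone T (cyls G T)).dist (Sum.inl v) y + 1 := by
  let _ := coneAct hT
  intro x y hxy
  have hA : TreeAct G (cone T (cyls G T)) := treeAct_cone hT hcf
  rcases x with v | S
  · refine ⟨v, ?_, by omega⟩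
    intro g hg _
    exact Sum.inl.inj hg
  · have hne : (Sum.inr S : V ⊕ cyls G T) ≠ y := by
      rintro rfl
      rw [dist_self] at hxy
      omega
    obtain ⟨u, h1, h2⟩ := exists_first hA.isTree hne
    rcases u with v | S'
    · refine ⟨v, ?_, by omega⟩
      intro g hgx hgy
      have h3 : g • (Sum.inl v : V ⊕ cyls G T) = Sum.inl v := by
        refine hA.convex hgx hgy ?_
        rw [dist_eq_one_iff_adj.2 h1]
        exact h2
      exact Sum.inl.inj h3
    · exact absurd h1 (fun h => h)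

include hcf in
theorem finite_cone : letI := coneAct hT; ∀ x y : V ⊕ cyls G T,
    5 ≤ (cone T (cyls G T)).dist x y → {g : G | g • x = x ∧ g • y = y}.Finite := by
  let _ := coneAct hT
  intro x y hxy
  have hA : TreeAct G (cone T (cyls G T)) := treeAct_cone hT hcf
  obtain ⟨v, h1, h2⟩ := exists_fixed hT hcf x y (by omega)
  obtain ⟨w, h3, h4⟩ := exists_fixed hT hcf y (Sum.inl v) (by rw [dist_comm]; omega)
  have h5 : 3 ≤ (cone T (cyls G T)).dist (Sum.inl v) (Sum.inl w) := by
    rw [dist_comm]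
    rw [dist_comm] at h4
    omega
  refine (finite_pair hT hcf (v := v) (w := w) ?_ ?_).subset ?_
  · rintro rfl
    rw [dist_self] at h5
    omega
  · rintro S hS ⟨hv, hw⟩
    have h6 : (cone T (cyls G T)).Adj (Sum.inl v) (Sum.inr ⟨S, hS⟩) := cone_lr.2 hv
    have h7 : (cone T (cyls G T)).Adj (Sum.inr ⟨S, hS⟩) (Sum.inl w) := cone_rl.2 hw
    have h8 := SimpleGraph.dist_le (Walk.cons h6 (Walk.cons h7 Walk.nil))
    simp only [Walk.length_cons, Walk.length_nil] at h8
    omega
  · rintro g ⟨hgx, hgy⟩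
    have hgv : g • v = v := h1 g hgx hgy
    have hgv' : g • (Sum.inl v : V ⊕ cyls G T) = Sum.inl v := congrArg Sum.inl hgv
    exact ⟨hgv, h3 g hgy hgv'⟩

end Q182.Cyl
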