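import Pool.Agent.Helper270.HNN

/-!
# Coning off convex subsets of a tree
-/

set_option autoImplicit false

namespace Q182.Cyl

open SimpleGraph
open Pool.Agent.Helper270.Tree
open Pool.Agent.Helper270.HNN (isTree_of_parent)

variable {V : Type} {T : SimpleGraph V}

/-- a family of nonempty convex sets of vertices, two of which have at most one common vertex -/
structure Fam (T : SimpleGraph V) (F : Set (Set V)) : Prop where
  ne : ∀ S ∈ F, S.Nonempty
  conv : ∀ S ∈ F, ∀ v ∈ S, ∀ w ∈ S, ∀ u, T.dist v u + T.dist u w = T.dist v w → u ∈ S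
  one : ∀ S ∈ F, ∀ S' ∈ F, ∀ v w, v ≠ w → v ∈ S → w ∈ S → v ∈ S' → w ∈ S' → S = S'

/-- the graph obtained by coning off the sets of the family -/
def cone (T : SimpleGraph V) (F : Set (Set V)) : SimpleGraph (V ⊕ F) where
  Adj x y :=
    match x, y with
    | Sum.inl v, Sum.inl w => T.Adj v w ∧ ∀ S ∈ F, ¬ (v ∈ S ∧ w ∈ S)
    | Sum.inl v, Sum.inr S => v ∈ S.1
    | Sum.inr S, Sum.inl v => v ∈ S.1
    | Sum.inr _, Sum.inr _ => False
  symm := ⟨by
    rintro (v | S) (w | S') h
    · exact ⟨h.1.symm, fun S hS hvw => h.2 S hS ⟨hvw.2, hvw.1⟩⟩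
    · exact h
    · exact h
    · exact h⟩
  loopless := ⟨by
    rintro (v | S) h
    · exact T.loopless.irrefl v h.1
    · exact h⟩

theorem cone_ll {F : Set (Set V)} {v w : V} : (cone T F).Adj (Sum.inl v) (Sum.inl w) ↔
    T.Adj v w ∧ ∀ S ∈ F, ¬ (v ∈ S ∧ w ∈ S) := Iff.rfl

theorem cone_lr {F : Set (Set V)} {v : V} {S : F} : (cone T F).Adj (Sum.inl v) (Sum.inr S) ↔
    v ∈ S.1 := Iff.rfl

theorem cone_rl {F : Set (Set V)} {v : V} {S : F} : (cone T F).Adj (Sum.inr S) (Sum.inl v) ↔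
    v ∈ S.1 := Iff.rfl

theorem exists_parent (hT : T.IsTree) (o v : V) (hv : v ≠ o) :
    ∃ u, T.Adj v u ∧ T.dist o v = T.dist o u + 1 := by
  obtain ⟨q, h0, hn, hadj, hd, _⟩ := exists_geod hT o v
  have hpos : 0 < T.dist o v := hT.connected.pos_dist_of_ne (Ne.symm hv)
  refine ⟨q (T.dist o v - 1), ?_, ?_⟩
  · have h1 := hadj (T.dist o v - 1) (by omega)
    rw [Nat.sub_add_cancel hpos, hn] at h1
    exact h1.symm
  · rw [(hd (T.dist o v - 1) (by omega)).1]
    omega

theorem isTree_cone (hT : T.IsTree) {F : Set (Set V)} (hF : Fam T F) : (cone T F).IsTree := by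
  classical
  obtain ⟨o⟩ := hT.connected.nonempty
  -- nearest points
  have htop : ∀ S : F, ∃ t ∈ S.1, ∀ w ∈ S.1, T.dist o t ≤ T.dist o w := by
    intro S
    have hex : ∃ n, ∃ t ∈ S.1, T.dist o t = n := by
      obtain ⟨t, ht⟩ := hF.ne S.1 S.2
      exact ⟨_, t, ht, rfl⟩
    obtain ⟨t, ht, hn⟩ := Nat.find_spec hex
    exact ⟨t, ht, fun w hw => by rw [hn]; exact Nat.find_min' hex ⟨w, hw, rfl⟩⟩
  choose top htop1 htop2 using htop
  -- parents
  have hpar : ∀ v : V, ∃ u : V, v ≠ o → T.Adj v u ∧ T.dist o v = T.dist o u + 1 := by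
    intro v
    by_cases hv : v = o
    · exact ⟨o, fun h => absurd hv h⟩
    · obtain ⟨u, hu⟩ := exists_parent hT o v hv
      exact ⟨u, fun _ => hu⟩
  choose p hp using hpar
  -- the parent of a point of `S` which is not the nearest one is in `S`
  have key : ∀ S : F, ∀ v ∈ S.1, v ≠ top S → v ≠ o ∧ p v ∈ S.1 := by
    intro S v hv hne
    obtain ⟨q, h0, hn, hadj, hd, hnb⟩ := exists_geod hT v (top S)
    have hpos : 0 < T.dist v (top S) := hT.connected.pos_dist_of_ne hne
    have h1 : q 1 ∈ S.1 := by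
      refine hF.conv S.1 S.2 v hv (top S) (htop1 S) (q 1) ?_
      have := hd 1 (by omega)
      omega
    have h2 : T.Adj v (q 1) := by
      have := hadj 0 hpos
      rwa [h0] at this
    have h3 : T.dist o v = T.dist o (q 1) + 1 := by
      rcases hT.dist_eq_dist_add_one_of_adj o h2 with h | h
      · exact h
      · exfalso
        have h4 := nb hT q (T.dist v (top S)) hadj hnb o (by
          intro _
          rw [h0]
          exact h) (T.dist v (top S)) le_rfl
        rw [hn, h0] at h4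
        have h5 := htop2 S v hv
        omega
    have h4 : v ≠ o := by
      rintro rfl
      rw [dist_self] at h3
      omega
    refine ⟨h4, ?_⟩
    have h5 : p v = q 1 := parent_unique hT (hp v h4).1.symm h2.symm (hp v h4).2 h3
    rw [h5]
    exact h1
  let par : V ⊕ F → V ⊕ F := fun x =>
    match x with
    | Sum.inl v => if h : ∃ S : F, v ∈ S.1 ∧ p v ∈ S.1 then Sum.inr (Classical.choose h)
        else Sum.inl (p v)
    | Sum.inr S => Sum.inl (top S)
  let lev : V ⊕ F → ℕ := fun x =>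
    match x with
    | Sum.inl v => 2 * T.dist o v
    | Sum.inr S => 2 * T.dist o (top S) + 1
  have hpar1 : ∀ v, v ≠ o → ∀ S : F, v ∈ S.1 → p v ∈ S.1 → par (Sum.inl v) = Sum.inr S := by
    intro v hv S h1 h2
    have hex : ∃ S : F, v ∈ S.1 ∧ p v ∈ S.1 := ⟨S, h1, h2⟩
    show (if h : ∃ S : F, v ∈ S.1 ∧ p v ∈ S.1 then Sum.inr (Classical.choose h)
        else Sum.inl (p v) : V ⊕ F) = _
    rw [dif_pos hex]
    congr 1
    obtain ⟨h3, h4⟩ := Classical.choose_spec hex
    exact Subtype.ext (hF.one _ (Subtype.property _) _ S.2 v (p v) (hp v hv).1.ne h3 h4 h1 h2)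
  have hpar2 : ∀ v, (¬ ∃ S : F, v ∈ S.1 ∧ p v ∈ S.1) → par (Sum.inl v) = Sum.inl (p v) := by
    intro v h
    show (if h : ∃ S : F, v ∈ S.1 ∧ p v ∈ S.1 then Sum.inr (Classical.choose h)
        else Sum.inl (p v) : V ⊕ F) = _
    rw [dif_neg h]
  refine isTree_of_parent (o := Sum.inl o) (par := par) lev ?_ ?_ ?_
  · rintro (v | S) hv
    · have hvo : v ≠ o := fun h => hv (by rw [h])
      by_cases hex : ∃ S : F, v ∈ S.1 ∧ p v ∈ S.1
      · obtain ⟨S, h1, h2⟩ := hex
        rw [hpar1 v hvo S h1 h2]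
        exact h1
      · rw [hpar2 v hex]
        exact ⟨(hp v hvo).1, fun S hS h => hex ⟨⟨S, hS⟩, h⟩⟩
    · exact htop1 S
  · rintro (v | S) hv
    · have hvo : v ≠ o := fun h => hv (by rw [h])
      have h3 := (hp v hvo).2
      by_cases hex : ∃ S : F, v ∈ S.1 ∧ p v ∈ S.1
      · obtain ⟨S, h1, h2⟩ := hex
        rw [hpar1 v hvo S h1 h2]
        show 2 * T.dist o (top S) + 1 < 2 * T.dist o v
        have h4 := htop2 S (p v) h2
        omega
      · rw [hpar2 v hex]
        show 2 * T.dist o (p v) < 2 * T.dist o v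
        omega
    · show 2 * T.dist o (top S) < 2 * T.dist o (top S) + 1
      omega
  · have hVF : ∀ (v : V) (S : F), v ∈ S.1 →
        ((Sum.inl v : V ⊕ F) ≠ Sum.inl o ∧ par (Sum.inl v) = Sum.inr S) ∨
        ((Sum.inr S : V ⊕ F) ≠ Sum.inl o ∧ par (Sum.inr S) = Sum.inl v) := by
      intro v S hv
      by_cases h : v = top S
      · refine Or.inr ⟨by simp, ?_⟩
        show Sum.inl (top S) = _
        rw [h]
      · obtain ⟨h1, h2⟩ := key S v hv h
        exact Or.inl ⟨fun h3 => h1 (Sum.inl.inj h3), hpar1 v h1 S hv h2⟩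
    rintro (v | S) (w | S') h
    · obtain ⟨h1, h2⟩ := cone_ll.1 h
      have hVV : ∀ v w : V, T.Adj v w → (∀ S ∈ F, ¬ (v ∈ S ∧ w ∈ S)) →
          T.dist o v = T.dist o w + 1 →
          (Sum.inl v : V ⊕ F) ≠ Sum.inl o ∧ par (Sum.inl v) = Sum.inl w := by
        intro v w h1 h2 h3
        have h4 : v ≠ o := by
          rintro rfl
          rw [dist_self] at h3
          omega
        have h5 : p v = w := parent_unique hT (hp v h4).1.symm h1.symm (hp v h4).2 h3
        refine ⟨fun h6 => h4 (Sum.inl.inj h6), ?_⟩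
        rw [hpar2 v (by
          rintro ⟨S, h6, h7⟩
          rw [h5] at h7
          exact h2 S.1 S.2 ⟨h6, h7⟩), h5]
      rcases hT.dist_eq_dist_add_one_of_adj o h1 with h3 | h3
      · exact Or.inl (hVV v w h1 h2 h3)
      · exact Or.inr (hVV w v h1.symm (fun S hS h4 => h2 S hS ⟨h4.2, h4.1⟩) h3)
    · exact hVF v S' h
    · rcases hVF w S h with h1 | h1
      · exact Or.inr h1
      · exact Or.inl h1
    · exact absurd h (by exact fun h => h)

end Q182.Cyl
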