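import Mathlib

/-!
# Double centralizers, the semi-Zariski topology and support maps of semigroups
-/

namespace Q182.DC

open Topology

/-- The centralizer of a subset of a semigroup. -/
def Cen {S : Type} [Semigroup S] (A : Set S) : Set S := {g | ∀ t ∈ A, g * t = t * g}

/-- The semigroup has finite double centralizers. -/
def FiniteDoubleCentralizers (S : Type) [Semigroup S] : Prop :=
  ∀ F : Set S, F.Finite → (Cen (Cen F)).Finite

/-- The semi-Zariski topology; `WithOne S` is `S` with an external identity. -/
@[reducible] def semiZariski (S : Type) [Semigroup S] : TopologicalSpace S :=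
  TopologicalSpace.generateFrom
    ({U | ∃ a b c : WithOne S, U = {s : S | a * (s : WithOne S) * b ≠ c}} ∪
      {U | ∃ a b c d : WithOne S, U = {s : S | a * (s : WithOne S) * b ≠ c * (s : WithOne S) * d}})

/-- The subspace `D` is discrete. -/
def IsDiscreteIn {S : Type} (τ : TopologicalSpace S) (D : Set S) : Prop :=
  ∀ x ∈ D, ∃ U : Set S, IsOpen[τ] U ∧ U ∩ D = {x}

/-- The subspace `K` is a countable union of discrete subspaces. -/
def IsSigmaDiscreteIn {S : Type} (τ : TopologicalSpace S) (K : Set S) : Prop :=
  ∃ D : ℕ → Set S, (⋃ n, D n) = K ∧ ∀ n, IsDiscreteIn τ (D n)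

/-- The set `S_{≤ n}` of all elements whose double centralizer has at most `n` elements. -/
def SLe (S : Type) [Semigroup S] (n : ℕ) : Set S := {f | (Cen (Cen {f})).encard ≤ n}

/-- The elements with support in `F`. -/
def supported {S X : Type} (supp : S → Set X) (F : Set X) : Set S := {f | supp f ⊆ F}

/-- The pair `(S, supp)` is supp-perfect. -/
structure SuppPerfect {S X : Type} [Semigroup S] (supp : S → Set X) : Prop where
  mul : ∀ f g, supp (f * g) ⊆ supp f ∪ supp g
  comm : ∀ f g, supp f ∩ supp g = ∅ → f * g = g * f
  cover : ∀ x, ∃ f, x ∈ supp f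
  finite_supp : ∀ f, (supp f).Finite
  finite_supported : ∀ F : Set X, F.Finite → (supported supp F).Finite
  cen : ∀ F : Set X, F.Finite → supported supp F = Cen (supported supp Fᶜ)

/-- A Hausdorff semigroup topology. -/
def IsHausdorffSemigroupTopology {S : Type} [Semigroup S] (τ : TopologicalSpace S) : Prop :=
  @T2Space S τ ∧ @ContinuousMul S τ _

end Q182.DC
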