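import Mathlib
import Pool.Agent.Q182.DCDefs

/-!
# A Heisenberg group over the field with two elements
-/

namespace Q182.DC

open Set

/-- The field with two elements. -/
abbrev F2 : Type := ZMod 2

/-- The pairing of finitely supported sequences and arbitrary sequences. -/
noncomputable def pr (a : ℕ →₀ F2) (b : ℕ → F2) : F2 := a.sum fun i x => x * b i

lemma pr_add_left (a a' : ℕ →₀ F2) (b : ℕ → F2) : pr (a + a') b = pr a b + pr a' b := by
  unfold pr
  exact Finsupp.sum_add_index' (fun i => zero_mul _) fun i x y => add_mul x y _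

lemma pr_add_right (a : ℕ →₀ F2) (b b' : ℕ → F2) : pr a (b + b') = pr a b + pr a b' := by
  unfold pr
  rw [← Finsupp.sum_add]
  refine Finsupp.sum_congr fun i _ => ?_
  rw [Pi.add_apply, mul_add]

lemma pr_zero_left (b : ℕ → F2) : pr 0 b = 0 := Finsupp.sum_zero_index

lemma pr_zero_right (a : ℕ →₀ F2) : pr a 0 = 0 := by
  unfold pr
  simp

lemma pr_smul_left (r : F2) (a : ℕ →₀ F2) (b : ℕ → F2) : pr (r • a) b = r * pr a b := by
  unfold pr
  rw [Finsupp.sum_smul_index' fun i => zero_mul _, Finsupp.mul_sum]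
  refine Finsupp.sum_congr fun i _ => ?_
  rw [smul_eq_mul, mul_assoc]

lemma pr_smul_right (r : F2) (a : ℕ →₀ F2) (b : ℕ → F2) : pr a (r • b) = r * pr a b := by
  unfold pr
  rw [Finsupp.mul_sum]
  refine Finsupp.sum_congr fun i _ => ?_
  rw [Pi.smul_apply, smul_eq_mul]
  ring

lemma pr_single (i : ℕ) (b : ℕ → F2) : pr (Finsupp.single i 1) b = b i := by
  unfold pr
  rw [Finsupp.sum_single_index (zero_mul _), one_mul]

lemma pr_fun_single (a : ℕ →₀ F2) (i : ℕ) : pr a (Pi.single i 1) = a i := by
  unfold pr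
  rw [Finsupp.sum, Finset.sum_eq_single i]
  · rw [Pi.single_eq_same, mul_one]
  · intro j _ hj
    rw [Pi.single_eq_of_ne hj, mul_zero]
  · intro hi
    rw [Finsupp.notMem_support_iff.1 hi, zero_mul]

lemma F2_neg (x : F2) : -x = x := by
  revert x
  decide

lemma F2_add_self (x : F2) : x + x = 0 := by
  revert x
  decide

lemma F2_cases : ∀ x : F2, x = 0 ∨ x = 1 := by decide

/-- The Heisenberg group. -/
@[ext] structure Heis : Type where
  /-- the finitely supported coordinate -/
  a : ℕ →₀ F2
  /-- the arbitrary coordinate -/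
  b : ℕ → F2
  /-- the central coordinate -/
  c : F2

noncomputable instance : Mul Heis := ⟨fun x y => ⟨x.a + y.a, x.b + y.b, x.c + y.c + pr x.a y.b⟩⟩

noncomputable instance : One Heis := ⟨⟨0, 0, 0⟩⟩

noncomputable instance : Inv Heis := ⟨fun x => ⟨x.a, x.b, x.c + pr x.a x.b⟩⟩

lemma mul_def (x y : Heis) : x * y = ⟨x.a + y.a, x.b + y.b, x.c + y.c + pr x.a y.b⟩ := rfl

lemma one_def : (1 : Heis) = ⟨0, 0, 0⟩ := rfl

lemma inv_def (x : Heis) : x⁻¹ = ⟨x.a, x.b, x.c + pr x.a x.b⟩ := rfl

noncomputable instance : Group Heis := Group.ofLeftAxioms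
  (fun x y z => by
    simp only [mul_def, Heis.mk.injEq]
    refine ⟨add_assoc _ _ _, add_assoc _ _ _, ?_⟩
    rw [pr_add_left, pr_add_right]
    ring)
  (fun x => by
    simp only [mul_def, one_def]
    ext <;> simp [pr_zero_left])
  (fun x => by
    simp only [mul_def, one_def, inv_def, Heis.mk.injEq]
    refine ⟨?_, ?_, ?_⟩
    · ext i
      exact F2_add_self _
    · ext i
      exact F2_add_self _
    · rw [add_right_comm, add_assoc, add_comm (pr x.a x.b) x.c]
      exact F2_add_self _)

lemma mul_def' (x y : Heis) : x * y = ⟨x.a + y.a, x.b + y.b, x.c + y.c + pr x.a y.b⟩ := rfl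

/-- The alternating form. -/
noncomputable def bt (x y : Heis) : F2 := pr x.a y.b + pr y.a x.b

lemma commute_iff (x y : Heis) : x * y = y * x ↔ bt x y = 0 := by
  rw [mul_def', mul_def', Heis.mk.injEq]
  unfold bt
  constructor
  · rintro ⟨-, -, h⟩
    rw [add_comm y.c x.c] at h
    rw [add_left_cancel h, F2_add_self]
  · intro h
    refine ⟨add_comm _ _, add_comm _ _, ?_⟩
    rw [add_comm y.c x.c]
    congr 1
    have h2 := congrArg (fun z => z + pr y.a x.b) h
    simp only [add_assoc, F2_add_self, add_zero, zero_add] at h2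
    exact h2

/-- The vector space. -/
abbrev VV : Type := (ℕ →₀ F2) × (ℕ → F2)

/-- The functional of a vector. -/
noncomputable def fn (v : VV) : VV →ₗ[F2] F2 where
  toFun w := pr v.1 w.2 + pr w.1 v.2
  map_add' w w' := by
    rw [Prod.snd_add, Prod.fst_add, pr_add_right, pr_add_left]
    ring
  map_smul' r w := by
    rw [Prod.smul_snd, Prod.smul_fst, pr_smul_right, pr_smul_left, RingHom.id_apply, smul_eq_mul]
    ring

/-- The map from vectors to functionals. -/
noncomputable def fnL : VV →ₗ[F2] (VV →ₗ[F2] F2) where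
  toFun := fn
  map_add' v v' := by
    refine LinearMap.ext fun w => ?_
    show pr (v + v').1 w.2 + pr w.1 (v + v').2 = (pr v.1 w.2 + pr w.1 v.2) + (pr v'.1 w.2 + pr w.1 v'.2)
    rw [Prod.fst_add, Prod.snd_add, pr_add_right, pr_add_left]
    ring
  map_smul' r v := by
    refine LinearMap.ext fun w => ?_
    show pr (r • v).1 w.2 + pr w.1 (r • v).2 = r * (pr v.1 w.2 + pr w.1 v.2)
    rw [Prod.smul_fst, Prod.smul_snd, pr_smul_right, pr_smul_left]
    ring

lemma fnL_injective : Function.Injective fnL := by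
  rw [← LinearMap.ker_eq_bot, LinearMap.ker_eq_bot']
  intro v hv
  have h : ∀ w : VV, pr v.1 w.2 + pr w.1 v.2 = 0 := fun w => LinearMap.congr_fun hv w
  have h1 : v.1 = 0 := by
    ext i
    have := h (0, Pi.single i 1)
    rw [pr_fun_single, pr_zero_left, add_zero] at this
    exact this
  have h2 : v.2 = 0 := by
    ext i
    have := h (Finsupp.single i 1, 0)
    rw [pr_single, pr_zero_right, zero_add] at this
    exact this
  exact Prod.ext h1 h2

/-- The vector of a group element. -/
def vec (x : Heis) : VV := (x.a, x.b)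

lemma fn_apply (x y : Heis) : fnL (vec x) (vec y) = bt x y := rfl

/-- Double centralizers lie over spans. -/
lemma cen_cen {F : Set Heis} (hF : F.Finite) {x : Heis} (hx : x ∈ Cen (Cen F)) :
    vec x ∈ Submodule.span F2 (vec '' F) := by
  have : Finite F := hF
  have hker : (⨅ f : F, LinearMap.ker (fnL (vec f.1))) ≤ LinearMap.ker (fnL (vec x)) := by
    intro w hw
    rw [Submodule.mem_iInf] at hw
    have hw' : (⟨w.1, w.2, 0⟩ : Heis) ∈ Cen F := by
      intro t ht
      have h := hw ⟨t, ht⟩
      rw [LinearMap.mem_ker] at h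
      exact ((commute_iff t ⟨w.1, w.2, 0⟩).2 h).symm
    have h := (commute_iff x ⟨w.1, w.2, 0⟩).1 (hx _ hw')
    rw [LinearMap.mem_ker]
    exact h
  have h := mem_span_of_iInf_ker_le_ker hker
  have h2 : (Set.range fun f : F => fnL (vec f.1)) = fnL '' (vec '' F) := by
    ext φ
    simp
  rw [h2, ← Submodule.map_span] at h
  obtain ⟨v, hv, hv2⟩ := h
  rw [← fnL_injective hv2]
  exact hv

lemma finite_span {A : Set VV} (hA : A.Finite) :
    ((Submodule.span F2 A : Submodule F2 VV) : Set VV).Finite := by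
  have h1 : Module.Finite F2 (Submodule.span F2 A) := Module.Finite.span_of_finite F2 hA
  have h2 : Finite (Submodule.span F2 A) := Module.finite_of_finite F2
  exact Set.toFinite _

/-- The Heisenberg group has finite double centralizers. -/
theorem heis_finite : FiniteDoubleCentralizers Heis := by
  intro F hF
  have h1 : Function.Injective fun x : Heis => (vec x, x.c) := by
    intro x y h
    have h2 : vec x = vec y := congrArg Prod.fst h
    have h3 : x.c = y.c := congrArg Prod.snd h
    exact Heis.ext (congrArg Prod.fst h2) (congrArg Prod.snd h2) h3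
  refine Set.Finite.subset (Set.Finite.preimage h1.injOn
    ((finite_span (hF.image vec)).prod Set.finite_univ)) ?_
  intro x hx
  exact ⟨cen_cen hF hx, Set.mem_univ _⟩

/-- All double centralizers of single elements have at most four elements. -/
theorem heis_le (x : Heis) : (Cen (Cen {x})).encard ≤ 4 := by
  have h : Cen (Cen {x}) ⊆ {y | (vec y = 0 ∨ vec y = vec x)} := by
    intro y hy
    have h1 := cen_cen (Set.finite_singleton x) hy
    rw [Set.image_singleton, Submodule.mem_span_singleton] at h1
    obtain ⟨r, hr⟩ := h1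
    have h2 : r = 0 ∨ r = 1 := F2_cases r
    rcases h2 with h2 | h2
    · left
      rw [← hr, h2, zero_smul]
    · right
      rw [← hr, h2, one_smul]
  have h2 : {y : Heis | (vec y = 0 ∨ vec y = vec x)} ⊆
      {⟨0, 0, 0⟩, ⟨0, 0, 1⟩, ⟨x.a, x.b, 0⟩, ⟨x.a, x.b, 1⟩} := by
    rintro ⟨a, b, c⟩ (h3 | h3)
    · have h4 : a = 0 := congrArg Prod.fst h3
      have h5 : b = 0 := congrArg Prod.snd h3
      have h6 : c = 0 ∨ c = 1 := F2_cases c
      rcases h6 with rfl | rfl <;> simp [h4, h5]
    · have h4 : a = x.a := congrArg Prod.fst h3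
      have h5 : b = x.b := congrArg Prod.snd h3
      have h6 : c = 0 ∨ c = 1 := F2_cases c
      rcases h6 with rfl | rfl <;> simp [h4, h5]
  refine (Set.encard_le_encard (h.trans h2)).trans ?_
  refine (Set.encard_insert_le _ _).trans ?_
  refine (add_le_add_left (Set.encard_insert_le _ _) _).trans ?_
  refine (add_le_add_left (add_le_add_left (Set.encard_insert_le _ _) _) _).trans ?_
  rw [Set.encard_singleton]
  norm_num

/-! ### The topology -/

/-- The embedding of the Cantor space. -/
def emb (b : ℕ → F2) : Heis := ⟨0, b, 0⟩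

lemma emb_injective : Function.Injective emb := fun _ _ h => congrArg Heis.b h

lemma pr_continuous (a : ℕ →₀ F2) : Continuous fun b : ℕ → F2 => pr a b := by
  unfold pr
  exact continuous_finsetSum _ fun i _ =>
    (continuous_of_discreteTopology (f := fun z : F2 => a i * z)).comp (continuous_apply i)

lemma conj_emb (p : Heis) (b : ℕ → F2) : p * emb b = emb b * ⟨p.a, p.b, p.c + pr p.a b⟩ := by
  rw [mul_def', mul_def']
  unfold emb
  simp only [pr_zero_left, add_zero, zero_add, Heis.mk.injEq, true_and, and_true]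
  exact add_comm _ _

lemma trace_two (p q : Heis) : IsOpen {b : ℕ → F2 | p * emb b ≠ emb b * q} := by
  have h : {b : ℕ → F2 | p * emb b ≠ emb b * q} =
      {b : ℕ → F2 | ¬ (p.a = q.a ∧ p.b = q.b ∧ p.c + pr p.a b = q.c)} := by
    ext b
    simp only [Set.mem_ofPred_eq, ne_eq, conj_emb, mul_right_inj]
    rw [Heis.ext_iff]
  rw [h]
  by_cases h1 : p.a = q.a ∧ p.b = q.b
  · have h2 : {b : ℕ → F2 | ¬ (p.a = q.a ∧ p.b = q.b ∧ p.c + pr p.a b = q.c)} =
        (fun b : ℕ → F2 => p.c + pr p.a b) ⁻¹' {q.c}ᶜ := by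
      ext b
      simp [h1.1, h1.2]
    rw [h2]
    exact (isOpen_discrete _).preimage (continuous_const.add (pr_continuous p.a))
  · have h2 : {b : ℕ → F2 | ¬ (p.a = q.a ∧ p.b = q.b ∧ p.c + pr p.a b = q.c)} = Set.univ := by
      ext b
      simp only [Set.mem_ofPred_eq, Set.mem_univ, iff_true]
      exact fun h3 => h1 ⟨h3.1, h3.2.1⟩
    rw [h2]
    exact isOpen_univ

lemma emb_continuous : @Continuous (ℕ → F2) Heis _ (semiZariski Heis) emb := by
  refine continuous_generateFrom_iff.2 ?_
  have htwo : ∀ p q : Heis, IsOpen {b : ℕ → F2 | p * emb b ≠ emb b * q} := trace_two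
  have hval : ∀ x : WithOne Heis, ∃ y : Heis, ∀ z : Heis, (x * (z : WithOne Heis) = ((y * z : Heis) : WithOne Heis)) ∧
      ((z : WithOne Heis) * x = ((z * y : Heis) : WithOne Heis)) := by
    intro x
    rcases eq_or_ne x 1 with rfl | hx
    · exact ⟨1, fun z => by simp⟩
    · obtain ⟨y, rfl⟩ := WithOne.ne_one_iff_exists.1 hx
      exact ⟨y, fun z => ⟨rfl, rfl⟩⟩
  rintro U (⟨a, b, c, rfl⟩ | ⟨a, b, c, d, rfl⟩)
  · obtain ⟨a', ha⟩ := hval a
    obtain ⟨b', hb⟩ := hval b
    have h1 : ∀ s : Heis, a * (s : WithOne Heis) * b = ((a' * s * b' : Heis) : WithOne Heis) := by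
      intro s
      rw [(ha s).1, (hb _).2]
    rcases eq_or_ne c 1 with rfl | hc
    · have h2 : emb ⁻¹' {s : Heis | a * (s : WithOne Heis) * b ≠ 1} = Set.univ := by
        ext x
        simp only [Set.mem_preimage, Set.mem_ofPred_eq, Set.mem_univ, iff_true]
        rw [h1]
        exact WithOne.coe_ne_one
      rw [h2]
      exact isOpen_univ
    · obtain ⟨c, rfl⟩ := WithOne.ne_one_iff_exists.1 hc
      have h2 : emb ⁻¹' {s : Heis | a * (s : WithOne Heis) * b ≠ (c : WithOne Heis)} =
          {x | (emb x) = a'⁻¹ * c * b'⁻¹}ᶜ := by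
        ext x
        simp only [Set.mem_preimage, Set.mem_ofPred_eq, Set.mem_compl_iff]
        rw [h1, ne_eq, WithOne.coe_inj, not_iff_not]
        constructor
        · intro h
          rw [← h]
          group
        · intro h
          rw [h]
          group
      rw [h2]
      have hfin : {x | (emb x) = a'⁻¹ * c * b'⁻¹}.Finite :=
        Set.Subsingleton.finite fun x hx y hy => emb_injective (hx.trans hy.symm)
      exact hfin.isClosed.isOpen_compl
  · obtain ⟨a', ha⟩ := hval a
    obtain ⟨b', hb⟩ := hval b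
    obtain ⟨c', hc⟩ := hval c
    obtain ⟨d', hd⟩ := hval d
    have h2 : emb ⁻¹' {s : Heis | a * (s : WithOne Heis) * b ≠ c * (s : WithOne Heis) * d} =
        {x | (c'⁻¹ * a') * emb x ≠ emb x * (d' * b'⁻¹)} := by
      ext x
      simp only [Set.mem_preimage, Set.mem_ofPred_eq]
      rw [(ha _).1, (hb _).2, (hc _).1, (hd _).2, ne_eq, WithOne.coe_inj, ne_eq, not_iff_not]
      constructor
      · intro h
        calc c'⁻¹ * a' * emb x = c'⁻¹ * (a' * emb x * b') * b'⁻¹ := by group
          _ = emb x * (d' * b'⁻¹) := by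
            rw [h]
            group
      · intro h
        calc a' * emb x * b' = c' * (c'⁻¹ * a' * emb x) * b' := by group
          _ = c' * emb x * d' := by
            rw [h]
            group
    rw [h2]
    exact htwo _ _

/-- The Heisenberg group is not a countable union of discrete subspaces. -/
theorem heis_not_sigma : ¬ IsSigmaDiscreteIn (semiZariski Heis) (Set.univ : Set Heis) := by
  rintro ⟨D, hD, hdisc⟩
  have hcount : ∀ n, (emb ⁻¹' D n).Countable := by
    intro n
    have h1 : DiscreteTopology (emb ⁻¹' D n) := by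
      rw [discreteTopology_subtype_iff']
      intro x hx
      obtain ⟨U, hU, hUx⟩ := hdisc n _ hx
      refine ⟨emb ⁻¹' U, @IsOpen.preimage _ _ _ (semiZariski Heis) _ emb_continuous _ hU, ?_⟩
      ext y
      constructor
      · rintro ⟨hy1, hy2⟩
        have h2 : emb y ∈ U ∩ D n := ⟨hy1, hy2⟩
        rw [hUx] at h2
        exact emb_injective h2
      · rintro rfl
        have h2 : emb y ∈ U ∩ D n := by
          rw [hUx]
          rfl
        exact h2
    exact Set.countable_coe_iff.1 countable_of_Lindelof_of_discrete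
  have hall : (Set.univ : Set (ℕ → F2)).Countable := by
    have h1 : (Set.univ : Set (ℕ → F2)) = ⋃ n, emb ⁻¹' D n := by
      rw [← Set.preimage_iUnion, hD, Set.preimage_univ]
    rw [h1]
    exact Set.countable_iUnion hcount
  have h4 : Cardinal.mk (ℕ → F2) = Cardinal.continuum := by simp
  have h2 : Countable (ℕ → F2) := Set.countable_univ_iff.1 hall
  have h3 : Cardinal.mk (ℕ → F2) ≤ Cardinal.aleph0 := Cardinal.mk_le_aleph0
  rw [h4] at h3
  exact absurd h3 (not_le.2 Cardinal.aleph0_lt_continuum)

end Q182.DC
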