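import Mathlib
import Pool.Agent.Q182.DCDefs

/-!
# Relations on the natural numbers which are finite or differ from the identity in finitely many
points
-/

namespace Q182.DC

open Topology

/-- A relation on the natural numbers which, outside a finite square, is the identity (`flag` true)
or empty (`flag` false). -/
@[ext] structure FR : Type where
  /-- the type of the relation at infinity -/
  flag : Prop
  /-- the relation -/
  rel : ℕ → ℕ → Prop
  /-- the behaviour at infinity -/
  prop : ∃ n, ∀ a b, n ≤ a ∨ n ≤ b → (rel a b ↔ flag ∧ a = b)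

/-- The composition. -/
instance : Mul FR := ⟨fun f g =>
  { flag := f.flag ∧ g.flag
    rel := fun a c => ∃ b, f.rel a b ∧ g.rel b c
    prop := by
      obtain ⟨n, hn⟩ := f.prop
      obtain ⟨m, hm⟩ := g.prop
      refine ⟨max n m, fun a c hac => ?_⟩
      constructor
      · rintro ⟨b, h1, h2⟩
        rcases hac with h | h
        · rw [hn a b (Or.inl (le_trans (le_max_left _ _) h))] at h1
          obtain ⟨h1, rfl⟩ := h1
          rw [hm a c (Or.inl (le_trans (le_max_right _ _) h))] at h2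
          exact ⟨⟨h1, h2.1⟩, h2.2⟩
        · rw [hm b c (Or.inr (le_trans (le_max_right _ _) h))] at h2
          obtain ⟨h2, rfl⟩ := h2
          rw [hn a b (Or.inr (le_trans (le_max_left _ _) h))] at h1
          exact ⟨⟨h1.1, h2⟩, h1.2⟩
      · rintro ⟨⟨h1, h2⟩, rfl⟩
        rw [or_self] at hac
        exact ⟨a, (hn a a (Or.inl (le_trans (le_max_left _ _) hac))).2 ⟨h1, rfl⟩,
          (hm a a (Or.inl (le_trans (le_max_right _ _) hac))).2 ⟨h2, rfl⟩⟩ }⟩

lemma mul_flag (f g : FR) : (f * g).flag ↔ f.flag ∧ g.flag := Iff.rfl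

lemma mul_rel (f g : FR) (a c : ℕ) : (f * g).rel a c ↔ ∃ b, f.rel a b ∧ g.rel b c := Iff.rfl

lemma FR.eq_of {f g : FR} (h1 : f.flag ↔ g.flag) (h2 : ∀ a b, f.rel a b ↔ g.rel a b) : f = g :=
  FR.ext (propext h1) (funext fun a => funext fun b => propext (h2 a b))

instance : Semigroup FR where
  mul_assoc f g h := by
    apply FR.eq_of
    · simp only [mul_flag, and_assoc]
    · intro a d
      simp only [mul_rel]
      constructor
      · rintro ⟨c, ⟨b, h1, h2⟩, h3⟩
        exact ⟨b, h1, c, h2, h3⟩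
      · rintro ⟨b, h1, c, h2, h3⟩
        exact ⟨c, ⟨b, h1, h2⟩, h3⟩

/-- The support: the points at which the relation differs from its type at infinity. -/
def FR.supp (f : FR) : Set ℕ :=
  {a | ¬ ∀ b, (f.rel a b ↔ f.flag ∧ a = b) ∧ (f.rel b a ↔ f.flag ∧ b = a)}

lemma notMem_supp {f : FR} {a : ℕ} :
    a ∉ f.supp ↔ ∀ b, (f.rel a b ↔ f.flag ∧ a = b) ∧ (f.rel b a ↔ f.flag ∧ b = a) := by
  unfold FR.supp
  rw [Set.mem_ofPred_eq, not_not]

lemma supp_mul (f g : FR) : (f * g).supp ⊆ f.supp ∪ g.supp := by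
  intro a
  contrapose!
  intro ha
  rw [Set.mem_union, not_or] at ha
  obtain ⟨h1, h2⟩ := ha
  rw [notMem_supp] at h1 h2 ⊢
  intro c
  rw [mul_rel, mul_rel, mul_flag]
  constructor
  · constructor
    · rintro ⟨b, h3, h4⟩
      rw [(h1 b).1] at h3
      obtain ⟨h3, rfl⟩ := h3
      rw [(h2 c).1] at h4
      exact ⟨⟨h3, h4.1⟩, h4.2⟩
    · rintro ⟨⟨h3, h4⟩, rfl⟩
      exact ⟨a, (h1 a).1.2 ⟨h3, rfl⟩, (h2 a).1.2 ⟨h4, rfl⟩⟩
  · constructor
    · rintro ⟨b, h3, h4⟩
      rw [(h2 b).2] at h4
      obtain ⟨h4, rfl⟩ := h4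
      rw [(h1 c).2] at h3
      exact ⟨⟨h3.1, h4⟩, h3.2⟩
    · rintro ⟨⟨h3, h4⟩, rfl⟩
      exact ⟨c, (h1 c).1.2 ⟨h3, rfl⟩, (h2 c).1.2 ⟨h4, rfl⟩⟩

lemma comm_aux {f g : FR} (h : f.supp ∩ g.supp = ∅) {a c : ℕ} (hac : (f * g).rel a c) :
    (g * f).rel a c := by
  have hdis : ∀ x, x ∉ f.supp ∨ x ∉ g.supp := by
    intro x
    by_contra hcon
    rw [not_or, not_not, not_not] at hcon
    have : x ∈ f.supp ∩ g.supp := hcon
    rw [h] at this
    exact this
  obtain ⟨b, h1, h2⟩ := hac
  rw [mul_rel]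
  rcases hdis b with hb | hb
  · rw [(notMem_supp.1 hb a).2] at h1
    obtain ⟨h1, rfl⟩ := h1
    rcases hdis c with hc | hc
    · exact ⟨c, h2, (notMem_supp.1 hc c).1.2 ⟨h1, rfl⟩⟩
    · rw [(notMem_supp.1 hc a).2] at h2
      obtain ⟨h2, rfl⟩ := h2
      exact ⟨a, (notMem_supp.1 hc a).1.2 ⟨h2, rfl⟩, (notMem_supp.1 hb a).1.2 ⟨h1, rfl⟩⟩
  · rw [(notMem_supp.1 hb c).1] at h2
    obtain ⟨h2, rfl⟩ := h2
    rcases hdis a with ha | ha
    · rw [(notMem_supp.1 ha b).1] at h1
      obtain ⟨h1, rfl⟩ := h1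
      exact ⟨a, (notMem_supp.1 hb a).1.2 ⟨h2, rfl⟩, (notMem_supp.1 ha a).1.2 ⟨h1, rfl⟩⟩
    · exact ⟨a, (notMem_supp.1 ha a).1.2 ⟨h2, rfl⟩, h1⟩

lemma supp_comm (f g : FR) (h : f.supp ∩ g.supp = ∅) : f * g = g * f := by
  apply FR.eq_of
  · rw [mul_flag, mul_flag, and_comm]
  · intro a c
    exact ⟨comm_aux h, comm_aux (by rw [Set.inter_comm]; exact h)⟩

lemma supp_finite (f : FR) : f.supp.Finite := by
  obtain ⟨n, hn⟩ := f.prop
  refine (Set.finite_lt_nat n).subset fun a ha => ?_
  by_contra hcon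
  rw [Set.mem_ofPred_eq, not_lt] at hcon
  exact ha fun b => ⟨hn a b (Or.inl hcon), hn b a (Or.inr hcon)⟩

lemma finite_supp_subset (F : Set ℕ) (hF : F.Finite) : (supported FR.supp F).Finite := by
  have hfin : Finite F := hF
  let Φ : supported FR.supp F → Prop × (F → F → Prop) := fun f => (f.1.flag, fun a b => f.1.rel a b)
  have hinj : Function.Injective Φ := by
    rintro ⟨f, hf⟩ ⟨g, hg⟩ hfg
    apply Subtype.ext
    have h1 : f.flag = g.flag := congrArg Prod.fst hfg
    have h2 : ∀ a b : F, f.rel a b = g.rel a b := fun a b =>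
      congrFun (congrFun (congrArg Prod.snd hfg) a) b
    apply FR.eq_of (iff_of_eq h1)
    intro a b
    by_cases ha : a ∈ F
    · by_cases hb : b ∈ F
      · exact iff_of_eq (h2 ⟨a, ha⟩ ⟨b, hb⟩)
      · have hfb : b ∉ f.supp := fun h => hb (hf h)
        have hgb : b ∉ g.supp := fun h => hb (hg h)
        rw [(notMem_supp.1 hfb a).2, (notMem_supp.1 hgb a).2, h1]
    · have hfa : a ∉ f.supp := fun h => ha (hf h)
      have hga : a ∉ g.supp := fun h => ha (hg h)
      rw [(notMem_supp.1 hfa b).1, (notMem_supp.1 hga b).1, h1]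
  have : Finite (supported FR.supp F) := Finite.of_injective Φ hinj
  exact Set.toFinite _

/-- The transposition. -/
def swp (y z : ℕ) : FR where
  flag := True
  rel a b := b = Equiv.swap y z a
  prop := by
    refine ⟨max y z + 1, fun a b hab => ?_⟩
    rw [true_and]
    have key : ∀ x, max y z + 1 ≤ x → Equiv.swap y z x = x := fun x hx =>
      Equiv.swap_apply_of_ne_of_ne (by have := le_max_left y z; omega)
        (by have := le_max_right y z; omega)
    rcases hab with h | h
    · rw [key a h, eq_comm]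
    · constructor
      · rintro rfl
        by_contra hne
        have h1 := key _ h
        rw [Equiv.swap_apply_self] at h1
        exact hne h1
      · rintro rfl
        exact (key a h).symm

lemma supp_swp (y z : ℕ) : (swp y z).supp ⊆ {y, z} := by
  intro x hx
  by_contra hcon
  rw [Set.mem_insert_iff, Set.mem_singleton_iff, not_or] at hcon
  refine hx fun b => ?_
  have h1 : Equiv.swap y z x = x := Equiv.swap_apply_of_ne_of_ne hcon.1 hcon.2
  change ((b = Equiv.swap y z x) ↔ True ∧ x = b) ∧ ((x = Equiv.swap y z b) ↔ True ∧ b = x)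
  rw [true_and, true_and, h1]
  refine ⟨eq_comm, ?_⟩
  constructor
  · intro h
    have := congrArg (Equiv.swap y z) h
    rw [h1, Equiv.swap_apply_self] at this
    exact this.symm
  · rintro rfl
    exact h1.symm

lemma rel_mul_swp (u : FR) (y z a c : ℕ) : (u * swp y z).rel a c ↔ u.rel a (Equiv.swap y z c) := by
  rw [mul_rel]
  constructor
  · rintro ⟨b, h1, h2⟩
    change c = Equiv.swap y z b at h2
    rw [h2, Equiv.swap_apply_self]
    exact h1
  · intro h
    exact ⟨_, h, (Equiv.swap_apply_self _ _ _).symm⟩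

lemma rel_swp_mul (u : FR) (y z a c : ℕ) : (swp y z * u).rel a c ↔ u.rel (Equiv.swap y z a) c := by
  rw [mul_rel]
  constructor
  · rintro ⟨b, h1, h2⟩
    change b = Equiv.swap y z a at h1
    rw [← h1]
    exact h2
  · intro h
    exact ⟨_, rfl, h⟩

lemma cen_supported (F : Set ℕ) (hF : F.Finite) :
    supported FR.supp F = Cen (supported FR.supp Fᶜ) := by
  apply Set.Subset.antisymm
  · intro f hf t ht
    apply supp_comm
    rw [Set.eq_empty_iff_forall_notMem]
    rintro x ⟨h1, h2⟩
    exact ht h2 (hf h1)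
  · intro u hu y hy
    by_contra hyF
    obtain ⟨z, hz⟩ : ∃ z, z ∉ F ∪ u.supp ∪ {y} :=
      (((hF.union (supp_finite u)).union (Set.finite_singleton y)).infinite_compl).nonempty
    rw [Set.mem_union, Set.mem_union, not_or, not_or] at hz
    have hsw : swp y z ∈ supported FR.supp Fᶜ := by
      intro x hx
      have := supp_swp y z hx
      rw [Set.mem_insert_iff, Set.mem_singleton_iff] at this
      rcases this with rfl | rfl
      · exact hyF
      · exact hz.1.1
    have hcomm := hu _ hsw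
    have key : ∀ a c, u.rel a c ↔ u.rel (Equiv.swap y z a) (Equiv.swap y z c) := by
      intro a c
      rw [← rel_mul_swp, hcomm, rel_swp_mul, Equiv.swap_apply_self]
    refine hy fun b => ?_
    have h1 := notMem_supp.1 hz.1.2 (Equiv.swap y z b)
    rw [key y b, key b y, Equiv.swap_apply_left, h1.1, h1.2]
    have h2 : z = Equiv.swap y z b ↔ y = b := by
      constructor
      · intro h
        have := congrArg (Equiv.swap y z) h
        rwa [Equiv.swap_apply_right, Equiv.swap_apply_self] at this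
      · rintro rfl
        exact (Equiv.swap_apply_left _ _).symm
    exact ⟨and_congr_right fun _ => h2,
      and_congr_right fun _ => eq_comm.trans (h2.trans eq_comm)⟩

/-- The relation consisting of one loop. -/
def loop (x : ℕ) : FR where
  flag := False
  rel a b := a = x ∧ b = x
  prop := ⟨x + 1, fun a b hab => by
    constructor
    · rintro ⟨rfl, rfl⟩
      rw [or_self] at hab
      omega
    · rintro ⟨h, -⟩
      exact h.elim⟩

/-- The identity of the set consisting of `x` and of all numbers greater than `n`. -/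
def cut (x n : ℕ) : FR where
  flag := True
  rel a b := a = b ∧ (a = x ∨ n < a)
  prop := ⟨n + 1, fun a b hab => by
    rw [true_and]
    constructor
    · rintro ⟨h, -⟩
      exact h
    · rintro rfl
      rw [or_self] at hab
      exact ⟨rfl, Or.inr hab⟩⟩

lemma mem_supp_loop (x : ℕ) : x ∈ (loop x).supp := by
  intro h
  exact ((h x).1.1 ⟨rfl, rfl⟩).1

lemma notMem_supp_cut (x n : ℕ) : x ∉ (cut x n).supp := by
  rw [notMem_supp]
  intro b
  constructor
  · change (x = b ∧ (x = x ∨ n < x)) ↔ True ∧ x = b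
    simp
  · change (b = x ∧ (b = x ∨ n < b)) ↔ True ∧ b = x
    constructor
    · rintro ⟨h, -⟩
      exact ⟨trivial, h⟩
    · rintro ⟨-, h⟩
      exact ⟨h, Or.inl h⟩

theorem suppPerfect : SuppPerfect FR.supp where
  mul := supp_mul
  comm := supp_comm
  cover x := ⟨loop x, mem_supp_loop x⟩
  finite_supp := supp_finite
  finite_supported := finite_supp_subset
  cen := cen_supported

/-- The relations with the same first rows and columns. -/
def nbd (n : ℕ) (r : FR) : Set FR := {f | ∀ a b, a ≤ n ∨ b ≤ n → (f.rel a b ↔ r.rel a b)}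

/-- The topology. -/
@[reducible] def topFR : TopologicalSpace FR where
  IsOpen O := ∀ r ∈ O, ∃ n, nbd n r ⊆ O
  isOpen_univ := fun _ _ => ⟨0, Set.subset_univ _⟩
  isOpen_inter := by
    rintro A B hA hB r ⟨h1, h2⟩
    obtain ⟨n, hn⟩ := hA r h1
    obtain ⟨m, hm⟩ := hB r h2
    refine ⟨max n m, fun f hf => ⟨hn fun a b hab => hf a b ?_, hm fun a b hab => hf a b ?_⟩⟩
    · exact hab.imp (fun h => le_trans h (le_max_left _ _)) fun h => le_trans h (le_max_left _ _)
    · exact hab.imp (fun h => le_trans h (le_max_right _ _)) fun h => le_trans h (le_max_right _ _)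
  isOpen_sUnion := by
    rintro T hT r ⟨A, hA, hr⟩
    obtain ⟨n, hn⟩ := hT A hA r hr
    exact ⟨n, hn.trans (Set.subset_sUnion_of_mem hA)⟩

lemma mem_nbd_self (n : ℕ) (r : FR) : r ∈ nbd n r := fun _ _ _ => Iff.rfl

lemma isOpen_nbd (n : ℕ) (r : FR) : IsOpen[topFR] (nbd n r) := by
  intro s hs
  exact ⟨n, fun f hf a b hab => (hf a b hab).trans (hs a b hab)⟩

lemma eq_of_rel {f g : FR} (h : ∀ a b, f.rel a b ↔ g.rel a b) : f = g := by
  apply FR.eq_of _ h
  obtain ⟨n, hn⟩ := f.prop
  obtain ⟨m, hm⟩ := g.prop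
  have h1 := hn (max n m) (max n m) (Or.inl (le_max_left _ _))
  have h2 := hm (max n m) (max n m) (Or.inl (le_max_right _ _))
  rw [h, h2] at h1
  simp only [and_true] at h1
  exact h1.symm

lemma t2_topFR : @T2Space FR topFR := by
  let _ := topFR
  constructor
  intro r s hrs
  obtain ⟨a, b, hab⟩ : ∃ a b, ¬ (r.rel a b ↔ s.rel a b) := by
    by_contra hcon
    push Not at hcon
    exact hrs (eq_of_rel fun a b => hcon a b)
  refine ⟨nbd a r, nbd a s, isOpen_nbd a r, isOpen_nbd a s, mem_nbd_self a r, mem_nbd_self a s, ?_⟩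
  rw [Set.disjoint_left]
  intro f h1 h2
  exact hab ((h1 a b (Or.inl le_rfl)).symm.trans (h2 a b (Or.inl le_rfl)))

lemma continuousMul_topFR : @ContinuousMul FR topFR _ := by
  let _ := topFR
  constructor
  rw [continuous_def]
  intro O hO
  rw [isOpen_prod_iff]
  intro f g hfg
  obtain ⟨n, hn⟩ := hO _ hfg
  obtain ⟨p, hp⟩ := f.prop
  obtain ⟨q, hq⟩ := g.prop
  refine ⟨nbd (max n (max p q)) f, nbd (max n (max p q)) g, isOpen_nbd _ f, isOpen_nbd _ g,
    mem_nbd_self _ f, mem_nbd_self _ g, ?_⟩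
  rintro ⟨f', g'⟩ ⟨hf, hg⟩
  apply hn
  intro a c hac
  change (f' * g').rel a c ↔ _
  rw [mul_rel, mul_rel]
  have hnN : n ≤ max n (max p q) := le_max_left _ _
  have hpN : p ≤ max n (max p q) := le_trans (le_max_left _ _) (le_max_right _ _)
  have hqN : q ≤ max n (max p q) := le_trans (le_max_right _ _) (le_max_right _ _)
  rcases hac with h | h
  · apply exists_congr
    intro b
    rw [hf a b (Or.inl (le_trans h hnN))]
    apply and_congr_right
    intro hab
    apply hg b c
    left
    by_contra hcon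
    rw [not_le] at hcon
    have h1 := (hp a b (Or.inr (le_trans hpN hcon.le))).1 hab
    rw [← h1.2] at hcon
    exact absurd (lt_of_lt_of_le hcon (le_trans h hnN)) (lt_irrefl _)
  · apply exists_congr
    intro b
    rw [hg b c (Or.inr (le_trans h hnN))]
    apply and_congr_left
    intro hbc
    apply hf a b
    right
    by_contra hcon
    rw [not_le] at hcon
    have h1 := (hq b c (Or.inl (le_trans hqN hcon.le))).1 hbc
    rw [h1.2] at hcon
    exact absurd (lt_of_lt_of_le hcon (le_trans h hnN)) (lt_irrefl _)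

lemma not_isOpen (x : ℕ) : ¬ IsOpen[topFR] {f : FR | x ∈ f.supp} := by
  intro h
  obtain ⟨n, hn⟩ := h (loop x) (mem_supp_loop x)
  refine notMem_supp_cut x n (hn (?_ : cut x n ∈ nbd n (loop x)))
  intro a b hab
  change (a = b ∧ (a = x ∨ n < a)) ↔ (a = x ∧ b = x)
  constructor
  · rintro ⟨rfl, h1⟩
    rw [or_self] at hab
    rcases h1 with h1 | h1
    · exact ⟨h1, h1⟩
    · omega
  · rintro ⟨rfl, rfl⟩
    exact ⟨rfl, Or.inl rfl⟩

/-- A two-sided shift by elements of the semigroup with identity is a continuous selfmap. -/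
lemma shift_continuous {S : Type} [Semigroup S] [TopologicalSpace S] [ContinuousMul S]
    (a b : WithOne S) : ∃ h : S → S, Continuous h ∧ ∀ s : S, a * (s : WithOne S) * b = (h s : S) := by
  rcases eq_or_ne a 1 with rfl | ha
  · rcases eq_or_ne b 1 with rfl | hb
    · exact ⟨id, continuous_id, fun s => by rw [one_mul, mul_one]; rfl⟩
    · obtain ⟨b', rfl⟩ := WithOne.ne_one_iff_exists.1 hb
      exact ⟨fun s => s * b', continuous_mul_const b', fun s => by rw [one_mul]; rfl⟩
  · obtain ⟨a', rfl⟩ := WithOne.ne_one_iff_exists.1 ha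
    rcases eq_or_ne b 1 with rfl | hb
    · exact ⟨fun s => a' * s, continuous_const_mul a', fun s => by rw [mul_one]; rfl⟩
    · obtain ⟨b', rfl⟩ := WithOne.ne_one_iff_exists.1 hb
      exact ⟨fun s => a' * s * b', (continuous_mul_const b').comp (continuous_const_mul a'),
        fun s => rfl⟩

/-- The semi-Zariski topology is coarser than every Hausdorff semigroup topology. -/
lemma isOpen_of_semiZariski {S : Type} [Semigroup S] {τ : TopologicalSpace S}
    (hτ : IsHausdorffSemigroupTopology τ) {U : Set S} (hU : IsOpen[semiZariski S] U) :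
    IsOpen[τ] U := by
  let _ := τ
  obtain ⟨h1, h2⟩ := hτ
  suffices h : τ ≤ semiZariski S from h U hU
  apply le_generateFrom
  rintro V (⟨a, b, c, rfl⟩ | ⟨a, b, c, d, rfl⟩)
  · obtain ⟨h, hh, hs⟩ := shift_continuous a b
    rcases eq_or_ne c 1 with rfl | hc
    · have : {s : S | a * (s : WithOne S) * b ≠ 1} = Set.univ := by
        apply Set.eq_univ_of_forall
        intro s
        rw [Set.mem_ofPred_eq, hs]
        exact WithOne.coe_ne_one
      rw [this]
      exact isOpen_univ
    · obtain ⟨c', rfl⟩ := WithOne.ne_one_iff_exists.1 hc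
      have : {s : S | a * (s : WithOne S) * b ≠ (c' : WithOne S)} = h ⁻¹' {c'}ᶜ := by
        ext s
        rw [Set.mem_ofPred_eq, hs, Set.mem_preimage, Set.mem_compl_singleton_iff, Ne, Ne,
          WithOne.coe_inj]
      rw [this]
      exact isOpen_compl_singleton.preimage hh
  · obtain ⟨h, hh, hs⟩ := shift_continuous a b
    obtain ⟨k, hk, ks⟩ := shift_continuous c d
    have : {s : S | a * (s : WithOne S) * b ≠ c * (s : WithOne S) * d} = {s | h s ≠ k s} := by
      ext s
      rw [Set.mem_ofPred_eq, hs, ks, Set.mem_ofPred_eq, Ne, Ne, WithOne.coe_inj]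
    rw [this]
    exact isOpen_ne_fun hh hk

end Q182.DC
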