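import Mathlib
import Pool.Agent.Q182.DCDefs

/-!
# The group of finitely supported permutations of the natural numbers
-/

namespace Q182.DC

open Topology

/-- The finitely supported permutations. -/
def FS : Subgroup (Equiv.Perm ℕ) where
  carrier := {f | {x | f x ≠ x}.Finite}
  mul_mem' := by
    intro f g hf hg
    refine (Set.Finite.union hf hg).subset fun x hx => ?_
    by_contra h
    rw [Set.mem_union, not_or] at h
    simp only [Set.mem_ofPred_eq, not_not] at h
    apply hx
    rw [Equiv.Perm.mul_apply, h.2, h.1]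
  one_mem' := by
    simp
  inv_mem' := by
    intro f hf
    refine Set.Finite.subset hf fun x hx => ?_
    intro h
    apply hx
    rw [Equiv.Perm.inv_eq_iff_eq, h]

/-- The type of finitely supported permutations. -/
abbrev FSym : Type := FS

lemma FS_supp (f : FSym) : {x | f.1 x ≠ x}.Finite := f.2

lemma mem_FS {f : Equiv.Perm ℕ} (T : Finset ℕ) (h : ∀ x, x ∉ T → f x = x) : f ∈ FS := by
  show {x | f x ≠ x}.Finite
  refine T.finite_toSet.subset fun x hx => ?_
  by_contra hxT
  exact hx (h x hxT)

/-- The support as a finite set. -/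
noncomputable def sp (f : FSym) : Finset ℕ := (FS_supp f).toFinset

lemma mem_sp {f : FSym} {x : ℕ} : x ∈ sp f ↔ f.1 x ≠ x := by
  unfold sp
  rw [Set.Finite.mem_toFinset]
  rfl

/-- The permutation moves the set off itself. -/
def Far (T : Finset ℕ) (g : FSym) : Prop := ∀ y ∈ T, g.1 y ∉ T ∧ g.1⁻¹ y ∉ T

lemma Far.mono {T T' : Finset ℕ} (h : T ⊆ T') {g : FSym} (hg : Far T' g) : Far T g :=
  fun y hy => ⟨fun h1 => (hg y (h hy)).1 (h h1), fun h1 => (hg y (h hy)).2 (h h1)⟩

lemma ne_of_far {h g : FSym} (hg : Far (insert 0 (sp h)) g) : g ≠ h := by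
  rintro rfl
  have h1 := (hg 0 (Finset.mem_insert_self _ _)).1
  apply h1
  by_cases h2 : g.1 0 = 0
  · rw [h2]
    exact Finset.mem_insert_self _ _
  · apply Finset.mem_insert_of_mem
    rw [mem_sp]
    intro h3
    exact h2 (g.1.injective h3)

lemma conj_of_far {p q g : FSym} (hne : p ≠ 1 ∨ q ≠ 1) (hg : Far (sp p ∪ sp q) g) :
    p * g ≠ g * q := by
  intro h
  have hp : p = 1 := by
    by_contra hp
    obtain ⟨y, hy⟩ : ∃ y, p.1 y ≠ y := by
      by_contra hcon
      push Not at hcon
      exact hp (Subtype.ext (Equiv.ext hcon))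
    have hy' : y ∈ sp p := mem_sp.2 hy
    have h1 := (hg y (Finset.mem_union_left _ hy')).2
    have h2 : g.1⁻¹ y ∉ sp q := fun h3 => h1 (Finset.mem_union_right _ h3)
    rw [mem_sp, not_not] at h2
    have hgi : g.1 (g.1⁻¹ y) = y := by simp
    have h3 : (p * g).1 (g.1⁻¹ y) = (g * q).1 (g.1⁻¹ y) := by rw [h]
    have h4 : (p * g).1 (g.1⁻¹ y) = p.1 y := by
      show p.1 (g.1 (g.1⁻¹ y)) = _
      rw [hgi]
    have h5 : (g * q).1 (g.1⁻¹ y) = y := by
      show g.1 (q.1 (g.1⁻¹ y)) = _
      rw [h2, hgi]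
    rw [h4, h5] at h3
    exact hy h3
  have hq : q = 1 := by
    rw [hp, one_mul] at h
    exact (mul_eq_left.1 h.symm)
  rcases hne with h1 | h1
  · exact h1 hp
  · exact h1 hq

lemma WithOne_val (x : WithOne FSym) : ∃ y : FSym, ∀ z : FSym,
    (x * (z : WithOne FSym) = ((y * z : FSym) : WithOne FSym)) ∧
      ((z : WithOne FSym) * x = ((z * y : FSym) : WithOne FSym)) := by
  rcases eq_or_ne x 1 with rfl | hx
  · exact ⟨1, fun z => by simp⟩
  · obtain ⟨y, rfl⟩ := WithOne.ne_one_iff_exists.1 hx
    exact ⟨y, fun z => ⟨rfl, rfl⟩⟩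

/-- Nonempty open sets of the semi-Zariski topology contain all permutations which move a certain
finite set off itself. -/
lemma far_mem {O : Set FSym} (hO : IsOpen[semiZariski FSym] O) :
    O.Nonempty → ∃ T : Finset ℕ, ∀ g, Far T g → g ∈ O := by
  induction hO with
  | basic U hU =>
    rintro ⟨f, hf⟩
    rcases hU with ⟨a, b, c, rfl⟩ | ⟨a, b, c, d, rfl⟩
    · obtain ⟨a', ha⟩ := WithOne_val a
      obtain ⟨b', hb⟩ := WithOne_val b
      rcases eq_or_ne c 1 with rfl | hc
      · refine ⟨∅, fun g _ => ?_⟩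
        show a * (g : WithOne FSym) * b ≠ 1
        rw [(ha g).1, (hb _).2]
        exact WithOne.coe_ne_one
      · obtain ⟨c, rfl⟩ := WithOne.ne_one_iff_exists.1 hc
        refine ⟨insert 0 (sp (a'⁻¹ * c * b'⁻¹)), fun g hg => ?_⟩
        show a * (g : WithOne FSym) * b ≠ c
        rw [(ha g).1, (hb _).2, ne_eq, WithOne.coe_inj]
        intro h
        apply ne_of_far hg
        rw [← h]
        group
    · obtain ⟨a', ha⟩ := WithOne_val a
      obtain ⟨b', hb⟩ := WithOne_val b
      obtain ⟨c', hc⟩ := WithOne_val c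
      obtain ⟨d', hd⟩ := WithOne_val d
      have key : ∀ s : FSym, a * (s : WithOne FSym) * b = c * (s : WithOne FSym) * d ↔
          (c'⁻¹ * a') * s = s * (d' * b'⁻¹) := by
        intro s
        rw [(ha _).1, (hb _).2, (hc _).1, (hd _).2, WithOne.coe_inj]
        constructor
        · intro h
          calc c'⁻¹ * a' * s = c'⁻¹ * (a' * s * b') * b'⁻¹ := by group
            _ = s * (d' * b'⁻¹) := by
              rw [h]
              group
        · intro h
          calc a' * s * b' = c' * (c'⁻¹ * a' * s) * b' := by group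
            _ = c' * s * d' := by
              rw [h]
              group
      refine ⟨sp (c'⁻¹ * a') ∪ sp (d' * b'⁻¹), fun g hg => ?_⟩
      show a * (g : WithOne FSym) * b ≠ c * (g : WithOne FSym) * d
      rw [ne_eq, key]
      refine conj_of_far ?_ hg
      by_contra hcon
      push Not at hcon
      apply hf
      rw [key, hcon.1, hcon.2, one_mul, mul_one]
  | univ => exact fun _ => ⟨∅, fun g _ => trivial⟩
  | inter U V _ _ hU hV =>
    rintro ⟨f, hf⟩
    obtain ⟨T, hT⟩ := hU ⟨f, hf.1⟩
    obtain ⟨T', hT'⟩ := hV ⟨f, hf.2⟩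
    exact ⟨T ∪ T', fun g hg => ⟨hT g (hg.mono Finset.subset_union_left),
      hT' g (hg.mono Finset.subset_union_right)⟩⟩
  | sUnion 𝒰 _ ih =>
    rintro ⟨f, U, hU, hf⟩
    obtain ⟨T, hT⟩ := ih U hU ⟨f, hf⟩
    exact ⟨T, fun g hg => ⟨U, hU, hT g hg⟩⟩

/-! ### Centralizers -/

/-- A transposition. -/
def tr (a b : ℕ) : FSym := ⟨Equiv.swap a b, mem_FS {a, b} fun x hx => by
  rw [Finset.mem_insert, Finset.mem_singleton, not_or] at hx
  exact Equiv.swap_apply_of_ne_of_ne hx.1 hx.2⟩

lemma tr_comm_iff {u : FSym} {a b : ℕ} (hab : a ≠ b) (h : u * tr a b = tr a b * u) :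
    (u.1 a = a ∧ u.1 b = b) ∨ (u.1 a = b ∧ u.1 b = a) := by
  have h1 : u.1 b = Equiv.swap a b (u.1 a) := by
    have h2 : (u * tr a b).1 a = (tr a b * u).1 a := by rw [h]
    have h3 : (u * tr a b).1 a = u.1 b := by
      show u.1 (Equiv.swap a b a) = _
      rw [Equiv.swap_apply_left]
    rw [h3] at h2
    exact h2
  by_cases h2 : u.1 a = a
  · left
    rw [h2, Equiv.swap_apply_left] at h1
    exact ⟨h2, h1⟩
  · by_cases h3 : u.1 a = b
    · right
      rw [h3, Equiv.swap_apply_right] at h1
      exact ⟨h3, h1⟩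
    · exfalso
      rw [Equiv.swap_apply_of_ne_of_ne h2 h3] at h1
      exact hab (u.1.injective h1).symm

lemma fix_of_comm {u : FSym} {a b c : ℕ} (hab : a ≠ b) (hac : a ≠ c) (hbc : b ≠ c)
    (h : u * tr a b = tr a b * u) (h' : u * tr a c = tr a c * u) : u.1 a = a := by
  rcases tr_comm_iff hab h with h1 | h1
  · exact h1.1
  · rcases tr_comm_iff hac h' with h2 | h2
    · exact h2.1
    · exact absurd (h1.1.symm.trans h2.1) hbc

lemma tr_comm_of_fix {f : FSym} {a b : ℕ} (ha : f.1 a = a) (hb : f.1 b = b) :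
    tr a b * f = f * tr a b := by
  apply Subtype.ext
  apply Equiv.ext
  intro x
  show Equiv.swap a b (f.1 x) = f.1 (Equiv.swap a b x)
  by_cases h1 : x = a
  · rw [h1, ha, Equiv.swap_apply_left, hb]
  · by_cases h2 : x = b
    · rw [h2, hb, Equiv.swap_apply_right, ha]
    · rw [Equiv.swap_apply_of_ne_of_ne h1 h2, Equiv.swap_apply_of_ne_of_ne]
      · intro h3
        apply h1
        apply f.1.injective
        rw [h3, ha]
      · intro h3
        apply h2
        apply f.1.injective
        rw [h3, hb]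

/-- The group of finitely supported permutations has finite double centralizers. -/
theorem fsym_finite : FiniteDoubleCentralizers FSym := by
  intro F hF
  classical
  obtain ⟨U, hU⟩ : ∃ U : Finset ℕ, ∀ f ∈ F, ∀ x, x ∉ U → f.1 x = x := by
    refine ⟨hF.toFinset.biUnion sp, fun f hf x hx => ?_⟩
    by_contra h
    apply hx
    rw [Finset.mem_biUnion]
    exact ⟨f, hF.mem_toFinset.2 hf, mem_sp.2 h⟩
  have hsub : Cen (Cen F) ⊆ {h : FSym | ∀ x, x ∉ U → h.1 x = x} := by
    intro h hh x hx
    obtain ⟨y, hy⟩ := Infinite.exists_notMem_finset (insert x U)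
    obtain ⟨z, hz⟩ := Infinite.exists_notMem_finset (insert y (insert x U))
    simp only [Finset.mem_insert, not_or] at hy hz
    have hmem : ∀ w, w ∉ U → tr x w ∈ Cen F := fun w hw f hf =>
      tr_comm_of_fix (hU f hf x hx) (hU f hf w hw)
    exact fix_of_comm (Ne.symm hy.1) (Ne.symm hz.2.1) (Ne.symm hz.1) (hh _ (hmem y hy.2))
      (hh _ (hmem z hz.2.2))
  refine Set.Finite.subset ?_ hsub
  have hmaps : ∀ h ∈ {h : FSym | ∀ x, x ∉ U → h.1 x = x}, ∀ u : U, h.1 u ∈ U := by
    intro h hh u
    by_contra hcon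
    have h1 : h.1 (h.1 u) = h.1 u := hh _ hcon
    rw [h.1.injective h1] at hcon
    exact hcon u.2
  let Φ : {h : FSym | ∀ x, x ∉ U → h.1 x = x} → (U → U) := fun h u => ⟨h.1.1 u, hmaps _ h.2 u⟩
  have hΦ : Function.Injective Φ := by
    intro h h' hh
    apply Subtype.ext
    apply Subtype.ext
    apply Equiv.ext
    intro x
    by_cases hx : x ∈ U
    · exact congrArg Subtype.val (congrFun hh ⟨x, hx⟩)
    · rw [h.2 x hx, h'.2 x hx]
  exact Finite.of_injective Φ hΦ

/-- The exchange of `[0, N)` and `[N, 2N)`. -/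
def iv (N x : ℕ) : ℕ := if x < N then x + N else if x < 2 * N then x - N else x

lemma iv_iv (N x : ℕ) : iv N (iv N x) = x := by
  unfold iv
  split_ifs <;> omega

/-- The involution which exchanges `[0, N)` and `[N, 2N)`. -/
def invo (N : ℕ) : FSym :=
  ⟨{ toFun := iv N
     invFun := iv N
     left_inv := iv_iv N
     right_inv := iv_iv N }, mem_FS (Finset.range (2 * N)) fun x hx => by
        rw [Finset.mem_range, not_lt] at hx
        show iv N x = x
        unfold iv
        rw [if_neg (by omega), if_neg (by omega)]⟩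

lemma invo_apply (N x : ℕ) :
    (invo N).1 x = if x < N then x + N else if x < 2 * N then x - N else x := rfl

lemma invo_inv_apply (N x : ℕ) :
    (invo N).1⁻¹ x = if x < N then x + N else if x < 2 * N then x - N else x := rfl

lemma invo_far {T : Finset ℕ} {N : ℕ} (h : ∀ y ∈ T, y < N) : Far T (invo N) := by
  intro y hy
  have h1 := h y hy
  rw [invo_apply, invo_inv_apply, if_pos h1]
  exact ⟨fun h2 => absurd (h _ h2) (by omega), fun h2 => absurd (h _ h2) (by omega)⟩

/-- The exchange of two pairs. -/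
def ex (N i j : ℕ) : FSym := tr i j * tr (i + N) (j + N)

lemma tr_conj (f : FSym) (a b : ℕ) : tr (f.1 a) (f.1 b) * f = f * tr a b := by
  apply Subtype.ext
  apply Equiv.ext
  intro x
  show Equiv.swap (f.1 a) (f.1 b) (f.1 x) = f.1 (Equiv.swap a b x)
  by_cases h1 : x = a
  · rw [h1, Equiv.swap_apply_left, Equiv.swap_apply_left]
  · by_cases h2 : x = b
    · rw [h2, Equiv.swap_apply_right, Equiv.swap_apply_right]
    · rw [Equiv.swap_apply_of_ne_of_ne h1 h2, Equiv.swap_apply_of_ne_of_ne]
      · exact fun h3 => h1 (f.1.injective h3)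
      · exact fun h3 => h2 (f.1.injective h3)

lemma invo_low {N i : ℕ} (hi : i < N) : (invo N).1 i = i + N := by
  rw [invo_apply, if_pos hi]

lemma invo_high {N i : ℕ} (hi : i < N) : (invo N).1 (i + N) = i := by
  rw [invo_apply, if_neg (by omega), if_pos (by omega)]
  omega

lemma ex_comm {N i j : ℕ} (hi : i < N) (hj : j < N) : ex N i j * invo N = invo N * ex N i j := by
  have h1 := tr_conj (invo N) i j
  have h2 := tr_conj (invo N) (i + N) (j + N)
  rw [invo_low hi, invo_low hj] at h1
  rw [invo_high hi, invo_high hj] at h2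
  have h3 : tr (i + N) (j + N) * tr i j = tr i j * tr (i + N) (j + N) := by
    apply tr_comm_of_fix
    · show Equiv.swap i j (i + N) = i + N
      exact Equiv.swap_apply_of_ne_of_ne (by omega) (by omega)
    · show Equiv.swap i j (j + N) = j + N
      exact Equiv.swap_apply_of_ne_of_ne (by omega) (by omega)
  unfold ex
  rw [mul_assoc, h1, ← mul_assoc, h2, mul_assoc, h3]

lemma tr_invo_comm {N i : ℕ} (hi : i < N) : tr i (i + N) * invo N = invo N * tr i (i + N) := by
  have h1 := tr_conj (invo N) (i + N) i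
  rw [invo_low hi, invo_high hi] at h1
  rw [h1]
  congr 1
  apply Subtype.ext
  exact Equiv.swap_comm _ _

/-- The double centralizer of the involution. -/
lemma cen_invo {N : ℕ} (hN : 0 < N) : Cen (Cen {invo N}) ⊆ {1, invo N} := by
  intro u hu
  have hmem : ∀ v : FSym, v * invo N = invo N * v → u * v = v * u := fun v hv =>
    hu v fun t ht => by rw [Set.mem_singleton_iff.1 ht]; exact hv
  have hfix : ∀ c, 2 * N ≤ c → u.1 c = c := by
    intro c hc
    have h1 : ∀ d, 2 * N ≤ d → u * tr c d = tr c d * u := fun d hd =>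
      hmem _ (tr_comm_of_fix (by rw [invo_apply, if_neg (by omega), if_neg (by omega)])
        (by rw [invo_apply, if_neg (by omega), if_neg (by omega)]))
    exact fix_of_comm (b := c + 1) (c := c + 2) (by omega) (by omega) (by omega) (h1 _ (by omega))
      (h1 _ (by omega))
  have hpair : ∀ i, i < N → (u.1 i = i ∧ u.1 (i + N) = i + N) ∨ (u.1 i = i + N ∧ u.1 (i + N) = i) :=
    fun i hi => tr_comm_iff (by omega) (hmem _ (tr_invo_comm hi))
  have hex : ∀ j, j < N → u.1 j = (ex N 0 j).1 (u.1 0) := by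
    intro j hj
    have h1 := hmem _ (ex_comm (N := N) (i := 0) (j := j) hN hj)
    have h2 : (u * ex N 0 j).1 0 = (ex N 0 j * u).1 0 := by rw [h1]
    have h3 : (u * ex N 0 j).1 0 = u.1 j := by
      show u.1 (Equiv.swap 0 j (Equiv.swap (0 + N) (j + N) 0)) = _
      congr 1
      simp only [Equiv.swap_apply_def]
      split_ifs <;> omega
    rw [h3] at h2
    exact h2
  have hexv : ∀ j x, (ex N 0 j).1 x = Equiv.swap 0 j (Equiv.swap (0 + N) (j + N) x) := fun j x => rfl
  rcases hpair 0 hN with h0 | h0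
  · left
    apply Subtype.ext
    apply Equiv.ext
    intro x
    show u.1 x = x
    have hlow : ∀ j, j < N → u.1 j = j := by
      intro j hj
      rw [hex j hj, h0.1, hexv]
      simp only [Equiv.swap_apply_def]
      split_ifs <;> omega
    by_cases h1 : x < N
    · exact hlow x h1
    · by_cases h2 : x < 2 * N
      · rcases hpair (x - N) (by omega) with h3 | h3
        · have h4 : x - N + N = x := by omega
          rw [h4] at h3
          exact h3.2
        · have h4 := hlow (x - N) (by omega)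
          rw [h3.1] at h4
          omega
      · exact hfix x (by omega)
  · right
    apply Subtype.ext
    apply Equiv.ext
    intro x
    show u.1 x = (invo N).1 x
    rw [invo_apply]
    have hlow : ∀ j, j < N → u.1 j = j + N := by
      intro j hj
      rw [hex j hj, h0.1, hexv]
      simp only [Equiv.swap_apply_def]
      split_ifs <;> omega
    split_ifs with h1 h2
    · exact hlow x h1
    · rcases hpair (x - N) (by omega) with h3 | h3
      · have h4 := hlow (x - N) (by omega)
        rw [h3.1] at h4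
        omega
      · have h4 : x - N + N = x := by omega
        rw [h4] at h3
        exact h3.2
    · exact hfix x (by omega)

/-- A three-cycle. -/
def cyc : FSym := tr 0 1 * tr 1 2

lemma cyc_not_mem : cyc ∉ SLe FSym 2 := by
  intro h
  have h1 : ({1, cyc, cyc * cyc} : Set FSym) ⊆ Cen (Cen {cyc}) := by
    rintro x (rfl | rfl | rfl) t ht
    · rw [one_mul, mul_one]
    · exact (ht _ rfl).symm
    · have h2 := ht _ rfl
      rw [mul_assoc, ← h2, ← mul_assoc, ← h2, mul_assoc]
  have hv : ∀ x, cyc.1 x = Equiv.swap 0 1 (Equiv.swap 1 2 x) := fun x => rfl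
  have h01 : cyc.1 0 = 1 := by rw [hv]; decide
  have h12 : cyc.1 1 = 2 := by rw [hv]; decide
  have h3 : (1 : FSym) ≠ cyc := by
    intro h4
    rw [← h4] at h01
    exact absurd h01 (by decide)
  have h4 : (1 : FSym) ≠ cyc * cyc := by
    intro h5
    have h6 : (cyc * cyc).1 0 = 2 := by
      show cyc.1 (cyc.1 0) = 2
      rw [h01, h12]
    rw [← h5] at h6
    exact absurd h6 (by decide)
  have h5 : cyc ≠ cyc * cyc := by
    intro h6
    have h7 : (cyc * cyc).1 0 = 2 := by
      show cyc.1 (cyc.1 0) = 2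
      rw [h01, h12]
    rw [← h6, h01] at h7
    exact absurd h7 (by decide)
  have h6 : ({1, cyc, cyc * cyc} : Set FSym).encard = 3 := by
    rw [Set.encard_insert_of_notMem, Set.encard_insert_of_notMem, Set.encard_singleton]
    · norm_num
    · simpa using h5
    · simp only [Set.mem_insert_iff, Set.mem_singleton_iff, not_or]
      exact ⟨h3, h4⟩
  have h7 : (3 : ℕ∞) ≤ 2 := by
    calc (3 : ℕ∞) = ({1, cyc, cyc * cyc} : Set FSym).encard := h6.symm
      _ ≤ (Cen (Cen {cyc})).encard := Set.encard_le_encard h1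
      _ ≤ 2 := h
  exact absurd h7 (by decide)

/-- The set of permutations with double centralizer of at most two elements is not closed. -/
theorem fsym_not_closed : ¬ IsClosed[semiZariski FSym] (SLe FSym 2) := by
  intro h
  have hO : IsOpen[semiZariski FSym] (SLe FSym 2)ᶜ := @IsClosed.isOpen_compl _ (semiZariski FSym) _ h
  obtain ⟨T, hT⟩ := far_mem hO ⟨cyc, cyc_not_mem⟩
  obtain ⟨N, hN⟩ : ∃ N, ∀ y ∈ T, y < N := ⟨T.sup id + 1, fun y hy =>
    Nat.lt_succ_of_le (Finset.le_sup (f := id) hy)⟩
  have h1 := hT (invo (N + 1)) (invo_far fun y hy => Nat.lt_succ_of_lt (hN y hy))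
  apply h1
  show (Cen (Cen {invo (N + 1)})).encard ≤ ((2 : ℕ) : ℕ∞)
  refine (Set.encard_le_encard (cen_invo (Nat.succ_pos N))).trans ?_
  refine (Set.encard_insert_le _ _).trans ?_
  rw [Set.encard_singleton]
  norm_num

end Q182.DC
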