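import Mathlib

/-!
# d-independent groups
-/

namespace Q182

open Cardinal

/-- d-independent (abelian) topological groups: the group is non-trivial and every subgroup `S` of
cardinality less than the continuum meets some countable dense subgroup `D` only in `0`. -/
def DIndependent (G : Type) [AddCommGroup G] [TopologicalSpace G] : Prop :=
  Nontrivial G ∧ ∀ S : AddSubgroup G, #S < 𝔠 →
    ∃ D : AddSubgroup G, Countable D ∧ Dense (D : Set G) ∧ S ⊓ D = ⊥

end Q182
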