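import Mathlib
import Pool.Agent.Q182.DIDefs

/-!
# The transfinite construction
-/

namespace Q182.DI

open Cardinal Set

/-- Transfinite recursion with a local property. -/
lemma exists_rec {T β : Type} [LinearOrder T] [WellFoundedLT T] [Inhabited β]
    (P : T → (T → β) → β → Prop) (h1 : ∀ τ g, ∃ b, P τ g b)
    (h2 : ∀ τ g g' b, (∀ σ < τ, g σ = g' σ) → P τ g b → P τ g' b) :
    ∃ f : T → β, ∀ τ, P τ f (f τ) := by
  classical
  choose F hF using h1
  let f : T → β := (wellFounded_lt (α := T)).fix fun τ rec =>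
    F τ fun σ => if h : σ < τ then rec σ h else default
  have hf : ∀ τ, f τ = F τ fun σ => if h : σ < τ then f σ else default := fun τ =>
    (wellFounded_lt (α := T)).fix_eq _ τ
  refine ⟨f, fun τ => ?_⟩
  refine h2 τ (fun σ => if h : σ < τ then f σ else default) f (f τ) (fun σ hσ => dif_pos hσ) ?_
  have h3 := hF τ fun σ => if h : σ < τ then f σ else default
  rw [← hf τ] at h3
  exact h3

/-! ### Spaces with a family of functionals -/

section general

variable {V : Type} [AddCommGroup V] [Module (ZMod 2) V] {J : Type} (f : J → V →ₗ[ZMod 2] ZMod 2)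

/-- The evaluation map. -/
def ev : V →+ (J → ZMod 2) where
  toFun v j := f j v
  map_zero' := by
    funext j
    exact map_zero (f j)
  map_add' x y := by
    funext j
    exact map_add (f j) x y

/-- The topology defined by the functionals. -/
@[implicit_reducible] def fTop : TopologicalSpace V := TopologicalSpace.induced (ev f) inferInstance

lemma fTop_group : @IsTopologicalAddGroup V (fTop f) _ := topologicalAddGroup_induced (ev f)

lemma mem_nhds_fTop {x : V} {U : Set V} : U ∈ @nhds V (fTop f) x ↔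
    ∃ F : Finset J, ∀ y, (∀ j ∈ F, f j y = f j x) → y ∈ U := by
  have h1 : @nhds V (fTop f) x = Filter.comap (ev f) (nhds (ev f x)) := nhds_induced (ev f) x
  rw [h1, Filter.mem_comap]
  constructor
  · rintro ⟨W, hW, hWU⟩
    rw [nhds_pi, Filter.mem_pi] at hW
    obtain ⟨F, hF, t, ht, htW⟩ := hW
    refine ⟨hF.toFinset, fun y hy => hWU (htW ?_)⟩
    intro j hj
    have h2 : f j y = f j x := hy j (hF.mem_toFinset.2 hj)
    show f j y ∈ t j
    rw [h2]
    exact mem_of_mem_nhds (ht j)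
  · rintro ⟨F, hF⟩
    refine ⟨{z | ∀ j ∈ F, z j = f j x}, ?_, fun y hy => hF y hy⟩
    have h2 : {z : J → ZMod 2 | ∀ j ∈ F, z j = f j x} = ⋂ j ∈ F, {z | z j = f j x} := by
      ext z
      simp
    rw [h2]
    refine (Filter.biInter_finset_mem F).2 fun j _ => ?_
    have h3 : {z : J → ZMod 2 | z j = f j x} = (fun z : J → ZMod 2 => z j) ⁻¹' {f j x} := rfl
    rw [h3]
    exact (continuous_apply j).continuousAt.preimage_mem_nhds
      ((isOpen_discrete _).mem_nhds rfl)

/-- Linear combinations of the functionals. -/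
noncomputable def A : (J →₀ ZMod 2) →ₗ[ZMod 2] (V →ₗ[ZMod 2] ZMod 2) :=
  Finsupp.linearCombination (ZMod 2) f

lemma A_apply (a : J →₀ ZMod 2) (v : V) : A f a v = a.sum fun j c => c * f j v := by
  unfold A
  rw [Finsupp.linearCombination_apply, Finsupp.sum, LinearMap.sum_apply]
  rfl

lemma exists_coeff (F : Finset J) (φ : (F → ZMod 2) →ₗ[ZMod 2] ZMod 2) :
    ∃ a : J →₀ ZMod 2, (∀ v, A f a v = φ fun j => f j v) ∧ (a = 0 → φ = 0) := by
  classical
  have hφ : ∀ z : F → ZMod 2, φ z = ∑ j, z j * φ (Pi.single j 1) := fun z => by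
    rw [LinearMap.pi_apply_eq_sum_univ φ z]
    refine Finset.sum_congr rfl fun j _ => ?_
    rw [smul_eq_mul]
    congr 2
    funext i
    rw [Pi.single_apply]
    simp only [eq_comm]
  refine ⟨Finsupp.onFinset F (fun j => if h : j ∈ F then φ (Pi.single ⟨j, h⟩ 1) else 0)
    fun j hj => by
      by_contra hcon
      exact hj (dif_neg hcon), fun v => ?_, fun h => ?_⟩
  · rw [A_apply, hφ, Finsupp.onFinset_sum _ (fun _ => zero_mul _), ← Finset.sum_coe_sort F]
    refine Finset.sum_congr rfl fun j _ => ?_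
    rw [dif_pos j.2, mul_comm]
  · ext z
    have h1 : ∀ j : F, φ (Pi.single j 1) = 0 := by
      intro j
      have h2 := DFunLike.congr_fun h (j : J)
      rw [Finsupp.onFinset_apply, dif_pos j.2] at h2
      exact h2
    exact h1 z

lemma dense_pair (E : Submodule (ZMod 2) (V × V))
    (h : ∀ a b : J →₀ ZMod 2, (a ≠ 0 ∨ b ≠ 0) → ∃ p ∈ E, A f a p.1 + A f b p.2 ≠ 0) :
    @Dense (V × V) (@instTopologicalSpaceProd V V (fTop f) (fTop f)) (E : Set (V × V)) := by
  let _ := fTop f
  intro x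
  rw [mem_closure_iff_nhds]
  intro U hU
  obtain ⟨U₁, hU₁, U₂, hU₂, hU12⟩ := mem_nhds_prod_iff.1 hU
  obtain ⟨F₁, hF₁⟩ := (mem_nhds_fTop f).1 hU₁
  obtain ⟨F₂, hF₂⟩ := (mem_nhds_fTop f).1 hU₂
  classical
  set F := F₁ ∪ F₂ with hF
  let L : V →ₗ[ZMod 2] (F → ZMod 2) := LinearMap.pi fun j => f j
  let LL : V × V →ₗ[ZMod 2] (F → ZMod 2) × (F → ZMod 2) := L.prodMap L
  have htop : E.map LL = ⊤ := by
    by_contra hcon
    obtain ⟨φ, hφ0, hφ⟩ := Submodule.exists_le_ker_of_lt_top _ (lt_top_iff_ne_top.2 hcon)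
    obtain ⟨a, ha1, ha2⟩ := exists_coeff f F (φ.comp (LinearMap.inl _ _ _))
    obtain ⟨b, hb1, hb2⟩ := exists_coeff f F (φ.comp (LinearMap.inr _ _ _))
    have hab : a ≠ 0 ∨ b ≠ 0 := by
      by_contra hcon2
      push Not at hcon2
      apply hφ0
      apply LinearMap.prod_ext
      · rw [ha2 hcon2.1, LinearMap.zero_comp]
      · rw [hb2 hcon2.2, LinearMap.zero_comp]
    obtain ⟨p, hpE, hp⟩ := h a b hab
    apply hp
    rw [ha1, hb1]
    have h1 : φ (LL p) = 0 := hφ ⟨p, hpE, rfl⟩
    have h2 : LL p = ((fun j : F => f j p.1), (0 : F → ZMod 2)) +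
        ((0 : F → ZMod 2), (fun j : F => f j p.2)) := by
      rw [Prod.mk_add_mk, add_zero, zero_add]
      rfl
    rw [h2, map_add] at h1
    exact h1
  have hx : LL x ∈ E.map LL := by
    rw [htop]
    trivial
  obtain ⟨p, hpE, hp⟩ := hx
  refine ⟨p, hU12 ⟨hF₁ p.1 fun j hj => ?_, hF₂ p.2 fun j hj => ?_⟩, hpE⟩
  · have := congrFun (congrArg Prod.fst hp) ⟨j, Finset.mem_union_left _ hj⟩
    exact this
  · have := congrFun (congrArg Prod.snd hp) ⟨j, Finset.mem_union_right _ hj⟩
    exact this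

end general

end Q182.DI
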