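import Mathlib
import Pool.Agent.Q182.DICore

/-!
# The group and the family of characters
-/

namespace Q182.DI

open Cardinal Set

abbrev D0 : Type := ℕ →₀ ZMod 2

abbrev WW : Type := (ℝ × Fin 3 × ℕ) →₀ ZMod 2

/-- The underlying Boolean group. -/
abbrev G : Type := D0 × WW

abbrev T : Type := (𝔠 : Cardinal.{0}).ord.ToType

noncomputable def e (n : ℕ) : G := (Finsupp.single n 1, 0)

noncomputable def v (α : ℝ) (i : Fin 3) (n : ℕ) : G := (0, Finsupp.single (α, i, n) 1)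

/-! ### Cardinalities -/

lemma card_WW : #WW = 𝔠 := by
  rw [mk_finsupp_of_infinite, mk_prod, mk_prod]
  simp only [mk_real, lift_id, mk_fin, mk_nat]
  rw [mul_eq_right (a := ((3 : ℕ) : Cardinal)) le_rfl (natCast_lt_aleph0 (n := 3)).le (by norm_num),
    continuum_mul_aleph0, max_eq_left]
  exact (lt_aleph0_of_finite (ZMod 2)).le.trans aleph0_le_continuum

lemma card_D0 : #D0 = ℵ₀ := by
  rw [mk_finsupp_of_infinite]
  simp

lemma card_G : #G = 𝔠 := by
  rw [mk_prod, card_D0, card_WW]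
  simp

lemma card_enum : #((ℕ → G) × D0) = 𝔠 := by
  rw [mk_prod, mk_arrow, card_D0, card_G]
  simp

lemma exists_enum : ∃ s : T → (ℕ → G) × D0, Function.Surjective s := by
  have h : #((ℕ → G) × D0) ≤ #T := by
    rw [card_enum, mk_ord_toType]
  obtain ⟨g⟩ := h
  exact ⟨Function.invFun g, Function.invFun_surjective g.injective⟩

lemma card_K (τ : T) : #(Finsupp.supported (ZMod 2) (ZMod 2) (Iio τ)) < 𝔠 := by
  rw [mk_congr (Finsupp.supportedEquivFinsupp (M := ZMod 2) (R := ZMod 2) (Iio τ)).toEquiv]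
  have h1 : #(Iio τ) < 𝔠 := by
    have := mk_Iio_lt τ (by simp)
    rwa [mk_ord_toType] at this
  rcases finite_or_infinite (Iio τ) with h | h
  · have : Finite (Iio τ →₀ ZMod 2) := Finite.of_injective _ DFunLike.coe_injective
    exact (lt_aleph0_of_finite _).trans aleph0_lt_continuum
  · rw [mk_finsupp_of_infinite]
    exact max_lt h1 ((lt_aleph0_of_finite _).trans aleph0_lt_continuum)

lemma avoid {K : Type} (hK : #K < 𝔠) (F : K → ℕ → ZMod 2) {d : D0} (hd : d ≠ 0) :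
    ∃ x : ℕ → ZMod 2, Finsupp.linearCombination (ZMod 2) x d = 1 ∧ ∀ k, x ≠ F k := by
  classical
  obtain ⟨n₀, hn₀⟩ := Finsupp.ne_iff.1 hd
  obtain ⟨N, hN⟩ : ∃ N : ℕ, ∀ n ∈ d.support, n < N := by
    refine ⟨d.support.sup id + 1, fun n hn => ?_⟩
    have := Finset.le_sup (f := id) hn
    exact Nat.lt_succ_of_le this
  let X : (ℕ → ZMod 2) → ℕ → ZMod 2 := fun z n => if n < N then (if n = n₀ then 1 else 0) else z (n - N)
  have hX1 : ∀ z, Finsupp.linearCombination (ZMod 2) (X z) d = 1 := by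
    intro z
    rw [Finsupp.linearCombination_apply, Finsupp.sum]
    have h1 : ∀ n ∈ d.support, d n • X z n = if n = n₀ then d n₀ else 0 := by
      intro n hn
      show d n • (if n < N then (if n = n₀ then (1 : ZMod 2) else 0) else z (n - N)) = _
      rw [if_pos (hN n hn)]
      split_ifs with h
      · rw [h, smul_eq_mul, mul_one]
      · rw [smul_zero]
    rw [Finset.sum_congr rfl h1, Finset.sum_ite_eq' d.support n₀ (fun _ => d n₀),
      if_pos (Finsupp.mem_support_iff.2 hn₀)]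
    have h2 : ∀ c : ZMod 2, c ≠ 0 → c = 1 := by decide
    exact h2 _ hn₀
  have hX2 : Function.Injective X := by
    intro z z' h
    funext n
    have := congrFun h (n + N)
    simpa [X] using this
  by_contra hcon
  push Not at hcon
  have h3 : ∀ z, ∃ k, X z = F k := fun z => hcon (X z) (hX1 z)
  choose k hk using h3
  have hkinj : Function.Injective k := by
    intro z z' h
    apply hX2
    rw [hk, hk, h]
  have h4 := mk_le_of_injective hkinj
  have h5 : #(ℕ → ZMod 2) = 𝔠 := by simp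
  rw [h5] at h4
  exact absurd hK (not_lt.2 h4)

/-! ### The requirements -/

/-- The coordinates occurring in a sequence. -/
def C (s : ℕ → G) : Set ℝ := {α | ∃ k i n, (s k).2 (α, i, n) ≠ 0}

lemma countable_C (s : ℕ → G) : (C s).Countable := by
  have h : C s ⊆ ⋃ k, (fun p : ℝ × Fin 3 × ℕ => p.1) '' ((s k).2.support : Set (ℝ × Fin 3 × ℕ)) := by
    rintro α ⟨k, i, n, h⟩
    exact mem_iUnion.2 ⟨k, (α, i, n), Finsupp.mem_support_iff.2 h, rfl⟩
  exact (countable_iUnion fun k => (Finset.countable_toSet _).image _).mono h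

open Classical in
/-- The chosen linear map. -/
noncomputable def φ (s : ℕ → G) : WW →ₗ[ZMod 2] D0 :=
  if h : ∃ φ : WW →ₗ[ZMod 2] D0, ∀ k, (s k).1 = φ (s k).2 then h.choose else 0

lemma φ_spec {s : ℕ → G} (h : ∃ φ : WW →ₗ[ZMod 2] D0, ∀ k, (s k).1 = φ (s k).2) (k : ℕ) :
    (s k).1 = φ s (s k).2 := by
  unfold φ
  rw [dif_pos h]
  exact h.choose_spec k

abbrev Sup (τ : T) : Submodule (ZMod 2) (T →₀ ZMod 2) := Finsupp.supported (ZMod 2) (ZMod 2) (Iio τ)

/-- The requirement at a stage. -/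
def P (en : T → (ℕ → G) × D0) (τ : T) (f : T → G →ₗ[ZMod 2] ZMod 2) (g : G →ₗ[ZMod 2] ZMod 2) :
    Prop :=
  ((en τ).2 ≠ 0 → g ((en τ).2, 0) = 1) ∧
  (∀ α ∈ C (en τ).1, ∀ i n, g (v α i n) = g (φ (en τ).1 (Finsupp.single (α, i, n) 1), 0)) ∧
  (∀ α ∈ C (en τ).1, ∀ i, ∀ a ∈ Sup τ, ∀ b ∈ Sup τ, ¬ ∀ n, g (e n) = A f a (e n) + A f b (v α i n)) ∧
  (∀ α ∉ C (en τ).1, ∀ i, ∀ a ∈ Sup τ, ∀ b ∈ Sup τ,
    (¬ ∀ n, g (v α i n) = A f a (e n) + A f b (v α i n)) ∧
    (¬ ∀ n, g (v α i n) = A f a (e n) + A f b (v α i n) + g (e n)))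

lemma A_congr {f f' : T → G →ₗ[ZMod 2] ZMod 2} {τ : T} (h : ∀ σ < τ, f σ = f' σ) {a : T →₀ ZMod 2}
    (ha : a ∈ Sup τ) : A f a = A f' a := by
  unfold A
  rw [Finsupp.linearCombination_apply, Finsupp.linearCombination_apply]
  refine Finsupp.sum_congr fun σ hσ => ?_
  rw [h σ ((Finsupp.mem_supported _ _).1 ha hσ)]

lemma P_local (en : T → (ℕ → G) × D0) (τ : T) (f f' : T → G →ₗ[ZMod 2] ZMod 2)
    (g : G →ₗ[ZMod 2] ZMod 2) (h : ∀ σ < τ, f σ = f' σ) (hP : P en τ f g) : P en τ f' g := by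
  obtain ⟨h1, h2, h3, h4⟩ := hP
  refine ⟨h1, h2, fun α hα i a ha b hb => ?_, fun α hα i a ha b hb => ?_⟩
  · rw [← A_congr h ha, ← A_congr h hb]
    exact h3 α hα i a ha b hb
  · rw [← A_congr h ha, ← A_congr h hb]
    exact h4 α hα i a ha b hb

lemma P_exists (en : T → (ℕ → G) × D0) (τ : T) (f : T → G →ₗ[ZMod 2] ZMod 2) :
    ∃ g, P en τ f g := by
  classical
  set s := (en τ).1 with hs
  have hC := (countable_C s).to_subtype
  have hKc := card_K τ
  have h3 : #(Fin 3) < 𝔠 := (lt_aleph0_of_finite _).trans aleph0_lt_continuum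
  have hC2 : #(C s) < 𝔠 := (mk_le_aleph0_iff.2 hC).trans_lt aleph0_lt_continuum
  have hcard : #(C s × Fin 3 × Sup τ × Sup τ) < 𝔠 := by
    simp only [mk_prod, lift_id]
    exact mul_lt_of_lt aleph0_le_continuum hC2 (mul_lt_of_lt aleph0_le_continuum h3
      (mul_lt_of_lt aleph0_le_continuum hKc hKc))
  have hcard2 : #(Sup τ × Sup τ × Bool) < 𝔠 := by
    simp only [mk_prod, lift_id]
    exact mul_lt_of_lt aleph0_le_continuum hKc (mul_lt_of_lt aleph0_le_continuum hKc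
      ((lt_aleph0_of_finite _).trans aleph0_lt_continuum))
  obtain ⟨d, hd1, hd2⟩ : ∃ d : D0, d ≠ 0 ∧ ((en τ).2 ≠ 0 → d = (en τ).2) := by
    by_cases h : (en τ).2 = 0
    · exact ⟨Finsupp.single 0 1, by simp, fun h' => absurd h h'⟩
    · exact ⟨_, h, fun _ => rfl⟩
  obtain ⟨x, hx1, hx2⟩ := avoid hcard (fun k n => A f k.2.2.1.1 (e n) +
    A f k.2.2.2.1 (v k.1.1 k.2.1 n)) hd1
  have hz : ∀ (α : ℝ) (i : Fin 3), ∃ z : ℕ → ZMod 2, ∀ k : Sup τ × Sup τ × Bool,
      z ≠ fun n => A f k.1.1 (e n) + A f k.2.1.1 (v α i n) + if k.2.2 then x n else 0 := by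
    intro α i
    obtain ⟨z, -, hz⟩ := avoid hcard2 (fun k n => A f k.1.1 (e n) + A f k.2.1.1 (v α i n) +
      if k.2.2 then x n else 0) hd1
    exact ⟨z, hz⟩
  choose z hz using hz
  let y : ℝ × Fin 3 × ℕ → ZMod 2 := fun p => if p.1 ∈ C s then
    Finsupp.linearCombination (ZMod 2) x (φ s (Finsupp.single p 1)) else z p.1 p.2.1 p.2.2
  let g : G →ₗ[ZMod 2] ZMod 2 := (Finsupp.linearCombination (ZMod 2) x).coprod
    (Finsupp.linearCombination (ZMod 2) y)
  have hg1 : ∀ d : D0, g (d, 0) = Finsupp.linearCombination (ZMod 2) x d := by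
    intro d
    simp [g]
  have hge : ∀ n, g (e n) = x n := by
    intro n
    unfold e
    rw [hg1, Finsupp.linearCombination_single, one_smul]
  have hgv : ∀ α i n, g (v α i n) = y (α, i, n) := by
    intro α i n
    simp [g, v]
  refine ⟨g, fun h => ?_, fun α hα i n => ?_, fun α hα i a ha b hb h => ?_,
    fun α hα i a ha b hb => ⟨fun h => ?_, fun h => ?_⟩⟩
  · rw [hg1, ← hd2 h]
    exact hx1
  · rw [hgv, hg1]
    exact if_pos hα
  · apply hx2 (⟨α, hα⟩, i, ⟨a, ha⟩, ⟨b, hb⟩)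
    funext n
    rw [← hge]
    exact h n
  · apply hz α i (⟨a, ha⟩, ⟨b, hb⟩, false)
    funext n
    have h1 := h n
    rw [hgv] at h1
    have h2 : y (α, i, n) = z α i n := if_neg hα
    rw [← h2, h1]
    simp
  · apply hz α i (⟨a, ha⟩, ⟨b, hb⟩, true)
    funext n
    have h1 := h n
    rw [hgv, hge] at h1
    have h2 : y (α, i, n) = z α i n := if_neg hα
    rw [← h2, h1]
    simp

/-- The family of characters. -/
theorem exists_family : ∃ (en : T → (ℕ → G) × D0) (f : T → G →ₗ[ZMod 2] ZMod 2),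
    Function.Surjective en ∧ ∀ τ, P en τ f (f τ) := by
  obtain ⟨en, hen⟩ := exists_enum
  obtain ⟨f, hf⟩ := exists_rec (P en) (P_exists en) (P_local en)
  exact ⟨en, f, hen, hf⟩

end Q182.DI
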