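import Mathlib
import Pool.Agent.Q182.DIMain

/-!
# The square is d-independent, the group is not
-/

namespace Q182.DI

open Cardinal Set

noncomputable def vv (α : ℝ) (i : Fin 3) : D0 →ₗ[ZMod 2] WW :=
  Finsupp.lmapDomain (ZMod 2) (ZMod 2) fun n => (α, i, n)

lemma vv_single (α : ℝ) (i : Fin 3) (n : ℕ) (c : ZMod 2) :
    vv α i (Finsupp.single n c) = Finsupp.single (α, i, n) c := Finsupp.mapDomain_single

lemma vv_same (α : ℝ) (i : Fin 3) (n : ℕ) (c : D0) : vv α i c (α, i, n) = c n := by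
  have hinj : Function.Injective fun n : ℕ => ((α, i, n) : ℝ × Fin 3 × ℕ) := by
    intro n m h
    simpa using h
  exact Finsupp.mapDomain_apply hinj c n

lemma vv_ne {α β : ℝ} {i j : Fin 3} (h : α ≠ β ∨ i ≠ j) (n : ℕ) (c : D0) :
    vv α i c (β, j, n) = 0 := by
  refine Finsupp.mapDomain_of_notMem_range c _ ?_
  rintro ⟨m, hm⟩
  simp only [Prod.mk.injEq] at hm
  rcases h with h | h
  · exact h hm.1
  · exact h hm.2.1

/-- The parametrization of the dense subgroup. -/
noncomputable def Ψ (α : ℝ) : (D0 × D0 × D0) →ₗ[ZMod 2] G × G where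
  toFun c := ((c.1, vv α 1 c.2.1 + vv α 2 c.2.2), (c.2.1 + c.2.2, vv α 0 c.1 + vv α 2 c.2.2))
  map_add' c c' := by
    simp only [Prod.fst_add, Prod.snd_add, map_add, Prod.mk_add_mk]
    congr 2 <;> abel
  map_smul' r c := by
    simp only [Prod.smul_fst, Prod.smul_snd, map_smul, RingHom.id_apply, Prod.smul_mk, smul_add]

noncomputable def EE (α : ℝ) : Submodule (ZMod 2) (G × G) := LinearMap.range (Ψ α)

lemma mem1 (α : ℝ) (n : ℕ) : (e n, v α 0 n) ∈ EE α := by
  refine ⟨(Finsupp.single n 1, 0, 0), ?_⟩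
  simp [Ψ, e, v, vv_single]

lemma mem2 (α : ℝ) (n : ℕ) : (v α 1 n, e n) ∈ EE α := by
  refine ⟨(0, Finsupp.single n 1, 0), ?_⟩
  simp [Ψ, e, v, vv_single]

lemma mem3 (α : ℝ) (n : ℕ) : (v α 2 n, e n + v α 2 n) ∈ EE α := by
  refine ⟨(0, 0, Finsupp.single n 1), ?_⟩
  simp [Ψ, e, v, vv_single]

lemma EE_inter {α β : ℝ} (h : α ≠ β) {p : G × G} (h1 : p ∈ EE α) (h2 : p ∈ EE β) : p = 0 := by
  obtain ⟨c, rfl⟩ := h1
  obtain ⟨c', hc'⟩ := h2
  have e1 : ∀ i n, (vv α 1 c.2.1 + vv α 2 c.2.2) (α, i, n) = 0 := by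
    intro i n
    have : (Ψ α c).1.2 (α, i, n) = (Ψ β c').1.2 (α, i, n) := by rw [hc']
    refine this.trans ?_
    show (vv β 1 c'.2.1 + vv β 2 c'.2.2) (α, i, n) = 0
    rw [Finsupp.add_apply, vv_ne (Or.inl h.symm), vv_ne (Or.inl h.symm), add_zero]
  have e2 : ∀ i n, (vv α 0 c.1 + vv α 2 c.2.2) (α, i, n) = 0 := by
    intro i n
    have : (Ψ α c).2.2 (α, i, n) = (Ψ β c').2.2 (α, i, n) := by rw [hc']
    refine this.trans ?_
    show (vv β 0 c'.1 + vv β 2 c'.2.2) (α, i, n) = 0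
    rw [Finsupp.add_apply, vv_ne (Or.inl h.symm), vv_ne (Or.inl h.symm), add_zero]
  have hc1 : c.2.1 = 0 := by
    ext n
    have := e1 1 n
    rw [Finsupp.add_apply, vv_same, vv_ne (Or.inr (by decide)), add_zero] at this
    exact this
  have hc2 : c.2.2 = 0 := by
    ext n
    have := e1 2 n
    rw [Finsupp.add_apply, vv_same, vv_ne (Or.inr (by decide)), zero_add] at this
    exact this
  have hc0 : c.1 = 0 := by
    ext n
    have := e2 0 n
    rw [Finsupp.add_apply, vv_same, vv_ne (Or.inr (by decide)), add_zero] at this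
    exact this
  have hc : c = 0 := Prod.ext hc0 (Prod.ext hc1 hc2)
  rw [hc, map_zero]

lemma decomp (a : T →₀ ZMod 2) (τ : T) (h : ∀ σ ∈ a.support, σ ≤ τ) :
    ∃ a' ∈ Sup τ, a = a' + Finsupp.single τ (a τ) := by
  refine ⟨a.erase τ, ?_, (Finsupp.erase_add_single τ a).symm⟩
  rw [Finsupp.mem_supported]
  intro σ hσ
  rw [Finset.mem_coe, Finsupp.support_erase, Finset.mem_erase] at hσ
  exact lt_of_le_of_ne (h σ hσ.2) hσ.1

lemma z1 : ∀ A g B : ZMod 2, A + g + B = 0 → g = A + B := by decide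

lemma z2 : ∀ A B g : ZMod 2, A + (B + g) = 0 → g = B + A := by decide

lemma z3 : ∀ A g B x C : ZMod 2, A + g + (B + x) + (C + g) = 0 → x = B + (A + C) := by decide

lemma z4 : ∀ A g B : ZMod 2, A + g + B = 0 → g = B + A := by decide

lemma z5 : ∀ A B g : ZMod 2, A + (B + g) = 0 → g = A + B := by decide

lemma z6 : ∀ A x B g : ZMod 2, A + x + (B + g) = 0 → g = A + B + x := by decide

lemma z7 : ∀ c : ZMod 2, c = 0 ∨ c = 1 := by decide

theorem separates {en : T → (ℕ → G) × D0} {f : T → G →ₗ[ZMod 2] ZMod 2}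
    (hP : ∀ τ, P en τ f (f τ)) (α : ℝ) (a b : T →₀ ZMod 2) (hab : a ≠ 0 ∨ b ≠ 0) :
    ∃ p ∈ EE α, A f a p.1 + A f b p.2 ≠ 0 := by
  classical
  by_contra hcon
  push Not at hcon
  have H1 : ∀ n, A f a (e n) + A f b (v α 0 n) = 0 := fun n => hcon _ (mem1 α n)
  have H2 : ∀ n, A f a (v α 1 n) + A f b (e n) = 0 := fun n => hcon _ (mem2 α n)
  have H3 : ∀ n, A f a (v α 2 n) + (A f b (e n) + A f b (v α 2 n)) = 0 := fun n => by
    have := hcon _ (mem3 α n)
    rwa [map_add] at this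
  have hne : (a.support ∪ b.support).Nonempty := by
    rcases hab with h | h
    · obtain ⟨σ, hσ⟩ := Finsupp.support_nonempty_iff.2 h
      exact ⟨σ, Finset.mem_union_left _ hσ⟩
    · obtain ⟨σ, hσ⟩ := Finsupp.support_nonempty_iff.2 h
      exact ⟨σ, Finset.mem_union_right _ hσ⟩
  set τ := (a.support ∪ b.support).max' hne with hτ
  have hmem : τ ∈ a.support ∪ b.support := Finset.max'_mem _ _
  obtain ⟨a', ha', ha⟩ := decomp a τ fun σ hσ => Finset.le_max' _ _ (Finset.mem_union_left _ hσ)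
  obtain ⟨b', hb', hb⟩ := decomp b τ fun σ hσ => Finset.le_max' _ _ (Finset.mem_union_right _ hσ)
  have hA : ∀ x, A f a x = A f a' x + a τ * f τ x := by
    intro x
    conv_lhs => rw [ha, map_add]
    unfold A
    rw [LinearMap.add_apply, Finsupp.linearCombination_single, LinearMap.smul_apply, smul_eq_mul]
  have hB : ∀ x, A f b x = A f b' x + b τ * f τ x := by
    intro x
    conv_lhs => rw [hb, map_add]
    unfold A
    rw [LinearMap.add_apply, Finsupp.linearCombination_single, LinearMap.smul_apply, smul_eq_mul]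
  obtain ⟨-, -, hT, hU⟩ := hP τ
  have hnz : ¬ (a τ = 0 ∧ b τ = 0) := by
    rintro ⟨h1, h2⟩
    rcases Finset.mem_union.1 hmem with h | h
    · exact Finsupp.mem_support_iff.1 h h1
    · exact Finsupp.mem_support_iff.1 h h2
  rcases z7 (a τ) with ha0 | ha0 <;> rcases z7 (b τ) with hb0 | hb0
  · exact hnz ⟨ha0, hb0⟩
  · -- (0, 1)
    simp only [hA, hB, ha0, hb0, zero_mul, add_zero, one_mul] at H1 H2
    by_cases hα : α ∈ C (en τ).1
    · exact hT α hα 1 b' hb' a' ha' fun n => z2 _ _ _ (H2 n)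
    · exact (hU α hα 0 a' ha' b' hb').1 fun n => z5 _ _ _ (H1 n)
  · -- (1, 0)
    simp only [hA, hB, ha0, hb0, zero_mul, add_zero, one_mul] at H1 H2
    by_cases hα : α ∈ C (en τ).1
    · exact hT α hα 0 a' ha' b' hb' fun n => z1 _ _ _ (H1 n)
    · exact (hU α hα 1 b' hb' a' ha').1 fun n => z4 _ _ _ (H2 n)
  · -- (1, 1)
    simp only [hA, hB, ha0, hb0, one_mul] at H1 H3
    by_cases hα : α ∈ C (en τ).1
    · refine hT α hα 2 b' hb' (a' + b') (Submodule.add_mem _ ha' hb') fun n => ?_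
      rw [map_add, LinearMap.add_apply]
      refine z3 _ (f τ (v α 2 n)) _ _ _ ?_
      rw [← H3 n]
      ring
    · exact (hU α hα 0 a' ha' b' hb').2 fun n => z6 _ _ _ _ (H1 n)

lemma lin_eq (F : WW →ₗ[ZMod 2] ZMod 2) (w : WW) :
    F w = w.sum fun j c => c * F (Finsupp.single j 1) := by
  conv_lhs => rw [← Finsupp.sum_single w]
  rw [map_finsuppSum]
  refine Finsupp.sum_congr fun j _ => ?_
  rw [← smul_eq_mul, ← map_smul, Finsupp.smul_single_one]

lemma key {en : T → (ℕ → G) × D0} {f : T → G →ₗ[ZMod 2] ZMod 2}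
    (hP : ∀ τ, P en τ f (f τ)) (τ : T) {w : WW} (hw : ∃ k, ((en τ).1 k).2 = w) :
    f τ (0, w) = f τ (φ (en τ).1 w, 0) := by
  obtain ⟨-, h2, -, -⟩ := hP τ
  obtain ⟨k, rfl⟩ := hw
  have h3 := lin_eq ((f τ).comp (LinearMap.inr (ZMod 2) D0 WW)) ((en τ).1 k).2
  have h4 := lin_eq ((f τ).comp ((LinearMap.inl (ZMod 2) D0 WW).comp (φ (en τ).1)))
    ((en τ).1 k).2
  have h5 : f τ (0, ((en τ).1 k).2) = (f τ).comp (LinearMap.inr (ZMod 2) D0 WW) ((en τ).1 k).2 := rfl
  have h6 : f τ (φ (en τ).1 ((en τ).1 k).2, 0) =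
    (f τ).comp ((LinearMap.inl (ZMod 2) D0 WW).comp (φ (en τ).1)) ((en τ).1 k).2 := rfl
  rw [h5, h6, h3, h4]
  refine Finsupp.sum_congr fun j hj => ?_
  congr 1
  exact h2 j.1 ⟨k, j.2.1, j.2.2, Finsupp.mem_support_iff.1 hj⟩ j.2.1 j.2.2

lemma split (g : G →ₗ[ZMod 2] ZMod 2) (x : G) : g x = g (x.1, 0) + g (0, x.2) := by
  rw [← map_add]
  congr 1
  ext <;> simp

theorem main : ∃ f : T → G →ₗ[ZMod 2] ZMod 2, @T2Space G (fTop f) ∧
    @DIndependent (G × G) _ (@instTopologicalSpaceProd G G (fTop f) (fTop f)) ∧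
    ¬ @DIndependent G _ (fTop f) := by
  obtain ⟨en, f, hen, hP⟩ := exists_family
  refine ⟨f, ?_, ?_, ?_⟩
  · -- Hausdorff
    have hinj : Function.Injective (ev f) := by
      rw [injective_iff_map_eq_zero]
      intro g hg
      by_contra hne
      have hg' : ∀ τ, f τ g = 0 := fun τ => congrFun hg τ
      by_cases hw : g.2 = 0
      · have hd : g.1 ≠ 0 := fun h => hne (Prod.ext h hw)
        obtain ⟨τ, hτ⟩ := hen (fun _ => 0, g.1)
        have h1 := (hP τ).1
        rw [hτ] at h1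
        have h2 := h1 hd
        have h3 : ((g.1, 0) : G) = g := Prod.ext rfl hw.symm
        have h4 := hg' τ
        rw [← h3] at h4
        have h5 : (0 : ZMod 2) = 1 := h4.symm.trans h2
        exact absurd h5 (by decide)
      · set d : D0 := g.1 + Finsupp.single 0 1 with hd
        obtain ⟨τ, hτ⟩ := hen (fun _ => (d, g.2), Finsupp.single 0 1)
        have h1 := (hP τ).1
        have h2 := key hP τ (w := g.2) ⟨0, by rw [hτ]⟩
        rw [hτ] at h1 h2
        have h3 : d = φ (fun _ => (d, g.2)) g.2 := by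
          refine φ_spec (s := fun _ => (d, g.2)) ?_ 0
          obtain ⟨j, hj⟩ := Finsupp.ne_iff.1 hw
          have hj1 : g.2 j = 1 := (z7 (g.2 j)).resolve_left hj
          refine ⟨(Finsupp.lapply j).smulRight d, fun k => ?_⟩
          rw [LinearMap.smulRight_apply, Finsupp.lapply_apply, hj1, one_smul]
        have h4 : f τ (Finsupp.single 0 1, 0) = 1 := h1 (by simp)
        have h5 := hg' τ
        have h6 : f τ (0, g.2) = f τ (φ (fun _ => (d, g.2)) g.2, 0) := h2
        rw [← h3] at h6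
        rw [split, h6, ← map_add] at h5
        have h7 : ((g.1, 0) : G) + (d, 0) = (Finsupp.single 0 1, 0) := by
          rw [hd, Prod.mk_add_mk, add_zero, ← add_assoc]
          have : g.1 + g.1 = 0 := by
            ext n
            rw [Finsupp.add_apply]
            exact CharTwo.add_self_eq_zero _
          rw [this, zero_add]
        rw [h7, h4] at h5
        exact absurd h5 (by decide)
    exact @T2Space.of_injective_continuous G (T → ZMod 2) (fTop f) _ _ (ev f) hinj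
      continuous_induced_dom
  · -- the square
    refine ⟨inferInstance, fun S hS => ?_⟩
    have hex : ∃ α : ℝ, ∀ p ∈ S, p ∈ EE α → p = 0 := by
      by_contra hcon
      push Not at hcon
      choose p hp1 hp2 hp3 using hcon
      have hinj : Function.Injective fun α => (⟨p α, hp1 α⟩ : S) := by
        intro α β h
        by_contra hne
        have h1 : p α = p β := congrArg Subtype.val h
        exact hp3 α (EE_inter hne (hp2 α) (h1 ▸ hp2 β))
      have := mk_le_of_injective hinj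
      rw [mk_real] at this
      exact absurd hS (not_lt.2 this)
    obtain ⟨α, hα⟩ := hex
    refine ⟨(EE α).toAddSubgroup, ?_, ?_, ?_⟩
    · have h1 : Function.Surjective (Ψ α).rangeRestrict := (Ψ α).surjective_rangeRestrict
      exact h1.countable
    · exact dense_pair f (EE α) (separates hP α)
    · rw [eq_bot_iff]
      rintro p ⟨hp1, hp2⟩
      exact hα p hp1 hp2
  · -- the group
    rintro ⟨-, h⟩
    have hSc : Countable (AddMonoidHom.snd D0 WW).ker := by
      have : Function.Injective fun p : (AddMonoidHom.snd D0 WW).ker => (p : G).1 := by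
        rintro ⟨p, hp⟩ ⟨q, hq⟩ hpq
        apply Subtype.ext
        refine Prod.ext hpq ?_
        have h1 : p.2 = 0 := hp
        have h2 : q.2 = 0 := hq
        show p.2 = q.2
        rw [h1, h2]
      exact this.countable
    obtain ⟨D, hDc, hDd, hDS⟩ := h (AddMonoidHom.snd D0 WW).ker
      ((mk_le_aleph0_iff.2 hSc).trans_lt aleph0_lt_continuum)
    obtain ⟨s', hs'⟩ := exists_surjective_nat D
    set s : ℕ → G := fun k => s' k with hs
    have hφ : ∃ φ : WW →ₗ[ZMod 2] D0, ∀ k, (s k).1 = φ (s k).2 := by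
      let D' : Submodule (ZMod 2) G := AddSubgroup.toZModSubmodule 2 D
      let L : D' →ₗ[ZMod 2] WW := (LinearMap.snd (ZMod 2) D0 WW).comp D'.subtype
      have hL : LinearMap.ker L = ⊥ := by
        rw [LinearMap.ker_eq_bot']
        rintro ⟨p, hp⟩ h1
        have h2 : p ∈ (AddMonoidHom.snd D0 WW).ker ⊓ D := ⟨h1, hp⟩
        rw [hDS] at h2
        apply Subtype.ext
        exact h2
      obtain ⟨ρ, hρ⟩ := L.exists_leftInverse_of_injective hL
      refine ⟨(LinearMap.fst (ZMod 2) D0 WW).comp (D'.subtype.comp ρ), fun k => ?_⟩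
      have h1 : ρ (s k).2 = ⟨s k, (s' k).2⟩ := LinearMap.congr_fun hρ (⟨s k, (s' k).2⟩ : D')
      show (s k).1 = ((ρ (s k).2 : D') : G).1
      rw [h1]
    obtain ⟨τ, hτ⟩ := hen (s, Finsupp.single 0 1)
    have hkill : ∀ g ∈ D, f τ g = 0 := by
      intro g hg
      obtain ⟨k, hk⟩ := hs' ⟨g, hg⟩
      have hk' : s k = g := congrArg Subtype.val hk
      have h2 := key hP τ (w := g.2) ⟨k, by rw [hτ, ← hk']⟩
      rw [hτ] at h2
      have h3 : g.1 = φ s g.2 := by
        rw [← hk']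
        exact φ_spec hφ k
      rw [split, h2]
      show f τ (g.1, 0) + f τ (φ s g.2, 0) = 0
      rw [← h3]
      exact CharTwo.add_self_eq_zero _
    have h1 := (hP τ).1
    rw [hτ] at h1
    have h4 : f τ (Finsupp.single 0 1, 0) = 1 := h1 (by simp)
    have h5 : {y : G | f τ y = f τ (Finsupp.single 0 1, 0)} ∈
        @nhds G (fTop f) (Finsupp.single 0 1, 0) :=
      (mem_nhds_fTop f).2 ⟨{τ}, fun y hy => hy τ (Finset.mem_singleton_self τ)⟩
    obtain ⟨g, hg1, hg2⟩ := (@mem_closure_iff_nhds G (fTop f) _ _).1 (hDd _) _ h5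
    have h6 : f τ g = f τ (Finsupp.single 0 1, 0) := hg1
    rw [hkill g hg2, h4] at h6
    exact absurd h6 (by decide)

end Q182.DI
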