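import Pool.Agent.Q127.DJ.Stm

set_option autoImplicit false

/-!
# Job DJ-ONE of helper127 (helper182)
-/

namespace Pool.Agent.Q182.DJ_ONE

open Pool.Agent.Q127.DJ MeasureTheory Filter Topology

theorem meas_set {m : ℕ} (f : ℕ → Fin m) (a : Fin m) (s : ℕ) :
    MeasurableSet {x : ℕ → ℕ | f (x s) = a} := by
  have h1 : Measurable (fun x : ℕ → ℕ => f (x s)) :=
    (measurable_from_top (f := f)).comp (measurable_pi_apply s)
  exact h1 (measurableSet_singleton a)

theorem I_meas {m : ℕ} (f : ℕ → Fin m) (a : Fin m) (s : ℕ) : Measurable (I f a s) := by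
  unfold I
  exact Measurable.ite (meas_set f a s) measurable_const measurable_const

theorem I_BM {m : ℕ} (f : ℕ → Fin m) (a : Fin m) (s : ℕ) : BM 1 (I f a s) := by
  refine ⟨I_meas f a s, fun x => ?_⟩
  unfold I
  split_ifs <;> simp

theorem iter_apply (s n : ℕ) (x : ℕ → ℕ) : (S^[s] x) n = x (n + s) := by
  induction s generalizing x with
  | zero => rfl
  | succ s ih =>
    rw [Function.iterate_succ_apply, ih]
    show x (n + s + 1) = x (n + (s + 1))
    rfl

theorem I_int (μ : Measure (ℕ → ℕ)) [IsProbabilityMeasure μ] (hμ : MeasurePreserving S μ μ) {m : ℕ}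
    (f : ℕ → Fin m) (a : Fin m) (s : ℕ) : ∫ x, I f a s x ∂μ = μ.real {x | f (x 0) = a} := by
  have h1 : MeasurePreserving S^[s] μ μ := hμ.iterate s
  have h2 : ∀ x, I f a s x = I f a 0 (S^[s] x) := by
    intro x
    unfold I
    rw [iter_apply, zero_add]
  have h3 : ∫ x, I f a s x ∂μ = ∫ x, I f a 0 x ∂μ := by
    calc ∫ x, I f a s x ∂μ = ∫ x, I f a 0 (S^[s] x) ∂μ := by simp_rw [h2]
      _ = ∫ x, I f a 0 x ∂(μ.map S^[s]) := by
          rw [integral_map h1.measurable.aemeasurable (I_meas f a 0).aestronglyMeasurable]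
      _ = ∫ x, I f a 0 x ∂μ := by rw [h1.map_eq]
  rw [h3]
  have h4 : (I f a 0) = Set.indicator {x : ℕ → ℕ | f (x 0) = a} (fun _ => (1 : ℝ)) := by
    funext x
    unfold I
    rw [Set.indicator_apply]
    rfl
  rw [h4, integral_indicator (meas_set f a 0)]
  simp [Measure.real]

theorem A_le (h1 : S_inn) (μ : Measure (ℕ → ℕ)) [IsProbabilityMeasure μ] {m : ℕ} (f : ℕ → Fin m) (a : Fin m)
    (t k : ℕ) : |A μ f a t k| ≤ 1 := by
  have h2 := (h1 μ m f a t).2.1.2
  have h3 := (I_BM f a (t + k)).2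
  have h4 : ‖∫ x, g μ f a t x * I f a (t + k) x ∂μ‖ ≤ 1 * μ.real Set.univ := by
    apply norm_integral_le_of_norm_le_const
    refine Eventually.of_forall fun x => ?_
    rw [Real.norm_eq_abs, abs_mul]
    have h5 := h2 x
    have h6 := h3 x
    calc |g μ f a t x| * |I f a (t + k) x| ≤ 1 * 1 :=
          mul_le_mul h5 h6 (abs_nonneg _) zero_le_one
      _ = 1 := one_mul 1
  simpa [A] using h4

theorem I_dep {m : ℕ} (f : ℕ → Fin m) (a : Fin m) (s t : ℕ) (hst : s < t) : Dep f t (I f a s) := by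
  intro x y hxy
  have h1 := congrFun hxy ⟨s, hst⟩
  unfold nm at h1
  unfold I
  simp only at h1
  rw [h1]

theorem one (h1 : S_inn) (h2 : S_expa) (h3 : S_sqs) (h4 : S_avg) (h5 : S_joi) (h6 : S_qme) : S_one := by
  intro μ ν _ _ hμ hν m k f h a b α β j hα hβ hτ
  obtain ⟨T, hT⟩ := h4 (A μ f a) (A ν h b) α β j (A_le h1 μ f a) (A_le h1 ν h b) hα hβ
    (h3 μ m f a α hα) (h3 ν k h b β hβ)
  set τ : ℝ := ∑' i, α i * β (i + j) with hτdef
  have hτpos : 0 < |τ| := abs_pos.2 hτ
  set ε : ℝ := min 1 (|τ| / 2) with hε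
  have hε0 : 0 < ε := lt_min one_pos (half_pos hτpos)
  have hε1 : ε ≤ 1 := min_le_left _ _
  have hε2 : ε < |τ| := lt_of_le_of_lt (min_le_right _ _) (half_lt_self hτpos)
  choose Q hQ1 hQ2 hQ3 using fun N : ℕ =>
    h6 μ ν m k f h a b ε (T N) (T N + N + j + 1) hε0.le hε1
  set P : ℝ := μ.real {x | f (x 0) = a} * ν.real {y | h (y 0) = b} with hP
  -- the main estimate for a single term
  have key : ∀ N i : ℕ, i < N →
      |(Q N).real {p | f (p.1 (T N + i)) = a ∧ h (p.2 (T N + i + j)) = b} -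
        (P + ε * ∑ t ∈ Finset.Ico (T N) (T N + i + 1),
          A μ f a t (T N + i - t) * A ν h b t (T N + i - t + j))| ≤ ε ^ 2 := by
    intro N i hi
    have e1 := h2 μ ν m k f h a b ε (T N) (T N + N + j + 1) (I f a (T N + i)) (I h b (T N + i + j))
      hε0.le hε1 (I_BM f a _) (I_BM h b _)
    rw [← hQ3 N (T N + i) (T N + i + j), I_int μ hμ, I_int ν hν, ← hP] at e1
    have e2 : ∑ t ∈ Finset.Ico (T N) (T N + N + j + 1),
        (∫ x, g μ f a t x * I f a (T N + i) x ∂μ) * (∫ y, g ν h b t y * I h b (T N + i + j) y ∂ν) =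
        ∑ t ∈ Finset.Ico (T N) (T N + i + 1),
          A μ f a t (T N + i - t) * A ν h b t (T N + i - t + j) := by
      rw [← Finset.sum_Ico_consecutive _ (show T N ≤ T N + i + 1 by omega)
        (show T N + i + 1 ≤ T N + N + j + 1 by omega)]
      have e3 : ∑ t ∈ Finset.Ico (T N + i + 1) (T N + N + j + 1),
          (∫ x, g μ f a t x * I f a (T N + i) x ∂μ) *
            (∫ y, g ν h b t y * I h b (T N + i + j) y ∂ν) = 0 := by
        refine Finset.sum_eq_zero fun t ht => ?_
        rw [Finset.mem_Ico] at ht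
        have e4 := (h1 μ m f a t).2.2.1 1 (I f a (T N + i)) (I_BM f a _)
          (I_dep f a (T N + i) t (by omega))
        have e5 : ∫ x, g μ f a t x * I f a (T N + i) x ∂μ = 0 := by
          rw [← e4]
          exact integral_congr_ae (Eventually.of_forall fun x => mul_comm _ _)
        rw [e5, zero_mul]
      rw [e3, add_zero]
      refine Finset.sum_congr rfl fun t ht => ?_
      rw [Finset.mem_Ico] at ht
      unfold A
      rw [show t + (T N + i - t) = T N + i by omega, show t + (T N + i - t + j) = T N + i + j by omega]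
    rw [e2] at e1
    rw [← sub_sub]
    exact e1
  obtain ⟨ξ, hξ1, hξ2, hξ3, hξ4, hξ5⟩ := h5 μ ν hμ hν m k f h a b j Q T (P + ε * τ) (ε ^ 2)
    (fun N => P + ε * ((∑ i ∈ Finset.range N, ∑ t ∈ Finset.Ico (T N) (T N + i + 1),
      A μ f a t (T N + i - t) * A ν h b t (T N + i - t + j)) / (N : ℝ)))
    (fun N => ⟨hQ1 N, hQ2 N⟩) ((hT.const_mul ε).const_add P) (by
      intro N hN
      have hN0 : (0 : ℝ) < N := Nat.cast_pos.2 hN
      have e1 : (∑ i ∈ Finset.range N,
          (Q N).real {p | f (p.1 (T N + i)) = a ∧ h (p.2 (T N + i + j)) = b}) / (N : ℝ) -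
          (P + ε * ((∑ i ∈ Finset.range N, ∑ t ∈ Finset.Ico (T N) (T N + i + 1),
            A μ f a t (T N + i - t) * A ν h b t (T N + i - t + j)) / (N : ℝ))) =
          (∑ i ∈ Finset.range N,
            ((Q N).real {p | f (p.1 (T N + i)) = a ∧ h (p.2 (T N + i + j)) = b} -
            (P + ε * ∑ t ∈ Finset.Ico (T N) (T N + i + 1),
              A μ f a t (T N + i - t) * A ν h b t (T N + i - t + j)))) / (N : ℝ) := by
        rw [Finset.sum_sub_distrib, Finset.sum_add_distrib, Finset.sum_const, Finset.card_range,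
          ← Finset.mul_sum, nsmul_eq_mul]
        field_simp
      rw [e1, abs_div, abs_of_pos hN0, div_le_iff₀ hN0]
      calc |∑ i ∈ Finset.range N,
            ((Q N).real {p | f (p.1 (T N + i)) = a ∧ h (p.2 (T N + i + j)) = b} -
            (P + ε * ∑ t ∈ Finset.Ico (T N) (T N + i + 1),
              A μ f a t (T N + i - t) * A ν h b t (T N + i - t + j)))| ≤
          ∑ i ∈ Finset.range N, ε ^ 2 :=
            (Finset.abs_sum_le_sum_abs _ _).trans
              (Finset.sum_le_sum fun i hi => key N i (Finset.mem_range.1 hi))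
        _ = ε ^ 2 * N := by
            rw [Finset.sum_const, Finset.card_range, nsmul_eq_mul, mul_comm])
  refine ⟨ξ, hξ1, hξ2, hξ3, hξ4, fun hcon => ?_⟩
  rw [hcon] at hξ5
  have e2 : P - (P + ε * τ) = -(ε * τ) := by ring
  rw [e2, abs_neg, abs_mul, abs_of_pos hε0] at hξ5
  have e3 : ε ^ 2 < ε * |τ| := by
    rw [sq]
    exact mul_lt_mul_of_pos_left hε2 hε0
  linarith

end Pool.Agent.Q182.DJ_ONE
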