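import Pool.Agent.Q182.DeCyl

/-!
# Trees with virtually abelian edge stabilizers
-/

set_option autoImplicit false

namespace Q182.De

open SimpleGraph
open Pool.Agent.Helper270.Tree
open Pool.Agent.Y110.FJ (ClosedE)
open Pool.Agent.Y462.SS (Closed)
open Q182.Cyl (ClosedA Est InfOrd CorF VcEdges cyl cyls fam_cyls infinite_inf infinite_of_le Est_smul
  Est_comm self_mem_cyl)
open Q182.Hv (KK mem_KK conj_KK)
open Subgroup (Commensurable)
open Subgroup.Commensurable (commensurator commensurator_mem_iff)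
open scoped Pointwise commutatorElement

variable {C : ∀ (G : Type) [Group G], Prop} {G V : Type} [Group G] [MulAction G V]
  {T : SimpleGraph V}

omit [MulAction G V] in
theorem KK_congr {H H' : Subgroup G} (h : Commensurable H H') : KK H = KK H' := by
  ext g
  rw [mem_KK, mem_KK]
  exact ⟨fun h1 => Subgroup.relIndex_ne_zero_trans h1 h.1,
    fun h1 => Subgroup.relIndex_ne_zero_trans h1 h.2⟩

omit [MulAction G V] in
theorem KK_sub {H M : Subgroup G} (hHM : H ≤ M) (m : M) : m ∈ KK (H.subgroupOf M) ↔ (m : G) ∈ KK H := by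
  rw [mem_KK, mem_KK]
  have h1 : Subgroup.centralizer {m} = (Subgroup.centralizer {(m : G)}).subgroupOf M := by
    ext k
    rw [Subgroup.mem_subgroupOf, Subgroup.mem_centralizer_iff, Subgroup.mem_centralizer_iff]
    constructor
    · intro h y hy
      rw [Set.mem_singleton_iff.1 hy]
      exact congrArg Subtype.val (h m rfl)
    · intro h y hy
      rw [Set.mem_singleton_iff.1 hy]
      exact Subtype.ext (h _ rfl)
  rw [h1, Subgroup.relIndex_subgroupOf hHM]

/-- the condition on the infinite edge stabilizers -/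
def AbE (C : ∀ (G : Type) [Group G], Prop) (G : Type) [Group G] [MulAction G V] (v w : V) :
    Prop :=
  (∃ H : Subgroup G, H ≤ Est G v w ∧ H.relIndex (Est G v w) ≠ 0 ∧
    (∀ a ∈ H, ∀ b ∈ H, a * b = b * a) ∧ ∀ a ∈ H, a ≠ 1 → InfOrd a) ∧
  (∀ z ∈ Est G v w, z ∈ ⁅KK (Est G v w) ⊓ MulAction.stabilizer G v,
    KK (Est G v w) ⊓ MulAction.stabilizer G v⁆ → ∃ n : ℕ, 0 < n ∧ z ^ n = 1) ∧
  ∃ (Q : Type) (_ : Group Q) (ρ : ↥(MulAction.stabilizer G v ⊓ commensurator (Est G v w)) →* Q),
    C Q ∧ ∀ g, ρ g = 1 ↔ (g : G) ∈ KK (Est G v w)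

/-- **trees with virtually abelian edge stabilizers** -/
theorem ab_main (hC : ClosedA C) (hmet : ∀ (G : Type) [Group G], derivedSeries G 2 = ⊥ → C G)
    (hT : TreeAct G T) (hcf : CorF G T) (hst : ∀ v : V, C (MulAction.stabilizer G v))
    (hab : ∀ v w : V, T.Adj v w → Infinite (Est G v w) → AbE C G v w) : C G := by
  refine reduce hC hT hcf hst ?_
  intro v w hvw hinf M Y act hD
  obtain ⟨⟨H, hHE, hHi, hHab, hHtf⟩, _⟩ := hab v w hvw hinf
  have hHM : H ≤ M := hHE.trans hD.le
  have hcomH : Commensurable H (Est G v w) :=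
    ⟨hHi, by rw [Subgroup.relIndex_eq_one.2 hHE]; exact one_ne_zero⟩
  have hKH : KK H = KK (Est G v w) := KK_congr hcomH
  let Mf : Y → Subgroup M := fun x => (KK H ⊓ MulAction.stabilizer G x.1).subgroupOf M
  have hsx : ∀ (k : M) (x : Y), k • x = x ↔ (k : G) • x.1 = x.1 := by
    intro k x
    rw [← hD.smul]
    exact ⟨fun h => by rw [h], fun h => Subtype.ext h⟩
  have hMf : ∀ (k : M) (x : Y), k ∈ Mf x ↔ (k : G) ∈ KK H ∧ k • x = x := by
    intro k x
    rw [hsx]
    exact Iff.rfl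
  have hinfY : ∀ x y : Y, (T.induce Y).Adj x y → Infinite (Est G x.1 y.1) := fun x y h =>
    infinite_of_le inf_le_right (infinite_inf (hD.com x y h) hinf)
  have hcomY : ∀ x y : Y, (T.induce Y).Adj x y → Commensurable H (Est G x.1 y.1) := fun x y h =>
    hcomH.trans (hD.com x y h)
  have hcommu : ∀ x : Y, ∀ m ∈ ⁅Mf x, Mf x⁆, (m : G) ∈ ⁅KK H ⊓ MulAction.stabilizer G x.1,
      KK H ⊓ MulAction.stabilizer G x.1⁆ := by
    intro x m hm
    have h4 : (m : G) ∈ (⁅Mf x, Mf x⁆).map M.subtype := ⟨_, hm, rfl⟩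
    rw [Subgroup.map_commutator] at h4
    have h5 : (Mf x).map M.subtype ≤ KK H ⊓ MulAction.stabilizer G x.1 := by
      rintro _ ⟨l, hl, rfl⟩
      exact hl
    exact Subgroup.commutator_mono h5 h5 h4
  have hF : Fam (T.induce Y) (H.subgroupOf M) Mf := by
    refine ⟨hD.tree, hD.nb, ?_, ?_, ?_, ?_, ?_, ?_, ?_, ?_⟩
    · intro a ha b hb
      exact Subtype.ext (hHab a ha b hb)
    · intro a ha hne n hn h
      exact hHtf a ha (fun h1 => hne (Subtype.ext h1)) n hn (congrArg Subtype.val h)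
    · intro x y hxy
      have h1 := hcomY x y hxy
      rw [Est_data hD]
      refine ⟨?_, ?_⟩
      · rw [Subgroup.relIndex_subgroupOf (Est_le_data hD hxy)]
        exact h1.1
      · rw [Subgroup.relIndex_subgroupOf hHM]
        exact h1.2
    · intro g x m hm
      rw [hMf] at hm ⊢
      refine ⟨?_, ?_⟩
      · refine conj_KK (H := H) (g := (g : G)) ?_ hm.1
        have h1 := (hD.mem (g : G)).1 g.2
        exact ((hcomH.conj (ConjAct.toConjAct (g : G))).trans h1).trans hcomH.symm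
      · rw [mul_smul, mul_smul, inv_smul_smul, hm.2]
    · intro x m hm
      rw [KK_sub hHM]
      exact ((hMf m x).1 hm).1
    · intro x m hm
      exact ((hMf m x).1 hm).2
    · intro x y hxy m hm hx hy
      rw [KK_sub hHM] at hm
      exact (hMf m x).2 ⟨hm, hx⟩
    · intro x h hh hh2
      obtain ⟨y, hxy⟩ := hD.nb x
      have h1 := hcommu x h hh2
      obtain ⟨j, hj, _, h2⟩ := Subgroup.exists_pow_mem_of_relIndex_ne_zero (hcomY x y hxy).2
        (show (h : G) ∈ H from hh)
      have h3 := (Subgroup.mem_inf.1 h2).1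
      obtain ⟨_, h4, _⟩ := hab x.1 y.1 hxy (hinfY x y hxy)
      rw [← KK_congr (hcomY x y hxy)] at h4
      obtain ⟨n, hn, h5⟩ := h4 _ h3 (Subgroup.pow_mem _ h1 j)
      by_contra hne
      rw [← pow_mul] at h5
      exact hHtf h hh (fun h6 => hne (Subtype.ext h6)) _ (Nat.mul_pos hj hn) h5
  have hN : (MM Mf).Normal := normal_MM hF
  have hstM := st_data hD hC hst
  refine main hC hmet hF hstM ?_
  intro x
  obtain ⟨y, hxy⟩ := hD.nb x
  obtain ⟨_, _, Q, _, ρ, hQ, hρ⟩ := hab x.1 y.1 hxy (hinfY x y hxy)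
  refine quo_mem hC hmet hF hstM _ ((MM Mf).subgroupOf _) rfl ?_
  let S : Subgroup M := MulAction.stabilizer M x
  have hSG : ∀ k : S, ((k : M) : G) ∈ MulAction.stabilizer G x.1 ⊓ commensurator (Est G x.1 y.1) := by
    intro k
    have h1 : ((k : M) : G) ∈ commensurator (Est G x.1 y.1) := by
      rw [← Subgroup.Commensurable.eq (hD.com x y hxy), commensurator_mem_iff]
      exact (hD.mem _).1 k.1.2
    exact ⟨(hsx k.1 x).1 k.2, h1⟩
  let f : S →* Q := ρ.comp (MonoidHom.mk' (fun k : S =>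
    (⟨((k : M) : G), hSG k⟩ : ↥(MulAction.stabilizer G x.1 ⊓ commensurator (Est G x.1 y.1))))
      (fun _ _ => rfl))
  have hker : (MM Mf).subgroupOf S = f.ker := by
    ext k
    rw [Subgroup.mem_subgroupOf, MonoidHom.mem_ker]
    have h1 : f k = 1 ↔ ((k : M) : G) ∈ KK (Est G x.1 y.1) := hρ _
    rw [h1, ← KK_congr (hcomY x y hxy)]
    constructor
    · intro h
      exact ((hMf _ _).1 (mem_Mf hF h k.2)).1
    · intro h
      exact mem_MM ((hMf _ _).2 ⟨h, k.2⟩)
  have h1 : C (S ⧸ (MM Mf).subgroupOf S) := by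
    let e1 := QuotientGroup.quotientMulEquivOfEq hker
    exact hC.base.base.of_injective _ _ ((QuotientGroup.kerLift f).comp e1.toMonoidHom)
      ((QuotientGroup.kerLift_injective f).comp e1.injective) hQ
  let e := QuotientGroup.quotientInfEquivProdNormalQuotient S (MM Mf)
  exact hC.base.base.of_injective _ _ e.symm.toMonoidHom e.symm.injective h1

end Q182.De
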