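import Pool.Agent.Q182.DeCyl

/-!
# Linear vertex groups: a criterion for powers of an element to survive in the abelianization of
the centralizers of its powers
-/

set_option autoImplicit false

namespace Q182.De

open Polynomial
open scoped commutatorElement
open Q182.Cyl (InfOrd)

section lin

variable {K : Type} [Field K]

/-- factors of a polynomial whose roots are roots of unity -/
theorem prod_dvd (s : Multiset K) (h : ∀ μ ∈ s, ∃ k : ℕ, 0 < k ∧ μ ^ k = 1) :
    ∃ k : ℕ, 0 < k ∧ (s.map (fun a => (X - C a : K[X]))).prod ∣ ((X ^ k - 1 : K[X])) ^ s.card := by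
  induction s using Multiset.induction_on with
  | empty => exact ⟨1, one_pos, by simp⟩
  | cons a s ih =>
    obtain ⟨k, hk, h1⟩ := ih (fun μ hμ => h μ (Multiset.mem_cons_of_mem hμ))
    obtain ⟨j, hj, h2⟩ := h a (Multiset.mem_cons_self a s)
    refine ⟨j * k, Nat.mul_pos hj hk, ?_⟩
    rw [Multiset.map_cons, Multiset.prod_cons, Multiset.card_cons, pow_succ']
    refine mul_dvd_mul ?_ (h1.trans (pow_dvd_pow_of_dvd ?_ _))
    · rw [dvd_iff_isRoot]
      simp [pow_mul, h2]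
    · rw [mul_comm j, pow_mul]
      exact sub_one_dvd_pow_sub_one _ _

/-- a matrix no power of which is unipotent has an eigenvalue which is not a root of unity -/
theorem exists_root [IsAlgClosed K] {n : ℕ} (A : Matrix (Fin n) (Fin n) K)
    (h : ∀ k : ℕ, 0 < k → ¬ IsNilpotent (A ^ k - 1)) :
    ∃ μ : K, A.charpoly.IsRoot μ ∧ ∀ k : ℕ, 0 < k → μ ^ k ≠ 1 := by
  by_contra hcon
  push Not at hcon
  have hne : A.charpoly ≠ 0 := A.charpoly_monic.ne_zero
  obtain ⟨k, hk, h1⟩ := prod_dvd A.charpoly.roots (fun μ hμ => hcon μ ((mem_roots hne).1 hμ))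
  have h2 : A.charpoly = (A.charpoly.roots.map (fun a => (X - C a : K[X]))).prod :=
    (IsAlgClosed.splits A.charpoly).eq_prod_roots_of_monic A.charpoly_monic
  rw [← h2] at h1
  obtain ⟨q, hq⟩ := h1
  refine h k hk ⟨A.charpoly.roots.card, ?_⟩
  have h3 := congrArg (aeval A) hq
  rw [map_mul, Matrix.aeval_self_charpoly, zero_mul, map_pow, map_sub, map_pow, aeval_X,
    map_one] at h3
  exact h3

/-- the determinant on an eigenspace of a central element -/
theorem exists_char {S : Type} [Group S] {n : ℕ} (ρ : S →* Matrix (Fin n) (Fin n) K) (ζ : S)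
    (hc : ∀ g : S, g * ζ = ζ * g) (μ : K) (hμ : (ρ ζ).charpoly.IsRoot μ) :
    ∃ (χ : S →* K) (d : ℕ), 0 < d ∧ χ ζ = μ ^ d := by
  obtain ⟨f, hf⟩ : ∃ f : S →* Module.End K (Fin n → K),
      f = (Matrix.toLinAlgEquiv' (R := K) (n := Fin n)).toAlgHom.toRingHom.toMonoidHom.comp ρ := ⟨_, rfl⟩
  have hev : Module.End.HasEigenvalue (f ζ) μ := by
    have h1 : f ζ = Matrix.toLin' (ρ ζ) := by rw [hf]; rfl
    rw [h1, Module.End.hasEigenvalue_iff_isRoot_charpoly, Matrix.charpoly_toLin']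
    exact hμ
  obtain ⟨E, hE⟩ : ∃ E : Submodule K (Fin n → K), E = Module.End.eigenspace (f ζ) μ := ⟨_, rfl⟩
  have hinv : ∀ g : S, ∀ x ∈ E, f g x ∈ E := by
    intro g x hx
    rw [hE, Module.End.mem_eigenspace_iff] at hx ⊢
    have h1 : f ζ (f g x) = f g (f ζ x) := by
      have h2 : f (ζ * g) = f (g * ζ) := by rw [hc]
      rw [map_mul, map_mul] at h2
      exact congrArg (fun u : Module.End K (Fin n → K) => u x) h2
    rw [h1, hx, map_smul]
  have hne : Nontrivial E := by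
    rw [Submodule.nontrivial_iff_ne_bot, hE]
    exact hev
  let r : S →* Module.End K E :=
    { toFun := fun g => (f g).restrict (hinv g)
      map_one' := by
        ext x
        simp [LinearMap.restrict_apply]
      map_mul' := by
        intro a b
        ext x
        simp [LinearMap.restrict_apply] }
  refine ⟨LinearMap.det.comp r, Module.finrank K E, Module.finrank_pos, ?_⟩
  have h1 : r ζ = μ • (1 : Module.End K E) := by
    ext x
    have h2 : f ζ x.1 = μ • x.1 := by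
      have h3 : x.1 ∈ Module.End.eigenspace (f ζ) μ := hE.le x.2
      rw [Module.End.mem_eigenspace_iff] at h3
      exact h3
    show (((f ζ).restrict (hinv ζ) x : E) : Fin n → K) _ = _
    rw [LinearMap.restrict_apply]
    show f ζ x.1 _ = _
    rw [h2]
    rfl
  show LinearMap.det (r ζ) = _
  rw [h1, LinearMap.det_smul, map_one, mul_one]

end lin

section grp

variable {G V : Type} [Group G] [MulAction G V]

/-- the elements of a vertex stabilizer which commute with the `N`-th power of `z` -/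
def CN (z : G) (x : V) (N : ℕ) : Subgroup G :=
  Subgroup.centralizer {z ^ N} ⊓ MulAction.stabilizer G x

theorem mem_CN {z : G} {x : V} {N : ℕ} {g : G} :
    g ∈ CN z x N ↔ g * z ^ N = z ^ N * g ∧ g • x = x := by
  unfold CN
  rw [Subgroup.mem_inf, Subgroup.mem_centralizer_iff]
  constructor
  · rintro ⟨h1, h2⟩
    exact ⟨(h1 _ rfl).symm, h2⟩
  · rintro ⟨h1, h2⟩
    refine ⟨?_, h2⟩
    intro y hy
    rw [Set.mem_singleton_iff.1 hy]
    exact h1.symm

theorem CN_le (z : G) (x : V) (N M : ℕ) : CN z x N ≤ CN z x (N * M) := by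
  intro g hg
  rw [mem_CN] at hg ⊢
  refine ⟨?_, hg.2⟩
  rw [pow_mul]
  exact ((show Commute g (z ^ N) from hg.1).pow_right M).eq

/-- the commutator subgroup of a directed union -/
theorem exists_CN {z : G} {x : V} {g : G} (hg : g ∈ ⁅Kz z x, Kz z x⁆) :
    ∃ N : ℕ, 0 < N ∧ g ∈ ⁅CN z x N, CN z x N⁆ := by
  have mono : ∀ N M : ℕ, ⁅CN z x N, CN z x N⁆ ≤ ⁅CN z x (N * M), CN z x (N * M)⁆ := fun N M =>
    Subgroup.commutator_mono (CN_le z x N M) (CN_le z x N M)
  let U : Subgroup G :=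
    { carrier := {g | ∃ N : ℕ, 0 < N ∧ g ∈ ⁅CN z x N, CN z x N⁆}
      one_mem' := ⟨1, one_pos, one_mem _⟩
      mul_mem' := by
        rintro a b ⟨N, hN, ha⟩ ⟨M, hM, hb⟩
        refine ⟨N * M, Nat.mul_pos hN hM, mul_mem (mono N M ha) ?_⟩
        rw [mul_comm N]
        exact mono M N hb
      inv_mem' := by
        rintro a ⟨N, hN, ha⟩
        exact ⟨N, hN, inv_mem ha⟩ }
  have h1 : ⁅Kz z x, Kz z x⁆ ≤ U := by
    rw [Subgroup.commutator_le]
    rintro a ⟨ha, i, hi, hai⟩ b ⟨hb, j, hj, hbj⟩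
    refine ⟨i * j, Nat.mul_pos hi hj, Subgroup.commutator_mem_commutator ?_ ?_⟩
    · exact CN_le z x i j (mem_CN.2 ⟨hai, ha⟩)
    · rw [mul_comm i]
      exact CN_le z x j i (mem_CN.2 ⟨hbj, hb⟩)
  exact h1 hg

theorem al_of_lin' {z : G} {x : V} (hz : z • x = x) {F : Type} [Field F] [IsAlgClosed F] {n : ℕ}
    (ρ : MulAction.stabilizer G x →* Matrix (Fin n) (Fin n) F)
    (h : ∀ k : ℕ, 0 < k → ¬ IsNilpotent (ρ ⟨z, hz⟩ ^ k - 1)) : Al z (Kz z x) := by
  intro m hm hmem
  obtain ⟨N, hN, h1⟩ := exists_CN hmem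
  have hρ' : ∀ k : ℕ, 0 < k → ¬ IsNilpotent (ρ (⟨z, hz⟩ ^ N) ^ k - 1) := by
    intro k hk hn
    rw [map_pow, ← pow_mul] at hn
    exact h (N * k) (Nat.mul_pos hN hk) hn
  obtain ⟨μ, hμ1, hμ2⟩ := exists_root _ hρ'
  -- the centralizer
  have hle : CN z x N ≤ MulAction.stabilizer G x := inf_le_right
  have hzC : z ∈ CN z x N := by
    rw [mem_CN]
    exact ⟨((Commute.refl z).pow_right N).eq, hz⟩
  obtain ⟨zc, hzc⟩ : ∃ zc : CN z x N, (zc : G) = z := ⟨⟨z, hzC⟩, rfl⟩
  have hcent : ∀ g : CN z x N, g * zc ^ N = zc ^ N * g := by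
    intro g
    apply Subtype.ext
    have h2 := (mem_CN.1 g.2).1
    rw [Subgroup.coe_mul, Subgroup.coe_mul, Subgroup.coe_pow, hzc]
    exact h2
  obtain ⟨ρ₁, hρ₁⟩ : ∃ ρ₁ : CN z x N →* Matrix (Fin n) (Fin n) F,
      ρ₁ = ρ.comp (Subgroup.inclusion hle) := ⟨_, rfl⟩
  have h2 : ρ₁ (zc ^ N) = ρ (⟨z, hz⟩ ^ N) := by
    rw [hρ₁, MonoidHom.comp_apply]
    congr 1
    apply Subtype.ext
    rw [Subgroup.coe_inclusion, Subgroup.coe_pow, Subgroup.coe_pow, hzc]
  obtain ⟨χ, d, hd, hχ⟩ := exists_char ρ₁ (zc ^ N) hcent μ (by rw [h2]; exact hμ1)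
  have h3 : (⁅CN z x N, CN z x N⁆ : Subgroup G) ≤ (χ.toHomUnits.ker).map (CN z x N).subtype := by
    rw [Subgroup.commutator_le]
    intro a ha b hb
    refine ⟨⁅(⟨a, ha⟩ : CN z x N), ⟨b, hb⟩⁆, ?_, rfl⟩
    show _ ∈ χ.toHomUnits.ker
    rw [MonoidHom.mem_ker, map_commutatorElement]
    exact commutatorElement_eq_one_iff_commute.2 (Commute.all _ _)
  obtain ⟨y, hy1, hy2⟩ := h3 h1
  have h4 : y = zc ^ m := Subtype.ext (by rw [Subgroup.coe_pow, hzc]; exact hy2)
  have h5 : χ y = 1 := by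
    have h6 : χ.toHomUnits y = 1 := hy1
    exact congrArg Units.val h6
  refine hμ2 (d * m) (Nat.mul_pos hd hm) ?_
  rw [pow_mul, ← hχ, ← map_pow, ← pow_mul, mul_comm N, pow_mul, ← h4, map_pow, h5, one_pow]

/-- **the linear criterion** -/
theorem al_of_lin {z : G} {x : V} (hz : z • x = x) {F : Type} [Field F] {n : ℕ}
    (ρ : MulAction.stabilizer G x →* Matrix (Fin n) (Fin n) F)
    (h : ∀ k : ℕ, 0 < k → ¬ IsNilpotent (ρ ⟨z, hz⟩ ^ k - 1)) : Al z (Kz z x) := by
  obtain ⟨b, hb⟩ : ∃ b : Matrix (Fin n) (Fin n) F →+* Matrix (Fin n) (Fin n) (AlgebraicClosure F),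
      b = RingHom.mapMatrix (algebraMap F (AlgebraicClosure F)) := ⟨_, rfl⟩
  have hinj : Function.Injective b := by
    rw [hb]
    exact Matrix.map_injective (algebraMap F (AlgebraicClosure F)).injective
  refine al_of_lin' hz (b.toMonoidHom.comp ρ) ?_
  rintro k hk ⟨j, hj⟩
  refine h k hk ⟨j, hinj ?_⟩
  rw [map_pow, map_sub, map_one, map_zero, map_pow]
  exact hj

/-- in positive characteristic elements of infinite order have non-nilpotent `z ^ k - 1` -/
theorem not_nilp {F : Type} [Field F] {p : ℕ} [Fact p.Prime] [CharP F p] {n : ℕ}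
    (A : Matrix (Fin n) (Fin n) F) (h : ∀ k : ℕ, 0 < k → A ^ k ≠ 1) (k : ℕ) (hk : 0 < k) :
    ¬ IsNilpotent (A ^ k - 1) := by
  rintro ⟨j, hj⟩
  have h0 : (A ^ k - 1) ^ p ^ j = A ^ (k * p ^ j) - 1 := by
    rcases Nat.eq_zero_or_pos n with rfl | hn
    · exact Subsingleton.elim _ _
    · have : Nonempty (Fin n) := ⟨⟨0, hn⟩⟩
      have : CharP (Matrix (Fin n) (Fin n) F) p := Matrix.charP p
      rw [pow_mul, sub_pow_char_pow_of_commute p _ (Commute.one_right (A ^ k)), one_pow]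
  have h1 : (A ^ k - 1) ^ p ^ j = 0 := by
    obtain ⟨c, hc⟩ := Nat.exists_eq_add_of_le
      (show j ≤ p ^ j from (Nat.lt_pow_self (Fact.out : p.Prime).one_lt).le)
    rw [hc, pow_add, hj, zero_mul]
  rw [h0, sub_eq_zero] at h1
  exact h _ (Nat.mul_pos hk (pow_pos (Fact.out : p.Prime).pos _)) h1

end grp

end Q182.De
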