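import Pool.Agent.Q182.DeCyc2
import Pool.Agent.Q182.DeLin

/-!
# Virtually cyclic edge stabilizers: the final statement
-/

set_option autoImplicit false

namespace Q182.De

open SimpleGraph
open Pool.Agent.Helper270.Tree
open Q182.Cyl (ClosedA Est InfOrd VcEdges)
open scoped commutatorElement

variable {G V : Type} [Group G] [MulAction G V] {T : SimpleGraph V}

/-- the vertex stabilizer of `v` has a finite-dimensional linear representation over a field for
which no positive power of `z` is unipotent, or, over a field of positive characteristic, for which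
the image of `z` has infinite order -/
def LinDet (z : G) (v : V) : Prop :=
  ∃ (hz : z • v = v) (F : Type) (_ : Field F) (n : ℕ)
    (ρ : MulAction.stabilizer G v →* Matrix (Fin n) (Fin n) F),
    (∀ k : ℕ, 0 < k → ¬ IsNilpotent (ρ ⟨z, hz⟩ ^ k - 1)) ∨
      (ringChar F ≠ 0 ∧ ∀ k : ℕ, 0 < k → ρ ⟨z, hz⟩ ^ k ≠ 1)

theorem al_of_linDet {z : G} {v : V} (h : LinDet z v) : Al z (Kz z v) := by
  obtain ⟨hz, F, iF, n, ρ, h | ⟨hp, h⟩⟩ := h
  · exact al_of_lin hz ρ h
  · have hprime : Fact (ringChar F).Prime := by
      refine ⟨?_⟩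
      rcases CharP.char_is_prime_or_zero F (ringChar F) with h1 | h1
      · exact h1
      · exact absurd h1 hp
    exact al_of_lin hz ρ (fun k hk => not_nilp (p := ringChar F) (ρ ⟨z, hz⟩) h k hk)

variable {C : ∀ (G : Type) [Group G], Prop}

/-- trees with virtually cyclic edge stabilizers -/
theorem vc_main (hC : ClosedA C) (hmet : ∀ (G : Type) [Group G], derivedSeries G 2 = ⊥ → C G)
    (hT : TreeAct G T) (hvc : VcEdges G T) (hst : ∀ v : V, C (MulAction.stabilizer G v))
    (hgood : ∀ v w : V, T.Adj v w → ∀ z ∈ Est G v w, InfOrd z →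
      (∀ g : G, Bal z g) ∨ Al z (Kz z v) ∨
        ((∀ g : G, g • v = v → Bal z g) ∧ Al z (NzG T z v)) ∨ LinDet z v) : C G := by
  refine cyl_main hC hmet hT hvc hst ?_
  intro v w hvw z hz hzi
  rcases hgood v w hvw z hz hzi with h | h | h | h
  · exact Or.inl h
  · exact Or.inr (Or.inl h)
  · exact Or.inr (Or.inr h)
  · exact Or.inr (Or.inl (al_of_linDet h))

end Q182.De
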