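import Pool.Agent.Q182.HvMain
import Pool.Agent.Q182.CsaCone

/-!
# Trees whose edge stabilizers are of finite index in their commensurators
-/

set_option autoImplicit false

namespace Q182.Hv

open SimpleGraph
open Pool.Agent.Helper270.Tree
open Pool.Agent.Y110.FJ (ClosedE)
open Pool.Agent.Y462.SS (Closed)
open Q182.Cyl (ClosedA Est InfOrd CorF VcEdges cyl cyls fam_cyls infinite_inf infinite_of_le Est_smul
  Est_comm self_mem_cyl)
open Subgroup (Commensurable)
open Subgroup.Commensurable (commensurator commensurator_mem_iff)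
open scoped Pointwise

variable {C : ∀ (G : Type) [Group G], Prop} {G V : Type} [Group G] [MulAction G V]
  {T : SimpleGraph V}

/-- the local version of the condition on commensurability -/
theorem corF_of_local (hT : TreeAct G T)
    (hloc : ∀ v w w' : V, T.Adj v w → T.Adj v w' → Commensurable (Est G v w) (Est G v w') ∨
      Finite ↥(Est G v w ⊓ Est G v w')) : CorF G T := by
  intro v w v' w' hvw hvw'
  by_cases hf : Finite ↥(Est G v w ⊓ Est G v' w')
  · exact Or.inr hf
  · left
    rw [not_finite_iff_infinite] at hf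
    obtain ⟨q, h0, hn, hadj, hd, _⟩ := exists_geod hT.isTree v v'
    have hfix : ∀ i ≤ T.dist v v', ∀ g ∈ Est G v w ⊓ Est G v' w', g • q i = q i := by
      intro i hi g hg
      obtain ⟨h1, h2⟩ := Subgroup.mem_inf.1 hg
      refine hT.convex h1.1 h2.1 ?_
      have := hd i hi
      omega
    have hstep : ∀ x y z : V, T.Adj x y → T.Adj x z → Est G v w ⊓ Est G v' w' ≤ Est G x y →
        Est G v w ⊓ Est G v' w' ≤ Est G x z → Commensurable (Est G x y) (Est G x z) := by
      intro x y z hxy hxz h1 h2
      rcases hloc x y z hxy hxz with h | h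
      · exact h
      · exfalso
        exact (not_finite_iff_infinite.2 (infinite_of_le (le_inf h1 h2) hf)) h
    -- along the path
    have hle : ∀ i, i + 1 ≤ T.dist v v' → Est G v w ⊓ Est G v' w' ≤ Est G (q i) (q (i + 1)) :=
      fun i hi g hg => ⟨hfix i (by omega) g hg, hfix (i + 1) hi g hg⟩
    have key : ∀ i ≤ T.dist v v', ∀ z, T.Adj (q i) z →
        Est G v w ⊓ Est G v' w' ≤ Est G (q i) z → Commensurable (Est G v w) (Est G (q i) z) := by
      intro i
      induction i with
      | zero =>
        intro _ z hz h1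
        rw [h0] at hz h1 ⊢
        exact hstep v w z hvw hz inf_le_left h1
      | succ i ih =>
        intro hi z hz h1
        have h2 := ih (by omega) (q (i + 1)) (hadj i (by omega)) (hle i hi)
        rw [Est_comm (q i) (q (i + 1))] at h2
        have h3 := hle i hi
        rw [Est_comm (q i) (q (i + 1))] at h3
        exact h2.trans (hstep (q (i + 1)) (q i) z (hadj i (by omega)).symm hz h3 h1)
    have h1 := key (T.dist v v') le_rfl w' (by rw [hn]; exact hvw') (by rw [hn]; exact inf_le_right)
    rwa [hn] at h1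

/-- infinite edge stabilizers are virtually torsion-free abelian and of finite index in their
commensurators in the vertex stabilizers -/
def ComE (G : Type) {V : Type} [Group G] [MulAction G V] (T : SimpleGraph V) : Prop :=
  ∀ v w : V, T.Adj v w → Infinite (Est G v w) →
    (∃ H : Subgroup G, H ≤ Est G v w ∧ H.relIndex (Est G v w) ≠ 0 ∧
      (∀ a ∈ H, ∀ b ∈ H, a * b = b * a) ∧ ∀ a ∈ H, a ≠ 1 → InfOrd a) ∧
    (Est G v w).relIndex (MulAction.stabilizer G v ⊓ commensurator (Est G v w)) ≠ 0

theorem mainU (hC : ClosedA C) (hmet : ∀ (G : Type) [Group G], derivedSeries G 2 = ⊥ → C G)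
    (hT : TreeAct G T) (hcf : CorF G T) (hE : ComE G T)
    (hst : ∀ v : V, C (MulAction.stabilizer G v)) : C G := by
  refine Q182.Cyl.main1 hC hT hcf hst ?_
  intro v w hvw hinf
  obtain ⟨⟨H, hHE, hHi, hHab, hHtf⟩, _⟩ := hE v w hvw hinf
  obtain ⟨M, hM⟩ : ∃ M : Subgroup G, M = commensurator (Est G v w) := ⟨_, rfl⟩
  obtain ⟨Y, hY⟩ : ∃ Y : Set V, Y = cyl T (Est G v w) := ⟨_, rfl⟩
  rw [← hM]
  have hYF : Y ∈ cyls G T := ⟨v, w, hvw, hinf, hY⟩
  have hF := fam_cyls hT hcf
  have hMY : ∀ m ∈ M, ∀ x ∈ Y, m • x ∈ Y := by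
    intro m hm x hx
    rw [hY] at hx ⊢
    obtain ⟨x', h1, h2⟩ := hx
    refine ⟨m • x', hT.adj m x x' h1, ?_⟩
    rw [hM, commensurator_mem_iff] at hm
    rw [Est_smul]
    exact hm.symm.trans (h2.conj (ConjAct.toConjAct m))
  let _ : MulAction M Y :=
    { smul := fun k x => ⟨(k : G) • x.1, hMY k k.2 x.1 x.2⟩
      one_smul := fun x => Subtype.ext (one_smul G x.1)
      mul_smul := fun a b x => Subtype.ext (mul_smul (a : G) (b : G) x.1) }
  have hsm : ∀ (k : M) (x : Y), ((k • x : Y) : V) = (k : G) • (x : V) := fun _ _ => rfl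
  have hTA : TreeAct M (T.induce Y) := by
    refine ⟨Q182.Csa.isTree_conv hT.isTree Y (hF.ne Y hYF) (hF.conv Y hYF), ?_, ?_⟩
    · intro k v w h
      exact hT.adj k v.1 w.1 h
    · rintro k v w h ⟨h1, h2⟩
      exact hT.noInv k v.1 w.1 h ⟨by rw [← hsm, h1], by rw [← hsm, h2]⟩
  have hEM : Est G v w ≤ M := by
    intro g hg
    rw [hM, commensurator_mem_iff]
    have h1 : ConjAct.toConjAct g • Est G v w = Est G v w := by
      rw [← Est_smul, hg.1, hg.2]
    rw [h1]
  have hVA : VA (T.induce Y) (H.subgroupOf M) := by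
    refine ⟨hTA, ?_, ?_, ?_⟩
    · intro a ha b hb
      exact Subtype.ext (hHab a ha b hb)
    · intro a ha hne n hn h
      exact hHtf a ha (fun h1 => hne (Subtype.ext h1)) n hn (congrArg Subtype.val h)
    · intro x
      obtain ⟨x', hx1, hx2⟩ : ∃ x', T.Adj x.1 x' ∧ Commensurable (Est G v w) (Est G x.1 x') :=
        hY.subset x.2
      have hinf' : Infinite (Est G x.1 x') := by
        have h1 := infinite_inf hx2 hinf
        exact infinite_of_le inf_le_right h1
      have h2 := (hE x.1 x' hx1 hinf').2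
      rw [← Subgroup.Commensurable.eq hx2, ← hM] at h2
      have h3 : Est G x.1 x' ≤ MulAction.stabilizer G x.1 ⊓ M := by
        refine le_inf inf_le_left ?_
        intro g hg
        rw [hM, Subgroup.Commensurable.eq hx2, commensurator_mem_iff]
        have h1 : ConjAct.toConjAct g • Est G x.1 x' = Est G x.1 x' := by
          rw [← Est_smul, hg.1, hg.2]
        rw [h1]
      have h4 : Commensurable (Est G x.1 x') (MulAction.stabilizer G x.1 ⊓ M) :=
        ⟨h2, by rw [Subgroup.relIndex_eq_one.2 h3]; exact one_ne_zero⟩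
      have h5 : Commensurable H (Est G v w) :=
        ⟨hHi, by rw [Subgroup.relIndex_eq_one.2 hHE]; exact one_ne_zero⟩
      have h6 : Commensurable H (MulAction.stabilizer G x.1 ⊓ M) := (h5.trans hx2).trans h4
      have h7 : MulAction.stabilizer M x = (MulAction.stabilizer G x.1 ⊓ M).subgroupOf M := by
        ext k
        constructor
        · intro hk
          have hk' : k • x = x := hk
          refine ⟨?_, k.2⟩
          show (k : G) • x.1 = x.1
          rw [← hsm, hk']
        · intro hk
          exact Subtype.ext hk.1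
      rw [h7]
      refine ⟨?_, ?_⟩
      · rw [Subgroup.relIndex_subgroupOf inf_le_right]
        exact h6.1
      · rw [Subgroup.relIndex_subgroupOf (hHE.trans hEM)]
        exact h6.2
  exact main hC hmet hVA

/-- virtually cyclic edge stabilizers -/
theorem comE_of_vc (hvc : VcEdges G T)
    (h : ∀ v w : V, T.Adj v w → Infinite (Est G v w) →
      (Est G v w).relIndex (MulAction.stabilizer G v ⊓ commensurator (Est G v w)) ≠ 0) :
    ComE G T := by
  intro v w hvw hinf
  refine ⟨?_, h v w hvw hinf⟩
  obtain ⟨z, hz, hzi⟩ := Q182.Cyl.exists_infOrd (hvc v w hvw) le_rfl hinf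
  refine ⟨Subgroup.zpowers z, Subgroup.zpowers_le.2 hz, Q182.Cyl.zp_index (hvc v w hvw) hzi hz,
    ?_, ?_⟩
  · rintro _ ⟨i, rfl⟩ _ ⟨j, rfl⟩
    exact ((Commute.refl z).zpow_zpow i j).eq
  · rintro _ ⟨i, rfl⟩ hne
    refine hzi.zpow' ?_
    rintro rfl
    exact hne (zpow_zero z)

end Q182.Hv
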