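import Pool.Agent.Q182.DeGL
import Pool.Agent.Q182.DeFin
import Pool.Agent.Q182.HvCyl

/-!
# Trees with virtually abelian edge stabilizers: the final statements
-/

set_option autoImplicit false

namespace Q182.De

open SimpleGraph
open Pool.Agent.Helper270.Tree
open Q182.Cyl (ClosedA Est InfOrd VcEdges CorF)
open Q182.Hv (KK mem_KK conj_KK)
open Subgroup (Commensurable)
open Subgroup.Commensurable (commensurator)
open scoped commutatorElement

variable {C : ∀ (G : Type) [Group G], Prop} {G V : Type} [Group G] [MulAction G V]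
  {T : SimpleGraph V}

/-- the elements of the stabilizer of the vertex `v` which commute with all elements of a subgroup
of finite index of `E` -/
def KV (E : Subgroup G) (v : V) : Subgroup G := KK E ⊓ MulAction.stabilizer G v

/-- every element `z` of infinite order of the stabilizer of the edge from `v` to `w` is detected at
`v`: no positive power of `z` is in the commutator subgroup of the group of the elements of the
stabilizer of `v` which commute with a subgroup of finite index of the edge stabilizer, or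
`LinDet z v` -/
def DetE (G : Type) [Group G] [MulAction G V] (v w : V) : Prop :=
  ∀ z ∈ Est G v w, InfOrd z →
    (∀ n : ℕ, 0 < n → z ^ n ∉ ⁅KV (Est G v w) v, KV (Est G v w) v⁆) ∨ LinDet z v

theorem KV_le {E : Subgroup G} {v : V} {z : G} (hz : z ∈ E) : KV E v ≤ Kz z v := by
  intro g hg
  obtain ⟨h1, h2⟩ := Subgroup.mem_inf.1 hg
  refine ⟨h2, ?_⟩
  obtain ⟨k, hk, _, h3⟩ := Subgroup.exists_pow_mem_of_relIndex_ne_zero (mem_KK.1 h1) hz
  refine ⟨k, hk, ?_⟩
  have h4 := Subgroup.mem_centralizer_iff.1 (Subgroup.mem_inf.1 h3).1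
  exact h4 g rfl

theorem tor_of_det {v w : V} (h : DetE G v w) : ∀ z ∈ Est G v w,
    z ∈ ⁅KK (Est G v w) ⊓ MulAction.stabilizer G v, KK (Est G v w) ⊓ MulAction.stabilizer G v⁆ →
      ∃ n : ℕ, 0 < n ∧ z ^ n = 1 := by
  intro z hz hzc
  by_contra hno
  have hinf : InfOrd z := fun k hk h1 => hno ⟨k, hk, h1⟩
  rcases h z hz hinf with h1 | h1
  · exact h1 1 one_pos (by rw [pow_one]; exact hzc)
  · have h2 := al_of_linDet h1
    exact h2 1 one_pos (by rw [pow_one]; exact Subgroup.commutator_mono (KV_le hz) (KV_le hz) hzc)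

theorem ab_fin (hC : ClosedA C) (hmet : ∀ (G : Type) [Group G], derivedSeries G 2 = ⊥ → C G)
    (hT : TreeAct G T)
    (hloc : ∀ v w w' : V, T.Adj v w → T.Adj v w' → Commensurable (Est G v w) (Est G v w') ∨
      Finite ↥(Est G v w ⊓ Est G v w'))
    (hst : ∀ v : V, C (MulAction.stabilizer G v))
    (hdet : ∀ v w : V, T.Adj v w → Infinite (Est G v w) → DetE G v w)
    (hab : ∀ v w : V, T.Adj v w → Infinite (Est G v w) →
      ((∃ H : Subgroup G, H ≤ Est G v w ∧ H.relIndex (Est G v w) ≠ 0 ∧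
        (∀ a ∈ H, ∀ b ∈ H, a * b = b * a) ∧ ∀ a ∈ H, a ≠ 1 → InfOrd a) ∧
        ∃ (Q : Type) (_ : Group Q)
          (ρ : ↥(MulAction.stabilizer G v ⊓ commensurator (Est G v w)) →* Q),
          C Q ∧ ∀ g, ρ g = 1 ↔ (g : G) ∈ KK (Est G v w)) ∨
      ((∀ n : ℕ, C (Matrix.GeneralLinearGroup (Fin n) ℚ)) ∧
        ∃ (n : ℕ) (H : Subgroup G) (f : H →* Multiplicative (Fin n → ℚ)), H ≤ Est G v w ∧
          H.relIndex (Est G v w) ≠ 0 ∧ Function.Injective f)) : C G := by
  refine ab_main hC hmet hT (Q182.Hv.corF_of_local hT hloc) hst ?_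
  intro v w hvw hinf
  rcases hab v w hvw hinf with ⟨h1, h2⟩ | ⟨h1, h2⟩
  · exact ⟨h1, tor_of_det (hdet v w hvw hinf), h2⟩
  · exact abE_of_GL hC h1 h2 (tor_of_det (hdet v w hvw hinf))

end Q182.De
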