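import Pool.Agent.Q182.CenTree

/-!
# Branches of a tree at a vertex, and of the quotient tree
-/

set_option autoImplicit false

namespace Q182.De

open SimpleGraph
open Pool.Agent.Helper270.Tree
open Q182.Cen (Ell Orb mk mk_eq mk_smul exists_mk QG qAct treeAct_QG exists_lift isTree_QG adj_mk
  mk_ne edge_orbit)

section br

variable {V : Type} {T : SimpleGraph V}

/-- `n` is the neighbour of `x` in the direction of `y` -/
def Br (T : SimpleGraph V) (x n y : V) : Prop := T.Adj x n ∧ T.dist x y = T.dist n y + 1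

theorem exists_br (hT : T.IsTree) {x y : V} (h : x ≠ y) : ∃ n, Br T x n y := by
  obtain ⟨q, h0, h1, h2, h3, -⟩ := exists_geod hT x y
  have hpos : 0 < T.dist x y := hT.connected.pos_dist_of_ne h
  refine ⟨q 1, ?_, ?_⟩
  · have h4 := h2 0 hpos
    rwa [h0] at h4
  · have h4 := (h3 1 hpos).2
    omega

theorem br_unique (hT : T.IsTree) {x n n' y : V} (h : Br T x n y) (h' : Br T x n' y) : n = n' := by
  refine parent_unique hT (z := y) h.1.symm h'.1.symm ?_ ?_
  · rw [SimpleGraph.dist_comm, h.2, SimpleGraph.dist_comm]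
  · rw [SimpleGraph.dist_comm, h'.2, SimpleGraph.dist_comm]

theorem br_self {x y : V} (h : T.Adj x y) : Br T x y y := by
  refine ⟨h, ?_⟩
  rw [SimpleGraph.dist_self, SimpleGraph.dist_eq_one_iff_adj.2 h]

theorem br_up (hT : T.IsTree) {x n y y' : V} (hy : T.Adj y y') (h : Br T x n y)
    (hd : T.dist x y' = T.dist x y + 1) : Br T x n y' := by
  refine ⟨h.1, ?_⟩
  have h1 : T.dist n y' ≤ T.dist n y + T.dist y y' := hT.connected.dist_triangle
  have h2 : T.dist x y' ≤ T.dist x n + T.dist n y' := hT.connected.dist_triangle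
  rw [SimpleGraph.dist_eq_one_iff_adj.2 hy] at h1
  rw [SimpleGraph.dist_eq_one_iff_adj.2 h.1] at h2
  have h3 := h.2
  omega

theorem br_adj (hT : T.IsTree) {x n y y' : V} (hy : T.Adj y y') (hy' : x ≠ y')
    (h : Br T x n y) : Br T x n y' := by
  rcases hT.dist_eq_dist_add_one_of_adj x hy with h1 | h1
  · obtain ⟨n', hn'⟩ := exists_br hT hy'
    have h2 := br_up hT hy.symm hn' (by omega)
    rw [br_unique hT h h2]
    exact hn'
  · exact br_up hT hy h (by omega)

end br

variable {G V : Type} [Group G] [MulAction G V] {T : SimpleGraph V}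

theorem dist_mk (hT : TreeAct G T) {M : Subgroup G} (hN : M.Normal) (hM : Ell V M) (g : G)
    (x y : V) : (QG T M).dist (mk M (g • x)) (mk M (g • y)) = (QG T M).dist (mk M x) (mk M y) := by
  let _ := qAct V M
  have h1 : TreeAct (G ⧸ M) (QG T M) := treeAct_QG M hT hM
  exact h1.dist_smul (QuotientGroup.mk' M g) (mk M x) (mk M y)

theorem br_mk (hT : TreeAct G T) {M : Subgroup G} (hN : M.Normal) (hM : Ell V M) (g : G)
    {x n y : V} (h : Br (QG T M) (mk M x) (mk M n) (mk M y)) :
    Br (QG T M) (mk M (g • x)) (mk M (g • n)) (mk M (g • y)) := by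
  let _ := qAct V M
  have h1 : TreeAct (G ⧸ M) (QG T M) := treeAct_QG M hT hM
  refine ⟨h1.adj (QuotientGroup.mk' M g) (mk M x) (mk M n) h.1, ?_⟩
  rw [dist_mk hT hN hM, dist_mk hT hN hM]
  exact h.2

/-- two lifts of an edge -/
theorem lift_unique (hT : TreeAct G T) {M : Subgroup G} (hM : Ell V M) {v w v' w' : V}
    (h : T.Adj v w) (h' : T.Adj v' w') (hv : mk M v = mk M v') (hw : mk M w = mk M w') :
    ∃ m ∈ M, m • v = v' ∧ m • w = w' := by
  obtain ⟨m, hm, h1⟩ := mk_eq.1 hv.symm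
  have h2 := hT.adj m v w h
  rw [h1] at h2
  have h3 : mk M w' = mk M (m • w) := by rw [mk_smul hm, hw]
  obtain ⟨n, hn, h4⟩ := mk_eq.1 h3
  obtain ⟨k, hk, h5, h6⟩ := edge_orbit hT hM h2 h' hn h4
  exact ⟨k * m, M.mul_mem hk hm, by rw [mul_smul, h1, h5], by rw [mul_smul, h6]⟩

end Q182.De
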