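import Pool.Agent.Q182.CenTree

/-!
# Homomorphisms on groups acting on trees
-/

set_option autoImplicit false

namespace Q182.De

open SimpleGraph
open Pool.Agent.Helper270.Tree
open Q182.Cen (const_of_adj)

variable {P V : Type} [Group P] [MulAction P V] {T : SimpleGraph V}

/-- homomorphisms from cocycles -/
theorem bundle1 (hT : TreeAct P T) {L : Type} [Group L] (c : P → V → L)
    (hc : ∀ m n x, c (m * n) x = c m (n • x) * c n x)
    (he : ∀ x y, T.Adj x y → ∃ d : L, ∀ m : P, m • x = x → m • y = y →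
      c m x = d * c m y * d⁻¹) :
    ∃ lam : P →* L, ∀ x, ∃ f : L, ∀ m : P, m • x = x → lam m = f * c m x * f⁻¹ := by
  classical
  let rel : Setoid (V × V) := MulAction.orbitRel P (V × V)
  let cl : V × V → Quotient rel := fun e => Quotient.mk rel e
  let q : V × V → V × V := fun e => (cl e).out
  have hq : ∀ e, ∃ n : P, n • q e = e := by
    intro e
    have h1 : rel (q e) e := Quotient.exact (Quotient.out_eq _)
    obtain ⟨n, hn⟩ := rel.symm h1
    exact ⟨n, hn⟩
  have hcl : ∀ (m : P) e, cl (m • e) = cl e := fun m e => Quotient.sound ⟨m, rfl⟩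
  have hqinv : ∀ (m : P) e, q (m • e) = q e := fun m e => congrArg Quotient.out (hcl m e)
  choose k hk using hq
  have hk1 : ∀ e : V × V, k e • (q e).1 = e.1 := fun e => congrArg Prod.fst (hk e)
  have hk2 : ∀ e : V × V, k e • (q e).2 = e.2 := fun e => congrArg Prod.snd (hk e)
  have he' : ∀ e : V × V, ∃ d : L, T.Adj e.1 e.2 → ∀ m : P, m • e.1 = e.1 → m • e.2 = e.2 →
      c m e.1 = d * c m e.2 * d⁻¹ := by
    intro e
    by_cases h : T.Adj e.1 e.2
    · obtain ⟨d, hd⟩ := he _ _ h
      exact ⟨d, fun _ => hd⟩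
    · exact ⟨1, fun h' => absurd h' h⟩
  choose d hd using he'
  let ε : V → V → L := fun x y => c (k (x, y)) (q (x, y)).1 * d (q (x, y)) *
    (c (k (x, y)) (q (x, y)).2)⁻¹
  have hε : ∀ (m : P) x y, T.Adj x y → ε (m • x) (m • y) = c m x * ε x y * (c m y)⁻¹ := by
    intro m x y hxy
    obtain ⟨s, hs⟩ : ∃ s : P, s = (m * k (x, y))⁻¹ * k (m • x, m • y) := ⟨_, rfl⟩
    have hqq : q (m • x, m • y) = q (x, y) := hqinv m (x, y)
    have hs' : k (m • x, m • y) = m * (k (x, y) * s) := by
      rw [hs]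
      group
    have hs1 : s • (q (x, y)).1 = (q (x, y)).1 := by
      have h1 := hk1 (m • x, m • y)
      rw [hqq, hs', mul_smul, mul_smul] at h1
      have h2 := smul_left_cancel m h1
      exact smul_left_cancel _ (h2.trans (hk1 (x, y)).symm)
    have hs2 : s • (q (x, y)).2 = (q (x, y)).2 := by
      have h1 := hk2 (m • x, m • y)
      rw [hqq, hs', mul_smul, mul_smul] at h1
      have h2 := smul_left_cancel m h1
      exact smul_left_cancel _ (h2.trans (hk2 (x, y)).symm)
    have hadj : T.Adj (q (x, y)).1 (q (x, y)).2 := by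
      have h1 := hT.adj (k (x, y))⁻¹ x y hxy
      have h2 : (k (x, y))⁻¹ • x = (q (x, y)).1 := by rw [inv_smul_eq_iff, hk1]
      have h3 : (k (x, y))⁻¹ • y = (q (x, y)).2 := by rw [inv_smul_eq_iff, hk2]
      rwa [h2, h3] at h1
    have hcs := hd (q (x, y)) hadj s hs1 hs2
    show c (k (m • x, m • y)) (q (m • x, m • y)).1 * d (q (m • x, m • y)) *
      (c (k (m • x, m • y)) (q (m • x, m • y)).2)⁻¹ = _
    rw [hqq, hs', hc m, hc m, hc (k (x, y)) s, hc (k (x, y)) s, mul_smul, mul_smul, hs1, hs2, hk1,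
      hk2, hcs]
    show _ = c m x * (c (k (x, y)) (q (x, y)).1 * d (q (x, y)) *
      (c (k (x, y)) (q (x, y)).2)⁻¹) * (c m y)⁻¹
    group
  -- the orientation
  let lt : Quotient rel → Quotient rel → Prop := WellOrderingRel
  have hwf : WellFounded lt := WellOrderingRel.isWellOrder.wf
  have hlt : ∀ a b, lt a b → ¬ lt b a := fun a b h1 h2 => hwf.asymmetric _ _ h1 h2
  have htri : ∀ a b, a ≠ b → ¬ lt a b → lt b a := by
    intro a b hne h
    rcases trichotomous_of lt a b with h1 | h1 | h1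
    · exact absurd h1 h
    · exact absurd h1 hne
    · exact h1
  let D : V → V → L := fun x y => if lt (cl (x, y)) (cl (y, x)) then ε x y else
    (if lt (cl (y, x)) (cl (x, y)) then (ε y x)⁻¹ else 1)
  have hDanti : ∀ a b, D b a = (D a b)⁻¹ := by
    intro a b
    by_cases h1 : lt (cl (a, b)) (cl (b, a))
    · have h2 := hlt _ _ h1
      simp only [D, if_pos h1, if_neg h2]
    · by_cases h2 : lt (cl (b, a)) (cl (a, b))
      · simp only [D, if_pos h2, if_neg h1, inv_inv]
      · simp only [D, if_neg h2, if_neg h1, inv_one]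
  have hDinv : ∀ (m : P) x y, T.Adj x y → D (m • x) (m • y) = c m x * D x y * (c m y)⁻¹ := by
    intro m x y hxy
    have e1 : cl (m • x, m • y) = cl (x, y) := hcl m (x, y)
    have e2 : cl (m • y, m • x) = cl (y, x) := hcl m (y, x)
    have hne : cl (x, y) ≠ cl (y, x) := by
      intro h
      have h1 : rel (x, y) (y, x) := Quotient.exact h
      obtain ⟨g, hg⟩ := h1
      have h2 : g • y = x := congrArg Prod.fst hg
      have h3 : g • x = y := congrArg Prod.snd hg
      exact hT.noInv g x y hxy ⟨h3, h2⟩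
    by_cases h1 : lt (cl (x, y)) (cl (y, x))
    · simp only [D, e1, e2, if_pos h1]
      exact hε m x y hxy
    · have h2 := htri _ _ hne h1
      simp only [D, e1, e2, if_pos h2, if_neg h1]
      rw [hε m y x hxy.symm]
      group
  obtain ⟨v⟩ := hT.isTree.connected.nonempty
  obtain ⟨F, hFv, hF⟩ := Q9.FJT.exists_potential D hT.isTree v hDanti
  have key : ∀ (m : P) x, F (m • x) * c m x * (F x)⁻¹ = F (m • v) * c m v * (F v)⁻¹ := by
    intro m x
    refine const_of_adj hT.isTree (fun x => F (m • x) * c m x * (F x)⁻¹) ?_ x v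
    intro a b hab
    show F (m • a) * c m a * (F a)⁻¹ = F (m • b) * c m b * (F b)⁻¹
    rw [hF _ _ (hT.adj m a b hab), hF a b hab, hDinv m a b hab]
    group
  refine ⟨MonoidHom.mk' (fun m => F (m • v) * c m v * (F v)⁻¹) ?_, fun x => ⟨F x, ?_⟩⟩
  · intro m n
    show F ((m * n) • v) * c (m * n) v * (F v)⁻¹ = _
    rw [← key m (n • v), mul_smul, hc m n]
    group
  · intro m hm
    show F (m • v) * c m v * (F v)⁻¹ = F x * c m x * (F x)⁻¹
    rw [← key m x, hm]

/-- homomorphisms from homomorphisms on the stabilizers of representatives -/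
theorem bundle2 (hT : TreeAct P T) {L : Type} [Group L] (R : V → V) (s : V → P)
    (hR : ∀ (p : P) v, R (p • v) = R v) (hs : ∀ v, s v • R v = v) (h : V → P → L)
    (hh : ∀ v (a b : P), a • R v = R v → b • R v = R v → h (R v) (a * b) = h (R v) a * h (R v) b)
    (he : ∀ v w, T.Adj v w → ∃ d : L, ∀ m : P, m • v = v → m • w = w →
      h (R v) ((s v)⁻¹ * m * s v) = d * h (R w) ((s w)⁻¹ * m * s w) * d⁻¹) :
    ∃ lam : P →* L, ∀ v, ∃ f : L, ∀ m : P, m • v = v →
      lam m = f * h (R v) ((s v)⁻¹ * m * s v) * f⁻¹ := by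
  have hfix : ∀ (m : P) v, ((s (m • v))⁻¹ * m * s v) • R v = R v := by
    intro m v
    rw [mul_smul, mul_smul, hs, inv_smul_eq_iff]
    have h1 := hs (m • v)
    rw [hR] at h1
    exact h1.symm
  obtain ⟨lam, hlam⟩ := bundle1 hT (fun m v => h (R v) ((s (m • v))⁻¹ * m * s v)) (by
    intro m n x
    show h (R x) ((s ((m * n) • x))⁻¹ * (m * n) * s x) =
      h (R (n • x)) ((s (m • n • x))⁻¹ * m * s (n • x)) * h (R x) ((s (n • x))⁻¹ * n * s x)
    have h1 := hfix m (n • x)
    rw [hR] at h1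
    rw [hR, ← hh x _ _ h1 (hfix n x), mul_smul]
    congr 1
    group) (by
    intro x y hxy
    obtain ⟨d, hd⟩ := he x y hxy
    refine ⟨d, fun m hx hy => ?_⟩
    show h (R x) ((s (m • x))⁻¹ * m * s x) = d * h (R y) ((s (m • y))⁻¹ * m * s y) * d⁻¹
    rw [hx, hy]
    exact hd m hx hy)
  refine ⟨lam, fun v => ?_⟩
  obtain ⟨f, hf⟩ := hlam v
  refine ⟨f, fun m hm => ?_⟩
  rw [hf m hm]
  show f * h (R v) ((s (m • v))⁻¹ * m * s v) * f⁻¹ = _
  rw [hm]

end Q182.De
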