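import Pool.Agent.Q182.DeMain

/-!
# Trees whose edge stabilizers are commensurable with an infinite cyclic group
-/

set_option autoImplicit false

namespace Q182.De

open SimpleGraph
open Pool.Agent.Helper270.Tree
open Pool.Agent.Y110.FJ (ClosedE)
open Pool.Agent.Y462.SS (Closed)
open Q182.Cyl (ClosedA Est InfOrd Est_smul)
open Q182.Hv (KK mem_KK conj_KK lg lg_eq lg_conj le_KK)
open Subgroup (Commensurable)
open scoped Pointwise commutatorElement

section elem

variable {G : Type} [Group G]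

/-- conjugation multiplies the exponents of powers of `e` by a factor of absolute value one -/
def Bal (e g : G) : Prop := ∀ m n : ℤ, g * e ^ m * g⁻¹ = e ^ n → |m| = |n|

/-- a power of `e` is conjugated to a power of `e` -/
def Cm (e g : G) : Prop := ∃ (a : ℕ) (b : ℤ), 0 < a ∧ b ≠ 0 ∧ g * e ^ a * g⁻¹ = e ^ b

theorem conj_zpow' (g x : G) (n : ℤ) : g * x ^ n * g⁻¹ = (g * x * g⁻¹) ^ n := (conj_zpow).symm

theorem conj_npow' (g x : G) (n : ℕ) : g * x ^ n * g⁻¹ = (g * x * g⁻¹) ^ n := (conj_pow).symm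

theorem pow_conj {e g : G} {a : ℕ} {b : ℤ} (h : g * e ^ a * g⁻¹ = e ^ b) (m : ℤ) :
    g * e ^ ((a : ℤ) * m) * g⁻¹ = e ^ (b * m) := by
  rw [zpow_mul, zpow_natCast, conj_zpow', h, zpow_mul]

theorem Bal.mul {e g g' : G} (hg : Bal e g) (hg' : Bal e g') (hc : Cm e g') : Bal e (g * g') := by
  intro m n h
  obtain ⟨p, q, hp, hq, h1⟩ := hc
  have h2 := hg' p q (by rw [zpow_natCast]; exact h1)
  have h3 : g * e ^ (q * m) * g⁻¹ = e ^ (n * p) := by
    rw [← pow_conj h1 m]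
    have h4 : g * (g' * e ^ ((p : ℤ) * m) * g'⁻¹) * g⁻¹ = (g * g') * e ^ ((p : ℤ) * m) * (g * g')⁻¹ := by
      group
    rw [h4, mul_comm, zpow_mul, conj_zpow', h, ← zpow_mul]
  have h4 := hg _ _ h3
  rw [abs_mul, abs_mul, ← h2, mul_comm |(p : ℤ)|] at h4
  have h5 : |(p : ℤ)| ≠ 0 := by
    rw [abs_ne_zero]
    omega
  exact mul_right_cancel₀ h5 h4

theorem Bal.of_comm {e g : G} (he : InfOrd e) {k : ℕ} (hk : 0 < k) (h : g * e ^ k = e ^ k * g) :
    Bal e g := by
  intro m n h1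
  have h2 : g * e ^ ((k : ℤ) * m) * g⁻¹ = e ^ ((k : ℤ) * m) := by
    have h3 : g * e ^ k * g⁻¹ = e ^ (k : ℤ) := by rw [h, mul_inv_cancel_right, zpow_natCast]
    exact pow_conj h3 m
  have h3 : g * e ^ ((k : ℤ) * m) * g⁻¹ = e ^ ((k : ℤ) * n) := by
    rw [mul_comm (k : ℤ) m, mul_comm (k : ℤ) n, zpow_mul, conj_zpow', h1, ← zpow_mul]
  rw [h2] at h3
  have h4 : e ^ ((k : ℤ) * m - (k : ℤ) * n) = 1 := by rw [zpow_sub, h3, mul_inv_cancel]
  have h5 := he.zpow h4
  have h6 : (k : ℤ) * m = (k : ℤ) * n := by omega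
  have h7 : (k : ℤ) ≠ 0 := by omega
  rw [mul_left_cancel₀ h7 h6]

theorem Cm.inv {e g : G} (h : Cm e g) : Cm e g⁻¹ := by
  obtain ⟨a, b, ha, hb, h1⟩ := h
  refine ⟨b.natAbs, if 0 < b then a else -a, Int.natAbs_pos.2 hb, ?_, ?_⟩
  · split_ifs <;> omega
  · have h2 : g⁻¹ * e ^ b * g⁻¹⁻¹ = e ^ (a : ℤ) := by
      rw [← h1, zpow_natCast]
      group
    split_ifs with h3
    · rw [← zpow_natCast, Int.natAbs_of_nonneg h3.le, h2]
    · have h4 : ((b.natAbs : ℕ) : ℤ) = -b := by omega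
      rw [← zpow_natCast, h4, zpow_neg, zpow_neg, ← h2]
      group

theorem Bal.inv {e g : G} (h : Bal e g) : Bal e g⁻¹ := by
  intro m n h1
  refine (h n m ?_).symm
  rw [← h1]
  group

/-- commutators commute with powers -/
theorem comm_comm {e a b : G} (ha : Cm e a) (hb : Cm e b) :
    ∃ k : ℕ, 0 < k ∧ ⁅a, b⁆ * e ^ k = e ^ k * ⁅a, b⁆ := by
  obtain ⟨p, q, hp, hq, h1⟩ := ha
  obtain ⟨r, s, hr, hs, h2⟩ := hb
  refine ⟨(q * s).natAbs, Int.natAbs_pos.2 (mul_ne_zero hq hs), ?_⟩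
  have e1 : (a * b) * e ^ ((p : ℤ) * r) * (a * b)⁻¹ = e ^ (q * s) := by
    have h3 : (a * b) * e ^ ((p : ℤ) * r) * (a * b)⁻¹ =
        a * (b * e ^ ((r : ℤ) * p) * b⁻¹) * a⁻¹ := by
      rw [mul_comm (p : ℤ) r]
      group
    rw [h3, pow_conj h2, mul_comm s, pow_conj h1]
  have e2 : (b * a) * e ^ ((p : ℤ) * r) * (b * a)⁻¹ = e ^ (q * s) := by
    have h3 : (b * a) * e ^ ((p : ℤ) * r) * (b * a)⁻¹ =
        b * (a * e ^ ((p : ℤ) * r) * a⁻¹) * b⁻¹ := by
      group
    rw [h3, pow_conj h1, mul_comm q, pow_conj h2, mul_comm s]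
  have e3 : ⁅a, b⁆ * e ^ (q * s) * ⁅a, b⁆⁻¹ = e ^ (q * s) := by
    have h3 : ⁅a, b⁆ * e ^ (q * s) * ⁅a, b⁆⁻¹ =
        (a * b) * ((b * a)⁻¹ * e ^ (q * s) * (b * a)) * (a * b)⁻¹ := by
      rw [commutatorElement_def]
      group
    have h4 : (b * a)⁻¹ * e ^ (q * s) * (b * a) = e ^ ((p : ℤ) * r) := by
      rw [← e2]
      group
    rw [h3, h4, e1]
  have e4 : ⁅a, b⁆ * e ^ (q * s) = e ^ (q * s) * ⁅a, b⁆ := mul_inv_eq_iff_eq_mul.1 e3
  rcases Int.natAbs_eq (q * s) with h5 | h5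
  · rw [← zpow_natCast, ← h5]
    exact e4
  · have h6 : (((q * s).natAbs : ℕ) : ℤ) = -(q * s) := by omega
    rw [← zpow_natCast, h6, zpow_neg]
    have h7 : Commute ⁅a, b⁆ (e ^ (q * s)) := e4
    exact h7.inv_right.eq

end elem

variable {G V : Type} [Group G] [MulAction G V] {T : SimpleGraph V}

/-- the elements of a vertex stabilizer which commute with a power of `e` -/
def Kz (e : G) (x : V) : Subgroup G where
  carrier := {g | g • x = x ∧ ∃ k : ℕ, 0 < k ∧ g * e ^ k = e ^ k * g}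
  one_mem' := ⟨one_smul _ _, 1, one_pos, by rw [one_mul, mul_one]⟩
  mul_mem' := by
    rintro a b ⟨ha, i, hi, h1⟩ ⟨hb, j, hj, h2⟩
    refine ⟨by rw [mul_smul, hb, ha], i * j, Nat.mul_pos hi hj, ?_⟩
    have h3 : Commute a (e ^ (i * j)) := by
      rw [pow_mul]
      exact (show Commute a (e ^ i) from h1).pow_right j
    have h4 : Commute b (e ^ (i * j)) := by
      rw [mul_comm i, pow_mul]
      exact (show Commute b (e ^ j) from h2).pow_right i
    exact (h3.mul_left h4).eq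
  inv_mem' := by
    rintro a ⟨ha, i, hi, h1⟩
    exact ⟨by rw [inv_smul_eq_iff, ha], i, hi,
      ((show Commute a (e ^ i) from h1).inv_left).eq⟩

/-- the subgroup generated by the elements which fix an edge -/
def Nz (T : SimpleGraph V) (e : G) (x : V) : Subgroup G :=
  Subgroup.closure {g | g ∈ Kz e x ∧ ∃ y, T.Adj x y ∧ g • y = y}

theorem Nz_le (e : G) (x : V) : Nz T e x ≤ Kz e x :=
  (Subgroup.closure_le _).2 fun _ h => h.1

/-- the edge stabilizers are commensurable with an infinite cyclic group -/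
structure CyE (T : SimpleGraph V) (e : G) : Prop where
  tree : TreeAct G T
  nb : ∀ v, ∃ w, T.Adj v w
  inf : InfOrd e
  com : ∀ v w, T.Adj v w → Commensurable (Subgroup.zpowers e) (Est G v w)

variable {e : G} (hE : CyE T e)

include hE in
theorem pow_mem_Est {v w : V} (h : T.Adj v w) : ∃ k : ℕ, 0 < k ∧ e ^ k ∈ Est G v w := by
  obtain ⟨k, hk, _, h1⟩ := Subgroup.exists_pow_mem_of_relIndex_ne_zero (hE.com v w h).2
    (Subgroup.mem_zpowers e)
  exact ⟨k, hk, (Subgroup.mem_inf.1 h1).1⟩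

include hE in
theorem cm (g : G) : Cm e g := by
  obtain ⟨v⟩ := hE.tree.isTree.connected.nonempty
  obtain ⟨w, hvw⟩ := hE.nb v
  obtain ⟨k, hk, h1⟩ := pow_mem_Est hE hvw
  have h2 : g * e ^ k * g⁻¹ ∈ Est G (g • v) (g • w) := by
    refine ⟨?_, ?_⟩
    · show (g * e ^ k * g⁻¹) • g • v = g • v
      rw [mul_smul, mul_smul, inv_smul_smul, h1.1]
    · show (g * e ^ k * g⁻¹) • g • w = g • w
      rw [mul_smul, mul_smul, inv_smul_smul, h1.2]
  obtain ⟨j, hj, _, h3⟩ := Subgroup.exists_pow_mem_of_relIndex_ne_zero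
    (hE.com _ _ (hE.tree.adj g v w hvw)).1 h2
  obtain ⟨b, hb⟩ := (Subgroup.mem_inf.1 h3).1
  have hb' : e ^ b = (g * e ^ k * g⁻¹) ^ j := hb
  refine ⟨k * j, b, Nat.mul_pos hk hj, ?_, ?_⟩
  · rintro rfl
    rw [zpow_zero, conj_pow] at hb'
    have h4 : (e ^ k) ^ j = 1 := by
      have h5 : (e ^ k) ^ j = g⁻¹ * (g * (e ^ k) ^ j * g⁻¹) * g := by group
      rw [h5, ← hb']
      group
    rw [← pow_mul] at h4
    exact hE.inf _ (Nat.mul_pos hk hj) h4
  · rw [hb', conj_pow, ← pow_mul]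

theorem natAbs_comm {g : G} {b : ℤ} (h : g * e ^ b = e ^ b * g) :
    g * e ^ b.natAbs = e ^ b.natAbs * g := by
  rcases Int.natAbs_eq b with h5 | h5
  · rw [← zpow_natCast, ← h5]
    exact h
  · have h6 : ((b.natAbs : ℕ) : ℤ) = -b := by omega
    rw [← zpow_natCast, h6, zpow_neg]
    exact ((show Commute g (e ^ b) from h).inv_right).eq

theorem natAbs_mem {S : Subgroup G} {b : ℤ} (h : e ^ b ∈ S) : e ^ b.natAbs ∈ S := by
  rcases Int.natAbs_eq b with h5 | h5
  · rw [← zpow_natCast, ← h5]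
    exact h
  · have h6 : ((b.natAbs : ℕ) : ℤ) = -b := by omega
    rw [← zpow_natCast, h6, zpow_neg]
    exact S.inv_mem h

include hE in
theorem conj_Kz (g : G) (x : V) {m : G} (hm : m ∈ Kz e x) : g * m * g⁻¹ ∈ Kz e (g • x) := by
  obtain ⟨h1, k, hk, h2⟩ := hm
  obtain ⟨a, b, ha, hb, h3⟩ := cm hE g
  refine ⟨?_, (b * k).natAbs, Int.natAbs_pos.2 (mul_ne_zero hb (by omega)), natAbs_comm ?_⟩
  · rw [mul_smul, mul_smul, inv_smul_smul, h1]
  · rw [← pow_conj h3]
    have h4 : Commute m (e ^ ((a : ℤ) * k)) := by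
      rw [mul_comm, zpow_mul, zpow_natCast, zpow_natCast]
      exact (show Commute m (e ^ k) from h2).pow_right _
    have h5 := h4.map (MulAut.conj g).toMonoidHom
    exact h5.eq

include hE in
theorem conj_Nz (g : G) (x : V) {m : G} (hm : m ∈ Nz T e x) : g * m * g⁻¹ ∈ Nz T e (g • x) := by
  have h1 : g * m * g⁻¹ ∈ (Nz T e x).map (MulAut.conj g).toMonoidHom := ⟨m, hm, rfl⟩
  rw [Nz, MonoidHom.map_closure] at h1
  refine Subgroup.closure_mono ?_ h1
  rintro _ ⟨k, ⟨hk, y, hxy, hy⟩, rfl⟩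
  refine ⟨conj_Kz hE g x hk, g • y, hE.tree.adj g x y hxy, ?_⟩
  show (g * k * g⁻¹) • g • y = g • y
  rw [mul_smul, mul_smul, inv_smul_smul, hy]

/-- no power of `e` is in the commutator subgroup -/
def Al (e : G) (S : Subgroup G) : Prop := ∀ n : ℕ, 0 < n → e ^ n ∉ ⁅S, S⁆

include hE in
theorem al_conj (g : G) (x : V) (h : Al e (Kz e (g • x))) : Al e (Kz e x) := by
  intro n hn h1
  obtain ⟨a, b, ha, hb, h3⟩ := cm hE g
  have h2 : g * e ^ n * g⁻¹ ∈ ⁅Kz e (g • x), Kz e (g • x)⁆ := by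
    have h4 : g * e ^ n * g⁻¹ ∈ (⁅Kz e x, Kz e x⁆).map (MulAut.conj g).toMonoidHom := ⟨_, h1, rfl⟩
    rw [Subgroup.map_commutator] at h4
    have h5 : (Kz e x).map (MulAut.conj g).toMonoidHom ≤ Kz e (g • x) := by
      rintro _ ⟨m, hm, rfl⟩
      exact conj_Kz hE g x hm
    exact Subgroup.commutator_mono h5 h5 h4
  refine h (b * n).natAbs (Int.natAbs_pos.2 (mul_ne_zero hb (by omega))) (natAbs_mem ?_)
  rw [← pow_conj h3, mul_comm, zpow_mul, zpow_natCast, zpow_natCast]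
  have h6 : g * (e ^ n) ^ a * g⁻¹ = (g * e ^ n * g⁻¹) ^ a := (conj_pow).symm
  rw [h6]
  exact Subgroup.pow_mem _ h2 a

include hE in
theorem al_conj_iff (g : G) (x : V) : Al e (Kz e (g • x)) ↔ Al e (Kz e x) := by
  refine ⟨al_conj hE g x, fun h => al_conj hE g⁻¹ (g • x) ?_⟩
  rwa [inv_smul_smul]

open Classical in
/-- the family -/
noncomputable def Mz (T : SimpleGraph V) (e : G) (x : V) : Subgroup G :=
  if Al e (Kz e x) then Kz e x else Nz T e x

theorem Mz_le (x : V) : Mz T e x ≤ Kz e x := by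
  unfold Mz
  split_ifs
  · exact le_rfl
  · exact Nz_le e x

/-- the condition on the vertices -/
def Good (T : SimpleGraph V) (e : G) (x : V) : Prop :=
  Al e (Kz e x) ∨ ((∀ g : G, g • x = x → Bal e g) ∧ Al e (Nz T e x))

include hE in
theorem fam_Mz (hg : ∀ x, Good T e x) : Fam T (Subgroup.zpowers e) (Mz T e) where
  tree := hE.tree
  nb := hE.nb
  ab := by
    rintro _ ⟨i, rfl⟩ _ ⟨j, rfl⟩
    exact ((Commute.refl e).zpow_zpow i j).eq
  tf := by
    rintro _ ⟨i, rfl⟩ hne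
    refine hE.inf.zpow' ?_
    rintro rfl
    exact hne (zpow_zero e)
  com := hE.com
  conj := by
    intro g x m hm
    unfold Mz at hm ⊢
    split_ifs at hm with h1
    · rw [if_pos ((al_conj_iff hE g x).2 h1)]
      exact conj_Kz hE g x hm
    · rw [if_neg (fun h => h1 ((al_conj_iff hE g x).1 h))]
      exact conj_Nz hE g x hm
  le := by
    intro x m hm
    obtain ⟨_, k, hk, h⟩ := Mz_le x hm
    rw [mem_KK]
    intro h0
    refine Q182.Cyl.zp_pow_index e k hk (Subgroup.relIndex_eq_zero_of_le_left ?_ h0)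
    rw [Subgroup.zpowers_le, Subgroup.mem_centralizer_iff]
    intro y hy
    rw [Set.mem_singleton_iff.1 hy]
    exact h
  fix := by
    intro x m hm
    exact (Mz_le x hm).1
  edge := by
    intro x y hxy m hm hx hy
    obtain ⟨k, hk, _, h1⟩ := Subgroup.exists_pow_mem_of_relIndex_ne_zero (mem_KK.1 hm)
      (Subgroup.mem_zpowers e)
    have h2 := (Subgroup.mem_inf.1 h1).1
    rw [Subgroup.mem_centralizer_iff] at h2
    have h3 : m ∈ Kz e x := ⟨hx, k, hk, h2 m rfl⟩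
    unfold Mz
    split_ifs
    · exact h3
    · exact Subgroup.subset_closure ⟨h3, y, hxy, hy⟩
  det := by
    rintro x _ ⟨j, rfl⟩ h
    by_contra hne
    have hj : j ≠ 0 := by
      rintro rfl
      exact hne (zpow_zero e)
    have h1 : e ^ j.natAbs ∈ ⁅Mz T e x, Mz T e x⁆ := natAbs_mem h
    unfold Mz at h1
    split_ifs at h1 with h2
    · exact h2 _ (Int.natAbs_pos.2 hj) h1
    · rcases hg x with h3 | h3
      · exact h2 h3
      · exact h3.2 _ (Int.natAbs_pos.2 hj) h1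

variable {C : ∀ (G : Type) [Group G], Prop}

include hE in
/-- balanced subgroups -/
theorem bal_mem (hC : ClosedA C) (hst : ∀ v : V, C (MulAction.stabilizer G v)) (P : Subgroup G)
    (hP : ∀ g ∈ P, Bal e g) : C P := by
  have hT := hE.tree
  have hTK : TreeAct P T := ⟨hT.isTree, fun g v w h => hT.adj g v w h,
    fun g v w h => hT.noInv g v w h⟩
  refine Q182.Cyl.main2 hC hTK ?_ ?_ (fun x => Q182.Cen.st_mem hC.base.base P x (hst x))
  · intro v w hvw
    have h1 : (Subgroup.zpowers e).relIndex ((Est P v w).map P.subtype) ≠ 0 := by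
      intro h0
      refine (hE.com v w hvw).1 (Subgroup.relIndex_eq_zero_of_le_right ?_ h0)
      rintro _ ⟨g, hg, rfl⟩
      exact ⟨hg.1, hg.2⟩
    -- a virtually cyclic group
    have h2 : ∃ c ∈ (Est P v w).map P.subtype,
        (Subgroup.zpowers c).relIndex ((Est P v w).map P.subtype) ≠ 0 := by
      obtain ⟨S, hS⟩ : ∃ S : Subgroup G, S = (Est P v w).map P.subtype := ⟨_, rfl⟩
      rw [← hS] at h1 ⊢
      have h3 : IsCyclic ((Subgroup.zpowers e ⊓ S).subgroupOf (Subgroup.zpowers e)) := inferInstance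
      obtain ⟨x, hx⟩ := h3.exists_generator
      have hx1 : ((x : Subgroup.zpowers e) : G) ∈ Subgroup.zpowers e ⊓ S := x.2
      refine ⟨((x : Subgroup.zpowers e) : G), hx1.2, ?_⟩
      have h4 : Subgroup.zpowers e ⊓ S ≤ Subgroup.zpowers ((x : Subgroup.zpowers e) : G) := by
        intro y hy
        obtain ⟨n, hn⟩ := hx ⟨⟨y, hy.1⟩, hy⟩
        refine ⟨n, ?_⟩
        exact congrArg (fun z : (Subgroup.zpowers e ⊓ S).subgroupOf (Subgroup.zpowers e) =>
          ((z : Subgroup.zpowers e) : G)) hn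
      intro h0
      apply h1
      rw [← Subgroup.inf_relIndex_right]
      exact Subgroup.relIndex_eq_zero_of_le_left h4 h0
    obtain ⟨c, hc, hci⟩ := h2
    obtain ⟨c', hc', rfl⟩ := hc
    refine ⟨c', hc', ?_⟩
    intro h0
    apply hci
    have h3 : Subgroup.zpowers (P.subtype c') = (Subgroup.zpowers c').map P.subtype := by
      rw [MonoidHom.map_zpowers]
    rw [h3, Subgroup.relIndex_map_map_of_injective _ _ P.subtype_injective]
    exact h0
  · intro v w h g m n hvw hh hinf hg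
    obtain ⟨a, ha, _, h1⟩ := Subgroup.exists_pow_mem_of_relIndex_ne_zero (hE.com v w hvw).1
      (show (h : G) ∈ Est G v w from ⟨hh.1, hh.2⟩)
    obtain ⟨b, hb⟩ := (Subgroup.mem_inf.1 h1).1
    have hb' : e ^ b = (h : G) ^ a := hb
    have hb0 : b ≠ 0 := by
      rintro rfl
      rw [zpow_zero] at hb'
      refine hinf a ha (Subtype.ext ?_)
      exact hb'.symm
    have hg' : (g : G) * (h : G) ^ m * (g : G)⁻¹ = (h : G) ^ n := congrArg Subtype.val hg
    have h2 : (g : G) * e ^ (b * m) * (g : G)⁻¹ = e ^ (b * n) := by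
      rw [zpow_mul, zpow_mul, hb', ← zpow_natCast, ← zpow_mul, ← zpow_mul, mul_comm (a : ℤ),
        mul_comm (a : ℤ), zpow_mul, zpow_mul, conj_zpow', hg']
    have h3 := hP g g.2 _ _ h2
    rw [abs_mul, abs_mul] at h3
    exact mul_left_cancel₀ (abs_ne_zero.2 hb0) h3

omit [MulAction G V] in
theorem mem_sup' {S N : Subgroup G} [N.Normal] {g : G} (h : g ∈ S ⊔ N) :
    ∃ s ∈ S, ∃ n ∈ N, s * n = g := by
  have h1 : g ∈ ((S ⊔ N : Subgroup G) : Set G) := h
  rw [Subgroup.mul_normal] at h1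
  obtain ⟨s, hs, n, hn, h2⟩ := h1
  exact ⟨s, hs, n, hn, h2⟩

include hE in
/-- **the theorem on edge stabilizers commensurable with a cyclic group** -/
theorem cyc_main (hC : ClosedA C) (hmet : ∀ (G : Type) [Group G], derivedSeries G 2 = ⊥ → C G)
    (hst : ∀ v : V, C (MulAction.stabilizer G v)) (hg : ∀ x, Good T e x) : C G := by
  have hF := fam_Mz hE hg
  have hN : (MM (Mz T e)).Normal := normal_MM hF
  refine main hC hmet hF hst ?_
  intro x
  by_cases hx : Al e (Kz e x)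
  · refine cyc_mem hC hmet hF hst _ ?_
    rw [Subgroup.commutator_le]
    intro a ha b hb
    have hdec : ∀ g ∈ MulAction.stabilizer G x ⊔ MM (Mz T e), ∃ s : G, s • x = x ∧
        QuotientGroup.mk' (MM (Mz T e)) g = QuotientGroup.mk' (MM (Mz T e)) s := by
      intro g hg
      obtain ⟨s, hs, n, hn, rfl⟩ := mem_sup' hg
      refine ⟨s, hs, ?_⟩
      have h1 : QuotientGroup.mk' (MM (Mz T e)) n = 1 := (QuotientGroup.eq_one_iff _).2 hn
      rw [map_mul, h1, mul_one]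
    obtain ⟨s, hs, h1⟩ := hdec a ha
    obtain ⟨t, ht, h2⟩ := hdec b hb
    refine (QuotientGroup.eq_one_iff _).1 ?_
    show QuotientGroup.mk' (MM (Mz T e)) ⁅a, b⁆ = 1
    rw [map_commutatorElement, h1, h2, ← map_commutatorElement]
    refine (QuotientGroup.eq_one_iff _).2 (mem_MM (v := x) ?_)
    unfold Mz
    rw [if_pos hx]
    refine ⟨?_, comm_comm (cm hE s) (cm hE t)⟩
    have h3 : s⁻¹ • x = x := by rw [inv_smul_eq_iff, hs]
    have h4 : t⁻¹ • x = x := by rw [inv_smul_eq_iff, ht]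
    rw [commutatorElement_def, mul_smul, mul_smul, mul_smul, h4, h3, ht, hs]
  · have h1 : ∀ g : G, g • x = x → Bal e g := by
      rcases hg x with h | h
      · exact absurd h hx
      · exact h.1
    refine bal_mem hE hC hst _ ?_
    intro g hg
    obtain ⟨s, hs, n, hn, rfl⟩ := mem_sup' hg
    refine Bal.mul (h1 s hs) ?_ (cm hE n)
    have h2 := MM_le hF hn
    obtain ⟨k, hk, _, h3⟩ := Subgroup.exists_pow_mem_of_relIndex_ne_zero (mem_KK.1 h2)
      (Subgroup.mem_zpowers e)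
    have h4 := (Subgroup.mem_inf.1 h3).1
    rw [Subgroup.mem_centralizer_iff] at h4
    exact Bal.of_comm hE.inf hk (h4 n rfl)

end Q182.De
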