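import Pool.Agent.Q182.DeCyc
import Pool.Agent.Q182.CsaCone

/-!
# Reduction to the stabilizers of cylinders
-/

set_option autoImplicit false

namespace Q182.De

open SimpleGraph
open Pool.Agent.Helper270.Tree
open Pool.Agent.Y110.FJ (ClosedE)
open Pool.Agent.Y462.SS (Closed)
open Q182.Cyl (ClosedA Est InfOrd CorF VcEdges cyl cyls fam_cyls infinite_inf infinite_of_le Est_smul
  Est_comm self_mem_cyl)
open Subgroup (Commensurable)
open Subgroup.Commensurable (commensurator commensurator_mem_iff)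
open scoped Pointwise commutatorElement

variable {C : ∀ (G : Type) [Group G], Prop} {G V : Type} [Group G] [MulAction G V]
  {T : SimpleGraph V}

/-- the edges of a cylinder -/
theorem cyl_adj (hT : TreeAct G T) (hcf : CorF G T) {E : Subgroup G} (hinf : Infinite E)
    {x y : V} (hx : x ∈ cyl T E) (hy : y ∈ cyl T E) (hxy : T.Adj x y) :
    Commensurable E (Est G x y) := by
  obtain ⟨x', hx1, hx2⟩ := hx
  obtain ⟨y', hy1, hy2⟩ := hy
  have h1 : Infinite (Est G x x') := infinite_of_le inf_le_right (infinite_inf hx2 hinf)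
  have h2 : Infinite ↥(Est G x x' ⊓ Est G y y') := infinite_inf (hx2.symm.trans hy2) h1
  rcases hcf x x' x y hx1 hxy with h | h
  · exact hx2.trans h
  · exfalso
    have h3 : Est G x x' ⊓ Est G y y' ≤ Est G x x' ⊓ Est G x y :=
      le_inf inf_le_left (le_inf (inf_le_left.trans inf_le_left) (inf_le_right.trans inf_le_left))
    exact (not_finite_iff_infinite.2 (infinite_of_le h3 h2)) h

theorem Est_le_comm {v w : V} : Est G v w ≤ commensurator (Est G v w) := by
  intro g hg
  rw [commensurator_mem_iff]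
  have h1 : ConjAct.toConjAct g • Est G v w = Est G v w := by
    rw [← Est_smul, hg.1, hg.2]
  rw [h1]

/-- the data of a cylinder -/
structure CylData (T : SimpleGraph V) (E M : Subgroup G) (Y : Set V) [MulAction M Y] : Prop where
  smul : ∀ (k : M) (x : Y), ((k • x : Y) : V) = (k : G) • (x : V)
  tree : TreeAct M (T.induce Y)
  nb : ∀ x : Y, ∃ y : Y, (T.induce Y).Adj x y
  com : ∀ x y : Y, (T.induce Y).Adj x y → Commensurable E (Est G x.1 y.1)
  le : E ≤ M
  mem : ∀ g : G, g ∈ M ↔ Commensurable (ConjAct.toConjAct g • E) E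
  cyl : Y = cyl T E

/-- reduction to cylinders -/
theorem reduce (hC : ClosedA C) (hT : TreeAct G T) (hcf : CorF G T)
    (hst : ∀ v : V, C (MulAction.stabilizer G v))
    (key : ∀ v w : V, T.Adj v w → Infinite (Est G v w) → ∀ (M : Subgroup G) (Y : Set V)
      (_ : MulAction M Y), CylData T (Est G v w) M Y → C M) : C G := by
  refine Q182.Cyl.main1 hC hT hcf hst ?_
  intro v w hvw hinf
  obtain ⟨M, hM⟩ : ∃ M : Subgroup G, M = commensurator (Est G v w) := ⟨_, rfl⟩
  obtain ⟨Y, hY⟩ : ∃ Y : Set V, Y = cyl T (Est G v w) := ⟨_, rfl⟩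
  rw [← hM]
  have hYF : Y ∈ cyls G T := ⟨v, w, hvw, hinf, hY⟩
  have hF := fam_cyls hT hcf
  have hMY : ∀ m ∈ M, ∀ x ∈ Y, m • x ∈ Y := by
    intro m hm x hx
    rw [hY] at hx ⊢
    obtain ⟨x', h1, h2⟩ := hx
    refine ⟨m • x', hT.adj m x x' h1, ?_⟩
    rw [hM, commensurator_mem_iff] at hm
    rw [Est_smul]
    exact hm.symm.trans (h2.conj (ConjAct.toConjAct m))
  let act : MulAction M Y :=
    { smul := fun k x => ⟨(k : G) • x.1, hMY k k.2 x.1 x.2⟩
      one_smul := fun x => Subtype.ext (one_smul G x.1)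
      mul_smul := fun a b x => Subtype.ext (mul_smul (a : G) (b : G) x.1) }
  have hsm : ∀ (k : M) (x : Y), ((k • x : Y) : V) = (k : G) • (x : V) := fun _ _ => rfl
  refine key v w hvw hinf M Y act ⟨hsm, ?_, ?_, ?_, ?_, ?_, hY⟩
  · refine ⟨Q182.Csa.isTree_conv hT.isTree Y (hF.ne Y hYF) (hF.conv Y hYF), ?_, ?_⟩
    · intro k v w h
      exact hT.adj k v.1 w.1 h
    · rintro k v w h ⟨h1, h2⟩
      exact hT.noInv k v.1 w.1 h ⟨by rw [← hsm, h1], by rw [← hsm, h2]⟩
  · intro x
    obtain ⟨x', hx1, hx2⟩ : ∃ x', T.Adj x.1 x' ∧ Commensurable (Est G v w) (Est G x.1 x') :=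
      hY.subset x.2
    refine ⟨⟨x', ?_⟩, hx1⟩
    rw [hY]
    exact ⟨x.1, hx1.symm, by rw [Est_comm x' x.1]; exact hx2⟩
  · intro x y hxy
    exact cyl_adj hT hcf hinf (hY.subset x.2) (hY.subset y.2) hxy
  · rw [hM]
    exact Est_le_comm
  · intro g
    rw [hM, commensurator_mem_iff]

section

variable {E M : Subgroup G} {Y : Set V} [MulAction M Y] (hD : CylData T E M Y)

include hD in
theorem st_data (hC : ClosedA C) (hst : ∀ v : V, C (MulAction.stabilizer G v)) (x : Y) :
    C (MulAction.stabilizer M x) := by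
  refine hC.base.base.of_injective _ _ (MonoidHom.mk' (fun k : MulAction.stabilizer M x =>
    (⟨((k.1 : M) : G), ?_⟩ : MulAction.stabilizer G x.1)) (fun _ _ => rfl)) ?_ (hst x.1)
  · show ((k.1 : M) : G) • x.1 = x.1
    rw [← hD.smul, show (k.1 : M) • x = x from k.2]
  · intro a b hab
    exact Subtype.ext (Subtype.ext
      (congrArg (fun u : MulAction.stabilizer G x.1 => (u : G)) hab))

include hD in
theorem Est_data (x y : Y) : Est M x y = (Est G x.1 y.1).subgroupOf M := by
  ext k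
  constructor
  · rintro ⟨h1, h2⟩
    refine ⟨?_, ?_⟩
    · show (k : G) • x.1 = x.1
      rw [← hD.smul, show k • x = x from h1]
    · show (k : G) • y.1 = y.1
      rw [← hD.smul, show k • y = y from h2]
  · rintro ⟨h1, h2⟩
    exact ⟨Subtype.ext (by rw [hD.smul]; exact h1), Subtype.ext (by rw [hD.smul]; exact h2)⟩

include hD in
theorem Est_le_data {x y : Y} (h : (T.induce Y).Adj x y) : Est G x.1 y.1 ≤ M := by
  intro g hg
  rw [hD.mem]
  have h1 := hD.com x y h
  have h2 : ConjAct.toConjAct g • Est G x.1 y.1 = Est G x.1 y.1 := by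
    rw [← Est_smul, hg.1, hg.2]
  have h3 := h1.conj (ConjAct.toConjAct g)
  rw [h2] at h3
  exact h3.trans h1.symm

end

/-- the subgroup of the elements of `G` which commute with a power of `z` and fix `x`, and the
subgroup generated by those which fix an edge fixed by a power of `z` -/
def NzG (T : SimpleGraph V) (z : G) (x : V) : Subgroup G :=
  Subgroup.closure {g | g ∈ Kz z x ∧ ∃ y, T.Adj x y ∧ g • y = y ∧ ∃ k : ℕ, 0 < k ∧ z ^ k • y = y}

theorem Kz_pow (z : G) (x : V) {k : ℕ} (hk : 0 < k) : Kz (z ^ k) x = Kz z x := by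
  ext g
  constructor
  · rintro ⟨h1, j, hj, h2⟩
    exact ⟨h1, k * j, Nat.mul_pos hk hj, by rw [pow_mul]; exact h2⟩
  · rintro ⟨h1, j, hj, h2⟩
    refine ⟨h1, j, hj, ?_⟩
    rw [← pow_mul, mul_comm, pow_mul]
    exact ((show Commute g (z ^ j) from h2).pow_right k).eq

theorem NzG_pow (z : G) (x : V) {k : ℕ} (hk : 0 < k) : NzG T (z ^ k) x = NzG T z x := by
  unfold NzG
  rw [Kz_pow z x hk]
  congr 1
  ext g
  constructor
  · rintro ⟨h1, y, h2, h3, j, hj, h4⟩
    exact ⟨h1, y, h2, h3, k * j, Nat.mul_pos hk hj, by rw [pow_mul]; exact h4⟩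
  · rintro ⟨h1, y, h2, h3, j, hj, h4⟩
    refine ⟨h1, y, h2, h3, j, hj, ?_⟩
    rw [← pow_mul, mul_comm, pow_mul]
    have h5 : z ^ j ∈ MulAction.stabilizer G y := h4
    exact (MulAction.stabilizer G y).pow_mem h5 k

/-- the condition on an element of infinite order of an edge stabilizer -/
def GoodG (T : SimpleGraph V) (z : G) (x : V) : Prop :=
  Al z (Kz z x) ∨ ((∀ g : G, g • x = x → Bal z g) ∧ Al z (NzG T z x))

theorem bal_pow {z g : G} {k : ℕ} (hk : 0 < k) (h : Bal (z ^ k) g) : Bal z g := by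
  intro m n h1
  apply h m n
  rw [← zpow_natCast, ← zpow_mul, ← zpow_mul, mul_comm (k : ℤ) m, mul_comm (k : ℤ) n, zpow_mul,
    conj_zpow', h1, ← zpow_mul]

theorem al_pow {z : G} {k : ℕ} {S : Subgroup G} (h : Al (z ^ k) S) : Al z S := by
  intro n hn h1
  apply h n hn
  rw [← pow_mul, mul_comm, pow_mul]
  exact Subgroup.pow_mem _ h1 k

theorem goodG_pow {z : G} {x : V} {k : ℕ} (hk : 0 < k) (h : GoodG T (z ^ k) x) : GoodG T z x := by
  rcases h with h | ⟨h1, h2⟩
  · left
    rw [Kz_pow z x hk] at h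
    exact al_pow h
  · right
    rw [NzG_pow z x hk] at h2
    exact ⟨fun g hg => bal_pow hk (h1 g hg), al_pow h2⟩

/-- **trees with virtually cyclic edge stabilizers** -/
theorem cyl_main (hC : ClosedA C) (hmet : ∀ (G : Type) [Group G], derivedSeries G 2 = ⊥ → C G)
    (hT : TreeAct G T) (hvc : VcEdges G T) (hst : ∀ v : V, C (MulAction.stabilizer G v))
    (hgood : ∀ v w : V, T.Adj v w → ∀ z ∈ Est G v w, InfOrd z →
      (∀ g : G, Bal z g) ∨ GoodG T z v) : C G := by
  refine reduce hC hT (Q182.Cyl.corF_of_vc hvc) hst ?_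
  intro v w hvw hinf M Y act hD
  obtain ⟨e, he, hei⟩ := Q182.Cyl.exists_infOrd (hvc v w hvw) le_rfl hinf
  have heM : e ∈ M := hD.le he
  have hcomE : Commensurable (Subgroup.zpowers e) (Est G v w) :=
    ⟨Q182.Cyl.zp_index (hvc v w hvw) hei he, by
      rw [Subgroup.relIndex_eq_one.2 (Subgroup.zpowers_le.2 he)]
      exact one_ne_zero⟩
  obtain ⟨e', he'⟩ : ∃ e' : M, (e' : G) = e := ⟨⟨e, heM⟩, rfl⟩
  have hzp : Subgroup.zpowers e' = (Subgroup.zpowers e).subgroupOf M := by
    ext k
    constructor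
    · rintro ⟨n, rfl⟩
      refine ⟨n, ?_⟩
      show e ^ n = ((e' ^ n : M) : G)
      rw [Subgroup.coe_zpow, he']
    · rintro ⟨n, hn⟩
      refine ⟨n, Subtype.ext ?_⟩
      show ((e' ^ n : M) : G) = k
      rw [Subgroup.coe_zpow, he']
      exact hn
  have hE : CyE (T.induce Y) e' := by
    refine ⟨hD.tree, hD.nb, ?_, ?_⟩
    · intro n hn h
      apply hei n hn
      rw [← he', ← Subgroup.coe_pow, h, Subgroup.coe_one]
    · intro x y hxy
      have h1 := hcomE.trans (hD.com x y hxy)
      rw [hzp, Est_data hD]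
      refine ⟨?_, ?_⟩
      · rw [Subgroup.relIndex_subgroupOf (Est_le_data hD hxy)]
        exact h1.1
      · rw [Subgroup.relIndex_subgroupOf (Subgroup.zpowers_le.2 heM)]
        exact h1.2
  have hstM := st_data hD hC hst
  by_cases hbal : ∀ g : G, Bal e g
  · -- the balanced case
    refine hC.base.base.of_injective _ _ (Subgroup.topEquiv (G := M)).symm.toMonoidHom
      (Subgroup.topEquiv (G := M)).symm.injective (bal_mem hE hC hstM ⊤ ?_)
    intro g _ m n h
    apply hbal (g : G) m n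
    have h1 := congrArg Subtype.val h
    simpa [he'] using h1
  · refine cyc_main hE hC hmet hstM ?_
    intro x
    -- the condition on the vertex
    obtain ⟨y, hxy⟩ := hD.nb x
    obtain ⟨k, hk, h1⟩ := pow_mem_Est hE hxy
    have h2 : e ^ k ∈ Est G x.1 y.1 := by
      rw [Est_data hD] at h1
      have h3 : ((e' ^ k : M) : G) ∈ Est G x.1 y.1 := h1
      rwa [Subgroup.coe_pow, he'] at h3
    have hgx : GoodG T e x.1 := by
      rcases hgood x.1 y.1 hxy _ h2 (hei.pow hk) with h | h
      · exact absurd (fun g => bal_pow hk (h g)) hbal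
      · exact goodG_pow hk h
    have hK : ∀ m : M, m ∈ Kz e' x → (m : G) ∈ Kz e x.1 := by
      rintro m ⟨h3, j, hj, h4⟩
      refine ⟨?_, j, hj, ?_⟩
      · rw [← hD.smul, h3]
      · have h5 := congrArg Subtype.val h4
        simpa [he'] using h5
    have hal : ∀ (S : Subgroup M) (S' : Subgroup G), (∀ m ∈ S, (m : G) ∈ S') → Al e S' →
        Al e' S := by
      intro S S' hS h n hn h3
      apply h n hn
      have h4 : ((e' ^ n : M) : G) ∈ (⁅S, S⁆).map M.subtype := ⟨_, h3, rfl⟩
      rw [Subgroup.map_commutator, Subgroup.coe_pow, he'] at h4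
      have h5 : S.map M.subtype ≤ S' := by
        rintro _ ⟨m, hm, rfl⟩
        exact hS m hm
      exact Subgroup.commutator_mono h5 h5 h4
    rcases hgx with h | ⟨h3, h4⟩
    · exact Or.inl (hal _ _ hK h)
    · right
      refine ⟨?_, hal _ _ ?_ h4⟩
      · intro g hg m n h5
        have hg' : (g : G) • x.1 = x.1 := by rw [← hD.smul, hg]
        apply h3 (g : G) hg' m n
        have h6 := congrArg Subtype.val h5
        simpa [he'] using h6
      · intro m hm
        have h5 : (m : G) ∈ (Nz (T.induce Y) e' x).map M.subtype := ⟨m, hm, rfl⟩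
        rw [Nz, MonoidHom.map_closure] at h5
        refine Subgroup.closure_mono ?_ h5
        rintro _ ⟨l, ⟨hl, u, hu1, hu2⟩, rfl⟩
        refine ⟨hK l hl, u.1, hu1, ?_, ?_⟩
        · show (l : G) • u.1 = u.1
          rw [← hD.smul, hu2]
        · obtain ⟨j, hj, h6⟩ := pow_mem_Est hE hu1
          refine ⟨j, hj, ?_⟩
          rw [Est_data hD] at h6
          have h7 : ((e' ^ j : M) : G) ∈ Est G x.1 u.1 := h6
          rw [Subgroup.coe_pow, he'] at h7
          exact h7.2

end Q182.De
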