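import Pool.Agent.Q182.DeP
import Pool.Agent.Q182.DeCyl

/-!
# Trees with cyclic edge stabilizers
-/

set_option autoImplicit false

namespace Q182.De

open SimpleGraph
open Pool.Agent.Helper270.Tree
open Pool.Agent.Y110.FJ (ClosedE)
open Q182.Cyl (ClosedA Est InfOrd CorF VcEdges cyl cyls fam_cyls infinite_inf infinite_of_le Est_smul
  Est_comm self_mem_cyl)
open Q182.Hv (KK mem_KK)
open Subgroup (Commensurable)
open Subgroup.Commensurable (commensurator commensurator_mem_iff)
open scoped Pointwise commutatorElement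

variable {C : ∀ (G : Type) [Group G], Prop} {G V : Type} [Group G] [MulAction G V]
  {T : SimpleGraph V} {e : G}

theorem fam_Nz (hE : CyE T e) (hg : ∀ x, Al e (Nz T e x)) :
    Fam T (Subgroup.zpowers e) (Nz T e) where
  tree := hE.tree
  nb := hE.nb
  ab := by
    rintro _ ⟨i, rfl⟩ _ ⟨j, rfl⟩
    exact ((Commute.refl e).zpow_zpow i j).eq
  tf := by
    rintro _ ⟨i, rfl⟩ hne
    refine hE.inf.zpow' ?_
    rintro rfl
    exact hne (zpow_zero e)
  com := hE.com
  conj := fun g x m hm => conj_Nz hE g x hm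
  le := by
    intro x m hm
    obtain ⟨_, k, hk, h⟩ := Nz_le e x hm
    rw [mem_KK]
    intro h0
    refine Q182.Cyl.zp_pow_index e k hk (Subgroup.relIndex_eq_zero_of_le_left ?_ h0)
    rw [Subgroup.zpowers_le, Subgroup.mem_centralizer_iff]
    intro y hy
    rw [Set.mem_singleton_iff.1 hy]
    exact h
  fix := by
    intro x m hm
    exact (Nz_le e x hm).1
  edge := by
    intro x y hxy m hm hx hy
    obtain ⟨k, hk, _, h1⟩ := Subgroup.exists_pow_mem_of_relIndex_ne_zero (mem_KK.1 hm)
      (Subgroup.mem_zpowers e)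
    have h2 := (Subgroup.mem_inf.1 h1).1
    rw [Subgroup.mem_centralizer_iff] at h2
    exact Subgroup.subset_closure ⟨⟨hx, k, hk, h2 m rfl⟩, y, hxy, hy⟩
  det := by
    rintro x _ ⟨j, rfl⟩ h
    by_contra hne
    have hj : j ≠ 0 := by
      rintro rfl
      exact hne (zpow_zero e)
    exact hg x _ (Int.natAbs_pos.2 hj) (natAbs_mem h)

theorem cyc_main2 (hE : CyE T e) (hC : ClosedA C)
    (hmet : ∀ (G : Type) [Group G], derivedSeries G 2 = ⊥ → C G)
    (hst : ∀ v : V, C (MulAction.stabilizer G v))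
    (hcyc : ∀ v w, T.Adj v w → IsCyclic (Est G v w)) (hg : ∀ x, Al e (Nz T e x)) : C G :=
  main hC hmet (fam_Nz hE hg) hst (fun x => P_mem hE (fam_Nz hE hg) hcyc x hC hst)

/-- the subgroup generated by the stabilizers of the edges at `x` fixed by a power of `z` -/
def NE (T : SimpleGraph V) (z : G) (x : V) : Subgroup G :=
  Subgroup.closure {g | g • x = x ∧ ∃ y, T.Adj x y ∧ g • y = y ∧ ∃ k : ℕ, 0 < k ∧ z ^ k • y = y}

theorem NzG_le (z : G) (x : V) : NzG T z x ≤ NE T z x :=
  Subgroup.closure_mono fun _ h => ⟨h.1.1, h.2⟩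

/-- **trees with cyclic edge stabilizers** -/
theorem cyl_main2 (hC : ClosedA C) (hmet : ∀ (G : Type) [Group G], derivedSeries G 2 = ⊥ → C G)
    (hT : TreeAct G T) (hcyc : ∀ v w, T.Adj v w → Finite (Est G v w) ∨ IsCyclic (Est G v w))
    (hst : ∀ v : V, C (MulAction.stabilizer G v))
    (hgood : ∀ v w : V, T.Adj v w → ∀ z ∈ Est G v w, InfOrd z →
      (∀ g : G, Bal z g) ∨ Al z (NE T z v)) : C G := by
  have hvc : VcEdges G T := by
    intro v w hvw
    rcases hcyc v w hvw with h | h
    · refine ⟨1, one_mem _, ?_⟩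
      rw [Subgroup.zpowers_one_eq_bot, Subgroup.relIndex_bot_left]
      exact Nat.card_pos.ne'
    · obtain ⟨c, hc⟩ := h.exists_generator
      refine ⟨c, c.2, ?_⟩
      have h1 : Est G v w ≤ Subgroup.zpowers (c : G) := by
        intro y hy
        obtain ⟨n, hn⟩ := hc ⟨y, hy⟩
        exact ⟨n, congrArg Subtype.val hn⟩
      rw [Subgroup.relIndex_eq_one.2 h1]
      exact one_ne_zero
  refine reduce hC hT (Q182.Cyl.corF_of_vc hvc) hst ?_
  intro v w hvw hinf M Y act hD
  obtain ⟨e, he, hei⟩ := Q182.Cyl.exists_infOrd (hvc v w hvw) le_rfl hinf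
  have heM : e ∈ M := hD.le he
  have hcomE : Commensurable (Subgroup.zpowers e) (Est G v w) :=
    ⟨Q182.Cyl.zp_index (hvc v w hvw) hei he, by
      rw [Subgroup.relIndex_eq_one.2 (Subgroup.zpowers_le.2 he)]
      exact one_ne_zero⟩
  obtain ⟨e', he'⟩ : ∃ e' : M, (e' : G) = e := ⟨⟨e, heM⟩, rfl⟩
  have hzp : Subgroup.zpowers e' = (Subgroup.zpowers e).subgroupOf M := by
    ext k
    constructor
    · rintro ⟨n, rfl⟩
      refine ⟨n, ?_⟩
      show e ^ n = ((e' ^ n : M) : G)
      rw [Subgroup.coe_zpow, he']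
    · rintro ⟨n, hn⟩
      refine ⟨n, Subtype.ext ?_⟩
      show ((e' ^ n : M) : G) = k
      rw [Subgroup.coe_zpow, he']
      exact hn
  have hE : CyE (T.induce Y) e' := by
    refine ⟨hD.tree, hD.nb, ?_, ?_⟩
    · intro n hn h
      apply hei n hn
      rw [← he', ← Subgroup.coe_pow, h, Subgroup.coe_one]
    · intro x y hxy
      have h1 := hcomE.trans (hD.com x y hxy)
      rw [hzp, Est_data hD]
      refine ⟨?_, ?_⟩
      · rw [Subgroup.relIndex_subgroupOf (Est_le_data hD hxy)]
        exact h1.1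
      · rw [Subgroup.relIndex_subgroupOf (Subgroup.zpowers_le.2 heM)]
        exact h1.2
  have hstM := st_data hD hC hst
  by_cases hbal : ∀ g : G, Bal e g
  · -- the balanced case
    refine hC.base.base.of_injective _ _ (Subgroup.topEquiv (G := M)).symm.toMonoidHom
      (Subgroup.topEquiv (G := M)).symm.injective (bal_mem hE hC hstM ⊤ ?_)
    intro g _ m n h
    apply hbal (g : G) m n
    have h1 := congrArg Subtype.val h
    simpa [he'] using h1
  · refine cyc_main2 hE hC hmet hstM ?_ ?_
    · intro x y hxy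
      have h1 : Infinite (Est G x.1 y.1) :=
        infinite_of_le inf_le_right (infinite_inf (hD.com x y hxy) hinf)
      have h2 : IsCyclic (Est G x.1 y.1) := by
        rcases hcyc x.1 y.1 hxy with h | h
        · exact absurd h (not_finite_iff_infinite.2 h1)
        · exact h
      rw [Est_data hD]
      let f : ↥((Est G x.1 y.1).subgroupOf M) →* Est G x.1 y.1 :=
        MonoidHom.mk' (fun k => ⟨((k : M) : G), k.2⟩) (fun _ _ => rfl)
      refine isCyclic_of_injective f ?_
      intro a b hab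
      exact Subtype.ext (Subtype.ext (congrArg (fun u : Est G x.1 y.1 => (u : G)) hab))
    · intro x
      -- the condition on the vertex
      obtain ⟨y, hxy⟩ := hD.nb x
      obtain ⟨k, hk, h1⟩ := pow_mem_Est hE hxy
      have h2 : e ^ k ∈ Est G x.1 y.1 := by
        rw [Est_data hD] at h1
        have h3 : ((e' ^ k : M) : G) ∈ Est G x.1 y.1 := h1
        rwa [Subgroup.coe_pow, he'] at h3
      have hgx : Al e (NzG T e x.1) := by
        rcases hgood x.1 y.1 hxy _ h2 (hei.pow hk) with h | h
        · exact absurd (fun g => bal_pow hk (h g)) hbal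
        · rw [← NzG_pow e x.1 hk]
          refine al_pow (k := k) ?_
          intro n hn h3
          exact h n hn (Subgroup.commutator_mono (NzG_le _ _) (NzG_le _ _) h3)
      have hK : ∀ m : M, m ∈ Kz e' x → (m : G) ∈ Kz e x.1 := by
        rintro m ⟨h3, j, hj, h4⟩
        refine ⟨?_, j, hj, ?_⟩
        · rw [← hD.smul, h3]
        · have h5 := congrArg Subtype.val h4
          simpa [he'] using h5
      intro n hn h3
      apply hgx n hn
      have h4 : ((e' ^ n : M) : G) ∈ (⁅Nz (T.induce Y) e' x, Nz (T.induce Y) e' x⁆).map M.subtype :=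
        ⟨_, h3, rfl⟩
      rw [Subgroup.map_commutator, Subgroup.coe_pow, he'] at h4
      have h5 : (Nz (T.induce Y) e' x).map M.subtype ≤ NzG T e x.1 := by
        rw [Nz, MonoidHom.map_closure]
        refine Subgroup.closure_mono ?_
        rintro _ ⟨l, ⟨hl, u, hu1, hu2⟩, rfl⟩
        refine ⟨hK l hl, u.1, hu1, ?_, ?_⟩
        · show (l : G) • u.1 = u.1
          rw [← hD.smul, hu2]
        · obtain ⟨j, hj, h6⟩ := pow_mem_Est hE hu1
          refine ⟨j, hj, ?_⟩
          rw [Est_data hD] at h6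
          have h7 : ((e' ^ j : M) : G) ∈ Est G x.1 u.1 := h6
          rw [Subgroup.coe_pow, he'] at h7
          exact h7.2
      exact Subgroup.commutator_mono h5 h5 h4

end Q182.De
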