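import Pool.Agent.Q182.HvHom

/-!
# Families of subgroups of the vertex stabilizers which detect the edge stabilizers
-/

set_option autoImplicit false

namespace Q182.De

open SimpleGraph
open Pool.Agent.Helper270.Tree
open Pool.Agent.Y110.FJ (ClosedE)
open Pool.Agent.Y462.SS (Closed)
open Q182.Cyl (ClosedA Est InfOrd Est_smul)
open Q182.Cen (Ell Orb mk mk_eq mk_smul exists_mk QG qAct treeAct_QG exists_lift bundle)
open Q182.Hv (KK mem_KK conj_KK lg lg_eq lg_conj le_KK)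
open Subgroup (Commensurable)
open scoped Pointwise commutatorElement

variable {G V : Type} [Group G] [MulAction G V] {T : SimpleGraph V}

/-- a family of subgroups `Mf v` of the vertex stabilizers; the edge stabilizers are commensurable
with the torsion-free abelian group `H` -/
structure Fam (T : SimpleGraph V) (H : Subgroup G) (Mf : V → Subgroup G) : Prop where
  tree : TreeAct G T
  nb : ∀ v, ∃ w, T.Adj v w
  ab : ∀ a ∈ H, ∀ b ∈ H, a * b = b * a
  tf : ∀ a ∈ H, a ≠ 1 → InfOrd a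
  com : ∀ v w, T.Adj v w → Commensurable H (Est G v w)
  conj : ∀ (g : G) (v : V), ∀ m ∈ Mf v, g * m * g⁻¹ ∈ Mf (g • v)
  le : ∀ v, Mf v ≤ KK H
  fix : ∀ v, ∀ m ∈ Mf v, m • v = v
  edge : ∀ v w, T.Adj v w → ∀ m ∈ KK H, m • v = v → m • w = w → m ∈ Mf v
  det : ∀ v, ∀ h ∈ H, h ∈ ⁅Mf v, Mf v⁆ → h = 1

/-- the subgroup generated by the family -/
def MM (Mf : V → Subgroup G) : Subgroup G := Subgroup.closure {m | ∃ v, m ∈ Mf v}

omit [MulAction G V] in
theorem mem_MM {Mf : V → Subgroup G} {m : G} {v : V} (h : m ∈ Mf v) : m ∈ MM Mf :=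
  Subgroup.subset_closure ⟨v, h⟩

variable {H : Subgroup G} {Mf : V → Subgroup G} (hF : Fam T H Mf)

include hF in
theorem conjH (g : G) : Commensurable (ConjAct.toConjAct g • H) H := by
  obtain ⟨v⟩ := hF.tree.isTree.connected.nonempty
  obtain ⟨w, hvw⟩ := hF.nb v
  have h1 := (Subgroup.Commensurable.commensurable_conj (ConjAct.toConjAct g)).1 (hF.com v w hvw)
  rw [← Est_smul] at h1
  exact h1.trans (hF.com _ _ (hF.tree.adj g v w hvw)).symm

include hF in
theorem MM_le : MM Mf ≤ KK H := by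
  refine (Subgroup.closure_le _).2 ?_
  rintro k ⟨v, hk⟩
  exact hF.le v hk

include hF in
theorem ell_MM : Ell V (MM Mf) := by
  refine (Subgroup.closure_le _).2 ?_
  rintro k ⟨v, hk⟩
  exact Subgroup.subset_closure ⟨mem_MM hk, v, hF.fix v k hk⟩

include hF in
theorem normal_MM : (MM Mf).Normal := by
  constructor
  intro m hm g
  have h1 : g * m * g⁻¹ ∈ (MM Mf).map (MulAut.conj g).toMonoidHom := ⟨m, hm, rfl⟩
  rw [MM, MonoidHom.map_closure] at h1
  refine Subgroup.closure_mono ?_ h1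
  rintro _ ⟨k, ⟨v, hk⟩, rfl⟩
  exact ⟨g • v, hF.conj g v k hk⟩

include hF in
/-- the subgroup generated by the family meets the vertex stabilizers in the given groups -/
theorem mem_Mf {m₀ : G} (hm₀ : m₀ ∈ MM Mf) {v : V} (hv : m₀ • v = v) : m₀ ∈ Mf v := by
  classical
  let S : Subgroup G := MM Mf ⊓ MulAction.stabilizer G v
  let D : Subgroup S := (Mf v).subgroupOf S
  have hD : D.Normal := by
    constructor
    rintro n hn g
    have h1 := hF.conj g v n hn
    have h2 : (g : G) • v = v := g.2.2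
    rw [h2] at h1
    exact h1
  let P : V → Prop := fun x => ∃ k ∈ MM Mf, k • v = x
  have hk : ∀ x, ∃ k ∈ MM Mf, P x → k • v = x := by
    intro x
    by_cases h : P x
    · obtain ⟨k, hk, h1⟩ := h
      exact ⟨k, hk, fun _ => h1⟩
    · exact ⟨1, Subgroup.one_mem _, fun h1 => absurd h1 h⟩
  choose k hkM hkv using hk
  have hP : ∀ n ∈ MM Mf, ∀ x, P (n • x) ↔ P x := by
    intro n hn x
    constructor
    · rintro ⟨l, hl, h1⟩
      exact ⟨n⁻¹ * l, Subgroup.mul_mem _ (Subgroup.inv_mem _ hn) hl, by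
        rw [mul_smul, h1, inv_smul_smul]⟩
    · rintro ⟨l, hl, h1⟩
      exact ⟨n * l, Subgroup.mul_mem _ hn hl, by rw [mul_smul, h1]⟩
  have hS : ∀ m ∈ MM Mf, ∀ x, P x → (k (m • x))⁻¹ * m * k x ∈ S := by
    intro m hm x hx
    refine ⟨Subgroup.mul_mem _ (Subgroup.mul_mem _ (Subgroup.inv_mem _ (hkM _)) hm) (hkM _), ?_⟩
    show ((k (m • x))⁻¹ * m * k x) • v = v
    rw [mul_smul, mul_smul, hkv x hx, inv_smul_eq_iff, hkv _ ((hP m hm x).2 hx)]
  let c : G → V → S ⧸ D := fun m x =>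
    if h : P x ∧ (k (m • x))⁻¹ * m * k x ∈ S then QuotientGroup.mk ⟨_, h.2⟩ else 1
  have hcP : ∀ m (hm : m ∈ MM Mf) x (hx : P x),
      c m x = QuotientGroup.mk ⟨(k (m • x))⁻¹ * m * k x, hS m hm x hx⟩ := by
    intro m hm x hx
    exact dif_pos ⟨hx, hS m hm x hx⟩
  have hcN : ∀ m x, ¬ P x → c m x = 1 := by
    intro m x hx
    exact dif_neg fun h => hx h.1
  have hc : ∀ m ∈ MM Mf, ∀ n ∈ MM Mf, ∀ x, c (m * n) x = c m (n • x) * c n x := by
    intro m hm n hn x
    by_cases hx : P x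
    · rw [hcP _ (Subgroup.mul_mem _ hm hn) x hx, hcP _ hm _ ((hP n hn x).2 hx), hcP _ hn x hx,
        ← QuotientGroup.mk_mul]
      congr 1
      apply Subtype.ext
      show (k ((m * n) • x))⁻¹ * (m * n) * k x =
        (k (m • n • x))⁻¹ * m * k (n • x) * ((k (n • x))⁻¹ * n * k x)
      rw [mul_smul]
      group
    · rw [hcN _ _ hx, hcN _ _ hx, hcN _ _ (fun h => hx ((hP n hn x).1 h)), mul_one]
  have hc1 : ∀ x, ∀ m ∈ Mf x, c m x = 1 := by
    intro x m hm
    by_cases hx : P x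
    · rw [hcP _ (mem_MM hm) x hx]
      refine (QuotientGroup.eq_one_iff _).2 ?_
      rw [Subgroup.mem_subgroupOf]
      show (k (m • x))⁻¹ * m * k x ∈ Mf v
      rw [hF.fix x m hm]
      have h1 := hF.conj (k x)⁻¹ x m hm
      have h2 : (k x)⁻¹ • x = v := by rw [inv_smul_eq_iff, hkv x hx]
      rwa [h2, inv_inv] at h1
    · exact hcN _ _ hx
  obtain ⟨lam, F, -, hlam⟩ := bundle hF.tree (ell_MM hF) c hc (by
    intro m hm x y hxy hx hy
    rw [hc1 x m (hF.edge x y hxy m (MM_le hF hm) hx hy),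
      hc1 y m (hF.edge y x hxy.symm m (MM_le hF hm) hy hx)]) v
  have hker : MM Mf ≤ lam.ker.map (MM Mf).subtype := by
    refine (Subgroup.closure_le _).2 ?_
    rintro m ⟨x, hm⟩
    refine ⟨⟨m, mem_MM hm⟩, ?_, rfl⟩
    have h1 := hlam ⟨m, mem_MM hm⟩ x
    have h2 : m • x = x := hF.fix x m hm
    simp only [h2, hc1 x m hm] at h1
    show lam ⟨m, mem_MM hm⟩ = 1
    have h3 : lam ⟨m, mem_MM hm⟩ = (F x)⁻¹ * (F x * lam ⟨m, mem_MM hm⟩ * (F x)⁻¹) * F x := by group
    rw [h3, ← h1]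
    group
  have h1 := hlam ⟨m₀, hm₀⟩ v
  have h2 : lam ⟨m₀, hm₀⟩ = 1 := by
    obtain ⟨y, hy, hy2⟩ := hker hm₀
    have h3 : y = ⟨m₀, hm₀⟩ := Subtype.ext hy2
    rw [← h3]
    exact hy
  have hPv : P v := ⟨1, Subgroup.one_mem _, one_smul _ _⟩
  simp only [h2, hv, mul_one, mul_inv_cancel] at h1
  rw [hcP _ hm₀ v hPv] at h1
  have h4 := (QuotientGroup.eq_one_iff _).1 h1
  rw [Subgroup.mem_subgroupOf] at h4
  have h5 : (k (m₀ • v))⁻¹ * m₀ * k v ∈ Mf v := h4
  rw [hv] at h5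
  have h6 := hF.conj (k v) v _ h5
  rw [hkv v hPv] at h6
  have h7 : k v * ((k v)⁻¹ * m₀ * k v) * (k v)⁻¹ = m₀ := by group
  rwa [h7] at h6

include hF in
theorem exists_pow {g : G} {v w : V} (hvw : T.Adj v w) (hv : g • v = v) (hw : g • w = w) :
    ∃ m : ℕ, 0 < m ∧ g ^ m ∈ H := by
  obtain ⟨m, hm, _, h⟩ := Subgroup.exists_pow_mem_of_relIndex_ne_zero (hF.com v w hvw).1
    (show g ∈ Est G v w from ⟨hv, hw⟩)
  exact ⟨m, hm, (Subgroup.mem_inf.1 h).1⟩

end Q182.De
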