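import Pool.Agent.Q182.DeAb

/-!
# The representation of the commensurator of a torsion-free abelian group of finite rank
-/

set_option autoImplicit false

namespace Q182.De

open Q182.Cyl (ClosedA Est InfOrd)
open Q182.Hv (KK mem_KK conj_KK lg lg_eq phi_pow sep_rat)
open Subgroup (Commensurable)
open Subgroup.Commensurable (commensurator commensurator_mem_iff)
open scoped Pointwise commutatorElement

section rep

variable {G : Type} [Group G] {H : Subgroup G}

open Classical in
/-- extension by zero -/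
noncomputable def ex (φ : Additive H →+ ℚ) (g : G) : ℚ :=
  if h : g ∈ H then φ (Additive.ofMul ⟨g, h⟩) else 0

theorem ex_of (φ : Additive H →+ ℚ) {g : G} (h : g ∈ H) : ex φ g = φ (Additive.ofMul ⟨g, h⟩) :=
  dif_pos h

theorem ex_mul (φ : Additive H →+ ℚ) : ∀ a ∈ H, ∀ b ∈ H, ex φ (a * b) = ex φ a + ex φ b := by
  intro a ha b hb
  rw [ex_of φ ha, ex_of φ hb, ex_of φ (H.mul_mem ha hb), ← map_add, ← ofMul_mul]
  rfl

/-- conjugates of elements of `H` have powers in `H` -/
theorem conj_pow_mem {g : G} (hg : g ∈ commensurator H) {h : G} (hh : h ∈ H) :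
    ∃ m : ℕ, 0 < m ∧ (g⁻¹ * h * g) ^ m ∈ H := by
  have hg' : g⁻¹ ∈ commensurator H := inv_mem hg
  rw [commensurator_mem_iff] at hg'
  obtain ⟨m, hm, _, h1⟩ := Subgroup.exists_pow_mem_of_relIndex_ne_zero hg'.2
    (show g⁻¹ * h * g ∈ ConjAct.toConjAct g⁻¹ • H by
      rw [Subgroup.mem_pointwise_smul_iff_inv_smul_mem, ← ConjAct.toConjAct_inv,
        ConjAct.toConjAct_smul]
      simpa [mul_assoc] using hh)
  exact ⟨m, hm, (Subgroup.mem_inf.1 h1).1⟩

theorem conj_pow_eq (g h : G) (m : ℕ) : (g⁻¹ * h * g) ^ m = g⁻¹ * h ^ m * g := by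
  have h1 := conj_pow (i := m) (a := g⁻¹) (b := h)
  rw [inv_inv] at h1
  exact h1

variable (hab : ∀ a ∈ H, ∀ b ∈ H, a * b = b * a)

/-- the action of an element of the commensurator on a homomorphism to the rationals -/
noncomputable def act (hab : ∀ a ∈ H, ∀ b ∈ H, a * b = b * a) (g : commensurator H)
    (φ : Additive H →+ ℚ) : Additive H →+ ℚ where
  toFun := fun h => lg H (ex φ) ((g : G)⁻¹ * (h.toMul : H) * g)
  map_zero' := by
    have h1 : (g : G)⁻¹ * ((0 : Additive H).toMul : H) * g = 1 := by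
      rw [toMul_zero, Subgroup.coe_one, mul_one, inv_mul_cancel]
    rw [h1, lg_eq (ex_mul φ) one_pos (by rw [one_pow]; exact H.one_mem), one_pow]
    have h2 := ex_mul φ 1 H.one_mem 1 H.one_mem
    rw [mul_one] at h2
    have h3 : ex φ 1 = 0 := by linarith
    rw [h3, zero_div]
  map_add' := by
    intro a b
    obtain ⟨m, hm, h1⟩ := conj_pow_mem g.2 a.toMul.2
    obtain ⟨n, hn, h2⟩ := conj_pow_mem g.2 b.toMul.2
    have h3 : ((g : G)⁻¹ * (a.toMul : H) * g) ^ (m * n) ∈ H := by
      rw [pow_mul]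
      exact H.pow_mem h1 n
    have h4 : ((g : G)⁻¹ * (b.toMul : H) * g) ^ (m * n) ∈ H := by
      rw [mul_comm m, pow_mul]
      exact H.pow_mem h2 m
    have h5 : ((g : G)⁻¹ * ((a + b).toMul : H) * g) ^ (m * n) =
        ((g : G)⁻¹ * (a.toMul : H) * g) ^ (m * n) * ((g : G)⁻¹ * (b.toMul : H) * g) ^ (m * n) := by
      rw [conj_pow_eq, conj_pow_eq, conj_pow_eq, toMul_add, Subgroup.coe_mul]
      have h6 : Commute ((a.toMul : H) : G) ((b.toMul : H) : G) := hab _ a.toMul.2 _ b.toMul.2
      rw [h6.mul_pow]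
      group
    rw [lg_eq (ex_mul φ) (Nat.mul_pos hm hn) h3, lg_eq (ex_mul φ) (Nat.mul_pos hm hn) h4,
      lg_eq (ex_mul φ) (Nat.mul_pos hm hn) (by rw [h5]; exact H.mul_mem h3 h4), h5,
      ex_mul φ _ h3 _ h4, add_div]

theorem act_apply (g : commensurator H) (φ : Additive H →+ ℚ) {h : G} (hh : h ∈ H) {m : ℕ}
    (hm : 0 < m) (h1 : ((g : G)⁻¹ * h * g) ^ m ∈ H) :
    act hab g φ (Additive.ofMul ⟨h, hh⟩) = φ (Additive.ofMul ⟨_, h1⟩) / m := by
  show lg H (ex φ) ((g : G)⁻¹ * h * g) = _
  rw [lg_eq (ex_mul φ) hm h1, ex_of φ h1]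

theorem act_one (φ : Additive H →+ ℚ) : act hab 1 φ = φ := by
  refine DFunLike.ext _ _ fun h => ?_
  obtain ⟨h, rfl⟩ := Additive.ofMul.surjective h
  have h1 : (((1 : commensurator H) : G)⁻¹ * (h : G) * ((1 : commensurator H) : G)) ^ 1 ∈ H := by
    simp
  have h2 := act_apply hab 1 φ h.2 one_pos h1
  have h3 : (⟨_, h1⟩ : H) = h := Subtype.ext (by simp)
  rw [h3] at h2
  rw [show (⟨(h : G), h.2⟩ : H) = h from rfl] at h2
  rw [h2]
  simp

theorem act_mul (g g' : commensurator H) (φ : Additive H →+ ℚ) :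
    act hab (g * g') φ = act hab g (act hab g' φ) := by
  refine DFunLike.ext _ _ fun h => ?_
  obtain ⟨h, rfl⟩ := Additive.ofMul.surjective h
  obtain ⟨m, hm, h1⟩ := conj_pow_mem g.2 h.2
  obtain ⟨n, hn, h2⟩ := conj_pow_mem g'.2 h1
  have h3 : (((g * g' : commensurator H) : G)⁻¹ * (h : G) * ((g * g' : commensurator H) : G)) ^
      (m * n) = ((g' : G)⁻¹ * (((g : G)⁻¹ * h * g) ^ m) * g') ^ n := by
    rw [pow_mul, conj_pow_eq, conj_pow_eq, conj_pow_eq, conj_pow_eq, Subgroup.coe_mul, mul_inv_rev,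
      conj_pow_eq, ← pow_mul]
    group
  have h4 : (((g * g' : commensurator H) : G)⁻¹ * (h : G) * ((g * g' : commensurator H) : G)) ^
      (m * n) ∈ H := by rw [h3]; exact h2
  have e1 := act_apply hab (g * g') φ h.2 (Nat.mul_pos hm hn) h4
  have e2 := act_apply hab g (act hab g' φ) h.2 hm h1
  have e3 := act_apply hab g' φ h1 hn h2
  have e4 : (⟨_, h4⟩ : H) = ⟨_, h2⟩ := Subtype.ext h3
  rw [show (⟨(h : G), h.2⟩ : H) = h from rfl] at e1 e2
  rw [e1, e2, e3, e4]
  push_cast
  rw [div_div, mul_comm (n : ℚ)]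

/-- the representation -/
noncomputable def rep (hab : ∀ a ∈ H, ∀ b ∈ H, a * b = b * a) :
    commensurator H →* Module.End ℚ (Additive H →+ ℚ) where
  toFun := fun g =>
    { toFun := act hab g
      map_add' := by
        intro φ ψ
        refine DFunLike.ext _ _ fun h => ?_
        obtain ⟨h, rfl⟩ := Additive.ofMul.surjective h
        obtain ⟨m, hm, h1⟩ := conj_pow_mem g.2 h.2
        have e1 := act_apply hab g (φ + ψ) h.2 hm h1
        have e2 := act_apply hab g φ h.2 hm h1
        have e3 := act_apply hab g ψ h.2 hm h1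
        rw [show (⟨(h : G), h.2⟩ : H) = h from rfl] at e1 e2 e3
        rw [AddMonoidHom.add_apply, e1, e2, e3, AddMonoidHom.add_apply, add_div]
      map_smul' := by
        intro c φ
        refine DFunLike.ext _ _ fun h => ?_
        obtain ⟨h, rfl⟩ := Additive.ofMul.surjective h
        obtain ⟨m, hm, h1⟩ := conj_pow_mem g.2 h.2
        have e1 := act_apply hab g (c • φ) h.2 hm h1
        have e2 := act_apply hab g φ h.2 hm h1
        rw [show (⟨(h : G), h.2⟩ : H) = h from rfl] at e1 e2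
        rw [RingHom.id_apply, AddMonoidHom.smul_apply, e1, e2, AddMonoidHom.smul_apply,
          smul_eq_mul, smul_eq_mul, mul_div_assoc] }
  map_one' := by
    refine LinearMap.ext fun φ => ?_
    exact act_one hab φ
  map_mul' := by
    intro g g'
    refine LinearMap.ext fun φ => ?_
    exact act_mul hab g g' φ

/-- the kernel of the representation -/
theorem rep_ker (htf : ∀ a ∈ H, a ≠ 1 → InfOrd a) (g : commensurator H) :
    rep hab g = 1 ↔ (g : G) ∈ KK H := by
  classical
  let iB : CommGroup H := { (inferInstance : Group H) with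
    mul_comm := fun a b => Subtype.ext (hab a a.2 b b.2) }
  constructor
  · intro h0
    have h1 : H ⊓ (ConjAct.toConjAct (g : G) • H) ≤ Subgroup.centralizer {(g : G)} := by
      rintro h ⟨hh, hh'⟩
      have hh'' : (g : G)⁻¹ * h * g ∈ H := by
        have h2 : h ∈ ConjAct.toConjAct (g : G) • H := hh'
        rw [Subgroup.mem_pointwise_smul_iff_inv_smul_mem, ← ConjAct.toConjAct_inv,
          ConjAct.toConjAct_smul, inv_inv] at h2
        exact h2
      rw [Subgroup.mem_centralizer_iff]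
      intro y hy
      rw [Set.mem_singleton_iff.1 hy]
      by_contra hne
      have hne' : (g : G)⁻¹ * h * g * h⁻¹ ≠ 1 := by
        intro h2
        apply hne
        have h3 : (g : G)⁻¹ * h * g = h := mul_inv_eq_one.1 h2
        have h4 : h * g = g * h := by
          nth_rewrite 2 [← h3]
          group
        exact h4.symm
      have hA : (⟨(g : G)⁻¹ * h * g * h⁻¹, H.mul_mem hh'' (H.inv_mem hh)⟩ : H) ≠ 1 := fun h2 =>
        hne' (congrArg Subtype.val h2)
      obtain ⟨φ, hφ⟩ := sep_rat (Additive H) (by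
        intro a ha n hn h2
        refine htf a.toMul a.toMul.2 ?_ n hn ?_
        · intro h3
          apply ha
          apply Additive.toMul.injective
          exact Subtype.ext h3
        · have h3 : a.toMul ^ n = 1 := h2
          rw [← Subgroup.coe_pow, h3, Subgroup.coe_one])
        (Additive.ofMul (⟨(g : G)⁻¹ * h * g * h⁻¹, H.mul_mem hh'' (H.inv_mem hh)⟩ : H)) (by
          intro h2
          apply hA
          exact Additive.ofMul.injective h2)
      apply hφ
      have h2 : ((g : G)⁻¹ * h * g) ^ 1 ∈ H := by rw [pow_one]; exact hh''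
      have h3 := act_apply hab g φ hh one_pos h2
      have h4 : act hab g φ = φ := by
        have h5 := congrArg (fun f : Module.End ℚ (Additive H →+ ℚ) => f φ) h0
        exact h5
      rw [h4, Nat.cast_one, div_one] at h3
      have h5 : (⟨(g : G)⁻¹ * h * g * h⁻¹, H.mul_mem hh'' (H.inv_mem hh)⟩ : H) =
          ⟨((g : G)⁻¹ * h * g) ^ 1, h2⟩ * (⟨h, hh⟩ : H)⁻¹ := Subtype.ext (by
        show (g : G)⁻¹ * h * g * h⁻¹ = ((g : G)⁻¹ * h * g) ^ 1 * h⁻¹
        rw [pow_one])
      rw [h5, ofMul_mul, ofMul_inv, map_add, map_neg, ← h3, add_neg_cancel]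
    rw [mem_KK]
    intro h2
    have h3 := (commensurator_mem_iff H (g : G)).1 g.2
    apply h3.1
    have h4 := Subgroup.relIndex_eq_zero_of_le_left h1 h2
    rwa [Subgroup.inf_relIndex_left] at h4
  · intro hg
    refine LinearMap.ext fun φ => DFunLike.ext _ _ fun h => ?_
    obtain ⟨h, rfl⟩ := Additive.ofMul.surjective h
    obtain ⟨m, hm, _, h1⟩ := Subgroup.exists_pow_mem_of_relIndex_ne_zero (mem_KK.1 hg) h.2
    have h2 := (Subgroup.mem_inf.1 h1).1
    rw [Subgroup.mem_centralizer_iff] at h2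
    have h3 : ((g : G)⁻¹ * (h : G) * g) ^ m = (h : G) ^ m := by
      rw [conj_pow_eq, mul_assoc, ← h2 g rfl, inv_mul_cancel_left]
    have h4 : ((g : G)⁻¹ * (h : G) * g) ^ m ∈ H := by
      rw [h3]
      exact H.pow_mem h.2 m
    have e1 := act_apply hab g φ h.2 hm h4
    rw [show (⟨(h : G), h.2⟩ : H) = h from rfl] at e1
    show act hab g φ (Additive.ofMul h) = φ (Additive.ofMul h)
    rw [e1]
    have h5 : (⟨_, h4⟩ : H) = h ^ m := Subtype.ext h3
    rw [h5, ofMul_pow, map_nsmul, nsmul_eq_mul]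
    have h6 : (m : ℚ) ≠ 0 := by positivity
    field_simp

/-- homomorphisms from a group of finite rank to the rationals -/
theorem fin_dim {n : ℕ} (f : H →* Multiplicative (Fin n → ℚ)) (hf : Function.Injective f)
    (hab : ∀ a ∈ H, ∀ b ∈ H, a * b = b * a) : Module.Finite ℚ (Additive H →+ ℚ) := by
  classical
  let iB : CommGroup H := { (inferInstance : Group H) with
    mul_comm := fun a b => Subtype.ext (hab a a.2 b b.2) }
  let f' : Additive H →+ (Fin n → ℚ) :=
    { toFun := fun a => Multiplicative.toAdd (f a.toMul)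
      map_zero' := by
        show Multiplicative.toAdd (f 1) = 0
        rw [map_one]
        rfl
      map_add' := by
        intro a b
        show Multiplicative.toAdd (f (a.toMul * b.toMul)) = _
        rw [map_mul]
        rfl }
  have hf' : Function.Injective f' := by
    intro a b hab
    exact Additive.toMul.injective (hf (Multiplicative.toAdd.injective hab))
  let L : ((Fin n → ℚ) →ₗ[ℚ] ℚ) →ₗ[ℚ] (Additive H →+ ℚ) :=
    { toFun := fun φ => φ.toAddMonoidHom.comp f'
      map_add' := fun _ _ => rfl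
      map_smul' := fun _ _ => rfl }
  refine Module.Finite.of_surjective L ?_
  intro φ
  obtain ⟨ψ, hψ⟩ := ext_rat (A := (Fin n → ℚ)) (B := Additive H) f' hf' φ
  exact ⟨ψ.toRatLinearMap, DFunLike.ext _ _ fun b => hψ b⟩

/-- the commensurator modulo the kernel is a linear group over the rationals -/
theorem exists_GL {n : ℕ} (f : H →* Multiplicative (Fin n → ℚ)) (hf : Function.Injective f)
    (hab : ∀ a ∈ H, ∀ b ∈ H, a * b = b * a) (htf : ∀ a ∈ H, a ≠ 1 → InfOrd a) :
    ∃ (d : ℕ) (ρ : commensurator H →* Matrix.GeneralLinearGroup (Fin d) ℚ),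
      ∀ g, ρ g = 1 ↔ (g : G) ∈ KK H := by
  have hfin := fin_dim f hf hab
  let b := Module.finBasis ℚ (Additive H →+ ℚ)
  let e : (Module.End ℚ (Additive H →+ ℚ))ˣ ≃* Matrix.GeneralLinearGroup _ ℚ :=
    Units.mapEquiv (LinearMap.toMatrixAlgEquiv b).toMulEquiv
  refine ⟨_, e.toMonoidHom.comp (rep hab).toHomUnits, ?_⟩
  intro g
  rw [← rep_ker hab htf g]
  show e ((rep hab).toHomUnits g) = 1 ↔ _
  rw [map_eq_one_iff e e.injective]
  constructor
  · intro h
    exact congrArg Units.val h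
  · intro h
    exact Units.ext h

end rep

variable {C : ∀ (G : Type) [Group G], Prop} {G V : Type} [Group G] [MulAction G V]
  {T : SimpleGraph V}

/-- the condition on the infinite edge stabilizers, for finite rank -/
theorem abE_of_GL (hC : ClosedA C) (hGL : ∀ n : ℕ, C (Matrix.GeneralLinearGroup (Fin n) ℚ)) {v w : V}
    (h1 : ∃ (n : ℕ) (H : Subgroup G) (f : H →* Multiplicative (Fin n → ℚ)), H ≤ Est G v w ∧
      H.relIndex (Est G v w) ≠ 0 ∧ Function.Injective f)
    (h2 : ∀ z ∈ Est G v w, z ∈ ⁅KK (Est G v w) ⊓ MulAction.stabilizer G v,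
      KK (Est G v w) ⊓ MulAction.stabilizer G v⁆ → ∃ n : ℕ, 0 < n ∧ z ^ n = 1) :
    AbE C G v w := by
  obtain ⟨n, H, f, hHE, hHi, hf⟩ := h1
  have hab : ∀ a ∈ H, ∀ b ∈ H, a * b = b * a := by
    intro a ha b hb
    have h3 : (⟨a, ha⟩ : H) * ⟨b, hb⟩ = ⟨b, hb⟩ * ⟨a, ha⟩ := hf (by rw [map_mul, map_mul, mul_comm])
    exact congrArg Subtype.val h3
  have htf : ∀ a ∈ H, a ≠ 1 → InfOrd a := by
    intro a ha hne k hk h3
    apply hne
    have h4 : f ⟨a, ha⟩ ^ k = 1 := by
      rw [← map_pow, ← map_one f]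
      congr 1
      exact Subtype.ext h3
    have h5 : k • Multiplicative.toAdd (f ⟨a, ha⟩) = 0 := h4
    have h6 : Multiplicative.toAdd (f ⟨a, ha⟩) = 0 := by
      rcases smul_eq_zero.1 h5 with h | h
      · omega
      · exact h
    have h7 : f ⟨a, ha⟩ = f 1 := by
      rw [map_one]
      exact h6
    exact congrArg Subtype.val (hf h7)
  refine ⟨⟨H, hHE, hHi, hab, htf⟩, h2, ?_⟩
  obtain ⟨d, ρ, hρ⟩ := exists_GL f hf hab htf
  have hcomH : Commensurable H (Est G v w) :=
    ⟨hHi, by rw [Subgroup.relIndex_eq_one.2 hHE]; exact one_ne_zero⟩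
  have hle : MulAction.stabilizer G v ⊓ commensurator (Est G v w) ≤ commensurator H := by
    rw [Subgroup.Commensurable.eq hcomH]
    exact inf_le_right
  refine ⟨_, inferInstance, ρ.comp (Subgroup.inclusion hle), hGL d, ?_⟩
  intro g
  rw [← KK_congr hcomH]
  exact hρ _

end Q182.De
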