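import Pool.Agent.Q182.DeFam

/-!
# Homomorphisms to the rationals which extend the logarithm
-/

set_option autoImplicit false

namespace Q182.De

open SimpleGraph
open Pool.Agent.Helper270.Tree
open Pool.Agent.Y110.FJ (ClosedE)
open Pool.Agent.Y462.SS (Closed)
open Q182.Cyl (ClosedA Est InfOrd Est_smul)
open Q182.Cen (Ell Orb mk mk_eq mk_smul exists_mk QG qAct treeAct_QG exists_lift bundle)
open Q182.Hv (KK mem_KK conj_KK lg lg_eq lg_conj le_KK sep_rat phi_pow)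
open Subgroup (Commensurable)
open scoped Pointwise commutatorElement

/-- extension of homomorphisms to the rationals -/
theorem ext_rat {A B : Type} [AddCommGroup A] [AddCommGroup B] (f : B →+ A)
    (hf : Function.Injective f) (φ : B →+ ℚ) : ∃ ψ : A →+ ℚ, ∀ b, ψ (f b) = φ b := by
  obtain ⟨ψ, hψ⟩ := (Module.Baer.of_divisible ℚ).extension_property_addMonoidHom f hf φ
  exact ⟨ψ, fun b => DFunLike.congr_fun hψ b⟩

variable {G : Type} [Group G]

/-- the logarithm extends if it is injective on the abelianization -/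
theorem ext_lg {H M : Subgroup G} (hab : ∀ a ∈ H, ∀ b ∈ H, a * b = b * a)
    (hdet : ∀ h ∈ H, h ∈ ⁅M, M⁆ → h = 1) {φ : G → ℚ}
    (hφ : ∀ a ∈ H, ∀ b ∈ H, φ (a * b) = φ a + φ b) :
    ∃ ψ : G → ℚ, (∀ a ∈ M, ∀ b ∈ M, ψ (a * b) = ψ a + ψ b) ∧
      ∀ a ∈ M, (∃ m : ℕ, 0 < m ∧ a ^ m ∈ H) → ψ a = lg H φ a := by
  classical
  let iB : CommGroup ↥(H ⊓ M) := { (inferInstance : Group ↥(H ⊓ M)) with
    mul_comm := fun a b => Subtype.ext (hab a a.2.1 b b.2.1) }
  let j : ↥(H ⊓ M) →* Abelianization M :=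
    Abelianization.of.comp (Subgroup.inclusion (inf_le_right : H ⊓ M ≤ M))
  have hj : Function.Injective j := by
    rw [injective_iff_map_eq_one]
    intro x hx
    have h1 : Subgroup.inclusion (inf_le_right : H ⊓ M ≤ M) x ∈ commutator M := by
      rw [← Abelianization.ker_of, MonoidHom.mem_ker]
      exact hx
    apply Subtype.ext
    apply hdet x x.2.1
    have h2 : (x : G) ∈ (commutator M).map M.subtype := ⟨_, h1, rfl⟩
    rw [commutator_def, Subgroup.map_commutator] at h2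
    refine Subgroup.commutator_mono ?_ ?_ h2
    · rintro _ ⟨y, _, rfl⟩
      exact y.2
    · rintro _ ⟨y, _, rfl⟩
      exact y.2
  have h10 : φ 1 = 0 := by
    have := hφ 1 H.one_mem 1 H.one_mem
    rw [mul_one] at this
    linarith
  let φ' : Additive ↥(H ⊓ M) →+ ℚ :=
    { toFun := fun x => φ (x.toMul : ↥(H ⊓ M))
      map_zero' := h10
      map_add' := fun x y => hφ _ x.toMul.2.1 _ y.toMul.2.1 }
  obtain ⟨ψ, hψ⟩ := ext_rat (A := Additive (Abelianization M)) (B := Additive ↥(H ⊓ M))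
    (MonoidHom.toAdditive j) hj φ'
  let Ψ : G → ℚ := fun a => if h : a ∈ M then ψ (Additive.ofMul (Abelianization.of ⟨a, h⟩)) else 0
  have hΨ : ∀ a (h : a ∈ M), Ψ a = ψ (Additive.ofMul (Abelianization.of ⟨a, h⟩)) := fun a h =>
    dif_pos h
  have hadd : ∀ a ∈ M, ∀ b ∈ M, Ψ (a * b) = Ψ a + Ψ b := by
    intro a ha b hb
    rw [hΨ _ (M.mul_mem ha hb), hΨ a ha, hΨ b hb, ← map_add, ← ofMul_mul, ← map_mul]
    rfl
  refine ⟨Ψ, hadd, ?_⟩
  rintro a ha ⟨m, hm, h1⟩
  rw [lg_eq hφ hm h1]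
  have h2 := phi_pow hadd ha m
  have h3 : Ψ (a ^ m) = φ (a ^ m) := by
    rw [hΨ _ (M.pow_mem ha m)]
    exact hψ (Additive.ofMul ⟨a ^ m, h1, M.pow_mem ha m⟩)
  rw [← h3, h2]
  have h4 : (m : ℚ) ≠ 0 := by positivity
  field_simp

variable {V : Type} [MulAction G V] {T : SimpleGraph V} {H : Subgroup G} {Mf : V → Subgroup G}
  (hF : Fam T H Mf)

include hF in
theorem exists_lam {φ : G → ℚ} (hφ : ∀ a ∈ H, ∀ b ∈ H, φ (a * b) = φ a + φ b) :
    ∃ lam : MM Mf →* Multiplicative ℚ, ∀ (k : MM Mf) (v w : V), T.Adj v w →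
      (k : G) • v = v → (k : G) • w = w → lam k = Multiplicative.ofAdd (lg H φ k) := by
  classical
  let N := MM Mf
  have hN : N.Normal := normal_MM hF
  have hT := hF.tree
  choose ψ hψ1 hψ2 using fun v : V => ext_lg (H := H) (M := Mf v) hF.ab (hF.det v) hφ
  choose s hs using fun w : Orb V N => exists_mk w
  have hk : ∀ x : V, ∃ k ∈ N, k • s (mk N x) = x := fun x => mk_eq.1 (hs (mk N x)).symm
  choose k hkN hk using hk
  let c : G → V → Multiplicative ℚ := fun m x =>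
    Multiplicative.ofAdd (ψ (s (mk N x)) ((k (m • x))⁻¹ * m * k x))
  have hfixs : ∀ m ∈ N, ∀ x, ((k (m • x))⁻¹ * m * k x) • s (mk N x) = s (mk N x) := by
    intro m hm x
    have h1 := hk (m • x)
    rw [mk_smul hm] at h1
    rw [mul_smul, mul_smul, hk x, inv_smul_eq_iff, h1]
  have hmem : ∀ m ∈ N, ∀ x, ((k (m • x))⁻¹ * m * k x) ∈ Mf (s (mk N x)) := fun m hm x =>
    mem_Mf hF (N.mul_mem (N.mul_mem (N.inv_mem (hkN _)) hm) (hkN _)) (hfixs m hm x)
  have hc : ∀ m ∈ N, ∀ n ∈ N, ∀ x, c (m * n) x = c m (n • x) * c n x := by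
    intro m hm n hn x
    have h1 := hmem m hm (n • x)
    rw [mk_smul hn] at h1
    have h2 := hψ1 (s (mk N x)) _ h1 _ (hmem n hn x)
    show Multiplicative.ofAdd (ψ (s (mk N x)) ((k ((m * n) • x))⁻¹ * (m * n) * k x)) =
      Multiplicative.ofAdd (ψ (s (mk N (n • x))) ((k (m • n • x))⁻¹ * m * k (n • x)) +
        ψ (s (mk N x)) ((k (n • x))⁻¹ * n * k x))
    rw [mk_smul hn, ← h2, mul_smul]
    congr 2
    group
  have hcx : ∀ m ∈ N, ∀ x y, T.Adj x y → m • x = x → m • y = y →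
      c m x = Multiplicative.ofAdd (lg H φ m) := by
    intro m hm x y hxy hx hy
    obtain ⟨j, hj, hjH⟩ := exists_pow hF hxy hx hy
    -- `(k x)⁻¹ m (k x)` fixes an edge
    have hadj := hT.adj (k x)⁻¹ x y hxy
    have hfx : ((k x)⁻¹ * m * k x) • (k x)⁻¹ • x = (k x)⁻¹ • x := by
      rw [mul_smul, mul_smul, smul_inv_smul, hx]
    have hfy : ((k x)⁻¹ * m * k x) • (k x)⁻¹ • y = (k x)⁻¹ • y := by
      rw [mul_smul, mul_smul, smul_inv_smul, hy]
    obtain ⟨i, hi, hiH⟩ := exists_pow hF hadj hfx hfy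
    have h1 := lg_conj hφ (k := k x) (g := (k x)⁻¹ * m * k x) (MM_le hF (hkN x)) ⟨i, hi, hiH⟩
    have h2 : k x * ((k x)⁻¹ * m * k x) * (k x)⁻¹ = m := by group
    rw [h2] at h1
    have h3 := hmem m hm x
    rw [hx] at h3
    have h4 := hψ2 (s (mk N x)) _ h3 ⟨i, hi, hiH⟩
    show Multiplicative.ofAdd (ψ (s (mk N x)) ((k (m • x))⁻¹ * m * k x)) = _
    rw [hx, h4, h1]
  obtain ⟨v₀⟩ := hT.isTree.connected.nonempty
  obtain ⟨lam, F, hF', hlam⟩ := bundle hT (ell_MM hF) c hc (by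
    intro m hm x y hxy hx hy
    rw [hcx m hm x y hxy hx hy, hcx m hm y x hxy.symm hy hx]) v₀
  refine ⟨lam, ?_⟩
  intro n x y hxy hx hy
  have h1 := hlam n x
  rw [hx, hcx n n.2 x y hxy hx hy] at h1
  rw [h1, mul_comm (F x), mul_inv_cancel_right]

include hF in
/-- the elements of the commutator subgroup which fix an edge have finite order -/
theorem comm_tors {g : G} (hg : g ∈ ⁅MM Mf, MM Mf⁆) {v w : V} (hvw : T.Adj v w) (hv : g • v = v)
    (hw : g • w = w) : ∃ m : ℕ, 0 < m ∧ g ^ m = 1 := by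
  obtain ⟨m, hm, hgm⟩ := exists_pow hF hvw hv hw
  refine ⟨m, hm, ?_⟩
  by_contra hne
  let iH : CommGroup H := { (inferInstance : Group H) with
    mul_comm := fun a b => Subtype.ext (hF.ab a a.2 b b.2) }
  obtain ⟨χ, hχ⟩ := sep_rat (Additive H) (by
      intro a ha n hn h
      have h1 : a.toMul ≠ 1 := fun h2 => ha h2
      have h2 : ((a.toMul : H) : G) ≠ 1 := fun h3 => h1 (Subtype.ext h3)
      refine hF.tf a.toMul a.toMul.2 h2 n hn ?_
      exact congrArg (fun x : Additive H => ((x.toMul : H) : G)) h)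
    (Additive.ofMul ⟨g ^ m, hgm⟩) (fun h => hne (congrArg (fun x : Additive H =>
      ((x.toMul : H) : G)) h))
  classical
  let φ : G → ℚ := fun x => if h : x ∈ H then χ (Additive.ofMul ⟨x, h⟩) else 0
  have hφ : ∀ a ∈ H, ∀ b ∈ H, φ (a * b) = φ a + φ b := by
    intro a ha b hb
    simp only [φ, dif_pos ha, dif_pos hb, dif_pos (H.mul_mem ha hb)]
    rw [← map_add]
    rfl
  obtain ⟨lam, hlam⟩ := exists_lam hF hφ
  have hgN : g ∈ MM Mf := by
    have := normal_MM hF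
    exact Subgroup.commutator_le_left _ _ hg
  have h1 : lam ⟨g, hgN⟩ = 1 := by
    have h2 : ⁅MM Mf, MM Mf⁆ ≤ lam.ker.map (MM Mf).subtype := by
      rw [Subgroup.commutator_le]
      intro a ha b hb
      refine ⟨⁅(⟨a, ha⟩ : MM Mf), (⟨b, hb⟩ : MM Mf)⁆, ?_, rfl⟩
      show lam _ = 1
      rw [map_commutatorElement, commutatorElement_eq_one_iff_mul_comm, mul_comm]
    obtain ⟨x, hx, hx2⟩ := h2 hg
    have h3 : x = ⟨g, hgN⟩ := Subtype.ext hx2
    rw [← h3]
    exact hx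
  have h2 := hlam ⟨g, hgN⟩ v w hvw hv hw
  rw [h1] at h2
  have h3 : lg H φ g = 0 := (congrArg Multiplicative.toAdd h2).symm
  rw [lg_eq hφ hm hgm] at h3
  have h4 : φ (g ^ m) = 0 := by
    have h5 : (m : ℚ) ≠ 0 := by positivity
    rcases div_eq_zero_iff.1 h3 with h6 | h6
    · exact h6
    · exact absurd h6 h5
  apply hχ
  simp only [φ, dif_pos hgm] at h4
  exact h4

include hF in
theorem comm_fin {v w : V} (hvw : T.Adj v w) :
    {g : G | g ∈ ⁅MM Mf, MM Mf⁆ ∧ g • v = v ∧ g • w = w}.Finite := by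
  let D : Subgroup G := ⁅MM Mf, MM Mf⁆ ⊓ Est G v w
  have h1 : H.relIndex D ≠ 0 := by
    intro h0
    exact (hF.com v w hvw).1 (Subgroup.relIndex_eq_zero_of_le_right inf_le_right h0)
  have h2 : H ⊓ D = ⊥ := by
    rw [eq_bot_iff]
    rintro x hx
    obtain ⟨hx1, hx2⟩ := Subgroup.mem_inf.1 hx
    obtain ⟨hx3, hx4⟩ := Subgroup.mem_inf.1 hx2
    obtain ⟨m, hm, h⟩ := comm_tors hF hx3 hvw hx4.1 hx4.2
    rw [Subgroup.mem_bot]
    by_contra hne
    exact hF.tf x hx1 hne m hm h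
  have h3 : (⊥ : Subgroup G).relIndex D ≠ 0 := by
    rw [← h2, Subgroup.inf_relIndex_right]
    exact h1
  have h4 : Finite D := Q182.Cyl.finite_of_index bot_le h3 inferInstance
  exact (Set.toFinite (D : Set G))

end Q182.De
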