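import Pool.Agent.Q30.FJ.Emb3

/-!
# Towers of groups
-/

set_option autoImplicit false

namespace Q182.Tow

open Pool.Agent.Y462.SS (Closed)
open Q30.FJ (TorsionFree)

section lim

variable (G : ℕ → Type) [∀ n, Group (G n)] (ι : ∀ n, G n →* G (n + 1))

/-- the composite maps of a tower -/
def cmp (i j : ℕ) (h : i ≤ j) : G i →* G j :=
  Nat.leRecOn (C := fun k => G i →* G k) h (fun {k} f => (ι k).comp f) (MonoidHom.id (G i))

theorem cmp_self (i : ℕ) (h : i ≤ i) : cmp G ι i i h = MonoidHom.id (G i) :=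
  Nat.leRecOn_self _

theorem cmp_succ (i j : ℕ) (h : i ≤ j) : cmp G ι i (j + 1) (Nat.le_succ_of_le h) =
    (ι j).comp (cmp G ι i j h) :=
  Nat.leRecOn_succ h _

theorem cmp_cmp (i j k : ℕ) (h : i ≤ j) (h' : j ≤ k) (x : G i) :
    cmp G ι j k h' (cmp G ι i j h x) = cmp G ι i k (h.trans h') x := by
  induction k, h' using Nat.le_induction with
  | base => rw [cmp_self]; rfl
  | succ k hk ih =>
    rw [cmp_succ G ι j k hk, cmp_succ G ι i k (h.trans hk), MonoidHom.comp_apply, ih]
    rfl

theorem cmp_inj (hι : ∀ n, Function.Injective (ι n)) (i j : ℕ) (h : i ≤ j) :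
    Function.Injective (cmp G ι i j h) := by
  induction j, h using Nat.le_induction with
  | base => rw [cmp_self]; exact Function.injective_id
  | succ k hk ih =>
    rw [cmp_succ G ι i k hk]
    exact (hι k).comp ih

theorem lim_exists (hι : ∀ n, Function.Injective (ι n)) :
    ∃ (L : Type) (_ : Group L) (e : ∀ n, G n →* L), (∀ n, Function.Injective (e n)) ∧
      (∀ n x, e (n + 1) (ι n x) = e n x) ∧ (∀ y, ∃ n x, e n x = y) ∧
      ∀ C : ∀ (G : Type) [Group G], Prop, Closed C → (∀ n, C (G n)) → C L := by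
  have hsys : DirectedSystem G (fun i j h => (cmp G ι i j h : G i → G j)) := by
    constructor
    · intro i x
      rw [cmp_self]
      rfl
    · intro k j i hij hjk x
      exact cmp_cmp G ι _ _ _ _ _ x
  let f : ∀ (i j : ℕ) (h : i ≤ j), G i →* G j := cmp G ι
  let e : ∀ n, G n →* DirectLimit G f := fun n =>
    { toFun := fun x => ⟦⟨n, x⟩⟧
      map_one' := (DirectLimit.one_def n).symm
      map_mul' := fun x y => (DirectLimit.mul_def n x y).symm }
  have he : ∀ i j (h : i ≤ j) (x : G i), e j (f i j h x) = e i x := by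
    intro i j h x
    exact DirectLimit.mk_apply (f := f) i j x h
  have hinj : ∀ n, Function.Injective (e n) := by
    intro n
    exact DirectLimit.mk_injective (f := f) (fun i j h => cmp_inj G ι hι i j h) n
  have hsurj : ∀ y, ∃ n x, e n x = y := by
    intro y
    obtain ⟨n, x, h⟩ := DirectLimit.exists_eq_mk (f := f) y
    exact ⟨n, x, h.symm⟩
  refine ⟨DirectLimit G f, inferInstance, e, hinj, ?_, hsurj, ?_⟩
  · intro n x
    have h1 := he n (n + 1) (Nat.le_succ n) x
    have h2 : f n (n + 1) (Nat.le_succ n) x = ι n x := by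
      show cmp G ι n (n + 1) (Nat.le_succ_of_le le_rfl) x = ι n x
      rw [cmp_succ G ι n n le_rfl, cmp_self]
      rfl
    rwa [h2] at h1
  · intro C hC hG
    refine hC.colim ℕ (fun i j => ⟨max i j, le_max_left _ _, le_max_right _ _⟩) G f
      (DirectLimit G f) e ?_ ?_ he hsurj ?_ hG
    · intro i h x
      show cmp G ι i i h x = x
      rw [cmp_self]
      rfl
    · intro i j k h h' x
      exact cmp_cmp G ι i j k h h' x
    · intro i x hx
      refine ⟨i, le_rfl, ?_⟩
      have h1 : x = 1 := hinj i (hx.trans (map_one _).symm)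
      rw [h1, map_one]

end lim

/-! ### towers from steps -/

/-- a group with a property -/
structure Bd (Pr : ∀ (G : Type) [Group G], Prop) where
  G : Type
  grp : Group G
  pr : Pr G

instance {Pr : ∀ (G : Type) [Group G], Prop} (b : Bd Pr) : Group b.G := b.grp

/-- iterates -/
def itB {Pr : ∀ (G : Type) [Group G], Prop} (s : Bd Pr → Bd Pr) (b : Bd Pr) : ℕ → Bd Pr
  | 0 => b
  | n + 1 => s (itB s b n)

/-- **towers**: iterating a step -/
theorem tower (Pr : ∀ (G : Type) [Group G], Prop)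
    (St : ∀ (G G' : Type) [Group G] [Group G'], (G →* G') → Prop)
    (hstep : ∀ (G : Type) [Group G], Pr G → ∃ (G' : Type) (_ : Group G') (f : G →* G'),
      Function.Injective f ∧ Pr G' ∧ St G G' f)
    (G : Type) [Group G] (hG : Pr G) :
    ∃ (L : Type) (_ : Group L) (T : ℕ → Type) (_ : ∀ n, Group (T n))
      (ι : ∀ n, T n →* T (n + 1)) (e : ∀ n, T n →* L) (i : G →* T 0),
      Function.Injective i ∧ (∀ n, Pr (T n)) ∧ (∀ n, St _ _ (ι n)) ∧
      (∀ n, Function.Injective (e n)) ∧ (∀ n x, e (n + 1) (ι n x) = e n x) ∧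
      (∀ y, ∃ n x, e n x = y) ∧
      ∀ C : ∀ (G : Type) [Group G], Prop, Closed C → (∀ n, C (T n)) → C L := by
  have hs : ∀ b : Bd Pr, ∃ (b' : Bd Pr) (f : b.G →* b'.G),
      Function.Injective f ∧ St b.G b'.G f := by
    intro b
    obtain ⟨G', iG', f, h1, h2, h3⟩ := hstep b.G b.pr
    exact ⟨⟨G', iG', h2⟩, f, h1, h3⟩
  choose s f hf using hs
  let b₀ : Bd Pr := ⟨G, inferInstance, hG⟩
  obtain ⟨L, iL, e, h1, h2, h3, h4⟩ := lim_exists (fun n => (itB s b₀ n).G)
    (fun n => f (itB s b₀ n)) (fun n => (hf (itB s b₀ n)).1)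
  exact ⟨L, iL, fun n => (itB s b₀ n).G, fun n => inferInstance, fun n => f (itB s b₀ n), e,
    MonoidHom.id G, Function.injective_id,
    fun n => (itB s b₀ n).pr, fun n => (hf (itB s b₀ n)).2, h1, h2, h3, h4⟩

theorem tf_lim {L : Type} [Group L] {T : ℕ → Type} [∀ n, Group (T n)] (e : ∀ n, T n →* L)
    (he : ∀ n, Function.Injective (e n)) (hs : ∀ y, ∃ n x, e n x = y)
    (hT : ∀ n, TorsionFree (T n)) : TorsionFree L := by
  intro y k hk hy
  obtain ⟨n, x, rfl⟩ := hs y
  have h1 : x ^ k = 1 := by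
    apply he n
    rw [map_pow, hy, map_one]
  rw [hT n x k hk h1, map_one]

theorem countable_lim {L : Type} [Group L] {T : ℕ → Type} [∀ n, Group (T n)] (e : ∀ n, T n →* L)
    (hs : ∀ y, ∃ n x, e n x = y) (hT : ∀ n, Countable (T n)) : Countable L := by
  have : Function.Surjective (fun z : Σ n, T n => e z.1 z.2) := by
    intro y
    obtain ⟨n, x, h⟩ := hs y
    exact ⟨⟨n, x⟩, h⟩
  exact this.countable

end Q182.Tow
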