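import Pool.Agent.Q182.TowRoot
import Pool.Agent.Q182.TowLim

/-!
# Equivariant roots

Every group of the class embeds in a group of the class in which its elements have compatible roots
which depend on the element in an equivariant way.
-/

set_option autoImplicit false

namespace Q182.De

open Pool.Agent.Y110.FJ (ClosedE)
open Pool.Agent.Y462.SS (Closed Wr)
open Q182.Tow (dg rt rt_pow lim_exists)

/-- a group with its structure -/
structure GB where
  G : Type
  grp : Group G

instance (b : GB) : Group b.G := b.grp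

variable (D : Type) [Group D]

/-- the tower of wreath products -/
def tw : ℕ → GB
  | 0 => ⟨D, inferInstance⟩
  | n + 1 => ⟨Wr (ZMod (n + 1)) (tw n).G, inferInstance⟩

/-- the diagonal embeddings -/
def twi (n : ℕ) : (tw D n).G →* (tw D (n + 1)).G := dg (ZMod (n + 1)) (tw D n).G

/-- the image of an element of `D` -/
def tim (g : D) : ∀ n : ℕ, (tw D n).G
  | 0 => g
  | n + 1 => twi D n (tim g n)

/-- the iterated roots -/
def rts (c : D) : ∀ n : ℕ, (tw D n).G
  | 0 => c
  | n + 1 => rt (n + 1) (rts c n)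

theorem twi_inj (n : ℕ) : Function.Injective (twi D n) := by
  intro a b hab
  exact congrArg (fun w : Wr (ZMod (n + 1)) (tw D n).G => w.s 0) hab

theorem rts_pow (c : D) (n : ℕ) : (rts D c (n + 1)) ^ (n + 1) = twi D n (rts D c n) :=
  rt_pow (n + 1) (Nat.succ_pos n) (rts D c n)

theorem rt_conj {G : Type} [Group G] (n : ℕ) (g h : G) :
    dg (ZMod n) G g * rt n h * (dg (ZMod n) G g)⁻¹ = rt n (g * h * g⁻¹) := by
  apply Wr.ext
  · funext x
    show g * (if x = 0 then h else 1) * g⁻¹ = if x = 0 then g * h * g⁻¹ else 1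
    split_ifs
    · rfl
    · rw [mul_one, mul_inv_cancel]
  · apply Equiv.ext
    intro x
    rfl

theorem rts_conj (g c : D) (n : ℕ) :
    tim D g n * rts D c n * (tim D g n)⁻¹ = rts D (g * c * g⁻¹) n := by
  induction n with
  | zero => rfl
  | succ n ih => exact (rt_conj (n + 1) (tim D g n) (rts D c n)).trans (congrArg (rt (n + 1)) ih)

theorem tw_mem {C : ∀ (G : Type) [Group G], Prop} (hC : ClosedE C) (hD : C D) (n : ℕ) :
    C (tw D n).G := by
  induction n with
  | zero => exact hD
  | succ n ih => exact Pool.Agent.Y812.SS.t_wr C hC.base (ZMod (n + 1)) (tw D n).G inferInstance ih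

/-- **equivariant roots** -/
theorem exists_roots {C : ∀ (G : Type) [Group G], Prop} (hC : ClosedE C) (hD : C D) :
    ∃ (L : Type) (_ : Group L) (j : D →* L) (ρ : D → (Multiplicative ℚ →* L)), C L ∧
      Function.Injective j ∧ (∀ c, ρ c (Multiplicative.ofAdd 1) = j c) ∧
      ∀ g c t, j g * ρ c t * (j g)⁻¹ = ρ (g * c * g⁻¹) t := by
  classical
  obtain ⟨L, iL, e, he, heι, hs, hlim⟩ := lim_exists (fun n => (tw D n).G) (twi D) (twi_inj D)
  have hCL : C L := hlim C hC.base (tw_mem D hC hD)
  let r : D → ℕ → L := fun c n => e n (rts D c n)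
  have hr : ∀ c n, r c (n + 1) ^ (n + 1) = r c n := by
    intro c n
    show e (n + 1) (rts D c (n + 1)) ^ (n + 1) = e n (rts D c n)
    rw [← map_pow, rts_pow, heι]
  -- integral multiples of `1 / n !`
  have hw1 : ∀ (c : D) (t : ℚ) (n : ℕ) (k l : ℤ), t * (n.factorial : ℚ) = k →
      t * ((n + 1).factorial : ℚ) = l → r c n ^ k = r c (n + 1) ^ l := by
    intro c t n k l h1 h2
    have h3 : (l : ℚ) = (n + 1) * k := by
      rw [← h2, ← h1, Nat.factorial_succ]
      push_cast
      ring
    have h4 : l = (n + 1) * k := by exact_mod_cast h3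
    rw [← hr c n, h4, zpow_mul]
    congr 1
    exact_mod_cast (zpow_natCast (r c (n + 1)) (n + 1)).symm
  have hint : ∀ (t : ℚ) (n : ℕ), t.den ≤ n → ∃ k : ℤ, t * (n.factorial : ℚ) = k := by
    intro t n hn
    obtain ⟨q, hq⟩ := Nat.dvd_factorial t.den_pos hn
    refine ⟨t.num * q, ?_⟩
    rw [hq]
    have h1 : t * (t.den : ℚ) = t.num := Rat.mul_den_eq_num t
    push_cast
    rw [← mul_assoc, h1]
  have hw2 : ∀ (c : D) (t : ℚ) (n m : ℕ) (k l : ℤ), n ≤ m → t * (n.factorial : ℚ) = k →
      t * (m.factorial : ℚ) = l → r c n ^ k = r c m ^ l := by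
    intro c t n m k l hnm
    induction m, hnm using Nat.le_induction generalizing l with
    | base =>
      intro h1 h2
      have h3 : (k : ℚ) = l := by rw [← h1, ← h2]
      have h4 : k = l := by exact_mod_cast h3
      rw [h4]
    | succ m hm ih =>
      intro h1 h2
      have h3 : ∃ k' : ℤ, t * (m.factorial : ℚ) = k' := by
        obtain ⟨q, hq⟩ := Nat.factorial_dvd_factorial hm
        refine ⟨k * q, ?_⟩
        rw [hq]
        push_cast
        rw [← mul_assoc, h1]
      obtain ⟨k', hk'⟩ := h3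
      rw [ih k' h1 hk']
      exact hw1 c t m k' l hk' h2
  choose κ hκ using hint
  let f : D → ℚ → L := fun c t => r c t.den ^ κ t t.den le_rfl
  have hf : ∀ (c : D) (t : ℚ) (n : ℕ) (k : ℤ), t * (n.factorial : ℚ) = k → f c t = r c n ^ k := by
    intro c t n k h1
    show r c t.den ^ κ t t.den le_rfl = r c n ^ k
    rcases le_total n t.den with h | h
    · exact (hw2 c t n _ _ _ h h1 (hκ t t.den le_rfl)).symm
    · exact hw2 c t _ n _ _ h (hκ t t.den le_rfl) h1
  have hadd : ∀ c s t, f c (s + t) = f c s * f c t := by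
    intro c s t
    have h1 := hκ s (max s.den t.den) (le_max_left _ _)
    have h2 := hκ t (max s.den t.den) (le_max_right _ _)
    rw [hf c s _ _ h1, hf c t _ _ h2, ← zpow_add]
    apply hf
    push_cast
    rw [← h1, ← h2]
    ring
  let ρ : D → (Multiplicative ℚ →* L) := fun c =>
    MonoidHom.mk' (fun t => f c (Multiplicative.toAdd t)) (fun s t => hadd c _ _)
  refine ⟨L, iL, e 0, ρ, hCL, he 0, ?_, ?_⟩
  · intro c
    show f c 1 = e 0 c
    rw [hf c 1 0 1 (by simp), zpow_one]
    rfl
  · intro g c t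
    show e 0 g * f c (Multiplicative.toAdd t) * (e 0 g)⁻¹ = f (g * c * g⁻¹) (Multiplicative.toAdd t)
    obtain ⟨t, rfl⟩ := Multiplicative.ofAdd.surjective t
    rw [toAdd_ofAdd]
    have hg : ∀ n, e n (tim D g n) = e 0 g := by
      intro n
      induction n with
      | zero => rfl
      | succ n ih => rw [← ih]; exact heι n _
    have h1 := hκ t t.den le_rfl
    rw [hf c t _ _ h1, hf (g * c * g⁻¹) t _ _ h1]
    show _ = e t.den (rts D (g * c * g⁻¹) t.den) ^ _
    rw [← rts_conj, map_mul, map_mul, map_inv, hg, conj_zpow]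

end Q182.De
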