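import Pool.Agent.Q182.DeCyc
import Pool.Agent.Q182.DeRoot
import Pool.Agent.Q182.DeBun
import Pool.Agent.Q182.DeBr

/-!
# Relative logarithms
-/

set_option autoImplicit false

namespace Q182.De

open SimpleGraph
open Pool.Agent.Helper270.Tree
open Pool.Agent.Y110.FJ (ClosedE)
open Q182.Cyl (ClosedA Est InfOrd Est_smul)
open Q182.Cen (Ell Orb mk mk_eq mk_smul exists_mk QG exists_lift isTree_QG adj_mk mk_ne edge_orbit)
open Q182.Hv (KK mem_KK conj_KK lg lg_eq)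
open Subgroup (Commensurable)
open scoped Pointwise commutatorElement

section lc

variable {G : Type} [Group G]

/-- the logarithm of `m` to the base `c` is `t` -/
def LC (c m : G) (t : ℚ) : Prop := ∃ (j : ℕ) (k : ℤ), 0 < j ∧ m ^ j = c ^ k ∧ t = k / j

theorem LC.conj {c m : G} {t : ℚ} (h : LC c m t) (p : G) : LC (p * c * p⁻¹) (p * m * p⁻¹) t := by
  obtain ⟨j, k, hj, h1, h2⟩ := h
  exact ⟨j, k, hj, by rw [conj_pow, conj_zpow, h1], h2⟩

theorem LC.conj_left {c m : G} {t : ℚ} (h : LC c m t) {n : G} {i : ℕ} (hi : 0 < i)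
    (hn : n * c ^ i = c ^ i * n) : LC (n * c * n⁻¹) m t := by
  obtain ⟨j, k, hj, h1, h2⟩ := h
  refine ⟨j * i, i * k, Nat.mul_pos hj hi, ?_, ?_⟩
  · have h3 : (n * c * n⁻¹) ^ i = c ^ i := by rw [conj_pow, hn, mul_inv_cancel_right]
    rw [pow_mul, h1, zpow_mul, zpow_natCast, h3, ← zpow_natCast, ← zpow_mul, ← zpow_natCast,
      ← zpow_mul, mul_comm]
  · rw [h2]
    push_cast
    have h3 : (i : ℚ) ≠ 0 := by positivity
    have h4 : (j : ℚ) ≠ 0 := by positivity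
    field_simp

theorem LC.zpow (c : G) (k : ℤ) : LC c (c ^ k) k := ⟨1, k, one_pos, by rw [pow_one], by simp⟩

theorem zpow_inj {c : G} (hc : InfOrd c) {k l : ℤ} (h : c ^ k = c ^ l) : k = l := by
  have h1 : c ^ (k - l) = 1 := by rw [zpow_sub, h, mul_inv_cancel]
  have h2 := hc.zpow h1
  omega

/-- homomorphisms which extend the logarithm -/
theorem exists_psi {c : G} (hc : InfOrd c) (M : Subgroup G)
    (hdet : ∀ k : ℤ, c ^ k ∈ ⁅M, M⁆ → k = 0) :
    ∃ ψ : G → ℚ, (∀ a ∈ M, ∀ b ∈ M, ψ (a * b) = ψ a + ψ b) ∧ ∀ a ∈ M, ∀ t, LC c a t → ψ a = t := by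
  classical
  let φ : G → ℚ := fun g => if h : ∃ k : ℤ, c ^ k = g then ((h.choose : ℤ) : ℚ) else 0
  have hφk : ∀ k : ℤ, φ (c ^ k) = k := by
    intro k
    have h : ∃ l : ℤ, c ^ l = c ^ k := ⟨k, rfl⟩
    show (if h : ∃ l : ℤ, c ^ l = c ^ k then ((h.choose : ℤ) : ℚ) else 0) = k
    rw [dif_pos h, zpow_inj hc h.choose_spec]
  have hφ : ∀ a ∈ Subgroup.zpowers c, ∀ b ∈ Subgroup.zpowers c, φ (a * b) = φ a + φ b := by
    rintro _ ⟨k, rfl⟩ _ ⟨l, rfl⟩
    show φ (c ^ k * c ^ l) = φ (c ^ k) + φ (c ^ l)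
    rw [← zpow_add, hφk, hφk, hφk]
    push_cast
    rfl
  obtain ⟨ψ, h1, h2⟩ := ext_lg (H := Subgroup.zpowers c) (M := M) (by
    rintro _ ⟨i, rfl⟩ _ ⟨j, rfl⟩
    exact ((Commute.refl c).zpow_zpow i j).eq) (by
    rintro _ ⟨k, rfl⟩ h
    have h3 := hdet k h
    subst h3
    exact zpow_zero c) hφ
  refine ⟨ψ, h1, ?_⟩
  rintro a ha t ⟨j, k, hj, h3, h4⟩
  have h5 : a ^ j ∈ Subgroup.zpowers c := ⟨k, h3.symm⟩
  rw [h2 a ha ⟨j, hj, h5⟩, lg_eq hφ hj h5, h3, hφk, h4]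

end lc

section roots

variable {G V : Type} [Group G] [MulAction G V]

/-- roots of the elements of a vertex stabilizer -/
theorem exists_roots' {C : ∀ (G : Type) [Group G], Prop} (hC : ClosedE C) (x : V)
    (hx : C (MulAction.stabilizer G x)) :
    ∃ (L : Type) (_ : Group L) (J : G → L) (ρ : G → ℚ → L), C L ∧
      (∀ a b, a • x = x → b • x = x → J (a * b) = J a * J b) ∧
      (∀ a, a • x = x → J a = 1 → a = 1) ∧
      (∀ c s t, c • x = x → ρ c (s + t) = ρ c s * ρ c t) ∧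
      (∀ c, c • x = x → ρ c 1 = J c) ∧
      ∀ g c t, g • x = x → c • x = x → J g * ρ c t * (J g)⁻¹ = ρ (g * c * g⁻¹) t := by
  classical
  obtain ⟨L, iL, j, ρ, hL, hj, h1, h2⟩ := exists_roots (MulAction.stabilizer G x) hC hx
  let J : G → L := fun g => if h : g • x = x then j ⟨g, h⟩ else 1
  have hJ : ∀ g (h : g • x = x), J g = j ⟨g, h⟩ := fun g h => dif_pos h
  let ρ' : G → ℚ → L := fun c t => if h : c • x = x then ρ ⟨c, h⟩ (Multiplicative.ofAdd t) else 1
  have hρ : ∀ c (h : c • x = x) t, ρ' c t = ρ ⟨c, h⟩ (Multiplicative.ofAdd t) := fun c h t =>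
    dif_pos h
  refine ⟨L, iL, J, ρ', hL, ?_, ?_, ?_, ?_, ?_⟩
  · intro a b ha hb
    have hab : (a * b) • x = x := by rw [mul_smul, hb, ha]
    rw [hJ _ ha, hJ _ hb, hJ _ hab, ← map_mul]
    rfl
  · intro a ha h
    rw [hJ _ ha] at h
    have h3 : (⟨a, ha⟩ : MulAction.stabilizer G x) = 1 := hj (h.trans (map_one j).symm)
    exact congrArg Subtype.val h3
  · intro c s t hc
    rw [hρ c hc, hρ c hc, hρ c hc, ofAdd_add, map_mul]
  · intro c hc
    rw [hρ c hc, hJ c hc, h1]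
  · intro g c t hg hc
    have hgc : (g * c * g⁻¹) • x = x := by
      rw [mul_smul, mul_smul, inv_smul_eq_iff.2 hg.symm, hc, hg]
    rw [hJ g hg, hρ c hc, hρ _ hgc, h2]
    rfl

end roots

/-- generators of the stabilizers of the edges at a vertex -/
theorem exists_gen {G V : Type} [Group G] [MulAction G V] {T : SimpleGraph V}
    (hT : TreeAct G T) (x : V) (hcyc : ∀ w, T.Adj x w → IsCyclic (Est G x w)) :
    ∃ γ : V → G, (∀ w, T.Adj x w → Subgroup.zpowers (γ w) = Est G x w) ∧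
      ∀ w g, T.Adj x w → g • x = x → γ (g • w) = g * γ w * g⁻¹ := by
  classical
  have h0 : ∀ w, ∃ c : G, T.Adj x w → Subgroup.zpowers c = Est G x w := by
    intro w
    by_cases h : T.Adj x w
    · obtain ⟨c, hc⟩ := (hcyc w h).exists_generator
      refine ⟨c, fun _ => le_antisymm (Subgroup.zpowers_le.2 c.2) ?_⟩
      intro y hy
      obtain ⟨n, hn⟩ := hc ⟨y, hy⟩
      exact ⟨n, congrArg Subtype.val hn⟩
    · exact ⟨1, fun h' => absurd h' h⟩
  choose γ₀ hγ₀ using h0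
  let rel : Setoid V := MulAction.orbitRel (MulAction.stabilizer G x) V
  let r : V → V := fun w => (Quotient.mk rel w).out
  have hr : ∀ w, ∃ k : G, k • x = x ∧ k • r w = w := by
    intro w
    have h1 : rel (r w) w := Quotient.exact (Quotient.out_eq _)
    obtain ⟨n, hn⟩ := rel.symm h1
    exact ⟨n, n.2, hn⟩
  have hrinv : ∀ (g : G) w, g • x = x → r (g • w) = r w := by
    intro g w hg
    show (Quotient.mk rel (g • w)).out = (Quotient.mk rel w).out
    congr 1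
    exact Quotient.sound ⟨⟨g, hg⟩, rfl⟩
  choose k hkx hk using hr
  have hadj : ∀ w, T.Adj x w → T.Adj x (r w) := by
    intro w h
    have h1 := hT.adj (k w)⁻¹ x w h
    rwa [inv_smul_eq_iff.2 (hkx w).symm, inv_smul_eq_iff.2 (hk w).symm] at h1
  refine ⟨fun w => k w * γ₀ (r w) * (k w)⁻¹, ?_, ?_⟩
  · intro w h
    have h1 := hγ₀ (r w) (hadj w h)
    apply le_antisymm
    · rw [Subgroup.zpowers_le]
      have h2 : γ₀ (r w) ∈ Est G x (r w) := by
        rw [← h1]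
        exact Subgroup.mem_zpowers _
      refine ⟨?_, ?_⟩
      · show (k w * γ₀ (r w) * (k w)⁻¹) • x = x
        rw [mul_smul, mul_smul, inv_smul_eq_iff.2 (hkx w).symm, h2.1, hkx]
      · show (k w * γ₀ (r w) * (k w)⁻¹) • w = w
        rw [mul_smul, mul_smul, inv_smul_eq_iff.2 (hk w).symm, h2.2, hk]
    · intro y hy
      have h2 : (k w)⁻¹ * y * k w ∈ Est G x (r w) := by
        refine ⟨?_, ?_⟩
        · show ((k w)⁻¹ * y * k w) • x = x
          rw [mul_smul, mul_smul, hkx, hy.1, inv_smul_eq_iff.2 (hkx w).symm]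
        · show ((k w)⁻¹ * y * k w) • r w = r w
          rw [mul_smul, mul_smul, hk, hy.2, inv_smul_eq_iff.2 (hk w).symm]
      rw [← h1] at h2
      obtain ⟨n, hn⟩ := h2
      refine ⟨n, ?_⟩
      have hn' : γ₀ (r w) ^ n = (k w)⁻¹ * y * k w := hn
      show (k w * γ₀ (r w) * (k w)⁻¹) ^ n = y
      rw [conj_zpow, hn']
      group
  · intro w g h hg
    show k (g • w) * γ₀ (r (g • w)) * (k (g • w))⁻¹ = g * (k w * γ₀ (r w) * (k w)⁻¹) * g⁻¹
    rw [hrinv g w hg]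
    obtain ⟨s, hs⟩ : ∃ s : G, s = (g * k w)⁻¹ * k (g • w) := ⟨_, rfl⟩
    have hs' : k (g • w) = g * k w * s := by
      rw [hs]
      group
    have h1 : s ∈ Est G x (r w) := by
      rw [hs]
      refine ⟨?_, ?_⟩
      · show ((g * k w)⁻¹ * k (g • w)) • x = x
        rw [mul_smul, hkx, inv_smul_eq_iff, mul_smul, hkx, hg]
      · show ((g * k w)⁻¹ * k (g • w)) • r w = r w
        have h2 := hk (g • w)
        rw [hrinv g w hg] at h2
        rw [mul_smul, h2, inv_smul_eq_iff, mul_smul, hk]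
    rw [← hγ₀ (r w) (hadj w h)] at h1
    obtain ⟨n, hn⟩ := h1
    have hn' : γ₀ (r w) ^ n = s := hn
    have h2 : s * γ₀ (r w) * s⁻¹ = γ₀ (r w) := by
      rw [← hn']
      group
    rw [hs']
    have h3 : g * k w * s * γ₀ (r w) * (g * k w * s)⁻¹ =
        g * k w * (s * γ₀ (r w) * s⁻¹) * (g * k w)⁻¹ := by group
    rw [h3, h2]
    group

end Q182.De
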