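import Pool.Agent.Q182.DeLam

/-!
# The main theorem on families which detect the edge stabilizers
-/

set_option autoImplicit false

namespace Q182.De

open SimpleGraph
open Pool.Agent.Helper270.Tree
open Pool.Agent.Y110.FJ (ClosedE)
open Pool.Agent.Y462.SS (Closed)
open Q182.Cyl (ClosedA Est InfOrd Est_smul)
open Q182.Cen (Ell Orb mk mk_eq mk_smul exists_mk QG qAct treeAct_QG exists_lift bundle edge_orbit
  adj_mk)
open Q182.Hv (KK mem_KK conj_KK lg lg_eq lg_conj le_KK)
open Subgroup (Commensurable)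
open scoped Pointwise commutatorElement

variable {C : ∀ (G : Type) [Group G], Prop}

/-- extensions with abelian kernels -/
theorem ab_ext (hC : ClosedA C) (hmet : ∀ (G : Type) [Group G], derivedSeries G 2 = ⊥ → C G)
    {P : Type} [Group P] (A : Subgroup P) [A.Normal] (hA : ∀ a ∈ A, ∀ b ∈ A, a * b = b * a)
    (hQ : C (P ⧸ A)) : C P := by
  refine hC.base.ext P (P ⧸ A) (QuotientGroup.mk' A) (QuotientGroup.mk'_surjective A) hQ ?_
  rintro W ⟨c, hcW, hc⟩
  refine Q182.Cyl.fi_mem hC.base.base (K := (Subgroup.zpowers c).comap (QuotientGroup.mk' A)) ?_ ?_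
  · rw [Subgroup.relIndex_comap,
      Subgroup.map_comap_eq_self_of_surjective (QuotientGroup.mk'_surjective A)]
    exact hc
  · obtain ⟨K, hK⟩ : ∃ K : Subgroup P, K = (Subgroup.zpowers c).comap (QuotientGroup.mk' A) :=
      ⟨_, rfl⟩
    rw [← hK]
    apply hmet
    have h1 : ⁅K, K⁆ ≤ A := by
      rw [Subgroup.commutator_le]
      intro a ha b hb
      rw [hK] at ha hb
      obtain ⟨i, hi⟩ := ha
      obtain ⟨j, hj⟩ := hb
      refine (QuotientGroup.eq_one_iff _).1 ?_
      show QuotientGroup.mk' A ⁅a, b⁆ = 1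
      rw [map_commutatorElement, ← hi, ← hj, commutatorElement_eq_one_iff_commute]
      exact (Commute.refl c).zpow_zpow i j
    have h2 : (derivedSeries K 1).map K.subtype ≤ ⁅K, K⁆ := by
      have h3 : derivedSeries K 1 = ⁅(⊤ : Subgroup K), (⊤ : Subgroup K)⁆ := derivedSeries_one K
      rw [h3, Subgroup.map_commutator]
      refine Subgroup.commutator_mono ?_ ?_
      · rintro _ ⟨n, _, rfl⟩
        exact n.2
      · rintro _ ⟨n, _, rfl⟩
        exact n.2
    rw [derivedSeries_succ, Subgroup.commutator_eq_bot_iff_le_centralizer]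
    intro x hx
    rw [Subgroup.mem_centralizer_iff]
    intro y hy
    have e1 := h1 (h2 ⟨x, hx, rfl⟩)
    have e2 := h1 (h2 ⟨y, hy, rfl⟩)
    exact Subtype.ext (hA _ e2 _ e1)

variable {G V : Type} [Group G] [MulAction G V]
  {T : SimpleGraph V} {H : Subgroup G} {Mf : V → Subgroup G}

/-- subgroups whose quotients by the subgroup generated by the family are in `C` -/
theorem quo_mem (hC : ClosedA C) (hmet : ∀ (G : Type) [Group G], derivedSeries G 2 = ⊥ → C G)
    (hF : Fam T H Mf) (hst : ∀ v : V, C (MulAction.stabilizer G v)) (P : Subgroup G)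
    (N' : Subgroup P) (hN' : N' = (MM Mf).subgroupOf P) [N'.Normal] (hQ : C (P ⧸ N')) : C P := by
  let D : Subgroup P := ⁅N', N'⁆
  have hD : D.Normal := inferInstance
  have hDN : D ≤ N' := Subgroup.commutator_le_left _ _
  have hDG : ∀ d : P, d ∈ D → (d : G) ∈ ⁅MM Mf, MM Mf⁆ := by
    intro d hd
    have h1 : (d : G) ∈ D.map P.subtype := ⟨d, hd, rfl⟩
    rw [Subgroup.map_commutator] at h1
    have h2 : N'.map P.subtype ≤ MM Mf := by
      rintro _ ⟨n, hn, rfl⟩
      rw [hN'] at hn
      exact hn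
    exact Subgroup.commutator_mono h2 h2 h1
  have hPD : C (P ⧸ D) := by
    have hn : (N'.map (QuotientGroup.mk' D)).Normal :=
      Subgroup.Normal.map inferInstance _ (QuotientGroup.mk'_surjective D)
    refine ab_ext hC hmet (N'.map (QuotientGroup.mk' D)) ?_ ?_
    · rintro _ ⟨a, ha, rfl⟩ _ ⟨b, hb, rfl⟩
      rw [← commutatorElement_eq_one_iff_mul_comm, ← map_commutatorElement]
      exact (QuotientGroup.eq_one_iff _).2 (Subgroup.commutator_mem_commutator ha hb)
    · let e := QuotientGroup.quotientQuotientEquivQuotient D N' hDN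
      exact hC.base.base.of_injective _ _ e.toMonoidHom e.injective hQ
  have hT := hF.tree
  have hTK : TreeAct P T := ⟨hT.isTree, fun g v w h => hT.adj g v w h,
    fun g v w h => hT.noInv g v w h⟩
  refine Q182.Fk.main hC (QuotientGroup.mk' D) hPD hTK ?_
    (fun x => Q182.Cen.st_mem hC.base.base P x (hst x))
  intro v w hvw
  refine ((comm_fin hF hvw).preimage (f := (Subtype.val : P → G))
    Subtype.val_injective.injOn).subset ?_
  rintro g ⟨h1, h2, h3⟩
  exact ⟨hDG g ((QuotientGroup.eq_one_iff _).1 h3), h1, h2⟩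

/-- subgroups which are abelian modulo the subgroup generated by the family -/
theorem cyc_mem (hC : ClosedA C) (hmet : ∀ (G : Type) [Group G], derivedSeries G 2 = ⊥ → C G)
    (hF : Fam T H Mf) (hst : ∀ v : V, C (MulAction.stabilizer G v)) (P : Subgroup G)
    (hP : ⁅P, P⁆ ≤ MM Mf) : C P := by
  have hN : (MM Mf).Normal := normal_MM hF
  refine quo_mem hC hmet hF hst P ((MM Mf).subgroupOf P) rfl ?_
  apply hmet
  have h1 : derivedSeries P 1 ≤ (MM Mf).subgroupOf P := by
    intro x hx
    have h2 : (x : G) ∈ (derivedSeries P 1).map P.subtype := ⟨x, hx, rfl⟩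
    have h3 : derivedSeries P 1 = ⁅(⊤ : Subgroup P), (⊤ : Subgroup P)⁆ := derivedSeries_one P
    rw [h3, Subgroup.map_commutator] at h2
    apply hP
    refine Subgroup.commutator_mono ?_ ?_ h2
    · rintro _ ⟨n, _, rfl⟩
      exact n.2
    · rintro _ ⟨n, _, rfl⟩
      exact n.2
  have h2 : derivedSeries (P ⧸ (MM Mf).subgroupOf P) 1 = ⊥ := by
    rw [← map_derivedSeries_eq (QuotientGroup.mk'_surjective _) 1, eq_bot_iff]
    rintro _ ⟨d, hd, rfl⟩
    rw [Subgroup.mem_bot]
    exact (QuotientGroup.eq_one_iff _).2 (h1 hd)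
  rw [derivedSeries_succ, h2]
  exact Subgroup.commutator_bot_left _

/-- **main theorem** -/
theorem main (hC : ClosedA C) (hmet : ∀ (G : Type) [Group G], derivedSeries G 2 = ⊥ → C G)
    (hF : Fam T H Mf) (hst : ∀ v : V, C (MulAction.stabilizer G v))
    (hvt : ∀ v : V, C ↥(MulAction.stabilizer G v ⊔ MM Mf)) : C G := by
  let N := MM Mf
  have hN : N.Normal := normal_MM hF
  have hT := hF.tree
  let _ := qAct V N
  have hA : TreeAct (G ⧸ N) (QG T N) := treeAct_QG N hT (ell_MM hF)
  have hsm : ∀ (g : G) (x : V), (QuotientGroup.mk' N g) • mk N x = mk N (g • x) := fun g x => rfl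
  have hsurj := QuotientGroup.mk'_surjective N
  have hdec : ∀ (g : G) (v : V), mk N (g • v) = mk N v → ∃ n ∈ N, ∃ h : G, h • v = v ∧
      g = n * h := by
    intro g v hg
    obtain ⟨n, hn, h1⟩ := mk_eq.1 hg
    exact ⟨n, hn, n⁻¹ * g, by rw [mul_smul, ← h1, inv_smul_smul], by group⟩
  -- the stabilizers of the edges of the quotient
  have hedge : ∀ p q : Orb V N, (QG T N).Adj p q →
      {f : G ⧸ N | f • p = p ∧ f • q = q}.Finite := by
    rintro _ _ ⟨hpq, a, b, hab, rfl, rfl⟩
    have h1 : Finite ((Est G a b).map (QuotientGroup.mk' N)) := by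
      apply Nat.finite_of_card_ne_zero
      rw [← Subgroup.relIndex_ker, QuotientGroup.ker_mk']
      intro h0
      have h2 : (H ⊓ Est G a b).relIndex (Est G a b) ≠ 0 := by
        rw [Subgroup.inf_relIndex_right]
        exact (hF.com a b hab).1
      refine h2 (Subgroup.relIndex_eq_zero_of_le_left ?_ h0)
      intro x hx
      obtain ⟨h3, h4⟩ := Subgroup.mem_inf.1 hx
      exact mem_MM (hF.edge a b hab x (le_KK hF.ab h3) h4.1 h4.2)
    refine (Set.toFinite (((Est G a b).map (QuotientGroup.mk' N) :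
      Subgroup (G ⧸ N)) : Set (G ⧸ N))).subset ?_
    rintro f ⟨hf, hf'⟩
    obtain ⟨g, rfl⟩ := hsurj f
    rw [hsm] at hf hf'
    obtain ⟨n, hn, h, hh, rfl⟩ := hdec g a hf
    have h5 : mk N (h • b) = mk N b := by
      rw [← hf', mul_smul, mk_smul hn]
    obtain ⟨m, hm, h6⟩ := mk_eq.1 h5
    have h7 : T.Adj a (h • b) := by
      have := hT.adj h a b hab
      rwa [hh] at this
    obtain ⟨k, hk, hk1, hk2⟩ := edge_orbit hT (ell_MM hF) hab h7 hm h6
    refine ⟨k⁻¹ * h, ⟨?_, ?_⟩, ?_⟩
    · show (k⁻¹ * h) • a = a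
      rw [mul_smul, hh, inv_smul_eq_iff, hk1]
    · show (k⁻¹ * h) • b = b
      rw [mul_smul, ← hk2, inv_smul_smul]
    · have h8 : QuotientGroup.mk' N n = 1 := (QuotientGroup.eq_one_iff _).2 hn
      have h9 : QuotientGroup.mk' N k = 1 := (QuotientGroup.eq_one_iff _).2 hk
      rw [map_mul, map_mul, map_inv, h8, h9, inv_one]
  refine hC.acyl G (G ⧸ N) (Orb V N) (QuotientGroup.mk' N) (QG T N) 1 hsurj hA.isTree hA.adj
    hA.noInv ?_ ?_ ?_
  · intro p q hpq
    obtain ⟨r, h0, hn, hadj, hd, _⟩ := exists_geod hA.isTree p q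
    have h1 := hadj 0 (by omega)
    refine (hedge _ _ h1).subset ?_
    rintro f ⟨hf1, hf2⟩
    refine ⟨by rw [h0]; exact hf1, ?_⟩
    refine hA.convex hf1 hf2 ?_
    have h3 := hd (0 + 1) (by omega)
    omega
  · intro p
    obtain ⟨v, rfl⟩ := exists_mk p
    have h1 : (MulAction.stabilizer (G ⧸ N) (mk N v)).comap (QuotientGroup.mk' N) ≤
        MulAction.stabilizer G v ⊔ N := by
      intro g hg
      have hg' : (QuotientGroup.mk' N g) • mk N v = mk N v := hg
      rw [hsm] at hg'
      obtain ⟨n, hn, h, hh, rfl⟩ := hdec g v hg'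
      rw [sup_comm]
      exact Subgroup.mul_mem_sup hn hh
    exact hC.base.base.of_injective _ _ (Subgroup.inclusion h1) (Subgroup.inclusion_injective h1)
      (hvt v)
  · rintro W ⟨c, hcW, hc⟩
    refine Q182.Cyl.fi_mem hC.base.base (K := (Subgroup.zpowers c).comap (QuotientGroup.mk' N)) ?_ ?_
    · rw [Subgroup.relIndex_comap, Subgroup.map_comap_eq_self_of_surjective hsurj]
      exact hc
    · refine cyc_mem hC hmet hF hst _ ?_
      rw [Subgroup.commutator_le]
      rintro a ⟨i, hi⟩ b ⟨j, hj⟩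
      refine (QuotientGroup.eq_one_iff _).1 ?_
      show QuotientGroup.mk' N ⁅a, b⁆ = 1
      rw [map_commutatorElement, ← hi, ← hj, commutatorElement_eq_one_iff_commute]
      exact (Commute.refl c).zpow_zpow i j

end Q182.De
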