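import Pool.Agent.Q182.DeLc
import Pool.Agent.Q182.FkMain

/-!
# The preimages of the vertex stabilizers for cyclic edge stabilizers
-/

set_option autoImplicit false

namespace Q182.De

open SimpleGraph
open Pool.Agent.Helper270.Tree
open Pool.Agent.Y110.FJ (ClosedE)
open Q182.Cyl (ClosedA Est InfOrd Est_smul)
open Q182.Cen (Ell Orb mk mk_eq mk_smul exists_mk QG exists_lift isTree_QG adj_mk mk_ne edge_orbit)
open Q182.Hv (KK mem_KK conj_KK lg lg_eq)
open Subgroup (Commensurable)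
open scoped Pointwise commutatorElement

variable {G V : Type} [Group G] [MulAction G V] {T : SimpleGraph V} {e : G} {Mf : V → Subgroup G}
  (hE : CyE T e) (hF : Fam T (Subgroup.zpowers e) Mf)
  (hcyc : ∀ v w, T.Adj v w → IsCyclic (Est G v w)) (x : V)

include hF in
theorem mk_fix {p : G} (hp : p ∈ MulAction.stabilizer G x ⊔ MM Mf) :
    mk (MM Mf) (p • x) = mk (MM Mf) x := by
  have hN : (MM Mf).Normal := normal_MM hF
  obtain ⟨s, hs, n, hn, rfl⟩ := mem_sup' hp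
  have h1 : s * n = (s * n * s⁻¹) * s := by group
  rw [h1, mul_smul, mk_smul (hN.conj_mem n hn s), show s • x = x from hs]

include hE hF hcyc in
/-- the stabilizers of the other vertices -/
theorem mem_Mf_of {p : G} (hp : p ∈ MulAction.stabilizer G x ⊔ MM Mf) {y : V}
    (hy : mk (MM Mf) y ≠ mk (MM Mf) x) (hpy : p • y = y) : p ∈ Mf y := by
  have hN : (MM Mf).Normal := normal_MM hF
  have hT := hF.tree
  have hM := ell_MM hF
  have hTq := isTree_QG hT hM
  obtain ⟨q, hq⟩ := exists_br hTq hy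
  obtain ⟨n, hn, rfl⟩ := exists_lift hT hq.1
  have h1 := br_mk hT hN hM p hq
  rw [mk_fix hF x hp, hpy] at h1
  have h2 := br_unique hTq h1 hq
  obtain ⟨m, hm, h3, h4⟩ := lift_unique hT hM hn (by
    have h5 := hT.adj p y n hn
    rwa [hpy] at h5) rfl h2.symm
  -- `m⁻¹ p` fixes the edge
  have h5 : m⁻¹ * p ∈ Est G y n := by
    refine ⟨?_, ?_⟩
    · show (m⁻¹ * p) • y = y
      rw [mul_smul, hpy, inv_smul_eq_iff, h3]
    · show (m⁻¹ * p) • n = n
      rw [mul_smul, inv_smul_eq_iff, h4]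
  have h6 : m⁻¹ * p ∈ KK (Subgroup.zpowers e) := by
    rw [mem_KK]
    have hle : Est G y n ≤ Subgroup.centralizer {m⁻¹ * p} := by
      intro z hz
      rw [Subgroup.mem_centralizer_iff]
      intro u hu
      rw [Set.mem_singleton_iff.1 hu]
      have := hcyc y n hn
      have hcomm : IsMulCommutative (Est G y n) := inferInstance
      have h7 : (⟨m⁻¹ * p, h5⟩ : Est G y n) * ⟨z, hz⟩ = ⟨z, hz⟩ * ⟨m⁻¹ * p, h5⟩ :=
        hcomm.is_comm.comm _ _
      exact congrArg Subtype.val h7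
    intro h0
    exact (hE.com y n hn).2 (Subgroup.relIndex_eq_zero_of_le_left hle h0)
  have h7 : m⁻¹ * p ∈ Mf y := hF.edge y n hn _ h6 h5.1 h5.2
  have h8 : m ∈ Mf y := mem_Mf hF hm h3
  have h9 : p = m * (m⁻¹ * p) := by group
  rw [h9]
  exact (Mf y).mul_mem h8 h7

include hE in
/-- elements of edge stabilizers have logarithms -/
theorem exists_LC {c a : G} (hc : InfOrd c) {v w v' w' : V} (hvw : T.Adj v w) (hvw' : T.Adj v' w')
    (hcm : c ∈ Est G v w) (ha : a ∈ Est G v' w') : ∃ t, LC c a t := by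
  obtain ⟨i, hi, _, h1⟩ := Subgroup.exists_pow_mem_of_relIndex_ne_zero (hE.com v w hvw).1 hcm
  obtain ⟨j, hj, _, h2⟩ := Subgroup.exists_pow_mem_of_relIndex_ne_zero (hE.com v' w' hvw').1 ha
  obtain ⟨k, hk⟩ := (Subgroup.mem_inf.1 h1).1
  obtain ⟨l, hl⟩ := (Subgroup.mem_inf.1 h2).1
  have hk' : e ^ k = c ^ i := hk
  have hl' : e ^ l = a ^ j := hl
  have hk0 : k ≠ 0 := by
    rintro rfl
    rw [zpow_zero] at hk'
    exact hc i hi hk'.symm
  -- `a ^ (j k) = e ^ (l k) = c ^ (i l)`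
  have h3 : a ^ ((j : ℤ) * k) = c ^ ((i : ℤ) * l) := by
    rw [zpow_mul, zpow_natCast, ← hl', zpow_mul, zpow_natCast, ← hk', ← zpow_mul, ← zpow_mul,
      mul_comm]
  rcases Int.natAbs_eq k with h4 | h4
  · refine ⟨_, j * k.natAbs, i * l, Nat.mul_pos hj (Int.natAbs_pos.2 hk0), ?_, rfl⟩
    rw [← h3, ← zpow_natCast]
    congr 1
    push_cast
    rw [← Int.natCast_natAbs, ← h4]
  · refine ⟨_, j * k.natAbs, -(i * l), Nat.mul_pos hj (Int.natAbs_pos.2 hk0), ?_, rfl⟩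
    rw [zpow_neg, ← h3, ← zpow_natCast, ← zpow_neg]
    congr 1
    push_cast
    have h5 : |k| = -k := by
      rw [← Int.natCast_natAbs]
      omega
    rw [h5]
    ring

include hE hF in
/-- detection to an arbitrary base -/
theorem det_base {c : G} (hc : InfOrd c) {v w : V} (hvw : T.Adj v w) (hcm : c ∈ Est G v w) (y : V)
    (k : ℤ) (hk : c ^ k ∈ ⁅Mf y, Mf y⁆) : k = 0 := by
  obtain ⟨i, hi, _, h1⟩ := Subgroup.exists_pow_mem_of_relIndex_ne_zero (hE.com v w hvw).1 hcm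
  obtain ⟨l, hl⟩ := (Subgroup.mem_inf.1 h1).1
  have hl' : e ^ l = c ^ i := hl
  have h2 : e ^ (l * k) ∈ ⁅Mf y, Mf y⁆ := by
    rw [zpow_mul, hl', ← zpow_natCast, ← zpow_mul, mul_comm, zpow_mul, zpow_natCast]
    exact Subgroup.pow_mem _ hk i
  have h3 := hF.det y _ ⟨l * k, rfl⟩ h2
  have h4 : l * k = 0 := hE.inf.zpow h3
  rcases mul_eq_zero.1 h4 with h5 | h5
  · exfalso
    subst h5
    rw [zpow_zero] at hl'
    exact hc i hi hl'.symm
  · exact h5

/-- elements of `K` do not change the base -/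
theorem LC.conj_KK {c a n : G} {t : ℚ} (h : LC c a t) (hcom : Commensurable (Subgroup.zpowers e)
    (Subgroup.zpowers c)) (hn : n ∈ KK (Subgroup.zpowers e)) : LC (n * c * n⁻¹) a t := by
  have h1 : n ∈ KK (Subgroup.zpowers c) := by
    rw [mem_KK] at hn ⊢
    exact Subgroup.relIndex_ne_zero_trans hn hcom.1
  obtain ⟨i, hi, _, h2⟩ := Subgroup.exists_pow_mem_of_relIndex_ne_zero (mem_KK.1 h1)
    (Subgroup.mem_zpowers c)
  have h3 := (Subgroup.mem_inf.1 h2).1
  rw [Subgroup.mem_centralizer_iff] at h3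
  exact h.conj_left hi (h3 n rfl)

/-- the projection to the quotient tree -/
abbrev pr (Mf : V → Subgroup G) (v : V) : Orb V (MM Mf) := Q182.Cen.mk (MM Mf) v

include hE hF hcyc in
/-- root edges, generators and homomorphisms to the rationals -/
theorem exists_data : ∃ (u : V → V) (γ : V → G) (ψ : V → G → ℚ),
    (∀ w, T.Adj x w → InfOrd (γ w) ∧ Subgroup.zpowers (γ w) = Est G x w ∧
      Commensurable (Subgroup.zpowers e) (Subgroup.zpowers (γ w)) ∧
        ∀ g, g • x = x → γ (g • w) = g * γ w * g⁻¹) ∧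
    ∀ v, pr Mf v ≠ pr Mf x → T.Adj x (u v) ∧
      Br (QG T (MM Mf)) (pr Mf x) (pr Mf (u v)) (pr Mf v) ∧
      (∀ a ∈ Mf v, ∀ b ∈ Mf v, ψ v (a * b) = ψ v a + ψ v b) ∧
        ∀ a ∈ Mf v, ∀ t, LC (γ (u v)) a t → ψ v a = t := by
  have hT := hF.tree
  have hM := ell_MM hF
  have hTq := isTree_QG hT hM
  obtain ⟨γ, hγ1, hγ2⟩ := exists_gen hT x (fun w h => hcyc x w h)
  have hγcom : ∀ w, T.Adj x w → Commensurable (Subgroup.zpowers e) (Subgroup.zpowers (γ w)) :=
    fun w h => by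
      rw [hγ1 w h]
      exact hE.com x w h
  have hγinf : ∀ w, T.Adj x w → InfOrd (γ w) := by
    intro w h n hn h1
    obtain ⟨i, hi, _, h2⟩ := Subgroup.exists_pow_mem_of_relIndex_ne_zero (hγcom w h).2
      (Subgroup.mem_zpowers e)
    obtain ⟨l, hl⟩ := (Subgroup.mem_inf.1 h2).1
    have hl' : γ w ^ l = e ^ i := hl
    have h3 : e ^ (i * n) = 1 := by
      rw [pow_mul, ← hl', ← zpow_natCast, ← zpow_mul, mul_comm, zpow_mul, zpow_natCast, h1,
        one_zpow]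
    exact hE.inf _ (Nat.mul_pos hi hn) h3
  have hγE : ∀ w, T.Adj x w → γ w ∈ Est G x w := fun w h => by
    rw [← hγ1 w h]
    exact Subgroup.mem_zpowers _
  have hu : ∀ v, ∃ u, pr Mf v ≠ pr Mf x →
      T.Adj x u ∧ Br (QG T (MM Mf)) (pr Mf x) (pr Mf u) (pr Mf v) := by
    intro v
    by_cases h : pr Mf x = pr Mf v
    · exact ⟨x, fun h' => absurd h.symm h'⟩
    · obtain ⟨q, hq⟩ := exists_br hTq h
      obtain ⟨n, hn, rfl⟩ := exists_lift hT hq.1
      exact ⟨n, fun _ => ⟨hn, hq⟩⟩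
  choose u hu using hu
  have hψ : ∀ v, ∃ ψ : G → ℚ, pr Mf v ≠ pr Mf x →
      (∀ a ∈ Mf v, ∀ b ∈ Mf v, ψ (a * b) = ψ a + ψ b) ∧
        ∀ a ∈ Mf v, ∀ t, LC (γ (u v)) a t → ψ a = t := by
    intro v
    by_cases h : pr Mf v = pr Mf x
    · exact ⟨fun _ => 0, fun h' => absurd h h'⟩
    · have h1 := (hu v h).1
      obtain ⟨ψ, hψ⟩ := exists_psi (hγinf _ h1) (Mf v) (fun k hk =>
        det_base hE hF (hγinf _ h1) h1 (hγE _ h1) v k hk)
      exact ⟨ψ, fun _ => hψ⟩
  choose ψ hψ using hψ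
  exact ⟨u, γ, ψ, fun w h => ⟨hγinf w h, hγ1 w h, hγcom w h, fun g hg => hγ2 w g h hg⟩,
    fun v hv => ⟨(hu v hv).1, (hu v hv).2, (hψ v hv).1, (hψ v hv).2⟩⟩

include hF in
/-- representatives of the orbits -/
theorem exists_reps (P : Subgroup G) (hP : P = MulAction.stabilizer G x ⊔ MM Mf) :
    ∃ (R : V → V) (s : V → P), (∀ (p : P) v, R (p • v) = R v) ∧ (∀ v, s v • R v = v) ∧
      (∀ v, pr Mf v = pr Mf x → R v = x) ∧ ∀ v, pr Mf (R v) = pr Mf x ↔ pr Mf v = pr Mf x := by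
  classical
  have hMP : ∀ g ∈ MM Mf, g ∈ P := fun g hg => by
    rw [hP]
    exact Subgroup.mem_sup_right hg
  have hPx : ∀ p ∈ P, pr Mf (p • x) = pr Mf x := fun p hp => mk_fix hF x (by rwa [← hP])
  let rel : Setoid V := MulAction.orbitRel P V
  let R : V → V := fun v => if pr Mf v = pr Mf x then x else (Quotient.mk rel v).out
  have hmkP : ∀ (p : P) v, pr Mf (p • v) = pr Mf x ↔ pr Mf v = pr Mf x := by
    have h1 : ∀ (p : P) v, pr Mf v = pr Mf x → pr Mf (p • v) = pr Mf x := by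
      intro p v h
      obtain ⟨m, hm, rfl⟩ := mk_eq.1 h
      have h2 : p • m • x = ((p : G) * m) • x := by
        rw [mul_smul]
        rfl
      rw [h2]
      exact hPx _ (P.mul_mem p.2 (hMP m hm))
    intro p v
    refine ⟨fun h => ?_, h1 p v⟩
    have h2 := h1 p⁻¹ _ h
    rwa [inv_smul_smul] at h2
  have hRx : ∀ v, pr Mf v = pr Mf x → R v = x := fun v h => if_pos h
  have hRn : ∀ v, ¬ pr Mf v = pr Mf x → R v = (Quotient.mk rel v).out := fun v h =>
    if_neg h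
  have hR : ∀ (p : P) v, R (p • v) = R v := by
    intro p v
    by_cases h : pr Mf v = pr Mf x
    · rw [hRx v h, hRx _ ((hmkP p v).2 h)]
    · rw [hRn v h, hRn _ (fun h' => h ((hmkP p v).1 h'))]
      congr 1
      exact Quotient.sound ⟨p, rfl⟩
  have hs : ∀ v, ∃ s : P, s • R v = v := by
    intro v
    by_cases h : pr Mf v = pr Mf x
    · rw [hRx v h]
      obtain ⟨m, hm, h1⟩ := mk_eq.1 h
      exact ⟨⟨m, hMP m hm⟩, h1⟩
    · rw [hRn v h]
      have h1 : rel (Quotient.mk rel v).out v := Quotient.exact (Quotient.out_eq _)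
      obtain ⟨n, hn⟩ := rel.symm h1
      exact ⟨n, hn⟩
  choose s hs using hs
  refine ⟨R, s, hR, hs, hRx, ?_⟩
  intro v
  have h1 := hmkP (s v) (R v)
  rw [hs] at h1
  exact h1.symm

include hF in
/-- two root edges over the same edge of the quotient tree -/
theorem glue {s t : G} (hs : pr Mf (s • x) = pr Mf x) (ht : pr Mf (t • x) = pr Mf x) {a b : V}
    (ha : T.Adj x a) (hb : T.Adj x b) (hab : pr Mf (s • a) = pr Mf (t • b)) :
    ∃ g : G, g • x = x ∧ g • a = b ∧ ∃ m ∈ MM Mf, t * g = m * s := by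
  have hT := hF.tree
  obtain ⟨m, hm, h1, h2⟩ := lift_unique hT (ell_MM hF) (hT.adj s x a ha) (hT.adj t x b hb)
    (hs.trans ht.symm) hab
  refine ⟨t⁻¹ * m * s, ?_, ?_, m, hm, by group⟩
  · rw [mul_smul, mul_smul, h1, inv_smul_smul]
  · rw [mul_smul, mul_smul, h2, inv_smul_smul]

include hF in
/-- logarithms with respect to two root edges -/
theorem lc_glue {c g s t m y : G} {t0 : ℚ} (hm : m ∈ MM Mf) (hg : t * g = m * s)
    (hc : Commensurable (Subgroup.zpowers e) (Subgroup.zpowers c)) (h : LC c (s⁻¹ * y * s) t0) :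
    LC (g * c * g⁻¹) (t⁻¹ * y * t) t0 := by
  have hN : (MM Mf).Normal := normal_MM hF
  have h1 : s⁻¹ * m * s ∈ MM Mf := by
    have h2 := hN.conj_mem m hm s⁻¹
    rwa [inv_inv] at h2
  have h2 := (h.conj_KK hc (MM_le hF h1)).conj (t⁻¹ * s)
  have hg' : g = t⁻¹ * m * s := by
    rw [mul_assoc, ← hg]
    group
  have e1 : t⁻¹ * s * (s⁻¹ * m * s * c * (s⁻¹ * m * s)⁻¹) * (t⁻¹ * s)⁻¹ = g * c * g⁻¹ := by
    rw [hg']
    group
  have e2 : t⁻¹ * s * (s⁻¹ * y * s) * (t⁻¹ * s)⁻¹ = t⁻¹ * y * t := by group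
  rwa [e1, e2] at h2

omit [MulAction G V] in
theorem rho_int {L : Type} [Group L] (f : ℚ → L) (hf : ∀ s t, f (s + t) = f s * f t) (k : ℤ)
    (t : ℚ) : f (k * t) = f t ^ k := by
  let F : Multiplicative ℚ →* L := MonoidHom.mk' (fun t => f (Multiplicative.toAdd t))
    (fun s t => hf _ _)
  have h1 := map_zpow F (Multiplicative.ofAdd t) k
  have h2 : F (Multiplicative.ofAdd t ^ k) = f (k * t) := by
    show f (Multiplicative.toAdd (Multiplicative.ofAdd t ^ k)) = f (k * t)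
    rw [toAdd_zpow, toAdd_ofAdd, zsmul_eq_mul]
  rw [h2] at h1
  exact h1

theorem J_zpow {L : Type} [Group L] {J : G → L}
    (hJ : ∀ a b, a • x = x → b • x = x → J (a * b) = J a * J b) {c : G} (hc : c • x = x) (k : ℤ) :
    J (c ^ k) = J c ^ k := by
  let F : MulAction.stabilizer G x →* L := MonoidHom.mk' (fun a => J a)
    (fun a b => hJ a b a.2 b.2)
  exact map_zpow F ⟨c, hc⟩ k

variable {C : ∀ (G : Type) [Group G], Prop}

include hE hF hcyc in
/-- **the preimages of the vertex stabilizers** -/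
theorem P_mem (hC : ClosedA C) (hst : ∀ v : V, C (MulAction.stabilizer G v)) :
    C ↥(MulAction.stabilizer G x ⊔ MM Mf) := by
  classical
  have hN : (MM Mf).Normal := normal_MM hF
  have hT := hF.tree
  have hM := ell_MM hF
  have hTq := isTree_QG hT hM
  obtain ⟨P, hP⟩ : ∃ P : Subgroup G, P = MulAction.stabilizer G x ⊔ MM Mf := ⟨_, rfl⟩
  rw [← hP]
  have hxP : ∀ g : G, g • x = x → g ∈ P := fun g hg => by
    rw [hP]
    exact Subgroup.mem_sup_left hg
  have hMP : ∀ g ∈ MM Mf, g ∈ P := fun g hg => by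
    rw [hP]
    exact Subgroup.mem_sup_right hg
  have hPx : ∀ p ∈ P, pr Mf (p • x) = pr Mf x := fun p hp => mk_fix hF x (by rwa [← hP])
  have hPM : ∀ p ∈ P, ∀ y, pr Mf y ≠ pr Mf x → p • y = y → p ∈ Mf y := fun p hp y hy h =>
    mem_Mf_of hE hF hcyc x (by rwa [← hP]) hy h
  have hTP : TreeAct P T := ⟨hT.isTree, fun g v w h => hT.adj g v w h,
    fun g v w h => hT.noInv g v w h⟩
  obtain ⟨L, iL, J, ρ, hL, hJmul, hJinj, hρadd, hρ1, hρconj⟩ := exists_roots' hC.base x (hst x)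
  obtain ⟨u, γ, ψ, hγ, hu⟩ := exists_data hE hF hcyc x
  obtain ⟨R, s, hR, hs, hRx, hmkR⟩ := exists_reps hF x P hP
  have hs' : ∀ v, ((s v : P) : G) • R v = v := hs
  let h : V → P → L := fun v p => if pr Mf v = pr Mf x then J p else ρ (γ (u v)) (ψ v p)
  have hhx : ∀ v (p : P), pr Mf v = pr Mf x → h (R v) p = J p := fun v p hv =>
    if_pos ((hmkR v).2 hv)
  have hhn : ∀ v (p : P), ¬ pr Mf v = pr Mf x → h (R v) p = ρ (γ (u (R v))) (ψ (R v) p) :=
    fun v p hv => if_neg (fun h' => hv ((hmkR v).1 h'))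
  have huR : ∀ v, ¬ pr Mf v = pr Mf x → T.Adj x (u (R v)) ∧
      Br (QG T (MM Mf)) (pr Mf x) (pr Mf (u (R v))) (pr Mf (R v)) ∧
      (∀ a ∈ Mf (R v), ∀ b ∈ Mf (R v), ψ (R v) (a * b) = ψ (R v) a + ψ (R v) b) ∧
        ∀ a ∈ Mf (R v), ∀ t, LC (γ (u (R v))) a t → ψ (R v) a = t := fun v hv =>
    hu (R v) (fun h' => hv ((hmkR v).1 h'))
  -- the branch of a vertex
  have hbr : ∀ v, ¬ pr Mf v = pr Mf x → Br (QG T (MM Mf)) (pr Mf x)
      (pr Mf ((s v : G) • u (R v))) (pr Mf v) := by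
    intro v hv
    have h1 := br_mk hT hN hM (s v : G) (huR v hv).2.1
    rw [hs'] at h1
    have h2 := hPx _ (s v).2
    rwa [show Q182.Cen.mk (MM Mf) ((s v : G) • x) = pr Mf x from h2] at h1
  have hγfix : ∀ w, T.Adj x w → γ w • x = x ∧ γ w • w = w := by
    intro w hw
    have h1 : γ w ∈ Est G x w := by
      rw [← (hγ w hw).2.1]
      exact Subgroup.mem_zpowers _
    exact h1
  have hconjR : ∀ v (m : P), m • v = v → ((s v)⁻¹ * m * s v) • R v = R v := by
    intro v m hm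
    rw [mul_smul, mul_smul, hs, hm, inv_smul_eq_iff, hs]
  have hρJ : ∀ c, c • x = x → ∀ k : ℤ, ρ c k = J (c ^ k) := by
    intro c hc k
    have h1 := rho_int (ρ c) (fun s t => hρadd c s t hc) k 1
    rw [mul_one, hρ1 c hc] at h1
    rw [h1, J_zpow x hJmul hc]
  -- the key computation
  have key : ∀ v w, T.Adj v w → ¬ pr Mf w = pr Mf x → ∃ d : L, ∀ m : P, m • v = v → m • w = w →
      h (R v) ((s v)⁻¹ * m * s v) = d * h (R w) ((s w)⁻¹ * m * s w) * d⁻¹ := by
    intro v w hvw hw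
    obtain ⟨hw1, hw2, hw3, hw4⟩ := huR w hw
    by_cases hv : pr Mf v = pr Mf x
    · -- the first vertex is over the base point
      have hRv := hRx v hv
      have hsv : (s v : G) • x = v := by rw [← hRv]; exact hs' v
      have hadj : T.Adj x ((s v : G)⁻¹ • w) := by
        have h1 := hT.adj (s v : G)⁻¹ v w hvw
        rwa [inv_smul_eq_iff.2 hsv.symm] at h1
      have h1 : pr Mf ((s v : G) • (s v : G)⁻¹ • w) = pr Mf ((s w : G) • u (R w)) := by
        rw [smul_inv_smul]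
        refine br_unique hTq ?_ (hbr w hw)
        rw [← hv]
        exact br_self (adj_mk hT hM hvw)
      obtain ⟨g, hg1, hg2, m₁, hm₁, hg3⟩ := glue hF x (hPx _ (s v).2) (hPx _ (s w).2) hadj hw1 h1
      refine ⟨(J g)⁻¹, fun m hmv hmw => ?_⟩
      obtain ⟨hc1, hc2, hc3, hc4⟩ := hγ _ hadj
      have hcx := (hγfix _ hadj).1
      have hgc : γ (u (R w)) = g * γ ((s v : G)⁻¹ • w) * g⁻¹ := by rw [← hg2]; exact hc4 g hg1
      have hmv' : (m : G) • v = v := hmv
      have hmw' : (m : G) • w = w := hmw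
      have h2 : (s v : G)⁻¹ * m * s v ∈ Est G x ((s v : G)⁻¹ • w) := by
        refine ⟨?_, ?_⟩
        · show ((s v : G)⁻¹ * m * s v) • x = x
          rw [mul_smul, mul_smul, hsv, hmv', inv_smul_eq_iff, hsv]
        · show ((s v : G)⁻¹ * m * s v) • (s v : G)⁻¹ • w = (s v : G)⁻¹ • w
          rw [mul_smul, mul_smul, smul_inv_smul, hmw']
      rw [← hc2] at h2
      obtain ⟨k, hk⟩ := h2
      have hk' : γ ((s v : G)⁻¹ • w) ^ k = (s v : G)⁻¹ * m * s v := hk
      have h3 : LC (γ ((s v : G)⁻¹ • w)) ((s v : G)⁻¹ * m * s v) k := by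
        rw [← hk']
        exact LC.zpow _ k
      have h4 := lc_glue hF hm₁ hg3 hc3 h3
      rw [← hgc] at h4
      have h5 : (s w : G)⁻¹ * m * s w ∈ Mf (R w) :=
        hPM _ ((s w)⁻¹ * m * s w).2 _ (fun h' => hw ((hmkR w).1 h')) (hconjR w m hmw)
      have h6 := hw4 _ h5 _ h4
      rw [hhx v _ hv, hhn w _ hw]
      show J ((s v : G)⁻¹ * m * s v) = (J g)⁻¹ * ρ (γ (u (R w))) (ψ (R w) ((s w : G)⁻¹ * m * s w)) *
        (J g)⁻¹⁻¹
      rw [h6, hgc, ← hρconj g _ k hg1 hcx, hρJ _ hcx, hk']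
      group
    · -- both vertices are not over the base point
      obtain ⟨hv1, hv2, hv3, hv4⟩ := huR v hv
      have h1 : pr Mf ((s v : G) • u (R v)) = pr Mf ((s w : G) • u (R w)) :=
        br_unique hTq (br_adj hTq (adj_mk hT hM hvw) (fun h' => hw h'.symm) (hbr v hv)) (hbr w hw)
      obtain ⟨g, hg1, hg2, m₁, hm₁, hg3⟩ := glue hF x (hPx _ (s v).2) (hPx _ (s w).2) hv1 hw1 h1
      refine ⟨(J g)⁻¹, fun m hmv hmw => ?_⟩
      obtain ⟨hc1, hc2, hc3, hc4⟩ := hγ _ hv1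
      have hcx := (hγfix _ hv1).1
      have hgc : γ (u (R w)) = g * γ (u (R v)) * g⁻¹ := by rw [← hg2]; exact hc4 g hg1
      have hmv' : (m : G) • v = v := hmv
      have hmw' : (m : G) • w = w := hmw
      have hadj : T.Adj (R v) ((s v : G)⁻¹ • w) := by
        have h1 := hT.adj (s v : G)⁻¹ v w hvw
        rwa [inv_smul_eq_iff.2 (hs' v).symm] at h1
      have h2 : (s v : G)⁻¹ * m * s v ∈ Est G (R v) ((s v : G)⁻¹ • w) := by
        refine ⟨?_, ?_⟩
        · show ((s v : G)⁻¹ * m * s v) • R v = R v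
          rw [mul_smul, mul_smul, hs', hmv', inv_smul_eq_iff, hs']
        · show ((s v : G)⁻¹ * m * s v) • (s v : G)⁻¹ • w = (s v : G)⁻¹ • w
          rw [mul_smul, mul_smul, smul_inv_smul, hmw']
      obtain ⟨t0, h3⟩ := exists_LC hE hc1 hv1 hadj (hγfix _ hv1) h2
      have h4 := lc_glue hF hm₁ hg3 hc3 h3
      rw [← hgc] at h4
      have h5 : (s w : G)⁻¹ * m * s w ∈ Mf (R w) :=
        hPM _ ((s w)⁻¹ * m * s w).2 _ (fun h' => hw ((hmkR w).1 h')) (hconjR w m hmw)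
      have h7 : (s v : G)⁻¹ * m * s v ∈ Mf (R v) :=
        hPM _ ((s v)⁻¹ * m * s v).2 _ (fun h' => hv ((hmkR v).1 h')) (hconjR v m hmv)
      rw [hhn v _ hv, hhn w _ hw]
      show ρ (γ (u (R v))) (ψ (R v) ((s v : G)⁻¹ * m * s v)) =
        (J g)⁻¹ * ρ (γ (u (R w))) (ψ (R w) ((s w : G)⁻¹ * m * s w)) * (J g)⁻¹⁻¹
      rw [hw4 _ h5 _ h4, hv4 _ h7 _ h3, hgc, ← hρconj g _ t0 hg1 hcx]
      group
  obtain ⟨lam, hlam⟩ := bundle2 hTP R s hR hs h (by
    intro v a b ha hb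
    have ha' : (a : G) • R v = R v := ha
    have hb' : (b : G) • R v = R v := hb
    by_cases hv : pr Mf v = pr Mf x
    · rw [hhx v _ hv, hhx v _ hv, hhx v _ hv]
      rw [hRx v hv] at ha' hb'
      exact hJmul a b ha' hb'
    · obtain ⟨hv1, hv2, hv3, hv4⟩ := huR v hv
      rw [hhn v _ hv, hhn v _ hv, hhn v _ hv, ← hρadd _ _ _ (hγfix _ hv1).1]
      congr 1
      exact hv3 _ (hPM _ a.2 _ (fun h' => hv ((hmkR v).1 h')) ha') _
        (hPM _ b.2 _ (fun h' => hv ((hmkR v).1 h')) hb')) (by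
    intro v w hvw
    by_cases hw : pr Mf w = pr Mf x
    · have hv : ¬ pr Mf v = pr Mf x := fun h' => mk_ne hT hM hvw (h'.trans hw.symm)
      obtain ⟨d, hd⟩ := key w v hvw.symm hv
      refine ⟨d⁻¹, fun m hmv hmw => ?_⟩
      rw [hd m hmw hmv]
      group
    · exact key v w hvw hw)
  refine Q182.Fk.main hC lam hL hTP ?_ (fun v => Q182.Cen.st_mem hC.base.base P v (hst v))
  intro v w hvw
  refine Set.Finite.subset (Set.finite_singleton 1) ?_
  rintro m ⟨hmv, hmw, hm⟩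
  rw [Set.mem_singleton_iff]
  have hmv' : (m : G) • v = v := hmv
  have hmw' : (m : G) • w = w := hmw
  obtain ⟨f, hf⟩ := hlam v
  rw [hf m hmv] at hm
  have hm' : h (R v) ((s v)⁻¹ * m * s v) = 1 := by
    have h1 : h (R v) ((s v)⁻¹ * m * s v) =
        f⁻¹ * (f * h (R v) ((s v)⁻¹ * m * s v) * f⁻¹) * f := by group
    rw [h1, hm]
    group
  have hback : (s v)⁻¹ * m * s v = 1 → m = 1 := by
    intro h1
    have h2 : m = s v * ((s v)⁻¹ * m * s v) * (s v)⁻¹ := by group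
    rw [h2, h1]
    group
  by_cases hv : pr Mf v = pr Mf x
  · rw [hhx v _ hv] at hm'
    apply hback
    apply Subtype.ext
    refine hJinj _ ?_ hm'
    have h1 := hconjR v m hmv
    rw [hRx v hv] at h1
    exact h1
  · obtain ⟨hv1, hv2, hv3, hv4⟩ := huR v hv
    rw [hhn v _ hv] at hm'
    have hadj : T.Adj (R v) ((s v : G)⁻¹ • w) := by
      have h1 := hT.adj (s v : G)⁻¹ v w hvw
      rwa [inv_smul_eq_iff.2 (hs' v).symm] at h1
    have h2 : (s v : G)⁻¹ * m * s v ∈ Est G (R v) ((s v : G)⁻¹ • w) := by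
      refine ⟨?_, ?_⟩
      · show ((s v : G)⁻¹ * m * s v) • R v = R v
        rw [mul_smul, mul_smul, hs', hmv', inv_smul_eq_iff, hs']
      · show ((s v : G)⁻¹ * m * s v) • (s v : G)⁻¹ • w = (s v : G)⁻¹ • w
        rw [mul_smul, mul_smul, smul_inv_smul, hmw']
    obtain ⟨hc1, hc2, hc3, hc4⟩ := hγ _ hv1
    have hcx := (hγfix _ hv1).1
    obtain ⟨t0, h3⟩ := exists_LC hE hc1 hv1 hadj (hγfix _ hv1) h2
    have h7 : (s v : G)⁻¹ * m * s v ∈ Mf (R v) :=
      hPM _ ((s v)⁻¹ * m * s v).2 _ (fun h' => hv ((hmkR v).1 h')) (hconjR v m hmv)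
    have h4 : ρ (γ (u (R v))) t0 = 1 := by
      rw [← hv4 _ h7 _ h3]
      exact hm'
    obtain ⟨j, k, hj, h5, h6⟩ := h3
    have h8 : ρ (γ (u (R v))) k = 1 := by
      have h9 := rho_int (ρ (γ (u (R v)))) (fun s t => hρadd _ s t hcx) j t0
      rw [h4, one_zpow] at h9
      rw [← h9, h6]
      congr 1
      have h10 : (j : ℚ) ≠ 0 := by positivity
      push_cast
      field_simp
    rw [hρJ _ hcx] at h8
    have h9 : γ (u (R v)) ^ k = 1 := hJinj _ (by
      have h10 : γ (u (R v)) ∈ MulAction.stabilizer G x := hcx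
      exact (MulAction.stabilizer G x).zpow_mem h10 k) h8
    rw [h9] at h5
    -- `m` has finite order and is in an infinite cyclic group
    have h10 : (m : G) ^ j = 1 := by
      have h11 : (m : G) = (s v : G) * ((s v : G)⁻¹ * m * s v) * (s v : G)⁻¹ := by group
      rw [h11, conj_pow, h5]
      group
    have := hcyc v w hvw
    obtain ⟨c0, hc0⟩ := this.exists_generator
    obtain ⟨l, hl⟩ := hc0 ⟨(m : G), ⟨hmv', hmw'⟩⟩
    have hl' : (c0 : G) ^ l = m := congrArg Subtype.val hl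
    obtain ⟨i, hi, h12⟩ := pow_mem_Est hE hvw
    obtain ⟨l', hl2⟩ := hc0 ⟨e ^ i, h12⟩
    have hl2' : (c0 : G) ^ l' = e ^ i := congrArg Subtype.val hl2
    have h13 : (m : G) ^ ((j : ℤ) * l') = 1 := by rw [zpow_mul, zpow_natCast, h10, one_zpow]
    have h14 : e ^ ((i : ℤ) * (l * j)) = 1 := by
      rw [zpow_mul, zpow_natCast, ← hl2', ← zpow_mul, ← mul_assoc, mul_comm l' l, mul_assoc,
        zpow_mul, hl', mul_comm l' (j : ℤ), h13]
    have h15 : (i : ℤ) * (l * j) = 0 := hE.inf.zpow h14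
    have h16 : l = 0 := by
      rcases mul_eq_zero.1 h15 with h | h
      · omega
      · rcases mul_eq_zero.1 h with h' | h'
        · exact h'
        · omega
    apply Subtype.ext
    rw [← hl', h16, zpow_zero]
    rfl

end Q182.De
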