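import Mathlib

/-!
# The pairing on the second cohomology of the 8-torus defined by a class of degree four
-/

namespace Q182

/-- The cohomology ring of the torus `T⁸`: the exterior algebra on `H¹(T⁸; ℤ) = ℤ⁸`; the standard
basis vector `Pi.single i 1` is the class `x_i`. Its homogeneous part of degree `k` is
`⋀[ℤ]^k (Fin 8 → ℤ)`. -/
abbrev TorusCoh : Type := ExteriorAlgebra ℤ (Fin 8 → ℤ)

/-- Evaluation on the fundamental class: the linear functional that vanishes in degrees different
from `8` and sends a product `v₁ ⋯ v₈` of classes of degree one to `det (v₁, …, v₈)`; so it sends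
`x₁ ⋯ x₈` to `1`. -/
noncomputable def evalFund : TorusCoh →ₗ[ℤ] ℤ :=
  ExteriorAlgebra.liftAlternating (Function.update 0 8 Matrix.detRowAlternating)

/-- The form `B_ω (x, y) = ⟨x ∪ y ∪ ω, [T]⟩` on `H²(T⁸; ℤ)`. -/
noncomputable def pairing (ω : TorusCoh) (x y : ⋀[ℤ]^2 (Fin 8 → ℤ)) : ℤ :=
  evalFund ((x : TorusCoh) * (y : TorusCoh) * ω)

end Q182
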