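import Mathlib
import Pool.Agent.Q182.EEInt

/-!
# An explicit class and an explicit isometry
-/

namespace Q182.EE

open ExteriorAlgebra

/-- Formal sums of monomials. -/
abbrev Poly : Type := List (ℤ × List ℕ)

/-- The class `ω`, a sum of 13 monomials. -/
def omP : Poly := [(1, [2, 4, 6, 7]), (1, [2, 4, 5, 7]), (-1, [2, 3, 4, 6]), (-1, [1, 4, 6, 7]), (-1, [1, 3, 5, 7]), (-1, [1, 2, 5, 6]), (-1, [0, 3, 5, 6]), (1, [0, 3, 4, 7]), (-1, [0, 3, 4, 6]), (-1, [0, 2, 6, 7]), (-1, [0, 2, 3, 6]), (1, [0, 1, 4, 5]), (1, [0, 1, 2, 3])]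

/-- The new basis of the second cohomology. -/
def cols : List Poly := [
  [(-1, [0, 4]), (-1, [0, 7]), (-1, [2, 6]), (1, [3, 7])],
  [(1, [0, 2]), (1, [1, 2]), (-1, [1, 4]), (1, [2, 7]), (1, [3, 6]), (-1, [4, 7]), (-1, [5, 7])],
  [(1, [0, 1]), (1, [0, 7]), (-1, [1, 4]), (-1, [1, 5]), (-1, [3, 4])],
  [(-1, [0, 7]), (1, [1, 4]), (-1, [2, 7]), (-1, [3, 5]), (-1, [3, 6]), (1, [4, 6])],
  [(-1, [0, 1]), (-1, [0, 2]), (1, [3, 5]), (-1, [4, 6]), (-1, [5, 6]), (1, [5, 7])],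
  [(1, [0, 1]), (1, [0, 3]), (-1, [1, 2]), (-1, [1, 6]), (1, [2, 5]), (1, [4, 7]), (1, [5, 6])],
  [(1, [0, 6]), (1, [1, 3]), (1, [1, 6]), (-1, [1, 7]), (1, [2, 4])],
  [(1, [0, 5]), (-1, [1, 3]), (1, [2, 3]), (-1, [2, 4]), (-1, [4, 5]), (1, [6, 7])],
  [(1, [5, 7])],
  [(1, [1, 4])],
  [(1, [6, 7])],
  [(1, [4, 5])],
  [(1, [2, 4])],
  [(-1, [0, 6])],
  [(1, [1, 5])],
  [(1, [0, 7])],
  [(1, [2, 5])],
  [(1, [1, 6])],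
  [(1, [3, 7])],
  [(1, [0, 4])],
  [(1, [0, 1]), (1, [4, 6])],
  [(-1, [0, 2])],
  [(-1, [0, 1]), (1, [1, 2])],
  [(1, [5, 6])],
  [(-1, [2, 3]), (1, [4, 5])],
  [(1, [0, 5])],
  [(-1, [0, 7]), (-1, [2, 7]), (1, [5, 7])],
  [(1, [0, 1]), (-1, [1, 4])]]

/-- The pairs. -/
def prs : List (List ℕ) := [[0, 1], [0, 2], [0, 3], [0, 4], [0, 5], [0, 6], [0, 7], [1, 2], [1, 3], [1, 4], [1, 5], [1, 6], [1, 7], [2, 3], [2, 4], [2, 5], [2, 6], [2, 7], [3, 4], [3, 5], [3, 6], [3, 7], [4, 5], [4, 6], [4, 7], [5, 6], [5, 7], [6, 7]]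

/-- The inverse matrix. -/
def inv : List (List ℤ) := [
  [0, 0, 0, 0, 0, 0, 0, 0, 0, 1, 0, 0, 0, 0, 0, 0, 0, 0, 0, 0, 0, 0, 0, 0, 0, 0, 0, 1],
  [0, 0, 0, 0, 0, 0, 0, 0, 0, 0, 0, 0, 0, 0, 0, 0, 0, 0, 0, 0, 0, -1, 0, 0, 0, 0, 0, 0],
  [0, 1, 0, 1, 1, 1, 0, 0, 0, 0, 0, 0, 0, 0, 0, 1, -1, 1, 0, 0, 0, 0, 0, 0, 0, 0, 0, 0],
  [0, 0, 0, 0, 0, 0, 0, 0, 0, 0, 0, 0, 0, 0, 0, 0, 0, 0, 0, 1, 0, 0, 0, 0, 0, 0, 0, 0],
  [0, 0, 0, 0, 0, 0, 0, 0, 0, 0, 0, 0, 0, 0, 0, 0, 0, 0, 0, 0, 0, 0, 0, 0, 0, 1, 0, 0],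
  [0, 0, 0, 0, 0, 0, 0, 0, 0, 0, 0, 0, 0, -1, 0, 0, 0, 0, 0, 0, 0, 0, 0, 0, 0, 0, 0, 0],
  [0, 0, 0, 0, 0, 0, 0, 0, 0, 0, 0, 0, 0, 0, 0, 1, 0, 0, 0, 0, 0, 0, 0, 0, 0, 0, 0, 0],
  [0, 0, 0, 0, 0, 0, 0, 0, 0, 1, 0, 0, 0, 0, 0, 0, 0, 0, 0, 0, 0, 0, 1, 0, 0, 0, 0, 1],
  [0, 0, 0, 0, 0, 0, 0, -1, 0, 0, 1, 0, -1, 0, 0, 0, 0, 0, 0, 0, 0, 0, 0, 0, -1, 1, 0, 0],
  [0, 0, 0, 0, 0, 0, 0, 0, 0, 1, 0, 0, 0, 0, 0, 0, 0, 0, 0, 0, 0, 0, 0, 0, 0, 0, 0, 0],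
  [0, 0, 0, 0, 0, 0, 0, 0, 0, 0, 0, 0, 0, 0, 1, 0, 0, 0, 0, 0, 0, 0, 0, 0, 0, 0, 0, 0],
  [0, 0, 0, 0, 0, 0, 0, 0, 0, 0, 0, 0, 0, 0, 0, 0, 0, 1, 0, 0, 0, 0, 0, 0, 0, 0, 0, 0],
  [0, 0, 0, 0, 0, 0, -1, -1, 0, 0, 1, 0, 0, -1, 0, 0, 0, 1, 0, 0, 0, 0, 0, 0, -1, 1, 0, 0],
  [0, 0, 0, 0, 0, 0, 0, 0, 0, 0, 0, 1, 0, 0, 0, 0, 0, 0, 0, 0, 0, 0, 0, 0, -1, 0, 0, 0],
  [0, 0, 0, 0, 0, 0, 0, 0, 0, 0, 0, 0, 1, 0, 0, 0, 0, 0, 0, 0, 0, 0, 0, 0, 0, 0, 0, 0],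
  [0, 0, 0, 0, 0, 0, 0, 0, 0, 0, 0, 0, 0, 0, 0, 0, 1, 0, 0, 0, 0, 0, 0, 0, 0, 0, 0, 0],
  [-1, 0, 0, 0, 0, 0, 0, 0, 0, 0, 0, 0, 0, 0, 0, -1, 0, 0, 1, -1, 0, 0, 0, 0, 0, 0, 0, 0],
  [0, 0, 0, 0, 0, 0, 0, 0, 1, 0, 0, 0, 0, 0, 0, -1, 0, 0, 0, 0, 0, 0, 0, 0, 0, 0, -1, 0],
  [0, 0, -1, 0, 0, 0, 0, 0, 0, 0, 0, 0, 0, 0, -1, 1, 0, 0, 0, 0, 0, 0, 0, 0, 0, 0, 0, 1],
  [0, 0, 0, 0, 1, 0, 0, 0, -1, 0, 0, 0, 0, 0, 0, 0, 0, 0, 0, 0, 1, -1, 0, 1, 0, 0, 0, 0],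
  [0, 0, 0, -1, -1, 0, 0, 0, 0, 0, 0, 0, 0, 0, 0, 0, 0, 0, 0, 0, 0, 1, 0, -1, 0, 0, 1, -1],
  [0, 0, 0, 0, 0, 0, 0, 0, 0, 0, 0, 0, 0, 0, 0, 0, 0, 0, 1, 0, 0, 0, 0, 0, 0, 0, 0, 0],
  [0, 0, 0, 0, 0, 0, 0, 0, 0, 0, 0, 1, 0, 0, 0, 0, 0, 0, 0, 0, 0, 0, 0, 0, 0, 0, 0, 0],
  [0, 0, 0, 0, 0, 0, 0, 0, 0, -1, 0, 0, 0, 0, 0, 0, 0, 0, 0, 0, 1, 0, 0, 0, 0, 0, 0, -1],
  [0, -1, 0, -1, -1, 0, 0, 0, 0, 0, 0, 0, 0, 0, 0, -1, 0, 0, 0, 0, 0, 0, 1, -1, 0, 0, 0, 0],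
  [0, 0, 0, 0, 0, 0, 0, 0, 0, 0, 0, 0, 0, 0, 0, 0, 0, 0, 0, 0, 0, 0, 0, 1, 0, 0, 0, 0],
  [0, 0, 0, 0, 0, 0, 0, 0, 1, 0, 0, 0, 0, 0, 0, 0, 0, 0, 0, 0, 0, 0, 0, 0, 0, 0, 0, 0],
  [0, 0, 0, 0, 0, 0, 0, 0, 0, 0, 1, 0, 0, 0, 0, 0, 0, 0, 0, 0, 0, 0, 0, 0, 0, 0, 0, 0]]

/-! ### Arithmetic of monomials -/

/-- The generators. -/
noncomputable def E (i : ℕ) : TorusCoh := ι ℤ (fun j : Fin 8 => if (j : ℕ) = i then (1 : ℤ) else 0)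

/-- Monomials. -/
noncomputable def W (l : List ℕ) : TorusCoh := (l.map E).prod

lemma W_nil : W [] = 1 := rfl

lemma W_cons (i : ℕ) (l : List ℕ) : W (i :: l) = E i * W l := by
  unfold W
  rw [List.map_cons, List.prod_cons]

lemma W_append (l l' : List ℕ) : W (l ++ l') = W l * W l' := by
  unfold W
  rw [List.map_append, List.prod_append]

/-- The interpretation of formal sums. -/
noncomputable def I (p : Poly) : TorusCoh := (p.map fun a => a.1 • W a.2).sum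

/-- Insertion. -/
def ins (i : ℕ) : List ℕ → ℤ × List ℕ
  | [] => (1, [i])
  | j :: l => if i < j then (1, i :: j :: l) else if i = j then (0, []) else
      (-(ins i l).1, j :: (ins i l).2)

lemma ins_spec (i : ℕ) (l : List ℕ) : E i * W l = (ins i l).1 • W (ins i l).2 := by
  induction l with
  | nil => rw [ins, W_nil, one_smul, W_cons, W_nil]
  | cons j l ih =>
    rw [ins, W_cons]
    split_ifs with h1 h2
    · rw [one_smul, W_cons, W_cons]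
    · rw [zero_smul, ← mul_assoc, h2]
      unfold E
      rw [ι_sq_zero, zero_mul]
    · rw [W_cons, ← mul_assoc]
      have h3 : E i * E j = -(E j * E i) := eq_neg_of_add_eq_zero_left (ι_add_mul_swap _ _)
      rw [h3, neg_mul, mul_assoc, ih, neg_smul, mul_smul_comm]

/-- Sorting. -/
def srt : List ℕ → ℤ × List ℕ
  | [] => (1, [])
  | i :: l => ((srt l).1 * (ins i (srt l).2).1, (ins i (srt l).2).2)

lemma srt_spec (l : List ℕ) : W l = (srt l).1 • W (srt l).2 := by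
  induction l with
  | nil => rw [srt, one_smul]
  | cons i l ih =>
    rw [srt, W_cons, ih, mul_smul_comm, ins_spec, smul_smul]

def full : List ℕ := [0, 1, 2, 3, 4, 5, 6, 7]

lemma evalFund_full : evalFund (W full) = 1 := by
  have h : W full = ιMulti ℤ 8 (fun i j : Fin 8 => if j = i then (1 : ℤ) else 0) := by
    rw [ιMulti_apply]
    have h1 : (List.ofFn fun i : Fin 8 => ι ℤ ((fun i j : Fin 8 => if j = i then (1 : ℤ) else 0) i)) =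
        full.map E := by
      apply List.ext_getElem
      · simp [full]
      · intro n h1 h2
        rw [List.getElem_ofFn, List.getElem_map]
        unfold E
        congr 1
        funext j
        have h3 : full[n]'(by simpa using h2) = n := by
          have h4 : n < 8 := by simpa [full] using h2
          interval_cases n <;> rfl
        rw [h3]
        show (if j = ⟨n, _⟩ then (1 : ℤ) else 0) = if (j : ℕ) = n then 1 else 0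
        simp only [Fin.ext_iff]
    rw [h1]
    rfl
  rw [h]
  unfold evalFund
  rw [liftAlternating_apply_ιMulti, Function.update_self]
  show Matrix.det (fun i j : Fin 8 => if j = i then (1 : ℤ) else 0) = 1
  have h2 : (fun i j : Fin 8 => if j = i then (1 : ℤ) else 0) = (1 : Matrix (Fin 8) (Fin 8) ℤ) := by
    funext i j
    rw [Matrix.one_apply]
    simp only [eq_comm]
  rw [h2, Matrix.det_one]

/-- The value of a monomial of degree eight, if it is accepted by `ok`. -/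
def tp (l : List ℕ) : ℤ := (srt l).1

def ok (l : List ℕ) : Bool := (srt l).1 == 0 || (srt l).2 == full

lemma eval_ok {l : List ℕ} (h : ok l = true) : evalFund (W l) = tp l := by
  unfold ok at h
  rw [Bool.or_eq_true, beq_iff_eq, beq_iff_eq] at h
  rw [srt_spec, map_smul, smul_eq_mul]
  unfold tp
  rcases h with h | h
  · rw [h, zero_mul]
  · rw [h, evalFund_full, mul_one]

/-- Triple products. -/
def S3 (p q w : Poly) : ℤ :=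
  (p.map fun a => (q.map fun b => (w.map fun t => a.1 * (b.1 * (t.1 * tp (a.2 ++ (b.2 ++ t.2))))).sum).sum).sum

def ok3 (p q w : Poly) : Bool :=
  p.all fun a => q.all fun b => w.all fun t => ok (a.2 ++ (b.2 ++ t.2))

lemma map_sum_list {A B : Type} [AddCommGroup A] [AddCommGroup B] (f : A →+ B) (l : List A) :
    f l.sum = (l.map f).sum := map_list_sum f l

lemma eval3 {p q w : Poly} (h : ok3 p q w = true) : evalFund (I p * I q * I w) = S3 p q w := by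
  unfold ok3 at h
  have h1 : ∀ a ∈ p, ∀ b ∈ q, ∀ t ∈ w, ok (a.2 ++ (b.2 ++ t.2)) = true := by
    intro a ha b hb t ht
    exact List.all_eq_true.1 (List.all_eq_true.1 (List.all_eq_true.1 h a ha) b hb) t ht
  rw [mul_assoc]
  unfold I S3
  rw [← List.sum_map_mul_right, map_list_sum, List.map_map]
  congr 1
  refine List.map_congr_left fun a ha => ?_
  show evalFund (a.1 • W a.2 * ((q.map fun b => b.1 • W b.2).sum * (w.map fun t => t.1 • W t.2).sum)) = _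
  rw [← List.sum_map_mul_right, ← List.sum_map_mul_left, map_list_sum, List.map_map]
  congr 1
  refine List.map_congr_left fun b hb => ?_
  show evalFund (a.1 • W a.2 * (b.1 • W b.2 * (w.map fun t => t.1 • W t.2).sum)) = _
  rw [← List.sum_map_mul_left, ← List.sum_map_mul_left, map_list_sum, List.map_map]
  congr 1
  refine List.map_congr_left fun t ht => ?_
  show evalFund (a.1 • W a.2 * (b.1 • W b.2 * t.1 • W t.2)) = _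
  rw [smul_mul_smul_comm, ← W_append, smul_mul_smul_comm, ← W_append, map_smul, smul_eq_mul,
    eval_ok (h1 a ha b hb t ht)]
  ring

end Q182.EE
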