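import Mathlib
import Pool.Agent.Q182.EEProof

/-!
# The finite checks
-/

namespace Q182.EE

/-- The Gram matrix as a function of natural numbers. -/
def gN (i j : ℕ) : ℤ :=
  if i < 8 ∧ j < 8 then (([[2, 0, -1, 0, 0, 0, 0, 0], [0, 2, 0, -1, 0, 0, 0, 0],
    [-1, 0, 2, -1, 0, 0, 0, 0], [0, -1, -1, 2, -1, 0, 0, 0], [0, 0, 0, -1, 2, -1, 0, 0],
    [0, 0, 0, 0, -1, 2, -1, 0], [0, 0, 0, 0, 0, -1, 2, -1], [0, 0, 0, 0, 0, 0, -1, 2]] :
    List (List ℤ)).getD i []).getD j 0
  else if 8 ≤ i ∧ 8 ≤ j ∧ i / 2 = j / 2 ∧ i ≠ j then 1 else 0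

def chkA : Bool := (List.range 28).all fun i => (List.range 28).all fun j =>
  ok3 (cols.getD i []) (cols.getD j []) omP && S3 (cols.getD i []) (cols.getD j []) omP == gN i j

/-- Combinations. -/
def comb (r : List ℤ) : Poly :=
  (List.zip r cols).flatMap fun x => if x.1 = 0 then [] else x.2.map fun a => (x.1 * a.1, a.2)

def cf (p : Poly) (l : List ℕ) : ℤ := (p.map fun a => if a.2 = l then a.1 else 0).sum

def chkB : Bool := (List.range 28).all fun k =>
  ((comb (inv.getD k [])).all fun a => prs.contains a.2) &&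
  (List.range 28).all fun l => cf (comb (inv.getD k [])) (prs.getD l []) == if l = k then 1 else 0

set_option maxRecDepth 100000 in
theorem chkA_true : chkA = true := by decide +kernel

set_option maxRecDepth 100000 in
theorem chkB_true : chkB = true := by decide +kernel

end Q182.EE
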