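import Mathlib

/-!
# The pairing on the second cohomology of the 8-torus defined by a class of degree four
-/

namespace Q182

/-- `H¹(T⁸; ℤ) = ℤ⁸`; the standard basis vector `Pi.single i 1` is the class `x_i`. -/
def H1T : Type := Fin 8 → ℤ

instance instGroupH1T : AddCommGroup H1T := inferInstanceAs (AddCommGroup (Fin 8 → ℤ))

instance instModuleH1T : Module ℤ H1T := inferInstanceAs (Module ℤ (Fin 8 → ℤ))

/-- The cohomology ring of the torus `T⁸`: the exterior algebra on `H¹(T⁸; ℤ)`. -/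
def CohT : Type := ExteriorAlgebra ℤ H1T

noncomputable instance instRingCohT : Ring CohT := inferInstanceAs (Ring (ExteriorAlgebra ℤ H1T))

noncomputable instance instModuleCohT : Module ℤ CohT :=
  inferInstanceAs (Module ℤ (ExteriorAlgebra ℤ H1T))

/-- The cohomology group `Hᵏ(T⁸; ℤ)`: the exterior power of degree `k`. -/
noncomputable def cohDeg (k : ℕ) : Submodule ℤ CohT := ⋀[ℤ]^k H1T

/-- A class of degree one as an element of the cohomology ring. -/
noncomputable def cls (v : Fin 8 → ℤ) : CohT := ExteriorAlgebra.ι (M := H1T) ℤ v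

/-- The class `x₁ ⋯ x₈` in `H⁸(T⁸; ℤ)`, whose value on the fundamental class is `1`. -/
noncomputable def volT : CohT := (List.ofFn fun i : Fin 8 => cls (Pi.single i 1)).prod

/-- `B` is the form `B_ω (x, y) = ⟨x ∪ y ∪ ω, [T]⟩` on `H²(T⁸; ℤ)`:
`x ∪ y ∪ ω = B (x, y) x₁ ⋯ x₈` in `H⁸(T⁸; ℤ)`. -/
def IsPairing (ω : CohT) (B : cohDeg 2 → cohDeg 2 → ℤ) : Prop :=
  ∀ x y : cohDeg 2, (x : CohT) * (y : CohT) * ω = B x y • volT

/-- The Gram matrix of `E₈ ⊕ 10 H`. -/
def gramE8H : Matrix (Fin 8 ⊕ Fin 2 × Fin 10) (Fin 8 ⊕ Fin 2 × Fin 10) ℤ :=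
  Matrix.fromBlocks CartanMatrix.E₈ 0 0 (Matrix.blockDiagonal fun _ => !![0, 1; 1, 0])

end Q182
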