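import Mathlib
import Pool.Agent.Q182.EECheck
import Pool.Agent.Q182.EEDefs

/-!
# The isometry
-/

namespace Q182.EE

open ExteriorAlgebra

abbrev J : Type := Fin 8 ⊕ Fin 2 × Fin 10

/-- The position of an index. -/
def idx : J → ℕ
  | Sum.inl i => i
  | Sum.inr p => 8 + 2 * p.2 + p.1

lemma idx_lt (j : J) : idx j < 28 := by
  rcases j with i | p
  · have := i.2
    show (i : ℕ) < 28
    omega
  · have h1 := p.1.2
    have h2 := p.2.2
    show 8 + 2 * (p.2 : ℕ) + (p.1 : ℕ) < 28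
    omega

lemma idx_surj {n : ℕ} (hn : n < 28) : ∃ j : J, idx j = n := by
  rcases Nat.lt_or_ge n 8 with h | h
  · exact ⟨Sum.inl ⟨n, h⟩, rfl⟩
  · refine ⟨Sum.inr (⟨(n - 8) % 2, by omega⟩, ⟨(n - 8) / 2, by omega⟩), ?_⟩
    show 8 + 2 * ((n - 8) / 2) + (n - 8) % 2 = n
    omega

lemma gram_eq (i j : J) : gramE8H i j = gN (idx i) (idx j) := by
  rcases i with i | p <;> rcases j with j | q
  · revert i j
    decide
  · show (0 : ℤ) = gN i (8 + 2 * q.2 + q.1)
    unfold gN
    rw [if_neg (by omega), if_neg (by have := i.2; omega)]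
  · show (0 : ℤ) = gN (8 + 2 * p.2 + p.1) j
    unfold gN
    rw [if_neg (by omega), if_neg (by have := j.2; omega)]
  · show Matrix.blockDiagonal (fun _ : Fin 10 => !![(0 : ℤ), 1; 1, 0]) p q =
      gN (8 + 2 * p.2 + p.1) (8 + 2 * q.2 + q.1)
    obtain ⟨a, k⟩ := p
    obtain ⟨b, l⟩ := q
    revert a k b l
    decide

/-- The elements of the new basis. -/
noncomputable def x (j : J) : TorusCoh := I (cols.getD (idx j) [])

lemma gram_x (i j : J) : evalFund (x i * x j * I omP) = gramE8H i j := by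
  have h := chkA_true
  unfold chkA at h
  rw [List.all_eq_true] at h
  have h1 := h (idx i) (List.mem_range.2 (idx_lt i))
  rw [List.all_eq_true] at h1
  have h2 := h1 (idx j) (List.mem_range.2 (idx_lt j))
  rw [Bool.and_eq_true, beq_iff_eq] at h2
  unfold x
  rw [eval3 h2.1, h2.2, gram_eq]

lemma W_mem (l : List ℕ) : W l ∈ LinearMap.range (ι ℤ : (Fin 8 → ℤ) →ₗ[ℤ] TorusCoh) ^ l.length := by
  induction l with
  | nil => exact Submodule.one_le.1 (by simp)
  | cons i l ih =>
    rw [W_cons, List.length_cons, pow_succ']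
    exact Submodule.mul_mem_mul ⟨_, rfl⟩ ih

lemma I_mem {p : Poly} {n : ℕ} (h : ∀ a ∈ p, a.2.length = n) :
    I p ∈ LinearMap.range (ι ℤ : (Fin 8 → ℤ) →ₗ[ℤ] TorusCoh) ^ n := by
  unfold I
  apply list_sum_mem
  intro y hy
  obtain ⟨a, ha, rfl⟩ := List.mem_map.1 hy
  apply Submodule.smul_mem
  rw [← h a ha]
  exact W_mem a.2

lemma x_mem (j : J) : x j ∈ ⋀[ℤ]^2 (Fin 8 → ℤ) := by
  apply I_mem
  have h : ∀ i < 28, ∀ a ∈ cols.getD i [], a.2.length = 2 := by decide
  exact h (idx j) (idx_lt j)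

lemma om_mem : I omP ∈ ⋀[ℤ]^4 (Fin 8 → ℤ) := by
  apply I_mem
  decide

/-- The linear map. -/
noncomputable def e : (J → ℤ) →ₗ[ℤ] ⋀[ℤ]^2 (Fin 8 → ℤ) :=
  Fintype.linearCombination ℤ (fun j => (⟨x j, x_mem j⟩ : ⋀[ℤ]^2 (Fin 8 → ℤ)))

lemma e_coe (u : J → ℤ) : ((e u : ⋀[ℤ]^2 (Fin 8 → ℤ)) : TorusCoh) = ∑ j, u j • x j := by
  unfold e
  rw [Fintype.linearCombination_apply, Submodule.coe_sum]
  rfl

lemma pairing_e (u v : J → ℤ) : pairing (I omP) (e u) (e v) = u ⬝ᵥ (gramE8H.mulVec v) := by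
  unfold pairing
  rw [e_coe, e_coe, Finset.sum_mul_sum, Finset.sum_mul, map_sum]
  unfold dotProduct Matrix.mulVec dotProduct
  refine Finset.sum_congr rfl fun i _ => ?_
  rw [Finset.sum_mul, map_sum, Finset.mul_sum]
  refine Finset.sum_congr rfl fun j _ => ?_
  rw [smul_mul_smul_comm, smul_mul_assoc, map_smul, gram_x, smul_eq_mul]
  ring

/-! ### Spanning -/

lemma I_cf {p : Poly} (h : ∀ a ∈ p, a.2 ∈ prs) :
    I p = ∑ l ∈ Finset.range 28, cf p (prs.getD l []) • W (prs.getD l []) := by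
  have hnd : prs.Nodup := by decide
  have hlen : prs.length = 28 := by decide
  induction p with
  | nil =>
    unfold I cf
    simp
  | cons a p ih =>
    have h1 : I (a :: p) = a.1 • W a.2 + I p := by
      unfold I
      rw [List.map_cons, List.sum_cons]
    have h2 : ∀ l, cf (a :: p) l = (if a.2 = l then a.1 else 0) + cf p l := by
      intro l
      unfold cf
      rw [List.map_cons, List.sum_cons]
    rw [h1, ih fun b hb => h b (List.mem_cons_of_mem _ hb)]
    simp only [h2, add_smul, Finset.sum_add_distrib]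
    congr 1
    obtain ⟨k, hk, hk2⟩ := List.getElem_of_mem (h a (List.mem_cons_self))
    have hk' : k ∈ Finset.range 28 := Finset.mem_range.2 (by omega)
    rw [Finset.sum_eq_single_of_mem k hk' ?_]
    · have h3 : prs.getD k [] = a.2 := by
        rw [List.getD_eq_getElem _ _ hk, hk2]
      rw [h3, if_pos rfl]
    · intro l hl hlk
      have hl' : l < prs.length := by
        rw [hlen]
        exact Finset.mem_range.1 hl
      rw [List.getD_eq_getElem _ _ hl', if_neg, zero_smul]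
      intro h4
      rw [← hk2] at h4
      exact hlk ((List.Nodup.getElem_inj_iff hnd).1 h4).symm

lemma I_append (p q : Poly) : I (p ++ q) = I p + I q := by
  unfold I
  rw [List.map_append, List.sum_append]

lemma I_scale (c : ℤ) (p : Poly) : I (p.map fun a => (c * a.1, a.2)) = c • I p := by
  unfold I
  rw [List.map_map, List.smul_sum, List.map_map]
  congr 1
  refine List.map_congr_left fun a _ => ?_
  show (c * a.1) • W a.2 = c • (a.1 • W a.2)
  rw [smul_smul]

lemma comb_mem (r : List ℤ) : I (comb r) ∈ Submodule.span ℤ (Set.range x) := by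
  have key : ∀ L : List (ℤ × Poly), (∀ y ∈ L, y.2 ∈ cols) →
      I (L.flatMap fun x => if x.1 = 0 then [] else x.2.map fun a => (x.1 * a.1, a.2)) ∈
        Submodule.span ℤ (Set.range x) := by
    intro L
    induction L with
    | nil =>
      intro _
      show I [] ∈ _
      unfold I
      simp
    | cons y L ih =>
      intro hL
      rw [List.flatMap_cons, I_append]
      refine Submodule.add_mem _ ?_ (ih fun z hz => hL z (List.mem_cons_of_mem _ hz))
      split_ifs with h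
      · unfold I
        simp
      · rw [I_scale]
        apply Submodule.smul_mem
        apply Submodule.subset_span
        obtain ⟨k, hk, hk2⟩ := List.getElem_of_mem (hL y List.mem_cons_self)
        have hlen : cols.length = 28 := by decide
        obtain ⟨j, hj⟩ := idx_surj (n := k) (by omega)
        refine ⟨j, ?_⟩
        unfold x
        rw [hj, List.getD_eq_getElem _ _ hk, hk2]
  exact key _ fun y hy => (List.of_mem_zip hy).2

lemma W_pair_mem {k : ℕ} (hk : k < 28) : W (prs.getD k []) ∈ Submodule.span ℤ (Set.range x) := by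
  have h := chkB_true
  unfold chkB at h
  rw [List.all_eq_true] at h
  have h1 := h k (List.mem_range.2 hk)
  rw [Bool.and_eq_true, List.all_eq_true, List.all_eq_true] at h1
  have h2 : W (prs.getD k []) = I (comb (inv.getD k [])) := by
    rw [I_cf (p := comb (inv.getD k [])) fun a ha => by
      have := h1.1 a ha
      simpa using this]
    have h3 : ∀ l ∈ Finset.range 28, cf (comb (inv.getD k [])) (prs.getD l []) • W (prs.getD l []) =
        if l = k then W (prs.getD k []) else 0 := by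
      intro l hl
      have h4 := h1.2 l (List.mem_range.2 (Finset.mem_range.1 hl))
      rw [beq_iff_eq] at h4
      rw [h4]
      split_ifs with h5
      · rw [one_smul, h5]
      · rw [zero_smul]
    rw [Finset.sum_congr rfl h3, Finset.sum_ite_eq' (Finset.range 28) k,
      if_pos (Finset.mem_range.2 hk)]
  rw [h2]
  exact comb_mem _

lemma E_mul_mem (i j : Fin 8) : E i * E j ∈ Submodule.span ℤ (Set.range x) := by
  have hlt : ∀ i j : Fin 8, i < j → E i * E j ∈ Submodule.span ℤ (Set.range x) := by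
    intro i j hij
    have h1 : ∀ i j : Fin 8, i < j → ∃ k : Fin 28, prs.getD k [] = [(i : ℕ), (j : ℕ)] := by decide
    obtain ⟨k, hk⟩ := h1 i j hij
    have h2 := W_pair_mem k.2
    rw [hk, W_cons, W_cons, W_nil, mul_one] at h2
    exact h2
  rcases lt_trichotomy i j with h | h | h
  · exact hlt i j h
  · rw [h]
    unfold E
    rw [ι_sq_zero]
    exact Submodule.zero_mem _
  · have h3 : E i * E j = -(E j * E i) := eq_neg_of_add_eq_zero_left (ι_add_mul_swap _ _)
    rw [h3]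
    exact Submodule.neg_mem _ (hlt j i h)

lemma ι_eq (u : Fin 8 → ℤ) : ι ℤ u = ∑ i : Fin 8, u i • E i := by
  have h : u = ∑ i : Fin 8, u i • (fun j : Fin 8 => if (j : ℕ) = (i : ℕ) then (1 : ℤ) else 0) := by
    funext j
    rw [Finset.sum_apply, Finset.sum_eq_single j]
    · simp
    · intro i _ hij
      have : ¬ (j : ℕ) = (i : ℕ) := fun h => hij (Fin.ext h).symm
      simp [this]
    · simp
  conv_lhs => rw [h]
  rw [map_sum]
  refine Finset.sum_congr rfl fun i _ => ?_
  rw [map_smul]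
  rfl

lemma le_span : ⋀[ℤ]^2 (Fin 8 → ℤ) ≤ Submodule.span ℤ (Set.range x) := by
  have h : (⋀[ℤ]^2 (Fin 8 → ℤ) : Submodule ℤ TorusCoh) =
      LinearMap.range (ι ℤ : (Fin 8 → ℤ) →ₗ[ℤ] TorusCoh) * LinearMap.range (ι ℤ) := pow_two _
  rw [h, Submodule.mul_le]
  rintro _ ⟨u, rfl⟩ _ ⟨v, rfl⟩
  rw [ι_eq u, ι_eq v, Finset.sum_mul_sum]
  refine Submodule.sum_mem _ fun i _ => Submodule.sum_mem _ fun j _ => ?_
  rw [smul_mul_smul_comm]
  exact Submodule.smul_mem _ _ (E_mul_mem i j)

lemma e_surj : Function.Surjective e := by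
  rintro ⟨y, hy⟩
  obtain ⟨c, hc⟩ := (Submodule.mem_span_range_iff_exists_fun ℤ).1 (le_span hy)
  refine ⟨c, Subtype.ext ?_⟩
  rw [e_coe, hc]

lemma e_inj : Function.Injective e := by
  have hfr : Module.finrank ℤ (⋀[ℤ]^2 (Fin 8 → ℤ)) = Module.finrank ℤ (J → ℤ) := by
    rw [exteriorPower.finrank_eq, Module.finrank_fin_fun, Module.finrank_fintype_fun_eq_card]
    rfl
  let f : ⋀[ℤ]^2 (Fin 8 → ℤ) ≃ₗ[ℤ] (J → ℤ) := LinearEquiv.ofFinrankEq _ _ hfr
  have h1 : Function.Surjective (f.toLinearMap.comp e) := f.surjective.comp e_surj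
  have h2 : Function.Injective (f.toLinearMap.comp e) :=
    OrzechProperty.injective_of_surjective_endomorphism _ h1
  intro a b hab
  apply h2
  show f (e a) = f (e b)
  rw [hab]

/-! ### The top degree -/

/-- The volume form. -/
noncomputable def vol : TorusCoh := ιMulti ℤ 8 (fun i : Fin 8 => (Pi.single i 1 : Fin 8 → ℤ))

lemma ιMulti_eq (v : Fin 8 → Fin 8 → ℤ) : ιMulti ℤ 8 v = Matrix.det v • vol := by
  let g : (Fin 8 → ℤ) [⋀^Fin 8]→ₗ[ℤ] TorusCoh :=
    (LinearMap.toSpanSingleton ℤ TorusCoh vol).compAlternatingMap Matrix.detRowAlternating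
  have h : (ιMulti ℤ 8 : (Fin 8 → ℤ) [⋀^Fin 8]→ₗ[ℤ] TorusCoh) = g := by
    refine Module.Basis.ext_alternating (Pi.basisFun ℤ (Fin 8)) fun v hv => ?_
    have hb : Function.Bijective v := Finite.injective_iff_bijective.1 hv
    let σ : Equiv.Perm (Fin 8) := Equiv.ofBijective v hb
    have h1 : (fun i => (Pi.basisFun ℤ (Fin 8)) (v i)) =
        (fun i : Fin 8 => (Pi.single i 1 : Fin 8 → ℤ)) ∘ σ := by
      funext i
      rw [Pi.basisFun_apply]
      rfl
    rw [h1, AlternatingMap.map_perm, AlternatingMap.map_perm]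
    congr 1
    show vol = Matrix.det (fun i : Fin 8 => (Pi.single i 1 : Fin 8 → ℤ)) • vol
    have h2 : (fun i : Fin 8 => (Pi.single i 1 : Fin 8 → ℤ)) = (1 : Matrix (Fin 8) (Fin 8) ℤ) := by
      funext i j
      rw [Matrix.one_apply, Pi.single_apply]
      simp only [eq_comm]
    rw [h2, Matrix.det_one, one_smul]
  rw [h]
  rfl

lemma evalFund_vol : evalFund vol = 1 := by
  unfold vol evalFund
  rw [liftAlternating_apply_ιMulti, Function.update_self]
  show Matrix.det (fun i : Fin 8 => (Pi.single i 1 : Fin 8 → ℤ)) = 1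
  have h2 : (fun i : Fin 8 => (Pi.single i 1 : Fin 8 → ℤ)) = (1 : Matrix (Fin 8) (Fin 8) ℤ) := by
    funext i j
    rw [Matrix.one_apply, Pi.single_apply]
    simp only [eq_comm]
  rw [h2, Matrix.det_one]

lemma top_eq {z : TorusCoh} (hz : z ∈ ⋀[ℤ]^8 (Fin 8 → ℤ)) : z = evalFund z • vol := by
  rw [← ιMulti_span_fixedDegree] at hz
  induction hz using Submodule.span_induction with
  | mem z hz =>
    obtain ⟨v, rfl⟩ := hz
    rw [ιMulti_eq, map_smul, evalFund_vol, smul_eq_mul, mul_one]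
  | zero => rw [map_zero, zero_smul]
  | add a b _ _ ha hb => rw [map_add, add_smul, ← ha, ← hb]
  | smul c a _ ha => rw [map_smul, smul_assoc, ← ha]

lemma vol_torsion (c : ℤ) (h : c • vol = 0) : c = 0 := by
  have h1 := congrArg evalFund h
  rwa [map_smul, evalFund_vol, map_zero, smul_eq_mul, mul_one] at h1

theorem main0 : ∃ ω ∈ ⋀[ℤ]^4 (Fin 8 → ℤ), ∃ e : (J → ℤ) ≃ₗ[ℤ] ⋀[ℤ]^2 (Fin 8 → ℤ),
    ∀ u v : J → ℤ, pairing ω (e u) (e v) = u ⬝ᵥ (gramE8H.mulVec v) :=
  ⟨I omP, om_mem, LinearEquiv.ofBijective e ⟨e_inj, e_surj⟩, pairing_e⟩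

lemma pairing_spec {ω : TorusCoh} (hω : ω ∈ ⋀[ℤ]^4 (Fin 8 → ℤ)) (x y : ⋀[ℤ]^2 (Fin 8 → ℤ)) :
    (x : TorusCoh) * (y : TorusCoh) * ω = pairing ω x y • vol := by
  apply top_eq
  have h1 := Submodule.mul_mem_mul (Submodule.mul_mem_mul x.2 y.2) hω
  have h2 : (⋀[ℤ]^2 (Fin 8 → ℤ) * ⋀[ℤ]^2 (Fin 8 → ℤ) * ⋀[ℤ]^4 (Fin 8 → ℤ) : Submodule ℤ TorusCoh) =
      ⋀[ℤ]^8 (Fin 8 → ℤ) := by
    unfold exteriorPower
    rw [← pow_add, ← pow_add]
  rw [h2] at h1
  exact h1

lemma vol_eq : (vol : TorusCoh) = volT := by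
  unfold vol volT
  rw [ιMulti_apply]
  rfl

theorem main : (∀ c : ℤ, c • volT = 0 → c = 0) ∧
    ∃ ω ∈ cohDeg 4, ∃ B, IsPairing ω B ∧ ∃ e : (J → ℤ) ≃ₗ[ℤ] cohDeg 2,
      ∀ u v : J → ℤ, B (e u) (e v) = u ⬝ᵥ (gramE8H.mulVec v) := by
  obtain ⟨ω, hω, e, he⟩ := main0
  refine ⟨fun c hc => vol_torsion c ?_, ω, hω, pairing ω, fun x y => ?_, e, he⟩
  · rw [vol_eq]
    exact hc
  · have h := pairing_spec hω x y
    rw [vol_eq] at h
    exact h

end Q182.EE
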