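import Pool.Agent.Q182.FVPer

/-!
# Finite families of representations

If the two restrictions of a finite, jointly injective family of homomorphisms `M → H` along a
partial isomorphism of `M` agree up to conjugation in `H` (and up to multiplicities), then the
partial isomorphism is realized by conjugation in a group in the class.
-/

set_option autoImplicit false

namespace Q182.FV

open Pool.Agent.Y110.FJ
open Pool.Agent.Y462.SS (Closed Wr)
open Q30.FJ

/-! ### iterates of self maps of finite sets -/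

theorem iter_per {J : Type} [Finite J] (f : J → J) :
    ∃ k m : ℕ, 0 < m ∧ ∀ i q : ℕ, k ≤ i → f^[i + m * q] = f^[i] := by
  obtain ⟨a, b, hab, h⟩ := Finite.exists_ne_map_eq_of_infinite (fun n : ℕ => f^[n])
  have key : ∀ a b : ℕ, a < b → f^[a] = f^[b] →
      ∃ k m : ℕ, 0 < m ∧ ∀ i q : ℕ, k ≤ i → f^[i + m * q] = f^[i] := by
    intro a b hab h
    refine ⟨a, b - a, by omega, fun i q hi => ?_⟩
    induction q with
    | zero => rw [mul_zero, add_zero]
    | succ q ih =>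
      have h1 : i + (b - a) * (q + 1) = (i - a + (b - a) * q) + b := by
        rw [mul_add, mul_one]
        omega
      rw [h1, Function.iterate_add, ← h, ← Function.iterate_add]
      rw [← ih]
      congr 1
      omega
  rcases lt_or_gt_of_ne hab with h1 | h1
  · exact key a b h1 h
  · exact key b a h1 h.symm

theorem iter_per_two {J : Type} [Finite J] (f g : J → J) :
    ∃ k m : ℕ, 0 < m ∧ (∀ i q : ℕ, k ≤ i → f^[i + m * q] = f^[i]) ∧
      (∀ i q : ℕ, k ≤ i → g^[i + m * q] = g^[i]) := by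
  obtain ⟨k, m, hm, h⟩ := iter_per f
  obtain ⟨k', m', hm', h'⟩ := iter_per g
  refine ⟨max k k', m * m', Nat.mul_pos hm hm', fun i q hi => ?_, fun i q hi => ?_⟩
  · rw [mul_assoc]
    exact h i _ ((le_max_left _ _).trans hi)
  · rw [mul_comm m m', mul_assoc]
    exact h' i _ ((le_max_right _ _).trans hi)

/-! ### walks -/

/-- the walk -/
def wlk {J : Type} (nxt prv : J → J) (j : J) : ℤ → J
  | Int.ofNat n => nxt^[n] j
  | Int.negSucc n => prv^[n + 1] j

theorem wlk_zero {J : Type} (nxt prv : J → J) (j : J) : wlk nxt prv j 0 = j := rfl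

theorem wlk_nat {J : Type} (nxt prv : J → J) (j : J) (n : ℕ) :
    wlk nxt prv j n = nxt^[n] j := rfl

theorem wlk_neg {J : Type} (nxt prv : J → J) (j : J) (n : ℕ) :
    wlk nxt prv j (-(n : ℤ)) = prv^[n] j := by
  rcases n with _ | n
  · rfl
  · rfl

theorem wlk_succ {J : Type} (nxt prv : J → J) (j : J) (t : ℤ) (ht : 0 ≤ t) :
    wlk nxt prv j (t + 1) = nxt (wlk nxt prv j t) := by
  obtain ⟨n, rfl⟩ := Int.eq_ofNat_of_zero_le ht
  have h1 : ((n : ℤ) + 1) = ((n + 1 : ℕ) : ℤ) := by push_cast; rfl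
  rw [h1, wlk_nat, wlk_nat, Function.iterate_succ_apply']

theorem wlk_pred {J : Type} (nxt prv : J → J) (j : J) (t : ℤ) (ht : t < 0) :
    wlk nxt prv j t = prv (wlk nxt prv j (t + 1)) := by
  obtain ⟨n, hn⟩ := Int.eq_ofNat_of_zero_le (show 0 ≤ -(t + 1) by omega)
  have h1 : t + 1 = -(n : ℤ) := by omega
  have h2 : t = -((n + 1 : ℕ) : ℤ) := by push_cast; omega
  rw [h1, wlk_neg, h2, wlk_neg, Function.iterate_succ_apply']

section germs

variable {J : Type} {nxt prv : J → J} {k m : ℕ} [NeZero m]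

/-- the germ of the walk at `+∞` -/
def wlkp (nxt : J → J) (k m : ℕ) (j : J) (r : ZMod m) : J := nxt^[r.val + m * k] j

theorem mul_ge (k m : ℕ) [NeZero m] : k ≤ m * k :=
  Nat.le_mul_of_pos_left k (Nat.pos_of_ne_zero (NeZero.ne m))

theorem wlkp_eq (h : ∀ i q : ℕ, k ≤ i → nxt^[i + m * q] = nxt^[i]) (j : J) (n : ℕ)
    (hn : m * k ≤ n) : nxt^[n] j = wlkp nxt k m j (n : ZMod m) := by
  have hm : 0 < m := Nat.pos_of_ne_zero (NeZero.ne m)
  unfold wlkp
  rw [ZMod.val_natCast]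
  have h1 : k ≤ n / m := by
    rw [Nat.le_div_iff_mul_le hm, mul_comm]
    exact hn
  have h2 : n = (n % m + m * k) + m * (n / m - k) := by
    have h3 := Nat.mod_add_div n m
    rw [Nat.mul_sub]
    have h4 : m * k ≤ m * (n / m) := Nat.mul_le_mul_left m h1
    omega
  conv_lhs => rw [h2]
  rw [h _ _ ((mul_ge k m).trans (Nat.le_add_left _ _))]

theorem wlk_pos (h : ∀ i q : ℕ, k ≤ i → nxt^[i + m * q] = nxt^[i]) (j : J) (n : ℤ)
    (hn : ((m * k : ℕ) : ℤ) ≤ n) : wlk nxt prv j n = wlkp nxt k m j (n : ZMod m) := by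
  obtain ⟨n, rfl⟩ := Int.eq_ofNat_of_zero_le (show 0 ≤ n by
    have : (0 : ℤ) ≤ ((m * k : ℕ) : ℤ) := Int.natCast_nonneg _
    omega)
  rw [wlk_nat, wlkp_eq h j n (by exact_mod_cast hn), Int.cast_natCast]

theorem wlk_negg (h : ∀ i q : ℕ, k ≤ i → prv^[i + m * q] = prv^[i]) (j : J) (n : ℤ)
    (hn : n ≤ -((m * k : ℕ) : ℤ)) : wlk nxt prv j n = wlkp prv k m j (-(n : ZMod m)) := by
  obtain ⟨n', hn'⟩ := Int.eq_ofNat_of_zero_le (show 0 ≤ -n by
    have : (0 : ℤ) ≤ ((m * k : ℕ) : ℤ) := Int.natCast_nonneg _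
    omega)
  have h1 : n = -(n' : ℤ) := by omega
  subst h1
  rw [wlk_neg, wlkp_eq h j n' (by omega)]
  congr 1
  push_cast
  rw [neg_neg]

end germs

/-! ### equality of eventually periodic functions -/

theorem ep_ext {K : Type} [Group K] {m : ℕ} [NeZero m] {w w' : EP K m}
    (h1 : w.1.1 = w'.1.1) (h2 : w.1.2.2 = w'.1.2.2) : w = w' := by
  obtain ⟨⟨hw, hw', hw''⟩, n₀, h3, h4⟩ := w.2
  obtain ⟨⟨hv, hv', hv''⟩, n₁, h5, h6⟩ := w'.2
  have hm : (0 : ℤ) < m := by exact_mod_cast Nat.pos_of_ne_zero (NeZero.ne m)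
  have hbig : ∀ r : ZMod m, ∃ n : ℤ, n₀ ≤ n ∧ n₁ ≤ n ∧ (n : ZMod m) = r := by
    intro r
    refine ⟨r.val + m * (|n₀| + |n₁|), ?_, ?_, ?_⟩
    · have e1 := le_abs_self n₀
      have e2 := abs_nonneg n₀
      have e3 := abs_nonneg n₁
      have e4 : (0 : ℤ) ≤ r.val := Int.natCast_nonneg _
      nlinarith
    · have e1 := le_abs_self n₁
      have e2 := abs_nonneg n₀
      have e3 := abs_nonneg n₁
      have e4 : (0 : ℤ) ≤ r.val := Int.natCast_nonneg _
      nlinarith
    · push_cast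
      rw [ZMod.natCast_self, zero_mul, add_zero, ZMod.natCast_zmod_val]
  have hsml : ∀ r : ZMod m, ∃ n : ℤ, n ≤ -n₀ ∧ n ≤ -n₁ ∧ (n : ZMod m) = r := by
    intro r
    obtain ⟨n, e1, e2, e3⟩ := hbig (-r)
    refine ⟨-n, by omega, by omega, ?_⟩
    push_cast
    rw [e3, neg_neg]
  apply Subtype.ext
  refine Prod.ext h1 (Prod.ext (Prod.ext ?_ ?_) h2)
  · apply Wr.ext
    · funext r
      obtain ⟨n, e1, e2, e3⟩ := hbig r
      rw [← e3, ← h3 n e1, ← h5 n e2, h1]
    · rw [hw', hv', h2]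
  · apply Wr.ext
    · funext r
      obtain ⟨n, e1, e2, e3⟩ := hsml r
      rw [← e3, ← h4 n e1, ← h6 n e2, h1]
    · rw [hw'', hv'', h2]

/-! ### the main lemma -/

variable {C : ∀ (G : Type) [Group G], Prop}

/-- **the main lemma** -/
theorem core (hC : ClosedE C) (H : Type) [Group H] (hH : C H) (M : Type) [Group M]
    (J : Type) [Finite J] (ψ : J → (M →* H)) (hψ : ∀ x, (∀ j, ψ j x = 1) → x = 1)
    (r : M → M → Prop)
    (hnxt : ∀ j, ∃ i, ∃ h : H, ∀ x y, r x y → ψ i y = h * ψ j x * h⁻¹)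
    (hprv : ∀ j, ∃ i, ∃ h : H, ∀ x y, r x y → ψ j y = h * ψ i x * h⁻¹) :
    ∃ (P : Type) (_ : Group P) (f : M →* P) (p : P), C P ∧ Function.Injective f ∧
      ∀ x y, r x y → f y = p * f x * p⁻¹ := by
  choose nxt l hl using hnxt
  choose prv l' hl' using hprv
  obtain ⟨k, m, hm, hk, hk'⟩ := iter_per_two nxt prv
  have : NeZero m := ⟨hm.ne'⟩
  have hwp := fun (j : J) (n : ℤ) (hn : ((m * k : ℕ) : ℤ) ≤ n) =>
    wlk_pos (prv := prv) (m := m) hk j n hn
  have hwn := fun (j : J) (n : ℤ) (hn : n ≤ -((m * k : ℕ) : ℤ)) =>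
    wlk_negg (nxt := nxt) (m := m) hk' j n hn
  -- the homomorphism
  obtain ⟨f, hf⟩ : ∃ f : M →* EP (J → H) m, ∀ x,
      (f x).1.1 = ⟨fun t j => ψ (wlk nxt prv j t) x, 1⟩ ∧ (f x).1.2.2 = 1 := by
    refine ⟨MonoidHom.mk' (fun x => ⟨(⟨fun t j => ψ (wlk nxt prv j t) x, 1⟩,
      ((⟨fun r j => ψ (wlkp nxt k m j r) x, 1⟩, ⟨fun r j => ψ (wlkp prv k m j (-r)) x, 1⟩), 1)),
      ⟨⟨?_, ?_, ?_⟩, ((m * k : ℕ) : ℤ), ?_, ?_⟩⟩) ?_, ?_⟩
    · exact (map_one trn).symm
    · exact (map_one (trz m)).symm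
    · exact (map_one (trz m)).symm
    · intro n hn
      funext j
      show ψ (wlk nxt prv j n) x = ψ (wlkp nxt k m j (n : ZMod m)) x
      rw [hwp j n hn]
    · intro n hn
      funext j
      show ψ (wlk nxt prv j n) x = ψ (wlkp prv k m j (-(n : ZMod m))) x
      rw [hwn j n hn]
    · intro x y
      apply Subtype.ext
      refine Prod.ext ?_ (Prod.ext (Prod.ext ?_ ?_) ?_)
      · apply Wr.ext
        · funext t j
          exact map_mul (ψ (wlk nxt prv j t)) x y
        · exact (mul_one _).symm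
      · apply Wr.ext
        · funext t j
          exact map_mul (ψ (wlkp nxt k m j t)) x y
        · exact (mul_one _).symm
      · apply Wr.ext
        · funext t j
          exact map_mul (ψ (wlkp prv k m j (-t))) x y
        · exact (mul_one _).symm
      · exact (mul_one _).symm
    · intro x
      exact ⟨rfl, rfl⟩
  -- the translation
  obtain ⟨p, hp⟩ : ∃ p : EP (J → H) m,
      p.1.1 = ⟨fun t j => if 0 ≤ t then l (wlk nxt prv j t) else l' (wlk nxt prv j (t + 1)),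
        trn (Multiplicative.ofAdd 1)⟩ ∧ p.1.2.2 = Multiplicative.ofAdd 1 := by
    refine ⟨⟨(⟨fun t j => if 0 ≤ t then l (wlk nxt prv j t) else l' (wlk nxt prv j (t + 1)),
      trn (Multiplicative.ofAdd 1)⟩, ((⟨fun r j => l (wlkp nxt k m j r),
      trz m (Multiplicative.ofAdd 1)⟩, ⟨fun r j => l' (wlkp prv k m j (-(r + 1))),
      trz m (Multiplicative.ofAdd 1)⟩), Multiplicative.ofAdd 1)),
      ⟨⟨rfl, rfl, rfl⟩, ((m * k : ℕ) : ℤ) + 1, ?_, ?_⟩⟩, rfl, rfl⟩
    · intro n hn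
      funext j
      show (if 0 ≤ n then l (wlk nxt prv j n) else l' (wlk nxt prv j (n + 1))) =
        l (wlkp nxt k m j (n : ZMod m))
      have h0 : (0 : ℤ) ≤ ((m * k : ℕ) : ℤ) := Int.natCast_nonneg _
      rw [if_pos (by omega), hwp j n (by omega)]
    · intro n hn
      funext j
      show (if 0 ≤ n then l (wlk nxt prv j n) else l' (wlk nxt prv j (n + 1))) =
        l' (wlkp prv k m j (-((n : ZMod m) + 1)))
      have h0 : (0 : ℤ) ≤ ((m * k : ℕ) : ℤ) := Int.natCast_nonneg _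
      rw [if_neg (by omega), hwn j (n + 1) (by omega)]
      push_cast
      rfl
  refine ⟨EP (J → H) m, inferInstance, f, p,
    ep_mem hC _ (Pool.Agent.Y812.SS.C_pow hC.base J H hH) m, ?_, ?_⟩
  · rw [injective_iff_map_eq_one]
    intro x hx
    apply hψ
    intro j
    have h1 := (hf x).1
    rw [hx] at h1
    have h2 := congrArg (fun w : Wr ℤ (J → H) => w.s 0 j) h1
    exact h2.symm
  · intro x y hxy
    rw [eq_mul_inv_iff_mul_eq]
    apply ep_ext
    · show (f y).1.1 * p.1.1 = p.1.1 * (f x).1.1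
      rw [(hf x).1, (hf y).1, hp.1]
      apply Wr.ext
      · funext t j
        show ψ (wlk nxt prv j (t + 1)) y *
          (if 0 ≤ t then l (wlk nxt prv j t) else l' (wlk nxt prv j (t + 1))) =
          (if 0 ≤ t then l (wlk nxt prv j t) else l' (wlk nxt prv j (t + 1))) *
          ψ (wlk nxt prv j t) x
        by_cases ht : 0 ≤ t
        · rw [if_pos ht, wlk_succ nxt prv j t ht, hl (wlk nxt prv j t) x y hxy,
            inv_mul_cancel_right]
        · rw [if_neg ht, wlk_pred nxt prv j t (by omega), hl' (wlk nxt prv j (t + 1)) x y hxy,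
            inv_mul_cancel_right]
      · show (1 : Equiv.Perm ℤ) * trn (Multiplicative.ofAdd 1) = trn (Multiplicative.ofAdd 1) * 1
        rw [one_mul, mul_one]
    · show (f y).1.2.2 * p.1.2.2 = p.1.2.2 * (f x).1.2.2
      rw [(hf x).2, (hf y).2, hp.2, one_mul, mul_one]

end Q182.FV
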