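import Pool.Agent.Q182.FVCore

/-!
# Finite-valued kernels: definitions
-/

set_option autoImplicit false

namespace Q182.FV

open Pool.Agent.Y462.SS (Wr)

section

variable {G H : Type} [Group G] [Group H] {N : Subgroup G}

/-- the homomorphisms in `R` separate the points of `N` -/
def Separating (R : Set (N →* H)) : Prop := ∀ n : N, (∀ φ ∈ R, φ n = 1) → n = 1

/-- up to conjugation in `H`, the set `R` is invariant under the conjugations by elements of `G` -/
def ConjInvariant (R : Set (N →* H)) : Prop :=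
  ∀ φ ∈ R, ∀ g : G, ∃ ψ ∈ R, ∃ h : H, ∀ n n' : N, (n' : G) = g * n * g⁻¹ → φ n' = h * ψ n * h⁻¹

/-- on every finite subset of `N` the homomorphisms in `R` agree, up to conjugation in `H`, with
finitely many of them -/
def LocallyFinitelyMany (R : Set (N →* H)) : Prop :=
  ∀ E : Set N, E.Finite → ∃ F ⊆ R, F.Finite ∧
    ∀ φ ∈ R, ∃ ψ ∈ F, ∃ h : H, ∀ n ∈ E, φ n = h * ψ n * h⁻¹

end

end Q182.FV
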