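import Pool.Agent.Q30.FJ.Emb3
import Pool.Agent.Q30.FJ.T1

/-!
# Eventually periodic functions on the integers

The group of the pairs of an eventually periodic function from the integers to a group `K` in the
class and a translation is in the class.
-/

set_option autoImplicit false

namespace Q182.FV

open Pool.Agent.Y110.FJ
open Pool.Agent.Y462.SS (Closed Wr)
open Q30.FJ

/-- the translation of the residue classes -/
def trz (m : ℕ) : Multiplicative ℤ →* Equiv.Perm (ZMod m) where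
  toFun k := Equiv.addRight ((Multiplicative.toAdd k : ℤ) : ZMod m)
  map_one' := by
    ext x
    show x + ((0 : ℤ) : ZMod m) = x
    rw [Int.cast_zero, add_zero]
  map_mul' a b := by
    ext x
    show x + ((Multiplicative.toAdd a + Multiplicative.toAdd b : ℤ) : ZMod m) =
      (x + ((Multiplicative.toAdd b : ℤ) : ZMod m)) + ((Multiplicative.toAdd a : ℤ) : ZMod m)
    push_cast
    ring

theorem trz_apply (m : ℕ) (k : Multiplicative ℤ) (x : ZMod m) :
    trz m k x = x + ((Multiplicative.toAdd k : ℤ) : ZMod m) := rfl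

/-- eventually periodic functions (with their periodic germs at `+∞` and `-∞`) and translations -/
def EP (K : Type) [Group K] (m : ℕ) :
    Subgroup (Wr ℤ K × ((Wr (ZMod m) K × Wr (ZMod m) K) × Multiplicative ℤ)) where
  carrier := {w | (w.1.p = trn w.2.2 ∧ w.2.1.1.p = trz m w.2.2 ∧ w.2.1.2.p = trz m w.2.2) ∧
    ∃ n₀ : ℤ, (∀ n : ℤ, n₀ ≤ n → w.1.s n = w.2.1.1.s n) ∧
    (∀ n : ℤ, n ≤ -n₀ → w.1.s n = w.2.1.2.s n)}
  one_mem' := by
    refine ⟨⟨?_, ?_, ?_⟩, 0, fun _ _ => rfl, fun _ _ => rfl⟩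
    · exact (map_one trn).symm
    · exact (map_one (trz m)).symm
    · exact (map_one (trz m)).symm
  mul_mem' := by
    rintro a b ⟨⟨ha, ha', ha''⟩, na, ha1, ha2⟩ ⟨⟨hb, hb', hb''⟩, nb, hb1, hb2⟩
    refine ⟨⟨?_, ?_, ?_⟩, |na| + |nb| + |Multiplicative.toAdd b.2.2|, ?_, ?_⟩
    · show a.1.p * b.1.p = trn (a.2.2 * b.2.2)
      rw [ha, hb, map_mul]
    · show a.2.1.1.p * b.2.1.1.p = trz m (a.2.2 * b.2.2)
      rw [ha', hb', map_mul]
    · show a.2.1.2.p * b.2.1.2.p = trz m (a.2.2 * b.2.2)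
      rw [ha'', hb'', map_mul]
    · intro n hn
      show a.1.s (b.1.p n) * b.1.s n = a.2.1.1.s (b.2.1.1.p n) * b.2.1.1.s n
      have e1 := le_abs_self na
      have e2 := le_abs_self nb
      have e3 := neg_abs_le (Multiplicative.toAdd b.2.2)
      have e4 := abs_nonneg na
      have e5 := abs_nonneg nb
      have e6 := abs_nonneg (Multiplicative.toAdd b.2.2)
      rw [hb, hb', trn_apply, trz_apply, ha1 _ (by linarith), hb1 _ (by linarith)]
      push_cast
      rfl
    · intro n hn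
      show a.1.s (b.1.p n) * b.1.s n = a.2.1.2.s (b.2.1.2.p n) * b.2.1.2.s n
      have e1 := le_abs_self na
      have e2 := le_abs_self nb
      have e3 := le_abs_self (Multiplicative.toAdd b.2.2)
      have e4 := abs_nonneg na
      have e5 := abs_nonneg nb
      have e6 := abs_nonneg (Multiplicative.toAdd b.2.2)
      rw [hb, hb'', trn_apply, trz_apply, ha2 _ (by linarith), hb2 _ (by linarith)]
      push_cast
      rfl
  inv_mem' := by
    rintro a ⟨⟨ha, ha', ha''⟩, na, ha1, ha2⟩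
    have e0 : Multiplicative.toAdd (a.2.2)⁻¹ = - Multiplicative.toAdd a.2.2 := rfl
    have h1 : ∀ n : ℤ, a.1.p⁻¹ n = n + Multiplicative.toAdd (a.2.2)⁻¹ := by
      intro n
      rw [ha, ← map_inv, trn_apply]
    have h1' : ∀ n : ZMod m, a.2.1.1.p⁻¹ n = n + ((Multiplicative.toAdd (a.2.2)⁻¹ : ℤ) : ZMod m) := by
      intro n
      rw [ha', ← map_inv, trz_apply]
    have h1'' : ∀ n : ZMod m, a.2.1.2.p⁻¹ n = n + ((Multiplicative.toAdd (a.2.2)⁻¹ : ℤ) : ZMod m) := by
      intro n
      rw [ha'', ← map_inv, trz_apply]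
    refine ⟨⟨?_, ?_, ?_⟩, |na| + |Multiplicative.toAdd a.2.2|, ?_, ?_⟩
    · show (a.1.p)⁻¹ = trn (a.2.2)⁻¹
      rw [ha, map_inv]
    · show (a.2.1.1.p)⁻¹ = trz m (a.2.2)⁻¹
      rw [ha', map_inv]
    · show (a.2.1.2.p)⁻¹ = trz m (a.2.2)⁻¹
      rw [ha'', map_inv]
    · intro n hn
      show (a.1.s (a.1.p⁻¹ n))⁻¹ = (a.2.1.1.s (a.2.1.1.p⁻¹ n))⁻¹
      have e1 := le_abs_self na
      have e3 := le_abs_self (Multiplicative.toAdd a.2.2)
      rw [h1, h1', ha1 _ (by rw [e0]; linarith)]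
      push_cast
      rfl
    · intro n hn
      show (a.1.s (a.1.p⁻¹ n))⁻¹ = (a.2.1.2.s (a.2.1.2.p⁻¹ n))⁻¹
      have e1 := le_abs_self na
      have e3 := neg_abs_le (Multiplicative.toAdd a.2.2)
      rw [h1, h1'', ha2 _ (by rw [e0]; linarith)]
      push_cast
      rfl

variable {C : ∀ (G : Type) [Group G], Prop}

theorem ep_mem (hC : ClosedE C) (K : Type) [Group K] (hK : C K) (m : ℕ) [NeZero m] :
    C (EP K m) := by
  have hwr : C (Wr (ZMod m) K) :=
    Pool.Agent.Y812.SS.t_wr C hC.base (ZMod m) K inferInstance hK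
  let π : EP K m →* (Wr (ZMod m) K × Wr (ZMod m) K) × Multiplicative ℤ :=
    (MonoidHom.snd _ _).comp (EP K m).subtype
  let ρ : EP K m →* Wr ℤ K := (MonoidHom.fst _ _).comp (EP K m).subtype
  refine mono_kernel hC ℤ K hK (EP K m) π.ker ?_ ρ ?_ ?_
  · exact hC.base.of_injective _ _ (QuotientGroup.kerLift π) (QuotientGroup.kerLift_injective π)
      (hC.base.prod _ _ (hC.base.prod _ _ hwr hwr) hC.base.int)
  · intro w hw h1
    have h2 : w.1.2 = 1 := hw
    have h3 : w.1.1 = 1 := h1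
    apply Subtype.ext
    exact Prod.ext h3 h2
  · intro w hw
    have h2 : w.1.2 = 1 := hw
    obtain ⟨⟨h3, -, -⟩, n₀, h4, h5⟩ := w.2
    refine (Set.finite_Icc (-n₀) n₀).subset ?_
    intro n hn
    have hp : w.1.1.p n = n := by
      rw [h3, h2]
      exact add_zero n
    have hs : w.1.1.s n ≠ 1 := by
      rcases hn with h | h
      · exact h
      · exact absurd hp h
    constructor
    · by_contra hc
      apply hs
      rw [h5 n (by linarith), h2]
      rfl
    · by_contra hc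
      apply hs
      rw [h4 n (by linarith), h2]
      rfl

end Q182.FV
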