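import Pool.Agent.Q182.FVDefs
import Pool.Agent.Q9.FJT.TreeA

/-!
# Finite-valued kernels: proofs
-/

set_option autoImplicit false

namespace Q182.FV

open Pool.Agent.Y110.FJ
open Pool.Agent.Y462.SS (Closed Wr)
open Q30.FJ

variable {C : ∀ (G : Type) [Group G], Prop}

/-! ### HNN extensions -/

theorem hnn_fam (hC : ClosedE C) (H : Type) [Group H] (hH : C H)
    (M : Type) [Group M] (A B : Subgroup M) (φ : A ≃* B) (F : Set (M →* H)) (hF : F.Finite)
    (hinj : ∀ x, (∀ ψ ∈ F, ψ x = 1) → x = 1)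
    (h1 : ∀ ψ ∈ F, ∃ χ ∈ F, ∃ h : H, ∀ a : A, χ (φ a : M) = h * ψ (a : M) * h⁻¹)
    (h2 : ∀ χ ∈ F, ∃ ψ ∈ F, ∃ h : H, ∀ a : A, χ (φ a : M) = h * ψ (a : M) * h⁻¹) :
    C (HNNExtension M A B φ) := by
  have : Finite F := hF.to_subtype
  obtain ⟨P, _, f, p, hP, hf, hp⟩ := core hC H hH M F (fun j => j.1)
    (fun x hx => hinj x fun ψ hψ => hx ⟨ψ, hψ⟩)
    (fun x y => ∃ a : A, (a : M) = x ∧ ((φ a : B) : M) = y) (by
      intro j
      obtain ⟨χ, hχ, h, hh⟩ := h1 j.1 j.2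
      refine ⟨⟨χ, hχ⟩, h, ?_⟩
      rintro x y ⟨a, rfl, rfl⟩
      exact hh a) (by
      intro j
      obtain ⟨ψ, hψ, h, hh⟩ := h2 j.1 j.2
      refine ⟨⟨ψ, hψ⟩, h, ?_⟩
      rintro x y ⟨a, rfl, rfl⟩
      exact hh a)
  obtain ⟨L, hL⟩ : ∃ L : HNNExtension M A B φ →* P, ∀ x, L (HNNExtension.of x) = f x := by
    refine ⟨HNNExtension.lift f p ?_, fun x => HNNExtension.lift_of _ _ _ _⟩
    intro a
    rw [hp (a : M) (φ a : M) ⟨a, rfl, rfl⟩]
    group
  refine hnn C hC M P A B φ L ?_ hP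
  intro x y hxy
  apply hf
  rw [← hL, ← hL]
  exact hxy

/-! ### kernels with a locally finite set of representations -/

theorem rep_kernel (hC : ClosedE C) (H : Type) [Group H] (hH : C H)
    (G : Type) [Group G] (N : Subgroup G) [N.Normal] (hQ : C (G ⧸ N)) (R : Set (N →* H))
    (hsep : Separating R) (hinv : ConjInvariant R) (hfin : LocallyFinitelyMany R) : C G := by
  refine crit C hC G N hQ ?_
  intro g E hE hEN
  obtain ⟨S, hS⟩ : ∃ S : Set G, S = E ∪ (fun x => g * x * g⁻¹) '' E := ⟨_, rfl⟩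
  have hSN : S ⊆ N := by
    rw [hS]
    rintro x (hx | ⟨y, hy, rfl⟩)
    · exact hEN hx
    · exact Subgroup.Normal.conj_mem inferInstance y (hEN hy) g
  have hSf : S.Finite := by
    rw [hS]
    exact hE.union (hE.image _)
  have hS2 : ∀ z, z ∈ E ∪ (fun x => g * x * g⁻¹) '' E → z ∈ S := by
    intro z hz
    rw [hS]
    exact hz
  obtain ⟨F, hFR, hF, hFc⟩ := hfin (Subtype.val ⁻¹' S)
    (hSf.preimage Subtype.val_injective.injOn)
  have hle : Subgroup.closure S ≤ N := by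
    rw [Subgroup.closure_le]
    exact hSN
  have : Finite F := hF.to_subtype
  unfold Realized
  rw [← hS]
  -- transport of conjugacy from the generators to the group
  have hgen : ∀ (φ ψ : N →* H) (h : H),
      (∀ n ∈ ((Subtype.val ⁻¹' S : Set N)), φ n = h * ψ n * h⁻¹) →
      ∀ x : ↥(Subgroup.closure S), φ (Subgroup.inclusion hle x) =
        h * ψ (Subgroup.inclusion hle x) * h⁻¹ := by
    intro φ ψ h hh x
    obtain ⟨x, hx⟩ := x
    induction hx using Subgroup.closure_induction with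
    | mem x hx => exact hh ⟨x, hSN hx⟩ hx
    | one =>
      have e : Subgroup.inclusion hle ⟨1, Subgroup.one_mem _⟩ = 1 := rfl
      rw [e, map_one, map_one, mul_one, mul_inv_cancel]
    | mul x y hx hy h1 h2 =>
      have e : Subgroup.inclusion hle ⟨x * y, Subgroup.mul_mem _ hx hy⟩ =
        Subgroup.inclusion hle ⟨x, hx⟩ * Subgroup.inclusion hle ⟨y, hy⟩ := rfl
      rw [e, map_mul, map_mul, h1, h2]
      group
    | inv x hx h1 =>
      have e : Subgroup.inclusion hle ⟨x⁻¹, Subgroup.inv_mem _ hx⟩ =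
        (Subgroup.inclusion hle ⟨x, hx⟩)⁻¹ := rfl
      rw [e, map_inv, map_inv, h1]
      group
  obtain ⟨P, iP, f, p, hP, hf, hp⟩ := core hC H hH ↥(Subgroup.closure S) F
    (fun j => j.1.comp (Subgroup.inclusion hle)) (by
      intro x hx
      have h1 : Subgroup.inclusion hle x = 1 := by
        apply hsep
        intro φ hφ
        obtain ⟨ψ, hψ, h, hh⟩ := hFc φ hφ
        rw [hgen φ ψ h hh x]
        have h2 : ψ (Subgroup.inclusion hle x) = 1 := hx ⟨ψ, hψ⟩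
        rw [h2, mul_one, mul_inv_cancel]
      exact (Subgroup.inclusion_injective hle) (h1.trans (map_one _).symm))
    (fun x y => (x : G) ∈ E ∧ (y : G) = g * x * g⁻¹) (by
      intro j
      obtain ⟨ψ, hψ, h, hh⟩ := hinv j.1 (hFR j.2) g⁻¹
      obtain ⟨χ, hχ, h', hh'⟩ := hFc ψ hψ
      refine ⟨⟨χ, hχ⟩, (h * h')⁻¹, ?_⟩
      rintro x y ⟨hx, hy⟩
      have hyS : (y : G) ∈ S := hS2 _ (Or.inr ⟨x, hx, hy.symm⟩)
      have h3 := hh (Subgroup.inclusion hle y) (Subgroup.inclusion hle x) (by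
        show (x : G) = g⁻¹ * (y : G) * g⁻¹⁻¹
        rw [hy]; group)
      have h4 := hh' (Subgroup.inclusion hle y) hyS
      show χ (Subgroup.inclusion hle y) =
        (h * h')⁻¹ * j.1 (Subgroup.inclusion hle x) * ((h * h')⁻¹)⁻¹
      rw [h3, h4]
      group) (by
      intro j
      obtain ⟨ψ, hψ, h, hh⟩ := hinv j.1 (hFR j.2) g
      obtain ⟨χ, hχ, h', hh'⟩ := hFc ψ hψ
      refine ⟨⟨χ, hχ⟩, h * h', ?_⟩
      rintro x y ⟨hx, hy⟩
      have hxS : (x : G) ∈ S := hS2 _ (Or.inl hx)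
      have h3 := hh (Subgroup.inclusion hle x) (Subgroup.inclusion hle y) hy
      have h4 := hh' (Subgroup.inclusion hle x) hxS
      show j.1 (Subgroup.inclusion hle y) =
        (h * h') * χ (Subgroup.inclusion hle x) * (h * h')⁻¹
      rw [h3, h4]
      group)
  exact ⟨P, iP, f, p, hP, hf, fun x y hx hy => hp x y ⟨hx, hy⟩⟩

/-! ### groups acting on trees -/

section quot

variable {H G : Type} [Group H] [Group G] {N : Subgroup G} [N.Normal] {R : Set (N →* H)}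

/-- the common kernel -/
def comK (N : Subgroup G) (R : Set (N →* H)) : Subgroup G where
  carrier := {g | ∃ hg : g ∈ N, ∀ φ ∈ R, φ ⟨g, hg⟩ = 1}
  one_mem' := ⟨N.one_mem, fun φ _ => map_one φ⟩
  mul_mem' := by
    rintro a b ⟨ha, ha'⟩ ⟨hb, hb'⟩
    refine ⟨N.mul_mem ha hb, fun φ hφ => ?_⟩
    have h1 : (⟨a * b, N.mul_mem ha hb⟩ : N) = ⟨a, ha⟩ * ⟨b, hb⟩ := rfl
    rw [h1, map_mul, ha' φ hφ, hb' φ hφ, mul_one]
  inv_mem' := by
    rintro a ⟨ha, ha'⟩
    refine ⟨N.inv_mem ha, fun φ hφ => ?_⟩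
    have h1 : (⟨a⁻¹, N.inv_mem ha⟩ : N) = ⟨a, ha⟩⁻¹ := rfl
    rw [h1, map_inv, ha' φ hφ, inv_one]

omit [N.Normal] in
theorem comK_le : comK N R ≤ N := fun _ hg => hg.1

theorem comK_normal (hinv : ConjInvariant R) : (comK N R).Normal := by
  constructor
  rintro n ⟨hn, hn'⟩ g
  refine ⟨Subgroup.Normal.conj_mem inferInstance n hn g, fun φ hφ => ?_⟩
  obtain ⟨ψ, hψ, h, hh⟩ := hinv φ hφ g
  rw [hh ⟨n, hn⟩ _ rfl, hn' ψ hψ, mul_one, mul_inv_cancel]

end quot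

theorem quot_rep (hC : ClosedE C) (H : Type) [Group H] (hH : C H)
    (G : Type) [Group G] (N : Subgroup G) [N.Normal] (hQ : C (G ⧸ N)) (R : Set (N →* H))
    (hinv : ConjInvariant R) (hfin : LocallyFinitelyMany R) :
    ∃ (P : Type) (_ : Group P) (ρ : G →* P), C P ∧ ∀ g, ρ g = 1 → g ∈ comK N R := by
  have hI : (comK N R).Normal := comK_normal hinv
  have hNn : (N.map (QuotientGroup.mk' (comK N R))).Normal :=
    Subgroup.Normal.map inferInstance _ (QuotientGroup.mk'_surjective _)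
  refine ⟨G ⧸ comK N R, inferInstance, QuotientGroup.mk' (comK N R), ?_, fun g hg =>
    (QuotientGroup.eq_one_iff g).1 hg⟩
  -- the projection of `N`
  obtain ⟨π, hπ⟩ : ∃ π : N →* ↥(N.map (QuotientGroup.mk' (comK N R))),
      ∀ n : N, ((π n : G ⧸ comK N R)) = ((n : G) : G ⧸ comK N R) := by
    refine ⟨MonoidHom.mk' (fun n => ⟨QuotientGroup.mk' (comK N R) n, ⟨n, n.2, rfl⟩⟩) ?_,
      fun n => rfl⟩
    intro a b
    rfl
  have hπs : Function.Surjective π := by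
    rintro ⟨_, ⟨n, hn, rfl⟩⟩
    exact ⟨⟨n, hn⟩, Subtype.ext (hπ _)⟩
  have hker : ∀ n : N, π n = 1 ↔ ∀ φ ∈ R, φ n = 1 := by
    intro n
    have h1 : π n = 1 ↔ ((n : G) : G ⧸ comK N R) = 1 := by
      rw [← hπ, Subtype.ext_iff]
      rfl
    rw [h1, QuotientGroup.eq_one_iff]
    exact ⟨fun h => h.2, fun h => ⟨n.2, h⟩⟩
  have hlift : ∀ φ : R, ∃ ψ : ↥(N.map (QuotientGroup.mk' (comK N R))) →* H,
      ∀ n, ψ (π n) = φ.1 n := by
    intro φ
    refine ⟨π.liftOfSurjective hπs ⟨φ.1, fun n hn => (hker n).1 hn φ.1 φ.2⟩, fun n => ?_⟩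
    exact MonoidHom.liftOfRightInverse_comp_apply _ _ _ _ _
  choose L hL using hlift
  refine rep_kernel hC H hH (G ⧸ comK N R) (N.map (QuotientGroup.mk' (comK N R))) ?_
    (Set.range L) ?_ ?_ ?_
  · exact hC.base.of_injective _ _
      (QuotientGroup.quotientQuotientEquivQuotient _ _ comK_le).toMonoidHom
      (QuotientGroup.quotientQuotientEquivQuotient _ _ comK_le).injective hQ
  · intro n hn
    obtain ⟨n, rfl⟩ := hπs n
    rw [hker]
    intro φ hφ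
    rw [← hL ⟨φ, hφ⟩]
    exact hn _ ⟨_, rfl⟩
  · rintro _ ⟨φ, rfl⟩ g
    obtain ⟨g, rfl⟩ := QuotientGroup.mk'_surjective _ g
    obtain ⟨ψ, hψ, h, hh⟩ := hinv φ.1 φ.2 g
    refine ⟨_, ⟨⟨ψ, hψ⟩, rfl⟩, h, ?_⟩
    intro n n' hnn
    obtain ⟨n, rfl⟩ := hπs n
    obtain ⟨m, hm⟩ : ∃ m : N, (m : G) = g * n * g⁻¹ :=
      ⟨⟨g * n * g⁻¹, Subgroup.Normal.conj_mem inferInstance _ n.2 g⟩, rfl⟩
    have h1 : n' = π m := by
      apply Subtype.ext
      rw [hπ, hnn, hπ, hm]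
      rfl
    rw [h1, hL, hL]
    exact hh n m hm
  · intro E hE
    choose c hc using hπs
    obtain ⟨F, hFR, hF, hFc⟩ := hfin (c '' E) (hE.image _)
    refine ⟨L '' {φ | φ.1 ∈ F}, ?_, ?_, ?_⟩
    · rintro _ ⟨φ, -, rfl⟩
      exact ⟨φ, rfl⟩
    · exact (hF.preimage Subtype.val_injective.injOn).image _
    · rintro _ ⟨φ, rfl⟩
      obtain ⟨ψ, hψ, h, hh⟩ := hFc φ.1 φ.2
      refine ⟨_, ⟨⟨ψ, hFR hψ⟩, hψ, rfl⟩, h, ?_⟩
      intro n hn
      have h1 := hh (c n) ⟨n, hn, rfl⟩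
      rw [← hL, ← hL ⟨ψ, hFR hψ⟩, hc] at h1
      exact h1

theorem tree_rep (hC : ClosedE C) (H : Type) [Group H] (hH : C H)
    (G V : Type) [Group G] [MulAction G V] (T : SimpleGraph V) (hT : T.IsTree)
    (hadj : ∀ (g : G) (v w : V), T.Adj v w → T.Adj (g • v) (g • w))
    (hinvs : ∀ (g : G) (v w : V), T.Adj v w → ¬ (g • v = w ∧ g • w = v))
    (hst : ∀ v : V, C (MulAction.stabilizer G v))
    (N : Subgroup G) [N.Normal] (hQ : C (G ⧸ N)) (R : Set (N →* H))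
    (hsep : ∀ (n : N) (v w : V), T.Adj v w → (n : G) • v = v → (n : G) • w = w →
      (∀ φ ∈ R, φ n = 1) → n = 1)
    (hinv : ConjInvariant R) (hfin : LocallyFinitelyMany R) : C G := by
  obtain ⟨P, iP, ρ, hP, hρ⟩ := quot_rep hC H hH G N hQ R hinv hfin
  refine Q9.FJT.tree_edge ρ hC hP hT hadj hinvs ?_ hst
  intro g v w hvw hv hw hg
  obtain ⟨h1, h2⟩ := hρ g hg
  have h3 := hsep ⟨g, h1⟩ v w hvw hv hw h2
  exact congrArg Subtype.val h3

end Q182.FV
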