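import Pool.Agent.Q37.GU.Stm
import Pool.Agent.W327.F4.Conn

/-!
Project GU (helper37, MP_8178ab_ag), job T3: a nonzero element of a smooth domain over the complex
numbers is nonzero on a dense set of points.
-/

open CategoryTheory CategoryTheory.Limits AlgebraicGeometry Topology
open Pool.Agent.Q37.GU Pool.Agent.W481

namespace Q182.GU_T3

/-- the point of affine space with given coordinates -/
noncomputable def pt {n : ℕ} (v : Fin n → ℂ) : Sp (MvPolynomial (Fin n) ℂ) :=
  (MvPolynomial.aeval v : MvPolynomial (Fin n) ℂ →ₐ[ℂ] ℂ)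

theorem pt_hom {n : ℕ} (v : Fin n → ℂ) (p : MvPolynomial (Fin n) ℂ) :
    (pt v).hom p = MvPolynomial.eval v p := by
  show MvPolynomial.aeval v p = _
  rw [MvPolynomial.aeval_def, MvPolynomial.eval₂_eq_eval_map]
  simp

theorem continuous_pt {n : ℕ} : Continuous (pt : (Fin n → ℂ) → Sp (MvPolynomial (Fin n) ℂ)) := by
  refine continuous_to_sp _ fun p => ?_
  simp only [pt_hom]
  exact MvPolynomial.continuous_eval p

theorem surjective_pt {n : ℕ} :
    Function.Surjective (pt : (Fin n → ℂ) → Sp (MvPolynomial (Fin n) ℂ)) := by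
  intro φ
  refine ⟨fun i => φ.hom (MvPolynomial.X i), ?_⟩
  refine MvPolynomial.algHom_ext fun i => ?_
  exact MvPolynomial.aeval_X _ i

theorem dense_poly {n : ℕ} (p : MvPolynomial (Fin n) ℂ) (hp : p ≠ 0) :
    Dense {φ : Sp (MvPolynomial (Fin n) ℂ) | φ.hom p ≠ 0} := by
  have h1 : Dense {v : Fin n → ℂ | MvPolynomial.eval v p ≠ 0} :=
    fun v => Pool.Agent.W327.F4.dense_ne p hp v
  have h2 := surjective_pt.denseRange.dense_image continuous_pt h1
  refine h2.mono ?_
  rintro _ ⟨v, hv, rfl⟩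
  show (pt v).hom p ≠ 0
  rw [pt_hom]
  exact hv

/-- a nonzero element of a standard étale domain over a polynomial ring divides a nonzero
polynomial -/
theorem dvd_poly {R A : Type} [CommRing R] [IsDomain R] [CommRing A] [IsDomain A] [Algebra R A]
    (P : StandardEtalePresentation R A) (h : A) (hh : h ≠ 0) :
    ∃ p : R, p ≠ 0 ∧ h ∣ algebraMap R A p := by
  obtain ⟨q, m, hq⟩ := P.exists_mul_aeval_x_g_pow_eq_aeval_x h
  have hx : IsIntegral R P.x := ⟨P.f, P.monic_f, P.hasMap.1⟩
  have hy : IsIntegral R (Polynomial.aeval P.x q) := by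
    have h1 : Polynomial.aeval P.x q ∈ Algebra.adjoin R {P.x} :=
      Polynomial.aeval_mem_adjoin_singleton R P.x
    have h2 : Algebra.adjoin R {P.x} ≤ integralClosure R A := by
      rw [Algebra.adjoin_le_iff]
      rintro _ rfl
      exact hx
    exact h2 h1
  have hne : Polynomial.aeval P.x q ≠ 0 := by
    rw [← hq]
    exact mul_ne_zero hh (pow_ne_zero m P.hasMap.2.ne_zero)
  obtain ⟨p, hp0, hp⟩ := hy.isAlgebraic.exists_nonzero_dvd (mem_nonZeroDivisors_of_ne_zero hne)
  refine ⟨p, hp0, Dvd.dvd.trans ?_ hp⟩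
  rw [← hq]
  exact Dvd.intro _ rfl

theorem dense_std {n : ℕ} {A : Type} [CommRing A] [IsDomain A] [Algebra ℂ A]
    [Algebra (MvPolynomial (Fin n) ℂ) A] [IsScalarTower ℂ (MvPolynomial (Fin n) ℂ) A]
    [Algebra.Etale (MvPolynomial (Fin n) ℂ) A]
    (P : StandardEtalePresentation (MvPolynomial (Fin n) ℂ) A) (h : A) (hh : h ≠ 0) :
    Dense {φ : Sp A | φ.hom h ≠ 0} := by
  obtain ⟨p, hp0, b, hb⟩ := dvd_poly P h hh
  have h1 : IsOpenMap (Sp.comap (IsScalarTower.toAlgHom ℂ (MvPolynomial (Fin n) ℂ) A)) :=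
    isLocalHomeomorph_comap.isOpenMap
  have h2 := (dense_poly p hp0).preimage h1
  refine h2.mono ?_
  intro φ hφ hφ0
  apply hφ
  show φ.hom (algebraMap (MvPolynomial (Fin n) ℂ) A p) = 0
  rw [hb, map_mul, hφ0, zero_mul]

theorem t3 : S_T3 := by
  intro B _ _ _ _ h hh φ₀
  let Q : Ideal B := RingHom.ker φ₀.hom.toRingHom
  have hQ : Q.IsPrime := RingHom.ker_isPrime _
  obtain ⟨f, hf, n, alg, tow, std⟩ :=
    Algebra.IsSmoothAt.exists_isStandardEtale_mvPolynomial (R := ℂ) (p := Q)
  have hf' : φ₀.hom f ≠ 0 := hf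
  have hf0 : f ≠ 0 := by
    rintro rfl
    exact hf' (map_zero _)
  have hle : Submonoid.powers f ≤ nonZeroDivisors B :=
    powers_le_nonZeroDivisors_of_noZeroDivisors hf0
  have hdom : IsDomain (Localization.Away f) := IsLocalization.isDomain_localization hle
  obtain ⟨P⟩ := std.nonempty_standardEtalePresentation
  have hinj : Function.Injective (algebraMap B (Localization.Away f)) :=
    IsLocalization.injective _ hle
  have hh' : algebraMap B (Localization.Away f) h ≠ 0 := by
    intro h0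
    exact hh (hinj (by rw [h0, map_zero]))
  have hd := dense_std P _ hh'
  have h1 : Continuous (Sp.comap (IsScalarTower.toAlgHom ℂ B (Localization.Away f))) :=
    continuous_comap _
  have h2 := image_closure_subset_closure_image h1
    (Set.mem_image_of_mem _ (hd (Pool.Agent.W327.F4.extSp f φ₀ hf')))
  rw [Pool.Agent.W327.F4.comap_extSp] at h2
  refine closure_mono ?_ h2
  rintro _ ⟨ψ, hψ, rfl⟩
  exact hψ

end Q182.GU_T3
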