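import Mathlib

/-!
# A well-ordered set of type `ω₁`
-/

namespace Q182

open Set

/-- A well-ordered set of order type `ω₁`. -/
abbrev W1 : Type := (Cardinal.aleph 1).ord.ToType

namespace W1

theorem countable_Iio (α : W1) : (Iio α).Countable := by
  rw [← Cardinal.mk_le_aleph0_iff.trans Set.countable_coe_iff, ← Order.lt_succ_iff,
    Cardinal.succ_aleph0]
  exact Cardinal.mk_Iio_toType_ord_lt α

theorem countable_Iic (α : W1) : (Iic α).Countable := by
  have : (Iic α : Set W1) ⊆ insert α (Iio α) := by
    intro b hb
    rcases eq_or_lt_of_le (mem_Iic.1 hb) with h | h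
    · left; exact h
    · right; exact h
  exact ((countable_Iio α).insert α).mono this

theorem mk_eq : Cardinal.mk W1 = Cardinal.aleph 1 := by
  rw [Cardinal.mk_toType, Cardinal.card_ord]

theorem not_countable : ¬ Countable W1 := by
  intro h
  have h1 : Cardinal.mk W1 ≤ Cardinal.aleph0 := Cardinal.mk_le_aleph0_iff.2 h
  rw [mk_eq] at h1
  exact absurd h1 (not_le.2 (by
    rw [← Cardinal.aleph_zero]; exact Cardinal.aleph_lt_aleph.2 zero_lt_one))

instance : Uncountable W1 := ⟨not_countable⟩

instance : NoMaxOrder W1 := by
  refine ⟨fun a => ?_⟩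
  by_contra hcon
  push Not at hcon
  apply not_countable
  have : (univ : Set W1) ⊆ insert a (Iio a) := by
    intro b _
    rcases eq_or_lt_of_le (hcon b) with h | h
    · left; exact h
    · right; exact h
  exact countable_univ_iff.1 (((countable_Iio a).insert a).mono this)

/-- Every countable subset is bounded above. -/
theorem bddAbove_of_countable {S : Set W1} (hS : S.Countable) : ∃ b, ∀ a ∈ S, a ≤ b := by
  by_contra hcon
  push Not at hcon
  apply not_countable
  have : (univ : Set W1) ⊆ ⋃ a ∈ S, Iio a := by
    intro b _
    obtain ⟨a, ha, hab⟩ := hcon b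
    exact mem_biUnion ha hab
  exact countable_univ_iff.1 ((hS.biUnion fun a _ => countable_Iio a).mono this)

end W1

end Q182
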