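import Mathlib
import Pool.Agent.Q182.W1
import Pool.Agent.Q182.SemilatticeDefs

/-!
# A semilattice with c-complete maximal chains that is not H-closed: the semilattice
-/

namespace Q182.HC

open Set Filter Topology

/-- Levels and heights, ordered lexicographically. -/
abbrev Rk : Type := WithTop W1 ×ₗ ℕ

/-- The level. -/
def lv (r : Rk) : WithTop W1 := (ofLex r).1
/-- The height. -/
def ht (r : Rk) : ℕ := (ofLex r).2

lemma lv_mono {r s : Rk} (h : r ≤ s) : lv r ≤ lv s := Prod.Lex.monotone_fst _ _ h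

lemma lt_of_lv_lt {r s : Rk} (h : lv r < lv s) : r < s := (Prod.Lex.lt_iff).2 (Or.inl h)

lemma le_iff_of_lv_eq {r s : Rk} (h : lv r = lv s) : r ≤ s ↔ ht r ≤ ht s := by
  rw [Prod.Lex.le_iff]
  constructor
  · rintro (h' | h')
    · exact absurd h h'.ne
    · exact h'.2
  · intro h'
    exact Or.inr ⟨h, h'⟩

lemma Rk.ext' {r s : Rk} (h1 : lv r = lv s) (h2 : ht r = ht s) : r = s :=
  congrArg toLex (Prod.ext h1 h2 : (ofLex r) = (ofLex s))

lemma le_of_lv_lt {r s : Rk} (h : lv r < lv s) : r ≤ s := (lt_of_lv_lt h).le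

/-- The level is a limit. -/
def Lim (l : WithTop W1) : Prop :=
  (∃ m : W1, (m : WithTop W1) < l) ∧
    ∀ m : W1, (m : WithTop W1) < l → ∃ m' : W1, m < m' ∧ (m' : WithTop W1) < l

/-- The points. -/
@[ext] structure Pt : Type where
  /-- The set. -/
  B : Set W1
  /-- The rank. -/
  r : Rk
  lim : Lim (lv r)
  sub : ∀ m ∈ B, (m : WithTop W1) < lv r
  fin : ∀ m : W1, (m : WithTop W1) < lv r → (B ∩ Iio m).Finite
  h2 : ht r ≤ 2
  h1 : lv r ≠ ⊤ → ht r ≤ 1
  hf : ht r ≠ 0 → B.Finite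

/-- The level of a point. -/
def Pt.l (x : Pt) : WithTop W1 := lv x.r
/-- The height of a point. -/
def Pt.h (x : Pt) : ℕ := ht x.r

/-- The product. -/
noncomputable def mul (x y : Pt) : Pt where
  B := (x.B ∪ y.B) ∩ {m | (m : WithTop W1) < lv (min x.r y.r)}
  r := min x.r y.r
  lim := by
    rcases le_total x.r y.r with h | h
    · rw [min_eq_left h]
      exact x.lim
    · rw [min_eq_right h]
      exact y.lim
  sub := fun m hm => hm.2
  fin := fun m hm => by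
    have h1 : (x.B ∩ Iio m).Finite := x.fin m (hm.trans_le (lv_mono (min_le_left _ _)))
    have h2 : (y.B ∩ Iio m).Finite := y.fin m (hm.trans_le (lv_mono (min_le_right _ _)))
    refine (h1.union h2).subset ?_
    rintro n ⟨⟨hn | hn, -⟩, hn'⟩
    · exact Or.inl ⟨hn, hn'⟩
    · exact Or.inr ⟨hn, hn'⟩
  h2 := by
    rcases le_total x.r y.r with h | h
    · rw [min_eq_left h]
      exact x.h2
    · rw [min_eq_right h]
      exact y.h2
  h1 := by
    rcases le_total x.r y.r with h | h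
    · rw [min_eq_left h]
      exact x.h1
    · rw [min_eq_right h]
      exact y.h1
  hf := by
    have key : ∀ x y : Pt, x.r ≤ y.r → ht x.r ≠ 0 →
        ((x.B ∪ y.B) ∩ {m | (m : WithTop W1) < lv x.r}).Finite := by
      intro x y h hh
      have h1 : (y.B ∩ {m | (m : WithTop W1) < lv x.r}).Finite := by
        rcases eq_or_lt_of_le (lv_mono h) with h' | h'
        · have h3 := (le_iff_of_lv_eq h').1 h
          exact (y.hf (by omega)).subset fun m hm => hm.1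
        · have h4 : lv x.r ≠ ⊤ := (lt_top_of_lt h').ne
          obtain ⟨m, hm⟩ := WithTop.ne_top_iff_exists.1 h4
          rw [← hm] at h' ⊢
          refine (y.fin m h').subset fun n hn => ⟨hn.1, ?_⟩
          exact WithTop.coe_lt_coe.1 hn.2
      refine ((x.hf hh).union h1).subset ?_
      rintro n ⟨hn | hn, hn'⟩
      · exact Or.inl hn
      · exact Or.inr ⟨hn, hn'⟩
    rcases le_total x.r y.r with h | h
    · rw [min_eq_left h]
      exact key x y h
    · rw [min_eq_right h, union_comm]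
      exact key y x h

noncomputable instance : SemilatticeInf Pt where
  inf := mul
  le x y := x.r ≤ y.r ∧ ∀ m ∈ y.B, (m : WithTop W1) < x.l → m ∈ x.B
  le_refl x := ⟨le_refl _, fun m hm _ => hm⟩
  le_trans x y z hxy hyz := ⟨hxy.1.trans hyz.1, fun m hm hmx =>
    hxy.2 m (hyz.2 m hm (hmx.trans_le (lv_mono hxy.1))) hmx⟩
  le_antisymm x y hxy hyx := by
    have hr : x.r = y.r := le_antisymm hxy.1 hyx.1
    apply Pt.ext
    · apply Subset.antisymm
      · intro m hm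
        exact hyx.2 m hm (by
          show _ < lv y.r
          rw [← hr]
          exact x.sub m hm)
      · intro m hm
        exact hxy.2 m hm (by
          show _ < lv x.r
          rw [hr]
          exact y.sub m hm)
    · exact hr
  inf_le_left x y := ⟨min_le_left _ _, fun m hm hm' => ⟨Or.inl hm, hm'⟩⟩
  inf_le_right x y := ⟨min_le_right _ _, fun m hm hm' => ⟨Or.inr hm, hm'⟩⟩
  le_inf x y z hxy hxz := ⟨le_min hxy.1 hxz.1, fun m hm hm' => by
    rcases hm.1 with h | h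
    · exact hxy.2 m h hm'
    · exact hxz.2 m h hm'⟩

lemma le_iff (x y : Pt) : x ≤ y ↔ x.r ≤ y.r ∧ ∀ m ∈ y.B, (m : WithTop W1) < x.l → m ∈ x.B :=
  Iff.rfl

lemma r_inf (x y : Pt) : (x ⊓ y).r = min x.r y.r := rfl

lemma mem_B_inf (x y : Pt) (m : W1) :
    m ∈ (x ⊓ y).B ↔ (m ∈ x.B ∨ m ∈ y.B) ∧ (m : WithTop W1) < (x ⊓ y).l := Iff.rfl

lemma l_inf (x y : Pt) : (x ⊓ y).l = min x.l y.l := by
  show lv (min x.r y.r) = min (lv x.r) (lv y.r)
  rcases le_total x.r y.r with h | h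
  · rw [min_eq_left h, min_eq_left (lv_mono h)]
  · rw [min_eq_right h, min_eq_right (lv_mono h)]

/-- A subset of `ω₁` with finite initial segments is finite. -/
lemma finite_of_initial {B : Set W1} (h : ∀ m : W1, (B ∩ Iio m).Finite) : B.Finite := by
  by_contra hcon
  have hinf : B.Infinite := hcon
  obtain ⟨b, hb⟩ := W1.bddAbove_of_countable (S := range fun n => ((hinf.natEmbedding B n : B) : W1))
    (countable_range _)
  obtain ⟨b', hb'⟩ := exists_gt b
  have h1 : (range fun n => ((hinf.natEmbedding B n : B) : W1)) ⊆ B ∩ Iio b' := by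
    rintro _ ⟨n, rfl⟩
    exact ⟨(hinf.natEmbedding B n).2, (hb _ ⟨n, rfl⟩).trans_lt hb'⟩
  have h2 : (range fun n => ((hinf.natEmbedding B n : B) : W1)).Infinite :=
    infinite_range_of_injective (Subtype.val_injective.comp (hinf.natEmbedding B).injective)
  exact h2 ((h b').subset h1)

lemma Pt.finite_of_top {x : Pt} (h : x.l = ⊤) : x.B.Finite :=
  finite_of_initial fun m => x.fin m (by
    show _ < x.l
    rw [h]
    exact WithTop.coe_lt_top m)

/-- The admissible bounds at a point. -/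
def Ok (y : Pt) (μ : W1) : Prop := (μ : WithTop W1) < y.l ∧ (y.B.Finite → ∀ m ∈ y.B, m < μ)

/-- Isolated points. -/
def Pt.Iso (y : Pt) : Prop := (y.l ≠ ⊤ ∧ y.h = 1) ∨ (y.l = ⊤ ∧ y.h = 2)

/-- The basic neighbourhoods. -/
structure Nb (y : Pt) (μ : W1) (w : Pt) : Prop where
  lt : (μ : WithTop W1) < w.l
  eq : ∀ m < μ, m ∈ w.B ↔ m ∈ y.B
  iso : y.Iso → w = y
  low : y.l ≠ ⊤ → y.h = 0 → y.B.Finite →
    (w.r ≤ y.r ∨ ∃ e ∈ w.B, μ ≤ e ∧ (e : WithTop W1) < y.l)
  tau : y.l = ⊤ → y.h = 0 → ((w.l ≠ ⊤ ∧ w.h = 1) ∨ w.r = y.r)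
  zet : y.l = ⊤ → y.h = 1 → (w.l = ⊤ ∧ w.h ≠ 0 ∧ (w.h = 2 → w.B ≠ y.B))

lemma exists_ok (y : Pt) {m : W1} (hm : (m : WithTop W1) < y.l) : ∃ μ, m < μ ∧ Ok y μ := by
  classical
  by_cases hB : y.B.Finite
  · set F : Finset W1 := insert m hB.toFinset with hF
    have hne : F.Nonempty := ⟨m, Finset.mem_insert_self _ _⟩
    have hmax : ((F.max' hne : W1) : WithTop W1) < y.l := by
      rcases Finset.mem_insert.1 (F.max'_mem hne) with h | h
      · rw [h]
        exact hm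
      · exact y.sub _ (by simpa using h)
    obtain ⟨μ, hμ1, hμ2⟩ := y.lim.2 _ hmax
    refine ⟨μ, lt_of_le_of_lt (F.le_max' m (Finset.mem_insert_self _ _)) hμ1, hμ2, fun _ n hn => ?_⟩
    exact lt_of_le_of_lt (F.le_max' n (Finset.mem_insert_of_mem (by simpa using hn))) hμ1
  · obtain ⟨μ, hμ1, hμ2⟩ := y.lim.2 _ hm
    exact ⟨μ, hμ1, hμ2, fun h => absurd h hB⟩

lemma exists_ok' (y : Pt) : ∃ μ, Ok y μ := by
  obtain ⟨m, hm⟩ := y.lim.1
  obtain ⟨μ, -, hμ⟩ := exists_ok y hm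
  exact ⟨μ, hμ⟩

lemma Ok.mono {y : Pt} {μ ν : W1} (h : Ok y μ) (hμν : μ ≤ ν) (hν : (ν : WithTop W1) < y.l) :
    Ok y ν := ⟨hν, fun hB m hm => (h.2 hB m hm).trans_le hμν⟩

lemma Nb.mono {y w : Pt} {μ ν : W1} (hμν : μ ≤ ν) (h : Nb y ν w) : Nb y μ w where
  lt := lt_of_le_of_lt (WithTop.coe_le_coe.2 hμν) h.lt
  eq := fun m hm => h.eq m (hm.trans_le hμν)
  iso := h.iso
  low := fun h1 h2 h3 => by
    rcases h.low h1 h2 h3 with h4 | ⟨e, he1, he2, he3⟩
    · exact Or.inl h4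
    · exact Or.inr ⟨e, he1, hμν.trans he2, he3⟩
  tau := h.tau
  zet := h.zet

lemma Nb.self {y : Pt} {μ : W1} (h : Ok y μ) : Nb y μ y where
  lt := h.1
  eq := fun m _ => Iff.rfl
  iso := fun _ => rfl
  low := fun _ _ _ => Or.inl le_rfl
  tau := fun _ _ => Or.inr rfl
  zet := fun h1 h2 => ⟨h1, by omega, fun h3 => by omega⟩

instance : TopologicalSpace Pt where
  IsOpen U := ∀ y ∈ U, ∃ μ, Ok y μ ∧ ∀ w, Nb y μ w → w ∈ U
  isOpen_univ := fun y _ => by
    obtain ⟨μ, hμ⟩ := exists_ok' y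
    exact ⟨μ, hμ, fun _ _ => trivial⟩
  isOpen_inter := fun U V hU hV y hy => by
    obtain ⟨μ, hμ, h1⟩ := hU y hy.1
    obtain ⟨ν, hν, h2⟩ := hV y hy.2
    rcases le_total μ ν with h | h
    · exact ⟨ν, hν, fun w hw => ⟨h1 w (hw.mono h), h2 w hw⟩⟩
    · exact ⟨μ, hμ, fun w hw => ⟨h1 w hw, h2 w (hw.mono h)⟩⟩
  isOpen_sUnion := fun s hs y hy => by
    obtain ⟨U, hU, hyU⟩ := hy
    obtain ⟨μ, hμ, h1⟩ := hs U hU y hyU
    exact ⟨μ, hμ, fun w hw => ⟨U, hU, h1 w hw⟩⟩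

lemma isOpen_iff' {U : Set Pt} : IsOpen U ↔ ∀ y ∈ U, ∃ μ, Ok y μ ∧ ∀ w, Nb y μ w → w ∈ U := Iff.rfl

lemma exists_between_ok (w : Pt) {μ : W1} (hμ : (μ : WithTop W1) < w.l) {e : W1}
    (he : (e : WithTop W1) < w.l) : ∃ ν, Ok w ν ∧ μ ≤ ν ∧ e < ν := by
  rcases le_total μ e with h | h
  · obtain ⟨ν, hν1, hν2⟩ := exists_ok w he
    exact ⟨ν, hν2, h.trans hν1.le, hν1⟩
  · obtain ⟨ν, hν1, hν2⟩ := exists_ok w hμ
    exact ⟨ν, hν2, hν1.le, h.trans_lt hν1⟩

lemma Pt.h_le_two (y : Pt) : y.h ≤ 2 := y.h2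

lemma Pt.h_le_one {y : Pt} (h : y.l ≠ ⊤) : y.h ≤ 1 := y.h1 h

lemma isOpen_Nb {y : Pt} {μ : W1} (hy : Ok y μ) : IsOpen {w | Nb y μ w} := by
  rw [isOpen_iff']
  intro w hw
  have hw' : Nb y μ w := hw
  by_cases hwi : w.Iso
  · obtain ⟨ν, hν⟩ := exists_ok' w
    exact ⟨ν, hν, fun v hv => by rw [hv.iso hwi]; exact hw⟩
  -- choose the bound
  obtain ⟨ν, hν1, hν2, hν3⟩ : ∃ ν, Ok w ν ∧ μ ≤ ν ∧
      (y.l ≠ ⊤ → y.h = 0 → y.B.Finite → (w.r ≤ y.r ∧ w.B.Finite) ∨
        ∃ e ∈ w.B, μ ≤ e ∧ e < ν ∧ (e : WithTop W1) < y.l) := by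
    by_cases hc : y.l ≠ ⊤ ∧ y.h = 0 ∧ y.B.Finite
    · rcases hw'.low hc.1 hc.2.1 hc.2.2 with h | ⟨e, he1, he2, he3⟩
      · by_cases hB : w.B.Finite
        · obtain ⟨ν, hν1, hν2⟩ := exists_ok w hw'.lt
          exact ⟨ν, hν2, hν1.le, fun _ _ _ => Or.inl ⟨h, hB⟩⟩
        · -- `w.B` is cofinal in the level
          have hex : ∃ e ∈ w.B, μ ≤ e := by
            by_contra hcon
            push Not at hcon
            exact hB ((w.fin μ hw'.lt).subset fun m hm => ⟨hm, hcon m hm⟩)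
          obtain ⟨e, he1, he2⟩ := hex
          obtain ⟨ν, hν1, hν2, hν3⟩ := exists_between_ok w hw'.lt (w.sub e he1)
          exact ⟨ν, hν1, hν2, fun _ _ _ => Or.inr ⟨e, he1, he2, hν3,
            lt_of_lt_of_le (w.sub e he1) (lv_mono h)⟩⟩
      · obtain ⟨ν, hν1, hν2, hν3⟩ := exists_between_ok w hw'.lt (w.sub e he1)
        exact ⟨ν, hν1, hν2, fun _ _ _ => Or.inr ⟨e, he1, he2, hν3, he3⟩⟩
    · obtain ⟨ν, hν1, hν2⟩ := exists_ok w hw'.lt
      exact ⟨ν, hν2, hν1.le, fun h1 h2 h3 => absurd ⟨h1, h2, h3⟩ hc⟩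
  refine ⟨ν, hν1, fun v hv => ?_⟩
  have heq : ∀ m < ν, m ∈ v.B ↔ m ∈ w.B := hv.eq
  exact {
    lt := lt_of_le_of_lt (WithTop.coe_le_coe.2 hν2) hv.lt
    eq := fun m hm => (hv.eq m (hm.trans_le hν2)).trans (hw'.eq m hm)
    iso := fun h => by
      have := hw'.iso h
      exact absurd (this ▸ h) hwi
    low := fun h1 h2 h3 => by
      rcases hν3 h1 h2 h3 with ⟨h4, h5⟩ | ⟨e, he1, he2, he3, he4⟩
      · -- `w` is finite of height zero below the level
        have hwl : w.l ≠ ⊤ := ((lv_mono h4).trans_lt (lt_top_iff_ne_top.2 h1)).ne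
        have hwh : w.h = 0 := by
          have := w.h_le_one hwl
          by_contra hcon
          exact hwi (Or.inl ⟨hwl, by omega⟩)
        rcases hv.low hwl hwh h5 with h6 | ⟨e, he1, he2, he3⟩
        · exact Or.inl (h6.trans h4)
        · exact Or.inr ⟨e, he1, hν2.trans he2, he3.trans_le (lv_mono h4)⟩
      · exact Or.inr ⟨e, (hv.eq e he3).2 he1, he2, he4⟩
    tau := fun h1 h2 => by
      rcases hw'.tau h1 h2 with h3 | h3
      · exact absurd (Or.inl h3) hwi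
      · have hwl : w.l = ⊤ := by
          show lv w.r = ⊤
          rw [h3]
          exact h1
        have hwh : w.h = 0 := by
          show ht w.r = 0
          rw [h3]
          exact h2
        rcases hv.tau hwl hwh with h4 | h4
        · exact Or.inl h4
        · exact Or.inr (h4.trans h3)
    zet := fun h1 h2 => by
      obtain ⟨h3, h4, h5⟩ := hw'.zet h1 h2
      have hwh : w.h = 1 := by
        have := w.h_le_two
        by_contra hcon
        exact hwi (Or.inr ⟨h3, by omega⟩)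
      obtain ⟨h6, h7, h8⟩ := hv.zet h3 hwh
      refine ⟨h6, h7, fun h9 => ?_⟩
      have h10 := h8 h9
      intro hcon
      apply h10
      rw [hcon]
      -- `w` and `y` agree
      have hyB := hy.2 (Pt.finite_of_top h1)
      have hwB := hν1.2 (Pt.finite_of_top h3)
      ext m
      constructor
      · intro hm
        exact (hw'.eq m (hyB m hm)).2 hm
      · intro hm
        have h11 := (hv.eq m (hwB m hm)).2 hm
        rw [hcon] at h11
        exact h11 }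

lemma mem_nhds_iff' {y : Pt} {U : Set Pt} : U ∈ 𝓝 y ↔ ∃ μ, Ok y μ ∧ ∀ w, Nb y μ w → w ∈ U := by
  rw [mem_nhds_iff]
  constructor
  · rintro ⟨V, hVU, hV, hy⟩
    obtain ⟨μ, hμ, h⟩ := hV y hy
    exact ⟨μ, hμ, fun w hw => hVU (h w hw)⟩
  · rintro ⟨μ, hμ, h⟩
    exact ⟨{w | Nb y μ w}, h, isOpen_Nb hμ, Nb.self hμ⟩

end Q182.HC
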