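import Mathlib
import Pool.Agent.Q182.HCExample

/-!
# Hausdorffness and continuity of the product
-/

namespace Q182.HC

open Set Filter Topology

/-- Separation of points with ordered ranks. -/
lemma separate {x y : Pt} (hr : x.r ≤ y.r) (hne : x ≠ y) :
    ∃ μ ν, Ok x μ ∧ Ok y ν ∧ ∀ w, Nb x μ w → Nb y ν w → False := by
  have hl : x.l ≤ y.l := lv_mono hr
  by_cases hB : ∀ m : W1, (m : WithTop W1) < x.l → (m ∈ x.B ↔ m ∈ y.B)
  swap
  · push Not at hB
    obtain ⟨m, hm, hm'⟩ := hB
    obtain ⟨μ, hμ1, hμ2⟩ := exists_ok x hm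
    obtain ⟨ν, hν1, hν2⟩ := exists_ok y (hm.trans_le hl)
    refine ⟨μ, ν, hμ2, hν2, fun w h1 h2 => ?_⟩
    have h3 := (h1.eq m hμ1).symm.trans (h2.eq m hν1)
    rcases hm' with h4 | h4
    · exact h4.2 (h3.1 h4.1)
    · exact h4.1 (h3.2 h4.2)
  rcases eq_or_lt_of_le hl with hl' | hl'
  · -- equal levels, hence equal sets
    have hBeq : x.B = y.B := by
      ext m
      constructor
      · intro hm
        exact (hB m (x.sub m hm)).1 hm
      · intro hm
        exact (hB m (by rw [hl']; exact y.sub m hm)).2 hm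
    have hh : x.h < y.h := by
      have h1 : x.h ≤ y.h := (le_iff_of_lv_eq hl').1 hr
      rcases eq_or_lt_of_le h1 with h2 | h2
      · exact absurd (Pt.ext hBeq (Rk.ext' hl' h2)) hne
      · exact h2
    have hyf : y.B.Finite := y.hf (by
      have : y.h = ht y.r := rfl
      omega)
    have hxf : x.B.Finite := hBeq ▸ hyf
    obtain ⟨μ, hμ⟩ := exists_ok' x
    obtain ⟨ν, hν⟩ := exists_ok' y
    refine ⟨μ, ν, hμ, hν, fun w h1 h2 => ?_⟩
    by_cases htop : y.l = ⊤
    · have hxtop : x.l = ⊤ := hl'.trans htop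
      have hy2 := y.h_le_two
      rcases Nat.eq_zero_or_pos x.h with hx0 | hx0
      · -- `x` is a point `τ`
        rcases h1.tau hxtop hx0 with h3 | h3
        · by_cases hy1 : y.h = 1
          · exact h3.1 (h2.zet htop hy1).1
          · have := h2.iso (Or.inr ⟨htop, by omega⟩)
            rw [this] at h3
            exact h3.1 htop
        · by_cases hy1 : y.h = 1
          · apply (h2.zet htop hy1).2.1
            show ht w.r = 0
            rw [h3]
            exact hx0
          · have := h2.iso (Or.inr ⟨htop, by omega⟩)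
            rw [this] at h3
            have h4 : y.h = x.h := congrArg ht h3
            omega
      · -- `x` is a point `z`, `y` is isolated
        have hx1 : x.h = 1 := by omega
        have := h2.iso (Or.inr ⟨htop, by omega⟩)
        rw [this] at h1
        exact (h1.zet hxtop hx1).2.2 (by omega) hBeq.symm
    · have hy1 := y.h_le_one htop
      have := h2.iso (Or.inl ⟨htop, by omega⟩)
      rw [this] at h1
      have hxtop : x.l ≠ ⊤ := by rw [show x.l = y.l from hl']; exact htop
      rcases h1.low hxtop (by omega) hxf with h3 | ⟨e, he1, he2, -⟩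
      · have h4 : y.h ≤ x.h := (le_iff_of_lv_eq hl'.symm).1 h3
        omega
      · have := hμ.2 hxf e (by rw [hBeq]; exact he1)
        exact absurd he2 (not_le.2 this)
  · -- `x` has smaller level
    have hxtop : x.l ≠ ⊤ := (lt_top_of_lt hl').ne
    obtain ⟨k, hk⟩ := WithTop.ne_top_iff_exists.1 hxtop
    have hk' : (k : WithTop W1) < y.l := by rw [hk]; exact hl'
    obtain ⟨ν, hν1, hν2⟩ := exists_ok y hk'
    obtain ⟨μ, hμ⟩ := exists_ok' x
    have hxf : x.B.Finite := by
      refine (y.fin k hk').subset fun m hm => ?_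
      have hm' : (m : WithTop W1) < x.l := x.sub m hm
      refine ⟨(hB m hm').1 hm, ?_⟩
      rw [← hk] at hm'
      exact WithTop.coe_lt_coe.1 hm'
    refine ⟨μ, ν, hμ, hν2, fun w h1 h2 => ?_⟩
    have hwl : x.l < w.l := by
      rw [← hk]
      exact (WithTop.coe_lt_coe.2 hν1).trans h2.lt
    have hx1 := x.h_le_one hxtop
    rcases Nat.eq_zero_or_pos x.h with hx0 | hx0
    · rcases h1.low hxtop hx0 hxf with h3 | ⟨e, he1, he2, he3⟩
      · exact absurd (lv_mono h3) (not_le.2 hwl)
      · have hek : e < k := by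
          rw [← hk] at he3
          exact WithTop.coe_lt_coe.1 he3
        have h4 := (h2.eq e (hek.trans hν1)).1 he1
        have h5 := (hB e he3).2 h4
        exact absurd he2 (not_le.2 (hμ.2 hxf e h5))
    · have := h1.iso (Or.inl ⟨hxtop, by omega⟩)
      rw [this] at hwl
      exact lt_irrefl _ hwl

instance : T2Space Pt := by
  refine ⟨fun x y hxy => ?_⟩
  rcases le_total x.r y.r with h | h
  · obtain ⟨μ, ν, hμ, hν, hd⟩ := separate h hxy
    refine ⟨_, _, isOpen_Nb hμ, isOpen_Nb hν, Nb.self hμ, Nb.self hν, ?_⟩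
    rw [Set.disjoint_left]
    exact fun w h1 h2 => hd w h1 h2
  · obtain ⟨μ, ν, hμ, hν, hd⟩ := separate h hxy.symm
    refine ⟨_, _, isOpen_Nb hν, isOpen_Nb hμ, Nb.self hν, Nb.self hμ, ?_⟩
    rw [Set.disjoint_left]
    exact fun w h1 h2 => hd w h2 h1

/-- Continuity of the product, first argument of smaller rank. -/
lemma cont_key {u v : Pt} (hr : u.r ≤ v.r) {μ : W1} (hμ : Ok (u ⊓ v) μ) :
    ∃ α β, Ok u α ∧ Ok v β ∧ ∀ w w', Nb u α w → Nb v β w' → Nb (u ⊓ v) μ (w ⊓ w') := by
  have hyr : (u ⊓ v).r = u.r := min_eq_left hr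
  have hyl : (u ⊓ v).l = u.l := congrArg lv hyr
  have hyh : (u ⊓ v).h = u.h := congrArg ht hyr
  have hl : u.l ≤ v.l := lv_mono hr
  have hμu : (μ : WithTop W1) < u.l := by rw [← hyl]; exact hμ.1
  have hμv : (μ : WithTop W1) < v.l := hμu.trans_le hl
  -- agreement of the level and the sets
  have hlt : ∀ {α β : W1}, μ ≤ α → μ ≤ β → ∀ w w', Nb u α w → Nb v β w' →
      (μ : WithTop W1) < (w ⊓ w').l := by
    intro α β hα hβ w w' h1 h2
    rw [l_inf]
    exact lt_min (h1.mono hα).lt (h2.mono hβ).lt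
  have heq : ∀ {α β : W1}, μ ≤ α → μ ≤ β → ∀ w w', Nb u α w → Nb v β w' →
      ∀ m < μ, m ∈ (w ⊓ w').B ↔ m ∈ (u ⊓ v).B := by
    intro α β hα hβ w w' h1 h2 m hm
    have h3 : (m : WithTop W1) < (w ⊓ w').l :=
      (WithTop.coe_lt_coe.2 hm).trans (hlt hα hβ w w' h1 h2)
    have h4 : (m : WithTop W1) < (u ⊓ v).l := (WithTop.coe_lt_coe.2 hm).trans hμ.1
    rw [mem_B_inf, mem_B_inf, (h1.mono hα).eq m hm, (h2.mono hβ).eq m hm]
    simp only [h3, h4]
  by_cases htop : u.l = ⊤
  · have hvtop : v.l = ⊤ := top_le_iff.1 (htop ▸ hl)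
    obtain ⟨α, hα1, hα2⟩ := exists_ok u hμu
    obtain ⟨β, hβ1, hβ2⟩ := exists_ok v hμv
    refine ⟨α, β, hα2, hβ2, fun w w' hw hw' => ?_⟩
    have hhv : u.h ≤ v.h := (le_iff_of_lv_eq (htop.trans hvtop.symm : lv u.r = lv v.r)).1 hr
    have hv2 := v.h_le_two
    have hmem : ∀ {w w' : Pt} (m : W1), w.l = ⊤ → w'.l = ⊤ → (m ∈ (w ⊓ w').B ↔ m ∈ w.B ∨ m ∈ w'.B) := by
      intro w w' m h1 h2
      rw [mem_B_inf, l_inf, h1, h2, min_self]
      exact and_iff_left (WithTop.coe_lt_top m)
    refine ⟨hlt hα1.le hβ1.le w w' hw hw', heq hα1.le hβ1.le w w' hw hw', fun hiso => ?_,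
      fun h1 => absurd (hyl.trans htop) h1, fun _ h2 => ?_, fun _ h2 => ?_⟩
    · -- isolated
      rcases hiso with h | h
      · exact absurd (hyl.trans htop) h.1
      · have h3 : u.h = 2 := by rw [← hyh]; exact h.2
        rw [hw.iso (Or.inr ⟨htop, h3⟩), hw'.iso (Or.inr ⟨hvtop, by omega⟩)]
    · -- `u` is a point `τ`
      rw [hyh] at h2
      -- the rank of `w'`
      have hw'r : (w'.l ≠ ⊤ ∧ w'.h = 1) ∨ w'.l = ⊤ := by
        by_cases hv0 : v.h = 0
        · rcases hw'.tau hvtop hv0 with h3 | h3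
          · exact Or.inl h3
          · right
            show lv w'.r = ⊤
            rw [h3]
            exact hvtop
        · by_cases hv1 : v.h = 1
          · exact Or.inr (hw'.zet hvtop hv1).1
          · right
            rw [hw'.iso (Or.inr ⟨hvtop, by omega⟩)]
            exact hvtop
      rw [hyr]
      rcases hw.tau htop h2 with h3 | h3
      · -- `w` has level below `⊤` and height one
        left
        rcases hw'r with h4 | h4
        · rcases le_total w.r w'.r with h5 | h5
          · have h6 : (w ⊓ w').r = w.r := min_eq_left h5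
            exact ⟨by show lv (w ⊓ w').r ≠ ⊤; rw [h6]; exact h3.1,
              by show ht (w ⊓ w').r = 1; rw [h6]; exact h3.2⟩
          · have h6 : (w ⊓ w').r = w'.r := min_eq_right h5
            exact ⟨by show lv (w ⊓ w').r ≠ ⊤; rw [h6]; exact h4.1,
              by show ht (w ⊓ w').r = 1; rw [h6]; exact h4.2⟩
        · have h5 : w.r ≤ w'.r := le_of_lv_lt (by
            show w.l < w'.l
            rw [h4]
            exact lt_top_iff_ne_top.2 h3.1)
          have h6 : (w ⊓ w').r = w.r := min_eq_left h5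
          exact ⟨by show lv (w ⊓ w').r ≠ ⊤; rw [h6]; exact h3.1,
            by show ht (w ⊓ w').r = 1; rw [h6]; exact h3.2⟩
      · rcases hw'r with h4 | h4
        · left
          have h5 : w'.r ≤ w.r := le_of_lv_lt (by
            rw [h3]
            show w'.l < u.l
            rw [htop]
            exact lt_top_iff_ne_top.2 h4.1)
          have h6 : (w ⊓ w').r = w'.r := min_eq_right h5
          exact ⟨by show lv (w ⊓ w').r ≠ ⊤; rw [h6]; exact h4.1,
            by show ht (w ⊓ w').r = 1; rw [h6]; exact h4.2⟩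
        · right
          have h5 : w.r ≤ w'.r := by
            rw [h3, le_iff_of_lv_eq (htop.trans h4.symm : lv u.r = lv w'.r)]
            show u.h ≤ _
            rw [h2]
            exact Nat.zero_le _
          have h6 : (w ⊓ w').r = w.r := min_eq_left h5
          rw [h6, h3]
    · -- `u` is a point `z`
      rw [hyh] at h2
      obtain ⟨h3, h4, h5⟩ := hw.zet htop h2
      have hw'2 : w'.l = ⊤ ∧ w'.h ≠ 0 := by
        by_cases hv1 : v.h = 1
        · exact ⟨(hw'.zet hvtop hv1).1, (hw'.zet hvtop hv1).2.1⟩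
        · rw [hw'.iso (Or.inr ⟨hvtop, by omega⟩)]
          exact ⟨hvtop, by omega⟩
      have hwl : (w ⊓ w').l = ⊤ := by rw [l_inf, h3, hw'2.1, min_self]
      refine ⟨hwl, ?_, fun h6 => ?_⟩
      · rcases le_total w.r w'.r with h7 | h7
        · have h8 : (w ⊓ w').r = w.r := min_eq_left h7
          show ht (w ⊓ w').r ≠ 0
          rw [h8]
          exact h4
        · have h8 : (w ⊓ w').r = w'.r := min_eq_right h7
          show ht (w ⊓ w').r ≠ 0
          rw [h8]
          exact hw'2.2
      · -- both have height two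
        have hw2 : w.h = 2 := by
          have h7 : (w ⊓ w').r ≤ w.r := min_le_left _ _
          have h8 := (le_iff_of_lv_eq (hwl.trans h3.symm : lv (w ⊓ w').r = lv w.r)).1 h7
          have h9 := w.h_le_two
          have h10 : ht (w ⊓ w').r = 2 := h6
          have h11 : ht w.r = w.h := rfl
          omega
        have h12 := h5 hw2
        have huB := hα2.2 (Pt.finite_of_top htop)
        have hyB := hμ.2 (Pt.finite_of_top (hyl.trans htop))
        -- `w` has an element at least `α`
        obtain ⟨e, he1, he2⟩ : ∃ e ∈ w.B, α ≤ e := by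
          by_contra hcon
          push Not at hcon
          apply h12
          ext m
          constructor
          · intro hm
            exact (hw.eq m (hcon m hm)).1 hm
          · intro hm
            exact (hw.eq m (huB m hm)).2 hm
        intro hcon
        have h13 : e ∈ (w ⊓ w').B := (hmem e h3 hw'2.1).2 (Or.inl he1)
        rw [hcon] at h13
        exact absurd (hyB e h13) (not_lt.2 (hα1.le.trans he2))
  · -- level below `⊤`
    have hu1 := u.h_le_one htop
    have hytop : (u ⊓ v).l ≠ ⊤ := by rw [hyl]; exact htop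
    rcases Nat.eq_zero_or_pos u.h with hu0 | hu0
    · -- height zero
      obtain ⟨α, hα1, hα2⟩ := exists_ok u hμu
      obtain ⟨β, hβ1, hβ2⟩ := exists_ok v hμv
      refine ⟨α, β, hα2, hβ2, fun w w' hw hw' => ?_⟩
      refine ⟨hlt hα1.le hβ1.le w w' hw hw', heq hα1.le hβ1.le w w' hw hw', fun hiso => ?_,
        fun _ _ hfin => ?_, fun h1 => absurd h1 hytop, fun h1 => absurd h1 hytop⟩
      · rcases hiso with h | h
        · rw [hyh, hu0] at h
          exact absurd h.2 (by decide)
        · exact absurd h.1 hytop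
      · have hufin : u.B.Finite := hfin.subset fun m hm =>
          (mem_B_inf _ _ _).2 ⟨Or.inl hm, by rw [hyl]; exact u.sub m hm⟩
        rcases hw.low htop hu0 hufin with h1 | ⟨e, he1, he2, he3⟩
        · left
          rw [hyr]
          exact (min_le_left _ _).trans h1
        · by_cases he : (e : WithTop W1) < w'.l
          · right
            refine ⟨e, (mem_B_inf _ _ _).2 ⟨Or.inl he1, ?_⟩, hα1.le.trans he2, by rw [hyl]; exact he3⟩
            rw [l_inf]
            exact lt_min (w.sub e he1) he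
          · left
            rw [hyr]
            refine (min_le_right _ _).trans (le_of_lv_lt ?_)
            exact lt_of_le_of_lt (not_lt.1 he) he3
    · -- isolated
      have hu1' : u.h = 1 := by omega
      have huiso : u.Iso := Or.inl ⟨htop, hu1'⟩
      obtain ⟨α, hα1, hα2⟩ := exists_ok u hμu
      obtain ⟨k, hk⟩ := WithTop.ne_top_iff_exists.1 htop
      -- it suffices to control the second factor
      suffices h : ∃ β, Ok v β ∧ μ ≤ β ∧ ∀ w', Nb v β w' → u.r ≤ w'.r ∧
          ∀ m : W1, (m : WithTop W1) < u.l → (m ∈ w'.B ↔ m ∈ v.B) by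
        obtain ⟨β, hβ1, hβ2, hβ3⟩ := h
        refine ⟨α, β, hα2, hβ1, fun w w' hw hw' => ?_⟩
        obtain ⟨h1, h2⟩ := hβ3 w' hw'
        have h3 : u ⊓ w' = u ⊓ v := by
          have h4 : (u ⊓ w').r = (u ⊓ v).r := by
            rw [hyr]
            exact min_eq_left h1
          apply Pt.ext _ h4
          ext m
          have h5 : (u ⊓ w').l = (u ⊓ v).l := congrArg lv h4
          rw [mem_B_inf, mem_B_inf, h5, hyl]
          constructor
          · rintro ⟨h6 | h6, h7⟩
            · exact ⟨Or.inl h6, h7⟩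
            · exact ⟨Or.inr ((h2 m h7).1 h6), h7⟩
          · rintro ⟨h6 | h6, h7⟩
            · exact ⟨Or.inl h6, h7⟩
            · exact ⟨Or.inr ((h2 m h7).2 h6), h7⟩
        rw [hw.iso huiso, h3]
        exact Nb.self hμ
      rcases eq_or_lt_of_le hl with hl' | hl'
      · -- `v` is isolated, too
        have hvtop : v.l ≠ ⊤ := by rw [← hl']; exact htop
        have hv1 := v.h_le_one hvtop
        have h1 : u.h ≤ v.h := (le_iff_of_lv_eq hl').1 hr
        obtain ⟨β, hβ1, hβ2⟩ := exists_ok v hμv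
        refine ⟨β, hβ2, hβ1.le, fun w' hw' => ?_⟩
        rw [hw'.iso (Or.inl ⟨hvtop, by omega⟩)]
        exact ⟨hr, fun m _ => Iff.rfl⟩
      · have hk' : (k : WithTop W1) < v.l := by rw [hk]; exact hl'
        obtain ⟨β, hβ1, hβ2, hβ3⟩ := exists_between_ok v hμv hk'
        refine ⟨β, hβ1, hβ2, fun w' hw' => ⟨le_of_lv_lt ?_, fun m hm => ?_⟩⟩
        · show u.l < w'.l
          rw [← hk]
          exact (WithTop.coe_lt_coe.2 hβ3).trans hw'.lt
        · rw [← hk] at hm
          exact hw'.eq m ((WithTop.coe_lt_coe.1 hm).trans hβ3)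

instance : ContinuousInf Pt := by
  refine ⟨continuous_iff_continuousAt.2 ?_⟩
  rintro ⟨u, v⟩
  intro U hU
  obtain ⟨μ, hμ, hμU⟩ := mem_nhds_iff'.1 hU
  have key : ∀ α β, Ok u α → Ok v β → (∀ w w', Nb u α w → Nb v β w' → Nb (u ⊓ v) μ (w ⊓ w')) →
      (fun p : Pt × Pt => p.1 ⊓ p.2) ⁻¹' U ∈ 𝓝 (u, v) := by
    intro α β hα hβ h
    rw [nhds_prod_eq]
    refine mem_of_superset (prod_mem_prod ((isOpen_Nb hα).mem_nhds (Nb.self hα))
      ((isOpen_Nb hβ).mem_nhds (Nb.self hβ))) ?_
    rintro ⟨w, w'⟩ ⟨h1, h2⟩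
    exact hμU _ (h w w' h1 h2)
  rcases le_total u.r v.r with h | h
  · obtain ⟨α, β, hα, hβ, hab⟩ := cont_key h hμ
    exact key α β hα hβ hab
  · have hμ' : Ok (v ⊓ u) μ := by rw [inf_comm]; exact hμ
    obtain ⟨α, β, hα, hβ, hab⟩ := cont_key h hμ'
    refine key β α hβ hα fun w w' hw hw' => ?_
    rw [inf_comm u v, inf_comm w w']
    exact hab w' w hw' hw

end Q182.HC
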