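import Mathlib
import Pool.Agent.Q182.HCExample2

/-!
# The subsemilattice, its maximal chains, and a missing limit point
-/

namespace Q182.HC

open Set Filter Topology

/-- The subsemilattice: all points except the points `z`. -/
def X : Type := {y : Pt // ¬ (y.l = ⊤ ∧ y.h = 1)}

lemma X_inf {x y : Pt} (hx : ¬ (x.l = ⊤ ∧ x.h = 1)) (hy : ¬ (y.l = ⊤ ∧ y.h = 1)) :
    ¬ ((x ⊓ y).l = ⊤ ∧ (x ⊓ y).h = 1) := by
  rcases le_total x.r y.r with h | h
  · have h1 : (x ⊓ y).r = x.r := min_eq_left h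
    show ¬ (lv (x ⊓ y).r = ⊤ ∧ ht (x ⊓ y).r = 1)
    rw [h1]
    exact hx
  · have h1 : (x ⊓ y).r = y.r := min_eq_right h
    show ¬ (lv (x ⊓ y).r = ⊤ ∧ ht (x ⊓ y).r = 1)
    rw [h1]
    exact hy

noncomputable instance : SemilatticeInf X :=
  Subtype.semilatticeInf (P := fun y : Pt => ¬ (y.l = ⊤ ∧ y.h = 1)) (fun _ _ h1 h2 => X_inf h1 h2)

instance : TopologicalSpace X := instTopologicalSpaceSubtype

/-- The inclusion. -/
def X.y (x : X) : Pt := x.1

lemma X.isEmbedding_y : IsEmbedding X.y := IsEmbedding.subtypeVal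

lemma X.y_inf (u v : X) : (u ⊓ v).y = u.y ⊓ v.y := rfl

lemma X.le_iff (u v : X) : u ≤ v ↔ u.y.r ≤ v.y.r ∧
    ∀ m ∈ v.y.B, (m : WithTop W1) < u.y.l → m ∈ u.y.B := Iff.rfl

lemma X.ext' {u v : X} (h : u.y = v.y) : u = v := Subtype.ext h

instance : T2Space X := X.isEmbedding_y.t2Space

instance : ContinuousInf X := by
  refine ⟨X.isEmbedding_y.continuous_iff.2 ?_⟩
  have h : Continuous fun p : X × X => p.1.y ⊓ p.2.y :=
    (X.isEmbedding_y.continuous.comp continuous_fst).inf
      (X.isEmbedding_y.continuous.comp continuous_snd)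
  exact h

/-- A criterion for a point to be in the closure. -/
lemma X.mem_closure {T : Set X} {z : X}
    (h : ∀ μ, Ok z.y μ → ∃ w ∈ T, Nb z.y μ w.y) : z ∈ closure T := by
  rw [X.isEmbedding_y.toIsInducing.closure_eq_preimage_closure_image]
  show z.y ∈ closure (X.y '' T)
  rw [mem_closure_iff_nhds]
  intro U hU
  obtain ⟨μ, hμ, hμU⟩ := mem_nhds_iff'.1 hU
  obtain ⟨w, hw, hw'⟩ := h μ hμ
  exact ⟨w.y, hμU _ hw', mem_image_of_mem _ hw⟩

/-- Points of a chain that agree with a set up to finitely many conditions. -/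
lemma agree_of_chain {S : Set X} {U : Set W1} {μ : W1} (hne : S.Nonempty)
    (hfin : (U ∩ Iio μ).Finite)
    (hU : ∀ m ∈ U, m < μ → ∃ s ∈ S, ∀ t ∈ S, t ≤ s → m ∈ t.y.B) (hS : IsChain (· ≤ ·) S) :
    ∃ s ∈ S, ∀ t ∈ S, t ≤ s → ∀ m ∈ U, m < μ → m ∈ t.y.B := by
  classical
  have key : ∀ F : Finset W1, (∀ m ∈ F, m ∈ U ∧ m < μ) →
      ∃ s ∈ S, ∀ t ∈ S, t ≤ s → ∀ m ∈ F, m ∈ t.y.B := by
    intro F
    induction F using Finset.induction_on with
    | empty =>
      intro _
      obtain ⟨s, hs⟩ := hne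
      exact ⟨s, hs, fun t _ _ m hm => absurd hm (Finset.notMem_empty m)⟩
    | insert a F _ ih =>
      intro hF
      obtain ⟨s, hs, h1⟩ := ih fun m hm => hF m (Finset.mem_insert_of_mem hm)
      obtain ⟨ha1, ha2⟩ := hF a (Finset.mem_insert_self _ _)
      obtain ⟨s', hs', h2⟩ := hU a ha1 ha2
      rcases hS.total hs hs' with h | h
      · refine ⟨s, hs, fun t ht hts m hm => ?_⟩
        rcases Finset.mem_insert.1 hm with rfl | hm
        · exact h2 t ht (hts.trans h)
        · exact h1 t ht hts m hm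
      · refine ⟨s', hs', fun t ht hts m hm => ?_⟩
        rcases Finset.mem_insert.1 hm with rfl | hm
        · exact h2 t ht hts
        · exact h1 t ht (hts.trans h) m hm
  obtain ⟨s, hs, h⟩ := key hfin.toFinset (fun m hm => by
    have := (Set.Finite.mem_toFinset _).1 hm
    exact this)
  exact ⟨s, hs, fun t ht hts m hm hmμ => h t ht hts m ((Set.Finite.mem_toFinset _).2 ⟨hm, hmμ⟩)⟩

/-- Infima of subsets of a maximal chain belong to it. -/
lemma glb_mem {L S : Set X} (hL : IsMaxChain (· ≤ ·) L) (hSL : S ⊆ L) {z : X}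
    (hz : IsGLB S z) : z ∈ L := by
  by_cases hne : ∀ y ∈ L, z ≤ y ∨ y ≤ z
  · have hch : IsChain (· ≤ ·) (insert z L) := hL.1.insert fun y hy _ => hne y hy
    have := hL.2 hch (subset_insert z L)
    rw [this]
    exact mem_insert z L
  · exfalso
    push Not at hne
    obtain ⟨y, hy, h1, h2⟩ := hne
    apply h2
    apply hz.2
    intro s hs
    rcases hL.1.total hy (hSL hs) with h | h
    · exact h
    · exact absurd ((hz.1 hs).trans h) h1

/-- Suprema of subsets of a maximal chain belong to it. -/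
lemma lub_mem {L S : Set X} (hL : IsMaxChain (· ≤ ·) L) (hSL : S ⊆ L) {z : X}
    (hz : IsLUB S z) : z ∈ L := by
  by_cases hne : ∀ y ∈ L, z ≤ y ∨ y ≤ z
  · have hch : IsChain (· ≤ ·) (insert z L) := hL.1.insert fun y hy _ => hne y hy
    have := hL.2 hch (subset_insert z L)
    rw [this]
    exact mem_insert z L
  · exfalso
    push Not at hne
    obtain ⟨y, hy, h1, h2⟩ := hne
    apply h1
    apply hz.2
    intro s hs
    rcases hL.1.total (hSL hs) hy with h | h
    · exact h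
    · exact absurd (h.trans (hz.1 hs)) h2

instance : WellFoundedLT Rk := inferInstance

/-- Infima: every nonempty chain has an infimum, which is in its closure. -/
theorem exists_glb {S : Set X} (hne : S.Nonempty) (hS : IsChain (· ≤ ·) S) :
    ∃ z, IsGLB S z ∧ z ∈ closure S := by
  classical
  by_cases hmin : ∃ m ∈ S, ∀ s ∈ S, m ≤ s
  · obtain ⟨m, hm, hmin⟩ := hmin
    exact ⟨m, ⟨fun s hs => hmin s hs, fun y hy => hy hm⟩, subset_closure hm⟩
  push Not at hmin
  -- the smallest rank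
  obtain ⟨s₀, hs₀, hs₀r⟩ : ∃ s ∈ S, ∀ t ∈ S, s.y.r ≤ t.y.r := by
    let W : WellFounded ((· < ·) : Rk → Rk → Prop) := wellFounded_lt
    have hne' : ((fun s : X => s.y.r) '' S).Nonempty := hne.image _
    obtain ⟨s, hs, hs'⟩ := W.min_mem _ hne'
    refine ⟨s, hs, fun t ht => ?_⟩
    have h1 := W.not_lt_min ((fun s : X => s.y.r) '' S) (x := t.y.r) ⟨t, ht, rfl⟩
    have hs'' : s.y.r = W.min _ hne' := hs'
    rw [hs'']
    exact not_lt.1 h1
  have hrank : ∀ t ∈ S, t ≤ s₀ → t.y.r = s₀.y.r := fun t ht h =>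
    le_antisymm ((X.le_iff _ _).1 h).1 (hs₀r t ht)
  set U : Set W1 := {m | ∃ s ∈ S, s ≤ s₀ ∧ m ∈ s.y.B} with hU
  have hUl : ∀ m ∈ U, (m : WithTop W1) < s₀.y.l := by
    rintro m ⟨s, hs, hs1, hs2⟩
    have := s.y.sub m hs2
    rw [hrank s hs hs1] at this
    exact this
  -- elements of `U` are eventually in the sets
  have hUe : ∀ m ∈ U, ∃ s ∈ S, ∀ t ∈ S, t ≤ s → m ∈ t.y.B := by
    rintro m ⟨s, hs, hs1, hs2⟩
    refine ⟨s, hs, fun t ht hts => ?_⟩
    refine ((X.le_iff _ _).1 hts).2 m hs2 ?_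
    have h1 : t.y.l = s₀.y.l := congrArg lv (hrank t ht (hts.trans hs1))
    rw [h1]
    exact hUl m ⟨s, hs, hs1, hs2⟩
  -- `U` is infinite
  have hUinf : U.Infinite := by
    intro hfin
    have hfin' : ∀ F : Finset W1, (∀ m ∈ F, m ∈ U) →
        ∃ s ∈ S, ∀ t ∈ S, t ≤ s → ∀ m ∈ F, m ∈ t.y.B := by
      intro F
      induction F using Finset.induction_on with
      | empty =>
        intro _
        exact ⟨s₀, hs₀, fun t _ _ m hm => absurd hm (Finset.notMem_empty m)⟩
      | insert a F _ ih =>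
        intro hF
        obtain ⟨s, hs, h1⟩ := ih fun m hm => hF m (Finset.mem_insert_of_mem hm)
        obtain ⟨s', hs', h2⟩ := hUe a (hF a (Finset.mem_insert_self _ _))
        rcases hS.total hs hs' with h | h
        · refine ⟨s, hs, fun t ht hts m hm => ?_⟩
          rcases Finset.mem_insert.1 hm with rfl | hm
          · exact h2 t ht (hts.trans h)
          · exact h1 t ht hts m hm
        · refine ⟨s', hs', fun t ht hts m hm => ?_⟩
          rcases Finset.mem_insert.1 hm with rfl | hm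
          · exact h2 t ht hts
          · exact h1 t ht (hts.trans h) m hm
    obtain ⟨s, hs, h⟩ := hfin' hfin.toFinset (fun m hm => (Set.Finite.mem_toFinset _).1 hm)
    -- a common lower bound of `s` and `s₀` in `S`
    obtain ⟨t, ht, hts, hts₀⟩ : ∃ t ∈ S, t ≤ s ∧ t ≤ s₀ := by
      rcases hS.total hs hs₀ with h' | h'
      · exact ⟨s, hs, le_rfl, h'⟩
      · exact ⟨s₀, hs₀, h', le_rfl⟩
    obtain ⟨u, hu, hu'⟩ := hmin t ht
    rcases hS.total ht hu with h' | h'
    · exact hu' h'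
    · apply hu'
      rw [X.le_iff]
      refine ⟨?_, fun m hm _ => h t ht hts m ((Set.Finite.mem_toFinset _).2
        ⟨u, hu, h'.trans hts₀, hm⟩)⟩
      rw [hrank t ht hts₀]
      exact hs₀r u hu
  -- the least accumulation point
  have hex : {k : W1 | (U ∩ Iio k).Infinite}.Nonempty := by
    by_contra hcon
    rw [Set.not_nonempty_iff_eq_empty] at hcon
    apply hUinf
    apply finite_of_initial
    intro m
    by_contra h
    have : m ∈ {k : W1 | (U ∩ Iio k).Infinite} := h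
    rw [hcon] at this
    exact this
  let W : WellFounded ((· < ·) : W1 → W1 → Prop) := wellFounded_lt
  obtain ⟨k, hk, hkmin⟩ : ∃ k : W1, (U ∩ Iio k).Infinite ∧ ∀ m < k, (U ∩ Iio m).Finite := by
    refine ⟨W.min _ hex, W.min_mem _ hex, fun m hm => ?_⟩
    by_contra hcon
    exact W.not_lt_min {k : W1 | (U ∩ Iio k).Infinite} (x := m) hcon hm
  have hkl : (k : WithTop W1) ≤ s₀.y.l := by
    by_contra hcon
    rw [not_le] at hcon
    obtain ⟨j, hj⟩ := WithTop.ne_top_iff_exists.1 (lt_top_of_lt hcon).ne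
    rw [← hj] at hcon
    have hjk := WithTop.coe_lt_coe.1 hcon
    apply hk
    refine (hkmin j hjk).subset ?_
    rintro m ⟨hm, -⟩
    have h1 := hUl m hm
    rw [← hj] at h1
    exact ⟨hm, WithTop.coe_lt_coe.1 h1⟩
  have hcof : ∀ m < k, ∃ e ∈ U, m < e ∧ e < k := by
    intro m hm
    by_contra hcon
    push Not at hcon
    apply hk
    refine (((hkmin m hm).union (Set.finite_singleton m))).subset ?_
    rintro n ⟨hn, hn'⟩
    rcases lt_trichotomy n m with h | h | h
    · exact Or.inl ⟨hn, h⟩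
    · exact Or.inr h
    · exact absurd hn' (not_lt.2 (hcon n hn h))
  obtain ⟨e₀, he₀⟩ := hk.nonempty
  -- the infimum
  let z : Pt :=
    { B := U ∩ Iio k
      r := toLex ((k : WithTop W1), 0)
      lim := ⟨⟨e₀, WithTop.coe_lt_coe.2 he₀.2⟩, fun m hm => by
        obtain ⟨e, -, h1, h2⟩ := hcof m (WithTop.coe_lt_coe.1 hm)
        exact ⟨e, h1, WithTop.coe_lt_coe.2 h2⟩⟩
      sub := fun m hm => WithTop.coe_lt_coe.2 hm.2
      fin := fun m hm => (hkmin m (WithTop.coe_lt_coe.1 hm)).subset fun n hn => ⟨hn.1.1, hn.2⟩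
      h2 := Nat.zero_le _
      h1 := fun _ => Nat.zero_le _
      hf := fun h => absurd rfl h }
  have hzl : z.l = (k : WithTop W1) := rfl
  have hzh : z.h = 0 := rfl
  have hzB : z.B = U ∩ Iio k := rfl
  let zx : X := ⟨z, fun h => absurd h.2 (by rw [hzh]; decide)⟩
  have hzr : ∀ t ∈ S, z.r ≤ t.y.r := by
    intro t ht
    refine le_trans ?_ (hs₀r t ht)
    rcases eq_or_lt_of_le hkl with h | h
    · rw [le_iff_of_lv_eq (show lv z.r = lv s₀.y.r from h)]
      exact Nat.zero_le _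
    · exact le_of_lv_lt h
  have hlow : ∀ t ∈ S, zx ≤ t := by
    intro t ht
    rw [X.le_iff]
    refine ⟨hzr t ht, fun m hm hm' => ?_⟩
    have hmk : m < k := WithTop.coe_lt_coe.1 hm'
    refine ⟨?_, hmk⟩
    rcases hS.total ht hs₀ with h | h
    · exact ⟨t, ht, h, hm⟩
    · refine ⟨s₀, hs₀, le_rfl, ?_⟩
      exact ((X.le_iff _ _).1 h).2 m hm ((WithTop.coe_lt_coe.2 hmk).trans_le hkl)
  refine ⟨zx, ⟨hlow, fun y hy => ?_⟩, X.mem_closure fun μ hμ => ?_⟩
  · -- greatest lower bound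
    have hUy : ∀ m ∈ U, (m : WithTop W1) < y.y.l → m ∈ y.y.B := by
      rintro m ⟨s, hs, hs1, hs2⟩ hm
      exact ((X.le_iff _ _).1 (hy hs)).2 m hs2 hm
    have hyl : y.y.l ≤ (k : WithTop W1) := by
      by_contra hcon
      rw [not_le] at hcon
      apply hk
      refine (y.y.fin k hcon).subset ?_
      rintro m ⟨hm, hm'⟩
      exact ⟨hUy m hm ((WithTop.coe_lt_coe.2 hm').trans hcon), hm'⟩
    rw [X.le_iff]
    refine ⟨?_, fun m hm hm' => hUy m hm.1 hm'⟩
    rcases eq_or_lt_of_le hyl with h | h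
    · rw [le_iff_of_lv_eq (show lv y.y.r = lv zx.y.r from h)]
      have : ht y.y.r = 0 := by
        by_contra hcon
        apply hk
        refine (y.y.hf hcon).subset ?_
        rintro m ⟨hm, hm'⟩
        exact hUy m hm (by rw [h]; exact WithTop.coe_lt_coe.2 hm')
      rw [this]
      exact Nat.zero_le _
    · exact le_of_lv_lt h
  · have hμk : μ < k := WithTop.coe_lt_coe.1 hμ.1
    obtain ⟨s, hs, h⟩ := agree_of_chain (S := S) (U := U) (μ := μ) hne (hkmin μ hμk)
      (fun m hm _ => hUe m hm) hS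
    obtain ⟨t, ht, hts, hts₀⟩ : ∃ t ∈ S, t ≤ s ∧ t ≤ s₀ := by
      rcases hS.total hs hs₀ with h' | h'
      · exact ⟨s, hs, le_rfl, h'⟩
      · exact ⟨s₀, hs₀, h', le_rfl⟩
    refine ⟨t, ht, ?_⟩
    have hinfz : ¬ z.B.Finite := hk
    exact {
      lt := by
        have h1 : t.y.l = s₀.y.l := congrArg lv (hrank t ht hts₀)
        rw [h1]
        exact hμ.1.trans_le hkl
      eq := fun m hm => by
        constructor
        · intro hm'
          exact ⟨⟨t, ht, hts₀, hm'⟩, hm.trans hμk⟩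
        · intro hm'
          exact h t ht hts m hm'.1 hm
      iso := fun hiso => by
        rcases hiso with h1 | h1
        · exact absurd h1.2 (by show ¬ z.h = 1; rw [hzh]; decide)
        · exact absurd h1.2 (by show ¬ z.h = 2; rw [hzh]; decide)
      low := fun _ _ h3 => absurd h3 hinfz
      tau := fun h1 _ => absurd h1 (by show ¬ z.l = ⊤; rw [hzl]; exact WithTop.coe_ne_top)
      zet := fun h1 _ => absurd h1 (by show ¬ z.l = ⊤; rw [hzl]; exact WithTop.coe_ne_top) }

end Q182.HC
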