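import Mathlib
import Pool.Agent.Q182.HCExample3

/-!
# Suprema in maximal chains, and the missing limit point
-/

namespace Q182.HC

open Set Filter Topology

/-- Closing off. -/
lemma exists_closed (g : W1 → W1) (μ : W1) :
    ∃ κ, μ < κ ∧ (∀ m < κ, g m < κ) ∧ ∀ m < κ, ∃ m', m < m' ∧ m' < κ := by
  have step : ∀ a : W1, ∃ b, a < b ∧ ∀ m ≤ a, g m ≤ b := by
    intro a
    obtain ⟨b, hb⟩ := W1.bddAbove_of_countable ((W1.countable_Iic a).image g)
    obtain ⟨c, hc⟩ := exists_gt (max a b)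
    exact ⟨c, (le_max_left _ _).trans_lt hc, fun m hm =>
      (hb _ (mem_image_of_mem _ hm)).trans ((le_max_right _ _).trans hc.le)⟩
  choose f hf1 hf2 using step
  let k : ℕ → W1 := fun n => f^[n] μ
  have hk : ∀ n, k (n + 1) = f (k n) := fun n => Function.iterate_succ_apply' f n μ
  have hb : {b | ∀ n, k n ≤ b}.Nonempty := by
    obtain ⟨b, hb⟩ := W1.bddAbove_of_countable (countable_range k)
    exact ⟨b, fun n => hb _ (mem_range_self n)⟩
  let W : WellFounded ((· < ·) : W1 → W1 → Prop) := wellFounded_lt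
  have hκ1 : ∀ n, k n ≤ W.min _ hb := W.min_mem _ hb
  have hκ2 : ∀ m < W.min _ hb, ∃ n, m < k n := by
    intro m hm
    by_contra hcon
    push Not at hcon
    exact W.not_lt_min {b | ∀ n, k n ≤ b} (x := m) hcon hm
  have hlt : ∀ n, k n < W.min _ hb := fun n =>
    (by rw [hk]; exact hf1 _ : k n < k (n + 1)).trans_le (hκ1 (n + 1))
  refine ⟨W.min _ hb, hlt 0, fun m hm => ?_, fun m hm => ?_⟩
  · obtain ⟨n, hn⟩ := hκ2 m hm
    have h1 : g m ≤ k (n + 1) := by
      rw [hk]
      exact hf2 _ m hn.le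
    exact h1.trans_lt (hlt _)
  · obtain ⟨n, hn⟩ := hκ2 m hm
    exact ⟨k n, hn, hlt n⟩

/-- Finitely many eventual conditions along a chain. -/
lemma chain_finite {C : Set X} (hne : C.Nonempty) (hC : IsChain (· ≤ ·) C) (P : W1 → X → Prop)
    (F : Finset W1) (h : ∀ m ∈ F, ∃ t ∈ C, ∀ s ∈ C, t ≤ s → P m s) :
    ∃ t ∈ C, ∀ s ∈ C, t ≤ s → ∀ m ∈ F, P m s := by
  classical
  induction F using Finset.induction_on with
  | empty =>
    obtain ⟨t, ht⟩ := hne
    exact ⟨t, ht, fun s _ _ m hm => absurd hm (Finset.notMem_empty m)⟩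
  | insert a F _ ih =>
    obtain ⟨t, ht, h1⟩ := ih fun m hm => h m (Finset.mem_insert_of_mem hm)
    obtain ⟨t', ht', h2⟩ := h a (Finset.mem_insert_self _ _)
    rcases hC.total ht ht' with h3 | h3
    · refine ⟨t', ht', fun s hs hts m hm => ?_⟩
      rcases Finset.mem_insert.1 hm with rfl | hm
      · exact h2 s hs hts
      · exact h1 s hs (h3.trans hts) m hm
    · refine ⟨t, ht, fun s hs hts m hm => ?_⟩
      rcases Finset.mem_insert.1 hm with rfl | hm
      · exact h2 s hs (h3.trans hts)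
      · exact h1 s hs hts m hm

/-- Suprema in maximal chains. -/
theorem exists_lub {L C : Set X} (hL : IsMaxChain (· ≤ ·) L) (hCL : C ⊆ L) (hne : C.Nonempty) :
    ∃ z, IsLUB C z ∧ z ∈ closure {x | x ∈ L ∧ ∃ a ∈ C, x ≤ a} := by
  classical
  have hC : IsChain (· ≤ ·) C := hL.1.mono hCL
  by_cases hmax : ∃ m ∈ C, ∀ c ∈ C, c ≤ m
  · obtain ⟨m, hm, hmax⟩ := hmax
    exact ⟨m, ⟨fun c hc => hmax c hc, fun y hy => hy hm⟩, subset_closure ⟨hCL hm, m, hm, le_rfl⟩⟩
  push Not at hmax
  -- the supremum of the levels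
  obtain ⟨l, hl⟩ : ∃ l : WithTop W1, IsLUB ((fun t : X => t.y.l) '' C) l := by
    let W : WellFounded ((· < ·) : WithTop W1 → WithTop W1 → Prop) := wellFounded_lt
    have hne' : (upperBounds ((fun t : X => t.y.l) '' C)).Nonempty := ⟨⊤, fun x _ => le_top⟩
    refine ⟨W.min _ hne', W.min_mem _ hne', fun y hy => ?_⟩
    exact not_lt.1 (W.not_lt_min _ hy)
  have hle : ∀ t ∈ C, t.y.l ≤ l := fun t ht => hl.1 ⟨t, ht, rfl⟩
  have hex : ∀ m : W1, (m : WithTop W1) < l → ∃ t ∈ C, (m : WithTop W1) < t.y.l := by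
    intro m hm
    by_contra hcon
    push Not at hcon
    have hub : (m : WithTop W1) ∈ upperBounds ((fun t : X => t.y.l) '' C) := by
      rintro _ ⟨t, ht, rfl⟩
      exact hcon t ht
    exact absurd (hl.2 hub) (not_le.2 hm)
  -- elements with finite set do not reach the level `l`
  have hnofin : ∀ t ∈ C, t.y.l = l → ¬ t.y.B.Finite := by
    intro t ht htl hfin
    have hfinite : {s | s ∈ C ∧ t ≤ s}.Finite := by
      have hinj : InjOn (fun s : X => (s.y.B, s.y.h)) {s | s ∈ C ∧ t ≤ s} := by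
        intro s hs s' hs' heq
        have h1 : s.y.B = s'.y.B := (Prod.mk.inj heq).1
        have h2 : s.y.h = s'.y.h := (Prod.mk.inj heq).2
        have h3 : s.y.l = l := le_antisymm (hle s hs.1) (htl ▸ lv_mono ((X.le_iff _ _).1 hs.2).1)
        have h4 : s'.y.l = l := le_antisymm (hle s' hs'.1) (htl ▸ lv_mono ((X.le_iff _ _).1 hs'.2).1)
        exact X.ext' (Pt.ext h1 (Rk.ext' (h3.trans h4.symm : lv s.y.r = lv s'.y.r) h2))
      refine Set.Finite.of_finite_image ?_ hinj
      refine ((hfin.finite_subsets).prod (Set.finite_Iic 2)).subset ?_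
      rintro _ ⟨s, hs, rfl⟩
      refine ⟨fun m hm => ?_, s.y.h_le_two⟩
      refine ((X.le_iff _ _).1 hs.2).2 m hm ?_
      have h3 : s.y.l ≤ t.y.l := by
        rw [htl]
        exact hle s hs.1
      exact (s.y.sub m hm).trans_le h3
    obtain ⟨m, hm⟩ := hfinite.exists_maximal ⟨t, ht, le_rfl⟩
    obtain ⟨c, hc, hc'⟩ := hmax m hm.1.1
    rcases hC.total hc hm.1.1 with h | h
    · exact hc' h
    · exact hc' (hm.2 ⟨hc, hm.1.2.trans h⟩ h)
  have hheight : ∀ t ∈ C, t.y.l = l → t.y.h = 0 := by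
    intro t ht htl
    by_contra hcon
    exact hnofin t ht htl (t.y.hf hcon)
  -- the limit set
  set Bs : Set W1 := {m | (m : WithTop W1) < l ∧ ∀ t ∈ C, (m : WithTop W1) < t.y.l → m ∈ t.y.B}
    with hBs
  have hBsfin : ∀ m : W1, (m : WithTop W1) < l → (Bs ∩ Iio m).Finite := by
    intro m hm
    obtain ⟨t, ht, hmt⟩ := hex m hm
    refine (t.y.fin m hmt).subset ?_
    rintro n ⟨hn, hnm⟩
    exact ⟨hn.2 t ht ((WithTop.coe_lt_coe.2 hnm).trans hmt), hnm⟩
  let z : Pt :=
    { B := Bs
      r := toLex (l, 0)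
      lim := by
        constructor
        · obtain ⟨t, ht⟩ := hne
          obtain ⟨m, hm⟩ := t.y.lim.1
          exact ⟨m, lt_of_lt_of_le hm (hle t ht)⟩
        · intro m hm
          obtain ⟨t, ht, hmt⟩ := hex m hm
          obtain ⟨m', hm1, hm2⟩ := t.y.lim.2 m hmt
          exact ⟨m', hm1, lt_of_lt_of_le hm2 (hle t ht)⟩
      sub := fun m hm => hm.1
      fin := hBsfin
      h2 := Nat.zero_le _
      h1 := fun _ => Nat.zero_le _
      hf := fun h => absurd rfl h }
  have hzl : z.l = l := rfl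
  have hzh : z.h = 0 := rfl
  have hzB : z.B = Bs := rfl
  let zx : X := ⟨z, fun h => absurd h.2 (by rw [hzh]; decide)⟩
  have hzr : ∀ t ∈ C, t.y.r ≤ z.r := by
    intro t ht
    rcases eq_or_lt_of_le (hle t ht) with h | h
    · rw [le_iff_of_lv_eq (show lv t.y.r = lv z.r from h)]
      exact (hheight t ht h).le
    · exact le_of_lv_lt h
  refine ⟨zx, ⟨fun t ht => ?_, fun y hy => ?_⟩, X.mem_closure fun μ hμ => ?_⟩
  · rw [X.le_iff]
    exact ⟨hzr t ht, fun m hm hmt => hm.2 t ht hmt⟩
  · rw [X.le_iff]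
    have hly : l ≤ y.y.l := by
      apply hl.2
      rintro _ ⟨t, ht, rfl⟩
      exact lv_mono ((X.le_iff _ _).1 (hy ht)).1
    refine ⟨?_, fun m hm hm' => ⟨hm', fun t ht hmt => ((X.le_iff _ _).1 (hy ht)).2 m hm hmt⟩⟩
    rcases eq_or_lt_of_le hly with h | h
    · rw [le_iff_of_lv_eq (show lv zx.y.r = lv y.y.r from h)]
      exact Nat.zero_le _
    · exact le_of_lv_lt h
  -- the closure
  have hziso : ¬ z.Iso := by
    rintro (h | h)
    · exact absurd h.2 (by rw [hzh]; decide)
    · exact absurd h.2 (by rw [hzh]; decide)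
  by_cases htop : l = ⊤
  swap
  · -- the supremum has level below `⊤`: the chain converges
    obtain ⟨t₀, ht₀, hμt₀⟩ := hex μ hμ.1
    have hfin := t₀.y.fin μ hμt₀
    obtain ⟨t, ht, h⟩ := chain_finite hne hC (fun m s => m ∈ s.y.B → m ∈ Bs) hfin.toFinset (by
      intro m hm
      have hm' : m ∈ t₀.y.B ∩ Iio μ := (Set.Finite.mem_toFinset _).1 hm
      by_cases hmB : m ∈ Bs
      · exact ⟨t₀, ht₀, fun _ _ _ _ => hmB⟩
      · have hml : (m : WithTop W1) < l := (WithTop.coe_lt_coe.2 hm'.2).trans hμ.1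
        have : ∃ t ∈ C, (m : WithTop W1) < t.y.l ∧ m ∉ t.y.B := by
          by_contra hcon
          push Not at hcon
          exact hmB ⟨hml, hcon⟩
        obtain ⟨t, ht, h1, h2⟩ := this
        refine ⟨t, ht, fun s _ hts hms => absurd ?_ h2⟩
        exact ((X.le_iff _ _).1 hts).2 m hms h1)
    obtain ⟨s, hs, hst, hst₀⟩ : ∃ s ∈ C, t ≤ s ∧ t₀ ≤ s := by
      rcases hC.total ht ht₀ with h' | h'
      · exact ⟨t₀, ht₀, h', le_rfl⟩
      · exact ⟨t, ht, le_rfl, h'⟩
    refine ⟨s, ⟨hCL hs, s, hs, le_rfl⟩, ?_⟩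
    have hμs : (μ : WithTop W1) < s.y.l := hμt₀.trans_le (lv_mono ((X.le_iff _ _).1 hst₀).1)
    exact {
      lt := hμs
      eq := fun m hm => by
        constructor
        · intro hms
          refine h s hs hst m ?_ hms
          rw [Set.Finite.mem_toFinset]
          exact ⟨((X.le_iff _ _).1 hst₀).2 m hms ((WithTop.coe_lt_coe.2 hm).trans hμt₀), hm⟩
        · intro hmz
          exact hmz.2 s hs ((WithTop.coe_lt_coe.2 hm).trans hμs)
      iso := fun h1 => absurd h1 hziso
      low := fun _ _ _ => Or.inl (hzr s hs)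
      tau := fun h1 _ => absurd h1 (by show ¬ z.l = ⊤; rw [hzl]; exact htop)
      zet := fun h1 _ => absurd h1 (by show ¬ z.l = ⊤; rw [hzl]; exact htop) }
  · -- the supremum has level `⊤`: closing off
    have hG : ∀ n : W1, ∃ k : W1, ∀ y ∈ L, (k : WithTop W1) < y.y.l → n ∈ y.y.B → n ∈ Bs := by
      intro n
      by_cases hn : n ∈ Bs
      · exact ⟨n, fun _ _ _ _ => hn⟩
      · have : ∃ t ∈ C, (n : WithTop W1) < t.y.l ∧ n ∉ t.y.B := by
          by_contra hcon
          push Not at hcon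
          exact hn ⟨by rw [htop]; exact WithTop.coe_lt_top n, hcon⟩
        obtain ⟨t, ht, h1, h2⟩ := this
        have httop : t.y.l ≠ ⊤ := by
          intro h
          exact hnofin t ht (h.trans htop.symm) (Pt.finite_of_top h)
        obtain ⟨k, hk⟩ := WithTop.ne_top_iff_exists.1 httop
        refine ⟨k, fun y hy hky hny => absurd ?_ h2⟩
        rcases hL.1.total hy (hCL ht) with h | h
        · have h3 : y.y.l ≤ t.y.l := lv_mono ((X.le_iff _ _).1 h).1
          rw [hk] at hky
          exact absurd h3 (not_le.2 hky)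
        · exact ((X.le_iff _ _).1 h).2 n hny h1
    choose g hg using hG
    obtain ⟨κ, hμκ, hκ1, hκ2⟩ := exists_closed g μ
    have hBfin : Bs.Finite := finite_of_initial fun m => hBsfin m (by
      rw [htop]
      exact WithTop.coe_lt_top m)
    have hBμ : ∀ m ∈ Bs, m < μ := hμ.2 hBfin
    let p : Pt :=
      { B := Bs
        r := toLex ((κ : WithTop W1), 1)
        lim := ⟨⟨μ, WithTop.coe_lt_coe.2 hμκ⟩, fun m hm => by
          obtain ⟨m', h1, h2⟩ := hκ2 m (WithTop.coe_lt_coe.1 hm)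
          exact ⟨m', h1, WithTop.coe_lt_coe.2 h2⟩⟩
        sub := fun m hm => WithTop.coe_lt_coe.2 ((hBμ m hm).trans hμκ)
        fin := fun m _ => hBfin.subset inter_subset_left
        h2 := by show 1 ≤ 2; decide
        h1 := fun _ => le_rfl
        hf := fun _ => hBfin }
    have hpl : p.l = (κ : WithTop W1) := rfl
    have hph : p.h = 1 := rfl
    let px : X := ⟨p, fun h => absurd h.1 (by rw [hpl]; exact WithTop.coe_ne_top)⟩
    have hpy : ∀ y ∈ L, (κ : WithTop W1) < y.y.l → px ≤ y := by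
      intro y hy hκy
      rw [X.le_iff]
      refine ⟨le_of_lv_lt hκy, fun m hm hmp => ?_⟩
      have hmκ : m < κ := WithTop.coe_lt_coe.1 hmp
      exact hg m y hy ((WithTop.coe_lt_coe.2 (hκ1 m hmκ)).trans hκy) hm
    have hyp : ∀ y ∈ L, ¬ (κ : WithTop W1) < y.y.l → y ≤ px := by
      intro y hy hκy
      rw [not_lt] at hκy
      have hytop : y.y.l ≠ ⊤ := (hκy.trans_lt (WithTop.coe_lt_top κ)).ne
      obtain ⟨j, hj⟩ := WithTop.ne_top_iff_exists.1 hytop
      obtain ⟨a, ha, haj⟩ := hex j (by rw [htop]; exact WithTop.coe_lt_top j)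
      have hya : y ≤ a := by
        rcases hL.1.total hy (hCL ha) with h | h
        · exact h
        · have h3 : a.y.l ≤ y.y.l := lv_mono ((X.le_iff _ _).1 h).1
          rw [hj] at haj
          exact absurd h3 (not_le.2 haj)
      rw [X.le_iff]
      constructor
      · rcases eq_or_lt_of_le hκy with h | h
        · rw [le_iff_of_lv_eq (show lv y.y.r = lv px.y.r from h)]
          exact y.y.h_le_one hytop
        · exact le_of_lv_lt h
      · intro m hm hmy
        refine ((X.le_iff _ _).1 hya).2 m ?_ hmy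
        exact hm.2 a ha (hmy.trans_le (lv_mono ((X.le_iff _ _).1 hya).1))
    have hpL : px ∈ L := by
      have hch : IsChain (· ≤ ·) (insert px L) := hL.1.insert fun y hy _ => by
        by_cases h : (κ : WithTop W1) < y.y.l
        · exact Or.inl (hpy y hy h)
        · exact Or.inr (hyp y hy h)
      rw [hL.2 hch (subset_insert _ L)]
      exact mem_insert _ L
    obtain ⟨a, ha, haκ⟩ := hex κ (by rw [htop]; exact WithTop.coe_lt_top κ)
    refine ⟨px, ⟨hpL, a, ha, hpy a (hCL ha) haκ⟩, ?_⟩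
    exact {
      lt := by
        show (μ : WithTop W1) < p.l
        rw [hpl]
        exact WithTop.coe_lt_coe.2 hμκ
      eq := fun m _ => Iff.rfl
      iso := fun h1 => absurd h1 hziso
      low := fun h1 _ _ => absurd htop h1
      tau := fun _ _ => Or.inl ⟨by
        show p.l ≠ ⊤
        rw [hpl]
        exact WithTop.coe_ne_top, hph⟩
      zet := fun _ h1 => absurd h1 (by show ¬ z.h = 1; rw [hzh]; decide) }

/-- Every maximal chain is `s`-complete. -/
theorem maxChain_sComplete (L : Set X) (hL : IsMaxChain (· ≤ ·) L)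
    (hinf : ∀ ⦃x y : X⦄, x ∈ L → y ∈ L → x ⊓ y ∈ L) :
    @IsSComplete ↥L (Subtype.semilatticeInf hinf) inferInstance := by
  let _ : SemilatticeInf ↥L := Subtype.semilatticeInf hinf
  refine ⟨fun S hS _ => ?_, fun C hC hchain => ?_⟩
  · have hSL : Subtype.val '' S ⊆ L := by rintro _ ⟨x, _, rfl⟩; exact x.2
    obtain ⟨z, hz, hcl⟩ := exists_glb (S := Subtype.val '' S) (hS.image _) (hL.1.mono hSL)
    have hzL : z ∈ L := glb_mem hL hSL hz
    refine ⟨⟨z, hzL⟩, ⟨fun s hs => hz.1 (mem_image_of_mem _ hs), fun y hy => hz.2 ?_⟩, ?_⟩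
    · rintro _ ⟨s, hs, rfl⟩
      exact hy hs
    · rw [closure_subtype]
      refine closure_mono ?_ hcl
      rintro _ ⟨s, hs, rfl⟩
      exact ⟨s, ⟨s, hs, le_refl _⟩, rfl⟩
  · have hCL : Subtype.val '' C ⊆ L := by rintro _ ⟨x, _, rfl⟩; exact x.2
    obtain ⟨z, hz, hcl⟩ := exists_lub hL hCL (hC.image _)
    have hzL : z ∈ L := lub_mem hL hCL hz
    refine ⟨⟨z, hzL⟩, ⟨fun s hs => hz.1 (mem_image_of_mem _ hs), fun y hy => hz.2 ?_⟩, ?_⟩
    · rintro _ ⟨s, hs, rfl⟩
      exact hy hs
    · rw [closure_subtype]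
      refine closure_mono ?_ hcl
      rintro x ⟨hx, _, ⟨s, hs, rfl⟩, hsx⟩
      exact ⟨⟨x, hx⟩, ⟨s, hs, hsx⟩, rfl⟩

/-- An `s`-complete topological semilattice is `c`-complete. -/
theorem cComplete_of_sComplete {Z : Type} [SemilatticeInf Z] [TopologicalSpace Z]
    (h : IsSComplete Z) : IsCComplete Z := by
  intro F hF hFu C hCF hne hC
  refine ⟨?_, h.2 C hne hC⟩
  obtain ⟨i, hi, hcl⟩ := h.1 C hne (fun x hx y hy => by
    rcases hC.total hx hy with h | h
    · rw [inf_eq_left.2 h]
      exact hx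
    · rw [inf_eq_right.2 h]
      exact hy)
  refine ⟨i, hF.closure_subset_iff.2 ?_ hcl, hi⟩
  rintro x ⟨a, ha, hax⟩
  exact hFu hax (hCF ha)

/-- The image of the inclusion is not closed. -/
theorem not_isClosed_range : ¬ IsClosed (range X.y) := by
  intro h
  have hlim : Lim ⊤ := ⟨⟨Classical.arbitrary W1, WithTop.coe_lt_top _⟩, fun m _ => by
    obtain ⟨m', hm'⟩ := exists_gt m
    exact ⟨m', hm', WithTop.coe_lt_top _⟩⟩
  let z : Pt :=
    { B := ∅
      r := toLex (⊤, 1)
      lim := hlim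
      sub := fun m hm => absurd hm (Set.notMem_empty m)
      fin := fun m _ => by rw [Set.empty_inter]; exact Set.finite_empty
      h2 := by show 1 ≤ 2; decide
      h1 := fun h => absurd rfl h
      hf := fun _ => Set.finite_empty }
  have hzl : z.l = ⊤ := rfl
  have hzh : z.h = 1 := rfl
  have hcl : z ∈ closure (range X.y) := by
    rw [mem_closure_iff_nhds]
    intro U hU
    obtain ⟨μ, hμ, hμU⟩ := mem_nhds_iff'.1 hU
    let x : Pt :=
      { B := {μ}
        r := toLex (⊤, 2)
        lim := hlim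
        sub := fun m _ => WithTop.coe_lt_top m
        fin := fun m _ => (Set.finite_singleton μ).subset inter_subset_left
        h2 := le_rfl
        h1 := fun h => absurd rfl h
        hf := fun _ => Set.finite_singleton μ }
    have hxh : x.h = 2 := rfl
    refine ⟨x, hμU x ?_, ⟨⟨x, fun h => absurd h.2 (by rw [hxh]; decide)⟩, rfl⟩⟩
    exact {
      lt := WithTop.coe_lt_top μ
      eq := fun m hm => by
        constructor
        · intro hm'
          exact absurd (Set.mem_singleton_iff.1 hm') hm.ne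
        · intro hm'
          exact absurd hm' (Set.notMem_empty m)
      iso := fun h1 => by
        rcases h1 with h1 | h1
        · exact absurd hzl h1.1
        · exact absurd (hzh.symm.trans h1.2) (by decide)
      low := fun h1 _ _ => absurd hzl h1
      tau := fun _ h1 => absurd (hzh.symm.trans h1) (by decide)
      zet := fun _ _ => ⟨rfl, by rw [hxh]; decide, fun _ hcon => by
        have h2 : μ ∈ z.B := by
          rw [← hcon]
          exact Set.mem_singleton μ
        exact absurd h2 (Set.notMem_empty μ)⟩ }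
  obtain ⟨x, hx⟩ := h.closure_subset hcl
  apply x.2
  have hx' : x.1 = z := hx
  rw [hx']
  exact ⟨hzl, hzh⟩

end Q182.HC
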