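import Mathlib

/-!
# A unimodular Hermitian form of rank nine over `ℤ[t, t⁻¹]`

The form `L` of rank nine is the orthogonal complement of a copy of `H₂` in `I₉ ⊕ H₂`. At `t = 1` it
is `I₉`, at `t = -1` it is `E₈ ⊕ ⟨1⟩`.
-/

namespace Q182.HZ

open LaurentPolynomial Matrix

/-- Laurent polynomials. -/
abbrev Lam : Type := LaurentPolynomial ℤ

/-- Lists of pairs (exponent, coefficient). -/
abbrev PL : Type := List (ℤ × ℤ)

/-- The Laurent polynomial of a list. -/
noncomputable def ev (a : PL) : Lam := (a.map fun p => C p.2 * T p.1).sum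

/-- The product of lists. -/
def mulL (a b : PL) : PL := a.flatMap fun p => b.map fun q => (p.1 + q.1, p.2 * q.2)

lemma ev_nil : ev [] = 0 := rfl

lemma ev_cons (p : ℤ × ℤ) (a : PL) : ev (p :: a) = C p.2 * T p.1 + ev a := by
  unfold ev
  rw [List.map_cons, List.sum_cons]

lemma ev_append (a b : PL) : ev (a ++ b) = ev a + ev b := by
  unfold ev
  rw [List.map_append, List.sum_append]

lemma ev_map_mul (p : ℤ × ℤ) (b : PL) :
    ev (b.map fun q => (p.1 + q.1, p.2 * q.2)) = C p.2 * T p.1 * ev b := by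
  induction b with
  | nil => rw [List.map_nil, ev_nil, mul_zero]
  | cons q b ih =>
    rw [List.map_cons, ev_cons, ev_cons, ih, map_mul, T_add]
    ring

lemma ev_mul (a b : PL) : ev (mulL a b) = ev a * ev b := by
  unfold mulL
  induction a with
  | nil => rw [List.flatMap_nil, ev_nil, zero_mul]
  | cons p a ih => rw [List.flatMap_cons, ev_append, ih, ev_map_mul, ev_cons, add_mul]

/-- The coefficient of a list. -/
def cf (a : PL) (e : ℤ) : ℤ := (a.map fun p => if p.1 = e then p.2 else 0).sum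

lemma coeff_ev (a : PL) (e : ℤ) : (ev a).coeff e = cf a e := by
  induction a with
  | nil => rfl
  | cons p a ih =>
    rw [ev_cons, AddMonoidAlgebra.coeff_add, Finsupp.add_apply, ih]
    unfold cf
    rw [List.map_cons, List.sum_cons]
    congr 1
    rw [← LaurentPolynomial.single_eq_C_mul_T, AddMonoidAlgebra.coeff_single, Finsupp.single_apply]

/-- The window of exponents. -/
def win : List ℤ := [-8, -7, -6, -5, -4, -3, -2, -1, 0, 1, 2, 3, 4, 5, 6, 7, 8]

/-- Equality test. -/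
def eqL (a b : PL) : Bool :=
  (a.all fun p => win.contains p.1) && (b.all fun p => win.contains p.1) &&
    win.all fun e => cf a e == cf b e

lemma cf_eq_zero {a : PL} {e : ℤ} (h : ∀ p ∈ a, p.1 ≠ e) : cf a e = 0 := by
  induction a with
  | nil => rfl
  | cons p a ih =>
    unfold cf
    rw [List.map_cons, List.sum_cons, if_neg (h p List.mem_cons_self), zero_add]
    exact ih fun q hq => h q (List.mem_cons_of_mem _ hq)

lemma ev_eq {a b : PL} (h : eqL a b = true) : ev a = ev b := by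
  unfold eqL at h
  rw [Bool.and_eq_true, Bool.and_eq_true, List.all_eq_true, List.all_eq_true, List.all_eq_true] at h
  obtain ⟨⟨h1, h2⟩, h3⟩ := h
  ext e
  rw [coeff_ev, coeff_ev]
  by_cases he : e ∈ win
  · exact eq_of_beq (h3 e he)
  · rw [cf_eq_zero, cf_eq_zero]
    · rintro p hp rfl
      exact he (List.elem_iff.1 (h2 p hp))
    · rintro p hp rfl
      exact he (List.elem_iff.1 (h1 p hp))

/-- The conjugate. -/
def barL (a : PL) : PL := a.map fun p => (-p.1, p.2)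

/-- The index set. -/
abbrev II : Type := Fin 9 ⊕ Fin 2 × Fin 1

/-- The list of all indices. -/
def allI : List II := (List.finRange 9).map Sum.inl ++ (List.finRange 2).map fun a => Sum.inr (a, 0)

lemma mem_allI (i : II) : i ∈ allI := by
  unfold allI
  rw [List.mem_append]
  rcases i with i | ⟨a, b⟩
  · exact Or.inl (List.mem_map_of_mem (List.mem_finRange i))
  · right
    rw [Subsingleton.elim b 0]
    exact List.mem_map_of_mem (List.mem_finRange a)

lemma nodup_allI : allI.Nodup := by decide +kernel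

lemma sum_allI (f : II → Lam) : ∑ i, f i = (allI.map f).sum := by
  rw [← List.sum_toFinset f nodup_allI]
  refine Finset.sum_congr ?_ fun _ _ => rfl
  ext i
  simp [mem_allI]

/-- The product of matrices of lists. -/
def mulM (A B : II → II → PL) (i j : II) : PL := allI.flatMap fun k => mulL (A i k) (B k j)

lemma ev_flatMap (l : List II) (f : II → PL) : ev (l.flatMap f) = (l.map fun i => ev (f i)).sum := by
  induction l with
  | nil => rfl
  | cons i l ih => rw [List.flatMap_cons, ev_append, ih, List.map_cons, List.sum_cons]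

/-- The matrix of a matrix of lists. -/
noncomputable def toM (A : II → II → PL) : Matrix II II Lam := Matrix.of fun i j => ev (A i j)

lemma toM_mul (A B : II → II → PL) : toM A * toM B = toM (mulM A B) := by
  ext1 i j
  rw [Matrix.mul_apply]
  show ∑ k, ev (A i k) * ev (B k j) = ev (mulM A B i j)
  unfold mulM
  rw [ev_flatMap, sum_allI]
  congr 1
  apply List.map_congr_left
  intro k _
  exact (ev_mul _ _).symm

/-- Equality test for matrices. -/
def eqM (A B : II → II → PL) : Bool := allI.all fun i => allI.all fun j => eqL (A i j) (B i j)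

lemma toM_eq {A B : II → II → PL} (h : eqM A B = true) : toM A = toM B := by
  unfold eqM at h
  rw [List.all_eq_true] at h
  ext1 i j
  have h1 := h i (mem_allI i)
  rw [List.all_eq_true] at h1
  exact ev_eq (h1 j (mem_allI j))

/-- The number of an index. -/
def num : II → ℕ
  | Sum.inl i => i
  | Sum.inr p => 9 + p.1

/-- Reading the data. -/
def getM (d : List (List PL)) (i j : ℕ) : PL := (d.getD i []).getD j []

/-- The coefficients of the matrix `U`. -/
def dU : List (List PL) := [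
  [[(0, 1)], [], [], [], [], [], [], [], [], [(-1, 1), (0, -2), (1, 1)], [(0, -1), (1, 1)]],
  [[], [(0, -1)], [(0, -1)], [(0, -1)], [(0, -1)], [(0, -1)], [(0, -1)], [(0, -1)], [(-1, 1)], [(0, -1), (1, 1)], [(0, -1), (1, 1)]],
  [[(0, 1)], [(0, 1)], [], [], [], [], [], [], [], [(0, -1), (1, 1)], [(0, -1), (1, 1)]],
  [[(0, 1)], [], [(0, 1)], [], [], [], [], [], [], [(0, -1), (1, 1)], [(0, -1), (1, 1)]],
  [[], [], [], [(0, 1)], [], [], [], [], [(0, -1)], [(0, -1), (1, 1)], [(0, -1), (1, 1)]],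
  [[], [], [], [], [(0, 1)], [], [], [], [(0, -1)], [(0, -1), (1, 1)], [(0, -1), (1, 1)]],
  [[], [], [], [], [], [(0, 1)], [], [], [], [(0, -1), (1, 1)], [(0, -1), (1, 1)]],
  [[], [], [], [], [], [], [(0, 1)], [], [], [(0, -1), (1, 1)], [(0, -1), (1, 1)]],
  [[], [], [], [], [], [], [], [(0, 1)], [], [(0, -1), (1, 1)], [(0, -1), (1, 1)]],
  [[], [], [], [], [], [], [], [], [(0, 1)], [(0, 1), (1, -3)], [(1, -3)]],
  [[(0, -1)], [], [], [], [], [], [], [], [], [(0, 2), (1, -1)], [(0, 2), (1, -1)]]]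

/-- The coefficients of the inverse of `U`. -/
def dP : List (List PL) := [
  [[(-1, -2), (0, 5), (1, -2)], [(-1, -2), (0, 3), (1, -1)], [(-1, -2), (0, 3), (1, -1)], [(-1, -2), (0, 3), (1, -1)], [(-1, -2), (0, 3), (1, -1)], [(-1, -2), (0, 3), (1, -1)], [(-1, -2), (0, 3), (1, -1)], [(-1, -2), (0, 3), (1, -1)], [(-1, -2), (0, 3), (1, -1)], [(-2, 2), (-1, -7), (0, 7), (1, -2)], [(-1, -6), (0, 10), (1, -4)]],
  [[(-1, 1), (0, -2)], [(-1, 1), (0, -1)], [(-1, 1)], [(-1, 1), (0, -1)], [(-1, 1), (0, -1)], [(-1, 1), (0, -1)], [(-1, 1), (0, -1)], [(-1, 1), (0, -1)], [(-1, 1), (0, -1)], [(-2, -1), (-1, 3), (0, -2)], [(-1, 3), (0, -3)]],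
  [[(-1, 1), (0, -2)], [(-1, 1), (0, -1)], [(-1, 1), (0, -1)], [(-1, 1)], [(-1, 1), (0, -1)], [(-1, 1), (0, -1)], [(-1, 1), (0, -1)], [(-1, 1), (0, -1)], [(-1, 1), (0, -1)], [(-2, -1), (-1, 3), (0, -2)], [(-1, 3), (0, -3)]],
  [[(-1, -1), (0, -1), (1, 4)], [(-1, -1), (0, -2), (1, 2)], [(-1, -1), (0, -2), (1, 2)], [(-1, -1), (0, -2), (1, 2)], [(-1, -1), (0, -1), (1, 2)], [(-1, -1), (0, -2), (1, 2)], [(-1, -1), (0, -2), (1, 2)], [(-1, -1), (0, -2), (1, 2)], [(-1, -1), (0, -2), (1, 2)], [(-2, 1), (0, -5), (1, 4)], [(-1, -3), (0, -5), (1, 8)]],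
  [[(-1, -1), (0, -1), (1, 4)], [(-1, -1), (0, -2), (1, 2)], [(-1, -1), (0, -2), (1, 2)], [(-1, -1), (0, -2), (1, 2)], [(-1, -1), (0, -2), (1, 2)], [(-1, -1), (0, -1), (1, 2)], [(-1, -1), (0, -2), (1, 2)], [(-1, -1), (0, -2), (1, 2)], [(-1, -1), (0, -2), (1, 2)], [(-2, 1), (0, -5), (1, 4)], [(-1, -3), (0, -5), (1, 8)]],
  [[(-1, -1), (0, 3), (1, -2)], [(-1, -1), (0, 2), (1, -1)], [(-1, -1), (0, 2), (1, -1)], [(-1, -1), (0, 2), (1, -1)], [(-1, -1), (0, 2), (1, -1)], [(-1, -1), (0, 2), (1, -1)], [(-1, -1), (0, 3), (1, -1)], [(-1, -1), (0, 2), (1, -1)], [(-1, -1), (0, 2), (1, -1)], [(-2, 1), (-1, -4), (0, 5), (1, -2)], [(-1, -3), (0, 7), (1, -4)]],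
  [[(-1, -1), (0, 3), (1, -2)], [(-1, -1), (0, 2), (1, -1)], [(-1, -1), (0, 2), (1, -1)], [(-1, -1), (0, 2), (1, -1)], [(-1, -1), (0, 2), (1, -1)], [(-1, -1), (0, 2), (1, -1)], [(-1, -1), (0, 2), (1, -1)], [(-1, -1), (0, 3), (1, -1)], [(-1, -1), (0, 2), (1, -1)], [(-2, 1), (-1, -4), (0, 5), (1, -2)], [(-1, -3), (0, 7), (1, -4)]],
  [[(-1, -1), (0, 3), (1, -2)], [(-1, -1), (0, 2), (1, -1)], [(-1, -1), (0, 2), (1, -1)], [(-1, -1), (0, 2), (1, -1)], [(-1, -1), (0, 2), (1, -1)], [(-1, -1), (0, 2), (1, -1)], [(-1, -1), (0, 2), (1, -1)], [(-1, -1), (0, 2), (1, -1)], [(-1, -1), (0, 3), (1, -1)], [(-2, 1), (-1, -4), (0, 5), (1, -2)], [(-1, -3), (0, 7), (1, -4)]],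
  [[(0, -4), (1, 6)], [(0, -4), (1, 3)], [(0, -4), (1, 3)], [(0, -4), (1, 3)], [(0, -4), (1, 3)], [(0, -4), (1, 3)], [(0, -4), (1, 3)], [(0, -4), (1, 3)], [(0, -4), (1, 3)], [(-1, 4), (0, -10), (1, 6)], [(0, -12), (1, 12)]],
  [[(0, 1)], [(0, 1)], [(0, 1)], [(0, 1)], [(0, 1)], [(0, 1)], [(0, 1)], [(0, 1)], [(0, 1)], [(-1, -1), (0, 2)], [(0, 3)]],
  [[(-1, -1), (0, 1)], [(-1, -1)], [(-1, -1)], [(-1, -1)], [(-1, -1)], [(-1, -1)], [(-1, -1)], [(-1, -1)], [(-1, -1)], [(-2, 1), (-1, -2)], [(-1, -3), (0, 1)]]]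

/-- The coefficients of the form `L`. -/
def dL : List (List PL) := [
  [[(0, 3)], [(0, 1)], [(0, 1)], [], [], [], [], [], [(-1, -1), (0, 1)]],
  [[(0, 1)], [(0, 2)], [(0, 1)], [(0, 1)], [(0, 1)], [(0, 1)], [(0, 1)], [(0, 1)], [(-1, -1)]],
  [[(0, 1)], [(0, 1)], [(0, 2)], [(0, 1)], [(0, 1)], [(0, 1)], [(0, 1)], [(0, 1)], [(-1, -1)]],
  [[], [(0, 1)], [(0, 1)], [(0, 2)], [(0, 1)], [(0, 1)], [(0, 1)], [(0, 1)], [(-1, -1), (0, -1)]],
  [[], [(0, 1)], [(0, 1)], [(0, 1)], [(0, 2)], [(0, 1)], [(0, 1)], [(0, 1)], [(-1, -1), (0, -1)]],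
  [[], [(0, 1)], [(0, 1)], [(0, 1)], [(0, 1)], [(0, 2)], [(0, 1)], [(0, 1)], [(-1, -1)]],
  [[], [(0, 1)], [(0, 1)], [(0, 1)], [(0, 1)], [(0, 1)], [(0, 2)], [(0, 1)], [(-1, -1)]],
  [[], [(0, 1)], [(0, 1)], [(0, 1)], [(0, 1)], [(0, 1)], [(0, 1)], [(0, 2)], [(-1, -1)]],
  [[(0, 1), (1, -1)], [(1, -1)], [(1, -1)], [(0, -1), (1, -1)], [(0, -1), (1, -1)], [(1, -1)], [(1, -1)], [(1, -1)], [(0, 3)]]]

/-- The matrix `U`. -/
def mU (i j : II) : PL := getM dU (num i) (num j)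

/-- Its inverse. -/
def mP (i j : II) : PL := getM dP (num i) (num j)

/-- The form `H₂`. -/
def dH (a b : Fin 2) : PL :=
  if a = 0 ∧ b = 1 then [(1, 1), (0, -1)] else if a = 1 ∧ b = 0 then [(-1, 1), (0, -1)] else []

/-- The form `L ⊕ H₂`. -/
def mLH : II → II → PL
  | Sum.inl i, Sum.inl j => getM dL i j
  | Sum.inr p, Sum.inr q => if p.2 = q.2 then dH p.1 q.1 else []
  | _, _ => []

/-- The form `I₉ ⊕ H₂`. -/
def mM : II → II → PL
  | Sum.inl i, Sum.inl j => if i = j then [(0, 1)] else []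
  | Sum.inr p, Sum.inr q => if p.2 = q.2 then dH p.1 q.1 else []
  | _, _ => []

/-- The identity. -/
def mI (i j : II) : PL := if i = j then [(0, 1)] else []

/-- The conjugate transpose. -/
def starM (A : II → II → PL) (i j : II) : PL := barL (A j i)

lemma check_one : eqM (mulM mP mU) mI = true := by decide +kernel

lemma check_two : eqM (mulM (starM mU) (mulM mM mU)) mLH = true := by decide +kernel

lemma check_three : eqM (starM mLH) mLH = true := by decide +kernel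

end Q182.HZ
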