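import Mathlib
import Pool.Agent.Q182.HZData

/-!
# The form `L` is a stably trivial, non-trivial form
-/

namespace Q182.HZ

open LaurentPolynomial Matrix

section sigma

variable {σ : Lam →+* Lam}

lemma sigma_C (c : ℤ) : σ (C c) = C c := by
  have h : (C c : Lam) = (c : Lam) := by simp
  rw [h, map_intCast]

lemma sigma_T (h : σ (T 1) = T (-1)) (n : ℤ) : σ (T n) = T (-n) := by
  have hnat : ∀ k : ℕ, σ (T (k : ℤ)) = T (-(k : ℤ)) := by
    intro k
    induction k with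
    | zero => simp
    | succ k ih =>
      rw [Nat.cast_succ, T_add, map_mul, ih, h, ← T_add]
      congr 1
      ring
  obtain ⟨k, rfl | rfl⟩ := n.eq_nat_or_neg
  · exact hnat k
  · rw [neg_neg]
    have h1 : σ (T (-(k : ℤ))) * σ (T (k : ℤ)) = 1 := by
      rw [← map_mul, ← T_add, neg_add_cancel, T_zero, map_one]
    rw [hnat] at h1
    have h2 : (T (-(k : ℤ)) : Lam) * T (k : ℤ) = 1 := by rw [← T_add, neg_add_cancel, T_zero]
    calc σ (T (-(k : ℤ))) = σ (T (-(k : ℤ))) * (T (-(k : ℤ)) * T (k : ℤ)) := by rw [h2, mul_one]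
      _ = (σ (T (-(k : ℤ))) * T (-(k : ℤ))) * T (k : ℤ) := by rw [mul_assoc]
      _ = T (k : ℤ) := by rw [h1, one_mul]

lemma sigma_ev (h : σ (T 1) = T (-1)) (a : PL) : σ (ev a) = ev (barL a) := by
  induction a with
  | nil => exact map_zero σ
  | cons p a ih =>
    have h2 : barL (p :: a) = (-p.1, p.2) :: barL a := rfl
    rw [h2, ev_cons, ev_cons, map_add, map_mul, sigma_C, sigma_T h, ih]

/-- The conjugate transpose of a matrix. -/
noncomputable def ct {m n : Type} (σ : Lam →+* Lam) (A : Matrix m n Lam) : Matrix n m Lam := (A.map σ)ᵀ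

lemma ct_mul {m n k : Type} [Fintype n] (A : Matrix m n Lam) (B : Matrix n k Lam) :
    ct σ (A * B) = ct σ B * ct σ A := by
  unfold ct
  rw [Matrix.map_mul, Matrix.transpose_mul]

lemma ct_one {m : Type} [DecidableEq m] : ct σ (1 : Matrix m m Lam) = 1 := by
  unfold ct
  rw [Matrix.map_one σ (map_zero σ) (map_one σ), Matrix.transpose_one]

lemma ct_toM (h : σ (T 1) = T (-1)) (A : II → II → PL) : ct σ (toM A) = toM (starM A) := by
  ext1 i j
  exact sigma_ev h _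

end sigma

lemma toM_mI : toM mI = 1 := by
  ext1 i j
  show ev (mI i j) = _
  unfold mI
  rw [Matrix.one_apply]
  split_ifs
  · rw [ev_cons, ev_nil]
    simp
  · rfl

lemma PU : toM mP * toM mU = 1 := by
  rw [toM_mul, toM_eq check_one, toM_mI]

lemma UP : toM mU * toM mP = 1 := mul_eq_one_comm.1 PU

/-- The form. -/
noncomputable def LL : Matrix (Fin 9) (Fin 9) Lam := Matrix.of fun i j => ev (getM dL i j)

/-- The hyperbolic form. -/
noncomputable def HH : Matrix (Fin 2) (Fin 2) Lam := !![0, T 1 - 1; T (-1) - 1, 0]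

lemma ev_dH (a b : Fin 2) : ev (dH a b) = HH a b := by
  unfold HH
  fin_cases a <;> fin_cases b <;> simp [dH, ev, sub_eq_add_neg]

lemma toM_mLH : toM mLH = Matrix.fromBlocks LL 0 0 (Matrix.blockDiagonal fun _ : Fin 1 => HH) := by
  ext1 i j
  show ev (mLH i j) = _
  rcases i with i | ⟨a, b⟩ <;> rcases j with j | ⟨c, d⟩
  · rfl
  · rfl
  · rfl
  · rw [Matrix.fromBlocks_apply₂₂, Matrix.blockDiagonal_apply]
    show ev (if b = d then dH a c else []) = _
    split_ifs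
    · exact ev_dH a c
    · rfl

lemma toM_mM : toM mM = Matrix.fromBlocks ((1 : Matrix (Fin 9) (Fin 9) ℤ).map (Int.castRingHom Lam)) 0 0
    (Matrix.blockDiagonal fun _ : Fin 1 => HH) := by
  ext1 i j
  show ev (mM i j) = _
  rcases i with i | ⟨a, b⟩ <;> rcases j with j | ⟨c, d⟩
  · rw [Matrix.fromBlocks_apply₁₁, Matrix.map_apply, Matrix.one_apply]
    show ev (if i = j then [(0, 1)] else []) = _
    split_ifs
    · rw [ev_cons, ev_nil]
      simp
    · rw [ev_nil, map_zero]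
  · rfl
  · rfl
  · rw [Matrix.fromBlocks_apply₂₂, Matrix.blockDiagonal_apply]
    show ev (if b = d then dH a c else []) = _
    split_ifs
    · exact ev_dH a c
    · rfl

lemma UMU {σ : Lam →+* Lam} (h : σ (T 1) = T (-1)) :
    ct σ (toM mU) * toM mM * toM mU = toM mLH := by
  rw [ct_toM h, mul_assoc, toM_mul, toM_mul, toM_eq check_two]

/-- The stable isometry. -/
lemma stable {σ : Lam →+* Lam} (h : σ (T 1) = T (-1)) :
    ct σ (toM mP) * toM mLH * toM mP = toM mM := by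
  rw [← UMU h]
  have h1 : ct σ (toM mP) * (ct σ (toM mU) * toM mM * toM mU) * toM mP =
      ct σ (toM mU * toM mP) * toM mM * (toM mU * toM mP) := by
    rw [ct_mul]
    simp only [mul_assoc]
  rw [h1, UP, ct_one, one_mul, mul_one]

lemma LL_herm {σ : Lam →+* Lam} (h : σ (T 1) = T (-1)) : ct σ LL = LL := by
  have h1 : ct σ (toM mLH) = toM mLH := by rw [ct_toM h, toM_eq check_three]
  ext1 i j
  exact congrFun (congrFun h1 (Sum.inl i)) (Sum.inl j)

lemma T_one_ne : (T 1 : Lam) - 1 ≠ 0 := by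
  intro h
  have h1 : (T 1 : Lam) = T 0 := by
    rw [T_zero]
    exact sub_eq_zero.1 h
  have h2 := congrArg (fun p : Lam => p.coeff 1) h1
  simp only [LaurentPolynomial.T_apply] at h2
  norm_num at h2

lemma T_neg_one_ne : (T (-1) : Lam) - 1 ≠ 0 := by
  intro h
  have h1 : (T (-1) : Lam) = T 0 := by
    rw [T_zero]
    exact sub_eq_zero.1 h
  have h2 := congrArg (fun p : Lam => p.coeff (-1)) h1
  simp only [LaurentPolynomial.T_apply] at h2
  norm_num at h2

lemma det_HH : HH.det ≠ 0 := by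
  unfold HH
  rw [Matrix.det_fin_two_of, zero_mul, zero_sub, neg_ne_zero]
  exact mul_ne_zero T_one_ne T_neg_one_ne

lemma det_ct {m : Type} [Fintype m] [DecidableEq m] (σ : Lam →+* Lam) (A : Matrix m m Lam) :
    (ct σ A).det = σ A.det := by
  unfold ct
  rw [Matrix.det_transpose]
  exact (RingHom.map_det σ A).symm

lemma isUnit_det_LL {σ : Lam →+* Lam} (h : σ (T 1) = T (-1)) : IsUnit LL.det := by
  have h1 := congrArg Matrix.det (UMU h)
  rw [Matrix.det_mul, Matrix.det_mul, det_ct, toM_mLH, toM_mM, Matrix.det_fromBlocks_zero₂₁,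
    Matrix.det_fromBlocks_zero₂₁, Matrix.det_blockDiagonal, Fin.prod_univ_one,
    Matrix.map_one _ (map_zero _) (map_one _), Matrix.det_one, one_mul] at h1
  have h2 : σ (toM mU).det * (toM mU).det = LL.det := by
    apply mul_right_cancel₀ det_HH
    rw [← h1]
    ring
  have h3 : IsUnit (toM mU).det := by
    have h4 := congrArg Matrix.det PU
    rw [Matrix.det_mul, Matrix.det_one] at h4
    exact IsUnit.of_mul_eq_one _ (by rw [mul_comm]; exact h4)
  rw [← h2]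
  exact (h3.map σ).mul h3

/-! ### The specialization at `t = 1` -/

/-- The form at `t = 1`. -/
def L1 : Matrix (Fin 9) (Fin 9) ℤ := !![3, 1, 1, 0, 0, 0, 0, 0, 0; 1, 2, 1, 1, 1, 1, 1, 1, -1;
  1, 1, 2, 1, 1, 1, 1, 1, -1; 0, 1, 1, 2, 1, 1, 1, 1, -2; 0, 1, 1, 1, 2, 1, 1, 1, -2;
  0, 1, 1, 1, 1, 2, 1, 1, -1; 0, 1, 1, 1, 1, 1, 2, 1, -1; 0, 1, 1, 1, 1, 1, 1, 2, -1;
  0, -1, -1, -2, -2, -1, -1, -1, 3]

/-- The isometry at `t = 1`. -/
def P1 : Matrix (Fin 9) (Fin 9) ℤ := !![1, 0, 0, 0, 0, 0, 0, 0, 0; -1, 0, 1, 0, 0, 0, 0, 0, 0;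
  -1, 0, 0, 1, 0, 0, 0, 0, 0; 2, -1, -1, -1, 0, -1, -1, -1, -1;
  2, -1, -1, -1, -1, 0, -1, -1, -1; 0, 0, 0, 0, 0, 0, 1, 0, 0; 0, 0, 0, 0, 0, 0, 0, 1, 0;
  0, 0, 0, 0, 0, 0, 0, 0, 1; 2, -1, -1, -1, -1, -1, -1, -1, -1]

/-- Its inverse. -/
def B1 : Matrix (Fin 9) (Fin 9) ℤ := !![1, 0, 0, 0, 0, 0, 0, 0, 0;
  0, -1, -1, -1, -1, -1, -1, -1, 1; 1, 1, 0, 0, 0, 0, 0, 0, 0; 1, 0, 1, 0, 0, 0, 0, 0, 0;
  0, 0, 0, 1, 0, 0, 0, 0, -1; 0, 0, 0, 0, 1, 0, 0, 0, -1; 0, 0, 0, 0, 0, 1, 0, 0, 0;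
  0, 0, 0, 0, 0, 0, 1, 0, 0; 0, 0, 0, 0, 0, 0, 0, 1, 0]

lemma P1_B1 : P1 * B1 = 1 := by decide +kernel

lemma B1_P1 : B1 * P1 = 1 := by decide +kernel

lemma P1_L1 : P1ᵀ * L1 * P1 = 1 := by decide +kernel

/-- Evaluation of lists at `t = 1`. -/
def sumL (a : PL) : ℤ := (a.map fun p => p.2).sum

lemma eps_ev {ε : Lam →+* ℤ} (h : ε (T 1) = 1) (a : PL) : ε (ev a) = sumL a := by
  have hC : ∀ c : ℤ, ε (C c) = c := by
    intro c
    have h : (C c : Lam) = (c : Lam) := by simp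
    rw [h, map_intCast]
    rfl
  have hnat : ∀ k : ℕ, ε (T (k : ℤ)) = 1 := by
    intro k
    induction k with
    | zero => simp
    | succ k ih => rw [Nat.cast_succ, T_add, map_mul, ih, h, mul_one]
  have hT : ∀ n : ℤ, ε (T n) = 1 := by
    intro n
    obtain ⟨k, rfl | rfl⟩ := n.eq_nat_or_neg
    · exact hnat k
    · have h1 : ε (T (-(k : ℤ))) * ε (T (k : ℤ)) = 1 := by
        rw [← map_mul, ← T_add, neg_add_cancel, T_zero, map_one]
      rwa [hnat, mul_one] at h1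
  induction a with
  | nil => exact map_zero ε
  | cons p a ih =>
    rw [ev_cons, map_add, map_mul, hC, hT, ih, mul_one]
    rfl

lemma eps_LL {ε : Lam →+* ℤ} (h : ε (T 1) = 1) : LL.map ε = L1 := by
  have h0 : ((List.finRange 9).all fun i => (List.finRange 9).all fun j =>
      sumL (getM dL i j) == L1 i j) = true := by decide +kernel
  have h1 : ∀ i j : Fin 9, sumL (getM dL i j) = L1 i j := by
    intro i j
    rw [List.all_eq_true] at h0
    have h2 := h0 i (List.mem_finRange i)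
    rw [List.all_eq_true] at h2
    exact eq_of_beq (h2 j (List.mem_finRange j))
  ext1 i j
  rw [← h1]
  exact eps_ev h _

/-! ### The specialization at `t = -1` -/

/-- The form at `t = -1`. -/
def G : Matrix (Fin 9) (Fin 9) ℤ := !![3, 1, 1, 0, 0, 0, 0, 0, 2; 1, 2, 1, 1, 1, 1, 1, 1, 1;
  1, 1, 2, 1, 1, 1, 1, 1, 1; 0, 1, 1, 2, 1, 1, 1, 1, 0; 0, 1, 1, 1, 2, 1, 1, 1, 0;
  0, 1, 1, 1, 1, 2, 1, 1, 1; 0, 1, 1, 1, 1, 1, 2, 1, 1; 0, 1, 1, 1, 1, 1, 1, 2, 1;
  2, 1, 1, 0, 0, 1, 1, 1, 3]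

/-- The characteristic vector of norm one. -/
def w : Fin 9 → ℤ := ![-1, 0, 0, 1, 1, -1, -1, -1, 2]

lemma w_norm : w ⬝ᵥ (G *ᵥ w) = 1 := by decide +kernel

/-- The evaluation at `t = -1`. -/
noncomputable def eta : Lam →+* ℤ := LaurentPolynomial.eval₂ (RingHom.id ℤ) (-1 : ℤˣ)

lemma eta_C (c : ℤ) : eta (C c) = c := by
  unfold eta
  rw [LaurentPolynomial.eval₂_C]
  rfl

lemma eta_T (n : ℤ) : eta (T n) = (((-1 : ℤˣ) ^ n : ℤˣ) : ℤ) := by
  unfold eta
  rw [LaurentPolynomial.eval₂_T]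

/-- Evaluation of lists at `t = -1`. -/
def altL (a : PL) : ℤ := (a.map fun p => p.2 * if p.1 % 2 = 0 then 1 else -1).sum

lemma eta_T' (n : ℤ) : eta (T n) = if n % 2 = 0 then 1 else -1 := by
  rw [eta_T]
  split_ifs with h
  · rw [Even.neg_one_zpow (Int.even_iff.2 h)]
    rfl
  · rw [Odd.neg_one_zpow (Int.odd_iff.2 (by omega))]
    rfl

lemma eta_ev (a : PL) : eta (ev a) = altL a := by
  induction a with
  | nil => exact map_zero eta
  | cons p a ih =>
    rw [ev_cons, map_add, map_mul, eta_C, eta_T', ih]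
    rfl

lemma eta_LL : LL.map eta = G := by
  have h0 : ((List.finRange 9).all fun i => (List.finRange 9).all fun j =>
      altL (getM dL i j) == G i j) = true := by decide +kernel
  have h1 : ∀ i j : Fin 9, altL (getM dL i j) = G i j := by
    intro i j
    rw [List.all_eq_true] at h0
    have h2 := h0 i (List.mem_finRange i)
    rw [List.all_eq_true] at h2
    exact eq_of_beq (h2 j (List.mem_finRange j))
  ext1 i j
  rw [← h1]
  exact eta_ev _

lemma eta_sigma {σ : Lam →+* Lam} (h : σ (T 1) = T (-1)) (x : Lam) : eta (σ x) = eta x := by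
  induction x using LaurentPolynomial.induction_on' with
  | add p q hp hq => rw [map_add, map_add, map_add, hp, hq]
  | C_mul_T n a =>
    rw [map_mul, map_mul, map_mul, sigma_C, sigma_T h, eta_T', eta_T']
    congr 2
    simp only [eq_iff_iff]
    omega

lemma parity : ∀ x : Fin 9 → ZMod 2,
    x ⬝ᵥ ((G.map (Int.castRingHom (ZMod 2))) *ᵥ x) =
      x ⬝ᵥ ((G.map (Int.castRingHom (ZMod 2))) *ᵥ fun i => (w i : ZMod 2)) := by
  decide +kernel

/-- The form at `t = -1` is not the standard form. -/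
lemma not_standard (N : Matrix (Fin 9) (Fin 9) ℤ) : Nᵀ * G * N ≠ 1 := by
  intro h
  set y : Fin 9 → ℤ := (Nᵀ * G) *ᵥ w with hy
  have hG : Gᵀ = G := by decide +kernel
  have h2 : N * (Nᵀ * G) = 1 := mul_eq_one_comm.1 h
  have hyy : y ⬝ᵥ y = 1 := by
    have h3 : y ⬝ᵥ y = w ⬝ᵥ ((Nᵀ * G)ᵀ *ᵥ y) := by
      have h5 : y ⬝ᵥ y = y ⬝ᵥ ((Nᵀ * G) *ᵥ w) := rfl
      rw [h5, Matrix.dotProduct_mulVec, Matrix.mulVec_transpose, dotProduct_comm]
    rw [h3, Matrix.transpose_mul, Matrix.transpose_transpose, hG, hy, Matrix.mulVec_mulVec,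
      mul_assoc G N, h2, mul_one, w_norm]
  have hodd : ∀ j, 1 ≤ y j * y j := by
    intro j
    have h4 : (y j : ZMod 2) = 1 := by
      have h5 := parity fun i => (N i j : ZMod 2)
      have h6 : ((y j : ℤ) : ZMod 2) = (fun i => (N i j : ZMod 2)) ⬝ᵥ
          ((G.map (Int.castRingHom (ZMod 2))) *ᵥ fun i => (w i : ZMod 2)) := by
        rw [hy, ← Matrix.mulVec_mulVec]
        simp [Matrix.mulVec, dotProduct, Int.cast_sum, Int.cast_mul]
      have h7 : ((1 : ℤ) : ZMod 2) = (fun i => (N i j : ZMod 2)) ⬝ᵥ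
          ((G.map (Int.castRingHom (ZMod 2))) *ᵥ fun i => (N i j : ZMod 2)) := by
        have h8 := congrFun (congrFun h j) j
        rw [Matrix.one_apply_eq, mul_assoc, Matrix.mul_apply] at h8
        rw [← h8]
        simp [Matrix.mulVec, dotProduct, Matrix.mul_apply, Int.cast_sum, Int.cast_mul]
      rw [h6, ← h5, ← h7, Int.cast_one]
    have h9 : y j ≠ 0 := by
      intro h10
      rw [h10, Int.cast_zero] at h4
      exact zero_ne_one h4
    have := mul_self_pos.2 h9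
    omega
  have hsum : (9 : ℤ) ≤ y ⬝ᵥ y := by
    unfold dotProduct
    calc (9 : ℤ) = ∑ _j : Fin 9, (1 : ℤ) := by simp
      _ ≤ ∑ j, y j * y j := Finset.sum_le_sum fun j _ => hodd j
  omega

end Q182.HZ
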