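import Mathlib
import Pool.Agent.Q182.HZMain

/-!
# The hypotheses for the form `L`
-/

namespace Q182.HZ

open LaurentPolynomial Matrix

lemma cond_one {σ : Lam →+* Lam} (hu : IsUnit LL.det) :
    ∃ (P Q1 : Matrix (Fin 2 × Fin 0) (Fin 9) (LaurentPolynomial ℤ))
      (P' Q2 : Matrix (Fin 9) (Fin 2 × Fin 0) (LaurentPolynomial ℤ))
      (S1 M : Matrix (Fin 9) (Fin 9) (LaurentPolynomial ℤ))
      (S2 : Matrix (Fin 2 × Fin 0) (Fin 2 × Fin 0) (LaurentPolynomial ℤ)),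
      P * LL = Matrix.blockDiagonal (fun _ : Fin 0 => HH) * Q1 ∧
      P' * Matrix.blockDiagonal (fun _ : Fin 0 => HH) = LL * Q2 ∧
      P' * P = 1 + LL * S1 ∧
      P * P' = 1 + Matrix.blockDiagonal (fun _ : Fin 0 => HH) * S2 ∧
      (LL.map (algebraMap (LaurentPolynomial ℤ) (FractionRing (LaurentPolynomial ℤ))))⁻¹
        - ((P.map σ)ᵀ).map (algebraMap (LaurentPolynomial ℤ) (FractionRing (LaurentPolynomial ℤ)))
          * ((Matrix.blockDiagonal (fun _ : Fin 0 => HH)).map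
              (algebraMap (LaurentPolynomial ℤ) (FractionRing (LaurentPolynomial ℤ))))⁻¹
          * P.map (algebraMap (LaurentPolynomial ℤ) (FractionRing (LaurentPolynomial ℤ)))
        = M.map (algebraMap (LaurentPolynomial ℤ) (FractionRing (LaurentPolynomial ℤ))) := by
  refine ⟨0, 0, 0, 0, -LL⁻¹, LL⁻¹, 0, ?_, ?_, ?_, ?_, ?_⟩
  · ext i
    exact i.2.elim0
  · ext i j
    exact j.2.elim0
  · rw [Matrix.mul_neg, Matrix.mul_nonsing_inv _ hu, Matrix.zero_mul, add_neg_cancel]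
  · ext i
    exact i.2.elim0
  · have h1 : ((0 : Matrix (Fin 2 × Fin 0) (Fin 9) (LaurentPolynomial ℤ)).map
        (algebraMap (LaurentPolynomial ℤ) (FractionRing (LaurentPolynomial ℤ)))) = 0 := by
      ext i
      exact i.2.elim0
    rw [h1, Matrix.mul_zero, sub_zero]
    apply Matrix.inv_eq_right_inv
    rw [← Matrix.map_mul, Matrix.mul_nonsing_inv _ hu, Matrix.map_one _ (map_zero _) (map_one _)]

lemma cond_two {ε : Lam →+* ℤ} (h : ε (T 1) = 1) :
    ∃ (P : Matrix (Fin 9) (Fin 9 ⊕ Fin 2 × Fin 0) ℤ)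
      (P' : Matrix (Fin 9 ⊕ Fin 2 × Fin 0) (Fin 9) ℤ),
      P * P' = 1 ∧ P' * P = 1 ∧ Pᵀ * LL.map ε * P = Matrix.fromBlocks 1 0 0 0 := by
  refine ⟨Matrix.fromCols P1 0, Matrix.fromRows B1 0, ?_, ?_, ?_⟩
  · rw [Matrix.fromCols_mul_fromRows, P1_B1, Matrix.zero_mul, add_zero]
  · rw [Matrix.fromRows_mul_fromCols, B1_P1, Matrix.mul_zero, Matrix.zero_mul, Matrix.zero_mul,
      ← Matrix.fromBlocks_one]
    congr 1
    ext i
    exact i.2.elim0
  · rw [eps_LL h, Matrix.transpose_fromCols, Matrix.fromRows_mul, Matrix.fromRows_mul_fromCols, P1_L1]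
    simp

end Q182.HZ
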