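import Pool.Agent.Q182.HnMain

/-!
# A commensurability invariant abelian subgroup of a virtually polycyclic group
-/

set_option autoImplicit false

namespace Q182.Hn

open Q182.Cyl (InfOrd infinite_of_le)
open Q182.Hv (KK mem_KK conj_KK)
open Subgroup (Commensurable)
open scoped Pointwise commutatorElement

variable {G : Type} [Group G]

/-- the iterated commutator subgroups -/
def Dk : ℕ → Subgroup G → Subgroup G
  | 0, S => S
  | k + 1, S => ⁅Dk k S, Dk k S⁆

theorem Dk_mono (k : ℕ) {S S' : Subgroup G} (h : S ≤ S') : Dk k S ≤ Dk k S' := by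
  induction k with
  | zero => exact h
  | succ k ih => exact Subgroup.commutator_mono ih ih

theorem comm_le_self (S : Subgroup G) : ⁅S, S⁆ ≤ S := by
  rw [Subgroup.commutator_le]
  intro a ha b hb
  rw [commutatorElement_def]
  exact S.mul_mem (S.mul_mem (S.mul_mem ha hb) (S.inv_mem ha)) (S.inv_mem hb)

theorem Dk_le (k : ℕ) (S : Subgroup G) : Dk k S ≤ S := by
  induction k with
  | zero => exact le_rfl
  | succ k ih => exact (comm_le_self _).trans ih

theorem Dk_smul (k : ℕ) (g : ConjAct G) (S : Subgroup G) : Dk k (g • S) = g • Dk k S := by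
  induction k with
  | zero => rfl
  | succ k ih =>
    show ⁅Dk k (g • S), Dk k (g • S)⁆ = g • ⁅Dk k S, Dk k S⁆
    rw [ih]
    exact (Subgroup.map_commutator _ _ _).symm

theorem Dk_solv {S : Subgroup G} (h : Group.IsSolvable S) : ∃ k, Dk k S = ⊥ := by
  obtain ⟨n, hn⟩ := h.solvable
  refine ⟨n, ?_⟩
  have h1 : ∀ k, Dk k S = (derivedSeries S k).map S.subtype := by
    intro k
    induction k with
    | zero =>
      rw [derivedSeries_zero, ← MonoidHom.range_eq_map, Subgroup.range_subtype]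
      rfl
    | succ k ih =>
      rw [derivedSeries_succ, Subgroup.map_commutator, ← ih]
      rfl
  rw [h1, hn, Subgroup.map_bot]

/-- groups with a finite commutator subgroup are FC-groups -/
theorem fc_of_comm {A : Subgroup G} (h : Finite ↥(⁅A, A⁆)) : A ≤ KK A := by
  intro a ha
  rw [mem_KK, Subgroup.relIndex]
  have hF : Finite (A ⧸ (Subgroup.centralizer {a}).subgroupOf A) := by
    let f : A → ↥(⁅A, A⁆) := fun x => ⟨⁅(x : G), a⁆, Subgroup.commutator_mem_commutator x.2 ha⟩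
    have hf : ∀ x y : A, x⁻¹ * y ∈ (Subgroup.centralizer {a}).subgroupOf A ↔ f x = f y := by
      intro x y
      rw [Subgroup.mem_subgroupOf, Subgroup.mem_centralizer_iff]
      have h1 : f x = f y ↔ (x : G) * a * (x : G)⁻¹ = (y : G) * a * (y : G)⁻¹ := by
        rw [Subtype.ext_iff]
        show ⁅(x : G), a⁆ = ⁅(y : G), a⁆ ↔ _
        rw [commutatorElement_def, commutatorElement_def]
        exact mul_left_inj _
      rw [h1]
      constructor
      · intro h2
        have h3 := h2 a rfl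
        have h4 : a * ((x : G)⁻¹ * y) = ((x : G)⁻¹ * y) * a := h3
        calc (x : G) * a * (x : G)⁻¹ = x * (a * ((x : G)⁻¹ * y)) * (y : G)⁻¹ := by group
          _ = x * (((x : G)⁻¹ * y) * a) * (y : G)⁻¹ := by rw [h4]
          _ = y * a * (y : G)⁻¹ := by group
      · intro h2 z hz
        rw [Set.mem_singleton_iff.1 hz]
        show a * ((x : G)⁻¹ * y) = ((x : G)⁻¹ * y) * a
        calc a * ((x : G)⁻¹ * y) = (x : G)⁻¹ * (x * a * (x : G)⁻¹) * y := by group
          _ = (x : G)⁻¹ * (y * a * (y : G)⁻¹) * y := by rw [h2]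
          _ = ((x : G)⁻¹ * y) * a := by group
    refine Finite.of_injective (β := ↥(⁅A, A⁆)) (Quotient.lift f ?_) ?_
    · intro x y hxy
      exact (hf x y).1 (QuotientGroup.leftRel_apply.1 hxy)
    · intro p q
      induction p using Quotient.inductionOn
      induction q using Quotient.inductionOn
      rename_i x y
      intro hxy
      exact Quotient.sound (QuotientGroup.leftRel_apply.2 ((hf x y).2 hxy))
  exact Subgroup.index_ne_zero_of_finite

section

variable {R : Subgroup G} (hfg : ∀ S ≤ R, S.FG)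
  (hsol : ∃ S ≤ R, S.relIndex R ≠ 0 ∧ Group.IsSolvable S) (hinf : Infinite R)
  (hconj : ∀ g : G, Commensurable (ConjAct.toConjAct g • R) R)

/-- the elements which centralize a subgroup of finite index of an iterated commutator subgroup -/
def K1 (R : Subgroup G) (j : ℕ) : Subgroup G where
  carrier := {m | ∃ R' ≤ R, R'.relIndex R ≠ 0 ∧ m ∈ KK (Dk j R')}
  one_mem' := ⟨R, le_rfl, by rw [Subgroup.relIndex_self]; exact one_ne_zero, Subgroup.one_mem _⟩
  mul_mem' := by
    rintro a b ⟨R₁, h1, h2, h3⟩ ⟨R₂, h4, h5, h6⟩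
    refine ⟨R₁ ⊓ R₂, inf_le_left.trans h1, Subgroup.relIndex_inf_ne_zero h2 h5, ?_⟩
    exact Subgroup.mul_mem _ (KK_anti (Dk_mono j inf_le_left) h3)
      (KK_anti (Dk_mono j inf_le_right) h6)
  inv_mem' := by
    rintro a ⟨R₁, h1, h2, h3⟩
    exact ⟨R₁, h1, h2, Subgroup.inv_mem _ h3⟩

theorem mem_K1 {R : Subgroup G} {j : ℕ} {m : G} :
    m ∈ K1 R j ↔ ∃ R' ≤ R, R'.relIndex R ≠ 0 ∧ m ∈ KK (Dk j R') := Iff.rfl

include hconj in
theorem K1_normal (j : ℕ) : (K1 R j).Normal := by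
  constructor
  rintro m ⟨R', h1, h2, h3⟩ g
  refine ⟨(ConjAct.toConjAct g • R') ⊓ R, inf_le_right, ?_, ?_⟩
  · rw [Subgroup.inf_relIndex_right]
    refine Subgroup.relIndex_ne_zero_trans ?_ (hconj g).1
    rw [Subgroup.relIndex_pointwise_smul]
    exact h2
  · refine KK_anti (Dk_mono j inf_le_left) ?_
    rw [Dk_smul]
    exact conj_KK' g h3

theorem K1_uniform {B : Subgroup G} (hB : B.FG) {j : ℕ} (h : B ≤ K1 R j) :
    ∃ R' ≤ R, R'.relIndex R ≠ 0 ∧ B ≤ KK (Dk j R') := by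
  classical
  obtain ⟨s, hs⟩ := hB
  have key : ∀ t : Finset G, t ⊆ s → ∃ R' ≤ R, R'.relIndex R ≠ 0 ∧ ∀ x ∈ t, x ∈ KK (Dk j R') := by
    intro t
    induction t using Finset.induction with
    | empty =>
      intro _
      exact ⟨R, le_rfl, by rw [Subgroup.relIndex_self]; exact one_ne_zero, by simp⟩
    | insert a t ha ih =>
      intro hts
      obtain ⟨R₁, h1, h2, h3⟩ := ih ((Finset.subset_insert a t).trans hts)
      have h4 : a ∈ K1 R j := by
        apply h
        rw [← hs]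
        exact Subgroup.subset_closure (hts (Finset.mem_insert_self a t))
      obtain ⟨R₂, h5, h6, h7⟩ := h4
      refine ⟨R₁ ⊓ R₂, inf_le_left.trans h1, Subgroup.relIndex_inf_ne_zero h2 h6, ?_⟩
      intro x hx
      rcases Finset.mem_insert.1 hx with rfl | hx
      · exact KK_anti (Dk_mono j inf_le_right) h7
      · exact KK_anti (Dk_mono j inf_le_left) (h3 x hx)
  obtain ⟨R', h1, h2, h3⟩ := key s (Finset.Subset.refl s)
  refine ⟨R', h1, h2, ?_⟩
  rw [← hs, Subgroup.closure_le]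
  exact h3

include hfg hsol hinf hconj in
/-- a normal subgroup `K` which meets `R` in an infinite virtually abelian group -/
theorem exists_K : ∃ A K : Subgroup G, K.Normal ∧ A ≤ K ∧ A ≤ R ∧ A.relIndex (R ⊓ K) ≠ 0 ∧
    (∀ a ∈ A, ∀ b ∈ A, a * b = b * a) ∧ (∀ a ∈ A, a ≠ 1 → InfOrd a) ∧ K ≤ KK A ∧ Infinite A := by
  classical
  have hex : ∃ k, ∃ R' ≤ R, R'.relIndex R ≠ 0 ∧ Finite ↥(Dk k R') := by
    obtain ⟨S, h1, h2, h3⟩ := hsol
    obtain ⟨k, hk⟩ := Dk_solv h3
    exact ⟨k, S, h1, h2, by rw [hk]; infer_instance⟩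
  obtain ⟨k, hk⟩ : ∃ k, k = Nat.find hex := ⟨_, rfl⟩
  have hk1 := Nat.find_spec hex
  have hk2 : ∀ l < k, ¬ ∃ R' ≤ R, R'.relIndex R ≠ 0 ∧ Finite ↥(Dk l R') := by
    intro l hl
    rw [hk] at hl
    exact Nat.find_min hex hl
  rw [← hk] at hk1
  obtain ⟨j, rfl⟩ : ∃ j, k = j + 1 := by
    cases k with
    | zero =>
      exfalso
      obtain ⟨R', h1, h2, h3⟩ := hk1
      have h4 : Finite R' := h3
      exact (not_finite_iff_infinite.2 hinf) (Q182.Cyl.finite_of_index h1 h2 h4)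
    | succ j => exact ⟨j, rfl⟩
  obtain ⟨R₀, hR₀1, hR₀2, hR₀3⟩ := hk1
  have hjinf : ∀ R' ≤ R, R'.relIndex R ≠ 0 → Infinite ↥(Dk j R') := by
    intro R' h1 h2
    rw [← not_finite_iff_infinite]
    intro h3
    exact hk2 j (Nat.lt_succ_self j) ⟨R', h1, h2, h3⟩
  have hK1n := K1_normal hconj j
  -- the subgroup `B`
  obtain ⟨B, hB⟩ : ∃ B : Subgroup G, B = K1 R j ⊓ R := ⟨_, rfl⟩
  have hBK1 : B ≤ K1 R j := by
    rw [hB]
    exact inf_le_left
  have hBR : B ≤ R := by
    rw [hB]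
    exact inf_le_right
  obtain ⟨R₂, hR₂1, hR₂2, hR₂3⟩ := K1_uniform (hfg B hBR) hBK1
  obtain ⟨R₁, hR₁⟩ : ∃ R₁ : Subgroup G, R₁ = R₀ ⊓ R₂ := ⟨_, rfl⟩
  have hR₁1 : R₁ ≤ R := by
    rw [hR₁]
    exact inf_le_left.trans hR₀1
  have hR₁2 : R₁.relIndex R ≠ 0 := by
    rw [hR₁]
    exact Subgroup.relIndex_inf_ne_zero hR₀2 hR₂2
  obtain ⟨A₁, hA₁⟩ : ∃ A₁ : Subgroup G, A₁ = Dk j R₁ := ⟨_, rfl⟩
  have hA₁inf : Infinite A₁ := by
    rw [hA₁]
    exact hjinf R₁ hR₁1 hR₁2
  have hBA₁ : B ≤ KK A₁ := by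
    refine hR₂3.trans (KK_anti ?_)
    rw [hA₁, hR₁]
    exact Dk_mono j inf_le_right
  have hA₁R : A₁ ≤ R := by
    rw [hA₁]
    exact (Dk_le j R₁).trans hR₁1
  have hcomm : Finite ↥(⁅A₁, A₁⁆) := by
    have h1 : ⁅A₁, A₁⁆ ≤ Dk (j + 1) R₀ := by
      rw [hA₁]
      have h2 : Dk j R₁ ≤ Dk j R₀ := Dk_mono j (by rw [hR₁]; exact inf_le_left)
      exact Subgroup.commutator_mono h2 h2
    exact Finite.of_injective _ (Subgroup.inclusion_injective h1)
  have hA₁FC : A₁ ≤ KK A₁ := fc_of_comm hcomm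
  have hKA₁ : KK A₁ ≤ K1 R j := by
    intro x hx
    refine ⟨R₁, hR₁1, hR₁2, ?_⟩
    rw [← hA₁]
    exact hx
  have hA₁B : A₁ ≤ B := by
    rw [hB]
    exact le_inf (hA₁FC.trans hKA₁) hA₁R
  have hBconj : ∀ g : G, Commensurable (ConjAct.toConjAct g • B) B := by
    intro g
    have h1 : ConjAct.toConjAct g • K1 R j = K1 R j := hK1n.conjAct _
    rw [hB, Subgroup.smul_inf, h1, inf_comm, inf_comm (K1 R j) R]
    exact ⟨relIndex_inf_K _ (hconj g).1, relIndex_inf_K _ (hconj g).2⟩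
  have hKn : (KK B).Normal := ⟨fun k hk g => conj_KK (hBconj g) hk⟩
  obtain ⟨D, hD⟩ : ∃ D : Subgroup G, D = R ⊓ KK B := ⟨_, rfl⟩
  have hDR : D ≤ R := by
    rw [hD]
    exact inf_le_left
  have hDK : D ≤ KK B := by
    rw [hD]
    exact inf_le_right
  have hDB : D ≤ B := by
    rw [hB]
    exact le_inf ((hDK.trans (KK_anti hA₁B)).trans hKA₁) hDR
  have hDinf : Infinite D := by
    have h1 := central_fg (hfg B hBR) hBA₁
    have h2 : Infinite ↥(Subgroup.centralizer (B : Set G) ⊓ A₁) := by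
      rw [← not_finite_iff_infinite]
      intro h3
      refine (not_finite_iff_infinite.2 hA₁inf) (Q182.Cyl.finite_of_index inf_le_right ?_ h3)
      rw [Subgroup.inf_relIndex_right]
      exact h1
    refine infinite_of_le ?_ h2
    rw [hD]
    refine le_inf (inf_le_right.trans hA₁R) ?_
    intro x hx
    rw [mem_KK]
    have h4 : B ≤ Subgroup.centralizer {x} := by
      intro b hb
      rw [Subgroup.mem_centralizer_iff]
      intro y hy
      rw [Set.mem_singleton_iff.1 hy]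
      have h5 := (Subgroup.mem_inf.1 hx).1
      rw [Subgroup.mem_centralizer_iff] at h5
      exact (h5 b hb).symm
    rw [Subgroup.relIndex_eq_one.2 h4]
    exact one_ne_zero
  have hDcen := central_fg (hfg D hDR) (hDK.trans (KK_anti hDB))
  obtain ⟨Z, hZ⟩ : ∃ Z : Subgroup G, Z = Subgroup.centralizer (D : Set G) ⊓ D := ⟨_, rfl⟩
  have hZD : Z ≤ D := by
    rw [hZ]
    exact inf_le_right
  have hZi : Z.relIndex D ≠ 0 := by
    rw [hZ, Subgroup.inf_relIndex_right]
    exact hDcen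
  have hZab : ∀ a ∈ Z, ∀ b ∈ Z, a * b = b * a := by
    intro a ha b hb
    rw [hZ] at hb
    have h1 := (Subgroup.mem_inf.1 hb).1
    rw [Subgroup.mem_centralizer_iff] at h1
    exact h1 a (hZD ha)
  obtain ⟨A, hA1, hA2, hA3⟩ := exists_tf' (hfg Z (hZD.trans hDR)) hZab
  have hAD : A.relIndex D ≠ 0 := Subgroup.relIndex_ne_zero_trans hA2 hZi
  refine ⟨A, KK B, hKn, (hA1.trans hZD).trans hDK, (hA1.trans hZD).trans hDR, ?_, ?_, hA3, ?_, ?_⟩
  · rw [← hD]
    exact hAD
  · exact fun a ha b hb => hZab a (hA1 ha) b (hA1 hb)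
  · exact KK_anti ((hA1.trans hZD).trans hDB)
  · rw [← not_finite_iff_infinite]
    intro h3
    exact (not_finite_iff_infinite.2 hDinf) (Q182.Cyl.finite_of_index (hA1.trans hZD) hAD h3)

end

end Q182.Hn
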