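import Pool.Agent.Q182.HnPmain

/-!
# Trees whose edge stabilizers have finite index in the vertex stabilizers
-/

set_option autoImplicit false

namespace Q182.Hn

open SimpleGraph
open Pool.Agent.Helper270.Tree
open Q182.Cyl (ClosedA Est InfOrd)
open Subgroup (Commensurable)

variable {C : ∀ (G : Type) [Group G], Prop} {G V : Type} [Group G] [MulAction G V]
  {T : SimpleGraph V}

theorem com_of_adj (hT : TreeAct G T)
    (hidx : ∀ v w : V, T.Adj v w → (Est G v w).relIndex (MulAction.stabilizer G v) ≠ 0)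
    (v w : V) : Commensurable (MulAction.stabilizer G v) (MulAction.stabilizer G w) := by
  obtain ⟨p⟩ := hT.isTree.connected.preconnected v w
  induction p with
  | nil => exact Subgroup.Commensurable.refl _
  | cons h p ih =>
    rename_i a b c
    refine Subgroup.Commensurable.trans ?_ ih
    have h1 := hidx a b h
    have h2 := hidx b a h.symm
    rw [Q182.Cyl.Est_comm b a] at h2
    have h3 : Est G a b ≤ MulAction.stabilizer G a := fun g hg => hg.1
    have h4 : Est G a b ≤ MulAction.stabilizer G b := fun g hg => hg.2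
    exact ⟨fun h0 => h2 (Subgroup.relIndex_eq_zero_of_le_left h3 h0),
      fun h0 => h1 (Subgroup.relIndex_eq_zero_of_le_left h4 h0)⟩

theorem fin_poly (hC : ClosedA C) (hmet : ∀ (G : Type) [Group G], derivedSeries G 2 = ⊥ → C G)
    (hT : TreeAct G T)
    (hidx : ∀ v w : V, T.Adj v w → (Est G v w).relIndex (MulAction.stabilizer G v) ≠ 0) (v₀ : V)
    (hfg : ∀ S ≤ MulAction.stabilizer G v₀, S.FG)
    (hsol : ∃ S ≤ MulAction.stabilizer G v₀, S.relIndex (MulAction.stabilizer G v₀) ≠ 0 ∧
      Group.IsSolvable S) : C G := by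
  let H := MulAction.stabilizer G v₀
  have hr : H.subtype.range = MulAction.stabilizer G v₀ := Subgroup.range_subtype _
  refine polyc hC hmet H ?_ ?_ H.subtype.ker G V T H.subtype rfl hT ?_ ⟨v₀, hr.le⟩
  · intro S
    obtain ⟨s, hs⟩ := hfg (S.map H.subtype) (by
      rintro _ ⟨a, _, rfl⟩
      exact a.2)
    classical
    have hsS : ∀ x ∈ s, x ∈ H := by
      intro x hx
      have h1 : x ∈ S.map H.subtype := by
        rw [← hs]
        exact Subgroup.subset_closure hx
      obtain ⟨a, _, rfl⟩ := h1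
      exact a.2
    refine ⟨s.preimage H.subtype Subtype.val_injective.injOn, ?_⟩
    apply Subgroup.map_injective (f := H.subtype) Subtype.val_injective
    rw [MonoidHom.map_closure, ← hs]
    congr 1
    ext x
    constructor
    · rintro ⟨a, ha, rfl⟩
      exact Finset.mem_preimage.1 ha
    · intro hx
      exact ⟨⟨x, hsS x hx⟩, Finset.mem_preimage.2 hx, rfl⟩
  · obtain ⟨S, h1, h2, h3⟩ := hsol
    refine ⟨S.subgroupOf H, h2, ?_⟩
    exact Group.isSolvable_of_surjective (f := (Subgroup.subgroupOfEquivOfLe h1).symm.toMonoidHom)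
      (Subgroup.subgroupOfEquivOfLe h1).symm.surjective
  · intro v
    rw [hr]
    exact com_of_adj hT hidx v₀ v

theorem fin_nilp (hC : ClosedA C) (hmet : ∀ (G : Type) [Group G], derivedSeries G 2 = ⊥ → C G)
    (hT : TreeAct G T)
    (hidx : ∀ v w : V, T.Adj v w → (Est G v w).relIndex (MulAction.stabilizer G v) ≠ 0) (v₀ : V)
    (h : ∃ S ≤ MulAction.stabilizer G v₀, S.relIndex (MulAction.stabilizer G v₀) ≠ 0 ∧
      Group.IsNilpotent S ∧ ∀ a ∈ S, a ≠ 1 → ∀ n : ℕ, 0 < n → a ^ n ≠ 1) : C G := by
  obtain ⟨S, h1, h2, h3, h4⟩ := h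
  have hr : S.subtype.range = S := Subgroup.range_subtype _
  refine nilp hC hmet S ?_ G V T S.subtype Subtype.val_injective hT ?_ ⟨v₀, by rw [hr]; exact h1⟩
  · intro a ha n hn h
    exact h4 a a.2 (fun h5 => ha (Subtype.ext h5)) n hn (congrArg Subtype.val h)
  · intro v
    rw [hr]
    have h5 : Commensurable S (MulAction.stabilizer G v₀) :=
      ⟨h2, by rw [Subgroup.relIndex_eq_one.2 h1]; exact one_ne_zero⟩
    exact h5.trans (com_of_adj hT hidx v₀ v)

end Q182.Hn
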