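import Pool.Agent.Q182.HvHom

/-!
# Logarithms relative to a normal subgroup
-/

set_option autoImplicit false

namespace Q182.Hn

open SimpleGraph
open Pool.Agent.Helper270.Tree
open Pool.Agent.Y110.FJ (ClosedE)
open Pool.Agent.Y462.SS (Closed)
open Q182.Cyl (ClosedA Est InfOrd)
open Q182.Cen (Ell Orb mk mk_eq mk_smul exists_mk QG qAct treeAct_QG exists_lift bundle)
open Q182.Hv (lg lg_eq sep_rat)
open Subgroup (Commensurable)
open scoped Pointwise commutatorElement

variable {G V : Type} [Group G] [MulAction G V] {T : SimpleGraph V}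

/-- the vertex stabilizers of the normal subgroup `K` are virtually contained in the torsion-free
abelian subgroup `A`, and the elements of `K` centralize subgroups of finite index of `A` -/
structure VK (T : SimpleGraph V) (A K : Subgroup G) : Prop where
  tree : TreeAct G T
  norm : K.Normal
  ab : ∀ a ∈ A, ∀ b ∈ A, a * b = b * a
  tf : ∀ a ∈ A, a ≠ 1 → InfOrd a
  idx : ∀ v : V, A.relIndex (MulAction.stabilizer G v ⊓ K) ≠ 0
  cent : ∀ k ∈ K, (Subgroup.centralizer {k}).relIndex A ≠ 0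

variable {A K : Subgroup G} (hV : VK T A K)

/-- the subgroup generated by the elliptic elements of `K` -/
def EK (V : Type) [MulAction G V] (K : Subgroup G) : Subgroup G :=
  Subgroup.closure {k : G | k ∈ K ∧ ∃ v : V, k • v = v}

theorem mem_EK {k : G} {v : V} (h : k ∈ K) (hv : k • v = v) : k ∈ EK V K :=
  Subgroup.subset_closure ⟨h, v, hv⟩

theorem EK_le : EK V K ≤ K := by
  refine (Subgroup.closure_le _).2 ?_
  rintro k ⟨hk, _⟩
  exact hk

theorem ell_EK : Ell V (EK V K) := by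
  refine (Subgroup.closure_le _).2 ?_
  rintro k ⟨hk, v, hv⟩
  exact Subgroup.subset_closure ⟨mem_EK hk hv, v, hv⟩

include hV in
theorem normal_EK : (EK V K).Normal := by
  constructor
  intro m hm g
  have h1 : g * m * g⁻¹ ∈ (EK V K).map (MulAut.conj g).toMonoidHom := ⟨m, hm, rfl⟩
  rw [EK, MonoidHom.map_closure] at h1
  refine Subgroup.closure_mono ?_ h1
  rintro _ ⟨k, ⟨hk, v, hv⟩, rfl⟩
  refine ⟨hV.norm.conj_mem k hk g, g • v, ?_⟩
  show (g * k * g⁻¹) • g • v = g • v
  rw [smul_smul, inv_mul_cancel_right, mul_smul, hv]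

include hV in
theorem exists_pow {g : G} {v : V} (hgK : g ∈ K) (hg : g • v = v) :
    ∃ m : ℕ, 0 < m ∧ g ^ m ∈ A := by
  obtain ⟨m, hm, _, h⟩ := Subgroup.exists_pow_mem_of_relIndex_ne_zero (hV.idx v)
    (show g ∈ MulAction.stabilizer G v ⊓ K from Subgroup.mem_inf.2 ⟨hg, hgK⟩)
  exact ⟨m, hm, (Subgroup.mem_inf.1 h).1⟩

section

variable {φ : G → ℚ} (hφ : ∀ a ∈ A, ∀ b ∈ A, φ (a * b) = φ a + φ b)

include hV hφ in
theorem lg_conj {k g : G} (hk : k ∈ K) (hg : ∃ m : ℕ, 0 < m ∧ g ^ m ∈ A) :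
    lg A φ (k * g * k⁻¹) = lg A φ g := by
  obtain ⟨m, hm, h1⟩ := hg
  obtain ⟨j, hj, _, h2⟩ := Subgroup.exists_pow_mem_of_relIndex_ne_zero (hV.cent k hk) h1
  have h3 := (Subgroup.mem_inf.1 h2).1
  rw [Subgroup.mem_centralizer_iff] at h3
  have h4 := h3 k rfl
  rw [← pow_mul] at h4
  have h5 : (k * g * k⁻¹) ^ (m * j) = g ^ (m * j) := by
    rw [conj_pow, h4, mul_inv_cancel_right]
  have h6 : g ^ (m * j) ∈ A := by
    rw [pow_mul]
    exact A.pow_mem h1 j
  have h7 : 0 < m * j := Nat.mul_pos hm hj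
  rw [lg_eq hφ h7 h6, lg_eq hφ h7 (by rw [h5]; exact h6), h5]

include hV hφ in
theorem lg_mul {k l : G} {v : V} (hk : k ∈ K) (hl : l ∈ K) (hkv : k • v = v)
    (hlv : l • v = v) : lg A φ (k * l) = lg A φ k + lg A φ l := by
  let B : Subgroup G := Subgroup.closure {k, l}
  have hkB : k ∈ B := Subgroup.subset_closure (by simp)
  have hlB : l ∈ B := Subgroup.subset_closure (by simp)
  have hBv : B ≤ MulAction.stabilizer G v ⊓ K := by
    refine (Subgroup.closure_le _).2 ?_
    rintro x (rfl | rfl)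
    · exact Subgroup.mem_inf.2 ⟨hkv, hk⟩
    · exact Subgroup.mem_inf.2 ⟨hlv, hl⟩
  let Z : Subgroup G := Subgroup.centralizer {k} ⊓ Subgroup.centralizer {l}
  have hZ : Z.relIndex A ≠ 0 := Subgroup.relIndex_inf_ne_zero (hV.cent k hk) (hV.cent l hl)
  have hZB : Z.relIndex B ≠ 0 := by
    have h1 : (Z ⊓ A).relIndex (MulAction.stabilizer G v ⊓ K) ≠ 0 := by
      have h2 : (Z ⊓ A).relIndex A ≠ 0 := by
        rw [Subgroup.inf_relIndex_right]
        exact hZ
      exact Subgroup.relIndex_ne_zero_trans h2 (hV.idx v)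
    intro h0
    have h3 : Z.relIndex (MulAction.stabilizer G v ⊓ K) ≠ 0 := fun h => h1
      (Subgroup.relIndex_eq_zero_of_le_left inf_le_left h)
    exact h3 (Subgroup.relIndex_eq_zero_of_le_right hBv h0)
  have hcen : Z.subgroupOf B ≤ Subgroup.center B := by
    rintro z hz
    have hz' := Subgroup.mem_inf.1 (show (z : G) ∈ Z from hz)
    rw [Subgroup.mem_center_iff]
    have hBc : B ≤ Subgroup.centralizer {(z : G)} := by
      refine (Subgroup.closure_le _).2 ?_
      rintro x (rfl | rfl)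
      · rw [SetLike.mem_coe, Subgroup.mem_centralizer_iff]
        intro y hy
        rw [Set.mem_singleton_iff.1 hy]
        have e := hz'.1
        rw [Subgroup.mem_centralizer_iff] at e
        exact (e _ rfl).symm
      · rw [SetLike.mem_coe, Subgroup.mem_centralizer_iff]
        intro y hy
        rw [Set.mem_singleton_iff.1 hy]
        have e := hz'.2
        rw [Subgroup.mem_centralizer_iff] at e
        exact (e _ rfl).symm
    intro g
    have e := hBc g.2
    rw [Subgroup.mem_centralizer_iff] at e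
    exact Subtype.ext (e _ rfl).symm
  have hfi : (Subgroup.center B).FiniteIndex := by
    have h1 : (Z.subgroupOf B).FiniteIndex := ⟨hZB⟩
    exact Subgroup.finiteIndex_of_le hcen
  obtain ⟨n, hn⟩ : ∃ n, n = (Subgroup.center B).index := ⟨_, rfl⟩
  have hn0 : 0 < n := by
    rw [hn]
    exact Nat.pos_of_ne_zero hfi.index_ne_zero
  have key : (k * l) ^ n = k ^ n * l ^ n := by
    have h1 := map_mul (MonoidHom.transferCenterPow B) ⟨k, hkB⟩ ⟨l, hlB⟩
    have h2 := congrArg (fun x : Subgroup.center B => ((x : B) : G)) h1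
    simp only [Subgroup.coe_mul, MonoidHom.transferCenterPow_apply, Subgroup.coe_pow, ← hn] at h2
    exact h2
  have hcn : ∀ x ∈ B, ∀ y ∈ B, Commute (x ^ n) y := by
    intro x hx y hy
    have h1 : (⟨x, hx⟩ : B) ^ n ∈ Subgroup.center B := by
      have h2 := (MonoidHom.transferCenterPow B ⟨x, hx⟩).2
      rw [MonoidHom.transferCenterPow_apply, ← hn] at h2
      exact h2
    rw [Subgroup.mem_center_iff] at h1
    have h2 := congrArg Subtype.val (h1 ⟨y, hy⟩)
    exact h2.symm
  obtain ⟨a, ha, ha1⟩ := exists_pow hV hk hkv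
  obtain ⟨b, hb, hb1⟩ := exists_pow hV hl hlv
  have h1 : k ^ (n * (a * b)) ∈ A := by
    rw [mul_comm, mul_assoc, pow_mul]
    exact A.pow_mem ha1 _
  have h2 : l ^ (n * (a * b)) ∈ A := by
    rw [mul_comm n, mul_comm a, mul_assoc, pow_mul]
    exact A.pow_mem hb1 _
  have h3 : (k * l) ^ (n * (a * b)) = k ^ (n * (a * b)) * l ^ (n * (a * b)) := by
    rw [pow_mul, key, ((hcn k hkB (l ^ n) (B.pow_mem hlB n))).mul_pow, ← pow_mul, ← pow_mul]
  have h4 : 0 < n * (a * b) := Nat.mul_pos hn0 (Nat.mul_pos ha hb)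
  rw [lg_eq hφ h4 h1, lg_eq hφ h4 h2, lg_eq hφ h4 (by rw [h3]; exact A.mul_mem h1 h2), h3,
    hφ _ h1 _ h2, add_div]

include hV hφ in
theorem exists_lam : ∃ lam : EK V K →* Multiplicative ℚ, ∀ (k : EK V K) (v : V),
    (k : G) • v = v → lam k = Multiplicative.ofAdd (lg A φ k) := by
  classical
  let N := EK V K
  have hN : N.Normal := normal_EK hV
  have hT := hV.tree
  choose s hs using fun w : Orb V N => exists_mk w
  have hk : ∀ x : V, ∃ k ∈ N, k • s (mk N x) = x := fun x => mk_eq.1 (hs (mk N x)).symm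
  choose k hkN hk using hk
  let c : G → V → Multiplicative ℚ := fun m x =>
    Multiplicative.ofAdd (lg A φ ((k (m • x))⁻¹ * m * k x))
  have hfixs : ∀ m ∈ N, ∀ x, ((k (m • x))⁻¹ * m * k x) • s (mk N x) = s (mk N x) := by
    intro m hm x
    have h1 := hk (m • x)
    rw [mk_smul hm] at h1
    rw [mul_smul, mul_smul, hk x, inv_smul_eq_iff, h1]
  have hmem : ∀ m ∈ N, ∀ x, ((k (m • x))⁻¹ * m * k x) ∈ N := fun m hm x =>
    N.mul_mem (N.mul_mem (N.inv_mem (hkN _)) hm) (hkN _)
  have hc : ∀ m ∈ N, ∀ n ∈ N, ∀ x, c (m * n) x = c m (n • x) * c n x := by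
    intro m hm n hn x
    have h1 := hfixs m hm (n • x)
    rw [mk_smul hn] at h1
    have h2 := lg_mul hV hφ (EK_le (hmem m hm (n • x))) (EK_le (hmem n hn x)) h1 (hfixs n hn x)
    show Multiplicative.ofAdd (lg A φ ((k ((m * n) • x))⁻¹ * (m * n) * k x)) =
      Multiplicative.ofAdd (lg A φ ((k (m • n • x))⁻¹ * m * k (n • x)) +
        lg A φ ((k (n • x))⁻¹ * n * k x))
    rw [← h2, mul_smul]
    congr 2
    group
  have hcx : ∀ m ∈ N, ∀ x, m • x = x → c m x = Multiplicative.ofAdd (lg A φ m) := by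
    intro m hm x hx
    have h0 : ((k x)⁻¹ * m * k x) • s (mk N x) = s (mk N x) := by
      have := hfixs m hm x
      rwa [hx] at this
    have h0' : (k x)⁻¹ * m * k x ∈ N := by
      have := hmem m hm x
      rwa [hx] at this
    have h1 := lg_conj hV hφ (EK_le (hkN x)) (g := (k x)⁻¹ * m * k x)
      (exists_pow hV (EK_le h0') h0)
    have h2 : k x * ((k x)⁻¹ * m * k x) * (k x)⁻¹ = m := by group
    rw [h2] at h1
    show Multiplicative.ofAdd (lg A φ ((k (m • x))⁻¹ * m * k x)) = _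
    rw [hx, h1]
  obtain ⟨v₀⟩ := hT.isTree.connected.nonempty
  obtain ⟨lam, F, hF, hlam⟩ := bundle hT ell_EK c hc (by
    intro m hm x y hxy hx hy
    rw [hcx m hm x hx, hcx m hm y hy]) v₀
  refine ⟨lam, ?_⟩
  intro n x hx
  have h1 := hlam n x
  rw [hx, hcx n n.2 x hx] at h1
  rw [h1, mul_comm (F x), mul_inv_cancel_right]

end

include hV in
/-- the elements of the commutator subgroup with a fixed point have finite order -/
theorem comm_tors {g : G} (hg : g ∈ ⁅EK V K, EK V K⁆) {v : V} (hv : g • v = v) :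
    ∃ m : ℕ, 0 < m ∧ g ^ m = 1 := by
  have hgN : g ∈ EK V K := by
    have := normal_EK hV
    exact Subgroup.commutator_le_left _ _ hg
  obtain ⟨m, hm, hgm⟩ := exists_pow hV (EK_le hgN) hv
  refine ⟨m, hm, ?_⟩
  by_contra hne
  let iH : CommGroup A := { (inferInstance : Group A) with
    mul_comm := fun a b => Subtype.ext (hV.ab a a.2 b b.2) }
  obtain ⟨χ, hχ⟩ := sep_rat (Additive A) (by
      intro a ha n hn h
      have h1 : a.toMul ≠ 1 := fun h2 => ha h2
      have h2 : ((a.toMul : A) : G) ≠ 1 := fun h3 => h1 (Subtype.ext h3)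
      refine hV.tf a.toMul a.toMul.2 h2 n hn ?_
      exact congrArg (fun x : Additive A => ((x.toMul : A) : G)) h)
    (Additive.ofMul ⟨g ^ m, hgm⟩) (fun h => hne (congrArg (fun x : Additive A =>
      ((x.toMul : A) : G)) h))
  classical
  let φ : G → ℚ := fun x => if h : x ∈ A then χ (Additive.ofMul ⟨x, h⟩) else 0
  have hφ : ∀ a ∈ A, ∀ b ∈ A, φ (a * b) = φ a + φ b := by
    intro a ha b hb
    have ha' : a ∈ A := ha
    have hb' : b ∈ A := hb
    simp only [φ, dif_pos ha', dif_pos hb', dif_pos (A.mul_mem ha' hb')]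
    rw [← map_add]
    rfl
  obtain ⟨lam, hlam⟩ := exists_lam hV hφ
  have h1 : lam ⟨g, hgN⟩ = 1 := by
    have h2 : ⁅EK V K, EK V K⁆ ≤ lam.ker.map (EK V K).subtype := by
      rw [Subgroup.commutator_le]
      intro a ha b hb
      refine ⟨⁅(⟨a, ha⟩ : EK V K), (⟨b, hb⟩ : EK V K)⁆, ?_, rfl⟩
      show lam _ = 1
      rw [map_commutatorElement, commutatorElement_eq_one_iff_mul_comm, mul_comm]
    obtain ⟨x, hx, hx2⟩ := h2 hg
    have h3 : x = ⟨g, hgN⟩ := Subtype.ext hx2
    rw [← h3]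
    exact hx
  have h2 := hlam ⟨g, hgN⟩ v hv
  rw [h1] at h2
  have h3 : lg A φ g = 0 := (congrArg Multiplicative.toAdd h2).symm
  rw [lg_eq hφ hm hgm] at h3
  have h4 : φ (g ^ m) = 0 := by
    have h5 : (m : ℚ) ≠ 0 := by positivity
    rcases div_eq_zero_iff.1 h3 with h6 | h6
    · exact h6
    · exact absurd h6 h5
  apply hχ
  have hgm' : g ^ m ∈ A := hgm
  simp only [φ, dif_pos hgm'] at h4
  exact h4

include hV in
theorem comm_fin (v : V) : {g : G | g ∈ ⁅EK V K, EK V K⁆ ∧ g • v = v}.Finite := by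
  let D : Subgroup G := ⁅EK V K, EK V K⁆ ⊓ MulAction.stabilizer G v
  have hDK : D ≤ MulAction.stabilizer G v ⊓ K := by
    intro x hx
    obtain ⟨h1, h2⟩ := Subgroup.mem_inf.1 hx
    have := normal_EK hV
    exact Subgroup.mem_inf.2 ⟨h2, EK_le (Subgroup.commutator_le_left _ _ h1)⟩
  have h1 : A.relIndex D ≠ 0 := by
    intro h0
    exact hV.idx v (Subgroup.relIndex_eq_zero_of_le_right hDK h0)
  have h2 : A ⊓ D = ⊥ := by
    rw [eq_bot_iff]
    rintro x hx
    obtain ⟨hx1, hx2⟩ := Subgroup.mem_inf.1 hx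
    obtain ⟨hx3, hx4⟩ := Subgroup.mem_inf.1 hx2
    obtain ⟨m, hm, h⟩ := comm_tors hV hx3 hx4
    rw [Subgroup.mem_bot]
    by_contra hne
    exact hV.tf x hx1 hne m hm h
  have h3 : (⊥ : Subgroup G).relIndex D ≠ 0 := by
    rw [← h2, Subgroup.inf_relIndex_right]
    exact h1
  have h4 : Finite D := Q182.Cyl.finite_of_index bot_le h3 inferInstance
  exact (Set.toFinite (D : Set G))

/-- subgroups which are abelian modulo the normal subgroup -/
theorem cyc_mem {C : ∀ (G : Type) [Group G], Prop} (hC : ClosedA C)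
    (hmet : ∀ (G : Type) [Group G], derivedSeries G 2 = ⊥ → C G) (hV : VK T A K)
    (hst : ∀ v : V, C (MulAction.stabilizer G v)) (L : Subgroup G) (hL : ⁅L, L⁆ ≤ EK V K) :
    C L := by
  let N := EK V K
  have hN : N.Normal := normal_EK hV
  let N' : Subgroup L := N.subgroupOf L
  have hN' : N'.Normal := inferInstance
  let D : Subgroup L := ⁅N', N'⁆
  have hD : D.Normal := inferInstance
  have hDG : ∀ d : L, d ∈ D → (d : G) ∈ ⁅N, N⁆ := by
    intro d hd
    have h1 : (d : G) ∈ D.map L.subtype := ⟨d, hd, rfl⟩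
    rw [Subgroup.map_commutator] at h1
    have h2 : N'.map L.subtype ≤ N := by
      rintro _ ⟨n, hn, rfl⟩
      exact hn
    exact Subgroup.commutator_mono h2 h2 h1
  have hQ : C (L ⧸ D) := by
    apply hmet
    rw [← map_derivedSeries_eq (QuotientGroup.mk'_surjective D) 2, eq_bot_iff]
    rintro _ ⟨d, hd, rfl⟩
    rw [Subgroup.mem_bot]
    refine (QuotientGroup.eq_one_iff _).2 ?_
    have h1 : derivedSeries L 1 ≤ N' := by
      intro x hx
      have h2 : (x : G) ∈ (derivedSeries L 1).map L.subtype := ⟨x, hx, rfl⟩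
      have h3 : derivedSeries L 1 = ⁅(⊤ : Subgroup L), (⊤ : Subgroup L)⁆ := derivedSeries_one L
      rw [h3, Subgroup.map_commutator] at h2
      apply hL
      refine Subgroup.commutator_mono ?_ ?_ h2
      · rintro _ ⟨n, _, rfl⟩
        exact n.2
      · rintro _ ⟨n, _, rfl⟩
        exact n.2
    have h2 : derivedSeries L 2 ≤ ⁅N', N'⁆ := by
      rw [derivedSeries_succ]
      exact Subgroup.commutator_mono h1 h1
    exact h2 hd
  have hT := hV.tree
  have hTL : TreeAct L T := ⟨hT.isTree, fun g v w h => hT.adj g v w h,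
    fun g v w h => hT.noInv g v w h⟩
  refine Q182.Fk.main hC (QuotientGroup.mk' D) hQ hTL ?_
    (fun x => Q182.Cen.st_mem hC.base.base L x (hst x))
  intro v w _
  refine ((comm_fin hV v).preimage (f := (Subtype.val : L → G))
    Subtype.val_injective.injOn).subset ?_
  rintro g ⟨h1, _, h2⟩
  exact ⟨hDG g ((QuotientGroup.eq_one_iff _).1 h2), h1⟩

/-- the induction step -/
theorem step {C : ∀ (G : Type) [Group G], Prop} (hC : ClosedA C)
    (hmet : ∀ (G : Type) [Group G], derivedSeries G 2 = ⊥ → C G) (hV : VK T A K)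
    (hst : ∀ v : V, C (MulAction.stabilizer G v)) (hN : (EK V K).Normal)
    (hQ : C (G ⧸ EK V K)) : C G := by
  refine hC.base.ext G (G ⧸ EK V K) (QuotientGroup.mk' (EK V K))
    (QuotientGroup.mk'_surjective _) hQ ?_
  rintro W ⟨c, hcW, hc⟩
  refine Q182.Cyl.fi_mem hC.base.base
    (K := (Subgroup.zpowers c).comap (QuotientGroup.mk' (EK V K))) ?_ ?_
  · rw [Subgroup.relIndex_comap,
      Subgroup.map_comap_eq_self_of_surjective (QuotientGroup.mk'_surjective _)]
    exact hc
  · refine cyc_mem hC hmet hV hst _ ?_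
    rw [Subgroup.commutator_le]
    rintro a ⟨i, hi⟩ b ⟨j, hj⟩
    refine (QuotientGroup.eq_one_iff _).1 ?_
    show QuotientGroup.mk' (EK V K) ⁅a, b⁆ = 1
    rw [map_commutatorElement, ← hi, ← hj, commutatorElement_eq_one_iff_commute]
    exact (Commute.refl c).zpow_zpow i j

end Q182.Hn
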