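import Pool.Agent.Q182.CylVc

/-!
# Torsion-free nilpotent groups
-/

set_option autoImplicit false

namespace Q182.Hn

open Q182.Cyl (InfOrd)
open scoped commutatorElement

variable {G : Type} [Group G]

theorem comm_pow_left {x y : G} (h : ∀ g : G, g * ⁅x, y⁆ = ⁅x, y⁆ * g) (m : ℕ) :
    ⁅x ^ m, y⁆ = ⁅x, y⁆ ^ m := by
  have h1 : x * y = ⁅x, y⁆ * y * x := by
    rw [commutatorElement_def]
    group
  have h2 : ∀ m : ℕ, x ^ m * y = ⁅x, y⁆ ^ m * y * x ^ m := by
    intro m
    induction m with
    | zero => simp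
    | succ m ih =>
      have e1 : x ^ (m + 1) * y = x ^ m * ⁅x, y⁆ * y * x := by
        rw [pow_succ, mul_assoc, h1]
        simp only [mul_assoc]
      rw [e1, h, mul_assoc (⁅x, y⁆) (x ^ m) y, ih, pow_succ', pow_succ]
      simp only [mul_assoc]
  rw [commutatorElement_def (x ^ m) y, h2 m]
  group

theorem comm_pow_right {x y : G} (h : ∀ g : G, g * ⁅x, y⁆ = ⁅x, y⁆ * g) (m : ℕ) :
    ⁅x, y ^ m⁆ = ⁅x, y⁆ ^ m := by
  have h1 : ∀ g : G, g * ⁅y, x⁆ = ⁅y, x⁆ * g := by
    intro g
    have h2 : ⁅y, x⁆ = ⁅x, y⁆⁻¹ := (commutatorElement_inv x y).symm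
    rw [h2, eq_inv_mul_iff_mul_eq, ← mul_assoc, ← h g, mul_assoc, mul_inv_cancel, mul_one]
  have h2 := comm_pow_left h1 m
  rw [← commutatorElement_inv (y ^ m) x, h2, ← commutatorElement_inv x y, inv_pow, inv_inv]

/-- commutators modulo a term of the upper central series -/
theorem comm_pow_mem {i : ℕ} {x y : G} (hc : ⁅x, y⁆ ∈ Subgroup.upperCentralSeries G (i + 1)) (m : ℕ) :
    (⁅x ^ m, y⁆ ∈ Subgroup.upperCentralSeries G i → ⁅x, y⁆ ^ m ∈ Subgroup.upperCentralSeries G i) ∧
    (⁅x, y ^ m⁆ ∈ Subgroup.upperCentralSeries G i → ⁅x, y⁆ ^ m ∈ Subgroup.upperCentralSeries G i) := by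
  let N := Subgroup.upperCentralSeries G i
  let f := QuotientGroup.mk' N
  have hf : ∀ g : G, f g = 1 ↔ g ∈ N := fun g => QuotientGroup.eq_one_iff g
  have hcen : ∀ g : G ⧸ N, g * ⁅f x, f y⁆ = ⁅f x, f y⁆ * g := by
    intro g
    obtain ⟨g, rfl⟩ := QuotientGroup.mk'_surjective N g
    have h1 : ⁅⁅x, y⁆, g⁆ ∈ N := Subgroup.mem_upperCentralSeries_succ_iff.1 hc g
    have h2 := (hf _).2 h1
    rw [map_commutatorElement, commutatorElement_eq_one_iff_mul_comm] at h2
    have h3 : f ⁅x, y⁆ = ⁅f x, f y⁆ := map_commutatorElement _ _ _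
    rw [h3] at h2
    exact h2.symm
  constructor
  · intro h
    have h1 := (hf _).2 h
    rw [map_commutatorElement, map_pow, comm_pow_left hcen, ← map_commutatorElement, ← map_pow] at h1
    exact (hf _).1 h1
  · intro h
    have h1 := (hf _).2 h
    rw [map_commutatorElement, map_pow, comm_pow_right hcen, ← map_commutatorElement,
      ← map_pow] at h1
    exact (hf _).1 h1

section

variable (htf : ∀ g : G, g ≠ 1 → InfOrd g)

include htf in
/-- the factors of the upper central series are torsion-free -/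
theorem ucs_isolated (i : ℕ) : ∀ x ∈ Subgroup.upperCentralSeries G (i + 1), ∀ m : ℕ, 0 < m →
    x ^ m ∈ Subgroup.upperCentralSeries G i → x ∈ Subgroup.upperCentralSeries G i := by
  induction i with
  | zero =>
    intro x _ m hm h
    rw [Subgroup.upperCentralSeries_zero, Subgroup.mem_bot] at h ⊢
    by_contra hne
    exact htf x hne m hm h
  | succ i ih =>
    intro x hx m hm h
    rw [Subgroup.mem_upperCentralSeries_succ_iff]
    intro y
    have hc : ⁅x, y⁆ ∈ Subgroup.upperCentralSeries G (i + 1) := Subgroup.mem_upperCentralSeries_succ_iff.1 hx y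
    exact ih _ hc m hm ((comm_pow_mem hc m).1 (Subgroup.mem_upperCentralSeries_succ_iff.1 h y))

variable [hnil : Group.IsNilpotent G]

include htf in
theorem center_isolated (x : G) (m : ℕ) (hm : 0 < m) (h : x ^ m ∈ Subgroup.center G) :
    x ∈ Subgroup.center G := by
  obtain ⟨n, hn⟩ := hnil.nilpotent'
  have key : ∀ k, x ∈ Subgroup.upperCentralSeries G (k + 1) → x ∈ Subgroup.upperCentralSeries G 1 := by
    intro k
    induction k with
    | zero => exact fun h => h
    | succ k ih =>
      intro hx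
      refine ih (ucs_isolated htf (k + 1) x hx m hm ?_)
      have h1 : x ^ m ∈ Subgroup.upperCentralSeries G 1 := by
        rw [Subgroup.upperCentralSeries_one]
        exact h
      exact Subgroup.upperCentralSeries_mono G (by omega) h1
  have h1 : x ∈ Subgroup.upperCentralSeries G (n + 1) := by
    have h2 : x ∈ Subgroup.upperCentralSeries G n := by
      rw [hn]
      exact Subgroup.mem_top x
    exact Subgroup.upperCentralSeries_mono G (by omega) h2
  have h2 := key n h1
  rwa [Subgroup.upperCentralSeries_one] at h2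

include htf in
theorem center_of_fc (h : G) (hfc : ∀ x : G, ∃ m : ℕ, 0 < m ∧ h * x ^ m = x ^ m * h) :
    h ∈ Subgroup.center G := by
  obtain ⟨n, hn⟩ := hnil.nilpotent'
  have key : ∀ k, h ∈ Subgroup.upperCentralSeries G (k + 1) → h ∈ Subgroup.upperCentralSeries G 1 := by
    intro k
    induction k with
    | zero => exact fun h => h
    | succ k ih =>
      intro hh
      refine ih ?_
      rw [Subgroup.mem_upperCentralSeries_succ_iff]
      intro x
      have hc : ⁅h, x⁆ ∈ Subgroup.upperCentralSeries G (k + 1) := Subgroup.mem_upperCentralSeries_succ_iff.1 hh x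
      obtain ⟨m, hm, h1⟩ := hfc x
      refine ucs_isolated htf k _ hc m hm ((comm_pow_mem hc m).2 ?_)
      have h2 : ⁅h, x ^ m⁆ = 1 := commutatorElement_eq_one_iff_mul_comm.2 h1
      rw [h2]
      exact Subgroup.one_mem _
  have h1 : h ∈ Subgroup.upperCentralSeries G (n + 1) := by
    have h2 : h ∈ Subgroup.upperCentralSeries G n := by
      rw [hn]
      exact Subgroup.mem_top h
    exact Subgroup.upperCentralSeries_mono G (by omega) h2
  have h2 := key n h1
  rwa [Subgroup.upperCentralSeries_one] at h2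

include htf in
theorem tf_quot (g : G ⧸ Subgroup.center G) (hg : g ≠ 1) : InfOrd g := by
  obtain ⟨x, rfl⟩ := QuotientGroup.mk'_surjective _ g
  intro m hm h
  apply hg
  rw [← map_pow] at h
  exact (QuotientGroup.eq_one_iff _).2
    (center_isolated htf x m hm ((QuotientGroup.eq_one_iff _).1 h))

end

end Q182.Hn
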