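import Pool.Agent.Q182.HvLog

/-!
# Virtually polycyclic groups and their commensurations
-/

set_option autoImplicit false

namespace Q182.Hn

open Q182.Cyl (InfOrd)
open Q182.Hv (KK mem_KK conj_KK)
open Subgroup (Commensurable)
open scoped Pointwise commutatorElement

/-! ## Finitely generated subgroups -/

variable {G : Type} [Group G]

theorem central_fg {A B : Subgroup G} (hB : B.FG) (h : B ≤ KK A) :
    (Subgroup.centralizer (B : Set G)).relIndex A ≠ 0 := by
  obtain ⟨s, hs⟩ := hB
  have h1 : (⨅ x : s, Subgroup.centralizer {(x : G)}).relIndex A ≠ 0 := by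
    refine Subgroup.relIndex_iInf_ne_zero ?_
    intro x
    refine mem_KK.1 (h ?_)
    rw [← hs]
    exact Subgroup.subset_closure x.2
  have h2 : (⨅ x : s, Subgroup.centralizer {(x : G)}) ≤ Subgroup.centralizer (B : Set G) := by
    intro z hz
    have h3 : B ≤ Subgroup.centralizer {z} := by
      rw [← hs, Subgroup.closure_le]
      intro x hx
      rw [SetLike.mem_coe, Subgroup.mem_centralizer_iff]
      intro y hy
      rw [Set.mem_singleton_iff.1 hy]
      have h4 := Subgroup.mem_iInf.1 hz ⟨x, hx⟩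
      rw [Subgroup.mem_centralizer_iff] at h4
      exact (h4 x rfl).symm
    rw [Subgroup.mem_centralizer_iff]
    intro b hb
    have h5 := h3 hb
    rw [Subgroup.mem_centralizer_iff] at h5
    exact (h5 z rfl).symm
  intro h0
  exact h1 (Subgroup.relIndex_eq_zero_of_le_left h2 h0)

theorem KK_anti {A A' : Subgroup G} (h : A' ≤ A) : KK A ≤ KK A' := by
  intro x hx
  rw [mem_KK] at hx ⊢
  exact fun h0 => hx (Subgroup.relIndex_eq_zero_of_le_right h h0)

theorem conj_KK' {H : Subgroup G} (g : G) {k : G} (hk : k ∈ KK H) :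
    g * k * g⁻¹ ∈ KK (ConjAct.toConjAct g • H) := by
  rw [mem_KK] at hk ⊢
  have h1 : Subgroup.centralizer {g * k * g⁻¹} = ConjAct.toConjAct g • Subgroup.centralizer {k} := by
    ext x
    rw [Subgroup.mem_pointwise_smul_iff_inv_smul_mem, ← ConjAct.toConjAct_inv,
      ConjAct.toConjAct_smul, inv_inv, Subgroup.mem_centralizer_iff, Subgroup.mem_centralizer_iff]
    constructor
    · intro h y hy
      rw [Set.mem_singleton_iff.1 hy]
      have e := h _ rfl
      have e2 : k * (g⁻¹ * x * g) = g⁻¹ * (g * k * g⁻¹ * x) * g := by group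
      rw [e2, e]
      group
    · intro h y hy
      rw [Set.mem_singleton_iff.1 hy]
      have e := h _ rfl
      have e2 : g * k * g⁻¹ * x = g * (k * (g⁻¹ * x * g)) * g⁻¹ := by group
      rw [e2, e]
      group
  rw [h1, Subgroup.relIndex_pointwise_smul]
  exact hk

/-- finitely generated abelian groups are virtually torsion-free -/
theorem exists_tf (M : Type) [AddCommGroup M] [Module.Finite ℤ M] :
    ∃ n : ℕ, 0 < n ∧ (∀ x : M, (∃ m : ℕ, 0 < m ∧ m • n • x = 0) → n • x = 0) ∧
      (AddMonoidHom.range (nsmulAddMonoidHom (α := M) n)).index ≠ 0 := by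
  have hfin : Finite (Submodule.torsion ℤ M) := by
    have : Module.IsTorsion ℤ (Submodule.torsion ℤ M) := Submodule.torsion_isTorsion
    exact Module.finite_of_fg_torsion _ this
  let n := Nat.card (Submodule.torsion ℤ M)
  have hn : 0 < n := Nat.card_pos
  refine ⟨n, hn, ?_, ?_⟩
  · rintro x ⟨m, hm, hx⟩
    have h1 : x ∈ Submodule.torsion ℤ M := by
      rw [Submodule.mem_torsion_iff]
      refine ⟨⟨((m * n : ℕ) : ℤ), mem_nonZeroDivisors_of_ne_zero (by positivity)⟩, ?_⟩
      show ((m * n : ℕ) : ℤ) • x = 0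
      rw [natCast_zsmul, mul_nsmul', hx]
    have h2 : n • (⟨x, h1⟩ : Submodule.torsion ℤ M) = 0 := card_nsmul_eq_zero'
    exact congrArg Subtype.val h2
  · let S : Submodule ℤ M := LinearMap.range ((n : ℤ) • (LinearMap.id : M →ₗ[ℤ] M))
    have hS : (AddMonoidHom.range (nsmulAddMonoidHom (α := M) n)) = S.toAddSubgroup := by
      ext x
      constructor
      · rintro ⟨y, rfl⟩
        refine ⟨y, ?_⟩
        show (n : ℤ) • y = n • y
        rw [natCast_zsmul]
      · rintro ⟨y, rfl⟩
        refine ⟨y, ?_⟩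
        show n • y = (n : ℤ) • y
        rw [natCast_zsmul]
    have hQ : Finite (M ⧸ S) := by
      refine Module.finite_of_fg_torsion _ ?_
      intro q
      obtain ⟨x, rfl⟩ := Submodule.Quotient.mk_surjective S q
      refine ⟨⟨(n : ℤ), mem_nonZeroDivisors_of_ne_zero (by positivity)⟩, ?_⟩
      show (n : ℤ) • (Submodule.Quotient.mk x : M ⧸ S) = 0
      rw [← Submodule.Quotient.mk_smul, Submodule.Quotient.mk_eq_zero]
      exact ⟨x, rfl⟩
    rw [hS]
    have : Finite (M ⧸ S.toAddSubgroup) := hQ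
    exact AddSubgroup.index_ne_zero_of_finite

theorem exists_tf' {Z : Subgroup G} (hfg : Z.FG) (hab : ∀ a ∈ Z, ∀ b ∈ Z, a * b = b * a) :
    ∃ A ≤ Z, A.relIndex Z ≠ 0 ∧ ∀ a ∈ A, a ≠ 1 → InfOrd a := by
  let iZ : CommGroup Z := { (inferInstance : Group Z) with
    mul_comm := fun a b => Subtype.ext (hab a a.2 b b.2) }
  have h1 : Group.FG Z := (Group.fg_iff_subgroup_fg Z).2 hfg
  have h2 : Module.Finite ℤ (Additive Z) :=
    Module.Finite.iff_addGroup_fg.2 (GroupFG.iff_add_fg.1 h1)
  obtain ⟨n, hn, h3, h4⟩ := exists_tf (Additive Z)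
  let A : Subgroup Z := (powMonoidHom (α := Z) n).range
  refine ⟨A.map Z.subtype, ?_, ?_, ?_⟩
  · rintro _ ⟨a, _, rfl⟩
    exact a.2
  · rw [Subgroup.relIndex, Subgroup.subgroupOf,
      Subgroup.comap_map_eq_self_of_injective Subtype.val_injective, ← Subgroup.index_toAddSubgroup]
    exact h4
  · rintro _ ⟨_, ⟨z, rfl⟩, rfl⟩ hne m hm h
    apply hne
    have h5 := h3 (Additive.ofMul z) ⟨m, hm, by
      show Additive.ofMul ((z ^ n) ^ m) = Additive.ofMul 1
      congr 1
      exact Subtype.ext h⟩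
    have h6 : z ^ n = 1 := h5
    show ((z ^ n : Z) : G) = 1
    rw [h6]
    rfl

end Q182.Hn
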