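import Pool.Agent.Q182.HnHom
import Pool.Agent.Q182.HnPoly
import Pool.Agent.Q182.HnNil
import Pool.Agent.Q182.HvCyl

/-!
# Trees with virtually nilpotent stabilizers
-/

set_option autoImplicit false

namespace Q182.Hn

open SimpleGraph
open Pool.Agent.Helper270.Tree
open Pool.Agent.Y110.FJ (ClosedE)
open Pool.Agent.Y462.SS (Closed)
open Q182.Cyl (ClosedA Est InfOrd CorF VcEdges cyl cyls fam_cyls infinite_inf infinite_of_le Est_smul
  Est_comm)
open Q182.Cen (Ell Orb mk mk_eq mk_smul exists_mk QG qAct treeAct_QG exists_lift bundle)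
open Q182.Hv (KK mem_KK conj_KK st_smul)
open Subgroup (Commensurable)
open Subgroup.Commensurable (commensurator commensurator_mem_iff)
open scoped Pointwise commutatorElement

theorem relIndex_map_ne {G G' : Type} [Group G] [Group G'] (f : G →* G') {H K : Subgroup G}
    (h : H.relIndex K ≠ 0) : (H.map f).relIndex (K.map f) ≠ 0 := by
  rw [← Subgroup.relIndex_comap]
  intro h0
  exact h (Subgroup.relIndex_eq_zero_of_le_left (Subgroup.le_comap_map f H) h0)

variable {C : ∀ (G : Type) [Group G], Prop}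

theorem relIndex_inf_K {G : Type} [Group G] {H S : Subgroup G} (K : Subgroup G)
    (h : H.relIndex S ≠ 0) : (H ⊓ K).relIndex (S ⊓ K) ≠ 0 := by
  have h1 : (H ⊓ K) ⊓ (S ⊓ K) = H ⊓ (S ⊓ K) := by
    ext x
    simp only [Subgroup.mem_inf]
    tauto
  have h2 : (H ⊓ K).relIndex (S ⊓ K) = H.relIndex (S ⊓ K) := by
    rw [← Subgroup.inf_relIndex_right, h1, Subgroup.inf_relIndex_right]
  rw [h2]
  intro h0
  exact h (Subgroup.relIndex_eq_zero_of_le_right inf_le_left h0)

/-- a class with the extension property which contains the metabelian groups contains the solvable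
groups -/
theorem solv_mem (hC : ClosedA C) (hmet : ∀ (G : Type) [Group G], derivedSeries G 2 = ⊥ → C G) :
    ∀ (n : ℕ) (G : Type) [Group G], derivedSeries G n = ⊥ → C G := by
  intro n
  induction n with
  | zero =>
    intro G _ h
    apply hmet
    rw [eq_bot_iff, ← h]
    exact derivedSeries_antitone G (Nat.zero_le 2)
  | succ n ih =>
    intro G _ h
    let N : Subgroup G := derivedSeries G n
    have hN : N.Normal := derivedSeries_normal G n
    have hab : ⁅N, N⁆ = ⊥ := by
      rw [← h, derivedSeries_succ]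
    have hQ : C (G ⧸ N) := by
      apply ih
      rw [← map_derivedSeries_eq (QuotientGroup.mk'_surjective N) n, eq_bot_iff]
      rintro _ ⟨d, hd, rfl⟩
      rw [Subgroup.mem_bot]
      exact (QuotientGroup.eq_one_iff _).2 hd
    refine hC.base.ext G (G ⧸ N) (QuotientGroup.mk' N) (QuotientGroup.mk'_surjective _) hQ ?_
    rintro W ⟨c, hcW, hc⟩
    refine Q182.Cyl.fi_mem hC.base.base
      (K := (Subgroup.zpowers c).comap (QuotientGroup.mk' N)) ?_ ?_
    · rw [Subgroup.relIndex_comap,
        Subgroup.map_comap_eq_self_of_surjective (QuotientGroup.mk'_surjective _)]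
      exact hc
    · apply hmet
      obtain ⟨L, hL⟩ : ∃ L : Subgroup G, L = (Subgroup.zpowers c).comap (QuotientGroup.mk' N) :=
        ⟨_, rfl⟩
      rw [← hL]
      have h1 : ⁅L, L⁆ ≤ N := by
        rw [Subgroup.commutator_le]
        intro a ha b hb
        rw [hL] at ha hb
        obtain ⟨i, hi⟩ := ha
        obtain ⟨j, hj⟩ := hb
        refine (QuotientGroup.eq_one_iff _).1 ?_
        show QuotientGroup.mk' N ⁅a, b⁆ = 1
        rw [map_commutatorElement, ← hi, ← hj, commutatorElement_eq_one_iff_commute]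
        exact (Commute.refl c).zpow_zpow i j
      have h2 : (derivedSeries L 2).map L.subtype ≤ ⁅N, N⁆ := by
        rw [derivedSeries_succ, Subgroup.map_commutator]
        have h3 : (derivedSeries L 1).map L.subtype ≤ N := by
          refine le_trans ?_ h1
          rw [derivedSeries_one, commutator_def, Subgroup.map_commutator]
          refine Subgroup.commutator_mono ?_ ?_
          · rintro _ ⟨n, _, rfl⟩
            exact n.2
          · rintro _ ⟨n, _, rfl⟩
            exact n.2
        exact Subgroup.commutator_mono h3 h3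
      rw [hab] at h2
      rw [eq_bot_iff]
      intro x hx
      have h3 := h2 ⟨x, hx, rfl⟩
      rw [Subgroup.mem_bot] at h3 ⊢
      exact Subtype.ext h3

theorem solv_mem' (hC : ClosedA C) (hmet : ∀ (G : Type) [Group G], derivedSeries G 2 = ⊥ → C G)
    (G : Type) [Group G] (h : Group.IsSolvable G) : C G := by
  obtain ⟨n, hn⟩ := h.solvable
  exact solv_mem hC hmet n G hn

/-- the statement for the group `H` -/
def Stm (C : ∀ (G : Type) [Group G], Prop) (H : Type) [Group H] : Prop :=
  (∀ h : H, h ≠ 1 → InfOrd h) → ∀ (G V : Type) [Group G] [MulAction G V] (T : SimpleGraph V)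
    (ι : H →* G), Function.Injective ι → TreeAct G T →
    (∀ v : V, Commensurable ι.range (MulAction.stabilizer G v)) →
    (∃ v : V, ι.range ≤ MulAction.stabilizer G v) → C G

theorem stm_base (hC : ClosedA C) (H : Type) [Group H] [Subsingleton H] : Stm C H := by
  intro _ G V _ _ T ι _ hT hcom _
  have hr : ι.range = ⊥ := by
    rw [eq_bot_iff]
    rintro _ ⟨h, rfl⟩
    rw [Subsingleton.elim h 1, map_one]
    exact Subgroup.mem_bot.2 rfl
  have hfin : ∀ v : V, Finite (MulAction.stabilizer G v) := by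
    intro v
    have h1 := (hcom v).1
    rw [hr] at h1
    exact Q182.Cyl.finite_of_index bot_le h1 inferInstance
  refine hC.acyl G G V (MonoidHom.id G) T 0 (fun g => ⟨g, rfl⟩) hT.isTree hT.adj hT.noInv ?_ ?_ ?_
  · intro v w _
    have := hfin v
    exact (Set.toFinite ((MulAction.stabilizer G v : Subgroup G) : Set G)).subset
      (fun g hg => hg.1)
  · intro v
    have := hfin v
    exact hC.base.base.of_injective _ _ (Subgroup.inclusion (by
      intro g hg
      exact hg)) (Subgroup.inclusion_injective _)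
      (Pool.Agent.Y430.SS.of_finite hC.base.base (MulAction.stabilizer G v) (hfin v))
  · intro W hW
    exact Q182.Cyl.vcyc_mem hC.base.base hW

theorem stm_step (hC : ClosedA C) (hmet : ∀ (G : Type) [Group G], derivedSeries G 2 = ⊥ → C G)
    (H : Type) [Group H] [hnil : Group.IsNilpotent H] (ih : Stm C (H ⧸ Subgroup.center H)) :
    Stm C H := by
  intro htf G V _ _ T ι hι hT hcom hex
  obtain ⟨v₀, hv₀⟩ := hex
  obtain ⟨R, hR⟩ : ∃ R : Subgroup G, R = ι.range := ⟨_, rfl⟩
  rw [← hR] at hcom hv₀
  have hιR : ∀ h, ι h ∈ R := fun h => by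
    rw [hR]
    exact ⟨h, rfl⟩
  -- elements of `R` which centralize a subgroup of finite index of `R`
  have hfc : ∀ h : H, ι h ∈ KK R → h ∈ Subgroup.center H := by
    intro h hh
    refine center_of_fc htf h ?_
    intro x
    obtain ⟨m, hm, _, h1⟩ := Subgroup.exists_pow_mem_of_relIndex_ne_zero (mem_KK.1 hh) (hιR x)
    have h2 := (Subgroup.mem_inf.1 h1).1
    rw [Subgroup.mem_centralizer_iff] at h2
    refine ⟨m, hm, hι ?_⟩
    rw [map_mul, map_mul, map_pow]
    exact h2 _ rfl
  have hcen : ∀ h ∈ Subgroup.center H, ∀ x ∈ R, ι h * x = x * ι h := by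
    intro h hh x hx
    rw [hR] at hx
    obtain ⟨y, rfl⟩ := hx
    rw [← map_mul, ← map_mul, Subgroup.mem_center_iff.1 hh y]
  have hcenK : ∀ h ∈ Subgroup.center H, ι h ∈ KK R := by
    intro h hh
    rw [mem_KK]
    have h1 : R ≤ Subgroup.centralizer {ι h} := by
      intro x hx
      rw [Subgroup.mem_centralizer_iff]
      intro y hy
      rw [Set.mem_singleton_iff.1 hy]
      exact hcen h hh x hx
    rw [Subgroup.relIndex_eq_one.2 h1]
    exact one_ne_zero
  have hconj : ∀ g : G, Commensurable (ConjAct.toConjAct g • R) R := by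
    intro g
    have h1 := (hcom v₀).conj (ConjAct.toConjAct g)
    rw [← st_smul] at h1
    exact h1.trans (hcom (g • v₀)).symm
  have hRK : ∀ a ∈ R ⊓ KK R, ∃ h ∈ Subgroup.center H, ι h = a := by
    intro a ha
    obtain ⟨h1, h2⟩ := Subgroup.mem_inf.1 ha
    rw [hR] at h1
    obtain ⟨h, rfl⟩ := h1
    exact ⟨h, hfc h h2, rfl⟩
  have hV : VK T (R ⊓ KK R) (KK R) := by
    refine ⟨hT, ?_, ?_, ?_, fun v => relIndex_inf_K _ (hcom v).1, ?_⟩
    · constructor
      intro k hk g
      exact conj_KK (hconj g) hk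
    · intro a ha b hb
      obtain ⟨h, hh, rfl⟩ := hRK a ha
      exact hcen h hh b (Subgroup.mem_inf.1 hb).1
    · intro a ha hne n hn h1
      obtain ⟨h, hh, rfl⟩ := hRK a ha
      refine htf h (fun h2 => hne (by rw [h2, map_one])) n hn (hι ?_)
      rw [map_pow, h1, map_one]
    · intro k hk h0
      exact mem_KK.1 hk (Subgroup.relIndex_eq_zero_of_le_right inf_le_left h0)
  have hsolH : C R := by
    have h1 : Group.IsSolvable H := inferInstance
    refine hC.base.base.of_injective R H ((MonoidHom.ofInjective hι).symm.toMonoidHom.comp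
      (Subgroup.inclusion hR.le)) ?_ (solv_mem' hC hmet H h1)
    exact (MonoidHom.ofInjective hι).symm.injective.comp (Subgroup.inclusion_injective _)
  have hst : ∀ v : V, C (MulAction.stabilizer G v) := fun v =>
    Q182.Cyl.fi_mem hC.base.base (hcom v).1 hsolH
  let N := EK V (KK R)
  have hN : N.Normal := normal_EK hV
  refine step hC hmet hV hst hN ?_
  let _ := qAct V N
  have hA : TreeAct (G ⧸ N) (QG T N) := treeAct_QG N hT ell_EK
  have hsm : ∀ (g : G) (x : V), (QuotientGroup.mk' N g) • mk N x = mk N (g • x) := fun g x => rfl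
  have hle : Subgroup.center H ≤ N.comap ι := by
    intro h hh
    exact mem_EK (hcenK h hh) (hv₀ (hιR h))
  let ι' : H ⧸ Subgroup.center H →* G ⧸ N := QuotientGroup.map _ _ ι hle
  have hι'r : ι'.range = R.map (QuotientGroup.mk' N) := by
    ext x
    constructor
    · rintro ⟨y, rfl⟩
      obtain ⟨h, rfl⟩ := QuotientGroup.mk'_surjective _ y
      exact ⟨ι h, hιR h, rfl⟩
    · rintro ⟨y, hy, rfl⟩
      rw [hR] at hy
      obtain ⟨h, rfl⟩ := hy
      exact ⟨QuotientGroup.mk' _ h, rfl⟩
  have hstab : ∀ v : V, MulAction.stabilizer (G ⧸ N) (mk N v) =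
      (MulAction.stabilizer G v).map (QuotientGroup.mk' N) := by
    intro v
    ext x
    constructor
    · intro hx
      obtain ⟨g, rfl⟩ := QuotientGroup.mk'_surjective _ x
      have hx' : (QuotientGroup.mk' N g) • mk N v = mk N v := hx
      rw [hsm] at hx'
      obtain ⟨n, hn, h1⟩ := mk_eq.1 hx'
      refine ⟨n⁻¹ * g, ?_, ?_⟩
      · show (n⁻¹ * g) • v = v
        rw [mul_smul, ← h1, inv_smul_smul]
      · have h2 : QuotientGroup.mk' N n = 1 := (QuotientGroup.eq_one_iff _).2 hn
        rw [map_mul, map_inv, h2, inv_one, one_mul]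
    · rintro ⟨g, hg, rfl⟩
      show (QuotientGroup.mk' N g) • mk N v = mk N v
      rw [hsm, show g • v = v from hg]
  refine ih (tf_quot htf) (G ⧸ N) (Orb V N) (QG T N) ι' ?_ hA ?_ ⟨mk N v₀, ?_⟩
  · rw [injective_iff_map_eq_one]
    intro x hx
    obtain ⟨h, rfl⟩ := QuotientGroup.mk'_surjective _ x
    have h1 : QuotientGroup.mk' N (ι h) = 1 := hx
    have h2 : ι h ∈ N := (QuotientGroup.eq_one_iff _).1 h1
    exact (QuotientGroup.eq_one_iff _).2 (hfc h (EK_le h2))
  · intro p
    obtain ⟨v, rfl⟩ := exists_mk p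
    rw [hι'r, hstab]
    exact ⟨relIndex_map_ne _ (hcom v).1, relIndex_map_ne _ (hcom v).2⟩
  · rw [hι'r, hstab]
    exact Subgroup.map_mono hv₀

theorem nilp (hC : ClosedA C) (hmet : ∀ (G : Type) [Group G], derivedSeries G 2 = ⊥ → C G)
    (H : Type) [Group H] [Group.IsNilpotent H] : Stm C H :=
  Group.nilpotent_center_quotient_ind (P := fun H _ _ => Stm C H) H
    (fun H _ _ => stm_base hC H) (fun H _ _ ih => stm_step hC hmet H ih)

end Q182.Hn
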