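import Pool.Agent.Q182.HnDer

/-!
# Trees with commensurable virtually polycyclic stabilizers
-/

set_option autoImplicit false

namespace Q182.Hn

open SimpleGraph
open Pool.Agent.Helper270.Tree
open Pool.Agent.Y110.FJ (ClosedE)
open Pool.Agent.Y462.SS (Closed)
open Q182.Cyl (ClosedA Est InfOrd CorF infinite_of_le)
open Q182.Cen (Ell Orb mk mk_eq mk_smul exists_mk QG qAct treeAct_QG exists_lift bundle)
open Q182.Hv (KK mem_KK conj_KK st_smul)
open Subgroup (Commensurable)
open scoped Pointwise commutatorElement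

theorem fg_map {G G' : Type} [Group G] [Group G'] (f : G →* G') {S : Subgroup G} (h : S.FG) :
    (S.map f).FG := by
  classical
  obtain ⟨s, rfl⟩ := h
  refine ⟨s.image f, ?_⟩
  rw [MonoidHom.map_closure, Finset.coe_image]

theorem wf_of_fg {H : Type} [Group H] (hfg : ∀ S : Subgroup H, S.FG) :
    WellFoundedGT (Subgroup H) := by
  classical
  rw [wellFoundedGT_iff_monotone_chain_condition]
  intro a
  have hdir : Directed (fun x y => x ≤ y) (fun n => a n) := fun i j =>
    ⟨max i j, a.monotone (le_max_left i j), a.monotone (le_max_right i j)⟩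
  obtain ⟨s, hs⟩ := hfg (⨆ n, a n)
  have key : ∀ t : Finset H, t ⊆ s → ∃ n, ∀ x ∈ t, x ∈ a n := by
    intro t
    induction t using Finset.induction with
    | empty =>
      intro _
      exact ⟨0, by simp⟩
    | insert x t hx ih =>
      intro hts
      obtain ⟨n, hn⟩ := ih ((Finset.subset_insert x t).trans hts)
      have h1 : x ∈ ⨆ n, a n := by
        rw [← hs]
        exact Subgroup.subset_closure (hts (Finset.mem_insert_self x t))
      obtain ⟨m, hm⟩ := (Subgroup.mem_iSup_of_directed hdir).1 h1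
      refine ⟨max n m, ?_⟩
      intro y hy
      rcases Finset.mem_insert.1 hy with rfl | hy
      · exact a.monotone (le_max_right n m) hm
      · exact a.monotone (le_max_left n m) (hn y hy)
  obtain ⟨n, hn⟩ := key s (Finset.Subset.refl s)
  refine ⟨n, fun m hm => le_antisymm (a.monotone hm) ?_⟩
  have h1 : (⨆ n, a n) ≤ a n := by
    rw [← hs, Subgroup.closure_le]
    exact hn
  exact (le_iSup (fun n => a n) m).trans h1

variable {C : ∀ (G : Type) [Group G], Prop}

/-- finite stabilizers -/
theorem fin_case (hC : ClosedA C) {G V : Type} [Group G] [MulAction G V] {T : SimpleGraph V}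
    (hT : TreeAct G T) (hfin : ∀ v : V, Finite (MulAction.stabilizer G v)) : C G := by
  refine hC.acyl G G V (MonoidHom.id G) T 0 (fun g => ⟨g, rfl⟩) hT.isTree hT.adj hT.noInv ?_ ?_ ?_
  · intro v w _
    have := hfin v
    exact (Set.toFinite ((MulAction.stabilizer G v : Subgroup G) : Set G)).subset
      (fun g hg => hg.1)
  · intro v
    have := hfin v
    exact hC.base.base.of_injective _ _ (Subgroup.inclusion (by
      intro g hg
      exact hg)) (Subgroup.inclusion_injective _)
      (Pool.Agent.Y430.SS.of_finite hC.base.base (MulAction.stabilizer G v) (hfin v))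
  · intro W hW
    exact Q182.Cyl.vcyc_mem hC.base.base hW

/-- the statement for the quotient of `H` by `N` -/
def StmQ (C : ∀ (G : Type) [Group G], Prop) (H : Type) [Group H] (N : Subgroup H) : Prop :=
  ∀ (G V : Type) [Group G] [MulAction G V] (T : SimpleGraph V) (ι : H →* G), ι.ker = N →
    TreeAct G T → (∀ v : V, Commensurable ι.range (MulAction.stabilizer G v)) →
    (∃ v : V, ι.range ≤ MulAction.stabilizer G v) → C G

theorem stmQ_step (hC : ClosedA C) (hmet : ∀ (G : Type) [Group G], derivedSeries G 2 = ⊥ → C G)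
    (H : Type) [Group H] (hfg : ∀ S : Subgroup H, S.FG)
    (hsol : ∃ S : Subgroup H, S.index ≠ 0 ∧ Group.IsSolvable S) (N₀ : Subgroup H)
    (ih : ∀ N', N₀ < N' → StmQ C H N') : StmQ C H N₀ := by
  intro G V _ _ T ι hker hT hcom hex
  obtain ⟨v₀, hv₀⟩ := hex
  obtain ⟨R, hR⟩ : ∃ R : Subgroup G, R = ι.range := ⟨_, rfl⟩
  rw [← hR] at hcom hv₀
  have hιR : ∀ h, ι h ∈ R := fun h => by
    rw [hR]
    exact ⟨h, rfl⟩
  by_cases hfin : Finite R
  · refine fin_case hC hT ?_
    intro v
    have h1 : Finite ↥(R ⊓ MulAction.stabilizer G v) :=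
      Finite.of_injective _ (Subgroup.inclusion_injective inf_le_left)
    refine Q182.Cyl.finite_of_index (inf_le_right : R ⊓ MulAction.stabilizer G v ≤ _) ?_ h1
    rw [Subgroup.inf_relIndex_right]
    exact (hcom v).1
  have hinf : Infinite R := not_finite_iff_infinite.1 hfin
  have hfg' : ∀ S ≤ R, S.FG := by
    intro S hS
    rw [hR] at hS
    rw [← Subgroup.map_comap_eq_self hS]
    exact fg_map ι (hfg _)
  obtain ⟨S₀, hS₀1, hS₀2⟩ := hsol
  have hsol' : ∃ S ≤ R, S.relIndex R ≠ 0 ∧ Group.IsSolvable S := by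
    refine ⟨S₀.map ι, ?_, ?_, ?_⟩
    · rintro _ ⟨h, _, rfl⟩
      exact hιR h
    · have h1 : R = (⊤ : Subgroup H).map ι := by
        rw [hR, MonoidHom.range_eq_map]
      rw [h1]
      refine relIndex_map_ne ι ?_
      rw [Subgroup.relIndex_top_right]
      exact hS₀1
    · have h2 : Function.Surjective (ι.subgroupMap S₀) := ι.subgroupMap_surjective S₀
      exact Group.isSolvable_of_surjective h2
  have hconj : ∀ g : G, Commensurable (ConjAct.toConjAct g • R) R := by
    intro g
    have h1 := (hcom v₀).conj (ConjAct.toConjAct g)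
    rw [← st_smul] at h1
    exact h1.trans (hcom (g • v₀)).symm
  obtain ⟨A, K, hKn, hAK, hAR, hAi, hab, htf, hcent, hAinf⟩ := exists_K hfg' hsol' hinf hconj
  have hV : VK T A K := ⟨hT, hKn, hab, htf,
    fun v => Subgroup.relIndex_ne_zero_trans hAi (relIndex_inf_K K (hcom v).1),
    fun k hk => mem_KK.1 (hcent hk)⟩
  have hst : ∀ v : V, C (MulAction.stabilizer G v) := by
    intro v
    obtain ⟨S, hS1, hS2, hS3⟩ := hsol'
    exact Q182.Cyl.fi_mem hC.base.base (Subgroup.relIndex_ne_zero_trans hS2 (hcom v).1)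
      (solv_mem' hC hmet S hS3)
  let N := EK V K
  have hN : N.Normal := normal_EK hV
  refine step hC hmet hV hst hN ?_
  let _ := qAct V N
  have hA : TreeAct (G ⧸ N) (QG T N) := treeAct_QG N hT ell_EK
  have hsm : ∀ (g : G) (x : V), (QuotientGroup.mk' N g) • mk N x = mk N (g • x) := fun g x => rfl
  let ι' : H →* G ⧸ N := (QuotientGroup.mk' N).comp ι
  have hι'r : ι'.range = R.map (QuotientGroup.mk' N) := by
    rw [hR]
    exact (MonoidHom.map_range _ _).symm
  have hstab : ∀ v : V, MulAction.stabilizer (G ⧸ N) (mk N v) =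
      (MulAction.stabilizer G v).map (QuotientGroup.mk' N) := by
    intro v
    ext x
    constructor
    · intro hx
      obtain ⟨g, rfl⟩ := QuotientGroup.mk'_surjective _ x
      have hx' : (QuotientGroup.mk' N g) • mk N v = mk N v := hx
      rw [hsm] at hx'
      obtain ⟨n, hn, h1⟩ := mk_eq.1 hx'
      refine ⟨n⁻¹ * g, ?_, ?_⟩
      · show (n⁻¹ * g) • v = v
        rw [mul_smul, ← h1, inv_smul_smul]
      · have h2 : QuotientGroup.mk' N n = 1 := (QuotientGroup.eq_one_iff _).2 hn
        rw [map_mul, map_inv, h2, inv_one, one_mul]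
    · rintro ⟨g, hg, rfl⟩
      show (QuotientGroup.mk' N g) • mk N v = mk N v
      rw [hsm, show g • v = v from hg]
  have hlt : N₀ < ι'.ker := by
    refine lt_of_le_of_ne ?_ ?_
    · rw [← hker]
      intro h hh
      show QuotientGroup.mk' N (ι h) = 1
      rw [MonoidHom.mem_ker.1 hh, map_one]
    · intro h0
      refine (not_finite_iff_infinite.2 hAinf) ?_
      have h1 : ∀ a ∈ A, a = 1 := by
        intro a ha
        have h2 := hAR ha
        rw [hR] at h2
        obtain ⟨h, rfl⟩ := h2
        have h3 : h ∈ ι'.ker :=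
          (QuotientGroup.eq_one_iff _).2 (mem_EK (hAK ha) (hv₀ (hAR ha)))
        rw [← h0, ← hker] at h3
        exact h3
      exact Finite.of_injective (β := Unit) (fun _ => ()) (fun a b _ => Subtype.ext (by
        rw [h1 a a.2, h1 b b.2]))
  refine ih ι'.ker hlt (G ⧸ N) (Orb V N) (QG T N) ι' rfl hA ?_ ⟨mk N v₀, ?_⟩
  · intro p
    obtain ⟨v, rfl⟩ := exists_mk p
    rw [hι'r, hstab]
    exact ⟨relIndex_map_ne _ (hcom v).1, relIndex_map_ne _ (hcom v).2⟩
  · rw [hι'r, hstab]
    exact Subgroup.map_mono hv₀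

theorem polyc (hC : ClosedA C) (hmet : ∀ (G : Type) [Group G], derivedSeries G 2 = ⊥ → C G)
    (H : Type) [Group H] (hfg : ∀ S : Subgroup H, S.FG)
    (hsol : ∃ S : Subgroup H, S.index ≠ 0 ∧ Group.IsSolvable S) (N₀ : Subgroup H) :
    StmQ C H N₀ := by
  have := wf_of_fg hfg
  induction N₀ using WellFoundedGT.induction with
  | _ N ih => exact stmQ_step hC hmet H hfg hsol N ih

end Q182.Hn
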