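import Pool.Agent.Q182.HvLog
import Pool.Agent.Q182.FkMain
import Pool.Agent.Q182.CenMain

/-!
# Trees whose vertex stabilizers are commensurable with a torsion-free abelian group
-/

set_option autoImplicit false

namespace Q182.Hv

open SimpleGraph
open Pool.Agent.Helper270.Tree
open Pool.Agent.Y110.FJ (ClosedE)
open Pool.Agent.Y462.SS (Closed)
open Q182.Cyl (ClosedA Est InfOrd)
open Q182.Cen (Ell Orb mk mk_eq mk_smul exists_mk QG qAct treeAct_QG exists_lift bundle)
open Subgroup (Commensurable)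
open scoped Pointwise commutatorElement

variable {G V : Type} [Group G] [MulAction G V] {T : SimpleGraph V}

/-- all vertex stabilizers are commensurable with the torsion-free abelian group `H` -/
structure VA (T : SimpleGraph V) (H : Subgroup G) : Prop where
  tree : TreeAct G T
  ab : ∀ a ∈ H, ∀ b ∈ H, a * b = b * a
  tf : ∀ a ∈ H, a ≠ 1 → InfOrd a
  com : ∀ v : V, Commensurable H (MulAction.stabilizer G v)

theorem st_smul (g : G) (v : V) : MulAction.stabilizer G (g • v) =
    ConjAct.toConjAct g • MulAction.stabilizer G v := by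
  ext x
  rw [Subgroup.mem_pointwise_smul_iff_inv_smul_mem, ← ConjAct.toConjAct_inv, ConjAct.toConjAct_smul,
    MulAction.mem_stabilizer_iff, MulAction.mem_stabilizer_iff, inv_inv, mul_smul, mul_smul,
    inv_smul_eq_iff]

variable {H : Subgroup G} (hV : VA T H)

include hV in
theorem conjH (g : G) : Commensurable (ConjAct.toConjAct g • H) H := by
  obtain ⟨v⟩ := hV.tree.isTree.connected.nonempty
  have h1 := (Subgroup.Commensurable.commensurable_conj (ConjAct.toConjAct g)).1 (hV.com v)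
  rw [← st_smul] at h1
  exact h1.trans (hV.com (g • v)).symm

/-- the subgroup generated by the elliptic elements of `KK H` -/
def EN (V : Type) [MulAction G V] (H : Subgroup G) : Subgroup G :=
  Subgroup.closure {k : G | k ∈ KK H ∧ ∃ v : V, k • v = v}

theorem mem_EN {k : G} {v : V} (h : k ∈ KK H) (hv : k • v = v) : k ∈ EN V H :=
  Subgroup.subset_closure ⟨h, v, hv⟩

theorem EN_le : EN V H ≤ KK H := by
  refine (Subgroup.closure_le _).2 ?_
  rintro k ⟨hk, _⟩
  exact hk

theorem ell_EN : Ell V (EN V H) := by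
  refine (Subgroup.closure_le _).2 ?_
  rintro k ⟨hk, v, hv⟩
  exact Subgroup.subset_closure ⟨mem_EN hk hv, v, hv⟩

include hV in
theorem normal_EN : (EN V H).Normal := by
  constructor
  intro m hm g
  have h1 : g * m * g⁻¹ ∈ (EN V H).map (MulAut.conj g).toMonoidHom := ⟨m, hm, rfl⟩
  rw [EN, MonoidHom.map_closure] at h1
  refine Subgroup.closure_mono ?_ h1
  rintro _ ⟨k, ⟨hk, v, hv⟩, rfl⟩
  refine ⟨conj_KK (conjH hV g) hk, g • v, ?_⟩
  show (g * k * g⁻¹) • g • v = g • v
  rw [smul_smul, inv_mul_cancel_right, mul_smul, hv]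

include hV in
theorem exists_pow {g : G} {v : V} (hg : g • v = v) : ∃ m : ℕ, 0 < m ∧ g ^ m ∈ H := by
  obtain ⟨m, hm, _, h⟩ := Subgroup.exists_pow_mem_of_relIndex_ne_zero (hV.com v).1
    (show g ∈ MulAction.stabilizer G v from hg)
  exact ⟨m, hm, (Subgroup.mem_inf.1 h).1⟩

section

variable {φ : G → ℚ} (hφ : ∀ a ∈ H, ∀ b ∈ H, φ (a * b) = φ a + φ b)

include hφ in
theorem lg_conj {k g : G} (hk : k ∈ KK H) (hg : ∃ m : ℕ, 0 < m ∧ g ^ m ∈ H) :
    lg H φ (k * g * k⁻¹) = lg H φ g := by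
  obtain ⟨m, hm, h1⟩ := hg
  obtain ⟨j, hj, _, h2⟩ := Subgroup.exists_pow_mem_of_relIndex_ne_zero hk h1
  have h3 := (Subgroup.mem_inf.1 h2).1
  rw [Subgroup.mem_centralizer_iff] at h3
  have h4 := h3 k rfl
  rw [← pow_mul] at h4
  have h5 : (k * g * k⁻¹) ^ (m * j) = g ^ (m * j) := by
    rw [conj_pow, h4, mul_inv_cancel_right]
  have h6 : g ^ (m * j) ∈ H := by
    rw [pow_mul]
    exact H.pow_mem h1 j
  have h7 : 0 < m * j := Nat.mul_pos hm hj
  rw [lg_eq hφ h7 h6, lg_eq hφ h7 (by rw [h5]; exact h6), h5]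

include hV hφ in
theorem lg_mul {k l : G} {v : V} (hk : k ∈ KK H) (hl : l ∈ KK H) (hkv : k • v = v)
    (hlv : l • v = v) : lg H φ (k * l) = lg H φ k + lg H φ l := by
  let B : Subgroup G := Subgroup.closure {k, l}
  have hkB : k ∈ B := Subgroup.subset_closure (by simp)
  have hlB : l ∈ B := Subgroup.subset_closure (by simp)
  have hBv : B ≤ MulAction.stabilizer G v := by
    refine (Subgroup.closure_le _).2 ?_
    rintro x (rfl | rfl)
    · exact hkv
    · exact hlv
  let Z : Subgroup G := Subgroup.centralizer {k} ⊓ Subgroup.centralizer {l}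
  have hZ : Z.relIndex H ≠ 0 := Subgroup.relIndex_inf_ne_zero hk hl
  have hZB : Z.relIndex B ≠ 0 := by
    have h1 : (Z ⊓ H).relIndex (MulAction.stabilizer G v) ≠ 0 := by
      have h2 : (Z ⊓ H).relIndex H ≠ 0 := by
        rw [Subgroup.inf_relIndex_right]
        exact hZ
      exact Subgroup.relIndex_ne_zero_trans h2 (hV.com v).1
    intro h0
    have h3 : Z.relIndex (MulAction.stabilizer G v) ≠ 0 := fun h => h1
      (Subgroup.relIndex_eq_zero_of_le_left inf_le_left h)
    exact h3 (Subgroup.relIndex_eq_zero_of_le_right hBv h0)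
  have hcen : Z.subgroupOf B ≤ Subgroup.center B := by
    rintro z hz
    have hz' := Subgroup.mem_inf.1 (show (z : G) ∈ Z from hz)
    rw [Subgroup.mem_center_iff]
    have hBc : B ≤ Subgroup.centralizer {(z : G)} := by
      refine (Subgroup.closure_le _).2 ?_
      rintro x (rfl | rfl)
      · rw [SetLike.mem_coe, Subgroup.mem_centralizer_iff]
        intro y hy
        rw [Set.mem_singleton_iff.1 hy]
        have e := hz'.1
        rw [Subgroup.mem_centralizer_iff] at e
        exact (e _ rfl).symm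
      · rw [SetLike.mem_coe, Subgroup.mem_centralizer_iff]
        intro y hy
        rw [Set.mem_singleton_iff.1 hy]
        have e := hz'.2
        rw [Subgroup.mem_centralizer_iff] at e
        exact (e _ rfl).symm
    intro g
    have e := hBc g.2
    rw [Subgroup.mem_centralizer_iff] at e
    exact Subtype.ext (e _ rfl).symm
  have hfi : (Subgroup.center B).FiniteIndex := by
    have h1 : (Z.subgroupOf B).FiniteIndex := ⟨hZB⟩
    exact Subgroup.finiteIndex_of_le hcen
  obtain ⟨n, hn⟩ : ∃ n, n = (Subgroup.center B).index := ⟨_, rfl⟩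
  have hn0 : 0 < n := by
    rw [hn]
    exact Nat.pos_of_ne_zero hfi.index_ne_zero
  have key : (k * l) ^ n = k ^ n * l ^ n := by
    have h1 := map_mul (MonoidHom.transferCenterPow B) ⟨k, hkB⟩ ⟨l, hlB⟩
    have h2 := congrArg (fun x : Subgroup.center B => ((x : B) : G)) h1
    simp only [Subgroup.coe_mul, MonoidHom.transferCenterPow_apply, Subgroup.coe_pow, ← hn] at h2
    exact h2
  have hcn : ∀ x ∈ B, ∀ y ∈ B, Commute (x ^ n) y := by
    intro x hx y hy
    have h1 : (⟨x, hx⟩ : B) ^ n ∈ Subgroup.center B := by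
      have h2 := (MonoidHom.transferCenterPow B ⟨x, hx⟩).2
      rw [MonoidHom.transferCenterPow_apply, ← hn] at h2
      exact h2
    rw [Subgroup.mem_center_iff] at h1
    have h2 := congrArg Subtype.val (h1 ⟨y, hy⟩)
    exact h2.symm
  obtain ⟨a, ha, ha1⟩ := exists_pow hV hkv
  obtain ⟨b, hb, hb1⟩ := exists_pow hV hlv
  have h1 : k ^ (n * (a * b)) ∈ H := by
    rw [mul_comm, mul_assoc, pow_mul]
    exact H.pow_mem ha1 _
  have h2 : l ^ (n * (a * b)) ∈ H := by
    rw [mul_comm n, mul_comm a, mul_assoc, pow_mul]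
    exact H.pow_mem hb1 _
  have h3 : (k * l) ^ (n * (a * b)) = k ^ (n * (a * b)) * l ^ (n * (a * b)) := by
    rw [pow_mul, key, ((hcn k hkB (l ^ n) (B.pow_mem hlB n))).mul_pow, ← pow_mul, ← pow_mul]
  have h4 : 0 < n * (a * b) := Nat.mul_pos hn0 (Nat.mul_pos ha hb)
  rw [lg_eq hφ h4 h1, lg_eq hφ h4 h2, lg_eq hφ h4 (by rw [h3]; exact H.mul_mem h1 h2), h3,
    hφ _ h1 _ h2, add_div]

include hV hφ in
theorem exists_lam : ∃ lam : EN V H →* Multiplicative ℚ, ∀ (k : EN V H) (v : V),
    (k : G) • v = v → lam k = Multiplicative.ofAdd (lg H φ k) := by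
  classical
  let N := EN V H
  have hN : N.Normal := normal_EN hV
  have hT := hV.tree
  choose s hs using fun w : Orb V N => exists_mk w
  have hk : ∀ x : V, ∃ k ∈ N, k • s (mk N x) = x := fun x => mk_eq.1 (hs (mk N x)).symm
  choose k hkN hk using hk
  let c : G → V → Multiplicative ℚ := fun m x =>
    Multiplicative.ofAdd (lg H φ ((k (m • x))⁻¹ * m * k x))
  have hfixs : ∀ m ∈ N, ∀ x, ((k (m • x))⁻¹ * m * k x) • s (mk N x) = s (mk N x) := by
    intro m hm x
    have h1 := hk (m • x)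
    rw [mk_smul hm] at h1
    rw [mul_smul, mul_smul, hk x, inv_smul_eq_iff, h1]
  have hmem : ∀ m ∈ N, ∀ x, ((k (m • x))⁻¹ * m * k x) ∈ N := fun m hm x =>
    N.mul_mem (N.mul_mem (N.inv_mem (hkN _)) hm) (hkN _)
  have hc : ∀ m ∈ N, ∀ n ∈ N, ∀ x, c (m * n) x = c m (n • x) * c n x := by
    intro m hm n hn x
    have h1 := hfixs m hm (n • x)
    rw [mk_smul hn] at h1
    have h2 := lg_mul hV hφ (EN_le (hmem m hm (n • x))) (EN_le (hmem n hn x)) h1 (hfixs n hn x)
    show Multiplicative.ofAdd (lg H φ ((k ((m * n) • x))⁻¹ * (m * n) * k x)) =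
      Multiplicative.ofAdd (lg H φ ((k (m • n • x))⁻¹ * m * k (n • x)) +
        lg H φ ((k (n • x))⁻¹ * n * k x))
    rw [← h2, mul_smul]
    congr 2
    group
  have hcx : ∀ m ∈ N, ∀ x, m • x = x → c m x = Multiplicative.ofAdd (lg H φ m) := by
    intro m hm x hx
    have h1 := lg_conj hφ (EN_le (hkN x)) (g := (k x)⁻¹ * m * k x)
      (exists_pow hV (v := s (mk N x)) (by
        have := hfixs m hm x
        rwa [hx] at this))
    have h2 : k x * ((k x)⁻¹ * m * k x) * (k x)⁻¹ = m := by group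
    rw [h2] at h1
    show Multiplicative.ofAdd (lg H φ ((k (m • x))⁻¹ * m * k x)) = _
    rw [hx, h1]
  obtain ⟨v₀⟩ := hT.isTree.connected.nonempty
  obtain ⟨lam, F, hF, hlam⟩ := bundle hT ell_EN c hc (by
    intro m hm x y hxy hx hy
    rw [hcx m hm x hx, hcx m hm y hy]) v₀
  refine ⟨lam, ?_⟩
  intro n x hx
  have h1 := hlam n x
  rw [hx, hcx n n.2 x hx] at h1
  rw [h1, mul_comm (F x), mul_inv_cancel_right]

end

include hV in
/-- the elements of the commutator subgroup with a fixed point have finite order -/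
theorem comm_tors {g : G} (hg : g ∈ ⁅EN V H, EN V H⁆) {v : V} (hv : g • v = v) :
    ∃ m : ℕ, 0 < m ∧ g ^ m = 1 := by
  obtain ⟨m, hm, hgm⟩ := exists_pow hV hv
  refine ⟨m, hm, ?_⟩
  by_contra hne
  let iH : CommGroup H := { (inferInstance : Group H) with
    mul_comm := fun a b => Subtype.ext (hV.ab a a.2 b b.2) }
  obtain ⟨χ, hχ⟩ := sep_rat (Additive H) (by
      intro a ha n hn h
      have h1 : a.toMul ≠ 1 := fun h2 => ha h2
      have h2 : ((a.toMul : H) : G) ≠ 1 := fun h3 => h1 (Subtype.ext h3)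
      refine hV.tf a.toMul a.toMul.2 h2 n hn ?_
      exact congrArg (fun x : Additive H => ((x.toMul : H) : G)) h)
    (Additive.ofMul ⟨g ^ m, hgm⟩) (fun h => hne (congrArg (fun x : Additive H =>
      ((x.toMul : H) : G)) h))
  classical
  let φ : G → ℚ := fun x => if h : x ∈ H then χ (Additive.ofMul ⟨x, h⟩) else 0
  have hφ : ∀ a ∈ H, ∀ b ∈ H, φ (a * b) = φ a + φ b := by
    intro a ha b hb
    simp only [φ, dif_pos ha, dif_pos hb, dif_pos (H.mul_mem ha hb)]
    rw [← map_add]
    rfl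
  obtain ⟨lam, hlam⟩ := exists_lam hV hφ
  have hgN : g ∈ EN V H := by
    have := normal_EN hV
    exact Subgroup.commutator_le_left _ _ hg
  have h1 : lam ⟨g, hgN⟩ = 1 := by
    have h2 : ⁅EN V H, EN V H⁆ ≤ lam.ker.map (EN V H).subtype := by
      rw [Subgroup.commutator_le]
      intro a ha b hb
      refine ⟨⁅(⟨a, ha⟩ : EN V H), (⟨b, hb⟩ : EN V H)⁆, ?_, rfl⟩
      show lam _ = 1
      rw [map_commutatorElement, commutatorElement_eq_one_iff_mul_comm, mul_comm]
    obtain ⟨x, hx, hx2⟩ := h2 hg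
    have h3 : x = ⟨g, hgN⟩ := Subtype.ext hx2
    rw [← h3]
    exact hx
  have h2 := hlam ⟨g, hgN⟩ v hv
  rw [h1] at h2
  have h3 : lg H φ g = 0 := (congrArg Multiplicative.toAdd h2).symm
  rw [lg_eq hφ hm hgm] at h3
  have h4 : φ (g ^ m) = 0 := by
    have h5 : (m : ℚ) ≠ 0 := by positivity
    rcases div_eq_zero_iff.1 h3 with h6 | h6
    · exact h6
    · exact absurd h6 h5
  apply hχ
  simp only [φ, dif_pos hgm] at h4
  exact h4

include hV in
theorem comm_fin (v : V) : {g : G | g ∈ ⁅EN V H, EN V H⁆ ∧ g • v = v}.Finite := by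
  let D : Subgroup G := ⁅EN V H, EN V H⁆ ⊓ MulAction.stabilizer G v
  have h1 : H.relIndex D ≠ 0 := by
    intro h0
    exact (hV.com v).1 (Subgroup.relIndex_eq_zero_of_le_right inf_le_right h0)
  have h2 : H ⊓ D = ⊥ := by
    rw [eq_bot_iff]
    rintro x hx
    obtain ⟨hx1, hx2⟩ := Subgroup.mem_inf.1 hx
    obtain ⟨hx3, hx4⟩ := Subgroup.mem_inf.1 hx2
    obtain ⟨m, hm, h⟩ := comm_tors hV hx3 hx4
    rw [Subgroup.mem_bot]
    by_contra hne
    exact hV.tf x hx1 hne m hm h
  have h3 : (⊥ : Subgroup G).relIndex D ≠ 0 := by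
    rw [← h2, Subgroup.inf_relIndex_right]
    exact h1
  have h4 : Finite D := Q182.Cyl.finite_of_index bot_le h3 inferInstance
  exact (Set.toFinite (D : Set G))

end Q182.Hv
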