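import Pool.Agent.Q182.CenTree
import Pool.Agent.Q182.CylVc

/-!
# Logarithms on groups commensurable with a torsion-free abelian group
-/

set_option autoImplicit false

namespace Q182.Hv

open Q182.Cyl (InfOrd)
open Subgroup (Commensurable)
open scoped Pointwise

variable {G : Type} [Group G]

/-- homomorphisms to the rationals separate torsion-free abelian groups -/
theorem sep_rat (A : Type) [AddCommGroup A] (htf : ∀ a : A, a ≠ 0 → ∀ n : ℕ, 0 < n → n • a ≠ 0)
    (a : A) (ha : a ≠ 0) : ∃ φ : A →+ ℚ, φ a ≠ 0 := by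
  let f : ℤ →+ A := zmultiplesHom A a
  have hf : Function.Injective f := by
    rw [injective_iff_map_eq_zero]
    intro n hn
    have hn' : n • a = 0 := hn
    by_contra hne
    rcases Int.natAbs_eq n with h | h
    · refine htf a ha n.natAbs (Int.natAbs_pos.2 hne) ?_
      rw [h] at hn'
      rwa [natCast_zsmul] at hn'
    · refine htf a ha n.natAbs (Int.natAbs_pos.2 hne) ?_
      rw [h, neg_zsmul, neg_eq_zero, natCast_zsmul] at hn'
      exact hn'
  obtain ⟨φ, hφ⟩ := (Module.Baer.of_divisible ℚ).extension_property_addMonoidHom f hf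
    (Int.castAddHom ℚ)
  refine ⟨φ, ?_⟩
  have h1 : φ a = 1 := by
    have h2 := DFunLike.congr_fun hφ 1
    have h3 : f 1 = a := one_zsmul a
    have h4 : (φ.comp f) 1 = φ (f 1) := rfl
    rw [h4, h3] at h2
    rw [h2]
    simp
  rw [h1]
  exact one_ne_zero

/-- the logarithm of an element with a power in `H` -/
noncomputable def lg (H : Subgroup G) (φ : G → ℚ) (g : G) : ℚ := by
  classical
  exact if h : ∃ m : ℕ, 0 < m ∧ g ^ m ∈ H then φ (g ^ h.choose) / h.choose else 0

variable {H : Subgroup G} {φ : G → ℚ} (hφ : ∀ a ∈ H, ∀ b ∈ H, φ (a * b) = φ a + φ b)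

include hφ in
theorem phi_pow {a : G} (ha : a ∈ H) (n : ℕ) : φ (a ^ n) = n * φ a := by
  have h1 : φ 1 = 0 := by
    have := hφ 1 H.one_mem 1 H.one_mem
    rw [mul_one] at this
    linarith
  induction n with
  | zero => simp [h1]
  | succ n ih =>
    rw [pow_succ, hφ _ (H.pow_mem ha n) _ ha, ih]
    push_cast
    ring

include hφ in
theorem lg_eq {g : G} {m : ℕ} (hm : 0 < m) (h : g ^ m ∈ H) : lg H φ g = φ (g ^ m) / m := by
  classical
  have hex : ∃ m : ℕ, 0 < m ∧ g ^ m ∈ H := ⟨m, hm, h⟩
  have h1 : lg H φ g = φ (g ^ hex.choose) / hex.choose := by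
    unfold lg
    rw [dif_pos hex]
  obtain ⟨h2, h3⟩ := hex.choose_spec
  rw [h1]
  have e1 := phi_pow hφ h3 m
  have e2 := phi_pow hφ h hex.choose
  rw [← pow_mul, mul_comm, pow_mul] at e1
  have h4 : (m : ℚ) ≠ 0 := by positivity
  have h5 : ((hex.choose : ℕ) : ℚ) ≠ 0 := by positivity
  rw [div_eq_div_iff h5 h4, mul_comm, ← e1, e2, mul_comm]

/-- the elements which centralize a subgroup of finite index of `H` -/
def KK (H : Subgroup G) : Subgroup G where
  carrier := {g | (Subgroup.centralizer {g}).relIndex H ≠ 0}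
  one_mem' := by
    show (Subgroup.centralizer {(1 : G)}).relIndex H ≠ 0
    have h1 : Subgroup.centralizer {(1 : G)} = ⊤ := by
      rw [eq_top_iff]
      intro x _
      rw [Subgroup.mem_centralizer_iff]
      rintro y hy
      rw [Set.mem_singleton_iff.1 hy, one_mul, mul_one]
    rw [h1, Subgroup.relIndex_top_left]
    exact one_ne_zero
  mul_mem' := by
    intro a b ha hb
    have h1 : Subgroup.centralizer {a} ⊓ Subgroup.centralizer {b} ≤ Subgroup.centralizer {a * b} := by
      intro x hxy
      obtain ⟨hx, hy⟩ := Subgroup.mem_inf.1 hxy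
      rw [Subgroup.mem_centralizer_iff] at hx hy
      rw [Subgroup.mem_centralizer_iff]
      intro y hy'
      have e1 := hx a rfl
      have e2 := hy b rfl
      rw [Set.mem_singleton_iff.1 hy', mul_assoc, e2, ← mul_assoc, e1, mul_assoc]
    intro h0
    have h2 := Subgroup.relIndex_eq_zero_of_le_left h1 h0
    exact Subgroup.relIndex_inf_ne_zero ha hb h2
  inv_mem' := by
    intro a ha
    have h1 : Subgroup.centralizer {a} ≤ Subgroup.centralizer {a⁻¹} := by
      intro x hx
      rw [Subgroup.mem_centralizer_iff] at hx ⊢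
      intro y hy
      have e1 := hx a rfl
      rw [Set.mem_singleton_iff.1 hy, inv_mul_eq_iff_eq_mul, ← mul_assoc, e1, mul_inv_cancel_right]
    intro h0
    exact ha (Subgroup.relIndex_eq_zero_of_le_left h1 h0)

theorem mem_KK {g : G} : g ∈ KK H ↔ (Subgroup.centralizer {g}).relIndex H ≠ 0 := Iff.rfl

theorem le_KK (hab : ∀ a ∈ H, ∀ b ∈ H, a * b = b * a) : H ≤ KK H := by
  intro h hh
  rw [mem_KK]
  have h1 : H ≤ Subgroup.centralizer {h} := by
    intro x hx
    rw [Subgroup.mem_centralizer_iff]
    intro y hy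
    rw [Set.mem_singleton_iff.1 hy]
    exact hab h hh x hx
  rw [Subgroup.relIndex_eq_one.2 h1]
  exact one_ne_zero

/-- the subgroup is normalized by the commensurator -/
theorem conj_KK {g k : G} (hg : Commensurable (ConjAct.toConjAct g • H) H) (hk : k ∈ KK H) :
    g * k * g⁻¹ ∈ KK H := by
  rw [mem_KK] at hk ⊢
  have h1 : Subgroup.centralizer {g * k * g⁻¹} = ConjAct.toConjAct g • Subgroup.centralizer {k} := by
    ext x
    rw [Subgroup.mem_pointwise_smul_iff_inv_smul_mem, ← ConjAct.toConjAct_inv,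
      ConjAct.toConjAct_smul, inv_inv, Subgroup.mem_centralizer_iff, Subgroup.mem_centralizer_iff]
    constructor
    · intro h y hy
      rw [Set.mem_singleton_iff.1 hy]
      have e := h _ rfl
      have e2 : k * (g⁻¹ * x * g) = g⁻¹ * (g * k * g⁻¹ * x) * g := by group
      rw [e2, e]
      group
    · intro h y hy
      rw [Set.mem_singleton_iff.1 hy]
      have e := h _ rfl
      have e2 : g * k * g⁻¹ * x = g * (k * (g⁻¹ * x * g)) * g⁻¹ := by group
      rw [e2, e]
      group
  rw [h1]
  have h2 : (ConjAct.toConjAct g • Subgroup.centralizer {k}).relIndex (ConjAct.toConjAct g • H) ≠ 0 := by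
    rw [Subgroup.relIndex_pointwise_smul]
    exact hk
  exact Subgroup.relIndex_ne_zero_trans h2 hg.1

end Q182.Hv
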