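import Pool.Agent.Q182.HvHom

/-!
# Trees whose edge stabilizers are of finite index in their commensurators
-/

set_option autoImplicit false

namespace Q182.Hv

open SimpleGraph
open Pool.Agent.Helper270.Tree
open Pool.Agent.Y110.FJ (ClosedE)
open Pool.Agent.Y462.SS (Closed)
open Q182.Cyl (ClosedA Est InfOrd)
open Q182.Cen (Ell Orb mk mk_eq mk_smul exists_mk QG qAct treeAct_QG exists_lift bundle)
open Subgroup (Commensurable)
open scoped Pointwise commutatorElement

variable {C : ∀ (G : Type) [Group G], Prop} {G V : Type} [Group G] [MulAction G V]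
  {T : SimpleGraph V} {H : Subgroup G}

theorem st_mem_VA (hC : ClosedA C) (hmet : ∀ (G : Type) [Group G], derivedSeries G 2 = ⊥ → C G)
    (hV : VA T H) (v : V) : C (MulAction.stabilizer G v) := by
  refine Q182.Cyl.fi_mem hC.base.base (hV.com v).1 ?_
  apply hmet
  have h1 : derivedSeries H 1 = ⊥ := by
    rw [derivedSeries_one]
    exact (commutator_eq_bot_iff_center_eq_top _).2 (by
      rw [eq_top_iff]
      intro g _
      rw [Subgroup.mem_center_iff]
      exact fun a => Subtype.ext (hV.ab a a.2 g g.2))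
  rw [derivedSeries_succ, h1]
  exact Subgroup.commutator_bot_left _

/-- subgroups which are abelian modulo the normal subgroup -/
theorem cyc_mem (hC : ClosedA C) (hmet : ∀ (G : Type) [Group G], derivedSeries G 2 = ⊥ → C G)
    (hV : VA T H) (K : Subgroup G) (hK : ⁅K, K⁆ ≤ EN V H) : C K := by
  let N := EN V H
  have hN : N.Normal := normal_EN hV
  let N' : Subgroup K := N.subgroupOf K
  have hN' : N'.Normal := inferInstance
  let D : Subgroup K := ⁅N', N'⁆
  have hD : D.Normal := inferInstance
  have hDG : ∀ d : K, d ∈ D → (d : G) ∈ ⁅N, N⁆ := by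
    intro d hd
    have h1 : (d : G) ∈ D.map K.subtype := ⟨d, hd, rfl⟩
    rw [Subgroup.map_commutator] at h1
    have h2 : N'.map K.subtype ≤ N := by
      rintro _ ⟨n, hn, rfl⟩
      exact hn
    exact Subgroup.commutator_mono h2 h2 h1
  have hQ : C (K ⧸ D) := by
    apply hmet
    rw [← map_derivedSeries_eq (QuotientGroup.mk'_surjective D) 2, eq_bot_iff]
    rintro _ ⟨d, hd, rfl⟩
    rw [Subgroup.mem_bot]
    refine (QuotientGroup.eq_one_iff _).2 ?_
    have h1 : derivedSeries K 1 ≤ N' := by
      intro x hx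
      have h2 : (x : G) ∈ (derivedSeries K 1).map K.subtype := ⟨x, hx, rfl⟩
      have h3 : derivedSeries K 1 = ⁅(⊤ : Subgroup K), (⊤ : Subgroup K)⁆ := derivedSeries_one K
      rw [h3, Subgroup.map_commutator] at h2
      apply hK
      refine Subgroup.commutator_mono ?_ ?_ h2
      · rintro _ ⟨n, _, rfl⟩
        exact n.2
      · rintro _ ⟨n, _, rfl⟩
        exact n.2
    have h2 : derivedSeries K 2 ≤ ⁅N', N'⁆ := by
      rw [derivedSeries_succ]
      exact Subgroup.commutator_mono h1 h1
    exact h2 hd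
  have hT := hV.tree
  have hTK : TreeAct K T := ⟨hT.isTree, fun g v w h => hT.adj g v w h,
    fun g v w h => hT.noInv g v w h⟩
  refine Q182.Fk.main hC (QuotientGroup.mk' D) hQ hTK ?_
    (fun x => Q182.Cen.st_mem hC.base.base K x (st_mem_VA hC hmet hV x))
  intro v w _
  refine ((comm_fin hV v).preimage (f := (Subtype.val : K → G))
    Subtype.val_injective.injOn).subset ?_
  rintro g ⟨h1, _, h2⟩
  exact ⟨hDG g ((QuotientGroup.eq_one_iff _).1 h2), h1⟩

/-- **groups acting on trees with vertex stabilizers commensurable with a torsion-free abelian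
group** -/
theorem main (hC : ClosedA C) (hmet : ∀ (G : Type) [Group G], derivedSeries G 2 = ⊥ → C G)
    (hV : VA T H) : C G := by
  let N := EN V H
  have hN : N.Normal := normal_EN hV
  have hT := hV.tree
  let _ := qAct V N
  have hA : TreeAct (G ⧸ N) (QG T N) := treeAct_QG N hT ell_EN
  have hsm : ∀ (g : G) (x : V), (QuotientGroup.mk' N g) • mk N x = mk N (g • x) := fun g x => rfl
  have hsurj := QuotientGroup.mk'_surjective N
  have hidx : ∀ v : V, N.relIndex (MulAction.stabilizer G v) ≠ 0 := by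
    intro v h0
    have h1 : (H ⊓ MulAction.stabilizer G v).relIndex (MulAction.stabilizer G v) ≠ 0 := by
      rw [Subgroup.inf_relIndex_right]
      exact (hV.com v).1
    refine h1 (Subgroup.relIndex_eq_zero_of_le_left ?_ h0)
    intro x hx
    obtain ⟨h2, h3⟩ := Subgroup.mem_inf.1 hx
    exact mem_EN (le_KK hV.ab h2) h3
  have hdec : ∀ (g : G) (v : V), mk N (g • v) = mk N v → ∃ n ∈ N, ∃ h : G, h • v = v ∧
      g = n * h := by
    intro g v hg
    obtain ⟨n, hn, h1⟩ := mk_eq.1 hg
    exact ⟨n, hn, n⁻¹ * g, by rw [mul_smul, ← h1, inv_smul_smul], by group⟩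
  have hCN : C N := cyc_mem hC hmet hV N (by
    exact Subgroup.commutator_le_left _ _)
  refine hC.acyl G (G ⧸ N) (Orb V N) (QuotientGroup.mk' N) (QG T N) 0 hsurj hA.isTree hA.adj
    hA.noInv ?_ ?_ ?_
  · intro p q _
    obtain ⟨v, rfl⟩ := exists_mk p
    have h1 : Finite ((MulAction.stabilizer G v).map (QuotientGroup.mk' N)) := by
      apply Nat.finite_of_card_ne_zero
      rw [← Subgroup.relIndex_ker, QuotientGroup.ker_mk']
      exact hidx v
    refine (Set.toFinite (((MulAction.stabilizer G v).map (QuotientGroup.mk' N) :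
      Subgroup (G ⧸ N)) : Set (G ⧸ N))).subset ?_
    rintro f ⟨hf, _⟩
    obtain ⟨g, rfl⟩ := hsurj f
    rw [hsm] at hf
    obtain ⟨n, hn, h, hh, rfl⟩ := hdec g v hf
    refine ⟨h, hh, ?_⟩
    have h2 : QuotientGroup.mk' N n = 1 := (QuotientGroup.eq_one_iff _).2 hn
    rw [map_mul, h2, one_mul]
  · intro p
    obtain ⟨v, rfl⟩ := exists_mk p
    refine Q182.Cyl.fi_mem hC.base.base (K := N) ?_ hCN
    have h1 : (MulAction.stabilizer (G ⧸ N) (mk N v)).comap (QuotientGroup.mk' N) ≤
        MulAction.stabilizer G v ⊔ N := by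
      intro g hg
      have hg' : (QuotientGroup.mk' N g) • mk N v = mk N v := hg
      rw [hsm] at hg'
      obtain ⟨n, hn, h, hh, rfl⟩ := hdec g v hg'
      rw [sup_comm]
      exact Subgroup.mul_mem_sup hn hh
    intro h0
    have h2 : N.relIndex (MulAction.stabilizer G v ⊔ N) ≠ 0 := by
      rw [Subgroup.relIndex_sup_right]
      exact hidx v
    exact h2 (Subgroup.relIndex_eq_zero_of_le_right h1 h0)
  · rintro W ⟨c, hcW, hc⟩
    refine Q182.Cyl.fi_mem hC.base.base (K := (Subgroup.zpowers c).comap (QuotientGroup.mk' N)) ?_ ?_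
    · rw [Subgroup.relIndex_comap, Subgroup.map_comap_eq_self_of_surjective hsurj]
      exact hc
    · refine cyc_mem hC hmet hV _ ?_
      rw [Subgroup.commutator_le]
      rintro a ⟨i, hi⟩ b ⟨j, hj⟩
      refine (QuotientGroup.eq_one_iff _).1 ?_
      show QuotientGroup.mk' N ⁅a, b⁆ = 1
      rw [map_commutatorElement, ← hi, ← hj, commutatorElement_eq_one_iff_commute]
      exact (Commute.refl c).zpow_zpow i j

end Q182.Hv
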