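import Pool.Agent.Q208.KI_FRQ
import Pool.Agent.Q121.KI_SUB
import Pool.Agent.Q71.KI_INV
import Pool.Agent.Q90.KI_GRW
import Pool.Agent.Q127.KI.Stm2

/-! Project KI2 (helper127), job FR2: uniform frequencies for two-sided windows. -/

set_option autoImplicit false

namespace Pool.Agent.Q182.KI2_FR2

open Pool.Agent.Q127.KI

theorem sub_tr (b : ℤ) (w : ℤ → Bool) (hw : w ∈ Pool.Agent.Q127.KI.Sub) :
    tr b w ∈ Pool.Agent.Q127.KI.Sub := by
  rw [Pool.Agent.Q127.KI.Sub, Set.mem_iInter] at hw ⊢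
  exact fun k => Pool.Agent.Q71.KI_INV.inv k b w (hw k)

theorem fr2 : S_fr2 := by
  intro a g hg1 hg2 ε hε
  obtain ⟨m, hm⟩ : ∃ m : ℕ, m = 2 * a + 1 := ⟨_, rfl⟩
  obtain ⟨k, hk⟩ := pow_unbounded_of_one_lt (4 * (m : ℝ) / ε) (one_lt_two : (1 : ℝ) < 2)
  obtain ⟨q, hq⟩ := exists_nat_gt (2 / ε)
  obtain ⟨Γ, hΓ⟩ := Pool.Agent.Q208.KI_FRQ.frq Pool.Agent.Q121.KI_SUB.sub m
    (fun w => g (sh^[a] w)) (fun w => hg1 _) (by
      intro w w' h
      apply hg2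
      intro i hi1 hi2
      rw [Pool.Agent.Q208.KI_FRQ.sh_iter, Pool.Agent.Q208.KI_FRQ.sh_iter]
      show w (i + a) = w' (i + a)
      have h3 := h (i + a).toNat (by omega)
      rwa [Int.toNat_of_nonneg (by omega)] at h3) k
  have hL := L_pos (k + 1)
  have hn0 : 0 < (q + 1) * L (k + 1) := Nat.mul_pos (Nat.succ_pos q) hL
  have hn0' : (0 : ℝ) < (((q + 1) * L (k + 1) : ℕ) : ℝ) := by exact_mod_cast hn0
  refine ⟨(q + 1) * L (k + 1), q * Γ / (((q + 1) * L (k + 1) : ℕ) : ℝ), hn0, fun w hw => ?_⟩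
  have h1 := hΓ (tr (-(a : ℤ)) w) (sub_tr _ w hw) q
  have h2 : ∀ i : ℕ, sh^[a] (sh^[i] (tr (-(a : ℤ)) w)) = sh^[i] w := by
    intro i
    rw [Pool.Agent.Q208.KI_FRQ.sh_iter, Pool.Agent.Q208.KI_FRQ.sh_iter,
      Pool.Agent.Q208.KI_FRQ.sh_iter]
    funext j
    show w (j + a + i + -(a : ℤ)) = w (j + i)
    congr 1
    ring
  simp only [h2] at h1
  rw [mul_div_cancel₀ _ hn0'.ne']
  refine h1.trans ?_
  have hN : (0 : ℝ) < N k := by exact_mod_cast N_pos k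
  have hLk : (4 * (m : ℝ) / ε) < (L k : ℝ) := by
    refine hk.trans_le ?_
    have := Pool.Agent.Q127.KI.grw.2 k
    exact_mod_cast this
  have hLk2 : 4 * (m : ℝ) < L k * ε := (div_lt_iff₀ hε).1 hLk
  have hq2 : 2 < (q : ℝ) * ε := (div_lt_iff₀ hε).1 hq
  have hq0 : (0 : ℝ) ≤ q := Nat.cast_nonneg q
  have hLL : (L (k + 1) : ℝ) = N k * L k := by
    rw [show L (k + 1) = N k * L k from rfl]
    push_cast
    ring
  have hL0 : (0 : ℝ) < L k := by exact_mod_cast L_pos k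
  have e1 : (q : ℝ) * (2 * m * N k) ≤ ε / 2 * ((q + 1) * (N k * L k)) := by
    have t1 : (q : ℝ) * N k * (4 * m) ≤ q * N k * (L k * ε) :=
      mul_le_mul_of_nonneg_left hLk2.le (by positivity)
    have t2 : (0 : ℝ) ≤ ε * (N k * L k) := by positivity
    nlinarith
  have e2 : (N k : ℝ) * L k ≤ ε / 2 * ((q + 1) * (N k * L k)) := by
    have t1 : (N k * L k : ℝ) * 2 ≤ N k * L k * (q * ε) :=
      mul_le_mul_of_nonneg_left hq2.le (by positivity)
    have t2 : (0 : ℝ) ≤ ε * (N k * L k) := by positivity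
    nlinarith
  rw [Nat.cast_mul, hLL]
  push_cast
  linarith

end Pool.Agent.Q182.KI2_FR2
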