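import Mathlib

/-!
# A combinatorial lemma on ladder systems

`T` is a well-order in which every subset of cardinality less than that of `T` is bounded. The
group `H` is generated by the unit vectors and the indicators of ladders in `(ℤ/2)^T`.
-/

namespace Q182.Ladder

open Set Cardinal

variable {T : Type} [LinearOrder T]

/-- `η` is a strictly increasing sequence cofinal below `l`. -/
def IsLadder (η : ℕ → T) (l : T) : Prop :=
  StrictMono η ∧ (∀ n, η n < l) ∧ ∀ β < l, ∃ n, β ≤ η n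

/-- The points that have a ladder. -/
def Lim : Set T := {l | ∃ η : ℕ → T, IsLadder η l}

open Classical in
/-- The chosen ladder at `l`. -/
noncomputable def lad (l : T) : ℕ → T := if h : ∃ η : ℕ → T, IsLadder η l then h.choose else fun _ => l

lemma isLadder_lad {l : T} (hl : l ∈ (Lim : Set T)) : IsLadder (lad l) l := by
  have h : ∃ η : ℕ → T, IsLadder η l := hl
  rw [lad, dif_pos h]
  exact h.choose_spec

open Classical in
/-- The indicator of the ladder at `l`. -/
noncomputable def xx (l : T) : T → ZMod 2 := fun β => if β ∈ range (lad l) then 1 else 0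

lemma xx_of_mem {l β : T} (h : β ∈ range (lad l)) : xx l β = 1 := if_pos h

lemma xx_of_notMem {l β : T} (h : β ∉ range (lad l)) : xx l β = 0 := if_neg h

open Classical in
/-- The unit vector at `α`. -/
noncomputable def unit (α : T) : T → ZMod 2 := Pi.single α 1

/-- The generators bounded by `ε`. -/
def Gen' (ε : T) : Set (T → ZMod 2) := unit '' (Iio ε) ∪ xx '' ((Lim : Set T) ∩ Iic ε)

/-- The generators of the group. -/
def Gen : Set (T → ZMod 2) := range (unit : T → T → ZMod 2) ∪ xx '' (Lim : Set T)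

/-- The group of the example. -/
def H : Submodule (ZMod 2) (T → ZMod 2) := Submodule.span (ZMod 2) Gen

lemma Gen'_subset (ε : T) : Gen' ε ⊆ (Gen : Set (T → ZMod 2)) := by
  rintro v (⟨α, -, rfl⟩ | ⟨l, ⟨hl, -⟩, rfl⟩)
  · exact Or.inl ⟨α, rfl⟩
  · exact Or.inr ⟨l, hl, rfl⟩

open Classical in
/-- Truncation at `δ`. -/
noncomputable def trunc (δ : T) : (T → ZMod 2) →ₗ[ZMod 2] (T → ZMod 2) where
  toFun v β := if β < δ then v β else 0
  map_add' v w := by
    funext β
    by_cases h : β < δ <;> simp [h]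
  map_smul' c v := by
    funext β
    by_cases h : β < δ <;> simp [h]

lemma trunc_lt {δ β : T} (h : β < δ) (v : T → ZMod 2) : trunc δ v β = v β := if_pos h

lemma trunc_ge {δ β : T} (h : δ ≤ β) (v : T → ZMod 2) : trunc δ v β = 0 := if_neg (not_lt.2 h)

/-- Finitely supported functions with support below `ε` are in the span of `Gen' ε`. -/
lemma fin_mem (ε : T) (v : T → ZMod 2) (hv : {β | v β ≠ 0}.Finite) (hε : ∀ β, ε ≤ β → v β = 0) :
    v ∈ Submodule.span (ZMod 2) (Gen' ε) := by
  classical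
  have h : v = ∑ β ∈ hv.toFinset, v β • unit β := by
    funext γ
    rw [Finset.sum_apply]
    by_cases hγ : v γ = 0
    · rw [hγ, Finset.sum_eq_zero]
      intro β hβ
      have hβ' : v β ≠ 0 := by simpa using hβ
      have : γ ≠ β := by
        rintro rfl
        exact hβ' hγ
      simp [unit, Pi.single_eq_of_ne this]
    · rw [Finset.sum_eq_single γ]
      · simp [unit]
      · intro β _ hβγ
        simp [unit, Pi.single_eq_of_ne (Ne.symm hβγ)]
      · intro h
        exact absurd (by simpa using hγ) h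
  rw [h]
  refine Submodule.sum_mem _ fun β hβ => Submodule.smul_mem _ _ (Submodule.subset_span ?_)
  have hβ' : v β ≠ 0 := by simpa using hβ
  refine Or.inl ⟨β, ?_, rfl⟩
  by_contra h'
  exact hβ' (hε β (not_lt.1 h'))

/-- Only finitely many elements of a ladder lie below a smaller point. -/
lemma finite_below {l δ : T} (hl : l ∈ (Lim : Set T)) (h : δ < l) :
    {β | xx l β ≠ 0 ∧ β < δ}.Finite := by
  obtain ⟨h1, h2, h3⟩ := isLadder_lad hl
  obtain ⟨n, hn⟩ := h3 δ h
  refine ((Finset.range n).finite_toSet.image (lad l)).subset ?_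
  rintro β ⟨hβ1, hβ2⟩
  have : β ∈ range (lad l) := by
    by_contra hcon
    exact hβ1 (xx_of_notMem hcon)
  obtain ⟨i, rfl⟩ := this
  refine ⟨i, ?_, rfl⟩
  simp only [Finset.coe_range, mem_Iio]
  exact h1.lt_iff_lt.1 (lt_of_lt_of_le hβ2 hn)

lemma trunc_mem (ε : T) {v : T → ZMod 2} (hv : v ∈ (H : Submodule (ZMod 2) (T → ZMod 2))) :
    trunc ε v ∈ Submodule.span (ZMod 2) (Gen' ε) := by
  have h : (H : Submodule (ZMod 2) (T → ZMod 2)) ≤
      (Submodule.span (ZMod 2) (Gen' ε)).comap (trunc ε) := by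
    rw [H, Submodule.span_le]
    rintro w (⟨α, rfl⟩ | ⟨l, hl, rfl⟩)
    · apply fin_mem
      · refine (Set.finite_singleton α).subset ?_
        intro β hβ
        by_contra hne
        have hne' : β ≠ α := hne
        apply hβ
        by_cases h : β < ε
        · rw [trunc_lt h, unit, Pi.single_eq_of_ne hne']
        · rw [trunc_ge (not_lt.1 h)]
      · intro β hβ
        exact trunc_ge hβ _
    · rcases le_or_gt l ε with hle | hlt
      · have : trunc ε (xx l) = xx l := by
          funext β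
          by_cases h : β < ε
          · exact trunc_lt h _
          · rw [trunc_ge (not_lt.1 h), xx_of_notMem]
            rintro ⟨i, rfl⟩
            exact h (((isLadder_lad hl).2.1 i).trans_le hle)
        show trunc ε (xx l) ∈ Submodule.span (ZMod 2) (Gen' ε)
        rw [this]
        exact Submodule.subset_span (Or.inr ⟨l, ⟨hl, hle⟩, rfl⟩)
      · apply fin_mem
        · refine (finite_below hl hlt).subset ?_
          intro β hβ
          by_cases h : β < ε
          · exact ⟨by rw [← trunc_lt h (xx l)]; exact hβ, h⟩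
          · exact absurd (trunc_ge (not_lt.1 h) _) hβ
        · intro β hβ
          exact trunc_ge hβ _
  exact h hv

lemma trunc_mem_H (ε : T) {v : T → ZMod 2} (hv : v ∈ (H : Submodule (ZMod 2) (T → ZMod 2))) :
    trunc ε v ∈ (H : Submodule (ZMod 2) (T → ZMod 2)) :=
  Submodule.span_mono (Gen'_subset ε) (trunc_mem ε hv)

/-- Functions vanishing on a final segment below `l`. -/
def Ev {l : T} (hl : l ∈ (Lim : Set T)) : Submodule (ZMod 2) (T → ZMod 2) where
  carrier := {v | ∃ δ < l, ∀ β, δ ≤ β → β < l → v β = 0}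
  zero_mem' := ⟨lad l 0, (isLadder_lad hl).2.1 0, fun _ _ _ => rfl⟩
  add_mem' := by
    rintro v w ⟨δ, hδ, hv⟩ ⟨δ', hδ', hw⟩
    refine ⟨max δ δ', max_lt hδ hδ', fun β h1 h2 => ?_⟩
    rw [Pi.add_apply, hv β ((le_max_left _ _).trans h1) h2, hw β ((le_max_right _ _).trans h1) h2,
      add_zero]
  smul_mem' := by
    rintro c v ⟨δ, hδ, hv⟩
    refine ⟨δ, hδ, fun β h1 h2 => ?_⟩
    rw [Pi.smul_apply, hv β h1 h2, smul_zero]

lemma mem_Ev {l : T} (hl : l ∈ (Lim : Set T)) (v : T → ZMod 2) :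
    v ∈ Ev hl ↔ ∃ δ < l, ∀ β, δ ≤ β → β < l → v β = 0 := Iff.rfl

lemma fin_mem_Ev {l : T} (hl : l ∈ (Lim : Set T)) (v : T → ZMod 2)
    (hv : {β | v β ≠ 0 ∧ β < l}.Finite) : v ∈ Ev hl := by
  classical
  have hc : ∀ β : T, ∃ n, β < l → β ≤ lad l n := by
    intro β
    by_cases h : β < l
    · obtain ⟨n, hn⟩ := (isLadder_lad hl).2.2 β h
      exact ⟨n, fun _ => hn⟩
    · exact ⟨0, fun h' => absurd h' h⟩
  choose f hf using hc
  refine ⟨lad l (hv.toFinset.sup f + 1), (isLadder_lad hl).2.1 _, fun β h1 h2 => ?_⟩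
  by_contra h3
  have h4 : β ∈ hv.toFinset := by
    rw [Set.Finite.mem_toFinset]
    exact ⟨h3, h2⟩
  have h5 := Finset.le_sup (f := f) h4
  have h6 : lad l (f β) < lad l (hv.toFinset.sup f + 1) := (isLadder_lad hl).1 (by omega)
  exact absurd (h1.trans (hf β h2)) (not_le.2 h6)

lemma xx_notMem_Ev {l : T} (hl : l ∈ (Lim : Set T)) {v : T → ZMod 2}
    (hv : ∀ β < l, v β = xx l β) : v ∉ Ev hl := by
  rintro ⟨δ, hδ, h⟩
  obtain ⟨n, hn⟩ := (isLadder_lad hl).2.2 δ hδ
  have h1 := h _ hn ((isLadder_lad hl).2.1 n)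
  rw [hv _ ((isLadder_lad hl).2.1 n), xx_of_mem ⟨n, rfl⟩] at h1
  exact absurd h1 (by decide)

lemma H_le {l : T} (hl : l ∈ (Lim : Set T)) :
    (H : Submodule (ZMod 2) (T → ZMod 2)) ≤ Ev hl ⊔ Submodule.span (ZMod 2) {xx l} := by
  rw [H, Submodule.span_le]
  rintro w (⟨α, rfl⟩ | ⟨m, hm, rfl⟩)
  · apply Submodule.mem_sup_left
    apply fin_mem_Ev
    refine (Set.finite_singleton α).subset ?_
    rintro β ⟨hβ, -⟩
    by_contra hne
    have hne' : β ≠ α := hne
    exact hβ (by rw [unit, Pi.single_eq_of_ne hne'])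
  · rcases lt_trichotomy m l with h | h | h
    · apply Submodule.mem_sup_left
      refine ⟨m, h, fun β h1 _ => xx_of_notMem ?_⟩
      rintro ⟨i, rfl⟩
      exact absurd h1 (not_le.2 ((isLadder_lad hm).2.1 i))
    · subst h
      exact Submodule.mem_sup_right (Submodule.mem_span_singleton_self _)
    · apply Submodule.mem_sup_left
      exact fin_mem_Ev hl _ (finite_below hm h)

lemma zmod_two_cases : ∀ c : ZMod 2, c = 0 ∨ c = 1 := by decide

lemma dichotomy {l : T} (hl : l ∈ (Lim : Set T)) {v : T → ZMod 2}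
    (hv : v ∈ (H : Submodule (ZMod 2) (T → ZMod 2))) (hv' : v ∉ Ev hl) :
    ∃ δ < l, ∀ β, δ ≤ β → β < l → v β = xx l β := by
  obtain ⟨p, hp, q, hq, rfl⟩ := Submodule.mem_sup.1 (H_le hl hv)
  obtain ⟨c, rfl⟩ := Submodule.mem_span_singleton.1 hq
  rcases zmod_two_cases c with rfl | rfl
  · exact absurd (by simpa using hp) hv'
  · obtain ⟨δ, hδ, h⟩ := hp
    refine ⟨δ, hδ, fun β h1 h2 => ?_⟩
    rw [Pi.add_apply, h β h1 h2, one_smul, zero_add]

variable [WellFoundedLT T]

/-- The least strict upper bound of a bounded sequence. -/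
lemma exists_sup (u : ℕ → T) (hu : StrictMono u) (hb : ∃ b, ∀ n, u n < b) :
    ∃ l : T, IsLadder u l := by
  let S : Set T := {b | ∀ n, u n < b}
  have hS : S.Nonempty := hb
  refine ⟨WellFounded.min (wellFounded_lt : WellFounded ((· < ·) : T → T → Prop)) S hS, hu,
    WellFounded.min_mem _ S hS, fun β hβ => ?_⟩
  by_contra hcon
  push Not at hcon
  exact WellFounded.not_lt_min _ S hcon hβ

/-- The closing-off lemma. -/
lemma exists_closed (hIic : ∀ a : T, #(Iic a) < #T)
    (hbd : ∀ A : Set T, #A < #T → ∃ b, ∀ a ∈ A, a < b) (hunc : ℵ₀ < #T) (g : T → T) (ε : T) :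
    ∃ δ : T, ε < δ ∧ δ ∈ (Lim : Set T) ∧ ∀ ε' < δ, g ε' < δ := by
  -- a strict bound for `g` on initial segments
  have h1 : ∀ e : T, ∃ b, e < b ∧ ∀ a ≤ e, g a < b := by
    intro e
    have h2 : #(insert e (g '' (Iic e)) : Set T) < #T := by
      refine (mk_insert_le).trans_lt ?_
      have h3 : #(g '' (Iic e)) < #T := mk_image_le.trans_lt (hIic e)
      rcases lt_or_ge (#(g '' (Iic e))) ℵ₀ with h | h
      · exact (add_lt_aleph0 h one_lt_aleph0).trans hunc
      · rw [add_one_eq h]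
        exact h3
    obtain ⟨b, hb⟩ := hbd _ h2
    exact ⟨b, hb e (mem_insert _ _), fun a ha => hb _ (mem_insert_of_mem _ ⟨a, ha, rfl⟩)⟩
  choose f hf1 hf2 using h1
  let u : ℕ → T := fun n => Nat.rec (f ε) (fun _ x => f x) n
  have hu : StrictMono u := strictMono_nat_of_lt_succ fun n => hf1 (u n)
  have hb : ∃ b, ∀ n, u n < b := by
    have h2 : #(range u) < #T := (mk_range_le.trans (by simp)).trans_lt hunc
    obtain ⟨b, hb⟩ := hbd _ h2
    exact ⟨b, fun n => hb _ ⟨n, rfl⟩⟩
  obtain ⟨l, hl⟩ := exists_sup u hu hb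
  refine ⟨l, (hf1 ε).trans (hl.2.1 0), ⟨u, hl⟩, fun e he => ?_⟩
  obtain ⟨n, hn⟩ := hl.2.2 e he
  exact (hf2 (u n) e hn).trans (hl.2.1 (n + 1))

/-- The number of elements of `H` supported below `ε` is small. -/
lemma card_below (hIic : ∀ a : T, #(Iic a) < #T) (hunc : ℵ₀ < #T) (ε : T) :
    #{q : T → ZMod 2 | q ∈ (H : Submodule (ZMod 2) (T → ZMod 2)) ∧ ∀ β, ε ≤ β → q β = 0} < #T := by
  have h1 : {q : T → ZMod 2 | q ∈ (H : Submodule (ZMod 2) (T → ZMod 2)) ∧
      ∀ β, ε ≤ β → q β = 0} ⊆ (Submodule.span (ZMod 2) (Gen' ε) : Set (T → ZMod 2)) := by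
    rintro q ⟨hq, hq'⟩
    have : trunc ε q = q := by
      funext β
      by_cases h : β < ε
      · exact trunc_lt h _
      · rw [trunc_ge (not_lt.1 h), hq' β (not_lt.1 h)]
    rw [← this]
    exact trunc_mem ε hq
  refine (mk_le_mk_of_subset h1).trans_lt ?_
  have h2 : #(Gen' ε) < #T := by
    refine (mk_union_le _ _).trans_lt ?_
    have h3 : #(unit '' (Iio ε) : Set (T → ZMod 2)) < #T :=
      mk_image_le.trans_lt ((mk_le_mk_of_subset Iio_subset_Iic_self).trans_lt (hIic ε))
    have h4 : #(xx '' ((Lim : Set T) ∩ Iic ε) : Set (T → ZMod 2)) < #T :=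
      mk_image_le.trans_lt ((mk_le_mk_of_subset inter_subset_right).trans_lt (hIic ε))
    exact add_lt_of_lt hunc.le h3 h4
  have h3 : #(Submodule.span (ZMod 2) (Gen' ε)) ≤ max (#(Gen' ε)) ℵ₀ := by
    have h4 : #(Submodule.span (ZMod 2) (Gen' ε)) ≤ #((Gen' ε) →₀ ZMod 2) := by
      have h5 : (Submodule.span (ZMod 2) (Gen' ε) : Set (T → ZMod 2)) ⊆
          range (Finsupp.linearCombination (ZMod 2) (fun v : Gen' ε => (v : T → ZMod 2))) := by
        intro v hv
        obtain ⟨l, hl⟩ := (Finsupp.mem_span_iff_linearCombination _ _ _).1 hv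
        exact ⟨l, hl⟩
      exact (mk_le_mk_of_subset h5).trans mk_range_le
    refine h4.trans ?_
    rcases finite_or_infinite (Gen' ε) with hf | hi
    · have : Fintype (Gen' ε) := Fintype.ofFinite _
      refine le_trans ?_ (le_max_right _ _)
      have : Finite ((Gen' ε) →₀ ZMod 2) :=
        Finite.of_injective (fun f : (Gen' ε) →₀ ZMod 2 => (f : (Gen' ε) → ZMod 2))
          DFunLike.coe_injective
      exact (lt_aleph0_of_finite _).le
    · rw [mk_finsupp_of_infinite]
      refine max_le_max le_rfl ?_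
      exact (lt_aleph0_of_finite _).le
  exact h3.trans_lt (max_lt h2 hunc)

/-- The combinatorial core: no subset of `H` is both discrete-and-closed (outside zero) and
topologically generating. -/
theorem core (hIic : ∀ a : T, #(Iic a) < #T)
    (hbd : ∀ A : Set T, #A < #T → ∃ b, ∀ a ∈ A, a < b) (hunc : ℵ₀ < #T)
    (S : Set (T → ZMod 2)) (hS : S ⊆ (H : Submodule (ZMod 2) (T → ZMod 2)))
    (h1 : ∀ p ∈ (H : Submodule (ZMod 2) (T → ZMod 2)), p ≠ 0 →
      ∃ α, ∀ s ∈ S, (∀ β < α, s β = p β) → s = p)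
    (h2 : ∀ h ∈ (H : Submodule (ZMod 2) (T → ZMod 2)), ∀ α, ∃ t ∈ Submodule.span (ZMod 2) S,
      ∀ β < α, t β = h β) : False := by
  have hne : Nonempty T := by
    by_contra h
    rw [not_nonempty_iff] at h
    have : #T = 0 := mk_eq_zero T
    rw [this] at hunc
    exact absurd hunc (not_lt.2 (zero_le))
  -- the function `a`
  have h1' : ∀ p : T → ZMod 2, ∃ α, p ∈ (H : Submodule (ZMod 2) (T → ZMod 2)) → p ≠ 0 →
      ∀ s ∈ S, (∀ β < α, s β = p β) → s = p := by
    intro p
    by_cases hp : p ∈ (H : Submodule (ZMod 2) (T → ZMod 2)) ∧ p ≠ 0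
    · obtain ⟨α, hα⟩ := h1 p hp.1 hp.2
      exact ⟨α, fun _ _ => hα⟩
    · exact ⟨Classical.arbitrary T, fun h h' => absurd ⟨h, h'⟩ hp⟩
  choose a ha using h1'
  -- the function `g`
  have hg : ∀ ε : T, ∃ b, ∀ q ∈ (H : Submodule (ZMod 2) (T → ZMod 2)),
      (∀ β, ε ≤ β → q β = 0) → a q < b := by
    intro ε
    obtain ⟨b, hb⟩ := hbd (a '' {q : T → ZMod 2 | q ∈ (H : Submodule (ZMod 2) (T → ZMod 2)) ∧
      ∀ β, ε ≤ β → q β = 0}) (mk_image_le.trans_lt (card_below hIic hunc ε))
    exact ⟨b, fun q hq hq' => hb _ ⟨q, ⟨hq, hq'⟩, rfl⟩⟩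
  choose g hg using hg
  have hc := exists_closed hIic hbd hunc g
  choose c hc1 hc2 hc3 using hc
  obtain ⟨l, -, hl, hcl⟩ := exists_closed hIic hbd hunc c (Classical.arbitrary T)
  have hlad := isLadder_lad hl
  -- a member of `S` that is not eventually zero below `l`
  obtain ⟨s, hs, hsE⟩ : ∃ s ∈ S, s ∉ Ev hl := by
    by_contra hcon
    push Not at hcon
    obtain ⟨t, ht, ht'⟩ := h2 (xx l) (Submodule.subset_span (Or.inr ⟨l, hl, rfl⟩)) l
    exact xx_notMem_Ev hl ht' (Submodule.span_le.2 hcon ht)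
  have hsH := hS hs
  obtain ⟨δ₀, hδ₀, hsx⟩ := dichotomy hl hsH hsE
  obtain ⟨n, hn⟩ := hlad.2.2 δ₀ hδ₀
  -- the closed point between `lad l n` and `l`
  have hδl : c (lad l n) < l := hcl _ (hlad.2.1 n)
  set δ := c (lad l n) with hδ
  have hδ1 : lad l n < δ := hc1 _
  have hδL : δ ∈ (Lim : Set T) := hc2 _
  have hδg : ∀ ε' < δ, g ε' < δ := hc3 _
  have hsβ : ∀ β, lad l n ≤ β → β < l → s β = xx l β := fun β h3 h4 => hsx β (hn.trans h3) h4
  have claim : ∀ m, lad l (n + m) < δ := by
    intro m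
    induction m with
    | zero => exact hδ1
    | succ m ih =>
      obtain ⟨k, hk⟩ := (isLadder_lad hδL).2.2 _ ih
      -- `lad l (n + m) < ε' < δ`
      have hk' : lad l (n + m) < lad δ (k + 1) :=
        lt_of_le_of_lt hk ((isLadder_lad hδL).1 (Nat.lt_succ_self k))
      have hk'' : lad δ (k + 1) < δ := (isLadder_lad hδL).2.1 _
      have hqH := trunc_mem_H (lad l (n + (m + 1))) hsH
      have hq : ∀ β, lad δ (k + 1) ≤ β → trunc (lad l (n + (m + 1))) s β = 0 := by
        intro β hβ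
        by_cases h : β < lad l (n + (m + 1))
        · rw [trunc_lt h, hsβ β]
          · apply xx_of_notMem
            rintro ⟨i, rfl⟩
            have h5 : n + m < i := hlad.1.lt_iff_lt.1 (hk'.trans_le hβ)
            have h6 : i < n + (m + 1) := hlad.1.lt_iff_lt.1 h
            omega
          · have h7 : lad l n ≤ lad l (n + m) := hlad.1.monotone (by omega)
            exact h7.trans (hk'.le.trans hβ)
          · exact h.trans (hlad.2.1 _)
        · exact trunc_ge (not_lt.1 h) _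
      have h3 : a (trunc (lad l (n + (m + 1))) s) < g (lad δ (k + 1)) := hg _ _ hqH hq
      have h4 : g (lad δ (k + 1)) < δ := hδg _ hk''
      by_contra hcon
      have hsat : s (lad l (n + (m + 1))) = 1 := by
        rw [hsβ _ (hlad.1.monotone (by omega)) (hlad.2.1 _), xx_of_mem ⟨_, rfl⟩]
      have hq0 : trunc (lad l (n + (m + 1))) s ≠ 0 := by
        intro h0
        have h5 : lad l (n + m) < lad l (n + (m + 1)) := hlad.1 (by omega)
        have h6 := congrFun h0 (lad l (n + m))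
        rw [trunc_lt h5, hsβ _ (hlad.1.monotone (by omega)) (hlad.2.1 _),
          xx_of_mem ⟨_, rfl⟩] at h6
        have h7 : (1 : ZMod 2) = 0 := h6
        exact absurd h7 (by decide)
      have h5 := ha _ hqH hq0 s hs (fun β hβ => by
        rw [trunc_lt]
        exact hβ.trans (h3.trans (h4.trans_le (not_lt.1 hcon))))
      have h6 := congrFun h5 (lad l (n + (m + 1)))
      rw [hsat, trunc_ge le_rfl] at h6
      exact absurd h6 (by decide)
  obtain ⟨m, hm⟩ := hlad.2.2 δ hδl
  have h3 := claim m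
  have h4 : lad l m ≤ lad l (n + m) := hlad.1.monotone (by omega)
  exact absurd (hm.trans h4) (not_le.2 h3)

end Q182.Ladder
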