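import Mathlib

/-!
# Suitable sets and the topology of `G*`
-/

namespace Q182

open Set

/-- `S` is a suitable set for the (additively written) topological group `H`: `S` is a discrete
subspace of `H`, `S ∪ {0}` is closed in `H`, and the subgroup generated by `S` is dense in `H`. -/
def IsSuitable {H : Type} [AddGroup H] [TopologicalSpace H] (S : Set H) : Prop :=
  DiscreteTopology S ∧ IsClosed (insert 0 S) ∧ Dense (AddSubgroup.closure S : Set H)

/-- The topology of `G*` on the full product `∏_{α} G α` over a nonempty linearly ordered index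
set: the sets `{y : y β = x β for all β < α}` form a base of neighbourhoods of `x`. -/
def starTop {T : Type} [LinearOrder T] [Nonempty T] (G : T → Type) :
    TopologicalSpace (∀ α, G α) where
  IsOpen S := ∀ x ∈ S, ∃ α, ∀ y : ∀ α, G α, (∀ β < α, y β = x β) → y ∈ S
  isOpen_univ := fun _ _ => ⟨Classical.arbitrary T, fun _ _ => trivial⟩
  isOpen_inter := by
    rintro s t hs ht x ⟨hxs, hxt⟩
    obtain ⟨α, hα⟩ := hs x hxs
    obtain ⟨β, hβ⟩ := ht x hxt
    exact ⟨max α β, fun y hy => ⟨hα y fun γ hγ => hy γ (lt_max_of_lt_left hγ),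
      hβ y fun γ hγ => hy γ (lt_max_of_lt_right hγ)⟩⟩
  isOpen_sUnion := by
    rintro s hs x ⟨t, ht, hxt⟩
    obtain ⟨α, hα⟩ := hs t ht x hxt
    exact ⟨α, fun y hy => ⟨t, ht, hα y hy⟩⟩

end Q182
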