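import Mathlib
import Pool.Agent.Q182.SuitableDefs
import Pool.Agent.Q182.Ladder

/-!
# The ladder group has no suitable set
-/

namespace Q182.Ladder

open Set Cardinal Topology

variable {T : Type} [LinearOrder T]

/-- The additive group of the example. -/
def HG (T : Type) [LinearOrder T] : AddSubgroup (T → ZMod 2) :=
  (H : Submodule (ZMod 2) (T → ZMod 2)).toAddSubgroup

lemma mem_HG (x : T → ZMod 2) : x ∈ HG T ↔ x ∈ (H : Submodule (ZMod 2) (T → ZMod 2)) := Iff.rfl

/-- The topology of the example, induced from `G*`. -/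
def topHG (T : Type) [LinearOrder T] [Nonempty T] : TopologicalSpace (HG T) :=
  TopologicalSpace.induced Subtype.val (starTop (fun _ : T => ZMod 2))

lemma isOpen_topHG [Nonempty T] (O : Set (HG T)) : IsOpen[topHG T] O ↔
    ∀ x ∈ O, ∃ α, ∀ y : HG T, (∀ β < α, y.1 β = x.1 β) → y ∈ O := by
  constructor
  · rintro ⟨O', hO', rfl⟩ x hx
    obtain ⟨α, hα⟩ := hO' x.1 hx
    exact ⟨α, fun y hy => hα y.1 hy⟩
  · intro h
    refine ⟨{z | ∃ x ∈ O, ∃ α, (∀ y : HG T, (∀ β < α, y.1 β = x.1 β) → y ∈ O) ∧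
      ∀ β < α, z β = x.1 β}, ?_, ?_⟩
    · rintro z ⟨x, hx, α, hα, hz⟩
      exact ⟨α, fun y hy => ⟨x, hx, α, hα, fun β hβ => by rw [hy β hβ, hz β hβ]⟩⟩
    · ext x
      constructor
      · rintro ⟨y, hy, α, hα, hz⟩
        exact hα x hz
      · intro hx
        obtain ⟨α, hα⟩ := h x hx
        exact ⟨x, hx, α, hα, fun _ _ => rfl⟩

lemma isOpen_ball [Nonempty T] (x : HG T) (α : T) :
    IsOpen[topHG T] {y : HG T | ∀ β < α, y.1 β = x.1 β} := by
  rw [isOpen_topHG]
  intro z hz
  exact ⟨α, fun y hy β hβ => by rw [hy β hβ, hz β hβ]⟩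

theorem not_suitable [WellFoundedLT T] [Nonempty T] (hIic : ∀ a : T, #(Iic a) < #T)
    (hbd : ∀ A : Set T, #A < #T → ∃ b, ∀ a ∈ A, a < b) (hunc : ℵ₀ < #T) (S : Set (HG T)) :
    ¬ @IsSuitable (HG T) _ (topHG T) S := by
  let _ : TopologicalSpace (HG T) := topHG T
  rintro ⟨hd, hcl, hdense⟩
  refine core hIic hbd hunc (Subtype.val '' S) ?_ ?_ ?_
  · rintro _ ⟨x, -, rfl⟩
    exact x.2
  · intro p hp hp0
    let p' : HG T := ⟨p, hp⟩
    obtain ⟨O, hO, hpO, hOS⟩ : ∃ O : Set (HG T), IsOpen O ∧ p' ∈ O ∧ ∀ s ∈ S, s ∈ O → s = p' := by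
      by_cases hpS : p' ∈ S
      · obtain ⟨O, hO, hO'⟩ : ∃ O : Set (HG T), IsOpen O ∧ (Subtype.val : S → HG T) ⁻¹' O =
            {⟨p', hpS⟩} := isOpen_induced_iff.1 (isOpen_discrete _)
        refine ⟨O, hO, ?_, fun s hs hsO => ?_⟩
        · have : (⟨p', hpS⟩ : S) ∈ (Subtype.val : S → HG T) ⁻¹' O := by
            rw [hO']
            rfl
          exact this
        · have : (⟨s, hs⟩ : S) ∈ (Subtype.val : S → HG T) ⁻¹' O := hsO
          rw [hO'] at this
          exact congrArg Subtype.val this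
      · refine ⟨(insert 0 S)ᶜ, hcl.isOpen_compl, ?_, fun s hs hsO => absurd (mem_insert_of_mem _ hs) hsO⟩
        rintro (h | h)
        · exact hp0 (congrArg Subtype.val h)
        · exact hpS h
    obtain ⟨α, hα⟩ := (isOpen_topHG O).1 hO p' hpO
    refine ⟨α, ?_⟩
    rintro _ ⟨s, hs, rfl⟩ hsp
    exact congrArg Subtype.val (hOS s hs (hα s hsp))
  · intro h hh α
    obtain ⟨t, ht1, ht2⟩ := hdense.inter_open_nonempty _ (isOpen_ball ⟨h, hh⟩ α) ⟨⟨h, hh⟩, fun _ _ => rfl⟩
    refine ⟨t.1, ?_, ht1⟩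
    have h1 : AddSubgroup.closure S ≤
        (Submodule.span (ZMod 2) (Subtype.val '' S)).toAddSubgroup.comap (HG T).subtype := by
      rw [AddSubgroup.closure_le]
      intro x hx
      exact Submodule.subset_span ⟨x, hx, rfl⟩
    exact h1 ht2

/-- Elements of the ladder group have countable support. -/
lemma countable_support {x : T → ZMod 2} (hx : x ∈ HG T) : {α | x α ≠ 0}.Countable := by
  have h : (H : Submodule (ZMod 2) (T → ZMod 2)) ≤
      { carrier := {x | {α | x α ≠ 0}.Countable}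
        zero_mem' := by simp
        add_mem' := by
          intro a b ha hb
          refine Set.Countable.mono ?_ (ha.union hb)
          intro i hi
          by_contra h
          simp only [mem_union, mem_ofPred_eq, not_or, not_not] at h
          exact hi (by simp [h.1, h.2])
        smul_mem' := by
          intro c a ha
          refine Set.Countable.mono ?_ ha
          intro i hi h
          exact hi (by simp [h]) } := by
    rw [H, Submodule.span_le]
    rintro w (⟨α, rfl⟩ | ⟨l, -, rfl⟩)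
    · refine (Set.countable_singleton α).mono ?_
      intro β hβ
      by_contra hne
      have hne' : β ≠ α := hne
      exact hβ (by rw [unit, Pi.single_eq_of_ne hne'])
    · refine (Set.countable_range (lad l)).mono ?_
      intro β hβ
      by_contra hne
      exact hβ (xx_of_notMem hne)
  exact h hx

end Q182.Ladder
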