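import Pool.Agent.Q182.LuEmb

/-!
# Trees with conditions on the finitely generated subgroups of the edge stabilizers
-/

set_option autoImplicit false

namespace Q182.Lu

open Monoid SimpleGraph
open Pool.Agent.Helper270.Tree
open Pool.Agent.Y462.SS (Closed)
open Q182.Cyl (ClosedA Est)

variable {G V : Type} [Group G] [MulAction G V] {T : SimpleGraph V}

theorem ka_range (g : G) (v : V) : ka g v ∈
    (CoprodI.of (M := fun ω : Orb G V => MulAction.stabilizer G ω.out) (i := cls G v)).range :=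
  ee_range _ _

theorem inj_closure {X : Set (M0 G V)} {v : V} (hX : ∀ x ∈ X, ∃ g : G, x = ka g v) :
    ∀ x ∈ Subgroup.closure X, ff x = 1 → x = 1 := by
  intro x hx h
  have h1 : Subgroup.closure X ≤
      (CoprodI.of (M := fun ω : Orb G V => MulAction.stabilizer G ω.out) (i := cls G v)).range := by
    rw [Subgroup.closure_le]
    intro y hy
    obtain ⟨g, rfl⟩ := hX y hy
    exact ka_range g v
  exact ff_inj _ (h1 hx) h

/-- the theorem for a family of groups closed under a kind of HNN extensions -/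
theorem main0 {C : ∀ (G : Type) [Group G], Prop} (hC : Pool.Agent.Y110.FJ.ClosedE C)
    {P : Subgroup G → Prop} (hstep : Step C P) (hT : TreeAct G T)
    (hE : ∀ v w : V, T.Adj v w → ∀ E : Subgroup G, E.FG → E ≤ Est G v w → P E)
    (hst : ∀ v : V, C (MulAction.stabilizer G v)) : C G := by
  obtain ⟨i, hi⟩ := embedding hT
  refine hC.base.of_injective _ _ i hi (mem_colim hC.base (SS (G := G) T) ?_)
  intro F hF hFS
  have hsrc : ∀ j, ∀ x ∈ src F j, ∃ g : G, g • j.out.2 = j.out.2 ∧ g • j.out.1 = j.out.1 ∧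
      T.Adj j.out.1 j.out.2 ∧ x = ka g j.out.2 := by
    rintro j x ⟨y, hxy⟩
    obtain ⟨j', g, h1, h2, h3, h4⟩ := hFS hxy
    obtain ⟨rfl, h5⟩ := Prod.mk.inj h4
    obtain ⟨rfl, _⟩ := Prod.mk.inj h5
    exact ⟨g, h3, h2, h1, rfl⟩
  have htgt : ∀ j, ∀ x ∈ tgt F j, ∃ g : G, x = ka g j.out.1 := by
    rintro j y ⟨x, hxy⟩
    obtain ⟨j', g, h1, h2, h3, h4⟩ := hFS hxy
    obtain ⟨rfl, h5⟩ := Prod.mk.inj h4
    obtain ⟨_, rfl⟩ := Prod.mk.inj h5
    exact ⟨g, rfl⟩
  refine main_fin hC.base (fun α => Pool.Agent.Y179.SS.t_free C hC.base α) hstep _ _ F ff qq le_rfl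
    hF (c_base hC hst) (fun p hp => hqq T p (hFS hp)) ?_ ?_ ?_
  · intro j
    refine inj_closure (v := j.out.2) ?_
    intro x hx
    obtain ⟨g, _, _, _, h⟩ := hsrc j x hx
    exact ⟨g, h⟩
  · intro j
    exact inj_closure (v := j.out.1) (htgt j)
  · intro j hj
    have hadj : T.Adj j.out.1 j.out.2 := by
      obtain ⟨p, hp, rfl⟩ := hj
      obtain ⟨g, _, _, h, _⟩ := hsrc p.1 p.2.1 ⟨p.2.2, hp⟩
      exact h
    refine hE ((cc j.out.2 : G)⁻¹ • j.out.1) ((cc j.out.2 : G)⁻¹ • j.out.2)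
      (hT.adj _ _ _ hadj) _ ?_ ?_
    · rw [MonoidHom.map_closure, Subgroup.fg_iff]
      refine ⟨_, rfl, Set.Finite.image _ ?_⟩
      refine (hF.image (fun p : Orb G (V × V) × M0 G V × M0 G V => p.2.1)).subset ?_
      rintro x ⟨y, hxy⟩
      exact ⟨_, hxy, rfl⟩
    · rw [MonoidHom.map_closure, Subgroup.closure_le]
      rintro _ ⟨x, hx, rfl⟩
      obtain ⟨g, h1, h2, _, rfl⟩ := hsrc j x hx
      rw [ff_ka, h1]
      have key : ∀ u : V, g • u = u → ((cc j.out.2 : G)⁻¹ * g * cc j.out.2) •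
          (cc j.out.2 : G)⁻¹ • u = (cc j.out.2 : G)⁻¹ • u := by
        intro u hu
        rw [mul_smul, mul_smul, smul_inv_smul, hu]
      exact ⟨key _ h2, key _ h1⟩

/-- **the main theorem** -/
theorem main {C : ∀ (G : Type) [Group G], Prop} (hC : ClosedA C) (hT : TreeAct G T)
    (hE : ∀ v w : V, T.Adj v w → ∀ E : Subgroup G, E.FG → E ≤ Est G v w → Good C E)
    (hst : ∀ v : V, C (MulAction.stabilizer G v)) : C G :=
  main0 hC.base (step_good hC) hT hE hst

end Q182.Lu
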