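import Pool.Agent.Q182.LkInj
import Pool.Agent.Q182.LuMain

/-!
# Homomorphisms with given kernels on the vertex stabilizers
-/

set_option autoImplicit false

namespace Q182.Lk

open Monoid SimpleGraph
open Pool.Agent.Helper270.Tree
open Pool.Agent.Y462.SS (Closed)
open Q182.Cyl (ClosedA Est)
open Q182.Lu (U bs tt lift lift_bs lift_tt rel src tgt Orb cls cc cc_spec M0 ee ee_of ee_mul ff ff_ee ka
  ka_mem ka_mul ff_ka SS qq hqq DD DD_symm DD_nat)

section

variable {G V : Type} [Group G] [MulAction G V] {T : SimpleGraph V}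

/-- the homomorphism to the multiple HNN extension, with a formula -/
theorem exists_i (hT : TreeAct G T) : ∃ (i : G →* U (SS (G := G) T)) (F : V → U (SS (G := G) T)),
    ∀ g v, i g = F (g • v) * bs _ (ka g v) * (F v)⁻¹ := by
  obtain ⟨o⟩ := hT.isTree.connected.nonempty
  obtain ⟨F, _, hF⟩ := Q9.FJT.exists_potential (DD (G := G) T) hT.isTree o (fun a b => DD_symm a b)
  have hconst : ∀ (g : G) (v w : V), F (g • v) * bs _ (ka g v) * (F v)⁻¹ =
      F (g • w) * bs _ (ka g w) * (F w)⁻¹ := by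
    intro g v w
    refine Q182.Cen.const_of_adj hT.isTree (fun v => F (g • v) * bs _ (ka g v) * (F v)⁻¹) ?_ v w
    intro a b hab
    show F (g • a) * bs _ (ka g a) * (F a)⁻¹ = F (g • b) * bs _ (ka g b) * (F b)⁻¹
    rw [hF _ _ (hT.adj g a b hab), hF a b hab, DD_nat hT hab g]
    group
  let i : G →* U (SS (G := G) T) := MonoidHom.mk' (fun g => F (g • o) * bs _ (ka g o) * (F o)⁻¹) (by
    intro g h
    show F ((g * h) • o) * bs _ (ka (g * h) o) * (F o)⁻¹ =
      (F (g • o) * bs _ (ka g o) * (F o)⁻¹) * (F (h • o) * bs _ (ka h o) * (F o)⁻¹)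
    rw [hconst g o (h • o), ka_mul, map_mul, mul_smul]
    group)
  exact ⟨i, F, fun g v => hconst g o v⟩

/-- an invariant family of normal subgroups of the vertex stabilizers, compatible along the edges -/
structure Fam (T : SimpleGraph V) (K : V → Subgroup G) : Prop where
  st : ∀ v, ∀ k ∈ K v, k • v = v
  eq : ∀ (g : G) v, ∀ k ∈ K v, g * k * g⁻¹ ∈ K (g • v)
  adj : ∀ v w, T.Adj v w → ∀ k ∈ K v, k • w = w → k ∈ K w

theorem Fam.conj {K : V → Subgroup G} (h : Fam T K) {g : G} {v w : V} (hg : g • v = w) {x : G} :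
    g⁻¹ * x * g ∈ K v ↔ x ∈ K w := by
  constructor
  · intro h1
    have h2 := h.eq g v _ h1
    rw [hg] at h2
    have h3 : g * (g⁻¹ * x * g) * g⁻¹ = x := by group
    rwa [h3] at h2
  · intro h1
    have h2 := h.eq g⁻¹ w _ h1
    have h3 : g⁻¹ • w = v := by rw [inv_smul_eq_iff, hg]
    rw [h3, inv_inv] at h2
    exact h2

variable {K : V → Subgroup G} {Q : Orb G V → Type} [∀ ω, Group (Q ω)]
  (φ : ∀ ω : Orb G V, MulAction.stabilizer G ω.out →* Q ω)

/-- the map of free products -/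
noncomputable def pi : M0 G V →* CoprodI Q := CoprodI.lift (fun ω => CoprodI.of.comp (φ ω))

theorem pi_of (ω : Orb G V) (s : MulAction.stabilizer G ω.out) :
    pi φ (CoprodI.of (M := fun ω : Orb G V => MulAction.stabilizer G ω.out) (i := ω) s) =
      CoprodI.of (φ ω s) := by
  rw [pi, CoprodI.lift_of]
  rfl

theorem pi_ee (hφ : ∀ ω s, φ ω s = 1 ↔ (s : G) ∈ K ω.out) (ω : Orb G V) {x : G}
    (h : x ∈ MulAction.stabilizer G ω.out) : pi φ (ee ω x) = 1 ↔ x ∈ K ω.out := by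
  rw [ee_of ω h, pi_of, ← hφ ω ⟨x, h⟩]
  exact map_eq_one_iff _ (CoprodI.of_injective _)

theorem pi_ka (hK : Fam T K) (hφ : ∀ ω s, φ ω s = 1 ↔ (s : G) ∈ K ω.out) {x : G} {v : V}
    (h : x • v = v) : pi φ (ka x v) = 1 ↔ x ∈ K v := by
  have h1 := ka_mem x v
  rw [h] at h1
  rw [ka, h, pi_ee φ hφ _ h1]
  exact hK.conj (cc_spec v)

/-- the relations for the quotients -/
def SB (T : SimpleGraph V) : Set (Orb G (V × V) × CoprodI Q × CoprodI Q) :=
  (fun p : Orb G (V × V) × M0 G V × M0 G V => (p.1, pi φ p.2.1, pi φ p.2.2)) '' SS T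

theorem gph_SB {F : Set (Orb G (V × V) × CoprodI Q × CoprodI Q)} (hF : F ⊆ SB φ T)
    (j : Orb G (V × V)) {p : CoprodI Q × CoprodI Q} (hp : p ∈ gph F j) :
    ∃ x : G, x • j.out.1 = j.out.1 ∧ x • j.out.2 = j.out.2 ∧
      (x = 1 ∨ T.Adj j.out.1 j.out.2) ∧ p = (pi φ (ka x j.out.2), pi φ (ka x j.out.1)) := by
  by_cases hadj : T.Adj j.out.1 j.out.2
  · have h1 : ∃ x : G, x • j.out.1 = j.out.1 ∧ x • j.out.2 = j.out.2 ∧
        p = (pi φ (ka x j.out.2), pi φ (ka x j.out.1)) := by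
      have hka1 : ∀ v : V, ka (1 : G) v = 1 := by
        intro v
        have h2 := ka_mul (1 : G) 1 v
        rw [mul_one, one_smul] at h2
        exact (mul_eq_left.1 h2.symm)
      unfold gph at hp
      induction hp using Subgroup.closure_induction with
      | mem p hp =>
        obtain ⟨⟨j', a, b⟩, ⟨j'', x, h2, h3, h4, h5⟩, h6⟩ := hF hp
        obtain ⟨h7, h8⟩ := Prod.mk.inj h5
        obtain ⟨h9, h10⟩ := Prod.mk.inj h8
        obtain ⟨h11, h12⟩ := Prod.mk.inj h6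
        obtain ⟨h13, h14⟩ := Prod.mk.inj h12
        simp only at h11 h13 h14
        have hj : j'' = j := by rw [← h7, h11]
        subst hj
        exact ⟨x, h3, h4, Prod.ext (by rw [← h13, h9]) (by rw [← h14, h10])⟩
      | one =>
        exact ⟨1, one_smul _ _, one_smul _ _, by rw [hka1, hka1, map_one]; rfl⟩
      | mul a b _ _ ha hb =>
        obtain ⟨x, h2, h3, rfl⟩ := ha
        obtain ⟨y, h5, h6, rfl⟩ := hb
        refine ⟨x * y, by rw [mul_smul, h5, h2], by rw [mul_smul, h6, h3], ?_⟩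
        rw [ka_mul, ka_mul, h5, h6, map_mul, map_mul]
        rfl
      | inv a _ ha =>
        obtain ⟨x, h2, h3, rfl⟩ := ha
        have e1 : x⁻¹ • j.out.1 = j.out.1 := by rw [inv_smul_eq_iff, h2]
        have e2 : x⁻¹ • j.out.2 = j.out.2 := by rw [inv_smul_eq_iff, h3]
        refine ⟨x⁻¹, e1, e2, ?_⟩
        have key : ∀ v : V, x • v = v → ka x⁻¹ v = (ka x v)⁻¹ := by
          intro v hv
          have h7 := ka_mul x⁻¹ x v
          rw [inv_mul_cancel, hv, hka1] at h7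
          exact eq_inv_of_mul_eq_one_left h7.symm
        rw [key _ h2, key _ h3, map_inv, map_inv]
        rfl
    obtain ⟨x, h1, h2, h3⟩ := h1
    exact ⟨x, h1, h2, Or.inr hadj, h3⟩
  · have h1 : {p : CoprodI Q × CoprodI Q | (j, p.1, p.2) ∈ F} = ∅ := by
      rw [Set.eq_empty_iff_forall_notMem]
      intro p hp
      obtain ⟨⟨j', a, b⟩, ⟨j'', x, h2, h3, h4, h5⟩, h6⟩ := hF hp
      obtain ⟨h7, h8⟩ := Prod.mk.inj h5
      obtain ⟨h11, h12⟩ := Prod.mk.inj h6
      simp only at h11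
      have hj : j'' = j := by rw [← h7, h11]
      rw [hj] at h2
      exact hadj h2
    have h2 : p = 1 := by
      unfold gph at hp
      rw [h1, Subgroup.closure_empty] at hp
      exact Subgroup.mem_bot.1 hp
    have hka1 : ∀ v : V, ka (1 : G) v = 1 := by
      intro v
      have h2 := ka_mul (1 : G) 1 v
      rw [mul_one, one_smul] at h2
      exact (mul_eq_left.1 h2.symm)
    exact ⟨1, one_smul _ _, one_smul _ _, Or.inl rfl, by rw [hka1, hka1, map_one, h2]; rfl⟩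

theorem cons_SB (hK : Fam T K) (hφ : ∀ ω s, φ ω s = 1 ↔ (s : G) ∈ K ω.out) :
    Cons (SB φ T) := by
  intro j p hp
  obtain ⟨x, h1, h2, h3, rfl⟩ := gph_SB φ le_rfl j hp
  show pi φ (ka x j.out.2) = 1 ↔ pi φ (ka x j.out.1) = 1
  rw [pi_ka φ hK hφ h2, pi_ka φ hK hφ h1]
  rcases h3 with h3 | h3
  · rw [h3]
    exact ⟨fun _ => one_mem _, fun _ => one_mem _⟩
  · exact ⟨fun h => hK.adj _ _ h3.symm _ h h1, fun h => hK.adj _ _ h3 _ h h2⟩

/-- **homomorphisms with given kernels on the vertex stabilizers** -/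
theorem exists_theta (hT : TreeAct G T) (hK : Fam T K)
    (hφ : ∀ ω s, φ ω s = 1 ↔ (s : G) ∈ K ω.out) : ∃ θ : G →* U (SB φ T),
      ∀ g v, g • v = v → (θ g = 1 ↔ g ∈ K v) := by
  obtain ⟨i, F, hF⟩ := exists_i hT
  let μ : U (SS (G := G) T) →* U (SB φ T) := lift ((bs (SB φ T)).comp (pi φ)) (tt (SB φ T)) (by
    rintro ⟨j, a, b⟩ hp
    exact rel (S := SB φ T) (p := (j, pi φ a, pi φ b)) ⟨(j, a, b), hp, rfl⟩)
  refine ⟨μ.comp i, ?_⟩
  intro g v hg
  have h1 : (μ.comp i) g = μ (F v) * bs (SB φ T) (pi φ (ka g v)) * (μ (F v))⁻¹ := by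
    show μ (i g) = _
    rw [hF g v, hg, map_mul, map_mul, map_inv,
      show μ (bs _ (ka g v)) = bs (SB φ T) (pi φ (ka g v)) from lift_bs _ _ _ _]
  rw [h1, conj_eq_one_iff, map_eq_one_iff _ (bs_inj (cons_SB φ hK hφ)), pi_ka φ hK hφ hg]

end

end Q182.Lk
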