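import Pool.Agent.Q182.LuStep

/-!
# The base group embeds for consistent relations
-/

set_option autoImplicit false

namespace Q182.Lk

open Monoid Cardinal
open Q182.Lu (U bs tt lift lift_bs lift_tt rel src tgt)

section Perm

variable {M : Type} [Group M]

/-- the set on which the group acts -/
abbrev XX (M : Type) : Type := M × (M × ℕ)

/-- the action by right multiplication -/
def act (m : M) : Equiv.Perm (XX M) :=
  ⟨fun p => (p.1 * m⁻¹, p.2), fun p => (p.1 * m, p.2), fun p => by simp, fun p => by simp⟩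

/-- the homomorphism -/
def actHom : M →* Equiv.Perm (XX M) := MonoidHom.mk' act (by
  intro a b
  ext p <;> simp [act, mul_assoc])

theorem actHom_apply (m : M) (p : XX M) : actHom m p = (p.1 * m⁻¹, p.2) := rfl

theorem actHom_inj : Function.Injective (actHom : M →* Equiv.Perm (XX M)) := by
  rw [injective_iff_map_eq_one]
  intro m hm
  have h1 : (actHom m) (1, (1, 0)) = ((1, (1, 0)) : XX M) := by rw [hm]; rfl
  rw [actHom_apply] at h1
  have h2 := congrArg Prod.fst h1
  simpa using h2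

theorem exists_e (A B : Subgroup M) : Nonempty ((M ⧸ A) × (M × ℕ) ≃ (M ⧸ B) × (M × ℕ)) := by
  have h0 : ℵ₀ ≤ #(M × ℕ) := by
    rw [Cardinal.aleph0_le_mk_iff]
    infer_instance
  have h1 : ∀ A : Subgroup M, #((M ⧸ A) × (M × ℕ)) = #(M × ℕ) := by
    intro A
    rw [Cardinal.mk_prod, Cardinal.lift_id, Cardinal.lift_id]
    refine Cardinal.mul_eq_right h0 ?_ (Cardinal.mk_ne_zero _)
    refine (Cardinal.mk_le_of_surjective (QuotientGroup.mk_surjective (s := A))).trans ?_
    exact Cardinal.mk_le_of_injective (f := fun m : M => (m, 0)) (fun a b h => congrArg Prod.fst h)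
  exact Cardinal.eq.1 ((h1 A).trans (h1 B).symm)

/-- coordinates -/
noncomputable def co (A : Subgroup M) : XX M ≃ ((M ⧸ A) × (M × ℕ)) × A where
  toFun p := (((p.1 : M ⧸ A), p.2), ⟨((p.1 : M ⧸ A).out)⁻¹ * p.1,
    QuotientGroup.eq.1 (QuotientGroup.out_eq' _)⟩)
  invFun q := (q.1.1.out * q.2, q.1.2)
  left_inv p := by simp
  right_inv q := by
    obtain ⟨⟨c, y⟩, a⟩ := q
    have h1 : ((c.out * (a : M) : M) : M ⧸ A) = c := by
      rw [QuotientGroup.mk_mul_of_mem _ a.2]
      exact QuotientGroup.out_eq' c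
    refine Prod.ext (Prod.ext h1 rfl) (Subtype.ext ?_)
    show ((c.out * (a : M) : M) : M ⧸ A).out⁻¹ * (c.out * a) = a
    rw [h1, inv_mul_cancel_left]

theorem co_symm (A : Subgroup M) (c : M ⧸ A) (y : M × ℕ) (a : A) :
    (co A).symm ((c, y), a) = (c.out * a, y) := rfl

theorem co_act (A : Subgroup M) (p : XX M) (a : A) :
    co A (actHom (a : M) p) = ((co A p).1, (co A p).2 * a⁻¹) := by
  apply (co A).symm.injective
  rw [Equiv.symm_apply_apply]
  obtain ⟨⟨⟨c, y⟩, b⟩, hp⟩ : ∃ q, q = co A p := ⟨_, rfl⟩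
  have hp' : p = (c.out * b, y) := by
    rw [← co_symm, hp, Equiv.symm_apply_apply]
  rw [← hp, actHom_apply, co_symm, hp']
  simp [mul_assoc]

/-- a permutation which induces an isomorphism of subgroups -/
theorem exists_perm (A B : Subgroup M) (φ : A ≃* B) : ∃ t : Equiv.Perm (XX M),
    ∀ a : A, t * actHom (a : M) * t⁻¹ = actHom (φ a : M) := by
  obtain ⟨e⟩ := exists_e A B
  let t : Equiv.Perm (XX M) := (co A).trans ((Equiv.prodCongr e φ.toEquiv).trans (co B).symm)
  have ht : ∀ p, t p = (co B).symm (e (co A p).1, φ (co A p).2) := fun p => rfl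
  refine ⟨t, ?_⟩
  intro a
  rw [mul_inv_eq_iff_eq_mul]
  ext1 p
  show t (actHom (a : M) p) = actHom (φ a : M) (t p)
  apply (co B).injective
  rw [co_act, ht, ht, Equiv.apply_symm_apply, Equiv.apply_symm_apply, co_act]
  show (e (co A p).1, φ ((co A p).2 * a⁻¹)) = (e (co A p).1, φ (co A p).2 * (φ a)⁻¹)
  rw [map_mul, map_inv]

end Perm

section Cons

variable {M J : Type} [Group M]

/-- the pairs which are conjugate by the letter `j` -/
def gph (S : Set (J × M × M)) (j : J) : Subgroup (M × M) :=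
  Subgroup.closure {p | (j, p.1, p.2) ∈ S}

/-- the relations are consistent -/
def Cons (S : Set (J × M × M)) : Prop := ∀ j, ∀ p ∈ gph S j, p.1 = 1 ↔ p.2 = 1

/-- the isomorphism of the associated subgroups -/
theorem exists_phi {S : Set (J × M × M)} (h : Cons S) (j : J) : ∃ (A B : Subgroup M) (φ : A ≃* B),
    ∀ x y, (j, x, y) ∈ S → ∃ hx : x ∈ A, (φ ⟨x, hx⟩ : M) = y := by
  let f1 : gph S j →* M := (MonoidHom.fst M M).comp (gph S j).subtype
  let f2 : gph S j →* M := (MonoidHom.snd M M).comp (gph S j).subtype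
  have h1 : Function.Injective f1 := by
    rw [injective_iff_map_eq_one]
    intro p hp
    exact Subtype.ext (Prod.ext hp ((h j p p.2).1 hp))
  have h2 : Function.Injective f2 := by
    rw [injective_iff_map_eq_one]
    intro p hp
    exact Subtype.ext (Prod.ext ((h j p p.2).2 hp) hp)
  refine ⟨f1.range, f2.range, (MonoidHom.ofInjective h1).symm.trans (MonoidHom.ofInjective h2), ?_⟩
  intro x y hxy
  have hp : ((x, y) : M × M) ∈ gph S j := Subgroup.subset_closure hxy
  refine ⟨⟨⟨(x, y), hp⟩, rfl⟩, ?_⟩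
  have h3 : (MonoidHom.ofInjective h1).symm ⟨x, ⟨⟨(x, y), hp⟩, rfl⟩⟩ = ⟨(x, y), hp⟩ := by
    rw [MulEquiv.symm_apply_eq]
    rfl
  show ((MonoidHom.ofInjective h2 ((MonoidHom.ofInjective h1).symm _) : f2.range) : M) = y
  rw [h3]
  rfl

/-- **the base group embeds** -/
theorem bs_inj {S : Set (J × M × M)} (h : Cons S) : Function.Injective (bs S) := by
  have h1 : ∀ j : J, ∃ t : Equiv.Perm (XX M), ∀ x y, (j, x, y) ∈ S →
      t * actHom x * t⁻¹ = actHom y := by
    intro j
    obtain ⟨A, B, φ, hφ⟩ := exists_phi h j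
    obtain ⟨t, ht⟩ := exists_perm A B φ
    refine ⟨t, ?_⟩
    intro x y hxy
    obtain ⟨hx, hy⟩ := hφ x y hxy
    rw [← hy, ← ht]
  choose t ht using h1
  intro a b hab
  have h2 := congrArg (lift actHom t (fun p hp => ht p.1 p.2.1 p.2.2 hp)) hab
  rw [lift_bs, lift_bs] at h2
  exact actHom_inj h2

end Cons

end Q182.Lk
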