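import Pool.Agent.Q182.RcMain

/-!
# Trees with a homomorphism whose kernel meets the vertex stabilizers in commutative subgroups
-/

set_option autoImplicit false

namespace Q182.Rc

open Pool.Agent.Helper270.Tree
open Pool.Agent.Y110.FJ (ClosedE)
open Q182.Cyl (ClosedA)
open scoped commutatorElement

variable {C : ∀ (G : Type) [Group G], Prop} {G D V : Type} [Group G] [Group D] [MulAction G V]
  {T : SimpleGraph V}

/-- extensions of commutative groups by groups in `C` -/
theorem ab_by (hC : ClosedE C) (hmet : ∀ (G : Type) [Group G], derivedSeries G 2 = ⊥ → C G)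
    {S : Type} [Group S] (ρ : S →* D) (hD : C D)
    (hab : ∀ a b : S, ρ a = 1 → ρ b = 1 → a * b = b * a) : C S := by
  have hsurj := ρ.rangeRestrict_surjective
  have hrange : C ρ.range := hC.base.of_injective _ _ ρ.range.subtype
    ρ.range.subtype_injective hD
  refine hC.ext S ρ.range ρ.rangeRestrict hsurj hrange ?_
  rintro W ⟨c, hcW, hc⟩
  refine Q182.Cyl.fi_mem hC.base (K := (Subgroup.zpowers c).comap ρ.rangeRestrict) ?_ (hmet _ ?_)
  · rw [Subgroup.relIndex_comap, Subgroup.map_comap_eq_self_of_surjective hsurj]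
    exact hc
  · let K : Subgroup S := (Subgroup.zpowers c).comap ρ.rangeRestrict
    have h1 : derivedSeries K 1 ≤ (ρ.comp K.subtype).ker := by
      rw [derivedSeries_one]
      refine Subgroup.commutator_le.2 ?_
      intro a _ b _
      obtain ⟨i, hi⟩ := Subgroup.mem_zpowers_iff.1 (Subgroup.mem_comap.1 a.2)
      obtain ⟨j, hj⟩ := Subgroup.mem_zpowers_iff.1 (Subgroup.mem_comap.1 b.2)
      have hi' : ρ a = (c : D) ^ i := (congrArg Subtype.val hi).symm
      have hj' : ρ b = (c : D) ^ j := (congrArg Subtype.val hj).symm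
      show ρ (⁅(a : K), b⁆ : K) = 1
      rw [commutatorElement_def]
      show ρ ((a : S) * b * (a : S)⁻¹ * (b : S)⁻¹) = 1
      rw [map_mul, map_mul, map_mul, map_inv, map_inv, hi', hj', ← zpow_add, add_comm i j, zpow_add]
      group
    rw [eq_bot_iff]
    have h2 : derivedSeries K 2 ≤ ⁅(ρ.comp K.subtype).ker, (ρ.comp K.subtype).ker⁆ := by
      rw [derivedSeries_succ]
      exact Subgroup.commutator_mono h1 h1
    refine h2.trans ?_
    refine Subgroup.commutator_le.2 ?_
    intro a ha b hb
    rw [Subgroup.mem_bot, commutatorElement_eq_one_iff_mul_comm]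
    exact Subtype.ext (hab a b ha hb)

/-- **commutative kernels on the vertex stabilizers** -/
theorem main_ab (hC : ClosedA C) (hmet : ∀ (G : Type) [Group G], derivedSeries G 2 = ⊥ → C G)
    (hT : TreeAct G T) (ρ : G →* D) (hD : C D)
    (hab : ∀ (v : V) (a b : G), ρ a = 1 → ρ b = 1 → a • v = v → b • v = v → a * b = b * a) :
    C G := by
  refine main hC hmet hT ρ hD ?_ ?_
  · intro v w _ s hs hsv _ g hg hgv
    exact hab v g s hg hs hgv hsv
  · intro v
    refine ab_by hC.base hmet (ρ.comp (MulAction.stabilizer G v).subtype) hD ?_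
    intro a b ha hb
    exact Subtype.ext (hab v a b ha hb a.2 b.2)

end Q182.Rc
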