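import Pool.Agent.Q182.LkEmb
import Pool.Agent.Q182.RcAb

/-!
# Local kernels
-/

set_option autoImplicit false

namespace Q182.Lk

open Monoid SimpleGraph
open Pool.Agent.Helper270.Tree
open Pool.Agent.Y110.FJ (ClosedE)
open Pool.Agent.Y462.SS (Closed)
open Q182.Cyl (ClosedA Est)
open Q182.Lu (U bs tt lift lift_bs lift_tt rel src tgt cls cc cc_spec M0 ee ee_of ee_mul ff ff_ee ka
  ka_mem ka_mul ff_ka SS qq hqq DD DD_symm DD_nat)

variable {C : ∀ (G : Type) [Group G], Prop}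

theorem coprodI_mem (hC : ClosedE C) {ι : Type} (A : ι → Type) [∀ i, Group (A i)]
    (hA : ∀ i, C (A i)) : C (CoprodI A) := by
  have h1 := Q30.FJ.gp C hC ι ⊥ A hA
  have hrel : Pool.Agent.Y110.FJ.commRel (⊥ : SimpleGraph ι) A = ∅ := by
    rw [Set.eq_empty_iff_forall_notMem]
    rintro _ ⟨v, w, a, b, h, _⟩
    exact h
  refine hC.base.of_injective _ _ (QuotientGroup.mk' (Subgroup.normalClosure
    (Pool.Agent.Y110.FJ.commRel (⊥ : SimpleGraph ι) A))) ?_ h1
  rw [injective_iff_map_eq_one]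
  intro x hx
  have h2 : x ∈ Subgroup.normalClosure (Pool.Agent.Y110.FJ.commRel (⊥ : SimpleGraph ι) A) :=
    (QuotientGroup.eq_one_iff x).1 hx
  have h3 : Subgroup.normalClosure (Pool.Agent.Y110.FJ.commRel (⊥ : SimpleGraph ι) A) ≤ ⊥ := by
    refine Subgroup.normalClosure_le_normal ?_
    rw [hrel]
    exact Set.empty_subset _
  exact Subgroup.mem_bot.1 (h3 h2)

/-- a quotient by the kernel of a homomorphism to a group in the class -/
theorem of_surj_ker (hC : Closed C) {A B Q : Type} [Group A] [Group B] [Group Q] (f : A →* B)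
    (hf : Function.Surjective f) (φ : A →* Q) (h : ∀ a, f a = 1 ↔ φ a = 1) (hQ : C Q) : C B := by
  have hk : f.ker ≤ φ.ker := fun a ha => (h a).1 ha
  let g : B →* Q := f.liftOfSurjective hf ⟨φ, hk⟩
  have hg : ∀ a, g (f a) = φ a := fun a => DFunLike.congr_fun
    (MonoidHom.liftOfRightInverse_comp f (Function.surjInv hf) (Function.rightInverse_surjInv hf)
      ⟨φ, hk⟩) a
  refine hC.of_injective _ _ g ?_ hQ
  rw [injective_iff_map_eq_one]
  intro b hb
  obtain ⟨a, rfl⟩ := hf b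
  rw [hg] at hb
  exact (h a).2 hb

variable {G V D : Type} [Group G] [MulAction G V] [Group D] {T : SimpleGraph V}

/-- the quotient of the stabilizer of `v` by `K v` is in the class -/
def QuotIn (C : ∀ (G : Type) [Group G], Prop) (K : V → Subgroup G) (v : V) : Prop :=
  ∃ (Q : Type) (_ : Group Q) (φ : MulAction.stabilizer G v →* Q), C Q ∧
    ∀ s, φ s = 1 ↔ (s : G) ∈ K v

theorem QuotIn.surj (hC : Closed C) {K : V → Subgroup G} {v : V} (h : QuotIn C K v) :
    ∃ (Q : Type) (_ : Group Q) (φ : MulAction.stabilizer G v →* Q), C Q ∧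
      (∀ s, φ s = 1 ↔ (s : G) ∈ K v) ∧ Function.Surjective φ := by
  obtain ⟨Q, _, φ, hQ, hφ⟩ := h
  refine ⟨φ.range, inferInstance, φ.rangeRestrict, hC.of_injective _ _ φ.range.subtype
    φ.range.subtype_injective hQ, ?_, φ.rangeRestrict_surjective⟩
  intro s
  rw [← hφ s]
  exact ⟨fun h => congrArg Subtype.val h, fun h => Subtype.ext h⟩

/-- **the kernels on the vertex stabilizers can be prescribed** -/
theorem prescribe (hC : ClosedA C) (hT : TreeAct G T) (ρ : G →* D) (hD : C D)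
    {K : V → Subgroup G} (hst : ∀ v, ∀ k ∈ K v, k • v = v)
    (heq : ∀ (g : G) v, ∀ k ∈ K v, g * k * g⁻¹ ∈ K (g • v)) (h1 : ∀ v, ∀ k ∈ K v, ρ k = 1)
    (h2 : ∀ v w, T.Adj v w → ∀ s : G, ρ s = 1 → s • v = v → s • w = w → s ∈ K v)
    (hQ : ∀ v, QuotIn C K v) : ∃ (D' : Type) (_ : Group D') (ρ' : G →* D'), C D' ∧
      ∀ g v, g • v = v → (ρ' g = 1 ↔ g ∈ K v) := by
  have hK : Fam T K := ⟨hst, heq, fun v w hvw k hk hw =>
    h2 w v hvw.symm k (h1 v k hk) hw (hst v k hk)⟩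
  choose Q iQ φ hCQ hφ hsurj using fun ω : Q182.Lu.Orb G V => (hQ ω.out).surj hC.base.base
  obtain ⟨θ, hθ⟩ := exists_theta φ hT hK hφ
  refine ⟨U (SB φ T), inferInstance, θ, ?_, hθ⟩
  -- the homomorphism of the base
  have hk : ∀ ω : Q182.Lu.Orb G V, (φ ω).ker ≤
      (ρ.comp (MulAction.stabilizer G ω.out).subtype).ker := by
    intro ω s hs
    exact h1 _ _ ((hφ ω s).1 hs)
  let g : ∀ ω, Q ω →* D := fun ω => (φ ω).liftOfSurjective (hsurj ω)
    ⟨ρ.comp (MulAction.stabilizer G ω.out).subtype, hk ω⟩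
  have hg : ∀ ω s, g ω (φ ω s) = ρ s := fun ω s => DFunLike.congr_fun
    (MonoidHom.liftOfRightInverse_comp (φ ω) (Function.surjInv (hsurj ω))
      (Function.rightInverse_surjInv (hsurj ω)) ⟨_, hk ω⟩) s
  let f : CoprodI Q →* D := CoprodI.lift g
  have hf : ∀ a : M0 G V, f (pi φ a) = ρ (ff a) := by
    have h3 : f.comp (pi φ) = ρ.comp ff := by
      apply CoprodI.ext_hom
      intro ω
      ext s
      show f (pi φ (CoprodI.of s)) = ρ (ff (CoprodI.of s))
      rw [pi_of, CoprodI.lift_of, hg, Q182.Lu.ff_of]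
    exact fun a => DFunLike.congr_fun h3 a
  refine Q182.Lu.mem_colim hC.base.base (SB φ T) ?_
  intro F hFfin hFS
  have hcl1 : ∀ (j : Q182.Lu.Orb G (V × V)), ∀ x ∈ Subgroup.closure (src F j),
      ∃ y, ((x, y) : _ × _) ∈ gph F j := by
    intro j x hx
    induction hx using Subgroup.closure_induction with
    | mem x hx =>
      obtain ⟨y, hy⟩ := hx
      exact ⟨y, Subgroup.subset_closure hy⟩
    | one => exact ⟨1, one_mem _⟩
    | mul a b _ _ ha hb =>
      obtain ⟨y, hy⟩ := ha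
      obtain ⟨z, hz⟩ := hb
      exact ⟨y * z, mul_mem hy hz⟩
    | inv a _ ha =>
      obtain ⟨y, hy⟩ := ha
      exact ⟨y⁻¹, inv_mem hy⟩
  have hcl2 : ∀ (j : Q182.Lu.Orb G (V × V)), ∀ y ∈ Subgroup.closure (tgt F j),
      ∃ x, ((x, y) : _ × _) ∈ gph F j := by
    intro j x hx
    induction hx using Subgroup.closure_induction with
    | mem x hx =>
      obtain ⟨y, hy⟩ := hx
      exact ⟨y, Subgroup.subset_closure hy⟩
    | one => exact ⟨1, one_mem _⟩
    | mul a b _ _ ha hb =>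
      obtain ⟨y, hy⟩ := ha
      obtain ⟨z, hz⟩ := hb
      exact ⟨y * z, mul_mem hy hz⟩
    | inv a _ ha =>
      obtain ⟨y, hy⟩ := ha
      exact ⟨y⁻¹, inv_mem hy⟩
  have key : ∀ (x : G) (v w : V), (x = 1 ∨ T.Adj v w) → x • v = v → x • w = w →
      f (pi φ (ka x v)) = 1 → pi φ (ka x v) = 1 := by
    intro x v w hvw hv hw h
    rw [hf, ff_ka, hv] at h
    have h3 : ρ x = 1 := by
      rw [map_mul, map_mul, map_inv, mul_assoc, inv_mul_eq_one] at h
      exact mul_eq_right.1 h.symm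
    rw [pi_ka φ hK hφ hv]
    rcases hvw with h4 | h4
    · rw [h4]
      exact one_mem _
    · exact h2 v w h4 x h3 hv hw
  refine Q182.Lu.main_fin hC.base.base (fun α => Pool.Agent.Y179.SS.t_free C hC.base.base α)
    (Q182.Lu.step_good hC) _ _ F f (fun j => ρ (qq j)) le_rfl hFfin
    (coprodI_mem hC.base Q hCQ) ?_ ?_ ?_ ?_
  · intro p hp
    obtain ⟨⟨j, a, b⟩, hp', rfl⟩ := hFS hp
    show ρ (qq j) * f (pi φ a) * (ρ (qq j))⁻¹ = f (pi φ b)
    rw [hf, hf, ← hqq T _ hp', map_mul, map_mul, map_inv]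
  · intro j x hx h
    obtain ⟨y, hy⟩ := hcl1 j x hx
    obtain ⟨z, hz1, hz2, hz3, hz4⟩ := gph_SB φ hFS j hy
    obtain ⟨rfl, rfl⟩ := Prod.mk.inj hz4
    exact key z _ _ (hz3.imp id SimpleGraph.Adj.symm) hz2 hz1 h
  · intro j y hy h
    obtain ⟨x, hx⟩ := hcl2 j y hy
    obtain ⟨z, hz1, hz2, hz3, hz4⟩ := gph_SB φ hFS j hx
    obtain ⟨rfl, rfl⟩ := Prod.mk.inj hz4
    exact key z _ _ hz3 hz1 hz2 h
  · intro j _
    exact Or.inr ⟨D, inferInstance, MonoidHom.id D, hD,
      (Set.finite_singleton (1 : D)).subset (fun x hx => hx.2)⟩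

/-- the conditions on the families of normal subgroups -/
structure LocKer (T : SimpleGraph V) (ρ : G →* D) (K L : V → Subgroup G) : Prop where
  fix : ∀ v, ∀ k ∈ K v, k • v = v
  le : ∀ v, L v ≤ K v
  eqK : ∀ (g : G) (v : V), ∀ k ∈ K v, g * k * g⁻¹ ∈ K (g • v)
  eqL : ∀ (g : G) (v : V), ∀ k ∈ L v, g * k * g⁻¹ ∈ L (g • v)
  ker : ∀ v, ∀ k ∈ K v, ρ k = 1
  edge : ∀ v w, T.Adj v w → ∀ s : G, ρ s = 1 → s • v = v → s • w = w → s ∈ K v
  comm : ∀ v w, T.Adj v w → ∀ s ∈ K v, s • w = w → ∀ k ∈ K v, s * k * s⁻¹ * k⁻¹ ∈ L v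
  inj : ∀ v w, T.Adj v w → ∀ s ∈ L v, s • w = w → s = 1

open Q182.Cen in
/-- **main theorem** -/
theorem main (hC : ClosedA C) (hmet : ∀ (G : Type) [Group G], derivedSeries G 2 = ⊥ → C G)
    (hT : TreeAct G T) (ρ : G →* D) (hD : C D) {K L : V → Subgroup G} (h : LocKer T ρ K L)
    (hQK : ∀ v, QuotIn C K v) (hQL : ∀ v, QuotIn C L v)
    (hst : ∀ v : V, C (MulAction.stabilizer G v)) : C G := by
  -- the normal subgroup generated by the `L v`
  let M : Subgroup G := Subgroup.closure {m | ∃ v, m ∈ L v}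
  have hM : M.Normal := by
    constructor
    intro m hm g
    have h1 : g * m * g⁻¹ ∈ M.map (MulAut.conj g).toMonoidHom := ⟨m, hm, rfl⟩
    rw [MonoidHom.map_closure] at h1
    refine Subgroup.closure_mono ?_ h1
    rintro _ ⟨n, ⟨v, hv⟩, rfl⟩
    exact ⟨g • v, h.eqL g v n hv⟩
  have hLM : ∀ v, L v ≤ M := fun v m hm => Subgroup.subset_closure ⟨v, hm⟩
  have hell : Ell V M := by
    refine (Subgroup.closure_le _).2 ?_
    rintro m ⟨v, hv⟩
    exact Subgroup.subset_closure ⟨hLM v hv, v, h.fix v m (h.le v hv)⟩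
  -- the intersections with the vertex stabilizers
  have hFL : Fam T L := ⟨fun v k hk => h.fix v k (h.le v hk), h.eqL, fun v w hvw k hk hw => by
    rw [h.inj v w hvw k hk hw]
    exact one_mem _⟩
  have hML : ∀ m ∈ M, ∀ v, m • v = v → m ∈ L v := by
    choose Q iQ φ hCQ hφ using fun ω : Q182.Lu.Orb G V => hQL ω.out
    obtain ⟨θ, hθ⟩ := exists_theta φ hT hFL hφ
    have h1 : M ≤ θ.ker := by
      refine (Subgroup.closure_le _).2 ?_
      rintro m ⟨v, hv⟩
      exact (hθ m v (h.fix v m (h.le v hv))).2 hv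
    exact fun m hm v hv => (hθ m v hv).1 (h1 hm)
  -- the homomorphism with the kernels `K v`
  obtain ⟨D', _, ρ', hD', hρ'⟩ := prescribe hC hT ρ hD h.fix h.eqK h.ker h.edge hQK
  have hMρ' : M ≤ ρ'.ker := by
    refine (Subgroup.closure_le _).2 ?_
    rintro m ⟨v, hv⟩
    exact (hρ' m v (h.fix v m (h.le v hv))).2 (h.le v hv)
  let _ := qAct V M
  have hA : TreeAct (G ⧸ M) (QG T M) := treeAct_QG M hT hell
  have hsm : ∀ (g : G) (x : V), (QuotientGroup.mk' M g) • mk M x = mk M (g • x) := fun g x => rfl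
  have hsurj := QuotientGroup.mk'_surjective M
  let σ : G ⧸ M →* D' := QuotientGroup.lift M ρ' (fun x hx => hMρ' hx)
  have hσ : ∀ x : G, σ (QuotientGroup.mk' M x) = ρ' x := fun x => rfl
  have hsame : ∀ n ∈ M, ∀ g : G, QuotientGroup.mk' M (n * g) = QuotientGroup.mk' M g := by
    intro n hn g
    rw [map_mul, show QuotientGroup.mk' M n = 1 from (QuotientGroup.eq_one_iff n).2 hn, one_mul]
  have hlift : ∀ (g : G) (x : V), mk M (g • x) = mk M x → ∃ n ∈ M, (n * g) • x = x := by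
    intro g x hx
    obtain ⟨n, hn, h1⟩ := mk_eq.1 hx
    exact ⟨n⁻¹, inv_mem hn, by rw [mul_smul, ← h1, inv_smul_smul]⟩
  have hG' : C (G ⧸ M) := by
    refine Q182.Rc.main hC hmet hA σ hD' ?_ ?_
    · intro p q hpq s hs hsp hsq g hg hgp
      obtain ⟨s, rfl⟩ := hsurj s
      obtain ⟨g, rfl⟩ := hsurj g
      obtain ⟨a, rfl⟩ := exists_mk p
      obtain ⟨b, hab, rfl⟩ := exists_lift hT hpq
      obtain ⟨n, hn, h2, h3⟩ := Q182.Rc.edge_lift hT hell hab (g := s) hsp hsq
      obtain ⟨n', hn', h4⟩ := hlift g a hgp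
      have h5 : n * s ∈ K a := by
        refine (hρ' _ a h2).1 ?_
        rw [map_mul, hMρ' hn, one_mul]
        exact hs
      have h6 : n' * g ∈ K a := by
        refine (hρ' _ a h4).1 ?_
        rw [map_mul, hMρ' hn', one_mul]
        exact hg
      have h7 := hLM a (h.comm a b hab _ h5 h3 _ h6)
      have h8 := (QuotientGroup.eq_one_iff _).2 h7
      have h9 : QuotientGroup.mk' M (n * s) * QuotientGroup.mk' M (n' * g) *
          (QuotientGroup.mk' M (n * s))⁻¹ * (QuotientGroup.mk' M (n' * g))⁻¹ = 1 := h8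
      rw [hsame n hn, hsame n' hn', mul_inv_eq_one, mul_inv_eq_iff_eq_mul] at h9
      exact h9.symm
    · intro p
      obtain ⟨a, rfl⟩ := exists_mk p
      obtain ⟨Q, _, φ, hQ, hφ⟩ := hQL a
      let f : MulAction.stabilizer G a →* MulAction.stabilizer (G ⧸ M) (mk M a) :=
        ((QuotientGroup.mk' M).comp (MulAction.stabilizer G a).subtype).codRestrict _ (by
          intro s
          show (QuotientGroup.mk' M (s : G)) • mk M a = mk M a
          rw [hsm]
          exact congrArg (mk M) s.2)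
      refine of_surj_ker hC.base.base f ?_ φ ?_ hQ
      · rintro ⟨g, hg⟩
        obtain ⟨g, rfl⟩ := hsurj g
        have hg' : mk M (g • a) = mk M a := hg
        obtain ⟨n, hn, h1⟩ := hlift g a hg'
        exact ⟨⟨n * g, h1⟩, Subtype.ext (hsame n hn g)⟩
      · intro s
        rw [hφ s]
        constructor
        · intro h1
          have h2 : QuotientGroup.mk' M (s : G) = 1 := congrArg Subtype.val h1
          exact hML s ((QuotientGroup.eq_one_iff _).1 h2) a s.2
        · intro h1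
          exact Subtype.ext ((QuotientGroup.eq_one_iff _).2 (hLM a h1))
  refine Q9.FJT.tree_edge (V := V) (T := T) (QuotientGroup.mk' M) hC.base hG' hT.isTree
    hT.adj hT.noInv ?_ hst
  intro g v w hvw hv hw h1
  exact h.inj v w hvw g (hML g ((QuotientGroup.eq_one_iff _).1 h1) v hv) hw

end Q182.Lk
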