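import Pool.Agent.Q182.LuHnn
import Pool.Agent.Q182.CenPot
import Pool.Agent.Q30.FJ.GrP
import Pool.Agent.Y179.SS.Free

/-!
# A group acting on a tree embeds in a multiple HNN extension of a free product of stabilizers
-/

set_option autoImplicit false

namespace Q182.Lu

open Monoid SimpleGraph
open Pool.Agent.Helper270.Tree
open Pool.Agent.Y462.SS (Closed)
open Q182.Cyl (ClosedA Est)

section Cls

variable {G : Type} [Group G]

/-- orbits -/
abbrev Orb (G X : Type) [Group G] [MulAction G X] : Type := Quotient (MulAction.orbitRel G X)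

/-- the orbit -/
def cls (G : Type) {X : Type} [Group G] [MulAction G X] (x : X) : Orb G X :=
  Quotient.mk (MulAction.orbitRel G X) x

theorem cls_smul {X : Type} [MulAction G X] (g : G) (x : X) : cls G (g • x) = cls G x :=
  Quotient.sound (MulAction.orbitRel_apply.2 ⟨g, rfl⟩)

theorem cls_eq {X : Type} [MulAction G X] {x y : X} (h : cls G x = cls G y) : ∃ g : G, g • x = y := by
  have h1 := MulAction.orbitRel_apply.1 (Quotient.exact h)
  obtain ⟨g, hg⟩ := h1
  refine ⟨g⁻¹, ?_⟩
  rw [inv_smul_eq_iff]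
  exact hg.symm

theorem exists_cc {X : Type} [MulAction G X] (x : X) : ∃ g : G, g • (cls G x).out = x := by
  apply cls_eq
  exact Quotient.out_eq _

/-- an element which maps the representative to `x` -/
noncomputable def cc {X : Type} [MulAction G X] (x : X) : G := (exists_cc (G := G) x).choose

theorem cc_spec {X : Type} [MulAction G X] (x : X) : (cc x : G) • (cls G x).out = x :=
  (exists_cc (G := G) x).choose_spec

end Cls

section Base

variable (G V : Type) [Group G] [MulAction G V]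

/-- the free product of the stabilizers of representatives of the vertices -/
abbrev M0 : Type := CoprodI (fun ω : Orb G V => MulAction.stabilizer G ω.out)

variable {G V}

open Classical in
/-- an element of a stabilizer as an element of the free product -/
noncomputable def ee (ω : Orb G V) (x : G) : M0 G V :=
  if h : x ∈ MulAction.stabilizer G ω.out then CoprodI.of (i := ω) ⟨x, h⟩ else 1

theorem ee_of (ω : Orb G V) {x : G} (h : x ∈ MulAction.stabilizer G ω.out) :
    ee ω x = CoprodI.of (M := fun ω : Orb G V => MulAction.stabilizer G ω.out) (i := ω) ⟨x, h⟩ :=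
  dif_pos h

theorem ee_mul (ω : Orb G V) {x y : G} (hx : x ∈ MulAction.stabilizer G ω.out)
    (hy : y ∈ MulAction.stabilizer G ω.out) : ee ω (x * y) = ee ω x * ee ω y := by
  rw [ee_of ω hx, ee_of ω hy, ee_of ω (mul_mem hx hy), ← map_mul]
  rfl

theorem ee_range (ω : Orb G V) (x : G) : ee ω x ∈
    (CoprodI.of (M := fun ω : Orb G V => MulAction.stabilizer G ω.out) (i := ω)).range := by
  by_cases h : x ∈ MulAction.stabilizer G ω.out
  · rw [ee_of ω h]
    exact ⟨_, rfl⟩
  · rw [ee, dif_neg h]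
    exact one_mem _

/-- the homomorphism to `G` -/
noncomputable def ff : M0 G V →* G := CoprodI.lift (fun ω => (MulAction.stabilizer G ω.out).subtype)

theorem ff_of (ω : Orb G V) (s : MulAction.stabilizer G ω.out) :
    ff (CoprodI.of (M := fun ω : Orb G V => MulAction.stabilizer G ω.out) (i := ω) s) = (s : G) :=
  CoprodI.lift_of _ _

theorem ff_ee (ω : Orb G V) {x : G} (h : x ∈ MulAction.stabilizer G ω.out) :
    ff (ee ω x) = x := by
  rw [ee_of ω h, ff_of]

theorem ff_inj (ω : Orb G V) {z : M0 G V} (hz : z ∈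
    (CoprodI.of (M := fun ω : Orb G V => MulAction.stabilizer G ω.out) (i := ω)).range)
    (h : ff z = 1) : z = 1 := by
  obtain ⟨s, rfl⟩ := hz
  rw [ff_of] at h
  rw [show s = 1 from Subtype.ext h, map_one]

/-- the transport elements -/
noncomputable def ka (g : G) (v : V) : M0 G V := ee (cls G v) ((cc (g • v))⁻¹ * g * cc v)

theorem ka_mem (g : G) (v : V) :
    (cc (g • v) : G)⁻¹ * g * cc v ∈ MulAction.stabilizer G (cls G v).out := by
  rw [MulAction.mem_stabilizer_iff, mul_smul, mul_smul, cc_spec, inv_smul_eq_iff]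
  have h := cc_spec (G := G) (g • v)
  rw [cls_smul] at h
  exact h.symm

theorem ka_mul (g h : G) (v : V) : ka (g * h) v = ka g (h • v) * ka h v := by
  have h1 : (cc ((g * h) • v) : G)⁻¹ * (g * h) * cc v =
      ((cc (g • h • v))⁻¹ * g * cc (h • v)) * ((cc (h • v))⁻¹ * h * cc v) := by
    rw [mul_smul]
    group
  have h2 := ka_mem g (h • v)
  rw [cls_smul] at h2
  rw [ka, h1, ee_mul _ h2 (ka_mem h v), ka, ka, cls_smul]

theorem ff_ka (g : G) (v : V) : ff (ka g v) = (cc (g • v))⁻¹ * g * cc v :=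
  ff_ee _ (ka_mem g v)

theorem c_base {C : ∀ (G : Type) [Group G], Prop} (hC : Pool.Agent.Y110.FJ.ClosedE C)
    (hst : ∀ v : V, C (MulAction.stabilizer G v)) : C (M0 G V) := by
  let A : Orb G V → Type := fun ω => MulAction.stabilizer G ω.out
  have h1 := Q30.FJ.gp C hC (Orb G V) ⊥ A (fun ω => hst ω.out)
  have hrel : Pool.Agent.Y110.FJ.commRel (⊥ : SimpleGraph (Orb G V)) A = ∅ := by
    rw [Set.eq_empty_iff_forall_notMem]
    rintro _ ⟨v, w, a, b, h, _⟩
    exact h
  refine hC.base.of_injective _ _ (QuotientGroup.mk' (Subgroup.normalClosure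
    (Pool.Agent.Y110.FJ.commRel (⊥ : SimpleGraph (Orb G V)) A))) ?_ h1
  rw [injective_iff_map_eq_one]
  intro x hx
  have h2 : x ∈ Subgroup.normalClosure (Pool.Agent.Y110.FJ.commRel (⊥ : SimpleGraph (Orb G V)) A) :=
    (QuotientGroup.eq_one_iff x).1 hx
  have h3 : Subgroup.normalClosure (Pool.Agent.Y110.FJ.commRel (⊥ : SimpleGraph (Orb G V)) A) ≤ ⊥ := by
    refine Subgroup.normalClosure_le_normal ?_
    rw [hrel]
    exact Set.empty_subset _
  exact Subgroup.mem_bot.1 (h3 h2)

end Base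

section Rel

variable {G V : Type} [Group G] [MulAction G V] (T : SimpleGraph V)

/-- the relations for all edges -/
def SS (T : SimpleGraph V) : Set (Orb G (V × V) × M0 G V × M0 G V) :=
  {z | ∃ (j : Orb G (V × V)) (x : G), T.Adj j.out.1 j.out.2 ∧ x • j.out.1 = j.out.1 ∧
    x • j.out.2 = j.out.2 ∧ z = (j, ka x j.out.2, ka x j.out.1)}

/-- the images of the letters -/
noncomputable def qq (j : Orb G (V × V)) : G := (cc j.out.1)⁻¹ * cc j.out.2

theorem hqq : ∀ p ∈ SS (G := G) T, qq p.1 * ff p.2.1 * (qq p.1)⁻¹ = ff p.2.2 := by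
  rintro _ ⟨j, x, _, h1, h2, rfl⟩
  show qq j * ff (ka x j.out.2) * (qq j)⁻¹ = ff (ka x j.out.1)
  rw [ff_ka, ff_ka, h1, h2, qq]
  group

/-- the path along an edge, for a given translation of the representative -/
noncomputable def p1 (d : G) (j : Orb G (V × V)) : U (SS (G := G) T) :=
  bs _ (ka d j.out.1) * tt _ j * (bs _ (ka d j.out.2))⁻¹

theorem p1_nat (j : Orb G (V × V)) (hj : T.Adj j.out.1 j.out.2) (g d d' : G)
    (h : d' • j.out = g • d • j.out) : p1 T d' j =
      bs _ (ka g (d • j.out.1)) * p1 T d j * (bs _ (ka g (d • j.out.2)))⁻¹ := by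
  obtain ⟨x, hx⟩ : ∃ x, x = d⁻¹ * g⁻¹ * d' := ⟨_, rfl⟩
  have hxo : x • j.out = j.out := by
    rw [hx, mul_smul, mul_smul, h, inv_smul_smul, inv_smul_smul]
  have h1 : x • j.out.1 = j.out.1 := congrArg Prod.fst hxo
  have h2 : x • j.out.2 = j.out.2 := congrArg Prod.snd hxo
  have hd : d' = g * (d * x) := by rw [hx]; group
  have h3 := rel (S := SS (G := G) T) (p := (j, ka x j.out.2, ka x j.out.1)) ⟨j, x, hj, h1, h2, rfl⟩
  have h4 : tt (SS (G := G) T) j * bs _ (ka x j.out.2) = bs _ (ka x j.out.1) * tt _ j :=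
    mul_inv_eq_iff_eq_mul.1 h3
  rw [p1, p1, hd, ka_mul g (d * x), ka_mul g (d * x), ka_mul d x, ka_mul d x, mul_smul, mul_smul,
    h1, h2]
  simp only [map_mul, mul_inv_rev]
  have h5 : bs (SS (G := G) T) (ka x j.out.1) * tt _ j * (bs _ (ka x j.out.2))⁻¹ = tt _ j := by
    rw [← h4, mul_inv_cancel_right]
  calc _ = bs (SS (G := G) T) (ka g (d • j.out.1)) * bs _ (ka d j.out.1) *
        (bs (SS (G := G) T) (ka x j.out.1) * tt _ j * (bs _ (ka x j.out.2))⁻¹) *
        (bs _ (ka d j.out.2))⁻¹ * (bs _ (ka g (d • j.out.2)))⁻¹ := by simp only [mul_assoc]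
    _ = _ := by rw [h5]; simp only [mul_assoc]

/-- the path along an edge -/
noncomputable def p0 (v w : V) : U (SS (G := G) T) := p1 T (cc (v, w)) (cls G (v, w))

/-- positive orientation -/
def pos (G : Type) [Group G] [MulAction G V] (v w : V) : Prop :=
  WellOrderingRel (cls G (v, w)) (cls G (w, v))

theorem pos_smul (g : G) (v w : V) : pos G (g • v) (g • w) ↔ pos G v w := by
  rw [pos, pos, show ((g • v, g • w) : V × V) = g • (v, w) from rfl,
    show ((g • w, g • v) : V × V) = g • (w, v) from rfl, cls_smul, cls_smul]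

theorem pos_asymm {v w : V} (h : pos G v w) : ¬ pos G w v := fun h' =>
  (asymm_of WellOrderingRel h h')

variable {T}

theorem pos_total (hT : TreeAct G T) {v w : V} (h : T.Adj v w) : pos G v w ∨ pos G w v := by
  rcases trichotomous_of WellOrderingRel (cls G (v, w)) (cls G (w, v)) with h1 | h1 | h1
  · exact Or.inl h1
  · exfalso
    obtain ⟨g, hg⟩ := cls_eq h1
    exact hT.noInv g v w h ⟨congrArg Prod.fst hg, congrArg Prod.snd hg⟩
  · exact Or.inr h1

theorem adj_out (hT : TreeAct G T) {v w : V} (h : T.Adj v w) :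
    T.Adj (cls G (v, w)).out.1 (cls G (v, w)).out.2 := by
  have h1 := cc_spec (G := G) (v, w)
  have h2 := hT.adj (cc (v, w) : G)⁻¹ v w h
  have h3 : (cls G (v, w)).out = (cc (v, w) : G)⁻¹ • ((v, w) : V × V) := by
    rw [eq_inv_smul_iff]; exact h1
  rw [h3]
  exact h2

theorem p0_nat (hT : TreeAct G T) {v w : V} (h : T.Adj v w) (g : G) : p0 T (g • v) (g • w) =
    bs (SS (G := G) T) (ka g v) * p0 T v w * (bs _ (ka g w))⁻¹ := by
  have h0 : cls G (g • v, g • w) = cls G (v, w) := cls_smul g (v, w)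
  have hs := cc_spec (G := G) (v, w)
  have hs' := cc_spec (G := G) (g • v, g • w)
  have h1 := p1_nat T (cls G (v, w)) (adj_out hT h) g (cc (v, w)) (cc (g • v, g • w)) (by
    rw [hs, ← h0, hs']
    rfl)
  have hv : (cc (v, w) : G) • (cls G (v, w)).out.1 = v := congrArg Prod.fst hs
  have hw : (cc (v, w) : G) • (cls G (v, w)).out.2 = w := congrArg Prod.snd hs
  rw [hv, hw] at h1
  rw [p0, p0, h0]
  exact h1

open Classical in
/-- the cochain -/
noncomputable def DD (T : SimpleGraph V) (v w : V) : U (SS (G := G) T) :=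
  if pos G v w then p0 T v w else if pos G w v then (p0 T w v)⁻¹ else 1

theorem DD_symm (v w : V) : DD (G := G) T w v = (DD T v w)⁻¹ := by
  unfold DD
  by_cases h1 : pos G v w
  · rw [if_pos h1, if_neg (pos_asymm h1), if_pos h1]
  · by_cases h2 : pos G w v
    · rw [if_pos h2, if_neg h1, if_pos h2, inv_inv]
    · rw [if_neg h1, if_neg h2, if_neg h2, if_neg h1, inv_one]

theorem DD_pos {v w : V} (h : pos G v w) : DD (G := G) T v w = p0 T v w := if_pos h

theorem DD_nat (hT : TreeAct G T) {v w : V} (h : T.Adj v w) (g : G) :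
    DD T (g • v) (g • w) = bs (SS (G := G) T) (ka g v) * DD T v w * (bs _ (ka g w))⁻¹ := by
  rcases pos_total hT h with h1 | h1
  · rw [DD_pos h1, DD_pos ((pos_smul g v w).2 h1), p0_nat hT h]
  · rw [DD_symm w v, DD_symm (g • w) (g • v), DD_pos h1, DD_pos ((pos_smul g w v).2 h1),
      p0_nat hT h.symm]
    group

/-- the homomorphism to `G` -/
noncomputable def rr (T : SimpleGraph V) : U (SS (G := G) T) →* G := lift ff qq (hqq T)

theorem rr_p0 (v w : V) : rr T (p0 (G := G) T v w) = (cc v)⁻¹ * cc w := by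
  have hs := cc_spec (G := G) (v, w)
  have hv : (cc (v, w) : G) • (cls G (v, w)).out.1 = v := congrArg Prod.fst hs
  have hw : (cc (v, w) : G) • (cls G (v, w)).out.2 = w := congrArg Prod.snd hs
  rw [p0, p1, map_mul, map_mul, map_inv, rr, lift_bs, lift_bs, lift_tt, ff_ka, ff_ka, hv, hw, qq]
  group

theorem rr_DD (hT : TreeAct G T) {v w : V} (h : T.Adj v w) :
    rr T (DD (G := G) T v w) = (cc v)⁻¹ * cc w := by
  rcases pos_total hT h with h1 | h1
  · rw [DD_pos h1, rr_p0]
  · rw [DD_symm w v, DD_pos h1, map_inv, rr_p0]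
    group

/-- **the embedding** -/
theorem embedding (hT : TreeAct G T) : ∃ i : G →* U (SS (G := G) T), Function.Injective i := by
  obtain ⟨o⟩ := hT.isTree.connected.nonempty
  obtain ⟨F, _, hF⟩ := Q9.FJT.exists_potential (DD (G := G) T) hT.isTree o (fun a b => DD_symm a b)
  have hconst : ∀ (g : G) (v w : V), F (g • v) * bs _ (ka g v) * (F v)⁻¹ =
      F (g • w) * bs _ (ka g w) * (F w)⁻¹ := by
    intro g v w
    refine Q182.Cen.const_of_adj hT.isTree (fun v => F (g • v) * bs _ (ka g v) * (F v)⁻¹) ?_ v w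
    intro a b hab
    show F (g • a) * bs _ (ka g a) * (F a)⁻¹ = F (g • b) * bs _ (ka g b) * (F b)⁻¹
    rw [hF _ _ (hT.adj g a b hab), hF a b hab, DD_nat hT hab g]
    group
  let i : G →* U (SS (G := G) T) := MonoidHom.mk' (fun g => F (g • o) * bs _ (ka g o) * (F o)⁻¹) (by
    intro g h
    show F ((g * h) • o) * bs _ (ka (g * h) o) * (F o)⁻¹ =
      (F (g • o) * bs _ (ka g o) * (F o)⁻¹) * (F (h • o) * bs _ (ka h o) * (F o)⁻¹)
    rw [hconst g o (h • o), ka_mul, map_mul, mul_smul]
    group)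
  refine ⟨i, ?_⟩
  rw [injective_iff_map_eq_one]
  intro g hg
  have hk : ∀ v w : V, rr T (F v) * (cc v : G)⁻¹ = rr T (F w) * (cc w : G)⁻¹ := by
    intro v w
    refine Q182.Cen.const_of_adj hT.isTree (fun v => rr T (F v) * (cc v : G)⁻¹) ?_ v w
    intro a b hab
    show rr T (F a) * (cc a : G)⁻¹ = rr T (F b) * (cc b : G)⁻¹
    rw [hF a b hab, map_mul, rr_DD hT hab]
    group
  have h1 : rr T (i g) = 1 := by rw [hg, map_one]
  have h2 : rr T (i g) = (rr T (F (g • o)) * (cc (g • o))⁻¹) * g * (rr T (F o) * (cc o)⁻¹)⁻¹ := by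
    show rr T (F (g • o) * bs _ (ka g o) * (F o)⁻¹) = _
    rw [map_mul, map_mul, map_inv, show rr T (bs _ (ka g o)) = ff (ka g o) from lift_bs _ _ _ _,
      ff_ka]
    group
  rw [h2, hk (g • o) o] at h1
  exact (conj_eq_one_iff.1 h1)

end Rel

end Q182.Lu
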