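import Pool.Agent.Q182.LuStep
import Pool.Agent.Q182.FkMain

/-!
# HNN extensions over groups which are controlled by a homomorphism of the base
-/

set_option autoImplicit false

namespace Q182.Lu

open Pool.Agent.Helper270.Tree Pool.Agent.Helper270.HNN
open Pool.Agent.Y462.SS (Closed)
open Q182.Cyl (ClosedA Est InfOrd VcEdges Balanced)

/-- `E` is virtually cyclic, and powers of an element of infinite order of `E` are conjugate in `Q`
only if the exponents are equal up to sign -/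
def VcBal {Q : Type} [Group Q] (E : Subgroup Q) : Prop :=
  (∃ c ∈ E, (Subgroup.zpowers c).relIndex E ≠ 0) ∧
    ∀ h ∈ E, (∀ n : ℕ, 0 < n → h ^ n ≠ 1) → ∀ (g : Q) (m n : ℤ),
      g * h ^ m * g⁻¹ = h ^ n → |m| = |n|

/-- there is a homomorphism to a group in `C` which has a finite kernel on `E` -/
def FinKer (C : ∀ (G : Type) [Group G], Prop) {Q : Type} [Group Q] (E : Subgroup Q) : Prop :=
  ∃ (D : Type) (_ : Group D) (ρ : Q →* D), C D ∧ {x : Q | x ∈ E ∧ ρ x = 1}.Finite

/-- one of the two properties -/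
def Good (C : ∀ (G : Type) [Group G], Prop) {Q : Type} [Group Q] (E : Subgroup Q) : Prop :=
  VcBal E ∨ FinKer C E

theorem vc_map {H K : Type} [Group H] [Group K] (f : H →* K) (E : Subgroup H)
    (hf : ∀ x ∈ E, f x = 1 → x = 1) : (∃ c ∈ E.map f, (Subgroup.zpowers c).relIndex (E.map f) ≠ 0) ↔
      ∃ c ∈ E, (Subgroup.zpowers c).relIndex E ≠ 0 := by
  have key : ∀ c ∈ E, (Subgroup.zpowers (f c)).relIndex (E.map f) =
      (Subgroup.zpowers c).relIndex E := by
    intro c hc
    rw [← Subgroup.relIndex_comap, ← Subgroup.inf_relIndex_right, ← Subgroup.inf_relIndex_right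
      (Subgroup.zpowers c)]
    congr 1
    ext x
    constructor
    · rintro ⟨hx, hxE⟩
      refine ⟨?_, hxE⟩
      obtain ⟨n, hn⟩ := Subgroup.mem_zpowers_iff.1 (Subgroup.mem_comap.1 hx)
      refine Subgroup.mem_zpowers_iff.2 ⟨n, ?_⟩
      refine inj_of hf (zpow_mem hc n) hxE ?_
      rw [map_zpow, hn]
    · rintro ⟨hx, hxE⟩
      refine ⟨?_, hxE⟩
      obtain ⟨n, rfl⟩ := Subgroup.mem_zpowers_iff.1 hx
      exact Subgroup.mem_comap.2 (Subgroup.mem_zpowers_iff.2 ⟨n, (map_zpow f c n).symm⟩)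
  constructor
  · rintro ⟨_, ⟨c, hc, rfl⟩, h⟩
    exact ⟨c, hc, by rwa [key c hc] at h⟩
  · rintro ⟨c, hc, h⟩
    exact ⟨f c, ⟨c, hc, rfl⟩, by rwa [key c hc]⟩

section

variable {M : Type} [Group M] {A B : Subgroup M} {φ : A ≃* B}

theorem stab_mem {C : ∀ (G : Type) [Group G], Prop} (hC : Closed C) (hM : C M)
    (v : Vert φ) : C (MulAction.stabilizer (HNNExtension M A B φ) v) := by
  obtain ⟨g, rfl⟩ := exists_vt v
  have h1 : ∀ s : MulAction.stabilizer (HNNExtension M A B φ) (vt g), ∃ x : M,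
      g⁻¹ * (s : HNNExtension M A B φ) * g = HNNExtension.of x := by
    intro s
    refine (stab_one _).1 ?_
    have h2 : (s : HNNExtension M A B φ) • vt g = vt g := s.2
    rw [smul_vt, mul_one, vt_eq_iff]
    rw [smul_vt, vt_eq_iff] at h2
    obtain ⟨x, hx⟩ := h2
    refine ⟨x, ?_⟩
    rw [mul_assoc, mul_assoc, ← mul_assoc (s : HNNExtension M A B φ), hx, inv_mul_cancel]
  choose α hα using h1
  have hof : Function.Injective (HNNExtension.of : M →* HNNExtension M A B φ) :=
    HNNExtension.of_injective φ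
  refine hC.of_injective _ M (MonoidHom.mk' α (fun a b => hof ?_)) ?_ hM
  · rw [← hα, map_mul, ← hα, ← hα, Subgroup.coe_mul]
    group
  · intro a b hab
    have h2 : α a = α b := hab
    have h3 := hα a
    rw [h2, ← hα b] at h3
    exact Subtype.ext (mul_left_cancel (mul_right_cancel h3))

theorem est_eq {v w : Vert φ} (h : (graph φ).Adj v w) : ∃ k : HNNExtension M A B φ,
    Est (HNNExtension M A B φ) v w =
      (A.map HNNExtension.of).map (MulAut.conj k).toMonoidHom := by
  have key : ∀ k : HNNExtension M A B φ, Est (HNNExtension M A B φ) (k • vt 1 : Vert φ)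
      (k • vt HNNExtension.t⁻¹ : Vert φ) =
        (A.map HNNExtension.of).map (MulAut.conj k).toMonoidHom := by
    intro k
    rw [← stab_edge]
    ext x
    rw [Subgroup.mem_map_equiv]
    show _ ↔ (MulAut.conj k).symm x • (vt 1 : Vert φ) = vt 1 ∧
      (MulAut.conj k).symm x • (vt HNNExtension.t⁻¹ : Vert φ) = vt HNNExtension.t⁻¹
    rw [Q182.Cyl.mem_Est, MulAut.conj_symm_apply, mul_smul, mul_smul, mul_smul, mul_smul,
      inv_smul_eq_iff, inv_smul_eq_iff]
  obtain ⟨k, ⟨rfl, rfl⟩ | ⟨rfl, rfl⟩⟩ := one_orbit h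
  · exact ⟨k, key k⟩
  · exact ⟨k, by rw [Q182.Cyl.Est_comm, key k]⟩

end

/-- **HNN extensions** -/
theorem step_good {C : ∀ (G : Type) [Group G], Prop} (hC : ClosedA C) {Q : Type} [Group Q] :
    Step C (Good C (Q := Q)) := by
  intro M _ A B φ f q hM hA hB hφ hgood
  let f' : HNNExtension M A B φ →* Q := HNNExtension.lift f q (by
    intro a
    rw [hφ, inv_mul_cancel_right])
  have hf' : ∀ x, f' (HNNExtension.of x) = f x := fun x => HNNExtension.lift_of _ _ _ x
  have hof : Function.Injective (HNNExtension.of : M →* HNNExtension M A B φ) :=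
    HNNExtension.of_injective φ
  have hcomp : f'.comp HNNExtension.of = f := MonoidHom.ext hf'
  rcases hgood with ⟨hvc, hbal⟩ | ⟨D, _, ρ, hD, hfin⟩
  · refine Q182.Cyl.main2 hC (treeAct (φ := φ)) ?_ ?_ (stab_mem hC.base.base hM)
    · intro v w hvw
      obtain ⟨k, hk⟩ := est_eq hvw
      rw [hk, vc_map _ _ (fun x _ hx => by
        exact (MulAut.conj k).injective (hx.trans (map_one _).symm)),
        vc_map _ _ (fun x _ hx => hof (hx.trans (map_one _).symm))]
      exact (vc_map f A hA).1 hvc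
    · intro v w h g m n hvw hh hinf hgh
      obtain ⟨k, hk⟩ := est_eq hvw
      rw [hk] at hh
      obtain ⟨_, ⟨a, ha, rfl⟩, hka⟩ := hh
      have hka' : k * HNNExtension.of a * k⁻¹ = h := hka
      have h1 : f' h = f' k * f a * (f' k)⁻¹ := by
        rw [← hka', map_mul, map_mul, map_inv, hf']
      refine hbal (f a) ⟨a, ha, rfl⟩ ?_ ((f' k)⁻¹ * f' g * f' k) m n ?_
      · intro i hi hfi
        refine hinf i hi ?_
        rw [← hka', conj_pow, ← map_pow, hA (a ^ i) (pow_mem ha i) (by rw [map_pow, hfi]), map_one,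
          mul_one, mul_inv_cancel]
      · have h2 := congrArg f' hgh
        rw [map_mul, map_mul, map_inv, map_zpow, map_zpow, h1, conj_zpow, conj_zpow] at h2
        have h3 : (f' k)⁻¹ * f' g * f' k * f a ^ m * ((f' k)⁻¹ * f' g * f' k)⁻¹ =
            (f' k)⁻¹ * (f' g * (f' k * f a ^ m * (f' k)⁻¹) * (f' g)⁻¹) * f' k := by group
        rw [h3, h2]
        group
  · refine Q182.Fk.main hC (ρ.comp f') hD (treeAct (φ := φ)) ?_ (stab_mem hC.base.base hM)
    intro v w hvw
    obtain ⟨k, hk⟩ := est_eq hvw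
    have h1 : ∀ g : HNNExtension M A B φ, g • v = v ∧ g • w = w → ∃ a ∈ A,
        k * HNNExtension.of a * k⁻¹ = g := by
      intro g hg
      have h2 : g ∈ Est (HNNExtension M A B φ) v w := hg
      rw [hk] at h2
      obtain ⟨_, ⟨a, ha, rfl⟩, hka⟩ := h2
      exact ⟨a, ha, hka⟩
    refine Set.Finite.of_finite_image (f := fun g => (f' k)⁻¹ * f' g * f' k) (hfin.subset ?_) ?_
    · rintro _ ⟨g, ⟨hg1, hg2, hg3⟩, rfl⟩
      obtain ⟨a, ha, rfl⟩ := h1 g ⟨hg1, hg2⟩
      have h4 : (f' k)⁻¹ * f' (k * HNNExtension.of a * k⁻¹) * f' k = f a := by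
        rw [map_mul, map_mul, map_inv, hf']
        group
      show (f' k)⁻¹ * f' (k * HNNExtension.of a * k⁻¹) * f' k ∈ _
      rw [h4]
      refine ⟨⟨a, ha, rfl⟩, ?_⟩
      have h5 : ρ (f' (k * HNNExtension.of a * k⁻¹)) = 1 := hg3
      rw [map_mul, map_mul, map_mul, map_mul, map_inv, map_inv, hf', mul_inv_eq_one] at h5
      exact mul_eq_left.1 h5
    · rintro g ⟨hg1, hg2, _⟩ g' ⟨hg1', hg2', _⟩ he
      obtain ⟨a, ha, rfl⟩ := h1 g ⟨hg1, hg2⟩
      obtain ⟨a', ha', rfl⟩ := h1 g' ⟨hg1', hg2'⟩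
      have h6 : f a = f a' := by
        have h7 : (f' k)⁻¹ * f' (k * HNNExtension.of a * k⁻¹) * f' k =
            (f' k)⁻¹ * f' (k * HNNExtension.of a' * k⁻¹) * f' k := he
        have h8 := mul_left_cancel (mul_right_cancel h7)
        rw [map_mul, map_mul, map_mul, map_mul, hf', hf'] at h8
        exact mul_left_cancel (mul_right_cancel h8)
      rw [inj_of hA ha ha' h6]

end Q182.Lu
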