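import Pool.Agent.Q182.LuU

/-!
# Iterated HNN extensions
-/

set_option autoImplicit false

namespace Q182.Lu

open Monoid
open Pool.Agent.Y462.SS (Closed)

theorem inj_of {M Q : Type} [Group M] [Group Q] {f : M →* Q} {A : Subgroup M}
    (h : ∀ x ∈ A, f x = 1 → x = 1) {x y : M} (hx : x ∈ A) (hy : y ∈ A) (he : f x = f y) :
    x = y := by
  have h1 := h (x * y⁻¹) (mul_mem hx (inv_mem hy)) (by rw [map_mul, map_inv, he, mul_inv_cancel])
  rwa [mul_inv_eq_one] at h1

/-- conjugation in the target gives an isomorphism -/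
theorem exists_iso {M Q : Type} [Group M] [Group Q] (f : M →* Q) (q : Q) (A B : Subgroup M)
    (hA : ∀ x ∈ A, f x = 1 → x = 1) (hB : ∀ x ∈ B, f x = 1 → x = 1)
    (h1 : ∀ a ∈ A, ∃ b ∈ B, f b = q * f a * q⁻¹) (h2 : ∀ b ∈ B, ∃ a ∈ A, f b = q * f a * q⁻¹) :
    ∃ φ : A ≃* B, ∀ a : A, f (φ a : M) = q * f a * q⁻¹ := by
  choose β hβ using fun a : A => h1 a a.2
  let g : A →* B := MonoidHom.mk' (fun a => ⟨β a, (hβ a).1⟩) (by
    intro a b
    apply Subtype.ext
    refine inj_of hB (hβ _).1 (mul_mem (hβ a).1 (hβ b).1) ?_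
    show f (β (a * b)) = f (β a * β b)
    rw [map_mul, (hβ _).2, (hβ a).2, (hβ b).2, Subgroup.coe_mul, map_mul]
    group)
  have hg : ∀ a : A, f (g a : M) = q * f a * q⁻¹ := fun a => (hβ a).2
  have hb : Function.Bijective g := by
    constructor
    · intro a b hab
      have h3 := hg a
      rw [hab, hg b] at h3
      have h4 : f a = f b := by
        have h5 := mul_right_cancel h3
        exact (mul_left_cancel h5).symm
      exact Subtype.ext (inj_of hA a.2 b.2 h4)
    · intro b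
      obtain ⟨a, ha, hba⟩ := h2 b b.2
      refine ⟨⟨a, ha⟩, Subtype.ext (inj_of hB (g ⟨a, ha⟩).2 b.2 ?_)⟩
      rw [hg, hba]
  exact ⟨MulEquiv.ofBijective g hb, hg⟩

/-- the elements which are conjugated by the letter `j` -/
def src {M J : Type} (S : Set (J × M × M)) (j : J) : Set M := {x | ∃ y, (j, x, y) ∈ S}

/-- the conjugates by the letter `j` -/
def tgt {M J : Type} (S : Set (J × M × M)) (j : J) : Set M := {y | ∃ x, (j, x, y) ∈ S}

theorem cl_fwd {M Q J : Type} [Group M] [Group Q] (f : M →* Q) (q : J → Q) (S : Set (J × M × M))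
    (hS : ∀ p ∈ S, q p.1 * f p.2.1 * (q p.1)⁻¹ = f p.2.2) (j : J) {a : M}
    (ha : a ∈ Subgroup.closure (src S j)) :
    ∃ b ∈ Subgroup.closure (tgt S j), f b = q j * f a * (q j)⁻¹ := by
  induction ha using Subgroup.closure_induction with
  | mem x hx =>
    obtain ⟨y, hy⟩ := hx
    exact ⟨y, Subgroup.subset_closure ⟨x, hy⟩, (hS _ hy).symm⟩
  | one => exact ⟨1, one_mem _, by simp⟩
  | mul x y _ _ hx hy =>
    obtain ⟨b, hb, h1⟩ := hx
    obtain ⟨c, hc, h2⟩ := hy
    exact ⟨b * c, mul_mem hb hc, by rw [map_mul, h1, h2, map_mul]; group⟩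
  | inv x _ hx =>
    obtain ⟨b, hb, h1⟩ := hx
    exact ⟨b⁻¹, inv_mem hb, by rw [map_inv, h1, map_inv]; group⟩

theorem cl_bwd {M Q J : Type} [Group M] [Group Q] (f : M →* Q) (q : J → Q) (S : Set (J × M × M))
    (hS : ∀ p ∈ S, q p.1 * f p.2.1 * (q p.1)⁻¹ = f p.2.2) (j : J) {b : M}
    (hb : b ∈ Subgroup.closure (tgt S j)) :
    ∃ a ∈ Subgroup.closure (src S j), f b = q j * f a * (q j)⁻¹ := by
  induction hb using Subgroup.closure_induction with
  | mem y hy =>
    obtain ⟨x, hx⟩ := hy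
    exact ⟨x, Subgroup.subset_closure ⟨y, hx⟩, (hS _ hx).symm⟩
  | one => exact ⟨1, one_mem _, by simp⟩
  | mul x y _ _ hx hy =>
    obtain ⟨b, hb, h1⟩ := hx
    obtain ⟨c, hc, h2⟩ := hy
    exact ⟨b * c, mul_mem hb hc, by rw [map_mul, h1, h2, map_mul]; group⟩
  | inv x _ hx =>
    obtain ⟨b, hb, h1⟩ := hx
    exact ⟨b⁻¹, inv_mem hb, by rw [map_inv, h1, map_inv]; group⟩

/-- the relations which are left after the HNN extension with the letter `j0` -/
def rest {M J : Type} [Group M] {A B : Subgroup M} (φ : A ≃* B) (S : Set (J × M × M)) (j0 : J) :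
    Set (J × HNNExtension M A B φ × HNNExtension M A B φ) :=
  (fun p : J × M × M => (p.1, HNNExtension.of p.2.1, HNNExtension.of p.2.2)) ''
    {p ∈ S | p.1 ≠ j0}

theorem src_rest {M J : Type} [Group M] {A B : Subgroup M} (φ : A ≃* B) (S : Set (J × M × M))
    (j0 j : J) (h : j ≠ j0) : src (rest φ S j0) j =
      (HNNExtension.of : M →* HNNExtension M A B φ) '' src S j := by
  ext z
  constructor
  · rintro ⟨y, p, ⟨hp, _⟩, he⟩
    obtain ⟨h1, h2⟩ := Prod.mk.inj he
    obtain ⟨h3, _⟩ := Prod.mk.inj h2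
    refine ⟨p.2.1, ⟨p.2.2, ?_⟩, h3⟩
    rw [← h1]
    exact hp
  · rintro ⟨x, ⟨y, hxy⟩, rfl⟩
    exact ⟨HNNExtension.of y, (j, x, y), ⟨hxy, h⟩, rfl⟩

theorem tgt_rest {M J : Type} [Group M] {A B : Subgroup M} (φ : A ≃* B) (S : Set (J × M × M))
    (j0 j : J) (h : j ≠ j0) : tgt (rest φ S j0) j =
      (HNNExtension.of : M →* HNNExtension M A B φ) '' tgt S j := by
  ext z
  constructor
  · rintro ⟨y, p, ⟨hp, _⟩, he⟩
    obtain ⟨h1, h2⟩ := Prod.mk.inj he
    obtain ⟨_, h3⟩ := Prod.mk.inj h2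
    refine ⟨p.2.2, ⟨p.2.1, ?_⟩, h3⟩
    rw [← h1]
    exact hp
  · rintro ⟨x, ⟨y, hxy⟩, rfl⟩
    exact ⟨HNNExtension.of y, (j, y, x), ⟨hxy, h⟩, rfl⟩

theorem src_rest_self {M J : Type} [Group M] {A B : Subgroup M} (φ : A ≃* B) (S : Set (J × M × M))
    (j0 : J) : src (rest φ S j0) j0 = ∅ := by
  rw [Set.eq_empty_iff_forall_notMem]
  rintro z ⟨y, p, ⟨_, hp⟩, he⟩
  exact hp (Prod.mk.inj he).1

theorem tgt_rest_self {M J : Type} [Group M] {A B : Subgroup M} (φ : A ≃* B) (S : Set (J × M × M))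
    (j0 : J) : tgt (rest φ S j0) j0 = ∅ := by
  rw [Set.eq_empty_iff_forall_notMem]
  rintro z ⟨y, p, ⟨_, hp⟩, he⟩
  exact hp (Prod.mk.inj he).1

/-- the group embeds in the one over the HNN extension -/
theorem embed {M J : Type} [Group M] (S : Set (J × M × M)) (j0 : J) {A B : Subgroup M}
    (φ : A ≃* B) (hA : A = Subgroup.closure (src S j0))
    (hφ : ∀ x y, (j0, x, y) ∈ S → ∃ hx : x ∈ A, (φ ⟨x, hx⟩ : M) = y) :
    ∃ i : U S →* U (rest φ S j0), Function.Injective i := by
  classical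
  let b : M →* U (rest φ S j0) := (bs (rest φ S j0)).comp HNNExtension.of
  let q : J → U (rest φ S j0) := fun j => if j = j0 then bs (rest φ S j0) HNNExtension.t else
    tt (rest φ S j0) j
  have h1 : ∀ p ∈ S, q p.1 * b p.2.1 * (q p.1)⁻¹ = b p.2.2 := by
    rintro ⟨j, x, y⟩ hp
    by_cases hj : j = j0
    · subst hj
      obtain ⟨hx, hxy⟩ := hφ x y hp
      have h2 := HNNExtension.t_mul_of (G := M) (φ := φ) ⟨x, hx⟩
      rw [hxy] at h2
      show q j * b x * (q j)⁻¹ = b y
      rw [show q j = bs (rest φ S j) HNNExtension.t from if_pos rfl]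
      show bs (rest φ S j) HNNExtension.t * bs (rest φ S j) (HNNExtension.of x) *
        (bs (rest φ S j) HNNExtension.t)⁻¹ = bs (rest φ S j) (HNNExtension.of y)
      rw [← map_mul, h2, map_mul, mul_inv_cancel_right]
    · show q j * b x * (q j)⁻¹ = b y
      rw [show q j = tt (rest φ S j0) j from if_neg hj]
      exact rel (S := rest φ S j0) (p := (j, HNNExtension.of x, HNNExtension.of y))
        ⟨(j, x, y), ⟨hp, hj⟩, rfl⟩
  have key : ∀ a ∈ A, ∀ ha : a ∈ A, tt S j0 * bs S a = bs S (φ ⟨a, ha⟩ : M) * tt S j0 := by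
    intro a ha0
    rw [hA] at ha0
    induction ha0 using Subgroup.closure_induction with
    | mem x hx =>
      intro ha
      obtain ⟨y, hy⟩ := hx
      obtain ⟨hx, hxy⟩ := hφ x y hy
      rw [hxy]
      have h3 := rel (S := S) hy
      exact mul_inv_eq_iff_eq_mul.1 h3
    | one =>
      intro ha
      have : (⟨1, ha⟩ : A) = 1 := rfl
      rw [this, map_one, map_one, Subgroup.coe_one, map_one, mul_one, one_mul]
    | mul x y hx hy ihx ihy =>
      intro ha
      rw [← hA] at hx hy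
      have : (⟨x * y, ha⟩ : A) = ⟨x, hx⟩ * ⟨y, hy⟩ := rfl
      rw [this, map_mul, map_mul, Subgroup.coe_mul, map_mul, ← mul_assoc, ihx hx, mul_assoc,
        ihy hy, mul_assoc]
    | inv x hx ih =>
      intro ha
      rw [← hA] at hx
      have : (⟨x⁻¹, ha⟩ : A) = ⟨x, hx⟩⁻¹ := rfl
      rw [this, map_inv, map_inv, Subgroup.coe_inv, map_inv, mul_inv_eq_iff_eq_mul, mul_assoc,
        ih hx, inv_mul_cancel_left]
  let g : HNNExtension M A B φ →* U S := HNNExtension.lift (bs S) (tt S j0) (fun a => key a a.2 a.2)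
  have hgo : ∀ x, g (HNNExtension.of x) = bs S x := fun x => HNNExtension.lift_of _ _ _ x
  have hgt : g HNNExtension.t = tt S j0 := HNNExtension.lift_t _ _ _
  have h4 : ∀ p ∈ rest φ S j0, tt S p.1 * g p.2.1 * (tt S p.1)⁻¹ = g p.2.2 := by
    rintro _ ⟨⟨j, x, y⟩, ⟨hp, _⟩, rfl⟩
    have h3 := rel (S := S) (p := (j, x, y)) hp
    have h6 : tt S j * g (HNNExtension.of x) * (tt S j)⁻¹ = g (HNNExtension.of y) := by
      rw [hgo, hgo]
      exact h3
    exact h6
  refine ⟨lift b q h1, ?_⟩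
  have h5 : (lift g (tt S) h4).comp (lift b q h1) = MonoidHom.id (U S) := by
    apply hom_ext
    · intro x
      show lift g (tt S) h4 (lift b q h1 (bs S x)) = bs S x
      rw [lift_bs]
      show lift g (tt S) h4 (bs _ (HNNExtension.of x)) = bs S x
      rw [lift_bs, hgo]
    · intro j
      show lift g (tt S) h4 (lift b q h1 (tt S j)) = tt S j
      rw [lift_tt]
      by_cases hj : j = j0
      · rw [show q j = bs (rest φ S j0) HNNExtension.t from if_pos hj, lift_bs, hgt, hj]
      · rw [show q j = tt (rest φ S j0) j from if_neg hj, lift_tt]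
  exact Function.LeftInverse.injective (fun x => DFunLike.congr_fun h5 x)

/-- the closure under HNN extensions of the kind which is used -/
def Step (C : ∀ (G : Type) [Group G], Prop) {Q : Type} [Group Q] (P : Subgroup Q → Prop) : Prop :=
  ∀ (M : Type) [Group M] (A B : Subgroup M) (φ : A ≃* B) (f : M →* Q) (q : Q), C M →
    (∀ x ∈ A, f x = 1 → x = 1) → (∀ x ∈ B, f x = 1 → x = 1) →
    (∀ a : A, f (φ a : M) = q * f a * q⁻¹) → P (A.map f) → C (HNNExtension M A B φ)

theorem main_fin {C : ∀ (G : Type) [Group G], Prop} (hC : Closed C)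
    (hfree : ∀ α : Type, C (FreeGroup α)) {Q : Type} [Group Q]
    {P : Subgroup Q → Prop} (hstep : Step C P) {J : Type} :
    ∀ (n : ℕ) (M : Type) [Group M] (S : Set (J × M × M)) (f : M →* Q) (q : J → Q),
      (Prod.fst '' S).ncard ≤ n → S.Finite → C M →
      (∀ p ∈ S, q p.1 * f p.2.1 * (q p.1)⁻¹ = f p.2.2) →
      (∀ j, ∀ x ∈ Subgroup.closure (src S j), f x = 1 → x = 1) →
      (∀ j, ∀ x ∈ Subgroup.closure (tgt S j), f x = 1 → x = 1) →
      (∀ j ∈ Prod.fst '' S, P ((Subgroup.closure (src S j)).map f)) → C (U S) := by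
  intro n
  induction n with
  | zero =>
    intro M _ S f q hn hfin hM _ _ _ _
    have h1 : Prod.fst '' S = ∅ :=
      (Set.ncard_eq_zero (hfin.image _)).1 (Nat.le_zero.1 hn)
    have h2 : S = ∅ := Set.image_eq_empty.1 h1
    subst h2
    let i : U (∅ : Set (J × M × M)) →* Coprod M (FreeGroup J) :=
      lift Coprod.inl (fun j => Coprod.inr (FreeGroup.of j)) (fun p hp => absurd hp (Set.notMem_empty p))
    refine hC.of_injective _ _ i ?_ (hC.coprod _ _ hM (hfree J))
    have h5 : (pr (∅ : Set (J × M × M))).comp i = MonoidHom.id _ := by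
      apply hom_ext
      · intro x
        show pr _ (lift _ _ _ (bs _ x)) = bs _ x
        rw [lift_bs]
        rfl
      · intro j
        show pr _ (lift _ _ _ (tt _ j)) = tt _ j
        rw [lift_tt]
        rfl
    exact Function.LeftInverse.injective (fun x => DFunLike.congr_fun h5 x)
  | succ n ih =>
    intro M _ S f q hn hfin hM hS hs ht hP
    by_cases hne : (Prod.fst '' S) = ∅
    · exact ih M S f q (by rw [hne, Set.ncard_empty]; exact Nat.zero_le _) hfin hM hS hs ht hP
    · obtain ⟨j0, hj0⟩ := Set.nonempty_iff_ne_empty.2 hne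
      obtain ⟨φ, hφ⟩ := exists_iso f (q j0) (Subgroup.closure (src S j0))
        (Subgroup.closure (tgt S j0)) (hs j0) (ht j0) (fun a ha => cl_fwd f q S hS j0 ha)
        (fun b hb => cl_bwd f q S hS j0 hb)
      have hCM := hstep M _ _ φ f (q j0) hM (hs j0) (ht j0) hφ (hP j0 hj0)
      obtain ⟨i, hi⟩ := embed S j0 φ rfl (by
        intro x y hxy
        refine ⟨Subgroup.subset_closure ⟨y, hxy⟩, ?_⟩
        refine inj_of (ht j0) (φ _).2 (Subgroup.subset_closure ⟨x, hxy⟩) ?_
        rw [hφ]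
        exact hS _ hxy)
      refine hC.of_injective _ _ i hi ?_
      let f' : HNNExtension M _ _ φ →* Q := HNNExtension.lift f (q j0) (by
        intro a
        rw [hφ, inv_mul_cancel_right])
      have hf' : ∀ x, f' (HNNExtension.of x) = f x := fun x => HNNExtension.lift_of _ _ _ x
      have hcomp : f'.comp HNNExtension.of = f := MonoidHom.ext hf'
      have himg : Prod.fst '' rest φ S j0 ⊆ (Prod.fst '' S) \ {j0} := by
        rintro _ ⟨_, ⟨p, ⟨hp, hp0⟩, rfl⟩, rfl⟩
        exact ⟨⟨p, hp, rfl⟩, hp0⟩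
      have hinj : ∀ X : Set M, (∀ x ∈ Subgroup.closure X, f x = 1 → x = 1) →
          ∀ x ∈ Subgroup.closure ((HNNExtension.of : M →* HNNExtension M _ _ φ) '' X),
            f' x = 1 → x = 1 := by
        intro X hX x hx h1
        rw [← MonoidHom.map_closure] at hx
        obtain ⟨y, hy, rfl⟩ := hx
        rw [hf'] at h1
        rw [hX y hy h1, map_one]
      refine ih (HNNExtension M _ _ φ) (rest φ S j0) f' q ?_ ((hfin.subset (Set.sep_subset _ _)).image _)
        hCM ?_ ?_ ?_ ?_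
      · have h1 := Set.ncard_le_ncard himg ((hfin.image _).subset Set.sdiff_subset)
        have h2 := Set.ncard_sdiff_singleton_lt_of_mem hj0 (hfin.image _)
        omega
      · rintro _ ⟨⟨j, x, y⟩, ⟨hp, _⟩, rfl⟩
        show q j * f' (HNNExtension.of x) * (q j)⁻¹ = f' (HNNExtension.of y)
        rw [hf', hf']
        exact hS _ hp
      · intro j
        by_cases hj : j = j0
        · rw [hj, src_rest_self, Subgroup.closure_empty]
          intro x hx _
          exact Subgroup.mem_bot.1 hx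
        · rw [src_rest φ S j0 j hj]
          exact hinj _ (hs j)
      · intro j
        by_cases hj : j = j0
        · rw [hj, tgt_rest_self, Subgroup.closure_empty]
          intro x hx _
          exact Subgroup.mem_bot.1 hx
        · rw [tgt_rest φ S j0 j hj]
          exact hinj _ (ht j)
      · intro j hj
        obtain ⟨h1, h2⟩ := himg hj
        rw [src_rest φ S j0 j h2, ← MonoidHom.map_closure, Subgroup.map_map, hcomp]
        exact hP j h1

end Q182.Lu
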