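import Pool.Agent.Q182.CylMain

/-!
# Multiple HNN extensions given by relations, and their directed colimits
-/

set_option autoImplicit false

namespace Q182.Lu

open Monoid
open Pool.Agent.Y462.SS (Closed)

section Def

variable {M J : Type} [Group M]

/-- the relators which say that the letter `j` conjugates `x` to `y` -/
def rels (S : Set (J × M × M)) : Set (Coprod M (FreeGroup J)) :=
  {z | ∃ p ∈ S, z = Coprod.inr (FreeGroup.of p.1) * Coprod.inl p.2.1 *
    (Coprod.inr (FreeGroup.of p.1))⁻¹ * (Coprod.inl p.2.2)⁻¹}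

/-- the group generated by `M` and the letters in `J`, in which `j` conjugates `x` to `y` for all
`(j, x, y)` in `S` -/
def U (S : Set (J × M × M)) : Type := Coprod M (FreeGroup J) ⧸ Subgroup.normalClosure (rels S)

instance (S : Set (J × M × M)) : Group (U S) :=
  inferInstanceAs (Group (Coprod M (FreeGroup J) ⧸ Subgroup.normalClosure (rels S)))

/-- the projection -/
def pr (S : Set (J × M × M)) : Coprod M (FreeGroup J) →* U S :=
  QuotientGroup.mk' (Subgroup.normalClosure (rels S))

/-- the homomorphism of the base -/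
def bs (S : Set (J × M × M)) : M →* U S := (pr S).comp Coprod.inl

/-- the letters -/
def tt (S : Set (J × M × M)) (j : J) : U S := pr S (Coprod.inr (FreeGroup.of j))

theorem pr_eq_one {S : Set (J × M × M)} {w : Coprod M (FreeGroup J)} :
    pr S w = 1 ↔ w ∈ Subgroup.normalClosure (rels S) :=
  QuotientGroup.eq_one_iff w

theorem rel {S : Set (J × M × M)} {p : J × M × M} (hp : p ∈ S) :
    tt S p.1 * bs S p.2.1 * (tt S p.1)⁻¹ = bs S p.2.2 := by
  have h : pr S (Coprod.inr (FreeGroup.of p.1) * Coprod.inl p.2.1 *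
      (Coprod.inr (FreeGroup.of p.1))⁻¹ * (Coprod.inl p.2.2)⁻¹) = 1 :=
    pr_eq_one.2 (Subgroup.subset_normalClosure ⟨p, hp, rfl⟩)
  rw [map_mul, map_mul, map_mul, map_inv, map_inv, mul_inv_eq_one] at h
  exact h

/-- the universal property -/
def lift {S : Set (J × M × M)} {H : Type} [Group H] (f : M →* H) (q : J → H)
    (h : ∀ p ∈ S, q p.1 * f p.2.1 * (q p.1)⁻¹ = f p.2.2) : U S →* H :=
  QuotientGroup.lift _ (Coprod.lift f (FreeGroup.lift q)) (by
    have h1 : Subgroup.normalClosure (rels S) ≤ (Coprod.lift f (FreeGroup.lift q)).ker := by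
      refine Subgroup.normalClosure_le_normal ?_
      rintro _ ⟨p, hp, rfl⟩
      show (Coprod.lift f (FreeGroup.lift q)) _ = 1
      simp [h p hp]
    exact fun x hx => h1 hx)

@[simp] theorem lift_bs {S : Set (J × M × M)} {H : Type} [Group H] (f : M →* H) (q : J → H)
    (h : ∀ p ∈ S, q p.1 * f p.2.1 * (q p.1)⁻¹ = f p.2.2) (x : M) : lift f q h (bs S x) = f x := by
  show (Coprod.lift f (FreeGroup.lift q)) (Coprod.inl x) = f x
  simp

@[simp] theorem lift_tt {S : Set (J × M × M)} {H : Type} [Group H] (f : M →* H) (q : J → H)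
    (h : ∀ p ∈ S, q p.1 * f p.2.1 * (q p.1)⁻¹ = f p.2.2) (j : J) :
    lift f q h (tt S j) = q j := by
  show (Coprod.lift f (FreeGroup.lift q)) (Coprod.inr (FreeGroup.of j)) = q j
  simp

theorem hom_ext {S : Set (J × M × M)} {H : Type} [Group H] {φ ψ : U S →* H}
    (h1 : ∀ x, φ (bs S x) = ψ (bs S x)) (h2 : ∀ j, φ (tt S j) = ψ (tt S j)) : φ = ψ := by
  apply QuotientGroup.monoidHom_ext
  apply Coprod.hom_ext
  · ext x
    exact h1 x
  · ext j
    exact h2 j

theorem pr_surj (S : Set (J × M × M)) : Function.Surjective (pr S) :=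
  QuotientGroup.mk'_surjective _

/-- the map for a larger set of relations -/
def incl {S S' : Set (J × M × M)} (h : S ⊆ S') : U S →* U S' :=
  lift (bs S') (tt S') (fun _ hp => rel (h hp))

theorem incl_bs {S S' : Set (J × M × M)} (h : S ⊆ S') (x : M) : incl h (bs S x) = bs S' x :=
  lift_bs _ _ _ x

theorem incl_tt {S S' : Set (J × M × M)} (h : S ⊆ S') (j : J) : incl h (tt S j) = tt S' j :=
  lift_tt _ _ _ j

theorem incl_pr {S S' : Set (J × M × M)} (h : S ⊆ S') (w : Coprod M (FreeGroup J)) :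
    incl h (pr S w) = pr S' w := by
  have h1 : (incl h).comp (pr S) = pr S' := by
    apply Coprod.hom_ext
    · ext x
      exact incl_bs h x
    · ext j
      exact incl_tt h j
  exact DFunLike.congr_fun h1 w

/-- a consequence of relations follows from finitely many of them -/
theorem finite_rel {S : Set (J × M × M)} {w : Coprod M (FreeGroup J)}
    (hw : w ∈ Subgroup.normalClosure (rels S)) :
    ∃ F : Set (J × M × M), F.Finite ∧ F ⊆ S ∧ w ∈ Subgroup.normalClosure (rels F) := by
  have hmono : ∀ {F F' : Set (J × M × M)}, F ⊆ F' →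
      Subgroup.normalClosure (rels F) ≤ Subgroup.normalClosure (rels F') := by
    intro F F' hF
    refine Subgroup.normalClosure_mono ?_
    rintro _ ⟨p, hp, rfl⟩
    exact ⟨p, hF hp, rfl⟩
  let N : Subgroup (Coprod M (FreeGroup J)) :=
    { carrier := {w | ∃ F : Set (J × M × M), F.Finite ∧ F ⊆ S ∧
        w ∈ Subgroup.normalClosure (rels F)}
      one_mem' := ⟨∅, Set.finite_empty, Set.empty_subset _, one_mem _⟩
      mul_mem' := by
        rintro a b ⟨F, h1, h2, h3⟩ ⟨F', h1', h2', h3'⟩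
        exact ⟨F ∪ F', h1.union h1', Set.union_subset h2 h2',
          mul_mem (hmono Set.subset_union_left h3) (hmono Set.subset_union_right h3')⟩
      inv_mem' := by
        rintro a ⟨F, h1, h2, h3⟩
        exact ⟨F, h1, h2, inv_mem h3⟩ }
  have hN : N.Normal := by
    constructor
    rintro a ⟨F, h1, h2, h3⟩ g
    exact ⟨F, h1, h2, Subgroup.normalClosure_normal.conj_mem _ h3 g⟩
  have h1 : Subgroup.normalClosure (rels S) ≤ N := by
    refine Subgroup.normalClosure_le_normal ?_
    rintro _ ⟨p, hp, rfl⟩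
    exact ⟨{p}, Set.finite_singleton _, Set.singleton_subset_iff.2 hp,
      Subgroup.subset_normalClosure ⟨p, rfl, rfl⟩⟩
  exact h1 hw

/-- directed colimits -/
theorem mem_colim {C : ∀ (G : Type) [Group G], Prop} (hC : Closed C) (S : Set (J × M × M))
    (h : ∀ F : Set (J × M × M), F.Finite → F ⊆ S → C (U F)) : C (U S) := by
  let I : Type := {F : Set (J × M × M) // F.Finite ∧ F ⊆ S}
  have : Nonempty I := ⟨⟨∅, Set.finite_empty, Set.empty_subset _⟩⟩
  refine hC.colim I (fun i j => ⟨⟨i.1 ∪ j.1, i.2.1.union j.2.1, Set.union_subset i.2.2 j.2.2⟩,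
    Set.subset_union_left, Set.subset_union_right⟩) (fun i => U i.1)
    (fun i j hij => incl (show i.1 ⊆ j.1 from hij)) (U S) (fun i => incl i.2.2)
    ?_ ?_ ?_ ?_ ?_ ?_
  · intro i h x
    obtain ⟨w, rfl⟩ := pr_surj _ x
    rw [incl_pr]
  · intro i j k h h' x
    obtain ⟨w, rfl⟩ := pr_surj _ x
    rw [incl_pr, incl_pr, incl_pr]
  · intro i j h x
    obtain ⟨w, rfl⟩ := pr_surj _ x
    rw [incl_pr, incl_pr, incl_pr]
  · intro y
    obtain ⟨w, rfl⟩ := pr_surj _ y
    exact ⟨⟨∅, Set.finite_empty, Set.empty_subset _⟩, pr _ w, incl_pr _ w⟩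
  · intro i x hx
    obtain ⟨w, rfl⟩ := pr_surj _ x
    rw [incl_pr, pr_eq_one] at hx
    obtain ⟨F, h1, h2, h3⟩ := finite_rel hx
    refine ⟨⟨i.1 ∪ F, i.2.1.union h1, Set.union_subset i.2.2 h2⟩, Set.subset_union_left, ?_⟩
    rw [incl_pr, pr_eq_one]
    refine Subgroup.normalClosure_mono ?_ h3
    rintro _ ⟨p, hp, rfl⟩
    exact ⟨p, Or.inr hp, rfl⟩
  · intro i
    exact h i.1 i.2.1 i.2.2

end Def

end Q182.Lu
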