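import Mathlib
import Pool.Agent.Q182.W1
import Pool.Agent.Q182.SemilatticeDefs

/-!
# The semilattice of finite subsets of `ω₁` with ranked points at infinity
-/

namespace Q182.MC

open Set Filter Topology

/-- The well-ordered set of ranks. -/
def R : Type := WithBot (WithTop (W1 ×ₗ Bool))

noncomputable instance : LinearOrder R :=
  inferInstanceAs (LinearOrder (WithBot (WithTop (W1 ×ₗ Bool))))
noncomputable instance : OrderBot R := inferInstanceAs (OrderBot (WithBot (WithTop (W1 ×ₗ Bool))))
noncomputable instance : OrderTop R := inferInstanceAs (OrderTop (WithBot (WithTop (W1 ×ₗ Bool))))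
instance : WellFoundedLT R := inferInstanceAs (WellFoundedLT (WithBot (WithTop (W1 ×ₗ Bool))))
noncomputable instance : TopologicalSpace R := Preorder.topology R
instance : OrderTopology R := ⟨rfl⟩

/-- The rank `(i, b)`. -/
noncomputable def R.mk (i : W1) (b : Bool) : R :=
  (((toLex (i, b) : W1 ×ₗ Bool) : WithTop (W1 ×ₗ Bool)) : WithBot (WithTop (W1 ×ₗ Bool)))

lemma R.cases (r : R) : r = ⊥ ∨ r = ⊤ ∨ ∃ i b, r = R.mk i b := by
  rcases r with _ | (_ | a)
  · exact Or.inl rfl
  · exact Or.inr (Or.inl rfl)
  · exact Or.inr (Or.inr ⟨(ofLex a).1, (ofLex a).2, rfl⟩)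

lemma R.mk_lt_top (i : W1) (b : Bool) : R.mk i b < ⊤ :=
  (WithBot.coe_lt_coe (α := WithTop (W1 ×ₗ Bool))).2 (WithTop.coe_lt_top (toLex (i, b)))

lemma R.bot_lt_mk (i : W1) (b : Bool) : ⊥ < R.mk i b :=
  WithBot.bot_lt_coe (((toLex (i, b) : W1 ×ₗ Bool) : WithTop (W1 ×ₗ Bool)))

lemma R.mk_lt_mk {i j : W1} {b c : Bool} : R.mk i b < R.mk j c ↔ i < j ∨ (i = j ∧ b < c) := by
  have h : R.mk i b < R.mk j c ↔ (toLex (i, b) : W1 ×ₗ Bool) < toLex (j, c) :=
    (WithBot.coe_lt_coe (α := WithTop (W1 ×ₗ Bool))).trans WithTop.coe_lt_coe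
  rw [h, Prod.Lex.toLex_lt_toLex]

lemma R.mk_le_mk {i j : W1} {b c : Bool} : R.mk i b ≤ R.mk j c ↔ i < j ∨ (i = j ∧ b ≤ c) := by
  have h : R.mk i b ≤ R.mk j c ↔ (toLex (i, b) : W1 ×ₗ Bool) ≤ toLex (j, c) :=
    (WithBot.coe_le_coe (α := WithTop (W1 ×ₗ Bool))).trans WithTop.coe_le_coe
  rw [h, Prod.Lex.toLex_le_toLex]

/-- The flag of a rank: true for `(i, true)` and for `⊤`. -/
def R.flag : R → Bool
  | none => false
  | some none => true
  | some (some a) => (ofLex a).2

@[simp] lemma R.flag_bot : R.flag ⊥ = false := rfl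
@[simp] lemma R.flag_top : R.flag ⊤ = true := rfl
@[simp] lemma R.flag_mk (i : W1) (b : Bool) : R.flag (R.mk i b) = b := rfl

lemma R.exists_isLUB (T : Set R) : ∃ r, IsLUB T r := by
  have hne : (upperBounds T).Nonempty := ⟨⊤, fun x _ => le_top⟩
  refine ⟨WellFounded.min (wellFounded_lt : WellFounded ((· < ·) : R → R → Prop)) _ hne,
    WellFounded.min_mem _ _ hne, fun y hy => ?_⟩
  exact not_lt.1 (WellFounded.not_lt_min _ _ hy)

/-- The supremum of a countable set of ranks with flag `false` has flag `false`. -/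
lemma R.flag_of_countable {T : Set R} (hT : T.Countable) (hf : ∀ r ∈ T, r.flag = false) {r : R}
    (hr : IsLUB T r) : r.flag = false := by
  rcases R.cases r with rfl | rfl | ⟨i, b, rfl⟩
  · rfl
  · exfalso
    obtain ⟨β, hβ⟩ := W1.bddAbove_of_countable (S := {i : W1 | R.mk i false ∈ T}) (by
      apply hT.preimage
      intro i j hij
      have h1 := R.mk_le_mk.1 hij.le
      have h2 := R.mk_le_mk.1 hij.ge
      rcases h1 with h1 | h1
      · rcases h2 with h2 | h2
        · exact absurd h2 (not_lt.2 h1.le)
        · exact h2.1.symm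
      · exact h1.1)
    have : (⊤ : R) ≤ R.mk β false := by
      apply hr.2
      intro s hs
      rcases R.cases s with rfl | rfl | ⟨i, b, rfl⟩
      · exact bot_le
      · exact absurd (hf _ hs) (by simp)
      · have hb : b = false := by simpa using hf _ hs
        subst hb
        rcases eq_or_lt_of_le (hβ i hs) with h | h
        · rw [h]
        · exact R.mk_le_mk.2 (Or.inl h)
    exact absurd this (not_le.2 (R.mk_lt_top _ _))
  · rcases b with _ | _
    · rfl
    · exfalso
      have hlt : R.mk i false < R.mk i true := R.mk_lt_mk.2 (Or.inr ⟨rfl, by decide⟩)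
      have hnot : ¬ R.mk i false ∈ upperBounds T := fun h => absurd (hr.2 h) (not_le.2 hlt)
      simp only [mem_upperBounds, not_forall, not_le] at hnot
      obtain ⟨s, hs, hlt'⟩ := hnot
      have hle := hr.1 hs
      rcases R.cases s with rfl | rfl | ⟨j, b, rfl⟩
      · exact absurd hlt' (not_lt.2 bot_le)
      · exact absurd (hf _ hs) (by simp)
      · have hb : b = false := by simpa using hf _ hs
        subst hb
        rcases R.mk_le_mk.1 hle with h | h
        · rcases R.mk_lt_mk.1 hlt' with h' | h'
          · exact absurd h' (not_lt.2 h.le)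
          · exact absurd h'.2 (by decide)
        · rcases R.mk_lt_mk.1 hlt' with h' | h'
          · exact absurd h' (not_lt.2 h.1.le)
          · exact absurd h'.2 (by decide)

/-- A supremum that is not attained is approached by ranks with the same flag. -/
lemma R.exists_flag_between {T : Set R} {r : R} (hr : IsLUB T r) (hrT : r ∉ T) {s : R}
    (hs : s < r) : ∃ t, s ≤ t ∧ t < r ∧ t.flag = r.flag := by
  -- strictly increasing steps inside `T`
  have step : ∀ s < r, ∃ t ∈ T, s < t ∧ t < r := by
    intro s hs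
    have hnot : ¬ s ∈ upperBounds T := fun h => absurd (hr.2 h) (not_le.2 hs)
    simp only [mem_upperBounds, not_forall, not_le] at hnot
    obtain ⟨t, ht, hst⟩ := hnot
    exact ⟨t, ht, hst, lt_of_le_of_ne (hr.1 ht) (fun h => hrT (h ▸ ht))⟩
  rcases R.cases r with rfl | rfl | ⟨i, b, rfl⟩
  · exact absurd hs (not_lt.2 bot_le)
  · obtain ⟨t, ht, h1, h2⟩ := step s hs
    rcases R.cases t with rfl | rfl | ⟨i, b, rfl⟩
    · exact absurd h1 (not_lt.2 bot_le)
    · exact absurd h2 (lt_irrefl _)
    · refine ⟨R.mk i true, h1.le.trans (R.mk_le_mk.2 (Or.inr ⟨rfl, by cases b <;> decide⟩)),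
        R.mk_lt_top _ _, rfl⟩
  · rcases b with _ | _
    · obtain ⟨t, ht, h1, h2⟩ := step s hs
      rcases R.cases t with rfl | rfl | ⟨j, c, rfl⟩
      · exact absurd h1 (not_lt.2 bot_le)
      · exact absurd h2 (not_lt.2 le_top)
      · obtain ⟨t', ht', h1', h2'⟩ := step _ h2
        rcases R.cases t' with rfl | rfl | ⟨j', c', rfl⟩
        · exact absurd h1' (not_lt.2 bot_le)
        · exact absurd h2' (not_lt.2 le_top)
        · obtain ⟨t'', ht'', h1'', h2''⟩ := step _ h2'
          rcases R.cases t'' with rfl | rfl | ⟨j'', c'', rfl⟩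
          · exact absurd h1'' (not_lt.2 bot_le)
          · exact absurd h2'' (not_lt.2 le_top)
          · refine ⟨R.mk j'' false, ?_, ?_, rfl⟩
            · refine h1.le.trans (R.mk_le_mk.2 ?_)
              rcases R.mk_lt_mk.1 h1' with h | h
              · rcases R.mk_lt_mk.1 h1'' with h' | h'
                · exact Or.inl (h.trans h')
                · exact Or.inl (h'.1 ▸ h)
              · rcases R.mk_lt_mk.1 h1'' with h' | h'
                · exact Or.inl (h.1 ▸ h')
                · exfalso
                  have e1 := h.2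
                  have e2 := h'.2
                  revert e1 e2
                  cases c <;> cases c' <;> cases c'' <;> decide
            · refine lt_of_le_of_lt (R.mk_le_mk.2 (Or.inr ⟨rfl, ?_⟩)) h2''
              cases c'' <;> decide
    · exfalso
      have hlt : R.mk i false < R.mk i true := R.mk_lt_mk.2 (Or.inr ⟨rfl, by decide⟩)
      obtain ⟨t, ht, h1, h2⟩ := step _ hlt
      rcases R.cases t with rfl | rfl | ⟨j, c, rfl⟩
      · exact absurd h1 (not_lt.2 bot_le)
      · exact absurd h2 (not_lt.2 le_top)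
      · rcases R.mk_lt_mk.1 h1 with h | h
        · rcases R.mk_lt_mk.1 h2 with h' | h'
          · exact absurd h (not_lt.2 h'.le)
          · exact absurd h (by rw [h'.1]; exact lt_irrefl _)
        · rcases R.mk_lt_mk.1 h2 with h' | h'
          · exact absurd h' (by rw [h.1]; exact lt_irrefl _)
          · have e1 := h.2
            have e2 := h'.2
            revert e1 e2
            cases c <;> decide

/-- The rank of a finite set. -/
noncomputable def rho (F : Finset W1) : R := F.sup fun i => R.mk i false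

lemma rho_union (F G : Finset W1) [DecidableEq W1] : rho (F ∪ G) = max (rho F) (rho G) := by
  unfold rho
  rw [Finset.sup_union]

lemma flag_rho (F : Finset W1) : (rho F).flag = false := by
  rcases F.eq_empty_or_nonempty with rfl | hF
  · unfold rho
    rw [Finset.sup_empty]
    rfl
  · obtain ⟨i, _, hi⟩ := Finset.exists_mem_eq_sup F hF fun i => R.mk i false
    unfold rho
    rw [hi]
    rfl

end Q182.MC
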