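import Mathlib
import Pool.Agent.Q182.MCDefs

/-!
# A semilattice all of whose maximal chains are s-complete, but which is not s-complete
-/

namespace Q182.MC

open Set Filter Topology

open scoped Classical in
/-- The points: finite subsets of `ω₁`, and a point at infinity for every rank. -/
inductive Pt : Type
  | fin (F : Finset W1)
  | inf (r : R)

open scoped Classical in
/-- The product. -/
noncomputable def mul : Pt → Pt → Pt
  | .fin F, .fin G => .fin (F ∪ G)
  | .fin F, .inf r => .inf (max (rho F) r)
  | .inf r, .fin F => .inf (max r (rho F))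
  | .inf r, .inf s => .inf (max r s)

lemma mul_comm' (x y : Pt) : mul x y = mul y x := by
  classical
  rcases x with F | r <;> rcases y with G | s
  · show Pt.fin (F ∪ G) = Pt.fin (G ∪ F)
    rw [Finset.union_comm]
  · show Pt.inf (max (rho F) s) = Pt.inf (max s (rho F))
    rw [max_comm]
  · show Pt.inf (max r (rho G)) = Pt.inf (max (rho G) r)
    rw [max_comm]
  · show Pt.inf (max r s) = Pt.inf (max s r)
    rw [max_comm]

/-- The rank of a point. -/
noncomputable def rk : Pt → R
  | .fin F => rho F
  | .inf r => r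

/-- The flag of a point. -/
noncomputable def fl (x : Pt) : Bool := (rk x).flag

open scoped Classical in
noncomputable instance : SemilatticeInf Pt where
  inf := mul
  le x y := mul x y = x
  le_refl x := by
    rcases x with F | r
    · show Pt.fin (F ∪ F) = Pt.fin F
      rw [Finset.union_idempotent]
    · show Pt.inf (max r r) = Pt.inf r
      rw [max_self]
  le_trans x y z hxy hyz := by
    rcases x with F | r <;> rcases y with G | s <;> rcases z with H | t
    · have h1 : F ∪ G = F := Pt.fin.inj hxy
      have h2 : G ∪ H = G := Pt.fin.inj hyz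
      show Pt.fin (F ∪ H) = Pt.fin F
      rw [← h1, Finset.union_assoc, h2]
    · exact absurd hyz (by rintro ⟨⟩)
    · exact absurd hxy (by rintro ⟨⟩)
    · exact absurd hxy (by rintro ⟨⟩)
    · have h1 : max r (rho G) = r := Pt.inf.inj hxy
      have h2 : G ∪ H = G := Pt.fin.inj hyz
      show Pt.inf (max r (rho H)) = Pt.inf r
      rw [← h1, max_assoc, ← rho_union, h2]
    · exact absurd hyz (by rintro ⟨⟩)
    · have h1 : max r s = r := Pt.inf.inj hxy
      have h2 : max s (rho H) = s := Pt.inf.inj hyz
      show Pt.inf (max r (rho H)) = Pt.inf r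
      rw [← h1, max_assoc, h2]
    · have h1 : max r s = r := Pt.inf.inj hxy
      have h2 : max s t = s := Pt.inf.inj hyz
      show Pt.inf (max r t) = Pt.inf r
      rw [← h1, max_assoc, h2]
  le_antisymm x y hxy hyx := by
    have hxy' : mul x y = x := hxy
    have hyx' : mul y x = y := hyx
    exact hxy'.symm.trans ((mul_comm' x y).trans hyx')
  inf_le_left x y := by
    rcases x with F | r <;> rcases y with G | s
    · show Pt.fin ((F ∪ G) ∪ F) = Pt.fin (F ∪ G)
      rw [Finset.union_comm F G, Finset.union_assoc, Finset.union_idempotent]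
    · show Pt.inf (max (max (rho F) s) (rho F)) = Pt.inf (max (rho F) s)
      rw [max_comm (rho F) s, max_assoc, max_self]
    · show Pt.inf (max (max r (rho G)) r) = Pt.inf (max r (rho G))
      rw [max_comm r, max_assoc, max_self]
    · show Pt.inf (max (max r s) r) = Pt.inf (max r s)
      rw [max_comm r, max_assoc, max_self]
  inf_le_right x y := by
    rcases x with F | r <;> rcases y with G | s
    · show Pt.fin ((F ∪ G) ∪ G) = Pt.fin (F ∪ G)
      rw [Finset.union_assoc, Finset.union_idempotent]
    · show Pt.inf (max (max (rho F) s) s) = Pt.inf (max (rho F) s)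
      rw [max_assoc, max_self]
    · show Pt.inf (max (max r (rho G)) (rho G)) = Pt.inf (max r (rho G))
      rw [max_assoc, max_self]
    · show Pt.inf (max (max r s) s) = Pt.inf (max r s)
      rw [max_assoc, max_self]
  le_inf x y z hxy hxz := by
    rcases x with F | r <;> rcases y with G | s <;> rcases z with H | t
    · have h1 : F ∪ G = F := Pt.fin.inj hxy
      have h2 : F ∪ H = F := Pt.fin.inj hxz
      show Pt.fin (F ∪ (G ∪ H)) = Pt.fin F
      rw [← Finset.union_assoc, h1, h2]
    · exact absurd hxz (by rintro ⟨⟩)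
    · exact absurd hxy (by rintro ⟨⟩)
    · exact absurd hxy (by rintro ⟨⟩)
    · have h1 : max r (rho G) = r := Pt.inf.inj hxy
      have h2 : max r (rho H) = r := Pt.inf.inj hxz
      show Pt.inf (max r (rho (G ∪ H))) = Pt.inf r
      rw [rho_union, ← max_assoc, h1, h2]
    · have h1 : max r (rho G) = r := Pt.inf.inj hxy
      have h2 : max r t = r := Pt.inf.inj hxz
      show Pt.inf (max r (max (rho G) t)) = Pt.inf r
      rw [← max_assoc, h1, h2]
    · have h1 : max r s = r := Pt.inf.inj hxy
      have h2 : max r (rho H) = r := Pt.inf.inj hxz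
      show Pt.inf (max r (max s (rho H))) = Pt.inf r
      rw [← max_assoc, h1, h2]
    · have h1 : max r s = r := Pt.inf.inj hxy
      have h2 : max r t = r := Pt.inf.inj hxz
      show Pt.inf (max r (max s t)) = Pt.inf r
      rw [← max_assoc, h1, h2]

lemma fin_le_fin {F G : Finset W1} : Pt.fin F ≤ Pt.fin G ↔ G ⊆ F := by
  classical
  constructor
  · intro h
    have h1 : F ∪ G = F := Pt.fin.inj h
    rw [← h1]
    exact Finset.subset_union_right
  · intro h
    show Pt.fin (F ∪ G) = Pt.fin F
    rw [Finset.union_eq_left.2 h]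

lemma not_fin_le_inf {F : Finset W1} {r : R} : ¬ Pt.fin F ≤ Pt.inf r := by
  intro h
  have h' : mul (Pt.fin F) (Pt.inf r) = Pt.fin F := h
  cases h'

lemma inf_le_fin {F : Finset W1} {r : R} : Pt.inf r ≤ Pt.fin F ↔ rho F ≤ r := by
  constructor
  · intro h
    have h1 : max r (rho F) = r := Pt.inf.inj h
    exact max_eq_left_iff.1 h1
  · intro h
    show Pt.inf (max r (rho F)) = Pt.inf r
    rw [max_eq_left h]

lemma inf_le_inf' {r s : R} : Pt.inf r ≤ Pt.inf s ↔ s ≤ r := by
  constructor
  · intro h
    have h1 : max r s = r := Pt.inf.inj h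
    exact max_eq_left_iff.1 h1
  · intro h
    show Pt.inf (max r s) = Pt.inf r
    rw [max_eq_left h]

lemma rk_inf (x y : Pt) : rk (x ⊓ y) = max (rk x) (rk y) := by
  classical
  rcases x with F | r <;> rcases y with G | s
  · exact rho_union F G
  · rfl
  · rfl
  · rfl

lemma rk_anti {x y : Pt} (h : x ≤ y) : rk y ≤ rk x := by
  have := rk_inf x y
  rw [inf_eq_left.2 h] at this
  rw [this]
  exact le_max_right _ _

open scoped Classical in
/-- The defining map of the topology. -/
noncomputable def coord (x : Pt) : R × Bool × (Finset W1 → Bool) :=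
  (rk x, fl x, fun F => decide (x = Pt.fin F))

noncomputable instance : TopologicalSpace Pt := TopologicalSpace.induced coord inferInstance

lemma continuous_coord : Continuous coord := continuous_induced_dom

lemma continuous_rk : Continuous rk := continuous_fst.comp continuous_coord

lemma continuous_fl : Continuous fl := (continuous_fst.comp continuous_snd).comp continuous_coord

open scoped Classical in
lemma continuous_e (F : Finset W1) : Continuous fun x : Pt => decide (x = Pt.fin F) :=
  (continuous_apply F).comp ((continuous_snd.comp continuous_snd).comp continuous_coord)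

lemma eventually_fl (x : Pt) : ∀ᶠ y in 𝓝 x, fl y = fl x :=
  continuous_fl.continuousAt.preimage_mem_nhds ((isOpen_discrete {fl x}).mem_nhds rfl)

lemma eventually_eq_fin (F : Finset W1) : ∀ᶠ y in 𝓝 (Pt.fin F), y = Pt.fin F := by
  classical
  have h := (continuous_e F).continuousAt.preimage_mem_nhds
    ((isOpen_discrete {decide (Pt.fin F = Pt.fin F)}).mem_nhds rfl)
  filter_upwards [h] with y hy
  have hy' : decide (y = Pt.fin F) = decide (Pt.fin F = Pt.fin F) := hy
  simpa using hy'

lemma eventually_ne_fin {x : Pt} {F : Finset W1} (hx : x ≠ Pt.fin F) :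
    ∀ᶠ y in 𝓝 x, y ≠ Pt.fin F := by
  classical
  have h := (continuous_e F).continuousAt.preimage_mem_nhds
    ((isOpen_discrete {decide (x = Pt.fin F)}).mem_nhds rfl)
  filter_upwards [h] with y hy
  have hy' : decide (y = Pt.fin F) = decide (x = Pt.fin F) := hy
  simpa [hx] using hy'

lemma fl_inf_of_le {x y : Pt} (h : rk x ≤ rk y) : fl (x ⊓ y) = fl y := by
  unfold fl
  rw [rk_inf, max_eq_right h]

lemma fl_inf_of_ge {x y : Pt} (h : rk y ≤ rk x) : fl (x ⊓ y) = fl x := by
  rw [inf_comm]
  exact fl_inf_of_le h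

lemma ev_fst {P : Pt → Prop} {x y : Pt} (h : ∀ᶠ a in 𝓝 x, P a) :
    ∀ᶠ p : Pt × Pt in 𝓝 (x, y), P p.1 := (continuous_fst.tendsto (x, y)).eventually h

lemma ev_snd {P : Pt → Prop} {x y : Pt} (h : ∀ᶠ a in 𝓝 y, P a) :
    ∀ᶠ p : Pt × Pt in 𝓝 (x, y), P p.2 := (continuous_snd.tendsto (x, y)).eventually h

lemma continuous_fl_inf : Continuous fun p : Pt × Pt => fl (p.1 ⊓ p.2) := by
  rw [continuous_iff_continuousAt]
  rintro ⟨x, y⟩
  have h1 : ∀ᶠ p : Pt × Pt in 𝓝 (x, y), fl p.1 = fl x :=
    ev_fst (eventually_fl x)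
  have h2 : ∀ᶠ p : Pt × Pt in 𝓝 (x, y), fl p.2 = fl y :=
    ev_snd (eventually_fl y)
  have key : ∀ᶠ p : Pt × Pt in 𝓝 (x, y), fl (p.1 ⊓ p.2) = fl (x ⊓ y) := by
    rcases lt_trichotomy (rk x) (rk y) with h | h | h
    · have h3 : ∀ᶠ p : Pt × Pt in 𝓝 (x, y), rk p.1 < rk p.2 :=
        (isOpen_lt (continuous_rk.comp continuous_fst)
          (continuous_rk.comp continuous_snd)).mem_nhds h
      filter_upwards [h2, h3] with p h2 h3
      rw [fl_inf_of_le h3.le, h2, fl_inf_of_le h.le]
    · have hxy : fl x = fl y := by unfold fl; rw [h]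
      filter_upwards [h1, h2] with p h1 h2
      rw [fl_inf_of_le h.le]
      rcases le_total (rk p.1) (rk p.2) with h' | h'
      · rw [fl_inf_of_le h', h2]
      · rw [fl_inf_of_ge h', h1, hxy]
    · have h3 : ∀ᶠ p : Pt × Pt in 𝓝 (x, y), rk p.2 < rk p.1 :=
        (isOpen_lt (continuous_rk.comp continuous_snd)
          (continuous_rk.comp continuous_fst)).mem_nhds h
      filter_upwards [h1, h3] with p h1 h3
      rw [fl_inf_of_ge h3.le, h1, fl_inf_of_ge h.le]
  exact tendsto_nhds_of_eventually_eq key

lemma ne_of_inf_eq_fin {x y : Pt} {F : Finset W1} (h : x ⊓ y = Pt.fin F) :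
    ∃ A ∈ F.powerset, x = Pt.fin A := by
  have h1 : Pt.fin F ≤ x := h ▸ inf_le_left
  rcases x with A | r
  · exact ⟨A, Finset.mem_powerset.2 (fin_le_fin.1 h1), rfl⟩
  · exact absurd h1 not_fin_le_inf

lemma eventually_inf_ne {r : R} {y : Pt} {F : Finset W1} :
    ∀ᶠ p : Pt × Pt in 𝓝 (Pt.inf r, y), p.1 ⊓ p.2 ≠ Pt.fin F := by
  have h : ∀ᶠ x in 𝓝 (Pt.inf r), ∀ A ∈ F.powerset, x ≠ Pt.fin A := by
    rw [Filter.eventually_all_finset]
    intro A _
    exact eventually_ne_fin (by rintro ⟨⟩)
  have h' : ∀ᶠ p : Pt × Pt in 𝓝 (Pt.inf r, y), ∀ A ∈ F.powerset, p.1 ≠ Pt.fin A :=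
    ev_fst h
  filter_upwards [h'] with p hp hcon
  obtain ⟨A, hA, hpA⟩ := ne_of_inf_eq_fin hcon
  exact hp A hA hpA

open scoped Classical in
lemma continuous_e_inf (F : Finset W1) :
    Continuous fun p : Pt × Pt => decide (p.1 ⊓ p.2 = Pt.fin F) := by
  rw [continuous_iff_continuousAt]
  rintro ⟨x, y⟩
  have key : ∀ᶠ p : Pt × Pt in 𝓝 (x, y), decide (p.1 ⊓ p.2 = Pt.fin F) =
      decide (x ⊓ y = Pt.fin F) := by
    rcases x with A | r
    · rcases y with B | s
      · have h1 : ∀ᶠ p : Pt × Pt in 𝓝 (Pt.fin A, Pt.fin B), p.1 = Pt.fin A :=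
          ev_fst (eventually_eq_fin A)
        have h2 : ∀ᶠ p : Pt × Pt in 𝓝 (Pt.fin A, Pt.fin B), p.2 = Pt.fin B :=
          ev_snd (eventually_eq_fin B)
        filter_upwards [h1, h2] with p h1 h2
        rw [h1, h2]
      · have h3 : ∀ᶠ p : Pt × Pt in 𝓝 (Pt.fin A, Pt.inf s), p.1 ⊓ p.2 ≠ Pt.fin F := by
          have := (continuous_swap (X := Pt) (Y := Pt)).continuousAt (x := (Pt.fin A, Pt.inf s))
          have h4 := this.eventually (eventually_inf_ne (r := s) (y := Pt.fin A) (F := F))
          filter_upwards [h4] with p hp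
          rw [inf_comm]
          exact hp
        filter_upwards [h3] with p hp
        rw [decide_eq_false hp, decide_eq_false]
        rw [inf_comm]
        intro h
        exact absurd h (by rintro ⟨⟩)
    · filter_upwards [eventually_inf_ne (r := r) (y := y) (F := F)] with p hp
      rw [decide_eq_false hp, decide_eq_false]
      intro h
      obtain ⟨A, _, hA⟩ := ne_of_inf_eq_fin h
      exact absurd hA (by rintro ⟨⟩)
  exact tendsto_nhds_of_eventually_eq key

instance : ContinuousInf Pt := by
  classical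
  refine ⟨continuous_induced_rng.2 ?_⟩
  refine Continuous.prodMk ?_ (Continuous.prodMk continuous_fl_inf
    (continuous_pi fun F => continuous_e_inf F))
  have h : (fun p : Pt × Pt => rk (p.1 ⊓ p.2)) = fun p => max (rk p.1) (rk p.2) :=
    funext fun p => rk_inf p.1 p.2
  show Continuous fun p : Pt × Pt => rk (p.1 ⊓ p.2)
  rw [h]
  exact (continuous_rk.comp continuous_fst).max (continuous_rk.comp continuous_snd)

lemma coord_injective : Function.Injective coord := by
  classical
  intro x y h
  rcases x with F | r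
  · have h1 : decide (Pt.fin F = Pt.fin F) = decide (y = Pt.fin F) :=
      congrFun (congrArg (fun q : R × Bool × (Finset W1 → Bool) => q.2.2) h) F
    rw [decide_eq_true rfl] at h1
    exact (of_decide_eq_true h1.symm).symm
  · rcases y with G | s
    · have h1 : decide (Pt.inf r = Pt.fin G) = decide (Pt.fin G = Pt.fin G) :=
        congrFun (congrArg (fun q : R × Bool × (Finset W1 → Bool) => q.2.2) h) G
      rw [decide_eq_true (show Pt.fin G = Pt.fin G from rfl)] at h1
      exact of_decide_eq_true h1
    · have h1 : r = s := congrArg (fun q : R × Bool × (Finset W1 → Bool) => q.1) h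
      rw [h1]

lemma isEmbedding_coord : IsEmbedding coord := ⟨⟨rfl⟩, coord_injective⟩

instance : T3Space Pt := isEmbedding_coord.t3Space

end Q182.MC
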