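import Mathlib
import Pool.Agent.Q182.MCExample

/-!
# All maximal chains are s-complete, the semilattice is not
-/

namespace Q182.MC

open Set Filter Topology

/-- Criterion for a point at infinity to be in the closure of a chain. -/
lemma mem_closure_of_chain {S : Set Pt} (hne : S.Nonempty) (hS : IsChain (· ≤ ·) S) {r : R}
    (hlub : IsLUB (rk '' S) r) (hfl : ∀ s ∈ S, fl s = r.flag)
    (hfin : ∀ F : Finset W1, ∃ s ∈ S, ∀ t ∈ S, t ≤ s → t ≠ Pt.fin F) :
    Pt.inf r ∈ closure S := by
  classical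
  have : Nonempty ↥S := hne.to_subtype
  have : IsCodirectedOrder ↥S := by
    refine ⟨fun a b => ?_⟩
    rcases eq_or_ne (a : Pt) b with h | h
    · exact ⟨a, le_refl _, by show (a : Pt) ≤ b; rw [h]⟩
    · rcases hS a.2 b.2 h with h | h
      · exact ⟨a, le_refl _, h⟩
      · exact ⟨b, h, le_refl _⟩
  refine mem_closure_of_tendsto (f := fun s : ↥S => (s : Pt)) (b := atBot) ?_
    (Filter.Eventually.of_forall fun s => s.2)
  rw [nhds_induced, tendsto_comap_iff]
  refine Tendsto.prodMk_nhds ?_ (Tendsto.prodMk_nhds ?_ (tendsto_pi_nhds.2 fun F => ?_))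
  · refine tendsto_atBot_isLUB (f := fun s : ↥S => rk (s : Pt)) (fun a b hab => rk_anti hab) ?_
    have : range (fun s : ↥S => rk (s : Pt)) = rk '' S := by
      ext x
      simp
    show IsLUB (range (fun s : ↥S => rk (s : Pt))) (rk (Pt.inf r))
    rw [this]
    exact hlub
  · refine tendsto_nhds_of_eventually_eq (Filter.Eventually.of_forall fun s => ?_)
    exact hfl s s.2
  · obtain ⟨s, hs, hF⟩ := hfin F
    refine tendsto_nhds_of_eventually_eq ?_
    filter_upwards [eventually_le_atBot (⟨s, hs⟩ : ↥S)] with t ht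
    have h1 : (t : Pt) ≠ Pt.fin F := hF t t.2 ht
    show decide ((t : Pt) = Pt.fin F) = decide (Pt.inf r = Pt.fin F)
    rw [decide_eq_false h1, decide_eq_false (by rintro ⟨⟩)]

/-- Every nonempty chain has a greatest element. -/
lemma exists_max {C : Set Pt} (hne : C.Nonempty) (hC : IsChain (· ≤ ·) C) :
    ∃ m ∈ C, ∀ x ∈ C, x ≤ m := by
  have hcmp : ∀ x ∈ C, ∀ y ∈ C, x ≤ y ∨ y ≤ x := fun x hx y hy => hC.total hx hy
  by_cases hfin : ∃ F, Pt.fin F ∈ C
  · have h2 : (Finset.card '' {F : Finset W1 | Pt.fin F ∈ C}).Nonempty := by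
      obtain ⟨F, hF⟩ := hfin
      exact ⟨_, mem_image_of_mem _ hF⟩
    obtain ⟨F, hF, hcard⟩ := Nat.sInf_mem h2
    refine ⟨Pt.fin F, hF, fun x hx => ?_⟩
    rcases hcmp x hx _ hF with h | h
    · exact h
    · rcases x with G | r
      · have hsub := fin_le_fin.1 h
        have hle : F.card ≤ G.card := by
          rw [hcard]
          exact Nat.sInf_le ⟨G, hx, rfl⟩
        rw [Finset.eq_of_subset_of_card_le hsub hle]
      · exact absurd h not_fin_le_inf
  · push Not at hfin
    have h2 : {r | Pt.inf r ∈ C}.Nonempty := by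
      obtain ⟨x, hx⟩ := hne
      rcases x with F | r
      · exact absurd hx (hfin F)
      · exact ⟨r, hx⟩
    refine ⟨Pt.inf (WellFounded.min (wellFounded_lt : WellFounded ((· < ·) : R → R → Prop)) _ h2),
      WellFounded.min_mem _ _ h2, fun x hx => ?_⟩
    rcases x with F | r
    · exact absurd hx (hfin F)
    · have hx' : r ∈ {r | Pt.inf r ∈ C} := hx
      exact inf_le_inf'.2 (not_lt.1 (WellFounded.not_lt_min _ _ hx'))

/-- Infima of nonempty subsets of a maximal chain belong to it. -/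
lemma glb_mem {L S : Set Pt} (hL : IsMaxChain (· ≤ ·) L) (hSL : S ⊆ L) {z : Pt}
    (hz : IsGLB S z) : z ∈ L := by
  by_cases hne : ∀ y ∈ L, z ≤ y ∨ y ≤ z
  · have hch : IsChain (· ≤ ·) (insert z L) := hL.1.insert fun y hy _ => hne y hy
    have := hL.2 hch (subset_insert z L)
    rw [this]
    exact mem_insert z L
  · exfalso
    push Not at hne
    obtain ⟨y, hy, h1, h2⟩ := hne
    apply h2
    apply hz.2
    intro s hs
    rcases hL.1.total hy (hSL hs) with h | h
    · exact h
    · exact absurd ((hz.1 hs).trans h) h1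

/-- The key statement on infima in maximal chains. -/
lemma exists_glb {L S : Set Pt} (hL : IsMaxChain (· ≤ ·) L) (hSL : S ⊆ L) (hne : S.Nonempty) :
    ∃ z ∈ L, IsGLB S z ∧ z ∈ closure {x | x ∈ L ∧ ∃ s ∈ S, s ≤ x} := by
  classical
  have hS : IsChain (· ≤ ·) S := hL.1.mono hSL
  by_cases hmin : ∃ m ∈ S, ∀ s ∈ S, m ≤ s
  · obtain ⟨m, hm, hmin⟩ := hmin
    exact ⟨m, hSL hm, ⟨fun s hs => hmin s hs, fun y hy => hy hm⟩,
      subset_closure ⟨hSL hm, m, hm, le_refl _⟩⟩
  push Not at hmin
  by_cases hinf : ∃ r, Pt.inf r ∈ S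
  · -- the chain contains points at infinity
    obtain ⟨r₀, hr₀⟩ := hinf
    obtain ⟨r, hr⟩ := R.exists_isLUB {r | Pt.inf r ∈ S}
    have hfin : ∀ F : Finset W1, Pt.fin F ∈ S → ∀ t, Pt.inf t ∈ S → Pt.inf t ≤ Pt.fin F := by
      intro F hF t ht
      rcases hS.total hF ht with h | h
      · exact absurd h not_fin_le_inf
      · exact h
    have hlow : ∀ s ∈ S, Pt.inf r ≤ s := by
      intro s hs
      rcases s with F | t
      · exact (inf_le_inf'.2 (hr.1 hr₀)).trans (hfin F hs r₀ hr₀)
      · exact inf_le_inf'.2 (hr.1 hs)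
    have hrT : r ∉ {r | Pt.inf r ∈ S} := by
      intro h
      obtain ⟨s, hs, hs'⟩ := hmin _ h
      exact hs' (hlow s hs)
    have hglb : IsGLB S (Pt.inf r) := by
      refine ⟨hlow, fun y hy => ?_⟩
      rcases y with F | t
      · exact absurd (hy hr₀) not_fin_le_inf
      · exact inf_le_inf'.2 (hr.2 fun u hu => inf_le_inf'.1 (hy hu))
    refine ⟨_, glb_mem hL hSL hglb, hglb, ?_⟩
    have hr₀r : r₀ < r := lt_of_le_of_ne (hr.1 hr₀) (fun h => hrT (h ▸ hr₀))
    set T' : Set Pt := Pt.inf '' {t | r₀ ≤ t ∧ t < r ∧ t.flag = r.flag} with hT'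
    have hsub : T' ⊆ {x | x ∈ L ∧ ∃ s ∈ S, s ≤ x} := by
      rintro _ ⟨t, ⟨ht1, ht2, -⟩, rfl⟩
      constructor
      · -- comparable with everything in `L`
        have hcmp : ∀ y ∈ L, Pt.inf t ≤ y ∨ y ≤ Pt.inf t := by
          intro y hy
          rcases y with G | u
          · left
            rcases hL.1.total hy (hSL hr₀) with h | h
            · exact absurd h not_fin_le_inf
            · exact (inf_le_inf'.2 ht1).trans h
          · rcases le_total t u with h | h
            · exact Or.inr (inf_le_inf'.2 h)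
            · exact Or.inl (inf_le_inf'.2 h)
        have hch : IsChain (· ≤ ·) (insert (Pt.inf t) L) := hL.1.insert fun y hy _ => hcmp y hy
        rw [hL.2 hch (subset_insert _ L)]
        exact mem_insert _ L
      · have hnot : ¬ t ∈ upperBounds {r | Pt.inf r ∈ S} := fun h => absurd (hr.2 h) (not_le.2 ht2)
        simp only [mem_upperBounds, not_forall, not_le] at hnot
        obtain ⟨u, hu, htu⟩ := hnot
        exact ⟨Pt.inf u, hu, inf_le_inf'.2 htu.le⟩
    refine closure_mono hsub (mem_closure_of_chain ?_ ?_ ?_ ?_ ?_)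
    · obtain ⟨t, ht1, ht2, ht3⟩ := R.exists_flag_between hr hrT hr₀r
      exact ⟨_, mem_image_of_mem _ ⟨ht1, ht2, ht3⟩⟩
    · rintro _ ⟨t, -, rfl⟩ _ ⟨u, -, rfl⟩ _
      rcases le_total t u with h | h
      · exact Or.inr (inf_le_inf'.2 h)
      · exact Or.inl (inf_le_inf'.2 h)
    · constructor
      · rintro _ ⟨_, ⟨t, ⟨ht1, ht2, -⟩, rfl⟩, rfl⟩
        exact ht2.le
      · intro u hu
        by_contra hcon
        have h1 : max u r₀ < r := max_lt (not_le.1 hcon) hr₀r
        have hnot : ¬ max u r₀ ∈ upperBounds {r | Pt.inf r ∈ S} :=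
          fun h => absurd (hr.2 h) (not_le.2 h1)
        simp only [mem_upperBounds, not_forall, not_le] at hnot
        obtain ⟨v, hv, h2⟩ := hnot
        have hvr : v < r := lt_of_le_of_ne (hr.1 hv) (fun h => hrT (h ▸ hv))
        obtain ⟨t, ht1, ht2, ht3⟩ := R.exists_flag_between hr hrT hvr
        have h3 : t ≤ u := hu ⟨Pt.inf t, ⟨t, ⟨(le_max_right _ _).trans (h2.le.trans ht1), ht2, ht3⟩,
          rfl⟩, rfl⟩
        exact absurd (h2.trans_le ht1) (not_lt.2 (h3.trans (le_max_left _ _)))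
    · rintro _ ⟨t, ⟨-, -, ht3⟩, rfl⟩
      exact ht3
    · intro F
      obtain ⟨t, ht1, ht2, ht3⟩ := R.exists_flag_between hr hrT hr₀r
      refine ⟨Pt.inf t, mem_image_of_mem _ ⟨ht1, ht2, ht3⟩, ?_⟩
      rintro _ ⟨u, -, rfl⟩ -
      rintro ⟨⟩
  · -- the chain consists of finite sets
    push Not at hinf
    have hform : ∀ s ∈ S, ∃ F, s = Pt.fin F := by
      intro s hs
      rcases s with F | r
      · exact ⟨F, rfl⟩
      · exact absurd hs (hinf r)
    obtain ⟨r, hr⟩ := R.exists_isLUB (rk '' S)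
    have hflS : ∀ s ∈ S, fl s = false := by
      intro s hs
      obtain ⟨F, rfl⟩ := hform s hs
      exact flag_rho F
    have hcount : S.Countable := by
      have hinj : InjOn (fun x : Pt => match x with
        | .fin F => F.card
        | .inf _ => 0) S := by
        intro x hx y hy hxy
        obtain ⟨F, rfl⟩ := hform x hx
        obtain ⟨G, rfl⟩ := hform y hy
        have hxy' : F.card = G.card := hxy
        rcases hS.total hx hy with h | h
        · rw [Finset.eq_of_subset_of_card_le (fin_le_fin.1 h) hxy'.le]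
        · rw [Finset.eq_of_subset_of_card_le (fin_le_fin.1 h) hxy'.ge]
      exact (Set.mapsTo_univ _ S).countable_of_injOn hinj (Set.to_countable _)
    have hrf : r.flag = false := by
      refine R.flag_of_countable (hcount.image rk) ?_ hr
      rintro _ ⟨s, hs, rfl⟩
      exact hflS s hs
    have hglb : IsGLB S (Pt.inf r) := by
      constructor
      · intro s hs
        obtain ⟨F, rfl⟩ := hform s hs
        exact inf_le_fin.2 (hr.1 ⟨_, hs, rfl⟩)
      · intro y hy
        rcases y with G | t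
        · exfalso
          have hfinite : S.Finite := by
            refine (Set.Finite.image Pt.fin (G.powerset.finite_toSet)).subset ?_
            intro s hs
            obtain ⟨F, rfl⟩ := hform s hs
            exact ⟨F, Finset.mem_coe.2 (Finset.mem_powerset.2 (fin_le_fin.1 (hy hs))), rfl⟩
          obtain ⟨m, hm⟩ := hfinite.exists_minimal hne
          obtain ⟨s, hs, hs'⟩ := hmin m hm.1
          rcases hS.total hm.1 hs with h | h
          · exact hs' h
          · exact hs' (hm.2 hs h)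
        · refine inf_le_inf'.2 (hr.2 ?_)
          rintro _ ⟨s, hs, rfl⟩
          obtain ⟨F, rfl⟩ := hform s hs
          exact inf_le_fin.1 (hy hs)
    refine ⟨_, glb_mem hL hSL hglb, hglb, ?_⟩
    have hsub : S ⊆ {x | x ∈ L ∧ ∃ s ∈ S, s ≤ x} := fun s hs => ⟨hSL hs, s, hs, le_refl _⟩
    refine closure_mono hsub (mem_closure_of_chain hne hS hr (fun s hs => ?_) ?_)
    · rw [hflS s hs, hrf]
    · intro F
      by_cases hF : Pt.fin F ∈ S
      · obtain ⟨s, hs, hs'⟩ := hmin _ hF
        refine ⟨s, hs, fun t _ hts hcon => ?_⟩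
        rw [hcon] at hts
        exact hs' hts
      · obtain ⟨s, hs⟩ := hne
        refine ⟨s, hs, fun t ht _ hcon => ?_⟩
        rw [hcon] at ht
        exact hF ht

/-- Every maximal chain is `s`-complete. -/
theorem maxChain_sComplete (L : Set Pt) (hL : IsMaxChain (· ≤ ·) L)
    (hinf : ∀ ⦃x y : Pt⦄, x ∈ L → y ∈ L → x ⊓ y ∈ L) :
    @IsSComplete ↥L (Subtype.semilatticeInf hinf) inferInstance := by
  let _ : SemilatticeInf ↥L := Subtype.semilatticeInf hinf
  refine ⟨fun S hS _ => ?_, fun C hC hchain => ?_⟩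
  · obtain ⟨z, hzL, hz, hcl⟩ := exists_glb (S := Subtype.val '' S) hL
      (by rintro _ ⟨x, _, rfl⟩; exact x.2) (hS.image _)
    refine ⟨⟨z, hzL⟩, ⟨fun s hs => hz.1 (mem_image_of_mem _ hs), fun y hy => hz.2 ?_⟩, ?_⟩
    · rintro _ ⟨s, hs, rfl⟩
      exact hy hs
    · rw [closure_subtype]
      refine closure_mono ?_ hcl
      rintro x ⟨hx, _, ⟨s, hs, rfl⟩, hsx⟩
      exact ⟨⟨x, hx⟩, ⟨s, hs, hsx⟩, rfl⟩
  · obtain ⟨m, hm, hmax⟩ := exists_max (C := Subtype.val '' C) (hC.image _)
      (hL.1.mono (by rintro _ ⟨x, _, rfl⟩; exact x.2))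
    obtain ⟨m, hm', rfl⟩ := hm
    exact ⟨m, ⟨fun x hx => hmax _ (mem_image_of_mem _ hx), fun y hy => hy hm'⟩,
      subset_closure ⟨m, hm', le_refl _⟩⟩

/-- The semilattice is not `s`-complete. -/
theorem not_sComplete : ¬ IsSComplete Pt := by
  classical
  intro h
  obtain ⟨z, hz, hcl⟩ := h.1 (range Pt.fin) ⟨_, mem_range_self ∅⟩ (by
    rintro _ ⟨F, rfl⟩ _ ⟨G, rfl⟩
    exact ⟨F ∪ G, rfl⟩)
  have hz1 : z = Pt.inf ⊤ := by
    apply le_antisymm
    · rcases z with G | r
      · exfalso
        obtain ⟨a, ha⟩ := Infinite.exists_notMem_finset G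
        have := fin_le_fin.1 (hz.1 (mem_range_self {a}))
        exact ha (this (Finset.mem_singleton_self a))
      · refine inf_le_inf'.2 (top_le_iff.2 ?_)
        by_contra hr
        rcases R.cases r with rfl | rfl | ⟨i, b, rfl⟩
        · have h1 : rho {(Classical.arbitrary W1)} ≤ ⊥ := inf_le_fin.1 (hz.1 (mem_range_self _))
          unfold rho at h1
          rw [Finset.sup_singleton] at h1
          exact absurd h1 (not_le.2 (R.bot_lt_mk _ _))
        · exact hr rfl
        · obtain ⟨j, hj⟩ := exists_gt i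
          have h1 : rho {j} ≤ R.mk i b := inf_le_fin.1 (hz.1 (mem_range_self _))
          unfold rho at h1
          rw [Finset.sup_singleton] at h1
          exact absurd h1 (not_le.2 (R.mk_lt_mk.2 (Or.inl hj)))
    · apply hz.2
      rintro _ ⟨F, rfl⟩
      exact inf_le_fin.2 le_top
  rw [hz1] at hcl
  have hev := eventually_fl (Pt.inf ⊤)
  obtain ⟨x, hx1, ⟨_, ⟨F, rfl⟩, hx2⟩⟩ := mem_closure_iff_nhds.1 hcl _ hev
  rcases x with G | r
  · have h1 : fl (Pt.fin G) = fl (Pt.inf ⊤) := hx1
    have h2 : fl (Pt.fin G) = false := flag_rho G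
    have h3 : fl (Pt.inf ⊤) = true := rfl
    rw [h2, h3] at h1
    exact absurd h1 (by decide)
  · exact not_fin_le_inf hx2

end Q182.MC
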