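import Pool.Agent.Q61.MH.Stm

/-! Project MH (helper61), job ROOT (by helper182). -/

set_option autoImplicit false

open Real Filter Topology

namespace Q182.MH_ROOT

open Pool.Agent.Q61.MH

lemma S_succ (k : ℕ) (r : ℝ) : S (k + 1) r = S k r + ((k : ℝ) + 1) ^ r := by
  unfold S
  rw [Finset.sum_range_succ]

lemma S_nonneg (k : ℕ) (r : ℝ) : 0 ≤ S k r := by
  unfold S
  exact Finset.sum_nonneg fun i _ => by positivity

lemma S_ge (k : ℕ) (hk : 1 ≤ k) (r : ℝ) : (k : ℝ) ^ r ≤ S k r := by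
  obtain ⟨n, rfl⟩ : ∃ n, k = n + 1 := ⟨k - 1, by omega⟩
  rw [S_succ]
  have h := S_nonneg n r
  push_cast
  linarith

lemma S_one (k : ℕ) : S k 1 = (k : ℝ) * (k + 1) / 2 := by
  induction k with
  | zero => simp [S]
  | succ k ih =>
    rw [S_succ, ih, Real.rpow_one]
    push_cast
    ring

lemma P_one (k : ℕ) : P k 1 = -(((k : ℝ) + 1) * (k - 1)) := by
  unfold P
  rw [S_one, S_one, Real.rpow_one, Real.rpow_one]
  push_cast
  ring

lemma P_neg (k : ℕ) (hk : 1 ≤ k) (r : ℝ) (hr : r ≤ 0) : P k r < 0 := by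
  have hk' : (1 : ℝ) ≤ k := by exact_mod_cast hk
  unfold P
  rw [S_succ]
  have h1 : (2 * (k : ℝ) + 1) ^ r ≤ (2 * (k : ℝ) - 1) ^ r :=
    Real.rpow_le_rpow_of_nonpos (by linarith) (by linarith) hr
  have h2 : 0 < (2 * (k : ℝ) - 1) ^ r := Real.rpow_pos_of_pos (by linarith) r
  have h3 : 0 < ((k : ℝ) + 1) ^ r := Real.rpow_pos_of_pos (by linarith) r
  have h4 := mul_le_mul_of_nonneg_right h1 (S_nonneg k r)
  have h5 := mul_pos h2 h3
  nlinarith

lemma S_cont (k : ℕ) : Continuous fun r => S k r := by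
  unfold S
  refine continuous_finsetSum _ fun i _ => ?_
  exact Real.continuous_const_rpow (by positivity)

lemma P_cont (k : ℕ) (hk : 1 ≤ k) : Continuous fun r => P k r := by
  have hk' : (1 : ℝ) ≤ k := by exact_mod_cast hk
  unfold P
  have h1 : (2 * (k : ℝ) + 1) ≠ 0 := by positivity
  have h2 : (2 * (k : ℝ) - 1) ≠ 0 := by
    have : (0 : ℝ) < 2 * (k : ℝ) - 1 := by linarith
    exact this.ne'
  exact ((Real.continuous_const_rpow h1).mul (S_cont k)).sub
    ((Real.continuous_const_rpow h2).mul (S_cont (k + 1)))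

lemma P_large (k : ℕ) (hk : 1 ≤ k) : ∃ R : ℝ, 1 ≤ R ∧ 0 < P k R := by
  have hk' : (1 : ℝ) ≤ k := by exact_mod_cast hk
  obtain ⟨T, hT⟩ : ∃ T : ℝ, T = ((k : ℝ) + 1) * (2 * k - 1) := ⟨_, rfl⟩
  have hT2 : 2 ≤ T := by rw [hT]; nlinarith
  have hT0 : 0 < T := by linarith
  obtain ⟨r, hr⟩ : ∃ r : ℝ, r = 2 * T := ⟨_, rfl⟩
  have hr1 : 1 ≤ r := by rw [hr]; linarith
  refine ⟨r, hr1, ?_⟩
  have hb := one_add_mul_self_le_rpow_one_add (s := 1 / T) (by
    have : 0 < 1 / T := by positivity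
    linarith) hr1
  have hb2 : 1 + r * (1 / T) = 3 := by
    rw [hr]
    field_simp
    norm_num
  rw [hb2] at hb
  have hpow : 0 < T ^ r := Real.rpow_pos_of_pos hT0 r
  have h1 : (T + 1) ^ r = T ^ r * (1 + 1 / T) ^ r := by
    rw [← Real.mul_rpow hT0.le (by positivity)]
    congr 1
    field_simp
  have h2 : 3 * T ^ r ≤ (T + 1) ^ r := by
    rw [h1]
    nlinarith
  unfold P
  rw [S_succ]
  have e1 : (k : ℝ) ^ r * (2 * k + 1) ^ r = (T + 1) ^ r := by
    rw [← Real.mul_rpow (by positivity) (by positivity)]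
    congr 1
    rw [hT]
    ring
  have e2 : (2 * (k : ℝ) - 1) ^ r * ((k : ℝ) + 1) ^ r = T ^ r := by
    rw [← Real.mul_rpow (by linarith) (by positivity)]
    congr 1
    rw [hT]
    ring
  have e3 : (k : ℝ) ^ r * (2 * (k : ℝ) - 1) ^ r ≤ T ^ r := by
    rw [← Real.mul_rpow (by positivity) (by linarith)]
    refine Real.rpow_le_rpow (mul_nonneg (by linarith) (by linarith)) ?_ (by linarith)
    rw [hT]
    nlinarith
  have e4 : (2 * (k : ℝ) - 1) ^ r ≤ (2 * (k : ℝ) + 1) ^ r :=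
    Real.rpow_le_rpow (by linarith) (by linarith) (by linarith)
  have e5 := S_ge k hk r
  have e6 : 0 ≤ ((2 * (k : ℝ) + 1) ^ r - (2 * (k : ℝ) - 1) ^ r) * (S k r - (k : ℝ) ^ r) :=
    mul_nonneg (by linarith) (by linarith)
  nlinarith

/-- **JOB ROOT** -/
theorem root (h : S_cross) : S_root := by
  intro k hk
  obtain ⟨R, hR1, hR⟩ := P_large k hk
  have hk' : (1 : ℝ) ≤ k := by exact_mod_cast hk
  have h1 : P k 1 ≤ 0 := by
    rw [P_one]
    nlinarith
  have h2 := intermediate_value_Icc hR1 ((P_cont k hk).continuousOn)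
  obtain ⟨ρ, hρ, hρ0⟩ := h2 ⟨h1, hR.le⟩
  have hρ0' : P k ρ = 0 := hρ0
  have hlow : ∀ r < ρ, P k r < 0 := by
    intro r hr
    rcases le_or_gt r 0 with h3 | h3
    · exact P_neg k hk r h3
    · by_contra h4
      push Not at h4
      have h5 := h k hk r ρ h3 hr h4
      rw [hρ0'] at h5
      exact lt_irrefl _ h5
  have hup : ∀ r, ρ < r → 0 < P k r := fun r hr =>
    h k hk ρ r (by linarith [hρ.1]) hr hρ0'.ge
  refine ⟨ρ, hρ.1, hρ0', hlow, hup, ?_, ?_⟩
  · intro hk2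
    rcases lt_or_eq_of_le hρ.1 with h3 | h3
    · exact h3
    · exfalso
      rw [← h3, P_one] at hρ0'
      have hk2' : (2 : ℝ) ≤ k := by exact_mod_cast hk2
      nlinarith
  · intro hk1
    rcases lt_or_eq_of_le hρ.1 with h3 | h3
    · exfalso
      have h4 := hlow 1 h3
      rw [P_one, hk1] at h4
      norm_num at h4
    · exact h3.symm

end Q182.MH_ROOT
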