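import Mathlib

/-!
# Circle lemmas for the construction of a compatible topology
-/

namespace Q182.MK

open Set Filter Topology

/-- The circle group. -/
abbrev T : Type := UnitAddCircle

lemma norm_coe_of_le {y : ℝ} (h : |y| ≤ 1 / 2) : ‖((y : ℝ) : T)‖ = |y| := by
  rw [AddCircle.norm_coe_eq_abs_iff (1 : ℝ) one_ne_zero, abs_one]
  exact h

lemma exists_rep (t : T) : ∃ y : ℝ, ((y : ℝ) : T) = t ∧ |y| = ‖t‖ ∧ |y| ≤ 1 / 2 := by
  obtain ⟨x, rfl⟩ := QuotientAddGroup.mk_surjective t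
  have h1 : |x - round x| ≤ 1 / 2 := abs_sub_round x
  have h2 : ((x - round x : ℝ) : T) = ((x : ℝ) : T) := by
    rw [AddCircle.coe_sub]
    have : (((round x : ℤ) : ℝ) : T) = 0 := by
      rw [AddCircle.coe_eq_zero_iff]
      exact ⟨round x, by simp⟩
    rw [this, sub_zero]
  refine ⟨x - round x, h2, ?_, h1⟩
  rw [← norm_coe_of_le h1, h2]

lemma zsmul_coe (k : ℤ) (y : ℝ) : k • ((y : ℝ) : T) = ((k * y : ℝ) : T) := by
  rw [← AddCircle.coe_zsmul, zsmul_eq_mul]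

lemma norm_le_half (t : T) : ‖t‖ ≤ 1 / 2 := by
  obtain ⟨y, -, h1, h2⟩ := exists_rep t
  rw [← h1]
  exact h2

/-- The norm of a real number between `1/2` and `1`. -/
lemma norm_coe_of_ge {y : ℝ} (h1 : 1 / 2 ≤ y) (h2 : y ≤ 1) : ‖((y : ℝ) : T)‖ = 1 - y := by
  have h3 : ((y : ℝ) : T) = ((y - 1 : ℝ) : T) := by
    rw [AddCircle.coe_sub]
    have : (((1 : ℝ)) : T) = 0 := AddCircle.coe_period 1
    rw [this, sub_zero]
  rw [h3, norm_coe_of_le (by rw [abs_le]; constructor <;> linarith), abs_of_nonpos (by linarith)]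
  ring

/-- Doubling small elements. -/
lemma norm_of_two {t : T} {ε : ℝ} (h1 : ‖t‖ ≤ 1 / 4) (h2 : ‖t + t‖ ≤ ε) : ‖t‖ ≤ ε / 2 := by
  obtain ⟨y, rfl, hy1, -⟩ := exists_rep t
  rw [← AddCircle.coe_add, norm_coe_of_le (by
    rw [← two_mul, abs_mul, abs_two]
    rw [← hy1] at h1
    linarith), ← two_mul, abs_mul, abs_two] at h2
  rw [← hy1]
  linarith

/-- The separation lemma. -/
lemma separation {W : Set ℤ} {ℓ : ℝ} (hℓ : 0 < ℓ)
    (hW : ∀ a : ℝ, ∃ k ∈ W, a ≤ (k : ℝ) ∧ (k : ℝ) ≤ a + ℓ) {m : ℕ} (hm : 1 ≤ m) {s x : T}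
    (hs : s ≠ 0) (hx : x ≠ 0) (h1 : ℓ * ‖s‖ ≤ 1 / (4 * m)) (h2 : ℓ * ‖x‖ ≤ 1 / 16) :
    ∃ k ∈ W, ‖k • s‖ ≤ 1 / m ∧ 1 / (16 * (m : ℝ)) < ‖k • x‖ := by
  obtain ⟨σ, rfl, hσ1, hσ2⟩ := exists_rep s
  obtain ⟨ξ, rfl, hξ1, hξ2⟩ := exists_rep x
  have hm0 : (1 : ℝ) ≤ m := by exact_mod_cast hm
  have hmpos : (0 : ℝ) < m := by linarith
  have hσ0 : 0 < |σ| := by
    rw [hσ1, norm_pos_iff]
    exact hs
  have hξ0 : 0 < |ξ| := by
    rw [hξ1, norm_pos_iff]
    exact hx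
  rw [← hσ1] at h1
  rw [← hξ1] at h2
  have hnorm : ∀ (k : ℤ) (y : ℝ), ‖((k * y : ℝ) : T)‖ = ‖((k * |y| : ℝ) : T)‖ := by
    intro k y
    rcases le_total 0 y with h | h
    · rw [abs_of_nonneg h]
    · rw [abs_of_nonpos h, mul_neg, AddCircle.coe_neg, norm_neg]
  have hinv : (1 : ℝ) / m ≤ 1 := by
    rw [div_le_one hmpos]
    exact hm0
  by_cases hcase : |σ| ≤ 8 * |ξ|
  · -- case A
    obtain ⟨k, hkW, hk1, hk2⟩ := hW (3 / (32 * m) / |ξ|)
    have hk0 : (0 : ℝ) ≤ k := le_trans (by positivity) hk1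
    refine ⟨k, hkW, ?_, ?_⟩
    · rw [zsmul_coe, hnorm]
      have h3 : (k : ℝ) * |σ| ≤ 1 / m := by
        calc (k : ℝ) * |σ| ≤ (3 / (32 * m) / |ξ| + ℓ) * |σ| := by gcongr
          _ = 3 / (32 * m) * (|σ| / |ξ|) + ℓ * |σ| := by ring
          _ ≤ 3 / (32 * m) * 8 + 1 / (4 * m) := by
            have h4 : |σ| / |ξ| ≤ 8 := by
              rw [div_le_iff₀ hξ0]
              exact hcase
            gcongr
          _ = 1 / m := by
            field_simp
            norm_num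
      have h4 : 0 ≤ (k : ℝ) * |σ| := by positivity
      by_cases h5 : (k : ℝ) * |σ| ≤ 1 / 2
      · rw [norm_coe_of_le (by rw [abs_of_nonneg h4]; exact h5), abs_of_nonneg h4]
        exact h3
      · refine (norm_le_half _).trans ?_
        linarith
    · rw [zsmul_coe, hnorm]
      have h3 : 3 / (32 * (m : ℝ)) ≤ k * |ξ| := by
        rw [div_le_iff₀ hξ0] at hk1
        exact hk1
      have h4 : (k : ℝ) * |ξ| ≤ 1 / 2 := by
        calc (k : ℝ) * |ξ| ≤ (3 / (32 * m) / |ξ| + ℓ) * |ξ| := by gcongr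
          _ = 3 / (32 * m) + ℓ * |ξ| := by field_simp
          _ ≤ 3 / 32 * (1 / m) + 1 / 16 := by
            have : 3 / (32 * (m : ℝ)) = 3 / 32 * (1 / m) := by field_simp
            rw [this]
            gcongr
          _ ≤ 3 / 32 * 1 + 1 / 16 := by gcongr
          _ ≤ 1 / 2 := by norm_num
      have h5 : 0 ≤ (k : ℝ) * |ξ| := by positivity
      rw [norm_coe_of_le (by rw [abs_of_nonneg h5]; exact h4), abs_of_nonneg h5]
      refine lt_of_lt_of_le ?_ h3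
      rw [div_lt_div_iff₀ (by positivity) (by positivity)]
      nlinarith
  · -- case B
    push Not at hcase
    set v : ℤ := ⌈1 / (2 * |ξ|) * |σ|⌉ with hv
    have hv1 : 1 / (2 * |ξ|) * |σ| ≤ v := Int.le_ceil _
    have hv2 : (v : ℝ) < 1 / (2 * |ξ|) * |σ| + 1 := Int.ceil_lt_add_one _
    obtain ⟨k, hkW, hk1, hk2⟩ := hW (v / |σ|)
    have hv0 : (0 : ℝ) < v := lt_of_lt_of_le (by positivity) hv1
    have hk0 : (0 : ℝ) < k := lt_of_lt_of_le (by positivity) hk1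
    refine ⟨k, hkW, ?_, ?_⟩
    · rw [zsmul_coe, hnorm]
      have h3 : (v : ℝ) ≤ k * |σ| := by
        rw [div_le_iff₀ hσ0] at hk1
        exact hk1
      have h4 : (k : ℝ) * |σ| ≤ v + 1 / (4 * m) := by
        calc (k : ℝ) * |σ| ≤ (v / |σ| + ℓ) * |σ| := by gcongr
          _ = v + ℓ * |σ| := by field_simp
          _ ≤ v + 1 / (4 * m) := by gcongr
      have h5 : ((k * |σ| : ℝ) : T) = ((k * |σ| - v : ℝ) : T) := by
        rw [AddCircle.coe_sub]
        have : (((v : ℤ) : ℝ) : T) = 0 := by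
          rw [AddCircle.coe_eq_zero_iff]
          exact ⟨v, by simp⟩
        rw [this, sub_zero]
      have h6 : 1 / (4 * (m : ℝ)) ≤ 1 / m := by
        rw [div_le_div_iff₀ (by positivity) (by positivity)]
        nlinarith
      have h7 : 1 / (4 * (m : ℝ)) ≤ 1 / 2 := by
        rw [div_le_div_iff₀ (by positivity) (by positivity)]
        nlinarith
      rw [h5, norm_coe_of_le (by rw [abs_of_nonneg (by linarith)]; linarith),
        abs_of_nonneg (by linarith)]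
      linarith
    · rw [zsmul_coe, hnorm]
      have h3 : 1 / 2 ≤ (k : ℝ) * |ξ| := by
        have h4 : 1 / (2 * |ξ|) ≤ k := by
          refine le_trans ?_ hk1
          rw [le_div_iff₀ hσ0]
          exact hv1
        rw [div_le_iff₀ (by positivity)] at h4
        linarith
      have h4 : (k : ℝ) * |ξ| ≤ 11 / 16 := by
        have h5 : (v : ℝ) / |σ| ≤ 1 / (2 * |ξ|) + 1 / |σ| := by
          rw [div_le_iff₀ hσ0, add_mul, one_div_mul_cancel hσ0.ne']
          exact hv2.le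
        calc (k : ℝ) * |ξ| ≤ (v / |σ| + ℓ) * |ξ| := by gcongr
          _ ≤ (1 / (2 * |ξ|) + 1 / |σ| + ℓ) * |ξ| := by gcongr
          _ = 1 / 2 + |ξ| / |σ| + ℓ * |ξ| := by field_simp
          _ ≤ 1 / 2 + 1 / 8 + 1 / 16 := by
            have h6 : |ξ| / |σ| ≤ 1 / 8 := by
              rw [div_le_iff₀ hσ0]
              linarith
            gcongr
          _ = 11 / 16 := by norm_num
      rw [norm_coe_of_ge h3 (by linarith)]
      have h7 : 1 / (16 * (m : ℝ)) ≤ 1 / 16 := by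
        rw [div_le_div_iff₀ (by positivity) (by positivity)]
        nlinarith
      linarith

/-- The compactness lemma. -/
lemma exists_bound (B : Set ℤ) (c : ℝ) {ρ : ℝ} (hρ : 0 < ρ) :
    ∃ L : ℕ, ∀ α : T, (∀ k ∈ B, |k| ≤ L → ‖k • α‖ ≤ c) →
      ∃ g : T, (∀ k ∈ B, ‖k • g‖ ≤ c) ∧ ‖α - g‖ < ρ := by
  let V : ℕ → Set T := fun L => {α | ∀ k ∈ B, |k| ≤ (L : ℤ) → ‖k • α‖ ≤ c}
  have hcl : ∀ L, IsClosed (V L) := by
    intro L
    have : V L = ⋂ k ∈ B, ⋂ _ : |k| ≤ (L : ℤ), {α : T | ‖k • α‖ ≤ c} := by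
      ext α
      simp only [mem_iInter]
      exact Iff.rfl
    rw [this]
    refine isClosed_biInter fun k _ => isClosed_iInter fun _ => ?_
    exact isClosed_le (continuous_norm.comp (continuous_zsmul k)) continuous_const
  obtain ⟨L, hL⟩ := exists_subset_nhds_of_isCompact' (V := V) (by
    intro a b
    refine ⟨max a b, fun α hα k hk hka => hα k hk ?_, fun α hα k hk hkb => hα k hk ?_⟩
    · exact hka.trans (by exact_mod_cast le_max_left a b)
    · exact hkb.trans (by exact_mod_cast le_max_right a b))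
    (fun L => (hcl L).isCompact) hcl
    (U := Metric.thickening ρ {g : T | ∀ k ∈ B, ‖k • g‖ ≤ c}) (by
      intro α hα
      refine Metric.isOpen_thickening.mem_nhds (Metric.self_subset_thickening hρ _ ?_)
      intro k hk
      exact mem_iInter.1 hα k.natAbs k hk (by rw [Int.natCast_natAbs]))
  refine ⟨L, fun α hα => ?_⟩
  have h1 : α ∈ Metric.thickening ρ {g : T | ∀ k ∈ B, ‖k • g‖ ≤ c} := hL hα
  rw [Metric.mem_thickening_iff] at h1
  obtain ⟨g, hg, hd⟩ := h1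
  exact ⟨g, hg, by rw [← dist_eq_norm]; exact hd⟩

end Q182.MK
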