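import Mathlib

/-!
# Locally quasi-convex and Mackey group topologies
-/

namespace Q182

open Topology
open scoped Pointwise

/-- The subset `T₊ = [-1/4, 1/4] + ℤ` of the circle `ℝ/ℤ`. -/
def Tplus : Set UnitAddCircle := (fun x : ℝ => (x : UnitAddCircle)) '' Set.Icc (-1 / 4) (1 / 4)

variable {G : Type} [AddCommGroup G]

/-- The continuous characters of a group topology. -/
def chars (τ : TopologicalSpace G) : Set (G →+ UnitAddCircle) := {χ | Continuous[τ, inferInstance] χ}

/-- Quasi-convex sets. -/
def IsQuasiConvex (τ : TopologicalSpace G) (A : Set G) : Prop :=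
  ∀ x ∉ A, ∃ χ ∈ chars τ, (∀ a ∈ A, χ a ∈ Tplus) ∧ χ x ∉ Tplus

/-- Locally quasi-convex group topologies: `0` has a neighbourhood base of quasi-convex sets. -/
def IsLQC (τ : TopologicalSpace G) : Prop :=
  @IsTopologicalAddGroup G τ _ ∧
    ∀ U ∈ @nhds G τ 0, ∃ A ∈ @nhds G τ 0, IsQuasiConvex τ A ∧ A ⊆ U

/-- Mackey topologies: locally quasi-convex group topologies that are finer than every locally
quasi-convex group topology with the same continuous characters. -/
def IsMackey (τ : TopologicalSpace G) : Prop :=
  IsLQC τ ∧ ∀ σ : TopologicalSpace G, IsLQC σ → chars σ = chars τ → τ ≤ σ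

/-- Mackey topologies among Hausdorff topologies: Hausdorff locally quasi-convex group topologies
that are finer than every Hausdorff locally quasi-convex group topology with the same continuous
characters. -/
def IsMackeyHausdorff (τ : TopologicalSpace G) : Prop :=
  IsLQC τ ∧ @T2Space G τ ∧
    ∀ σ : TopologicalSpace G, IsLQC σ → @T2Space G σ → chars σ = chars τ → τ ≤ σ

/-- Precompact group topologies: for every neighbourhood `U` of `0` finitely many translates of `U`
cover the group. -/
def IsPrecompact (τ : TopologicalSpace G) : Prop :=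
  ∀ U ∈ @nhds G τ 0, ∃ F : Set G, F.Finite ∧ F + U = Set.univ

end Q182
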