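import Mathlib
import Pool.Agent.Q182.MKCore

/-!
# The fast null sequence of characters, chosen from prescribed sets
-/

namespace Q182.MK2

open Set Filter Topology
open Q182.MK (T norm_coe_of_le exists_rep zsmul_coe norm_le_half norm_of_two separation exists_bound)

/-- The combinatorial data of a metrizable precompact topology on the integers: a decreasing
sequence of syndetic symmetric sets and its group of characters. -/
structure Data (U : ℕ → Set ℤ) (H : AddSubgroup T) (P : ℕ → Set T) : Prop where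
  zero : ∀ j, (0 : ℤ) ∈ U j
  neg : ∀ j, ∀ k ∈ U j, -k ∈ U j
  add : ∀ j, ∀ a ∈ U (j + 1), ∀ b ∈ U (j + 1), a + b ∈ U j
  syn : ∀ j, ∃ ℓ : ℝ, 0 < ℓ ∧ ∀ a : ℝ, ∃ k ∈ U j, a ≤ (k : ℝ) ∧ (k : ℝ) ≤ a + ℓ
  cont : ∀ t ∈ H, ∀ ε > 0, ∃ j, ∀ k ∈ U j, ‖k • t‖ ≤ ε
  mem : ∀ t : T, (∃ j, ∀ k ∈ U j, ‖k • t‖ ≤ 1 / 8) → t ∈ H
  small : ∀ j, ∀ ε > 0, ∃ t ∈ H, t ∈ P j ∧ t ≠ 0 ∧ ‖t‖ < ε

variable {U : ℕ → Set ℤ} {H : AddSubgroup T} {P : ℕ → Set T}

lemma Data.mono (D : Data U H P) {i j : ℕ} (h : i ≤ j) : U j ⊆ U i := by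
  induction j, h using Nat.le_induction with
  | base => exact Subset.refl _
  | succ j _ ih =>
    intro k hk
    apply ih
    have := D.add j k hk 0 (D.zero _)
    rwa [add_zero] at this

/-- The test sets. -/
def BB (U : ℕ → Set ℤ) (n : ℕ) (s : T) (m : ℕ) : Set ℤ := {k | k ∈ U n ∧ ‖k • s‖ ≤ 1 / m}

/-- The state of the recursion. -/
structure St where
  /-- index of the neighbourhood -/
  n : ℕ
  /-- the character -/
  s : T
  /-- the total length -/
  Λ : ℕ
  /-- the precision -/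
  ρ : ℝ

/-- The relation between consecutive states. -/
structure Rel (U : ℕ → Set ℤ) (H : AddSubgroup T) (P : ℕ → Set T) (j : ℕ) (a b : St) : Prop where
  lt : a.n < b.n
  le : a.Λ ≤ b.Λ
  small : ∀ k ∈ U b.n, ‖k • a.s‖ ≤ (1 / 2) ^ (j + 3)
  memH : b.s ∈ H
  memP : b.s ∈ P (j + 1)
  ne : b.s ≠ 0
  small' : b.Λ * ‖b.s‖ ≤ (1 / 2) ^ (j + 3)
  small'' : ‖b.s‖ ≤ (1 / 2) ^ j
  ρpos : 0 < b.ρ
  ρle : b.ρ ≤ a.ρ
  ρle' : b.ρ ≤ (1 / 2) ^ j
  main : ∃ ℓ : ℝ, ∃ L : ℕ, 0 < ℓ ∧ ℓ * (2 * b.ρ) ≤ 1 / 16 ∧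
    (∀ a : ℝ, ∃ k ∈ U b.n, a ≤ (k : ℝ) ∧ (k : ℝ) ≤ a + ℓ) ∧ ℓ * ‖b.s‖ ≤ 1 / (4 * (j + 1)) ∧
    b.Λ = a.Λ + L ∧
    ∀ m : ℕ, 1 ≤ m → m ≤ j → ∀ α : T,
      (∀ k ∈ BB U a.n a.s m, |k| ≤ (L : ℤ) → ‖k • α‖ ≤ 1 / (32 * m)) →
      ∃ g : T, (∀ k ∈ BB U a.n a.s m, ‖k • g‖ ≤ 1 / (32 * m)) ∧ ‖α - g‖ < b.ρ

lemma exists_step (D : Data U H P) (j : ℕ) (a : St) (ha : a.s ∈ H) (hρa : 0 < a.ρ) :
    ∃ b, Rel U H P j a b := by
  obtain ⟨n₀, hn₀⟩ := D.cont a.s ha ((1 / 2) ^ (j + 3)) (by positivity)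
  let n := max (a.n + 1) n₀
  obtain ⟨ℓ, hℓ, hsyn⟩ := D.syn n
  let ρ : ℝ := min a.ρ (min ((1 / 2) ^ j) (1 / (32 * ℓ)))
  have hρ : 0 < ρ := lt_min hρa (lt_min (by positivity) (by positivity))
  have hρ1 : ρ ≤ (1 / 2) ^ j := (min_le_right _ _).trans (min_le_left _ _)
  have hρ2 : ρ ≤ 1 / (32 * ℓ) := (min_le_right _ _).trans (min_le_right _ _)
  have hL := fun m : ℕ => exists_bound (BB U a.n a.s m) (1 / (32 * m)) hρ
  choose L hL using hL
  let L' := ∑ m ∈ Finset.range (j + 1), L m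
  have hpos : 0 < min ((1 / 2) ^ (j + 3) / ((a.Λ + L' : ℕ) + 1 : ℝ))
      (min ((1 / 2) ^ j) (1 / (4 * (j + 1)) / ℓ)) := by
    refine lt_min (by positivity) (lt_min (by positivity) (by positivity))
  obtain ⟨t, htH, htP, ht0, ht⟩ := D.small (j + 1) _ hpos
  have ht1 := (lt_min_iff.1 ht).1
  have ht2 := (lt_min_iff.1 (lt_min_iff.1 ht).2).1
  have ht3 := (lt_min_iff.1 (lt_min_iff.1 ht).2).2
  refine ⟨⟨n, t, a.Λ + L', ρ⟩, ⟨?_, Nat.le_add_right _ _, ?_, htH, htP, ht0, ?_, ht2.le, hρ,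
    min_le_left _ _, hρ1, ⟨ℓ, L', hℓ, ?_, hsyn, ?_, rfl, ?_⟩⟩⟩
  · exact lt_of_lt_of_le (Nat.lt_succ_self _) (le_max_left _ _)
  · intro k hk
    exact hn₀ k (D.mono (le_max_right _ _) hk)
  · show ((a.Λ + L' : ℕ) : ℝ) * ‖t‖ ≤ (1 / 2) ^ (j + 3)
    rw [lt_div_iff₀ (by positivity)] at ht1
    have := norm_nonneg t
    nlinarith
  · have h1 : ℓ * (2 * ρ) ≤ ℓ * (2 * (1 / (32 * ℓ))) := by gcongr
    have h2 : ℓ * (2 * (1 / (32 * ℓ))) = 1 / 16 := by
      field_simp
      norm_num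
    exact h1.trans h2.le
  · show ℓ * ‖t‖ ≤ 1 / (4 * (j + 1))
    rw [lt_div_iff₀ hℓ] at ht3
    linarith
  · intro m _ hmj α hα
    refine hL m α fun k hk hkL => hα k hk (hkL.trans ?_)
    have : L m ≤ L' := Finset.single_le_sum (f := L) (fun _ _ => Nat.zero_le _)
      (Finset.mem_range.2 (Nat.lt_succ_of_le hmj))
    exact_mod_cast this

/-- The sequence of states. -/
lemma exists_states (D : Data U H P) : ∃ st : ℕ → St, (st 0).s ∈ H ∧ (st 0).s ∈ P 0 ∧ (st 0).s ≠ 0 ∧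
    ∀ j, Rel U H P j (st j) (st (j + 1)) := by
  classical
  obtain ⟨t, ht, htP, ht0, -⟩ := D.small 0 1 one_pos
  have hstep : ∀ (j : ℕ) (a : {a : St // a.s ∈ H ∧ 0 < a.ρ}),
      ∃ b : {a : St // a.s ∈ H ∧ 0 < a.ρ}, Rel U H P j a.1 b.1 := by
    intro j a
    obtain ⟨b, hb⟩ := exists_step D j a.1 a.2.1 a.2.2
    exact ⟨⟨b, hb.memH, hb.ρpos⟩, hb⟩
  choose f hf using hstep
  let st : ℕ → {a : St // a.s ∈ H ∧ 0 < a.ρ} := fun j =>
    Nat.rec ⟨⟨0, t, 0, 1⟩, ht, one_pos⟩ (fun j a => f j a) j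
  exact ⟨fun j => (st j).1, ht, htP, ht0, fun j => hf j (st j)⟩

/-- The key property of the sequence. -/
theorem core (D : Data U H P) : ∃ s : ℕ → T, (∀ i, s i ∈ H) ∧ (∀ i, s i ∈ P i) ∧ (∀ i, s i ≠ 0) ∧
    Tendsto s atTop (𝓝 0) ∧
    ∀ α : T, (∃ j n : ℕ, 1 ≤ n ∧ ∀ k ∈ U j, (∀ i, ‖k • s i‖ ≤ 1 / (4 * (n : ℝ))) → ‖k • α‖ ≤ 1 / 8) →
      α ∈ H := by
  obtain ⟨st, h0, h0P, h0', hR⟩ := exists_states D
  have hsH : ∀ i, (st i).s ∈ H := by
    intro i
    cases i with
    | zero => exact h0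
    | succ i => exact (hR i).memH
  have hs0 : ∀ i, (st i).s ≠ 0 := by
    intro i
    cases i with
    | zero => exact h0'
    | succ i => exact (hR i).ne
  have hsP : ∀ i, (st i).s ∈ P i := by
    intro i
    cases i with
    | zero => exact h0P
    | succ i => exact (hR i).memP
  refine ⟨fun i => (st i).s, hsH, hsP, hs0, ?_, ?_⟩
  · rw [← tendsto_add_atTop_iff_nat 1, tendsto_zero_iff_norm_tendsto_zero]
    refine squeeze_zero (fun _ => norm_nonneg _) (fun i => (hR i).small'') ?_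
    exact tendsto_pow_atTop_nhds_zero_of_lt_one (by norm_num) (by norm_num)
  -- monotonicity
  have hnlt : ∀ i j, i < j → (st i).n < (st j).n := by
    have : StrictMono fun i => (st i).n := strictMono_nat_of_lt_succ fun i => (hR i).lt
    exact fun i j h => this h
  have hnmono : ∀ i j, i ≤ j → (st i).n ≤ (st j).n := by
    intro i j h
    rcases eq_or_lt_of_le h with rfl | h
    · exact le_rfl
    · exact (hnlt i j h).le
  have hΛmono : ∀ i j, i ≤ j → (st i).Λ ≤ (st j).Λ := by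
    have : Monotone fun i => (st i).Λ := monotone_nat_of_le_succ fun i => (hR i).le
    exact fun i j h => this h
  have hni : ∀ i, i ≤ (st i).n := by
    intro i
    induction i with
    | zero => exact Nat.zero_le _
    | succ i ih => exact lt_of_le_of_lt ih (hR i).lt
  -- old characters are small on later neighbourhoods
  have hold : ∀ i j, i < j → ∀ k ∈ U (st j).n, ‖k • (st i).s‖ ≤ (1 / 2) ^ (j + 2) := by
    intro i j hij
    induction j, hij using Nat.le_induction with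
    | base => exact (hR i).small
    | succ j hij ih =>
      intro k hk
      have h1 : k ∈ U ((st j).n + 1) := D.mono (hnlt j (j + 1) (Nat.lt_succ_self j)) hk
      have h2 : k + k ∈ U (st j).n := D.add _ k h1 k h1
      have h3 := ih _ h2
      have h4 := ih k (D.mono (Nat.le_succ _) h1)
      rw [add_smul] at h3
      have h5 : ‖k • (st i).s‖ ≤ 1 / 4 := by
        refine h4.trans ?_
        rw [pow_add]
        have : ((1 : ℝ) / 2) ^ j ≤ 1 := pow_le_one₀ (by norm_num) (by norm_num)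
        nlinarith
      refine (norm_of_two h5 h3).trans (le_of_eq ?_)
      ring
  rintro α ⟨j₀, n, hn, hα⟩
  set m : ℕ := 8 * n with hm
  have hm1 : 1 ≤ m := by omega
  have hmpos : (0 : ℝ) < m := by exact_mod_cast hm1
  have hc : (0 : ℝ) < 1 / (32 * m) := by positivity
  -- the first alternative is impossible
  have hI : ∀ᶠ j in atTop, ∀ k ∈ BB U (st j).n (st j).s m,
      (|k| : ℤ) ≤ ((st (j + 1)).Λ - (st j).Λ : ℤ) → ‖k • α‖ ≤ 1 / (32 * m) := by
    by_contra hcon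
    rw [Filter.not_eventually] at hcon
    -- a starting index
    obtain ⟨j₁, hj₁0, hj₁1, hj₁2⟩ : ∃ j₁ : ℕ, 1 ≤ j₁ ∧ j₀ + 1 ≤ j₁ ∧ ((1 : ℝ) / 2) ^ j₁ ≤ 1 / (2 * m) := by
      have h1 : ∀ᶠ j : ℕ in atTop, ((1 : ℝ) / 2) ^ j ≤ 1 / (2 * m) :=
        ((tendsto_pow_atTop_nhds_zero_of_lt_one (r := (1 : ℝ) / 2) (by norm_num)
          (by norm_num)).eventually (ge_mem_nhds (by positivity)))
      obtain ⟨j₁, h2, h3, h4⟩ := (h1.and ((eventually_ge_atTop 1).and
        (eventually_ge_atTop (j₀ + 1)))).exists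
      exact ⟨j₁, h3, h4, h2⟩
    have hhalf : ∀ i j : ℕ, i ≤ j → ((1 : ℝ) / 2) ^ j ≤ (1 / 2) ^ i := fun i j h =>
      pow_le_pow_of_le_one (by norm_num) (by norm_num) h
    -- small elements satisfy the hypothesis
    have key : ∀ N : ℕ, ∃ (k : ℤ) (J : ℕ) (r : ℝ), j₁ ≤ J ∧
        (∀ u ∈ U (st J).n, k + u ∈ U j₀) ∧ (|k| : ℤ) ≤ (st (J + 1)).Λ ∧
        (∀ i ≤ J, ‖k • (st i).s‖ ≤ 1 / m + (1 / 2) ^ j₁ - (1 / 2) ^ (J + 1)) ∧
        ((r : ℝ) : T) = k • α ∧ N * (1 / (32 * (m : ℝ))) ≤ r ∧ 0 ≤ r ∧ r ≤ 1 / 8 := by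
      -- the general bound for such `k`
      have hbound : ∀ (k : ℤ) (J : ℕ), j₁ ≤ J → (∀ u ∈ U (st J).n, k + u ∈ U j₀) →
          (|k| : ℤ) ≤ (st (J + 1)).Λ →
          (∀ i ≤ J, ‖k • (st i).s‖ ≤ 1 / m + (1 / 2) ^ j₁ - (1 / 2) ^ (J + 1)) →
          ‖k • α‖ ≤ 1 / 8 := by
        intro k J hJ h1 h2 h3
        apply hα k
        · have := h1 0 (D.zero _)
          rwa [add_zero] at this
        · intro i
          have hfin : 1 / (m : ℝ) + 1 / (2 * m) ≤ 1 / (4 * (n : ℝ)) := by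
            have hn0 : (0 : ℝ) < n := by exact_mod_cast hn
            have : (m : ℝ) = 8 * n := by rw [hm]; push_cast; ring
            rw [this]
            field_simp
            norm_num
          rcases le_or_gt i J with h | h
          · refine (h3 i h).trans ?_
            have : (0 : ℝ) ≤ (1 / 2) ^ (J + 1) := by positivity
            linarith
          · obtain ⟨i', rfl⟩ : ∃ i', i = i' + 1 := ⟨i - 1, by omega⟩
            have h4 : (|(k : ℝ)|) ≤ (st (i' + 1)).Λ := by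
              have h5 : (|k| : ℤ) ≤ (st (i' + 1)).Λ :=
                h2.trans (by exact_mod_cast hΛmono (J + 1) (i' + 1) (by omega))
              exact_mod_cast h5
            have h6 : ‖k • (st (i' + 1)).s‖ ≤ (1 / 2) ^ (i' + 3) := by
              refine (norm_zsmul_le _ _).trans ?_
              rw [Int.norm_eq_abs]
              refine le_trans ?_ (hR i').small'
              gcongr
            refine h6.trans ?_
            have h7 : ((1 : ℝ) / 2) ^ (i' + 3) ≤ (1 / 2) ^ j₁ := hhalf _ _ (by omega)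
            have : (0 : ℝ) ≤ 1 / m := by positivity
            linarith
      intro N
      induction N with
      | zero =>
        refine ⟨0, j₁, 0, le_rfl, fun u hu => ?_, by simp, fun i _ => ?_, by simp, by simp, le_rfl,
          by norm_num⟩
        · rw [zero_add]
          exact D.mono ((by omega : j₀ ≤ j₁).trans (hni j₁)) hu
        · rw [zero_smul, norm_zero]
          have h1 : ((1 : ℝ) / 2) ^ (j₁ + 1) ≤ (1 / 2) ^ j₁ := hhalf _ _ (by omega)
          have : (0 : ℝ) ≤ 1 / m := by positivity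
          linarith
      | succ N ih =>
        obtain ⟨k, J, r, hJ, h1, h2, h3, h4, h5, h6, h7⟩ := ih
        obtain ⟨J', hJ', hcon'⟩ := (hcon.and_eventually (eventually_gt_atTop J)).exists.imp
          fun j h => (⟨h.2, h.1⟩ : J < j ∧ _)
        push Not at hcon'
        obtain ⟨κ₀, hκ₀B, hκ₀L, hκ₀α⟩ := hcon'
        -- choose the sign
        obtain ⟨κ, y, hκB, hκL, hy1, hy2, hy3⟩ : ∃ (κ : ℤ) (y : ℝ), κ ∈ BB U (st J').n (st J').s m ∧
            (|κ| : ℤ) ≤ ((st (J' + 1)).Λ - (st J').Λ : ℤ) ∧ ((y : ℝ) : T) = κ • α ∧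
            1 / (32 * (m : ℝ)) < y ∧ y ≤ 1 / 2 := by
          obtain ⟨y, hy1, hy2, hy3⟩ := exists_rep (κ₀ • α)
          rcases le_total 0 y with hy | hy
          · refine ⟨κ₀, y, hκ₀B, hκ₀L, hy1, ?_, ?_⟩
            · rw [abs_of_nonneg hy] at hy2
              rw [hy2]
              exact hκ₀α
            · rwa [abs_of_nonneg hy] at hy3
          · refine ⟨-κ₀, -y, ⟨D.neg _ _ hκ₀B.1, ?_⟩, ?_, ?_, ?_, ?_⟩
            · rw [neg_smul, norm_neg]
              exact hκ₀B.2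
            · rw [abs_neg]
              exact hκ₀L
            · rw [AddCircle.coe_neg, hy1, neg_smul]
            · rw [abs_of_nonpos hy] at hy2
              rw [hy2]
              exact hκ₀α
            · rwa [abs_of_nonpos hy] at hy3
        have hκold : ∀ i < J', ‖κ • (st i).s‖ ≤ (1 / 2) ^ (J' + 2) := fun i hi =>
          hold i J' hi κ hκB.1
        have hκL' : (|κ| : ℤ) ≤ (st (J' + 1)).Λ := by
          have : (0 : ℤ) ≤ (st J').Λ := Int.natCast_nonneg _
          linarith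
        -- invariants for `κ` alone
        have hκ1 : ∀ u ∈ U (st J').n, κ + u ∈ U j₀ := by
          intro u hu
          have h8 : (j₀ + 1) ≤ (st J').n := (by omega : j₀ + 1 ≤ J').trans (hni J')
          exact D.add j₀ κ (D.mono h8 hκB.1) u (D.mono h8 hu)
        have hpw : ((1 : ℝ) / 2) ^ (J' + 1) = (1 / 2) ^ (J' + 2) + (1 / 2) ^ (J' + 2) := by ring
        have hpw1 : ((1 : ℝ) / 2) ^ (J' + 1) + (1 / 2) ^ (J' + 1) ≤ (1 / 2) ^ (J + 1) := by
          have h8 : ((1 : ℝ) / 2) ^ (J' + 1) + (1 / 2) ^ (J' + 1) = (1 / 2) ^ J' := by ring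
          rw [h8]
          exact hhalf _ _ (by omega)
        have hpw2 : ((1 : ℝ) / 2) ^ (J + 1) ≤ (1 / 2) ^ (j₁ + 1) := hhalf _ _ (by omega)
        have hpw3 : ((1 : ℝ) / 2) ^ (j₁ + 1) + (1 / 2) ^ (j₁ + 1) = (1 / 2) ^ j₁ := by ring
        have hpos1 : (0 : ℝ) < (1 / 2) ^ (J' + 2) := by positivity
        have hκα : ‖κ • α‖ ≤ 1 / 8 := by
          refine hbound κ J' (hJ.trans hJ'.le) hκ1 hκL' fun i hi => ?_
          rcases eq_or_lt_of_le hi with rfl | hi
          · refine hκB.2.trans ?_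
            linarith
          · refine (hκold i hi).trans ?_
            have : (0 : ℝ) ≤ 1 / m := by positivity
            linarith
        have hy4 : y ≤ 1 / 8 := by
          have hy0 : 0 ≤ y := by linarith
          rw [← hy1, norm_coe_of_le (by rw [abs_of_nonneg hy0]; exact hy3), abs_of_nonneg hy0] at hκα
          exact hκα
        -- invariants for `k + κ`
        have g1 : ∀ u ∈ U (st J').n, (k + κ) + u ∈ U j₀ := by
          intro u hu
          rw [add_assoc]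
          apply h1
          have h8 : (st J).n + 1 ≤ (st J').n := hnlt J J' hJ'
          exact D.add _ κ (D.mono h8 hκB.1) u (D.mono h8 hu)
        have g2 : (|k + κ| : ℤ) ≤ (st (J' + 1)).Λ := by
          have h8 : ((st (J + 1)).Λ : ℤ) ≤ (st J').Λ := by exact_mod_cast hΛmono (J + 1) J' hJ'
          have h9 := abs_add_le k κ
          linarith
        have g3 : ∀ i ≤ J', ‖(k + κ) • (st i).s‖ ≤ 1 / m + (1 / 2) ^ j₁ - (1 / 2) ^ (J' + 1) := by
          intro i hi
          rw [add_smul]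
          refine (norm_add_le _ _).trans ?_
          rcases le_or_gt i J with h | h
          · have h8 := h3 i h
            have h9 := hκold i (lt_of_le_of_lt h hJ')
            linarith
          · -- `k` is small against later characters
            have h8 : ‖k • (st i).s‖ ≤ (1 / 2) ^ (i + 2) := by
              obtain ⟨i', rfl⟩ : ∃ i', i = i' + 1 := ⟨i - 1, by omega⟩
              have h4 : (|(k : ℝ)|) ≤ (st (i' + 1)).Λ := by
                have h5 : (|k| : ℤ) ≤ (st (i' + 1)).Λ :=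
                  h2.trans (by exact_mod_cast hΛmono (J + 1) (i' + 1) (by omega))
                exact_mod_cast h5
              refine (norm_zsmul_le _ _).trans ?_
              rw [Int.norm_eq_abs]
              refine le_trans ?_ (hR i').small'
              gcongr
            have h9 : ((1 : ℝ) / 2) ^ (i + 2) ≤ (1 / 2) ^ (j₁ + 1) * (1 / 2) := by
              rw [← pow_succ]
              exact hhalf _ _ (by omega)
            rcases eq_or_lt_of_le hi with rfl | hi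
            · have h10 := hκB.2
              have h11 : ((1 : ℝ) / 2) ^ (i + 2) * 2 = (1 / 2) ^ (i + 1) := by ring
              linarith
            · have h10 := hκold i hi
              have h11 : (1 : ℝ) / (2 * m) ≤ 1 / m := by
                rw [div_le_div_iff₀ (by positivity) (by positivity)]
                nlinarith
              linarith
        have hsum : ‖(k + κ) • α‖ ≤ 1 / 8 := hbound (k + κ) J' (hJ.trans hJ'.le) g1 g2 g3
        have hr : ((r + y : ℝ) : T) = (k + κ) • α := by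
          rw [AddCircle.coe_add, h4, hy1, add_smul]
        have hy0 : 0 < y := lt_trans (by positivity) hy2
        refine ⟨k + κ, J', r + y, hJ.trans hJ'.le, g1, g2, g3, hr, ?_, by linarith, ?_⟩
        · push_cast
          linarith
        · rw [← hr, norm_coe_of_le (by rw [abs_of_nonneg (by linarith)]; linarith),
            abs_of_nonneg (by linarith)] at hsum
          exact hsum
    obtain ⟨N, hN⟩ := exists_nat_gt (1 / 8 / (1 / (32 * (m : ℝ))))
    obtain ⟨k, J, r, -, -, -, -, -, h5, -, h7⟩ := key N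
    rw [div_lt_iff₀ hc] at hN
    linarith
  -- the second alternative
  obtain ⟨j₂, hj₂⟩ := eventually_atTop.1 (hI.and (eventually_ge_atTop m))
  have hg : ∀ j ≥ j₂, ∃ g : T, (∀ k ∈ BB U (st j).n (st j).s m, ‖k • g‖ ≤ 1 / (32 * m)) ∧
      (∃ ℓ : ℝ, 0 < ℓ ∧ ℓ * (2 * (st (j + 1)).ρ) ≤ 1 / 16 ∧
        (∀ a : ℝ, ∃ k ∈ U (st (j + 1)).n, a ≤ (k : ℝ) ∧ (k : ℝ) ≤ a + ℓ) ∧
        ℓ * ‖(st (j + 1)).s‖ ≤ 1 / (4 * (j + 1))) ∧ ‖α - g‖ < (st (j + 1)).ρ := by
    intro j hj
    obtain ⟨h1, h2⟩ := hj₂ j hj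
    obtain ⟨ℓ, L, hℓ, hρ2, hsyn, hs, hΛ, hmain⟩ := (hR j).main
    obtain ⟨g, hg1, hg2⟩ := hmain m hm1 h2 α (fun k hk hkL => h1 k hk (by
      rw [hΛ]
      push_cast
      linarith))
    exact ⟨g, hg1, ⟨ℓ, hℓ, hρ2, hsyn, hs⟩, hg2⟩
  choose! g hg1 hℓ hg2 using hg
  have hstep : ∀ j ≥ j₂, g (j + 1) = g j := by
    intro j hj
    by_contra hne
    have hx : g (j + 1) - g j ≠ 0 := sub_ne_zero.2 hne
    have hj1 : j + 1 ≥ j₂ := Nat.le_succ_of_le hj
    have hmj : m ≤ j := (hj₂ j hj).2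
    have hmj' : (m : ℝ) ≤ j := by exact_mod_cast hmj
    obtain ⟨ℓ, hℓ0, hℓ1, hsyn, hℓ2⟩ := hℓ j hj
    -- the difference is small
    have hxs : ‖g (j + 1) - g j‖ ≤ 2 * (st (j + 1)).ρ := by
      have h1 : g (j + 1) - g j = (α - g j) - (α - g (j + 1)) := by abel
      rw [h1]
      refine (norm_sub_le _ _).trans ?_
      have h2 := hg2 j hj
      have h3 := hg2 (j + 1) hj1
      have h4 := (hR (j + 1)).ρle
      linarith
    obtain ⟨k, hkW, hk1, hk2⟩ := separation hℓ0 hsyn hm1 (hs0 (j + 1)) hx (by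
      refine hℓ2.trans ?_
      rw [div_le_div_iff₀ (by positivity) (by positivity)]
      linarith) (by
      refine le_trans ?_ hℓ1
      gcongr)
    have h1 : ‖k • g (j + 1)‖ ≤ 1 / (32 * m) := hg1 (j + 1) hj1 k ⟨hkW, hk1⟩
    have h2 : ‖k • g j‖ ≤ 1 / (32 * m) := by
      refine hg1 j hj k ⟨D.mono (hnmono j (j + 1) (Nat.le_succ j)) hkW, ?_⟩
      refine ((hR j).small k hkW).trans ?_
      rw [one_div, inv_pow, ← one_div, div_le_div_iff₀ (by positivity) (by positivity)]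
      have h3 : (m : ℝ) ≤ 2 ^ (j + 3) := by
        have h4 : j < 2 ^ j := Nat.lt_two_pow_self
        have h5 : 2 ^ j ≤ 2 ^ (j + 3) := Nat.pow_le_pow_right (by norm_num) (by omega)
        have h6 : m ≤ 2 ^ (j + 3) := by omega
        exact_mod_cast h6
      linarith
    rw [smul_sub] at hk2
    have h3 := norm_sub_le (k • g (j + 1)) (k • g j)
    have h4 : 1 / (32 * (m : ℝ)) + 1 / (32 * m) = 1 / (16 * m) := by
      field_simp
      norm_num
    linarith
  have hconst : ∀ j ≥ j₂, g j = g j₂ := by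
    intro j hj
    induction j, hj using Nat.le_induction with
    | base => rfl
    | succ j hj ih => rw [hstep j hj, ih]
  have hαg : α = g j₂ := by
    rw [← sub_eq_zero, ← norm_le_zero_iff]
    refine ge_of_tendsto (tendsto_pow_atTop_nhds_zero_of_lt_one (r := (1 : ℝ) / 2) (by norm_num)
      (by norm_num)) ?_
    filter_upwards [eventually_ge_atTop j₂] with j hj
    rw [← hconst j hj]
    exact (hg2 j hj).le.trans (hR j).ρle'
  rw [hαg]
  apply D.mem
  obtain ⟨j', hj'⟩ := D.cont (st j₂).s (hsH j₂) (1 / m) (by positivity)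
  refine ⟨max j' (st j₂).n, fun k hk => ?_⟩
  have h1 := hg1 j₂ le_rfl k ⟨D.mono (le_max_right _ _) hk, hj' k (D.mono (le_max_left _ _) hk)⟩
  refine h1.trans ?_
  rw [div_le_div_iff₀ (by positivity) (by norm_num)]
  have : (1 : ℝ) ≤ m := by exact_mod_cast hm1
  linarith

end Q182.MK2
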