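import Mathlib
import Pool.Agent.Q182.MKDefs
import Pool.Agent.Q182.MKSeq

/-!
# No metrizable precompact topology on the integers is Mackey
-/

namespace Q182.MK

open Set Filter Topology
open scoped Pointwise

lemma mem_Tplus (x : T) : x ∈ Tplus ↔ ‖x‖ ≤ 1 / 4 := by
  constructor
  · rintro ⟨y, ⟨hy1, hy2⟩, rfl⟩
    have h : |y| ≤ 1 / 4 := abs_le.2 ⟨by linarith, hy2⟩
    show ‖((y : ℝ) : T)‖ ≤ 1 / 4
    rw [norm_coe_of_le (by linarith)]
    exact h
  · intro h
    obtain ⟨y, rfl, hy, -⟩ := exists_rep x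
    rw [← hy, abs_le] at h
    exact ⟨y, ⟨by linarith [h.1], h.2⟩, rfl⟩

/-- Small multiples on a doubling sequence. -/
lemma small_iter {U : ℕ → Set ℤ} (hadd : ∀ j, ∀ k ∈ U (j + 1), k + k ∈ U j)
    (hmono : ∀ j, U (j + 1) ⊆ U j) {t : T} {j : ℕ} (h : ∀ k ∈ U j, ‖k • t‖ ≤ 1 / 4) (i : ℕ) :
    ∀ k ∈ U (j + i), ‖k • t‖ ≤ 1 / 4 * (1 / 2) ^ i := by
  induction i with
  | zero => simpa using h
  | succ i ih =>
    intro k hk
    have h1 := ih _ (hadd (j + i) k hk)
    have h2 := ih k (hmono _ hk)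
    rw [add_smul] at h1
    refine (norm_of_two (h2.trans ?_) h1).trans (le_of_eq ?_)
    · have : ((1 : ℝ) / 2) ^ i ≤ 1 := pow_le_one₀ (by norm_num) (by norm_num)
      linarith
    · ring

lemma eq_zero_of_small {t : T} (h : ∀ k : ℤ, ‖k • t‖ ≤ 1 / 4) : t = 0 := by
  have h1 : ∀ i : ℕ, ‖t‖ ≤ 1 / 4 * (1 / 2) ^ i := by
    intro i
    have := small_iter (U := fun _ => univ) (fun _ _ _ => trivial) (fun _ => Subset.refl _)
      (t := t) (j := 0) (fun k _ => h k) i 1 trivial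
    rwa [one_smul] at this
  rw [← norm_le_zero_iff]
  have h2 : Tendsto (fun i : ℕ => (1 : ℝ) / 4 * (1 / 2) ^ i) atTop (𝓝 (1 / 4 * 0)) :=
    (tendsto_pow_atTop_nhds_zero_of_lt_one (by norm_num) (by norm_num)).const_mul _
  rw [mul_zero] at h2
  exact ge_of_tendsto' h2 h1

/-- The character with value `t` at `1`. -/
noncomputable def chr (t : T) : ℤ →+ T := zmultiplesHom T t

lemma chr_apply (t : T) (k : ℤ) : chr t k = k • t := rfl

lemma chr_eq (χ : ℤ →+ T) : χ = chr (χ 1) := by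
  ext
  rw [chr_apply, one_smul]

lemma cont_add {X : Type} [TopologicalSpace X] {f g : X → T} (hf : Continuous f)
    (hg : Continuous g) : Continuous fun k => f k + g k := hf.add hg

lemma cont_neg {X : Type} [TopologicalSpace X] {f : X → T} (hf : Continuous f) :
    Continuous fun k => -f k := hf.neg

lemma first_countable {X : Type} [TopologicalSpace X] [TopologicalSpace.MetrizableSpace X] :
    FirstCountableTopology X := inferInstance

section

variable (τ : TopologicalSpace ℤ)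

lemma continuous_chr (hτ : @IsTopologicalAddGroup ℤ τ _) (t : T)
    (h : ∀ ε > 0, ∃ V ∈ @nhds ℤ τ 0, ∀ k ∈ V, ‖k • t‖ ≤ ε) : chr t ∈ chars τ := by
  show Continuous[τ, inferInstance] (chr t)
  apply @continuous_of_continuousAt_zero ℤ τ _ hτ T (ℤ →+ T) _ _ _ _ _ (chr t)
  rw [ContinuousAt, map_zero, Metric.nhds_basis_closedBall.tendsto_right_iff]
  intro ε hε
  obtain ⟨V, hV, h1⟩ := h ε hε
  filter_upwards [hV] with k hk
  rw [mem_closedBall_zero_iff, chr_apply]
  exact h1 k hk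

/-- The group of values of the continuous characters. -/
noncomputable def HH (hτ : @IsTopologicalAddGroup ℤ τ _) : AddSubgroup T where
  carrier := {t | chr t ∈ chars τ}
  zero_mem' := by
    refine continuous_chr τ hτ 0 fun ε hε => ⟨univ, univ_mem, fun k _ => ?_⟩
    rw [smul_zero, norm_zero]
    exact hε.le
  add_mem' := by
    intro a b ha hb
    have h : (chr (a + b) : ℤ → T) = fun k => chr a k + chr b k := by
      funext k
      rw [chr_apply, chr_apply, chr_apply, smul_add]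
    show Continuous[τ, inferInstance] (chr (a + b))
    rw [h]
    exact @cont_add ℤ τ _ _ ha hb
  neg_mem' := by
    intro a ha
    have h : (chr (-a) : ℤ → T) = fun k => -chr a k := by
      funext k
      rw [chr_apply, chr_apply, smul_neg]
    show Continuous[τ, inferInstance] (chr (-a))
    rw [h]
    exact @cont_neg ℤ τ _ ha

lemma mem_HH (hτ : @IsTopologicalAddGroup ℤ τ _) (t : T) : t ∈ HH τ hτ ↔ chr t ∈ chars τ := Iff.rfl

/-- Small values of a continuous character near zero. -/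
lemma small_of_mem (t : T) (ht : chr t ∈ chars τ) {ε : ℝ} (hε : 0 < ε) :
    {k : ℤ | ‖k • t‖ ≤ ε} ∈ @nhds ℤ τ 0 := by
  have hc : @ContinuousAt ℤ T τ _ (chr t) 0 :=
    @Continuous.continuousAt ℤ T τ _ (chr t) 0 ht
  have h1 : Metric.closedBall (0 : T) ε ∈ 𝓝 (chr t 0) := by
    rw [map_zero]
    exact Metric.closedBall_mem_nhds _ hε
  filter_upwards [hc h1] with k hk
  have hk' : chr t k ∈ Metric.closedBall (0 : T) ε := hk
  rw [mem_closedBall_zero_iff, chr_apply] at hk'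
  exact hk'

/-- There are small nonzero continuous characters. -/
lemma exists_small_char (hτ : IsLQC τ) (hT2 : @T2Space ℤ τ) {ε : ℝ} (hε : 0 < ε) :
    ∃ t : T, chr t ∈ chars τ ∧ t ≠ 0 ∧ ‖t‖ < ε := by
  by_contra hcon
  push Not at hcon
  obtain ⟨N, hN⟩ := exists_nat_gt (1 / ε)
  have hN0 : 0 < N := by
    have : (0 : ℝ) < N := lt_trans (by positivity) hN
    exact_mod_cast this
  -- every continuous character is killed by `N!`
  have hkill : ∀ t : T, chr t ∈ chars τ → N.factorial • t = 0 := by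
    intro t ht
    obtain ⟨j, hj, hjt⟩ := AddCircle.exists_norm_nsmul_le t hN0
    have h1 : ‖j • t‖ < ε := by
      refine lt_of_le_of_lt hjt ?_
      rw [div_lt_iff₀ (by positivity)]
      rw [div_lt_iff₀ hε] at hN
      push_cast
      nlinarith
    have h2 : j • t = 0 := by
      by_contra hne
      exact absurd h1 (not_lt.2 (hcon _ ((HH τ hτ.1).nsmul_mem ht j) hne))
    obtain ⟨c, hc⟩ := Nat.dvd_factorial (Finset.mem_Icc.1 (by simpa using hj)).1
      (Finset.mem_Icc.1 (by simpa using hj)).2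
    rw [hc, mul_comm, mul_smul, h2, smul_zero]
  have hne : (N.factorial : ℤ) ≠ 0 := by exact_mod_cast N.factorial_ne_zero
  have hnb : ({(N.factorial : ℤ)}ᶜ : Set ℤ) ∈ @nhds ℤ τ 0 := by
    apply @IsOpen.mem_nhds ℤ τ
    · exact @isOpen_compl_singleton ℤ τ (@T2Space.t1Space ℤ τ hT2) _
    · exact fun h => hne (Set.mem_singleton_iff.1 h).symm
  obtain ⟨A, -, hA, hAsub⟩ := hτ.2 _ hnb
  obtain ⟨χ, hχ, -, hχ2⟩ := hA (N.factorial : ℤ) (fun h => hAsub h rfl)
  apply hχ2
  rw [mem_Tplus, chr_eq χ, chr_apply]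
  have h3 : chr (χ 1) ∈ chars τ := by rw [← chr_eq]; exact hχ
  have h4 := hkill _ h3
  rw [natCast_zsmul, h4, norm_zero]
  norm_num

/-- The data of a metrizable precompact locally quasi-convex topology. -/
lemma exists_data (hτ : IsLQC τ) (hmet : @TopologicalSpace.MetrizableSpace ℤ τ)
    (hpre : IsPrecompact τ) : ∃ U : ℕ → Set ℤ, Data U (HH τ hτ.1) ∧
      (∀ j, U j ∈ @nhds ℤ τ 0) ∧ ∀ V ∈ @nhds ℤ τ 0, ∃ j, U j ⊆ V := by
  have hT2 : @T2Space ℤ τ := @TopologicalSpace.t2Space_of_metrizableSpace ℤ τ hmet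
  have hfc : @FirstCountableTopology ℤ τ := @first_countable ℤ τ hmet
  obtain ⟨u, hu, huadd⟩ := @IsTopologicalAddGroup.exists_antitone_basis_nhds_zero ℤ τ _ hτ.1 hfc
  have hnegc : @Tendsto ℤ ℤ (fun x => -x) (@nhds ℤ τ 0) (@nhds ℤ τ 0) := by
    have h1 : @Continuous ℤ ℤ τ τ (fun x => -x) :=
      @ContinuousNeg.continuous_neg ℤ τ _ hτ.1.toContinuousNeg
    have h2 := @Continuous.tendsto ℤ ℤ τ τ _ h1 0
    simpa using h2
  have hmem : ∀ j, u j ∈ @nhds ℤ τ 0 := fun j => hu.1.mem_of_mem trivial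
  let U : ℕ → Set ℤ := fun j => {k | k ∈ u j ∧ -k ∈ u j}
  have hUmem : ∀ j, U j ∈ @nhds ℤ τ 0 := fun j => inter_mem (hmem j) (hnegc (hmem j))
  have hUbase : ∀ V ∈ @nhds ℤ τ 0, ∃ j, U j ⊆ V := by
    intro V hV
    obtain ⟨j, -, hj⟩ := hu.1.mem_iff.1 hV
    exact ⟨j, fun k hk => hj hk.1⟩
  have hUadd : ∀ j, ∀ a ∈ U (j + 1), ∀ b ∈ U (j + 1), a + b ∈ U j := by
    intro j a ha b hb
    refine ⟨huadd j (Set.add_mem_add ha.1 hb.1), ?_⟩
    rw [neg_add]
    exact huadd j (Set.add_mem_add ha.2 hb.2)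
  have hUzero : ∀ j, (0 : ℤ) ∈ U j := fun j => @mem_of_mem_nhds ℤ τ 0 _ (hUmem j)
  refine ⟨U, ⟨hUzero, ?_, hUadd, ?_, ?_, ?_, ?_⟩, hUmem, hUbase⟩
  · intro j k hk
    exact ⟨hk.2, by rw [neg_neg]; exact hk.1⟩
  · intro j
    obtain ⟨F, hF, hFU⟩ := hpre _ (hUmem j)
    obtain ⟨M, hM⟩ : ∃ M : ℕ, ∀ f ∈ F, |f| ≤ (M : ℤ) := by
      refine ⟨hF.toFinset.sup fun f => f.natAbs, fun f hf => ?_⟩
      have h1 := Finset.le_sup (f := fun f : ℤ => f.natAbs) (hF.mem_toFinset.2 hf)
      rw [← Int.natCast_natAbs]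
      exact_mod_cast h1
    refine ⟨2 * M + 1, by positivity, fun a => ?_⟩
    have h1 : ⌈a⌉ + M ∈ F + U j := by rw [hFU]; trivial
    obtain ⟨f, hf, v, hv, hfv⟩ := Set.mem_add.1 h1
    have h2 := abs_le.1 (hM f hf)
    have h3 : (f : ℝ) + v = ⌈a⌉ + M := by exact_mod_cast hfv
    have h4 : (-(M : ℝ)) ≤ f := by exact_mod_cast h2.1
    have h5 : (f : ℝ) ≤ M := by exact_mod_cast h2.2
    have h6 := Int.le_ceil a
    have h7 := Int.ceil_lt_add_one a
    exact ⟨v, hv, by linarith, by linarith⟩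
  · intro t ht ε hε
    obtain ⟨j, hj⟩ := hUbase _ (small_of_mem τ t ht hε)
    exact ⟨j, fun k hk => hj hk⟩
  · rintro t ⟨j, hj⟩
    refine continuous_chr τ hτ.1 t fun ε hε => ?_
    have h1 : Tendsto (fun i : ℕ => (1 : ℝ) / 4 * (1 / 2) ^ i) atTop (𝓝 (1 / 4 * 0)) :=
      (tendsto_pow_atTop_nhds_zero_of_lt_one (by norm_num) (by norm_num)).const_mul _
    rw [mul_zero] at h1
    obtain ⟨i, hi⟩ := (h1.eventually (ge_mem_nhds hε)).exists
    refine ⟨U (j + i), hUmem _, fun k hk => ?_⟩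
    refine (small_iter (U := U) (fun j k hk => hUadd j k hk k hk) (fun j k hk => ?_) (j := j)
      (fun k hk => (hj k hk).trans (by norm_num)) i k hk).trans hi
    have := hUadd j k hk 0 (hUzero _)
    rwa [add_zero] at this
  · intro ε hε
    exact exists_small_char τ hτ hT2 hε

/-- The homomorphism defining the topology of uniform convergence on the sequence. -/
noncomputable def unif (s : ℕ → T) : ℤ →+ UniformFun ℕ T where
  toFun k := UniformFun.ofFun fun i => k • s i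
  map_zero' := by
    show UniformFun.ofFun (fun i => (0 : ℤ) • s i) = UniformFun.ofFun fun _ => 0
    congr 1
    funext i
    rw [zero_smul]
  map_add' a b := by
    show UniformFun.ofFun (fun i => (a + b) • s i) = UniformFun.ofFun fun i => a • s i + b • s i
    congr 1
    funext i
    rw [add_smul]

/-- The topology of uniform convergence on the sequence. -/
@[implicit_reducible] noncomputable def utop (s : ℕ → T) : TopologicalSpace ℤ :=
  TopologicalSpace.induced (unif s) inferInstance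

lemma utop_group (s : ℕ → T) : @IsTopologicalAddGroup ℤ (utop s) _ := topologicalAddGroup_induced (unif s)

lemma utop_basis (s : ℕ → T) : (@nhds ℤ (utop s) 0).HasBasis (fun ε : ℝ => 0 < ε)
    (fun ε => {k : ℤ | ∀ i, ‖k • s i‖ < ε}) := by
  have h1 : @nhds ℤ (utop s) 0 = comap (unif s) (𝓝 0) := by
    have := nhds_induced (unif s) 0
    rw [map_zero] at this
    exact this
  rw [h1]
  have h2 : (𝓝 (0 : UniformFun ℕ T)).HasBasis (fun ε : ℝ => 0 < ε)
      (fun ε => {f | ∀ i, UniformFun.toFun f i ∈ Metric.ball (0 : T) ε}) :=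
    UniformFun.hasBasis_nhds_zero_of_basis Metric.nhds_basis_ball
  refine (h2.comap (unif s)).congr (fun _ => Iff.rfl) fun ε _ => ?_
  ext k
  refine forall_congr' fun i => ?_
  show k • s i ∈ Metric.ball (0 : T) ε ↔ _
  rw [mem_ball_zero_iff]

/-- The main construction. -/
theorem exists_compatible (hτ : IsLQC τ) (hmet : @TopologicalSpace.MetrizableSpace ℤ τ)
    (hpre : IsPrecompact τ) : ∃ σ : TopologicalSpace ℤ, IsLQC σ ∧ @T2Space ℤ σ ∧
      chars σ = chars τ ∧ ¬ τ ≤ σ := by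
  have hT2 : @T2Space ℤ τ := @TopologicalSpace.t2Space_of_metrizableSpace ℤ τ hmet
  obtain ⟨U, D, hUmem, hUbase⟩ := exists_data τ hτ hmet hpre
  obtain ⟨s, hsH, hs0, hslim, hcore⟩ := core D
  let σ : TopologicalSpace ℤ := τ ⊓ utop s
  have hσg : @IsTopologicalAddGroup ℤ σ _ := topologicalAddGroup_inf hτ.1 (utop_group s)
  have hnh : @nhds ℤ σ 0 = @nhds ℤ τ 0 ⊓ @nhds ℤ (utop s) 0 :=
    @nhds_inf ℤ τ (utop s) 0
  have hσn : ∀ V : Set ℤ, V ∈ @nhds ℤ σ 0 ↔ ∃ j, ∃ ε > 0, ∀ k ∈ U j, (∀ i, ‖k • s i‖ < ε) → k ∈ V := by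
    intro V
    rw [hnh, mem_inf_iff]
    constructor
    · rintro ⟨V1, hV1, V2, hV2, rfl⟩
      obtain ⟨j, hj⟩ := hUbase V1 hV1
      obtain ⟨ε, hε, hε2⟩ := (utop_basis s).mem_iff.1 hV2
      exact ⟨j, ε, hε, fun k hk hk2 => ⟨hj hk, hε2 hk2⟩⟩
    · rintro ⟨j, ε, hε, h⟩
      refine ⟨U j ∪ V, mem_of_superset (hUmem j) subset_union_left,
        {k : ℤ | ∀ i, ‖k • s i‖ < ε} ∪ V,
        mem_of_superset ((utop_basis s).mem_of_mem hε) subset_union_left, ?_⟩
      ext k
      constructor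
      · intro hk
        exact ⟨Or.inr hk, Or.inr hk⟩
      · rintro ⟨h1 | h1, h2 | h2⟩
        · exact h k h1 h2
        · exact h2
        · exact h1
        · exact h1
  have hle : σ ≤ τ := inf_le_left
  have hexn : ∀ ε > (0 : ℝ), ∃ n : ℕ, 1 ≤ n ∧ 1 / (4 * (n : ℝ)) < ε := by
    intro ε hε
    obtain ⟨n, hn⟩ := exists_nat_gt (1 / ε)
    have hn0 : (0 : ℝ) < n := lt_trans (by positivity) hn
    refine ⟨n, by exact_mod_cast hn0, ?_⟩
    rw [div_lt_iff₀ (by positivity)]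
    rw [div_lt_iff₀ hε] at hn
    nlinarith
  have hchars : chars σ = chars τ := by
    apply Subset.antisymm
    · intro χ hχ
      rw [chr_eq χ]
      have hχ' : chr (χ 1) ∈ chars σ := by rw [← chr_eq]; exact hχ
      have h1 := small_of_mem σ (χ 1) hχ' (ε := 1 / 8) (by norm_num)
      obtain ⟨j, ε, hε, h2⟩ := (hσn _).1 h1
      obtain ⟨n, hn1, hn2⟩ := hexn ε hε
      have h3 : χ 1 ∈ HH τ hτ.1 := hcore (χ 1) ⟨j, n, hn1, fun k hk hks =>
        h2 k hk fun i => (hks i).trans_lt hn2⟩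
      exact h3
    · intro χ hχ
      exact continuous_le_dom hle hχ
  refine ⟨σ, ⟨hσg, fun V hV => ?_⟩, t2Space_antitone hle hT2, hchars, fun hcon => ?_⟩
  · -- local quasi-convexity
    obtain ⟨j, ε, hε, h1⟩ := (hσn V).1 hV
    obtain ⟨n, hn1, hn2⟩ := hexn ε hε
    have hn0 : (0 : ℝ) < n := by exact_mod_cast hn1
    obtain ⟨A, hA, hAq, hAU⟩ := hτ.2 _ (hUmem j)
    obtain ⟨j', hj'⟩ := hUbase A hA
    refine ⟨A ∩ {k : ℤ | ∀ i, ‖k • s i‖ ≤ 1 / (4 * (n : ℝ))}, (hσn _).2 ⟨j', 1 / (4 * (n : ℝ)),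
      by positivity, fun k hk hks => ⟨hj' hk, fun i => (hks i).le⟩⟩, ?_, fun k hk =>
      h1 k (hAU hk.1) fun i => (hk.2 i).trans_lt hn2⟩
    intro x hx
    by_cases hxA : x ∈ A
    · have h2 : ∃ i, 1 / (4 * (n : ℝ)) < ‖x • s i‖ := by
        by_contra hcon
        push Not at hcon
        exact hx ⟨hxA, hcon⟩
      obtain ⟨i, hi⟩ := h2
      -- the least multiple leaving the quarter
      have hex : ∃ l : ℕ, 1 / 4 < (l : ℝ) * ‖x • s i‖ := by
        refine ⟨n, ?_⟩
        rw [div_lt_iff₀ (by positivity)] at hi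
        linarith
      set l := Nat.find hex with hl
      have hl1 : 1 / 4 < (l : ℝ) * ‖x • s i‖ := Nat.find_spec hex
      have hln : l ≤ n := Nat.find_min' hex (by
        rw [div_lt_iff₀ (by positivity)] at hi
        linarith)
      have hl0 : l ≠ 0 := by
        rintro h0
        rw [h0] at hl1
        norm_num at hl1
      have hl2 : ((l - 1 : ℕ) : ℝ) * ‖x • s i‖ ≤ 1 / 4 := by
        by_contra hcon
        rw [not_le] at hcon
        exact Nat.find_min hex (m := l - 1) (by omega) hcon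
      have hlx : 1 / 4 < ‖x • ((l : ℤ) • s i)‖ := by
        obtain ⟨y, hy1, hy2, hy3⟩ := exists_rep (x • s i)
        rw [smul_comm, ← hy1, zsmul_coe]
        rw [← hy2] at hl1 hl2
        have hlcast : ((l - 1 : ℕ) : ℝ) = (l : ℝ) - 1 := by
          rw [Nat.cast_sub (by omega)]
          norm_num
        rw [hlcast] at hl2
        push_cast
        by_cases hl3 : (l : ℝ) * |y| ≤ 1 / 2
        · rw [norm_coe_of_le (by rw [abs_mul, Nat.abs_cast]; exact hl3), abs_mul, Nat.abs_cast]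
          exact hl1
        · -- then `l = 1`
          exfalso
          have hl4 : l ≠ 1 := by
            rintro h1'
            rw [h1'] at hl3
            push_cast at hl3
            linarith
          have hl5 : (2 : ℝ) ≤ l := by
            have : 2 ≤ l := by omega
            exact_mod_cast this
          have hy0 : 0 ≤ |y| := abs_nonneg y
          nlinarith
      refine ⟨chr ((l : ℤ) • s i), ?_, fun a ha => ?_, ?_⟩
      · rw [hchars]
        exact (HH τ hτ.1).zsmul_mem (hsH i) _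
      · rw [mem_Tplus, chr_apply, smul_comm]
        refine (norm_zsmul_le _ _).trans ?_
        have h3 := ha.2 i
        have h4 : ‖((l : ℤ))‖ ≤ n := by
          rw [Int.norm_natCast]
          exact_mod_cast hln
        calc ‖((l : ℤ))‖ * ‖a • s i‖ ≤ n * (1 / (4 * (n : ℝ))) := by gcongr
          _ = 1 / 4 := by field_simp
      · rw [mem_Tplus, chr_apply, not_le]
        exact hlx
    · obtain ⟨χ, hχ, h2, h3⟩ := hAq x hxA
      exact ⟨χ, by rw [hchars]; exact hχ, fun a ha => h2 a ha.1, h3⟩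
  · -- not coarser
    have hQ : {k : ℤ | ∀ i, ‖k • s i‖ < 1 / 8} ∈ @nhds ℤ σ 0 :=
      (hσn _).2 ⟨0, 1 / 8, by norm_num, fun k _ hk => hk⟩
    have hQτ : {k : ℤ | ∀ i, ‖k • s i‖ < 1 / 8} ∈ @nhds ℤ τ 0 := (nhds_mono hcon) hQ
    obtain ⟨F, hF, hFQ⟩ := hpre _ hQτ
    have h1 : ∀ᶠ i in atTop, ∀ f ∈ hF.toFinset, ‖f • s i‖ ≤ 1 / 8 := by
      rw [Filter.eventually_all_finset]
      intro f _
      have h2 : Tendsto (fun i => f • s i) atTop (𝓝 (f • (0 : T))) := hslim.const_smul f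
      rw [smul_zero] at h2
      have h3 := h2.norm
      rw [norm_zero] at h3
      exact h3.eventually (ge_mem_nhds (by norm_num))
    obtain ⟨i, hi⟩ := h1.exists
    apply hs0 i
    apply eq_zero_of_small
    intro k
    have h2 : k ∈ F + {k : ℤ | ∀ i, ‖k • s i‖ < 1 / 8} := by rw [hFQ]; trivial
    obtain ⟨f, hf, v, hv, rfl⟩ := Set.mem_add.1 h2
    rw [add_smul]
    refine (norm_add_le _ _).trans ?_
    have h3 := hi f (hF.mem_toFinset.2 hf)
    have h4 := hv i
    linarith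

end

end Q182.MK
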