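import Pool.Agent.Q256.MP.Stm2

/-!
# JOB NZP (project MP of helper256)

A system of forms without common zeros: a polynomial in the coefficients, not zero at this system,
all nonzeros of which are systems without common zeros.
-/

set_option autoImplicit false

noncomputable section

namespace Pool.Agent.Q182.MPNZP

open Pool.Agent.W276.GE Pool.Agent.Q256.MP

/-- Among the rows of a spanning family one can choose a nonsingular square matrix. -/
lemma exists_rows {ι E : Type} [Fintype E] [DecidableEq E] (v : ι → E → ℝ)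
    (hv : Submodule.span ℝ (Set.range v) = ⊤) :
    ∃ r : E → ι, (Matrix.of fun α β => v (r α) β : Matrix E E ℝ).det ≠ 0 := by
  obtain ⟨κ, a, ha, hsp, hli⟩ := exists_linearIndependent' ℝ v
  have hfin : Finite κ := hli.finite
  have : Fintype κ := Fintype.ofFinite κ
  have hb : ⊤ ≤ Submodule.span ℝ (Set.range (v ∘ a)) := by rw [hsp, hv]
  let b := Module.Basis.mk hli hb
  have hcard : Fintype.card κ = Fintype.card E := by
    rw [← Module.finrank_eq_card_basis b, Module.finrank_fintype_fun_eq_card]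
  let e : E ≃ κ := (Fintype.equivOfCardEq hcard).symm
  refine ⟨fun α => a (e α), ?_⟩
  have hli2 : LinearIndependent ℝ (Matrix.of fun α β => v (a (e α)) β : Matrix E E ℝ).row := by
    have := hli.comp e e.injective
    exact this
  rw [Matrix.linearIndependent_rows_iff_isUnit, Matrix.isUnit_iff_isUnit_det] at hli2
  exact hli2.ne_zero

variable {N d t : ℕ}

/-- the coefficient of `F_j x ^ γ` at `β` for indeterminate coefficients -/
def en (t : ℕ) (r : Fin (N + 1) × E (N + 1) (t - d)) (β : E (N + 1) t) :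
    MvPolynomial (Fin (N + 1) × E (N + 1) d) ℤ :=
  if ∀ i, r.2.1 i ≤ β.1 i then
    if h : (fun i => β.1 i - r.2.1 i) ∈ Finset.Nat.antidiagonalTuple (N + 1) d then
      MvPolynomial.X (r.1, ⟨_, h⟩) else 0
  else 0

lemma eval_en (F : Sy N d) (r : Fin (N + 1) × E (N + 1) (t - d)) (β : E (N + 1) t) :
    MvPolynomial.eval (fun x : Fin (N + 1) × E (N + 1) d => F x.1 x.2) (en t r β) =
      sh (F r.1) r.2 β := by
  unfold en sh co
  split_ifs <;> simp

/-- the determinant for indeterminate coefficients -/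
def pol (t : ℕ) (r : E (N + 1) t → Fin (N + 1) × E (N + 1) (t - d)) :
    MvPolynomial (Fin (N + 1) × E (N + 1) d) ℤ :=
  (Matrix.of fun α β => en t (r α) β).det

lemma eval_pol (F : Sy N d) (r : E (N + 1) t → Fin (N + 1) × E (N + 1) (t - d)) :
    MvPolynomial.eval (fun x : Fin (N + 1) × E (N + 1) d => F x.1 x.2) (pol t r) =
      (Matrix.of fun α β => sh (F (r α).1) (r α).2 β : Matrix (E (N + 1) t) (E (N + 1) t) ℤ).det := by
  unfold pol
  rw [RingHom.map_det]
  congr 1
  ext α β
  rw [RingHom.mapMatrix_apply, Matrix.map_apply, Matrix.of_apply, Matrix.of_apply]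
  exact eval_en F (r α) β

lemma noZero_of_det (hd : 1 ≤ d) (hdt : d ≤ t) (F : Sy N d)
    (r : E (N + 1) t → Fin (N + 1) × E (N + 1) (t - d))
    (hdet : (Matrix.of fun α β => sh (F (r α).1) (r α).2 β :
      Matrix (E (N + 1) t) (E (N + 1) t) ℤ).det ≠ 0) : NoZero F := by
  intro x hx
  set A : Matrix (E (N + 1) t) (E (N + 1) t) ℤ :=
    Matrix.of fun α β => sh (F (r α).1) (r α).2 β with hA
  have hdet' : ((Int.castRingHom ℂ).mapMatrix A).det ≠ 0 := by
    rw [← RingHom.map_det]
    simpa using hdet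
  have hv : ((Int.castRingHom ℂ).mapMatrix A).mulVec
      (fun β : E (N + 1) t => ∏ i, x i ^ β.1 i) = 0 := by
    funext α
    rw [Matrix.mulVec, dotProduct]
    have h3 := ev_sh (t := t) (show t - d + d = t by omega) (F (r α).1) (r α).2 x
    rw [hx, mul_zero] at h3
    rw [Pi.zero_apply, ← h3]
    rfl
  have h0 := Matrix.eq_zero_of_mulVec_eq_zero hdet' hv
  funext i
  have h4 := congrFun h0 (Pool.Agent.W376.GE.pw t i)
  simp only [Pi.zero_apply, Pool.Agent.W376.GE.pw_val] at h4
  rw [Finset.prod_eq_zero_iff] at h4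
  obtain ⟨k, -, hk⟩ := h4
  by_cases hki : k = i
  · subst hki
    rw [Pi.single_eq_same] at hk
    exact (pow_eq_zero_iff (by omega)).1 hk
  · rw [Pi.single_eq_of_ne hki, pow_zero] at hk
    exact absurd hk one_ne_zero

theorem nzp : S_nzp := by
  intro N d F₀ hd hF₀
  set t := (N + 1) * (d - 1) + 1 with ht
  have hdt : d ≤ t := by
    have : 1 * (d - 1) ≤ (N + 1) * (d - 1) := Nat.mul_le_mul_right _ (by omega)
    omega
  have hS : Spans F₀ t := Pool.Agent.W405.GE.span_of_mac
    (Pool.Agent.W216.GE.mac Pool.Agent.W85.GE.perm Pool.Agent.W333.GELin.lin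
      Pool.Agent.W366.GE.hyp) (N + 1) d (by omega) hd F₀ hF₀ t le_rfl
  have hspan : Submodule.span ℝ (Set.range fun (x : Fin (N + 1) × E (N + 1) (t - d))
      (α : E (N + 1) t) => (sh (F₀ x.1) x.2 α : ℝ)) = ⊤ := by
    rw [eq_top_iff]
    intro w _
    obtain ⟨θ, hθ⟩ := hS w
    have hw : w = ∑ x : Fin (N + 1) × E (N + 1) (t - d), θ x.1 x.2 •
        fun α : E (N + 1) t => (sh (F₀ x.1) x.2 α : ℝ) := by
      funext α
      rw [hθ α, Finset.sum_apply, Fintype.sum_prod_type]
      rfl
    rw [hw]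
    exact Submodule.sum_mem _ fun x _ => Submodule.smul_mem _ _ (Submodule.subset_span ⟨x, rfl⟩)
  obtain ⟨r, hr⟩ := exists_rows _ hspan
  refine ⟨pol t r, ?_, fun F hF => ?_⟩
  · rw [eval_pol]
    intro h
    apply hr
    have h2 := congrArg (Int.castRingHom ℝ) h
    rw [RingHom.map_det, map_zero] at h2
    exact h2
  · rw [eval_pol] at hF
    exact noZero_of_det hd hdt F r hF

end Pool.Agent.Q182.MPNZP
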