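import Pool.Agent.Q256.MP.Stm2

/-!
# JOB PLIM (project MP of helper256)

The number of endomorphisms whose small points are `m` given points, on which they act by a given map,
divided by `H ^ (Q - m N)`, converges.
-/

set_option autoImplicit false

open Height NumberField Filter Topology
open scoped LinearAlgebra.Projectivization

noncomputable section

namespace Pool.Agent.Q182.MPPLIM

open Pool.Agent.W276.GE Pool.Agent.Q256.MP

lemma gr_mono {n d : ℕ} {θ θ₀ : ℝ} (h : θ ≤ θ₀) (H : ℕ) (F : Fin n → E n d → ℤ) (K : Type)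
    [Field K] [NumberField K] (P : Fin n → K) (hG : Gr θ₀ H F K P) : Gr θ H F K P := by
  obtain ⟨k₀, hk⟩ := hG
  refine ⟨k₀, fun k hk' => le_trans ?_ (hk k hk')⟩
  have h1 : 0 ≤ Real.log H := Real.log_natCast_nonneg H
  gcongr

lemma many_of_inj {N D k : ℕ}
    {Φ : ∀ (K : Type) [Field K] [NumberField K], (Fin (N + 1) → K) → Prop}
    (p : Fin k → Pt N) (hp : Function.Injective p) (h : ∀ i, p i ∈ Rp N D Φ) :
    Many (N + 1) D k Φ := by
  choose z hz hpz hr using h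
  refine ⟨z, ⟨hz, fun i j hij c hc => hij (hp ?_)⟩, hr⟩
  rw [hpz i, hpz j, Projectivization.mk_eq_mk_iff']
  exact ⟨c, hc.symm⟩

lemma rp_mono {N D : ℕ}
    {Φ Ψ : ∀ (K : Type) [Field K] [NumberField K], (Fin (N + 1) → K) → Prop}
    (h : ∀ (K : Type) [Field K] [NumberField K] (P : Fin (N + 1) → K), Φ K P → Ψ K P)
    {p : Pt N} (hp : p ∈ Rp N D Φ) : p ∈ Rp N D Ψ := by
  obtain ⟨z, hz, hpz, K, i1, i2, φ, P, hD, hP, hΦ, hzP⟩ := hp
  exact ⟨z, hz, hpz, K, i1, i2, φ, P, hD, hP, h K P hΦ, hzP⟩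

lemma fm_smul {n d : ℕ} (F : Fin n → E n d → ℤ) (c : ℂ) (x : Fin n → ℂ) :
    fm F ℂ (c • x) = c ^ d • fm F ℂ x := by
  funext i
  exact ev_smul c (F i) x

lemma fm_map {n d : ℕ} (F : Fin n → E n d → ℤ) (K : Type) [Field K] (φ : K →+* ℂ)
    (P : Fin n → K) : (fun i => φ (fm F K P i)) = fm F ℂ (fun i => φ (P i)) := by
  funext i
  exact ev_map φ (F i) P

lemma orbit {N d m : ℕ} (F : Sy N d) (hF : NoZero F) (σ : Fin m → Fin m) (p : Fin m → Pt N)
    (h : ∀ i, Im F (p i) (p (σ i))) (i : Fin m) (K : Type) [Field K] (φ : K →+* ℂ)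
    (P : Fin (N + 1) → K) (c₀ : ℂ) (hc₀ : c₀ ≠ 0)
    (hP : (fun j => φ (P j)) = c₀ • (p i).rep) (k : ℕ) :
    ∃ c : ℂ, c ≠ 0 ∧ (fun j => φ ((fm F K)^[k] P j)) = c • (p (σ^[k] i)).rep := by
  induction k with
  | zero => exact ⟨c₀, hc₀, hP⟩
  | succ k ih =>
    obtain ⟨c, hc, hk⟩ := ih
    obtain ⟨a, ha⟩ := h (σ^[k] i)
    refine ⟨c ^ d * a, mul_ne_zero (pow_ne_zero _ hc) ?_, ?_⟩
    · rintro rfl
      exact (p (σ^[k] i)).rep_nonzero (hF _ fun j => by rw [ha j, zero_mul])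
    · rw [Function.iterate_succ_apply', Function.iterate_succ_apply', fm_map, hk, fm_smul]
      funext j
      change c ^ d * ev (F j) (p (σ^[k] i)).rep = (c ^ d * a) * (p (σ (σ^[k] i))).rep j
      rw [ha j, mul_assoc]

lemma pp_of_im {N d m : ℕ} (F : Sy N d) (hF : NoZero F) (σ : Fin m → Fin m) (p : Fin m → Pt N)
    (h : ∀ i, Im F (p i) (p (σ i))) (i : Fin m) (K : Type) [Field K] (φ : K →+* ℂ)
    (P : Fin (N + 1) → K) (c₀ : ℂ) (hc₀ : c₀ ≠ 0)
    (hP : (fun j => φ (P j)) = c₀ • (p i).rep) : Pp F K P := by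
  obtain ⟨k, l, hkl, he⟩ := Finite.exists_ne_map_eq_of_infinite (fun k : ℕ => σ^[k] i)
  wlog hlt : k < l generalizing k l
  · exact this l k hkl.symm he.symm (by omega)
  obtain ⟨a, ha, hak⟩ := orbit F hF σ p h i K φ P c₀ hc₀ hP k
  obtain ⟨b, hb, hbl⟩ := orbit F hF σ p h i K φ P c₀ hc₀ hP l
  rw [← he] at hbl
  obtain ⟨j, hj⟩ : ∃ j, (p (σ^[k] i)).rep j ≠ 0 := by
    by_contra hn
    push Not at hn
    exact (p (σ^[k] i)).rep_nonzero (funext hn)
  have hk1 : ∀ j, φ ((fm F K)^[k] P j) = a * (p (σ^[k] i)).rep j := fun j => congrFun hak j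
  have hl1 : ∀ j, φ ((fm F K)^[l] P j) = b * (p (σ^[k] i)).rep j := fun j => congrFun hbl j
  have hkj : φ ((fm F K)^[k] P j) ≠ 0 := by
    rw [hk1 j]
    exact mul_ne_zero ha hj
  have hc : φ ((fm F K)^[l] P j / (fm F K)^[k] P j) = b / a := by
    rw [map_div₀, hk1, hl1]
    field_simp
  refine ⟨k, l, hlt, (fm F K)^[l] P j / (fm F K)^[k] P j, ?_, ?_⟩
  · intro h0
    rw [h0, map_zero] at hc
    exact div_ne_zero hb ha hc.symm
  · funext j'
    apply φ.injective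
    rw [Pi.smul_apply, smul_eq_mul, map_mul, hc, hk1, hl1]
    field_simp

lemma small_of_im {N D d m H : ℕ} {θ : ℝ} (F : Sy N d) (hF : NoZero F) (σ : Fin m → Fin m)
    (p : Fin m → Pt N) (h : ∀ i, Im F (p i) (p (σ i)))
    (hp : ∀ i, p i ∈ Rp N D (fun _ _ _ _ => True)) (i : Fin m) : p i ∈ Sm N D θ H F := by
  obtain ⟨z, hz, hpz, K, i1, i2, φ, P, hD, hP, -, hzP⟩ := hp i
  refine ⟨z, hz, hpz, K, i1, i2, φ, P, hD, hP, Or.inl ?_, hzP⟩
  have h1 : Projectivization.mk ℂ z hz = Projectivization.mk ℂ (p i).rep (p i).rep_nonzero := by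
    rw [Projectivization.mk_rep, hpz]
  obtain ⟨c, hc⟩ := (Projectivization.mk_eq_mk_iff ℂ _ _ _ _).1 h1
  refine pp_of_im F hF σ p h i K φ P (c : ℂ) c.ne_zero ?_
  rw [← hzP, ← hc]
  rfl

lemma many_of_ne {N D d m H : ℕ} {θ θ₀ : ℝ} (hθ : θ ≤ θ₀) (F : Sy N d) (hF : NoZero F)
    (σ : Fin m → Fin m) (p : Fin m → Pt N) (hinj : Function.Injective p)
    (h : ∀ i, Im F (p i) (p (σ i)))
    (hp : ∀ i, p i ∈ Rp N D (fun _ _ _ _ => True)) (hne : Sm N D θ H F ≠ Set.range p) :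
    Many (N + 1) D (m + 1) (fun K _ _ P => Pp F K P ∨ ¬ Gr θ₀ H F K P) := by
  have hsub : Set.range p ⊆ Sm N D θ H F := by
    rintro _ ⟨i, rfl⟩
    exact small_of_im F hF σ p h hp i
  obtain ⟨q, hq, hqn⟩ : ∃ q ∈ Sm N D θ H F, q ∉ Set.range p := by
    by_contra hn
    push Not at hn
    exact hne (Set.Subset.antisymm (fun x hx => hn x hx) hsub)
  have hmono : ∀ x ∈ Sm N D θ H F,
      x ∈ Rp N D (fun K _ _ P => Pp F K P ∨ ¬ Gr θ₀ H F K P) := by
    intro x hx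
    refine rp_mono ?_ hx
    intro K _ _ P hP
    rcases hP with h1 | h1
    · exact Or.inl h1
    · exact Or.inr fun h2 => h1 (gr_mono hθ H F K P h2)
  refine many_of_inj (Fin.cons q p) ?_ ?_
  · rw [Fin.cons_injective_iff]
    exact ⟨hqn, hinj⟩
  · intro i
    refine Fin.cases ?_ (fun j => ?_) i
    · rw [Fin.cons_zero]
      exact hmono q hq
    · rw [Fin.cons_succ]
      exact hmono _ (hsub ⟨j, rfl⟩)

lemma le_choose (N d : ℕ) : d + 1 ≤ (N + 1 + d).choose (N + 1) := by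
  induction N with
  | zero =>
    rw [Nat.choose_one_right]
    omega
  | succ N ih =>
    have h : N + 1 + 1 + d = (N + 1 + d) + 1 := by ring
    rw [h, Nat.choose_succ_succ]
    exact ih.trans (Nat.le_add_right _ _)

lemma m_le {N d m : ℕ} (hN : 1 ≤ N) (hm : m ≤ d + 1) : m ≤ MM N d := by
  obtain ⟨N, rfl⟩ : ∃ k, N = k + 1 := ⟨N - 1, by omega⟩
  change m ≤ Fintype.card (E (N + 1 + 1) d)
  rw [card_E]
  exact hm.trans (le_choose N d)

lemma squeeze {a b u : ℕ → ℝ} {v C : ℝ} {e e' N : ℕ} (hN : 1 ≤ N) (he : e' + N = e)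
    (hab : ∀ H, 1 ≤ H → a H ≤ b H) (hba : ∀ H, 1 ≤ H → b H ≤ a H + u H)
    (hu : ∀ H : ℕ, 1 ≤ H → u H ≤ C * (H : ℝ) ^ e')
    (hb : Tendsto (fun H : ℕ => b H / (H : ℝ) ^ e) atTop (𝓝 v)) :
    Tendsto (fun H : ℕ => a H / (H : ℝ) ^ e) atTop (𝓝 v) := by
  have h0 : Tendsto (fun H : ℕ => C * (1 / (H : ℝ))) atTop (𝓝 0) := by
    have := (tendsto_one_div_atTop_nhds_zero_nat (𝕜 := ℝ)).const_mul C
    simpa using this
  have hlow : Tendsto (fun H : ℕ => b H / (H : ℝ) ^ e - |C| * (1 / (H : ℝ))) atTop (𝓝 v) := by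
    have h1 := (tendsto_one_div_atTop_nhds_zero_nat (𝕜 := ℝ)).const_mul |C|
    have h2 := hb.sub h1
    simpa using h2
  refine tendsto_of_tendsto_of_tendsto_of_le_of_le' hlow hb ?_ ?_
  · filter_upwards [eventually_ge_atTop 1] with H hH
    have hH0 : (0 : ℝ) < (H : ℝ) := by exact_mod_cast hH
    have hH1 : (1 : ℝ) ≤ (H : ℝ) := by exact_mod_cast hH
    have h1 := hba H hH
    have h2 := hu H hH
    have h3 : u H / (H : ℝ) ^ e ≤ |C| * (1 / (H : ℝ)) := by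
      have h4 : u H ≤ |C| * (H : ℝ) ^ e' :=
        h2.trans (mul_le_mul_of_nonneg_right (le_abs_self C) (by positivity))
      rw [div_le_iff₀ (by positivity), ← he, pow_add]
      have h5 : (H : ℝ) ≤ (H : ℝ) ^ N := by
        calc (H : ℝ) = (H : ℝ) ^ 1 := (pow_one _).symm
          _ ≤ (H : ℝ) ^ N := pow_le_pow_right₀ hH1 hN
      calc u H ≤ |C| * (H : ℝ) ^ e' := h4
        _ = |C| * (1 / (H : ℝ)) * ((H : ℝ) ^ e' * H) := by field_simp
        _ ≤ |C| * (1 / (H : ℝ)) * ((H : ℝ) ^ e' * (H : ℝ) ^ N) := by gcongr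
    have h6 : b H / (H : ℝ) ^ e ≤ (a H + u H) / (H : ℝ) ^ e := by gcongr
    rw [add_div] at h6
    linarith
  · filter_upwards [eventually_ge_atTop 1] with H hH
    have h1 := hab H hH
    gcongr

theorem plim (h1 : S_zlim) (h2 : S_upf) : S_plim := by
  intro N D m hN hD hm
  obtain ⟨d₁, hd₁⟩ := h2 N D (m + 1) hN hD (by omega)
  refine ⟨max d₁ (m + 1), fun d hd => ?_⟩
  have hdd : d₁ ≤ d := le_trans (le_max_left _ _) hd
  have hdm : m + 1 ≤ d := le_trans (le_max_right _ _) hd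
  obtain ⟨C, θ₀, hC, hθ₀, hup⟩ := hd₁ d hdd
  refine ⟨θ₀, hθ₀, fun θ hθ hle σ p hinj hp => ?_⟩
  have hsep : Sep (fun i => (p i).rep) := by
    refine ⟨fun i => (p i).rep_nonzero, fun i j hij c hc => hij (hinj ?_)⟩
    rw [← Projectivization.mk_rep (p i), ← Projectivization.mk_rep (p j),
      Projectivization.mk_eq_mk_iff']
    exact ⟨c, hc.symm⟩
  obtain ⟨v, hv⟩ := h1 N d m hN (by omega) hm (by omega) (fun i => (p i).rep)
    (fun i => (p (σ i)).rep) hsep (fun i => (p (σ i)).rep_nonzero)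
  refine ⟨v, ?_⟩
  have hQ : QQ N d - (m + 1) * N + N = QQ N d - m * N := by
    have h4 : m + 1 ≤ MM N d := m_le hN (by omega)
    have h5 : (m + 1) * N ≤ QQ N d := by
      change (m + 1) * N ≤ (N + 1) * MM N d
      calc (m + 1) * N ≤ MM N d * (N + 1) := Nat.mul_le_mul h4 (by omega)
        _ = (N + 1) * MM N d := mul_comm _ _
    have h6 : (m + 1) * N = m * N + N := by ring
    omega
  refine squeeze (C := C) (u := fun H => cnt N d H (fun F => Many (N + 1) D (m + 1)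
    (fun K _ _ P => Pp F K P ∨ ¬ Gr θ₀ H F K P))) hN hQ ?_ ?_ (fun H hH => hup H hH) hv
  · intro H _
    unfold cnt
    have hfin : {F : Sy N d | F ∈ Fb (N + 1) d H ∧ NoZero F ∧
        Cf (fun i => (p i).rep) (fun i => (p (σ i)).rep) F}.Finite :=
      Set.Finite.subset (Fb (N + 1) d H).finite_toSet fun F hF => hF.1
    have hsub : {F : Sy N d | F ∈ Fb (N + 1) d H ∧ NoZero F ∧
        (Sm N D θ H F = Set.range p ∧ ∀ i, Im F (p i) (p (σ i)))} ⊆
        {F : Sy N d | F ∈ Fb (N + 1) d H ∧ NoZero F ∧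
        Cf (fun i => (p i).rep) (fun i => (p (σ i)).rep) F} :=
      fun F hF => ⟨hF.1, hF.2.1, hF.2.2.2⟩
    exact_mod_cast Set.ncard_le_ncard hsub hfin
  · intro H _
    unfold cnt
    have hfin : ({F : Sy N d | F ∈ Fb (N + 1) d H ∧ NoZero F ∧
        (Sm N D θ H F = Set.range p ∧ ∀ i, Im F (p i) (p (σ i)))} ∪
        {F : Sy N d | F ∈ Fb (N + 1) d H ∧ NoZero F ∧ Many (N + 1) D (m + 1)
          (fun K _ _ P => Pp F K P ∨ ¬ Gr θ₀ H F K P)}).Finite :=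
      Set.Finite.subset (Fb (N + 1) d H).finite_toSet fun F hF => by
        rcases hF with h | h
        · exact h.1
        · exact h.1
    have hsub : {F : Sy N d | F ∈ Fb (N + 1) d H ∧ NoZero F ∧
        Cf (fun i => (p i).rep) (fun i => (p (σ i)).rep) F} ⊆
        {F : Sy N d | F ∈ Fb (N + 1) d H ∧ NoZero F ∧
        (Sm N D θ H F = Set.range p ∧ ∀ i, Im F (p i) (p (σ i)))} ∪
        {F : Sy N d | F ∈ Fb (N + 1) d H ∧ NoZero F ∧ Many (N + 1) D (m + 1)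
          (fun K _ _ P => Pp F K P ∨ ¬ Gr θ₀ H F K P)} := by
      rintro F ⟨hF1, hF2, hF3⟩
      by_cases hS : Sm N D θ H F = Set.range p
      · exact Or.inl ⟨hF1, hF2, hS, hF3⟩
      · exact Or.inr ⟨hF1, hF2, many_of_ne hle F hF2 σ p hinj hF3 hp hS⟩
    have h5 := (Set.ncard_le_ncard hsub hfin).trans (Set.ncard_union_le _ _)
    exact_mod_cast h5

end Pool.Agent.Q182.MPPLIM
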