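import Mathlib
import Pool.Agent.Q49.MR.Stm

/-!
# Project MR (helper49), job Q4

Zeros of a quaternary quadratic form over a finite field of odd characteristic.
-/

set_option autoImplicit false

open Module Finset

namespace Q182.MR_Q4

open Q49.MR

section count

variable {K : Type} [Field K] [Fintype K] [DecidableEq K]

/-- number of solutions of `a x² + b y² = t` -/
def A (a b t : K) : ℕ := #(univ.filter fun p : K × K => a * p.1 ^ 2 + b * p.2 ^ 2 = t)

omit [DecidableEq K] in
lemma card_odd (h2 : (2 : K) ≠ 0) : Fintype.card K % 2 = 1 := by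
  apply FiniteField.odd_card_of_char_ne_two
  intro h
  apply h2
  have h3 : ((ringChar K : ℕ) : K) = 0 := ringChar.Nat.cast_ringChar
  rw [h] at h3
  exact_mod_cast h3

omit [DecidableEq K] in
/-- `x² + c y²` takes every value -/
lemma exists_value (h2 : (2 : K) ≠ 0) {c : K} (hc : c ≠ 0) (u : K) :
    ∃ x y : K, x ^ 2 + c * y ^ 2 = u := by
  open Polynomial in
  obtain ⟨x, y, h⟩ := FiniteField.exists_root_sum_quadratic (R := K)
    (f := (Polynomial.X ^ 2 - Polynomial.C u : Polynomial K))
    (g := (Polynomial.C c * Polynomial.X ^ 2 : Polynomial K))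
    (Polynomial.degree_X_pow_sub_C (by norm_num) u)
    (Polynomial.degree_C_mul_X_pow 2 hc) (card_odd h2)
  refine ⟨x, y, ?_⟩
  simp only [Polynomial.eval_sub, Polynomial.eval_pow, Polynomial.eval_X, Polynomial.eval_C,
    Polynomial.eval_mul] at h
  linear_combination h

lemma A_le (h2 : (2 : K) ≠ 0) {a b : K} (ha : a ≠ 0) (hb : b ≠ 0) {t t' : K} (ht : t ≠ 0)
    (ht' : t' ≠ 0) : A a b t ≤ A a b t' := by
  obtain ⟨x0, y0, h0⟩ := exists_value h2 (div_ne_zero hb ha) (t' / t)
  have hD : x0 ^ 2 + b / a * y0 ^ 2 ≠ 0 := by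
    rw [h0]
    exact div_ne_zero ht' ht
  unfold A
  refine Finset.card_le_card_of_injOn
    (fun p => (p.1 * x0 - b / a * p.2 * y0, p.1 * y0 + p.2 * x0)) ?_ ?_
  · intro p hp
    simp only [Finset.coe_filter, Finset.mem_univ, true_and, Set.mem_ofPred_eq] at hp ⊢
    have e1 : a * (p.1 * x0 - b / a * p.2 * y0) ^ 2 + b * (p.1 * y0 + p.2 * x0) ^ 2 =
        (a * p.1 ^ 2 + b * p.2 ^ 2) * (x0 ^ 2 + b / a * y0 ^ 2) := by
      field_simp
      ring
    rw [e1, hp, h0]
    field_simp
  · intro p _ p' _ h
    simp only [Prod.mk.injEq] at h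
    obtain ⟨h1, h3⟩ := h
    have e1 : (p.1 - p'.1) * (x0 ^ 2 + b / a * y0 ^ 2) = 0 := by
      linear_combination x0 * h1 + b / a * y0 * h3
    have e2 : (p.2 - p'.2) * (x0 ^ 2 + b / a * y0 ^ 2) = 0 := by
      linear_combination x0 * h3 - y0 * h1
    refine Prod.ext ?_ ?_
    · exact sub_eq_zero.1 ((mul_eq_zero.1 e1).resolve_right hD)
    · exact sub_eq_zero.1 ((mul_eq_zero.1 e2).resolve_right hD)

lemma A_const (h2 : (2 : K) ≠ 0) {a b : K} (ha : a ≠ 0) (hb : b ≠ 0) {t : K} (ht : t ≠ 0) :
    A a b t = A a b 1 :=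
  le_antisymm (A_le h2 ha hb ht one_ne_zero) (A_le h2 ha hb one_ne_zero ht)

lemma A_sum (a b : K) : ∑ t, A a b t = Fintype.card K * Fintype.card K := by
  have h := Finset.card_eq_sum_card_fiberwise (s := (univ : Finset (K × K))) (t := univ)
    (f := fun p : K × K => a * p.1 ^ 2 + b * p.2 ^ 2) (fun _ _ => Finset.mem_coe.2 (mem_univ _))
  rw [Finset.card_univ, Fintype.card_prod] at h
  exact h.symm

lemma A_rel (h2 : (2 : K) ≠ 0) {a b : K} (ha : a ≠ 0) (hb : b ≠ 0) {r : ℕ}
    (hr : Fintype.card K = r + 1) : A a b 0 + r * A a b 1 = (r + 1) * (r + 1) := by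
  rw [← hr, ← A_sum a b, ← Finset.add_sum_erase univ (fun t => A a b t) (mem_univ (0 : K))]
  congr 1
  rw [Finset.sum_congr rfl fun t ht => A_const h2 ha hb (Finset.ne_of_mem_erase ht),
    Finset.sum_const, Finset.card_erase_of_mem (mem_univ _), Finset.card_univ, hr, smul_eq_mul,
    Nat.add_sub_cancel]

lemma A_ns {a b : K} (ha : a ≠ 0) (h : ¬ IsSquare (-(a * b))) : A a b 0 = 1 := by
  unfold A
  rw [Finset.card_eq_one]
  refine ⟨(0, 0), ?_⟩
  ext ⟨x, y⟩
  simp only [mem_filter, mem_univ, true_and, mem_singleton, Prod.mk.injEq]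
  constructor
  · intro h1
    by_cases hy : y = 0
    · subst hy
      have h3 : a * x ^ 2 = 0 := by linear_combination h1
      rcases mul_eq_zero.1 h3 with h4 | h4
      · exact absurd h4 ha
      · exact ⟨pow_eq_zero_iff (by norm_num) |>.1 h4, rfl⟩
    · exfalso
      apply h
      refine ⟨a * x / y, ?_⟩
      field_simp
      linear_combination (-1) * h1
  · rintro ⟨rfl, rfl⟩
    ring

lemma A_sq (h2 : (2 : K) ≠ 0) {a b : K} (ha : a ≠ 0) (hb : b ≠ 0) (h : IsSquare (-(a * b))) :
    A a b 0 + 1 = 2 * Fintype.card K := by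
  obtain ⟨m, hm⟩ := h
  have hm0 : m ≠ 0 := by
    rintro rfl
    apply mul_ne_zero ha hb
    linear_combination -hm
  have e1 : (univ.filter fun p : K × K => a * p.1 ^ 2 + b * p.2 ^ 2 = 0) =
      (univ.image fun y : K => (m * y / a, y)) ∪ (univ.image fun y : K => (-(m * y / a), y)) := by
    ext ⟨x, y⟩
    simp only [mem_filter, mem_univ, true_and, mem_union, mem_image, Prod.mk.injEq,
      exists_eq_right]
    constructor
    · intro h1
      have h3 : (a * x - m * y) * (a * x + m * y) = 0 := by
        linear_combination a * h1 + y ^ 2 * hm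
      rcases mul_eq_zero.1 h3 with h4 | h4
      · left
        rw [div_eq_iff ha]
        linear_combination -h4
      · right
        rw [neg_eq_iff_eq_neg, div_eq_iff ha]
        linear_combination h4
    · rintro (h1 | h1)
      · rw [← h1]
        field_simp
        linear_combination (-(y ^ 2)) * hm
      · rw [← h1]
        field_simp
        linear_combination (-(y ^ 2)) * hm
  have e2 : (univ.image fun y : K => (m * y / a, y)) ∩ (univ.image fun y : K => (-(m * y / a), y)) =
      {(0, 0)} := by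
    ext ⟨x, y⟩
    simp only [mem_inter, mem_image, mem_univ, true_and, Prod.mk.injEq, exists_eq_right,
      mem_singleton]
    constructor
    · rintro ⟨h1, h3⟩
      have h4 : 2 * (m * y / a) = 0 := by linear_combination h1 - h3
      have h5 : m * y / a = 0 := (mul_eq_zero.1 h4).resolve_left h2
      have h6 : y = 0 := by
        rw [div_eq_zero_iff] at h5
        rcases h5 with h5 | h5
        · exact (mul_eq_zero.1 h5).resolve_left hm0
        · exact absurd h5 ha
      subst h6
      refine ⟨?_, rfl⟩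
      rw [← h1]
      simp
    · rintro ⟨rfl, rfl⟩
      simp
  have c1 : #(univ.image fun y : K => (m * y / a, y)) = Fintype.card K := by
    rw [Finset.card_image_of_injective _ fun y y' h => (Prod.mk.inj h).2, Finset.card_univ]
  have c2 : #(univ.image fun y : K => (-(m * y / a), y)) = Fintype.card K := by
    rw [Finset.card_image_of_injective _ fun y y' h => (Prod.mk.inj h).2, Finset.card_univ]
  have h3 := Finset.card_union_add_card_inter (univ.image fun y : K => (m * y / a, y))
    (univ.image fun y : K => (-(m * y / a), y))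
  rw [e2, Finset.card_singleton, c1, c2, ← e1] at h3
  unfold A
  omega

/-- number of zeros of the quaternary form -/
def Z (a b c d : K) : ℕ :=
  #(univ.filter fun p : (K × K) × (K × K) =>
    a * p.1.1 ^ 2 + b * p.1.2 ^ 2 + (c * p.2.1 ^ 2 + d * p.2.2 ^ 2) = 0)

lemma Z_sum (a b c d : K) :
    Z a b c d = ∑ p : K × K, A a b (-(c * p.1 ^ 2 + d * p.2 ^ 2)) := by
  unfold Z
  rw [Finset.card_eq_sum_card_fiberwise (t := (univ : Finset (K × K)))
    (f := fun p : (K × K) × (K × K) => p.2) (fun _ _ => Finset.mem_coe.2 (mem_univ _))]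
  refine Finset.sum_congr rfl fun p _ => ?_
  unfold A
  refine Finset.card_bij (fun x _ => x.1) ?_ ?_ ?_
  · rintro ⟨x, y⟩ hx
    simp only [mem_filter, mem_univ, true_and] at hx ⊢
    obtain ⟨h1, rfl⟩ := hx
    linear_combination h1
  · rintro ⟨x, y⟩ hx ⟨x', y'⟩ hx' h
    simp only [mem_filter, mem_univ, true_and] at hx hx' h
    rw [hx.2, hx'.2, h]
  · intro x hx
    simp only [mem_filter, mem_univ, true_and] at hx
    refine ⟨(x, p), ?_, rfl⟩
    simp only [mem_filter, mem_univ, true_and, and_true]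
    linear_combination hx

lemma Z_eq (h2 : (2 : K) ≠ 0) {a b : K} (ha : a ≠ 0) (hb : b ≠ 0) (c d : K) :
    ∃ M : ℕ, A c d 0 + M = Fintype.card K * Fintype.card K ∧
      Z a b c d = A c d 0 * A a b 0 + M * A a b 1 := by
  refine ⟨#(univ.filter fun p : K × K => ¬ (c * p.1 ^ 2 + d * p.2 ^ 2 = 0)), ?_, ?_⟩
  · unfold A
    rw [Finset.card_filter_add_card_filter_not, Finset.card_univ, Fintype.card_prod]
  · rw [Z_sum, ← Finset.sum_filter_add_sum_filter_not univ
      (fun p : K × K => c * p.1 ^ 2 + d * p.2 ^ 2 = 0)]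
    congr 1
    · rw [Finset.sum_congr rfl (g := fun _ => A a b 0), Finset.sum_const, smul_eq_mul]
      · rfl
      · intro p hp
        rw [mem_filter] at hp
        rw [hp.2, neg_zero]
    · rw [Finset.sum_congr rfl (g := fun _ => A a b 1), Finset.sum_const, smul_eq_mul]
      intro p hp
      rw [mem_filter] at hp
      exact A_const h2 ha hb (neg_ne_zero.2 hp.2)

lemma A_zero {c : K} (hc : c ≠ 0) : A c 0 0 = Fintype.card K := by
  unfold A
  have e1 : (univ.filter fun p : K × K => c * p.1 ^ 2 + 0 * p.2 ^ 2 = 0) =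
      univ.image fun y : K => ((0 : K), y) := by
    ext ⟨x, y⟩
    simp only [mem_filter, mem_univ, true_and, mem_image, Prod.mk.injEq]
    constructor
    · intro h
      have h1 : c * x ^ 2 = 0 := by linear_combination h
      exact ⟨y, ((pow_eq_zero_iff (by norm_num)).1 ((mul_eq_zero.1 h1).resolve_left hc)).symm, rfl⟩
    · rintro ⟨_, h, _⟩
      rw [← h]
      ring
  rw [e1, Finset.card_image_of_injective _ fun y y' h => (Prod.mk.inj h).2, Finset.card_univ]

/-- the count and the determinant -/
lemma main (h2 : (2 : K) ≠ 0) {a b c d : K} (ha : a ≠ 0) (hb : b ≠ 0) (hc : c ≠ 0) :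
    Fintype.card K ^ 3 + Fintype.card K ≤ Z a b c d + Fintype.card K ^ 2 ∧
      (Fintype.card K ^ 3 + Fintype.card K = Z a b c d + Fintype.card K ^ 2 →
        ¬ IsSquare (a * b * c * d)) := by
  obtain ⟨r, hr⟩ : ∃ r, Fintype.card K = r + 1 :=
    ⟨Fintype.card K - 1, by have := Fintype.card_pos (α := K); omega⟩
  have hr1 : 1 ≤ r := by
    have := Fintype.one_lt_card (α := K)
    omega
  obtain ⟨M, hM, hZ⟩ := Z_eq h2 ha hb c d
  have hrel := A_rel h2 ha hb hr
  rw [hr] at hM ⊢
  rw [hZ]
  by_cases hd : d = 0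
  · -- one zero coefficient
    subst hd
    have e1 := A_zero hc
    rw [hr] at e1
    rw [e1] at hM ⊢
    have e2 : M = r * (r + 1) := by nlinarith
    subst e2
    have e3 : (r + 1) * A a b 0 + r * (r + 1) * A a b 1 = (r + 1) * ((r + 1) * (r + 1)) := by
      rw [← hrel]; ring
    rw [e3]
    refine ⟨by nlinarith, fun h => ?_⟩
    exfalso
    nlinarith
  · have hrel' := A_rel h2 hc hd hr
    -- the values of `A a b 0`, `A a b 1`
    have key : ∀ {x y : K}, x ≠ 0 → y ≠ 0 → A x y 0 + r * A x y 1 = (r + 1) * (r + 1) →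
        (IsSquare (-(x * y)) ∧ A x y 0 = 2 * r + 1 ∧ A x y 1 = r) ∨
        (¬ IsSquare (-(x * y)) ∧ A x y 0 = 1 ∧ A x y 1 = r + 2) := by
      intro x y hx hy h
      by_cases hs : IsSquare (-(x * y))
      · left
        have h3 := A_sq h2 hx hy hs
        rw [hr] at h3
        have h4 : A x y 0 = 2 * r + 1 := by omega
        refine ⟨hs, h4, ?_⟩
        rw [h4] at h
        have h5 : r * A x y 1 = r * r := by nlinarith
        exact Nat.eq_of_mul_eq_mul_left (by omega) h5
      · right
        have h4 := A_ns hx hs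
        refine ⟨hs, h4, ?_⟩
        rw [h4] at h
        have h5 : r * A x y 1 = r * (r + 2) := by nlinarith
        exact Nat.eq_of_mul_eq_mul_left (by omega) h5
    rcases key ha hb hrel with ⟨s1, u1, v1⟩ | ⟨s1, u1, v1⟩ <;>
      rcases key hc hd hrel' with ⟨s2, u2, _⟩ | ⟨s2, u2, _⟩
    · rw [u1, v1, u2]
      rw [u2] at hM
      have e2 : M = r * r := by nlinarith
      subst e2
      refine ⟨by nlinarith, fun h => ?_⟩
      exfalso
      nlinarith
    · rw [u1, v1, u2]
      rw [u2] at hM
      have e2 : M = r * r + 2 * r := by nlinarith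
      subst e2
      refine ⟨by nlinarith, fun _ hs => s2 ?_⟩
      -- `-(c d) = (a b c d) / -(a b)`
      have e3 : -(c * d) = a * b * c * d / -(a * b) := by field_simp
      rw [e3]
      exact hs.div s1
    · rw [u1, v1, u2]
      rw [u2] at hM
      have e2 : M = r * r := by nlinarith
      subst e2
      refine ⟨by nlinarith, fun _ hs => s1 ?_⟩
      have e3 : -(a * b) = a * b * c * d / -(c * d) := by field_simp
      rw [e3]
      exact hs.div s2
    · rw [u1, v1, u2]
      rw [u2] at hM
      have e2 : M = r * r + 2 * r := by nlinarith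
      subst e2
      refine ⟨by nlinarith, fun h => ?_⟩
      exfalso
      nlinarith

end count

/-- quadruples as functions -/
def quad (K : Type) : (K × K) × (K × K) ≃ (Fin 4 → K) where
  toFun p := ![p.1.1, p.1.2, p.2.1, p.2.2]
  invFun f := ((f 0, f 1), (f 2, f 3))
  left_inv p := rfl
  right_inv f := by
    funext i
    fin_cases i <;> rfl

theorem q4 : S_Q4 := by
  intro K V _ _ _ _ B h2 hdim hsym hrad
  classical
  have : Fintype K := Fintype.ofFinite K
  have : FiniteDimensional K V := FiniteDimensional.of_finrank_pos (by rw [hdim]; norm_num)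
  have : Invertible (2 : K) := invertibleOfNonzero h2
  obtain ⟨b0, hb0⟩ := LinearMap.BilinForm.exists_orthogonal_basis (B := B) ⟨hsym⟩
  -- an orthogonal basis such that only the last vector may be isotropic
  obtain ⟨b, hb, hw⟩ : ∃ b : Basis (Fin 4) K V, (∀ i j, i ≠ j → B (b i) (b j) = 0) ∧
      ∀ i, i ≠ 3 → B (b i) (b i) ≠ 0 := by
    obtain ⟨b1, ho⟩ : ∃ b1 : Basis (Fin 4) K V, ∀ i j, i ≠ j → B (b1 i) (b1 j) = 0 := by
      refine ⟨b0.reindex (finCongr hdim), ?_⟩
      intro i j hij
      rw [Basis.reindex_apply, Basis.reindex_apply]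
      exact hb0 (fun h => hij ((finCongr hdim).symm.injective h))
    have hr : ∀ i, B (b1 i) (b1 i) = 0 → ∀ x, B (b1 i) x = 0 := by
      intro i hi x
      rw [← b1.sum_repr x, map_sum]
      refine Finset.sum_eq_zero fun j _ => ?_
      rw [map_smul]
      by_cases hij : i = j
      · subst hij; rw [hi, smul_zero]
      · rw [ho i j hij, smul_zero]
    have huniq : ∀ i j, B (b1 i) (b1 i) = 0 → B (b1 j) (b1 j) = 0 → i = j := by
      intro i j hi hj
      by_contra hij
      refine hrad (b1 i) (b1 j) (hr i hi) (hr j hj) ?_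
      have h3 := b1.linearIndependent.comp ![i, j] (by
        intro x y hxy
        fin_cases x <;> fin_cases y <;> simp_all [eq_comm])
      have h4 : (fun x => b1 (![i, j] x)) = ![b1 i, b1 j] := by
        funext x
        fin_cases x <;> rfl
      rw [← h4]
      exact h3
    by_cases hz : ∃ i, B (b1 i) (b1 i) = 0
    · obtain ⟨i, hi⟩ := hz
      refine ⟨b1.reindex (Equiv.swap i 3), fun j k hjk => ?_, fun j hj h => ?_⟩
      · rw [Basis.reindex_apply, Basis.reindex_apply]
        exact ho _ _ fun h => hjk ((Equiv.swap i 3).symm.injective h)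
      · rw [Basis.reindex_apply] at h
        have h3 := huniq _ _ h hi
        rw [Equiv.symm_swap] at h3
        apply hj
        have h4 := congrArg (Equiv.swap i 3) h3
        rwa [Equiv.swap_apply_self, Equiv.swap_apply_left] at h4
    · push Not at hz
      exact ⟨b1, ho, fun i _ => hz i⟩
  have hdiag : ∀ f : Fin 4 → K, B (b.equivFun.symm f) (b.equivFun.symm f) =
      B (b 0) (b 0) * f 0 ^ 2 + B (b 1) (b 1) * f 1 ^ 2 +
        (B (b 2) (b 2) * f 2 ^ 2 + B (b 3) (b 3) * f 3 ^ 2) := by
    intro f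
    have e1 : b.equivFun.symm f = ∑ i, f i • b i := Basis.equivFun_symm_apply _ _
    rw [e1]
    have e2 : ∀ j, B (∑ i, f i • b i) (b j) = f j * B (b j) (b j) := by
      intro j
      rw [map_sum, LinearMap.sum_apply, Finset.sum_eq_single j]
      · rw [map_smul, LinearMap.smul_apply, smul_eq_mul]
      · intro i _ hij
        rw [map_smul, LinearMap.smul_apply, hb i j hij, smul_zero]
      · intro h
        exact absurd (mem_univ j) h
    rw [map_sum]
    have e3 : ∀ j, B (∑ i, f i • b i) (f j • b j) = B (b j) (b j) * f j ^ 2 := by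
      intro j
      rw [map_smul, e2, smul_eq_mul]
      ring
    rw [Finset.sum_congr rfl fun j _ => e3 j, Fin.sum_univ_four]
    ring
  have hcard : Nat.card {v : V // B v v = 0} =
      Z (B (b 0) (b 0)) (B (b 1) (b 1)) (B (b 2) (b 2)) (B (b 3) (b 3)) := by
    unfold Z
    rw [← Fintype.card_subtype, ← Nat.card_eq_fintype_card]
    refine (Nat.card_congr (Equiv.subtypeEquiv
      ((quad K).trans b.equivFun.symm.toEquiv) fun p => ?_)).symm
    have := hdiag (quad K p)
    have e : B (((quad K).trans b.equivFun.symm.toEquiv) p)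
      (((quad K).trans b.equivFun.symm.toEquiv) p) =
        B (b.equivFun.symm (quad K p)) (b.equivFun.symm (quad K p)) := rfl
    rw [e, this]
    rfl
  have hmain := main (K := K) h2 (hw 0 (by decide)) (hw 1 (by decide)) (hw 2 (by decide))
    (d := B (b 3) (b 3))
  rw [hcard, Nat.card_eq_fintype_card]
  refine ⟨hmain.1, fun h => ⟨b, ?_⟩⟩
  have hdet : Matrix.det (Matrix.of fun i j => B (b i) (b j)) =
      B (b 0) (b 0) * B (b 1) (b 1) * B (b 2) (b 2) * B (b 3) (b 3) := by
    have e1 : (Matrix.of fun i j => B (b i) (b j)) =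
        Matrix.diagonal fun i : Fin 4 => B (b i) (b i) := by
      ext i j
      rw [Matrix.of_apply, Matrix.diagonal_apply]
      split_ifs with hij
      · rw [hij]
      · exact hb i j hij
    rw [e1, Matrix.det_diagonal, Fin.prod_univ_four]
  rw [hdet]
  exact hmain.2 h

end Q182.MR_Q4
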