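import Pool.Agent.Q2.PM.Stm

/-! Project PM (helper2, MP_791b9a_al), job B7: Schur-Zassenhaus with conjugacy, abelian kernel. -/

set_option autoImplicit false

namespace Q182.PM_B7

open Subgroup
open Q2.PM
open Q2.TN (IsPNil IsSyl IsChief Nm)

theorem conj_compl {G : Type} [Group G] [Finite G] (T F₀ F₁ : Subgroup G) [hT : T.Normal]
    (h2 : IsPGroup 2 T) (hab : ∀ x ∈ T, ∀ y ∈ T, x * y = y * x) (hodd : Odd (Nat.card F₀))
    (hd : F₁ ⊓ T = ⊥) (hsub : ∀ x ∈ F₀, ∃ t ∈ T, t * x ∈ F₁) :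
    ∃ s ∈ T, ∀ x ∈ F₀, s * x * s⁻¹ ∈ F₁ := by
  classical
  have : Fintype F₀ := Fintype.ofFinite _
  let : CommGroup T :=
    { (inferInstance : Group T) with mul_comm := fun a b => Subtype.ext (hab a a.2 b b.2) }
  have hsub' : ∀ x : F₀, ∃ t : T, (t : G) * (x : G) ∈ F₁ := by
    intro x
    obtain ⟨t, ht, h⟩ := hsub x x.2
    exact ⟨⟨t, ht⟩, h⟩
  choose c hc using hsub'
  have uniq : ∀ (x : F₀) (t : T), (t : G) * (x : G) ∈ F₁ → t = c x := by
    intro x t ht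
    have h1 : (t : G) * ((c x : T) : G)⁻¹ ∈ F₁ ⊓ T := by
      refine ⟨?_, T.mul_mem t.2 (T.inv_mem (c x).2)⟩
      have h2 := F₁.mul_mem ht (F₁.inv_mem (hc x))
      have h3 : (t : G) * (x : G) * (((c x : T) : G) * (x : G))⁻¹ =
          (t : G) * ((c x : T) : G)⁻¹ := by group
      rwa [h3] at h2
    rw [hd, Subgroup.mem_bot] at h1
    exact Subtype.ext (mul_inv_eq_one.1 h1)
  have hmul : ∀ x y : F₀, c (x * y) = c x * MulAut.conjNormal (x : G) (c y) := by
    intro x y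
    refine (uniq (x * y) _ ?_).symm
    have h1 := F₁.mul_mem (hc x) (hc y)
    have h2 : ((c x * MulAut.conjNormal (x : G) (c y) : T) : G) * ((x * y : F₀) : G) =
        ((c x : T) : G) * (x : G) * (((c y : T) : G) * (y : G)) := by
      show ((c x : T) : G) * ((MulAut.conjNormal (x : G) (c y) : T) : G) * ((x : G) * (y : G)) = _
      rw [MulAut.conjNormal_apply]
      group
    rw [h2]
    exact h1
  have hcop : (Nat.card T).Coprime (Nat.card F₀) := by
    obtain ⟨k, hk⟩ := IsPGroup.iff_card.1 h2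
    rw [hk]
    exact Nat.Coprime.pow_left k (Nat.coprime_two_left.2 hodd)
  have hprod : ∀ x : F₀, ∏ y, c y = c x ^ Nat.card F₀ *
      MulAut.conjNormal (x : G) (∏ y, c y) := by
    intro x
    calc ∏ y, c y = ∏ y, c (x * y) := (Equiv.prod_comp (Equiv.mulLeft x) c).symm
      _ = ∏ y, (c x * MulAut.conjNormal (x : G) (c y)) :=
          Finset.prod_congr rfl fun y _ => hmul x y
      _ = c x ^ Nat.card F₀ * MulAut.conjNormal (x : G) (∏ y, c y) := by
          rw [Finset.prod_mul_distrib, Finset.prod_const, map_prod, Finset.card_univ,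
            Nat.card_eq_fintype_card]
  obtain ⟨s, hs⟩ := (powCoprime hcop).surjective (∏ y, c y)
  have hs' : s ^ Nat.card F₀ = ∏ y, c y := hs
  refine ⟨s, s.2, fun x hx => ?_⟩
  have h1 : c ⟨x, hx⟩ * MulAut.conjNormal x s = s := by
    apply (powCoprime hcop).injective
    show (c ⟨x, hx⟩ * MulAut.conjNormal x s) ^ Nat.card F₀ = s ^ Nat.card F₀
    rw [mul_pow, ← map_pow, hs']
    exact (hprod ⟨x, hx⟩).symm
  have h3 : ((c ⟨x, hx⟩ : T) : G) * (x * (s : G) * x⁻¹) = (s : G) := by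
    have h4 := congrArg (Subtype.val : T → G) h1
    have h5 : ((c ⟨x, hx⟩ * MulAut.conjNormal x s : T) : G) =
        ((c ⟨x, hx⟩ : T) : G) * ((MulAut.conjNormal x s : T) : G) := rfl
    rw [h5, MulAut.conjNormal_apply] at h4
    exact h4
  have h6 : (s : G) * x * (s : G)⁻¹ = ((c ⟨x, hx⟩ : T) : G) * x := by
    nth_rewrite 1 [← h3]
    group
  rw [h6]
  exact hc ⟨x, hx⟩

theorem b7 : S_B7 := by
  intro G _ _ T F hTn hFn hTF h2 hab hodd
  have := hTn
  have hcard : Nat.card (T.subgroupOf F) = Nat.card T := by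
    rw [Nat.card_congr (Subgroup.subgroupOfEquivOfLe hTF).toEquiv]
  have hcop : (Nat.card (T.subgroupOf F)).Coprime (T.subgroupOf F).index := by
    obtain ⟨k, hk⟩ := IsPGroup.iff_card.1 h2
    rw [hcard, hk]
    exact Nat.Coprime.pow_left k (Nat.coprime_two_left.2 hodd)
  obtain ⟨K, hK⟩ := Subgroup.exists_right_complement'_of_coprime hcop
  have hKc : Nat.card K = (T.subgroupOf F).index := by
    have e1 := hK.card_mul_card
    have e2 := (T.subgroupOf F).card_mul_index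
    have hpos : 0 < Nat.card (T.subgroupOf F) := Nat.card_pos
    exact Nat.eq_of_mul_eq_mul_left hpos (e1.trans e2.symm)
  let F₀ : Subgroup G := K.map F.subtype
  have hF₀ : F₀ ≤ F := by
    rintro _ ⟨y, -, rfl⟩
    exact y.2
  have hcF₀ : Nat.card F₀ = Nat.card K :=
    (Nat.card_congr (K.equivMapOfInjective F.subtype F.subtype_injective).toEquiv).symm
  have hinf : F₀ ⊓ T = ⊥ := by
    rw [eq_bot_iff]
    rintro _ ⟨⟨y, hy, rfl⟩, hyT⟩
    have h1 : y ∈ T.subgroupOf F ⊓ K := ⟨Subgroup.mem_subgroupOf.2 hyT, hy⟩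
    rw [hK.disjoint.eq_bot, Subgroup.mem_bot] at h1
    rw [h1]
    exact Subgroup.one_mem _
  have hdec : ∀ x ∈ F, ∃ t ∈ T, ∃ f ∈ F₀, t * f = x := by
    intro x hx
    have h1 : (⟨x, hx⟩ : F) ∈ T.subgroupOf F ⊔ K := by
      rw [hK.sup_eq_top]
      exact Subgroup.mem_top _
    have : (T.subgroupOf F).Normal := inferInstance
    obtain ⟨y, hy, z, hz, h⟩ := Subgroup.mem_sup_of_normal_left.1 h1
    exact ⟨y, Subgroup.mem_subgroupOf.1 hy, z, ⟨z, hz, rfl⟩, congrArg Subtype.val h⟩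
  have hsup : T ⊔ F₀ = F := by
    refine le_antisymm (sup_le hTF hF₀) fun x hx => ?_
    obtain ⟨t, ht, f, hf, rfl⟩ := hdec x hx
    exact Subgroup.mul_mem_sup ht hf
  refine ⟨F₀, hF₀, hinf, hsup, fun g => ?_⟩
  let F₁ : Subgroup G := F₀.map (MulAut.conj g).toMonoidHom
  have hF₁ : ∀ y, y ∈ F₁ ↔ g⁻¹ * y * g ∈ F₀ := by
    intro y
    constructor
    · rintro ⟨z, hz, rfl⟩
      have : g⁻¹ * ((MulAut.conj g).toMonoidHom z) * g = z := by
        show g⁻¹ * (g * z * g⁻¹) * g = z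
        group
      rw [this]
      exact hz
    · intro h
      refine ⟨g⁻¹ * y * g, h, ?_⟩
      show g * (g⁻¹ * y * g) * g⁻¹ = y
      group
  have hd1 : F₁ ⊓ T = ⊥ := by
    rw [eq_bot_iff]
    rintro y ⟨hy1, hy2⟩
    have h1 : g⁻¹ * y * g ∈ F₀ ⊓ T := by
      refine ⟨(hF₁ y).1 hy1, ?_⟩
      have := hTn.conj_mem y hy2 g⁻¹
      rwa [inv_inv] at this
    rw [hinf, Subgroup.mem_bot] at h1
    rw [Subgroup.mem_bot]
    have h3 : y = g * (g⁻¹ * y * g) * g⁻¹ := by group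
    rw [h3, h1]
    group
  have hsub : ∀ x ∈ F₀, ∃ t ∈ T, t * x ∈ F₁ := by
    intro x hx
    have hx' : g⁻¹ * x * g ∈ F := by
      have := hFn.conj_mem x (hF₀ hx) g⁻¹
      rwa [inv_inv] at this
    obtain ⟨t, ht, f, hf, h⟩ := hdec _ hx'
    refine ⟨(g * t * g⁻¹)⁻¹, T.inv_mem (hTn.conj_mem t ht g), ?_⟩
    rw [hF₁]
    have h3 : g⁻¹ * ((g * t * g⁻¹)⁻¹ * x) * g = f := by
      have h4 : x = g * (t * f) * g⁻¹ := by rw [h]; group
      rw [h4]
      group
    rw [h3]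
    exact hf
  have hodd' : Odd (Nat.card F₀) := by
    rw [hcF₀, hKc]
    exact hodd
  obtain ⟨s, hs, hconj⟩ := conj_compl T F₀ F₁ h2 hab hodd' hd1 hsub
  refine ⟨s, hs, s⁻¹ * g, ?_, by group⟩
  have hm : g⁻¹ * s ∈ Nm F₀ := by
    have h5 : ∀ x ∈ F₀, (g⁻¹ * s) * x * (g⁻¹ * s)⁻¹ ∈ F₀ := by
      intro x hx
      have h6 := (hF₁ _).1 (hconj x hx)
      have h7 : g⁻¹ * (s * x * s⁻¹) * g = (g⁻¹ * s) * x * (g⁻¹ * s)⁻¹ := by group
      rwa [h7] at h6
    rw [Subgroup.mem_normalizer_iff]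
    intro x
    refine ⟨fun hx => h5 x hx, fun hx => ?_⟩
    have hinj : Function.Injective (fun y : F₀ =>
        (⟨(g⁻¹ * s) * y * (g⁻¹ * s)⁻¹, h5 y y.2⟩ : F₀)) := by
      intro a b hab'
      have h8 := congrArg Subtype.val hab'
      exact Subtype.ext (by simpa using h8)
    obtain ⟨z, hz⟩ := (Finite.injective_iff_surjective.1 hinj) ⟨_, hx⟩
    have h9 := congrArg Subtype.val hz
    have h10 : (z : G) = x := by simpa using h9
    rw [← h10]
    exact z.2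
  have := (Nm F₀).inv_mem hm
  have e : (g⁻¹ * s)⁻¹ = s⁻¹ * g := by group
  rwa [e] at this

end Q182.PM_B7
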