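import Pool.Agent.Q2.PM.Stm

/-! Project PM (helper2, MP_791b9a_al), job B9: squares. -/

set_option autoImplicit false

namespace Q182.PM_B9

open Subgroup
open Q2.PM
open Q2.TN (IsPNil IsSyl IsChief Nm)

/-- the commutator -/
def kap {G : Type} [Group G] (u v : G) : G := u * v * u⁻¹ * v⁻¹

theorem b9 : S_B9 := by
  intro G _ _ T₁ T N V hN hV hNV hT₁ hTN hc h2 hodd hsq
  have hNV' : N ≤ V := hNV.le
  have hsqN : ∀ x ∈ V, x * x ∈ N := by
    intro x hx
    by_cases h : x ∈ N
    · rw [h2 x h]; exact N.one_mem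
    · exact hTN (hsq x hx h).1
  have hinv : ∀ n ∈ N, n⁻¹ = n := fun n hn => inv_eq_of_mul_eq_one_left (h2 n hn)
  have hk : ∀ u ∈ V, ∀ v ∈ V, kap u v ∈ N := by
    intro u hu v hv
    have e : kap u v = (u * v * (u * v)) * (v⁻¹ * (u * u)⁻¹ * v⁻¹⁻¹) * (v * v)⁻¹ := by
      unfold kap; group
    rw [e]
    exact N.mul_mem (N.mul_mem (hsqN _ (V.mul_mem hu hv))
      (hN.conj_mem _ (N.inv_mem (hsqN u hu)) v⁻¹)) (N.inv_mem (hsqN v hv))
  have H1 : ∀ u ∈ V, ∀ u' ∈ V, ∀ v ∈ V, kap (u * u') v = kap u v * kap u' v := by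
    intro u hu u' hu' v hv
    have e1 : kap (u * u') v = (u * kap u' v) * (v * u⁻¹ * v⁻¹) := by unfold kap; group
    have e2 : u * kap u' v = kap u' v * u := (hc _ (hk u' hu' v hv) u hu).symm
    have e3 : kap u' v * kap u v = kap u v * kap u' v :=
      hc _ (hk u' hu' v hv) _ (hNV' (hk u hu v hv))
    rw [e1, e2, ← e3]
    unfold kap; group
  have H2 : ∀ u ∈ V, ∀ v ∈ V, ∀ v' ∈ V, kap u (v * v') = kap u v * kap u v' := by
    intro u hu v hv v' hv'
    have e1 : kap u (v * v') = kap u v * ((v * kap u v') * v⁻¹) := by unfold kap; group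
    have e2 : v * kap u v' = kap u v' * v := (hc _ (hk u hu v' hv') v hv).symm
    rw [e1, e2]
    group
  have H01 : ∀ n ∈ N, ∀ v ∈ V, kap n v = 1 := by
    intro n hn v hv
    unfold kap
    rw [hc n hn v hv]
    group
  have H02 : ∀ n ∈ N, ∀ v ∈ V, kap v n = 1 := by
    intro n hn v hv
    unfold kap
    rw [← hc n hn v hv]
    group
  have E1 : ∀ u ∈ V, ∀ v ∈ V, ∀ w ∈ V, u * v ∈ N → kap u w = kap v w := by
    intro u hu v hv w hw h
    have h1 := H1 u hu v hv w hw
    rw [H01 _ h w hw] at h1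
    have h3 := eq_inv_of_mul_eq_one_left h1.symm
    rw [h3, hinv _ (hk v hv w hw)]
  have E2 : ∀ u ∈ V, ∀ v ∈ V, ∀ w ∈ V, u * v ∈ N → kap w u = kap w v := by
    intro u hu v hv w hw h
    have h1 := H2 w hw u hu v hv
    rw [H02 _ h w hw] at h1
    have h3 := eq_inv_of_mul_eq_one_left h1.symm
    rw [h3, hinv _ (hk w hw v hv)]
  have hsymm : ∀ u ∈ V, ∀ v ∈ V, kap v u = kap u v := by
    intro u hu v hv
    have e : kap v u = (kap u v)⁻¹ := by unfold kap; group
    rw [e, hinv _ (hk u hu v hv)]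
  have hself : ∀ u : G, kap u u = 1 := by
    intro u
    unfold kap; group
  have odd3 : ∀ a ∈ T, a ∉ T₁ → ∀ b ∈ T, b ∉ T₁ → ∀ c ∈ T, c ∉ T₁ →
      a * b * c ∈ T ∧ a * b * c ∉ T₁ := by
    intro a ha ha' b hb hb' c hcT hc'
    have h1 := hodd a ha ha' b hb hb'
    refine ⟨T.mul_mem (hT₁ h1) hcT, fun h => hc' ?_⟩
    have h3 := T₁.mul_mem (T₁.inv_mem h1) h
    have e : (a * b)⁻¹ * (a * b * c) = c := by group
    rwa [e] at h3
  have hko : ∀ u ∈ V, ∀ v ∈ V, u ∉ N → v ∉ N → u * v ∉ N → kap u v ∈ T ∧ kap u v ∉ T₁ := by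
    intro u hu v hv hu' hv' huv
    have a1 := hsq (u * v) (V.mul_mem hu hv) huv
    have a2 := hsq v hv hv'
    have a3 := hsq u hu hu'
    have key : kap v u = (u * v) * (u * v) * (v * v) * (u * u) := by
      have e1 : (u * v) * (u * v) = kap v u * ((u * u) * (v * v)) := by
        have e2 : (u * v) * (u * v) = (u * kap v u) * (u * v * v) := by unfold kap; group
        have e3 : u * kap v u = kap v u * u := (hc _ (hk v hv u hu) u hu).symm
        rw [e2, e3]
        group
      have e4 : (u * u) * (v * v) * ((v * v) * (u * u)) = 1 := by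
        have : (u * u) * (v * v) * ((v * v) * (u * u)) =
            (u * u) * ((v * v) * (v * v)) * (u * u) := by group
        rw [this, h2 _ (hsqN v hv), mul_one, h2 _ (hsqN u hu)]
      calc kap v u = kap v u * ((u * u) * (v * v) * ((v * v) * (u * u))) := by rw [e4, mul_one]
        _ = kap v u * ((u * u) * (v * v)) * (v * v) * (u * u) := by group
        _ = _ := by rw [← e1]
    rw [← hsymm u hu v hv, key]
    exact odd3 _ a1.1 a1.2 _ a2.1 a2.2 _ a3.1 a3.2
  obtain ⟨x, hxV, hxN⟩ := SetLike.exists_of_lt hNV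
  by_cases h : ∃ y ∈ V, y ∉ N ∧ x * y ∉ N
  · obtain ⟨y, hyV, hyN, hxyN⟩ := h
    have hxyV : x * y ∈ V := V.mul_mem hxV hyV
    have hkxy := hko x hxV y hyV hxN hyN hxyN
    have hex : ∀ w ∈ V, w ∈ N ∨ w * x ∈ N ∨ w * y ∈ N ∨ w * (x * y) ∈ N := by
      intro w hw
      by_contra hcon
      push Not at hcon
      obtain ⟨c1, c2, c3, c4⟩ := hcon
      have b1 := hko w hw x hxV c1 hxN c2
      have b2 := hko w hw y hyV c1 hyN c3
      have b3 := hko w hw (x * y) hxyV c1 hxyN c4
      rw [H2 w hw x hxV y hyV] at b3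
      exact b3.2 (hodd _ b1.1 b1.2 _ b2.1 b2.2)
    have hkk : kap x y * kap x y = 1 := h2 _ (hk x hxV y hyV)
    have hyx : kap y x = kap x y := hsymm x hxV y hyV
    have wx : ∀ w ∈ V, kap w x = 1 ∨ kap w x = kap x y := by
      intro w hw
      rcases hex w hw with h | h | h | h
      · exact Or.inl (H01 w h x hxV)
      · exact Or.inl ((E1 w hw x hxV x hxV h).trans (hself x))
      · exact Or.inr ((E1 w hw y hyV x hxV h).trans hyx)
      · right
        rw [E1 w hw (x * y) hxyV x hxV h, H1 x hxV y hyV x hxV, hself, one_mul, hyx]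
    have wy : ∀ w ∈ V, kap w y = 1 ∨ kap w y = kap x y := by
      intro w hw
      rcases hex w hw with h | h | h | h
      · exact Or.inl (H01 w h y hyV)
      · exact Or.inr (E1 w hw x hxV y hyV h)
      · exact Or.inl ((E1 w hw y hyV y hyV h).trans (hself y))
      · right
        rw [E1 w hw (x * y) hxyV y hyV h, H1 x hxV y hyV y hyV, hself, mul_one]
    have all : ∀ w ∈ V, ∀ u ∈ V, kap w u = 1 ∨ kap w u = kap x y := by
      intro w hw u hu
      rcases hex u hu with h | h | h | h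
      · exact Or.inl (H02 u h w hw)
      · rw [E2 u hu x hxV w hw h]
        exact wx w hw
      · rw [E2 u hu y hyV w hw h]
        exact wy w hw
      · rw [E2 u hu (x * y) hxyV w hw h, H2 w hw x hxV y hyV]
        rcases wx w hw with h1 | h1 <;> rcases wy w hw with h3 | h3 <;> rw [h1, h3]
        · exact Or.inl (one_mul 1)
        · exact Or.inr (one_mul _)
        · exact Or.inr (mul_one _)
        · exact Or.inl hkk
    refine ⟨kap x y, hkxy.1, hkxy.2, fun g => ?_⟩
    have e : g * kap x y * g⁻¹ = kap (g * x * g⁻¹) (g * y * g⁻¹) := by unfold kap; group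
    have h3 : g * kap x y * g⁻¹ = kap x y := by
      rcases all _ (hV.conj_mem x hxV g) _ (hV.conj_mem y hyV g) with h4 | h4
      · exfalso
        rw [← e] at h4
        have h5 : kap x y = 1 := by
          have : kap x y = g⁻¹ * (g * kap x y * g⁻¹) * g := by group
          rw [this, h4]
          group
        exact hkxy.2 (h5 ▸ T₁.one_mem)
      · rw [e, h4]
    exact mul_inv_eq_iff_eq_mul.1 h3
  · push Not at h
    have a1 := hsq x hxV hxN
    refine ⟨x * x, a1.1, a1.2, fun g => ?_⟩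
    have hx'V : g * x * g⁻¹ ∈ V := hV.conj_mem x hxV g
    have hx'N : g * x * g⁻¹ ∉ N := by
      intro hcon
      apply hxN
      have h3 := hN.conj_mem _ hcon g⁻¹
      have e : g⁻¹ * (g * x * g⁻¹) * g⁻¹⁻¹ = x := by group
      rwa [e] at h3
    have hn := h _ hx'V hx'N
    have h3 : g * (x * x) * g⁻¹ = x * x := by
      set n := x * (g * x * g⁻¹) with hn'
      have e1 : g * x * g⁻¹ = x⁻¹ * n := by rw [hn']; group
      have e2 : g * (x * x) * g⁻¹ = (g * x * g⁻¹) * (g * x * g⁻¹) := by group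
      have e3 : n * x⁻¹ = x⁻¹ * n := hc n hn _ (V.inv_mem hxV)
      calc g * (x * x) * g⁻¹ = (x⁻¹ * n) * (x⁻¹ * n) := by rw [e2, e1]
        _ = x⁻¹ * (n * x⁻¹) * n := by group
        _ = x⁻¹ * (x⁻¹ * n) * n := by rw [e3]
        _ = x⁻¹ * x⁻¹ * (n * n) := by group
        _ = (x * x)⁻¹ := by rw [h2 n hn]; group
        _ = x * x := hinv _ (hsqN x hxV)
    exact mul_inv_eq_iff_eq_mul.1 h3

end Q182.PM_B9
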