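import Mathlib

/-!
# Automorphisms of the plane: definitions
-/

set_option autoImplicit false

namespace Q182.Pl

open MvPolynomial

/-- the polynomial ring in two variables -/
abbrev Pln (K : Type) [Field K] : Type := MvPolynomial (Fin 2) K

/-- the group of the `K`-algebra automorphisms of `K[x, y]` -/
abbrev Au (K : Type) [Field K] : Type := Pln K ≃ₐ[K] Pln K

/-- affine automorphisms -/
def IsAffine {K : Type} [Field K] (φ : Au K) : Prop :=
  ∃ (A : Matrix (Fin 2) (Fin 2) K) (c : Fin 2 → K),
    ∀ i, φ (X i) = C (A i 0) * X 0 + C (A i 1) * X 1 + C (c i)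

/-- elementary automorphisms: `x ↦ x + p(y)`, `y ↦ y` -/
def IsElem {K : Type} [Field K] (φ : Au K) : Prop :=
  ∃ p : Polynomial K, φ (X 0) = X 0 + Polynomial.aeval (X 1 : Pln K) p ∧ φ (X 1) = X 1

/-- the group of the tame automorphisms of the plane -/
noncomputable def Tame (K : Type) [Field K] : Subgroup (Au K) :=
  Subgroup.closure {φ | IsAffine φ ∨ IsElem φ}

/-- the image of the point `p` of the plane under the map defined by `φ` -/
noncomputable def pt {K : Type} [Field K] (φ : Au K) (p : Fin 2 → K) : Fin 2 → K :=
  fun i => eval p (φ (X i))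

end Q182.Pl
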