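import Pool.Agent.Q182.PlMain

/-!
# Groups of automorphisms of the plane over algebraic extensions of finite prime fields
-/

set_option autoImplicit false

namespace Q182.Pl

open MvPolynomial
open Pool.Agent.Y110.FJ
open Pool.Agent.Y462.SS (Closed)

theorem fg_mem {C : ∀ (G : Type) [Group G], Prop} (hC : Closed C) (G : Type) [Group G]
    (h : ∀ S : Finset G, C ↥(Subgroup.closure (S : Set G))) : C G := by
  classical
  refine Pool.Agent.Y430.SS.of_directed hC G (Finset G)
    (fun i j => ⟨i ∪ j, Finset.subset_union_left, Finset.subset_union_right⟩)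
    (fun S => Subgroup.closure (S : Set G)) ?_ ?_ h
  · intro S T hST
    exact Subgroup.closure_mono (by exact_mod_cast hST)
  · intro g
    exact ⟨{g}, Subgroup.subset_closure (by simp)⟩

variable {K : Type} [Field K]

theorem exists_finite_subfield (p : ℕ) [Fact p.Prime] [Algebra (ZMod p) K]
    [Algebra.IsAlgebraic (ZMod p) K] (S : Finset K) : ∃ F : Subfield K, Finite F ∧ ∀ x ∈ S, x ∈ F := by
  have h1 : FiniteDimensional (ZMod p) (IntermediateField.adjoin (ZMod p) (S : Set K)) :=
    IntermediateField.finiteDimensional_adjoin fun x _ => Algebra.IsIntegral.isIntegral x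
  have h2 : Finite (IntermediateField.adjoin (ZMod p) (S : Set K)) :=
    Module.finite_of_finite (ZMod p)
  exact ⟨(IntermediateField.adjoin (ZMod p) (S : Set K)).toSubfield, h2, fun x hx =>
    IntermediateField.subset_adjoin (ZMod p) _ hx⟩

theorem gl_mem {C : ∀ (G : Type) [Group G], Prop} (hC : Closed C) (p : ℕ) [Fact p.Prime]
    [Algebra (ZMod p) K] [Algebra.IsAlgebraic (ZMod p) K] (n : ℕ) : C (GL (Fin n) K) := by
  classical
  refine fg_mem hC _ fun S => Pool.Agent.Y430.SS.of_finite hC _ ?_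
  obtain ⟨F', hF', hS'⟩ := exists_finite_subfield p
    ((S.biUnion fun g => Finset.univ.image fun z : Fin n × Fin n => g.1 z.1 z.2) ∪
      S.biUnion fun g => Finset.univ.image fun z : Fin n × Fin n => g⁻¹.1 z.1 z.2)
  let H : Subgroup (GL (Fin n) K) :=
    { carrier := {g | ∀ i j, g.1 i j ∈ F' ∧ g⁻¹.1 i j ∈ F'}
      one_mem' := by
        intro i j
        rw [inv_one]
        show (1 : Matrix (Fin n) (Fin n) K) i j ∈ F' ∧ (1 : Matrix (Fin n) (Fin n) K) i j ∈ F'
        rw [Matrix.one_apply]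
        split_ifs
        · exact ⟨one_mem _, one_mem _⟩
        · exact ⟨zero_mem _, zero_mem _⟩
      mul_mem' := by
        intro g h hg hh i j
        rw [mul_inv_rev]
        show (g.1 * h.1) i j ∈ F' ∧ ((h⁻¹).1 * (g⁻¹).1) i j ∈ F'
        rw [Matrix.mul_apply, Matrix.mul_apply]
        exact ⟨sum_mem fun k _ => mul_mem (hg _ _).1 (hh _ _).1,
          sum_mem fun k _ => mul_mem (hh _ _).2 (hg _ _).2⟩
      inv_mem' := by
        intro g hg i j
        rw [inv_inv]
        exact ⟨(hg i j).2, (hg i j).1⟩ }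
  have h1 : Subgroup.closure (S : Set (GL (Fin n) K)) ≤ H := by
    rw [Subgroup.closure_le]
    intro g hg i j
    refine ⟨hS' _ ?_, hS' _ ?_⟩
    · refine Finset.mem_union_left _ (Finset.mem_biUnion.2 ⟨g, hg, Finset.mem_image.2
        ⟨(i, j), Finset.mem_univ _, rfl⟩⟩)
    · refine Finset.mem_union_right _ (Finset.mem_biUnion.2 ⟨g, hg, Finset.mem_image.2
        ⟨(i, j), Finset.mem_univ _, rfl⟩⟩)
  have h2 : Finite H := by
    refine Finite.of_injective (fun g : H => fun z : Fin n × Fin n =>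
      (⟨(g : GL (Fin n) K).1 z.1 z.2, (g.2 z.1 z.2).1⟩ : F')) ?_
    intro g h hgh
    apply Subtype.ext
    apply Units.ext
    ext i j
    exact congrArg Subtype.val (congrFun hgh (i, j))
  exact Finite.of_injective _ (Subgroup.inclusion_injective h1)

theorem main_fin {C : ∀ (G : Type) [Group G], Prop} (hC : ClosedE C) (p : ℕ) [Fact p.Prime]
    [Algebra (ZMod p) K] [Algebra.IsAlgebraic (ZMod p) K] (G : Subgroup (Au K))
    (hG : G ≤ Tame K) : C G := by
  classical
  refine fg_mem hC.base _ fun S => ?_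
  let T : Finset K := S.biUnion fun φ => Finset.univ.biUnion fun i : Fin 2 =>
    (((φ : Au K) (X i)).support.image fun d => ((φ : Au K) (X i)).coeff d) ∪
    (((φ : Au K)⁻¹ (X i)).support.image fun d => ((φ : Au K)⁻¹ (X i)).coeff d)
  obtain ⟨F, hF, hT⟩ := exists_finite_subfield p T
  let B : Subgroup (Au K) :=
    { carrier := {φ | ∀ q : Fin 2 → K, (∀ i, q i ∈ F) → ∀ i, pt φ q i ∈ F ∧ pt φ⁻¹ q i ∈ F}
      one_mem' := by
        intro q hq i
        rw [inv_one, pt_one]
        exact ⟨hq i, hq i⟩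
      mul_mem' := by
        intro φ ψ hφ hψ q hq i
        rw [mul_inv_rev, pt_mul, pt_mul]
        exact ⟨(hψ _ (fun j => (hφ q hq j).1) i).1, (hφ _ (fun j => (hψ q hq j).2) i).2⟩
      inv_mem' := by
        intro φ hφ q hq i
        rw [inv_inv]
        exact ⟨(hφ q hq i).2, (hφ q hq i).1⟩ }
  have hev : ∀ (w : Pln K) (q : Fin 2 → K), (∀ d ∈ w.support, w.coeff d ∈ F) → (∀ i, q i ∈ F) →
      eval q w ∈ F := by
    intro w q hw hq
    rw [eval_eq']
    exact sum_mem fun d hd => mul_mem (hw d hd) (prod_mem fun i _ => pow_mem (hq i) _)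
  let H : Subgroup (Au K) := (Subgroup.closure (S : Set G)).map G.subtype
  have hH : H ≤ B := by
    show (Subgroup.closure (S : Set G)).map G.subtype ≤ B
    rw [Subgroup.map_le_iff_le_comap, Subgroup.closure_le]
    intro φ hφ q hq i
    refine ⟨hev _ _ ?_ hq, hev _ _ ?_ hq⟩
    · intro d hd
      refine hT _ (Finset.mem_biUnion.2 ⟨φ, hφ, Finset.mem_biUnion.2 ⟨i, Finset.mem_univ _,
        Finset.mem_union_left _ (Finset.mem_image.2 ⟨d, hd, rfl⟩)⟩⟩)
    · intro d hd
      refine hT _ (Finset.mem_biUnion.2 ⟨φ, hφ, Finset.mem_biUnion.2 ⟨i, Finset.mem_univ _,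
        Finset.mem_union_right _ (Finset.mem_image.2 ⟨d, hd, rfl⟩)⟩⟩)
  have h1 : C H := by
    refine main hC (gl_mem hC.base p) H ?_ 0 ?_
    · rintro _ ⟨φ, _, rfl⟩
      exact hG φ.2
    · refine Set.Finite.subset (Set.finite_range fun z : Fin 2 → F => fun i => (z i : K)) ?_
      rintro _ ⟨φ, hφ, rfl⟩
      exact ⟨fun i => ⟨pt φ 0 i, (hH hφ 0 (fun _ => zero_mem _) i).1⟩, rfl⟩
  let e := (Subgroup.closure (S : Set G)).equivMapOfInjective G.subtype G.subtype_injective
  exact hC.base.of_injective _ _ e.toMonoidHom e.injective h1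

end Q182.Pl
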