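import Pool.Agent.Q182.PlTri

/-!
# Automorphisms of the plane: jets at the origin
-/

set_option autoImplicit false

namespace Q182.Pl

open MvPolynomial
open Pool.Agent.Y110.FJ
open Pool.Agent.Y462.SS (Closed)

variable {K : Type} [Field K]

/-- the automorphisms which fix the origin -/
noncomputable def Og (K : Type) [Field K] : Subgroup (Au K) where
  carrier := {φ | ∀ q, constantCoeff (φ q) = constantCoeff q}
  one_mem' := fun _ => rfl
  mul_mem' := by
    intro φ ψ hφ hψ q
    exact (hφ (ψ q)).trans (hψ q)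
  inv_mem' := by
    intro φ hφ q
    have h1 := hφ (φ⁻¹ q)
    have h2 : φ (φ⁻¹ q) = q := φ.apply_symm_apply q
    rw [h2] at h1
    exact h1.symm

/-- the maximal ideal of the origin -/
noncomputable def Mx (K : Type) [Field K] : Ideal (Pln K) := RingHom.ker constantCoeff

theorem X_mem_Mx (i : Fin 2) : (X i : Pln K) ∈ Mx K := by
  show constantCoeff (X i : Pln K) = 0
  exact constantCoeff_X _ _

theorem Og_pow {φ : Au K} (hφ : φ ∈ Og K) (n : ℕ) {q : Pln K} (hq : q ∈ Mx K ^ n) :
    φ q ∈ Mx K ^ n := by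
  have h1 : (Mx K).map (φ : Pln K →ₐ[K] Pln K).toRingHom ≤ Mx K := by
    rw [Ideal.map_le_iff_le_comap]
    intro q hq
    show constantCoeff (φ q) = 0
    rw [hφ q]
    exact hq
  have h2 : (Mx K ^ n).map (φ : Pln K →ₐ[K] Pln K).toRingHom ≤ Mx K ^ n := by
    rw [Ideal.map_pow]
    exact Ideal.pow_right_mono h1 n
  exact h2 (Ideal.mem_map_of_mem (φ : Pln K →ₐ[K] Pln K).toRingHom hq)

/-- the jets -/
abbrev Jt (K : Type) [Field K] (n : ℕ) : Type :=
  Pln K ⧸ ((Mx K ^ n).restrictScalars K : Submodule K (Pln K))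

instance (n : ℕ) : Module.Finite K (Jt K n) := by
  classical
  let S : Finset (Jt K n) := (Finset.range n ×ˢ Finset.range n).image
    fun z => Submodule.Quotient.mk (X 0 ^ z.1 * X 1 ^ z.2)
  refine ⟨S, ?_⟩
  rw [eq_top_iff]
  rintro v -
  obtain ⟨q, rfl⟩ := Submodule.Quotient.mk_surjective _ v
  induction q using MvPolynomial.induction_on' with
  | monomial u a =>
    have h1 : (monomial u a : Pln K) = a • (X 0 ^ u 0 * X 1 ^ u 1) := by
      rw [monomial_eq, Finsupp.prod_fintype _ _ (fun i => pow_zero _), Fin.prod_univ_two,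
        ← smul_eq_C_mul]
    rw [h1, Submodule.Quotient.mk_smul]
    refine Submodule.smul_mem _ _ ?_
    by_cases h : u 0 < n ∧ u 1 < n
    · refine Submodule.subset_span ?_
      rw [Finset.mem_coe, Finset.mem_image]
      exact ⟨(u 0, u 1), by simp [h.1, h.2], rfl⟩
    · have h2 : (X 0 ^ u 0 * X 1 ^ u 1 : Pln K) ∈ Mx K ^ n := by
        rcases not_and_or.1 h with h | h
        · exact Ideal.mul_mem_right _ _ (Ideal.pow_le_pow_right (not_lt.1 h)
            (Ideal.pow_mem_pow (X_mem_Mx 0) _))
        · exact Ideal.mul_mem_left _ _ (Ideal.pow_le_pow_right (not_lt.1 h)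
            (Ideal.pow_mem_pow (X_mem_Mx 1) _))
      have h3 : (Submodule.Quotient.mk (X 0 ^ u 0 * X 1 ^ u 1 : Pln K) : Jt K n) = 0 :=
        (Submodule.Quotient.mk_eq_zero _).2 h2
      rw [h3]
      exact Submodule.zero_mem _
  | add p q hp hq =>
    rw [Submodule.Quotient.mk_add]
    exact Submodule.add_mem _ hp hq

/-- the action on the jets -/
noncomputable def jet (K : Type) [Field K] (n : ℕ) : Og K →* Module.End K (Jt K n) where
  toFun φ := Submodule.mapQ _ _ ((φ : Au K) : Pln K →ₐ[K] Pln K).toLinearMap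
    (fun _ hq => Og_pow φ.2 n hq)
  map_one' := by
    refine LinearMap.ext fun v => ?_
    obtain ⟨q, rfl⟩ := Submodule.Quotient.mk_surjective _ v
    rfl
  map_mul' φ ψ := by
    refine LinearMap.ext fun v => ?_
    obtain ⟨q, rfl⟩ := Submodule.Quotient.mk_surjective _ v
    rfl

theorem jet_one {n : ℕ} {φ : Og K} (h : jet K n φ = 1) (q : Pln K) :
    (φ : Au K) q - q ∈ Mx K ^ n := by
  have h1 : jet K n φ (Submodule.Quotient.mk q) = Submodule.Quotient.mk q := by
    rw [h]
    rfl
  exact (Submodule.Quotient.eq _).1 h1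

/-- the representation on the jets by matrices -/
theorem exists_rep (n : ℕ) : ∃ (m : ℕ) (f : Og K →* GL (Fin m) K),
    ∀ φ : Og K, f φ = 1 → ∀ q, (φ : Au K) q - q ∈ Mx K ^ n := by
  let b := Module.finBasis K (Jt K n)
  let e := LinearMap.toMatrixAlgEquiv b
  refine ⟨_, (Units.map e.toMulEquiv.toMonoidHom).comp (jet K n).toHomUnits, ?_⟩
  intro φ h q
  refine jet_one ?_ q
  have h1 : e (jet K n φ) = 1 := congrArg Units.val h
  exact e.injective (h1.trans (map_one e).symm)

theorem eval_pow {f : Pln K →ₐ[K] Polynomial K} (hf : ∀ i, f (X i) ∈ Ideal.span {Polynomial.X})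
    {n : ℕ} {q : Pln K} (hq : q ∈ Mx K ^ n) : f q ∈ Ideal.span {(Polynomial.X : Polynomial K) ^ n} := by
  have h0 : ∀ p : Pln K, f p - Polynomial.C (constantCoeff p) ∈
      Ideal.span {(Polynomial.X : Polynomial K)} := by
    intro p
    induction p using MvPolynomial.induction_on with
    | C a =>
      have h1 : f (C a) = Polynomial.C a := f.commutes a
      rw [h1, constantCoeff_C, sub_self]
      exact Ideal.zero_mem _
    | add p q hp hq =>
      have h1 : f (p + q) - Polynomial.C (constantCoeff (p + q)) =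
          (f p - Polynomial.C (constantCoeff p)) + (f q - Polynomial.C (constantCoeff q)) := by
        rw [map_add, map_add, Polynomial.C_add]
        ring
      rw [h1]
      exact Ideal.add_mem _ hp hq
    | mul_X p i _ =>
      rw [map_mul, map_mul, constantCoeff_X, mul_zero, Polynomial.C_0, sub_zero]
      exact Ideal.mul_mem_left _ _ (hf i)
  have h1 : (Mx K).map f.toRingHom ≤ Ideal.span {(Polynomial.X : Polynomial K)} := by
    rw [Ideal.map_le_iff_le_comap]
    intro p hp
    have h2 := h0 p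
    have h3 : constantCoeff p = 0 := hp
    rw [h3, Polynomial.C_0, sub_zero] at h2
    exact h2
  have h2 : (Mx K ^ n).map f.toRingHom ≤ Ideal.span {(Polynomial.X : Polynomial K) ^ n} := by
    rw [Ideal.map_pow, ← Ideal.span_singleton_pow]
    exact Ideal.pow_right_mono h1 n
  exact h2 (Ideal.mem_map_of_mem f.toRingHom hq)

theorem Wd_pow {d : ℕ} (hd : 0 < d) {w : Pln K} (hw : w ∈ Wd K d) (h : w ∈ Mx K ^ (d + 1)) :
    w = 0 := by
  obtain ⟨a, q, hq, rfl⟩ := mem_Wd.1 hw
  have hX : (Polynomial.X : Polynomial K) ∈ Ideal.span {(Polynomial.X : Polynomial K)} :=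
    Ideal.subset_span rfl
  have h1 := eval_pow (f := aeval ![Polynomial.X, 0]) (by
    intro i
    rw [aeval_X]
    fin_cases i
    · exact hX
    · exact Ideal.zero_mem _) h
  have h2 := eval_pow (f := aeval ![0, Polynomial.X]) (by
    intro i
    rw [aeval_X]
    fin_cases i
    · exact Ideal.zero_mem _
    · exact hX) h
  rw [Ideal.mem_span_singleton, Polynomial.X_pow_dvd_iff] at h1 h2
  have ha : a = 0 := by
    have h3 := h1 1 (by omega)
    rw [map_add, map_smul, map_mul, aeval_X, aeval_X] at h3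
    simpa using h3
  have hq0 : q = 0 := by
    ext n
    rw [Polynomial.coeff_zero]
    by_cases hn : d ≤ n
    · exact mem_dLT.1 hq n hn
    · have h3 := h2 (n + 1) (by omega)
      rw [map_add, map_smul, map_mul, aeval_X, aeval_X, ← Polynomial.aeval_algHom_apply,
        aeval_X] at h3
      simpa [Polynomial.aeval_X_left] using h3
  rw [ha, hq0]
  simp

theorem constantCoeff_Wd {d : ℕ} {w : Pln K} (hw : w ∈ Wd K d) : constantCoeff w = 0 := by
  obtain ⟨a, q, hq, rfl⟩ := mem_Wd.1 hw
  rw [smul_eq_C_mul, map_add, map_mul, map_mul, constantCoeff_X, constantCoeff_X,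
      mul_zero, zero_mul, add_zero]

theorem mem_Og_of {φ : Au K} (h : ∀ i, constantCoeff (φ (X i)) = 0) : φ ∈ Og K := by
  have h3 : (constantCoeff : Pln K →+* K).comp (φ : Pln K →ₐ[K] Pln K).toRingHom =
      constantCoeff := by
    apply MvPolynomial.ringHom_ext
    · intro a
      show constantCoeff (φ (C a)) = _
      have h4 : φ (C a) = C a := φ.commutes a
      rw [h4]
    · intro i
      show constantCoeff (φ (X i)) = _
      rw [constantCoeff_X]
      exact h i
  intro q
  exact congrArg (fun f : Pln K →+* K => f q) h3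

theorem A0_le : A0 K ≤ Og K := by
  intro φ hφ
  obtain ⟨h0, h1⟩ := mem_A0.1 hφ
  apply mem_Og_of
  intro i
  fin_cases i
  · exact constantCoeff_Wd h0
  · exact constantCoeff_Wd h1

theorem T0_le (d : ℕ) : T0 K d ≤ Og K := by
  intro φ hφ
  obtain ⟨⟨e, he⟩, h0⟩ := mem_T0.1 hφ
  apply mem_Og_of
  intro i
  fin_cases i
  · exact constantCoeff_Wd h0
  · show constantCoeff (φ (X 1)) = 0
    rw [he, smul_eq_C_mul, map_mul, constantCoeff_X, mul_zero]

theorem AT_le (d : ℕ) (b : Bool) : AT K d b ≤ Og K := by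
  cases b
  · exact A0_le
  · exact T0_le d

theorem AT_Wd {d : ℕ} (hd : 0 < d) {b : Bool} {φ : Au K} (h : φ ∈ AT K d b) (i : Fin 2) :
    φ (X i) - X i ∈ Wd K d := by
  have h1 : ∀ i, (X i : Pln K) ∈ Wd K d := by
    intro i
    fin_cases i
    · exact X0_mem d
    · exact X1_mem hd
  refine Submodule.sub_mem _ ?_ (h1 i)
  cases b
  · obtain ⟨h2, h3⟩ := mem_A0.1 h
    fin_cases i
    · exact Wd_mono hd h2
    · exact Wd_mono hd h3
  · obtain ⟨⟨e, he⟩, h2⟩ := mem_T0.1 h
    fin_cases i
    · exact h2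
    · show φ (X 1) ∈ _
      rw [he]
      exact Submodule.smul_mem _ _ (h1 1)

/-- the group generated by the linear automorphisms and the triangular automorphisms of degree
at most `d` -/
theorem gen_mem {C : ∀ (G : Type) [Group G], Prop} (hC : ClosedE C)
    (hK : ∀ n : ℕ, C (GL (Fin n) K)) {d : ℕ} (hd : 0 < d) : C ↥(A0 K ⊔ T0 K d) := by
  obtain ⟨m, f, hf⟩ := exists_rep (K := K) (d + 1)
  let A : Bool → Subgroup (Og K) := fun b => (AT K d b).subgroupOf (Og K)
  have h1 : C ↥(A false ⊔ A true) := by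
    refine amalg_mem hC A (hK m) f ?_ ?_
    · intro b a ha h
      have h2 : ∀ i, (a : Au K) (X i) = X i := by
        intro i
        have h3 := Wd_pow hd (AT_Wd hd (b := b) ha i) (hf a h (X i))
        exact sub_eq_zero.1 h3
      apply Subtype.ext
      apply AlgEquiv.ext
      intro q
      have h4 : ((a : Au K) : Pln K →ₐ[K] Pln K) = AlgHom.id K _ := MvPolynomial.algHom_ext h2
      exact congrArg (fun g : Pln K →ₐ[K] Pln K => g q) h4
    · intro L hne hL h
      let L' : List (Bool × Au K) := L.map fun s => (s.1, (s.2 : Au K))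
      refine word_ne hd L' (by simpa [L'] using hne) ⟨?_, ?_⟩ ?_
      · intro s hs
        obtain ⟨t, ht, rfl⟩ := List.mem_map.1 hs
        exact hL.1 t ht
      · exact (List.isChain_map _).2 hL.2
      · have h2 := congrArg Subtype.val h
        rw [← Subgroup.subtype_apply, map_list_prod, List.map_map] at h2
        rw [List.map_map]
        exact h2
  have h2 : ∀ b, (A b).map (Og K).subtype = AT K d b := by
    intro b
    rw [Subgroup.map_subgroupOf_eq_of_le (AT_le d b)]
  have h3 : (A false ⊔ A true).map (Og K).subtype = A0 K ⊔ T0 K d := by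
    rw [Subgroup.map_sup, h2, h2]
    rfl
  rw [← h3]
  let e := (A false ⊔ A true).equivMapOfInjective (Og K).subtype (Og K).subtype_injective
  exact hC.base.of_injective _ _ e.symm.toMonoidHom e.symm.injective h1

end Q182.Pl
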