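import Pool.Agent.Q182.PlJet
import Pool.Agent.Y430.SS.Lf

/-!
# Groups of automorphisms of the plane with a finite orbit
-/

set_option autoImplicit false

namespace Q182.Pl

open MvPolynomial
open Pool.Agent.Y110.FJ
open Pool.Agent.Y462.SS (Closed)

variable {K : Type} [Field K]

/-- the group generated by the linear and the triangular automorphisms which fix the origin -/
noncomputable def Gm (K : Type) [Field K] : Subgroup (Au K) := ⨆ d : ℕ, (A0 K ⊔ T0 K (d + 1))

theorem Gm_dir : Directed (· ≤ ·) fun d : ℕ => A0 K ⊔ T0 K (d + 1) := by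
  intro i j
  refine ⟨max i j, ?_, ?_⟩
  · exact sup_le_sup_left (T0_mono (by simp)) _
  · exact sup_le_sup_left (T0_mono (by simp)) _

theorem Gm_mem {C : ∀ (G : Type) [Group G], Prop} (hC : ClosedE C)
    (hK : ∀ n : ℕ, C (GL (Fin n) K)) : C ↥(Gm K) := by
  refine Pool.Agent.Y430.SS.of_directed hC.base ↥(Gm K) ℕ
    (fun i j => ⟨max i j, le_max_left _ _, le_max_right _ _⟩)
    (fun d => (A0 K ⊔ T0 K (d + 1)).subgroupOf (Gm K)) ?_ ?_ ?_
  · intro i j hij φ hφ
    exact (sup_le_sup_left (T0_mono (by omega)) (A0 K) : A0 K ⊔ T0 K (i + 1) ≤ _) hφ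
  · intro φ
    obtain ⟨i, hi⟩ := (Subgroup.mem_iSup_of_directed Gm_dir).1 φ.2
    exact ⟨i, hi⟩
  · intro i
    refine hC.base.of_injective _ _ (((A0 K ⊔ T0 K (i + 1)).subgroupOfEquivOfLe
      (le_iSup (fun d : ℕ => A0 K ⊔ T0 K (d + 1)) i)).toMonoidHom) ?_
      (gen_mem hC hK (Nat.succ_pos i))
    exact MulEquiv.injective _

/-- translations -/
noncomputable def tr (p : Fin 2 → K) : Au K :=
  AlgEquiv.ofAlgHom (aeval fun i => X i + C (p i)) (aeval fun i => X i - C (p i))
    (by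
      apply MvPolynomial.algHom_ext
      intro i
      rw [AlgHom.comp_apply, aeval_X, map_sub, aeval_X, aeval_C]
      simp)
    (by
      apply MvPolynomial.algHom_ext
      intro i
      rw [AlgHom.comp_apply, aeval_X, map_add, aeval_X, aeval_C]
      simp)

theorem tr_X (p : Fin 2 → K) (i : Fin 2) : tr p (X i) = X i + C (p i) := by
  show aeval (fun i => X i + C (p i)) (X i : Pln K) = _
  rw [aeval_X]

theorem tr_inv_X (p : Fin 2 → K) (i : Fin 2) : (tr p)⁻¹ (X i) = X i - C (p i) := by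
  show aeval (fun i => X i - C (p i)) (X i : Pln K) = _
  rw [aeval_X]

theorem Au_C (φ : Au K) (a : K) : φ (C a) = C a := φ.commutes a

theorem inv_affine {φ : Au K} (h : IsAffine φ) : IsAffine φ⁻¹ := by
  obtain ⟨A, c, h⟩ := h
  let W : Submodule K (Pln K) := Submodule.span K {1, X 0, X 1}
  have : FiniteDimensional K W := FiniteDimensional.span_of_finite K (by simp)
  have h1 : (1 : Pln K) ∈ W := Submodule.subset_span (by simp)
  have hX : ∀ i, (X i : Pln K) ∈ W := by
    intro i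
    fin_cases i
    · exact Submodule.subset_span (by simp)
    · exact Submodule.subset_span (by simp)
  have hφX : ∀ i, φ (X i) ∈ W := by
    intro i
    rw [h i, ← smul_eq_C_mul, ← smul_eq_C_mul, ← mul_one (C (c i)), ← smul_eq_C_mul]
    exact Submodule.add_mem _ (Submodule.add_mem _ (Submodule.smul_mem _ _ (hX 0))
      (Submodule.smul_mem _ _ (hX 1))) (Submodule.smul_mem _ _ h1)
  have h2 : φ ∈ stW W := by
    refine mem_stW ?_
    intro q hq
    obtain ⟨a, b, e, rfl⟩ := Submodule.mem_span_triple.1 hq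
    rw [map_add, map_add, map_smul, map_smul, map_smul, map_one]
    exact Submodule.add_mem _ (Submodule.add_mem _ (Submodule.smul_mem _ _ h1)
      (Submodule.smul_mem _ _ (hφX 0))) (Submodule.smul_mem _ _ (hφX 1))
  have h3 : ∀ i, ∃ a b e : K, a • (1 : Pln K) + b • X 0 + e • X 1 = φ⁻¹ (X i) := fun i =>
    Submodule.mem_span_triple.1 (stW_apply ((stW W).inv_mem h2) (hX i))
  choose a b e h4 using h3
  refine ⟨Matrix.of fun i j => if j = 0 then b i else e i, a, ?_⟩
  intro i
  rw [← h4 i, smul_eq_C_mul, smul_eq_C_mul, smul_eq_C_mul]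
  simp only [Matrix.of_apply, if_true]
  rw [if_neg (by decide)]
  ring

theorem inv_elem {φ : Au K} (h : IsElem φ) : IsElem φ⁻¹ := by
  obtain ⟨p, h0, h1⟩ := h
  have h2 : φ⁻¹ (X 1) = X 1 := by
    conv_lhs => rw [← h1]
    exact φ.symm_apply_apply _
  refine ⟨-p, ?_, h2⟩
  have h3 : φ (X 0 - Polynomial.aeval (X 1 : Pln K) p) = X 0 := by
    have h4 : φ (Polynomial.aeval (X 1 : Pln K) p) = Polynomial.aeval (X 1 : Pln K) p := by
      have h5 := (Polynomial.aeval_algHom_apply (φ : Pln K →ₐ[K] Pln K) (X 1) p).symm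
      have h6 : (φ : Pln K →ₐ[K] Pln K) (X 1) = X 1 := h1
      rw [h6] at h5
      exact h5
    rw [map_sub, h0, h4, add_sub_cancel_right]
  have h4 : φ⁻¹ (X 0) = X 0 - Polynomial.aeval (X 1 : Pln K) p := by
    conv_lhs => rw [← h3]
    exact φ.symm_apply_apply _
  rw [h4, map_neg, sub_eq_add_neg]

theorem inv_gen {φ : Au K} (h : IsAffine φ ∨ IsElem φ) : IsAffine φ⁻¹ ∨ IsElem φ⁻¹ := by
  rcases h with h | h
  · exact Or.inl (inv_affine h)
  · exact Or.inr (inv_elem h)

theorem gen_tr {φ : Au K} (h : IsAffine φ ∨ IsElem φ) (q : Fin 2 → K) :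
    ∃ q' : Fin 2 → K, tr q * φ * (tr q')⁻¹ ∈ Gm K := by
  rcases h with ⟨A, c, h⟩ | ⟨p, h0, h1⟩
  · refine ⟨fun i => A i 0 * q 0 + A i 1 * q 1 + c i, ?_⟩
    refine Subgroup.mem_iSup_of_mem 0 (Subgroup.mem_sup_left ?_)
    have h2 : ∀ i, (tr q * φ * (tr fun i => A i 0 * q 0 + A i 1 * q 1 + c i)⁻¹ : Au K) (X i) =
        A i 0 • X 0 + A i 1 • X 1 := by
      intro i
      show tr q (φ ((tr fun i => A i 0 * q 0 + A i 1 * q 1 + c i)⁻¹ (X i))) = _
      rw [tr_inv_X, map_sub, Au_C, h, map_sub, map_add, map_add, map_mul, map_mul, Au_C, Au_C,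
        Au_C, Au_C, tr_X, tr_X, C_add, C_add, C_mul, C_mul, smul_eq_C_mul, smul_eq_C_mul]
      ring
    rw [mem_A0, h2, h2]
    exact ⟨mem_W1.2 ⟨_, _, rfl⟩, mem_W1.2 ⟨_, _, rfl⟩⟩
  · let r : Polynomial K := p.comp (Polynomial.X + Polynomial.C (q 1))
    refine ⟨![q 0 + r.coeff 0, q 1], ?_⟩
    refine Subgroup.mem_iSup_of_mem r.natDegree (Subgroup.mem_sup_right ?_)
    have hr : tr q (Polynomial.aeval (X 1 : Pln K) p) = Polynomial.aeval (X 1 : Pln K) r := by
      have h5 := (Polynomial.aeval_algHom_apply (tr q : Pln K →ₐ[K] Pln K) (X 1) p).symm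
      have h6 : (tr q : Pln K →ₐ[K] Pln K) (X 1) = X 1 + C (q 1) := tr_X q 1
      rw [h6] at h5
      rw [Polynomial.aeval_comp, map_add, Polynomial.aeval_X, Polynomial.aeval_C]
      exact h5
    rw [mem_T0]
    constructor
    · refine ⟨1, ?_⟩
      show tr q (φ ((tr ![q 0 + r.coeff 0, q 1])⁻¹ (X 1))) = _
      rw [tr_inv_X, map_sub, Au_C, h1, map_sub, tr_X, Au_C, one_smul]
      simp
    · have h2 : (tr q * φ * (tr ![q 0 + r.coeff 0, q 1])⁻¹ : Au K) (X 0) =
          X 0 + (Polynomial.aeval (X 1 : Pln K) r - C (r.coeff 0)) := by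
        show tr q (φ ((tr ![q 0 + r.coeff 0, q 1])⁻¹ (X 0))) = _
        rw [tr_inv_X, map_sub, Au_C, h0, map_sub, map_add, tr_X, Au_C, hr]
        simp only [Matrix.cons_val_zero, C_add]
        ring
      rw [h2]
      refine mem_Wd.2 ⟨1, r.divX, ?_, ?_⟩
      · rw [mem_dLT]
        intro n hn
        rw [Polynomial.coeff_divX]
        exact Polynomial.coeff_eq_zero_of_natDegree_lt (by omega)
      · rw [one_smul]
        congr 1
        conv_lhs => rw [← Polynomial.divX_mul_X_add r]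
        rw [map_add, map_mul, Polynomial.aeval_X, Polynomial.aeval_C]
        simp [mul_comm]

theorem tame_decomp {φ : Au K} (h : φ ∈ Tame K) : ∃ q : Fin 2 → K, φ * (tr q)⁻¹ ∈ Gm K := by
  induction h using Subgroup.closure_induction_right with
  | one =>
    refine ⟨0, ?_⟩
    have h1 : tr (0 : Fin 2 → K) = 1 := by
      apply AlgEquiv.ext
      intro q
      have h2 : (tr (0 : Fin 2 → K) : Pln K →ₐ[K] Pln K) = AlgHom.id K _ := by
        apply MvPolynomial.algHom_ext
        intro i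
        show tr (0 : Fin 2 → K) (X i) = X i
        rw [tr_X]
        simp
      exact congrArg (fun g : Pln K →ₐ[K] Pln K => g q) h2
    rw [h1, inv_one, mul_one]
    exact one_mem _
  | mul_right x hx y hy ih =>
    obtain ⟨q, hq⟩ := ih
    obtain ⟨q', hq'⟩ := gen_tr hy q
    refine ⟨q', ?_⟩
    have h1 : x * y * (tr q')⁻¹ = (x * (tr q)⁻¹) * (tr q * y * (tr q')⁻¹) := by group
    rw [h1]
    exact mul_mem hq hq'
  | mul_inv_cancel x hx y hy ih =>
    obtain ⟨q, hq⟩ := ih
    obtain ⟨q', hq'⟩ := gen_tr (inv_gen hy) q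
    refine ⟨q', ?_⟩
    have h1 : x * y⁻¹ * (tr q')⁻¹ = (x * (tr q)⁻¹) * (tr q * y⁻¹ * (tr q')⁻¹) := by group
    rw [h1]
    exact mul_mem hq hq'

theorem Gm_le : Gm K ≤ Og K := iSup_le fun _ => sup_le A0_le (T0_le _)

theorem tame_Og {φ : Au K} (h : φ ∈ Tame K) (h' : φ ∈ Og K) : φ ∈ Gm K := by
  obtain ⟨q, hq⟩ := tame_decomp h
  have h1 : (tr q)⁻¹ ∈ Og K := by
    have h2 : (tr q)⁻¹ = φ⁻¹ * (φ * (tr q)⁻¹) := by group
    rw [h2]
    exact mul_mem (inv_mem h') (Gm_le hq)
  have h2 : q = 0 := by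
    funext i
    have h3 := h1 (X i)
    rw [tr_inv_X, map_sub, constantCoeff_X, constantCoeff_C] at h3
    simpa using h3
  have h3 : φ = (φ * (tr q)⁻¹) * tr q := by group
  have h4 : tr q = 1 := by
    rw [h2]
    apply AlgEquiv.ext
    intro q
    have h2 : (tr (0 : Fin 2 → K) : Pln K →ₐ[K] Pln K) = AlgHom.id K _ := by
      apply MvPolynomial.algHom_ext
      intro i
      show tr (0 : Fin 2 → K) (X i) = X i
      rw [tr_X]
      simp
    exact congrArg (fun g : Pln K →ₐ[K] Pln K => g q) h2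
  rw [h4, mul_one] at h3
  rw [h3, ← mul_one φ]
  have h5 := hq
  rw [h4] at h5
  exact h5

theorem tr_Tame (q : Fin 2 → K) : tr q ∈ Tame K := by
  refine Subgroup.subset_closure (Or.inl ⟨!![1, 0; 0, 1], q, ?_⟩)
  intro i
  rw [tr_X]
  fin_cases i <;> simp

theorem constantCoeff_tr (p : Fin 2 → K) (q : Pln K) : constantCoeff (tr p q) = eval p q := by
  have h1 : (constantCoeff : Pln K →+* K).comp (tr p : Pln K →ₐ[K] Pln K).toRingHom = eval p := by
    apply MvPolynomial.ringHom_ext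
    · intro a
      show constantCoeff (tr p (C a)) = _
      rw [Au_C, constantCoeff_C, eval_C]
    · intro i
      show constantCoeff (tr p (X i)) = _
      rw [tr_X, map_add, constantCoeff_X, constantCoeff_C, zero_add, eval_X]
  exact congrArg (fun f : Pln K →+* K => f q) h1

theorem pt_mul (φ ψ : Au K) (p : Fin 2 → K) : pt (φ * ψ) p = pt ψ (pt φ p) := by
  funext i
  show eval p (φ (ψ (X i))) = eval (pt φ p) (ψ (X i))
  have h1 : (eval p).comp (φ : Pln K →ₐ[K] Pln K).toRingHom = eval (pt φ p) := by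
    apply MvPolynomial.ringHom_ext
    · intro a
      show eval p (φ (C a)) = _
      rw [Au_C, eval_C, eval_C]
    · intro i
      show eval p (φ (X i)) = _
      rw [eval_X]
      rfl
  exact congrArg (fun f : Pln K →+* K => f (ψ (X i))) h1

theorem pt_one (p : Fin 2 → K) : pt (1 : Au K) p = p := by
  funext i
  show eval p (X i) = _
  rw [eval_X]

/-- **groups of tame automorphisms of the plane with a finite orbit** -/
theorem main {C : ∀ (G : Type) [Group G], Prop} (hC : ClosedE C)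
    (hK : ∀ n : ℕ, C (GL (Fin n) K)) (G : Subgroup (Au K)) (hG : G ≤ Tame K) (p : Fin 2 → K)
    (hp : {q | ∃ φ ∈ G, pt φ p = q}.Finite) : C G := by
  let _ : MulAction G (Fin 2 → K) :=
    { smul := fun φ q => pt (φ : Au K)⁻¹ q
      one_smul := fun q => by
        show pt ((1 : G) : Au K)⁻¹ q = q
        rw [OneMemClass.coe_one, inv_one, pt_one]
      mul_smul := fun φ ψ q => by
        show pt ((φ * ψ : G) : Au K)⁻¹ q = pt (φ : Au K)⁻¹ (pt (ψ : Au K)⁻¹ q)
        rw [← pt_mul, ← mul_inv_rev]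
        rfl }
  have hfin : Finite (MulAction.orbit G p) := by
    refine (hp.subset ?_).to_subtype
    rintro _ ⟨φ, rfl⟩
    exact ⟨(φ : Au K)⁻¹, inv_mem φ.2, rfl⟩
  have hfin2 : Finite (G ⧸ MulAction.stabilizer G p) :=
    Finite.of_equiv _ (MulAction.orbitEquivQuotientStabilizer G p)
  have hfi : (MulAction.stabilizer G p).FiniteIndex := Subgroup.finiteIndex_of_finite_quotient
  refine hC.base.finiteIndex G (MulAction.stabilizer G p) hfi ?_
  have key : ∀ φ : MulAction.stabilizer G p, tr p * ((φ : G) : Au K) * (tr p)⁻¹ ∈ Gm K := by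
    intro φ
    apply tame_Og
    · exact mul_mem (mul_mem (tr_Tame p) (hG (φ : G).2)) (inv_mem (tr_Tame p))
    · intro q
      show constantCoeff (tr p (((φ : G) : Au K) ((tr p)⁻¹ q))) = _
      have h1 : pt ((φ : G) : Au K)⁻¹ p = p := φ.2
      have h2 : pt ((φ : G) : Au K) p = p := by
        have h6 : pt ((φ : G) : Au K) (pt ((φ : G) : Au K)⁻¹ p) = p := by
          rw [← pt_mul, inv_mul_cancel, pt_one]
        rw [h1] at h6
        exact h6
      rw [constantCoeff_tr]
      have h3 : ∀ w, eval p (((φ : G) : Au K) w) = eval p w := by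
        intro w
        have h4 : (eval p).comp (((φ : G) : Au K) : Pln K →ₐ[K] Pln K).toRingHom = eval p := by
          apply MvPolynomial.ringHom_ext
          · intro a
            show eval p (((φ : G) : Au K) (MvPolynomial.C a)) = _
            rw [Au_C, eval_C]
          · intro i
            show eval p (((φ : G) : Au K) (X i)) = _
            rw [eval_X]
            exact congrFun h2 i
        exact congrArg (fun f : Pln K →+* K => f w) h4
      rw [h3, ← constantCoeff_tr]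
      have h5 : tr p ((tr p)⁻¹ q) = q := (tr p).apply_symm_apply q
      rw [h5]
  refine hC.base.of_injective _ _ (MonoidHom.mk' (fun φ : MulAction.stabilizer G p =>
    (⟨tr p * ((φ : G) : Au K) * (tr p)⁻¹, key φ⟩ : Gm K)) ?_) ?_ (Gm_mem hC hK)
  · intro φ ψ
    apply Subtype.ext
    show tr p * (((φ : G) : Au K) * ((ψ : G) : Au K)) * (tr p)⁻¹ =
      (tr p * ((φ : G) : Au K) * (tr p)⁻¹) * (tr p * ((ψ : G) : Au K) * (tr p)⁻¹)
    group
  · intro φ ψ h
    have h1 : tr p * ((φ : G) : Au K) * (tr p)⁻¹ = tr p * ((ψ : G) : Au K) * (tr p)⁻¹ :=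
      congrArg Subtype.val h
    exact Subtype.ext (Subtype.ext (mul_left_cancel (mul_right_cancel h1)))

end Q182.Pl
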