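import Pool.Agent.Q182.TowRoot

/-!
# Subgroups generated by two subgroups with nontrivial alternating products
-/

set_option autoImplicit false

namespace Q182.Pl

open Pool.Agent.Y110.FJ
open Pool.Agent.Y43.CH (pr Red exists_pr red_of_min pr_cons pr_nil)
open Monoid

variable {Γ : Type} [Group Γ]

/-- alternating words in the elements of two subgroups which are not in the intersection -/
def RedW (A : Bool → Subgroup Γ) (L : List (Bool × Γ)) : Prop :=
  (∀ s ∈ L, s.2 ∈ A s.1 ∧ s.2 ∉ A (!s.1)) ∧ L.IsChain (fun s t => s.1 ≠ t.1)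

theorem amalg_mem {C : ∀ (G : Type) [Group G], Prop} (hC : ClosedE C) (A : Bool → Subgroup Γ)
    {P : Type} [Group P] (hP : C P) (f : Γ →* P) (hf : ∀ b, ∀ a ∈ A b, f a = 1 → a = 1)
    (hw : ∀ L : List (Bool × Γ), L ≠ [] → RedW A L → (L.map Prod.snd).prod ≠ 1) :
    C ↥(A false ⊔ A true) := by
  let K : Subgroup Γ := A false ⊓ A true
  let φ : ∀ b : Bool, K →* A b := fun b =>
    match b with
    | false => Subgroup.inclusion inf_le_left
    | true => Subgroup.inclusion inf_le_right
  have hφ : ∀ b (x : K), ((φ b x : A b) : Γ) = x := by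
    intro b x
    cases b <;> rfl
  have h1 : C (PushoutI φ) := by
    refine Q182.Tow.push_mem φ hC hP (fun b => f.comp (A b).subtype) ?_ ?_
    · intro b
      rw [injective_iff_map_eq_one]
      intro a ha
      exact Subtype.ext (hf b a a.2 ha)
    · intro x
      rfl
  have hψ : ∀ b, ((A b).subtype).comp (φ b) = K.subtype := by
    intro b
    ext x
    exact hφ b x
  let Ψ : PushoutI φ →* Γ := PushoutI.lift (fun b => (A b).subtype) K.subtype hψ
  have hΨ : ∀ L : List (Σ b, A b), Ψ (pr φ L) = (L.map fun s => (s.2 : Γ)).prod := by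
    intro L
    induction L with
    | nil => exact map_one Ψ
    | cons s L ih =>
      rw [pr_cons, map_mul, ih, List.map_cons, List.prod_cons]
      congr 1
  have hinj : Function.Injective Ψ := by
    rw [injective_iff_map_eq_one]
    intro z hz
    classical
    have hex : ∃ n, ∃ L : List (Σ b, A b), L.length = n ∧ pr φ L = z := by
      obtain ⟨L, hL⟩ := exists_pr z
      exact ⟨_, L, rfl, hL⟩
    obtain ⟨L, hn, hL⟩ := Nat.find_spec hex
    have hmin : ∀ L' : List (Σ b, A b), pr φ L' = z → L.length ≤ L'.length := by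
      intro L' h
      rw [hn]
      exact Nat.find_min' hex ⟨L', rfl, h⟩
    by_cases h2 : 2 ≤ L.length
    · exfalso
      have hr := red_of_min L h2 (fun L' h => hmin L' (h.trans hL))
      let L₀ : List (Bool × Γ) := L.map fun s => (s.1, (s.2 : Γ))
      have h3 : L₀ ≠ [] := by
        intro h
        have h4 := congrArg List.length h
        rw [List.length_map] at h4
        simp at h4
        rw [h4] at h2
        simp at h2
      refine hw L₀ h3 ⟨?_, ?_⟩ ?_
      · intro s hs
        obtain ⟨t, ht, rfl⟩ := List.mem_map.1 hs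
        refine ⟨t.2.2, ?_⟩
        intro h4
        apply hr.1 t ht
        obtain ⟨b, x⟩ := t
        have hx : (x : Γ) ∈ K := by
          cases b
          · exact ⟨x.2, h4⟩
          · exact ⟨h4, x.2⟩
        exact ⟨⟨x, hx⟩, Subtype.ext (hφ b ⟨x, hx⟩)⟩
      · exact (List.isChain_map _).2 hr.2
      · rw [← hz, ← hL, hΨ, List.map_map]
        rfl
    · cases L with
      | nil => exact hL.symm
      | cons s L =>
        cases L with
        | cons t L => simp at h2
        | nil =>
          rw [← hL, hΨ] at hz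
          simp only [List.map_cons, List.map_nil, List.prod_cons, List.prod_nil, mul_one] at hz
          have h4 : s.2 = 1 := Subtype.ext hz
          rw [← hL, pr_cons, pr_nil, mul_one, h4, map_one]
  have hran : ∀ x ∈ A false ⊔ A true, x ∈ Ψ.range := by
    intro x hx
    have h2 : A false ⊔ A true ≤ Ψ.range := by
      refine sup_le ?_ ?_
      · intro a ha
        exact ⟨PushoutI.of false ⟨a, ha⟩, PushoutI.lift_of _ _ _ _⟩
      · intro a ha
        exact ⟨PushoutI.of true ⟨a, ha⟩, PushoutI.lift_of _ _ _ _⟩
    exact h2 hx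
  let e : PushoutI φ ≃* Ψ.range := MonoidHom.ofInjective hinj
  refine hC.base.of_injective _ _ (e.symm.toMonoidHom.comp
    (MonoidHom.mk' (fun x : ↥(A false ⊔ A true) => (⟨x, hran x x.2⟩ : Ψ.range))
      (fun _ _ => rfl))) ?_ h1
  intro x y hxy
  have h2 : (⟨x, hran x x.2⟩ : Ψ.range) = ⟨y, hran y y.2⟩ := e.symm.injective hxy
  exact Subtype.ext (congrArg (fun u : Ψ.range => (u : Γ)) h2)

end Q182.Pl
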