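import Pool.Agent.Q182.PlDefs

/-!
# Automorphisms of the plane: linear and triangular automorphisms
-/

set_option autoImplicit false

namespace Q182.Pl

open MvPolynomial

variable {K : Type} [Field K]

/-- the stabilizer of a subspace -/
def stW (W : Submodule K (Pln K)) : Subgroup (Au K) where
  carrier := {φ | W.map (φ : Pln K →ₐ[K] Pln K).toLinearMap = W}
  one_mem' := by
    show W.map _ = W
    exact Submodule.map_id W
  mul_mem' := by
    intro φ ψ hφ hψ
    show W.map _ = W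
    have h1 : ((φ * ψ : Au K) : Pln K →ₐ[K] Pln K).toLinearMap =
        (φ : Pln K →ₐ[K] Pln K).toLinearMap ∘ₗ (ψ : Pln K →ₐ[K] Pln K).toLinearMap := rfl
    have h2 : W.map (φ : Pln K →ₐ[K] Pln K).toLinearMap = W := hφ
    have h3 : W.map (ψ : Pln K →ₐ[K] Pln K).toLinearMap = W := hψ
    rw [h1, Submodule.map_comp, h3, h2]
  inv_mem' := by
    intro φ hφ
    show W.map _ = W
    have h2 : W.map (φ : Pln K →ₐ[K] Pln K).toLinearMap = W := hφ
    have h1 : ((φ⁻¹ : Au K) : Pln K →ₐ[K] Pln K).toLinearMap ∘ₗ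
        (φ : Pln K →ₐ[K] Pln K).toLinearMap = LinearMap.id := by
      exact LinearMap.ext fun x => φ.symm_apply_apply x
    conv_lhs => rw [← h2]
    rw [← Submodule.map_comp, h1, Submodule.map_id]

theorem stW_apply {W : Submodule K (Pln K)} {φ : Au K} (h : φ ∈ stW W) {q : Pln K} (hq : q ∈ W) :
    φ q ∈ W := by
  have h1 : W.map (φ : Pln K →ₐ[K] Pln K).toLinearMap = W := h
  rw [← h1]
  exact ⟨q, hq, rfl⟩

theorem mem_stW {W : Submodule K (Pln K)} [FiniteDimensional K W] {φ : Au K}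
    (h : ∀ q ∈ W, φ q ∈ W) : φ ∈ stW W := by
  show W.map _ = W
  refine Submodule.eq_of_le_of_finrank_eq ?_ ?_
  · rintro _ ⟨q, hq, rfl⟩
    exact h q hq
  · exact LinearEquiv.finrank_map_eq φ.toLinearEquiv W

/-- the elements `a x + y q(y)`, `q` of degree less than `d` -/
noncomputable def wmap (K : Type) [Field K] (d : ℕ) :
    (K × Polynomial.degreeLT K d) →ₗ[K] Pln K where
  toFun z := z.1 • X 0 + X 1 * Polynomial.aeval (X 1 : Pln K) (z.2 : Polynomial K)
  map_add' z w := by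
    simp only [Prod.fst_add, Prod.snd_add, Submodule.coe_add, map_add, add_smul, mul_add]
    ring
  map_smul' c z := by
    simp only [Prod.smul_fst, Prod.smul_snd, Submodule.coe_smul, map_smul, RingHom.id_apply,
      smul_add, smul_smul, smul_eq_mul, mul_smul_comm]

/-- the space spanned by `x, y, ..., y ^ d` -/
noncomputable def Wd (K : Type) [Field K] (d : ℕ) : Submodule K (Pln K) :=
  LinearMap.range (wmap K d)

instance (d : ℕ) : FiniteDimensional K (Polynomial.degreeLT K d) :=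
  Module.Finite.equiv (Polynomial.degreeLTEquiv K d).symm

instance (d : ℕ) : FiniteDimensional K (Wd K d) := by
  unfold Wd
  infer_instance

theorem mem_Wd {d : ℕ} {w : Pln K} : w ∈ Wd K d ↔ ∃ (a : K) (q : Polynomial K),
    q ∈ Polynomial.degreeLT K d ∧ w = a • X 0 + X 1 * Polynomial.aeval (X 1 : Pln K) q := by
  constructor
  · rintro ⟨z, rfl⟩
    exact ⟨z.1, z.2, z.2.2, rfl⟩
  · rintro ⟨a, q, hq, rfl⟩
    exact ⟨(a, ⟨q, hq⟩), rfl⟩

theorem Wd_mono {d e : ℕ} (h : d ≤ e) : Wd K d ≤ Wd K e := by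
  intro w hw
  obtain ⟨a, q, hq, rfl⟩ := mem_Wd.1 hw
  refine mem_Wd.2 ⟨a, q, Polynomial.degreeLT_mono h hq, rfl⟩

theorem X0_mem (d : ℕ) : (X 0 : Pln K) ∈ Wd K d :=
  mem_Wd.2 ⟨1, 0, Submodule.zero_mem _, by simp⟩

theorem X1_mem {d : ℕ} (hd : 0 < d) : (X 1 : Pln K) ∈ Wd K d := by
  refine mem_Wd.2 ⟨0, 1, ?_, by simp⟩
  rw [Polynomial.mem_degreeLT, Polynomial.degree_one]
  exact_mod_cast hd

/-- the linear automorphisms -/
noncomputable def A0 (K : Type) [Field K] : Subgroup (Au K) := stW (Wd K 1)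

/-- the triangular automorphisms of degree at most `d` which fix the origin -/
noncomputable def T0 (K : Type) [Field K] (d : ℕ) : Subgroup (Au K) :=
  stW (K ∙ (X 1 : Pln K)) ⊓ stW (Wd K d)

theorem mem_W1 {w : Pln K} : w ∈ Wd K 1 ↔ ∃ a b : K, w = a • X 0 + b • X 1 := by
  rw [mem_Wd]
  constructor
  · rintro ⟨a, q, hq, rfl⟩
    obtain ⟨c, rfl⟩ : ∃ c, q = Polynomial.C c := by
      rw [Polynomial.mem_degreeLT, Polynomial.degree_lt_iff_coeff_zero] at hq
      refine ⟨q.coeff 0, ?_⟩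
      ext n
      rcases n with _ | n
      · simp
      · rw [hq (n + 1) (by omega), Polynomial.coeff_C, if_neg (by omega)]
    exact ⟨a, c, by
      rw [Polynomial.aeval_C, mul_comm, ← Algebra.smul_def]⟩
  · rintro ⟨a, b, rfl⟩
    refine ⟨a, Polynomial.C b, ?_, ?_⟩
    · rw [Polynomial.mem_degreeLT]
      exact lt_of_le_of_lt Polynomial.degree_C_le (by norm_num)
    · rw [Polynomial.aeval_C, mul_comm, ← Algebra.smul_def]

end Q182.Pl
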