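import Pool.Agent.Q182.PlSpace
import Pool.Agent.Q182.PlPing

/-!
# Automorphisms of the plane: ping-pong
-/

set_option autoImplicit false

namespace Q182.Pl

open MvPolynomial

variable {K : Type} [Field K]

theorem mem_dLT {d : ℕ} {q : Polynomial K} :
    q ∈ Polynomial.degreeLT K d ↔ ∀ n, d ≤ n → q.coeff n = 0 := by
  rw [Polynomial.mem_degreeLT, Polynomial.degree_lt_iff_coeff_zero]

theorem mem_T0 {d : ℕ} {φ : Au K} :
    φ ∈ T0 K d ↔ (∃ e : K, φ (X 1) = e • X 1) ∧ φ (X 0) ∈ Wd K d := by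
  constructor
  · rintro ⟨h1, h2⟩
    have h3 := stW_apply h1 (Submodule.mem_span_singleton_self (X 1 : Pln K))
    obtain ⟨e, he⟩ := Submodule.mem_span_singleton.1 h3
    exact ⟨⟨e, he.symm⟩, stW_apply h2 (X0_mem d)⟩
  · rintro ⟨⟨e, he⟩, h0⟩
    refine ⟨mem_stW ?_, mem_stW ?_⟩
    · intro q hq
      obtain ⟨c, rfl⟩ := Submodule.mem_span_singleton.1 hq
      rw [map_smul, he]
      exact Submodule.smul_mem _ _ (Submodule.smul_mem _ _ (Submodule.mem_span_singleton_self _))
    · intro q hq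
      obtain ⟨a, q, hq', rfl⟩ := mem_Wd.1 hq
      clear hq
      rw [map_add, map_smul, map_mul, he]
      refine Submodule.add_mem _ (Submodule.smul_mem _ _ h0) ?_
      refine mem_Wd.2 ⟨0, Polynomial.C e * q.comp (Polynomial.C e * Polynomial.X), ?_, ?_⟩
      · rw [mem_dLT] at hq' ⊢
        intro n hn
        rw [Polynomial.coeff_C_mul, Polynomial.comp_C_mul_X_coeff, hq' n hn, zero_mul, mul_zero]
      · rw [zero_smul, zero_add, map_mul, Polynomial.aeval_C, Polynomial.aeval_comp, map_mul,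
          Polynomial.aeval_C, Polynomial.aeval_X, ← Algebra.smul_def, ← Algebra.smul_def]
        have h2 : φ (Polynomial.aeval (X 1 : Pln K) q) =
            Polynomial.aeval (e • (X 1 : Pln K)) q := by
          rw [← he]
          exact (Polynomial.aeval_algHom_apply (φ : Pln K →ₐ[K] Pln K) (X 1) q).symm
        rw [h2, smul_mul_assoc, mul_smul_comm]

theorem T0_mono {d e : ℕ} (h : d ≤ e) : T0 K d ≤ T0 K e := by
  intro φ hφ
  rw [mem_T0] at hφ ⊢
  exact ⟨hφ.1, Wd_mono h hφ.2⟩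

theorem mem_A0 {φ : Au K} : φ ∈ A0 K ↔ φ (X 0) ∈ Wd K 1 ∧ φ (X 1) ∈ Wd K 1 := by
  constructor
  · intro h
    exact ⟨stW_apply h (X0_mem 1), stW_apply h (X1_mem one_pos)⟩
  · rintro ⟨h0, h1⟩
    refine mem_stW ?_
    intro q hq
    obtain ⟨a, b, rfl⟩ := mem_W1.1 hq
    rw [map_add, map_smul, map_smul]
    exact Submodule.add_mem _ (Submodule.smul_mem _ _ h0) (Submodule.smul_mem _ _ h1)

/-- the two subgroups -/
noncomputable def AT (K : Type) [Field K] (d : ℕ) : Bool → Subgroup (Au K)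
  | false => A0 K
  | true => T0 K d

/-- the position of a curve -/
def Pos (b : Bool) (f : Pln K →ₐ[K] Polynomial K) : Prop :=
  match b with
  | false => (f (X 1)).natDegree < (f (X 0)).natDegree
  | true => (f (X 0)).natDegree ≤ (f (X 1)).natDegree ∧ 1 ≤ (f (X 1)).natDegree

/-- the degree of a curve -/
noncomputable def dgr (f : Pln K →ₐ[K] Polynomial K) : ℕ :=
  max (f (X 0)).natDegree (f (X 1)).natDegree

theorem step_A {d : ℕ} (hd : 0 < d) (φ : Au K) (h1 : φ ∈ A0 K) (h2 : φ ∉ T0 K d)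
    (f : Pln K →ₐ[K] Polynomial K) (hf : Pos false f) :
    Pos true (f.comp φ) ∧ dgr f ≤ dgr (f.comp φ) := by
  obtain ⟨h3, h4⟩ := mem_A0.1 h1
  obtain ⟨a, b, hab⟩ := mem_W1.1 h3
  obtain ⟨c, e, hce⟩ := mem_W1.1 h4
  have hc : c ≠ 0 := by
    rintro rfl
    apply h2
    rw [mem_T0]
    refine ⟨⟨e, by rw [hce, zero_smul, zero_add]⟩, Wd_mono hd h3⟩
  have hf' : (f (X 1)).natDegree < (f (X 0)).natDegree := hf
  have e0 : (f.comp (φ : Pln K →ₐ[K] Pln K)) (X 0) = a • f (X 0) + b • f (X 1) := by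
    show f (φ (X 0)) = _
    rw [hab, map_add, map_smul, map_smul]
  have e1 : (f.comp (φ : Pln K →ₐ[K] Pln K)) (X 1) = c • f (X 0) + e • f (X 1) := by
    show f (φ (X 1)) = _
    rw [hce, map_add, map_smul, map_smul]
  have d1 : ((f.comp (φ : Pln K →ₐ[K] Pln K)) (X 1)).natDegree = (f (X 0)).natDegree := by
    rw [e1, Polynomial.natDegree_add_eq_left_of_natDegree_lt]
    · exact Polynomial.natDegree_smul _ hc
    · rw [Polynomial.natDegree_smul _ hc]
      exact lt_of_le_of_lt (Polynomial.natDegree_smul_le _ _) hf'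
  have d0 : ((f.comp (φ : Pln K →ₐ[K] Pln K)) (X 0)).natDegree ≤ (f (X 0)).natDegree := by
    rw [e0]
    refine (Polynomial.natDegree_add_le _ _).trans (max_le (Polynomial.natDegree_smul_le _ _) ?_)
    exact (Polynomial.natDegree_smul_le _ _).trans hf'.le
  refine ⟨⟨?_, ?_⟩, ?_⟩
  · rw [d1]
    exact d0
  · rw [d1]
    omega
  · unfold dgr
    rw [d1, max_eq_left hf'.le]
    exact le_max_right _ _

theorem step_T {d : ℕ} (φ : Au K) (h1 : φ ∈ T0 K d) (h2 : φ ∉ A0 K)
    (f : Pln K →ₐ[K] Polynomial K) (hf : Pos true f) :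
    Pos false (f.comp φ) ∧ dgr f < dgr (f.comp φ) := by
  obtain ⟨⟨e, he⟩, h0⟩ := mem_T0.1 h1
  obtain ⟨a, q, hq, hw⟩ := mem_Wd.1 h0
  obtain ⟨hf1, hf2⟩ : (f (X 0)).natDegree ≤ (f (X 1)).natDegree ∧ 1 ≤ (f (X 1)).natDegree := hf
  have he0 : e ≠ 0 := by
    rintro rfl
    rw [zero_smul] at he
    have h3 : (X 1 : Pln K) = 0 := φ.injective (he.trans (map_zero φ).symm)
    exact MvPolynomial.X_ne_zero 1 h3
  have hq1 : 1 ≤ q.natDegree := by
    by_contra h
    apply h2
    rw [mem_A0]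
    have h4 : q = Polynomial.C (q.coeff 0) := Polynomial.eq_C_of_natDegree_eq_zero (by omega)
    refine ⟨mem_W1.2 ⟨a, q.coeff 0, ?_⟩, mem_W1.2 ⟨0, e, by rw [he, zero_smul, zero_add]⟩⟩
    rw [hw, h4, Polynomial.aeval_C, mul_comm, ← Algebra.smul_def, Polynomial.coeff_C_zero]
  have e0 : (f.comp (φ : Pln K →ₐ[K] Pln K)) (X 0) =
      a • f (X 0) + (f (X 1)) * q.comp (f (X 1)) := by
    show f (φ (X 0)) = _
    rw [hw, map_add, map_smul, map_mul, Polynomial.comp_eq_aeval, Polynomial.aeval_algHom_apply]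
  have e1 : (f.comp (φ : Pln K →ₐ[K] Pln K)) (X 1) = e • f (X 1) := by
    show f (φ (X 1)) = _
    rw [he, map_smul]
  have d1 : ((f.comp (φ : Pln K →ₐ[K] Pln K)) (X 1)).natDegree = (f (X 1)).natDegree := by
    rw [e1, Polynomial.natDegree_smul _ he0]
  have dq : (f (X 1) * q.comp (f (X 1))).natDegree =
      (f (X 1)).natDegree + q.natDegree * (f (X 1)).natDegree := by
    rw [Polynomial.natDegree_mul, Polynomial.natDegree_comp]
    · intro h
      rw [h, Polynomial.natDegree_zero] at hf2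
      omega
    · intro h
      have h3 := congrArg Polynomial.natDegree h
      rw [Polynomial.natDegree_comp, Polynomial.natDegree_zero] at h3
      have : 0 < q.natDegree * (f (X 1)).natDegree := Nat.mul_pos hq1 hf2
      omega
  have hlt : (f (X 1)).natDegree < (f (X 1) * q.comp (f (X 1))).natDegree := by
    rw [dq]
    have : 0 < q.natDegree * (f (X 1)).natDegree := Nat.mul_pos hq1 hf2
    omega
  have d0 : ((f.comp (φ : Pln K →ₐ[K] Pln K)) (X 0)).natDegree =
      (f (X 1) * q.comp (f (X 1))).natDegree := by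
    rw [e0, Polynomial.natDegree_add_eq_right_of_natDegree_lt]
    exact lt_of_le_of_lt ((Polynomial.natDegree_smul_le _ _).trans hf1) hlt
  refine ⟨?_, ?_⟩
  · show ((f.comp (φ : Pln K →ₐ[K] Pln K)) (X 1)).natDegree <
      ((f.comp (φ : Pln K →ₐ[K] Pln K)) (X 0)).natDegree
    rw [d1, d0]
    exact hlt
  · unfold dgr
    rw [d0, d1, max_eq_right hf1, max_eq_left hlt.le]
    exact hlt

theorem step_b {d : ℕ} (hd : 0 < d) (b : Bool) (φ : Au K) (h1 : φ ∈ AT K d b)
    (h2 : φ ∉ AT K d (!b)) (f : Pln K →ₐ[K] Polynomial K) (hf : Pos b f) :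
    Pos (!b) (f.comp φ) ∧ dgr f ≤ dgr (f.comp φ) ∧ (b = true → dgr f < dgr (f.comp φ)) := by
  cases b
  · obtain ⟨h3, h4⟩ := step_A hd φ h1 h2 f hf
    exact ⟨h3, h4, fun h => by simp at h⟩
  · obtain ⟨h3, h4⟩ := step_T φ h1 h2 f hf
    exact ⟨h3, h4.le, fun _ => h4⟩

theorem word {d : ℕ} (hd : 0 < d) (L : List (Bool × Au K)) (hL : RedW (AT K d) L) :
    ∀ f : Pln K →ₐ[K] Polynomial K, (∀ s ∈ L.head?, Pos s.1 f) →
      dgr f ≤ dgr (f.comp ((L.map Prod.snd).prod : Au K)) ∧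
      ((∃ s ∈ L, s.1 = true) → dgr f < dgr (f.comp ((L.map Prod.snd).prod : Au K))) := by
  induction L with
  | nil =>
    intro f _
    refine ⟨le_rfl, ?_⟩
    rintro ⟨s, hs, _⟩
    simp at hs
  | cons s L ih =>
    intro f hf
    obtain ⟨h1, h2⟩ := hL
    obtain ⟨h3, h4⟩ := h1 s (by simp)
    obtain ⟨h5, h6, h7⟩ := step_b hd s.1 s.2 h3 h4 f (hf s (by simp))
    have hL' : RedW (AT K d) L := ⟨fun t ht => h1 t (by simp [ht]), h2.tail⟩
    have h8 := ih hL' (f.comp s.2) (by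
      intro t ht
      cases L with
      | nil => simp at ht
      | cons t' L =>
        simp only [List.head?_cons, Option.mem_def, Option.some.injEq] at ht
        subst ht
        have h9 : s.1 ≠ t'.1 := (List.isChain_cons_cons.1 h2).1
        have h10 : t'.1 = !s.1 := by
          cases hs : s.1 <;> cases ht : t'.1 <;> simp_all
        rw [h10]
        exact h5)
    have h11 : f.comp ((((s :: L).map Prod.snd).prod : Au K) : Pln K →ₐ[K] Pln K) =
        (f.comp (s.2 : Pln K →ₐ[K] Pln K)).comp (((L.map Prod.snd).prod : Au K) :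
          Pln K →ₐ[K] Pln K) := by
      rw [List.map_cons, List.prod_cons]
      rfl
    rw [h11]
    refine ⟨h6.trans h8.1, ?_⟩
    rintro ⟨t, ht, ht'⟩
    rcases List.mem_cons.1 ht with rfl | ht
    · exact lt_of_lt_of_le (h7 ht') h8.1
    · exact lt_of_le_of_lt h6 (h8.2 ⟨t, ht, ht'⟩)

theorem word_ne {d : ℕ} (hd : 0 < d) (L : List (Bool × Au K)) (hne : L ≠ [])
    (hL : RedW (AT K d) L) : (L.map Prod.snd).prod ≠ 1 := by
  intro h1
  obtain ⟨s, L', rfl⟩ := List.exists_cons_of_ne_nil hne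
  have hex : ∃ f : Pln K →ₐ[K] Polynomial K, Pos s.1 f := by
    cases s.1
    · refine ⟨aeval ![Polynomial.X, 0], ?_⟩
      show (aeval ![Polynomial.X, (0 : Polynomial K)] (X 1 : Pln K)).natDegree <
        (aeval ![Polynomial.X, (0 : Polynomial K)] (X 0 : Pln K)).natDegree
      rw [aeval_X, aeval_X]
      simp
    · refine ⟨aeval ![0, Polynomial.X], ?_⟩
      show (aeval ![(0 : Polynomial K), Polynomial.X] (X 0 : Pln K)).natDegree ≤
        (aeval ![(0 : Polynomial K), Polynomial.X] (X 1 : Pln K)).natDegree ∧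
        1 ≤ (aeval ![(0 : Polynomial K), Polynomial.X] (X 1 : Pln K)).natDegree
      rw [aeval_X, aeval_X]
      simp
  obtain ⟨f, hf⟩ := hex
  have h2 := word hd (s :: L') hL f (by
    intro t ht
    simp only [List.head?_cons, Option.mem_def, Option.some.injEq] at ht
    subst ht
    exact hf)
  rw [h1] at h2
  have h3 : f.comp ((1 : Au K) : Pln K →ₐ[K] Pln K) = f := by
    ext i
    rfl
  rw [h3] at h2
  have h4 : ∀ t ∈ s :: L', t.1 = false := by
    intro t ht
    by_contra h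
    exact lt_irrefl _ (h2.2 ⟨t, ht, by simpa using h⟩)
  cases L' with
  | nil =>
    simp only [List.map_cons, List.map_nil, List.prod_cons, List.prod_nil, mul_one] at h1
    apply (hL.1 s (by simp)).2
    rw [h1]
    exact one_mem _
  | cons t L' =>
    have h5 : s.1 ≠ t.1 := (List.isChain_cons_cons.1 hL.2).1
    apply h5
    rw [h4 s (by simp), h4 t (by simp)]

end Q182.Pl
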