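import Pool.Agent.Q182.CenMain

/-!
# Extensions by central elements, relative to a homomorphism to the integers
-/

set_option autoImplicit false

namespace Q182.Rc

open Pool.Agent.Y110.FJ (ClosedE)
open Pool.Agent.Y462.SS (Closed)

variable {C : ∀ (G : Type) [Group G], Prop} {P : Type} [Group P]

/-- adjoining an element which commutes with `A` -/
theorem adj (hC : Closed C) (A : Subgroup P) (b : P) (hb : ∀ a ∈ A, a * b = b * a)
    (h : C A) : C ↥(A ⊔ Subgroup.zpowers b) := by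
  let X : Subgroup P := A ⊔ Subgroup.zpowers b
  have hbX : b ∈ X := (le_sup_right : Subgroup.zpowers b ≤ X) (Subgroup.mem_zpowers b)
  have hAX : A ≤ X := le_sup_left
  have hcent : X ≤ Subgroup.centralizer {b} := by
    refine sup_le ?_ ?_
    · intro a ha
      rw [Subgroup.mem_centralizer_iff]
      rintro _ rfl
      exact (hb a ha).symm
    · rw [Subgroup.zpowers_le, Subgroup.mem_centralizer_iff]
      rintro _ rfl
      rfl
  let A' : Subgroup X := A.subgroupOf X
  let b' : X := ⟨b, hbX⟩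
  have hb' : ∀ g : X, g * b' = b' * g := by
    intro g
    exact Subtype.ext ((Subgroup.mem_centralizer_iff.1 (hcent g.2) b rfl).symm)
  have hX : X ≤ Subgroup.normalizer (A : Set P) := by
    refine sup_le Subgroup.le_normalizer ?_
    rw [Subgroup.zpowers_le, Subgroup.mem_normalizer_iff]
    intro a
    constructor
    · intro ha
      rw [← hb a ha, mul_inv_cancel_right]
      exact ha
    · intro ha
      have h1 : a = b⁻¹ * (b * a * b⁻¹) * b := by group
      rw [h1]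
      have h2 := hb _ ha
      have h3 : b⁻¹ * (b * a * b⁻¹) * b = b * a * b⁻¹ := by
        rw [mul_assoc, h2, inv_mul_cancel_left]
      rw [h3]
      exact ha
  have hA' : A'.Normal := by
    constructor
    intro n hn g
    exact (Subgroup.mem_normalizer_iff.1 (hX g.2) n).1 hn
  have h1 : C A' := hC.of_injective _ _ (Subgroup.subgroupOfEquivOfLe hAX).toMonoidHom
    (Subgroup.subgroupOfEquivOfLe hAX).injective h
  have h2 := Q182.Cen.adj_one hC A' b' hb' h1
  have h3 : ∀ x : X, x ∈ A' ⊔ Subgroup.zpowers b' := by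
    intro x
    have h4 : (A' ⊔ Subgroup.zpowers b').map X.subtype = X := by
      rw [Subgroup.map_sup, MonoidHom.map_zpowers, Subgroup.map_subgroupOf_eq_of_le hAX]
      rfl
    have h5 : (x : P) ∈ (A' ⊔ Subgroup.zpowers b').map X.subtype := by
      rw [h4]
      exact x.2
    obtain ⟨y, hy, h6⟩ := h5
    rwa [show x = y from Subtype.ext h6.symm]
  exact hC.of_injective _ _ (MonoidHom.mk' (fun x : X => (⟨x, h3 x⟩ :
    ↥(A' ⊔ Subgroup.zpowers b'))) (fun _ _ => rfl)) (fun x y hxy => by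
      exact congrArg (fun u : ↥(A' ⊔ Subgroup.zpowers b') => (u : X)) hxy) h2

theorem zpow_eq_one {z : Multiplicative ℤ} {k : ℤ} (h : z ^ k = 1) (hz : z ≠ 1) : k = 0 := by
  have h1 := congrArg Multiplicative.toAdd h
  rw [toAdd_zpow, toAdd_one, smul_eq_mul, mul_eq_zero] at h1
  rcases h1 with h1 | h1
  · exact h1
  · exact absurd (Multiplicative.toAdd.injective h1) hz

/-- conjugation by `b a` and by `a` -/
theorem conj_eq {R : Subgroup P} {a b : P} (hRa : ∀ r ∈ R, a * r * a⁻¹ ∈ R)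
    (hRa' : ∀ r ∈ R, a⁻¹ * r * a ∈ R) (hb : ∀ r ∈ R, r * b = b * r) (k : ℤ) :
    ∀ r ∈ R, (b * a) ^ k * r * ((b * a) ^ k)⁻¹ = a ^ k * r * (a ^ k)⁻¹ ∧
      a ^ k * r * (a ^ k)⁻¹ ∈ R := by
  have h1 : ∀ r ∈ R, b * a * r * (b * a)⁻¹ = a * r * a⁻¹ := by
    intro r hr
    have h2 := hb _ (hRa r hr)
    have h3 : b * a * r * (b * a)⁻¹ = b * (a * r * a⁻¹) * b⁻¹ := by group
    rw [h3, ← h2, mul_inv_cancel_right]
  have h1' : ∀ r ∈ R, (b * a)⁻¹ * r * (b * a) = a⁻¹ * r * a := by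
    intro r hr
    have h2 := hb _ hr
    have h3 : (b * a)⁻¹ * r * (b * a) = a⁻¹ * (b⁻¹ * (r * b)) * a := by group
    rw [h3, h2, inv_mul_cancel_left]
  induction k using Int.induction_on with
  | zero =>
    intro r hr
    simp [hr]
  | succ n ih =>
    intro r hr
    have h2 := h1 r hr
    have h3 := ih _ (hRa r hr)
    have e1 : (b * a) ^ ((n : ℤ) + 1) * r * ((b * a) ^ ((n : ℤ) + 1))⁻¹ =
        (b * a) ^ (n : ℤ) * (b * a * r * (b * a)⁻¹) * ((b * a) ^ (n : ℤ))⁻¹ := by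
      rw [zpow_add, zpow_one]; group
    have e2 : a ^ ((n : ℤ) + 1) * r * (a ^ ((n : ℤ) + 1))⁻¹ =
        a ^ (n : ℤ) * (a * r * a⁻¹) * (a ^ (n : ℤ))⁻¹ := by
      rw [zpow_add, zpow_one]; group
    rw [e1, e2, h2]
    exact h3
  | pred n ih =>
    intro r hr
    have h2 := h1' r hr
    have h3 := ih _ (hRa' r hr)
    have e1 : (b * a) ^ (-(n : ℤ) - 1) * r * ((b * a) ^ (-(n : ℤ) - 1))⁻¹ =
        (b * a) ^ (-(n : ℤ)) * ((b * a)⁻¹ * r * (b * a)) * ((b * a) ^ (-(n : ℤ)))⁻¹ := by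
      rw [zpow_sub, zpow_one]
      generalize (b * a) ^ (-(n : ℤ)) = u
      generalize b * a = w
      group
    have e2 : a ^ (-(n : ℤ) - 1) * r * (a ^ (-(n : ℤ) - 1))⁻¹ =
        a ^ (-(n : ℤ)) * (a⁻¹ * r * a) * (a ^ (-(n : ℤ)))⁻¹ := by
      rw [zpow_sub, zpow_one]; group
    rw [e1, e2, h2]
    exact h3

/-- the cyclic extensions -/
theorem cyc_ext (hC : Closed C) (A R : Subgroup P) (σ : P →* Multiplicative ℤ)
    (hR : ∀ r, r ∈ R ↔ r ∈ A ∧ σ r = 1) {a b : P} (ha : a ∈ A) (hσb : σ b = 1)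
    (hb : ∀ r ∈ R, r * b = b * r) (hA : C A) (X : Subgroup P)
    (hX : ∀ x ∈ X, ∃ r ∈ R, ∃ k : ℤ, x = r * (b * a) ^ k) : C X := by
  have hRA : R ≤ A := fun r hr => ((hR r).1 hr).1
  have hRa : ∀ r ∈ R, a * r * a⁻¹ ∈ R := by
    intro r hr
    obtain ⟨h1, h2⟩ := (hR r).1 hr
    exact (hR _).2 ⟨mul_mem (mul_mem ha h1) (inv_mem ha), by
      rw [map_mul, map_mul, h2, mul_one, map_inv, mul_inv_cancel]⟩
  have hRa' : ∀ r ∈ R, a⁻¹ * r * a ∈ R := by
    intro r hr
    obtain ⟨h1, h2⟩ := (hR r).1 hr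
    exact (hR _).2 ⟨mul_mem (mul_mem (inv_mem ha) h1) ha, by
      rw [map_mul, map_mul, h2, mul_one, map_inv, inv_mul_cancel]⟩
  by_cases hσ : σ a = 1
  · have haR : a ∈ R := (hR a).2 ⟨ha, hσ⟩
    have h1 : X ≤ R ⊔ Subgroup.zpowers b := by
      intro x hx
      obtain ⟨r, hr, k, rfl⟩ := hX x hx
      have hbs : b ∈ R ⊔ Subgroup.zpowers b :=
        (le_sup_right : Subgroup.zpowers b ≤ _) (Subgroup.mem_zpowers b)
      exact mul_mem ((le_sup_left : R ≤ _) hr)
        (zpow_mem (mul_mem hbs ((le_sup_left : R ≤ _) haR)) k)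
    have h2 : C R := hC.of_injective _ _ (Subgroup.inclusion hRA)
      (Subgroup.inclusion_injective _) hA
    exact hC.of_injective _ _ (Subgroup.inclusion h1) (Subgroup.inclusion_injective _)
      (adj hC R b hb h2)
  · choose r hr k hk using fun x : X => hX x x.2
    have hσk : ∀ x : X, σ x = σ a ^ k x := by
      intro x
      rw [hk x, map_mul, ((hR _).1 (hr x)).2, one_mul, map_zpow, map_mul, hσb, one_mul]
    have hkm : ∀ x y : X, k (x * y) = k x + k y := by
      intro x y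
      have h1 := hσk (x * y)
      rw [Subgroup.coe_mul, map_mul, hσk x, hσk y, ← zpow_add] at h1
      have h2 : σ a ^ (k (x * y) - (k x + k y)) = 1 := by
        rw [zpow_sub, ← h1, mul_inv_cancel]
      have h3 := zpow_eq_one h2 hσ
      omega
    let θ : X →* A := MonoidHom.mk' (fun x => ⟨r x * a ^ k x, mul_mem (hRA (hr x)) (zpow_mem ha _)⟩) (by
      intro x y
      apply Subtype.ext
      show r (x * y) * a ^ k (x * y) = r x * a ^ k x * (r y * a ^ k y)
      have h1 : (x : P) * y = r (x * y) * (b * a) ^ k (x * y) := by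
        rw [← hk (x * y)]
        rfl
      have h2 : r (x * y) = r x * ((b * a) ^ k x * r y * ((b * a) ^ k x)⁻¹) := by
        rw [hkm, zpow_add] at h1
        have h3 : (x : P) * y = (r x * (b * a) ^ k x) * (r y * (b * a) ^ k y) := by
          rw [← hk x, ← hk y]
        rw [h3] at h1
        have h4 : r (x * y) = r x * (b * a) ^ k x * (r y * (b * a) ^ k y) *
            ((b * a) ^ k x * (b * a) ^ k y)⁻¹ := by
          rw [h1]; group
        rw [h4]
        group
      rw [h2, (conj_eq hRa hRa' hb (k x) (r y) (hr y)).1, hkm, zpow_add]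
      group)
    refine hC.of_injective _ _ θ ?_ hA
    rw [injective_iff_map_eq_one]
    intro x hx
    have h1 : r x * a ^ k x = 1 := congrArg Subtype.val hx
    have h2 : σ a ^ k x = 1 := by
      have := congrArg σ h1
      rw [map_mul, ((hR _).1 (hr x)).2, one_mul, map_zpow, map_one] at this
      exact this
    have h3 := zpow_eq_one h2 hσ
    rw [h3, zpow_zero, mul_one] at h1
    apply Subtype.ext
    rw [hk x, h3, h1, zpow_zero, mul_one]
    rfl

/-- adjoining a commutative normal subgroup which commutes with the kernel on `A` -/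
theorem ce_rel (hC : ClosedE C) (hmet : ∀ (G : Type) [Group G], derivedSeries G 2 = ⊥ → C G)
    (A B : Subgroup P) (σ : P →* Multiplicative ℤ) (hσB : ∀ b ∈ B, σ b = 1)
    (hBB : ∀ b ∈ B, ∀ b' ∈ B, b * b' = b' * b)
    (hAB : ∀ a ∈ A, σ a = 1 → ∀ b ∈ B, a * b = b * a)
    (hdec : ∀ p : P, ∃ b ∈ B, ∃ a ∈ A, p = b * a) (hA : C A) : C P := by
  let R : Subgroup P := A ⊓ σ.ker
  have hR : ∀ r, r ∈ R ↔ r ∈ A ∧ σ r = 1 := fun r => Iff.rfl
  have hRn : R.Normal := by
    constructor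
    intro r hr p
    obtain ⟨b, hb, a, ha, rfl⟩ := hdec p
    obtain ⟨h1, h2⟩ := (hR r).1 hr
    have h3 : a * r * a⁻¹ ∈ R := (hR _).2 ⟨mul_mem (mul_mem ha h1) (inv_mem ha), by
      rw [map_mul, map_mul, h2, mul_one, map_inv, mul_inv_cancel]⟩
    have h4 := hAB _ h3.1 h3.2 b hb
    have h5 : b * a * r * (b * a)⁻¹ = b * (a * r * a⁻¹) * b⁻¹ := by group
    rw [h5, ← h4, mul_inv_cancel_right]
    exact h3
  have hker : ∀ p : P, σ p = 1 → ∃ b ∈ B, ∃ r ∈ R, p = b * r := by
    intro p hp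
    obtain ⟨b, hb, a, ha, rfl⟩ := hdec p
    rw [map_mul, hσB b hb, one_mul] at hp
    exact ⟨b, hb, a, ⟨ha, hp⟩, rfl⟩
  have hsurj := QuotientGroup.mk'_surjective R
  have hM : C (P ⧸ R) := by
    apply hmet
    rw [← map_derivedSeries_eq hsurj 2, eq_bot_iff]
    have h1 : derivedSeries P 1 ≤ σ.ker := by
      rw [derivedSeries_one]
      exact Abelianization.commutator_subset_ker σ
    have h2 : derivedSeries P 2 ≤ ⁅σ.ker, σ.ker⁆ := by
      rw [derivedSeries_succ]
      exact Subgroup.commutator_mono h1 h1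
    refine (Subgroup.map_mono h2).trans ?_
    rw [Subgroup.map_commutator, Subgroup.commutator_le]
    rintro _ ⟨x, hx, rfl⟩ _ ⟨y, hy, rfl⟩
    rw [Subgroup.mem_bot, commutatorElement_eq_one_iff_mul_comm]
    obtain ⟨b, hb, r, hr, rfl⟩ := hker x hx
    obtain ⟨b', hb', r', hr', rfl⟩ := hker y hy
    have hr1 : QuotientGroup.mk' R r = 1 := (QuotientGroup.eq_one_iff r).2 hr
    have hr1' : QuotientGroup.mk' R r' = 1 := (QuotientGroup.eq_one_iff r').2 hr'
    rw [map_mul, map_mul, hr1, hr1', mul_one, mul_one, ← map_mul, ← map_mul, hBB b hb b' hb']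
  refine hC.ext P (P ⧸ R) (QuotientGroup.mk' R) hsurj hM ?_
  rintro W ⟨c, hcW, hc⟩
  obtain ⟨p, rfl⟩ := hsurj c
  refine Q182.Cyl.fi_mem hC.base
    (K := (Subgroup.zpowers (QuotientGroup.mk' R p)).comap (QuotientGroup.mk' R)) ?_ ?_
  · rw [Subgroup.relIndex_comap, Subgroup.map_comap_eq_self_of_surjective hsurj]
    exact hc
  · obtain ⟨b, hb, a, ha, hp⟩ := hdec p
    refine cyc_ext hC.base A R σ hR ha (hσB b hb) (fun r hr => hAB r hr.1 hr.2 b hb) hA _ ?_
    intro x hx
    obtain ⟨k, hk⟩ := Subgroup.mem_zpowers_iff.1 (Subgroup.mem_comap.1 hx)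
    refine ⟨x * ((b * a) ^ k)⁻¹, ?_, k, by group⟩
    rw [← map_zpow] at hk
    rw [← hp]
    refine (QuotientGroup.eq_one_iff _).1 ?_
    show QuotientGroup.mk' R (x * (p ^ k)⁻¹) = 1
    rw [map_mul, map_inv, hk, mul_inv_cancel]

end Q182.Rc
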