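import Pool.Agent.Q182.CylMain

/-!
# Trees with virtually cyclic balanced edge stabilizers: the fibered version
-/

set_option autoImplicit false

namespace Q182.Rc

open SimpleGraph
open scoped Pointwise
open Pool.Agent.Helper270.Tree
open Pool.Agent.Y462.SS (Closed)
open Q182.Cyl

variable {G F V : Type} [Group G] [Group F] [MulAction F V] {T : SimpleGraph V}

/-- subgroups of a preimage -/
theorem comap_mem {C : ∀ (G : Type) [Group G], Prop} (hC : Closed C) (π : G →* F)
    {A B : Subgroup F} (h : A ≤ B) (hB : C (B.comap π)) : C (A.comap π) :=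
  hC.of_injective _ _ (Subgroup.inclusion (Subgroup.comap_mono h))
    (Subgroup.inclusion_injective _) hB

/-- **commensurators of edge stabilizers**, fibered -/
theorem main1 {C : ∀ (G : Type) [Group G], Prop} (hC : ClosedA C) (π : G →* F)
    (hπ : Function.Surjective π) (hT : TreeAct F T)
    (hcf : CorF F T) (hst : ∀ v : V, C ((MulAction.stabilizer F v).comap π))
    (hcom : ∀ v w : V, T.Adj v w → Infinite (Est F v w) →
      C ((Subgroup.Commensurable.commensurator (Est F v w)).comap π))
    (hcyc : ∀ W : Subgroup F, (∃ c ∈ W, (Subgroup.zpowers c).relIndex W ≠ 0) → C (W.comap π)) :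
    C G := by
  let _ := coneAct hT
  have hA : TreeAct F (cone T (cyls F T)) := treeAct_cone hT hcf
  refine hC.acyl G F (V ⊕ cyls F T) π (cone T (cyls F T)) 5
    hπ hA.isTree hA.adj hA.noInv (finite_cone hT hcf) ?_ hcyc
  rintro (v | S)
  · refine comap_mem hC.base.base π ?_ (hst v)
    intro g hg
    have h1 : g • (Sum.inl v : V ⊕ cyls F T) = Sum.inl v := hg
    exact Sum.inl.inj h1
  · obtain ⟨v, w, hvw, hinf, hS⟩ := S.2
    refine comap_mem hC.base.base π ?_ (hcom v w hvw hinf)
    intro g hg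
    have h1 : g • (Sum.inr S : V ⊕ cyls F T) = Sum.inr S := hg
    have h2 : (fun x => g • x) '' S.1 = S.1 := congrArg Subtype.val (Sum.inr.inj h1)
    have h3 : g • v ∈ S.1 := by
      rw [← h2]
      exact ⟨v, by rw [hS]; exact self_mem_cyl hvw, rfl⟩
    have h4 : g • w ∈ S.1 := by
      rw [← h2]
      exact ⟨w, by rw [hS]; exact self_mem_cyl' hvw, rfl⟩
    rw [hS] at h3 h4
    have h5 : T.Adj (g • v) (g • w) := hT.adj g v w hvw
    have h6 := between hT hcf hinf h3 h4 h5 (by
      rw [dist_self, dist_self, dist_eq_one_iff_adj.2 h5])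
    rw [Est_smul] at h6
    exact (Subgroup.Commensurable.commensurator_mem_iff _ _).2 h6.symm

/-- the normalizer of an infinite cyclic group which fixes an edge, fibered -/
theorem norm_mem {C : ∀ (G : Type) [Group G], Prop} (hC : ClosedA C) (π : G →* F)
    (hπ : Function.Surjective π) (hT : TreeAct F T)
    (hvc : VcEdges F T) (hst : ∀ v : V, C ((MulAction.stabilizer F v).comap π))
    (hab : ∀ A : Subgroup F, (∀ a ∈ A, ∀ b ∈ A, a * b = b * a) → C (A.comap π))
    (N : Subgroup F) {z : F}
    (hz : InfOrd z) (hzN : z ∈ N) (hN : ∀ n ∈ N, n * z * n⁻¹ = z ∨ n * z * n⁻¹ = z⁻¹)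
    (hne : ∃ v : V, z • v = v) : C (N.comap π) := by
  have hN' : ∀ n ∈ N, n⁻¹ * z * n ∈ Subgroup.zpowers z := by
    intro n hn
    rcases hN n⁻¹ (inv_mem hn) with h | h
    · rw [inv_inv] at h
      rw [h]
      exact Subgroup.mem_zpowers z
    · rw [inv_inv] at h
      rw [h]
      exact inv_mem (Subgroup.mem_zpowers z)
  have hN2 : ∀ n ∈ N, n * z * n⁻¹ ∈ Subgroup.zpowers z := by
    intro n hn
    have := hN' n⁻¹ (inv_mem hn)
    rwa [inv_inv] at this
  let z' : N := ⟨z, hzN⟩
  let Z : Subgroup N := Subgroup.zpowers z'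
  have hZ : Z.Normal := by
    constructor
    intro x hx n
    obtain ⟨i, rfl⟩ := Subgroup.mem_zpowers_iff.1 hx
    obtain ⟨j, hj⟩ := Subgroup.mem_zpowers_iff.1 (hN2 n n.2)
    refine Subgroup.mem_zpowers_iff.2 ⟨j * i, Subtype.ext ?_⟩
    show z ^ (j * i) = (n : F) * z ^ i * (n : F)⁻¹
    rw [zpow_mul, hj, conj_zpow]
  let _ : MulAction N {v : V | z • v = v} := fixAct N z hN'
  let ρ : N →* Equiv.Perm {v : V | z • v = v} := MulAction.toPermHom N {v : V | z • v = v}
  have hρ : ∀ x ∈ Z, ρ x = 1 := by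
    intro x hx
    obtain ⟨i, rfl⟩ := Subgroup.mem_zpowers_iff.1 hx
    have h1 : ρ z' = 1 := by
      apply Equiv.ext
      intro v
      exact Subtype.ext v.2
    rw [map_zpow, h1, one_zpow]
  let ρ' : (N ⧸ Z) →* Equiv.Perm {v : V | z • v = v} := QuotientGroup.lift Z ρ hρ
  let _ : MulAction (N ⧸ Z) {v : V | z • v = v} := MulAction.compHom _ ρ'
  have hsm : ∀ (n : N) (v : {v : V | z • v = v}), (((QuotientGroup.mk' Z n) • v :
      {v : V | z • v = v}) : V) = (n : F) • (v : V) := fun n v => rfl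
  have hind : ∀ v w : {v : V | z • v = v}, (T.induce {v : V | z • v = v}).Adj v w ↔
      T.Adj v.1 w.1 := fun v w => Iff.rfl
  have hsurj : Function.Surjective (QuotientGroup.mk' Z) := QuotientGroup.mk'_surjective Z
  let p : N.comap π →* N := π.subgroupComap N
  have hp : ∀ x, ((p x : N) : F) = π x := fun x => rfl
  have hps : Function.Surjective p := by
    rintro ⟨n, hn⟩
    obtain ⟨g, rfl⟩ := hπ n
    exact ⟨⟨g, hn⟩, rfl⟩
  have hsurj' : Function.Surjective ((QuotientGroup.mk' Z).comp p) := hsurj.comp hps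
  refine hC.acyl (N.comap π) (N ⧸ Z) {v : V | z • v = v} ((QuotientGroup.mk' Z).comp p)
    (T.induce {v : V | z • v = v}) 1 hsurj' (isTree_fix hT z hne) ?_ ?_ ?_ ?_ ?_
  · intro f v w h
    obtain ⟨n, rfl⟩ := hsurj f
    rw [hind, hsm, hsm]
    exact hT.adj n _ _ h
  · rintro f v w h ⟨h1, h2⟩
    obtain ⟨n, rfl⟩ := hsurj f
    refine hT.noInv n v.1 w.1 h ⟨?_, ?_⟩
    · rw [← hsm, h1]
    · rw [← hsm, h2]
  · intro v w hvw
    have hne' : v.1 ≠ w.1 := by
      intro h
      have h1 : v = w := Subtype.ext h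
      rw [h1, dist_self] at hvw
      omega
    obtain ⟨u, hu1, hu2⟩ := exists_first hT.isTree hne'
    have hd1 : T.dist v.1 u = 1 := dist_eq_one_iff_adj.2 hu1
    have hzu : z ∈ Est F v.1 u := ⟨v.2, hT.convex v.2 w.2 (by omega)⟩
    have hidx : (Subgroup.zpowers z).relIndex (Est F v.1 u) ≠ 0 := zp_index (hvc _ _ hu1) hz hzu
    let B : Subgroup N := (Est F v.1 u).subgroupOf N
    have hB : Z.relIndex B ≠ 0 := by
      intro h0
      apply hidx
      have h3 : (Z.map N.subtype).relIndex (B.map N.subtype) = 0 := by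
        rw [Subgroup.relIndex_map_map_of_injective _ _ N.subtype_injective]
        exact h0
      have h4 : Z.map N.subtype = Subgroup.zpowers z := by
        rw [MonoidHom.map_zpowers]
        rfl
      rw [h4] at h3
      refine Subgroup.relIndex_eq_zero_of_le_right ?_ h3
      rintro _ ⟨x, hx, rfl⟩
      exact hx
    have hfin : Finite (B.map (QuotientGroup.mk' Z)) := by
      apply Nat.finite_of_card_ne_zero
      rw [← Subgroup.relIndex_ker, QuotientGroup.ker_mk']
      exact hB
    have hfin2 : ((B.map (QuotientGroup.mk' Z) : Subgroup (N ⧸ Z)) : Set (N ⧸ Z)).Finite :=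
      Set.toFinite _
    refine hfin2.subset ?_
    rintro f ⟨h1, h2⟩
    obtain ⟨n, rfl⟩ := hsurj f
    have h3 : (n : F) • v.1 = v.1 := by rw [← hsm, h1]
    have h4 : (n : F) • w.1 = w.1 := by rw [← hsm, h2]
    exact ⟨n, ⟨h3, hT.convex h3 h4 (by omega)⟩, rfl⟩
  · intro v
    refine hC.base.base.of_injective _ _ (MonoidHom.mk' (fun x : (MulAction.stabilizer (N ⧸ Z)
      v).comap ((QuotientGroup.mk' Z).comp p) =>
        (⟨(x.1 : G), ?_⟩ : (MulAction.stabilizer F v.1).comap π))
      (fun _ _ => rfl)) ?_ (hst v.1)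
    · have h1 : (QuotientGroup.mk' Z (p x.1)) • v = v := x.2
      show π (x.1 : G) • v.1 = v.1
      rw [← hp, ← hsm, h1]
    · intro x y hxy
      exact Subtype.ext (Subtype.ext (congrArg
        (fun u : (MulAction.stabilizer F v.1).comap π => (u : G)) hxy))
  · rintro W ⟨c, hcW, hc⟩
    obtain ⟨c', rfl⟩ := hsurj c
    have hcomm : (c' : F) ^ 2 * z = z * (c' : F) ^ 2 := by
      have h1 : (c' : F) ^ 2 * z * ((c' : F) ^ 2)⁻¹ = z := by
        have h2 : (c' : F) ^ 2 * z * ((c' : F) ^ 2)⁻¹ = c' * (c' * z * (c' : F)⁻¹) * (c' : F)⁻¹ := by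
          rw [pow_two, mul_inv_rev]
          simp only [mul_assoc]
        rw [h2]
        rcases hN c' c'.2 with h | h
        · rw [h, h]
        · rw [h]
          have h3 : (c' : F) * z⁻¹ * (c' : F)⁻¹ = (c' * z * (c' : F)⁻¹)⁻¹ := by group
          rw [h3, h, inv_inv]
      exact mul_inv_eq_iff_eq_mul.1 h1
    let A : Subgroup F := Subgroup.closure {(c' : F) ^ 2, z}
    have hA : ∀ a ∈ A, ∀ b ∈ A, a * b = b * a := by
      intro a ha b hb
      have h1 : ∀ x ∈ ({(c' : F) ^ 2, z} : Set F), ∀ y ∈ ({(c' : F) ^ 2, z} : Set F),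
          x * y = y * x := by
        rintro x (rfl | rfl) y (rfl | rfl)
        · rfl
        · exact hcomm
        · exact hcomm.symm
        · rfl
      have h2 : A ≤ Subgroup.centralizer (A : Set F) := by
        have h3 : A ≤ Subgroup.centralizer ({(c' : F) ^ 2, z} : Set F) := by
          rw [Subgroup.closure_le]
          intro x hx
          exact Subgroup.mem_centralizer_iff.2 (fun y hy => h1 y hy x hx)
        rw [Subgroup.closure_le]
        intro x hx
        refine Subgroup.mem_centralizer_iff.2 (fun y hy => ?_)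
        exact (Subgroup.mem_centralizer_iff.1 (h3 hy) x hx).symm
      exact (Subgroup.mem_centralizer_iff.1 (h2 ha) b hb).symm
    have h1 := hab A hA
    refine fi_mem hC.base.base (K := (Subgroup.zpowers (QuotientGroup.mk' Z (c' ^ 2))).comap
      ((QuotientGroup.mk' Z).comp p)) ?_ ?_
    · rw [Subgroup.relIndex_comap, Subgroup.map_comap_eq_self_of_surjective hsurj', map_pow]
      exact Subgroup.relIndex_ne_zero_trans (zp_pow_index _ 2 (by norm_num)) hc
    · refine hC.base.base.of_injective _ _ (MonoidHom.mk' (fun x : (Subgroup.zpowers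
        (QuotientGroup.mk' Z (c' ^ 2))).comap ((QuotientGroup.mk' Z).comp p) =>
          (⟨(x.1 : G), ?_⟩ : A.comap π)) (fun _ _ => rfl)) ?_ h1
      · obtain ⟨i, hi⟩ := Subgroup.mem_zpowers_iff.1 x.2
        have h2 : QuotientGroup.mk' Z (p x.1) = QuotientGroup.mk' Z ((c' ^ 2) ^ i) := by
          rw [map_zpow]
          exact hi.symm
        have h3 : ((c' ^ 2) ^ i)⁻¹ * p x.1 ∈ Z := QuotientGroup.eq.1 h2.symm
        obtain ⟨j, hj⟩ := Subgroup.mem_zpowers_iff.1 h3
        have h4 : p x.1 = (c' ^ 2) ^ i * z' ^ j := by rw [hj]; group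
        have ha : (c' : F) ^ 2 ∈ A := Subgroup.subset_closure (by simp)
        have hzA : z ∈ A := Subgroup.subset_closure (by simp)
        show π (x.1 : G) ∈ A
        rw [← hp, h4]
        exact mul_mem (zpow_mem ha i) (zpow_mem hzA j)
      · intro x y hxy
        exact Subtype.ext (Subtype.ext (congrArg (fun u : A.comap π => (u : G)) hxy))

/-- **trees with virtually cyclic balanced edge stabilizers**, fibered -/
theorem main2 {C : ∀ (G : Type) [Group G], Prop} (hC : ClosedA C) (π : G →* F)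
    (hπ : Function.Surjective π) (hT : TreeAct F T) (hvc : VcEdges F T) (hbal : Balanced F T)
    (hst : ∀ v : V, C ((MulAction.stabilizer F v).comap π))
    (hab : ∀ A : Subgroup F, (∀ a ∈ A, ∀ b ∈ A, a * b = b * a) → C (A.comap π)) : C G := by
  refine main1 hC π hπ hT (corF_of_vc hvc) hst ?_ ?_
  · intro v w hvw hinf
    obtain ⟨h, hh, hho⟩ := exists_infOrd (hvc v w hvw) le_rfl hinf
    let K : ℕ → Subgroup F := fun i => NZ (h ^ (i + 1).factorial)
    have hK : Monotone K := by
      intro i j hij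
      obtain ⟨k, hk⟩ := Nat.factorial_dvd_factorial (Nat.succ_le_succ hij)
      show NZ (h ^ (i + 1).factorial) ≤ NZ (h ^ (j + 1).factorial)
      have h1 : (j + 1).factorial = (i + 1).factorial * k := hk
      rw [h1, pow_mul]
      exact NZ_pow _ k
    have hCK : ∀ i, C ((K i).comap π) := by
      intro i
      refine norm_mem hC π hπ hT hvc hst hab (K i) (z := h ^ (i + 1).factorial)
        (hho.pow (Nat.factorial_pos _)) ?_ (fun n hn => hn) ⟨v, ?_⟩
      · exact Or.inl (by rw [mul_inv_cancel_right])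
      · exact (pow_mem hh _ : h ^ (i + 1).factorial ∈ Est F v w).1
    have hidx := zp_index (hvc v w hvw) hho hh
    refine Pool.Agent.Y430.SS.of_directed hC.base.base _ ℕ
      (fun i j => ⟨max i j, le_max_left _ _, le_max_right _ _⟩)
      (fun i => ((K i).comap π).subgroupOf
        ((Subgroup.Commensurable.commensurator (Est F v w)).comap π)) ?_ ?_ ?_
    · intro i j hij x hx
      exact hK hij hx
    · rintro ⟨g', hg⟩
      obtain ⟨g, hgg⟩ : ∃ g, g = π g' := ⟨_, rfl⟩
      have hg' : g ∈ Subgroup.Commensurable.commensurator (Est F v w) := by rw [hgg]; exact hg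
      have h1 := (Subgroup.Commensurable.commensurator_mem_iff _ _).1 hg'
      have h2 : (Subgroup.zpowers h).relIndex (ConjAct.toConjAct g • Est F v w) ≠ 0 :=
        Subgroup.relIndex_ne_zero_trans hidx h1.2
      have h3 : g * h * g⁻¹ ∈ ConjAct.toConjAct g • Est F v w := by
        rw [Subgroup.mem_pointwise_smul_iff_inv_smul_mem, ← ConjAct.toConjAct_inv,
          ConjAct.toConjAct_smul]
        have h4 : g⁻¹ * (g * h * g⁻¹) * g⁻¹⁻¹ = h := by
          rw [inv_inv]
          simp only [mul_assoc, inv_mul_cancel, mul_one, inv_mul_cancel_left]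
        rw [h4]
        exact hh
      obtain ⟨n, hn, _, hn2⟩ := Subgroup.exists_pow_mem_of_relIndex_ne_zero h2 h3
      obtain ⟨j, hj⟩ := Subgroup.mem_zpowers_iff.1 (Subgroup.mem_inf.1 hn2).1
      rw [conj_pow] at hj
      have h5 := hbal v w h g n j hvw hh hho (by rw [zpow_natCast]; exact hj.symm)
      have h6 : g ∈ NZ (h ^ n) := by
        show g * h ^ n * g⁻¹ = h ^ n ∨ g * h ^ n * g⁻¹ = (h ^ n)⁻¹
        rw [← hj]
        rcases abs_eq_abs.1 h5 with h7 | h7
        · left
          rw [← h7, zpow_natCast]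
        · right
          have h8 : j = -(n : ℤ) := by omega
          rw [h8, zpow_neg, zpow_natCast]
      refine ⟨n, ?_⟩
      obtain ⟨k, hk⟩ := Nat.dvd_factorial hn (Nat.le_succ n)
      show π g' ∈ NZ (h ^ (n + 1).factorial)
      have h9 : (n + 1).factorial = n * k := hk
      rw [h9, pow_mul, ← hgg]
      exact NZ_pow _ k h6
    · intro i
      refine hC.base.base.of_injective _ _ (MonoidHom.mk' (fun x : ((K i).comap π).subgroupOf
        ((Subgroup.Commensurable.commensurator (Est F v w)).comap π) =>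
          (⟨x.1.1, x.2⟩ : (K i).comap π))
        (fun _ _ => rfl)) ?_ (hCK i)
      intro x y hxy
      exact Subtype.ext (Subtype.ext (congrArg (fun u : (K i).comap π => (u : G)) hxy))
  · rintro W ⟨c, hcW, hc⟩
    refine fi_mem hC.base.base (K := (Subgroup.zpowers c).comap π) ?_ (hab _ ?_)
    · rw [Subgroup.relIndex_comap, Subgroup.map_comap_eq_self_of_surjective hπ]
      exact hc
    · rintro a ⟨i, rfl⟩ b ⟨j, rfl⟩
      exact (Commute.refl c).zpow_zpow i j

end Q182.Rc
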