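import Pool.Agent.Q182.RcCyl
import Pool.Agent.Q182.RcCe

/-!
# Trees with a homomorphism whose kernel meets the edge stabilizers in central subgroups
-/

set_option autoImplicit false

namespace Q182.Rc

open SimpleGraph
open Pool.Agent.Helper270.Tree
open Pool.Agent.Y110.FJ (ClosedE)
open Pool.Agent.Y462.SS (Closed)
open Q182.Cyl (ClosedA Est InfOrd VcEdges Balanced)
open Q182.Cen
open scoped commutatorElement

variable {C : ∀ (G : Type) [Group G], Prop} {G D V : Type} [Group G] [Group D] [MulAction G V]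
  {T : SimpleGraph V}

/-- elements of the kernel which fix an edge commute with the elements of the kernel which fix one of
its vertices -/
def RCent (T : SimpleGraph V) (ρ : G →* D) : Prop :=
  ∀ v w : V, T.Adj v w → ∀ s : G, ρ s = 1 → s • v = v → s • w = w →
    ∀ g : G, ρ g = 1 → g • v = v → g * s = s * g

/-- the subgroup generated by the elements of the kernel which fix an edge -/
def NR (T : SimpleGraph V) (ρ : G →* D) : Subgroup G :=
  Subgroup.closure {s : G | ρ s = 1 ∧ ∃ v w : V, T.Adj v w ∧ s • v = v ∧ s • w = w}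

theorem treeAct_ker (hT : TreeAct G T) (R : Subgroup G) : TreeAct R T :=
  ⟨hT.isTree, fun g v w h => hT.adj g v w h, fun g v w h => hT.noInv g v w h⟩

theorem centE_ker {ρ : G →* D} (h : RCent T ρ) : CentE ρ.ker T := by
  intro v w hvw s hsv hsw g hgv
  exact Subtype.ext (h v w hvw s s.2 hsv hsw g g.2 hgv)

theorem NR_eq (ρ : G →* D) : (NN ρ.ker T).map ρ.ker.subtype = NR T ρ := by
  rw [NN, NR, MonoidHom.map_closure]
  congr 1
  ext s
  constructor
  · rintro ⟨x, ⟨v, w, h1, h2, h3⟩, rfl⟩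
    exact ⟨x.2, v, w, h1, h2, h3⟩
  · rintro ⟨h0, v, w, h1, h2, h3⟩
    exact ⟨⟨s, h0⟩, ⟨v, w, h1, h2, h3⟩, rfl⟩

theorem mem_NR {ρ : G →* D} {s : G} {v w : V} (h0 : ρ s = 1) (h : T.Adj v w) (hv : s • v = v)
    (hw : s • w = w) : s ∈ NR T ρ := Subgroup.subset_closure ⟨h0, v, w, h, hv, hw⟩

theorem NR_le (ρ : G →* D) : NR T ρ ≤ ρ.ker :=
  (Subgroup.closure_le _).2 (fun _ h => h.1)

theorem ell_NR (ρ : G →* D) : Ell V (NR T ρ) := by
  refine (Subgroup.closure_le _).2 ?_
  rintro s ⟨h0, v, w, h, hv, hw⟩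
  exact Subgroup.subset_closure ⟨mem_NR h0 h hv hw, v, hv⟩

theorem normal_NR (hT : TreeAct G T) (ρ : G →* D) : (NR T ρ).Normal := by
  constructor
  intro m hm g
  have h1 : g * m * g⁻¹ ∈ (NR T ρ).map (MulAut.conj g).toMonoidHom := ⟨m, hm, rfl⟩
  rw [NR, MonoidHom.map_closure] at h1
  refine Subgroup.closure_mono ?_ h1
  rintro _ ⟨n, ⟨h0, v, w, h, hv, hw⟩, rfl⟩
  refine ⟨?_, g • v, g • w, hT.adj g v w h, ?_, ?_⟩
  · show ρ (g * n * g⁻¹) = 1
    rw [map_mul, map_mul, h0, mul_one, map_inv, mul_inv_cancel]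
  · show (g * n * g⁻¹) • g • v = g • v
    rw [smul_smul, inv_mul_cancel_right, mul_smul, hv]
  · show (g * n * g⁻¹) • g • w = g • w
    rw [smul_smul, inv_mul_cancel_right, mul_smul, hw]

/-- commutators have no fixed points -/
theorem comm_triv' (hT : TreeAct G T) {ρ : G →* D} (hce : RCent T ρ) {Γ : Subgroup G}
    (hΓR : Γ ≤ ρ.ker) (hΓ : Ell V Γ) (hNΓ : NR T ρ ≤ Γ) {g : G} (hg : g ∈ ⁅NR T ρ, Γ⁆) {x : V}
    (hx : g • x = x) : g = 1 := by
  let R : Subgroup G := ρ.ker
  have hmap : (Γ.subgroupOf R).map R.subtype = Γ := Subgroup.map_subgroupOf_eq_of_le hΓR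
  have hell : Ell V (Γ.subgroupOf R) := by
    intro γ hγ
    have h1 : (γ : G) ∈ (Subgroup.closure {m : R | m ∈ Γ.subgroupOf R ∧ ∃ u : V, m • u = u}).map
        R.subtype := by
      rw [MonoidHom.map_closure]
      refine Subgroup.closure_mono ?_ (hΓ hγ)
      rintro m ⟨hm, u, hu⟩
      exact ⟨⟨m, hΓR hm⟩, ⟨hm, u, hu⟩, rfl⟩
    obtain ⟨y, hy, h2⟩ := h1
    rwa [show γ = y from Subtype.ext h2.symm]
  have hN : NN R T ≤ Γ.subgroupOf R := by
    intro n hn
    have h1 : (n : G) ∈ NR T ρ := by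
      rw [← NR_eq]
      exact ⟨n, hn, rfl⟩
    exact hNΓ h1
  rw [← NR_eq, ← hmap, ← Subgroup.map_commutator] at hg
  obtain ⟨y, hy, rfl⟩ := hg
  have h2 := comm_triv (treeAct_ker hT R) (centE_ker hce) hell hN hy (x := x) hx
  rw [h2]
  rfl

/-- the preimages of the vertex stabilizers of the quotient -/
theorem gamma_mem (hC : ClosedE C) (hmet : ∀ (G : Type) [Group G], derivedSeries G 2 = ⊥ → C G)
    (hT : TreeAct G T) {ρ : G →* Multiplicative ℤ} (hce : RCent T ρ)
    (hst : ∀ v : V, C (MulAction.stabilizer G v)) (v : V) (Γ : Subgroup G)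
    (hΓ : ∀ g, g ∈ Γ ↔ mk (NR T ρ) (g • v) = mk (NR T ρ) v) : C Γ := by
  let N := NR T ρ
  have hN : N.Normal := normal_NR hT ρ
  have hNΓ : N ≤ Γ := fun n hn => (hΓ n).2 (mk_smul hn v)
  have hdec : ∀ g ∈ Γ, ∃ n ∈ N, ∃ h : G, h • v = v ∧ g = n * h := by
    intro g hg
    obtain ⟨n, hn, h1⟩ := mk_eq.1 ((hΓ g).1 hg)
    exact ⟨n, hn, n⁻¹ * g, by rw [mul_smul, ← h1, inv_smul_smul], by group⟩
  have hGv : ∀ h : G, h • v = v → h ∈ Γ := fun h hh => (hΓ h).2 (by rw [hh])
  have hρN : ∀ n ∈ N, ρ n = 1 := fun n hn => NR_le ρ hn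
  let ΓR : Subgroup G := Γ ⊓ ρ.ker
  have hNΓR : N ≤ ΓR := le_inf hNΓ (NR_le ρ)
  have hell : Ell V ΓR := by
    intro g hg
    obtain ⟨n, hn, h, hh, rfl⟩ := hdec g hg.1
    have h1 : ρ h = 1 := by
      have h2 : ρ (n * h) = 1 := hg.2
      rwa [map_mul, hρN n hn, one_mul] at h2
    refine mul_mem ?_ (Subgroup.subset_closure ⟨⟨hGv h hh, h1⟩, v, hh⟩)
    refine (Subgroup.closure_mono ?_) (ell_NR (V := V) ρ hn)
    rintro m ⟨hm, hu⟩
    exact ⟨hNΓR hm, hu⟩
  let N' : Subgroup Γ := N.subgroupOf Γ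
  have hN' : N'.Normal := inferInstance
  let σ₀ : Γ →* Multiplicative ℤ := ρ.comp Γ.subtype
  let K' : Subgroup Γ := σ₀.ker
  have hK' : K'.Normal := inferInstance
  let D' : Subgroup Γ := ⁅N', K'⁆
  have hD : D'.Normal := inferInstance
  have hDG : ∀ d : Γ, d ∈ D' → (d : G) ∈ ⁅N, ΓR⁆ := by
    intro d hd
    have h1 : (d : G) ∈ D'.map Γ.subtype := ⟨d, hd, rfl⟩
    rw [Subgroup.map_commutator] at h1
    refine Subgroup.commutator_mono ?_ ?_ h1
    · rintro _ ⟨n, hn, rfl⟩
      exact hn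
    · rintro _ ⟨n, hn, rfl⟩
      exact ⟨n.2, hn⟩
  have hDx : ∀ d : Γ, d ∈ D' → ∀ x : V, (d : G) • x = x → d = 1 := by
    intro d hd x hx
    exact Subtype.ext (comm_triv' hT hce inf_le_right hell hNΓR (hDG d hd) hx)
  let S : Subgroup Γ := (MulAction.stabilizer G v).subgroupOf Γ
  let ι : S →* Γ ⧸ D' := (QuotientGroup.mk' D').comp S.subtype
  have hι : Function.Injective ι := by
    rw [injective_iff_map_eq_one]
    intro s hs
    have h1 : (s : Γ) ∈ D' := (QuotientGroup.eq_one_iff _).1 hs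
    exact Subtype.ext (hDx s h1 v s.2)
  have hS : C S := by
    refine hC.base.of_injective _ _ (MonoidHom.mk' (fun x : S =>
      (⟨(x.1 : G), x.2⟩ : MulAction.stabilizer G v)) (fun _ _ => rfl)) ?_ (hst v)
    intro x y hxy
    exact Subtype.ext (Subtype.ext (congrArg (fun u : MulAction.stabilizer G v => (u : G)) hxy))
  have hA : C ι.range :=
    hC.base.of_injective _ _ (MonoidHom.ofInjective hι).symm.toMonoidHom
      (MonoidHom.ofInjective hι).symm.injective hS
  have hDK : D' ≤ K' := Subgroup.commutator_le_right N' K'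
  let σ : Γ ⧸ D' →* Multiplicative ℤ := QuotientGroup.lift D' σ₀ (fun x hx => hDK hx)
  have hσ : ∀ x : Γ, σ (QuotientGroup.mk' D' x) = ρ x := fun x => rfl
  have hcomm : ∀ n ∈ N', ∀ k ∈ K', QuotientGroup.mk' D' n * QuotientGroup.mk' D' k =
      QuotientGroup.mk' D' k * QuotientGroup.mk' D' n := by
    intro n hn k hk
    rw [← commutatorElement_eq_one_iff_mul_comm, ← map_commutatorElement]
    exact (QuotientGroup.eq_one_iff _).2 (Subgroup.commutator_mem_commutator hn hk)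
  have hNK : N' ≤ K' := fun n hn => hρN n hn
  have hQ : C (Γ ⧸ D') := by
    refine ce_rel hC hmet ι.range (N'.map (QuotientGroup.mk' D')) σ ?_ ?_ ?_ ?_ hA
    · rintro _ ⟨n, hn, rfl⟩
      rw [hσ]
      exact hρN n hn
    · rintro _ ⟨n, hn, rfl⟩ _ ⟨n', hn', rfl⟩
      exact hcomm n hn n' (hNK hn')
    · rintro _ ⟨s, rfl⟩ hs _ ⟨n, hn, rfl⟩
      exact (hcomm n hn s hs).symm
    · intro p
      obtain ⟨γ, rfl⟩ := QuotientGroup.mk'_surjective D' p
      obtain ⟨n, hn, h, hh, h1⟩ := hdec γ γ.2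
      have h2 : γ = ⟨n, hNΓ hn⟩ * ⟨h, hGv h hh⟩ := Subtype.ext h1
      refine ⟨_, ⟨⟨n, hNΓ hn⟩, hn, rfl⟩, _, ⟨⟨⟨h, hGv h hh⟩, hh⟩, rfl⟩, ?_⟩
      rw [h2, map_mul]
      rfl
  refine Q9.FJT.tree_edge (V := V) (T := T) (QuotientGroup.mk' D') hC hQ hT.isTree
    (fun g v w h => hT.adj g v w h) (fun g v w h => hT.noInv g v w h) ?_
    (fun x => st_mem hC.base Γ x (hst x))
  intro g x y _ hx _ h1
  exact hDx g ((QuotientGroup.eq_one_iff _).1 h1) x hx

/-- the preimages of the commutative subgroups of the quotient -/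
theorem cyc_mem (hC : ClosedE C)
    (hmet : ∀ (G : Type) [Group G], derivedSeries G 2 = ⊥ → C G)
    (hT : TreeAct G T) {ρ : G →* D} (hce : RCent T ρ) (hst : ∀ v : V, C (MulAction.stabilizer G v))
    (K : Subgroup G) (hK : ⁅K, K⁆ ≤ NR T ρ) : C K := by
  let N := NR T ρ
  have hN : N.Normal := normal_NR hT ρ
  let N' : Subgroup K := N.subgroupOf K
  have hN' : N'.Normal := inferInstance
  let D' : Subgroup K := ⁅N', N'⁆
  have hD : D'.Normal := inferInstance
  have hDx : ∀ d : K, d ∈ D' → ∀ x : V, (d : G) • x = x → d = 1 := by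
    intro d hd x hx
    have h1 : (d : G) ∈ D'.map K.subtype := ⟨d, hd, rfl⟩
    rw [Subgroup.map_commutator] at h1
    have h2 : N'.map K.subtype ≤ N := by
      rintro _ ⟨n, hn, rfl⟩
      exact hn
    exact Subtype.ext (comm_triv' hT hce (NR_le ρ) (ell_NR ρ) le_rfl
      (Subgroup.commutator_mono h2 h2 h1) hx)
  have hQ : C (K ⧸ D') := by
    apply hmet
    rw [← map_derivedSeries_eq (QuotientGroup.mk'_surjective D') 2, eq_bot_iff]
    rintro _ ⟨d, hd, rfl⟩
    rw [Subgroup.mem_bot]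
    refine (QuotientGroup.eq_one_iff _).2 ?_
    have h1 : derivedSeries K 1 ≤ N' := by
      intro x hx
      have h2 : (x : G) ∈ (derivedSeries K 1).map K.subtype := ⟨x, hx, rfl⟩
      have h3 : derivedSeries K 1 = ⁅(⊤ : Subgroup K), (⊤ : Subgroup K)⁆ := derivedSeries_one K
      rw [h3, Subgroup.map_commutator] at h2
      apply hK
      refine Subgroup.commutator_mono ?_ ?_ h2
      · rintro _ ⟨n, _, rfl⟩
        exact n.2
      · rintro _ ⟨n, _, rfl⟩
        exact n.2
    have h2 : derivedSeries K 2 ≤ ⁅N', N'⁆ := by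
      rw [derivedSeries_succ]
      exact Subgroup.commutator_mono h1 h1
    exact h2 hd
  refine Q9.FJT.tree_edge (V := V) (T := T) (QuotientGroup.mk' D') hC hQ hT.isTree
    (fun g v w h => hT.adj g v w h) (fun g v w h => hT.noInv g v w h) ?_
    (fun x => st_mem hC.base K x (hst x))
  intro g x y _ hx _ h1
  exact hDx g ((QuotientGroup.eq_one_iff _).1 h1) x hx

/-- a lift of an element which fixes an edge of the quotient tree -/
theorem edge_lift (hT : TreeAct G T) {N : Subgroup G} (hN : Ell V N) {a b : V} (hab : T.Adj a b)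
    {g : G} (ha : mk N (g • a) = mk N a) (hb : mk N (g • b) = mk N b) :
    ∃ n ∈ N, (n * g) • a = a ∧ (n * g) • b = b := by
  obtain ⟨n, hn, h3⟩ := mk_eq.1 ha
  have h4 : (n⁻¹ * g) • a = a := by rw [mul_smul, ← h3, inv_smul_smul]
  have h5 : T.Adj a ((n⁻¹ * g) • b) := by
    have h6 := hT.adj (n⁻¹ * g) a b hab
    rwa [h4] at h6
  have h7 : mk N ((n⁻¹ * g) • b) = mk N b := by
    rw [mul_smul, mk_smul (N.inv_mem hn), hb]
  obtain ⟨m, hm, h8⟩ := mk_eq.1 h7
  obtain ⟨k, hk, h9, h10⟩ := edge_orbit hT hN hab h5 hm h8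
  refine ⟨k⁻¹ * n⁻¹, mul_mem (inv_mem hk) (inv_mem hn), ?_, ?_⟩
  · rw [mul_assoc, mul_smul, h4, inv_smul_eq_iff, h9]
  · rw [mul_assoc, mul_smul, inv_smul_eq_iff, h10]

/-- **the theorem for homomorphisms to the integers** -/
theorem core (hC : ClosedA C) (hmet : ∀ (G : Type) [Group G], derivedSeries G 2 = ⊥ → C G)
    (hT : TreeAct G T) {ρ : G →* Multiplicative ℤ} (hce : RCent T ρ)
    (hst : ∀ v : V, C (MulAction.stabilizer G v)) : C G := by
  let N := NR T ρ
  have hN : N.Normal := normal_NR hT ρ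
  let _ := qAct V N
  have hA : TreeAct (G ⧸ N) (QG T N) := treeAct_QG N hT (ell_NR ρ)
  have hsm : ∀ (g : G) (x : V), (QuotientGroup.mk' N g) • mk N x = mk N (g • x) := fun g x => rfl
  have hsurj := QuotientGroup.mk'_surjective N
  let σ : G ⧸ N →* Multiplicative ℤ := QuotientGroup.lift N ρ (fun x hx => NR_le ρ hx)
  have hσ : ∀ x : G, σ (QuotientGroup.mk' N x) = ρ x := fun x => rfl
  have hinj : ∀ p q : Orb V N, (QG T N).Adj p q → ∀ f ∈ Est (G ⧸ N) p q, σ f = 1 → f = 1 := by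
    intro p q hpq f hf h1
    obtain ⟨g, rfl⟩ := hsurj f
    obtain ⟨a, rfl⟩ := exists_mk p
    obtain ⟨b, hab, rfl⟩ := exists_lift hT hpq
    obtain ⟨n, hn, h2, h3⟩ := edge_lift hT (ell_NR ρ) hab (g := g) hf.1 hf.2
    have h4 : n * g ∈ N := mem_NR (by rw [map_mul, NR_le ρ hn, one_mul]; exact h1) hab h2 h3
    exact (QuotientGroup.eq_one_iff _).2 ((Subgroup.mul_mem_cancel_left N hn).1 h4)
  refine main2 hC (QuotientGroup.mk' N) hsurj hA ?_ ?_ ?_ ?_
  · intro p q hpq
    have hi : Function.Injective (σ.comp (Est (G ⧸ N) p q).subtype) := by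
      rw [injective_iff_map_eq_one]
      intro x hx
      exact Subtype.ext (hinj p q hpq x x.2 hx)
    have hcyc : IsCyclic (Est (G ⧸ N) p q) := isCyclic_of_injective _ hi
    obtain ⟨⟨c, hc⟩, hgen⟩ := hcyc.exists_generator
    refine ⟨c, hc, ?_⟩
    have h1 : Est (G ⧸ N) p q ≤ Subgroup.zpowers c := by
      intro x hx
      obtain ⟨k, hk⟩ := Subgroup.mem_zpowers_iff.1 (hgen ⟨x, hx⟩)
      exact Subgroup.mem_zpowers_iff.2 ⟨k, congrArg Subtype.val hk⟩
    rw [Subgroup.relIndex_eq_one.2 h1]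
    exact one_ne_zero
  · intro p q h g m n hpq hh hinf hgh
    have h1 := congrArg σ hgh
    rw [map_mul, map_mul, map_inv, map_zpow, map_zpow, mul_inv_cancel_comm] at h1
    have h2 : σ (h ^ (m - n)) = 1 := by
      rw [map_zpow, zpow_sub, h1, mul_inv_cancel]
    have h3 := hinj p q hpq _ (zpow_mem hh _) h2
    have h4 := hinf.zpow h3
    have h5 : m = n := by omega
    rw [h5]
  · intro p
    obtain ⟨v, rfl⟩ := exists_mk p
    exact gamma_mem hC.base hmet hT hce hst v _ (fun g => Iff.rfl)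
  · intro A hA'
    refine cyc_mem hC.base hmet hT hce hst _ ?_
    rw [Subgroup.commutator_le]
    intro a ha b hb
    refine (QuotientGroup.eq_one_iff _).1 ?_
    show QuotientGroup.mk' N ⁅a, b⁆ = 1
    rw [map_commutatorElement, commutatorElement_eq_one_iff_mul_comm]
    exact hA' _ ha _ hb

/-- **main theorem** -/
theorem main (hC : ClosedA C) (hmet : ∀ (G : Type) [Group G], derivedSeries G 2 = ⊥ → C G)
    (hT : TreeAct G T) (ρ : G →* D) (hD : C D) (hce : RCent T ρ)
    (hst : ∀ v : V, C (MulAction.stabilizer G v)) : C G := by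
  have hsurj := ρ.rangeRestrict_surjective
  have hrange : C ρ.range := hC.base.base.of_injective _ _ ρ.range.subtype
    ρ.range.subtype_injective hD
  refine hC.base.ext G ρ.range ρ.rangeRestrict hsurj hrange ?_
  rintro W ⟨c, hcW, hc⟩
  refine Q182.Cyl.fi_mem hC.base.base (K := (Subgroup.zpowers c).comap ρ.rangeRestrict) ?_ ?_
  · rw [Subgroup.relIndex_comap, Subgroup.map_comap_eq_self_of_surjective hsurj]
    exact hc
  · obtain ⟨K, hK⟩ : ∃ K, K = (Subgroup.zpowers c).comap ρ.rangeRestrict := ⟨_, rfl⟩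
    rw [← hK]
    have hKmem : ∀ g, g ∈ K ↔ ρ.rangeRestrict g ∈ Subgroup.zpowers c := by
      intro g
      rw [hK]
      exact Iff.rfl
    have hker : ρ.ker ≤ K := by
      intro g hg
      rw [hKmem]
      have h1 : ρ.rangeRestrict g = 1 := Subtype.ext hg
      rw [h1]
      exact one_mem _
    by_cases hord : ∃ n : ℕ, 0 < n ∧ c ^ n = 1
    · obtain ⟨n, hn, hcn⟩ := hord
      have hR : C ρ.ker := Q182.Cen.main hC hmet (treeAct_ker hT ρ.ker) (centE_ker hce)
        (fun v => st_mem hC.base.base _ v (hst v))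
      refine Q182.Cyl.fi_mem hC.base.base (K := ρ.ker) ?_ hR
      have h1 : ρ.ker = ρ.rangeRestrict.ker := (MonoidHom.ker_rangeRestrict ρ).symm
      rw [h1, Subgroup.relIndex_ker]
      have h2 : K.map ρ.rangeRestrict = Subgroup.zpowers c := by
        rw [hK, Subgroup.map_comap_eq_self_of_surjective hsurj]
      rw [h2]
      have h3 : Finite (Subgroup.zpowers c) :=
        (finite_zpowers.2 (isOfFinOrder_iff_pow_eq_one.2 ⟨n, hn, hcn⟩)).to_subtype
      exact Nat.card_pos.ne'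
    · have hz : ∀ k : ℤ, c ^ k = 1 → k = 0 := by
        intro k hk
        by_contra hne
        apply hord
        refine ⟨k.natAbs, Int.natAbs_pos.2 hne, ?_⟩
        rcases Int.natAbs_eq k with h4 | h4
        · rw [h4, zpow_natCast] at hk
          exact hk
        · rw [h4, zpow_neg, zpow_natCast, inv_eq_one] at hk
          exact hk
      choose k hk using fun g : K => Subgroup.mem_zpowers_iff.1 ((hKmem g).1 g.2)
      let ρ' : K →* Multiplicative ℤ := MonoidHom.mk' (fun g => Multiplicative.ofAdd (k g)) (by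
        intro a b
        have h1 : c ^ (k (a * b) - (k a + k b)) = 1 := by
          rw [zpow_sub, zpow_add, hk, hk, hk, Subgroup.coe_mul, map_mul, mul_inv_cancel]
        have h2 := hz _ h1
        show Multiplicative.ofAdd (k (a * b)) = Multiplicative.ofAdd (k a) * Multiplicative.ofAdd (k b)
        rw [← ofAdd_add]
        congr 1
        omega)
      have hρ' : ∀ g : K, ρ' g = 1 → ρ g = 1 := by
        intro g hg
        have h1 : k g = 0 := Multiplicative.ofAdd.injective hg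
        have h2 := hk g
        rw [h1, zpow_zero] at h2
        exact (congrArg Subtype.val h2).symm
      refine core hC hmet (treeAct_ker hT K) (ρ := ρ') ?_ (fun v => st_mem hC.base.base _ v (hst v))
      intro v w hvw s hs hsv hsw g hg hgv
      exact Subtype.ext (hce v w hvw s (hρ' s hs) hsv hsw g (hρ' g hg) hgv)

end Q182.Rc
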