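import Mathlib
import Pool.Agent.Q182.MKDefs

/-!
# The topologies `λ_b`, `τ_c` and `s_b` on the integers
-/

namespace Q182

open Filter Topology

/-- D-sequences: sequences `b` of positive integers with `b 0 = 1`, `b n ∣ b (n + 1)` and
`b n ≠ b (n + 1)`. -/
def IsDSeq (b : ℕ → ℕ) : Prop := b 0 = 1 ∧ (∀ n, 0 < b n) ∧ ∀ n, b n ∣ b (n + 1) ∧ b n ≠ b (n + 1)

/-- D-sequences with `b (n + 1) / b n → ∞`. -/
def IsDInf (b : ℕ → ℕ) : Prop :=
  IsDSeq b ∧ Tendsto (fun n => (b (n + 1) : ℝ) / (b n : ℝ)) atTop atTop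

/-- The linear topology `λ_b`: the coarsest topology for which all reductions
`ℤ → ZMod (b n)` into discrete groups are continuous; a neighbourhood base at `0` is given by
the subgroups `b n ℤ`. -/
noncomputable def lam (b : ℕ → ℕ) : TopologicalSpace ℤ :=
  ⨅ n, TopologicalSpace.induced (fun k : ℤ => (k : ZMod (b n))) ⊥

/-- The topology of uniform convergence on a set `S` of characters `k ↦ k • s` of `ℤ`. -/
noncomputable def unifTop (S : Set UnitAddCircle) : TopologicalSpace ℤ :=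
  TopologicalSpace.induced
    (fun k : ℤ => (UniformFun.ofFun (fun s : S => k • (s : UnitAddCircle)) :
      UniformFun S UnitAddCircle)) inferInstance

/-- The topology `τ_c` of uniform convergence on the characters `1 / c n + ℤ`, `n ≥ 1`. -/
noncomputable def tau (c : ℕ → ℕ) : TopologicalSpace ℤ :=
  unifTop {s | ∃ n : ℕ, 1 ≤ n ∧ s = ((1 / (c n : ℝ) : ℝ) : UnitAddCircle)}

/-- The topology `s_b`: the supremum (coarsest common refinement) of all `τ_c`, `c` in `D_∞` with
`λ_c = λ_b`. -/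
noncomputable def sTop (b : ℕ → ℕ) : TopologicalSpace ℤ :=
  ⨅ c : {c : ℕ → ℕ // IsDInf c ∧ lam c = lam b}, tau c

/-- The set `H_b` of the characters whose value at `1` is `k / b n + ℤ` for some `k`, `n`. -/
def Hset (b : ℕ → ℕ) : Set (ℤ →+ UnitAddCircle) :=
  {χ | ∃ (k : ℤ) (n : ℕ), χ 1 = (((k : ℝ) / (b n : ℝ) : ℝ) : UnitAddCircle)}

end Q182
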