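import Mathlib
import Pool.Agent.Q182.SBDefs
import Pool.Agent.Q182.MKTop

/-!
# Basic facts on the topologies `λ_b`, `τ_c`, `s_b`
-/

namespace Q182.SB

open Set Filter Topology
open Q182.MK

/-- The least multiple leaving the quarter. -/
lemma exists_multiple {t : T} {n : ℕ} (hn : 1 ≤ n) (hi : 1 / (4 * (n : ℝ)) < ‖t‖) :
    ∃ l : ℕ, l ≤ n ∧ 1 / 4 < ‖(l : ℤ) • t‖ := by
  have hn0 : (0 : ℝ) < n := by exact_mod_cast hn
  have hex : ∃ l : ℕ, 1 / 4 < (l : ℝ) * ‖t‖ := by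
    refine ⟨n, ?_⟩
    rw [div_lt_iff₀ (by positivity)] at hi
    linarith
  set l := Nat.find hex with hl
  have hl1 : 1 / 4 < (l : ℝ) * ‖t‖ := Nat.find_spec hex
  have hln : l ≤ n := Nat.find_min' hex (by
    rw [div_lt_iff₀ (by positivity)] at hi
    linarith)
  have hl0 : l ≠ 0 := by
    rintro h0
    rw [h0] at hl1
    norm_num at hl1
  have hl2 : ((l - 1 : ℕ) : ℝ) * ‖t‖ ≤ 1 / 4 := by
    by_contra hcon
    rw [not_le] at hcon
    exact Nat.find_min hex (m := l - 1) (by omega) hcon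
  refine ⟨l, hln, ?_⟩
  obtain ⟨y, hy1, hy2, hy3⟩ := exists_rep t
  rw [← hy1, zsmul_coe]
  rw [← hy2] at hl1 hl2
  have hlcast : ((l - 1 : ℕ) : ℝ) = (l : ℝ) - 1 := by
    rw [Nat.cast_sub (by omega)]
    norm_num
  rw [hlcast] at hl2
  push_cast
  by_cases hl3 : (l : ℝ) * |y| ≤ 1 / 2
  · rw [norm_coe_of_le (by rw [abs_mul, Nat.abs_cast]; exact hl3), abs_mul, Nat.abs_cast]
    exact hl1
  · exfalso
    have hl4 : l ≠ 1 := by
      rintro h1'
      rw [h1'] at hl3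
      push_cast at hl3
      linarith
    have hl5 : (2 : ℝ) ≤ l := by
      have : 2 ≤ l := by omega
      exact_mod_cast this
    have hy0 : 0 ≤ |y| := abs_nonneg y
    nlinarith

/-- The homomorphism defining `unifTop`. -/
noncomputable def unifHom (S : Set T) : ℤ →+ UniformFun S T where
  toFun k := UniformFun.ofFun fun s : S => k • (s : T)
  map_zero' := by
    show UniformFun.ofFun (fun s : S => (0 : ℤ) • (s : T)) = UniformFun.ofFun fun _ => 0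
    congr 1
    funext i
    rw [zero_smul]
  map_add' a b := by
    show UniformFun.ofFun (fun s : S => (a + b) • (s : T)) =
      UniformFun.ofFun fun s : S => a • (s : T) + b • (s : T)
    congr 1
    funext i
    rw [add_smul]

lemma unif_group (S : Set T) : @IsTopologicalAddGroup ℤ (unifTop S) _ :=
  topologicalAddGroup_induced (unifHom S)

lemma unif_basis (S : Set T) : (@nhds ℤ (unifTop S) 0).HasBasis (fun ε : ℝ => 0 < ε)
    (fun ε => {k : ℤ | ∀ s ∈ S, ‖k • s‖ < ε}) := by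
  have h1 : @nhds ℤ (unifTop S) 0 = comap (unifHom S) (𝓝 0) := by
    have := nhds_induced (unifHom S) 0
    rw [map_zero] at this
    exact this
  rw [h1]
  have h2 : (𝓝 (0 : UniformFun S T)).HasBasis (fun ε : ℝ => 0 < ε)
      (fun ε => {f | ∀ i, UniformFun.toFun f i ∈ Metric.ball (0 : T) ε}) :=
    UniformFun.hasBasis_nhds_zero_of_basis Metric.nhds_basis_ball
  refine (h2.comap (unifHom S)).congr (fun _ => Iff.rfl) fun ε _ => ?_
  ext k
  constructor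
  · intro h s hs
    have h3 : k • s ∈ Metric.ball (0 : T) ε := h ⟨s, hs⟩
    rwa [mem_ball_zero_iff] at h3
  · intro h s
    show k • (s : T) ∈ Metric.ball (0 : T) ε
    rw [mem_ball_zero_iff]
    exact h s s.2

section family

variable {ι : Type} (S : ι → Set T)

lemma iInf_group : @IsTopologicalAddGroup ℤ (⨅ i, unifTop (S i)) _ :=
  topologicalAddGroup_iInf fun i => unif_group (S i)

lemma mem_nhds_iInf {V : Set ℤ} : V ∈ @nhds ℤ (⨅ i, unifTop (S i)) 0 ↔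
    ∃ F : Set ι, F.Finite ∧ ∃ ε > 0, ∀ k : ℤ, (∀ i ∈ F, ∀ s ∈ S i, ‖k • s‖ < ε) → k ∈ V := by
  have h1 : @nhds ℤ (⨅ i, unifTop (S i)) 0 = ⨅ i, @nhds ℤ (unifTop (S i)) 0 :=
    @nhds_iInf ℤ ι (fun i => unifTop (S i)) 0
  rw [h1, (Filter.HasBasis.iInf fun i => unif_basis (S i)).mem_iff]
  constructor
  · rintro ⟨⟨F, e⟩, ⟨hF, he⟩, hV⟩
    have := hF.to_subtype
    obtain ⟨ε, hε, hε2⟩ : ∃ ε > 0, ∀ i : F, ε ≤ e i := by
      rcases isEmpty_or_nonempty F with h | h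
      · exact ⟨1, one_pos, fun i => (h.false i).elim⟩
      · obtain ⟨i, hi⟩ := Finite.exists_min e
        exact ⟨e i, he i, hi⟩
    refine ⟨F, hF, ε, hε, fun k hk => hV ?_⟩
    rw [mem_iInter]
    exact fun i s hs => (hk i i.2 s hs).trans_le (hε2 i)
  · rintro ⟨F, hF, ε, hε, hV⟩
    refine ⟨⟨F, fun _ => ε⟩, ⟨hF, fun _ => hε⟩, fun k hk => hV k fun i hi s hs => ?_⟩
    rw [mem_iInter] at hk
    exact hk ⟨i, hi⟩ s hs

lemma chr_mem_iInf {i : ι} {s : T} (hs : s ∈ S i) : chr s ∈ chars (⨅ i, unifTop (S i)) := by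
  refine continuous_chr _ (iInf_group S) s fun ε hε => ?_
  refine ⟨{k : ℤ | ‖k • s‖ ≤ ε}, (mem_nhds_iInf S).2 ⟨{i}, Set.finite_singleton i, ε, hε,
    fun k hk => (hk i rfl s hs).le⟩, fun k hk => hk⟩

lemma smul_mem_chars {τ : TopologicalSpace ℤ} (hτ : @IsTopologicalAddGroup ℤ τ _) {s : T}
    (hs : chr s ∈ chars τ) (l : ℤ) : chr (l • s) ∈ chars τ :=
  (HH τ hτ).zsmul_mem hs l

lemma exists_frac {ε : ℝ} (hε : 0 < ε) : ∃ n : ℕ, 1 ≤ n ∧ 1 / (4 * (n : ℝ)) < ε := by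
  obtain ⟨n, hn⟩ := exists_nat_gt (1 / ε)
  have hn0 : (0 : ℝ) < n := lt_trans (by positivity) hn
  refine ⟨n, by exact_mod_cast hn0, ?_⟩
  rw [div_lt_iff₀ (by positivity)]
  rw [div_lt_iff₀ hε] at hn
  nlinarith

/-- Suprema of topologies of uniform convergence are locally quasi-convex. -/
theorem lqc_iInf : IsLQC (⨅ i, unifTop (S i)) := by
  refine ⟨iInf_group S, fun V hV => ?_⟩
  obtain ⟨F, hF, ε, hε, h1⟩ := (mem_nhds_iInf S).1 hV
  obtain ⟨n, hn1, hn2⟩ := exists_frac hε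
  have hn0 : (0 : ℝ) < n := by exact_mod_cast hn1
  refine ⟨{k : ℤ | ∀ i ∈ F, ∀ s ∈ S i, ‖k • s‖ ≤ 1 / (4 * (n : ℝ))},
    (mem_nhds_iInf S).2 ⟨F, hF, 1 / (4 * (n : ℝ)), by positivity,
      fun k hk i hi s hs => (hk i hi s hs).le⟩, ?_, fun k hk =>
    h1 k fun i hi s hs => (hk i hi s hs).trans_lt hn2⟩
  intro x hx
  have h2 : ∃ i ∈ F, ∃ s ∈ S i, 1 / (4 * (n : ℝ)) < ‖x • s‖ := by
    by_contra hcon
    push Not at hcon
    exact hx hcon
  obtain ⟨i, hi, s, hs, hxs⟩ := h2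
  obtain ⟨l, hln, hl⟩ := exists_multiple hn1 hxs
  refine ⟨chr ((l : ℤ) • s), smul_mem_chars (iInf_group S) (chr_mem_iInf S hs) _, fun a ha => ?_, ?_⟩
  · rw [mem_Tplus, chr_apply, smul_comm]
    refine (norm_zsmul_le _ _).trans ?_
    have h3 := ha i hi s hs
    have h4 : ‖((l : ℤ))‖ ≤ n := by
      rw [Int.norm_natCast]
      exact_mod_cast hln
    calc ‖((l : ℤ))‖ * ‖a • s‖ ≤ n * (1 / (4 * (n : ℝ))) := by gcongr
      _ = 1 / 4 := by field_simp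
  · rw [mem_Tplus, chr_apply, smul_comm, not_le]
    exact hl

end family

/-! ### The linear topologies -/

lemma dvd_mono {b : ℕ → ℕ} (hb : IsDSeq b) {m n : ℕ} (h : m ≤ n) : b m ∣ b n := by
  induction n, h using Nat.le_induction with
  | base => exact dvd_rfl
  | succ n _ ih => exact ih.trans (hb.2.2 n).1

lemma lam_group (b : ℕ → ℕ) : @IsTopologicalAddGroup ℤ (lam b) _ := by
  refine topologicalAddGroup_iInf fun n => ?_
  exact topologicalAddGroup_induced (Int.castAddHom (ZMod (b n)))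

lemma mem_nhds_lam {b : ℕ → ℕ} (hb : IsDSeq b) {V : Set ℤ} :
    V ∈ @nhds ℤ (lam b) 0 ↔ ∃ n, ∀ k : ℤ, (b n : ℤ) ∣ k → k ∈ V := by
  have h1 : @nhds ℤ (lam b) 0 = ⨅ n, @nhds ℤ (TopologicalSpace.induced
      (fun k : ℤ => (k : ZMod (b n))) ⊥) 0 := nhds_iInf
  have h2 : ∀ n, (@nhds ℤ (TopologicalSpace.induced (fun k : ℤ => (k : ZMod (b n))) ⊥) 0).HasBasis
      (fun _ : Unit => True) (fun _ => {k : ℤ | (b n : ℤ) ∣ k}) := by
    intro n
    have h3 : @nhds ℤ (TopologicalSpace.induced (fun k : ℤ => (k : ZMod (b n))) ⊥) 0 =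
        comap (fun k : ℤ => (k : ZMod (b n))) (pure 0) := by
      have := @nhds_induced (ZMod (b n)) ℤ ⊥ (fun k : ℤ => (k : ZMod (b n))) 0
      rw [this]
      congr 1
      rw [@nhds_discrete (ZMod (b n)) ⊥ ⟨rfl⟩]
      simp
    rw [h3]
    refine ⟨fun W => ?_⟩
    rw [mem_comap]
    constructor
    · rintro ⟨t, ht, htW⟩
      refine ⟨(), trivial, fun k hk => htW ?_⟩
      rw [mem_preimage, (ZMod.intCast_zmod_eq_zero_iff_dvd k (b n)).2 hk]
      exact mem_pure.1 ht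
    · rintro ⟨_, -, hW⟩
      exact ⟨{0}, mem_pure.2 rfl, fun k hk => hW
        ((ZMod.intCast_zmod_eq_zero_iff_dvd k (b n)).1 hk)⟩
  rw [h1, (Filter.HasBasis.iInf h2).mem_iff]
  constructor
  · rintro ⟨⟨F, e⟩, ⟨hF, -⟩, hV⟩
    obtain ⟨N, hN⟩ := hF.bddAbove
    refine ⟨N, fun k hk => hV ?_⟩
    rw [mem_iInter]
    intro i
    exact (Int.natCast_dvd_natCast.2 (dvd_mono hb (hN i.2))).trans hk
  · rintro ⟨n, hn⟩
    refine ⟨⟨{n}, fun _ => ()⟩, ⟨Set.finite_singleton n, fun _ => trivial⟩, fun k hk => hn k ?_⟩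
    rw [mem_iInter] at hk
    exact hk ⟨n, rfl⟩

/-- Equality of linear topologies. -/
lemma lam_eq {b c : ℕ → ℕ} (hb : IsDSeq b) (hc : IsDSeq c) :
    lam c = lam b ↔ (∀ n, ∃ m, c n ∣ b m) ∧ ∀ n, ∃ m, b n ∣ c m := by
  have key : ∀ {b c : ℕ → ℕ}, IsDSeq b → IsDSeq c → lam c = lam b → ∀ n, ∃ m, c n ∣ b m := by
    intro b c hb hc h n
    have h1 : {k : ℤ | (c n : ℤ) ∣ k} ∈ @nhds ℤ (lam c) 0 := (mem_nhds_lam hc).2 ⟨n, fun k hk => hk⟩
    rw [h] at h1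
    obtain ⟨m, hm⟩ := (mem_nhds_lam hb).1 h1
    exact ⟨m, Int.natCast_dvd_natCast.1 (hm _ dvd_rfl)⟩
  constructor
  · intro h
    exact ⟨key hb hc h, key hc hb h.symm⟩
  · rintro ⟨h1, h2⟩
    apply IsTopologicalAddGroup.ext (lam_group c) (lam_group b)
    ext V
    rw [mem_nhds_lam hb, mem_nhds_lam hc]
    constructor
    · rintro ⟨n, hn⟩
      obtain ⟨m, hm⟩ := h1 n
      exact ⟨m, fun k hk => hn k ((Int.natCast_dvd_natCast.2 hm).trans hk)⟩
    · rintro ⟨n, hn⟩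
      obtain ⟨m, hm⟩ := h2 n
      exact ⟨m, fun k hk => hn k ((Int.natCast_dvd_natCast.2 hm).trans hk)⟩

lemma smul_frac_eq_zero {k n : ℤ} {q : ℕ} (hq : 0 < q) (h : (q : ℤ) ∣ n) :
    n • ((((k : ℝ) / (q : ℝ) : ℝ)) : T) = 0 := by
  obtain ⟨c, rfl⟩ := h
  rw [zsmul_coe, AddCircle.coe_eq_zero_iff]
  refine ⟨c * k, ?_⟩
  have hq' : (q : ℝ) ≠ 0 := by positivity
  rw [zsmul_eq_mul]
  push_cast
  field_simp

/-- Torsion elements are fractions. -/
lemma exists_frac_of_smul {t : T} {q : ℕ} (hq : 0 < q) (h : (q : ℤ) • t = 0) :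
    ∃ k : ℤ, t = (((k : ℝ) / (q : ℝ) : ℝ) : T) := by
  obtain ⟨y, rfl, -, -⟩ := exists_rep t
  rw [zsmul_coe, AddCircle.coe_eq_zero_iff] at h
  obtain ⟨k, hk⟩ := h
  refine ⟨k, ?_⟩
  congr 1
  rw [zsmul_eq_mul, mul_one] at hk
  have hq' : (q : ℝ) ≠ 0 := by positivity
  push_cast at hk
  rw [eq_div_iff hq', hk]
  ring

theorem chars_lam {b : ℕ → ℕ} (hb : IsDSeq b) : chars (lam b) = Hset b := by
  ext χ
  constructor
  · intro hχ
    rw [chr_eq χ] at hχ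
    obtain ⟨n, hn⟩ := (mem_nhds_lam hb).1 (small_of_mem (lam b) (χ 1) hχ (ε := 1 / 4) (by norm_num))
    have h1 : (b n : ℤ) • χ 1 = 0 := by
      apply eq_zero_of_small
      intro k
      rw [smul_smul]
      exact hn _ (dvd_mul_left _ _)
    obtain ⟨k, hk⟩ := exists_frac_of_smul (hb.2.1 n) h1
    exact ⟨k, n, hk⟩
  · rintro ⟨k, n, hk⟩
    rw [chr_eq χ]
    refine continuous_chr (lam b) (lam_group b) (χ 1) fun ε hε => ?_
    refine ⟨{l : ℤ | (b n : ℤ) ∣ l}, (mem_nhds_lam hb).2 ⟨n, fun l hl => hl⟩, fun l hl => ?_⟩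
    rw [hk, smul_frac_eq_zero (hb.2.1 n) hl, norm_zero]
    exact hε.le

/-! ### The supremum -/

/-- The index type of the supremum. -/
abbrev Idx (b : ℕ → ℕ) : Type := {c : ℕ → ℕ // IsDInf c ∧ lam c = lam b}

/-- The characters of `τ_c`. -/
def Sc (c : ℕ → ℕ) : Set T := {s | ∃ n : ℕ, 1 ≤ n ∧ s = ((1 / (c n : ℝ) : ℝ) : T)}

lemma sTop_eq (b : ℕ → ℕ) : sTop b = ⨅ c : Idx b, unifTop (Sc c.1) := rfl

lemma lqc_sTop (b : ℕ → ℕ) : IsLQC (sTop b) := lqc_iInf (fun c : Idx b => Sc c.1)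

/-- If the family is nonempty then the characters in `H_b` are continuous. -/
lemma Hset_subset {b : ℕ → ℕ} (hb : IsDSeq b) (c : Idx b) : Hset b ⊆ chars (sTop b) := by
  rintro χ ⟨k, n, hk⟩
  obtain ⟨m, hm⟩ := ((lam_eq hb c.2.1.1).1 c.2.2).2 n
  have hm' : b n ∣ c.1 (m + 1) := hm.trans (c.2.1.1.2.2 m).1
  obtain ⟨q, hq⟩ := hm'
  rw [chr_eq χ]
  have h1 : χ 1 = ((k * q : ℤ)) • ((1 / (c.1 (m + 1) : ℝ) : ℝ) : T) := by
    rw [hk, zsmul_coe]
    congr 1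
    have h2 : (0 : ℝ) < b n := by exact_mod_cast hb.2.1 n
    have h3 : (c.1 (m + 1) : ℝ) = b n * q := by exact_mod_cast hq
    have h4 : (0 : ℝ) < c.1 (m + 1) := by exact_mod_cast c.2.1.1.2.1 (m + 1)
    have h5 : (0 : ℝ) < q := by
      rw [h3] at h4
      by_contra hcon
      rw [not_lt] at hcon
      nlinarith
    rw [h3]
    push_cast
    field_simp
  rw [h1]
  refine smul_mem_chars (lqc_sTop b).1 ?_ _
  exact chr_mem_iInf (fun c : Idx b => Sc c.1) (i := c) ⟨m + 1, Nat.le_add_left 1 m, rfl⟩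

end Q182.SB
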