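import Mathlib
import Pool.Agent.Q182.SBBasic
import Pool.Agent.Q182.MKSeq2

/-!
# Adding a null sequence of characters; crossing lemma; sparse sets
-/

namespace Q182.SB

open Set Filter Topology
open Q182.MK

/-- Adding the topology of uniform convergence on a suitable sequence of characters. -/
theorem compat (τ : TopologicalSpace ℤ) (hτ : IsLQC τ) (U : ℕ → Set ℤ)
    (hUmem : ∀ j, U j ∈ @nhds ℤ τ 0) (hUbase : ∀ V ∈ @nhds ℤ τ 0, ∃ j, U j ⊆ V)
    (s : ℕ → T) (hsH : ∀ i, chr (s i) ∈ chars τ)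
    (hcore : ∀ α : T, (∃ j n : ℕ, 1 ≤ n ∧
      ∀ k ∈ U j, (∀ i, ‖k • s i‖ ≤ 1 / (4 * (n : ℝ))) → ‖k • α‖ ≤ 1 / 8) → chr α ∈ chars τ) :
    IsLQC (τ ⊓ utop s) ∧ chars (τ ⊓ utop s) = chars τ ∧
      ∀ ε > 0, {k : ℤ | ∀ i, ‖k • s i‖ < ε} ∈ @nhds ℤ (τ ⊓ utop s) 0 := by
  set σ : TopologicalSpace ℤ := τ ⊓ utop s with hσ
  have hσg : @IsTopologicalAddGroup ℤ σ _ := topologicalAddGroup_inf hτ.1 (utop_group s)
  have hnh : @nhds ℤ σ 0 = @nhds ℤ τ 0 ⊓ @nhds ℤ (utop s) 0 := @nhds_inf ℤ τ (utop s) 0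
  have hσn : ∀ V : Set ℤ, V ∈ @nhds ℤ σ 0 ↔ ∃ j, ∃ ε > 0, ∀ k ∈ U j, (∀ i, ‖k • s i‖ < ε) → k ∈ V := by
    intro V
    rw [hnh, mem_inf_iff]
    constructor
    · rintro ⟨V1, hV1, V2, hV2, rfl⟩
      obtain ⟨j, hj⟩ := hUbase V1 hV1
      obtain ⟨ε, hε, hε2⟩ := (utop_basis s).mem_iff.1 hV2
      exact ⟨j, ε, hε, fun k hk hk2 => ⟨hj hk, hε2 hk2⟩⟩
    · rintro ⟨j, ε, hε, h⟩
      refine ⟨U j ∪ V, mem_of_superset (hUmem j) subset_union_left,
        {k : ℤ | ∀ i, ‖k • s i‖ < ε} ∪ V,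
        mem_of_superset ((utop_basis s).mem_of_mem hε) subset_union_left, ?_⟩
      ext k
      constructor
      · intro hk
        exact ⟨Or.inr hk, Or.inr hk⟩
      · rintro ⟨h1 | h1, h2 | h2⟩
        · exact h k h1 h2
        · exact h2
        · exact h1
        · exact h1
  have hle : σ ≤ τ := inf_le_left
  have hchars : chars σ = chars τ := by
    apply Subset.antisymm
    · intro χ hχ
      have hχ' : chr (χ 1) ∈ chars σ := by rw [← chr_eq]; exact hχ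
      have h1 := small_of_mem σ (χ 1) hχ' (ε := 1 / 8) (by norm_num)
      obtain ⟨j, ε, hε, h2⟩ := (hσn _).1 h1
      obtain ⟨n, hn1, hn2⟩ := exists_frac hε
      have h3 : chr (χ 1) ∈ chars τ := hcore (χ 1) ⟨j, n, hn1, fun k hk hks =>
        h2 k hk fun i => (hks i).trans_lt hn2⟩
      rw [chr_eq χ]
      exact h3
    · intro χ hχ
      exact continuous_le_dom hle hχ
  refine ⟨⟨hσg, fun V hV => ?_⟩, hchars, fun ε hε => (hσn _).2 ⟨0, ε, hε, fun k _ hk => hk⟩⟩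
  obtain ⟨j, ε, hε, h1⟩ := (hσn V).1 hV
  obtain ⟨n, hn1, hn2⟩ := exists_frac hε
  have hn0 : (0 : ℝ) < n := by exact_mod_cast hn1
  obtain ⟨A, hA, hAq, hAU⟩ := hτ.2 _ (hUmem j)
  obtain ⟨j', hj'⟩ := hUbase A hA
  refine ⟨A ∩ {k : ℤ | ∀ i, ‖k • s i‖ ≤ 1 / (4 * (n : ℝ))}, (hσn _).2 ⟨j', 1 / (4 * (n : ℝ)),
    by positivity, fun k hk hks => ⟨hj' hk, fun i => (hks i).le⟩⟩, ?_, fun k hk =>
    h1 k (hAU hk.1) fun i => (hk.2 i).trans_lt hn2⟩
  intro x hx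
  by_cases hxA : x ∈ A
  · have h2 : ∃ i, 1 / (4 * (n : ℝ)) < ‖x • s i‖ := by
      by_contra hcon
      push Not at hcon
      exact hx ⟨hxA, hcon⟩
    obtain ⟨i, hi⟩ := h2
    obtain ⟨l, hln, hl⟩ := exists_multiple hn1 hi
    refine ⟨chr ((l : ℤ) • s i), ?_, fun a ha => ?_, ?_⟩
    · rw [hchars]
      exact smul_mem_chars hτ.1 (hsH i) _
    · rw [mem_Tplus, chr_apply, smul_comm]
      refine (norm_zsmul_le _ _).trans ?_
      have h3 := ha.2 i
      have h4 : ‖((l : ℤ))‖ ≤ n := by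
        rw [Int.norm_natCast]
        exact_mod_cast hln
      calc ‖((l : ℤ))‖ * ‖a • s i‖ ≤ n * (1 / (4 * (n : ℝ))) := by gcongr
        _ = 1 / 4 := by field_simp
    · rw [mem_Tplus, chr_apply, smul_comm, not_le]
      exact hl
  · obtain ⟨χ, hχ, h2, h3⟩ := hAq x hxA
    exact ⟨χ, by rw [hchars]; exact hχ, fun a ha => h2 a ha.1, h3⟩

/-- The crossing lemma. -/
lemma crossing {β : T} {c : ℝ} {N : ℕ} (x : ℕ → ℤ) (y : ℕ → ℝ)
    (h1 : ∀ i < N, ((y i : ℝ) : T) = x i • β) (h2 : ∀ i < N, c ≤ y i ∧ 0 ≤ y i ∧ y i ≤ 1 / 8)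
    (h3 : ∀ n ≤ N, ‖(∑ i ∈ Finset.range n, x i) • β‖ ≤ 1 / 8) : N * c ≤ 1 / 8 := by
  have key : ∀ n ≤ N, ((∑ i ∈ Finset.range n, y i : ℝ) : T) = (∑ i ∈ Finset.range n, x i) • β ∧
      n * c ≤ ∑ i ∈ Finset.range n, y i ∧ 0 ≤ ∑ i ∈ Finset.range n, y i ∧
      ∑ i ∈ Finset.range n, y i ≤ 1 / 8 := by
    intro n
    induction n with
    | zero =>
      intro _
      simp
    | succ n ih =>
      intro hn
      obtain ⟨g1, g2, g3, g4⟩ := ih (by omega)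
      obtain ⟨e1, e2, e3⟩ := h2 n (by omega)
      have e4 := h1 n (by omega)
      have e5 := h3 (n + 1) hn
      have e6 : ((∑ i ∈ Finset.range (n + 1), y i : ℝ) : T) =
          (∑ i ∈ Finset.range (n + 1), x i) • β := by
        rw [Finset.sum_range_succ, Finset.sum_range_succ, AddCircle.coe_add, g1, e4, add_smul]
      refine ⟨e6, ?_, ?_, ?_⟩
      · rw [Finset.sum_range_succ]
        push_cast
        linarith
      · rw [Finset.sum_range_succ]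
        linarith
      · have e7 : 0 ≤ ∑ i ∈ Finset.range (n + 1), y i := by
          rw [Finset.sum_range_succ]
          linarith
        have e8 : ∑ i ∈ Finset.range (n + 1), y i ≤ 1 / 2 := by
          rw [Finset.sum_range_succ]
          linarith
        rw [← e6, norm_coe_of_le (by rw [abs_of_nonneg e7]; exact e8), abs_of_nonneg e7] at e5
        exact e5
  obtain ⟨-, g2, -, g4⟩ := key N le_rfl
  linarith

lemma norm_coe_le (y : ℝ) : ‖((y : ℝ) : T)‖ ≤ |y| := by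
  by_cases h : |y| ≤ 1 / 2
  · rw [norm_coe_of_le h]
  · push Not at h
    exact (norm_le_half _).trans h.le

/-! ### Powers of two -/

/-- The D-sequence of the powers of two. -/
def b2 (n : ℕ) : ℕ := 2 ^ n

lemma b2_dseq : IsDSeq b2 := by
  refine ⟨rfl, fun n => by unfold b2; positivity, fun n => ⟨pow_dvd_pow 2 (Nat.le_succ n), ?_⟩⟩
  exact (Nat.pow_lt_pow_right (by norm_num) (Nat.lt_succ_self n)).ne

lemma pow_of_idx (c : Idx b2) (n : ℕ) : ∃ κ, c.1 n = 2 ^ κ := by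
  obtain ⟨m, hm⟩ := ((lam_eq b2_dseq c.2.1.1).1 c.2.2).1 n
  obtain ⟨κ, -, hκ⟩ := (Nat.dvd_prime_pow Nat.prime_two).1 hm
  exact ⟨κ, hκ⟩

lemma strictMono_of_dseq {c : ℕ → ℕ} (hc : IsDSeq c) : StrictMono c := by
  refine strictMono_nat_of_lt_succ fun n => ?_
  exact lt_of_le_of_ne (Nat.le_of_dvd (hc.2.1 _) (hc.2.2 n).1) (hc.2.2 n).2

/-- The exponents of a sequence in `D_∞` are sparse. -/
lemma sparse (c : Idx b2) (W : ℕ) : ∃ κ₀ : ℕ, ∀ m m' κ κ' : ℕ, c.1 m = 2 ^ κ → c.1 m' = 2 ^ κ' →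
    κ₀ ≤ κ → κ < κ' → κ + W < κ' := by
  have hmono := strictMono_of_dseq c.2.1.1
  obtain ⟨N, hN⟩ := eventually_atTop.1 (c.2.1.2.eventually_gt_atTop ((2 : ℝ) ^ W))
  refine ⟨c.1 N, fun m m' κ κ' hm hm' hκ hκκ' => ?_⟩
  have h1 : N ≤ m := by
    by_contra hcon
    push Not at hcon
    have h2 : c.1 m < c.1 N := hmono hcon
    rw [hm] at h2
    have h3 : κ < 2 ^ κ := Nat.lt_two_pow_self
    omega
  have h2 : m < m' := by
    rw [← hmono.lt_iff_lt, hm, hm']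
    exact Nat.pow_lt_pow_right (by norm_num) hκκ'
  have h3 := hN m h1
  have h4 : c.1 (m + 1) ≤ c.1 m' := hmono.monotone h2
  have h5 : (0 : ℝ) < c.1 m := by exact_mod_cast c.2.1.1.2.1 m
  rw [lt_div_iff₀ h5] at h3
  have h6 : (2 : ℝ) ^ W * 2 ^ κ < 2 ^ κ' := by
    have h7 : (c.1 (m + 1) : ℝ) ≤ c.1 m' := by exact_mod_cast h4
    rw [hm'] at h7
    rw [hm] at h3
    push_cast at h3 h7
    linarith
  rw [← pow_add] at h6
  have h7 := (pow_lt_pow_iff_right₀ (by norm_num : (1 : ℝ) < 2)).1 h6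
  omega

/-- Good positions: no exponent shortly above. -/
def Good (F : Set (Idx b2)) (d n : ℕ) : Prop :=
  ∀ c ∈ F, ∀ m κ : ℕ, c.1 m = 2 ^ κ → ¬ (n < κ ∧ κ ≤ n + d)

lemma exists_good {F : Set (Idx b2)} (hF : F.Finite) (d : ℕ) : ∃ κ₀ : ℕ, ∃ W : ℕ, ∀ a ≥ κ₀,
    ∃ n, a ≤ n ∧ n ≤ a + W ∧ Good F d n := by
  classical
  have := hF.fintype
  set r := Fintype.card F with hr
  choose f hf using fun c : F => sparse c.1 ((r + 1) * (d + 1))
  refine ⟨∑ c, f c, r * (d + 1), fun a ha => ?_⟩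
  by_contra hcon
  push Not at hcon
  have h1 : ∀ i : Fin (r + 1), ∃ c : F, ∃ m κ : ℕ, c.1.1 m = 2 ^ κ ∧
      a + i * (d + 1) < κ ∧ κ ≤ a + i * (d + 1) + d := by
    intro i
    have h2 : (i : ℕ) * (d + 1) ≤ r * (d + 1) := Nat.mul_le_mul_right _ (by omega)
    have h3 := hcon (a + i * (d + 1)) (Nat.le_add_right _ _) (by omega)
    unfold Good at h3
    push Not at h3
    obtain ⟨c, hc, m, κ, h4, h5, h6⟩ := h3
    exact ⟨⟨c, hc⟩, m, κ, h4, h5, h6⟩
  choose c m κ h2 h3 h4 using h1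
  obtain ⟨i, j, hij, hcij⟩ := Fintype.exists_ne_map_eq_of_card_lt c (by simp [← hr])
  have key : ∀ i j : Fin (r + 1), i < j → c i = c j → False := by
    intro i j hij hcij
    have h5 : (i : ℕ) * (d + 1) + (d + 1) ≤ j * (d + 1) := by
      have : (i : ℕ) + 1 ≤ j := hij
      nlinarith
    have h6 : (j : ℕ) * (d + 1) ≤ r * (d + 1) := Nat.mul_le_mul_right _ (by omega)
    have h7 : κ i < κ j := by
      have e1 := h4 i
      have e2 := h3 j
      omega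
    have h8 : f (c i) ≤ κ i := by
      have e1 := h3 i
      have e2 : f (c i) ≤ ∑ c, f c := Finset.single_le_sum (f := f) (fun _ _ => Nat.zero_le _)
        (Finset.mem_univ _)
      omega
    have h9 := hf (c i) (m i) (m j) (κ i) (κ j) (h2 i) (by rw [hcij]; exact h2 j) h8 h7
    have e1 := h3 i
    have e2 := h4 j
    have e3 : (r + 1) * (d + 1) = r * (d + 1) + (d + 1) := by ring
    omega
  rcases lt_or_gt_of_ne hij with h | h
  · exact key i j h hcij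
  · exact key j i h hcij.symm

/-- Sums of powers of two at good positions. -/
lemma norm_pow_sum_le {F : Set (Idx b2)} {d : ℕ} {I : Finset ℕ} (hI : ∀ n ∈ I, Good F d n)
    (σ : ℕ → ℤ) (hσ : ∀ n, |σ n| ≤ 1) {c : Idx b2} (hc : c ∈ F) {s : T} (hs : s ∈ Sc c.1) :
    ‖(∑ n ∈ I, σ n * 2 ^ n) • s‖ ≤ 1 / 2 ^ d := by
  obtain ⟨m, -, rfl⟩ := hs
  obtain ⟨κ, hκ⟩ := pow_of_idx c m
  have h1 : ∀ n ∈ I, ‖(σ n * 2 ^ n) • (((1 / (c.1 m : ℝ) : ℝ)) : T)‖ ≤
      if n + d < κ then (2 : ℝ) ^ n / 2 ^ κ else 0 := by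
    intro n hn
    rw [hκ, zsmul_coe]
    split_ifs with h
    · refine (norm_coe_le _).trans ?_
      push_cast
      rw [mul_one_div, abs_div, abs_mul, abs_of_pos (by positivity : (0 : ℝ) < 2 ^ n),
        abs_of_pos (by positivity : (0 : ℝ) < 2 ^ κ)]
      have h2 : |(σ n : ℝ)| ≤ 1 := by exact_mod_cast hσ n
      gcongr
      nlinarith [pow_pos (by norm_num : (0 : ℝ) < 2) n]
    · have h2 : κ ≤ n := by
        by_contra hcon
        exact hI n hn c hc m κ hκ ⟨by omega, by omega⟩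
      obtain ⟨e, rfl⟩ : ∃ e, n = κ + e := ⟨n - κ, by omega⟩
      have h3 : (((σ (κ + e) * 2 ^ (κ + e) : ℤ) : ℝ) * (1 / ((2 ^ κ : ℕ) : ℝ)) : ℝ) =
          ((σ (κ + e) * 2 ^ e : ℤ) : ℝ) := by
        push_cast
        rw [pow_add]
        field_simp
      rw [h3]
      have h4 : ((((σ (κ + e) * 2 ^ e : ℤ) : ℝ)) : T) = 0 := by
        rw [AddCircle.coe_eq_zero_iff]
        exact ⟨σ (κ + e) * 2 ^ e, by simp⟩
      rw [h4, norm_zero]
  rw [Finset.sum_smul]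
  refine (norm_sum_le _ _).trans ((Finset.sum_le_sum h1).trans ?_)
  rw [← Finset.sum_filter, ← Finset.sum_div, div_le_div_iff₀ (by positivity) (by positivity), one_mul]
  by_cases hdκ : d < κ
  · have h2 : ∑ n ∈ I.filter (fun n => n + d < κ), (2 : ℝ) ^ n ≤ ∑ n ∈ Finset.range (κ - d), (2 : ℝ) ^ n := by
      refine Finset.sum_le_sum_of_subset_of_nonneg ?_ fun _ _ _ => by positivity
      intro n hn
      rw [Finset.mem_filter] at hn
      rw [Finset.mem_range]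
      omega
    rw [geom_sum_eq (by norm_num)] at h2
    have h3 : (2 : ℝ) ^ (κ - d) * 2 ^ d = 2 ^ κ := by
      rw [← pow_add]
      congr 1
      omega
    have h4 : (0 : ℝ) < 2 ^ d := by positivity
    have h5 : ∑ n ∈ I.filter (fun n => n + d < κ), (2 : ℝ) ^ n ≤ 2 ^ (κ - d) := by
      have : ((2 : ℝ) ^ (κ - d) - 1) / (2 - 1) = 2 ^ (κ - d) - 1 := by norm_num
      linarith
    nlinarith
  · have h2 : I.filter (fun n => n + d < κ) = ∅ := by
      ext n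
      simp
      intro _
      omega
    rw [h2, Finset.sum_empty, zero_mul]
    positivity

end Q182.SB
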