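import Mathlib
import Pool.Agent.Q182.SBBasic

/-!
# A D-sequence for which the supremum is not compatible
-/

namespace Q182.SB

open Set Filter Topology
open Q182.MK
open scoped Nat

lemma norm_doubling {δ : ℝ} (hδ : δ ≤ 1 / 4) (j : ℕ) : ∀ x : T,
    (∀ i ≤ j, ‖((2 : ℤ) ^ i) • x‖ ≤ δ) → ‖x‖ ≤ δ / 2 ^ j := by
  induction j with
  | zero =>
    intro x h
    have := h 0 le_rfl
    rw [pow_zero, one_smul] at this
    simpa using this
  | succ j ih =>
    intro x h
    have h1 := ih ((2 : ℤ) • x) fun i hi => by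
      rw [smul_smul, ← pow_succ]
      exact h (i + 1) (by omega)
    have h2 := h 0 (Nat.zero_le _)
    rw [pow_zero, one_smul] at h2
    rw [two_smul] at h1
    have h3 := norm_of_two (h2.trans hδ) h1
    rw [pow_succ, ← div_div]
    exact h3

lemma step (m a e : ℕ) (he : Odd e) : ∃ x y : ℕ, m ≤ x ∧ m ≤ y ∧ Odd y ∧
    e * y + 2 ^ a = (e + 2 ^ (a + 1)) * x := by
  have hcop : IsCoprime (e : ℤ) ((2 : ℤ) ^ (a + 1)) := by
    have h1 : Nat.Coprime e (2 ^ (a + 1)) := Nat.Coprime.pow_right _ (Nat.coprime_two_right.2 he)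
    have h2 := Nat.isCoprime_iff_coprime.2 h1
    exact_mod_cast h2
  obtain ⟨u, v, huv⟩ := hcop
  have he1 : (1 : ℤ) ≤ e := by
    have : 1 ≤ e := he.pos
    exact_mod_cast this
  have hp : (0 : ℤ) < 2 ^ (a + 1) := by positivity
  set D : ℤ := e + 2 ^ (a + 1) with hD
  have hD1 : (1 : ℤ) ≤ D := by omega
  have hDodd : Odd D := by
    rw [hD]
    refine Odd.add_even (by exact_mod_cast he) ?_
    rw [pow_succ]
    exact even_two.mul_left _
  set x0 : ℤ := v * 2 ^ a with hx0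
  set y0 : ℤ := (v - u) * 2 ^ a with hy0
  have h0 : D * x0 - e * y0 = 2 ^ a := by
    rw [hx0, hy0, hD]
    linear_combination (2 : ℤ) ^ a * huv
  obtain ⟨s, hs, hodd⟩ : ∃ s : ℤ, m + |x0| + |y0| ≤ s ∧ Odd (y0 + s * D) := by
    rcases Int.even_or_odd (y0 + (m + |x0| + |y0|) * D) with h | h
    · refine ⟨m + |x0| + |y0| + 1, by omega, ?_⟩
      have : y0 + (m + |x0| + |y0| + 1) * D = (y0 + (m + |x0| + |y0|) * D) + D := by ring
      rw [this]
      exact h.add_odd hDodd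
    · exact ⟨_, le_rfl, h⟩
  have hm0 : (0 : ℤ) ≤ m := Int.natCast_nonneg m
  have hs0 : 0 ≤ s := by
    have := abs_nonneg x0
    have := abs_nonneg y0
    omega
  have hx : (m : ℤ) ≤ x0 + s * e := by
    have h1 : s ≤ s * e := le_mul_of_one_le_right hs0 he1
    have := neg_abs_le x0
    have := abs_nonneg y0
    omega
  have hy : (m : ℤ) ≤ y0 + s * D := by
    have h1 : s ≤ s * D := le_mul_of_one_le_right hs0 hD1
    have := neg_abs_le y0
    have := abs_nonneg x0
    omega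
  obtain ⟨x, hx'⟩ := Int.eq_ofNat_of_zero_le (hm0.trans hx)
  obtain ⟨y, hy'⟩ := Int.eq_ofNat_of_zero_le (hm0.trans hy)
  refine ⟨x, y, ?_, ?_, ?_, ?_⟩
  · rw [hx'] at hx
    exact_mod_cast hx
  · rw [hy'] at hy
    exact_mod_cast hy
  · rw [hy'] at hodd
    exact_mod_cast hodd
  · have h1 : (e : ℤ) * y + 2 ^ a = (e + 2 ^ (a + 1)) * x := by
      rw [← hx', ← hy', ← hD]
      linear_combination -h0
    exact_mod_cast h1

lemma chain (m N : ℕ) : ∃ d : ℕ → ℕ, (∀ i, m ≤ d i ∧ 0 < d i) ∧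
    (∀ i < N, ∃ y ≥ m, d i = d (i + 1) * y) ∧
    (∀ i < N, ∃ x ≥ m, d i + 2 ^ i = (d (i + 1) + 2 ^ (i + 1)) * x) := by
  have hstep : ∀ a e : ℕ, ∃ x y : ℕ, Odd e → m ≤ x ∧ m ≤ y ∧ Odd y ∧
      e * y + 2 ^ a = (e + 2 ^ (a + 1)) * x := by
    intro a e
    by_cases he : Odd e
    · obtain ⟨x, y, h⟩ := step m a e he
      exact ⟨x, y, fun _ => h⟩
    · exact ⟨0, 0, fun h => absurd h he⟩
  choose X Y hXY using hstep
  let e : ℕ → ℕ := fun l => Nat.rec (motive := fun _ => ℕ) (2 * m + 1)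
    (fun l el => el * Y (N - l - 1) el) l
  have he0 : e 0 = 2 * m + 1 := rfl
  have he1 : ∀ l, e (l + 1) = e l * Y (N - l - 1) (e l) := fun l => rfl
  have hodd : ∀ l, Odd (e l) := by
    intro l
    induction l with
    | zero => rw [he0]; exact ⟨m, rfl⟩
    | succ l ih =>
      rw [he1]
      exact ih.mul (hXY _ _ ih).2.2.1
  have hge : ∀ l, m ≤ e l := by
    intro l
    induction l with
    | zero => rw [he0]; omega
    | succ l ih =>
      rw [he1]
      exact ih.trans (Nat.le_mul_of_pos_right _ (hXY _ _ (hodd l)).2.2.1.pos)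
  refine ⟨fun i => e (N - i), fun i => ⟨hge _, (hodd _).pos⟩, fun i hi => ?_, fun i hi => ?_⟩
  · have h1 : N - i = (N - (i + 1)) + 1 := by omega
    have h2 : N - (N - (i + 1)) - 1 = i := by omega
    refine ⟨Y i (e (N - (i + 1))), (hXY _ _ (hodd _)).2.1, ?_⟩
    show e (N - i) = e (N - (i + 1)) * _
    rw [h1, he1, h2]
  · have h1 : N - i = (N - (i + 1)) + 1 := by omega
    have h2 : N - (N - (i + 1)) - 1 = i := by omega
    refine ⟨X i (e (N - (i + 1))), (hXY _ _ (hodd _)).1, ?_⟩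
    show e (N - i) + 2 ^ i = (e (N - (i + 1)) + 2 ^ (i + 1)) * _
    rw [← (hXY i (e (N - (i + 1))) (hodd _)).2.2.2]
    congr 1
    conv_lhs => rw [h1, he1, h2]

lemma block (m N u V r : ℕ) (g : ℕ → ℕ) (hg : ∀ i, m ≤ g i ∧ 0 < g i)
    (hg2 : ∀ i < N, ∃ y ≥ m, g i = g (i + 1) * y) (hr : m ≤ r) (hV : V = u * g 0 * r) :
    ∃ w : ℕ → ℕ, w 0 = u ∧ w (N + 2) = V ∧
      (∀ i < N + 2, w i ∣ w (i + 1) ∧ m * w i ≤ w (i + 1)) ∧ ∀ i ≤ N, w (i + 1) * g i = V := by
  have hdvd : ∀ i ≤ N, g i ∣ V := by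
    have h1 : ∀ i ≤ N, g i ∣ g 0 := by
      intro i
      induction i with
      | zero => exact fun _ => dvd_rfl
      | succ i ih =>
        intro hi
        obtain ⟨y, -, hy⟩ := hg2 i (by omega)
        exact (Dvd.intro y hy.symm).trans (ih (by omega))
    intro i hi
    rw [hV]
    exact (h1 i hi).trans ((dvd_mul_left _ _).trans (dvd_mul_right _ _))
  let w : ℕ → ℕ := fun i => if i = 0 then u else if i ≤ N + 1 then V / g (i - 1) else V
  have hw0 : w 0 = u := if_pos rfl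
  have hwN : w (N + 2) = V := by
    show (if N + 2 = 0 then u else if N + 2 ≤ N + 1 then V / g (N + 2 - 1) else V) = V
    rw [if_neg (by omega), if_neg (by omega)]
  have hwi : ∀ i ≤ N, w (i + 1) * g i = V := by
    intro i hi
    show (if i + 1 = 0 then u else if i + 1 ≤ N + 1 then V / g (i + 1 - 1) else V) * g i = V
    rw [if_neg (by omega), if_pos (by omega), Nat.add_sub_cancel]
    exact Nat.div_mul_cancel (hdvd i hi)
  refine ⟨w, hw0, hwN, fun i hi => ?_, hwi⟩
  rcases Nat.eq_zero_or_pos i with rfl | hi0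
  · have h1 : w (0 + 1) = u * r := by
      have h2 := hwi 0 (Nat.zero_le _)
      have h3 : w (0 + 1) * g 0 = u * r * g 0 := by rw [h2, hV]; ring
      exact Nat.eq_of_mul_eq_mul_right (hg 0).2 h3
    rw [h1, hw0]
    exact ⟨dvd_mul_right _ _, by rw [mul_comm]; exact Nat.mul_le_mul_left _ hr⟩
  · obtain ⟨i, rfl⟩ : ∃ i', i = i' + 1 := ⟨i - 1, by omega⟩
    rcases Nat.lt_or_ge i N with hiN | hiN
    · obtain ⟨y, hy, hgy⟩ := hg2 i hiN
      have h1 : w (i + 1 + 1) = w (i + 1) * y := by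
        have h2 := hwi i (by omega)
        have h3 := hwi (i + 1) (by omega)
        have h4 : w (i + 1 + 1) * g (i + 1) = w (i + 1) * y * g (i + 1) := by
          rw [h3, ← h2, hgy]
          ring
        exact Nat.eq_of_mul_eq_mul_right (hg _).2 h4
      rw [h1]
      exact ⟨dvd_mul_right _ _, by rw [mul_comm]; exact Nat.mul_le_mul_left _ hy⟩
    · have hiN' : i = N := by omega
      subst hiN'
      have h2 := hwi i le_rfl
      have h3 : w (i + 1 + 1) = w (i + 1) * g i := by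
        rw [h2]
        exact hwN
      rw [h3]
      exact ⟨dvd_mul_right _ _, by rw [mul_comm]; exact Nat.mul_le_mul_left _ (hg i).1⟩

/-- Concatenation of blocks. -/
theorem concat (L : ℕ → ℕ) (hL : ∀ j, 0 < L j) (w : ℕ → ℕ → ℕ) (h0 : w 0 0 = 1)
    (hnext : ∀ j, w j (L j) = w (j + 1) 0) (hpos : ∀ j l, 0 < w j l)
    (hw : ∀ j l, l < L j → w j l ∣ w j (l + 1) ∧ (j + 2) * w j l ≤ w j (l + 1)) :
    ∃ c : ℕ → ℕ, IsDInf c ∧ (∀ n, ∃ j l, l < L j ∧ c n = w j l) ∧
      ∀ j l, l ≤ L j → ∃ n, c n = w j l := by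
  classical
  let nxt : ℕ × ℕ → ℕ × ℕ := fun p => if p.2 + 1 < L p.1 then (p.1, p.2 + 1) else (p.1 + 1, 0)
  let s : ℕ → ℕ × ℕ := fun n => nxt^[n] (0, 0)
  have hs0 : s 0 = (0, 0) := rfl
  have hs1 : ∀ n, s (n + 1) = nxt (s n) := fun n => Function.iterate_succ_apply' nxt n (0, 0)
  have hinv : ∀ n, (s n).2 < L (s n).1 := by
    intro n
    induction n with
    | zero => exact hL 0
    | succ n ih =>
      rw [hs1]
      show (if (s n).2 + 1 < L (s n).1 then ((s n).1, (s n).2 + 1) else ((s n).1 + 1, 0)).2 <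
        L (if (s n).2 + 1 < L (s n).1 then ((s n).1, (s n).2 + 1) else ((s n).1 + 1, 0)).1
      split_ifs with h
      · exact h
      · exact hL _
  have hc1 : ∀ n, w (s (n + 1)).1 (s (n + 1)).2 = w (s n).1 ((s n).2 + 1) := by
    intro n
    rw [hs1]
    show w (if (s n).2 + 1 < L (s n).1 then ((s n).1, (s n).2 + 1) else ((s n).1 + 1, 0)).1
      (if (s n).2 + 1 < L (s n).1 then ((s n).1, (s n).2 + 1) else ((s n).1 + 1, 0)).2 = _
    split_ifs with h
    · rfl
    · have h1 : (s n).2 + 1 = L (s n).1 := by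
        have := hinv n
        omega
      rw [h1, hnext]
  have hmono1 : ∀ n, (s n).1 ≤ (s (n + 1)).1 := by
    intro n
    rw [hs1]
    show _ ≤ (if (s n).2 + 1 < L (s n).1 then ((s n).1, (s n).2 + 1) else ((s n).1 + 1, 0)).1
    split_ifs with h
    · exact le_rfl
    · exact Nat.le_succ _
  have hmono : Monotone fun n => (s n).1 := monotone_nat_of_le_succ hmono1
  have hrun : ∀ j n, s n = (j, 0) → ∀ l < L j, s (n + l) = (j, l) := by
    intro j n hn l
    induction l with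
    | zero => exact fun _ => hn
    | succ l ih =>
      intro hl
      rw [← Nat.add_assoc, hs1, ih (by omega)]
      show (if l + 1 < L j then (j, l + 1) else (j + 1, 0)) = _
      rw [if_pos hl]
  have hreach : ∀ j, ∃ n, s n = (j, 0) := by
    intro j
    induction j with
    | zero => exact ⟨0, rfl⟩
    | succ j ih =>
      obtain ⟨n, hn⟩ := ih
      have hLj := hL j
      refine ⟨n + (L j - 1) + 1, ?_⟩
      rw [hs1, hrun j n hn (L j - 1) (by omega)]
      show (if L j - 1 + 1 < L j then (j, L j - 1 + 1) else (j + 1, 0)) = _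
      rw [if_neg (by omega)]
  have hreach2 : ∀ j l, l ≤ L j → ∃ n, w (s n).1 (s n).2 = w j l := by
    intro j l hl
    rcases Nat.lt_or_ge l (L j) with h | h
    · obtain ⟨n, hn⟩ := hreach j
      exact ⟨n + l, by rw [hrun j n hn l h]⟩
    · have h1 : l = L j := by omega
      obtain ⟨n, hn⟩ := hreach (j + 1)
      exact ⟨n, by rw [hn, h1, hnext]⟩
  refine ⟨fun n => w (s n).1 (s n).2, ⟨⟨h0, fun n => hpos _ _, fun n => ?_⟩, ?_⟩,
    fun n => ⟨_, _, hinv n, rfl⟩, hreach2⟩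
  · show w (s n).1 (s n).2 ∣ w (s (n + 1)).1 (s (n + 1)).2 ∧
      w (s n).1 (s n).2 ≠ w (s (n + 1)).1 (s (n + 1)).2
    rw [hc1]
    obtain ⟨h1, h2⟩ := hw _ _ (hinv n)
    refine ⟨h1, ?_⟩
    have h3 := hpos (s n).1 (s n).2
    intro h4
    rw [← h4] at h2
    nlinarith
  · rw [tendsto_atTop]
    intro B
    obtain ⟨M, hM⟩ := exists_nat_ge B
    obtain ⟨n₀, hn₀⟩ := hreach M
    filter_upwards [eventually_ge_atTop n₀] with n hn
    have h1 : M ≤ (s n).1 := by
      have : (s n₀).1 ≤ (s n).1 := hmono hn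
      rw [hn₀] at this
      exact this
    have h2 := (hw _ _ (hinv n)).2
    have h3 : (0 : ℝ) < w (s n).1 (s n).2 := by exact_mod_cast hpos _ _
    rw [hc1, le_div_iff₀ h3]
    have h4 : (((s n).1 : ℝ) + 2) * w (s n).1 (s n).2 ≤ w (s n).1 ((s n).2 + 1) := by
      exact_mod_cast h2
    have h5 : B ≤ ((s n).1 : ℝ) + 2 := by
      have : (M : ℝ) ≤ (s n).1 := by exact_mod_cast h1
      linarith
    nlinarith

end Q182.SB
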