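import Mathlib
import Pool.Agent.Q182.SBNot

/-!
# For the profinite topology the supremum is not compatible
-/

namespace Q182.SB

open Set Filter Topology
open Q182.MK
open scoped Nat

/-- The data of the construction. -/
structure Blocks where
  d : ℕ → ℕ → ℕ
  hd : ∀ j i, j + 2 ≤ d j i ∧ 0 < d j i
  hd2 : ∀ j, ∀ i < j, ∃ y ≥ j + 2, d j i = d j (i + 1) * y
  hd3 : ∀ j, ∀ i < j, ∃ x ≥ j + 2, d j i + 2 ^ i = (d j (i + 1) + 2 ^ (i + 1)) * x

lemma exists_blocks : Nonempty Blocks := by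
  choose d h1 h2 h3 using fun j => chain (j + 2) j
  exact ⟨⟨d, h1, h2, h3⟩⟩

namespace Blocks

variable (b : Blocks)

/-- The common subsequence. -/
def U : ℕ → ℕ
  | 0 => 1
  | j + 1 => U j * (b.d j 0 * (b.d j 0 + 1) * (j + 2) * (j + 1)!)

lemma U_zero : b.U 0 = 1 := rfl

lemma U_succ (j : ℕ) : b.U (j + 1) = b.U j * (b.d j 0 * (b.d j 0 + 1) * (j + 2) * (j + 1)!) := rfl

lemma fac_ge (j : ℕ) : 3 ≤ b.d j 0 * (b.d j 0 + 1) * (j + 2) * (j + 1)! := by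
  have h1 : 2 ≤ b.d j 0 := by have := (b.hd j 0).1; omega
  have h2 : 1 ≤ (j + 1)! := Nat.factorial_pos _
  have h3 : 3 ≤ b.d j 0 + 1 := by omega
  calc 3 = 1 * 3 * 1 * 1 := by norm_num
    _ ≤ b.d j 0 * (b.d j 0 + 1) * (j + 2) * (j + 1)! := by
      gcongr
      · omega
      · omega

lemma U_pos (j : ℕ) : 0 < b.U j := by
  induction j with
  | zero => exact one_pos
  | succ j ih =>
    rw [U_succ]
    have := b.fac_ge j
    positivity

lemma U_three (j : ℕ) : 3 * b.U j ≤ b.U (j + 1) := by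
  rw [U_succ, mul_comm]
  exact Nat.mul_le_mul_left _ (b.fac_ge j)

lemma U_dseq : IsDSeq b.U := by
  refine ⟨rfl, b.U_pos, fun n => ⟨dvd_mul_right _ _, ?_⟩⟩
  have h1 := b.U_three n
  have h2 := b.U_pos n
  omega

lemma fact_dvd (j : ℕ) : (j + 1)! ∣ b.U (j + 1) := by
  rw [U_succ]
  exact (dvd_mul_left _ _).trans (dvd_mul_left _ _)

lemma exists_c (g : ℕ → ℕ → ℕ) (hg : ∀ j i, j + 2 ≤ g j i ∧ 0 < g j i)
    (hg2 : ∀ j, ∀ i < j, ∃ y ≥ j + 2, g j i = g j (i + 1) * y)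
    (hV : ∀ j, ∃ r ≥ j + 2, b.U (j + 1) = b.U j * g j 0 * r) :
    ∃ c : ℕ → ℕ, IsDInf c ∧ lam c = lam b.U ∧ ∀ j, ∀ i ≤ j, ∃ n, c n * g j i = b.U (j + 1) := by
  choose r hr1 hr2 using hV
  choose w h1 h2 h3 h4 using fun j => block (j + 2) j (b.U j) (b.U (j + 1)) (r j) (g j) (hg j)
    (hg2 j) (hr1 j) (hr2 j)
  let w' : ℕ → ℕ → ℕ := fun j l => if l ≤ j + 2 then w j l else 1
  have hw' : ∀ j l, l ≤ j + 2 → w' j l = w j l := fun j l h => if_pos h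
  have hdvd : ∀ j l, l ≤ j + 2 → w j l ∣ b.U (j + 1) := by
    intro j l hl
    have : ∀ i, l + i ≤ j + 2 → w j l ∣ w j (l + i) := by
      intro i
      induction i with
      | zero => exact fun _ => dvd_rfl
      | succ i ih => exact fun h => (ih (by omega)).trans (h3 j (l + i) (by omega)).1
    have h5 := this (j + 2 - l) (by omega)
    rwa [show l + (j + 2 - l) = j + 2 by omega, h2] at h5
  have hpos : ∀ j l, 0 < w' j l := by
    intro j l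
    show 0 < if l ≤ j + 2 then w j l else 1
    split_ifs with h
    · exact Nat.pos_of_dvd_of_pos (hdvd j l h) (b.U_pos _)
    · exact one_pos
  obtain ⟨c, hc1, hc2, hc3⟩ := concat (fun j => j + 2) (fun j => by omega) w'
    (by rw [hw' 0 0 (by omega), h1]; rfl)
    (fun j => by rw [hw' j (j + 2) le_rfl, h2, hw' (j + 1) 0 (by omega), h1]) hpos
    (fun j l hl => by
      rw [hw' j l (by omega), hw' j (l + 1) (by omega)]
      exact h3 j l hl)
  refine ⟨c, hc1, ?_, ?_⟩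
  · rw [lam_eq b.U_dseq hc1.1]
    constructor
    · intro n
      obtain ⟨j, l, hl, hn⟩ := hc2 n
      refine ⟨j + 1, ?_⟩
      rw [hn, hw' j l (by omega)]
      exact hdvd j l (by omega)
    · intro n
      obtain ⟨m, hm⟩ := hc3 n 0 (Nat.zero_le _)
      refine ⟨m, ?_⟩
      rw [hm, hw' n 0 (by omega), h1]
  · intro j i hi
    obtain ⟨n, hn⟩ := hc3 j (i + 1) (by show i + 1 ≤ j + 2; omega)
    exact ⟨n, by rw [hn, hw' j (i + 1) (by omega), h4 j i hi]⟩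

lemma exists_c1 : ∃ c : ℕ → ℕ, IsDInf c ∧ lam c = lam b.U ∧
    ∀ j, ∀ i ≤ j, ∃ n, c n * (b.d j i + 2 ^ i) = b.U (j + 1) := by
  refine b.exists_c (fun j i => b.d j i + 2 ^ i) (fun j i => ?_) (fun j i hi => b.hd3 j i hi)
    (fun j => ⟨b.d j 0 * (j + 2) * (j + 1)!, ?_, ?_⟩)
  · have h := b.hd j i
    have h0 : 0 < 2 ^ i := by positivity
    show j + 2 ≤ b.d j i + 2 ^ i ∧ 0 < b.d j i + 2 ^ i
    generalize 2 ^ i = z at *
    omega
  · have h1 := (b.hd j 0).2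
    have h2 : 0 < (j + 1)! := Nat.factorial_pos _
    calc j + 2 = 1 * (j + 2) * 1 := by ring
      _ ≤ b.d j 0 * (j + 2) * (j + 1)! := by gcongr <;> omega
  · rw [U_succ, pow_zero]
    ring

lemma exists_c2 : ∃ c : ℕ → ℕ, IsDInf c ∧ lam c = lam b.U ∧
    ∀ j, ∀ i ≤ j, ∃ n, c n * (b.d j i) = b.U (j + 1) := by
  refine b.exists_c (fun j i => b.d j i) (fun j i => b.hd j i) (fun j i hi => b.hd2 j i hi)
    (fun j => ⟨(b.d j 0 + 1) * (j + 2) * (j + 1)!, ?_, ?_⟩)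
  · have h2 : 0 < (j + 1)! := Nat.factorial_pos _
    calc j + 2 = 1 * (j + 2) * 1 := by ring
      _ ≤ (b.d j 0 + 1) * (j + 2) * (j + 1)! := by gcongr <;> omega
  · rw [U_succ]
    ring

/-- The key estimate. -/
lemma estimate {c₁ c₂ : ℕ → ℕ} (h1 : ∀ j, ∀ i ≤ j, ∃ n, c₁ n * (b.d j i + 2 ^ i) = b.U (j + 1))
    (h2 : ∀ j, ∀ i ≤ j, ∃ n, c₂ n * (b.d j i) = b.U (j + 1)) {ε : ℝ} (hε : ε ≤ 1 / 8) {k : ℤ}
    (hk1 : ∀ n, ‖k • ((1 / (c₁ n : ℝ) : ℝ) : T)‖ ≤ ε) (hk2 : ∀ n, ‖k • ((1 / (c₂ n : ℝ) : ℝ) : T)‖ ≤ ε)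
    (j : ℕ) : ‖k • ((1 / (b.U (j + 1) : ℝ) : ℝ) : T)‖ ≤ 2 * ε / 2 ^ j := by
  apply norm_doubling (by linarith)
  intro i hi
  obtain ⟨n, hn⟩ := h1 j i hi
  obtain ⟨m, hm⟩ := h2 j i hi
  have hU : (0 : ℝ) < b.U (j + 1) := by exact_mod_cast b.U_pos _
  have hn' : (c₁ n : ℝ) * (b.d j i + 2 ^ i) = b.U (j + 1) := by exact_mod_cast hn
  have hm' : (c₂ m : ℝ) * (b.d j i) = b.U (j + 1) := by exact_mod_cast hm
  have hc1 : (c₁ n : ℝ) ≠ 0 := by
    rintro h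
    rw [h, zero_mul] at hn'
    exact hU.ne hn'
  have hc2 : (c₂ m : ℝ) ≠ 0 := by
    rintro h
    rw [h, zero_mul] at hm'
    exact hU.ne hm'
  have h3 : ((2 : ℤ) ^ i) • (k • ((1 / (b.U (j + 1) : ℝ) : ℝ) : T)) =
      k • ((1 / (c₁ n : ℝ) : ℝ) : T) - k • ((1 / (c₂ m : ℝ) : ℝ) : T) := by
    rw [smul_comm, ← smul_sub, zsmul_coe, ← AddCircle.coe_sub]
    congr 2
    have e1 : 1 / (c₁ n : ℝ) = (b.d j i + 2 ^ i) / b.U (j + 1) := by
      rw [div_eq_div_iff hc1 hU.ne', ← hn']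
      ring
    have e2 : 1 / (c₂ m : ℝ) = (b.d j i) / b.U (j + 1) := by
      rw [div_eq_div_iff hc2 hU.ne', ← hm']
      ring
    rw [e1, e2]
    push_cast
    ring
  rw [h3]
  calc _ ≤ ‖k • ((1 / (c₁ n : ℝ) : ℝ) : T)‖ + ‖k • ((1 / (c₂ m : ℝ) : ℝ) : T)‖ := norm_sub_le _ _
    _ ≤ ε + ε := add_le_add (hk1 n) (hk2 m)
    _ = 2 * ε := by ring

lemma U_pow (n i : ℕ) : (3 : ℝ) ^ i * b.U n ≤ b.U (n + i) := by
  induction i with
  | zero => simp
  | succ i ih =>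
    have h1 : (3 : ℝ) * b.U (n + i) ≤ b.U (n + i + 1) := by exact_mod_cast b.U_three (n + i)
    rw [pow_succ]
    calc (3 : ℝ) ^ i * 3 * b.U n = 3 * (3 ^ i * b.U n) := by ring
      _ ≤ 3 * b.U (n + i) := by gcongr
      _ ≤ _ := h1

lemma term_le (n i : ℕ) : 1 / (b.U (i + n + 1) : ℝ) ≤ 1 / b.U n * (1 / 3) * (1 / 3) ^ i := by
  have h1 := b.U_pow n (i + 1)
  have h2 : (0 : ℝ) < b.U n := by exact_mod_cast b.U_pos _
  rw [show n + (i + 1) = i + n + 1 by ring] at h1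
  calc 1 / (b.U (i + n + 1) : ℝ) ≤ 1 / (3 ^ (i + 1) * b.U n) :=
        one_div_le_one_div_of_le (by positivity) h1
    _ = _ := by
      rw [pow_succ, one_div_pow]
      field_simp

lemma summable_tail (n : ℕ) : Summable fun i => 1 / (b.U (i + n + 1) : ℝ) := by
  refine Summable.of_nonneg_of_le (fun i => by positivity) (b.term_le n) ?_
  exact (summable_geometric_of_lt_one (by norm_num) (by norm_num)).mul_left _

/-- The new character. -/
noncomputable def t : ℝ := ∑' i, 1 / (b.U (i + 1) : ℝ)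

lemma summable_t : Summable fun i => 1 / (b.U (i + 1) : ℝ) := b.summable_tail 0

lemma t_not_mem (k : ℤ) (n : ℕ) : ((b.t : ℝ) : T) ≠ (((k : ℝ) / (b.U n : ℝ) : ℝ) : T) := by
  intro h
  rw [← sub_eq_zero, ← AddCircle.coe_sub, AddCircle.coe_eq_zero_iff] at h
  obtain ⟨z, hz⟩ := h
  have hU : (0 : ℝ) < b.U n := by exact_mod_cast b.U_pos _
  have h1 : ∑ i ∈ Finset.range n, 1 / (b.U (i + 1) : ℝ) + ∑' i, 1 / (b.U (i + n + 1) : ℝ) = b.t :=
    b.summable_t.sum_add_tsum_nat_add n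
  have h2 : ∃ p : ℤ, (b.U n : ℝ) * ∑ i ∈ Finset.range n, 1 / (b.U (i + 1) : ℝ) = p := by
    have h3 : ∀ i ∈ Finset.range n, (b.U n : ℝ) * (1 / (b.U (i + 1) : ℝ)) =
        (((b.U n / b.U (i + 1) : ℕ) : ℤ) : ℝ) := by
      intro i hi
      have h4 : b.U (i + 1) ∣ b.U n := dvd_mono b.U_dseq (by
        have := Finset.mem_range.1 hi
        omega)
      have h5 : (b.U (i + 1) : ℝ) ≠ 0 := by
        have := b.U_pos (i + 1)
        positivity
      rw [Int.cast_natCast, Nat.cast_div h4 h5]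
      ring
    refine ⟨∑ i ∈ Finset.range n, ((b.U n / b.U (i + 1) : ℕ) : ℤ), ?_⟩
    rw [Finset.mul_sum, Finset.sum_congr rfl h3, Int.cast_sum]
  obtain ⟨p, hp⟩ := h2
  set R : ℝ := ∑' i, 1 / (b.U (i + n + 1) : ℝ) with hR
  have hR0 : 0 < R := by
    refine (b.summable_tail n).tsum_pos (fun i => by positivity) 0 ?_
    have := b.U_pos (0 + n + 1)
    positivity
  have hR1 : b.U n * R < 1 := by
    have h3 : R ≤ ∑' i, 1 / (b.U n : ℝ) * (1 / 3) * (1 / 3) ^ i :=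
      (b.summable_tail n).tsum_le_tsum (b.term_le n)
        ((summable_geometric_of_lt_one (by norm_num) (by norm_num)).mul_left _)
    rw [tsum_mul_left, tsum_geometric_of_lt_one (by norm_num) (by norm_num)] at h3
    calc b.U n * R ≤ b.U n * (1 / (b.U n : ℝ) * (1 / 3) * (1 - 1 / 3)⁻¹) := by gcongr
      _ = 1 / 2 := by
        field_simp
        norm_num
      _ < 1 := by norm_num
  have h6 : (b.U n : ℝ) * R = ((z * b.U n + k - p : ℤ) : ℝ) := by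
    rw [zsmul_eq_mul, mul_one] at hz
    push_cast
    rw [← hp, hz, ← h1]
    field_simp
    ring
  rw [h6] at hR1
  have h7 : (0 : ℝ) < ((z * b.U n + k - p : ℤ) : ℝ) := by
    rw [← h6]
    positivity
  have h8 : (z * b.U n + k - p : ℤ) < 1 := by exact_mod_cast hR1
  have h9 : 0 < (z * b.U n + k - p : ℤ) := by exact_mod_cast h7
  omega

lemma t_small {ε : ℝ} {k : ℤ} (h : ∀ j, ‖k • ((1 / (b.U (j + 1) : ℝ) : ℝ) : T)‖ ≤ ε / 2 ^ j) :
    ‖k • ((b.t : ℝ) : T)‖ ≤ 2 * ε := by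
  have hε : 0 ≤ ε := by
    have := (norm_nonneg _).trans (h 0)
    simpa using this
  have h1 : Tendsto (fun n => ‖k • (((∑ i ∈ Finset.range n, 1 / (b.U (i + 1) : ℝ) : ℝ)) : T)‖) atTop
      (𝓝 ‖k • ((b.t : ℝ) : T)‖) := by
    have h2 : Tendsto (fun n => ∑ i ∈ Finset.range n, 1 / (b.U (i + 1) : ℝ)) atTop (𝓝 b.t) :=
      b.summable_t.hasSum.tendsto_sum_nat
    have h3 : Continuous fun x : ℝ => ‖k • ((x : ℝ) : T)‖ :=
      continuous_norm.comp ((continuous_zsmul k).comp (AddCircle.continuous_mk' 1))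
    exact (h3.tendsto _).comp h2
  refine le_of_tendsto' h1 fun n => ?_
  have h4 : k • (((∑ i ∈ Finset.range n, 1 / (b.U (i + 1) : ℝ) : ℝ)) : T) =
      ∑ i ∈ Finset.range n, k • ((1 / (b.U (i + 1) : ℝ) : ℝ) : T) := by
    rw [← Finset.smul_sum]
    congr 1
    exact map_sum (QuotientAddGroup.mk' (AddSubgroup.zmultiples (1 : ℝ))) _ _
  rw [h4]
  calc _ ≤ ∑ i ∈ Finset.range n, ‖k • ((1 / (b.U (i + 1) : ℝ) : ℝ) : T)‖ := norm_sum_le _ _
    _ ≤ ∑ i ∈ Finset.range n, ε / 2 ^ i := Finset.sum_le_sum fun i _ => h i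
    _ = ε * ∑ i ∈ Finset.range n, (1 / 2 : ℝ) ^ i := by
      rw [Finset.mul_sum]
      refine Finset.sum_congr rfl fun i _ => ?_
      rw [one_div_pow]
      ring
    _ ≤ ε * 2 := by
      gcongr
      exact sum_geometric_two_le n
    _ = 2 * ε := by ring

theorem not_compatible : ∃ χ ∈ chars (sTop b.U), χ ∉ Hset b.U := by
  obtain ⟨c₁, h11, h12, h13⟩ := b.exists_c1
  obtain ⟨c₂, h21, h22, h23⟩ := b.exists_c2
  let i₁ : Idx b.U := ⟨c₁, h11, h12⟩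
  let i₂ : Idx b.U := ⟨c₂, h21, h22⟩
  refine ⟨chr ((b.t : ℝ) : T), ?_, ?_⟩
  · refine continuous_chr (sTop b.U) (lqc_sTop b.U).1 _ fun ε hε => ?_
    set δ : ℝ := min (1 / 8) (ε / 4) with hδ
    have hδ0 : 0 < δ := lt_min (by norm_num) (by linarith)
    refine ⟨{k : ℤ | ∀ i ∈ ({i₁, i₂} : Set (Idx b.U)), ∀ s ∈ Sc i.1, ‖k • s‖ < δ},
      (mem_nhds_iInf (fun c : Idx b.U => Sc c.1)).2 ⟨{i₁, i₂}, by simp, δ, hδ0,
        fun k hk => hk⟩, fun k hk => ?_⟩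
    have hall : ∀ i ∈ ({i₁, i₂} : Set (Idx b.U)), ∀ n, ‖k • ((1 / (i.1 n : ℝ) : ℝ) : T)‖ ≤ δ := by
      intro i hi n
      rcases Nat.eq_zero_or_pos n with rfl | hn
      · have h1 : i.1 0 = 1 := i.2.1.1.1
        rw [h1, Nat.cast_one, div_one]
        have h2 : (((1 : ℝ)) : T) = 0 := AddCircle.coe_period 1
        rw [h2, smul_zero, norm_zero]
        exact hδ0.le
      · exact (hk i hi _ ⟨n, hn, rfl⟩).le
    have h3 := b.estimate h13 h23 (min_le_left _ _) (hall i₁ (by simp)) (hall i₂ (by simp))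
    refine (b.t_small h3).trans ?_
    have := min_le_right (1 / 8) (ε / 4)
    linarith
  · rintro ⟨k, n, hk⟩
    rw [chr_apply, one_smul] at hk
    exact b.t_not_mem k n hk

end Blocks

/-- The profinite case. -/
theorem not_compatible_profinite {b : ℕ → ℕ} (hb : IsDSeq b)
    (h : ∀ m : ℕ, 0 < m → ∃ n, m ∣ b n) : ∃ χ ∈ chars (sTop b), χ ∉ Hset b := by
  obtain ⟨B⟩ := exists_blocks
  have h1 : lam B.U = lam b := by
    rw [lam_eq hb B.U_dseq]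
    refine ⟨fun n => h _ (B.U_pos n), fun n => ⟨b n + 1, ?_⟩⟩
    refine dvd_trans ?_ (B.fact_dvd (b n))
    exact Nat.dvd_factorial (hb.2.1 n) (Nat.le_succ _)
  have h2 : sTop B.U = sTop b := by
    unfold sTop
    rw [h1]
  have h3 : Hset B.U = Hset b := by
    rw [← chars_lam hb, ← chars_lam B.U_dseq, h1]
  rw [← h2, ← h3]
  exact B.not_compatible

end Q182.SB
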