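import Mathlib
import Pool.Agent.Q182.SBCompat

/-!
# The powers of two: the supremum is compatible, but it is not the Mackey topology
-/

namespace Q182.SB

open Set Filter Topology
open Q182.MK

/-- A member of the family. -/
def c2 (n : ℕ) : ℕ := 2 ^ (n ^ 2)

lemma c2_dseq : IsDSeq c2 := by
  refine ⟨rfl, fun n => by unfold c2; positivity, fun n => ⟨pow_dvd_pow 2 ?_, ?_⟩⟩
  · exact Nat.pow_le_pow_left (Nat.le_succ n) 2
  · exact (Nat.pow_lt_pow_right (by norm_num) (Nat.pow_lt_pow_left (Nat.lt_succ_self n)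
      (by norm_num))).ne

lemma c2_dinf : IsDInf c2 := by
  refine ⟨c2_dseq, ?_⟩
  have h : (fun n => (c2 (n + 1) : ℝ) / (c2 n : ℝ)) = fun n : ℕ => (2 : ℝ) ^ (2 * n + 1) := by
    funext n
    unfold c2
    push_cast
    rw [div_eq_iff (by positivity), ← pow_add]
    congr 1
    ring
  rw [h]
  refine (tendsto_pow_atTop_atTop_of_one_lt (by norm_num : (1 : ℝ) < 2)).comp ?_
  exact tendsto_atTop_mono (fun n => by show n ≤ 2 * n + 1; omega) tendsto_id

lemma c2_lam : lam c2 = lam b2 := by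
  rw [lam_eq b2_dseq c2_dseq]
  exact ⟨fun n => ⟨n ^ 2, dvd_rfl⟩, fun n => ⟨n, pow_dvd_pow 2 (by nlinarith)⟩⟩

/-- The index. -/
def i2 : Idx b2 := ⟨c2, c2_dinf, c2_lam⟩

/-- Doubling until the quarter is reached. -/
lemma exists_large {α : T} (hα : ∀ n : ℕ, ((2 : ℤ) ^ n) • α ≠ 0) (m : ℕ) :
    ∃ n ≥ m, 1 / 4 ≤ ‖((2 : ℤ) ^ n) • α‖ := by
  by_contra hcon
  push Not at hcon
  have h1 : ∀ i : ℕ, ‖((2 : ℤ) ^ m) • α‖ ≤ 1 / 4 * (1 / 2) ^ i := by
    intro i
    have h2 : ∀ i n : ℕ, m ≤ n → ‖((2 : ℤ) ^ n) • α‖ ≤ 1 / 4 * (1 / 2) ^ i := by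
      intro i
      induction i with
      | zero =>
        intro n hn
        rw [pow_zero, mul_one]
        exact (hcon n hn).le
      | succ i ih =>
        intro n hn
        have h3 := ih (n + 1) (by omega)
        have h4 : ((2 : ℤ) ^ (n + 1)) • α = ((2 : ℤ) ^ n) • α + ((2 : ℤ) ^ n) • α := by
          rw [pow_succ, mul_two, add_smul]
        rw [h4] at h3
        refine (norm_of_two (hcon n hn).le h3).trans (le_of_eq (by ring))
    exact h2 i m le_rfl
  apply hα m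
  rw [← norm_le_zero_iff]
  have h2 : Tendsto (fun i : ℕ => (1 : ℝ) / 4 * (1 / 2) ^ i) atTop (𝓝 (1 / 4 * 0)) :=
    (tendsto_pow_atTop_nhds_zero_of_lt_one (by norm_num) (by norm_num)).const_mul _
  rw [mul_zero] at h2
  exact ge_of_tendsto' h2 h1

theorem chars_sTop_two : chars (sTop b2) = Hset b2 := by
  apply Subset.antisymm
  · intro χ hχ
    set α := χ 1 with hα
    by_cases htor : ∃ n : ℕ, ((2 : ℤ) ^ n) • α = 0
    · obtain ⟨n, hn⟩ := htor
      have h1 : ((b2 n : ℕ) : ℤ) • α = 0 := by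
        unfold b2
        push_cast
        exact hn
      obtain ⟨k, hk⟩ := exists_frac_of_smul (b2_dseq.2.1 n) h1
      exact ⟨k, n, hk⟩
    · exfalso
      push Not at htor
      have hχ' : chr α ∈ chars (sTop b2) := by rw [hα, ← chr_eq]; exact hχ
      have hV := small_of_mem (sTop b2) α hχ' (ε := 1 / 8) (by norm_num)
      obtain ⟨F, hF, ε, hε, hV⟩ := (mem_nhds_iInf (fun c : Idx b2 => Sc c.1)).1 hV
      obtain ⟨d, hd⟩ : ∃ d : ℕ, (1 : ℝ) / 2 ^ d < ε := by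
        obtain ⟨d, hd⟩ := exists_pow_lt_of_lt_one hε (by norm_num : (1 : ℝ) / 2 < 1)
        exact ⟨d, by rwa [one_div_pow] at hd⟩
      obtain ⟨κ₀, W, hgood⟩ := exists_good hF d
      -- large values at good positions
      have hlarge : ∀ a : ℕ, ∃ n > a, Good F d n ∧ 1 / 4 / 2 ^ W ≤ ‖((2 : ℤ) ^ n) • α‖ := by
        intro a
        obtain ⟨n₁, hn₁, h1⟩ := exists_large htor (max κ₀ (a + 1) + W)
        obtain ⟨n, h2, h3, h4⟩ := hgood (n₁ - W) (by have := le_max_left κ₀ (a + 1); omega)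
        refine ⟨n, by have := le_max_right κ₀ (a + 1); omega, h4, ?_⟩
        obtain ⟨e, he⟩ : ∃ e, n₁ = n + e := ⟨n₁ - n, by omega⟩
        have h5 : ‖((2 : ℤ) ^ n₁) • α‖ ≤ 2 ^ e * ‖((2 : ℤ) ^ n) • α‖ := by
          rw [he, pow_add, mul_comm, mul_smul]
          refine (norm_zsmul_le _ _).trans (le_of_eq ?_)
          congr 1
          rw [norm_pow, Int.norm_eq_abs]
          norm_num
        have h6 : (2 : ℝ) ^ e ≤ 2 ^ W := pow_le_pow_right₀ (by norm_num) (by omega)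
        rw [div_le_iff₀ (by positivity)]
        have h7 := norm_nonneg (((2 : ℤ) ^ n) • α)
        nlinarith
      choose f hf1 hf2 hf3 using hlarge
      obtain ⟨p, hp0, hp1⟩ : ∃ p : ℕ → ℕ, p 0 = f 0 ∧ ∀ i, p (i + 1) = f (p i) :=
        ⟨fun i => Nat.rec (motive := fun _ => ℕ) (f 0) (fun _ a => f a) i, rfl, fun _ => rfl⟩
      have hpmono : StrictMono p := strictMono_nat_of_lt_succ fun i => by
        rw [hp1]
        exact hf1 _
      have hpgood : ∀ i, Good F d (p i) ∧ 1 / 4 / 2 ^ W ≤ ‖((2 : ℤ) ^ (p i)) • α‖ := by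
        intro i
        cases i with
        | zero => rw [hp0]; exact ⟨hf2 0, hf3 0⟩
        | succ i => rw [hp1]; exact ⟨hf2 _, hf3 _⟩
      -- signs
      have hsign : ∀ i, ∃ (σ : ℤ) (y : ℝ), |σ| ≤ 1 ∧ ((y : ℝ) : T) = (σ * 2 ^ (p i)) • α ∧
          1 / 4 / 2 ^ W ≤ y ∧ y ≤ 1 / 2 := by
        intro i
        obtain ⟨y, hy1, hy2, hy3⟩ := exists_rep (((2 : ℤ) ^ (p i)) • α)
        rcases le_total 0 y with hy | hy
        · rw [abs_of_nonneg hy] at hy2 hy3
          refine ⟨1, y, by norm_num, by rw [one_mul]; exact hy1, ?_, hy3⟩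
          rw [hy2]
          exact (hpgood i).2
        · rw [abs_of_nonpos hy] at hy2 hy3
          refine ⟨-1, -y, by norm_num, ?_, ?_, hy3⟩
          · rw [AddCircle.coe_neg, hy1, neg_one_mul, neg_smul]
          · rw [hy2]
            exact (hpgood i).2
      choose σ y hσ hy1 hy2 hy3 using hsign
      -- sums over sets of indices
      have hsum : ∀ J : Finset ℕ, ‖(∑ i ∈ J, σ i * 2 ^ (p i)) • α‖ ≤ 1 / 8 := by
        intro J
        classical
        apply hV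
        intro c hc s hs
        let τ' : ℕ → ℤ := fun n => if h : ∃ i, p i = n then σ h.choose else 0
        have hτ : ∀ i, τ' (p i) = σ i := by
          intro i
          have h2 : ∃ j, p j = p i := ⟨i, rfl⟩
          have h3 : h2.choose = i := hpmono.injective h2.choose_spec
          simp only [τ', dif_pos h2]
          rw [h3]
        have hkey : ∑ i ∈ J, σ i * 2 ^ (p i) = ∑ n ∈ J.image p, τ' n * 2 ^ n := by
          rw [Finset.sum_image (fun i _ j _ h => hpmono.injective h)]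
          refine Finset.sum_congr rfl fun i _ => ?_
          rw [hτ]
        rw [hkey]
        refine (norm_pow_sum_le (F := F) (d := d) (fun n hn => ?_) _ (fun n => ?_) hc hs).trans_lt hd
        · obtain ⟨i, -, rfl⟩ := Finset.mem_image.1 hn
          exact (hpgood i).1
        · by_cases h2 : ∃ i, p i = n
          · simp only [τ', dif_pos h2]
            exact hσ _
          · simp only [τ', dif_neg h2]
            norm_num
      have hpos : (0 : ℝ) < 1 / 4 / 2 ^ W := by positivity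
      have hy4 : ∀ i, y i ≤ 1 / 8 := by
        intro i
        have h1 := hsum {i}
        rw [Finset.sum_singleton, ← hy1 i, norm_coe_of_le (by
          rw [abs_of_nonneg (hpos.le.trans (hy2 i))]
          exact hy3 i), abs_of_nonneg (hpos.le.trans (hy2 i))] at h1
        exact h1
      obtain ⟨N, hN⟩ := exists_nat_gt (1 / 8 / (1 / 4 / (2 : ℝ) ^ W))
      have h2 := crossing (β := α) (c := 1 / 4 / 2 ^ W) (N := N) (fun i => σ i * 2 ^ (p i)) y
        (fun i _ => hy1 i) (fun i _ => ⟨hy2 i, hpos.le.trans (hy2 i), hy4 i⟩)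
        (fun n _ => hsum (Finset.range n))
      rw [div_lt_iff₀ hpos] at hN
      linarith
  · exact Hset_subset b2_dseq i2

/-! ### The finer topology -/

/-- The prescribed real numbers. -/
noncomputable def yy (A j : ℕ) : ℝ := ∑ i ∈ Finset.range (j + 1), 1 / 2 ^ (A + i ^ 2)

lemma sum_pow_sq_le (j : ℕ) : ∀ a : ℕ, ∑ i ∈ Finset.Ico a (a + j), (1 : ℝ) / 2 ^ (i ^ 2) ≤
    2 / 2 ^ (a ^ 2) := by
  intro a
  have h1 : ∀ j, ∑ i ∈ Finset.range j, (1 : ℝ) / 2 ^ ((a + i) ^ 2) ≤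
      (2 - 2 / 2 ^ j) / 2 ^ (a ^ 2) := by
    intro j
    induction j with
    | zero => simp
    | succ j ih =>
      rw [Finset.sum_range_succ]
      have h2 : (1 : ℝ) / 2 ^ ((a + j) ^ 2) ≤ (1 / 2 ^ j) / 2 ^ (a ^ 2) := by
        rw [div_div, ← pow_add]
        apply one_div_le_one_div_of_le (by positivity)
        apply pow_le_pow_right₀ (by norm_num)
        have h3 : j ≤ j * j := Nat.le_mul_self j
        nlinarith [Nat.zero_le (a * j)]
      have h3 : (2 - 2 / (2 : ℝ) ^ (j + 1)) / 2 ^ (a ^ 2) =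
          (2 - 2 / 2 ^ j) / 2 ^ (a ^ 2) + (1 / 2 ^ j) / 2 ^ (a ^ 2) := by
        field_simp
        ring
      rw [h3]
      linarith
  rw [Finset.sum_Ico_eq_sum_range, Nat.add_sub_cancel_left]
  refine (h1 j).trans ?_
  gcongr
  have : (0 : ℝ) ≤ 2 / 2 ^ j := by positivity
  linarith

lemma yy_eq (A j : ℕ) : yy A j = (1 / 2 ^ A) * ∑ i ∈ Finset.range (j + 1), (1 : ℝ) / 2 ^ (i ^ 2) := by
  unfold yy
  rw [Finset.mul_sum]
  refine Finset.sum_congr rfl fun i _ => ?_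
  rw [pow_add]
  field_simp

lemma yy_pos (A j : ℕ) : 0 < yy A j := by
  unfold yy
  exact Finset.sum_pos (fun i _ => by positivity) ⟨0, Finset.mem_range.2 (Nat.succ_pos j)⟩

lemma yy_le (A j : ℕ) : yy A j ≤ 2 / 2 ^ A := by
  rw [yy_eq]
  have h1 := sum_pow_sq_le (j + 1) 0
  rw [zero_add, ← Finset.range_eq_Ico] at h1
  have h2 : (2 : ℝ) / 2 ^ (0 ^ 2) = 2 := by norm_num
  rw [h2] at h1
  calc (1 / 2 ^ A) * ∑ i ∈ Finset.range (j + 1), (1 : ℝ) / 2 ^ (i ^ 2) ≤ (1 / 2 ^ A) * 2 := by gcongr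
    _ = 2 / 2 ^ A := by ring

/-- The prescribed sets of characters. -/
def PP (j : ℕ) : Set T := {t | ∃ A : ℕ, j ≤ A ∧ 2 ≤ A ∧ t = ((yy A j : ℝ) : T)}

lemma norm_yy {A : ℕ} (hA : 2 ≤ A) (j : ℕ) : ‖((yy A j : ℝ) : T)‖ = yy A j := by
  have h1 := yy_pos A j
  have h2 := yy_le A j
  have h3 : (2 : ℝ) / 2 ^ A ≤ 1 / 2 := by
    rw [div_le_div_iff₀ (by positivity) (by norm_num)]
    have : (2 : ℝ) ^ 2 ≤ 2 ^ A := pow_le_pow_right₀ (by norm_num) hA
    linarith
  rw [norm_coe_of_le (by rw [abs_of_pos h1]; linarith), abs_of_pos h1]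

/-- The basic neighbourhoods of zero. -/
def U2 (j : ℕ) : Set ℤ := {k : ℤ | ((2 : ℤ) ^ j) ∣ k}

lemma U2_mem (j : ℕ) : U2 j ∈ @nhds ℤ (lam b2) 0 :=
  (mem_nhds_lam b2_dseq).2 ⟨j, fun k hk => by
    have h : (((b2 j : ℕ) : ℤ)) = 2 ^ j := by unfold b2; push_cast; rfl
    show ((2 : ℤ) ^ j) ∣ k
    rw [← h]
    exact hk⟩

lemma U2_base {V : Set ℤ} (hV : V ∈ @nhds ℤ (lam b2) 0) : ∃ j, U2 j ⊆ V := by
  obtain ⟨n, hn⟩ := (mem_nhds_lam b2_dseq).1 hV
  refine ⟨n, fun k hk => hn k ?_⟩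
  have h : (((b2 n : ℕ) : ℤ)) = 2 ^ n := by unfold b2; push_cast; rfl
  rw [h]
  exact hk

lemma chr_frac_mem (k : ℤ) (n : ℕ) : chr (((k : ℝ) / 2 ^ n : ℝ) : T) ∈ chars (lam b2) := by
  rw [chars_lam b2_dseq]
  refine ⟨k, n, ?_⟩
  rw [chr_apply, one_smul]
  unfold b2
  push_cast
  rfl

lemma lqc_lam_two : IsLQC (lam b2) := by
  refine ⟨lam_group b2, fun V hV => ?_⟩
  obtain ⟨j, hj⟩ := U2_base hV
  refine ⟨U2 j, U2_mem j, fun x hx => ?_, hj⟩
  have h1 : x • (((1 / 2 ^ j : ℝ)) : T) ≠ 0 := by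
    intro h
    rw [zsmul_coe, AddCircle.coe_eq_zero_iff] at h
    obtain ⟨n, hn⟩ := h
    apply hx
    rw [zsmul_eq_mul, mul_one, mul_one_div, eq_div_iff (by positivity)] at hn
    exact ⟨n, by rw [mul_comm]; exact_mod_cast hn.symm⟩
  have h2 : ∃ l : ℤ, 1 / 4 < ‖l • (x • (((1 / 2 ^ j : ℝ)) : T))‖ := by
    by_contra hcon
    push Not at hcon
    exact h1 (eq_zero_of_small hcon)
  obtain ⟨l, hl⟩ := h2
  have h3 : chr (((1 / 2 ^ j : ℝ)) : T) ∈ chars (lam b2) := by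
    have := chr_frac_mem 1 j
    rwa [Int.cast_one] at this
  refine ⟨chr (l • (((1 / 2 ^ j : ℝ)) : T)), smul_mem_chars (lam_group b2) h3 l, fun a ha => ?_, ?_⟩
  · obtain ⟨q, rfl⟩ := ha
    rw [mem_Tplus, chr_apply, smul_comm]
    have h4 : ((2 : ℤ) ^ j * q) • (((1 / 2 ^ j : ℝ)) : T) = 0 := by
      rw [zsmul_coe, AddCircle.coe_eq_zero_iff]
      refine ⟨q, ?_⟩
      push_cast
      rw [zsmul_eq_mul]
      field_simp
    rw [h4, smul_zero, norm_zero]
    norm_num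
  · rw [mem_Tplus, chr_apply, smul_comm, not_le]
    exact hl

lemma data_two : MK2.Data U2 (HH (lam b2) (lam_group b2)) PP where
  zero := fun j => dvd_zero _
  neg := fun j k hk => (dvd_neg).2 hk
  add := fun j a ha b hb => dvd_add ((pow_dvd_pow 2 (Nat.le_succ j)).trans ha)
    ((pow_dvd_pow 2 (Nat.le_succ j)).trans hb)
  syn := fun j => by
    refine ⟨2 ^ j, by positivity, fun a => ?_⟩
    refine ⟨2 ^ j * ⌈a / 2 ^ j⌉, dvd_mul_right _ _, ?_, ?_⟩
    · push_cast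
      have h1 := Int.le_ceil (a / 2 ^ j)
      rw [div_le_iff₀ (by positivity)] at h1
      linarith
    · push_cast
      have h1 := (Int.ceil_lt_add_one (a / 2 ^ j)).le
      have h2 : (0 : ℝ) < 2 ^ j := by positivity
      have h3 : a / 2 ^ j * 2 ^ j = a := by field_simp
      nlinarith
  cont := fun t ht ε hε => by
    obtain ⟨j, hj⟩ := U2_base (small_of_mem (lam b2) t ht hε)
    exact ⟨j, fun k hk => hj hk⟩
  mem := fun t ⟨j, hj⟩ => by
    have h1 : ((2 : ℤ) ^ j) • t = 0 := by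
      apply eq_zero_of_small
      intro k
      rw [smul_smul]
      exact (hj _ (dvd_mul_left _ _)).trans (by norm_num)
    have h2 : ((b2 j : ℕ) : ℤ) • t = 0 := by
      unfold b2
      push_cast
      exact h1
    obtain ⟨k, hk⟩ := exists_frac_of_smul (b2_dseq.2.1 j) h2
    show chr t ∈ chars (lam b2)
    rw [hk]
    have h3 := chr_frac_mem k j
    unfold b2
    push_cast
    exact h3
  small := fun j ε hε => by
    obtain ⟨A, hA⟩ := exists_pow_lt_of_lt_one (by positivity : 0 < ε / 2)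
      (by norm_num : (1 : ℝ) / 2 < 1)
    let A' := max A (max j 2)
    have h1 : (2 : ℝ) / 2 ^ A' < ε := by
      have h2 : ((1 : ℝ) / 2) ^ A' ≤ (1 / 2) ^ A :=
        pow_le_pow_of_le_one (by norm_num) (by norm_num) (le_max_left _ _)
      have h3 : (2 : ℝ) / 2 ^ A' = 2 * (1 / 2) ^ A' := by
        rw [one_div_pow]
        ring
      rw [h3]
      linarith
    have h2 : 2 ≤ A' := (le_max_right j 2).trans (le_max_right _ _)
    refine ⟨((yy A' j : ℝ) : T), ?_, ⟨A', (le_max_left j 2).trans (le_max_right _ _), h2, rfl⟩, ?_, ?_⟩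
    · unfold yy
      have h3 : ((∑ i ∈ Finset.range (j + 1), (1 : ℝ) / 2 ^ (A' + i ^ 2) : ℝ) : T) =
          ∑ i ∈ Finset.range (j + 1), (((1 : ℝ) / 2 ^ (A' + i ^ 2) : ℝ) : T) := by
        exact map_sum (QuotientAddGroup.mk' (AddSubgroup.zmultiples (1 : ℝ))) _ _
      rw [h3]
      refine (HH (lam b2) (lam_group b2)).sum_mem fun i _ => ?_
      have h4 := chr_frac_mem 1 (A' + i ^ 2)
      rw [Int.cast_one] at h4
      exact h4
    · intro h
      have h3 := norm_yy h2 j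
      rw [h, norm_zero] at h3
      exact (yy_pos A' j).ne h3
    · rw [norm_yy h2]
      exact (yy_le _ _).trans_lt h1

/-- The finer compatible topology. -/
theorem exists_finer : ∃ σ : TopologicalSpace ℤ, IsLQC σ ∧ chars σ = Hset b2 ∧ ¬ sTop b2 ≤ σ := by
  obtain ⟨s, hsH, hsP, -, -, hcore⟩ := MK2.core data_two
  obtain ⟨h1, h2, h3⟩ := compat (lam b2) lqc_lam_two U2 U2_mem (fun V hV => U2_base hV) s hsH hcore
  refine ⟨lam b2 ⊓ utop s, h1, by rw [h2, chars_lam b2_dseq], fun hcon => ?_⟩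
  have hV := (nhds_mono hcon) (h3 (1 / 8) (by norm_num))
  obtain ⟨F, hF, ε, hε, hV⟩ := (mem_nhds_iInf (fun c : Idx b2 => Sc c.1)).1 hV
  obtain ⟨d, hd⟩ : ∃ d : ℕ, (1 : ℝ) / 2 ^ d < ε := by
    obtain ⟨d, hd⟩ := exists_pow_lt_of_lt_one hε (by norm_num : (1 : ℝ) / 2 < 1)
    exact ⟨d, by rwa [one_div_pow] at hd⟩
  obtain ⟨κ₀, W, hgood⟩ := exists_good hF d
  -- parameters
  obtain ⟨N, hN⟩ := exists_nat_gt (1 / 8 / (1 / (2 : ℝ) ^ (W + 4)))
  set i₀ : ℕ := W + 4 with hi₀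
  set j : ℕ := κ₀ + i₀ + N + (W + 4) with hj
  obtain ⟨A, hjA, -, hsj⟩ := hsP j
  -- good positions below the digits
  have hex : ∀ i : ℕ, ∃ n, i < N → (A + (i₀ + i) ^ 2 ≤ n + (W + 4) ∧ n + 4 ≤ A + (i₀ + i) ^ 2 ∧
      Good F d n) := by
    intro i
    obtain ⟨n, g1, g2, g3⟩ := hgood (A + (i₀ + i) ^ 2 - (W + 4)) (by omega)
    exact ⟨n, fun _ => ⟨by omega, by omega, g3⟩⟩
  choose p hp using hex
  have hpmono : ∀ i i' : ℕ, i < i' → i' < N → p i < p i' := by
    intro i i' h hN'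
    obtain ⟨-, e2, -⟩ := hp i (h.trans hN')
    obtain ⟨e4, -, -⟩ := hp i' hN'
    have e5 : (i₀ + i) ^ 2 + (2 * (i₀ + i) + 1) ≤ (i₀ + i') ^ 2 := by
      have : i₀ + i + 1 ≤ i₀ + i' := by omega
      nlinarith
    omega
  -- the real representatives
  have hrep : ∀ i < N, ∃ y : ℝ, ((y : ℝ) : T) = ((2 : ℤ) ^ (p i)) • s j ∧
      1 / (2 : ℝ) ^ (W + 4) ≤ y ∧ 0 ≤ y ∧ y ≤ 1 / 8 := by
    intro i hi
    obtain ⟨e1, e2, -⟩ := hp i hi
    set a := i₀ + i with ha
    -- split the sum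
    have haj : a + (j + 1 - a) = j + 1 := by omega
    have hsplit : yy A j = ∑ l ∈ Finset.range a, (1 : ℝ) / 2 ^ (A + l ^ 2) +
        ∑ l ∈ Finset.Ico a (j + 1), (1 : ℝ) / 2 ^ (A + l ^ 2) := by
      unfold yy
      rw [Finset.sum_range_add_sum_Ico _ (by omega)]
    have hint : ∃ z : ℤ, (2 : ℝ) ^ (p i) * ∑ l ∈ Finset.range a, (1 : ℝ) / 2 ^ (A + l ^ 2) = z := by
      refine ⟨∑ l ∈ Finset.range a, 2 ^ (p i - (A + l ^ 2)), ?_⟩
      push_cast
      rw [Finset.mul_sum]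
      refine Finset.sum_congr rfl fun l hl => ?_
      have hl' := Finset.mem_range.1 hl
      have e3 : l ^ 2 + (2 * l + 1) ≤ a ^ 2 := by nlinarith
      have e4 : (a - 1) ^ 2 + (2 * (a - 1) + 1) = a ^ 2 := by
        obtain ⟨a', ha'⟩ : ∃ a', a = a' + 1 := ⟨a - 1, by omega⟩
        rw [ha', Nat.add_sub_cancel]
        ring
      have e5 : l ^ 2 ≤ (a - 1) ^ 2 := Nat.pow_le_pow_left (by omega) 2
      have e6 : A + l ^ 2 ≤ p i := by omega
      have e7 : (2 : ℝ) ^ (p i) = 2 ^ (p i - (A + l ^ 2)) * 2 ^ (A + l ^ 2) := by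
        rw [← pow_add]
        congr 1
        omega
      rw [e7]
      field_simp
    obtain ⟨z, hz⟩ := hint
    set y : ℝ := (2 : ℝ) ^ (p i) * ∑ l ∈ Finset.Ico a (j + 1), (1 : ℝ) / 2 ^ (A + l ^ 2) with hy
    have hlow : 1 / (2 : ℝ) ^ (W + 4) ≤ y := by
      have h4 : (1 : ℝ) / 2 ^ (A + a ^ 2) ≤ ∑ l ∈ Finset.Ico a (j + 1), (1 : ℝ) / 2 ^ (A + l ^ 2) :=
        Finset.single_le_sum (f := fun l => (1 : ℝ) / 2 ^ (A + l ^ 2)) (fun _ _ => by positivity)
          (Finset.mem_Ico.2 ⟨le_rfl, by omega⟩)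
      have h5 : 1 / (2 : ℝ) ^ (W + 4) ≤ 2 ^ (p i) * (1 / 2 ^ (A + a ^ 2)) := by
        rw [mul_one_div, div_le_div_iff₀ (by positivity) (by positivity), one_mul, ← pow_add]
        exact pow_le_pow_right₀ (by norm_num) (by omega)
      refine h5.trans ?_
      rw [hy]
      gcongr
    have hup : y ≤ 1 / 8 := by
      have h4 : ∑ l ∈ Finset.Ico a (j + 1), (1 : ℝ) / 2 ^ (A + l ^ 2) ≤ (1 / 2 ^ A) * (2 / 2 ^ (a ^ 2)) := by
        have h5 := sum_pow_sq_le (j + 1 - a) a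
        rw [haj] at h5
        calc ∑ l ∈ Finset.Ico a (j + 1), (1 : ℝ) / 2 ^ (A + l ^ 2)
            = (1 / 2 ^ A) * ∑ l ∈ Finset.Ico a (j + 1), (1 : ℝ) / 2 ^ (l ^ 2) := by
              rw [Finset.mul_sum]
              refine Finset.sum_congr rfl fun l _ => ?_
              rw [pow_add]
              field_simp
          _ ≤ (1 / 2 ^ A) * (2 / 2 ^ (a ^ 2)) := by gcongr
      have h6 : (2 : ℝ) ^ (p i) * 2 ^ 4 ≤ 2 ^ A * 2 ^ (a ^ 2) := by
        rw [← pow_add, ← pow_add]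
        exact pow_le_pow_right₀ (by norm_num) (by omega)
      calc y ≤ (2 : ℝ) ^ (p i) * ((1 / 2 ^ A) * (2 / 2 ^ (a ^ 2))) := by
            rw [hy]
            gcongr
        _ = (2 : ℝ) ^ (p i) * 2 / (2 ^ A * 2 ^ (a ^ 2)) := by field_simp
        _ ≤ 1 / 8 := by
          rw [div_le_div_iff₀ (by positivity) (by norm_num)]
          linarith
    refine ⟨y, ?_, hlow, le_trans (by positivity) hlow, hup⟩
    rw [hsj, zsmul_coe, hsplit, mul_add]
    push_cast
    rw [hz, AddCircle.coe_add]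
    have h7 : (((z : ℤ) : ℝ) : T) = 0 := by
      rw [AddCircle.coe_eq_zero_iff]
      exact ⟨z, by simp⟩
    rw [h7, zero_add]
  have hex2 : ∀ i : ℕ, ∃ y : ℝ, i < N → ((y : ℝ) : T) = ((2 : ℤ) ^ (p i)) • s j ∧
      1 / (2 : ℝ) ^ (W + 4) ≤ y ∧ 0 ≤ y ∧ y ≤ 1 / 8 := by
    intro i
    by_cases hi : i < N
    · obtain ⟨y, hy⟩ := hrep i hi
      exact ⟨y, fun _ => hy⟩
    · exact ⟨0, fun h => absurd h hi⟩
  choose y hy using hex2
  have hcross := crossing (β := s j) (c := 1 / (2 : ℝ) ^ (W + 4)) (N := N) (fun i => (2 : ℤ) ^ (p i)) y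
    (fun i hi => (hy i hi).1) (fun i hi => (hy i hi).2) (fun n hn => by
      have hmem : (∑ i ∈ Finset.range n, (2 : ℤ) ^ (p i)) ∈ {k : ℤ | ∀ i, ‖k • s i‖ < 1 / 8} := by
        apply hV
        intro c hc t ht
        have hinj : ∀ i ∈ Finset.range n, ∀ i' ∈ Finset.range n, p i = p i' → i = i' := by
          intro i hi i' hi' h
          rw [Finset.mem_range] at hi hi'
          rcases lt_trichotomy i i' with h' | h' | h'
          · exact absurd h (hpmono i i' h' (by omega)).ne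
          · exact h'
          · exact absurd h.symm (hpmono i' i h' (by omega)).ne
        have h4 : ∑ i ∈ Finset.range n, (2 : ℤ) ^ (p i) =
            ∑ m ∈ (Finset.range n).image p, (fun _ => (1 : ℤ)) m * 2 ^ m := by
          rw [Finset.sum_image hinj]
          simp
        rw [h4]
        refine (norm_pow_sum_le (F := F) (d := d) (fun m hm => ?_) _ (fun m => by norm_num)
          hc ht).trans_lt hd
        obtain ⟨i, hi, rfl⟩ := Finset.mem_image.1 hm
        exact (hp i (by have := Finset.mem_range.1 hi; omega)).2.2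
      exact (hmem j).le)
  rw [div_lt_iff₀ (by positivity)] at hN
  linarith

end Q182.SB
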