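import Mathlib

/-!
# The sigma-product of copies of `ℤ/2`

For a set `I`, the group of all elements of countable support of the compact group `(ℤ/2)^I`.
-/

namespace Q182.SigmaProd

open Filter Topology Set

variable (I : Type)

/-- The `Σ`-product: elements of `(ℤ/2)^I` with countable support. -/
def Sig : AddSubgroup (I → ZMod 2) where
  carrier := {x | {i | x i ≠ 0}.Countable}
  zero_mem' := by simp
  add_mem' := by
    intro a b ha hb
    refine Set.Countable.mono ?_ (ha.union hb)
    intro i hi
    by_contra h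
    simp only [mem_union, mem_ofPred_eq, not_or, not_not] at h
    exact hi (by simp [h.1, h.2])
  neg_mem' := by
    intro a ha
    refine Set.Countable.mono ?_ ha
    intro i hi h
    exact hi (by simpa using h)

variable {I}

/-- The elements of the `Σ`-product supported in `C`. -/
def box (C : Set I) : Set (Sig I) := {x | ∀ i ∉ C, x.1 i = 0}

lemma isClosed_box (C : Set I) : IsClosed (box C) := by
  have : box C = ⋂ i ∈ Cᶜ, {x : Sig I | x.1 i = 0} := by
    ext x
    simp [box]
  rw [this]
  refine isClosed_biInter fun i _ => ?_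
  exact isClosed_eq ((continuous_apply i).comp continuous_subtype_val) continuous_const

lemma isCompact_box {C : Set I} (hC : C.Countable) : IsCompact (box C) := by
  have h1 : IsCompact {x : I → ZMod 2 | ∀ i ∉ C, x i = 0} := by
    apply IsClosed.isCompact
    have : {x : I → ZMod 2 | ∀ i ∉ C, x i = 0} = ⋂ i ∈ Cᶜ, {x : I → ZMod 2 | x i = 0} := by
      ext x
      simp
    rw [this]
    exact isClosed_biInter fun i _ => isClosed_eq (continuous_apply i) continuous_const
  rw [Topology.IsInducing.subtypeVal.isCompact_iff]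
  convert h1 using 1
  ext x
  constructor
  · rintro ⟨y, hy, rfl⟩
    exact hy
  · intro hx
    refine ⟨⟨x, ?_⟩, hx, rfl⟩
    refine Set.Countable.mono ?_ hC
    intro i hi
    by_contra h
    exact hi (hx i h)

/-- The support of an element. -/
def supp (x : Sig I) : Set I := {i | x.1 i ≠ 0}

lemma countable_supp (x : Sig I) : (supp x).Countable := x.2

lemma mem_box_iff (x : Sig I) (C : Set I) : x ∈ box C ↔ supp x ⊆ C := by
  constructor
  · intro h i hi
    by_contra h'
    exact hi (h i h')
  · intro h i hi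
    by_contra h'
    exact hi (h h')

/-- Every countable subset is contained in a compact closed set. -/
lemma exists_box {D : Set (Sig I)} (hD : D.Countable) : ∃ C : Set I, C.Countable ∧ D ⊆ box C := by
  refine ⟨⋃ x ∈ D, supp x, hD.biUnion fun x _ => countable_supp x, fun x hx => ?_⟩
  rw [mem_box_iff]
  exact Set.subset_biUnion_of_mem hx

instance : CountablyCompactSpace (Sig I) := by
  constructor
  rw [isCountablyCompact_iff_seq_clusterPt]
  intro x _
  obtain ⟨C, hC, hxC⟩ := exists_box (Set.countable_range x)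
  obtain ⟨a, -, ha⟩ := (isCompact_box hC).exists_mapClusterPt_of_frequently (f := x) (l := atTop)
    (Frequently.of_forall fun n => hxC (mem_range_self n))
  exact ⟨a, mem_univ _, ha⟩

/-- Basic neighbourhoods of zero. -/
lemma mem_nhds_zero {U : Set (Sig I)} (hU : U ∈ 𝓝 (0 : Sig I)) :
    ∃ F : Finset I, ∀ x : Sig I, (∀ i ∈ F, x.1 i = 0) → x ∈ U := by
  rw [nhds_subtype, mem_comap] at hU
  obtain ⟨V, hV, hVU⟩ := hU
  rw [show ((0 : Sig I) : I → ZMod 2) = 0 from rfl, nhds_pi, Filter.mem_pi] at hV
  obtain ⟨J, hJ, W, hW, hWV⟩ := hV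
  refine ⟨hJ.toFinset, fun x hx => hVU (hWV ?_)⟩
  intro i hi
  rw [hx i (hJ.mem_toFinset.2 hi)]
  exact mem_of_mem_nhds (hW i)

lemma nhds_zero_of_finset (F : Finset I) : {x : Sig I | ∀ i ∈ F, x.1 i = 0} ∈ 𝓝 (0 : Sig I) := by
  have : {x : Sig I | ∀ i ∈ F, x.1 i = 0} = ⋂ i ∈ F, {x : Sig I | x.1 i = 0} := by
    ext x
    simp
  rw [this]
  refine (Filter.biInter_finset_mem F).2 fun i _ => ?_
  apply IsOpen.mem_nhds
  · have hc : Continuous (fun x : Sig I => x.1 i) :=
      (continuous_apply i).comp continuous_subtype_val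
    exact (isOpen_discrete {(0 : ZMod 2)}).preimage hc
  · rfl

lemma fin_countable {C : Set I} (hC : C.Countable) : {F : Finset I | (F : Set I) ⊆ C}.Countable := by
  have h1 := Set.countable_ofPred_finite_subset hC
  refine (h1.preimage_of_injOn (f := fun F : Finset I => (F : Set I))
    Finset.coe_injective.injOn).mono ?_
  intro F hF
  exact ⟨F.finite_toSet, hF⟩

/-- Countable tightness at zero. -/
lemma tight {A : Set (Sig I)} (hA : (0 : Sig I) ∈ closure A) :
    ∃ B ⊆ A, B.Countable ∧ (0 : Sig I) ∈ closure B := by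
  classical
  have h1 : ∀ F : Finset I, ∃ x ∈ A, ∀ i ∈ F, x.1 i = 0 := by
    intro F
    obtain ⟨x, hx1, hx2⟩ := mem_closure_iff_nhds.1 hA _ (nhds_zero_of_finset F)
    exact ⟨x, hx2, hx1⟩
  choose a haA ha using h1
  let step : Set I → Set I := fun C => C ∪ ⋃ F ∈ {F : Finset I | (F : Set I) ⊆ C}, supp (a F)
  let C : ℕ → Set I := fun n => step^[n] ∅
  have hCs : ∀ n, C (n + 1) = step (C n) := fun n => Function.iterate_succ_apply' _ _ _
  have hCmono : Monotone C := monotone_nat_of_le_succ fun n => by
    rw [hCs]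
    exact subset_union_left
  have hCc : ∀ n, (C n).Countable := by
    intro n
    induction n with
    | zero => exact Set.countable_empty
    | succ n ih =>
      rw [hCs]
      refine ih.union (Set.Countable.biUnion ?_ fun F _ => countable_supp _)
      exact fin_countable ih
  refine ⟨⋃ n, a '' {F : Finset I | (F : Set I) ⊆ C n}, ?_, ?_, ?_⟩
  · intro x hx
    obtain ⟨n, F, -, rfl⟩ := mem_iUnion.1 hx
    exact haA F
  · refine Set.countable_iUnion fun n => Set.Countable.image ?_ _
    exact fin_countable (hCc n)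
  · rw [mem_closure_iff_nhds]
    intro U hU
    obtain ⟨F, hF⟩ := mem_nhds_zero hU
    -- the part of `F` inside the union of the `C n`
    have h2 : ∃ n, ∀ i ∈ F, (∃ m, i ∈ C m) → i ∈ C n := by
      let m : I → ℕ := fun i => if h : ∃ m, i ∈ C m then h.choose else 0
      refine ⟨F.sup m, fun i hi hm => hCmono (Finset.le_sup (f := m) hi) ?_⟩
      show i ∈ C (m i)
      simp only [m]
      rw [dif_pos hm]
      exact hm.choose_spec
    obtain ⟨n, hn⟩ := h2
    let F' : Finset I := F.filter (fun i => ∃ m, i ∈ C m)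
    have hF' : (F' : Set I) ⊆ C n := by
      intro i hi
      have := Finset.mem_filter.1 hi
      exact hn i this.1 this.2
    refine ⟨a F', hF (a F') ?_, mem_iUnion.2 ⟨n, F', hF', rfl⟩⟩
    intro i hi
    by_cases h : ∃ m, i ∈ C m
    · exact ha F' i (Finset.mem_filter.2 ⟨hi, h⟩)
    · by_contra h'
      apply h
      refine ⟨n + 1, ?_⟩
      rw [hCs]
      refine Or.inr (mem_biUnion (x := F') hF' h')

end Q182.SigmaProd
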