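import Mathlib
import Pool.Agent.Q182.SigmaProd

/-!
# `G_δ`-density of the sigma-product in the full product
-/

namespace Q182.SigmaProd

open Filter Topology Set

variable {I : Type}

/-- A neighbourhood of `x₀` in `(ℤ/2)^I` contains all points agreeing with `x₀` on a finite set. -/
lemma cube_mem_nhds {x₀ : I → ZMod 2} {U : Set (I → ZMod 2)} (hU : U ∈ 𝓝 x₀) :
    ∃ F : Finset I, ∀ z : I → ZMod 2, (∀ i ∈ F, z i = x₀ i) → z ∈ U := by
  rw [nhds_pi, Filter.mem_pi] at hU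
  obtain ⟨J, hJ, W, hW, hWV⟩ := hU
  refine ⟨hJ.toFinset, fun z hz => hWV ?_⟩
  intro i hi
  rw [hz i (hJ.mem_toFinset.2 hi)]
  exact mem_of_mem_nhds (hW i)

/-- A `G_δ`-set containing `x₀` contains all points agreeing with `x₀` on a countable set. -/
lemma gdelta_determined {S : Set (I → ZMod 2)} (hS : IsGδ S) {x₀ : I → ZMod 2} (hx₀ : x₀ ∈ S) :
    ∃ C : Set I, C.Countable ∧ ∀ z : I → ZMod 2, (∀ i ∈ C, z i = x₀ i) → z ∈ S := by
  obtain ⟨T, hT, hTc, rfl⟩ := hS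
  have h : ∀ V ∈ T, ∃ F : Finset I, ∀ z : I → ZMod 2, (∀ i ∈ F, z i = x₀ i) → z ∈ V := fun V hV =>
    cube_mem_nhds ((hT V hV).mem_nhds (hx₀ V hV))
  choose! F hF using h
  refine ⟨⋃ V ∈ T, (F V : Set I), hTc.biUnion fun V _ => (F V).countable_toSet, fun z hz => ?_⟩
  intro V hV
  exact hF V hV z fun i hi => hz i (mem_biUnion hV hi)

/-- The `Σ`-product is `G_δ`-dense. -/
lemma gdelta_dense {S : Set (I → ZMod 2)} (hS : IsGδ S) (hne : S.Nonempty) :
    ∃ x : Sig I, x.1 ∈ S := by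
  classical
  obtain ⟨x₀, hx₀⟩ := hne
  obtain ⟨C, hC, h⟩ := gdelta_determined hS hx₀
  refine ⟨⟨fun i => if i ∈ C then x₀ i else 0, ?_⟩, h _ fun i hi => if_pos hi⟩
  refine Set.Countable.mono ?_ hC
  intro i hi
  by_contra h'
  exact hi (if_neg h')

end Q182.SigmaProd
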