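import Pool.Agent.Q182.TowLim

/-!
# Embeddings in binate groups
-/

set_option autoImplicit false

namespace Q182.Tow

open Pool.Agent.Y110.FJ
open Pool.Agent.Y462.SS (Closed Wr)
open Q30.FJ

/-- a group is binate (Berrick) if each finitely generated subgroup `H` has a homomorphism `φ` to
`G` and an element `u` of `G` such that `h = u φ(h) u⁻¹ φ(h)⁻¹` for all `h` in `H` -/
def Binate (G : Type) [Group G] : Prop :=
  ∀ H : Subgroup G, H.FG → ∃ (φ : H →* G) (u : G), ∀ h : H, (h : G) = u * φ h * u⁻¹ * (φ h)⁻¹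

section step

variable (G : Type) [Group G]

/-- the functions supported at `0` -/
def at0 : G →* EC G where
  toFun h := ⟨(fnc (fun n => if n = 0 then h else 1), (1, 1)), (map_one trn).symm, 1,
    fun n hn => by
      show (if n = 0 then h else 1) = 1
      rw [if_neg (by omega)],
    fun n hn => by
      show (if n = 0 then h else 1) = 1
      rw [if_neg (by omega)]⟩
  map_one' := by
    apply Subtype.ext
    refine Prod.ext ?_ rfl
    show fnc (fun n : ℤ => if n = 0 then (1 : G) else 1) = 1
    have h1 : (fun n : ℤ => if n = 0 then (1 : G) else 1) = 1 := by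
      funext n
      split_ifs <;> rfl
    rw [h1, map_one]
  map_mul' a b := by
    apply Subtype.ext
    refine Prod.ext ?_ (Prod.ext (mul_one _).symm (mul_one _).symm)
    show fnc (fun n : ℤ => if n = 0 then a * b else 1) =
      fnc (fun n : ℤ => if n = 0 then a else 1) * fnc (fun n : ℤ => if n = 0 then b else 1)
    rw [← map_mul]
    congr 1
    funext n
    show (if n = 0 then a * b else 1) = (if n = 0 then a else 1) * (if n = 0 then b else 1)
    split_ifs
    · rfl
    · rw [mul_one]

/-- the functions which are constant on the positive integers -/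
def stp : G →* EC G where
  toFun h := ⟨(fnc (fun n => if 1 ≤ n then h else 1), (h, 1)), (map_one trn).symm, 1,
    fun n hn => by
      show (if 1 ≤ n then h else 1) = h
      rw [if_pos hn],
    fun n hn => by
      show (if 1 ≤ n then h else 1) = 1
      rw [if_neg (by omega)]⟩
  map_one' := by
    apply Subtype.ext
    refine Prod.ext ?_ rfl
    show fnc (fun n : ℤ => if 1 ≤ n then (1 : G) else 1) = 1
    have h1 : (fun n : ℤ => if 1 ≤ n then (1 : G) else 1) = 1 := by
      funext n
      split_ifs <;> rfl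
    rw [h1, map_one]
  map_mul' a b := by
    apply Subtype.ext
    refine Prod.ext ?_ (Prod.ext rfl (mul_one _).symm)
    show fnc (fun n : ℤ => if 1 ≤ n then a * b else 1) =
      fnc (fun n : ℤ => if 1 ≤ n then a else 1) * fnc (fun n : ℤ => if 1 ≤ n then b else 1)
    rw [← map_mul]
    congr 1
    funext n
    show (if 1 ≤ n then a * b else 1) = (if 1 ≤ n then a else 1) * (if 1 ≤ n then b else 1)
    split_ifs
    · rfl
    · rw [mul_one]

/-- the shift -/
def shi : EC G :=
  ⟨(shf G (Multiplicative.ofAdd (-1)), (1, Multiplicative.ofAdd (-1))), rfl, 0,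
    fun _ _ => rfl, fun _ _ => rfl⟩

theorem at0_inj : Function.Injective (at0 G) := by
  intro a b hab
  have h1 := congrArg (fun w : EC G => w.1.1.s 0) hab
  exact h1

theorem at0_eq (h : G) : at0 G h = shi G * stp G h * (shi G)⁻¹ * (stp G h)⁻¹ := by
  rw [eq_mul_inv_iff_mul_eq]
  apply Subtype.ext
  refine Prod.ext ?_ (Prod.ext ?_ ?_)
  · show fnc (fun n : ℤ => if n = 0 then h else 1) * fnc (fun n : ℤ => if 1 ≤ n then h else 1) =
      shf G (Multiplicative.ofAdd (-1)) * fnc (fun n : ℤ => if 1 ≤ n then h else 1) *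
        (shf G (Multiplicative.ofAdd (-1)))⁻¹
    rw [shf_fnc, ← map_mul]
    congr 1
    funext n
    show (if n = 0 then h else 1) * (if 1 ≤ n then h else 1) =
      (if 1 ≤ n - (-1) then h else 1)
    rcases lt_trichotomy n 0 with hn | hn | hn
    · rw [if_neg (by omega), if_neg (by omega), if_neg (by omega), mul_one]
    · rw [if_pos hn, if_neg (by omega), if_pos (by omega), mul_one]
    · rw [if_neg (by omega), if_pos (by omega), if_pos (by omega), one_mul]
  · show (1 : G) * h = 1 * h * 1⁻¹
    rw [inv_one, mul_one]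
  · show (1 : Multiplicative ℤ) * 1 = Multiplicative.ofAdd (-1) * 1 *
      (Multiplicative.ofAdd (-1 : ℤ))⁻¹
    rw [mul_one, mul_one, mul_inv_cancel]

theorem ec_countable [Countable G] : Countable (EC G) := by
  have hw : ∀ w : EC G, ∃ m : ℕ, (∀ n : ℤ, (m : ℤ) ≤ n → w.1.1.s n = w.1.2.1) ∧
      (∀ n : ℤ, n ≤ -(m : ℤ) → w.1.1.s n = 1) := by
    intro w
    obtain ⟨-, n₀, h1, h2⟩ := w.2
    refine ⟨n₀.toNat, fun n hn => h1 n ?_, fun n hn => h2 n ?_⟩
    · have := Int.self_le_toNat n₀
      omega
    · have := Int.self_le_toNat n₀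
      omega
  choose m hm1 hm2 using hw
  let F : EC G → ℕ × List G × G × Multiplicative ℤ := fun w =>
    (m w, (List.range (2 * m w + 1)).map (fun i : ℕ => w.1.1.s ((i : ℤ) - m w)), w.1.2.1, w.1.2.2)
  have hF : Function.Injective F := by
    intro w v h
    obtain ⟨h1, h2, h3, h4⟩ : m w = m v ∧
        (List.range (2 * m w + 1)).map (fun i : ℕ => w.1.1.s ((i : ℤ) - m w)) =
        (List.range (2 * m v + 1)).map (fun i : ℕ => v.1.1.s ((i : ℤ) - m v)) ∧
        w.1.2.1 = v.1.2.1 ∧ w.1.2.2 = v.1.2.2 := by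
      have e1 := congrArg (fun z => z.1) h
      have e2 := congrArg (fun z => z.2.1) h
      have e3 := congrArg (fun z => z.2.2.1) h
      have e4 := congrArg (fun z => z.2.2.2) h
      exact ⟨e1, e2, e3, e4⟩
    rw [← h1] at h2
    apply Subtype.ext
    refine Prod.ext ?_ (Prod.ext h3 h4)
    apply Wr.ext
    · funext n
      by_cases hn : (m w : ℤ) ≤ n
      · rw [hm1 w n hn, hm1 v n (by rw [← h1]; exact hn), h3]
      · by_cases hn' : n ≤ -(m w : ℤ)
        · rw [hm2 w n hn', hm2 v n (by rw [← h1]; exact hn')]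
        · have h0 : (0 : ℤ) ≤ n + (m w : ℤ) := by omega
          obtain ⟨i, hi⟩ := Int.eq_ofNat_of_zero_le h0
          have h5 := List.map_inj_left.1 h2 i
            (List.mem_range.2 (show i < 2 * m w + 1 by omega))
          have h6 : (i : ℤ) - m w = n := by omega
          rw [h6] at h5
          exact h5
    · rw [w.2.1, v.2.1, h4]
  exact hF.countable

end step

variable {C : ∀ (G : Type) [Group G], Prop}

/-- **embedding in binate groups** -/
theorem binate_embed (hC : ClosedE C) (G : Type) [Group G] (hG : C G) :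
    ∃ (B : Type) (_ : Group B) (i : G →* B), Function.Injective i ∧ C B ∧ Binate B ∧
      (TorsionFree G → TorsionFree B) ∧ (Countable G → Countable B) := by
  classical
  obtain ⟨L, iL, T, iT, ι, e, i, hi, hPr, hSt, he, heι, hs, hlim⟩ := tower
    (fun K _ => C K ∧ (TorsionFree G → TorsionFree K) ∧ (Countable G → Countable K))
    (fun K K' _ _ f => ∃ (φ : K →* K') (u : K'), ∀ h, f h = u * φ h * u⁻¹ * (φ h)⁻¹)
    (by
      intro K _ hK
      refine ⟨EC K, inferInstance, at0 K, at0_inj K, ⟨ec_mem hC K hK.1,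
        fun h => ec_tf (hK.2.1 h), fun h => ?_⟩, stp K, shi K, at0_eq K⟩
      have := hK.2.2 h
      exact ec_countable K) G ⟨hG, fun h => h, fun h => h⟩
  refine ⟨L, iL, (e 0).comp i, (he 0).comp hi, hlim C hC.base fun n => (hPr n).1, ?_,
    fun h => tf_lim e he hs fun n => (hPr n).2.1 h,
    fun h => countable_lim e hs fun n => (hPr n).2.2 h⟩
  intro H hH
  -- `H` is contained in the image of a term
  have hmono : ∀ n, (e n).range ≤ (e (n + 1)).range := by
    rintro n _ ⟨x, rfl⟩
    exact ⟨ι n x, heι n x⟩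
  have hmono' : Monotone (fun n => (e n).range) := monotone_nat_of_le_succ hmono
  obtain ⟨S, hS⟩ := hH
  obtain ⟨n, hn⟩ : ∃ n, (S : Set L) ⊆ (e n).range := by
    clear hS
    induction S using Finset.induction_on with
    | empty => exact ⟨0, by simp⟩
    | insert a S _ ih =>
      obtain ⟨n, hn⟩ := ih
      obtain ⟨m, x, hx⟩ := hs a
      refine ⟨max n m, ?_⟩
      rw [Finset.coe_insert, Set.insert_subset_iff]
      exact ⟨hmono' (le_max_right n m) ⟨x, hx⟩, hn.trans (hmono' (le_max_left n m))⟩
  have hHn : H ≤ (e n).range := by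
    rw [← hS, Subgroup.closure_le]
    exact hn
  obtain ⟨φ, u, hφ⟩ := hSt n
  let ψ : H →* T n := ((MonoidHom.ofInjective (he n)).symm.toMonoidHom).comp
    (Subgroup.inclusion hHn)
  have hψ : ∀ h : H, e n (ψ h) = h := by
    intro h
    have h1 := (MonoidHom.ofInjective (he n)).apply_symm_apply (Subgroup.inclusion hHn h)
    exact congrArg Subtype.val h1
  refine ⟨(e (n + 1)).comp (φ.comp ψ), e (n + 1) u, fun h => ?_⟩
  have h2 := heι n (ψ h)
  rw [hψ] at h2
  rw [← h2, hφ]
  simp only [map_mul, map_inv, MonoidHom.comp_apply]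

end Q182.Tow
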