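import Pool.Agent.Q182.TowRoot

/-!
# Embeddings in divisible binate groups
-/

set_option autoImplicit false

namespace Q182.Tow

open Pool.Agent.Y110.FJ
open Pool.Agent.Y462.SS (Closed Wr)
open Q30.FJ

/-! ### towers with a fixed subgroup -/

/-- a group with a property and a homomorphism from `K` -/
structure Bk (K : Type) [Group K] (Pr : ∀ (G : Type) [Group G], Prop) where
  G : Type
  grp : Group G
  f : K →* G
  pr : Pr G

instance {K : Type} [Group K] {Pr : ∀ (G : Type) [Group G], Prop} (b : Bk K Pr) : Group b.G := b.grp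

/-- iterates -/
def itK {K : Type} [Group K] {Pr : ∀ (G : Type) [Group G], Prop} (s : ℕ → Bk K Pr → Bk K Pr)
    (b : Bk K Pr) : ℕ → Bk K Pr
  | 0 => b
  | n + 1 => s n (itK s b n)

theorem indexed_tower (K : Type) [Group K] (Pr : ∀ (G : Type) [Group G], Prop)
    (St : ℕ → ∀ (G G' : Type) [Group G] [Group G'], (K →* G) → (G →* G') → Prop)
    (hstep : ∀ (j : ℕ) (G : Type) [Group G] (f : K →* G), Pr G →
      ∃ (G' : Type) (_ : Group G') (i : G →* G'), Function.Injective i ∧ Pr G' ∧ St j G G' f i)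
    (hK : Pr K) :
    ∃ (L : Type) (_ : Group L) (T : ℕ → Type) (_ : ∀ n, Group (T n)) (f : ∀ n, K →* T n)
      (ι : ∀ n, T n →* T (n + 1)) (e : ∀ n, T n →* L),
      Function.Injective (f 0) ∧ (∀ n, f (n + 1) = (ι n).comp (f n)) ∧
      (∀ n, Pr (T n)) ∧ (∀ n, St n _ _ (f n) (ι n)) ∧
      (∀ n, Function.Injective (e n)) ∧ (∀ n x, e (n + 1) (ι n x) = e n x) ∧
      (∀ y, ∃ n x, e n x = y) ∧
      ∀ C : ∀ (G : Type) [Group G], Prop, Closed C → (∀ n, C (T n)) → C L := by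
  have hs : ∀ (j : ℕ) (b : Bk K Pr), ∃ (b' : Bk K Pr) (i : b.G →* b'.G),
      Function.Injective i ∧ b'.f = i.comp b.f ∧ St j b.G b'.G b.f i := by
    intro j b
    obtain ⟨G', iG', i, h1, h2, h3⟩ := hstep j b.G b.f b.pr
    exact ⟨⟨G', iG', i.comp b.f, h2⟩, i, h1, rfl, h3⟩
  choose s i hi using hs
  let b₀ : Bk K Pr := ⟨K, inferInstance, MonoidHom.id K, hK⟩
  obtain ⟨L, iL, e, h1, h2, h3, h4⟩ := lim_exists (fun n => (itK s b₀ n).G)
    (fun n => i n (itK s b₀ n)) (fun n => (hi n (itK s b₀ n)).1)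
  exact ⟨L, iL, fun n => (itK s b₀ n).G, fun n => inferInstance, fun n => (itK s b₀ n).f,
    fun n => i n (itK s b₀ n), e, Function.injective_id,
    fun n => (hi n (itK s b₀ n)).2.1,
    fun n => (itK s b₀ n).pr, fun n => (hi n (itK s b₀ n)).2.2, h1, h2, h3, h4⟩

/-! ### roots of all elements -/

theorem root_level {C : ∀ (G : Type) [Group G], Prop} (hC : ClosedE C) (K : Type) [Group K]
    (hK : C K ∧ TorsionFree K ∧ Countable K) :
    ∃ (L : Type) (_ : Group L) (i : K →* L), Function.Injective i ∧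
      (C L ∧ TorsionFree L ∧ Countable L) ∧ ∀ (g : K) (n : ℕ), 0 < n → ∃ h : L, h ^ n = i g := by
  have := hK.2.2
  obtain ⟨q, hq⟩ := exists_surjective_nat (K × ℕ)
  obtain ⟨L, iL, T, iT, f, ι, e, hf0, hfs, hPr, hSt, he, heι, hs, hlim⟩ := indexed_tower K
    (fun G _ => C G ∧ TorsionFree G ∧ Countable G)
    (fun j G G' _ _ f i => ∃ h : G', h ^ ((q j).2 + 1) = i (f (q j).1))
    (by
      intro j G _ f hG
      obtain ⟨G', iG', i, h1, h2, h3, h4, h5⟩ := root_step hC hG.1 hG.2.1 (f (q j).1)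
        ((q j).2 + 1) (Nat.succ_pos _)
      exact ⟨G', iG', i, h1, ⟨h2, h3, h4 hG.2.2⟩, h5⟩) hK
  have hfe : ∀ n (x : K), e n (f n x) = e 0 (f 0 x) := by
    intro n x
    induction n with
    | zero => rfl
    | succ n ih => rw [hfs, MonoidHom.comp_apply, heι, ih]
  refine ⟨L, iL, (e 0).comp (f 0), (he 0).comp hf0, ⟨hlim C hC.base fun n => (hPr n).1,
    tf_lim e he hs fun n => (hPr n).2.1, countable_lim e hs fun n => (hPr n).2.2⟩, ?_⟩
  intro g n hn
  obtain ⟨j, hj⟩ := hq (g, n - 1)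
  obtain ⟨h, hh⟩ := hSt j
  rw [hj] at hh
  refine ⟨e (j + 1) h, ?_⟩
  rw [← map_pow]
  have h1 : n - 1 + 1 = n := by omega
  have hh' : h ^ n = ι j (f j g) := by
    rw [← h1]
    exact hh
  rw [hh', heι, hfe]
  rfl

/-! ### the limit is binate -/

theorem binate_lim {L : Type} [Group L] {T : ℕ → Type} [∀ n, Group (T n)]
    (ι : ∀ n, T n →* T (n + 1)) (e : ∀ n, T n →* L)
    (he : ∀ n, Function.Injective (e n)) (heι : ∀ n x, e (n + 1) (ι n x) = e n x)
    (hs : ∀ y, ∃ n x, e n x = y)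
    (hSt : ∀ n, ∃ (φ : T n →* T (n + 1)) (u : T (n + 1)), ∀ h, ι n h = u * φ h * u⁻¹ * (φ h)⁻¹) :
    Binate L := by
  classical
  intro H hH
  have hmono : ∀ n, (e n).range ≤ (e (n + 1)).range := by
    rintro n _ ⟨x, rfl⟩
    exact ⟨ι n x, heι n x⟩
  have hmono' : Monotone (fun n => (e n).range) := monotone_nat_of_le_succ hmono
  obtain ⟨S, hS⟩ := hH
  obtain ⟨n, hn⟩ : ∃ n, (S : Set L) ⊆ (e n).range := by
    clear hS
    induction S using Finset.induction_on with
    | empty => exact ⟨0, by simp⟩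
    | insert a S _ ih =>
      obtain ⟨n, hn⟩ := ih
      obtain ⟨m, x, hx⟩ := hs a
      refine ⟨max n m, ?_⟩
      rw [Finset.coe_insert, Set.insert_subset_iff]
      exact ⟨hmono' (le_max_right n m) ⟨x, hx⟩, hn.trans (hmono' (le_max_left n m))⟩
  have hHn : H ≤ (e n).range := by
    rw [← hS, Subgroup.closure_le]
    exact hn
  obtain ⟨φ, u, hφ⟩ := hSt n
  let ψ : H →* T n := ((MonoidHom.ofInjective (he n)).symm.toMonoidHom).comp
    (Subgroup.inclusion hHn)
  have hψ : ∀ h : H, e n (ψ h) = h := by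
    intro h
    have h1 := (MonoidHom.ofInjective (he n)).apply_symm_apply (Subgroup.inclusion hHn h)
    exact congrArg Subtype.val h1
  refine ⟨(e (n + 1)).comp (φ.comp ψ), e (n + 1) u, fun h => ?_⟩
  have h2 := heι n (ψ h)
  rw [hψ] at h2
  rw [← h2, hφ]
  simp only [map_mul, map_inv, MonoidHom.comp_apply]

/-- **embedding in divisible binate groups** -/
theorem divisible_embed {C : ∀ (G : Type) [Group G], Prop} (hC : ClosedE C) (G : Type) [Group G]
    [Countable G] (htf : TorsionFree G) (hG : C G) :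
    ∃ (D : Type) (_ : Group D) (i : G →* D), Function.Injective i ∧ C D ∧ TorsionFree D ∧
      Countable D ∧ (∀ (g : D) (n : ℕ), 0 < n → ∃ h : D, h ^ n = g) ∧ Binate D := by
  obtain ⟨L, iL, T, iT, ι, e, i, hi, hPr, hSt, he, heι, hs, hlim⟩ := tower
    (fun K _ => C K ∧ TorsionFree K ∧ Countable K)
    (fun K K' _ _ f => (∀ (g : K) (n : ℕ), 0 < n → ∃ h : K', h ^ n = f g) ∧
      ∃ (φ : K →* K') (u : K'), ∀ h, f h = u * φ h * u⁻¹ * (φ h)⁻¹)
    (by
      intro K _ hK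
      obtain ⟨K', iK', j, hj, ⟨h1, h2, h3⟩, h4⟩ := root_level hC K hK
      refine ⟨EC K', inferInstance, (at0 K').comp j, (at0_inj K').comp hj,
        ⟨ec_mem hC K' h1, ec_tf h2, ec_countable K'⟩, ?_, (stp K').comp j, shi K',
        fun h => at0_eq K' (j h)⟩
      intro g n hn
      obtain ⟨h, hh⟩ := h4 g n hn
      exact ⟨at0 K' h, by rw [← map_pow, hh]; rfl⟩) G ⟨hG, htf, inferInstance⟩
  refine ⟨L, iL, (e 0).comp i, (he 0).comp hi, hlim C hC.base fun n => (hPr n).1,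
    tf_lim e he hs fun n => (hPr n).2.1, countable_lim e hs fun n => (hPr n).2.2, ?_,
    binate_lim ι e he heι hs fun n => (hSt n).2⟩
  intro g n hn
  obtain ⟨m, x, rfl⟩ := hs g
  obtain ⟨h, hh⟩ := (hSt m).1 x n hn
  exact ⟨e (m + 1) h, by rw [← map_pow, hh, heι]⟩

end Q182.Tow
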