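import Pool.Agent.Q182.TowBin
import Pool.Agent.Y43.CH.Syll
import Pool.Agent.Y812.SS.Wr

/-!
# Adjoining roots
-/

set_option autoImplicit false

namespace Q182.Tow

open Pool.Agent.Y110.FJ
open Pool.Agent.Y462.SS (Closed Wr)
open Q30.FJ
open Monoid

section amalg

variable {E : Type} [Group E] {G : Bool → Type} [∀ b, Group (G b)] (φ : ∀ b, E →* G b)

theorem push_amg :
    Amg (PushoutI.of (φ := φ) false).range (PushoutI.of (φ := φ) true).range
      (PushoutI.base φ).range where
  le_left := by
    rintro _ ⟨x, rfl⟩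
    exact ⟨φ false x, PushoutI.of_apply_eq_base φ false x⟩
  le_right := by
    rintro _ ⟨x, rfl⟩
    exact ⟨φ true x, PushoutI.of_apply_eq_base φ true x⟩
  gen := by
    rw [eq_top_iff]
    intro x _
    induction x using PushoutI.induction_on with
    | of i g =>
      cases i
      · exact Subgroup.mem_sup_left ⟨g, rfl⟩
      · exact Subgroup.mem_sup_right ⟨g, rfl⟩
    | base h =>
      rw [← PushoutI.of_apply_eq_base φ false h]
      exact Subgroup.mem_sup_left ⟨_, rfl⟩
    | mul x y hx hy => exact mul_mem (hx trivial) (hy trivial)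
  univ := by
    intro H _ f g hfg
    have h1 : ∀ b : Bool, (PushoutI.of (φ := φ) b).range =
        (PushoutI.of (φ := φ) b).range := fun _ => rfl
    let F : ∀ b : Bool, G b →* H := fun b =>
      match b with
      | false => f.comp (PushoutI.of (φ := φ) false).rangeRestrict
      | true => g.comp (PushoutI.of (φ := φ) true).rangeRestrict
    have hF : ∀ b, (F b).comp (φ b) = (F false).comp (φ false) := by
      intro b
      cases b
      · rfl
      · ext x
        have h2 := hfg (PushoutI.base φ x) ⟨x, rfl⟩
        show g _ = f _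
        have h3 : ((PushoutI.of (φ := φ) false).rangeRestrict (φ false x)) =
            (⟨PushoutI.base φ x, ⟨φ false x, PushoutI.of_apply_eq_base φ false x⟩⟩ :
              (PushoutI.of (φ := φ) false).range) :=
          Subtype.ext (PushoutI.of_apply_eq_base φ false x)
        have h4 : ((PushoutI.of (φ := φ) true).rangeRestrict (φ true x)) =
            (⟨PushoutI.base φ x, ⟨φ true x, PushoutI.of_apply_eq_base φ true x⟩⟩ :
              (PushoutI.of (φ := φ) true).range) :=
          Subtype.ext (PushoutI.of_apply_eq_base φ true x)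
        rw [h3, h4]
        exact h2.symm
    refine ⟨PushoutI.lift F ((F false).comp (φ false)) hF, ?_, ?_⟩
    · rintro ⟨_, x, rfl⟩
      show PushoutI.lift F _ hF (PushoutI.of false x) = _
      rw [PushoutI.lift_of]
      rfl
    · rintro ⟨_, x, rfl⟩
      show PushoutI.lift F _ hF (PushoutI.of true x) = _
      rw [PushoutI.lift_of]
      rfl

theorem push_countable [Countable (G false)] [Countable (G true)] : Countable (PushoutI φ) := by
  have h1 : ∀ b, Countable (G b) := by
    intro b
    cases b <;> assumption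
  have : Function.Surjective (Pool.Agent.Y43.CH.pr φ) := Pool.Agent.Y43.CH.exists_pr
  exact this.countable

theorem push_tf (hφ : ∀ b, Function.Injective (φ b)) (h : ∀ b, TorsionFree (G b)) :
    TorsionFree (PushoutI φ) := by
  intro z n hn hz
  obtain ⟨c, b, x, rfl, hx⟩ := Pool.Agent.Y43.CH.amalg_torsion hφ z n (by omega) hz
  rw [h b x n hn hx, map_one, mul_one, mul_inv_cancel]

theorem push_mem {C : ∀ (G : Type) [Group G], Prop} (hC : ClosedE C)
    {P : Type} [Group P] (hP : C P) (F : ∀ b, G b →* P)
    (hF : ∀ b, Function.Injective (F b)) (hFφ : ∀ x, F false (φ false x) = F true (φ true x)) :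
    C (PushoutI φ) := by
  have hF' : ∀ b, (F b).comp (φ b) = (F false).comp (φ false) := by
    intro b
    cases b
    · rfl
    · ext x
      exact (hFφ x).symm
  have hAM : S_AM := Pool.Agent.Y417.FJ.t_am (Pool.Agent.Y961.FJ.t_perm Pool.Agent.Y529.FJ.t_ext)
  refine hAM C hC (PushoutI φ) P _ _ _ (push_amg φ)
    (PushoutI.lift F ((F false).comp (φ false)) hF') ?_ ?_ hP
  · rintro _ ⟨x, rfl⟩ hx
    rw [PushoutI.lift_of] at hx
    rw [hF false (hx.trans (map_one _).symm), map_one]
  · rintro _ ⟨x, rfl⟩ hx
    rw [PushoutI.lift_of] at hx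
    rw [hF true (hx.trans (map_one _).symm), map_one]

end amalg

section root

variable {G : Type} [Group G]

/-- the diagonal -/
def dg (X G : Type) [Group G] : G →* Wr X G where
  toFun g := ⟨fun _ => g, 1⟩
  map_one' := rfl
  map_mul' _ _ := rfl

/-- the root of the diagonal element -/
def rt (n : ℕ) (g : G) : Wr (ZMod n) G :=
  ⟨fun x => if x = 0 then g else 1, Equiv.addRight 1⟩

theorem rt_pow_p (n : ℕ) (g : G) (k : ℕ) (x : ZMod n) : (rt n g ^ k).p x = x + k := by
  induction k with
  | zero => simp
  | succ k ih =>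
    rw [pow_succ', Wr.mul_p, Equiv.Perm.mul_apply, ih]
    show x + k + 1 = _
    push_cast
    ring

theorem rt_pow_s (n : ℕ) (g : G) (k : ℕ) (x : ZMod n) :
    (rt n g ^ k).s x = g ^ (∑ i ∈ Finset.range k, if x + (i : ZMod n) = 0 then 1 else 0) := by
  induction k with
  | zero => simp
  | succ k ih =>
    rw [pow_succ', Wr.mul_s, ih, rt_pow_p, Finset.sum_range_succ]
    show (if x + (k : ZMod n) = 0 then g else 1) * _ = _
    split_ifs
    · rw [pow_succ']
    · rw [one_mul, add_zero]

theorem rt_pow (n : ℕ) (hn : 0 < n) (g : G) : rt n g ^ n = dg (ZMod n) G g := by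
  have : NeZero n := ⟨by omega⟩
  apply Wr.ext
  · funext x
    rw [rt_pow_s]
    have h1 : (∑ i ∈ Finset.range n, if x + (i : ZMod n) = 0 then 1 else 0) = 1 := by
      rw [Finset.sum_eq_single ((-x).val)]
      · rw [ZMod.natCast_zmod_val, if_pos (add_neg_cancel x)]
      · intro i hi hne
        rw [if_neg]
        intro h2
        apply hne
        have h3 : (i : ZMod n) = -x := (neg_eq_of_add_eq_zero_right h2).symm
        rw [← h3, ZMod.val_natCast, Nat.mod_eq_of_lt (Finset.mem_range.1 hi)]
      · intro h2
        exact absurd (Finset.mem_range.2 (ZMod.val_lt (-x))) h2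
    rw [h1, pow_one]
    rfl
  · apply Equiv.ext
    intro x
    rw [rt_pow_p]
    show x + (n : ZMod n) = x
    rw [ZMod.natCast_self, add_zero]

/-- the groups of the amalgam -/
def RG (G : Type) : Bool → Type
  | false => G
  | true => Multiplicative ℤ

instance RG.grp (G : Type) [Group G] : ∀ b, Group (RG G b)
  | false => inferInstanceAs (Group G)
  | true => inferInstanceAs (Group (Multiplicative ℤ))

/-- the inclusions -/
def rφ (g : G) (n : ℕ) : ∀ b, Multiplicative ℤ →* RG G b
  | false => zpowersHom G g
  | true => zpowersHom (Multiplicative ℤ) (Multiplicative.ofAdd (n : ℤ))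

theorem zp_inj {H : Type} [Group H] (hH : TorsionFree H) (h : H) (hh : h ≠ 1) :
    Function.Injective (zpowersHom H h) := by
  rw [injective_iff_map_eq_one]
  intro x hx
  rw [zpowersHom_apply] at hx
  by_contra hne
  have h0 : x.toAdd ≠ 0 := fun h => hne (by rw [← ofAdd_toAdd x, h]; rfl)
  apply hh
  refine hH h x.toAdd.natAbs (Int.natAbs_pos.2 h0) ?_
  rcases Int.natAbs_eq x.toAdd with h1 | h1
  · rw [h1, zpow_natCast] at hx
    exact hx
  · rw [h1, zpow_neg, zpow_natCast, inv_eq_one] at hx
    exact hx

theorem int_tf : TorsionFree (Multiplicative ℤ) := by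
  intro x n hn hx
  have h1 : n * x.toAdd = 0 := by
    have h2 := congrArg Multiplicative.toAdd hx
    rw [toAdd_pow, toAdd_one] at h2
    simpa using h2
  rcases mul_eq_zero.1 h1 with h2 | h2
  · omega
  · rw [← ofAdd_toAdd x, h2]
    rfl

theorem root_step {C : ∀ (G : Type) [Group G], Prop} (hC : ClosedE C) (hG : C G)
    (htf : TorsionFree G) (g : G) (n : ℕ) (hn : 0 < n) :
    ∃ (G' : Type) (_ : Group G') (i : G →* G'), Function.Injective i ∧ C G' ∧ TorsionFree G' ∧
      (Countable G → Countable G') ∧ ∃ h : G', h ^ n = i g := by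
  by_cases hg : g = 1
  · refine ⟨G, inferInstance, MonoidHom.id G, Function.injective_id, hG, htf, fun h => h, 1, ?_⟩
    rw [hg, one_pow, map_one]
  have hφ : ∀ b, Function.Injective (rφ g n b) := by
    intro b
    cases b
    · exact zp_inj htf g hg
    · refine zp_inj int_tf _ ?_
      intro h1
      have h2 := congrArg Multiplicative.toAdd h1
      simp at h2
      omega
  have : NeZero n := ⟨by omega⟩
  have hP : C (Wr (ZMod n) G) := Pool.Agent.Y812.SS.t_wr C hC.base (ZMod n) G inferInstance hG
  let F : ∀ b, RG G b →* Wr (ZMod n) G := fun b =>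
    match b with
    | false => dg (ZMod n) G
    | true => zpowersHom (Wr (ZMod n) G) (rt n g)
  have hF0 : Function.Injective (dg (ZMod n) G) := by
    intro a b hab
    exact congrArg (fun w : Wr (ZMod n) G => w.s 0) hab
  have hF : ∀ b, Function.Injective (F b) := by
    intro b
    cases b
    · exact hF0
    · show Function.Injective (zpowersHom (Wr (ZMod n) G) (rt n g))
      rw [injective_iff_map_eq_one]
      intro x hx
      rw [zpowersHom_apply] at hx
      have h1 : dg (ZMod n) G (g ^ x.toAdd) = 1 := by
        rw [map_zpow, ← rt_pow n hn g, ← zpow_natCast, ← zpow_mul, mul_comm, zpow_mul, hx,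
          one_zpow]
      have h2 : g ^ x.toAdd = 1 := hF0 (h1.trans (map_one _).symm)
      exact zp_inj htf g hg (a₂ := 1) (by rw [zpowersHom_apply, h2, map_one])
  have hFφ : ∀ x, F false (rφ g n false x) = F true (rφ g n true x) := by
    intro x
    show dg (ZMod n) G (g ^ x.toAdd) =
      rt n g ^ ((Multiplicative.ofAdd (n : ℤ)) ^ x.toAdd).toAdd
    rw [map_zpow, ← rt_pow n hn g, toAdd_zpow, toAdd_ofAdd, smul_eq_mul, mul_comm, zpow_mul,
      zpow_natCast]
  have hof : Function.Injective (PushoutI.of (φ := rφ g n) false) :=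
    PushoutI.of_injective hφ false
  let u : Multiplicative ℤ →* PushoutI (rφ g n) := PushoutI.of (φ := rφ g n) true
  refine ⟨PushoutI (rφ g n), inferInstance, PushoutI.of (φ := rφ g n) false, hof,
    push_mem (rφ g n) hC hP F hF hFφ, push_tf (rφ g n) hφ ?_, ?_,
    u (Multiplicative.ofAdd (1 : ℤ)), ?_⟩
  · intro b
    cases b
    · exact htf
    · exact int_tf
  · intro hcount
    have h1 : Countable (RG G false) := hcount
    have h2 : Countable (RG G true) := inferInstanceAs (Countable ℤ)
    exact push_countable (rφ g n)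
  · have h1 := PushoutI.of_apply_eq_base (rφ g n) false (Multiplicative.ofAdd 1)
    have h2 : u (Multiplicative.ofAdd (n : ℤ) ^ (1 : ℤ)) =
        PushoutI.base (rφ g n) (Multiplicative.ofAdd 1) :=
      PushoutI.of_apply_eq_base (rφ g n) true (Multiplicative.ofAdd 1)
    have h3 : rφ g n false (Multiplicative.ofAdd 1) = g := by
      show g ^ (1 : ℤ) = g
      rw [zpow_one]
    rw [h3] at h1
    have h4 : (Multiplicative.ofAdd (n : ℤ)) = (Multiplicative.ofAdd (1 : ℤ)) ^ n := by
      rw [← ofAdd_nsmul]
      simp
    rw [zpow_one, h4, map_pow] at h2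
    exact h2.trans h1.symm

end root

end Q182.Tow
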