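import Pool.Agent.Q182.TrNor
import Pool.Agent.Q171.NF.Fac

/-!
# Automorphisms of `H * ⟨x⟩` which preserve the conjugacy class of `H`
-/

set_option autoImplicit false

namespace Q182.Tr

open Monoid
open Pool.Agent.Y110.FJ (ClosedE)
open Q171.NF (cj mem_cj cj_mul cj_one cj_self cj_inj mem_normalizer_iff_cj aut_conj)

section gen

/-- a subgroup such that the quotients of pairs of elements which are not in it are in it -/
theorem finiteIndex_of_pair {G : Type} [Group G] (S : Subgroup G)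
    (h : ∀ γ₁ γ₂ : G, γ₁ ∉ S → γ₂ ∉ S → γ₁⁻¹ * γ₂ ∈ S) : S.FiniteIndex := by
  have hq : Finite (G ⧸ S) := by
    refine Finite.of_injective (fun q : G ⧸ S => q = ((1 : G) : G ⧸ S)) ?_
    intro q₁ q₂ h'
    obtain ⟨γ₁, rfl⟩ := QuotientGroup.mk_surjective q₁
    obtain ⟨γ₂, rfl⟩ := QuotientGroup.mk_surjective q₂
    have hm : ∀ γ : G, ((γ : G ⧸ S) = ((1 : G) : G ⧸ S)) ↔ γ ∈ S := by
      intro γ
      rw [eq_comm, QuotientGroup.eq, inv_one, one_mul]
    have h'' : (γ₁ ∈ S) = (γ₂ ∈ S) := by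
      rw [← hm, ← hm]
      exact h'
    by_cases h1 : γ₁ ∈ S
    · have h2 : γ₂ ∈ S := h'' ▸ h1
      exact ((hm γ₁).2 h1).trans ((hm γ₂).2 h2).symm
    · have h2 : γ₂ ∉ S := fun h2 => h1 (h'' ▸ h2)
      exact QuotientGroup.eq.2 (h γ₁ γ₂ h1 h2)
  exact Subgroup.finiteIndex_of_finite_quotient

end gen

section aut

variable {H : Type} [Group H]

/-- the automorphisms of `H * ⟨x⟩` whose restriction to `H` is an element of `Q` followed by the
conjugation by an element of the free product -/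
def TA (Q : Subgroup (MulAut H)) : Subgroup (MulAut (Coprod H (Multiplicative ℤ))) where
  carrier := {φ | ∃ g : Coprod H (Multiplicative ℤ), ∃ ψ ∈ Q, ∀ h : H,
    φ (Coprod.inl h) = g * Coprod.inl (ψ h) * g⁻¹}
  one_mem' := ⟨1, 1, Q.one_mem, fun h => by simp⟩
  mul_mem' := by
    rintro φ φ' ⟨g, ψ, hψ, h⟩ ⟨g', ψ', hψ', h'⟩
    refine ⟨φ g' * g, ψ * ψ', Q.mul_mem hψ hψ', fun a => ?_⟩
    show φ (φ' (Coprod.inl a)) = φ g' * g * Coprod.inl (ψ (ψ' a)) * (φ g' * g)⁻¹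
    rw [h', map_mul, map_mul, map_inv, h]
    group
  inv_mem' := by
    rintro φ ⟨g, ψ, hψ, h⟩
    refine ⟨(φ⁻¹ g)⁻¹, ψ⁻¹, Q.inv_mem hψ, fun a => ?_⟩
    apply φ.injective
    have h1 : φ (φ⁻¹ (Coprod.inl a)) = Coprod.inl a := MulAut.apply_inv_self _ _ _
    have h2 : φ (φ⁻¹ g) = g := MulAut.apply_inv_self _ _ _
    have h3 : ψ (ψ⁻¹ a) = a := MulAut.apply_inv_self _ _ _
    rw [h1, map_mul, map_mul, map_inv, map_inv, map_inv, h2, h, h3]
    group

/-- the automorphisms of `H * ⟨x⟩` which restrict to elements of `Q` -/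
def NQ (Q : Subgroup (MulAut H)) : Subgroup (MulAut (Coprod H (Multiplicative ℤ))) where
  carrier := {φ | ∃ ψ ∈ Q, ∀ h : H, φ (Coprod.inl h) = Coprod.inl (ψ h)}
  one_mem' := ⟨1, Q.one_mem, fun h => by simp⟩
  mul_mem' := by
    rintro φ φ' ⟨ψ, hψ, h⟩ ⟨ψ', hψ', h'⟩
    refine ⟨ψ * ψ', Q.mul_mem hψ hψ', fun a => ?_⟩
    show φ (φ' (Coprod.inl a)) = Coprod.inl (ψ (ψ' a))
    rw [h', h]
  inv_mem' := by
    rintro φ ⟨ψ, hψ, h⟩
    refine ⟨ψ⁻¹, Q.inv_mem hψ, fun a => ?_⟩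
    apply φ.injective
    rw [MulAut.apply_inv_self, h, MulAut.apply_inv_self]

/-- the automorphisms in `NQ Q` which map `x` into `H x H` -/
def NP (Q : Subgroup (MulAut H)) : Subgroup (MulAut (Coprod H (Multiplicative ℤ))) where
  carrier := {φ | (∃ ψ ∈ Q, ∀ h : H, φ (Coprod.inl h) = Coprod.inl (ψ h)) ∧
    ∃ a b : H, φ (xx H) = Coprod.inl a * xx H * Coprod.inl b}
  one_mem' := ⟨⟨1, Q.one_mem, fun h => by simp⟩, 1, 1, by simp⟩
  mul_mem' := by
    rintro φ φ' ⟨⟨ψ, hψ, h⟩, a, b, hab⟩ ⟨⟨ψ', hψ', h'⟩, a', b', hab'⟩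
    refine ⟨⟨ψ * ψ', Q.mul_mem hψ hψ', fun a => ?_⟩, ψ a' * a, b * ψ b', ?_⟩
    · show φ (φ' (Coprod.inl a)) = Coprod.inl (ψ (ψ' a))
      rw [h', h]
    · show φ (φ' (xx H)) = _
      rw [hab', map_mul, map_mul, h, h, hab, map_mul, map_mul]
      group
  inv_mem' := by
    rintro φ ⟨⟨ψ, hψ, h⟩, a, b, hab⟩
    refine ⟨⟨ψ⁻¹, Q.inv_mem hψ, fun a => ?_⟩, ψ⁻¹ a⁻¹, ψ⁻¹ b⁻¹, ?_⟩
    · apply φ.injective
      rw [MulAut.apply_inv_self, h, MulAut.apply_inv_self]
    · apply φ.injective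
      rw [MulAut.apply_inv_self, map_mul, map_mul, h, h, MulAut.apply_inv_self,
        MulAut.apply_inv_self, hab, map_inv, map_inv]
      group

/-- uniqueness of the coordinates -/
theorem dc_inj {a b a' b' : H}
    (h : (Coprod.inl a * xx H * Coprod.inl b : Coprod H (Multiplicative ℤ)) =
      Coprod.inl a' * xx H * Coprod.inl b') : a = a' ∧ b = b' := by
  have hone : (Multiplicative.ofAdd (1 : ℤ)) ≠ 1 := by decide
  have h1 : (Coprod.inl (a'⁻¹ * a) * Coprod.inr (Multiplicative.ofAdd 1) :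
      Coprod H (Multiplicative ℤ)) =
      Coprod.inr (Multiplicative.ofAdd 1) * Coprod.inl (b' * b⁻¹) := by
    have h2 : (Coprod.inl (a'⁻¹ * a) * xx H : Coprod H (Multiplicative ℤ)) =
        (Coprod.inl a')⁻¹ * (Coprod.inl a * xx H * Coprod.inl b) * (Coprod.inl b)⁻¹ := by
      rw [map_mul, map_inv]
      group
    have h3 : (xx H * Coprod.inl (b' * b⁻¹) : Coprod H (Multiplicative ℤ)) =
        (Coprod.inl a')⁻¹ * (Coprod.inl a' * xx H * Coprod.inl b') * (Coprod.inl b)⁻¹ := by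
      rw [map_mul, map_inv]
      group
    show (Coprod.inl (a'⁻¹ * a) * xx H : Coprod H (Multiplicative ℤ)) = xx H * Coprod.inl (b' * b⁻¹)
    rw [h2, h3, h]
  obtain ⟨h4, h5⟩ := rel_triv hone h1
  exact ⟨(inv_mul_eq_one.1 h5).symm, (mul_inv_eq_one.1 h4).symm⟩

theorem NQ_dich {Q : Subgroup (MulAut H)} {φ : MulAut (Coprod H (Multiplicative ℤ))}
    (hφ : φ ∈ NQ Q) : ∃ a b : H, φ (xx H) = Coprod.inl a * xx H * Coprod.inl b ∨
      φ (xx H) = Coprod.inl a * (xx H)⁻¹ * Coprod.inl b := by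
  obtain ⟨ψ, -, h⟩ := hφ
  apply uniq
  intro g
  refine ⟨Coprod.map ψ.toMonoidHom (MonoidHom.id _) (φ⁻¹ g), ?_⟩
  have h1 : (Coprod.lift Coprod.inl (zpowersHom _ (φ (xx H)))).comp
      (Coprod.map ψ.toMonoidHom (MonoidHom.id _)) = φ.toMonoidHom := by
    apply ext_letter
    · intro a
      show Coprod.lift Coprod.inl (zpowersHom _ (φ (xx H)))
        (Coprod.map ψ.toMonoidHom (MonoidHom.id _) (Coprod.inl a)) = φ (Coprod.inl a)
      rw [Coprod.map_apply_inl, Coprod.lift_apply_inl, h]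
      rfl
    · show Coprod.lift Coprod.inl (zpowersHom _ (φ (xx H)))
        (Coprod.map ψ.toMonoidHom (MonoidHom.id _) (xx H)) = φ (xx H)
      simp [xx]
  have h2 := DFunLike.congr_fun h1 (φ⁻¹ g)
  refine h2.trans ?_
  show φ (φ⁻¹ g) = g
  exact MulAut.apply_inv_self _ _ _

theorem NP_fin (Q : Subgroup (MulAut H)) : ((NP Q).subgroupOf (NQ Q)).FiniteIndex := by
  apply finiteIndex_of_pair
  have key : ∀ φ : NQ Q, φ ∉ (NP Q).subgroupOf (NQ Q) →
      ∃ a b : H, φ.1 (xx H) = Coprod.inl a * (xx H)⁻¹ * Coprod.inl b := by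
    intro φ hφ
    obtain ⟨a, b, h | h⟩ := NQ_dich φ.2
    · exfalso
      apply hφ
      rw [Subgroup.mem_subgroupOf]
      exact ⟨φ.2, a, b, h⟩
    · exact ⟨a, b, h⟩
  intro φ₁ φ₂ h₁ h₂
  obtain ⟨a₁, b₁, h1⟩ := key φ₁ h₁
  obtain ⟨a₂, b₂, h2⟩ := key φ₂ h₂
  obtain ⟨ψ, hψ, h⟩ := φ₁.2
  have hinv : ∀ a : H, φ₁.1⁻¹ (Coprod.inl a) = Coprod.inl (ψ⁻¹ a) := by
    intro a
    apply φ₁.1.injective
    rw [MulAut.apply_inv_self, h, MulAut.apply_inv_self]
  have hxinv : φ₁.1⁻¹ (xx H)⁻¹ = Coprod.inl (ψ⁻¹ a₁⁻¹) * xx H * Coprod.inl (ψ⁻¹ b₁⁻¹) := by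
    apply φ₁.1.injective
    rw [MulAut.apply_inv_self, map_mul, map_mul, h, h, MulAut.apply_inv_self,
      MulAut.apply_inv_self, h1, map_inv, map_inv]
    group
  rw [Subgroup.mem_subgroupOf]
  refine ⟨(φ₁⁻¹ * φ₂).2, ψ⁻¹ a₂ * ψ⁻¹ a₁⁻¹, ψ⁻¹ b₁⁻¹ * ψ⁻¹ b₂, ?_⟩
  show φ₁.1⁻¹ (φ₂.1 (xx H)) = _
  rw [h2, map_mul, map_mul, hxinv, hinv, hinv, map_mul, map_mul]
  simp only [mul_assoc]

theorem C_NP {C : ∀ (G : Type) [Group G], Prop} (hC : ClosedE C) (Q : Subgroup (MulAut H))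
    (h : C (H ⋊[Q.subtype] Q)) : C (NQ Q) := by
  refine hC.base.finiteIndex _ _ (NP_fin Q) ?_
  have hex : ∀ φ : (NP Q).subgroupOf (NQ Q), ∃ ψ : Q, ∃ a b : H,
      (∀ c : H, φ.1.1 (Coprod.inl c) = Coprod.inl (ψ.1 c)) ∧
      φ.1.1 (xx H) = Coprod.inl a * xx H * Coprod.inl b := by
    intro φ
    obtain ⟨⟨ψ, hψ, h1⟩, a, b, h2⟩ := Subgroup.mem_subgroupOf.1 φ.2
    exact ⟨⟨ψ, hψ⟩, a, b, h1, h2⟩
  choose ψ a b h1 h2 using hex
  have hψm : ∀ φ φ', ψ (φ * φ') = ψ φ * ψ φ' := by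
    intro φ φ'
    apply Subtype.ext
    ext c
    apply inl_inj (L := Multiplicative ℤ)
    rw [← h1]
    show φ.1.1 (φ'.1.1 (Coprod.inl c)) = Coprod.inl ((ψ φ).1 ((ψ φ').1 c))
    rw [h1, h1]
  have hab : ∀ φ φ', (ψ φ).1 (a φ') * a φ = a (φ * φ') ∧ b φ * (ψ φ).1 (b φ') = b (φ * φ') := by
    intro φ φ'
    apply dc_inj
    rw [← h2]
    show _ = φ.1.1 (φ'.1.1 (xx H))
    rw [h2 φ', map_mul, map_mul, map_mul, map_mul, h1, h1, h2]
    simp only [mul_assoc]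
  let F : (NP Q).subgroupOf (NQ Q) →* (H ⋊[Q.subtype] Q) × (H ⋊[Q.subtype] Q) :=
    MonoidHom.mk' (fun φ => (⟨(a φ)⁻¹, ψ φ⟩, ⟨b φ, ψ φ⟩)) (by
      intro φ φ'
      refine Prod.ext ?_ ?_
      · apply SemidirectProduct.ext
        · show (a (φ * φ'))⁻¹ = (a φ)⁻¹ * (ψ φ).1 (a φ')⁻¹
          rw [← (hab φ φ').1, mul_inv_rev, map_inv]
        · exact hψm φ φ'
      · apply SemidirectProduct.ext
        · show b (φ * φ') = b φ * (ψ φ).1 (b φ')
          exact ((hab φ φ').2).symm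
        · exact hψm φ φ')
  refine hC.base.of_injective _ _ F ?_ (hC.base.prod _ _ h h)
  intro φ φ' hh
  have e1 : (a φ)⁻¹ = (a φ')⁻¹ := congrArg (fun p => p.1.left) hh
  have e2 : b φ = b φ' := congrArg (fun p => p.2.left) hh
  have e3 : ψ φ = ψ φ' := congrArg (fun p => p.2.right) hh
  apply Subtype.ext
  apply Subtype.ext
  apply MulEquiv.toMonoidHom_injective
  apply ext_letter
  · intro c
    show φ.1.1 (Coprod.inl c) = φ'.1.1 (Coprod.inl c)
    rw [h1, h1, e3]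
  · show φ.1.1 (xx H) = φ'.1.1 (xx H)
    rw [h2, h2, inv_injective e1, e2]

variable {Q : Subgroup (MulAut H)}

theorem conj_mem_TA (p : Coprod H (Multiplicative ℤ)) : MulAut.conj p ∈ TA Q :=
  ⟨p, 1, Q.one_mem, fun h => by simp⟩

/-- the inner automorphisms -/
def ia (Q : Subgroup (MulAut H)) : Coprod H (Multiplicative ℤ) →* TA Q :=
  MulAut.conj.codRestrict _ conj_mem_TA

theorem ia_val (p : Coprod H (Multiplicative ℤ)) : (ia Q p).1 = MulAut.conj p := rfl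

theorem ia_inj [Nontrivial H] : Function.Injective (ia Q) := by
  intro p q h
  exact Q171.NF.conj_inj (congrArg Subtype.val h)

theorem ia_conj (φ : TA Q) (p : Coprod H (Multiplicative ℤ)) :
    φ * ia Q p * φ⁻¹ = ia Q (φ.1 p) := by
  apply Subtype.ext
  show φ.1 * MulAut.conj p * φ.1⁻¹ = MulAut.conj (φ.1 p)
  rw [aut_conj, mul_inv_cancel_right]

/-- the inner automorphisms given by elements of `H` -/
def AA (Q : Subgroup (MulAut H)) : Subgroup (TA Q) :=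
  ((ia Q).comp (Coprod.inl : H →* Coprod H (Multiplicative ℤ))).range

theorem io_AA : ∃ e : Coprod H (Multiplicative ℤ) →* Coprod (AA Q) (Multiplicative ℤ),
    (io (AA Q) (ia Q (xx H))).comp e = ia Q ∧ ∀ z, ∃ w, e w = z := by
  refine ⟨Coprod.map ((ia Q).comp Coprod.inl).rangeRestrict (MonoidHom.id _), ?_, ?_⟩
  · apply ext_letter
    · intro h
      show io (AA Q) (ia Q (xx H)) (Coprod.map ((ia Q).comp Coprod.inl).rangeRestrict
        (MonoidHom.id _) (Coprod.inl h)) = ia Q (Coprod.inl h)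
      rw [Coprod.map_apply_inl]
      exact io_inl (A := AA Q) _
    · show io (AA Q) (ia Q (xx H)) (Coprod.map ((ia Q).comp Coprod.inl).rangeRestrict
        (MonoidHom.id _) (Coprod.inr (Multiplicative.ofAdd 1))) = ia Q (xx H)
      rw [Coprod.map_apply_inr]
      exact io_xx (A := AA Q)
  · intro z
    induction z using Coprod.induction_on with
    | inl a =>
      obtain ⟨_, a, rfl⟩ := a
      exact ⟨Coprod.inl a, rfl⟩
    | inr b => exact ⟨Coprod.inr b, rfl⟩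
    | mul s t hs ht =>
      obtain ⟨s, rfl⟩ := hs
      obtain ⟨t, rfl⟩ := ht
      exact ⟨s * t, map_mul _ _ _⟩

theorem io_AA_inj [Nontrivial H] : Function.Injective (io (AA Q) (ia Q (xx H))) := by
  obtain ⟨e, h1, h2⟩ := io_AA (Q := Q)
  rw [injective_iff_map_eq_one]
  intro z hz
  obtain ⟨w, rfl⟩ := h2 z
  have h3 : ia Q w = 1 := by
    rw [← h1]
    exact hz
  rw [ia_inj (h3.trans (map_one _).symm), map_one]

theorem io_AA_range : (io (AA Q) (ia Q (xx H))).range = (ia Q).range := by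
  obtain ⟨e, h1, h2⟩ := io_AA (Q := Q)
  apply le_antisymm
  · rintro _ ⟨z, rfl⟩
    obtain ⟨w, rfl⟩ := h2 z
    exact ⟨w, (DFunLike.congr_fun h1 w).symm⟩
  · rintro _ ⟨w, rfl⟩
    exact ⟨e w, DFunLike.congr_fun h1 w⟩

theorem mem_AA {p : Coprod H (Multiplicative ℤ)} [Nontrivial H] :
    ia Q p ∈ AA Q ↔ p ∈ Q171.NF.A0 H (Multiplicative ℤ) := by
  constructor
  · rintro ⟨a, ha⟩
    exact ⟨a, ia_inj ha⟩
  · rintro ⟨a, rfl⟩
    exact ⟨a, rfl⟩

theorem cj_AA [Nontrivial H] {φ : TA Q} {ψ : MulAut H}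
    (h : ∀ a : H, φ.1 (Coprod.inl a) = Coprod.inl (ψ a)) : cj φ (AA Q) = AA Q := by
  apply le_antisymm
  · rintro _ ⟨_, ⟨a, rfl⟩, rfl⟩
    refine ⟨ψ a, ?_⟩
    show ia Q (Coprod.inl (ψ a)) = φ * ia Q (Coprod.inl a) * φ⁻¹
    rw [ia_conj, h]
  · rintro _ ⟨a, rfl⟩
    refine ⟨_, ⟨ψ⁻¹ a, rfl⟩, ?_⟩
    show φ * ia Q (Coprod.inl (ψ⁻¹ a)) * φ⁻¹ = ia Q (Coprod.inl a)
    rw [ia_conj, h, MulAut.apply_inv_self]

theorem AA_norm [Nontrivial H] (hQ : ∀ h : H, MulAut.conj h ∈ Q) {φ : TA Q}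
    (h : cj φ (AA Q) = AA Q) : φ.1 ∈ NQ Q := by
  obtain ⟨g, ψ, hψ, hg⟩ := φ.2
  have h1 : cj g (Q171.NF.A0 H (Multiplicative ℤ)) = Q171.NF.A0 H (Multiplicative ℤ) := by
    apply le_antisymm
    · rintro _ ⟨_, ⟨a, rfl⟩, rfl⟩
      show g * Coprod.inl a * g⁻¹ ∈ _
      rw [← mem_AA (Q := Q), ← h, mem_cj]
      refine ⟨ψ⁻¹ a, ?_⟩
      have h2 := ia_conj φ (Coprod.inl (ψ⁻¹ a))
      rw [hg, MulAut.apply_inv_self] at h2
      rw [← h2]
      show ia Q (Coprod.inl (ψ⁻¹ a)) = _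
      group
    · rintro _ ⟨a, rfl⟩
      rw [mem_cj]
      have h2 : ia Q (Coprod.inl a) ∈ cj φ (AA Q) := by
        rw [h]
        exact ⟨a, rfl⟩
      rw [mem_cj] at h2
      obtain ⟨b, hb⟩ := h2
      have h3 : ia Q (φ.1 (Coprod.inl b)) = ia Q (Coprod.inl a) := by
        rw [← ia_conj]
        have h4 : ia Q (Coprod.inl b) = φ⁻¹ * ia Q (Coprod.inl a) * φ := hb
        rw [h4]
        group
      have h5 := ia_inj h3
      rw [hg] at h5
      refine ⟨ψ b, ?_⟩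
      rw [← h5]
      group
  obtain ⟨a, rfl⟩ := Q171.NF.normA h1
  refine ⟨MulAut.conj a * ψ, Q.mul_mem (hQ a) hψ, fun c => ?_⟩
  rw [hg, ← map_inv, ← map_mul, ← map_mul]
  rfl

/-- **automorphisms of `H * ⟨x⟩` which preserve the class of `H`** -/
theorem main_TA {C : ∀ (G : Type) [Group G], Prop} (hC : ClosedE C) [Nontrivial H]
    (hQ : ∀ h : H, MulAut.conj h ∈ Q) : C (TA Q) ↔ C (H ⋊[Q.subtype] Q) := by
  constructor
  · intro h
    let K : H ⋊[Q.subtype] Q →* Q171.NF.Hol H :=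
      SemidirectProduct.map (MonoidHom.id H) Q.subtype (fun _ => rfl)
    have hK : Function.Injective K := by
      intro p q hpq
      have h1 : p.left = q.left := congrArg (fun z : Q171.NF.Hol H => z.left) hpq
      have h2 : (p.right : MulAut H) = q.right := congrArg (fun z : Q171.NF.Hol H => z.right) hpq
      exact SemidirectProduct.ext h1 (Subtype.ext h2)
    let J : H ⋊[Q.subtype] Q →* MulAut (Coprod H (Multiplicative ℤ)) :=
      (Q171.NF.JA.comp (MonoidHom.inl (Q171.NF.Hol H) (MulAut (Multiplicative ℤ)))).comp K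
    have hJ : ∀ p, J p ∈ TA Q := by
      intro p
      refine ⟨Coprod.inl p.left, p.right.1, p.right.2, fun a => ?_⟩
      rfl
    refine hC.base.of_injective _ _ (J.codRestrict _ hJ) ?_ h
    intro p q hpq
    have h1 : J p = J q := congrArg Subtype.val hpq
    have h2 := Q171.NF.JA_inj h1
    exact hK (congrArg Prod.fst h2)
  · intro h
    have hN : (io (AA Q) (ia Q (xx H))).range.Normal := by
      rw [io_AA_range]
      constructor
      rintro _ ⟨p, rfl⟩ φ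
      exact ⟨φ.1 p, (ia_conj φ p).symm⟩
    refine (main1 hC io_AA_inj hN ?_ ?_).2 ?_
    · obtain ⟨a, ha⟩ := exists_ne (1 : H)
      rw [Subgroup.ne_bot_iff_exists_ne_one]
      refine ⟨⟨ia Q (Coprod.inl a), a, rfl⟩, fun h' => ha ?_⟩
      have h1 : ia Q (Coprod.inl a) = 1 := congrArg Subtype.val h'
      exact inl_inj (L := Multiplicative ℤ) ((ia_inj (h1.trans (map_one _).symm)).trans
        (map_one _).symm)
    · intro φ
      obtain ⟨g, ψ, hψ, hg⟩ := φ.2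
      refine ⟨ia Q g⁻¹, by rw [io_AA_range]; exact ⟨_, rfl⟩, cj_AA (ψ := ψ) fun a => ?_⟩
      show g⁻¹ * φ.1 (Coprod.inl a) * g⁻¹⁻¹ = _
      rw [hg]
      group
    · have hmem : ∀ φ : Subgroup.normalizer ((AA Q : Subgroup (TA Q)) : Set (TA Q)),
          φ.1.1 ∈ NQ Q := fun φ => AA_norm hQ (mem_normalizer_iff_cj.1 φ.2)
      refine hC.base.of_injective _ _ (((TA Q).subtype.comp (Subgroup.subtype _)).codRestrict
        (NQ Q) hmem) ?_ (C_NP hC Q h)
      intro φ φ' hh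
      apply Subtype.ext
      apply Subtype.ext
      exact congrArg (fun z : NQ Q => (z : MulAut (Coprod H (Multiplicative ℤ)))) hh

/-- the semidirect product of a centreless group and a group of automorphisms which contains the
inner automorphisms -/
theorem semi_iff {C : ∀ (G : Type) [Group G], Prop} (hC : ClosedE C) {P : Type} [Group P]
    (R : Subgroup (MulAut P)) (hR : ∀ p : P, MulAut.conj p ∈ R)
    (hP : Function.Injective (MulAut.conj : P →* MulAut P)) : C (P ⋊[R.subtype] R) ↔ C R := by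
  constructor
  · intro h
    exact hC.base.of_injective _ _ (SemidirectProduct.inr : R →* P ⋊[R.subtype] R)
      SemidirectProduct.inr_injective h
  · intro h
    let F : P ⋊[R.subtype] R →* R × R :=
      MonoidHom.mk' (fun p => (⟨MulAut.conj p.left, hR _⟩ * p.right, p.right)) (by
        intro p q
        refine Prod.ext ?_ rfl
        apply Subtype.ext
        show MulAut.conj (p.left * p.right.1 q.left) * (p.right.1 * q.right.1) =
          (MulAut.conj p.left * p.right.1) * (MulAut.conj q.left * q.right.1)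
        have h1 := aut_conj p.right.1 q.left
        rw [map_mul, mul_assoc (MulAut.conj p.left) p.right.1, ← mul_assoc p.right.1, h1]
        simp only [mul_assoc])
    refine hC.base.of_injective _ _ F ?_ (hC.base.prod _ _ h h)
    intro p q hpq
    have h1 : p.right = q.right := congrArg Prod.snd hpq
    have h2 : MulAut.conj p.left * p.right.1 = MulAut.conj q.left * q.right.1 :=
      congrArg (fun z => z.1.1) hpq
    rw [h1] at h2
    exact SemidirectProduct.ext (hP (mul_right_cancel h2)) h1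

end aut

end Q182.Tr
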