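import Pool.Agent.Q182.TrFac

/-!
# Triangular automorphisms of free products
-/

set_option autoImplicit false

namespace Q182.Tr

open Monoid
open Pool.Agent.Y110.FJ (ClosedE)
open Pool.Agent.Y462.SS (Closed)

variable {C : ∀ (G : Type) [Group G], Prop}

section model

variable (H L : Type) [Group H] [Group L]

open Classical in
/-- the action of `H` on `L × H` -/
noncomputable def pH : H →* Equiv.Perm (L × H) where
  toFun h :=
    { toFun := fun p => (p.1, if p.1 = 1 then h * p.2 else p.2)
      invFun := fun p => (p.1, if p.1 = 1 then h⁻¹ * p.2 else p.2)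
      left_inv := by
        rintro ⟨l, y⟩
        by_cases hl : l = 1 <;> simp [hl]
      right_inv := by
        rintro ⟨l, y⟩
        by_cases hl : l = 1 <;> simp [hl] }
  map_one' := by
    ext ⟨l, y⟩ <;> simp
  map_mul' a b := by
    ext ⟨l, y⟩
    · simp
    · by_cases hl : l = 1 <;> simp [hl, mul_assoc]

/-- the action of `L` on `L × H` -/
def pL : L →* Equiv.Perm (L × H) where
  toFun l :=
    { toFun := fun p => (l * p.1, p.2)
      invFun := fun p => (l⁻¹ * p.1, p.2)
      left_inv := by
        rintro ⟨l, y⟩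
        simp
      right_inv := by
        rintro ⟨l, y⟩
        simp }
  map_one' := by
    ext ⟨l, y⟩ <;> simp
  map_mul' a b := by
    ext ⟨l, y⟩ <;> simp [mul_assoc]

variable {H L}

theorem inl_inj {a b : H} (h : (Coprod.inl a : Coprod H L) = Coprod.inl b) : a = b := by
  have := congrArg (Coprod.fst (M := H) (N := L)) h
  simpa using this

theorem inr_inj {a b : L} (h : (Coprod.inr a : Coprod H L) = Coprod.inr b) : a = b := by
  have := congrArg (Coprod.snd (M := H) (N := L)) h
  simpa using this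

/-- the only relation `e m = m d` with `d`, `e` in `H` and `m ≠ 1` in `L` is the trivial one -/
theorem rel_triv {d e : H} {m : L} (hm : m ≠ 1)
    (h : (Coprod.inl e * Coprod.inr m : Coprod H L) = Coprod.inr m * Coprod.inl d) :
    d = 1 ∧ e = 1 := by
  have h1 := congrArg (Coprod.lift (pH H L) (pL H L)) h
  rw [map_mul, map_mul, Coprod.lift_apply_inl, Coprod.lift_apply_inl, Coprod.lift_apply_inr] at h1
  have h2 := congrArg (fun f : Equiv.Perm (L × H) => (f (1, 1)).2) h1
  have hd : d = 1 := by
    simpa [pH, pL, hm, eq_comm] using h2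
  refine ⟨hd, ?_⟩
  rw [hd, map_one, mul_one] at h
  exact inl_inj (L := L) ((mul_eq_right.1 h).trans (map_one _).symm)

end model

section semi

variable {H W : Type} [Group H] [Group W]

/-- pull back of the action of a group of automorphisms -/
theorem semi_of (hC : Closed C) {U : Subgroup (MulAut H)} (hU : C (H ⋊[U.subtype] U)) (hW : C W)
    (α : W →* MulAut H) (hα : ∀ w, α w ∈ U) : C (H ⋊[α] W) := by
  let f : H ⋊[α] W →* (H ⋊[U.subtype] U) × W :=
    (SemidirectProduct.map (MonoidHom.id H) (α.codRestrict U hα) (by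
      intro w
      ext h
      rfl)).prod SemidirectProduct.rightHom
  refine hC.of_injective _ _ f ?_ (hC.prod _ _ hU hW)
  intro x y hxy
  have h1 := congrArg (fun p : (H ⋊[U.subtype] U) × W => p.1.left) hxy
  have h2 := congrArg (fun p : (H ⋊[U.subtype] U) × W => p.2) hxy
  exact SemidirectProduct.ext h1 h2

variable {L : Type} [Group L]

/-- the homomorphism induced on the first factor -/
theorem exists_psi {U : Subgroup (MulAut H)} (γ : W →* MulAut (Coprod H L))
    (h : ∀ w, ∃ ψ ∈ U, ∀ x, γ w (Coprod.inl x) = Coprod.inl (ψ x)) :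
    ∃ α : W →* MulAut H, (∀ w, α w ∈ U) ∧ ∀ w x, γ w (Coprod.inl x) = Coprod.inl (α w x) := by
  choose ψ hψ1 hψ2 using h
  refine ⟨MonoidHom.mk' ψ ?_, hψ1, hψ2⟩
  intro u v
  ext x
  apply inl_inj (L := L)
  rw [← hψ2, map_mul, MulAut.mul_apply, hψ2, hψ2]
  rfl

/-- **automorphisms `x ↦ a x b`** -/
theorem letter_pure (hC : ClosedE C) {U : Subgroup (MulAut H)} (hU : C (H ⋊[U.subtype] U))
    (γ : W →* MulAut (Coprod H (Multiplicative ℤ))) (hinj : Function.Injective γ)
    (hγ : ∀ w, (∃ ψ ∈ U, ∀ y, γ w (Coprod.inl y) = Coprod.inl (ψ y)) ∧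
      ∃ a b : H, γ w (xx H) = Coprod.inl a * xx H * Coprod.inl b) :
    C (Coprod H (Multiplicative ℤ) ⋊[γ] W) := by
  obtain ⟨α, hα, hαγ⟩ := exists_psi γ fun w => (hγ w).1
  choose a b hab using fun w => (hγ w).2
  have hx1 : (Multiplicative.ofAdd (1 : ℤ)) ≠ 1 := by decide
  have huniq : ∀ a b a' b' : H, (Coprod.inl a * xx H * Coprod.inl b : Coprod H _) =
      Coprod.inl a' * xx H * Coprod.inl b' → a = a' ∧ b = b' := by
    intro a b a' b' h
    have h1 : (Coprod.inl (a'⁻¹ * a) * xx H : Coprod H (Multiplicative ℤ)) =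
        xx H * Coprod.inl (b' * b⁻¹) := by
      rw [map_mul, map_mul, map_inv, map_inv, mul_assoc, inv_mul_eq_iff_eq_mul, ← mul_assoc,
        ← mul_assoc, eq_mul_inv_iff_mul_eq]
      exact h
    obtain ⟨h2, h3⟩ := rel_triv hx1 h1
    exact ⟨(inv_mul_eq_one.1 h3).symm, (mul_inv_eq_one.1 h2).symm⟩
  have hcoc : ∀ u v, a (u * v) = α u (a v) * a u ∧ b (u * v) = b u * α u (b v) := by
    intro u v
    apply huniq
    rw [← hab, map_mul, MulAut.mul_apply, hab v, map_mul, map_mul, hab u, hαγ, hαγ, map_mul,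
      map_mul]
    simp only [mul_assoc]
  let s₁ : W →* H ⋊[α] W := MonoidHom.mk' (fun w => ⟨(a w)⁻¹, w⟩) (by
    intro u v
    apply SemidirectProduct.ext
    · show (a (u * v))⁻¹ = (a u)⁻¹ * α u (a v)⁻¹
      rw [(hcoc u v).1, mul_inv_rev, map_inv]
    · rfl)
  let s₂ : W →* H ⋊[α] W := MonoidHom.mk' (fun w => ⟨b w, w⟩) (by
    intro u v
    apply SemidirectProduct.ext
    · exact (hcoc u v).2
    · rfl)
  -- the group `W`
  let p : H ⋊[α] W →* H ⋊[U.subtype] U :=
    SemidirectProduct.map (MonoidHom.id H) (α.codRestrict U hα) (by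
      intro w
      ext h
      rfl)
  have hW : C W := by
    refine hC.base.of_injective _ _ ((p.comp s₁).prod (p.comp s₂)) ?_ (hC.base.prod _ _ hU hU)
    intro u v huv
    have h1 : (a u)⁻¹ = (a v)⁻¹ := congrArg (fun q : (H ⋊[U.subtype] U) × (H ⋊[U.subtype] U) =>
      q.1.left) huv
    have h2 : b u = b v := congrArg (fun q : (H ⋊[U.subtype] U) × (H ⋊[U.subtype] U) =>
      q.2.left) huv
    have h3 : α u = α v := congrArg (fun q : (H ⋊[U.subtype] U) × (H ⋊[U.subtype] U) =>
      (q.1.right : MulAut H)) huv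
    apply hinj
    apply MulEquiv.toMonoidHom_injective
    apply ext_letter
    · intro h
      show γ u (Coprod.inl h) = γ v (Coprod.inl h)
      rw [hαγ, hαγ, h3]
    · show γ u (xx H) = γ v (xx H)
      rw [hab, hab, inv_injective h1, h2]
  refine letter_semi α γ s₁ s₂ hC hW (semi_of hC.base hU hW α hα) hαγ (fun _ => rfl)
    (fun _ => rfl) ?_
  intro w
  show γ w (xx H) = Coprod.inl ((a w)⁻¹)⁻¹ * xx H * Coprod.inl (b w)
  rw [inv_inv, hab]

/-- **a second factor** -/
theorem factor_pure (hC : ClosedE C) {U : Subgroup (MulAut H)} (hU : C (H ⋊[U.subtype] U))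
    {B : Subgroup (MulAut L)} (hB : C (L ⋊[B.subtype] B))
    (γ : W →* MulAut (Coprod H L)) (hinj : Function.Injective γ)
    (hγ : ∀ w, (∃ ψ ∈ U, ∀ y, γ w (Coprod.inl y) = Coprod.inl (ψ y)) ∧
      ∃ β ∈ B, ∃ c : H, ∀ l, γ w (Coprod.inr l) = Coprod.inl c * Coprod.inr (β l) *
        Coprod.inl c⁻¹) :
    C (Coprod H L ⋊[γ] W) := by
  obtain ⟨α, hα, hαγ⟩ := exists_psi γ fun w => (hγ w).1
  by_cases hL : ∃ l : L, l ≠ 1
  · obtain ⟨l₀, hl₀⟩ := hL
    choose β hβ c hc using fun w => (hγ w).2
    have hβu : ∀ u v, β (u * v) = β u * β v := by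
      intro u v
      ext l
      have h1 := hc (u * v) l
      rw [map_mul, MulAut.mul_apply, hc v, map_mul, map_mul, hc u, hαγ, hαγ] at h1
      have h2 := congrArg (Coprod.snd (M := H) (N := L)) h1
      simpa using h2.symm
    let β' : W →* MulAut L := MonoidHom.mk' β hβu
    have hcu : ∀ u v, c (u * v) = α u (c v) * c u := by
      intro u v
      have h1 := hc (u * v) l₀
      rw [map_mul, MulAut.mul_apply, hc v, map_mul, map_mul, hc u, hαγ, hαγ, hβu] at h1
      have h0 : β u (β v l₀) ≠ 1 := by
        intro h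
        exact hl₀ ((map_eq_one_iff _ (β v).injective).1 ((map_eq_one_iff _ (β u).injective).1 h))
      have h2 : (Coprod.inl ((c (u * v))⁻¹ * (α u (c v) * c u)) * Coprod.inr (β u (β v l₀)) :
          Coprod H L) = Coprod.inr (β u (β v l₀)) * Coprod.inl ((c (u * v))⁻¹ *
            (α u (c v) * c u)) := by
        have h3 : (Coprod.inl (α u (c v) * c u) * Coprod.inr (β u (β v l₀)) *
            (Coprod.inl (α u (c v) * c u))⁻¹ : Coprod H L) = Coprod.inl (c (u * v)) *
            Coprod.inr (β u (β v l₀)) * (Coprod.inl (c (u * v)))⁻¹ := by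
          rw [← map_inv (Coprod.inl (M := H) (N := L)) (c (u * v))]
          refine Eq.trans ?_ h1
          simp only [map_mul, map_inv, mul_inv_rev, mul_assoc]
        rw [map_mul, map_inv, mul_assoc, inv_mul_eq_iff_eq_mul, ← mul_assoc, ← mul_assoc]
        rw [mul_inv_eq_iff_eq_mul] at h3
        exact h3
      have h4 := (rel_triv h0 h2).1
      exact inv_mul_eq_one.1 h4
    let s : W →* H ⋊[α] W := MonoidHom.mk' (fun w => ⟨(c w)⁻¹, w⟩) (by
      intro u v
      apply SemidirectProduct.ext
      · show (c (u * v))⁻¹ = (c u)⁻¹ * α u (c v)⁻¹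
        rw [hcu u v, mul_inv_rev, map_inv]
      · rfl)
    let p : H ⋊[α] W →* H ⋊[U.subtype] U :=
      SemidirectProduct.map (MonoidHom.id H) (α.codRestrict U hα) (by
        intro w
        ext h
        rfl)
    have hW : C W := by
      refine hC.base.of_injective _ _ ((p.comp s).prod (SemidirectProduct.inr.comp
        (β'.codRestrict B hβ))) ?_ (hC.base.prod _ _ hU hB)
      intro u v huv
      have h1 : (c u)⁻¹ = (c v)⁻¹ := congrArg (fun q : (H ⋊[U.subtype] U) × (L ⋊[B.subtype] B) =>
        q.1.left) huv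
      have h2 : β u = β v := congrArg (fun q : (H ⋊[U.subtype] U) × (L ⋊[B.subtype] B) =>
        (q.2.right : MulAut L)) huv
      have h3 : α u = α v := congrArg (fun q : (H ⋊[U.subtype] U) × (L ⋊[B.subtype] B) =>
        (q.1.right : MulAut H)) huv
      apply hinj
      apply MulEquiv.toMonoidHom_injective
      apply Coprod.hom_ext
      · ext1 h
        show γ u (Coprod.inl h) = γ v (Coprod.inl h)
        rw [hαγ, hαγ, h3]
      · ext1 l
        show γ u (Coprod.inr l) = γ v (Coprod.inr l)
        rw [hc, hc, inv_injective h1, h2]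
    refine factor_semi α β' γ s hC hW (semi_of hC.base hU hW α hα)
      (semi_of hC.base hB hW β' hβ) hαγ (fun _ => rfl) ?_
    intro w l
    show γ w (Coprod.inr l) = Coprod.inl ((c w)⁻¹)⁻¹ * Coprod.inr (β w l) * Coprod.inl (c w)⁻¹
    rw [inv_inv, hc]
  · -- a trivial second factor
    have hL' : ∀ l : L, l = 1 := fun l => by
      by_contra h
      exact hL ⟨l, h⟩
    have hW : C W := by
      refine hC.base.of_injective _ _ (SemidirectProduct.inr.comp (α.codRestrict U hα)) ?_ hU
      intro u v huv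
      have h3 : α u = α v := congrArg (fun q : H ⋊[U.subtype] U => (q.right : MulAut H)) huv
      apply hinj
      apply MulEquiv.toMonoidHom_injective
      apply Coprod.hom_ext
      · ext1 h
        show γ u (Coprod.inl h) = γ v (Coprod.inl h)
        rw [hαγ, hαγ, h3]
      · ext1 l
        rw [hL' l, map_one, map_one]
    have hfst : ∀ x : Coprod H L, Coprod.inl (Coprod.fst x) = x := by
      intro x
      have h1 : (Coprod.inl.comp Coprod.fst : Coprod H L →* Coprod H L) = MonoidHom.id _ := by
        apply Coprod.hom_ext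
        · ext1 h
          simp
        · ext1 l
          rw [hL' l, map_one, map_one]
      exact DFunLike.congr_fun h1 x
    refine hC.base.of_injective _ _ (SemidirectProduct.map (Coprod.fst (M := H) (N := L))
      (MonoidHom.id W) ?_) ?_ (semi_of hC.base hU hW α hα)
    · intro w
      refine MonoidHom.ext fun x => ?_
      show Coprod.fst (γ w x) = α w (Coprod.fst x)
      conv_lhs => rw [← hfst x, hαγ]
      simp
    · intro x y hxy
      have h1 : Coprod.fst x.left = Coprod.fst y.left :=
        congrArg (fun q : H ⋊[α] W => q.left) hxy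
      have h2 : x.right = y.right := congrArg (fun q : H ⋊[α] W => q.right) hxy
      refine SemidirectProduct.ext ?_ h2
      rw [← hfst x.left, h1, hfst]

end semi

end Q182.Tr
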