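import Pool.Agent.Q182.TrHnn

/-!
# Semidirect products of free products with a second factor
-/

set_option autoImplicit false

namespace Q182.Tr

open Monoid
open Pool.Agent.Y110.FJ (ClosedE)
open Pool.Agent.Y462.SS (Closed)

variable {C : ∀ (G : Type) [Group G], Prop}

variable {H L W : Type} [Group H] [Group L] [Group W] (α : W →* MulAut H) (β : W →* MulAut L)
  (γ : W →* MulAut (Coprod H L)) (s : W →* H ⋊[α] W)

theorem grp_conj {X : Type} [Group X] (a b l : X) :
    a⁻¹ * (b * l * b⁻¹) * a = a⁻¹ * b * l * (a⁻¹ * b)⁻¹ := by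
  group

/-- **semidirect products of `H * L`** -/
theorem factor_semi (hC : ClosedE C) (hW : C W) (hH : C (H ⋊[α] W)) (hL : C (L ⋊[β] W))
    (hγ : ∀ w h, γ w (Coprod.inl h) = Coprod.inl (α w h))
    (hs : ∀ w, (s w).right = w)
    (hl : ∀ w l, γ w (Coprod.inr l) = Coprod.inl (s w).left⁻¹ * Coprod.inr (β w l) *
      Coprod.inl (s w).left) :
    C (Coprod H L ⋊[γ] W) := by
  let M := Coprod (H ⋊[α] W) (L ⋊[β] W)
  let s₁ : W →* M := Coprod.inl.comp s
  let s₂ : W →* M := Coprod.inr.comp SemidirectProduct.inr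
  let r : M →* W := Coprod.lift SemidirectProduct.rightHom SemidirectProduct.rightHom
  have hrl : ∀ x : H ⋊[α] W, r (Coprod.inl x) = x.right := fun x => Coprod.lift_apply_inl _ _ _
  have hrr : ∀ x : L ⋊[β] W, r (Coprod.inr x) = x.right := fun x => Coprod.lift_apply_inr _ _ _
  have hr₁ : ∀ w, r (s₁ w) = w := fun w => (hrl (s w)).trans (hs w)
  have hr₂ : ∀ w, r (s₂ w) = w := fun w => hrr (SemidirectProduct.inr w)
  have hi₁ : Function.Injective s₁ := fun a b h => by rw [← hr₁ a, ← hr₁ b, h]
  have hi₂ : Function.Injective s₂ := fun a b h => by rw [← hr₂ a, ← hr₂ b, h]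
  let e₁ : W ≃* s₁.range := MonoidHom.ofInjective hi₁
  let e₂ : W ≃* s₂.range := MonoidHom.ofInjective hi₂
  let φ : s₁.range ≃* s₂.range := e₁.symm.trans e₂
  have hφ : ∀ w, (φ ⟨s₁ w, ⟨w, rfl⟩⟩ : M) = s₂ w := by
    intro w
    have h1 : e₁.symm ⟨s₁ w, ⟨w, rfl⟩⟩ = w := by
      rw [MulEquiv.symm_apply_eq]
      rfl
    show ((e₂ (e₁.symm ⟨s₁ w, ⟨w, rfl⟩⟩) : s₂.range) : M) = s₂ w
    rw [h1]
    rfl
  let X := HNNExtension M s₁.range s₂.range φ
  have hrel : ∀ w, (HNNExtension.t : X) * HNNExtension.of (s₁ w) * HNNExtension.t⁻¹ =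
      HNNExtension.of (s₂ w) := by
    intro w
    have := HNNExtension.t_mul_of (φ := φ) ⟨s₁ w, ⟨w, rfl⟩⟩
    rw [hφ] at this
    rw [mul_inv_eq_iff_eq_mul]
    exact this
  -- the homomorphism to the retract
  let ρ : X →* W := HNNExtension.lift r 1 (by
    rintro ⟨_, w, rfl⟩
    rw [one_mul, mul_one, hφ]
    rw [hr₁, hr₂])
  have hX : C X := by
    refine hnn_inj hC (hC.base.coprod _ _ hH hL) hW ρ ?_
    rintro _ ⟨w, rfl⟩ h
    have h1 : ρ (HNNExtension.of (s₁ w)) = w := by
      rw [HNNExtension.lift_of]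
      exact hr₁ w
    rw [h1] at h
    rw [h, map_one]
  let c : X →* X := (MulAut.conj (HNNExtension.t : X)).toMonoidHom
  have hc : ∀ y, c y = HNNExtension.t * y * HNNExtension.t⁻¹ := fun y => rfl
  let f₁ : Coprod H L →* X :=
    Coprod.lift (c.comp (HNNExtension.of.comp (Coprod.inl.comp SemidirectProduct.inl)))
      (HNNExtension.of.comp (Coprod.inr.comp SemidirectProduct.inl))
  have hf₁ : ∀ h, f₁ (Coprod.inl h) =
      c (HNNExtension.of (Coprod.inl (SemidirectProduct.inl h))) := fun h => by
    simp [f₁]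
  have hf₂ : ∀ l, f₁ (Coprod.inr l) =
      HNNExtension.of (Coprod.inr (SemidirectProduct.inl l)) := fun l => by simp [f₁]
  let f₃ : W →* X := c.comp (HNNExtension.of.comp (Coprod.inl.comp SemidirectProduct.inr))
  have hs' : ∀ w, (s w) = SemidirectProduct.inl (s w).left * SemidirectProduct.inr w := by
    intro w
    have := SemidirectProduct.inl_left_mul_inr_right (s w)
    rw [hs] at this
    exact this.symm
  have hf₃ : ∀ w, f₃ w = (c (HNNExtension.of (Coprod.inl (SemidirectProduct.inl (s w).left))))⁻¹ *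
      HNNExtension.of (Coprod.inr (SemidirectProduct.inr w)) := by
    intro w
    have h1 : c (HNNExtension.of (s₁ w)) = HNNExtension.of (s₂ w) := hrel w
    have h2 : HNNExtension.of (s₁ w) = (HNNExtension.of (Coprod.inl (SemidirectProduct.inl
        (s w).left)) * HNNExtension.of (Coprod.inl (SemidirectProduct.inr w)) : X) := by
      show HNNExtension.of (Coprod.inl (s w)) = _
      rw [← map_mul, ← map_mul, ← hs']
    rw [h2, map_mul] at h1
    rw [eq_inv_mul_iff_mul_eq]
    exact h1
  let f : Coprod H L ⋊[γ] W →* X := SemidirectProduct.lift f₁ f₃ (by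
      intro w
      apply Coprod.hom_ext
      · ext h
        show f₁ (γ w (Coprod.inl h)) = f₃ w * f₁ (Coprod.inl h) * (f₃ w)⁻¹
        rw [hγ, hf₁, hf₁, SemidirectProduct.inl_aut, map_mul, map_mul, map_mul, map_mul, map_mul,
          map_mul]
        simp [f₃]
      · ext l
        show f₁ (γ w (Coprod.inr l)) = f₃ w * f₁ (Coprod.inr l) * (f₃ w)⁻¹
        rw [hl, map_mul, map_mul, hf₁, hf₁, hf₂, hf₂, hf₃, SemidirectProduct.inl_aut]
        refine Eq.trans ?_ (grp_conj (c (HNNExtension.of (Coprod.inl (SemidirectProduct.inl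
          (s w).left)))) (HNNExtension.of (Coprod.inr (SemidirectProduct.inr w)))
          (HNNExtension.of (Coprod.inr (SemidirectProduct.inl l))))
        simp only [map_mul, map_inv])
  let g₁ : H ⋊[α] W →* Coprod H L ⋊[γ] W :=
    SemidirectProduct.map Coprod.inl (MonoidHom.id W) (by
      intro w
      ext h
      exact (hγ w h).symm)
  have hg₁ : ∀ w, g₁ (s w) = SemidirectProduct.inl (Coprod.inl (s w).left) *
      SemidirectProduct.inr w := by
    intro w
    apply SemidirectProduct.ext
    · simp [g₁]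
    · simp [g₁, hs]
  let g₂ : L ⋊[β] W →* Coprod H L ⋊[γ] W :=
    SemidirectProduct.lift (SemidirectProduct.inl.comp Coprod.inr) (g₁.comp s) (by
      intro w
      ext1 l
      show SemidirectProduct.inl (Coprod.inr (β w l)) =
        g₁ (s w) * SemidirectProduct.inl (Coprod.inr l) * (g₁ (s w))⁻¹
      rw [hg₁, mul_inv_rev]
      have h3 : (SemidirectProduct.inr w * SemidirectProduct.inl (Coprod.inr l) *
          (SemidirectProduct.inr w)⁻¹ : Coprod H L ⋊[γ] W) =
          SemidirectProduct.inl (γ w (Coprod.inr l)) := by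
        rw [SemidirectProduct.inl_aut, map_inv]
      have h4 : (SemidirectProduct.inl (Coprod.inl (s w).left) * SemidirectProduct.inr w *
          SemidirectProduct.inl (Coprod.inr l) * ((SemidirectProduct.inr w)⁻¹ *
          (SemidirectProduct.inl (Coprod.inl (s w).left))⁻¹) : Coprod H L ⋊[γ] W) =
          SemidirectProduct.inl (Coprod.inl (s w).left) * (SemidirectProduct.inr w *
          SemidirectProduct.inl (Coprod.inr l) * (SemidirectProduct.inr w)⁻¹) *
          (SemidirectProduct.inl (Coprod.inl (s w).left))⁻¹ := by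
        simp only [mul_assoc]
      rw [h4, h3, hl, ← map_mul, ← map_inv, ← map_mul]
      congr 1
      simp only [map_inv, mul_assoc, mul_inv_cancel, mul_one, mul_inv_cancel_left])
  let g : X →* Coprod H L ⋊[γ] W := HNNExtension.lift (Coprod.lift g₁ g₂) 1 (by
      rintro ⟨_, w, rfl⟩
      rw [hφ, one_mul, mul_one]
      show (Coprod.lift g₁ g₂) (Coprod.inl (s w)) =
        (Coprod.lift g₁ g₂) (Coprod.inr (SemidirectProduct.inr w))
      rw [Coprod.lift_apply_inl, Coprod.lift_apply_inr]
      simp [g₂])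
  have hgl : ∀ x, g (HNNExtension.of (Coprod.inl x)) = g₁ x := fun x =>
    (HNNExtension.lift_of _ _ _ _).trans (Coprod.lift_apply_inl _ _ _)
  have hgr : ∀ x, g (HNNExtension.of (Coprod.inr x)) = g₂ x := fun x =>
    (HNNExtension.lift_of _ _ _ _).trans (Coprod.lift_apply_inr _ _ _)
  have hgc : ∀ y, g (c y) = g y := by
    intro y
    rw [hc, map_mul, map_mul, map_inv]
    have : g HNNExtension.t = 1 := HNNExtension.lift_t _ _ _
    rw [this, one_mul, inv_one, mul_one]
  have hgf : ∀ y, g (f y) = y := by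
    intro y
    have h1 : (g.comp f).comp SemidirectProduct.inl = SemidirectProduct.inl := by
      apply Coprod.hom_ext
      · ext1 h
        show g (f (SemidirectProduct.inl (Coprod.inl h))) = SemidirectProduct.inl (Coprod.inl h)
        rw [SemidirectProduct.lift_inl, hf₁, hgc, hgl]
        apply SemidirectProduct.ext
        · simp [g₁]
        · simp [g₁]
      · ext1 l
        show g (f (SemidirectProduct.inl (Coprod.inr l))) = SemidirectProduct.inl (Coprod.inr l)
        rw [SemidirectProduct.lift_inl, hf₂, hgr]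
        simp [g₂]
    have h2 : (g.comp f).comp SemidirectProduct.inr = SemidirectProduct.inr := by
      ext1 w
      show g (f (SemidirectProduct.inr w)) = SemidirectProduct.inr w
      rw [SemidirectProduct.lift_inr]
      show g (c (HNNExtension.of (Coprod.inl (SemidirectProduct.inr w)))) = _
      rw [hgc, hgl]
      apply SemidirectProduct.ext
      · simp [g₁]
      · simp [g₁]
    have h3 : g.comp f = MonoidHom.id _ := SemidirectProduct.hom_ext h1 h2
    exact DFunLike.congr_fun h3 y
  exact hC.base.of_injective _ _ f (Function.LeftInverse.injective hgf) hX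

end Q182.Tr
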