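import Pool.Agent.Q182.TrAut

/-!
# Flags of subgroups
-/

set_option autoImplicit false

namespace Q182.Tr

open Monoid
open Pool.Agent.Y110.FJ (ClosedE)
open Q171.NF (cj mem_cj cj_mul cj_one cj_self cj_inj mem_normalizer_iff_cj)

section flag

variable {Γ : Type} [Group Γ]

/-- the elements of `Γ` which normalize the subgroups `A j` with `k ≤ j ≤ n` -/
def DD (A : ℕ → Subgroup Γ) (n k : ℕ) : Subgroup Γ where
  carrier := {γ | ∀ j, k ≤ j → j ≤ n → cj γ (A j) = A j}
  one_mem' := fun _ _ _ => cj_one _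
  mul_mem' := fun {s t} hs ht j h1 h2 => by rw [cj_mul, ht j h1 h2, hs j h1 h2]
  inv_mem' := fun {s} hs j h1 h2 => cj_inv (hs j h1 h2)

theorem mem_DD {A : ℕ → Subgroup Γ} {n k : ℕ} {γ : Γ} :
    γ ∈ DD A n k ↔ ∀ j, k ≤ j → j ≤ n → cj γ (A j) = A j := Iff.rfl

theorem cj_sub {D P : Subgroup Γ} (hP : P ≤ D) {γ : D} :
    cj γ (P.subgroupOf D) = P.subgroupOf D ↔ cj (γ : Γ) P = P := by
  have key : ∀ y : D, y ∈ cj γ (P.subgroupOf D) ↔ (y : Γ) ∈ cj (γ : Γ) P := by
    intro y
    rw [mem_cj, mem_cj]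
    exact Subgroup.mem_subgroupOf
  constructor
  · intro h
    ext y
    constructor
    · intro hy
      have hyD : y ∈ D := by
        rw [mem_cj] at hy
        have h1 := D.mul_mem (D.mul_mem γ.2 (hP hy)) (D.inv_mem γ.2)
        have : (γ : Γ) * ((γ : Γ)⁻¹ * y * γ) * (γ : Γ)⁻¹ = y := by group
        rwa [this] at h1
      have h1 := (key ⟨y, hyD⟩).2 hy
      rw [h] at h1
      exact h1
    · intro hy
      refine (key ⟨y, hP hy⟩).1 ?_
      rw [h]
      exact hy
  · intro h
    ext y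
    rw [key, h]
    rfl

theorem io_sub {D P : Subgroup Γ} (hP : P ≤ D) {x : Γ} (hx : x ∈ D) :
    ∃ e : Coprod P (Multiplicative ℤ) →* Coprod (P.subgroupOf D) (Multiplicative ℤ),
      (∀ w, (io (P.subgroupOf D) (⟨x, hx⟩ : D) (e w) : Γ) = io P x w) ∧ ∀ z, ∃ w, e w = z := by
  let f : P →* P.subgroupOf D := MonoidHom.mk' (fun a => ⟨⟨a, hP a.2⟩, a.2⟩) (fun _ _ => rfl)
  refine ⟨Coprod.map f (MonoidHom.id _), ?_, ?_⟩
  · have h1 : (D.subtype.comp (io (P.subgroupOf D) (⟨x, hx⟩ : D))).comp
        (Coprod.map f (MonoidHom.id _)) = io P x := by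
      apply ext_letter
      · intro h
        show (io (P.subgroupOf D) (⟨x, hx⟩ : D) (Coprod.map f (MonoidHom.id _) (Coprod.inl h)) : Γ)
          = io P x (Coprod.inl h)
        rw [Coprod.map_apply_inl, io_inl, io_inl]
        rfl
      · show (io (P.subgroupOf D) (⟨x, hx⟩ : D) (Coprod.map f (MonoidHom.id _)
          (Coprod.inr (Multiplicative.ofAdd 1))) : Γ) = io P x (xx P)
        rw [Coprod.map_apply_inr, io_xx]
        exact congrArg Subtype.val (io_xx (A := P.subgroupOf D) (x := (⟨x, hx⟩ : D)))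
    exact DFunLike.congr_fun h1
  · intro z
    induction z using Coprod.induction_on with
    | inl a => exact ⟨Coprod.inl ⟨a.1.1, a.2⟩, rfl⟩
    | inr b => exact ⟨Coprod.inr b, rfl⟩
    | mul s t hs ht =>
      obtain ⟨s, rfl⟩ := hs
      obtain ⟨t, rfl⟩ := ht
      exact ⟨s * t, map_mul _ _ _⟩

/-- **flags** -/
theorem main_flag {C : ∀ (G : Type) [Group G], Prop} (hC : ClosedE C) {A : ℕ → Subgroup Γ}
    {x : ℕ → Γ} {n : ℕ} (h0 : A 0 ≠ ⊥) (hn : (A n).Normal)
    (hinj : ∀ i < n, Function.Injective (io (A i) (x i)))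
    (hran : ∀ i < n, (io (A i) (x i)).range = A (i + 1))
    (hcl : ∀ i < n, ∀ γ : Γ, (∀ j, i < j → j ≤ n → cj γ (A j) = A j) →
      ∃ m ∈ A (i + 1), cj (m * γ) (A i) = A i) :
    C Γ ↔ C (DD A n 0) := by
  have hle1 : ∀ i < n, A i ≤ A (i + 1) := by
    intro i hi
    rw [← hran i hi, io_range]
    exact le_sup_left
  have hle : ∀ i j, i ≤ j → j ≤ n → A i ≤ A j := by
    intro i j hij
    induction j, hij using Nat.le_induction with
    | base => intro _; exact le_rfl
    | succ j hij ih => intro hj; exact (ih (by omega)).trans (hle1 j (by omega))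
  have hstep : ∀ k < n, (C (DD A n (k + 1)) ↔ C (DD A n k)) := by
    intro k hk
    have hAD : A (k + 1) ≤ DD A n (k + 1) := fun γ hγ j h1 h2 => cj_self (hle _ _ h1 h2 hγ)
    have hkD : A k ≤ DD A n (k + 1) := (hle1 k hk).trans hAD
    have hx : x k ∈ A (k + 1) := by
      rw [← hran k hk, io_range]
      exact Subgroup.mem_sup_right (Subgroup.mem_zpowers _)
    obtain ⟨e, he1, he2⟩ := io_sub hkD (hAD hx)
    have hran' : (io ((A k).subgroupOf (DD A n (k + 1))) (⟨x k, hAD hx⟩ : DD A n (k + 1))).range =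
        (A (k + 1)).subgroupOf (DD A n (k + 1)) := by
      ext y
      rw [Subgroup.mem_subgroupOf, ← hran k hk]
      constructor
      · rintro ⟨z, rfl⟩
        obtain ⟨w, rfl⟩ := he2 z
        exact ⟨w, (he1 w).symm⟩
      · rintro ⟨w, hw⟩
        exact ⟨e w, Subtype.ext ((he1 w).trans hw)⟩
    have h1 : C (DD A n (k + 1)) ↔ C (Subgroup.normalizer
        (((A k).subgroupOf (DD A n (k + 1)) : Subgroup (DD A n (k + 1))) :
          Set (DD A n (k + 1)))) := by
      refine main1 hC (x := (⟨x k, hAD hx⟩ : DD A n (k + 1))) ?_ ?_ ?_ ?_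
      · rw [injective_iff_map_eq_one]
        intro z hz
        obtain ⟨w, rfl⟩ := he2 z
        have h3 : io (A k) (x k) w = 1 := by
          rw [← he1 w, hz]
          rfl
        rw [hinj k hk (h3.trans (map_one _).symm), map_one]
      · rw [hran']
        constructor
        intro y hy γ
        have h4 := γ.2 (k + 1) le_rfl hk
        rw [Subgroup.mem_subgroupOf] at hy ⊢
        exact conj_in h4 hy
      · obtain ⟨a, ha⟩ := (Subgroup.ne_bot_iff_exists_ne_one).1 h0
        rw [Subgroup.ne_bot_iff_exists_ne_one]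
        have h4 : (a : Γ) ∈ A k := hle 0 k (Nat.zero_le _) hk.le a.2
        refine ⟨⟨⟨a, hkD h4⟩, h4⟩, fun h => ha ?_⟩
        apply Subtype.ext
        exact congrArg (fun z : (A k).subgroupOf (DD A n (k + 1)) => (z : Γ)) h
      · intro γ
        obtain ⟨m, hm, h5⟩ := hcl k hk γ (fun j h1 h2 => γ.2 j h1 h2)
        refine ⟨⟨m, hAD hm⟩, ?_, ?_⟩
        · rw [hran']
          exact hm
        · exact (cj_sub hkD).2 h5
    rw [h1]
    have hmem : ∀ γ : DD A n (k + 1), γ ∈ Subgroup.normalizer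
        (((A k).subgroupOf (DD A n (k + 1)) : Subgroup (DD A n (k + 1))) :
          Set (DD A n (k + 1))) ↔ (γ : Γ) ∈ DD A n k := by
      intro γ
      rw [mem_normalizer_iff_cj, cj_sub hkD]
      constructor
      · intro h j h1 h2
        rcases h1.eq_or_lt with rfl | h1
        · exact h
        · exact γ.2 j h1 h2
      · intro h
        exact h k le_rfl hk.le
    constructor
    · intro h
      refine hC.base.of_injective _ _ (MonoidHom.mk' (fun γ : DD A n k => (⟨⟨γ, fun j h1 h2 =>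
        γ.2 j (by omega) h2⟩, (hmem _).2 γ.2⟩ : Subgroup.normalizer
        (((A k).subgroupOf (DD A n (k + 1)) : Subgroup (DD A n (k + 1))) :
          Set (DD A n (k + 1))))) (fun _ _ => rfl)) ?_ h
      intro s t hst
      exact Subtype.ext (congrArg (fun z : Subgroup.normalizer
        (((A k).subgroupOf (DD A n (k + 1)) : Subgroup (DD A n (k + 1))) :
          Set (DD A n (k + 1))) => (z : Γ)) hst)
    · intro h
      refine hC.base.of_injective _ _ (MonoidHom.mk' (fun γ : Subgroup.normalizer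
        (((A k).subgroupOf (DD A n (k + 1)) : Subgroup (DD A n (k + 1))) :
          Set (DD A n (k + 1))) => (⟨(γ : Γ), (hmem _).1 γ.2⟩ : DD A n k)) (fun _ _ => rfl)) ?_ h
      intro s t hst
      exact Subtype.ext (Subtype.ext (congrArg (fun z : DD A n k => (z : Γ)) hst))
  have hall : ∀ k ≤ n, (C (DD A n k) ↔ C (DD A n 0)) := by
    intro k
    induction k with
    | zero => intro _; exact Iff.rfl
    | succ k ih => intro hk; exact (hstep k hk).trans (ih (by omega))
  refine Iff.trans ?_ (hall n le_rfl)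
  have htop : ∀ γ : Γ, γ ∈ DD A n n := by
    intro γ j h1 h2
    obtain rfl : j = n := le_antisymm h2 h1
    exact Q171.NF.cj_normal _ _
  constructor
  · intro h
    exact hC.base.of_injective _ _ (DD A n n).subtype Subtype.val_injective h
  · intro h
    refine hC.base.of_injective _ _ (MonoidHom.mk' (fun γ : Γ => (⟨γ, htop γ⟩ : DD A n n))
      (fun _ _ => rfl)) ?_ h
    intro s t hst
    exact congrArg (fun z : DD A n n => (z : Γ)) hst

end flag

end Q182.Tr
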