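import Pool.Agent.Q182.LuHnn
import Pool.Agent.Q9.FJT.TreeA

/-!
# Semidirect products of free products
-/

set_option autoImplicit false

namespace Q182.Tr

open Monoid
open Pool.Agent.Helper270.Tree Pool.Agent.Helper270.HNN
open Pool.Agent.Y110.FJ (ClosedE)
open Pool.Agent.Y462.SS (Closed)
open Q182.Cyl (Est)

variable {C : ∀ (G : Type) [Group G], Prop}

/-- HNN extensions with a homomorphism which is injective on the associated subgroups -/
theorem hnn_inj (hC : ClosedE C) {M D : Type} [Group M] [Group D] {A B : Subgroup M} {φ : A ≃* B}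
    (hM : C M) (hD : C D) (ρ : HNNExtension M A B φ →* D)
    (hρ : ∀ a ∈ A, ρ (HNNExtension.of a) = 1 → a = 1) : C (HNNExtension M A B φ) := by
  have hA : TreeAct (HNNExtension M A B φ) (graph φ) := treeAct
  refine Q9.FJT.tree_edge ρ hC hD hA.isTree hA.adj hA.noInv ?_ (Q182.Lu.stab_mem hC.base hM)
  intro g v w hvw hgv hgw hg
  obtain ⟨k, hk⟩ := Q182.Lu.est_eq hvw
  have h1 : g ∈ Est (HNNExtension M A B φ) v w := ⟨hgv, hgw⟩
  rw [hk] at h1
  obtain ⟨_, ⟨a, ha, rfl⟩, hka⟩ := h1
  have hka' : k * HNNExtension.of a * k⁻¹ = g := hka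
  have h2 : ρ (HNNExtension.of a) = 1 := by
    have h3 : HNNExtension.of a = k⁻¹ * g * k := by
      rw [← hka']
      group
    rw [h3, map_mul, map_mul, hg, mul_one, map_inv, inv_mul_cancel]
  rw [← hka', hρ a ha h2, map_one, mul_one, mul_inv_cancel]

section letter

variable {H W : Type} [Group H] [Group W] (α : W →* MulAut H)
  (γ : W →* MulAut (Coprod H (Multiplicative ℤ))) (s₁ s₂ : W →* H ⋊[α] W)

/-- the generator of the infinite cyclic factor -/
def xx (H : Type) [Group H] : Coprod H (Multiplicative ℤ) := Coprod.inr (Multiplicative.ofAdd 1)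

/-- homomorphisms of `H * ⟨x⟩` -/
theorem ext_letter {Q : Type} [Group Q] {f g : Coprod H (Multiplicative ℤ) →* Q}
    (h1 : ∀ h, f (Coprod.inl h) = g (Coprod.inl h)) (h2 : f (xx H) = g (xx H)) : f = g := by
  apply Coprod.hom_ext
  · exact MonoidHom.ext h1
  · exact MonoidHom.ext_mint h2

/-- **semidirect products of `H * ⟨x⟩`** -/
theorem letter_semi (hC : ClosedE C) (hW : C W) (hH : C (H ⋊[α] W))
    (hγ : ∀ w h, γ w (Coprod.inl h) = Coprod.inl (α w h))
    (hs₁ : ∀ w, (s₁ w).right = w) (hs₂ : ∀ w, (s₂ w).right = w)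
    (hx : ∀ w, γ w (xx H) = Coprod.inl (s₁ w).left⁻¹ * xx H * Coprod.inl (s₂ w).left) :
    C (Coprod H (Multiplicative ℤ) ⋊[γ] W) := by
  have hi₁ : Function.Injective s₁ := fun a b h => by rw [← hs₁ a, ← hs₁ b, h]
  have hi₂ : Function.Injective s₂ := fun a b h => by rw [← hs₂ a, ← hs₂ b, h]
  let e₁ : W ≃* s₁.range := MonoidHom.ofInjective hi₁
  let e₂ : W ≃* s₂.range := MonoidHom.ofInjective hi₂
  let φ : s₁.range ≃* s₂.range := e₁.symm.trans e₂
  have hφ : ∀ w, (φ ⟨s₁ w, ⟨w, rfl⟩⟩ : H ⋊[α] W) = s₂ w := by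
    intro w
    have h1 : e₁.symm ⟨s₁ w, ⟨w, rfl⟩⟩ = w := by
      rw [MulEquiv.symm_apply_eq]
      rfl
    show ((e₂ (e₁.symm ⟨s₁ w, ⟨w, rfl⟩⟩) : s₂.range) : H ⋊[α] W) = s₂ w
    rw [h1]
    rfl
  let X := HNNExtension (H ⋊[α] W) s₁.range s₂.range φ
  have hrel : ∀ w, (HNNExtension.t : X) * HNNExtension.of (s₁ w) =
      HNNExtension.of (s₂ w) * HNNExtension.t := by
    intro w
    have := HNNExtension.t_mul_of (φ := φ) ⟨s₁ w, ⟨w, rfl⟩⟩
    rw [hφ] at this
    exact this
  -- the homomorphism to the retract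
  let ρ : X →* W := HNNExtension.lift SemidirectProduct.rightHom 1 (by
    rintro ⟨_, w, rfl⟩
    rw [one_mul, mul_one, hφ]
    show (s₁ w).right = (s₂ w).right
    rw [hs₁, hs₂])
  have hX : C X := by
    refine hnn_inj hC hH hW ρ ?_
    rintro _ ⟨w, rfl⟩ h
    have h1 : ρ (HNNExtension.of (s₁ w)) = w := by
      rw [HNNExtension.lift_of]
      exact hs₁ w
    rw [h1] at h
    rw [h, map_one]
  let f₁ : Coprod H (Multiplicative ℤ) →* X :=
    Coprod.lift (HNNExtension.of.comp SemidirectProduct.inl) (zpowersHom X HNNExtension.t⁻¹)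
  have hf₁ : ∀ h, f₁ (Coprod.inl h) = HNNExtension.of (SemidirectProduct.inl h) := fun h => by
    simp [f₁]
  have hf₂ : f₁ (xx H) = HNNExtension.t⁻¹ := by simp [f₁, xx]
  let f : Coprod H (Multiplicative ℤ) ⋊[γ] W →* X := SemidirectProduct.lift f₁
    (HNNExtension.of.comp SemidirectProduct.inr) (by
      intro w
      apply ext_letter
      · intro h
        show f₁ (γ w (Coprod.inl h)) = HNNExtension.of (SemidirectProduct.inr w) *
          f₁ (Coprod.inl h) * (HNNExtension.of (SemidirectProduct.inr w))⁻¹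
        rw [hγ, hf₁, hf₁, SemidirectProduct.inl_aut, map_mul, map_mul, map_inv, map_inv]
      · show f₁ (γ w (xx H)) = HNNExtension.of (SemidirectProduct.inr w) *
          f₁ (xx H) * (HNNExtension.of (SemidirectProduct.inr w))⁻¹
        rw [hx, map_mul, map_mul, hf₁, hf₁, hf₂]
        have h1 : (s₁ w) = SemidirectProduct.inl (s₁ w).left * SemidirectProduct.inr w := by
          have := SemidirectProduct.inl_left_mul_inr_right (s₁ w)
          rw [hs₁] at this
          exact this.symm
        have h2 : (s₂ w) = SemidirectProduct.inl (s₂ w).left * SemidirectProduct.inr w := by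
          have := SemidirectProduct.inl_left_mul_inr_right (s₂ w)
          rw [hs₂] at this
          exact this.symm
        have h3 := hrel w
        rw [h1, h2, map_mul, map_mul] at h3
        have h4 : (HNNExtension.of (SemidirectProduct.inl (s₁ w).left) : X) *
            HNNExtension.of (SemidirectProduct.inr w) * HNNExtension.t⁻¹ = HNNExtension.t⁻¹ *
            (HNNExtension.of (SemidirectProduct.inl (s₂ w).left) *
            HNNExtension.of (SemidirectProduct.inr w)) := by
          rw [eq_inv_mul_iff_mul_eq, ← mul_assoc, h3, mul_inv_cancel_right]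
        simp only [map_inv]
        rw [eq_mul_inv_iff_mul_eq, mul_assoc, mul_assoc, inv_mul_eq_iff_eq_mul, ← h4, mul_assoc])
  let g₁ : H ⋊[α] W →* Coprod H (Multiplicative ℤ) ⋊[γ] W :=
    SemidirectProduct.map Coprod.inl (MonoidHom.id W) (by
      intro w
      ext h
      exact (hγ w h).symm)
  let g : X →* Coprod H (Multiplicative ℤ) ⋊[γ] W :=
    HNNExtension.lift g₁ (SemidirectProduct.inl (xx H))⁻¹ (by
      rintro ⟨_, w, rfl⟩
      rw [hφ]
      have h1 : g₁ (s₁ w) = SemidirectProduct.inl (Coprod.inl (s₁ w).left) *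
          SemidirectProduct.inr w := by
        apply SemidirectProduct.ext
        · simp [g₁]
        · simp [g₁, hs₁]
      have h2 : g₁ (s₂ w) = SemidirectProduct.inl (Coprod.inl (s₂ w).left) *
          SemidirectProduct.inr w := by
        apply SemidirectProduct.ext
        · simp [g₁]
        · simp [g₁, hs₂]
      rw [h1, h2, inv_mul_eq_iff_eq_mul, ← mul_assoc, eq_mul_inv_iff_mul_eq, mul_assoc]
      have h3 : SemidirectProduct.inr w * SemidirectProduct.inl (xx H) =
          (SemidirectProduct.inl (γ w (xx H)) * SemidirectProduct.inr w :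
            Coprod H (Multiplicative ℤ) ⋊[γ] W) := by
        rw [SemidirectProduct.inl_aut, mul_assoc, ← map_mul, inv_mul_cancel, map_one, mul_one]
      rw [h3, hx, ← mul_assoc, ← map_mul, ← mul_assoc, ← mul_assoc, ← map_mul, mul_inv_cancel,
        map_one, one_mul, map_mul]
      simp only [mul_assoc])
  have hgf : ∀ y, g (f y) = y := by
    intro y
    have h1 : (g.comp f).comp SemidirectProduct.inl = SemidirectProduct.inl := by
      apply ext_letter
      · intro h
        show g (f (SemidirectProduct.inl (Coprod.inl h))) = _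
        rw [SemidirectProduct.lift_inl, hf₁, HNNExtension.lift_of]
        apply SemidirectProduct.ext
        · simp [g₁]
        · simp [g₁]
      · show g (f (SemidirectProduct.inl (xx H))) = _
        rw [SemidirectProduct.lift_inl, hf₂, map_inv, HNNExtension.lift_t, inv_inv]
    have h2 : (g.comp f).comp SemidirectProduct.inr = SemidirectProduct.inr := by
      ext w
      · show (g (f (SemidirectProduct.inr w))).left = _
        rw [SemidirectProduct.lift_inr]
        show (g (HNNExtension.of (SemidirectProduct.inr w))).left = _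
        rw [HNNExtension.lift_of]
        simp [g₁]
      · show (g (f (SemidirectProduct.inr w))).right = _
        rw [SemidirectProduct.lift_inr]
        show (g (HNNExtension.of (SemidirectProduct.inr w))).right = _
        rw [HNNExtension.lift_of]
        simp [g₁]
    have h3 : g.comp f = MonoidHom.id _ := SemidirectProduct.hom_ext h1 h2
    exact DFunLike.congr_fun h3 y
  exact hC.base.of_injective _ _ f (Function.LeftInverse.injective hgf) hX

end letter

end Q182.Tr
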