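import Pool.Agent.Q182.TrUniq
import Pool.Agent.Q171.NF.Aut

/-!
# Groups with a normal subgroup `A * ⟨x⟩`
-/

set_option autoImplicit false

namespace Q182.Tr

open Monoid
open Pool.Agent.Y110.FJ (ClosedE)
open Q171.NF (cj mem_cj cj_mul cj_one cj_self cj_inj mem_normalizer_iff_cj)

section nor

variable {Γ : Type} [Group Γ]

/-- the homomorphism of the free product of `A` and an infinite cyclic group -/
def io (A : Subgroup Γ) (x : Γ) : Coprod A (Multiplicative ℤ) →* Γ :=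
  Coprod.lift A.subtype (zpowersHom Γ x)

variable {A : Subgroup Γ} {x : Γ}

theorem io_inl (a : A) : io A x (Coprod.inl a) = a := by simp [io]

theorem io_xx : io A x (xx A) = x := by simp [io, xx]

theorem io_range : (io A x).range = A ⊔ Subgroup.zpowers x := by
  have h : (zpowersHom Γ x).range = Subgroup.zpowers x := by
    ext y
    constructor
    · rintro ⟨k, rfl⟩
      exact ⟨Multiplicative.toAdd k, rfl⟩
    · rintro ⟨k, rfl⟩
      exact ⟨Multiplicative.ofAdd k, rfl⟩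
  rw [io, Coprod.range_lift, Subgroup.range_subtype, h]

theorem conj_in {s a : Γ} (hs : cj s A = A) (ha : a ∈ A) : s * a * s⁻¹ ∈ A := by
  rw [← hs, mem_cj]
  have : s⁻¹ * (s * a * s⁻¹) * s = a := by group
  rwa [this]

theorem conj_in' {s a : Γ} (hs : cj s A = A) (ha : a ∈ A) : s⁻¹ * a * s ∈ A := by
  rwa [← hs, mem_cj] at ha

/-- the conjugation of `A` by an element of its normalizer -/
def cjA (s : Γ) (hs : cj s A = A) : MulAut A where
  toFun a := ⟨s * a * s⁻¹, conj_in hs a.2⟩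
  invFun a := ⟨s⁻¹ * a * s, conj_in' hs a.2⟩
  left_inv a := Subtype.ext (by
    show s⁻¹ * (s * a * s⁻¹) * s = a
    group)
  right_inv a := Subtype.ext (by
    show s * (s⁻¹ * a * s) * s⁻¹ = a
    group)
  map_mul' a b := Subtype.ext (by
    show s * (a * b) * s⁻¹ = s * a * s⁻¹ * (s * b * s⁻¹)
    group)

theorem cj_inv {s : Γ} (hs : cj s A = A) : cj s⁻¹ A = A := by
  conv_lhs => rw [← hs]
  rw [← cj_mul, inv_mul_cancel, cj_one]

/-- conjugates of `x` by elements of the normalizer of `A` -/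
theorem dich (hinj : Function.Injective (io A x)) (hN : (io A x).range.Normal) {s : Γ}
    (hs : cj s A = A) : ∃ a ∈ A, ∃ b ∈ A, s * x * s⁻¹ = a * x * b ∨ s * x * s⁻¹ = a * x⁻¹ * b := by
  obtain ⟨y, hy⟩ : ∃ y, io A x y = s * x * s⁻¹ := hN.conj_mem _ ⟨xx A, io_xx⟩ s
  have hth : ∀ t, io A x (Coprod.lift Coprod.inl (zpowersHom _ y)
      (Coprod.map (cjA s hs).toMonoidHom (MonoidHom.id _) t)) = s * io A x t * s⁻¹ := by
    have h1 : ((io A x).comp (Coprod.lift Coprod.inl (zpowersHom _ y))).comp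
        (Coprod.map (cjA s hs).toMonoidHom (MonoidHom.id _)) =
        (MulAut.conj s).toMonoidHom.comp (io A x) := by
      apply ext_letter
      · intro a
        show io A x (Coprod.lift Coprod.inl (zpowersHom _ y)
          (Coprod.map (cjA s hs).toMonoidHom (MonoidHom.id _) (Coprod.inl a))) =
          s * io A x (Coprod.inl a) * s⁻¹
        rw [Coprod.map_apply_inl, Coprod.lift_apply_inl, io_inl, io_inl]
        rfl
      · show io A x (Coprod.lift Coprod.inl (zpowersHom _ y)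
          (Coprod.map (cjA s hs).toMonoidHom (MonoidHom.id _) (xx A))) =
          s * io A x (xx A) * s⁻¹
        have h2 : Coprod.map (cjA s hs).toMonoidHom (MonoidHom.id (Multiplicative ℤ)) (xx A) =
            xx A := by simp [xx]
        have h3 : Coprod.lift Coprod.inl (zpowersHom _ y) (xx A) = y := by simp [xx]
        rw [h2, h3, hy, io_xx]
    exact DFunLike.congr_fun h1
  obtain ⟨a, b, h⟩ := uniq (H := A) (y := y) (by
    intro g
    obtain ⟨t, ht⟩ : ∃ t, io A x t = s⁻¹ * io A x g * s⁻¹⁻¹ := hN.conj_mem _ ⟨g, rfl⟩ s⁻¹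
    refine ⟨Coprod.map (cjA s hs).toMonoidHom (MonoidHom.id _) t, hinj ?_⟩
    rw [hth, ht]
    group)
  refine ⟨a, a.2, b, b.2, ?_⟩
  rcases h with h | h
  · left
    rw [← hy, h, map_mul, map_mul, io_inl, io_inl, io_xx]
  · right
    rw [← hy, h, map_mul, map_mul, map_inv, io_inl, io_inl, io_xx]

/-- the stabilizer of an edge -/
def EE (A : Subgroup Γ) (x : Γ) : Subgroup Γ where
  carrier := {s | cj s A = A ∧ ∃ b ∈ A, s * x * s⁻¹ = x * b}
  one_mem' := ⟨cj_one A, 1, A.one_mem, by group⟩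
  mul_mem' := by
    rintro s t ⟨hs, b, hb, hsb⟩ ⟨ht, c, hc, htc⟩
    refine ⟨by rw [cj_mul, ht, hs], b * (s * c * s⁻¹), A.mul_mem hb (conj_in hs hc), ?_⟩
    have : s * t * x * (s * t)⁻¹ = s * (t * x * t⁻¹) * s⁻¹ := by group
    rw [this, htc]
    have : s * (x * c) * s⁻¹ = s * x * s⁻¹ * (s * c * s⁻¹) := by group
    rw [this, hsb, mul_assoc]
  inv_mem' := by
    rintro s ⟨hs, b, hb, hsb⟩
    refine ⟨cj_inv hs, s⁻¹ * b⁻¹ * s, conj_in' hs (A.inv_mem hb), ?_⟩
    have h1 : x = s⁻¹ * (x * b) * s := by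
      rw [← hsb]
      group
    have h2 : s⁻¹ * x * s⁻¹⁻¹ = s⁻¹ * (x * b) * s * (s⁻¹ * b⁻¹ * s) := by group
    rw [h2, ← h1]

theorem mem_EE {s : Γ} : s ∈ EE A x ↔ cj s A = A ∧ ∃ b ∈ A, s * x * s⁻¹ = x * b := Iff.rfl

/-- elements of the normal subgroup which normalize `A` are in `A` -/
theorem nor_io (hinj : Function.Injective (io A x)) (hA : A ≠ ⊥)
    {g : Coprod A (Multiplicative ℤ)} (hg : cj (io A x g) A = A) : ∃ a : A, g = Coprod.inl a := by
  have : Nontrivial A := (Subgroup.nontrivial_iff_ne_bot A).2 hA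
  have h1 : cj g (Q171.NF.A0 A (Multiplicative ℤ)) = Q171.NF.A0 A (Multiplicative ℤ) := by
    have h2 : ∀ g : Coprod A (Multiplicative ℤ), cj (io A x g) A = A →
        cj g (Q171.NF.A0 A (Multiplicative ℤ)) ≤ Q171.NF.A0 A (Multiplicative ℤ) := by
      intro g hg y hy
      rw [mem_cj] at hy
      obtain ⟨a, ha⟩ := hy
      have h3 := conj_in hg a.2
      refine ⟨⟨_, h3⟩, hinj ?_⟩
      have h4 : (a : Γ) = (io A x g)⁻¹ * io A x y * io A x g := by
        rw [← io_inl (x := x) a, ha, map_mul, map_mul, map_inv]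
      rw [io_inl]
      show io A x g * (a : Γ) * (io A x g)⁻¹ = _
      rw [h4]
      group
    apply le_antisymm (h2 g hg)
    have h3 := h2 g⁻¹ (by rw [map_inv]; exact cj_inv hg)
    intro y hy
    rw [mem_cj]
    apply h3
    rw [mem_cj]
    have : g⁻¹⁻¹ * (g⁻¹ * y * g) * g⁻¹ = y := by group
    rw [this]
    exact hy
  obtain ⟨a, ha⟩ := Q171.NF.normA h1
  exact ⟨a, ha.symm⟩

/-- the stabilizer of the edge meets the normal subgroup trivially -/
theorem EE_io (hinj : Function.Injective (io A x)) (hA : A ≠ ⊥)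
    {g : Coprod A (Multiplicative ℤ)} (hg : io A x g ∈ EE A x) : g = 1 := by
  obtain ⟨h1, b, hb, h2⟩ := hg
  obtain ⟨a, rfl⟩ := nor_io hinj hA h1
  have hone : (Multiplicative.ofAdd (1 : ℤ)) ≠ 1 := by decide
  have h3 : (Coprod.inl a * xx A : Coprod A (Multiplicative ℤ)) =
      xx A * Coprod.inl (⟨b, hb⟩ * a) := by
    apply hinj
    rw [map_mul, map_mul, io_inl, io_xx, io_inl]
    rw [io_inl] at h2
    show (a : Γ) * x = x * (b * a)
    rw [← mul_assoc, ← h2]
    group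
  obtain ⟨-, h4⟩ := rel_triv hone h3
  rw [h4, map_one]

/-- **groups with a normal subgroup `A * ⟨x⟩`** -/
theorem main1 {C : ∀ (G : Type) [Group G], Prop} (hC : ClosedE C)
    (hinj : Function.Injective (io A x)) (hN : (io A x).range.Normal) (hA : A ≠ ⊥)
    (hcl : ∀ γ : Γ, ∃ n ∈ (io A x).range, cj (n * γ) A = A) :
    C Γ ↔ C (Subgroup.normalizer (A : Set Γ)) := by
  constructor
  · intro h
    exact hC.base.of_injective _ _ (Subgroup.subtype _) (Subgroup.subtype_injective _) h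
  intro hS
  have := hN
  -- the groups
  have hES : ∀ e : EE A x, (e : Γ) ∈ Subgroup.normalizer (A : Set Γ) := fun e =>
    mem_normalizer_iff_cj.2 e.2.1
  have hE : C (EE A x) := by
    refine hC.base.of_injective _ _ ((EE A x).subtype.codRestrict _ hES) ?_ hS
    intro e f h
    exact Subtype.ext (congrArg (fun z : Subgroup.normalizer (A : Set Γ) => (z : Γ)) h)
  let α : EE A x →* MulAut A := MonoidHom.mk' (fun e => cjA (e : Γ) e.2.1) (by
    intro e f
    ext a
    show (e * f : Γ) * a * (e * f : Γ)⁻¹ = e * (f * a * (f : Γ)⁻¹) * (e : Γ)⁻¹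
    group)
  have hα : ∀ (e : EE A x) (a : A), ((α e a : A) : Γ) = e * a * (e : Γ)⁻¹ := fun e a => rfl
  have hAE : C (A ⋊[α] EE A x) := by
    let f : A ⋊[α] EE A x →* Subgroup.normalizer (A : Set Γ) :=
      SemidirectProduct.lift (A.subtype.codRestrict _ (fun a =>
        mem_normalizer_iff_cj.2 (cj_self a.2))) ((EE A x).subtype.codRestrict _ hES) (by
        intro e
        ext a
        show ((α e a : A) : Γ) = e * a * (e : Γ)⁻¹
        exact hα e a)
    refine hC.base.of_injective _ _ f ?_ hS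
    rw [injective_iff_map_eq_one]
    intro p hp
    have h1 : (p.left : Γ) * (p.right : Γ) = 1 := congrArg Subtype.val hp
    have h2 : io A x (Coprod.inl p.left⁻¹) = (p.right : Γ) := by
      rw [io_inl]
      show (p.left : Γ)⁻¹ = _
      exact inv_eq_of_mul_eq_one_right h1
    have h3 : (Coprod.inl p.left⁻¹ : Coprod A (Multiplicative ℤ)) = 1 :=
      EE_io hinj hA (by rw [h2]; exact p.right.2)
    have h4 : p.left = 1 := by
      have := inl_inj (L := Multiplicative ℤ) (h3.trans (map_one _).symm)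
      exact inv_eq_one.1 this
    have h5 : (p.right : Γ) = 1 := by
      rw [h4] at h1
      simpa using h1
    exact SemidirectProduct.ext h4 (Subtype.ext h5)
  -- the action on the free product
  let e0 : Coprod A (Multiplicative ℤ) ≃* (io A x).range := MonoidHom.ofInjective hinj
  let γ : EE A x →* MulAut (Coprod A (Multiplicative ℤ)) :=
    ((MulAut.congr e0.symm).toMonoidHom.comp MulAut.conjNormal).comp (EE A x).subtype
  have hγ : ∀ (e : EE A x) g, io A x (γ e g) = e * io A x g * (e : Γ)⁻¹ := by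
    intro e g
    have h1 : io A x (γ e g) = (e0 (γ e g) : Γ) := rfl
    rw [h1]
    show ((e0 (e0.symm (MulAut.conjNormal (e : Γ) (e0 g))) : (io A x).range) : Γ) = _
    rw [MulEquiv.apply_symm_apply, MulAut.conjNormal_apply]
    rfl
  have hb : ∀ e : EE A x, ∃ b : A, (e : Γ) * x * (e : Γ)⁻¹ = x * b := by
    intro e
    obtain ⟨b, hb, h⟩ := e.2.2
    exact ⟨⟨b, hb⟩, h⟩
  choose b hb using hb
  have hbm : ∀ e f : EE A x, b (e * f) = b e * α e (b f) := by
    intro e f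
    apply Subtype.ext
    have h1 : x * (b (e * f) : Γ) = x * (b e * (α e (b f) : A)) := by
      rw [← hb, hα]
      have : ((e * f : EE A x) : Γ) * x * ((e * f : EE A x) : Γ)⁻¹ =
          e * (f * x * (f : Γ)⁻¹) * (e : Γ)⁻¹ := by
        push_cast
        group
      rw [this, hb f]
      have : (e : Γ) * (x * b f) * (e : Γ)⁻¹ = e * x * (e : Γ)⁻¹ * (e * b f * (e : Γ)⁻¹) := by
        group
      rw [this, hb e, mul_assoc]
    exact mul_left_cancel h1
  let s₁ : EE A x →* A ⋊[α] EE A x := SemidirectProduct.inr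
  let s₂ : EE A x →* A ⋊[α] EE A x := MonoidHom.mk' (fun e => ⟨b e, e⟩) (by
    intro e f
    apply SemidirectProduct.ext
    · exact hbm e f
    · rfl)
  have hX : C (Coprod A (Multiplicative ℤ) ⋊[γ] EE A x) := by
    refine letter_semi α γ s₁ s₂ hC hE hAE ?_ (fun _ => rfl) (fun _ => rfl) ?_
    · intro e a
      apply hinj
      rw [hγ, io_inl, io_inl, hα]
    · intro e
      apply hinj
      rw [hγ, io_xx]
      show (e : Γ) * x * (e : Γ)⁻¹ = io A x (Coprod.inl (1 : A)⁻¹ * xx A * Coprod.inl (b e))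
      rw [inv_one, map_one, one_mul, map_mul, io_xx, io_inl, hb]
  -- the subgroup generated by the free product and the stabilizer
  let Ψ : Coprod A (Multiplicative ℤ) ⋊[γ] EE A x →* Γ :=
    SemidirectProduct.lift (io A x) (EE A x).subtype (by
      intro e
      refine MonoidHom.ext fun g => ?_
      exact hγ e g)
  have hΨ : Function.Injective Ψ := by
    rw [injective_iff_map_eq_one]
    intro p hp
    have h1 : io A x p.left * (p.right : Γ) = 1 := hp
    have h2 : io A x p.left⁻¹ = (p.right : Γ) := by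
      rw [map_inv]
      exact inv_eq_of_mul_eq_one_right h1
    have h3 : p.left⁻¹ = 1 := EE_io hinj hA (by rw [h2]; exact p.right.2)
    have h4 : p.left = 1 := inv_eq_one.1 h3
    have h5 : (p.right : Γ) = 1 := by
      rw [h4, map_one, one_mul] at h1
      exact h1
    exact SemidirectProduct.ext h4 (Subtype.ext h5)
  have hmem : ∀ (n : Γ), n ∈ (io A x).range → ∀ e ∈ EE A x, n * e ∈ Ψ.range := by
    rintro _ ⟨g, rfl⟩ e he
    exact ⟨⟨g, ⟨e, he⟩⟩, rfl⟩
  have hpos : ∀ s : Γ, cj s A = A → ∀ a ∈ A, ∀ b ∈ A, s * x * s⁻¹ = a * x * b → s ∈ Ψ.range := by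
    intro s hs a ha b hb h
    have h1 : a⁻¹ * s ∈ EE A x := by
      refine ⟨by rw [cj_mul, hs, cj_self (A.inv_mem ha)], b * a, A.mul_mem hb ha, ?_⟩
      have : a⁻¹ * s * x * (a⁻¹ * s)⁻¹ = a⁻¹ * (s * x * s⁻¹) * a := by group
      rw [this, h]
      group
    have h2 := hmem a ⟨Coprod.inl ⟨a, ha⟩, io_inl _⟩ _ h1
    rwa [mul_inv_cancel_left] at h2
  have hfin : Ψ.range.FiniteIndex := by
    have hpair : ∀ γ₁ γ₂ : Γ, γ₁ ∉ Ψ.range → γ₂ ∉ Ψ.range → γ₁⁻¹ * γ₂ ∈ Ψ.range := by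
      intro γ₁ γ₂ h1 h2
      obtain ⟨n₁, hn₁, hs₁⟩ := hcl γ₁
      obtain ⟨n₂, hn₂, hs₂⟩ := hcl γ₂
      have hneg : ∀ (γ₀ n : Γ), γ₀ ∉ Ψ.range → n ∈ (io A x).range → cj (n * γ₀) A = A →
          ∃ a ∈ A, ∃ b ∈ A, (n * γ₀) * x * (n * γ₀)⁻¹ = a * x⁻¹ * b := by
        intro γ₀ n h0 hn hs
        obtain ⟨a, ha, b, hb, h | h⟩ := dich hinj hN hs
        · exfalso
          apply h0
          have h3 := hpos _ hs a ha b hb h
          have h4 := hmem n hn 1 (EE A x).one_mem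
          rw [mul_one] at h4
          have h5 := mul_mem (inv_mem h4) h3
          rwa [inv_mul_cancel_left] at h5
        · exact ⟨a, ha, b, hb, h⟩
      obtain ⟨a₁, ha₁, b₁, hb₁, h3⟩ := hneg γ₁ n₁ h1 hn₁ hs₁
      obtain ⟨a₂, ha₂, b₂, hb₂, h4⟩ := hneg γ₂ n₂ h2 hn₂ hs₂
      generalize hσ₁ : n₁ * γ₁ = σ₁ at *
      generalize hσ₂ : n₂ * γ₂ = σ₂ at *
      have h5 : σ₁⁻¹ * σ₂ ∈ Ψ.range := by
        refine hpos _ (by rw [cj_mul, hs₂, cj_inv hs₁])
          ((σ₁⁻¹ * a₂ * σ₁) * (σ₁⁻¹ * a₁⁻¹ * σ₁)) ?_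
          ((σ₁⁻¹ * b₁⁻¹ * σ₁) * (σ₁⁻¹ * b₂ * σ₁)) ?_ ?_
        · exact A.mul_mem (conj_in' hs₁ ha₂) (conj_in' hs₁ (A.inv_mem ha₁))
        · exact A.mul_mem (conj_in' hs₁ (A.inv_mem hb₁)) (conj_in' hs₁ hb₂)
        · have h5 : x⁻¹ = a₁⁻¹ * (σ₁ * x * σ₁⁻¹) * b₁⁻¹ := by
            rw [h3]
            group
          have h6 : σ₁⁻¹ * σ₂ * x * (σ₁⁻¹ * σ₂)⁻¹ = σ₁⁻¹ * (σ₂ * x * σ₂⁻¹) * σ₁ := by group
          rw [h6, h4, h5]
          group
      have h6 : γ₁⁻¹ * γ₂ = σ₁⁻¹ * (n₁ * n₂⁻¹) * σ₁⁻¹⁻¹ * (σ₁⁻¹ * σ₂) := by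
        rw [← hσ₁, ← hσ₂]
        group
      rw [h6]
      have h7 := hmem _ (hN.conj_mem _ (mul_mem hn₁ (inv_mem hn₂)) σ₁⁻¹) 1 (EE A x).one_mem
      rw [mul_one] at h7
      exact mul_mem h7 h5
    have hq : Finite (Γ ⧸ Ψ.range) := by
      refine Finite.of_injective (fun q : Γ ⧸ Ψ.range => q = ((1 : Γ) : Γ ⧸ Ψ.range)) ?_
      intro q₁ q₂ h
      obtain ⟨γ₁, rfl⟩ := QuotientGroup.mk_surjective q₁
      obtain ⟨γ₂, rfl⟩ := QuotientGroup.mk_surjective q₂
      have hm : ∀ γ : Γ, ((γ : Γ ⧸ Ψ.range) = ((1 : Γ) : Γ ⧸ Ψ.range)) ↔ γ ∈ Ψ.range := by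
        intro γ
        rw [eq_comm, QuotientGroup.eq, inv_one, one_mul]
      have h' : (γ₁ ∈ Ψ.range) = (γ₂ ∈ Ψ.range) := by
        rw [← hm, ← hm]
        exact h
      by_cases h1 : γ₁ ∈ Ψ.range
      · have h2 : γ₂ ∈ Ψ.range := h' ▸ h1
        exact ((hm γ₁).2 h1).trans ((hm γ₂).2 h2).symm
      · have h2 : γ₂ ∉ Ψ.range := fun h2 => h1 (h' ▸ h2)
        exact QuotientGroup.eq.2 (hpair γ₁ γ₂ h1 h2)
    exact Subgroup.finiteIndex_of_finite_quotient
  refine hC.base.finiteIndex _ Ψ.range hfin ?_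
  exact hC.base.of_injective _ _ (MonoidHom.ofInjective hΨ).symm.toMonoidHom
    (MonoidHom.ofInjective hΨ).symm.injective hX

end nor

end Q182.Tr
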