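import Pool.Agent.Q182.TrExt

/-!
# Triangular automorphisms `x ↦ a x⁻¹ b`
-/

set_option autoImplicit false

namespace Q182.Tr

open Monoid
open Pool.Agent.Y110.FJ (ClosedE)
open Pool.Agent.Y462.SS (Closed)

variable {C : ∀ (G : Type) [Group G], Prop} {H W : Type} [Group H] [Group W]

theorem snd_inl (a : H) : Coprod.snd (Coprod.inl a : Coprod H (Multiplicative ℤ)) = 1 := by simp

theorem snd_xx : Coprod.snd (xx H) = Multiplicative.ofAdd 1 := by simp [xx]

/-- **automorphisms `x ↦ a x b` and `x ↦ a x⁻¹ b`** -/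
theorem letter_sgn (hC : ClosedE C) {U : Subgroup (MulAut H)} (hU : C (H ⋊[U.subtype] U))
    (γ : W →* MulAut (Coprod H (Multiplicative ℤ))) (hinj : Function.Injective γ)
    (hγ : ∀ w, (∃ ψ ∈ U, ∀ y, γ w (Coprod.inl y) = Coprod.inl (ψ y)) ∧
      ∃ a b : H, γ w (xx H) = Coprod.inl a * xx H * Coprod.inl b ∨
        γ w (xx H) = Coprod.inl a * (xx H)⁻¹ * Coprod.inl b) :
    C (Coprod H (Multiplicative ℤ) ⋊[γ] W) := by
  have hpos : ∀ w, ∀ a b : H, γ w (xx H) = Coprod.inl a * xx H * Coprod.inl b →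
      Coprod.snd (γ w (xx H)) = Multiplicative.ofAdd 1 := by
    intro w a b h
    rw [h, map_mul, map_mul, snd_inl, snd_inl, snd_xx, one_mul, mul_one]
  have hneg : ∀ w, ∀ a b : H, γ w (xx H) = Coprod.inl a * (xx H)⁻¹ * Coprod.inl b →
      Coprod.snd (γ w (xx H)) = Multiplicative.ofAdd (-1) := by
    intro w a b h
    rw [h, map_mul, map_mul, map_inv, snd_inl, snd_inl, snd_xx, one_mul, mul_one]
    rfl
  have he : ∀ w, ∃ e : ℤˣ, Coprod.snd (γ w (xx H)) = Multiplicative.ofAdd (e : ℤ) := by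
    intro w
    obtain ⟨a, b, h | h⟩ := (hγ w).2
    · exact ⟨1, hpos w a b h⟩
    · exact ⟨-1, hneg w a b h⟩
  choose e he using he
  have hpow : ∀ w y, Coprod.snd (γ w y) = (Coprod.snd y) ^ (e w : ℤ) := by
    intro w y
    have h1 : (Coprod.snd (M := H) (N := Multiplicative ℤ)).comp (γ w).toMonoidHom =
        (zpowGroupHom (e w : ℤ)).comp Coprod.snd := by
      apply ext_letter
      · intro h
        obtain ⟨ψ, _, hψ⟩ := (hγ w).1
        show Coprod.snd (γ w (Coprod.inl h)) = (Coprod.snd (Coprod.inl h)) ^ (e w : ℤ)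
        rw [hψ, snd_inl, snd_inl, one_zpow]
      · show Coprod.snd (γ w (xx H)) = (Coprod.snd (xx H)) ^ (e w : ℤ)
        rw [he, snd_xx, ← ofAdd_zsmul]
        simp
    exact DFunLike.congr_fun h1 y
  let σ : W →* ℤˣ := MonoidHom.mk' e (by
    intro u v
    apply Units.ext
    have h1 := he (u * v)
    rw [map_mul, MulAut.mul_apply, hpow, he, ← ofAdd_zsmul] at h1
    have h2 := Multiplicative.ofAdd.injective h1
    rw [Units.val_mul, ← h2]
    simp)
  have hP : C (Coprod H (Multiplicative ℤ) ⋊[γ.comp σ.ker.subtype] σ.ker) := by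
    refine letter_pure hC hU _ (hinj.comp σ.ker.subtype_injective) ?_
    rintro ⟨w, hw⟩
    refine ⟨(hγ w).1, ?_⟩
    obtain ⟨a, b, h | h⟩ := (hγ w).2
    · exact ⟨a, b, h⟩
    · exfalso
      have h1 := hneg w a b h
      rw [he] at h1
      have h2 := Multiplicative.ofAdd.injective h1
      have h3 : e w = 1 := hw
      rw [h3] at h2
      simp at h2
  let τ : Coprod H (Multiplicative ℤ) ⋊[γ] W →* ℤˣ := σ.comp SemidirectProduct.rightHom
  refine hC.base.finiteIndex _ τ.ker inferInstance ?_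
  refine hC.base.of_injective _ _ (MonoidHom.mk' (fun k : τ.ker =>
    (⟨(k : Coprod H (Multiplicative ℤ) ⋊[γ] W).left, ⟨(k : Coprod H (Multiplicative ℤ) ⋊[γ] W).right,
      k.2⟩⟩ : Coprod H (Multiplicative ℤ) ⋊[γ.comp σ.ker.subtype] σ.ker)) ?_) ?_ hP
  · intro a b
    rfl
  · intro a b h
    have h1 := congrArg (fun q : Coprod H (Multiplicative ℤ) ⋊[γ.comp σ.ker.subtype] σ.ker =>
      q.left) h
    have h2 := congrArg (fun q : Coprod H (Multiplicative ℤ) ⋊[γ.comp σ.ker.subtype] σ.ker =>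
      (q.right : W)) h
    exact Subtype.ext (SemidirectProduct.ext h1 h2)

end Q182.Tr
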