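import Pool.Agent.Q182.TrFlag
import Pool.Agent.Q171.HI.Tree

/-!
# Hierarchies of free factors with free letters
-/

set_option autoImplicit false

namespace Q182.Tr

open Monoid
open Pool.Agent.Y110.FJ (ClosedE)
open Q171.NF (cj ToConj)
open Q171.OF (Holo)
open Q171.HI (Gp fp IndIn Glue ind_iff malA malB semi_congr sub_congr)

/-- finite trees with a nontrivial group at each leaf, vertices with two branches, and vertices with
one branch (which add a free letter) -/
inductive LT : Type 1 where
  | leaf (A : Gp) : LT
  | node (l r : LT) : LT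
  | letter (t : LT) : LT

/-- the infinite cyclic group -/
def Zg : Gp where
  El := Multiplicative ℤ
  gp := inferInstance
  nt := inferInstance

/-- the free product of the groups at the leaves and of infinite cyclic groups, one for each vertex
with one branch -/
def LT.grp : LT → Gp
  | leaf A => A
  | node l r => fp l.grp r.grp
  | letter t => fp t.grp Zg

/-- the embedding of the left factor -/
def LT.inL (l r : LT) : l.grp.El →* (node l r).grp.El :=
  (Coprod.inl : l.grp.El →* Coprod l.grp.El r.grp.El)

/-- the embedding of the right factor -/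
def LT.inR (l r : LT) : r.grp.El →* (node l r).grp.El :=
  (Coprod.inr : r.grp.El →* Coprod l.grp.El r.grp.El)

/-- the embedding of the factor which is complemented by the letter -/
def LT.inU (t : LT) : t.grp.El →* (letter t).grp.El :=
  (Coprod.inl : t.grp.El →* Coprod t.grp.El (Multiplicative ℤ))

/-- the free factors which belong to the vertices of the tree -/
def LT.factors : (t : LT) → Set (Subgroup t.grp.El)
  | leaf _ => {⊤}
  | node l r => {⊤} ∪ (Subgroup.map (inL l r) '' l.factors ∪ Subgroup.map (inR l r) '' r.factors)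
  | letter t => {⊤} ∪ Subgroup.map (inU t) '' t.factors

/-- the groups at the leaves -/
def LT.leaves : LT → Set Gp
  | leaf A => {A}
  | node l r => l.leaves ∪ r.leaves
  | letter t => t.leaves

/-- the automorphism maps each of the free factors of the tree to a conjugate of itself -/
def LKeeps (t : LT) (φ : MulAut t.grp.El) : Prop := ∀ H ∈ t.factors, ToConj φ H H

/-- the automorphisms which map each of the free factors of the tree to a conjugate of itself -/
def LAut (t : LT) : Subgroup (MulAut t.grp.El) where
  carrier := {φ | LKeeps t φ}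
  one_mem' := fun _ _ => ToConj.one _
  mul_mem' := fun h h' H hH => ToConj.mul (h' H hH) (h H hH)
  inv_mem' := fun h H hH => (h H hH).inv

theorem LT.top_mem (t : LT) : ⊤ ∈ t.factors := by
  cases t with
  | leaf A => rfl
  | node l r => exact Or.inl rfl
  | letter t => exact Or.inl rfl

theorem LT.ne_bot {t : LT} : ∀ H ∈ t.factors, H ≠ ⊥ := by
  induction t with
  | leaf A =>
    intro H hH
    have h1 : H = ⊤ := hH
    rw [h1]
    exact top_ne_bot
  | node l r ihl ihr =>
    intro H hH
    rcases hH with h1 | ⟨K, hK, rfl⟩ | ⟨K, hK, rfl⟩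
    · have h2 : H = ⊤ := h1
      rw [h2]
      exact top_ne_bot
    · intro h
      exact ihl K hK ((Subgroup.map_eq_bot_iff_of_injective _
        Monoid.Coprod.inl_injective).1 h)
    · intro h
      exact ihr K hK ((Subgroup.map_eq_bot_iff_of_injective _
        Monoid.Coprod.inr_injective).1 h)
  | letter t ih =>
    intro H hH
    rcases hH with h1 | ⟨K, hK, rfl⟩
    · have h2 : H = ⊤ := h1
      rw [h2]
      exact top_ne_bot
    · intro h
      exact ih K hK ((Subgroup.map_eq_bot_iff_of_injective _
        Monoid.Coprod.inl_injective).1 h)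

theorem conj_mem_LAut (t : LT) (n : t.grp.El) : MulAut.conj n ∈ LAut t :=
  fun _ _ => ⟨n, rfl⟩

theorem LAut_node (l r : LT) : LAut (LT.node l r) = (Glue (LAut l) (LAut r) :
    Subgroup (MulAut (Monoid.Coprod l.grp.El r.grp.El))) := by
  ext φ
  have h1 : IndIn (LT.inL l r) (LAut l) φ ↔
      ∀ H ∈ Subgroup.map (LT.inL l r) '' l.factors, ToConj φ H H :=
    ind_iff Monoid.Coprod.inl_injective (fun x n m hn h => malA hn h) (LT.top_mem l)
      LT.ne_bot (fun _ => Iff.rfl) φ
  have h2 : IndIn (LT.inR l r) (LAut r) φ ↔
      ∀ H ∈ Subgroup.map (LT.inR l r) '' r.factors, ToConj φ H H :=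
    ind_iff Monoid.Coprod.inr_injective (fun x n m hn h => malB hn h) (LT.top_mem r)
      LT.ne_bot (fun _ => Iff.rfl) φ
  constructor
  · intro h
    exact ⟨h1.2 fun H hH => h H (Or.inr (Or.inl hH)), h2.2 fun H hH => h H (Or.inr (Or.inr hH))⟩
  · rintro ⟨h3, h4⟩ H (h5 | h5 | h5)
    · have h6 : H = ⊤ := h5
      rw [h6]
      refine ⟨1, ?_⟩
      rw [Q171.NF.cj_one]
      exact Subgroup.map_top_of_surjective _ φ.surjective
    · exact h1.1 h3 H h5
    · exact h2.1 h4 H h5

theorem LAut_letter (t : LT) : LAut (LT.letter t) = (TA (LAut t) :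
    Subgroup (MulAut (Monoid.Coprod t.grp.El (Multiplicative ℤ)))) := by
  ext φ
  have h1 : IndIn (LT.inU t) (LAut t) φ ↔
      ∀ H ∈ Subgroup.map (LT.inU t) '' t.factors, ToConj φ H H :=
    ind_iff Monoid.Coprod.inl_injective (fun x n m hn h => malA hn h) (LT.top_mem t)
      LT.ne_bot (fun _ => Iff.rfl) φ
  constructor
  · intro h
    exact h1.2 fun H hH => h H (Or.inr hH)
  · rintro h3 H (h5 | h5)
    · have h6 : H = ⊤ := h5
      rw [h6]
      refine ⟨1, ?_⟩
      rw [Q171.NF.cj_one]
      exact Subgroup.map_top_of_surjective _ φ.surjective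
    · exact h1.1 h3 H h5

theorem LAut_leaf (A : Gp) : LAut (LT.leaf A) = ⊤ := by
  rw [eq_top_iff]
  intro φ _ H hH
  have h6 : H = ⊤ := hH
  rw [h6]
  refine ⟨1, ?_⟩
  rw [Q171.NF.cj_one]
  exact Subgroup.map_top_of_surjective _ φ.surjective

/-- the induction -/
theorem semi_iff_leaves {C : ∀ (G : Type) [Group G], Prop} (hC : ClosedE C) (t : LT) :
    C (t.grp.El ⋊[(LAut t).subtype] LAut t) ↔ ∀ A ∈ t.leaves, C (Holo A.El) := by
  induction t with
  | leaf A =>
    have h2 : (∀ B ∈ (LT.leaf A).leaves, C (Holo B.El)) ↔ C (Holo A.El) := by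
      constructor
      · intro h
        exact h A rfl
      · intro h B hB
        have h3 : B = A := hB
        rw [h3]
        exact h
    rw [h2]
    constructor
    · intro h
      have h3 := semi_congr (LAut_leaf A) h
      let F : Holo A.El →* A.El ⋊[(⊤ : Subgroup (MulAut A.El)).subtype] (⊤ : Subgroup (MulAut A.El)) :=
        { toFun := fun p => ⟨p.left, ⟨p.right, trivial⟩⟩
          map_one' := rfl
          map_mul' := fun p q => rfl }
      refine hC.base.of_injective _ _ F ?_ h3
      intro p q hpq
      exact SemidirectProduct.ext (congrArg (fun s => s.left) hpq)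
        (congrArg (fun s => s.right.1) hpq)
    · intro h
      apply semi_congr (LAut_leaf A).symm
      let F : A.El ⋊[(⊤ : Subgroup (MulAut A.El)).subtype] (⊤ : Subgroup (MulAut A.El)) →* Holo A.El :=
        { toFun := fun p => (⟨p.left, p.right.1⟩ : A.El ⋊[MonoidHom.id (MulAut A.El)] MulAut A.El)
          map_one' := rfl
          map_mul' := fun p q => rfl }
      refine hC.base.of_injective _ _ F ?_ h
      intro p q hpq
      exact SemidirectProduct.ext (congrArg (fun s : A.El ⋊[MonoidHom.id (MulAut A.El)] MulAut A.El =>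
        s.left) hpq) (Subtype.ext (congrArg
          (fun s : A.El ⋊[MonoidHom.id (MulAut A.El)] MulAut A.El => s.right) hpq))
  | node l r ihl ihr =>
    have h1 : C ((LT.node l r).grp.El ⋊[(LAut (LT.node l r)).subtype] LAut (LT.node l r)) ↔
        C (Monoid.Coprod l.grp.El r.grp.El ⋊[(Glue (LAut l) (LAut r)).subtype]
          Glue (LAut l) (LAut r)) :=
      ⟨fun h => semi_congr (N := Monoid.Coprod l.grp.El r.grp.El) (LAut_node l r) h,
        fun h => semi_congr (N := Monoid.Coprod l.grp.El r.grp.El) (LAut_node l r).symm h⟩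
    rw [h1, Q171.HI.semi_iff hC, Q171.HI.glue_iff hC (conj_mem_LAut l) (conj_mem_LAut r), ihl, ihr]
    constructor
    · rintro ⟨h2, h3⟩ A (hA | hA)
      · exact h2 A hA
      · exact h3 A hA
    · intro h
      exact ⟨fun A hA => h A (Or.inl hA), fun A hA => h A (Or.inr hA)⟩
  | letter t ih =>
    have h1 : C ((LT.letter t).grp.El ⋊[(LAut (LT.letter t)).subtype] LAut (LT.letter t)) ↔
        C (Monoid.Coprod t.grp.El (Multiplicative ℤ) ⋊[(TA (LAut t)).subtype] TA (LAut t)) :=
      ⟨fun h => semi_congr (N := Monoid.Coprod t.grp.El (Multiplicative ℤ)) (LAut_letter t) h,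
        fun h => semi_congr (N := Monoid.Coprod t.grp.El (Multiplicative ℤ)) (LAut_letter t).symm h⟩
    rw [h1, semi_iff hC (TA (LAut t)) conj_mem_TA Q171.NF.conj_inj,
      main_TA hC (conj_mem_LAut t), ih]
    exact Iff.rfl

/-- the tree has a vertex -/
def LT.Big : LT → Prop
  | leaf _ => False
  | node _ _ => True
  | letter _ => True

/-- **hierarchies of free factors and letters** -/
theorem main_tree {C : ∀ (G : Type) [Group G], Prop} (hC : ClosedE C) (t : LT) (ht : t.Big) :
    C (LAut t) ↔ ∀ A ∈ t.leaves, C (Holo A.El) := by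
  rw [← semi_iff_leaves hC]
  constructor
  · intro h
    cases t with
    | leaf A => exact ht.elim
    | node l r =>
      have h1 : C (Glue (LAut l) (LAut r)) :=
        sub_congr (N := MulAut (Monoid.Coprod l.grp.El r.grp.El)) (LAut_node l r) h
      exact semi_congr (N := Monoid.Coprod l.grp.El r.grp.El) (LAut_node l r).symm
        ((Q171.HI.semi_iff hC).2 h1)
    | letter t =>
      have h1 : C (TA (LAut t)) :=
        sub_congr (N := MulAut (Monoid.Coprod t.grp.El (Multiplicative ℤ))) (LAut_letter t) h
      exact semi_congr (N := Monoid.Coprod t.grp.El (Multiplicative ℤ)) (LAut_letter t).symm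
        ((semi_iff hC (TA (LAut t)) conj_mem_TA Q171.NF.conj_inj).2 h1)
  · intro h
    exact hC.base.of_injective _ _ SemidirectProduct.inr SemidirectProduct.inr_injective h

end Q182.Tr
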