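import Pool.Agent.Q182.TrWord
import Pool.Agent.Q182.TrSgn

/-!
# Complements of the first factor in the free product of a group and an infinite cyclic group
-/

set_option autoImplicit false

namespace Q182.Tr

open Monoid
open Q171.NF

/-- the two factors -/
def Mf (H : Type) : Bool → Type
  | true => H
  | false => Multiplicative ℤ

instance instMf (H : Type) [Group H] : ∀ i, Group (Mf H i)
  | true => inferInstanceAs (Group H)
  | false => inferInstanceAs (Group (Multiplicative ℤ))

variable {H : Type} [Group H]

/-- the first factor -/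
def oT : H →* CoprodI (Mf H) := CoprodI.of (M := Mf H) (i := true)

/-- the second factor -/
def oF : Multiplicative ℤ →* CoprodI (Mf H) := CoprodI.of (M := Mf H) (i := false)

/-- a homomorphism given on the two factors -/
def lf {Q : Type} [Group Q] (f : H →* Q) (g : Multiplicative ℤ →* Q) : CoprodI (Mf H) →* Q :=
  CoprodI.lift (fun i => match i with
    | true => f
    | false => g)

theorem lf_T {Q : Type} [Group Q] (f : H →* Q) (g : Multiplicative ℤ →* Q) (h : H) :
    lf f g (oT h) = f h := CoprodI.lift_of _ _

theorem lf_F {Q : Type} [Group Q] (f : H →* Q) (g : Multiplicative ℤ →* Q) (k : Multiplicative ℤ) :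
    lf f g (oF k) = g k := CoprodI.lift_of _ _

theorem ext_I {Q : Type} [Group Q] {f g : CoprodI (Mf H) →* Q} (h1 : ∀ h, f (oT h) = g (oT h))
    (h2 : ∀ k, f (oF k) = g (oF k)) : f = g := by
  apply CoprodI.ext_hom
  intro i
  cases i with
  | true => exact MonoidHom.ext h1
  | false => exact MonoidHom.ext h2

/-- **complements of the first factor**: if `H` and `y` generate `H * ⟨x⟩`, then `y` is in
`H x H` or in `H x⁻¹ H` -/
theorem uniq {y : Coprod H (Multiplicative ℤ)}
    (hy : ∀ g, ∃ t, Coprod.lift Coprod.inl (zpowersHom _ y) t = g) :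
    ∃ a b : H, y = Coprod.inl a * xx H * Coprod.inl b ∨
      y = Coprod.inl a * (xx H)⁻¹ * Coprod.inl b := by
  let q : Coprod H (Multiplicative ℤ) →* CoprodI (Mf H) := Coprod.lift oT oF
  let p : CoprodI (Mf H) →* Coprod H (Multiplicative ℤ) := lf Coprod.inl Coprod.inr
  have hqp : ∀ z, q (p z) = z := by
    have h1 : q.comp p = MonoidHom.id _ := by
      apply ext_I
      · intro h
        show q (p (oT h)) = oT h
        simp only [p, q, lf_T, Coprod.lift_apply_inl]
      · intro k
        show q (p (oF k)) = oF k
        simp only [p, q, lf_F, Coprod.lift_apply_inr]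
    exact DFunLike.congr_fun h1
  have hpq : ∀ z, p (q z) = z := by
    have h1 : p.comp q = MonoidHom.id _ := by
      apply Coprod.hom_ext
      · refine MonoidHom.ext fun h => ?_
        show p (q (Coprod.inl h)) = Coprod.inl h
        simp only [p, q, lf_T, Coprod.lift_apply_inl]
      · refine MonoidHom.ext fun k => ?_
        show p (q (Coprod.inr k)) = Coprod.inr k
        simp only [p, q, lf_F, Coprod.lift_apply_inr]
    exact DFunLike.congr_fun h1
  let Λ : Coprod H (Multiplicative ℤ) →* Coprod H (Multiplicative ℤ) :=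
    Coprod.lift Coprod.inl (zpowersHom _ y)
  have hΛs : Function.Surjective Λ := hy
  obtain ⟨a, b, y0, h1, h2⟩ := dcoset2 (M := Mf H) (q y)
  change H at a b
  have h1' : q y = oT a * y0 * oT b := h1
  -- no power of `x` can be missed
  have hkey : ∀ e : CoprodI (Mf H) →* Multiplicative ℤ, (∀ h, e (oT h) = 1) → e y0 ≠ 1 ∨
      ∀ k, e (oF k) = 1 := by
    intro e he
    by_contra hcon
    push Not at hcon
    obtain ⟨h3, k, hk⟩ := hcon
    obtain ⟨t, ht⟩ := hΛs (Coprod.inr k)
    have h4 : (e.comp q).comp Λ = 1 := by
      apply ext_letter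
      · intro h
        show e (q (Λ (Coprod.inl h))) = 1
        simp only [Λ, q, Coprod.lift_apply_inl, he]
      · show e (q (Λ (xx H))) = 1
        have h5 : Λ (xx H) = y := by simp [Λ, xx]
        rw [h5, h1', map_mul, map_mul, he, he, h3, one_mul, one_mul]
    have h5 := DFunLike.congr_fun h4 t
    have h6 : e (q (Λ t)) = 1 := h5
    rw [ht] at h6
    apply hk
    have h7 : q (Coprod.inr k) = oF k := Coprod.lift_apply_inr _ _ _
    rw [← h7]
    exact h6
  let e : CoprodI (Mf H) →* Multiplicative ℤ := lf 1 (MonoidHom.id _)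
  have heT : ∀ h : H, e (oT h) = 1 := fun h => lf_T _ _ h
  have heF : ∀ k, e (oF k) = k := fun k => lf_F _ _ k
  have hone : (Multiplicative.ofAdd (1 : ℤ)) ≠ 1 := by decide
  have hey : e y0 ≠ 1 := by
    rcases hkey e heT with h3 | h3
    · exact h3
    · exact absurd ((heF _).symm.trans (h3 (Multiplicative.ofAdd 1))) hone
  rcases h2 with h2 | ⟨w, hw⟩
  · rw [h2, map_one] at hey
    exact absurd rfl hey
  · -- the substitution
    let Φ : CoprodI (Mf H) →* CoprodI (Mf H) := lf oT (zpowersHom _ y0)
    have hΦT : ∀ h : H, Φ (oT h) = oT h := fun h => lf_T _ _ h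
    have hΦF : ∀ k, Φ (oF k) = y0 ^ (Multiplicative.toAdd k) := fun k => lf_F _ _ k
    have hq1 : ∀ g, ∃ t, Φ t = q (Λ g) := by
      have h3 : (q.comp Λ).range ≤ Φ.range := by
        have h4 : ((q.comp Λ).range : Subgroup (CoprodI (Mf H))) ≤ Φ.range := by
          rintro _ ⟨g, rfl⟩
          induction g using Monoid.Coprod.induction_on with
          | inl h =>
            refine ⟨oT h, ?_⟩
            show Φ (oT h) = q (Λ (Coprod.inl h))
            simp only [Λ, q, Coprod.lift_apply_inl, hΦT]
          | inr k =>
            have h5 : q (Λ (Coprod.inr k)) = (oT a * y0 * oT b) ^ (Multiplicative.toAdd k) := by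
              rw [← h1']
              simp [Λ]
            show q (Λ (Coprod.inr k)) ∈ Φ.range
            rw [h5]
            have m1 : ∀ h : H, oT h ∈ Φ.range := fun h => ⟨oT h, hΦT h⟩
            have m2 : y0 ∈ Φ.range := ⟨oF (Multiplicative.ofAdd 1), by rw [hΦF]; simp⟩
            exact zpow_mem (mul_mem (mul_mem (m1 a) m2) (m1 b)) _
          | mul s t hs ht =>
            rw [map_mul]
            exact mul_mem hs ht
        exact h4
      exact fun g => h3 ⟨g, rfl⟩
    have hΦs : Function.Surjective Φ := by
      intro z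
      obtain ⟨g, hg⟩ := hΛs (p z)
      obtain ⟨t, ht⟩ := hq1 g
      exact ⟨t, by rw [ht, hg, hqp]⟩
    obtain ⟨b', hb'⟩ := surj_word (M := Mf H) e Φ hΦT w (by rw [hw]; exact hey) (fun b hb =>
      ⟨Multiplicative.toAdd (show Multiplicative ℤ from b), fun h => hb h, by
        rw [hw]; exact hΦF b⟩) hΦs
    rw [hw] at hb'
    have hb2 : y0 = oF (show Multiplicative ℤ from b') := hb'
    generalize (show Multiplicative ℤ from b') = c at hb2
    -- the exponent is `1` or `-1`
    obtain ⟨t, ht⟩ := hΦs (oF (Multiplicative.ofAdd 1))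
    have h8 : ∀ t, e (Φ t) ∈ Subgroup.zpowers c := by
      intro t
      have h9 : (e.comp Φ) = (zpowersHom (Multiplicative ℤ) c).comp e := by
        apply ext_I
        · intro h
          show e (Φ (oT h)) = zpowersHom _ c (e (oT h))
          rw [hΦT, heT, map_one]
        · intro k
          show e (Φ (oF k)) = zpowersHom _ c (e (oF k))
          rw [hΦF, map_zpow, hb2, heF, heF]
          rfl
      have h10 : e (Φ t) = zpowersHom _ c (e t) := DFunLike.congr_fun h9 t
      rw [h10]
      exact ⟨_, rfl⟩
    obtain ⟨m, hm⟩ := h8 t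
    rw [ht, heF] at hm
    have h11 : m * Multiplicative.toAdd c = 1 := by
      have := congrArg Multiplicative.toAdd hm
      simpa using this
    have hyy : y = Coprod.inl a * Coprod.inr c * Coprod.inl b := by
      rw [← hpq y, h1', hb2, map_mul, map_mul]
      simp only [p, lf_T, lf_F]
    refine ⟨a, b, ?_⟩
    rcases Int.eq_one_or_neg_one_of_mul_eq_one' h11 with ⟨-, h12⟩ | ⟨-, h12⟩
    · left
      have : c = Multiplicative.ofAdd 1 := by rw [← h12]; rfl
      rw [hyy, this]
      rfl
    · right
      have : c = (Multiplicative.ofAdd 1)⁻¹ := by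
        rw [← ofAdd_neg, ← h12]
        rfl
      rw [hyy, this, map_inv]
      rfl

end Q182.Tr
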