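import Pool.Agent.Q171.NF.Words

/-!
# Powers of words in the free product of a group and an infinite cyclic group
-/

set_option autoImplicit false

namespace Q182.Tr

open Monoid CoprodI
open Q171.NF

section gen

variable {M : Bool → Type} [∀ i, Group (M i)]

theorem length_pos' {i j : Bool} (w : NeWord M i j) : 0 < w.toList.length :=
  List.length_pos_of_ne_nil (NeWord.toList_ne_nil w)

/-- the length of the inverse -/
theorem length_inv {i j : Bool} (w : NeWord M i j) :
    w.inv.toList.length = w.toList.length := by
  induction w with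
  | singleton x hx => rfl
  | append w1 hne w2 ih1 ih2 =>
    simp only [NeWord.inv, NeWord.toList, List.length_append, ih1, ih2]
    omega

/-- splitting off the first letter -/
theorem split_head {i j : Bool} (w : NeWord M i j) :
    (i = j ∧ w.prod = of w.head ∧ w.toList.length = 1) ∨
      ∃ r : NeWord M (!i) j, w.prod = of w.head * r.prod ∧
        r.toList.length + 1 = w.toList.length ∧ r.last = w.last := by
  induction w with
  | singleton x hx => exact Or.inl ⟨rfl, NeWord.prod_singleton x hx, rfl⟩
  | @append i j k l w1 hne w2 ih1 ih2 =>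
    right
    rcases ih1 with ⟨rfl, h2, h3⟩ | ⟨r, h2, h3, h4⟩
    · have hk : k = !i := by cases i <;> cases k <;> simp_all
      subst hk
      refine ⟨w2, ?_, ?_, rfl⟩
      · rw [NeWord.append_prod, h2]
        rfl
      · simp only [NeWord.toList, List.length_append, h3]
        omega
    · refine ⟨NeWord.append r hne w2, ?_, ?_, rfl⟩
      · rw [NeWord.append_prod, NeWord.append_prod, h2, mul_assoc]
        rfl
      · simp only [NeWord.toList, List.length_append]
        omega

/-- splitting off the last letter -/
theorem split_last {i j : Bool} (w : NeWord M i j) :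
    (i = j ∧ w.prod = of w.last ∧ w.toList.length = 1) ∨
      ∃ r : NeWord M i (!j), w.prod = r.prod * of w.last ∧
        r.toList.length + 1 = w.toList.length ∧ r.head = w.head := by
  induction w with
  | singleton x hx => exact Or.inl ⟨rfl, NeWord.prod_singleton x hx, rfl⟩
  | @append i j k l w1 hne w2 ih1 ih2 =>
    right
    rcases ih2 with ⟨rfl, h2, h3⟩ | ⟨r, h2, h3, h4⟩
    · have hj : j = !k := by cases j <;> cases k <;> simp_all
      subst hj
      refine ⟨w1, ?_, ?_, rfl⟩
      · rw [NeWord.append_prod, h2]
        rfl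
      · simp only [NeWord.toList, List.length_append, h3]
    · refine ⟨NeWord.append w1 hne r, ?_, ?_, rfl⟩
      · rw [NeWord.append_prod, NeWord.append_prod, h2, mul_assoc]
        rfl
      · simp only [NeWord.toList, List.length_append]
        omega

/-- the middle part of a word with at least three letters -/
theorem split_both {i : Bool} (w : NeWord M i i) :
    (w.prod = of w.head ∧ w.toList.length = 1) ∨
      ∃ m : NeWord M (!i) (!i), w.prod = of w.head * m.prod * of w.last ∧
        m.toList.length + 2 = w.toList.length := by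
  rcases split_head w with ⟨-, h2, h3⟩ | ⟨r, h2, h3, h4⟩
  · exact Or.inl ⟨h2, h3⟩
  · right
    rcases split_last r with ⟨h5, -⟩ | ⟨m, h5, h6, -⟩
    · exfalso
      cases i <;> simp at h5
    · refine ⟨m, ?_, by omega⟩
      rw [h2, h5, h4, mul_assoc]

/-- powers of a cyclically reduced word -/
theorem pow_cyc {i : Bool} (w : NeWord M i i) (m : NeWord M (!i) (!i))
    (hm : w.prod = of w.head * m.prod * of w.last) (hne : w.last * w.head ≠ 1) (n : ℕ) :
    ∃ u : NeWord M i i, u.prod = w.prod ^ (n + 1) ∧ u.last = w.last ∧ 3 ≤ u.toList.length := by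
  have hni : i ≠ !i := by cases i <;> simp
  have hni' : (!i) ≠ i := hni.symm
  have hl : w.last ≠ 1 ∧ w.head ≠ 1 := by
    have hl1 : ∀ {i j : Bool} (w : NeWord M i j), w.last ≠ 1 := by
      intro i j w
      induction w with
      | singleton x hx => exact hx
      | append w1 hne w2 ih1 ih2 => exact ih2
    have hh1 : ∀ {i j : Bool} (w : NeWord M i j), w.head ≠ 1 := by
      intro i j w
      induction w with
      | singleton x hx => exact hx
      | append w1 hne w2 ih1 ih2 => exact ih1
    exact ⟨hl1 w, hh1 w⟩
  have hmp := length_pos' m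
  induction n with
  | zero =>
    refine ⟨NeWord.append (NeWord.append (NeWord.singleton w.head hl.2) hni m) hni'
      (NeWord.singleton w.last hl.1), ?_, rfl, ?_⟩
    · rw [NeWord.append_prod, NeWord.append_prod, NeWord.prod_singleton, NeWord.prod_singleton,
        zero_add, pow_one, hm]
    · simp only [NeWord.toList, List.length_append, List.length_singleton]
      omega
  | succ n ih =>
    obtain ⟨u, hu, hul, hu3⟩ := ih
    rcases split_last u with ⟨-, -, h3⟩ | ⟨r, h2, h3, -⟩
    · omega
    · refine ⟨NeWord.append (NeWord.append (NeWord.append r hni'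
        (NeWord.singleton (w.last * w.head) hne)) hni m) hni' (NeWord.singleton w.last hl.1),
        ?_, rfl, ?_⟩
      · rw [NeWord.append_prod, NeWord.append_prod, NeWord.append_prod, NeWord.prod_singleton,
          NeWord.prod_singleton, pow_succ, ← hu, h2, hul]
        conv_rhs => rw [hm]
        rw [map_mul]
        simp only [mul_assoc]
      · simp only [NeWord.toList, List.length_append, List.length_singleton]
        omega

/-- powers of words with a nonzero exponent -/
theorem pow_word (ε : CoprodI M →* Multiplicative ℤ) :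
    ∀ (n : ℕ) (i : Bool) (w : NeWord M i i), w.toList.length = n → ε w.prod ≠ 1 → ∀ j : ℕ, 0 < j →
      ∃ u : NeWord M i i, u.prod = w.prod ^ j ∧ (3 ≤ w.toList.length → 3 ≤ u.toList.length) := by
  intro n
  induction n using Nat.strong_induction_on with
  | _ n ih =>
    intro i w hn hw j hj
    have hni : i ≠ !i := by cases i <;> simp
    rcases split_both w with ⟨h1, h2⟩ | ⟨m, hm, hl⟩
    · have hne : w.head ^ j ≠ 1 := by
        intro h
        have h3 : ε w.prod ^ j = 1 := by rw [h1, ← map_pow, ← map_pow, h, map_one, map_one]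
        apply hw
        have h4 : j • Multiplicative.toAdd (ε w.prod) = 0 := h3
        rcases smul_eq_zero.1 h4 with h5 | h5
        · omega
        · exact h5
      refine ⟨NeWord.singleton _ hne, ?_, by omega⟩
      rw [NeWord.prod_singleton, map_pow, ← h1]
    · by_cases hc : w.last * w.head = 1
      · have hlast : w.last = w.head⁻¹ := eq_inv_of_mul_eq_one_left hc
        have hprod : w.prod = of w.head * m.prod * (of w.head)⁻¹ := by
          rw [hm, hlast, map_inv]
        have hεm : ε m.prod ≠ 1 := by
          intro h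
          apply hw
          rw [hprod, map_mul, map_mul, h, mul_one, ← map_mul, mul_inv_cancel, map_one]
        obtain ⟨u, hu, -⟩ := ih m.toList.length (by omega) (!i) m rfl hεm j hj
        have hh : w.head ≠ 1 := by
          intro h
          have h5 : ∀ {i j : Bool} (w : NeWord M i j), w.head ≠ 1 := by
            intro i j w
            induction w with
            | singleton x hx => exact hx
            | append w1 hne w2 ih1 ih2 => exact ih1
          exact h5 w h
        refine ⟨NeWord.append (NeWord.append (NeWord.singleton w.head hh) hni u) hni.symm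
          (NeWord.singleton w.head⁻¹ (inv_ne_one.2 hh)), ?_, ?_⟩
        · rw [NeWord.append_prod, NeWord.append_prod, NeWord.prod_singleton,
            NeWord.prod_singleton, hprod, hu, map_inv, conj_pow]
        · intro _
          have := length_pos' u
          simp only [NeWord.toList, List.length_append, List.length_singleton]
          omega
      · obtain ⟨u, hu, -, hu3⟩ := pow_cyc w m hm hc (j - 1)
        refine ⟨u, ?_, fun _ => hu3⟩
        rw [hu]
        congr 1
        omega

/-- integral powers -/
theorem zpow_word (ε : CoprodI M →* Multiplicative ℤ)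
    (w : NeWord M false false) (hw : ε w.prod ≠ 1) (h3 : 3 ≤ w.toList.length) (k : ℤ) (hk : k ≠ 0) :
    ∃ u : NeWord M false false, u.prod = w.prod ^ k ∧ 3 ≤ u.toList.length := by
  obtain ⟨u, hu, hu3⟩ := pow_word ε _ false w rfl hw k.natAbs (Int.natAbs_pos.2 hk)
  rcases Int.natAbs_eq k with h | h
  · refine ⟨u, ?_, hu3 h3⟩
    rw [hu]
    conv_rhs => rw [h]
    rw [zpow_natCast]
  · refine ⟨u.inv, ?_, by rw [length_inv]; exact hu3 h3⟩
    rw [NeWord.inv_prod, hu]
    conv_rhs => rw [h]
    rw [zpow_neg, zpow_natCast]

/-- substitution of a word for the letters of the second factor -/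
theorem subst_word (Φ : CoprodI M →* CoprodI M) (h1 : ∀ a : M true, Φ (of a) = of a)
    (h2 : ∀ b : M false, b ≠ 1 → ∃ u : NeWord M false false, u.prod = Φ (of b) ∧
      3 ≤ u.toList.length) : ∀ {i j : Bool} (g : NeWord M i j),
    ∃ g' : NeWord M i j, g'.prod = Φ g.prod ∧ (3 ≤ g'.toList.length ∨ (i = true ∧ j = true)) := by
  intro i j g
  induction g with
  | @singleton i x hx =>
    cases i with
    | true => exact ⟨NeWord.singleton x hx, by rw [NeWord.prod_singleton, h1],
        Or.inr ⟨rfl, rfl⟩⟩
    | false =>
      obtain ⟨u, hu, hu3⟩ := h2 x hx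
      exact ⟨u, by rw [hu, NeWord.prod_singleton], Or.inl hu3⟩
  | @append i j k l w1 hne w2 ih1 ih2 =>
    obtain ⟨u1, hu1, h3⟩ := ih1
    obtain ⟨u2, hu2, h4⟩ := ih2
    refine ⟨NeWord.append u1 hne u2, by rw [NeWord.append_prod, NeWord.append_prod, hu1, hu2,
      map_mul], Or.inl ?_⟩
    simp only [NeWord.toList, List.length_append]
    rcases h3 with h3 | ⟨h3, h3'⟩
    · omega
    · rcases h4 with h4 | ⟨h4, h4'⟩
      · omega
      · exact absurd (h3'.trans h4.symm) hne

/-- a substitution which is onto -/
theorem surj_word (ε : CoprodI M →* Multiplicative ℤ)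
    (Φ : CoprodI M →* CoprodI M) (h1 : ∀ a : M true, Φ (of a) = of a)
    (w : NeWord M false false) (hw : ε w.prod ≠ 1)
    (h2 : ∀ b : M false, b ≠ 1 → ∃ k : ℤ, k ≠ 0 ∧ Φ (of b) = w.prod ^ k)
    (hs : Function.Surjective Φ) : ∃ b : M false, w.prod = of b := by
  rcases split_both w with ⟨h3, -⟩ | ⟨m, -, hl⟩
  · exact ⟨_, h3⟩
  · exfalso
    have h3 : 3 ≤ w.toList.length := by
      have := length_pos' m
      omega
    have hb : ∃ b : M false, b ≠ 1 := by
      have h5 : ∀ {i j : Bool} (w : NeWord M i j), w.head ≠ 1 := by
        intro i j w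
        induction w with
        | singleton x hx => exact hx
        | append w1 hne w2 ih1 ih2 => exact ih1
      exact ⟨w.head, h5 w⟩
    obtain ⟨b, hb⟩ := hb
    obtain ⟨t, ht⟩ := hs (of b)
    have ht1 : t ≠ 1 := by
      rintro rfl
      rw [map_one] at ht
      exact neWord_ne_one (NeWord.singleton b hb) (by rw [NeWord.prod_singleton, ← ht])
    obtain ⟨i, j, g, hg⟩ := exists_neWord t ht1
    obtain ⟨g', hg', h4⟩ := subst_word Φ h1 (fun b hb => by
      obtain ⟨k, hk, hk2⟩ := h2 b hb
      obtain ⟨u, hu, hu3⟩ := zpow_word ε w hw h3 k hk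
      exact ⟨u, by rw [hu, hk2], hu3⟩) g
    rw [hg, ht, ← NeWord.prod_singleton b hb] at hg'
    have h5 := neWord_inj _ _ hg'
    have h6 := neWord_fst _ _ hg'
    rcases h4 with h4 | ⟨h4, -⟩
    · rw [h5] at h4
      simp [NeWord.toList] at h4
    · rw [h4] at h6
      exact absurd h6 (by simp)

/-- double cosets of the first factor -/
theorem dcoset2 (x : CoprodI M) : ∃ (a b : M true) (y : CoprodI M),
    x = of a * y * of b ∧ (y = 1 ∨ ∃ w : NeWord M false false, w.prod = y) := by
  obtain ⟨a, y, h1, h2⟩ := strip true x
  obtain ⟨b, z, h3, h4⟩ := strip true y⁻¹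
  have h5 : y = z⁻¹ * of b⁻¹ := by
    rw [← inv_inj, h3, mul_inv_rev, inv_inv, map_inv, inv_inv]
  rcases h4 with h4 | ⟨j, w, hw⟩
  · refine ⟨a, b⁻¹, 1, ?_, Or.inl rfl⟩
    rw [h1, h5, h4, inv_one, one_mul, mul_one]
  · refine ⟨a, b⁻¹, z⁻¹, by rw [h1, h5, mul_assoc], Or.inr ?_⟩
    have h6 : w.inv.prod = z⁻¹ := by rw [NeWord.inv_prod, hw]
    change ∃ w : NeWord M false false, w.prod = z⁻¹
    cases j with
    | false => exact ⟨w.inv, h6⟩
    | true =>
      exfalso
      obtain ⟨k, w', hw'⟩ : ∃ (k : Bool) (w' : NeWord M true k), w'.prod = y := by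
        by_cases hb : b⁻¹ = 1
        · exact ⟨_, w.inv, by rw [h6, h5, hb, map_one, mul_one]⟩
        · refine ⟨_, NeWord.append w.inv (by simp) (NeWord.singleton b⁻¹ hb), ?_⟩
          rw [NeWord.append_prod, NeWord.prod_singleton, h6, h5]
      rcases h2 with h2 | ⟨k', w'', hw''⟩
      · exact neWord_ne_one w' (hw'.trans h2)
      · exact absurd (neWord_fst w' w'' (hw'.trans hw''.symm)) (by simp)

end gen

end Q182.Tr
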