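import Mathlib

/-!
# Vietoris–Rips complexes and geometric realizations of simplicial complexes
-/

namespace Q182.VR

/-- The simplices of the Vietoris–Rips complex `VR_<(Y; r)`: the nonempty finite subsets in which
all distances are less than `r`. -/
def vrSimplices (Y : Type) [MetricSpace Y] (r : ℝ) : Set (Finset Y) :=
  {σ | σ.Nonempty ∧ ∀ x ∈ σ, ∀ y ∈ σ, dist x y < r}

/-- The points of the geometric realization of the simplicial complex with vertex set `V` and set
of simplices `K`: the formal convex combinations of vertices whose support is a simplex. -/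
structure Realization (V : Type) (K : Set (Finset V)) where
  /-- the barycentric coordinates -/
  coord : V →₀ ℝ
  nonneg : ∀ v, 0 ≤ coord v
  sum_eq : (coord.sum fun _ t => t) = 1
  mem : coord.support ∈ K

variable {V : Type} {K : Set (Finset V)}

/-- A subset of the realization is open if its trace on every closed simplex `|σ|` is open in the
usual topology of this simplex (the weak topology). -/
def WeakOpen (U : Set (Realization V K)) : Prop :=
  ∀ σ ∈ K, ∀ p ∈ U, p.coord.support ⊆ σ → ∃ δ > 0, ∀ q : Realization V K,
    q.coord.support ⊆ σ → (∀ v, |q.coord v - p.coord v| < δ) → q ∈ U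

/-- The weak topology of the geometric realization. -/
instance : TopologicalSpace (Realization V K) where
  IsOpen := WeakOpen
  isOpen_univ := fun _ _ _ _ _ => ⟨1, one_pos, fun _ _ _ => trivial⟩
  isOpen_inter := by
    intro A B hA hB σ hσ p hp hpσ
    obtain ⟨δ, hδ, h1⟩ := hA σ hσ p hp.1 hpσ
    obtain ⟨δ', hδ', h2⟩ := hB σ hσ p hp.2 hpσ
    exact ⟨min δ δ', lt_min hδ hδ', fun q hq hv => ⟨h1 q hq fun v => (hv v).trans_le (min_le_left _ _),
      h2 q hq fun v => (hv v).trans_le (min_le_right _ _)⟩⟩
  isOpen_sUnion := by
    rintro T hT σ hσ p ⟨A, hA, hp⟩ hpσ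
    obtain ⟨δ, hδ, h1⟩ := hT A hA σ hσ p hp hpσ
    exact ⟨δ, hδ, fun q hq hv => ⟨A, hA, h1 q hq hv⟩⟩

/-- The geometric realization of the Vietoris–Rips complex `VR_<(Y; r)`. -/
abbrev VRSpace (Y : Type) [MetricSpace Y] (r : ℝ) : Type := Realization Y (vrSimplices Y r)

/-- The product of two metric spaces with the metric `√(d_S² + d_N²)`, that is the metric of the
Riemannian product when `S` and `N` are Riemannian manifolds. -/
def RProd (S N : Type) : Type := WithLp 2 (S × N)

noncomputable instance (S N : Type) [MetricSpace S] [MetricSpace N] : MetricSpace (RProd S N) :=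
  inferInstanceAs (MetricSpace (WithLp 2 (S × N)))

open ContinuousMap in
/-- For every `ε > 0` there is a finite `ε`-dense subset `X` of `M` for which `VR_<(X; r)` and
`VR_<(M; r)` are not homotopy equivalent. -/
def DensityFails (M : Type) [MetricSpace M] (r : ℝ) : Prop :=
  ∀ ε : ℝ, 0 < ε → ∃ X : Set M, X.Finite ∧ (∀ y, ∃ x ∈ X, dist y x < ε) ∧
    IsEmpty (VRSpace X r ≃ₕ VRSpace M r)

/-- The unit sphere `S^n` of `ℝ^(n+1)`, to be considered with the geodesic (great-circle) metric. -/
def Sph (n : ℕ) : Type := Metric.sphere (0 : EuclideanSpace ℝ (Fin (n + 1))) 1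

lemma Sph.norm_val {n : ℕ} (x : Sph n) : ‖x.1‖ = 1 := mem_sphere_zero_iff_norm.1 x.2

/-- The geodesic metric of the sphere: the distance of `x` and `y` is the angle of `x` and `y`. -/
noncomputable instance (n : ℕ) : MetricSpace (Sph n) where
  dist x y := InnerProductGeometry.angle x.1 y.1
  dist_self x := InnerProductGeometry.angle_self fun h => by
    have := x.norm_val
    rw [h, norm_zero] at this
    exact zero_ne_one this
  dist_comm x y := InnerProductGeometry.angle_comm _ _
  dist_triangle x y z := InnerProductGeometry.angle_le_angle_add_angle x.1 y.1 z.1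
  eq_of_dist_eq_zero := by
    intro x y h
    obtain ⟨-, r, hr, h1⟩ := InnerProductGeometry.angle_eq_zero_iff.1 h
    have h2 := congrArg norm h1
    rw [norm_smul, x.norm_val, y.norm_val, mul_one, Real.norm_of_nonneg hr.le] at h2
    apply Subtype.ext
    rw [h1, ← h2, one_smul]

end Q182.VR
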