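import Mathlib
import Pool.Agent.H63Fed.Miranda

/-!
# The identity of a sphere does not factor up to homotopy through a space of smaller dimension
-/

namespace Q182.VR

open Topology unitInterval ContDiff

/-- The unit sphere of `ℝⁿ` with the maximum norm. -/
abbrev Sp (n : ℕ) : Type := {y : Fin n → ℝ // ‖y‖ = 1}

instance (n : ℕ) : CompactSpace (Sp n) := by
  have h : IsCompact {y : Fin n → ℝ | ‖y‖ = 1} := by
    have : {y : Fin n → ℝ | ‖y‖ = 1} = Metric.sphere 0 1 := by
      ext y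
      rw [mem_sphere_zero_iff_norm]
      rfl
    rw [this]
    exact isCompact_sphere _ _
  exact isCompact_iff_compactSpace.1 h

/-- The parametrization of the ball by polar coordinates. -/
def polar (n : ℕ) : I × Sp n → Metric.closedBall (0 : Fin n → ℝ) 1 := fun z =>
  ⟨(z.1 : ℝ) • z.2.1, by
    rw [mem_closedBall_zero_iff, norm_smul, z.2.2, mul_one, Real.norm_of_nonneg z.1.2.1]
    exact z.1.2.2⟩

lemma continuous_polar (n : ℕ) : Continuous (polar n) := by
  unfold polar
  fun_prop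

/-- The continuous parametrization of the ball. -/
def polarC (n : ℕ) : C(I × Sp n, Metric.closedBall (0 : Fin n → ℝ) 1) :=
  ⟨polar n, continuous_polar n⟩

lemma polar_surjective {n : ℕ} (hn : 0 < n) : Function.Surjective (polar n) := by
  rintro ⟨x, hx⟩
  rw [mem_closedBall_zero_iff] at hx
  by_cases h0 : x = 0
  · refine ⟨(0, ⟨fun _ => 1, ?_⟩), ?_⟩
    · have : Nonempty (Fin n) := ⟨⟨0, hn⟩⟩
      rw [pi_norm_const, norm_one]
    · apply Subtype.ext
      change ((0 : I) : ℝ) • _ = x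
      rw [h0]
      simp
  · have h1 : 0 < ‖x‖ := norm_pos_iff.2 h0
    refine ⟨(⟨‖x‖, h1.le, hx⟩, ⟨‖x‖⁻¹ • x, ?_⟩), ?_⟩
    · rw [norm_smul, norm_inv, norm_norm, inv_mul_cancel₀ h1.ne']
    · apply Subtype.ext
      change ‖x‖ • (‖x‖⁻¹ • x) = x
      rw [smul_smul, mul_inv_cancel₀ h1.ne', one_smul]

/-- The inclusion of the sphere is not null-homotopic in the complement of a point of the open
unit ball. -/
theorem not_null {n : ℕ} (hn : 0 < n) {c : Fin n → ℝ} (hc : ‖c‖ < 1) (p : Fin n → ℝ)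
    (H : C(I × Sp n, Fin n → ℝ)) (h0 : ∀ x, H (0, x) = p) (h1 : ∀ x, H (1, x) = x.1)
    (hne : ∀ z, H z ≠ c) : False := by
  have hq : IsQuotientMap (polarC n) :=
    (continuous_polar n).isClosedMap.isQuotientMap (continuous_polar n) (polar_surjective hn)
  have hfac : Function.FactorsThrough H (polarC n) := by
    rintro ⟨t, x⟩ ⟨t', x'⟩ h
    have h2 : (t : ℝ) • x.1 = (t' : ℝ) • x'.1 := congrArg Subtype.val h
    have h3 : (t : ℝ) = t' := by
      have := congrArg norm h2
      rwa [norm_smul, norm_smul, x.2, x'.2, mul_one, mul_one, Real.norm_of_nonneg t.2.1,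
        Real.norm_of_nonneg t'.2.1] at this
    have h4 : t = t' := Subtype.ext h3
    subst h4
    by_cases ht : (t : ℝ) = 0
    · have h5 : t = 0 := Subtype.ext ht
      rw [h5, h0, h0]
    · have h5 : x = x' := Subtype.ext (smul_right_injective _ ht h2)
      rw [h5]
  let F : C(Metric.closedBall (0 : Fin n → ℝ) 1, Fin n → ℝ) := hq.lift H hfac
  have hF : ∀ z, F (polar n z) = H z := fun z => by
    have := hq.lift_comp H hfac
    exact DFunLike.congr_fun this z
  have hFne : ∀ x, F x ≠ c := by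
    intro x
    obtain ⟨z, rfl⟩ := polar_surjective hn x
    rw [hF]
    exact hne z
  have hFb : ∀ x : Metric.closedBall (0 : Fin n → ℝ) 1, ‖x.1‖ = 1 → F x = x.1 := by
    intro x hx
    have : x = polar n (1, ⟨x.1, hx⟩) := by
      apply Subtype.ext
      change x.1 = ((1 : I) : ℝ) • x.1
      simp
    rw [this, hF, h1]
    change x.1 = ((1 : I) : ℝ) • x.1
    simp
  -- transport to the cube
  let g : (Fin n → ℝ) → (Fin n → ℝ) := fun x i => 2 * x i - 1
  have hg : ∀ x : Fin n → ℝ, (∀ i, 0 ≤ x i ∧ x i ≤ 1) → g x ∈ Metric.closedBall (0 : Fin n → ℝ) 1 := by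
    intro x hx
    rw [mem_closedBall_zero_iff, pi_norm_le_iff_of_nonneg zero_le_one]
    intro i
    rw [Real.norm_eq_abs, abs_le]
    have := hx i
    constructor
    · change -1 ≤ 2 * x i - 1
      linarith
    · change 2 * x i - 1 ≤ 1
      linarith
  classical
  let G : (Fin n → ℝ) → (Fin n → ℝ) := fun x =>
    if h : g x ∈ Metric.closedBall (0 : Fin n → ℝ) 1 then F ⟨g x, h⟩ - c else 0
  have hGval : ∀ x (h : g x ∈ Metric.closedBall (0 : Fin n → ℝ) 1), G x = F ⟨g x, h⟩ - c :=
    fun x h => dif_pos h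
  have hGc : ContinuousOn G {x | ∀ i, 0 ≤ x i ∧ x i ≤ 1} := by
    rw [continuousOn_iff_continuous_domRestrict]
    have hgc : Continuous g := by fun_prop
    have h5 : Continuous fun x : {x : Fin n → ℝ | ∀ i, 0 ≤ x i ∧ x i ≤ 1} =>
        (⟨g x.1, hg x.1 x.2⟩ : Metric.closedBall (0 : Fin n → ℝ) 1) :=
      Continuous.subtype_mk (hgc.comp continuous_subtype_val) _
    have h6 := (F.continuous.comp h5).sub (continuous_const (y := c))
    refine h6.congr fun x => ?_
    exact (hGval x.1 (hg x.1 x.2)).symm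
  have hnorm : ∀ x : Fin n → ℝ, (∀ i, 0 ≤ x i ∧ x i ≤ 1) → ∀ i, |g x i| = 1 → ‖g x‖ = 1 := by
    intro x hx i hi
    apply le_antisymm
    · exact mem_closedBall_zero_iff.1 (hg x hx)
    · rw [← hi, ← Real.norm_eq_abs]
      exact norm_le_pi_norm (g x) i
  have hcabs : ∀ i, |c i| < 1 := fun i => by
    rw [← Real.norm_eq_abs]
    exact (norm_le_pi_norm c i).trans_lt hc
  obtain ⟨x, hx, hx0⟩ := H63Fed.Miranda.poincare_miranda n G hGc
    (fun x hx i hi => by
      have h5 : g x i = -1 := by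
        change 2 * x i - 1 = -1
        rw [hi]; norm_num
      rw [hGval x (hg x hx), hFb _ (hnorm x hx i (by rw [h5]; norm_num)), Pi.sub_apply]
      change g x i - c i ≤ 0
      rw [h5]
      have := abs_lt.1 (hcabs i)
      linarith)
    (fun x hx i hi => by
      have h5 : g x i = 1 := by
        change 2 * x i - 1 = 1
        rw [hi]; norm_num
      rw [hGval x (hg x hx), hFb _ (hnorm x hx i (by rw [h5]; norm_num)), Pi.sub_apply]
      change 0 ≤ g x i - c i
      rw [h5]
      have := abs_lt.1 (hcabs i)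
      linarith)
  rw [hGval x (hg x hx), sub_eq_zero] at hx0
  exact hFne _ hx0

/-- The identity of the sphere `S^(n-1)` does not factor up to homotopy through a closed subspace of
a Euclidean space of dimension less than `n`. -/
theorem noFactor {n : ℕ} (hn : 0 < n) {E : Type} [NormedAddCommGroup E] [NormedSpace ℝ E]
    [FiniteDimensional ℝ E] (hE : Module.finrank ℝ E < n) {A : Type} [TopologicalSpace A]
    {i : A → E} (hi : IsClosedEmbedding i) (u : C(Sp n, A)) (v : C(A, Sp n))
    (h : (v.comp u).Homotopic (ContinuousMap.id (Sp n))) : False := by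
  let incl : C(Sp n, Fin n → ℝ) := ⟨Subtype.val, continuous_subtype_val⟩
  obtain ⟨W, hW⟩ := ContinuousMap.exists_extension hi (incl.comp v)
  let iu : C(Sp n, E) := ⟨fun x => i (u x), hi.continuous.comp u.continuous⟩
  -- a smooth approximation on the compact image
  have hZ : IsCompact (Set.range iu) := isCompact_range iu.continuous
  obtain ⟨g, hgs, hg⟩ : ∃ g : C(E, Fin n → ℝ), ContDiff ℝ ∞ g ∧
      ∀ x ∈ Set.range iu, dist (W x) (g x) < 1 / 4 := by
    have hd := ContinuousMap.dense_setOfPred_contDiff (E := E) (F := Fin n → ℝ)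
    have hnhds : {g : C(E, Fin n → ℝ) | ∀ x ∈ Set.range iu, dist (W x) (g x) < 1 / 4} ∈ 𝓝 W := by
      have := (ContinuousMap.tendsto_iff_forall_isCompact_tendstoUniformlyOn (f := W)
        (F := fun g : C(E, Fin n → ℝ) => g) (p := 𝓝 W)).1 Filter.tendsto_id _ hZ
      rw [Metric.tendstoUniformlyOn_iff] at this
      exact this _ (by norm_num)
    obtain ⟨g, h1, h2⟩ := hd.inter_nhds_nonempty hnhds
    exact ⟨g, h1, h2⟩
  -- a point outside the range of the approximation
  obtain ⟨c, hc, hcn⟩ : ∃ c ∈ (Set.range g)ᶜ, ‖c‖ < 1 / 4 := by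
    have hd := ContDiff.dense_compl_range_of_finrank_lt_finrank (f := (g : E → Fin n → ℝ))
      (hgs.of_le (by exact_mod_cast le_top)) (by rwa [Module.finrank_fin_fun])
    obtain ⟨c, hc1, hc2⟩ := hd.exists_dist_lt 0 (show (0 : ℝ) < 1 / 4 by norm_num)
    exact ⟨c, hc1, by rwa [dist_zero_left] at hc2⟩
  have hcne : ∀ y : Fin n → ℝ, 1 / 4 ≤ ‖y‖ → y ≠ c := by
    rintro y hy rfl
    linarith
  let T : Type := {y : Fin n → ℝ // y ≠ c}
  -- the four maps into the complement of `c`
  let f0 : C(Sp n, T) := ContinuousMap.const _ ⟨g 0, fun h => hc ⟨0, h⟩⟩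
  let f1 : C(Sp n, T) := ⟨fun x => ⟨g (iu x), fun h => hc ⟨_, h⟩⟩, by fun_prop⟩
  let j : C(Sp n, T) := ⟨fun x => ⟨x.1, hcne _ (by rw [x.2]; norm_num)⟩, by fun_prop⟩
  have h01 : f0.Homotopic f1 := by
    refine ⟨⟨⟨fun z => ⟨g ((z.1 : ℝ) • iu z.2), fun h => hc ⟨_, h⟩⟩, by fun_prop⟩, ?_, ?_⟩⟩
    · intro x
      apply Subtype.ext
      change g (((0 : I) : ℝ) • iu x) = g 0
      simp
    · intro x
      apply Subtype.ext
      change g (((1 : I) : ℝ) • iu x) = g (iu x)
      simp
  have hWv : ∀ x, W (iu x) = (v (u x)).1 := fun x => DFunLike.congr_fun hW (u x)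
  have h12 : f1.Homotopic (j.comp (v.comp u)) := by
    have hne : ∀ (t : I) (x : Sp n),
        (1 - (t : ℝ)) • g (iu x) + (t : ℝ) • (v (u x)).1 ≠ c := by
      intro t x
      apply hcne
      have h1 : (v (u x)).1 = ((1 - (t : ℝ)) • g (iu x) + (t : ℝ) • (v (u x)).1) +
          (1 - (t : ℝ)) • ((v (u x)).1 - g (iu x)) := by
        rw [smul_sub, sub_smul, sub_smul, one_smul, one_smul]
        abel
      have h2 : ‖(v (u x)).1‖ = 1 := (v (u x)).2
      have h3 : ‖(1 - (t : ℝ)) • ((v (u x)).1 - g (iu x))‖ ≤ 1 / 4 := by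
        rw [norm_smul, Real.norm_of_nonneg (by linarith [t.2.2])]
        have h4 : ‖(v (u x)).1 - g (iu x)‖ < 1 / 4 := by
          rw [← hWv, ← dist_eq_norm]
          exact hg _ ⟨x, rfl⟩
        have h5 := t.2.1
        have h6 := norm_nonneg ((v (u x)).1 - g (iu x))
        nlinarith
      have h4 := norm_add_le ((1 - (t : ℝ)) • g (iu x) + (t : ℝ) • (v (u x)).1)
        ((1 - (t : ℝ)) • ((v (u x)).1 - g (iu x)))
      rw [← h1, h2] at h4
      linarith
    refine ⟨⟨⟨fun z => ⟨(1 - (z.1 : ℝ)) • g (iu z.2) + (z.1 : ℝ) • (v (u z.2)).1, hne z.1 z.2⟩,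
      by fun_prop⟩, ?_, ?_⟩⟩
    · intro x
      apply Subtype.ext
      change (1 - ((0 : I) : ℝ)) • g (iu x) + ((0 : I) : ℝ) • (v (u x)).1 = g (iu x)
      simp
    · intro x
      apply Subtype.ext
      change (1 - ((1 : I) : ℝ)) • g (iu x) + ((1 : I) : ℝ) • (v (u x)).1 = (v (u x)).1
      simp
  have h23 : (j.comp (v.comp u)).Homotopic j := (ContinuousMap.Homotopic.refl j).comp h
  obtain ⟨H⟩ := (h01.trans h12).trans h23
  refine not_null hn (lt_trans hcn (by norm_num)) (g 0)
    ⟨fun z => (H z).1, continuous_subtype_val.comp H.continuous⟩ (fun x => ?_) (fun x => ?_)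
    fun z => (H z).2
  · change (H (0, x)).1 = g 0
    rw [H.apply_zero]
    rfl
  · change (H (1, x)).1 = x.1
    rw [H.apply_one]
    rfl

end Q182.VR
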