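import Mathlib
import Pool.Agent.Q182.VRDefs

/-!
# The weak topology of a finite complex is the coordinate topology
-/

namespace Q182.VR

open Topology

variable {V : Type} {K : Set (Finset V)}

lemma realization_ext {p q : Realization V K} (h : ∀ v, p.coord v = q.coord v) : p = q := by
  have : p.coord = q.coord := Finsupp.ext h
  cases p; cases q
  subst this
  rfl

lemma continuous_coord (v : V) : Continuous fun p : Realization V K => p.coord v := by
  rw [Metric.continuous_iff']
  intro p ε hε
  have hopen : IsOpen {q : Realization V K | dist (q.coord v) (p.coord v) < ε} := by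
    intro σ _ q hq _
    rw [Set.mem_ofPred_eq] at hq
    refine ⟨ε - dist (q.coord v) (p.coord v), by linarith, fun q' _ hv => ?_⟩
    rw [Set.mem_ofPred_eq]
    have h1 := hv v
    have h2 := dist_triangle (q'.coord v) (q.coord v) (p.coord v)
    rw [Real.dist_eq (q'.coord v) (q.coord v)] at h2
    linarith
  exact hopen.mem_nhds (by rw [Set.mem_ofPred_eq, dist_self]; exact hε)

/-- A map to the realization of a finite complex is continuous if its coordinates are. -/
lemma continuous_of_coord [Finite V] {T : Type*} [TopologicalSpace T] {f : T → Realization V K}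
    (hf : ∀ v, Continuous fun t => (f t).coord v) : Continuous f := by
  classical
  cases nonempty_fintype V
  rw [continuous_def]
  intro U hU
  rw [isOpen_iff_mem_nhds]
  intro t ht
  have hU' : WeakOpen U := hU
  -- a uniform δ
  have hex : ∀ σ : Finset V, ∃ δ > 0, σ ∈ K → (f t).coord.support ⊆ σ → ∀ q : Realization V K,
      q.coord.support ⊆ σ → (∀ v, |q.coord v - (f t).coord v| < δ) → q ∈ U := by
    intro σ
    by_cases h1 : σ ∈ K
    · by_cases h2 : (f t).coord.support ⊆ σ
      · obtain ⟨δ, hδ, h⟩ := hU' σ h1 (f t) ht h2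
        exact ⟨δ, hδ, fun _ _ => h⟩
      · exact ⟨1, one_pos, fun _ h => absurd h h2⟩
    · exact ⟨1, one_pos, fun h => absurd h h1⟩
  choose δ hδ hδU using hex
  obtain ⟨d, hd, hdle⟩ : ∃ d > 0, ∀ σ, d ≤ δ σ := by
    refine ⟨Finset.univ.inf' Finset.univ_nonempty δ, ?_, fun σ => Finset.inf'_le _ (Finset.mem_univ _)⟩
    rw [gt_iff_lt, Finset.lt_inf'_iff]
    exact fun σ _ => hδ σ
  have hnear : ∀ᶠ t' in 𝓝 t, ∀ v, |(f t').coord v - (f t).coord v| < d := by
    rw [Filter.eventually_all]
    intro v
    have := (hf v).tendsto t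
    rw [Metric.tendsto_nhds] at this
    have h := this d hd
    simpa only [Real.dist_eq] using h
  have hsupp : ∀ᶠ t' in 𝓝 t, (f t).coord.support ⊆ (f t').coord.support := by
    have : ∀ᶠ t' in 𝓝 t, ∀ v, (f t).coord v ≠ 0 → (f t').coord v ≠ 0 := by
      rw [Filter.eventually_all]
      intro v
      by_cases hv : (f t).coord v = 0
      · exact Filter.Eventually.of_forall fun _ h => absurd hv h
      · have h := (hf v).continuousAt.eventually_ne hv
        exact h.mono fun _ h _ => h
    refine this.mono fun t' h v hv => ?_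
    rw [Finsupp.mem_support_iff] at hv ⊢
    exact h v hv
  filter_upwards [hnear, hsupp] with t' h1 h2
  exact hδU _ (f t').mem h2 (f t') (Finset.Subset.refl _) fun v => (h1 v).trans_le (hdle _)

/-- The coordinate map. -/
def toFun (p : Realization V K) : V → ℝ := fun v => p.coord v

lemma continuous_toFun : Continuous (toFun : Realization V K → V → ℝ) :=
  continuous_pi fun v => continuous_coord v

lemma toFun_injective : Function.Injective (toFun : Realization V K → V → ℝ) :=
  fun _ _ h => realization_ext fun v => congrFun h v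

lemma isEmbedding_toFun [Finite V] : IsEmbedding (toFun : Realization V K → V → ℝ) := by
  refine ⟨⟨le_antisymm continuous_toFun.le_induced ?_⟩, toFun_injective⟩
  -- the identity from the induced topology to the weak topology is continuous
  have h : @Continuous _ _ (TopologicalSpace.induced toFun inferInstance) _
      (id : Realization V K → Realization V K) := by
    let _ : TopologicalSpace (Realization V K) := TopologicalSpace.induced toFun inferInstance
    exact continuous_of_coord (T := Realization V K) fun v =>
      (continuous_apply v).comp continuous_induced_dom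
  exact continuous_id_iff_le.1 h

lemma range_toFun [Fintype V] (hK : ∀ σ ∈ K, ∀ τ ⊆ σ, τ.Nonempty → τ ∈ K) :
    Set.range (toFun : Realization V K → V → ℝ) =
      ⋃ σ ∈ K, {w | (∀ v, 0 ≤ w v) ∧ ∑ v, w v = 1 ∧ ∀ v, v ∉ σ → w v = 0} := by
  classical
  ext w
  rw [Set.mem_iUnion₂]
  constructor
  · rintro ⟨p, rfl⟩
    refine ⟨p.coord.support, p.mem, p.nonneg, ?_, fun v hv => Finsupp.notMem_support_iff.1 hv⟩
    have := p.sum_eq
    rwa [Finsupp.sum_fintype _ _ fun _ => rfl] at this
  · rintro ⟨σ, hσ, h1, h2, h3⟩
    refine ⟨⟨Finsupp.equivFunOnFinite.symm w, h1, ?_, ?_⟩, rfl⟩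
    · rw [Finsupp.sum_fintype _ _ fun _ => rfl]
      exact h2
    · refine hK σ hσ _ (fun v hv => ?_) ?_
      · by_contra hcon
        exact (Finsupp.mem_support_iff.1 hv) (h3 v hcon)
      · by_contra hcon
        rw [Finset.not_nonempty_iff_eq_empty, Finsupp.support_eq_empty] at hcon
        have : w = 0 := by
          funext v
          have := DFunLike.congr_fun hcon v
          exact this
        rw [this] at h2
        simp at h2

lemma isClosedEmbedding_toFun [Finite V] (hK : ∀ σ ∈ K, ∀ τ ⊆ σ, τ.Nonempty → τ ∈ K) :
    IsClosedEmbedding (toFun : Realization V K → V → ℝ) := by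
  classical
  cases nonempty_fintype V
  refine ⟨isEmbedding_toFun, ?_⟩
  rw [range_toFun hK]
  refine Set.Finite.isClosed_biUnion (Set.toFinite _) fun σ _ => ?_
  have h1 : IsClosed {w : V → ℝ | ∀ v, 0 ≤ w v} := by
    have : {w : V → ℝ | ∀ v, 0 ≤ w v} = ⋂ v, {w | 0 ≤ w v} := by
      ext w; simp
    rw [this]
    exact isClosed_iInter fun v => isClosed_le continuous_const (continuous_apply v)
  have h2 : IsClosed {w : V → ℝ | ∑ v, w v = 1} :=
    isClosed_eq (continuous_finsetSum _ fun v _ => continuous_apply v) continuous_const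
  have h3 : IsClosed {w : V → ℝ | ∀ v, v ∉ σ → w v = 0} := by
    have : {w : V → ℝ | ∀ v, v ∉ σ → w v = 0} = ⋂ v, ⋂ (_ : v ∉ σ), {w | w v = 0} := by
      ext w; simp
    rw [this]
    exact isClosed_iInter fun v => isClosed_iInter fun _ =>
      isClosed_eq (continuous_apply v) continuous_const
  exact h1.inter (h2.inter h3)

end Q182.VR
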