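import Mathlib
import Pool.Agent.Q182.VRTop
import Pool.Agent.Q182.VRNoGo

/-!
# Cross-polytopes in Vietoris–Rips complexes
-/

namespace Q182.VR

open Topology

/-- The positive and the negative part. -/
def wt (b : Bool) (t : ℝ) : ℝ := if b then max t 0 else max (-t) 0

lemma wt_nonneg (b : Bool) (t : ℝ) : 0 ≤ wt b t := by
  unfold wt
  split <;> exact le_max_right _ _

lemma continuous_wt (b : Bool) : Continuous (wt b) := by
  unfold wt
  split <;> fun_prop

lemma wt_add (t : ℝ) : wt true t + wt false t = |t| := by
  unfold wt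
  simp only [if_true, Bool.false_eq_true, if_false]
  rcases le_total 0 t with h | h
  · rw [max_eq_left h, max_eq_right (by linarith), abs_of_nonneg h, add_zero]
  · rw [max_eq_right h, max_eq_left (by linarith), abs_of_nonpos h, zero_add]

lemma wt_sub (t : ℝ) : wt true t - wt false t = t := by
  unfold wt
  simp only [if_true, Bool.false_eq_true, if_false]
  rcases le_total 0 t with h | h
  · rw [max_eq_left h, max_eq_right (by linarith), sub_zero]
  · rw [max_eq_right h, max_eq_left (by linarith)]
    ring

lemma wt_eq_zero {b b' : Bool} (hb : b ≠ b') {t : ℝ} (h : wt b t ≠ 0) : wt b' t = 0 := by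
  unfold wt at h ⊢
  rcases le_total 0 t with ht | ht
  · cases b
    · exfalso
      apply h
      simp [ht]
    · cases b'
      · simp [ht]
      · exact absurd rfl hb
  · cases b
    · cases b'
      · exact absurd rfl hb
      · simp [ht]
    · exfalso
      apply h
      simp [ht]

/-- The sum of the absolute values. -/
def nn {m : ℕ} (y : Fin m → ℝ) : ℝ := ∑ j, |y j|

lemma continuous_nn {m : ℕ} : Continuous (nn : (Fin m → ℝ) → ℝ) := by
  unfold nn
  fun_prop

lemma nn_pos {m : ℕ} (y : Sp m) : 0 < nn y.1 := by
  have h : ∃ j, y.1 j ≠ 0 := by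
    by_contra hcon
    push Not at hcon
    have h0 : y.1 = 0 := funext hcon
    have := y.2
    rw [h0, norm_zero] at this
    exact zero_ne_one this
  obtain ⟨j, hj⟩ := h
  exact Finset.sum_pos' (fun i _ => abs_nonneg _) ⟨j, Finset.mem_univ _, abs_pos.2 hj⟩

section

variable {Y : Type} {m : ℕ} {X : Set Y}

/-- The values of the coordinates of the point of the cross-polytope. -/
noncomputable def fv [DecidableEq X] (P : Fin m → Bool → X) (y : Fin m → ℝ) (z : X) : ℝ :=
  ∑ j, ∑ b, if z = P j b then wt b (y j) / nn y else 0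

lemma fv_nonneg [DecidableEq X] (P : Fin m → Bool → X) (y : Fin m → ℝ) (hy : 0 ≤ nn y) (z : X) :
    0 ≤ fv P y z := by
  refine Finset.sum_nonneg fun j _ => Finset.sum_nonneg fun b _ => ?_
  split
  · exact div_nonneg (wt_nonneg _ _) hy
  · exact le_rfl

lemma sum_fv [DecidableEq X] [Fintype X] (P : Fin m → Bool → X) (y : Fin m → ℝ) (φ : X → ℝ) :
    ∑ z, fv P y z * φ z = ∑ j, ∑ b, wt b (y j) / nn y * φ (P j b) := by
  unfold fv
  simp only [Finset.sum_mul, ite_mul, zero_mul]
  rw [Finset.sum_comm]
  refine Finset.sum_congr rfl fun j _ => ?_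
  rw [Finset.sum_comm]
  refine Finset.sum_congr rfl fun b _ => ?_
  rw [Finset.sum_ite_eq' Finset.univ (P j b), if_pos (Finset.mem_univ _)]

lemma fv_ne_zero [DecidableEq X] {P : Fin m → Bool → X} {y : Fin m → ℝ} {z : X}
    (h : fv P y z ≠ 0) : ∃ j b, z = P j b ∧ wt b (y j) ≠ 0 := by
  obtain ⟨j, -, hj⟩ := Finset.exists_ne_zero_of_sum_ne_zero h
  obtain ⟨b, -, hb⟩ := Finset.exists_ne_zero_of_sum_ne_zero hj
  refine ⟨j, b, ?_⟩
  by_cases hz : z = P j b
  · refine ⟨hz, fun h0 => hb ?_⟩
    rw [h0, zero_div, ite_self]
  · rw [if_neg hz] at hb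
    exact absurd rfl hb

end

/-- The maps between the sphere and the Vietoris–Rips complex. -/
theorem exists_maps {Y S : Type} [MetricSpace Y] [MetricSpace S] {R : ℝ} {m : ℕ} {X : Set Y}
    (hX : X.Finite) (π : Y → S) (hπ : ∀ z w, dist (π z) (π w) ≤ dist z w)
    (pt : Fin m → Bool → S) (P : Fin m → Bool → X) (hP : ∀ j b, π (P j b).1 = pt j b)
    (hinj : ∀ j b k b', pt j b = pt k b' → j = k ∧ b = b')
    (hcov : ∀ z : X, ∃ j b, π z.1 = pt j b)
    (hfar : ∀ j b b', b ≠ b' → R ≤ dist (pt j b) (pt j b'))
    (hnear : ∀ j b k b', (j ≠ k ∨ b = b') → dist (P j b).1 (P k b').1 < R) :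
    ∃ (s : C(Sp m, VRSpace X R)) (t : C(VRSpace X R, Sp m)), t.comp s = ContinuousMap.id _ := by
  classical
  have : Finite X := hX
  cases nonempty_fintype X
  -- the map `s`
  let s0 : Sp m → VRSpace X R := fun y =>
    { coord := Finsupp.equivFunOnFinite.symm (fv P y.1)
      nonneg := fun z => fv_nonneg P y.1 (nn_pos y).le z
      sum_eq := by
        rw [Finsupp.sum_fintype _ _ fun _ => rfl]
        have h := sum_fv P y.1 (fun _ => 1)
        simp only [mul_one] at h
        change ∑ z, fv P y.1 z = 1
        rw [h]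
        have h2 : ∀ j, ∑ b, wt b (y.1 j) / nn y.1 = |y.1 j| / nn y.1 := by
          intro j
          rw [Fintype.sum_bool, ← add_div, wt_add]
        rw [Finset.sum_congr rfl fun j _ => h2 j, ← Finset.sum_div]
        exact div_self (nn_pos y).ne'
      mem := by
        have hsupp : ∀ z, z ∈ (Finsupp.equivFunOnFinite.symm (fv P y.1)).support ↔
            fv P y.1 z ≠ 0 := fun z => by rw [Finsupp.mem_support_iff]; rfl
        constructor
        · by_contra hcon
          rw [Finset.not_nonempty_iff_eq_empty, Finset.eq_empty_iff_forall_notMem] at hcon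
          obtain ⟨j, hj⟩ : ∃ j, y.1 j ≠ 0 := by
            by_contra hc2
            push Not at hc2
            have h0 : y.1 = 0 := funext hc2
            have := y.2
            rw [h0, norm_zero] at this
            exact zero_ne_one this
          have hz : ∀ z, fv P y.1 z = 0 := fun z => by
            by_contra h
            exact hcon z ((hsupp z).2 h)
          have h := sum_fv P y.1 (fun _ => 1)
          simp only [mul_one] at h
          rw [Finset.sum_congr rfl fun z _ => hz z, Finset.sum_const_zero] at h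
          have h2 : ∀ j, ∑ b, wt b (y.1 j) / nn y.1 = |y.1 j| / nn y.1 := by
            intro j
            rw [Fintype.sum_bool, ← add_div, wt_add]
          rw [Finset.sum_congr rfl fun j _ => h2 j, ← Finset.sum_div] at h
          have h3 : nn y.1 / nn y.1 = 1 := div_self (nn_pos y).ne'
          exact zero_ne_one (h.trans h3)
        · intro z hz w hw
          rw [hsupp] at hz hw
          obtain ⟨j, b, rfl, h1⟩ := fv_ne_zero hz
          obtain ⟨k, b', rfl, h2⟩ := fv_ne_zero hw
          apply hnear
          by_contra hcon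
          rw [not_or, not_not] at hcon
          obtain ⟨rfl, hb⟩ := hcon
          exact h2 (wt_eq_zero hb h1) }
  have hs0 : ∀ y z, (s0 y).coord z = fv P y.1 z := fun _ _ => rfl
  have hs0c : Continuous s0 := by
    apply continuous_of_coord
    intro z
    have : (fun y : Sp m => (s0 y).coord z) = fun y : Sp m => fv P y.1 z := rfl
    rw [this]
    unfold fv
    refine continuous_finsetSum _ fun j _ => continuous_finsetSum _ fun b _ => ?_
    split
    · exact ((continuous_wt b).comp ((continuous_apply j).comp continuous_subtype_val)).div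
        (continuous_nn.comp continuous_subtype_val) fun y => (nn_pos y).ne'
    · exact continuous_const
  -- the map `t`
  let χ : Fin m → X → ℝ := fun j z =>
    (if π z.1 = pt j true then 1 else 0) - (if π z.1 = pt j false then 1 else 0)
  let t0 : VRSpace X R → (Fin m → ℝ) := fun p j => ∑ z, p.coord z * χ j z
  have ht0c : Continuous t0 := continuous_pi fun j =>
    continuous_finsetSum _ fun z _ => (continuous_coord z).mul continuous_const
  have ht0 : ∀ p, t0 p ≠ 0 := by
    intro p h0
    obtain ⟨z, hz⟩ := p.mem.1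
    obtain ⟨j, b, hjb⟩ := hcov z
    have hzpos : 0 < p.coord z := lt_of_le_of_ne (p.nonneg z) (Finsupp.mem_support_iff.1 hz).symm
    have hfar' : ∀ w : X, π w.1 = pt j (!b) → p.coord w = 0 := by
      intro w hw
      by_contra hcon
      have h1 := p.mem.2 z hz w (Finsupp.mem_support_iff.2 hcon)
      have h2 := hπ z.1 w.1
      rw [hjb, hw] at h2
      have h3 := hfar j b (!b) (by cases b <;> simp)
      have h4 : dist z w = dist z.1 w.1 := rfl
      linarith
    have hj : t0 p j = 0 := congrFun h0 j
    have hsum : t0 p j = ∑ w, p.coord w * χ j w := rfl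
    rw [hsum] at hj
    cases b with
    | true =>
      have hnon : ∀ w ∈ Finset.univ, 0 ≤ p.coord w * χ j w := by
        intro w _
        by_cases hw : π w.1 = pt j false
        · rw [hfar' w hw, zero_mul]
        · refine mul_nonneg (p.nonneg w) ?_
          simp only [χ, if_neg hw, sub_zero]
          split <;> norm_num
      have := (Finset.sum_eq_zero_iff_of_nonneg hnon).1 hj z (Finset.mem_univ _)
      have h5 : π z.1 ≠ pt j false := fun h => by
        have := (hinj j true j false (hjb.symm.trans h)).2
        exact absurd this (by simp)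
      simp only [χ, if_pos hjb, if_neg h5, sub_zero, mul_one] at this
      exact hzpos.ne' this
    | false =>
      have hnon : ∀ w ∈ Finset.univ, p.coord w * χ j w ≤ 0 := by
        intro w _
        by_cases hw : π w.1 = pt j true
        · rw [hfar' w hw, zero_mul]
        · refine mul_nonpos_of_nonneg_of_nonpos (p.nonneg w) ?_
          simp only [χ, if_neg hw, zero_sub]
          split <;> norm_num
      have := (Finset.sum_eq_zero_iff_of_nonpos hnon).1 hj z (Finset.mem_univ _)
      have h5 : π z.1 ≠ pt j true := fun h => by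
        have := (hinj j false j true (hjb.symm.trans h)).2
        exact absurd this (by simp)
      simp only [χ, if_pos hjb, if_neg h5, zero_sub, mul_neg, mul_one, neg_eq_zero] at this
      exact hzpos.ne' this
  have ht1 : ∀ p, ‖‖t0 p‖⁻¹ • t0 p‖ = 1 := fun p => by
    rw [norm_smul, norm_inv, norm_norm, inv_mul_cancel₀ (norm_ne_zero_iff.2 (ht0 p))]
  have ht2 : Continuous fun p => ‖t0 p‖⁻¹ • t0 p :=
    (ht0c.norm.inv₀ fun p => norm_ne_zero_iff.2 (ht0 p)).smul ht0c
  let t : C(VRSpace X R, Sp m) :=
    ⟨fun p => ⟨‖t0 p‖⁻¹ • t0 p, ht1 p⟩, Continuous.subtype_mk ht2 ht1⟩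
  refine ⟨⟨s0, hs0c⟩, t, ?_⟩
  ext1 y
  apply Subtype.ext
  change ‖t0 (s0 y)‖⁻¹ • t0 (s0 y) = y.1
  have hval : t0 (s0 y) = (nn y.1)⁻¹ • y.1 := by
    funext k
    change ∑ z, fv P y.1 z * χ k z = (nn y.1)⁻¹ * y.1 k
    rw [sum_fv]
    have hχ : ∀ j b, χ k (P j b) = if j = k then (if b then 1 else -1) else 0 := by
      intro j b
      simp only [χ, hP]
      by_cases hjk : j = k
      · subst hjk
        cases b
        · have h1 : pt j false ≠ pt j true := fun h => absurd (hinj _ _ _ _ h).2 (by simp)
          simp [h1]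
        · have h1 : pt j true ≠ pt j false := fun h => absurd (hinj _ _ _ _ h).2 (by simp)
          simp [h1]
      · have h1 : ∀ b', pt j b ≠ pt k b' := fun b' h => hjk (hinj _ _ _ _ h).1
        simp [h1, hjk]
    rw [Finset.sum_eq_single k]
    · rw [Fintype.sum_bool, hχ, hχ, if_pos rfl, if_pos rfl]
      simp only [if_true, Bool.false_eq_true, if_false, mul_one, mul_neg]
      rw [← sub_eq_add_neg, ← sub_div, wt_sub, div_eq_inv_mul]
    · intro j _ hj
      refine Finset.sum_eq_zero fun b _ => ?_
      rw [hχ, if_neg hj, mul_zero]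
    · intro h
      exact absurd (Finset.mem_univ k) h
  rw [hval, norm_smul, y.2, mul_one, norm_inv, Real.norm_of_nonneg (nn_pos y).le, inv_inv, smul_smul,
    mul_inv_cancel₀ (nn_pos y).ne', one_smul]

end Q182.VR
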