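import Mathlib
import Pool.Agent.Q182.VRMaps

/-!
# Dense samples of products with antipodal factors
-/

namespace Q182.VR

open Topology ContinuousMap

lemma vr_down {Y : Type} [MetricSpace Y] {R : ℝ} :
    ∀ σ ∈ vrSimplices Y R, ∀ τ ⊆ σ, τ.Nonempty → τ ∈ vrSimplices Y R :=
  fun _ hσ _ hτ hne => ⟨hne, fun x hx y hy => hσ.2 x (hτ hx) y (hτ hy)⟩

/-- A finite complex with fewer than `m` vertices is not homotopy equivalent to a space of which the
sphere `S^(m-1)` is a retract. -/
theorem not_equiv {Y : Type} [MetricSpace Y] {R : ℝ} {X1 X2 : Set Y} (h1 : X1.Finite) {m : ℕ}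
    (hm : X1.ncard < m) (s : C(Sp m, VRSpace X2 R)) (t : C(VRSpace X2 R, Sp m))
    (hts : t.comp s = ContinuousMap.id _) (e : VRSpace X1 R ≃ₕ VRSpace X2 R) : False := by
  have : Finite X1 := h1
  cases nonempty_fintype X1
  have hfin : Module.finrank ℝ (X1 → ℝ) < m := by
    rw [Module.finrank_fintype_fun_eq_card, ← Nat.card_eq_fintype_card]
    exact hm
  refine noFactor (lt_of_le_of_lt (Nat.zero_le _) hm) hfin (isClosedEmbedding_toFun vr_down)
    (e.invFun.comp s) (t.comp e.toFun) ?_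
  have h2 : (t.comp (e.toFun.comp e.invFun)).comp s = (t.comp e.toFun).comp (e.invFun.comp s) := rfl
  rw [← h2]
  have h3 : ((t.comp (e.toFun.comp e.invFun)).comp s).Homotopic
      ((t.comp (ContinuousMap.id _)).comp s) :=
    ((ContinuousMap.Homotopic.refl t).comp e.right_inv).comp (ContinuousMap.Homotopic.refl s)
  rw [ContinuousMap.comp_id, hts] at h3
  exact h3

/-- Finite symmetric nets. -/
theorem exists_net {S : Type} [MetricSpace S] (a : S → S) {R : ℝ} (hR : 0 < R)
    (ha : ∀ x, a (a x) = x) (hfar : ∀ x, R ≤ dist x (a x))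
    (hnear : ∀ x y, y ≠ a x → dist x y < R) (hinf : Infinite S)
    (htb : TotallyBounded (Set.univ : Set S)) {ε : ℝ} (hε : 0 < ε) (k : ℕ) :
    ∃ (m : ℕ) (pt : Fin m → Bool → S), k < m ∧
      (∀ j b l b', pt j b = pt l b' → j = l ∧ b = b') ∧
      (∀ j b b', b ≠ b' → R ≤ dist (pt j b) (pt j b')) ∧
      (∀ j b l b', (j ≠ l ∨ b = b') → dist (pt j b) (pt l b') < R) ∧
      ∀ x, ∃ j b, dist x (pt j b) < ε := by
  classical
  let _ : LinearOrder S := IsWellOrder.linearOrder (WellOrderingRel : S → S → Prop)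
  obtain ⟨F, -, hFfin, hF⟩ := Metric.finite_approx_of_totallyBounded htb ε hε
  obtain ⟨G, hG⟩ := Infinite.exists_subset_card_eq S (2 * (k + 1))
  let P0 : Finset S := hFfin.toFinset ∪ G
  let P : Finset S := P0 ∪ P0.image a
  have haP : ∀ x ∈ P, a x ∈ P := by
    intro x hx
    rw [Finset.mem_union] at hx ⊢
    rcases hx with hx | hx
    · exact Or.inr (Finset.mem_image_of_mem a hx)
    · obtain ⟨y, hy, rfl⟩ := Finset.mem_image.1 hx
      rw [ha]
      exact Or.inl hy
  have hne : ∀ x, a x ≠ x := by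
    intro x hx
    have := hfar x
    rw [hx, dist_self] at this
    linarith
  let Q : Finset S := P.filter fun x => x < a x
  have hPQ : ∀ x ∈ P, x ∈ Q ∨ a x ∈ Q := by
    intro x hx
    rcases lt_trichotomy x (a x) with h | h | h
    · exact Or.inl (Finset.mem_filter.2 ⟨hx, h⟩)
    · exact absurd h.symm (hne x)
    · exact Or.inr (Finset.mem_filter.2 ⟨haP x hx, by rwa [ha]⟩)
  have hQ : ∀ x ∈ Q, x < a x := fun x hx => (Finset.mem_filter.1 hx).2
  have hcard : 2 * (k + 1) ≤ 2 * Q.card := by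
    have h1 : P ⊆ Q ∪ Q.image a := by
      intro x hx
      rw [Finset.mem_union]
      rcases hPQ x hx with h | h
      · exact Or.inl h
      · exact Or.inr (Finset.mem_image.2 ⟨a x, h, ha x⟩)
    have h2 : G ⊆ P := fun x hx =>
      Finset.mem_union_left _ (Finset.mem_union_right _ hx)
    calc 2 * (k + 1) = G.card := hG.symm
      _ ≤ P.card := Finset.card_le_card h2
      _ ≤ (Q ∪ Q.image a).card := Finset.card_le_card h1
      _ ≤ Q.card + (Q.image a).card := Finset.card_union_le _ _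
      _ ≤ Q.card + Q.card := Nat.add_le_add_left Finset.card_image_le _
      _ = 2 * Q.card := by ring
  let q : Fin Q.card → S := fun j => (Q.equivFin.symm j).1
  have hqQ : ∀ j, q j ∈ Q := fun j => (Q.equivFin.symm j).2
  have hqinj : Function.Injective q := fun i j h => Q.equivFin.symm.injective (Subtype.ext h)
  let pt : Fin Q.card → Bool → S := fun j b => if b then q j else a (q j)
  have haflip : ∀ j b, a (pt j b) = pt j (!b) := by
    intro j b
    cases b
    · exact ha (q j)
    · rfl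
  have hinj : ∀ j b l b', pt j b = pt l b' → j = l ∧ b = b' := by
    intro j b l b' h
    cases b <;> cases b'
    · have h1 : q j = q l := by
        have := congrArg a h
        change a (a (q j)) = a (a (q l)) at this
        rwa [ha, ha] at this
      exact ⟨hqinj h1, rfl⟩
    · exfalso
      change a (q j) = q l at h
      have h1 := hQ _ (hqQ j)
      have h2 := hQ _ (hqQ l)
      rw [← h, ha] at h2
      exact lt_asymm h1 h2
    · exfalso
      change q j = a (q l) at h
      have h1 := hQ _ (hqQ j)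
      have h2 := hQ _ (hqQ l)
      rw [h, ha] at h1
      exact lt_asymm h1 h2
    · exact ⟨hqinj h, rfl⟩
  refine ⟨Q.card, pt, by omega, hinj, ?_, ?_, ?_⟩
  · intro j b b' hb
    have : b' = !b := by cases b <;> cases b' <;> simp_all
    rw [this, ← haflip]
    exact hfar _
  · intro j b l b' h
    apply hnear
    intro h1
    rw [haflip] at h1
    obtain ⟨h2, h3⟩ := hinj _ _ _ _ h1
    rcases h with h | h
    · exact h h2.symm
    · rw [h3] at h
      cases b <;> simp at h
  · intro x
    have hx := hF (Set.mem_univ x)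
    rw [Set.mem_iUnion₂] at hx
    obtain ⟨y, hy, hxy⟩ := hx
    have hyP : y ∈ P := Finset.mem_union_left _ (Finset.mem_union_left _ (by simpa using hy))
    rcases hPQ y hyP with h | h
    · refine ⟨Q.equivFin ⟨y, h⟩, true, ?_⟩
      change dist x (Q.equivFin.symm (Q.equivFin ⟨y, h⟩)).1 < ε
      rw [Equiv.symm_apply_apply]
      exact hxy
    · refine ⟨Q.equivFin ⟨a y, h⟩, false, ?_⟩
      change dist x (a (Q.equivFin.symm (Q.equivFin ⟨a y, h⟩)).1) < ε
      rw [Equiv.symm_apply_apply, ha]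
      exact hxy

lemma prod_dist {S N : Type} [MetricSpace S] [MetricSpace N] (z w : WithLp 2 (S × N)) :
    dist z w = √(dist z.fst w.fst ^ 2 + dist z.snd w.snd ^ 2) := by
  rw [WithLp.prod_dist_eq_add (by norm_num), Real.sqrt_eq_rpow]
  norm_num

/-- The abstract form of the result. -/
theorem main {S N : Type} [MetricSpace S] [MetricSpace N] (a : S → S) {R : ℝ} (hR : 0 < R)
    (ha : ∀ x, a (a x) = x) (hfar : ∀ x, R ≤ dist x (a x))
    (hnear : ∀ x y, y ≠ a x → dist x y < R) (hinf : Infinite S)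
    (htb : TotallyBounded (Set.univ : Set S)) (htN : TotallyBounded (Set.univ : Set N))
    [Nonempty N] : DensityFails (WithLp 2 (S × N)) R := by
  classical
  intro ε hε
  obtain ⟨h0⟩ := ‹Nonempty N›
  obtain ⟨H0, -, hHfin, hH⟩ := Metric.finite_approx_of_totallyBounded htN (ε / 2) (half_pos hε)
  let H : Set N := insert h0 H0
  have hHfin' : H.Finite := hHfin.insert h0
  have hdist : ∀ z w : WithLp 2 (S × N),
      dist z w = √(dist z.fst w.fst ^ 2 + dist z.snd w.snd ^ 2) := prod_dist
  -- the samples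
  have key : ∀ k : ℕ, ∃ (m : ℕ) (X : Set (WithLp 2 (S × N))), k < m ∧ X.Finite ∧
      (∀ y, ∃ x ∈ X, dist y x < ε) ∧
      ∃ (s : C(Sp m, VRSpace X R)) (t : C(VRSpace X R, Sp m)), t.comp s = ContinuousMap.id _ := by
    intro k
    obtain ⟨m, pt, hkm, hinj, hf, hn, hnet⟩ :=
      exists_net a hR ha hfar hnear hinf htb (half_pos hε) k
    let X : Set (WithLp 2 (S × N)) := {z | (∃ j b, z.fst = pt j b) ∧ z.snd ∈ H}
    have hXfin : X.Finite := by
      have h1 : (Set.range fun z : Fin m × Bool => pt z.1 z.2).Finite := Set.finite_range _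
      refine ((h1.prod hHfin').image (WithLp.toLp 2)).subset ?_
      rintro z ⟨⟨j, b, hz⟩, hz2⟩
      exact ⟨(z.fst, z.snd), ⟨⟨(j, b), hz.symm⟩, hz2⟩, rfl⟩
    refine ⟨m, X, hkm, hXfin, ?_, ?_⟩
    · intro y
      obtain ⟨j, b, hjb⟩ := hnet y.fst
      have hy := hH (Set.mem_univ y.snd)
      rw [Set.mem_iUnion₂] at hy
      obtain ⟨h, hh, hyh⟩ := hy
      refine ⟨WithLp.toLp 2 (pt j b, h), ⟨⟨j, b, rfl⟩, Set.mem_insert_of_mem _ hh⟩, ?_⟩
      rw [hdist]
      rw [Metric.mem_ball] at hyh
      change √(dist y.fst (pt j b) ^ 2 + dist y.snd h ^ 2) < ε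
      rw [Real.sqrt_lt' hε]
      have h1 : (0 : ℝ) ≤ dist y.fst (pt j b) := dist_nonneg
      have h2 : (0 : ℝ) ≤ dist y.snd h := dist_nonneg
      nlinarith
    · have hP : ∀ j b, WithLp.toLp 2 (pt j b, h0) ∈ X := fun j b =>
        ⟨⟨j, b, rfl⟩, Set.mem_insert _ _⟩
      refine exists_maps hXfin (fun z => z.fst) (fun z w => ?_) pt
        (fun j b => ⟨WithLp.toLp 2 (pt j b, h0), hP j b⟩) (fun j b => rfl) hinj
        (fun z => z.2.1) hf fun j b l b' h => ?_
      · rw [hdist z w]
        apply Real.le_sqrt_of_sq_le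
        have := sq_nonneg (dist z.snd w.snd)
        linarith
      · rw [hdist]
        change √(dist (pt j b) (pt l b') ^ 2 + dist h0 h0 ^ 2) < R
        rw [dist_self, zero_pow two_ne_zero, add_zero, Real.sqrt_sq dist_nonneg]
        exact hn j b l b' h
  by_contra hcon
  push Not at hcon
  obtain ⟨m1, X1, -, hX1, hd1, -⟩ := key 0
  obtain ⟨m2, X2, hm2, hX2, hd2, s, t, hts⟩ := key X1.ncard
  obtain ⟨e1⟩ := hcon X1 hX1 hd1
  obtain ⟨e2⟩ := hcon X2 hX2 hd2
  exact not_equiv hX1 hm2 s t hts (e1.trans e2.symm)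

end Q182.VR
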