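import Mathlib
import Pool.Agent.Q182.VRMain

/-!
# Circles and spheres
-/

namespace Q182.VR

open Topology ContinuousMap

section Circle

variable {L : ℝ} [hL : Fact (0 < L)]

omit hL in
lemma circle_flip (x : AddCircle L) : x + ((L / 2 : ℝ) : AddCircle L) + ((L / 2 : ℝ) : AddCircle L) = x := by
  rw [add_assoc, ← AddCircle.coe_add, add_halves, AddCircle.coe_period, add_zero]

lemma circle_far (x : AddCircle L) : L / 2 ≤ dist x (x + ((L / 2 : ℝ) : AddCircle L)) := by
  rw [dist_self_add_right, AddCircle.norm_half_period_eq, abs_of_pos hL.out]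

lemma circle_near (x y : AddCircle L) (h : y ≠ x + ((L / 2 : ℝ) : AddCircle L)) :
    dist x y < L / 2 := by
  rw [dist_comm, dist_eq_norm]
  have hL0 := hL.out
  obtain ⟨t, ht, hty⟩ : ∃ t ∈ Set.Ioc (-(L / 2)) (-(L / 2) + L), ((t : ℝ) : AddCircle L) = y - x := by
    have := AddCircle.coe_image_Ioc_eq L (-(L / 2))
    have h2 : y - x ∈ (Set.univ : Set (AddCircle L)) := Set.mem_univ _
    rw [← this] at h2
    exact h2
  have h1 : |t| ≤ |L| / 2 := by
    rw [abs_of_pos hL0, abs_le]
    constructor
    · linarith [ht.1]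
    · linarith [ht.2]
  rw [← hty, (AddCircle.norm_coe_eq_abs_iff L hL0.ne').2 h1]
  rw [abs_of_pos hL0] at h1
  refine lt_of_le_of_ne h1 fun h3 => h ?_
  have h4 : t = L / 2 := by
    rcases abs_eq (by linarith : (0 : ℝ) ≤ L / 2) |>.1 h3 with h4 | h4
    · exact h4
    · exact absurd h4 (ne_of_gt ht.1)
  rw [← h4, hty]
  abel

lemma circle_infinite : Infinite (AddCircle L) := by
  have hL0 := hL.out
  have h : Set.InjOn (fun t : ℝ => ((t : ℝ) : AddCircle L)) (Set.Ico 0 (0 + L)) := by
    intro s hs t ht hst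
    exact (AddCircle.coe_eq_coe_iff_of_mem_Ico hs ht).1 hst
  have h2 : (Set.Ico (0 : ℝ) (0 + L)).Infinite := Set.Ico_infinite (by linarith)
  exact Set.infinite_univ_iff.1 ((h2.image h).mono (Set.subset_univ _))

end Circle

section Sphere

variable {n : ℕ}

/-- The antipodal map. -/
def Sph.neg (x : Sph n) : Sph n := ⟨-x.1, by
  rw [mem_sphere_zero_iff_norm, norm_neg]
  exact x.norm_val⟩

lemma Sph.neg_neg (x : Sph n) : x.neg.neg = x := Subtype.ext (_root_.neg_neg x.1)

lemma Sph.val_ne_zero (x : Sph n) : x.1 ≠ 0 := fun h => by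
  have := x.norm_val
  rw [h, norm_zero] at this
  exact zero_ne_one this

lemma Sph.dist_def (x y : Sph n) : dist x y = InnerProductGeometry.angle x.1 y.1 := rfl

lemma Sph.far (x : Sph n) : Real.pi ≤ dist x x.neg :=
  (InnerProductGeometry.angle_self_neg_of_nonzero x.val_ne_zero).ge

lemma Sph.near (x y : Sph n) (h : y ≠ x.neg) : dist x y < Real.pi := by
  refine lt_of_le_of_ne (InnerProductGeometry.angle_le_pi _ _) fun h1 => h ?_
  obtain ⟨-, r, hr, h2⟩ := InnerProductGeometry.angle_eq_pi_iff.1 h1
  have h3 := congrArg norm h2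
  rw [norm_smul, x.norm_val, y.norm_val, mul_one, Real.norm_of_nonpos hr.le] at h3
  apply Subtype.ext
  change y.1 = -x.1
  rw [h2, show r = -1 by linarith, neg_smul, one_smul]

/-- The identity map from the Euclidean sphere. -/
def Sph.mk' (x : Metric.sphere (0 : EuclideanSpace ℝ (Fin (n + 1))) 1) : Sph n := x

lemma Sph.continuous_mk' : Continuous (Sph.mk' (n := n)) := by
  rw [Metric.continuous_iff']
  intro x ε hε
  have hx : x.1 ≠ 0 := Sph.val_ne_zero (n := n) x
  have h1 : ContinuousAt (fun y : Metric.sphere (0 : EuclideanSpace ℝ (Fin (n + 1))) 1 =>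
      InnerProductGeometry.angle y.1 x.1) x := by
    have := InnerProductGeometry.continuousAt_angle (x := (x.1, x.1)) hx hx
    exact this.comp (f := fun y : Metric.sphere (0 : EuclideanSpace ℝ (Fin (n + 1))) 1 =>
      (y.1, x.1)) (by fun_prop)
  have h2 := h1.tendsto.eventually_lt_const (u := ε) (by
    rw [InnerProductGeometry.angle_self hx]
    exact hε)
  exact h2

instance : CompactSpace (Sph n) := by
  have h : CompactSpace (Metric.sphere (0 : EuclideanSpace ℝ (Fin (n + 1))) 1) :=
    isCompact_iff_compactSpace.1 (isCompact_sphere _ _)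
  have h2 := isCompact_range (Sph.continuous_mk' (n := n))
  have h3 : Set.range (Sph.mk' (n := n)) = Set.univ := Set.eq_univ_of_forall fun x => ⟨x, rfl⟩
  rw [h3] at h2
  exact ⟨h2⟩

lemma Sph.infinite (hn : 1 ≤ n) : Infinite (Sph n) := by
  have h1 : IsPreconnected (Metric.sphere (0 : EuclideanSpace ℝ (Fin (n + 1))) 1) := by
    apply isPreconnected_sphere
    rw [rank_eq_card_basis (EuclideanSpace.basisFun (Fin (n + 1)) ℝ).toBasis, Fintype.card_fin]
    exact_mod_cast Nat.lt_succ_of_le hn
  have h2 : (Metric.sphere (0 : EuclideanSpace ℝ (Fin (n + 1))) 1).Nontrivial := by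
    refine ⟨EuclideanSpace.single 0 1, by simp, -EuclideanSpace.single 0 1, by simp, fun h => ?_⟩
    have := congrFun (congrArg WithLp.ofLp h) 0
    simp at this
    linarith
  exact (h1.infinite_of_nontrivial h2).to_subtype

end Sphere

/-- Products with a circle of length `L`, at the scale `L / 2`. -/
theorem circle_main (L : ℝ) [Fact (0 < L)] (N : Type) [MetricSpace N] [CompactSpace N]
    [Nonempty N] : DensityFails (RProd (AddCircle L) N) (L / 2) :=
  main (fun x => x + ((L / 2 : ℝ) : AddCircle L)) (half_pos (Fact.out : 0 < L)) circle_flip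
    circle_far circle_near circle_infinite isCompact_univ.totallyBounded
    isCompact_univ.totallyBounded

/-- Products with a round sphere, at the scale `π`. -/
theorem sphere_main (n : ℕ) (hn : 1 ≤ n) (N : Type) [MetricSpace N] [CompactSpace N] [Nonempty N] :
    DensityFails (RProd (Sph n) N) Real.pi :=
  main Sph.neg Real.pi_pos Sph.neg_neg Sph.far Sph.near (Sph.infinite hn)
    isCompact_univ.totallyBounded isCompact_univ.totallyBounded

/-- The scale `L / 2` is less than the diameter of a flat torus. -/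
theorem torus_diam (L L' : ℝ) [hL : Fact (0 < L)] [hL' : Fact (0 < L')] :
    ∃ x y : RProd (AddCircle L) (AddCircle L'), L / 2 < dist x y := by
  have h : ∃ x y : WithLp 2 (AddCircle L × AddCircle L'), L / 2 < dist x y := by
    refine ⟨WithLp.toLp 2 (0, 0), WithLp.toLp 2 (((L / 2 : ℝ) : AddCircle L),
      ((L' / 2 : ℝ) : AddCircle L')), ?_⟩
    rw [prod_dist]
    apply Real.lt_sqrt_of_sq_lt
    change (L / 2) ^ 2 < dist (0 : AddCircle L) ((L / 2 : ℝ) : AddCircle L) ^ 2 +
      dist (0 : AddCircle L') ((L' / 2 : ℝ) : AddCircle L') ^ 2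
    rw [dist_zero_left, dist_zero_left, AddCircle.norm_half_period_eq,
      AddCircle.norm_half_period_eq, abs_of_pos hL.out, abs_of_pos hL'.out]
    have := hL'.out
    have h2 : 0 < (L' / 2) ^ 2 := by positivity
    linarith
  exact h

end Q182.VR
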