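import Mathlib

/-!
# Weakly pseudocompact spaces
-/

namespace Q182

universe u

/-- Pseudocompact spaces: every continuous real function is bounded. -/
def IsPseudocompact (X : Type u) [TopologicalSpace X] : Prop :=
  ∀ f : X → ℝ, Continuous f → ∃ M : ℝ, ∀ x, |f x| ≤ M

/-- Weakly pseudocompact spaces: `X` has a Hausdorff compactification `B` in which (the image of)
`X` meets every nonempty `G_δ`-set. -/
def IsWeaklyPseudocompact (X : Type u) [TopologicalSpace X] : Prop :=
  ∃ (B : Type u) (_ : TopologicalSpace B) (_ : CompactSpace B) (_ : T2Space B) (b : X → B),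
    IsDenseEmbedding b ∧ ∀ S : Set B, IsGδ S → S.Nonempty → (S ∩ Set.range b).Nonempty

end Q182
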