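import Mathlib
import Pool.Agent.Q182.WPDefs

/-!
# Weakly pseudocompact neighbourhoods in subgroups of locally compact groups
-/

namespace Q182.WP

open Set Filter Topology
open scoped Pointwise

universe u

section games

variable {X B : Type u} [TopologicalSpace X] [TopologicalSpace B] (b : X → B)

/-- Strong inclusion with respect to a compactification. -/
def SI (V' V : Set X) : Prop := ∃ C : Set B, IsOpen C ∧ closure (b '' V') ⊆ C ∧ b ⁻¹' C ⊆ V

variable {b}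

omit [TopologicalSpace X] in
lemma SI.subset {V' V : Set X} (h : SI b V' V) : V' ⊆ V := by
  obtain ⟨C, -, h1, h2⟩ := h
  exact fun x hx => h2 (h1 (subset_closure (mem_image_of_mem b hx)))

omit [TopologicalSpace X] in
lemma SI.mono {V'' V' V : Set X} (h : SI b V' V) (h' : V'' ⊆ V') : SI b V'' V := by
  obtain ⟨C, h0, h1, h2⟩ := h
  exact ⟨C, h0, (closure_mono (image_mono h')).trans h1, h2⟩

lemma exists_SI [CompactSpace B] [T2Space B] (hb : IsInducing b) {V : Set X} (hV : IsOpen V)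
    {x : X} (hx : x ∈ V) : ∃ V' : Set X, IsOpen V' ∧ x ∈ V' ∧ SI b V' V := by
  obtain ⟨C, hC, hCV⟩ := hb.isOpen_iff.1 hV
  have hxC : b x ∈ C := by
    rw [← hCV] at hx
    exact hx
  obtain ⟨K, hK, hKc, hKC⟩ := exists_mem_nhds_isClosed_subset (hC.mem_nhds hxC)
  refine ⟨b ⁻¹' interior K, isOpen_interior.preimage hb.continuous, mem_interior_iff_mem_nhds.2 hK,
    C, hC, ?_, hCV.subset⟩
  refine (closure_minimal ?_ hKc).trans hKC
  rintro _ ⟨z, hz, rfl⟩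
  exact interior_subset hz

lemma exists_mem_inter [CompactSpace B] (hG : ∀ S : Set B, IsGδ S → S.Nonempty → (S ∩ range b).Nonempty)
    (V : ℕ → Set X) (hne : ∀ n, (V n).Nonempty) (hSI : ∀ n, SI b (V (n + 1)) (V n)) :
    ∃ x, ∀ n, x ∈ V n := by
  choose C hC1 hC2 hC3 using hSI
  have hsub : ∀ n, V (n + 1) ⊆ V n := fun n => SI.subset ⟨C n, hC1 n, hC2 n, hC3 n⟩
  have h1 : (⋂ n, closure (b '' V (n + 1))).Nonempty := by
    apply IsCompact.nonempty_iInter_of_sequence_nonempty_isCompact_isClosed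
    · exact fun n => closure_mono (image_mono (hsub (n + 1)))
    · exact fun n => ((hne (n + 1)).image b).closure
    · exact isClosed_closure.isCompact
    · exact fun n => isClosed_closure
  have h2 : (⋂ n, C n).Nonempty := h1.mono (iInter_mono hC2)
  have h3 : IsGδ (⋂ n, C n) := IsGδ.iInter_of_isOpen hC1
  obtain ⟨_, h4, x, rfl⟩ := hG _ h3 h2
  exact ⟨x, fun n => hC3 n (mem_iInter.1 h4 n)⟩

end games

section groups

variable {H : Type u} [Group H] [TopologicalSpace H] [IsTopologicalGroup H] {G : Subgroup H}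

/-- The key construction. -/
lemma exists_near {U : Set G} (hUo : IsOpen U) (hWP : IsWeaklyPseudocompact (closure U)) {O : Set H}
    (hO : IsOpen O) (hOU : (Subtype.val : G → H) ⁻¹' O = U) (N : ℕ → Set H) (hN : ∀ n, N n ∈ 𝓝 (1 : H))
    {y : H} (hy : y ∈ G.topologicalClosure) (hy2 : y⁻¹ ∈ O) (h1O : (1 : H) ∈ O) :
    ∃ g ∈ G, ∀ n, g * y ∈ N n := by
  obtain ⟨B, _, _, _, b, hb, hG⟩ := hWP
  let tr : Set H → Set (closure U) := fun P => {x | ((x : G) : H) ∈ P}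
  have htr : ∀ {P : Set H}, IsOpen P → IsOpen (tr P) := fun hP =>
    hP.preimage (continuous_subtype_val.comp continuous_subtype_val)
  have hmem : ∀ {g : H}, g ∈ G → g ∈ O → ∃ x : closure U, ((x : G) : H) = g := by
    intro g hg hgO
    have h1 : (⟨g, hg⟩ : G) ∈ U := by
      rw [← hOU]
      exact hgO
    exact ⟨⟨⟨g, hg⟩, subset_closure h1⟩, rfl⟩
  -- refinement
  have href : ∀ {P : Set H}, IsOpen P → ∀ x : closure U, ((x : G) : H) ∈ P →
      ∃ R : Set H, IsOpen R ∧ ((x : G) : H) ∈ R ∧ SI b (tr R) (tr P) := by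
    intro P hP x hx
    obtain ⟨V', hV', hxV', hSI⟩ := exists_SI hb.isInducing (htr hP) (x := x) hx
    have hind : IsInducing (fun x : closure U => ((x : G) : H)) :=
      IsInducing.subtypeVal.comp IsInducing.subtypeVal
    obtain ⟨R, hR, hRV⟩ := hind.isOpen_iff.1 hV'
    refine ⟨R, hR, ?_, ?_⟩
    · rw [← hRV] at hxV'
      exact hxV'
    · have : tr R = V' := hRV
      rw [this]
      exact hSI
  have hdense : ∀ {P : Set H}, IsOpen P → ∀ z ∈ G.topologicalClosure, z ∈ P → ∃ g ∈ G, g ∈ P := by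
    intro P hP z hz hzP
    obtain ⟨g, hg1, hg2⟩ := mem_closure_iff.1 hz P hP hzP
    exact ⟨g, hg2, hg1⟩
  -- states
  let St : Type u := {p : Set H × Set H // IsOpen p.1 ∧ IsOpen p.2 ∧ p.1 ⊆ O ∧ p.2 ⊆ O ∧
    ∃ z ∈ G.topologicalClosure, z ∈ p.1 ∧ z * y⁻¹ ∈ p.2}
  have hstep : ∀ (n : ℕ) (p : St), ∃ q : St, SI b (tr q.1.1) (tr p.1.1) ∧ SI b (tr q.1.2) (tr p.1.2) ∧
      (∀ s ∈ q.1.1, ∀ t ∈ q.1.1, s⁻¹ * t ∈ N n) ∧ ∀ s ∈ q.1.2, s * y ∈ q.1.1 := by
    rintro n ⟨⟨P, P'⟩, hP, hP', hPO, hP'O, z, hz, hzP, hzP'⟩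
    dsimp only at hP hP' hPO hP'O hzP hzP'
    have hQ : IsOpen (P ∩ (fun t => t * y⁻¹) ⁻¹' P') :=
      hP.inter (hP'.preimage (continuous_mul_const _))
    obtain ⟨g, hg, hgP, hgP'⟩ := hdense hQ z hz ⟨hzP, hzP'⟩
    obtain ⟨x, hx⟩ := hmem hg (hPO hgP)
    obtain ⟨R, hR, hxR, hSIR⟩ := href hP x (by rw [hx]; exact hgP)
    -- a small neighbourhood
    have hsm : ∃ M : Set H, IsOpen M ∧ g ∈ M ∧ ∀ s ∈ M, ∀ t ∈ M, s⁻¹ * t ∈ N n := by
      have hc : Continuous fun p : H × H => p.1⁻¹ * p.2 := continuous_fst.inv.mul continuous_snd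
      have h1 : (fun p : H × H => p.1⁻¹ * p.2) ⁻¹' N n ∈ 𝓝 ((g, g) : H × H) := by
        apply hc.continuousAt.preimage_mem_nhds
        rw [inv_mul_cancel]
        exact hN n
      obtain ⟨M₁, hM₁, M₂, hM₂, h2⟩ := mem_nhds_prod_iff.1 h1
      refine ⟨interior (M₁ ∩ M₂), isOpen_interior,
        mem_interior_iff_mem_nhds.2 (inter_mem hM₁ hM₂), fun s hs t ht => ?_⟩
      exact h2 (mk_mem_prod (interior_subset hs).1 (interior_subset ht).2)
    obtain ⟨M, hM, hgM, hMN⟩ := hsm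
    set P₁ : Set H := (P ∩ (fun t => t * y⁻¹) ⁻¹' P') ∩ (R ∩ M) with hP₁
    have hP₁o : IsOpen P₁ := hQ.inter (hR.inter hM)
    have hgP₁ : g ∈ P₁ := ⟨⟨hgP, hgP'⟩, by rw [← hx]; exact hxR, hgM⟩
    have hQ' : IsOpen (P' ∩ (fun t => t * y) ⁻¹' P₁) :=
      hP'.inter (hP₁o.preimage (continuous_mul_const _))
    obtain ⟨g', hg', hg'P', hg'P₁⟩ := hdense hQ' (g * y⁻¹)
      (G.topologicalClosure.mul_mem (G.le_topologicalClosure hg) (G.topologicalClosure.inv_mem hy))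
      ⟨hgP', by
        show g * y⁻¹ * y ∈ P₁
        rwa [inv_mul_cancel_right]⟩
    obtain ⟨x', hx'⟩ := hmem hg' (hP'O hg'P')
    obtain ⟨R', hR', hxR', hSIR'⟩ := href hP' x' (by rw [hx']; exact hg'P')
    have hg'P₁' : g' * y ∈ P₁ := hg'P₁
    refine ⟨⟨(P₁, (P' ∩ (fun t => t * y) ⁻¹' P₁) ∩ R'), hP₁o, hQ'.inter hR',
      fun t ht => hPO ht.1.1, fun t ht => hP'O ht.1.1, g' * y,
      G.topologicalClosure.mul_mem (G.le_topologicalClosure hg') hy, hg'P₁', ?_⟩, ?_, ?_, ?_, ?_⟩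
    · show g' * y * y⁻¹ ∈ _
      rw [mul_inv_cancel_right]
      exact ⟨⟨hg'P', hg'P₁⟩, by rw [← hx']; exact hxR'⟩
    · exact hSIR.mono fun t ht => ht.2.1
    · exact hSIR'.mono fun t ht => ht.2
    · exact fun s hs t ht => hMN s hs.2.2 t ht.2.2
    · exact fun s hs => hs.1.2
  choose F hF1 hF2 hF3 hF4 using hstep
  let p₀ : St := ⟨(O, O), hO, hO, Subset.rfl, Subset.rfl, 1, G.topologicalClosure.one_mem, h1O, by
    show 1 * y⁻¹ ∈ O
    rwa [one_mul]⟩
  let s : ℕ → St := fun n => Nat.rec (motive := fun _ => St) p₀ (fun n p => F n p) n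
  have hs : ∀ n, s (n + 1) = F n (s n) := fun n => rfl
  have hne1 : ∀ n, (tr (s n).1.1).Nonempty := by
    intro n
    obtain ⟨z, hz, hz1, hz2⟩ := (s n).2.2.2.2.2
    obtain ⟨g, hg, hg2⟩ := hdense (s n).2.1 z hz hz1
    obtain ⟨x, hx⟩ := hmem hg ((s n).2.2.2.1 hg2)
    exact ⟨x, by show ((x : G) : H) ∈ (s n).1.1; rw [hx]; exact hg2⟩
  have hne2 : ∀ n, (tr (s n).1.2).Nonempty := by
    intro n
    obtain ⟨z, hz, hz1, hz2⟩ := (s n).2.2.2.2.2
    obtain ⟨g, hg, hg2⟩ := hdense (s n).2.2.1 (z * y⁻¹)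
      (G.topologicalClosure.mul_mem hz (G.topologicalClosure.inv_mem hy)) hz2
    obtain ⟨x, hx⟩ := hmem hg ((s n).2.2.2.2.1 hg2)
    exact ⟨x, by show ((x : G) : H) ∈ (s n).1.2; rw [hx]; exact hg2⟩
  obtain ⟨x, hx⟩ := exists_mem_inter hG (fun n => tr (s n).1.1) hne1 fun n => by
    show SI b (tr (s (n + 1)).1.1) (tr (s n).1.1)
    rw [hs]
    exact hF1 n (s n)
  obtain ⟨x', hx'⟩ := exists_mem_inter hG (fun n => tr (s n).1.2) hne2 fun n => by
    show SI b (tr (s (n + 1)).1.2) (tr (s n).1.2)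
    rw [hs]
    exact hF2 n (s n)
  refine ⟨((x : G) : H)⁻¹ * ((x' : G) : H), G.mul_mem (G.inv_mem (x : G).2) (x' : G).2, fun n => ?_⟩
  have h1 : ((x : G) : H) ∈ (F n (s n)).1.1 := hx (n + 1)
  have h2 : ((x' : G) : H) ∈ (F n (s n)).1.2 := hx' (n + 1)
  have h3 := hF4 n (s n) _ h2
  have h4 := hF3 n (s n) _ h1 _ h3
  rwa [← mul_assoc] at h4

/-- `G` is `G_δ`-dense in its closure. -/
theorem gdelta_dense {U : Set G} (hUo : IsOpen U) (h1U : (1 : G) ∈ U)
    (hWP : IsWeaklyPseudocompact (closure U)) (N : ℕ → Set H) (hN : ∀ n, N n ∈ 𝓝 (1 : H))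
    {y : H} (hy : y ∈ G.topologicalClosure) : ∃ k : H, (∀ n, k ∈ N n) ∧ y * k ∈ G := by
  obtain ⟨O, hO, hOU⟩ := isOpen_induced_iff.1 hUo
  have h1O : (1 : H) ∈ O := by
    have : (1 : G) ∈ (Subtype.val : G → H) ⁻¹' O := by
      rw [hOU]
      exact h1U
    exact this
  have hyO : IsOpen ((fun t => y⁻¹ * t) ⁻¹' O) := hO.preimage (continuous_const_mul _)
  obtain ⟨g₀, hg₀1, hg₀2⟩ := mem_closure_iff.1 hy _ hyO (by
    show y⁻¹ * y ∈ O
    rwa [inv_mul_cancel])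
  have hg₀G : g₀ ∈ G := hg₀2
  obtain ⟨g, hg, hgN⟩ := exists_near hUo hWP hO hOU (fun n => (N n)⁻¹)
    (fun n => inv_mem_nhds_one H (hN n))
    (y := g₀⁻¹ * y)
    (G.topologicalClosure.mul_mem (G.topologicalClosure.inv_mem (G.le_topologicalClosure hg₀G)) hy)
    (by
      rw [mul_inv_rev, inv_inv]
      exact hg₀1) h1O
  refine ⟨(g * (g₀⁻¹ * y))⁻¹, fun n => hgN n, ?_⟩
  have : y * (g * (g₀⁻¹ * y))⁻¹ = g₀ * g⁻¹ := by group
  rw [this]
  exact G.mul_mem hg₀G (G.inv_mem hg)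

/-- The main theorem. -/
theorem main [LocallyCompactSpace H] [T2Space H]
    (h : ∃ U : Set G, IsOpen U ∧ (1 : G) ∈ U ∧ IsWeaklyPseudocompact (closure U)) :
    ∃ V : Set G, IsOpen V ∧ (1 : G) ∈ V ∧ IsPseudocompact (closure V) := by
  obtain ⟨U, hUo, h1U, hWP⟩ := h
  obtain ⟨K₀, hK₀, hK₀1⟩ := exists_compact_mem_nhds (1 : H)
  set V : Set G := (Subtype.val : G → H) ⁻¹' interior K₀ with hV
  have hVo : IsOpen V := isOpen_interior.preimage continuous_subtype_val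
  refine ⟨V, hVo, mem_interior_iff_mem_nhds.2 hK₀1, fun f hf => ?_⟩
  by_contra hcon
  push Not at hcon
  -- large values on `V`
  have h1 : ∀ n : ℕ, ∃ (g : G) (O : Set H), IsOpen O ∧ (g : H) ∈ O ∧ g ∈ V ∧
      ∀ g' : G, (g' : H) ∈ O → ∃ h : g' ∈ closure V, g' ∈ V ∧ (n : ℝ) < |f ⟨g', h⟩| := by
    intro n
    obtain ⟨x, hx⟩ := hcon n
    have h2 : IsOpen {x : closure V | (n : ℝ) < |f x|} := isOpen_lt continuous_const hf.abs
    have hind : IsInducing (fun x : closure V => ((x : G) : H)) :=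
      IsInducing.subtypeVal.comp IsInducing.subtypeVal
    obtain ⟨O, hO, hOV⟩ := hind.isOpen_iff.1 h2
    have hxO : ((x : G) : H) ∈ O := by
      have : x ∈ (fun x : closure V => ((x : G) : H)) ⁻¹' O := by
        rw [hOV]
        exact hx
      exact this
    obtain ⟨g, hg1, hg2⟩ := mem_closure_iff.1 x.2 ((Subtype.val : G → H) ⁻¹' O)
      (hO.preimage continuous_subtype_val) hxO
    refine ⟨g, O ∩ interior K₀, hO.inter isOpen_interior, ⟨hg1, hg2⟩, hg2, fun g' hg' => ?_⟩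
    have h3 : g' ∈ V := hg'.2
    refine ⟨subset_closure h3, h3, ?_⟩
    have : (⟨g', subset_closure h3⟩ : closure V) ∈ {x : closure V | (n : ℝ) < |f x|} := by
      rw [← hOV]
      exact hg'.1
    exact this
  choose g O hO1 hO2 hO3 hO4 using h1
  obtain ⟨y, -, hy⟩ := hK₀.exists_mapClusterPt (f := atTop) (u := fun n => (g n : H))
    (tendsto_principal.2 (Eventually.of_forall fun n => interior_subset (hO3 n)))
  rw [mapClusterPt_iff_frequently] at hy
  have hyG : y ∈ G.topologicalClosure := by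
    show y ∈ closure (G : Set H)
    rw [mem_closure_iff_nhds]
    intro s hs
    obtain ⟨n, hn⟩ := (hy s hs).exists
    exact ⟨_, hn, (g n).2⟩
  obtain ⟨k, hk1, hk2⟩ := gdelta_dense hUo h1U hWP (fun n => (fun t => (g n : H) * t) ⁻¹' O n)
    (fun n => by
      apply (continuous_const_mul (g n : H)).continuousAt.preimage_mem_nhds
      rw [mul_one]
      exact (hO1 n).mem_nhds (hO2 n)) hyG
  have hk1' : ∀ n, (g n : H) * k ∈ O n := hk1
  -- clustering at `y * k`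
  have hcl : ∀ Q : Set H, IsOpen Q → y * k ∈ Q → ∀ m : ℕ, ∃ n ≥ m, ∃ g' : G, (g' : H) ∈ Q ∧
      (g' : H) ∈ O n := by
    intro Q hQ hykQ m
    have h2 : (fun t => t * k) ⁻¹' Q ∈ 𝓝 y :=
      (continuous_mul_const k).continuousAt.preimage_mem_nhds (hQ.mem_nhds hykQ)
    obtain ⟨n, hn, hnQ⟩ := ((hy _ h2).and_eventually (eventually_ge_atTop m)).exists
    have h3 : (g n : H) * k ∈ Q ∩ O n := ⟨hn, hk1' n⟩
    have h4 : (g n : H) * k ∈ closure (G : Set H) := by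
      have hkG : k ∈ G.topologicalClosure := by
        have h5 := G.topologicalClosure.mul_mem (G.topologicalClosure.inv_mem hyG)
          (G.le_topologicalClosure hk2)
        rwa [inv_mul_cancel_left] at h5
      exact G.topologicalClosure.mul_mem (G.le_topologicalClosure (g n).2) hkG
    obtain ⟨g', hg'1, hg'2⟩ := mem_closure_iff.1 h4 _ (hQ.inter (hO1 n)) h3
    exact ⟨n, hnQ, ⟨g', hg'2⟩, hg'1.1, hg'1.2⟩
  have hgV : (⟨y * k, hk2⟩ : G) ∈ closure V := by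
    rw [mem_closure_iff]
    intro Q hQ hyQ
    obtain ⟨Q', hQ', rfl⟩ := isOpen_induced_iff.1 hQ
    obtain ⟨n, -, g', hg'1, hg'2⟩ := hcl Q' hQ' hyQ 0
    obtain ⟨-, hg'3, -⟩ := hO4 n g' hg'2
    exact ⟨g', hg'1, hg'3⟩
  set x₀ : closure V := ⟨⟨y * k, hk2⟩, hgV⟩ with hx₀
  have h5 : IsOpen {x : closure V | |f x| < |f x₀| + 1} := isOpen_lt hf.abs continuous_const
  have hind : IsInducing (fun x : closure V => ((x : G) : H)) :=
    IsInducing.subtypeVal.comp IsInducing.subtypeVal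
  obtain ⟨Q, hQ, hQ2⟩ := hind.isOpen_iff.1 h5
  have hxQ : y * k ∈ Q := by
    have : x₀ ∈ (fun x : closure V => ((x : G) : H)) ⁻¹' Q := by
      rw [hQ2]
      show |f x₀| < |f x₀| + 1
      linarith
    exact this
  obtain ⟨m, hm⟩ := exists_nat_ge (|f x₀| + 1)
  obtain ⟨n, hn, g', hg'1, hg'2⟩ := hcl Q hQ hxQ m
  obtain ⟨hg'3, -, hg'4⟩ := hO4 n g' hg'2
  have h6 : (⟨g', hg'3⟩ : closure V) ∈ {x : closure V | |f x| < |f x₀| + 1} := by
    rw [← hQ2]
    exact hg'1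
  have h7 : |f ⟨g', hg'3⟩| < |f x₀| + 1 := h6
  have h8 : (m : ℝ) ≤ n := by exact_mod_cast hn
  linarith

end groups

end Q182.WP
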